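import Mathlib

/-! The parts of this file: H33.AM.Basic, H33.AM.P.F1a. -/

section

/-!
# Curves, actions, trapping data: internal definitions of the project AUB
-/

set_option autoImplicit false

open MeasureTheory
open scoped RealInnerProductSpace

namespace Pool.Agent.H33.AM

variable {n : ℕ}

/-- The integer vector `k` as an element of `ℝⁿ`. -/
noncomputable def zv (k : Fin n → ℤ) : EuclideanSpace ℝ (Fin n) :=
  WithLp.toLp 2 fun i => (k i : ℝ)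

/-- The integer `k · l`. -/
def dot (k l : Fin n → ℤ) : ℤ := ∑ i, k i * l i

/-- Hypotheses on the kinetic energy `K`, with `D = ∇K`. -/
structure HK (K : EuclideanSpace ℝ (Fin n) → ℝ)
    (D : EuclideanSpace ℝ (Fin n) → EuclideanSpace ℝ (Fin n)) (κ₁ κ₂ : ℝ) : Prop where
  pos : 0 < κ₁
  pos₂ : 0 < κ₂
  lo : ∀ v w, κ₁ / 2 * ‖w - v‖ ^ 2 ≤ K w - K v - ⟪D v, w - v⟫
  hi : ∀ v w, K w - K v - ⟪D v, w - v⟫ ≤ κ₂ / 2 * ‖w - v‖ ^ 2

/-- Hypotheses on the potential `V`, with `F = ∇V`. -/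
structure HV (V : EuclideanSpace ℝ (Fin n) → ℝ)
    (F : EuclideanSpace ℝ (Fin n) → EuclideanSpace ℝ (Fin n)) (B : ℝ) : Prop where
  nonneg : 0 ≤ B
  der : ∀ x, HasGradientAt V (F x) x
  per : ∀ x (k : Fin n → ℤ), V (x + zv k) = V x
  bd : ∀ x, |V x| ≤ B
  bdF : ∀ x, ‖F x‖ ≤ B
  lip : ∀ x y, ‖F x - F y‖ ≤ B * ‖x - y‖

/-- Hypotheses on the magnetic potential `A`, with derivative `A'`. -/
structure HA (A : EuclideanSpace ℝ (Fin n) → EuclideanSpace ℝ (Fin n))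
    (A' : EuclideanSpace ℝ (Fin n) → EuclideanSpace ℝ (Fin n) →L[ℝ] EuclideanSpace ℝ (Fin n))
    (B : ℝ) : Prop where
  nonneg : 0 ≤ B
  der : ∀ x, HasFDerivAt A (A' x) x
  per : ∀ x (k : Fin n → ℤ), A (x + zv k) = A x
  bd : ∀ x, ‖A x‖ ≤ B
  bdA : ∀ x, ‖A' x‖ ≤ B
  lip : ∀ x y, ‖A' x - A' y‖ ≤ B * ‖x - y‖

/-- The Lagrangian `L(x, v) = K(v) + A(x) · v - V(x)`. -/
noncomputable def lag (K : EuclideanSpace ℝ (Fin n) → ℝ)
    (A : EuclideanSpace ℝ (Fin n) → EuclideanSpace ℝ (Fin n)) (V : EuclideanSpace ℝ (Fin n) → ℝ)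
    (x v : EuclideanSpace ℝ (Fin n)) : ℝ :=
  K v + ⟪A x, v⟫ - V x

/-- `x` is a curve on `[a, b]` with the velocity `u`. -/
structure Adm (a b : ℝ) (x u : ℝ → EuclideanSpace ℝ (Fin n)) : Prop where
  le : a ≤ b
  cont : ContinuousOn x (Set.Icc a b)
  der : ∃ s : Set ℝ, s.Countable ∧ ∀ t ∈ Set.Ioo a b \ s, HasDerivAt x (u t) t
  meas : Measurable u
  bd : ∃ R : ℝ, ∀ t, ‖u t‖ ≤ R

/-- The action of a curve with respect to `ℓ + e`. -/
noncomputable def act (l : EuclideanSpace ℝ (Fin n) → EuclideanSpace ℝ (Fin n) → ℝ) (e a b : ℝ)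
    (x u : ℝ → EuclideanSpace ℝ (Fin n)) : ℝ :=
  ∫ t in a..b, (l (x t) (u t) + e)

/-- There is a curve from `x` to `y`, on `[0, T]`, with the action `r` with respect to `ℓ + e`. -/
def Conn (l : EuclideanSpace ℝ (Fin n) → EuclideanSpace ℝ (Fin n) → ℝ) (e T : ℝ)
    (x y : EuclideanSpace ℝ (Fin n)) (r : ℝ) : Prop :=
  ∃ ξ u : ℝ → EuclideanSpace ℝ (Fin n), Adm 0 T ξ u ∧ ξ 0 = x ∧ ξ T = y ∧ act l e 0 T ξ u = r

/-- Hypotheses on a Lagrangian `ℓ(x, v)`. -/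
structure HL (l : EuclideanSpace ℝ (Fin n) → EuclideanSpace ℝ (Fin n) → ℝ) : Prop where
  cont : Continuous fun p : EuclideanSpace ℝ (Fin n) × EuclideanSpace ℝ (Fin n) => l p.1 p.2
  per : ∀ x v (k : Fin n → ℤ), l (x + zv k) v = l x v

/-- All curves which are closed modulo the integer vectors `k` with `k₀ · k = 0` have a nonnegative
action with respect to `ℓ + e`. -/
def Crit (l : EuclideanSpace ℝ (Fin n) → EuclideanSpace ℝ (Fin n) → ℝ) (k₀ : Fin n → ℤ)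
    (e : ℝ) : Prop :=
  ∀ (T : ℝ) (x : EuclideanSpace ℝ (Fin n)) (k : Fin n → ℤ) (r : ℝ), dot k₀ k = 0 →
    Conn l e T x (x + zv k) r → 0 ≤ r

/-- The trapping data: `ℓ(x, v)` is close, in the sense of the average along curves, to
`κ |v - q|² / 2 - w(k₀ · x)`, `q = s P`, `k₀ · P = 0`. -/
structure Trap (l : EuclideanSpace ℝ (Fin n) → EuclideanSpace ℝ (Fin n) → ℝ)
    (k₀ m P : Fin n → ℤ) (s : ℝ) (w : ℝ → ℝ) (κ₁ κ₂ ε β₀ β₁ M : ℝ) : Prop where
  hl : HL l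
  km : dot k₀ m = 1
  kP : dot k₀ P = 0
  s_pos : 0 < s
  w_cont : Continuous w
  w_per : ∀ θ, w (θ + 1) = w θ
  w_le : ∀ θ, w θ ≤ M
  w_max : ∃ θ, w θ = M
  κ₁_pos : 0 < κ₁
  κ₂_pos : 0 < κ₂
  ε_nonneg : 0 ≤ ε
  β₀_nonneg : 0 ≤ β₀
  β₁_nonneg : 0 ≤ β₁
  lo : ∀ (a b : ℝ) (x u : ℝ → EuclideanSpace ℝ (Fin n)), Adm a b x u →
    (∫ t in a..b, (κ₁ / 2 * ‖u t - s • zv P‖ ^ 2 - w ⟪zv k₀, x t⟫)) - ε * (b - a) - β₀
      - β₁ * (∫ t in a..b, ‖u t - s • zv P‖) ≤ ∫ t in a..b, l (x t) (u t)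
  hi : ∀ (a b : ℝ) (x u : ℝ → EuclideanSpace ℝ (Fin n)), Adm a b x u →
    (∫ t in a..b, l (x t) (u t)) ≤
      (∫ t in a..b, (κ₂ / 2 * ‖u t - s • zv P‖ ^ 2 - w ⟪zv k₀, x t⟫)) + ε * (b - a) + β₀
        + β₁ * (∫ t in a..b, ‖u t - s • zv P‖)

/-- Points of the level `k₀ · x = θ₀` can be connected at a cost at most `κ` (modulo `k₀ · k = 0`). -/
def Closes (l : EuclideanSpace ℝ (Fin n) → EuclideanSpace ℝ (Fin n) → ℝ) (k₀ : Fin n → ℤ)
    (e κ θ₀ : ℝ) : Prop :=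
  ∀ x y : EuclideanSpace ℝ (Fin n), ⟪zv k₀, x⟫ = θ₀ → ⟪zv k₀, y⟫ = θ₀ →
    ∃ (T : ℝ) (k : Fin n → ℤ) (r : ℝ), dot k₀ k = 0 ∧ Conn l e T x (y + zv k) r ∧ r ≤ κ

/-- Points of levels at distance at most one can be connected at a cost at most `C₁`. -/
def Rough (l : EuclideanSpace ℝ (Fin n) → EuclideanSpace ℝ (Fin n) → ℝ) (k₀ : Fin n → ℤ)
    (e C₁ : ℝ) : Prop :=
  ∀ x y : EuclideanSpace ℝ (Fin n), |⟪zv k₀, y⟫ - ⟪zv k₀, x⟫| ≤ 1 →
    ∃ (T : ℝ) (k : Fin n → ℤ) (r : ℝ), dot k₀ k = 0 ∧ Conn l e T x (y + zv k) r ∧ r ≤ C₁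

/-- The conclusion of the trapping lemma. -/
def Trapped (l : EuclideanSpace ℝ (Fin n) → EuclideanSpace ℝ (Fin n) → ℝ) (k₀ : Fin n → ℤ) : Prop :=
  ∃ e fu fd C : ℝ, -fd < fu ∧ Crit l k₀ e ∧ (∀ e' < e, ¬ Crit l k₀ e') ∧
    ∀ η ∈ Set.Icc (-fd) fu, ∀ (T : ℝ) (x y : EuclideanSpace ℝ (Fin n)) (r : ℝ), Conn l e T x y r →
      η * (⟪zv k₀, y⟫ - ⟪zv k₀, x⟫) - C ≤ r

/-- The action functional has a flat: the normalised action (critical value `E₀`) is bounded below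
for all the cohomology classes `c₀ + η k₀`, `η ∈ [η₁, η₂]`, and `E₀` is the critical value. -/
def Flat (L : EuclideanSpace ℝ (Fin n) → EuclideanSpace ℝ (Fin n) → ℝ) : Prop :=
  ∃ (k₀ : Fin n → ℤ) (c₀ : EuclideanSpace ℝ (Fin n)) (E₀ η₁ η₂ C : ℝ), k₀ ≠ 0 ∧ η₁ < η₂ ∧
    (∀ η ∈ Set.Icc η₁ η₂, ∀ (T : ℝ) (x u : ℝ → EuclideanSpace ℝ (Fin n)), Adm 0 T x u →
      -C ≤ ∫ t in (0 : ℝ)..T, (L (x t) (u t) - ⟪c₀ + η • zv k₀, u t⟫ + E₀)) ∧
    ∀ E' < E₀, ∃ (T : ℝ) (x u : ℝ → EuclideanSpace ℝ (Fin n)) (k : Fin n → ℤ), 0 < T ∧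
      Adm 0 T x u ∧ x T = x 0 + zv k ∧ dot k₀ k = 0 ∧
      (∫ t in (0 : ℝ)..T, (L (x t) (u t) - ⟪c₀, u t⟫ + E')) < 0

/-- The discrete action, `v_i = (x_{i + 1} - x_i) / τ`. -/
noncomputable def Sd (K : EuclideanSpace ℝ (Fin n) → ℝ)
    (A : EuclideanSpace ℝ (Fin n) → EuclideanSpace ℝ (Fin n)) (V : EuclideanSpace ℝ (Fin n) → ℝ)
    (τ : ℝ) (N : ℕ) (x : ℤ → EuclideanSpace ℝ (Fin n)) : ℝ :=
  ∑ i ∈ Finset.range N, τ * lag K A V (x i) ((1 / τ) • (x (i + 1) - x i))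

/-- Minimisers of the discrete action, `N` steps of length `T / N`, closed modulo `k`. -/
def IsDM (K : EuclideanSpace ℝ (Fin n) → ℝ)
    (A : EuclideanSpace ℝ (Fin n) → EuclideanSpace ℝ (Fin n)) (V : EuclideanSpace ℝ (Fin n) → ℝ)
    (T : ℝ) (N : ℕ) (k : Fin n → ℤ) (x : ℤ → EuclideanSpace ℝ (Fin n)) : Prop :=
  (∀ i, x (i + N) = x i + zv k) ∧
    ∀ y : ℤ → EuclideanSpace ℝ (Fin n), (∀ i, y (i + N) = y i + zv k) →
      Sd K A V (T / N) N x ≤ Sd K A V (T / N) N y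

/-- The Hamiltonian vector field of `K(v) + A(x) · v - V(x)` in the coordinates `(x, p)`,
`p = ∇K(v) + A(x)`, `D' = (∇K)⁻¹`. -/
noncomputable def field
    (A : EuclideanSpace ℝ (Fin n) → EuclideanSpace ℝ (Fin n))
    (A' : EuclideanSpace ℝ (Fin n) → EuclideanSpace ℝ (Fin n) →L[ℝ] EuclideanSpace ℝ (Fin n))
    (F D' : EuclideanSpace ℝ (Fin n) → EuclideanSpace ℝ (Fin n))
    (z : EuclideanSpace ℝ (Fin n) × EuclideanSpace ℝ (Fin n)) :
    EuclideanSpace ℝ (Fin n) × EuclideanSpace ℝ (Fin n) :=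
  (D' (z.2 - A z.1), ContinuousLinearMap.adjoint (A' z.1) (D' (z.2 - A z.1)) - F z.1)

/-- `φ` is the flow of the vector field `Y`. -/
structure IsFlow {W : Type*} [NormedAddCommGroup W] [NormedSpace ℝ W] (Y : W → W)
    (φ : ℝ → W → W) : Prop where
  zero : ∀ z, φ 0 z = z
  der : ∀ z t, HasDerivAt (fun s => φ s z) (Y (φ t z)) t
  cont : Continuous fun p : ℝ × W => φ p.1 p.2
  uniq : ∀ γ : ℝ → W, (∀ t, HasDerivAt γ (Y (γ t)) t) → ∀ s t, γ (s + t) = φ s (γ t)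

/-- Solutions of the Euler-Lagrange equation of `K(v) + A(x) · v - V(x)`. -/
structure Sol (D F A : EuclideanSpace ℝ (Fin n) → EuclideanSpace ℝ (Fin n))
    (A' : EuclideanSpace ℝ (Fin n) → EuclideanSpace ℝ (Fin n) →L[ℝ] EuclideanSpace ℝ (Fin n))
    (γ v : ℝ → EuclideanSpace ℝ (Fin n)) : Prop where
  cont : Continuous v
  der : ∀ t, HasDerivAt γ (v t) t
  el : ∀ t, HasDerivAt (fun s => D (v s) + A (γ s))
    (ContinuousLinearMap.adjoint (A' (γ t)) (v t) - F (γ t)) t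

/-- The average of `g` over the closed line `x + t P`, `t ∈ [0, 1]`. -/
noncomputable def avP (g : EuclideanSpace ℝ (Fin n) → ℝ) (P : Fin n → ℤ)
    (x : EuclideanSpace ℝ (Fin n)) : ℝ :=
  ∫ t in (0 : ℝ)..1, g (x + t • zv P)

/-- The average of the `ℤⁿ`-periodic function `g` over `{k₀ · x = θ}`, if `k₀ · m = 1`. -/
noncomputable def avK (g : EuclideanSpace ℝ (Fin n) → ℝ) (k₀ m : Fin n → ℤ) (θ : ℝ) : ℝ :=
  ∫ y in {y : EuclideanSpace ℝ (Fin n) | ∀ i, y i ∈ Set.Ico (0 : ℝ) 1},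
    g (θ • zv m + y - ⟪zv k₀, y⟫ • zv m)

/-- The integer vector `N ^ n P₀ + z - (k₀ · z) m`, `z = (1, N, …, N ^ (n - 1))`. -/
def PN (k₀ m P₀ : Fin n → ℤ) (N : ℕ) : Fin n → ℤ := fun i =>
  (N : ℤ) ^ n * P₀ i + (N : ℤ) ^ (i : ℕ) - dot k₀ (fun j => (N : ℤ) ^ (j : ℕ)) * m i

end Pool.Agent.H33.AM

end

section

/-!
# Module F1: global flows

* `flow_of_lipschitz`: Picard-Lindelöf gives for every `z` a solution on every interval
  (`IsPicardLindelof`, or the contraction principle with a weighted norm), glue; uniqueness by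
  Gronwall (`ODE_solution_unique_univ`), continuity in `z`: `dist_le_of_trajectories_ODE`.
* `flow_of_growth`: `Y` is Lipschitz on every ball and `‖Y z‖ ≤ C (1 + ‖z‖)`: for `ρ_R(z) =
  min(1, R/‖z‖) z` (Lipschitz with the constant 2 in every normed space) the field `Y ∘ ρ_R` is
  Lipschitz (globally), and its solutions starting in the ball of radius `r` stay for `|t| ≤ T` in the
  ball of radius `(1 + r) exp(C T)`, so they are solutions for `Y` if `R` is large.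
* `euler`: let `z 0, …, z N` be in the ball of radius `R`, `N τ ≤ T`, and
  `‖z (i + 1) - z i - τ Y (z i)‖ ≤ c`. Then `‖φ (i τ) (z 0) - z i‖ ≤ C₂ (τ + c/τ)`, `C₂ = C₂(Y, R, T)`:
  the exact solution from the ball `R` stays in a ball `R'`, where `Y` has a Lipschitz constant `K'` and
  a bound `M'`; `e_i = ‖φ (i τ) (z 0) - z i‖` satisfies `e_{i+1} ≤ (1 + K' τ) e_i + K' M' τ² + c`, so
  `e_i ≤ i exp(K' T) (K' M' τ² + c)`.
-/

set_option autoImplicit false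

open MeasureTheory
open scoped RealInnerProductSpace

namespace Pool.Agent.H33.AM

variable {W : Type*} [NormedAddCommGroup W] [NormedSpace ℝ W] [CompleteSpace W]

private theorem f1a_local {Y : W → W} {K : NNReal} (hY : LipschitzWith K Y) (z : W) :
    ∃ α : ℝ → W, α 0 = z ∧ ∀ t ∈ Set.Ioo (-(1 / (2 * ((K : ℝ) + 1)))) (1 / (2 * ((K : ℝ) + 1))),
      HasDerivAt α (Y (α t)) t := by
  set ε : ℝ := 1 / (2 * ((K : ℝ) + 1)) with hε
  have hK : (0 : ℝ) ≤ K := K.2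
  have hε0 : 0 < ε := by positivity
  have h0 : (0 : ℝ) ∈ Set.Icc (-ε) ε := ⟨by linarith, hε0.le⟩
  have hpl : IsPicardLindelof (fun _ : ℝ => Y) (tmin := -ε) (tmax := ε) ⟨0, h0⟩ z
      (‖Y z‖₊ + 1) 0 (‖Y z‖₊ + K * (‖Y z‖₊ + 1)) K := by
    refine IsPicardLindelof.of_time_independent ?_ hY.lipschitzOnWith ?_
    · intro x hx
      have h1 : ‖Y x - Y z‖ ≤ K * ‖x - z‖ := by
        simpa [dist_eq_norm] using hY.dist_le_mul x z
      have h2 : ‖x - z‖ ≤ ‖Y z‖ + 1 := by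
        have := hx
        rw [Metric.mem_closedBall, dist_eq_norm] at this
        simpa using this
      have h3 : ‖Y x‖ ≤ ‖Y z‖ + ‖Y x - Y z‖ := by
        have := norm_add_le (Y z) (Y x - Y z)
        rwa [add_sub_cancel] at this
      have h4 : (K : ℝ) * ‖x - z‖ ≤ K * (‖Y z‖ + 1) := by gcongr
      push_cast
      linarith
    · push_cast
      simp only [sub_zero, zero_sub, neg_neg, max_self]
      rw [hε, mul_one_div, div_le_iff₀ (by positivity)]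
      nlinarith [norm_nonneg (Y z), mul_nonneg hK (norm_nonneg (Y z))]
  obtain ⟨α, hα0, hα⟩ := hpl.exists_eq_forall_mem_Icc_hasDerivWithinAt₀
  exact ⟨α, hα0, fun t ht =>
    (hα t (Set.Ioo_subset_Icc_self ht)).hasDerivAt (Icc_mem_nhds ht.1 ht.2)⟩

omit [CompleteSpace W] in
private theorem f1a_unique {Y : W → W} {K : NNReal} (hY : LipschitzWith K Y) {a b t₀ : ℝ}
    {α β : ℝ → W} (ht : t₀ ∈ Set.Ioo a b) (hα : ∀ t ∈ Set.Ioo a b, HasDerivAt α (Y (α t)) t)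
    (hβ : ∀ t ∈ Set.Ioo a b, HasDerivAt β (Y (β t)) t) (h : α t₀ = β t₀) :
    Set.EqOn α β (Set.Ioo a b) :=
  ODE_solution_unique_of_mem_Ioo (v := fun _ => Y) (s := fun _ => Set.univ)
    (fun _ _ => hY.lipschitzOnWith) ht (fun t ht => ⟨hα t ht, trivial⟩)
    (fun t ht => ⟨hβ t ht, trivial⟩) h

omit [CompleteSpace W] in
private theorem f1a_ext {Y : W → W} {K : NNReal} (hY : LipschitzWith K Y) {T : ℝ} (hT : 0 < T)
    (h : ∀ z, ∃ α : ℝ → W, α 0 = z ∧ ∀ t ∈ Set.Ioo (-T) T, HasDerivAt α (Y (α t)) t) (z : W) :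
    ∃ α : ℝ → W, α 0 = z ∧ ∀ t ∈ Set.Ioo (-(3 / 2 * T)) (3 / 2 * T),
      HasDerivAt α (Y (α t)) t := by
  obtain ⟨α, hα0, hα⟩ := h z
  obtain ⟨β, hβ0, hβ⟩ := h (α (T / 2))
  obtain ⟨δ, hδ0, hδ⟩ := h (α (-(T / 2)))
  have hβ' : ∀ t ∈ Set.Ioo (-(T / 2)) (3 / 2 * T),
      HasDerivAt (fun t => β (t - T / 2)) (Y (β (t - T / 2))) t := by
    intro t ht
    exact (hβ (t - T / 2) ⟨by linarith [ht.1], by linarith [ht.2]⟩).comp_sub_const t (T / 2)
  have hδ' : ∀ t ∈ Set.Ioo (-(3 / 2 * T)) (T / 2),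
      HasDerivAt (fun t => δ (t + T / 2)) (Y (δ (t + T / 2))) t := by
    intro t ht
    exact (hδ (t + T / 2) ⟨by linarith [ht.1], by linarith [ht.2]⟩).comp_add_const t (T / 2)
  have e1 : Set.EqOn (fun t => β (t - T / 2)) α (Set.Ioo (-(T / 2)) T) := by
    refine f1a_unique hY (t₀ := T / 2) ⟨by linarith, by linarith⟩ ?_ ?_ ?_
    · exact fun t ht => hβ' t ⟨ht.1, by linarith [ht.2]⟩
    · exact fun t ht => hα t ⟨by linarith [ht.1], ht.2⟩
    · simp only [sub_self, hβ0]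
  have e2 : Set.EqOn (fun t => δ (t + T / 2)) α (Set.Ioo (-T) (T / 2)) := by
    refine f1a_unique hY (t₀ := -(T / 2)) ⟨by linarith, by linarith⟩ ?_ ?_ ?_
    · exact fun t ht => hδ' t ⟨by linarith [ht.1], ht.2⟩
    · exact fun t ht => hα t ⟨ht.1, by linarith [ht.2]⟩
    · simp only [neg_add_cancel, hδ0]
  refine ⟨fun t => if t ≤ 0 then δ (t + T / 2) else β (t - T / 2), ?_, ?_⟩
  · have h1 := e2 (show (0 : ℝ) ∈ Set.Ioo (-T) (T / 2) from ⟨by linarith, by linarith⟩)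
    simp only [le_refl, if_true]
    exact h1.trans hα0
  · intro t ht
    rcases lt_trichotomy t 0 with h1 | h1 | h1
    · have h2 : (fun t => if t ≤ 0 then δ (t + T / 2) else β (t - T / 2)) =ᶠ[nhds t]
          fun t => δ (t + T / 2) := by
        filter_upwards [Iio_mem_nhds h1] with s hs
        rw [if_pos (le_of_lt hs)]
      have h3 := (hδ' t ⟨ht.1, by linarith⟩).congr_of_eventuallyEq h2
      simp only [if_pos h1.le]
      exact h3
    · subst h1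
      have h2 : (fun t => if t ≤ 0 then δ (t + T / 2) else β (t - T / 2)) =ᶠ[nhds 0] α := by
        filter_upwards [Ioo_mem_nhds (show -(T / 2) < (0 : ℝ) by linarith)
          (show (0 : ℝ) < T / 2 by linarith)] with s hs
        split_ifs
        · exact e2 ⟨by linarith [hs.1], hs.2⟩
        · exact e1 ⟨hs.1, by linarith [hs.2]⟩
      have h3 := (hα 0 ⟨by linarith, by linarith⟩).congr_of_eventuallyEq h2
      have h4 := h2.eq_of_nhds
      simp only [le_refl, if_true] at h4 ⊢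
      rw [h4]
      exact h3
    · have h2 : (fun t => if t ≤ 0 then δ (t + T / 2) else β (t - T / 2)) =ᶠ[nhds t]
          fun t => β (t - T / 2) := by
        filter_upwards [Ioi_mem_nhds h1] with s hs
        rw [if_neg (not_le.2 hs)]
      have h3 := (hβ' t ⟨by linarith, ht.2⟩).congr_of_eventuallyEq h2
      simp only [if_neg (not_le.2 h1)]
      exact h3

private theorem f1a_all {Y : W → W} {K : NNReal} (hY : LipschitzWith K Y) (T : ℝ) (z : W) :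
    ∃ α : ℝ → W, α 0 = z ∧ ∀ t ∈ Set.Ioo (-T) T, HasDerivAt α (Y (α t)) t := by
  set ε : ℝ := 1 / (2 * ((K : ℝ) + 1)) with hε
  have hK : (0 : ℝ) ≤ K := K.2
  have hε0 : 0 < ε := by positivity
  have h1 : ∀ n : ℕ, ∀ z, ∃ α : ℝ → W, α 0 = z ∧
      ∀ t ∈ Set.Ioo (-((3 / 2) ^ n * ε)) ((3 / 2) ^ n * ε), HasDerivAt α (Y (α t)) t := by
    intro n
    induction n with
    | zero =>
      intro z
      rw [pow_zero, one_mul]
      exact f1a_local hY z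
    | succ n ih =>
      intro z
      have h2 := f1a_ext hY (by positivity) ih z
      rw [show (3 / 2 : ℝ) * ((3 / 2) ^ n * ε) = (3 / 2) ^ (n + 1) * ε by ring] at h2
      exact h2
  obtain ⟨n, hn⟩ := pow_unbounded_of_one_lt (T / ε) (show (1 : ℝ) < 3 / 2 by norm_num)
  obtain ⟨α, hα0, hα⟩ := h1 n z
  have h3 : T < (3 / 2) ^ n * ε := by
    rwa [div_lt_iff₀ hε0] at hn
  exact ⟨α, hα0, fun t ht => hα t ⟨by linarith [ht.1], by linarith [ht.2]⟩⟩

omit [CompleteSpace W] in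
/-- Gluing of the solutions on all bounded intervals. -/
private theorem f1a_glue {Y : W → W} {z : W}
    (hU : ∀ (T : ℝ) (α β : ℝ → W), (∀ t ∈ Set.Ioo (-T) T, HasDerivAt α (Y (α t)) t) →
      (∀ t ∈ Set.Ioo (-T) T, HasDerivAt β (Y (β t)) t) → α 0 = β 0 →
      Set.EqOn α β (Set.Ioo (-T) T))
    (h : ∀ T : ℝ, ∃ α : ℝ → W, α 0 = z ∧ ∀ t ∈ Set.Ioo (-T) T, HasDerivAt α (Y (α t)) t) :
    ∃ γ : ℝ → W, γ 0 = z ∧ ∀ t, HasDerivAt γ (Y (γ t)) t := by
  choose α hα0 hα using h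
  have key : ∀ t₀ t : ℝ, |t| < |t₀| + 1 → α (|t| + 1) t = α (|t₀| + 2) t := by
    intro t₀ t ht
    refine hU (|t| + 1) _ _ (hα _) ?_ ?_ ?_
    · exact fun s hs => hα _ s ⟨by linarith [hs.1], by linarith [hs.2]⟩
    · rw [hα0, hα0]
    · exact ⟨by linarith [neg_abs_le t], by linarith [le_abs_self t]⟩
  refine ⟨fun t => α (|t| + 1) t, hα0 _, fun t₀ => ?_⟩
  have h1 : (fun t => α (|t| + 1) t) =ᶠ[nhds t₀] α (|t₀| + 2) := by
    have h2 : ∀ᶠ t in nhds t₀, |t| < |t₀| + 1 :=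
      continuous_abs.continuousAt.eventually_lt continuousAt_const (by linarith)
    filter_upwards [h2] with t ht
    exact key t₀ t ht
  have h2 := hα (|t₀| + 2) t₀ ⟨by linarith [neg_abs_le t₀], by linarith [le_abs_self t₀]⟩
  have h3 := h2.congr_of_eventuallyEq h1
  have h4 : α (|t₀| + 1) t₀ = α (|t₀| + 2) t₀ := key t₀ t₀ (by linarith)
  simp only
  rw [h4]
  exact h3

omit [CompleteSpace W] in
private theorem f1a_dist {Y : W → W} {K : NNReal} (hY : LipschitzWith K Y) {α β : ℝ → W}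
    (hα : ∀ t, HasDerivAt α (Y (α t)) t) (hβ : ∀ t, HasDerivAt β (Y (β t)) t) {t : ℝ}
    (ht : 0 ≤ t) : dist (α t) (β t) ≤ dist (α 0) (β 0) * Real.exp (K * t) := by
  have h := dist_le_of_trajectories_ODE (v := fun _ => Y) (a := 0) (b := t) (fun _ => hY)
    (fun s _ => (hα s).continuousAt.continuousWithinAt) (fun s _ => (hα s).hasDerivWithinAt)
    (fun s _ => (hβ s).continuousAt.continuousWithinAt) (fun s _ => (hβ s).hasDerivWithinAt)
    le_rfl t ⟨ht, le_rfl⟩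
  rwa [sub_zero] at h

theorem flow_of_lipschitz {Y : W → W} {K : NNReal} (hY : LipschitzWith K Y) :
    ∃ φ : ℝ → W → W, IsFlow Y φ := by
  have hU : ∀ (T : ℝ) (α β : ℝ → W), (∀ t ∈ Set.Ioo (-T) T, HasDerivAt α (Y (α t)) t) →
      (∀ t ∈ Set.Ioo (-T) T, HasDerivAt β (Y (β t)) t) → α 0 = β 0 →
      Set.EqOn α β (Set.Ioo (-T) T) := by
    intro T α β hα hβ h0
    rcases le_or_gt T 0 with hT | hT
    · intro t ht
      exact absurd (ht.1.trans ht.2) (by linarith)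
    · exact f1a_unique hY (t₀ := 0) ⟨by linarith, hT⟩ hα hβ h0
  have hG : ∀ z, ∃ γ : ℝ → W, γ 0 = z ∧ ∀ t, HasDerivAt γ (Y (γ t)) t := fun z =>
    f1a_glue hU fun T => f1a_all hY T z
  choose γ hγ0 hγ using hG
  have huniq : ∀ α β : ℝ → W, (∀ t, HasDerivAt α (Y (α t)) t) →
      (∀ t, HasDerivAt β (Y (β t)) t) → α 0 = β 0 → α = β := by
    intro α β hα hβ h0
    exact ODE_solution_unique_univ (v := fun _ => Y) (s := fun _ => Set.univ) (t₀ := 0)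
      (fun _ => hY.lipschitzOnWith) (fun t => ⟨hα t, trivial⟩) (fun t => ⟨hβ t, trivial⟩) h0
  have hYn : LipschitzWith K (fun z => -Y z) := by
    intro x y
    rw [edist_neg_neg]
    exact hY x y
  have hdist : ∀ z w t, dist (γ z t) (γ w t) ≤ dist z w * Real.exp (K * |t|) := by
    intro z w t
    rcases le_or_gt 0 t with ht | ht
    · have h1 := f1a_dist hY (hγ z) (hγ w) ht
      rw [abs_of_nonneg ht]
      rwa [hγ0, hγ0] at h1
    · have hr : ∀ z s, HasDerivAt (fun s => γ z (-s)) (-Y (γ z (-s))) s := by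
        intro z s
        have h1 := HasDerivAt.scomp s (hγ z (-s)) (hasDerivAt_neg s)
        rw [neg_one_smul] at h1
        exact h1
      have h1 := f1a_dist hYn (hr z) (hr w) (show 0 ≤ -t by linarith)
      simp only [neg_neg, neg_zero, hγ0] at h1
      rwa [← abs_of_neg ht] at h1
  refine ⟨fun t z => γ z t, hγ0, fun z t => hγ z t, ?_, ?_⟩
  · rw [continuous_iff_continuousAt]
    rintro ⟨t₀, z₀⟩
    rw [ContinuousAt, tendsto_iff_dist_tendsto_zero]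
    have h1 : Filter.Tendsto (fun p : ℝ × W => dist p.2 z₀ * Real.exp (K * |p.1|) +
        dist (γ z₀ p.1) (γ z₀ t₀)) (nhds (t₀, z₀))
        (nhds (dist z₀ z₀ * Real.exp (K * |t₀|) + dist (γ z₀ t₀) (γ z₀ t₀))) := by
      have hc : Continuous (γ z₀) := continuous_iff_continuousAt.2 fun t => (hγ z₀ t).continuousAt
      have h2 : Continuous (fun p : ℝ × W => dist p.2 z₀ * Real.exp (K * |p.1|) +
        dist (γ z₀ p.1) (γ z₀ t₀)) := by fun_prop
      exact h2.tendsto (t₀, z₀)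
    rw [dist_self, dist_self, zero_mul, add_zero] at h1
    refine squeeze_zero (fun _ => dist_nonneg) (fun p => ?_) h1
    exact (dist_triangle _ (γ z₀ p.1) _).trans (add_le_add_left (hdist _ _ _) _)
  · intro α hα s t
    have h1 : ∀ s, HasDerivAt (fun s => α (s + t)) (Y (α (s + t))) s := fun s =>
      (hα (s + t)).comp_add_const s t
    have h2 := huniq (fun s => α (s + t)) (γ (α t)) h1 (hγ _) (by simp [hγ0])
    exact congrFun h2 s

end Pool.Agent.H33.AM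

end
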