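import Pool.Agent.H47.B0.H33.AM.Defs
import Pool.Agent.H47.B0.M01

/-! The parts of this file: H33.AM.P.I1a, H33.AM.P.R2, H33.AM.P.R1, H33.AM.P.V2a, H33.AM.P.V4b, H33.AM.P.F1c. -/

section

/-!
# Module I1: the Euler-Lagrange flow on `𝕋ⁿ × ℝⁿ × 𝕋`

* `pr_eq_iff`: `pr x = pr y` iff `x - y` is an integer vector (`AddCircle.coe_eq_coe_iff_of_mem_Ico`,
  `AddCircle.coe_eq_zero_iff`, `QuotientAddGroup`).
* `isEL_iff`: for `L x v t = lag K A V x v`: `gradient (fun v => L x v t) v = D v + A x`,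
  `gradient (fun x => L x v t) x = adjoint (A' x) v - F x`. So `IsEL` says: `γ` is differentiable and
  `s ↦ D (deriv γ s) + A (γ s)` has the derivative `adjoint (A' (γ t)) (deriv γ t) - F (γ t)`. Then
  `D (deriv γ)` is continuous, and `deriv γ = D' (D (deriv γ))` is continuous.
* `exists_ELflow`: with the flow `φ` of `Y = field A A' F D'` (`field_loc`, `field_growth`,
  `flow_of_growth`) put `Φ s (X, v, τ) = (pr (z.1), D' (z.2 - A z.1), τ + s)`,
  `z = φ s (repE X, D v + A (repE X))`. `Y` is periodic in `x`, so the same formula holds for every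
  lift `x` of `X` (uniqueness of the flow). Measurability: `repE` is measurable
  (`AddCircle.measurable_equivIco` or similar), `φ s` is continuous, `pr` is continuous.
* `exists_ELflow` also gives: every solution `Sol D F A A' γ v` is a trajectory.
-/

set_option autoImplicit false

open MeasureTheory
open scoped RealInnerProductSpace

namespace Pool.Agent.H33.AM

variable {n : ℕ} {K V : EuclideanSpace ℝ (Fin n) → ℝ}
  {D F A : EuclideanSpace ℝ (Fin n) → EuclideanSpace ℝ (Fin n)}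
  {A' : EuclideanSpace ℝ (Fin n) → EuclideanSpace ℝ (Fin n) →L[ℝ] EuclideanSpace ℝ (Fin n)}
  {κ₁ κ₂ B T : ℝ}

theorem pr_eq_iff (x y : EuclideanSpace ℝ (Fin n)) :
    pr x = pr y ↔ ∃ k : Fin n → ℤ, x = y + zv k := by
  have key : ∀ a b : ℝ, ((a : ℝ) : UnitAddCircle) = (b : UnitAddCircle) ↔ ∃ m : ℤ, a = b + m := by
    intro a b
    rw [← sub_eq_zero, ← AddCircle.coe_sub, AddCircle.coe_eq_zero_iff]
    constructor
    · rintro ⟨m, hm⟩
      refine ⟨m, ?_⟩
      simp only [zsmul_eq_mul, mul_one] at hm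
      linarith
    · rintro ⟨m, hm⟩
      refine ⟨m, ?_⟩
      simp only [zsmul_eq_mul, mul_one]
      linarith
  constructor
  · intro h
    have h1 : ∀ i, ∃ m : ℤ, x i = y i + m := fun i => (key _ _).1 (congrFun h i)
    choose k hk using h1
    refine ⟨k, ?_⟩
    ext i
    simp only [zv, PiLp.add_apply]
    exact hk i
  · rintro ⟨k, hk⟩
    funext i
    refine (key _ _).2 ⟨k i, ?_⟩
    rw [hk]
    simp [zv]

private theorem I1a_rep_coe (a : UnitAddCircle) : ((rep a : ℝ) : UnitAddCircle) = a := by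
  unfold rep
  exact (AddCircle.equivIco (1 : ℝ) 0).symm_apply_apply a

theorem pr_repE (X : Tor n) : pr (repE X) = X := by
  funext i
  exact I1a_rep_coe (X i)

theorem rep_coe (a : UnitAddCircle) : ((rep a : ℝ) : UnitAddCircle) = a :=
  I1a_rep_coe a

theorem measurable_repE : Measurable (repE (n := n)) := by
  have h1 : Measurable rep := by
    unfold rep
    exact measurable_subtype_coe.comp (AddCircle.measurableEquivIco (1 : ℝ) 0).measurable
  have h2 : Measurable fun X : Tor n => fun i => rep (X i) :=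
    measurable_pi_lambda _ fun i => h1.comp (measurable_pi_apply i)
  exact (WithLp.measurable_toLp 2 _).comp h2

theorem continuous_pr : Continuous (pr (n := n)) := by
  unfold pr
  refine continuous_pi fun i => ?_
  exact (AddCircle.continuous_mk' (1 : ℝ)).comp (by fun_prop)

end Pool.Agent.H33.AM

end

section

/-!
# Module R2: curves (`Adm`): integrability, the fundamental theorem of calculus, operations

Hints.
* `integrable`: on `Ioc a b` the curve `x` is a.e.-strongly measurable (continuous on a measurable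
  set), `u` is measurable, and `(x t, u t)` stays in a compact set, on which `g` is bounded.
* `integral_grad`: apply
  `MeasureTheory.integral_eq_of_hasDerivAt_off_countable_of_le` (or
  `intervalIntegral.integral_eq_sub_of_hasDerivAt_off_countable_of_le`, look for
  `integral_eq_of_hasDerivWithinAt_off_countable`) to `g ∘ x`.
* `concat`: `x'' t = if t ≤ T then x t else x' (t - T)`, likewise `u''`; the exceptional set is
  `s ∪ (T + s') ∪ {T}`.
-/

set_option autoImplicit false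

open MeasureTheory
open scoped RealInnerProductSpace

namespace Pool.Agent.H33.AM

variable {n : ℕ}

theorem Adm.integrable {a b : ℝ} {x u : ℝ → EuclideanSpace ℝ (Fin n)} (h : Adm a b x u)
    {g : EuclideanSpace ℝ (Fin n) × EuclideanSpace ℝ (Fin n) → ℝ} (hg : Continuous g) :
    IntervalIntegrable (fun t => g (x t, u t)) volume a b := by
  obtain ⟨R, hR⟩ := h.bd
  rw [intervalIntegrable_iff_integrableOn_Icc_of_le h.le]
  have hxm : AEStronglyMeasurable x (volume.restrict (Set.Icc a b)) :=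
    h.cont.aestronglyMeasurable measurableSet_Icc
  have hum : AEStronglyMeasurable u (volume.restrict (Set.Icc a b)) :=
    h.meas.aestronglyMeasurable
  have hK : IsCompact ((x '' Set.Icc a b) ×ˢ
      (Metric.closedBall (0 : EuclideanSpace ℝ (Fin n)) R)) :=
    (isCompact_Icc.image_of_continuousOn h.cont).prod (isCompact_closedBall 0 R)
  obtain ⟨C, hC⟩ := hK.exists_bound_of_continuousOn hg.continuousOn
  refine ⟨hg.comp_aestronglyMeasurable (hxm.prodMk hum),
    HasFiniteIntegral.restrict_of_bounded (C := C) measure_Icc_lt_top ?_⟩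
  refine (ae_restrict_iff' measurableSet_Icc).2 (Filter.Eventually.of_forall fun t ht => ?_)
  refine hC _ ⟨Set.mem_image_of_mem x ht, ?_⟩
  simpa using hR t

theorem Adm.integral_grad {a b : ℝ} {x u : ℝ → EuclideanSpace ℝ (Fin n)} (h : Adm a b x u)
    {g : EuclideanSpace ℝ (Fin n) → ℝ} {G : EuclideanSpace ℝ (Fin n) → EuclideanSpace ℝ (Fin n)}
    (hg : ∀ y, HasGradientAt g (G y) y) (hG : Continuous G) :
    ∫ t in a..b, ⟪G (x t), u t⟫ = g (x b) - g (x a) := by
  obtain ⟨s, hs, hd⟩ := h.der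
  have hgc : Continuous g := continuous_iff_continuousAt.2 fun y => (hg y).continuousAt
  have hgi : Continuous fun p : EuclideanSpace ℝ (Fin n) × EuclideanSpace ℝ (Fin n) =>
      ⟪G p.1, p.2⟫ := (hG.comp continuous_fst).inner continuous_snd
  refine MeasureTheory.integral_eq_of_hasDerivAt_off_countable_of_le (fun t => g (x t))
    (fun t => ⟪G (x t), u t⟫) h.le hs (hgc.comp_continuousOn h.cont) ?_ (h.integrable hgi)
  intro t ht
  have h1 := (hg (x t)).hasFDerivAt.comp_hasDerivAt t (hd t ht)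
  simp only [InnerProductSpace.toDual_apply_apply] at h1
  exact h1

theorem Adm.integral_inner {a b : ℝ} {x u : ℝ → EuclideanSpace ℝ (Fin n)} (h : Adm a b x u)
    (c : EuclideanSpace ℝ (Fin n)) : ∫ t in a..b, ⟪c, u t⟫ = ⟪c, x b⟫ - ⟪c, x a⟫ := by
  have h1 := h.integral_grad (g := fun y => ⟪c, y⟫) (G := fun _ => c) ?_ continuous_const
  · exact h1
  · intro y
    rw [hasGradientAt_iff_hasFDerivAt]
    exact (InnerProductSpace.toDual ℝ (EuclideanSpace ℝ (Fin n)) c).hasFDerivAt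

theorem Adm.sub {a b a' b' : ℝ} {x u : ℝ → EuclideanSpace ℝ (Fin n)} (h : Adm a b x u)
    (ha : a ≤ a') (hab : a' ≤ b') (hb : b' ≤ b) : Adm a' b' x u := by
  obtain ⟨s, hs, hd⟩ := h.der
  refine ⟨hab, h.cont.mono (Set.Icc_subset_Icc ha hb), ⟨s, hs, fun t ht => hd t ?_⟩, h.meas, h.bd⟩
  exact ⟨⟨ha.trans_lt ht.1.1, ht.1.2.trans_le hb⟩, ht.2⟩

theorem Adm.shift {a b : ℝ} {x u : ℝ → EuclideanSpace ℝ (Fin n)} (h : Adm a b x u) (c : ℝ) :
    Adm (a + c) (b + c) (fun t => x (t - c)) fun t => u (t - c) := by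
  obtain ⟨s, hs, hd⟩ := h.der
  refine ⟨by linarith [h.le], ?_, ⟨(fun t => t - c) ⁻¹' s, ?_, fun t ht => ?_⟩,
    h.meas.comp (measurable_id.sub_const c), ?_⟩
  · refine h.cont.comp (by fun_prop) fun t ht => ?_
    exact ⟨by linarith [ht.1], by linarith [ht.2]⟩
  · exact hs.preimage (sub_left_injective)
  · have h1 := hd (t - c) ⟨⟨by linarith [ht.1.1], by linarith [ht.1.2]⟩, ht.2⟩
    exact h1.comp_sub_const t c
  · obtain ⟨R, hR⟩ := h.bd
    exact ⟨R, fun t => hR _⟩

theorem Adm.add_const {a b : ℝ} {x u : ℝ → EuclideanSpace ℝ (Fin n)} (h : Adm a b x u)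
    (y : EuclideanSpace ℝ (Fin n)) : Adm a b (fun t => x t + y) u := by
  obtain ⟨s, hs, hd⟩ := h.der
  exact ⟨h.le, h.cont.add continuousOn_const, ⟨s, hs, fun t ht => (hd t ht).add_const y⟩,
    h.meas, h.bd⟩

/-- Straight lines. -/
theorem Adm.line {T : ℝ} (hT : 0 ≤ T) (x v : EuclideanSpace ℝ (Fin n)) :
    Adm 0 T (fun t => x + t • v) fun _ => v := by
  refine ⟨hT, by fun_prop, ⟨∅, Set.countable_empty, fun t _ => ?_⟩, measurable_const,
    ⟨‖v‖, fun _ => le_rfl⟩⟩
  simpa using ((hasDerivAt_id t).smul_const v).const_add x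

/-- Concatenation. -/
theorem Adm.concat {T T' : ℝ} {x u x' u' : ℝ → EuclideanSpace ℝ (Fin n)} (h : Adm 0 T x u)
    (h' : Adm 0 T' x' u') (hx : x T = x' 0) :
    ∃ x'' u'' : ℝ → EuclideanSpace ℝ (Fin n), Adm 0 (T + T') x'' u'' ∧
      (∀ t ≤ T, x'' t = x t ∧ u'' t = u t) ∧
      ∀ t > T, x'' t = x' (t - T) ∧ u'' t = u' (t - T) := by
  classical
  obtain ⟨s, hs, hd⟩ := h.der
  obtain ⟨s', hs', hd'⟩ := h'.der
  obtain ⟨R, hR⟩ := h.bd
  obtain ⟨R', hR'⟩ := h'.bd
  refine ⟨fun t => if t ≤ T then x t else x' (t - T), fun t => if t ≤ T then u t else u' (t - T),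
    ⟨add_nonneg h.le h'.le, ?_, ⟨s ∪ ((fun t => t - T) ⁻¹' s' ∪ {T}), ?_, ?_⟩, ?_, ?_⟩, ?_, ?_⟩
  · refine ContinuousOn.if' ?_ ?_ ?_ ?_
    · intro t ht
      have htT : t = T := by
        have h1 := frontier_Iic_subset T (by simpa [Set.Iic] using ht.2)
        simpa using h1
      subst htT
      have h1 : ContinuousWithinAt x (Set.Icc 0 t) t := h.cont t ⟨h.le, le_rfl⟩
      have h2 : x t = if t ≤ t then x t else x' (t - t) := by simp
      rw [← h2]
      refine h1.tendsto.mono_left (nhdsWithin_mono _ ?_)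
      rintro r ⟨hr, hr'⟩
      exact ⟨hr.1, hr'⟩
    · intro t ht
      have htT : t = T := by
        have h1 := frontier_Iic_subset T (by simpa [Set.Iic] using ht.2)
        simpa using h1
      subst htT
      have h1 : ContinuousWithinAt x' (Set.Icc 0 T') 0 := h'.cont 0 ⟨le_rfl, h'.le⟩
      have h2 : x' 0 = if t ≤ t then x t else x' (t - t) := by simp [hx]
      rw [← h2]
      have h3 : Filter.Tendsto (fun r : ℝ => r - t) (nhdsWithin t (Set.Icc 0 (t + T') ∩ {a | ¬a ≤ t}))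
          (nhdsWithin 0 (Set.Icc 0 T')) := by
        refine tendsto_nhdsWithin_iff.2 ⟨?_, ?_⟩
        · have : Filter.Tendsto (fun r : ℝ => r - t) (nhds t) (nhds (t - t)) :=
            (continuous_id.sub continuous_const).tendsto t
          rw [sub_self] at this
          exact this.mono_left nhdsWithin_le_nhds
        · filter_upwards [self_mem_nhdsWithin] with r hr
          have h4 : ¬ r ≤ t := hr.2
          exact ⟨by linarith [not_le.1 h4], by linarith [hr.1.2]⟩
      exact h1.tendsto.comp h3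
    · refine h.cont.mono ?_
      rintro r ⟨hr, hr'⟩
      exact ⟨hr.1, hr'⟩
    · refine h'.cont.comp (by fun_prop) ?_
      rintro r ⟨hr, hr'⟩
      have h4 : ¬ r ≤ T := hr'
      exact ⟨by linarith [not_le.1 h4], by linarith [hr.2]⟩
  · exact hs.union ((hs'.preimage sub_left_injective).union (Set.countable_singleton T))
  · intro t ht
    have ht1 : t ∉ s := fun h => ht.2 (Or.inl h)
    have ht2 : t - T ∉ s' := fun h => ht.2 (Or.inr (Or.inl h))
    have ht3 : t ≠ T := fun h => ht.2 (Or.inr (Or.inr h))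
    rcases lt_or_gt_of_ne ht3 with hlt | hgt
    · have h1 := hd t ⟨⟨ht.1.1, hlt⟩, ht1⟩
      have h2 : (fun t => if t ≤ T then x t else x' (t - T)) =ᶠ[nhds t] x := by
        filter_upwards [Iio_mem_nhds hlt] with r hr
        exact if_pos (le_of_lt hr)
      simp only [if_pos hlt.le]
      exact h1.congr_of_eventuallyEq h2
    · have h1 := (hd' (t - T) ⟨⟨by linarith, by linarith [ht.1.2]⟩, ht2⟩).comp_sub_const t T
      have h2 : (fun t => if t ≤ T then x t else x' (t - T)) =ᶠ[nhds t] fun t => x' (t - T) := by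
        filter_upwards [Ioi_mem_nhds hgt] with r hr
        exact if_neg (not_le.2 hr)
      simp only [if_neg (not_le.2 hgt)]
      exact h1.congr_of_eventuallyEq h2
  · exact Measurable.ite measurableSet_Iic h.meas (h'.meas.comp (measurable_id.sub_const T))
  · refine ⟨max R R', fun t => ?_⟩
    split_ifs
    · exact (hR t).trans (le_max_left _ _)
    · exact (hR' _).trans (le_max_right _ _)
  · intro t ht
    simp [ht]
  · intro t ht
    simp [not_le.2 ht]

end Pool.Agent.H33.AM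

end

section

/-!
# Module R1: arithmetic of integer vectors, crossing lemmas

All the statements are elementary.

* `crossing`: let `σ₁ = sSup {t ∈ [a, b] | θ t ≤ A}`... more precisely: let `σ₂ = sInf {t ∈ [a, b] | B ≤ θ t}`
  (compact nonempty set, so `θ σ₂ = B` by continuity and `θ a ≤ A ≤ B`), and
  `σ₁ = sSup {t ∈ [a, σ₂] | θ t ≤ A}`, so `θ σ₁ = A`, and `A ≤ θ ≤ B` between.
-/

set_option autoImplicit false

open MeasureTheory
open scoped RealInnerProductSpace

namespace Pool.Agent.H33.AM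

variable {n : ℕ}

theorem zv_add (k l : Fin n → ℤ) : zv (k + l) = zv k + zv l := by
  ext i
  simp [zv]

theorem zv_neg (k : Fin n → ℤ) : zv (-k) = -zv k := by
  ext i
  simp [zv]

theorem zv_zero : zv (0 : Fin n → ℤ) = 0 := by
  ext i
  simp [zv]

theorem zv_nsmul (j : ℕ) (k : Fin n → ℤ) : zv (j • k) = (j : ℝ) • zv k := by
  ext i
  simp [zv]

theorem zv_zsmul (j : ℤ) (k : Fin n → ℤ) : zv (j • k) = (j : ℝ) • zv k := by
  ext i
  simp [zv]

theorem inner_zv (k l : Fin n → ℤ) : ⟪zv k, zv l⟫ = (dot k l : ℝ) := by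
  simp [zv, dot, PiLp.inner_apply, mul_comm]

theorem dot_add (k l l' : Fin n → ℤ) : dot k (l + l') = dot k l + dot k l' := by
  simp [dot, mul_add, Finset.sum_add_distrib]

theorem dot_neg (k l : Fin n → ℤ) : dot k (-l) = -dot k l := by
  simp [dot]

theorem dot_zero (k : Fin n → ℤ) : dot k 0 = 0 := by
  simp [dot]

theorem dot_nsmul (j : ℕ) (k l : Fin n → ℤ) : dot k (j • l) = j * dot k l := by
  simp only [dot, Pi.smul_apply, nsmul_eq_mul, Finset.mul_sum]
  exact Finset.sum_congr rfl (fun i _ => by ring)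

theorem dot_zsmul (j : ℤ) (k l : Fin n → ℤ) : dot k (j • l) = j * dot k l := by
  simp only [dot, Pi.smul_apply, smul_eq_mul, Finset.mul_sum]
  exact Finset.sum_congr rfl (fun i _ => by ring)

theorem ne_zero_of_dot {k₀ m : Fin n → ℤ} (h : dot k₀ m = 1) : k₀ ≠ 0 ∧ zv k₀ ≠ 0 := by
  constructor
  · rintro rfl
    simp [dot] at h
  · intro h0
    have h1 := inner_zv k₀ m
    rw [h0, inner_zero_left, h] at h1
    norm_num at h1

/-- Up-crossing of `[A, B]`. -/
theorem crossing {θ : ℝ → ℝ} {a b A B : ℝ} (hab : a ≤ b) (hc : ContinuousOn θ (Set.Icc a b))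
    (hA : θ a ≤ A) (hAB : A ≤ B) (hB : B ≤ θ b) :
    ∃ σ₁ σ₂, a ≤ σ₁ ∧ σ₁ ≤ σ₂ ∧ σ₂ ≤ b ∧ θ σ₁ = A ∧ θ σ₂ = B ∧
      ∀ t ∈ Set.Icc σ₁ σ₂, A ≤ θ t ∧ θ t ≤ B := by
  have hS2c : IsCompact (Set.Icc a b ∩ θ ⁻¹' Set.Ici B) :=
    isCompact_Icc.of_isClosed_subset
      (hc.preimage_isClosed_of_isClosed isClosed_Icc isClosed_Ici) Set.inter_subset_left
  have hS2n : (Set.Icc a b ∩ θ ⁻¹' Set.Ici B).Nonempty := ⟨b, ⟨hab, le_refl _⟩, hB⟩
  obtain ⟨σ₂, hσ₂⟩ := hS2c.exists_isLeast hS2n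
  have hσ₂m := hσ₂.1
  have hc2 : ContinuousOn θ (Set.Icc a σ₂) :=
    hc.mono (Set.Icc_subset_Icc le_rfl hσ₂m.1.2)
  have hθ2 : θ σ₂ = B := by
    obtain ⟨t, ht, hθt⟩ := intermediate_value_Icc hσ₂m.1.1 hc2
      (show B ∈ Set.Icc (θ a) (θ σ₂) from ⟨hA.trans hAB, hσ₂m.2⟩)
    have h1 : σ₂ ≤ t := hσ₂.2 ⟨⟨ht.1, ht.2.trans hσ₂m.1.2⟩, hθt.ge⟩
    have h2 : t = σ₂ := le_antisymm ht.2 h1
    rw [← h2, hθt]
  have hS1c : IsCompact (Set.Icc a σ₂ ∩ θ ⁻¹' Set.Iic A) :=
    isCompact_Icc.of_isClosed_subset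
      (hc2.preimage_isClosed_of_isClosed isClosed_Icc isClosed_Iic) Set.inter_subset_left
  have hS1n : (Set.Icc a σ₂ ∩ θ ⁻¹' Set.Iic A).Nonempty := ⟨a, ⟨le_refl _, hσ₂m.1.1⟩, hA⟩
  obtain ⟨σ₁, hσ₁⟩ := hS1c.exists_isGreatest hS1n
  have hσ₁m := hσ₁.1
  have hc1 : ContinuousOn θ (Set.Icc σ₁ σ₂) :=
    hc2.mono (Set.Icc_subset_Icc hσ₁m.1.1 le_rfl)
  have hθ1 : θ σ₁ = A := by
    obtain ⟨t, ht, hθt⟩ := intermediate_value_Icc hσ₁m.1.2 hc1
      (show A ∈ Set.Icc (θ σ₁) (θ σ₂) from ⟨hσ₁m.2, hAB.trans hσ₂m.2⟩)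
    have h1 : t ≤ σ₁ := hσ₁.2 ⟨⟨hσ₁m.1.1.trans ht.1, ht.2⟩, hθt.le⟩
    have h2 : t = σ₁ := le_antisymm h1 ht.1
    rw [← h2, hθt]
  refine ⟨σ₁, σ₂, hσ₁m.1.1, hσ₁m.1.2, hσ₂m.1.2, hθ1, hθ2, fun t ht => ⟨?_, ?_⟩⟩
  · by_contra hcon
    push Not at hcon
    have h1 : t ≤ σ₁ := hσ₁.2 ⟨⟨hσ₁m.1.1.trans ht.1, ht.2⟩, hcon.le⟩
    have h2 : t = σ₁ := le_antisymm h1 ht.1
    rw [h2, hθ1] at hcon
    exact lt_irrefl _ hcon
  · by_contra hcon
    push Not at hcon
    have h1 : σ₂ ≤ t :=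
      hσ₂.2 ⟨⟨hσ₁m.1.1.trans ht.1, ht.2.trans hσ₂m.1.2⟩, hcon.le⟩
    have h2 : t = σ₂ := le_antisymm ht.2 h1
    rw [h2, hθ2] at hcon
    exact lt_irrefl _ hcon

/-- Down-crossing of `[A, B]`. -/
theorem crossing' {θ : ℝ → ℝ} {a b A B : ℝ} (hab : a ≤ b) (hc : ContinuousOn θ (Set.Icc a b))
    (hB : B ≤ θ a) (hAB : A ≤ B) (hA : θ b ≤ A) :
    ∃ σ₁ σ₂, a ≤ σ₁ ∧ σ₁ ≤ σ₂ ∧ σ₂ ≤ b ∧ θ σ₁ = B ∧ θ σ₂ = A ∧
      ∀ t ∈ Set.Icc σ₁ σ₂, A ≤ θ t ∧ θ t ≤ B := by
  obtain ⟨σ₁, σ₂, h1, h2, h3, h4, h5, h6⟩ := crossing (θ := fun t => -θ t) hab hc.neg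
    (neg_le_neg hB) (neg_le_neg hAB) (neg_le_neg hA)
  refine ⟨σ₁, σ₂, h1, h2, h3, neg_injective h4, neg_injective h5, fun t ht => ?_⟩
  have h7 := h6 t ht
  exact ⟨neg_le_neg_iff.mp h7.2, neg_le_neg_iff.mp h7.1⟩

end Pool.Agent.H33.AM

end

section

/-!
# Module V2: trigonometric approximation, integrals over the unit cube, averages

`cube = {y | ∀ i, y i ∈ Ico 0 1}`.
* `trig_dense`: Stone-Weierstrass on `C(Fin n → UnitAddCircle, ℂ)` (the characters
  `x ↦ ∏ i, fourier (k i) (x i)` span a star-closed subalgebra separating points), then real parts.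
* `cube_translate`: the cube is a fundamental domain of `ℤⁿ` (`ZSpan`,
  `MeasureTheory.IsAddFundamentalDomain.setIntegral_eq`), or Fubini and
  `Function.Periodic.intervalIntegral_add_eq`.
* `cube_cos`: for `k ≠ 0` the integral vanishes: translate (by `cube_translate`) by `c` with
  `⟪zv k, c⟫ = 1/2`.
* `avK_cont`, `avK_per`: `avK g k₀ m` is continuous and 1-periodic (the integrand is bounded, the cube
  is bounded; `θ ↦ θ + 1` translates by `zv m`).
-/

set_option autoImplicit false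

open MeasureTheory
open scoped RealInnerProductSpace

namespace Pool.Agent.H33.AM

variable {n : ℕ}

/-- The projection of `ℝⁿ` onto the torus. -/
private def tpr (x : Fin n → ℝ) : UnitAddTorus (Fin n) := fun i => ((x i : ℝ) : UnitAddCircle)

private theorem tpr_quot : Topology.IsQuotientMap (tpr (n := n)) := by
  have h : IsOpenQuotientMap (Pi.map (fun (_ : Fin n) (t : ℝ) => (t : UnitAddCircle))) :=
    IsOpenQuotientMap.piMap (fun _ => QuotientAddGroup.isOpenQuotientMap_mk)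
  exact h.isQuotientMap

private theorem tpr_eq {x y : Fin n → ℝ} (h : tpr x = tpr y) :
    ∃ k : Fin n → ℤ, ∀ i, x i = y i + k i := by
  have h1 : ∀ i, ∃ k : ℤ, x i = y i + k := by
    intro i
    have h2 : ((x i : ℝ) : UnitAddCircle) = ((y i : ℝ) : UnitAddCircle) := congrFun h i
    have h3 : x i - y i ∈ AddSubgroup.zmultiples (1 : ℝ) := QuotientAddGroup.eq_iff_sub_mem.mp h2
    obtain ⟨k, hk⟩ := AddSubgroup.mem_zmultiples_iff.mp h3
    refine ⟨k, ?_⟩
    rw [zsmul_eq_mul, mul_one] at hk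
    linarith
  choose k hk using h1
  exact ⟨k, hk⟩

private theorem inner_zv' (k : Fin n → ℤ) (x : EuclideanSpace ℝ (Fin n)) :
    ⟪zv k, x⟫ = ∑ i, (k i : ℝ) * x i := by
  rw [PiLp.inner_apply]
  refine Finset.sum_congr rfl (fun i _ => ?_)
  simp only [zv, RCLike.inner_apply, conj_trivial]
  ring

private theorem mFourier_tpr (k : Fin n → ℤ) (x : EuclideanSpace ℝ (Fin n)) :
    UnitAddTorus.mFourier k (tpr (fun i => x i)) =
      Complex.exp (((2 * Real.pi * ⟪zv k, x⟫ : ℝ) : ℂ) * Complex.I) := by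
  have h1 : UnitAddTorus.mFourier k (tpr (fun i => x i)) =
      ∏ i, fourier (k i) ((x i : ℝ) : UnitAddCircle) := rfl
  rw [h1, inner_zv', Finset.prod_congr rfl (fun i _ => fourier_coe_apply), ← Complex.exp_sum]
  congr 1
  push_cast
  rw [Finset.mul_sum, Finset.sum_mul]
  refine Finset.sum_congr rfl (fun i _ => ?_)
  ring

theorem trig_dense {g : EuclideanSpace ℝ (Fin n) → ℝ} (hg : Continuous g)
    (hper : ∀ x (k : Fin n → ℤ), g (x + zv k) = g x) {ε : ℝ} (hε : 0 < ε) :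
    ∃ (S : Finset (Fin n → ℤ)) (a b : (Fin n → ℤ) → ℝ), ∀ x,
      |g x - ∑ k ∈ S, (a k * Real.cos (2 * Real.pi * ⟪zv k, x⟫) +
        b k * Real.sin (2 * Real.pi * ⟪zv k, x⟫))| ≤ ε := by
  classical
  set g' : (Fin n → ℝ) → ℂ := fun x => ((g (WithLp.toLp 2 x) : ℝ) : ℂ) with hg'
  have hg'c : Continuous g' :=
    Complex.continuous_ofReal.comp (hg.comp (PiLp.continuous_toLp 2 _))
  have hfac : ∀ x y : Fin n → ℝ, tpr x = tpr y → g' x = g' y := by
    intro x y hxy
    obtain ⟨k, hk⟩ := tpr_eq hxy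
    have h1 : WithLp.toLp 2 x = WithLp.toLp 2 y + zv k := by
      ext i
      simp only [zv, PiLp.add_apply]
      exact hk i
    simp only [hg', h1, hper]
  obtain ⟨rep, hrep⟩ := (tpr_quot (n := n)).surjective.hasRightInverse
  have hG : ∀ x, g' (rep (tpr x)) = g' x := fun x => hfac _ _ (hrep (tpr x))
  let G : C(UnitAddTorus (Fin n), ℂ) := ⟨fun t => g' (rep t), by
    rw [tpr_quot.continuous_iff]
    have h1 : (fun t => g' (rep t)) ∘ tpr = g' := by
      funext x
      exact hG x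
    rw [h1]
    exact hg'c⟩
  have hmem : G ∈ closure (Submodule.span ℂ (Set.range (UnitAddTorus.mFourier (d := Fin n))) :
      Set C(UnitAddTorus (Fin n), ℂ)) := by
    have h1 := UnitAddTorus.span_mFourier_closure_eq_top (d := Fin n)
    have h2 : G ∈ (Submodule.span ℂ
        (Set.range (UnitAddTorus.mFourier (d := Fin n)))).topologicalClosure := by
      rw [h1]
      exact Submodule.mem_top
    exact h2
  obtain ⟨P, hP, hPG⟩ := Metric.mem_closure_iff.mp hmem ε hε
  obtain ⟨c, hc⟩ := (Finsupp.mem_span_range_iff_exists_finsupp).mp hP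
  refine ⟨c.support, fun k => (c k).re, fun k => -(c k).im, fun x => ?_⟩
  have h1 : P (tpr (fun i => x i)) = ∑ k ∈ c.support,
      c k * Complex.exp (((2 * Real.pi * ⟪zv k, x⟫ : ℝ) : ℂ) * Complex.I) := by
    rw [← hc, Finsupp.sum, ContinuousMap.sum_apply]
    refine Finset.sum_congr rfl (fun k _ => ?_)
    rw [ContinuousMap.smul_apply, mFourier_tpr, smul_eq_mul]
  have h2 : (P (tpr (fun i => x i))).re = ∑ k ∈ c.support,
      ((c k).re * Real.cos (2 * Real.pi * ⟪zv k, x⟫) +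
        -(c k).im * Real.sin (2 * Real.pi * ⟪zv k, x⟫)) := by
    rw [h1, Complex.re_sum]
    refine Finset.sum_congr rfl (fun k _ => ?_)
    rw [Complex.mul_re, Complex.exp_ofReal_mul_I_re, Complex.exp_ofReal_mul_I_im]
    ring
  have h3 : G (tpr (fun i => x i)) = ((g x : ℝ) : ℂ) := by
    have h4 : G (tpr (fun i => x i)) = g' (fun i => x i) := hG _
    rw [h4]
  have h5 : ‖(G - P) (tpr (fun i => x i))‖ ≤ ‖G - P‖ := ContinuousMap.norm_coe_le_norm _ _
  rw [ContinuousMap.sub_apply, h3, ← dist_eq_norm G P] at h5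
  have h6 := Complex.abs_re_le_norm (((g x : ℝ) : ℂ) - P (tpr (fun i => x i)))
  rw [Complex.sub_re, Complex.ofReal_re, h2] at h6
  exact h6.trans (h5.trans hPG.le)

end Pool.Agent.H33.AM

end

section

/-!
# Module V4: nonconstant averages exist

`cube = {y | ∀ i, y i ∈ Ico 0 1}`.
* `cos_coeff`: for `dot k₀ m = 1`, `d ≠ 0`: `∫_cube g(y) cos(2π d ⟪k₀, y⟫ + φ) dy =
  ∫₀¹ avK g k₀ m θ cos(2π d θ + φ) dθ`. Both sides are continuous for the uniform norm and linear in `g`,
  so by `trig_dense` it is enough to take `g = cos(2π ⟪zv l, ·⟫ + ψ)` (`avK_cos`, `cube_cos`, product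
  formulas for cosines).
* `primitive`: divide `k ≠ 0` by the gcd `d` of its entries and use Bezout
  (`Finset.extract_gcd`, `Finset.gcd`/`Ideal.span` … or induction).
* `const_of_coeff`: if all the coefficients `∫_cube g cos(2π ⟪k, ·⟫ + φ)`, `k ≠ 0`, vanish then `g` is
  constant: with `ḡ = ∫_cube g`, `∫_cube (g - ḡ)² = lim ∫_cube (g - ḡ) p_j = 0` for trigonometric
  polynomials `p_j → g` uniformly; then use continuity and periodicity.
* `exists_avK_ne`: combine.
-/

set_option autoImplicit false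

open MeasureTheory
open scoped RealInnerProductSpace

namespace Pool.Agent.H33.AM

variable {n : ℕ}

theorem primitive {k : Fin n → ℤ} (hk : k ≠ 0) :
    ∃ (d : ℤ) (k₀ m : Fin n → ℤ), d ≠ 0 ∧ k = d • k₀ ∧ dot k₀ m = 1 := by
  obtain ⟨d, hd⟩ := (IsPrincipalIdealRing.principal (Ideal.span (Set.range k))).principal
  have hdvd : ∀ i, d ∣ k i := by
    intro i
    have h1 : k i ∈ Ideal.span (Set.range k) := Ideal.subset_span ⟨i, rfl⟩
    rw [hd] at h1
    exact Ideal.mem_span_singleton.1 h1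
  have hd0 : d ≠ 0 := by
    rintro rfl
    apply hk
    funext i
    simpa using hdvd i
  choose k₀ hk₀ using hdvd
  have hmem : d ∈ Ideal.span (Set.range k) := by
    rw [hd]
    exact Ideal.mem_span_singleton_self d
  obtain ⟨m, hm⟩ := Ideal.mem_span_range_iff_exists_fun.1 hmem
  refine ⟨d, k₀, m, hd0, ?_, ?_⟩
  · funext i
    rw [hk₀ i]
    rfl
  · have h1 : d * dot k₀ m = d * 1 := by
      rw [mul_one]
      nth_rewrite 2 [← hm]
      unfold dot
      rw [Finset.mul_sum]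
      refine Finset.sum_congr rfl fun i _ => ?_
      rw [hk₀ i]
      ring
    exact mul_left_cancel₀ hd0 h1

end Pool.Agent.H33.AM

end

section

/-!
# Module F1: global flows

* `flow_of_lipschitz`: Picard-Lindelöf gives for every `z` a solution on every interval
  (`IsPicardLindelof`, or the contraction principle with a weighted norm), glue; uniqueness by
  Gronwall (`ODE_solution_unique_univ`), continuity in `z`: `dist_le_of_trajectories_ODE`.
* `flow_of_growth`: `Y` is Lipschitz on every ball and `‖Y z‖ ≤ C (1 + ‖z‖)`: for `ρ_R(z) =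
  min(1, R/‖z‖) z` (Lipschitz with the constant 2 in every normed space) the field `Y ∘ ρ_R` is
  Lipschitz (globally), and its solutions starting in the ball of radius `r` stay for `|t| ≤ T` in the
  ball of radius `(1 + r) exp(C T)`, so they are solutions for `Y` if `R` is large.
* `euler`: let `z 0, …, z N` be in the ball of radius `R`, `N τ ≤ T`, and
  `‖z (i + 1) - z i - τ Y (z i)‖ ≤ c`. Then `‖φ (i τ) (z 0) - z i‖ ≤ C₂ (τ + c/τ)`, `C₂ = C₂(Y, R, T)`:
  the exact solution from the ball `R` stays in a ball `R'`, where `Y` has a Lipschitz constant `K'` and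
  a bound `M'`; `e_i = ‖φ (i τ) (z 0) - z i‖` satisfies `e_{i+1} ≤ (1 + K' τ) e_i + K' M' τ² + c`, so
  `e_i ≤ i exp(K' T) (K' M' τ² + c)`.
-/

set_option autoImplicit false

open MeasureTheory
open scoped RealInnerProductSpace

namespace Pool.Agent.H33.AM

variable {W : Type*} [NormedAddCommGroup W] [NormedSpace ℝ W] [CompleteSpace W]

private theorem F1c_apriori {Y : W → W} {C : ℝ} (hC : 0 ≤ C)
    (hgr : ∀ z, ‖Y z‖ ≤ C * (1 + ‖z‖)) {φ : ℝ → W → W} (hφ : IsFlow Y φ) {R T : ℝ} (hR : 0 ≤ R)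
    (z₀ : W) (hz : ‖z₀‖ ≤ R) : ∀ t ∈ Set.Icc 0 T, ‖φ t z₀‖ ≤ gronwallBound R C C T := by
  intro t ht
  have h1 := norm_le_gronwallBound_of_norm_deriv_right_le (f := fun s => φ s z₀)
    (f' := fun s => Y (φ s z₀)) (δ := R) (K := C) (ε := C) (a := 0) (b := T)
    (fun s _ => (hφ.der z₀ s).continuousAt.continuousWithinAt)
    (fun s _ => (hφ.der z₀ s).hasDerivWithinAt)
    (by simpa [hφ.zero] using hz)
    (fun s _ => by have := hgr (φ s z₀); linarith [this]) t ht
  have h2 := gronwallBound_mono hR hC hC (show t - 0 ≤ T by linarith [ht.2])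
  exact h1.trans h2

private theorem F1c_step {Y : W → W} {φ : ℝ → W → W} (hφ : IsFlow Y φ) {R' M T : ℝ}
    {K : NNReal} (hK : LipschitzOnWith K Y (Metric.closedBall 0 R')) (z₀ : W)
    (hM : ∀ z, ‖z‖ ≤ R' → ‖Y z‖ ≤ M)
    (hap : ∀ t ∈ Set.Icc 0 T, ‖φ t z₀‖ ≤ R') {s τ : ℝ} (hs : 0 ≤ s) (hτ : 0 < τ)
    (hsT : s + τ ≤ T) :
    ‖φ (s + τ) z₀ - φ s z₀ - τ • Y (φ s z₀)‖ ≤ K * M * τ ^ 2 := by
  have hsub : ∀ t ∈ Set.Icc s (s + τ), t ∈ Set.Icc 0 T := fun t ht =>
    ⟨hs.trans ht.1, ht.2.trans hsT⟩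
  have h1 : ∀ t ∈ Set.Icc s (s + τ), ‖φ t z₀ - φ s z₀‖ ≤ M * (t - s) := by
    apply norm_image_sub_le_of_norm_deriv_le_segment' (f' := fun t => Y (φ t z₀))
    · intro t _
      exact (hφ.der z₀ t).hasDerivWithinAt
    · intro t ht
      exact hM _ (hap t (hsub t ⟨ht.1, ht.2.le⟩))
  have hmem : ∀ t ∈ Set.Icc s (s + τ), φ t z₀ ∈ Metric.closedBall (0 : W) R' := by
    intro t ht
    simpa using hap t (hsub t ht)
  have hsm : s ∈ Set.Icc s (s + τ) := ⟨le_refl _, by linarith⟩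
  have hM0 : 0 ≤ M := (norm_nonneg _).trans (hM _ (hap s (hsub s hsm)))
  have h2 : ∀ t ∈ Set.Icc s (s + τ),
      ‖(φ t z₀ - t • Y (φ s z₀)) - (φ s z₀ - s • Y (φ s z₀))‖ ≤ (K * M * τ) * (t - s) := by
    apply norm_image_sub_le_of_norm_deriv_le_segment'
      (f := fun t => φ t z₀ - t • Y (φ s z₀)) (f' := fun t => Y (φ t z₀) - (1 : ℝ) • Y (φ s z₀))
    · intro t _
      exact ((hφ.der z₀ t).sub ((hasDerivAt_id t).smul_const _)).hasDerivWithinAt
    · intro t ht
      have ht' : t ∈ Set.Icc s (s + τ) := ⟨ht.1, ht.2.le⟩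
      rw [one_smul, ← dist_eq_norm]
      have e1 := hK.dist_le_mul _ (hmem t ht') _ (hmem s hsm)
      have e2 : dist (φ t z₀) (φ s z₀) ≤ M * τ := by
        rw [dist_eq_norm]
        refine (h1 t ht').trans ?_
        apply mul_le_mul_of_nonneg_left _ hM0
        linarith [ht.2]
      calc dist (Y (φ t z₀)) (Y (φ s z₀)) ≤ K * dist (φ t z₀) (φ s z₀) := e1
        _ ≤ K * (M * τ) := mul_le_mul_of_nonneg_left e2 K.2
        _ = K * M * τ := by ring
  have h3 := h2 (s + τ) ⟨by linarith, le_refl _⟩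
  have e : (φ (s + τ) z₀ - (s + τ) • Y (φ s z₀)) - (φ s z₀ - s • Y (φ s z₀))
      = φ (s + τ) z₀ - φ s z₀ - τ • Y (φ s z₀) := by
    rw [add_smul]
    abel
  rw [e] at h3
  refine h3.trans (le_of_eq ?_)
  ring

theorem euler {Y : W → W}
    (hloc : ∀ R : ℝ, ∃ K : NNReal, LipschitzOnWith K Y (Metric.closedBall 0 R)) {C : ℝ}
    (hgr : ∀ z, ‖Y z‖ ≤ C * (1 + ‖z‖)) {φ : ℝ → W → W} (hφ : IsFlow Y φ) (R T : ℝ) :
    ∃ C₂ : ℝ, ∀ (τ c : ℝ) (N : ℕ), 0 < τ → 0 ≤ c → N * τ ≤ T → ∀ z : ℕ → W,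
      (∀ i ≤ N, ‖z i‖ ≤ R) → (∀ i < N, ‖z (i + 1) - z i - τ • Y (z i)‖ ≤ c) →
      ∀ i ≤ N, ‖φ (i * τ) (z 0) - z i‖ ≤ C₂ * (τ + c / τ) := by
  have hC : 0 ≤ C := by
    have h := (norm_nonneg _).trans (hgr 0)
    simpa using h
  obtain ⟨K, hK⟩ := hloc (gronwallBound R C C T)
  set R' := gronwallBound R C C T with hR'
  set M := C * (1 + R') with hM
  refine ⟨T * Real.exp (K * T) * (K * M + 1), ?_⟩
  intro τ c N hτ hc hNT z hz hstep
  have hR : 0 ≤ R := (norm_nonneg _).trans (hz 0 (Nat.zero_le N))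
  have hT : 0 ≤ T := le_trans (by positivity) hNT
  have hRR' : R ≤ R' := by
    have := gronwallBound_mono hR hC hC hT
    rw [gronwallBound_x0] at this
    exact this
  have hMb : ∀ z, ‖z‖ ≤ R' → ‖Y z‖ ≤ M := by
    intro z hz
    refine (hgr z).trans ?_
    rw [hM]
    apply mul_le_mul_of_nonneg_left _ hC
    linarith
  have hM0 : 0 ≤ M := (norm_nonneg _).trans (hMb (z 0) ((hz 0 (Nat.zero_le N)).trans hRR'))
  have hK0 : (0 : ℝ) ≤ K := K.2
  have hap := F1c_apriori (T := T) hC hgr hφ hR (z 0) (hz 0 (Nat.zero_le N))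
  set Dd := K * M * τ ^ 2 + c with hDd
  have hDd0 : 0 ≤ Dd := by positivity
  have hmain : ∀ i : ℕ, i ≤ N → ‖φ (i * τ) (z 0) - z i‖ ≤ i * (1 + K * τ) ^ i * Dd := by
    intro i
    induction i with
    | zero => intro _; simp [hφ.zero]
    | succ i ih =>
      intro hi
      have ih' := ih (by omega)
      have hiT : (i : ℝ) * τ + τ ≤ T := by
        have : ((i + 1 : ℕ) : ℝ) ≤ N := by exact_mod_cast hi
        have h2 : ((i + 1 : ℕ) : ℝ) * τ ≤ N * τ := mul_le_mul_of_nonneg_right this hτ.le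
        push_cast at h2
        linarith
      have hi0 : (0 : ℝ) ≤ i * τ := by positivity
      have e0 : ((i + 1 : ℕ) : ℝ) * τ = i * τ + τ := by push_cast; ring
      rw [e0]
      have s1 := F1c_step hφ hK (z 0) hMb hap hi0 hτ hiT
      have s2 := hstep i (by omega)
      have s3 : ‖Y (φ (i * τ) (z 0)) - Y (z i)‖ ≤ K * ‖φ (i * τ) (z 0) - z i‖ := by
        rw [← dist_eq_norm, ← dist_eq_norm]
        apply hK.dist_le_mul
        · simpa using hap (i * τ) ⟨hi0, by linarith⟩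
        · simpa using (hz i (by omega)).trans hRR'
      have e1 : φ (i * τ + τ) (z 0) - z (i + 1)
          = (φ (i * τ + τ) (z 0) - φ (i * τ) (z 0) - τ • Y (φ (i * τ) (z 0)))
            + (φ (i * τ) (z 0) - z i) + τ • (Y (φ (i * τ) (z 0)) - Y (z i))
            - (z (i + 1) - z i - τ • Y (z i)) := by
        rw [smul_sub]
        abel
      have e2 : ‖φ (i * τ + τ) (z 0) - z (i + 1)‖ ≤
          K * M * τ ^ 2 + ‖φ (i * τ) (z 0) - z i‖ + τ * (K * ‖φ (i * τ) (z 0) - z i‖) + c := by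
        rw [e1]
        refine (norm_sub_le _ _).trans (add_le_add ?_ s2)
        refine (norm_add_le _ _).trans (add_le_add ?_ ?_)
        · exact (norm_add_le _ _).trans (add_le_add s1 le_rfl)
        · rw [norm_smul, Real.norm_of_nonneg hτ.le]
          exact mul_le_mul_of_nonneg_left s3 hτ.le
      have hq : 1 ≤ 1 + (K : ℝ) * τ := by
        have : 0 ≤ (K : ℝ) * τ := by positivity
        linarith
      have hp : 1 ≤ (1 + (K : ℝ) * τ) ^ (i + 1) := one_le_pow₀ hq
      calc ‖φ (i * τ + τ) (z 0) - z (i + 1)‖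
          ≤ (1 + K * τ) * ‖φ (i * τ) (z 0) - z i‖ + Dd := by rw [hDd]; linarith [e2]
        _ ≤ (1 + K * τ) * (i * (1 + K * τ) ^ i * Dd) + Dd := by
          have := mul_le_mul_of_nonneg_left ih' (by positivity : (0 : ℝ) ≤ 1 + K * τ)
          linarith
        _ = i * (1 + K * τ) ^ (i + 1) * Dd + 1 * Dd := by ring
        _ ≤ i * (1 + K * τ) ^ (i + 1) * Dd + (1 + K * τ) ^ (i + 1) * Dd := by
          have := mul_le_mul_of_nonneg_right hp hDd0
          linarith
        _ = ((i + 1 : ℕ) : ℝ) * (1 + K * τ) ^ (i + 1) * Dd := by push_cast; ring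
  intro i hi
  have hiN : (i : ℝ) ≤ N := by exact_mod_cast hi
  have hiT : (i : ℝ) * τ ≤ T := (mul_le_mul_of_nonneg_right hiN hτ.le).trans hNT
  have hexp : (1 + (K : ℝ) * τ) ^ i ≤ Real.exp (K * T) := by
    have h1 : 1 + (K : ℝ) * τ ≤ Real.exp (K * τ) := by
      have := Real.add_one_le_exp ((K : ℝ) * τ)
      linarith
    calc (1 + (K : ℝ) * τ) ^ i ≤ (Real.exp (K * τ)) ^ i :=
          pow_le_pow_left₀ (by positivity) h1 i
      _ = Real.exp (i * (K * τ)) := by rw [← Real.exp_nat_mul]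
      _ ≤ Real.exp (K * T) := by
        apply Real.exp_le_exp.mpr
        have := mul_le_mul_of_nonneg_left hiT hK0
        linarith
  have hDτ : Dd = τ * (K * M * τ + c / τ) := by
    rw [hDd]
    field_simp
  have hcτ : 0 ≤ c / τ := by positivity
  have hin : K * M * τ + c / τ ≤ (K * M + 1) * (τ + c / τ) := by
    have h1 : 0 ≤ (K : ℝ) * M * (c / τ) := by positivity
    have h2 : (K * M + 1) * (τ + c / τ) = K * M * τ + c / τ + (K * M * (c / τ) + τ) := by ring
    rw [h2]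
    linarith
  have hin0 : 0 ≤ K * M * τ + c / τ := by positivity
  calc ‖φ (i * τ) (z 0) - z i‖ ≤ i * (1 + K * τ) ^ i * Dd := hmain i hi
    _ = (i * τ) * (1 + K * τ) ^ i * (K * M * τ + c / τ) := by rw [hDτ]; ring
    _ ≤ T * Real.exp (K * T) * (K * M * τ + c / τ) := by
      apply mul_le_mul_of_nonneg_right _ hin0
      apply mul_le_mul hiT hexp (by positivity) hT
    _ ≤ T * Real.exp (K * T) * ((K * M + 1) * (τ + c / τ)) := by
      apply mul_le_mul_of_nonneg_left hin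
      exact mul_nonneg hT (Real.exp_pos _).le
    _ = T * Real.exp (K * T) * (K * M + 1) * (τ + c / τ) := by ring

end Pool.Agent.H33.AM

end
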