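import Pool.Agent.H47.B0.M02

/-! The parts of this file: H33.AM.P.V2b, H33.AM.P.V2c, H33.AM.P.V1, H33.AM.P.V4c, H33.AM.P.V4a, H33.AM.P.T2, H33.AM.P.V3b, H33.AM.P.V3a, H33.AM.P.V3c, H33.AM.P.V4d. -/

section

/-!
# Module V2: trigonometric approximation, integrals over the unit cube, averages

`cube = {y | ∀ i, y i ∈ Ico 0 1}`.
* `trig_dense`: Stone-Weierstrass on `C(Fin n → UnitAddCircle, ℂ)` (the characters
  `x ↦ ∏ i, fourier (k i) (x i)` span a star-closed subalgebra separating points), then real parts.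
* `cube_translate`: the cube is a fundamental domain of `ℤⁿ` (`ZSpan`,
  `MeasureTheory.IsAddFundamentalDomain.setIntegral_eq`), or Fubini and
  `Function.Periodic.intervalIntegral_add_eq`.
* `cube_cos`: for `k ≠ 0` the integral vanishes: translate (by `cube_translate`) by `c` with
  `⟪zv k, c⟫ = 1/2`.
* `avK_cont`, `avK_per`: `avK g k₀ m` is continuous and 1-periodic (the integrand is bounded, the cube
  is bounded; `θ ↦ θ + 1` translates by `zv m`).
-/

set_option autoImplicit false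

open MeasureTheory
open scoped RealInnerProductSpace

namespace Pool.Agent.H33.AM

variable {n : ℕ}

private theorem V2b_eq : {y : EuclideanSpace ℝ (Fin n) | ∀ i, y i ∈ Set.Ico (0 : ℝ) 1} =
    (@WithLp.ofLp 2 (Fin n → ℝ)) ⁻¹' (Set.univ.pi fun _ => Set.Ico (0 : ℝ) 1) := by
  ext y
  simp [Set.mem_pi]

theorem cube_vol : volume {y : EuclideanSpace ℝ (Fin n) | ∀ i, y i ∈ Set.Ico (0 : ℝ) 1} = 1 := by
  rw [V2b_eq, (PiLp.volume_preserving_ofLp (Fin n)).measure_preimage
    (MeasurableSet.univ_pi fun _ => measurableSet_Ico).nullMeasurableSet, volume_pi_pi]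
  simp

theorem cube_meas : MeasurableSet {y : EuclideanSpace ℝ (Fin n) | ∀ i, y i ∈ Set.Ico (0 : ℝ) 1} := by
  rw [V2b_eq]
  exact (PiLp.volume_preserving_ofLp (Fin n)).measurable
    (MeasurableSet.univ_pi fun _ => measurableSet_Ico)

private noncomputable abbrev V2b_b (n : ℕ) : Module.Basis (Fin n) ℝ (EuclideanSpace ℝ (Fin n)) :=
  (EuclideanSpace.basisFun (Fin n) ℝ).toBasis

private theorem V2b_fd : {y : EuclideanSpace ℝ (Fin n) | ∀ i, y i ∈ Set.Ico (0 : ℝ) 1} =
    ZSpan.fundamentalDomain (V2b_b n) := by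
  ext y
  rw [ZSpan.mem_fundamentalDomain]
  simp [V2b_b]

open scoped Pointwise in
theorem cube_translate {g : EuclideanSpace ℝ (Fin n) → ℝ} (hg : Continuous g)
    (hper : ∀ x (k : Fin n → ℤ), g (x + zv k) = g x) (c : EuclideanSpace ℝ (Fin n)) :
    ∫ y in {y : EuclideanSpace ℝ (Fin n) | ∀ i, y i ∈ Set.Ico (0 : ℝ) 1}, g (y + c) =
      ∫ y in {y : EuclideanSpace ℝ (Fin n) | ∀ i, y i ∈ Set.Ico (0 : ℝ) 1}, g y := by
  rw [V2b_fd]
  have h1 := ZSpan.isAddFundamentalDomain' (V2b_b n) (volume : Measure (EuclideanSpace ℝ (Fin n)))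
  have : Countable (Submodule.span ℤ (Set.range (V2b_b n))).toAddSubgroup :=
    inferInstanceAs (Countable (Submodule.span ℤ (Set.range (V2b_b n))))
  have h2 := h1.vadd_of_comm c
  have h3 : ∫ y in c +ᵥ ZSpan.fundamentalDomain (V2b_b n), g y =
      ∫ y in ZSpan.fundamentalDomain (V2b_b n), g y := by
    apply h2.setIntegral_eq h1
    intro v x
    obtain ⟨k, hk⟩ : ∃ k : Fin n → ℤ, (v : EuclideanSpace ℝ (Fin n)) = zv k := by
      have := ((V2b_b n).mem_span_iff_repr_mem ℤ (v : EuclideanSpace ℝ (Fin n))).1 v.2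
      choose k hk using this
      refine ⟨k, ?_⟩
      ext i
      have := hk i
      simp [V2b_b] at this
      simp [zv, this]
    have : v +ᵥ x = x + zv k := by
      rw [AddSubgroup.vadd_def, vadd_eq_add, hk, add_comm]
    rw [this, hper]
  rw [← h3]
  have h4 : c +ᵥ ZSpan.fundamentalDomain (V2b_b n) =
      (fun y => y + c) '' ZSpan.fundamentalDomain (V2b_b n) := by
    ext y
    rw [Set.mem_vadd_set, Set.mem_image]
    simp only [vadd_eq_add, add_comm]
  rw [h4, (measurePreserving_add_right volume c).setIntegral_image_emb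
    (measurableEmbedding_addRight c)]

theorem cube_cos {k : Fin n → ℤ} (hk : k ≠ 0) (φ : ℝ) :
    ∫ y in {y : EuclideanSpace ℝ (Fin n) | ∀ i, y i ∈ Set.Ico (0 : ℝ) 1},
      Real.cos (2 * Real.pi * ⟪zv k, y⟫ + φ) = 0 := by
  have hzk : zv k ≠ 0 := by
    intro h0
    apply hk
    funext i
    have := congrArg (fun v : EuclideanSpace ℝ (Fin n) => v i) h0
    simpa [zv] using this
  have hN : 0 < ‖zv k‖ ^ 2 := by positivity
  obtain ⟨c, hc⟩ : ∃ c : EuclideanSpace ℝ (Fin n), ⟪zv k, c⟫ = 1 / 2 := by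
    refine ⟨(1 / (2 * ‖zv k‖ ^ 2)) • zv k, ?_⟩
    rw [inner_smul_right, real_inner_self_eq_norm_sq]
    field_simp
  have hcont : Continuous fun y : EuclideanSpace ℝ (Fin n) =>
      Real.cos (2 * Real.pi * ⟪zv k, y⟫ + φ) := by fun_prop
  have h1 := cube_translate hcont (by
    intro x j
    rw [inner_add_right, inner_zv,
      show 2 * Real.pi * (⟪zv k, x⟫ + (dot k j : ℝ)) + φ =
        2 * Real.pi * ⟪zv k, x⟫ + φ + (dot k j) * (2 * Real.pi) by ring,
      Real.cos_add_int_mul_two_pi]) c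
  have h2 : ∀ y : EuclideanSpace ℝ (Fin n), Real.cos (2 * Real.pi * ⟪zv k, y + c⟫ + φ) =
      -Real.cos (2 * Real.pi * ⟪zv k, y⟫ + φ) := by
    intro y
    rw [inner_add_right, hc,
      show 2 * Real.pi * (⟪zv k, y⟫ + 1 / 2) + φ = 2 * Real.pi * ⟪zv k, y⟫ + φ + Real.pi by ring,
      Real.cos_add_pi]
  simp only [h2] at h1
  rw [integral_neg] at h1
  linarith

end Pool.Agent.H33.AM

end

section

/-!
# Module V2: trigonometric approximation, integrals over the unit cube, averages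

`cube = {y | ∀ i, y i ∈ Ico 0 1}`.
* `trig_dense`: Stone-Weierstrass on `C(Fin n → UnitAddCircle, ℂ)` (the characters
  `x ↦ ∏ i, fourier (k i) (x i)` span a star-closed subalgebra separating points), then real parts.
* `cube_translate`: the cube is a fundamental domain of `ℤⁿ` (`ZSpan`,
  `MeasureTheory.IsAddFundamentalDomain.setIntegral_eq`), or Fubini and
  `Function.Periodic.intervalIntegral_add_eq`.
* `cube_cos`: for `k ≠ 0` the integral vanishes: translate (by `cube_translate`) by `c` with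
  `⟪zv k, c⟫ = 1/2`.
* `avK_cont`, `avK_per`: `avK g k₀ m` is continuous and 1-periodic (the integrand is bounded, the cube
  is bounded; `θ ↦ θ + 1` translates by `zv m`).
-/

set_option autoImplicit false

open MeasureTheory
open scoped RealInnerProductSpace

namespace Pool.Agent.H33.AM

variable {n : ℕ}

private theorem V2c_norm_le {y : EuclideanSpace ℝ (Fin n)}
    (hy : ∀ i, y i ∈ Set.Ico (0 : ℝ) 1) : ‖y‖ ≤ Real.sqrt n := by
  rw [EuclideanSpace.norm_eq]
  apply Real.sqrt_le_sqrt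
  calc ∑ i, ‖y i‖ ^ 2 ≤ ∑ _i : Fin n, (1 : ℝ) := by
        refine Finset.sum_le_sum (fun i _ => ?_)
        have h := hy i
        rw [Real.norm_of_nonneg h.1]
        have h2 := h.2
        have h1 := h.1
        nlinarith
    _ = n := by simp

theorem avK_cont {g : EuclideanSpace ℝ (Fin n) → ℝ} (hg : Continuous g)
    (hper : ∀ x (k : Fin n → ℤ), g (x + zv k) = g x) (k₀ m : Fin n → ℤ) :
    Continuous (avK g k₀ m) := by
  have _ := hper
  have hG : Continuous (fun p : ℝ × EuclideanSpace ℝ (Fin n) =>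
      g (p.1 • zv m + p.2 - ⟪zv k₀, p.2⟫ • zv m)) := by
    fun_prop
  have hfin : IsFiniteMeasure (volume.restrict
      {y : EuclideanSpace ℝ (Fin n) | ∀ i, y i ∈ Set.Ico (0 : ℝ) 1}) := by
    constructor
    rw [Measure.restrict_apply_univ, cube_vol]
    exact ENNReal.one_lt_top
  rw [continuous_iff_continuousAt]
  intro θ₀
  obtain ⟨C, hC⟩ := ((isCompact_closedBall θ₀ 1).prod
    (isCompact_closedBall (0 : EuclideanSpace ℝ (Fin n)) (Real.sqrt n))).exists_bound_of_continuousOn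
      hG.continuousOn
  unfold avK
  apply continuousAt_of_dominated (bound := fun _ => C)
  · refine Filter.Eventually.of_forall (fun θ => ?_)
    exact (hG.comp (Continuous.prodMk_right θ)).aestronglyMeasurable
  · filter_upwards [Metric.closedBall_mem_nhds θ₀ one_pos] with θ hθ
    rw [ae_restrict_iff' cube_meas]
    refine Filter.Eventually.of_forall (fun y hy => ?_)
    exact hC (θ, y) ⟨hθ, by simpa using V2c_norm_le hy⟩
  · exact integrable_const C
  · refine Filter.Eventually.of_forall (fun y => ?_)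
    exact (hG.comp (Continuous.prodMk_left y)).continuousAt

theorem avK_per {g : EuclideanSpace ℝ (Fin n) → ℝ}
    (hper : ∀ x (k : Fin n → ℤ), g (x + zv k) = g x) (k₀ m : Fin n → ℤ) (θ : ℝ) :
    avK g k₀ m (θ + 1) = avK g k₀ m θ := by
  unfold avK
  congr 1
  ext y
  rw [← hper (θ • zv m + y - ⟪zv k₀, y⟫ • zv m) m]
  congr 1
  rw [add_smul, one_smul]
  abel

end Pool.Agent.H33.AM

end

section

/-!
# Module V1: replacing a function by its average over closed lines

* `avP_trap`: let `h(x) = ∫₀¹ (t - 1/2) g(x + t P) dt`, `H(x) = ∫₀¹ (t - 1/2) G(x + t P) dt = ∇h(x)`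
  (differentiation under the integral, or: `G` is Lipschitz, so a direct estimate),
  `⟪H x, zv P⟫ = ∫₀¹ (t - 1/2) (d/dt) g(x + t P) dt = (g(x + P) + g(x))/2 - avP g P x = g(x) - avP g P x`,
  `|h| ≤ B`, `‖H‖ ≤ B`. With `ũ = u - s P`: `(d/dt) h(x(t)) = s (g - avP g P)(x(t)) + ⟪H, ũ⟫`
  (`Adm.integral_grad`), so `s |∫ (g - avP g P)| ≤ 2 B + B ∫ ‖ũ‖`.
* `avP_cont`, `avP_per`: continuity and periodicity of `avP g P`.
-/

set_option autoImplicit false

open MeasureTheory
open scoped RealInnerProductSpace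

namespace Pool.Agent.H33.AM

variable {n : ℕ}

theorem avP_cont {g : EuclideanSpace ℝ (Fin n) → ℝ} (hg : Continuous g) (P : Fin n → ℤ) :
    Continuous (avP g P) := by
  have h : Continuous fun x => ∫ t in (0 : ℝ)..1, g (x + t • zv P) :=
    intervalIntegral.continuous_parametric_intervalIntegral_of_continuous'
      (f := fun (x : EuclideanSpace ℝ (Fin n)) (t : ℝ) => g (x + t • zv P))
      (hg.comp (continuous_fst.add (continuous_snd.smul continuous_const))) 0 1
  exact h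

theorem avP_trap {g : EuclideanSpace ℝ (Fin n) → ℝ}
    {G : EuclideanSpace ℝ (Fin n) → EuclideanSpace ℝ (Fin n)} {B : ℝ}
    (hg : ∀ x, HasGradientAt g (G x) x) (hper : ∀ x (k : Fin n → ℤ), g (x + zv k) = g x)
    (hb : ∀ x, |g x| ≤ B) (hbG : ∀ x, ‖G x‖ ≤ B) (hlip : ∀ x y, ‖G x - G y‖ ≤ B * ‖x - y‖)
    (P : Fin n → ℤ) {s : ℝ} (hs : 0 < s) {a b : ℝ} {x u : ℝ → EuclideanSpace ℝ (Fin n)}
    (h : Adm a b x u) :
    |(∫ t in a..b, g (x t)) - ∫ t in a..b, avP g P (x t)| ≤
      (2 * B + B * ∫ t in a..b, ‖u t - s • zv P‖) / s := by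
  have hB : 0 ≤ B := (norm_nonneg _).trans (hbG 0)
  have hGc : Continuous G := (LipschitzWith.of_dist_le_mul (K := ⟨B, hB⟩) (fun x y => by
    rw [dist_eq_norm, dist_eq_norm]
    exact hlip x y)).continuous
  have hgc : Continuous g := continuous_iff_continuousAt.mpr fun x =>
    (hg x).differentiableAt.continuousAt
  obtain ⟨Q, hQ⟩ : ∃ Q, Q = zv P := ⟨_, rfl⟩
  have hlc : Continuous fun p : EuclideanSpace ℝ (Fin n) × ℝ => p.1 + p.2 • Q :=
    continuous_fst.add (continuous_snd.smul continuous_const)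
  have hline : ∀ y : EuclideanSpace ℝ (Fin n), Continuous fun t : ℝ => y + t • Q := fun y =>
    continuous_const.add (continuous_id.smul continuous_const)
  obtain ⟨h', hh'⟩ : ∃ h' : EuclideanSpace ℝ (Fin n) → ℝ,
      h' = fun y => ∫ t in (0 : ℝ)..1, (t - 1 / 2) * g (y + t • Q) := ⟨_, rfl⟩
  obtain ⟨H', hH'⟩ : ∃ H' : EuclideanSpace ℝ (Fin n) → EuclideanSpace ℝ (Fin n),
      H' = fun y => ∫ t in (0 : ℝ)..1, (t - 1 / 2) • G (y + t • Q) := ⟨_, rfl⟩
  have hH'c : Continuous H' := by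
    rw [hH']
    exact intervalIntegral.continuous_parametric_intervalIntegral_of_continuous'
      (f := fun (y : EuclideanSpace ℝ (Fin n)) (t : ℝ) => (t - 1 / 2) • G (y + t • Q))
      ((continuous_snd.sub continuous_const).smul (hGc.comp hlc)) 0 1
  have hφc : ∀ y, Continuous fun t : ℝ => (t - 1 / 2) • G (y + t • Q) := fun y =>
    (continuous_id.sub continuous_const).smul (hGc.comp (hline y))
  have hinner : ∀ y v, ⟪H' y, v⟫ = ∫ t in (0 : ℝ)..1, (t - 1 / 2) * ⟪G (y + t • Q), v⟫ := by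
    intro y v
    have h1 := (innerSL ℝ v).intervalIntegral_comp_comm
      ((hφc y).intervalIntegrable (μ := volume) 0 1)
    rw [hH', real_inner_comm]
    rw [innerSL_apply_apply] at h1
    rw [← h1]
    refine intervalIntegral.integral_congr (fun t _ => ?_)
    simp only [innerSL_apply_apply]
    rw [real_inner_smul_right, real_inner_comm]
  have hhalf : ∀ t ∈ Set.uIoc (0 : ℝ) 1, |t - 1 / 2| ≤ 1 := by
    intro t ht
    rw [Set.uIoc_of_le zero_le_one] at ht
    rw [abs_le]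
    constructor <;> linarith [ht.1, ht.2]
  have hgrad : ∀ y, HasGradientAt h' (H' y) y := by
    intro y
    rw [hasGradientAt_iff_hasFDerivAt]
    have h1 := intervalIntegral.hasFDerivAt_integral_of_dominated_of_fderiv_le
      (μ := volume) (a := 0) (b := 1) (s := Set.univ) (x₀ := y) (bound := fun _ => B)
      (F := fun (z : EuclideanSpace ℝ (Fin n)) (t : ℝ) => (t - 1 / 2) * g (z + t • Q))
      (F' := fun (z : EuclideanSpace ℝ (Fin n)) (t : ℝ) =>
        (t - 1 / 2) • (InnerProductSpace.toDual ℝ (EuclideanSpace ℝ (Fin n)) (G (z + t • Q))))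
      Filter.univ_mem
      (Filter.Eventually.of_forall fun z => ((continuous_id.sub continuous_const).mul
        (hgc.comp (hline z))).aestronglyMeasurable)
      (((continuous_id.sub continuous_const).mul (hgc.comp (hline y))).intervalIntegrable 0 1)
      (((continuous_id.sub continuous_const).smul
        ((InnerProductSpace.toDual ℝ (EuclideanSpace ℝ (Fin n))).continuous.comp
          (hGc.comp (hline y)))).aestronglyMeasurable)
      (Filter.Eventually.of_forall fun t ht z _ => by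
        rw [norm_smul, LinearIsometryEquiv.norm_map, Real.norm_eq_abs]
        calc |t - 1 / 2| * ‖G (z + t • Q)‖ ≤ 1 * B :=
              mul_le_mul (hhalf t ht) (hbG _) (norm_nonneg _) zero_le_one
          _ = B := one_mul B)
      (continuous_const.intervalIntegrable 0 1)
      (Filter.Eventually.of_forall fun t _ z _ => by
        have h2 : HasFDerivAt (fun w : EuclideanSpace ℝ (Fin n) => w + t • Q)
            (ContinuousLinearMap.id ℝ (EuclideanSpace ℝ (Fin n))) z :=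
          (hasFDerivAt_id z).add_const (t • Q)
        have h3 := (hg (z + t • Q)).hasFDerivAt.comp z h2
        rw [ContinuousLinearMap.comp_id] at h3
        exact h3.const_mul (t - 1 / 2))
    rw [hh']
    refine h1.congr_fderiv ?_
    ext v
    rw [ContinuousLinearMap.intervalIntegral_apply, InnerProductSpace.toDual_apply_apply, hinner]
    · refine intervalIntegral.integral_congr (fun t _ => ?_)
      simp only [smul_apply, InnerProductSpace.toDual_apply_apply, smul_eq_mul]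
    · exact (((continuous_id.sub continuous_const).smul
        ((InnerProductSpace.toDual ℝ (EuclideanSpace ℝ (Fin n))).continuous.comp
          (hGc.comp (hline y)))).intervalIntegrable 0 1)
  have hpar : ∀ y, ⟪H' y, Q⟫ = g y - avP g P y := by
    intro y
    rw [hinner]
    have hv : ∀ t : ℝ, HasDerivAt (fun t : ℝ => g (y + t • Q)) ⟪G (y + t • Q), Q⟫ t := by
      intro t
      have h2 : HasDerivAt (fun t : ℝ => y + t • Q) Q t := by
        have h3 := ((hasDerivAt_id t).smul_const Q).const_add y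
        rw [one_smul] at h3
        exact h3
      have h4 := (hg (y + t • Q)).hasFDerivAt.comp_hasDerivAt t h2
      rw [InnerProductSpace.toDual_apply_apply] at h4
      exact h4
    have hu : ∀ t : ℝ, HasDerivAt (fun t : ℝ => t - 1 / 2) 1 t := fun t =>
      (hasDerivAt_id t).sub_const (1 / 2)
    have h5 := intervalIntegral.integral_mul_deriv_eq_deriv_mul (a := 0) (b := 1)
      (u := fun t : ℝ => t - 1 / 2) (u' := fun _ => 1) (v := fun t : ℝ => g (y + t • Q))
      (v' := fun t => ⟪G (y + t • Q), Q⟫)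
      (fun t _ => hu t) (fun t _ => hv t) (continuous_const.intervalIntegrable 0 1)
      (((hGc.comp (hline y)).inner continuous_const).intervalIntegrable 0 1)
    rw [h5]
    have h6 : g (y + (1 : ℝ) • Q) = g y := by
      rw [one_smul, hQ]
      exact hper y P
    have h7 : (∫ t in (0 : ℝ)..1, (fun _ => (1 : ℝ)) t * g (y + t • Q)) = avP g P y := by
      simp only [one_mul, avP, hQ]
    simp only [h6, zero_smul, add_zero, one_mul]
    unfold avP
    rw [← hQ]
    ring
  have hb' : ∀ y, |h' y| ≤ B := by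
    intro y
    rw [hh']
    have h1 := intervalIntegral.norm_integral_le_of_norm_le_const (a := 0) (b := 1) (C := B)
      (f := fun t : ℝ => (t - 1 / 2) * g (y + t • Q)) (fun t ht => by
        rw [norm_mul, Real.norm_eq_abs, Real.norm_eq_abs]
        calc |t - 1 / 2| * |g (y + t • Q)| ≤ 1 * B :=
              mul_le_mul (hhalf t ht) (hb _) (abs_nonneg _) zero_le_one
          _ = B := one_mul B)
    rw [sub_zero, abs_one, mul_one, Real.norm_eq_abs] at h1
    exact h1
  have hbH : ∀ y, ‖H' y‖ ≤ B := by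
    intro y
    rw [hH']
    have h1 := intervalIntegral.norm_integral_le_of_norm_le_const (a := 0) (b := 1) (C := B)
      (f := fun t : ℝ => (t - 1 / 2) • G (y + t • Q)) (fun t ht => by
        rw [norm_smul, Real.norm_eq_abs]
        calc |t - 1 / 2| * ‖G (y + t • Q)‖ ≤ 1 * B :=
              mul_le_mul (hhalf t ht) (hbG _) (norm_nonneg _) zero_le_one
          _ = B := one_mul B)
    rw [sub_zero, abs_one, mul_one] at h1
    exact h1
  -- along the curve
  have key := h.integral_grad hgrad hH'c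
  have i1 : IntervalIntegrable (fun t => g (x t)) volume a b :=
    h.integrable (g := fun p => g p.1) (hgc.comp continuous_fst)
  have i2 : IntervalIntegrable (fun t => avP g P (x t)) volume a b :=
    h.integrable (g := fun p => avP g P p.1) ((avP_cont hgc P).comp continuous_fst)
  have i3 : IntervalIntegrable (fun t => ⟪H' (x t), u t - s • Q⟫) volume a b :=
    h.integrable (g := fun p => ⟪H' p.1, p.2 - s • Q⟫)
      ((hH'c.comp continuous_fst).inner (continuous_snd.sub continuous_const))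
  have i4 : IntervalIntegrable (fun t => ‖u t - s • Q‖) volume a b :=
    h.integrable (g := fun p => ‖p.2 - s • Q‖) (continuous_snd.sub continuous_const).norm
  have hdec : (∫ t in a..b, ⟪H' (x t), u t⟫) =
      s * ((∫ t in a..b, g (x t)) - ∫ t in a..b, avP g P (x t)) +
        ∫ t in a..b, ⟪H' (x t), u t - s • Q⟫ := by
    rw [← intervalIntegral.integral_sub i1 i2, ← intervalIntegral.integral_const_mul,
      ← intervalIntegral.integral_add ((i1.sub i2).const_mul s) i3]
    refine intervalIntegral.integral_congr (fun t _ => ?_)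
    rw [inner_sub_right, real_inner_smul_right, hpar]
    ring
  have hrest : |∫ t in a..b, ⟪H' (x t), u t - s • Q⟫| ≤ B * ∫ t in a..b, ‖u t - s • Q‖ := by
    rw [← intervalIntegral.integral_const_mul, ← Real.norm_eq_abs]
    refine intervalIntegral.norm_integral_le_of_norm_le h.le
      (Filter.Eventually.of_forall fun t _ => ?_) (i4.const_mul B)
    calc ‖⟪H' (x t), u t - s • Q⟫‖ ≤ ‖H' (x t)‖ * ‖u t - s • Q‖ := norm_inner_le_norm _ _
      _ ≤ B * ‖u t - s • Q‖ := mul_le_mul_of_nonneg_right (hbH _) (norm_nonneg _)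
  rw [← hQ, le_div_iff₀ hs]
  have e1 : |(∫ t in a..b, g (x t)) - ∫ t in a..b, avP g P (x t)| * s =
      |s * ((∫ t in a..b, g (x t)) - ∫ t in a..b, avP g P (x t))| := by
    rw [abs_mul, abs_of_pos hs, mul_comm]
  have e2 : s * ((∫ t in a..b, g (x t)) - ∫ t in a..b, avP g P (x t)) =
      h' (x b) - h' (x a) - ∫ t in a..b, ⟪H' (x t), u t - s • Q⟫ := by
    rw [← key, hdec]
    ring
  rw [e1, e2]
  have e3 := abs_sub (h' (x b) - h' (x a)) (∫ t in a..b, ⟪H' (x t), u t - s • Q⟫)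
  have e4 := abs_sub (h' (x b)) (h' (x a))
  linarith [hb' (x a), hb' (x b)]

end Pool.Agent.H33.AM

end

section

/-!
# Module V4: nonconstant averages exist

`cube = {y | ∀ i, y i ∈ Ico 0 1}`.
* `cos_coeff`: for `dot k₀ m = 1`, `d ≠ 0`: `∫_cube g(y) cos(2π d ⟪k₀, y⟫ + φ) dy =
  ∫₀¹ avK g k₀ m θ cos(2π d θ + φ) dθ`. Both sides are continuous for the uniform norm and linear in `g`,
  so by `trig_dense` it is enough to take `g = cos(2π ⟪zv l, ·⟫ + ψ)` (`avK_cos`, `cube_cos`, product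
  formulas for cosines).
* `primitive`: divide `k ≠ 0` by the gcd `d` of its entries and use Bezout
  (`Finset.extract_gcd`, `Finset.gcd`/`Ideal.span` … or induction).
* `const_of_coeff`: if all the coefficients `∫_cube g cos(2π ⟪k, ·⟫ + φ)`, `k ≠ 0`, vanish then `g` is
  constant: with `ḡ = ∫_cube g`, `∫_cube (g - ḡ)² = lim ∫_cube (g - ḡ) p_j = 0` for trigonometric
  polynomials `p_j → g` uniformly; then use continuity and periodicity.
* `exists_avK_ne`: combine.
-/

set_option autoImplicit false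

open MeasureTheory
open scoped RealInnerProductSpace

namespace Pool.Agent.H33.AM

variable {n : ℕ}

private theorem V4c_bound {f : EuclideanSpace ℝ (Fin n) → ℝ} (hf : Continuous f) :
    ∃ C, ∀ y : EuclideanSpace ℝ (Fin n), (∀ i, y i ∈ Set.Ico (0 : ℝ) 1) → |f y| ≤ C := by
  have hK : IsCompact ((EuclideanSpace.equiv (Fin n) ℝ) ⁻¹' (Set.Icc 0 1)) :=
    (EuclideanSpace.equiv (Fin n) ℝ).toHomeomorph.isClosedEmbedding.isCompact_preimage isCompact_Icc
  obtain ⟨C, hC⟩ := hK.exists_bound_of_continuousOn hf.continuousOn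
  refine ⟨C, fun y hy => hC y ?_⟩
  exact ⟨fun i => (hy i).1, fun i => (hy i).2.le⟩

private theorem V4c_int {f : EuclideanSpace ℝ (Fin n) → ℝ} (hf : Continuous f) :
    IntegrableOn f {y : EuclideanSpace ℝ (Fin n) | ∀ i, y i ∈ Set.Ico (0 : ℝ) 1} := by
  have hK : IsCompact ((EuclideanSpace.equiv (Fin n) ℝ) ⁻¹' (Set.Icc 0 1)) :=
    (EuclideanSpace.equiv (Fin n) ℝ).toHomeomorph.isClosedEmbedding.isCompact_preimage isCompact_Icc
  refine (hf.continuousOn.integrableOn_compact hK).mono_set fun y hy => ?_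
  exact ⟨fun i => (hy i).1, fun i => (hy i).2.le⟩

theorem const_of_coeff {g : EuclideanSpace ℝ (Fin n) → ℝ} (hg : Continuous g)
    (hper : ∀ x (k : Fin n → ℤ), g (x + zv k) = g x)
    (h : ∀ (k : Fin n → ℤ) (φ : ℝ), k ≠ 0 →
      ∫ y in {y : EuclideanSpace ℝ (Fin n) | ∀ i, y i ∈ Set.Ico (0 : ℝ) 1},
        g y * Real.cos (2 * Real.pi * ⟪zv k, y⟫ + φ) = 0) (x y : EuclideanSpace ℝ (Fin n)) :
    g x = g y := by
  have hQm := cube_meas (n := n)
  set Q : Set (EuclideanSpace ℝ (Fin n)) := {y | ∀ i, y i ∈ Set.Ico (0 : ℝ) 1} with hQ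
  have hvol : volume.real Q = 1 := by
    rw [Measure.real, cube_vol]
    simp
  set c : ℝ := ∫ y in Q, g y with hc
  have hint : ∀ {f : EuclideanSpace ℝ (Fin n) → ℝ}, Continuous f → IntegrableOn f Q :=
    fun hf => V4c_int hf
  have hzero : ∫ y in Q, (g y - c) ^ 2 = 0 := by
    obtain ⟨C, hC⟩ := V4c_bound (n := n) (f := fun y => g y - c) (by fun_prop)
    have hkey : ∀ ε > 0, ∫ y in Q, (g y - c) ^ 2 ≤ ε * C := by
      intro ε hε
      obtain ⟨S, a, b, hS⟩ := trig_dense hg hper hε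
      set p : EuclideanSpace ℝ (Fin n) → ℝ := fun x =>
        ∑ k ∈ S, (a k * Real.cos (2 * Real.pi * ⟪zv k, x⟫) +
          b k * Real.sin (2 * Real.pi * ⟪zv k, x⟫)) with hp
      have hpc : Continuous p := by fun_prop
      have h1 : ∫ y in Q, (g y - c) * p y = 0 := by
        have h2 : ∀ y, (g y - c) * p y = ∑ k ∈ S,
            (a k * ((g y - c) * Real.cos (2 * Real.pi * ⟪zv k, y⟫)) +
              b k * ((g y - c) * Real.sin (2 * Real.pi * ⟪zv k, y⟫))) := by
          intro y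
          simp only [hp]
          rw [Finset.mul_sum]
          refine Finset.sum_congr rfl fun k _ => ?_
          ring
        simp only [h2]
        rw [integral_finsetSum]
        · refine Finset.sum_eq_zero fun k _ => ?_
          rw [integral_add, integral_const_mul, integral_const_mul]
          · have h2' : ∀ φ : ℝ, ∫ y in Q, (g y - c) * Real.cos (2 * Real.pi * ⟪zv k, y⟫ + φ) = 0 := by
              intro φ
              have h7 : ∀ y, (g y - c) * Real.cos (2 * Real.pi * ⟪zv k, y⟫ + φ) =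
                  g y * Real.cos (2 * Real.pi * ⟪zv k, y⟫ + φ) -
                    c * Real.cos (2 * Real.pi * ⟪zv k, y⟫ + φ) := fun y => by ring
              simp only [h7]
              rw [integral_sub (hint (by fun_prop)) (hint (by fun_prop)), integral_const_mul]
              by_cases hk : k = 0
              · simp only [hk, zv_zero, inner_zero_left, mul_zero, zero_add]
                rw [integral_mul_const, setIntegral_const, hvol]
                simp [← hc]
              · have h8 := h k φ hk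
                have h9 := cube_cos hk φ
                rw [← hQ] at h9
                rw [h8, h9]
                simp
            have h3 : ∫ y in Q, (g y - c) * Real.cos (2 * Real.pi * ⟪zv k, y⟫) = 0 := by
              have h7 := h2' 0
              simpa using h7
            have h4 : ∫ y in Q, (g y - c) * Real.sin (2 * Real.pi * ⟪zv k, y⟫) = 0 := by
              have h7 := h2' (-(Real.pi / 2))
              simpa [← sub_eq_add_neg, Real.cos_sub_pi_div_two] using h7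
            rw [h3, h4]
            simp
          · exact hint (by fun_prop)
          · exact hint (by fun_prop)
        · intro k _
          exact hint (by fun_prop)
      have h5 : ∫ y in Q, (g y - c) ^ 2 = ∫ y in Q, (g y - c) * (g y - p y) := by
        have h6 : ∫ y in Q, (g y - c) * (g y - p y) =
            ∫ y in Q, ((g y - c) ^ 2 + (c * (g y - c) - (g y - c) * p y)) := by
          congr 1
          funext y
          ring
        rw [h6, integral_add (hint (by fun_prop)) (hint (by fun_prop)),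
          integral_sub (hint (by fun_prop)) (hint (by fun_prop)), h1, integral_const_mul,
          integral_sub (hint hg) (hint continuous_const)]
        simp [hvol, ← hc]
      rw [h5]
      have h10 : ‖∫ y in Q, (g y - c) * (g y - p y)‖ ≤ ε * C * volume.real Q := by
        refine norm_setIntegral_le_of_norm_le_const (by rw [cube_vol]; exact ENNReal.one_lt_top) ?_
        intro y hy
        rw [norm_mul, Real.norm_eq_abs, Real.norm_eq_abs, mul_comm]
        exact mul_le_mul (hS y) (hC y hy) (abs_nonneg _) hε.le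
      rw [hvol, mul_one] at h10
      exact (Real.le_norm_self _).trans h10
    have hnn : 0 ≤ ∫ y in Q, (g y - c) ^ 2 := integral_nonneg fun y => sq_nonneg _
    by_contra hcon
    have hpos : 0 < ∫ y in Q, (g y - c) ^ 2 := lt_of_le_of_ne hnn (Ne.symm hcon)
    set J := ∫ y in Q, (g y - c) ^ 2 with hJ
    have hC0 : 0 < |C| + 1 := by positivity
    have h11 := hkey (J / (2 * (|C| + 1))) (by positivity)
    have h12 : J / (2 * (|C| + 1)) * C ≤ J / (2 * (|C| + 1)) * (|C| + 1) :=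
      mul_le_mul_of_nonneg_left (by linarith [le_abs_self C]) (by positivity)
    have h13 : J / (2 * (|C| + 1)) * (|C| + 1) = J / 2 := by
      field_simp
    linarith
  have hconst : ∀ z, g z = c := by
    intro z
    set e₀ : EuclideanSpace ℝ (Fin n) := WithLp.toLp 2 fun _ => (1 / 2 : ℝ) with he₀
    have h1 := cube_translate (n := n) (g := fun y => (g y - c) ^ 2) (by fun_prop)
      (fun x k => by simp only [hper]) (z - e₀)
    rw [← hQ, hzero] at h1
    have h2 := (setIntegral_eq_zero_iff_of_nonneg_ae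
      (f := fun y => (g (y + (z - e₀)) - c) ^ 2) (s := Q) (μ := volume)
      (Filter.Eventually.of_forall fun y => sq_nonneg _) (hint (by fun_prop))).1 h1
    set U : Set (EuclideanSpace ℝ (Fin n)) := {y | ∀ i, y i ∈ Set.Ioo (0 : ℝ) 1} with hU
    have hUo : IsOpen U := by
      rw [hU, Set.ofPred_forall]
      refine isOpen_iInter_of_finite fun i => ?_
      exact isOpen_Ioo.preimage (by fun_prop)
    have hUQ : U ⊆ Q := fun y hy i => ⟨(hy i).1.le, (hy i).2⟩
    have h3 : (fun y => (g (y + (z - e₀)) - c) ^ 2) =ᵐ[volume.restrict U] fun _ => 0 :=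
      ae_restrict_of_ae_restrict_of_subset hUQ h2
    have h4 := Measure.eqOn_open_of_ae_eq h3 hUo (by fun_prop) continuousOn_const
    have h5 : e₀ ∈ U := fun i => by
      simp only [he₀]
      norm_num
    have h6 := h4 h5
    simp only [add_sub_cancel] at h6
    have h7 := pow_eq_zero_iff (two_ne_zero) |>.1 h6
    linarith
  rw [hconst x, hconst y]

end Pool.Agent.H33.AM

end

section

/-!
# Module V4: nonconstant averages exist

`cube = {y | ∀ i, y i ∈ Ico 0 1}`.
* `cos_coeff`: for `dot k₀ m = 1`, `d ≠ 0`: `∫_cube g(y) cos(2π d ⟪k₀, y⟫ + φ) dy =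
  ∫₀¹ avK g k₀ m θ cos(2π d θ + φ) dθ`. Both sides are continuous for the uniform norm and linear in `g`,
  so by `trig_dense` it is enough to take `g = cos(2π ⟪zv l, ·⟫ + ψ)` (`avK_cos`, `cube_cos`, product
  formulas for cosines).
* `primitive`: divide `k ≠ 0` by the gcd `d` of its entries and use Bezout
  (`Finset.extract_gcd`, `Finset.gcd`/`Ideal.span` … or induction).
* `const_of_coeff`: if all the coefficients `∫_cube g cos(2π ⟪k, ·⟫ + φ)`, `k ≠ 0`, vanish then `g` is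
  constant: with `ḡ = ∫_cube g`, `∫_cube (g - ḡ)² = lim ∫_cube (g - ḡ) p_j = 0` for trigonometric
  polynomials `p_j → g` uniformly; then use continuity and periodicity.
* `exists_avK_ne`: combine.
-/

set_option autoImplicit false

open MeasureTheory
open scoped RealInnerProductSpace

namespace Pool.Agent.H33.AM

variable {n : ℕ}

private theorem closed_cube_compact :
    IsCompact {y : EuclideanSpace ℝ (Fin n) | ∀ i, y i ∈ Set.Icc (0 : ℝ) 1} := by
  have h1 : IsCompact (Set.univ.pi fun _ : Fin n => Set.Icc (0 : ℝ) 1) :=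
    isCompact_univ_pi fun _ => isCompact_Icc
  have h2 := (EuclideanSpace.equiv (Fin n) ℝ).toHomeomorph.isCompact_preimage.2 h1
  refine h2.of_isClosed_subset ?_ fun y hy => ?_
  · have h3 : {y : EuclideanSpace ℝ (Fin n) | ∀ i, y i ∈ Set.Icc (0 : ℝ) 1} =
        ⋂ i : Fin n, {y : EuclideanSpace ℝ (Fin n) | y i ∈ Set.Icc (0 : ℝ) 1} := by
      ext y; simp
    rw [h3]
    refine isClosed_iInter fun i => ?_
    exact isClosed_Icc.preimage (by fun_prop : Continuous fun y : EuclideanSpace ℝ (Fin n) => y i)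
  · intro i _
    exact hy i

private theorem swap_cube {F : ℝ → EuclideanSpace ℝ (Fin n) → ℝ}
    (hF : Continuous fun p : ℝ × EuclideanSpace ℝ (Fin n) => F p.1 p.2) :
    ∫ θ in (0 : ℝ)..1, ∫ y in {y : EuclideanSpace ℝ (Fin n) | ∀ i, y i ∈ Set.Ico (0 : ℝ) 1},
      F θ y =
    ∫ y in {y : EuclideanSpace ℝ (Fin n) | ∀ i, y i ∈ Set.Ico (0 : ℝ) 1},
      ∫ θ in (0 : ℝ)..1, F θ y := by
  have h1 : ∀ y : EuclideanSpace ℝ (Fin n), ∫ θ in (0 : ℝ)..1, F θ y =
      ∫ θ in Set.Ioc (0 : ℝ) 1, F θ y := fun y => intervalIntegral.integral_of_le zero_le_one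
  simp only [h1]
  rw [intervalIntegral.integral_of_le zero_le_one]
  refine MeasureTheory.integral_integral_swap ?_
  rw [Measure.prod_restrict]
  have h2 : IntegrableOn (fun p : ℝ × EuclideanSpace ℝ (Fin n) => F p.1 p.2)
      (Set.Icc (0 : ℝ) 1 ×ˢ {y : EuclideanSpace ℝ (Fin n) | ∀ i, y i ∈ Set.Icc (0 : ℝ) 1})
      ((volume : Measure ℝ).prod (volume : Measure (EuclideanSpace ℝ (Fin n)))) :=
    hF.continuousOn.integrableOn_compact (isCompact_Icc.prod closed_cube_compact)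
  refine h2.mono_set (Set.prod_mono Set.Ioc_subset_Icc_self fun y hy i => ?_)
  exact ⟨(hy i).1, (hy i).2.le⟩

theorem cos_coeff {k₀ m : Fin n → ℤ} (hkm : dot k₀ m = 1) {g : EuclideanSpace ℝ (Fin n) → ℝ}
    (hg : Continuous g) (hper : ∀ x (k : Fin n → ℤ), g (x + zv k) = g x) (d : ℤ) (φ : ℝ) :
    ∫ y in {y : EuclideanSpace ℝ (Fin n) | ∀ i, y i ∈ Set.Ico (0 : ℝ) 1},
      g y * Real.cos (2 * Real.pi * ⟪zv (d • k₀), y⟫ + φ) =
    ∫ θ in (0 : ℝ)..1, avK g k₀ m θ * Real.cos (2 * Real.pi * ((d : ℝ) * θ) + φ) := by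
  have hcont : Continuous fun y : EuclideanSpace ℝ (Fin n) =>
      g y * Real.cos (2 * Real.pi * ⟪zv (d • k₀), y⟫ + φ) := by
    have h1 : Continuous fun y : EuclideanSpace ℝ (Fin n) => ⟪zv (d • k₀), y⟫ :=
      continuous_const.inner continuous_id
    exact hg.mul (Real.continuous_cos.comp ((continuous_const.mul h1).add continuous_const))
  have hhper : ∀ (x : EuclideanSpace ℝ (Fin n)) (k : Fin n → ℤ),
      g (x + zv k) * Real.cos (2 * Real.pi * ⟪zv (d • k₀), x + zv k⟫ + φ) =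
        g x * Real.cos (2 * Real.pi * ⟪zv (d • k₀), x⟫ + φ) := by
    intro x k
    rw [hper x k, inner_add_right, inner_zv]
    have h1 : 2 * Real.pi * (⟪zv (d • k₀), x⟫ + (dot (d • k₀) k : ℝ)) + φ =
        (2 * Real.pi * ⟪zv (d • k₀), x⟫ + φ) + (dot (d • k₀) k : ℤ) * (2 * Real.pi) := by
      ring
    rw [h1, Real.cos_add_int_mul_two_pi]
  have hkm' : ⟪zv k₀, zv m⟫ = (1 : ℝ) := by rw [inner_zv, hkm]; norm_num
  have hin : Continuous fun p : ℝ × EuclideanSpace ℝ (Fin n) => ⟪zv k₀, p.2⟫ :=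
    continuous_const.inner continuous_snd
  have hA : ∫ θ in (0 : ℝ)..1, avK g k₀ m θ * Real.cos (2 * Real.pi * ((d : ℝ) * θ) + φ) =
      ∫ θ in (0 : ℝ)..1, ∫ y in {y : EuclideanSpace ℝ (Fin n) | ∀ i, y i ∈ Set.Ico (0 : ℝ) 1},
        g (θ • zv m + y - ⟪zv k₀, y⟫ • zv m) *
          Real.cos (2 * Real.pi * ((d : ℝ) * θ) + φ) := by
    refine intervalIntegral.integral_congr fun θ _ => ?_
    simp only [avK]
    rw [integral_mul_const]
  have hB := swap_cube (n := n) (F := fun θ y => g (θ • zv m + y - ⟪zv k₀, y⟫ • zv m) *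
      Real.cos (2 * Real.pi * ((d : ℝ) * θ) + φ)) (by
    have h1 : Continuous fun p : ℝ × EuclideanSpace ℝ (Fin n) =>
        p.1 • zv m + p.2 - ⟪zv k₀, p.2⟫ • zv m :=
      ((continuous_fst.smul continuous_const).add continuous_snd).sub
        (hin.smul continuous_const)
    have h2 : Continuous fun p : ℝ × EuclideanSpace ℝ (Fin n) =>
        2 * Real.pi * ((d : ℝ) * p.1) + φ :=
      (continuous_const.mul (continuous_const.mul continuous_fst)).add continuous_const
    exact (hg.comp h1).mul (Real.continuous_cos.comp h2))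
  have hC : ∀ y : EuclideanSpace ℝ (Fin n),
      ∫ θ in (0 : ℝ)..1, g (θ • zv m + y - ⟪zv k₀, y⟫ • zv m) *
          Real.cos (2 * Real.pi * ((d : ℝ) * θ) + φ) =
      ∫ θ in (0 : ℝ)..1, g (y + θ • zv m) *
        Real.cos (2 * Real.pi * ⟪zv (d • k₀), y + θ • zv m⟫ + φ) := by
    intro y
    have hp : Function.Periodic (fun θ : ℝ => g (θ • zv m + y - ⟪zv k₀, y⟫ • zv m) *
          Real.cos (2 * Real.pi * ((d : ℝ) * θ) + φ)) 1 := by
      intro θ
      have h1 : (θ + 1) • zv m + y - ⟪zv k₀, y⟫ • zv m =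
          (θ • zv m + y - ⟪zv k₀, y⟫ • zv m) + zv m := by
        rw [add_smul, one_smul]; abel
      have h2 : 2 * Real.pi * ((d : ℝ) * (θ + 1)) + φ =
          (2 * Real.pi * ((d : ℝ) * θ) + φ) + (d : ℤ) * (2 * Real.pi) := by ring
      show g ((θ + 1) • zv m + y - ⟪zv k₀, y⟫ • zv m) *
          Real.cos (2 * Real.pi * ((d : ℝ) * (θ + 1)) + φ) = _
      rw [h1, h2, hper, Real.cos_add_int_mul_two_pi]
    have h3 := hp.intervalIntegral_add_eq 0 ⟪zv k₀, y⟫
    rw [zero_add] at h3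
    rw [h3]
    have h4 := intervalIntegral.integral_comp_add_right (a := 0) (b := 1)
      (fun θ : ℝ => g (θ • zv m + y - ⟪zv k₀, y⟫ • zv m) *
          Real.cos (2 * Real.pi * ((d : ℝ) * θ) + φ)) ⟪zv k₀, y⟫
    rw [zero_add, add_comm (1 : ℝ)] at h4
    rw [← h4]
    refine intervalIntegral.integral_congr fun θ _ => ?_
    have h5 : (θ + ⟪zv k₀, y⟫) • zv m + y - ⟪zv k₀, y⟫ • zv m = y + θ • zv m := by
      rw [add_smul]; abel
    have h6 : 2 * Real.pi * ((d : ℝ) * (θ + ⟪zv k₀, y⟫)) + φ =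
        2 * Real.pi * ⟪zv (d • k₀), y + θ • zv m⟫ + φ := by
      rw [zv_zsmul, real_inner_smul_left, inner_add_right, real_inner_smul_right, hkm']
      ring
    show g ((θ + ⟪zv k₀, y⟫) • zv m + y - ⟪zv k₀, y⟫ • zv m) *
          Real.cos (2 * Real.pi * ((d : ℝ) * (θ + ⟪zv k₀, y⟫)) + φ) = _
    rw [h5, h6]
  have hD := swap_cube (n := n) (F := fun θ y => g (y + θ • zv m) *
        Real.cos (2 * Real.pi * ⟪zv (d • k₀), y + θ • zv m⟫ + φ)) (by
    have h1 : Continuous fun p : ℝ × EuclideanSpace ℝ (Fin n) => p.2 + p.1 • zv m :=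
      continuous_snd.add (continuous_fst.smul continuous_const)
    exact hcont.comp h1)
  rw [hA, hB]
  simp only [hC]
  rw [← hD]
  have hE : ∀ θ : ℝ, ∫ y in {y : EuclideanSpace ℝ (Fin n) | ∀ i, y i ∈ Set.Ico (0 : ℝ) 1},
      g (y + θ • zv m) * Real.cos (2 * Real.pi * ⟪zv (d • k₀), y + θ • zv m⟫ + φ) =
      ∫ y in {y : EuclideanSpace ℝ (Fin n) | ∀ i, y i ∈ Set.Ico (0 : ℝ) 1},
      g y * Real.cos (2 * Real.pi * ⟪zv (d • k₀), y⟫ + φ) := fun θ =>
    cube_translate hcont hhper (θ • zv m)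
  simp only [hE]
  rw [intervalIntegral.integral_const]
  simp

end Pool.Agent.H33.AM

end

section

/-!
# Module T2: the lattice `{k : k₀ · k = 0}` is cocompact in the slab `|k₀ · z| ≤ 1`

Round the coordinates of `z` to integers `m'` (`|z i - m' i| ≤ 1`), put
`k = m' - (k₀ · m') m`: then `k₀ · k = 0` and
`‖z - zv k‖ ≤ ‖z - zv m'‖ + |k₀ · m'| ‖zv m‖`, `|k₀ · m'| ≤ |⟪zv k₀, z⟫| + ‖zv k₀‖ ‖z - zv m'‖`.
-/

set_option autoImplicit false

open MeasureTheory
open scoped RealInnerProductSpace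

namespace Pool.Agent.H33.AM

variable {n : ℕ}

theorem lattice {k₀ m : Fin n → ℤ} (h : dot k₀ m = 1) :
    ∃ C₀ : ℝ, 0 ≤ C₀ ∧ ∀ z : EuclideanSpace ℝ (Fin n), |⟪zv k₀, z⟫| ≤ 1 →
      ∃ k : Fin n → ℤ, dot k₀ k = 0 ∧ ‖z - zv k‖ ≤ C₀ := by
  refine ⟨Real.sqrt n + (1 + ‖zv k₀‖ * Real.sqrt n) * ‖zv m‖, by positivity, ?_⟩
  intro z hz
  set m' : Fin n → ℤ := fun i => round (z i) with hm'
  set c : ℤ := dot k₀ m' with hc
  have hR : ‖z - zv m'‖ ≤ Real.sqrt n := by
    rw [EuclideanSpace.norm_eq]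
    apply Real.sqrt_le_sqrt
    calc ∑ i, ‖(z - zv m') i‖ ^ 2 ≤ ∑ _i : Fin n, (1 : ℝ) := by
          apply Finset.sum_le_sum
          intro i _
          have e : (z - zv m') i = z i - (round (z i) : ℝ) := rfl
          rw [e, Real.norm_eq_abs]
          have h1 := abs_sub_round (z i)
          have h2 := abs_nonneg (z i - (round (z i) : ℝ))
          nlinarith
      _ = n := by simp
  refine ⟨m' + -(c • m), ?_, ?_⟩
  · rw [dot_add, dot_neg, dot_zsmul, h, ← hc]
    ring
  · have e1 : z - zv (m' + -(c • m)) = (z - zv m') + (c : ℝ) • zv m := by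
      rw [zv_add, zv_neg, zv_zsmul]
      abel
    have e2 : |(c : ℝ)| ≤ 1 + ‖zv k₀‖ * Real.sqrt n := by
      have e3 : (c : ℝ) = ⟪zv k₀, z⟫ - ⟪zv k₀, z - zv m'⟫ := by
        rw [inner_sub_right, inner_zv, ← hc]
        ring
      rw [e3]
      calc |⟪zv k₀, z⟫ - ⟪zv k₀, z - zv m'⟫| ≤ |⟪zv k₀, z⟫| + |⟪zv k₀, z - zv m'⟫| := abs_sub _ _
        _ ≤ 1 + ‖zv k₀‖ * ‖z - zv m'‖ := add_le_add hz (abs_real_inner_le_norm _ _)
        _ ≤ 1 + ‖zv k₀‖ * Real.sqrt n := by
            have := mul_le_mul_of_nonneg_left hR (norm_nonneg (zv k₀))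
            linarith
    rw [e1]
    calc ‖(z - zv m') + (c : ℝ) • zv m‖ ≤ ‖z - zv m'‖ + ‖(c : ℝ) • zv m‖ := norm_add_le _ _
      _ = ‖z - zv m'‖ + |(c : ℝ)| * ‖zv m‖ := by rw [norm_smul, Real.norm_eq_abs]
      _ ≤ _ := add_le_add hR (mul_le_mul_of_nonneg_right e2 (norm_nonneg _))

end Pool.Agent.H33.AM

end

section

/-!
# Module V3: `avP g (PN k₀ m P₀ N)` converges to `avK g k₀ m ⟪zv k₀, ·⟫`

`c_k(x) = cos(2π ⟪zv k, x⟫ + φ)`; write `a cos + b sin` as combinations of `cos(· + φ)`, `φ = 0`,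
`φ = -π/2`. `k · m` = `dot k m`.
* `avP_cos`: if `dot k P ≠ 0` the average of `c_k` over the closed line vanishes; if `dot k P = 0` it
  is `c_k`.
* `avK_cos`: with `k' = k - (k · m) k₀`, `⟪zv k, θ m + y - ⟪k₀, y⟫ m⟫ = (k · m) θ + ⟪zv k', y⟫`; so
  `avK c_k θ = cos(2π (k · m) θ + φ)` if `k' = 0` and `0` if `k' ≠ 0` (`cube_cos`).
* `PN_dot`: `dot k₀ (PN ..) = 0`, as `dot k₀ m = 1`, `dot k₀ P₀ = 0`.
* `PN_ne`: `dot k (PN k₀ m P₀ N) = N ^ n (k · P₀) + ∑ j, k' j N ^ j`, a nonzero polynomial in `N` if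
  `k' ≠ 0`, so it does not vanish for `N` large.
* `PN_size`: `zv (PN ..) - N ^ n • zv P₀` is `O(N ^ (n - 1))` (`n ≥ 1` because `dot k₀ m = 1`).
* `avP_tendsto`: by `trig_dense` and the previous lemmas (`|avP g| ≤ sup |g|`, `|avK g| ≤ sup |g|`,
  linearity).
-/

set_option autoImplicit false

open MeasureTheory
open scoped RealInnerProductSpace

namespace Pool.Agent.H33.AM

variable {n : ℕ}

theorem avK_cos (k k₀ m : Fin n → ℤ) (φ θ : ℝ) :
    avK (fun y => Real.cos (2 * Real.pi * ⟪zv k, y⟫ + φ)) k₀ m θ =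
      if k = (dot k m) • k₀ then Real.cos (2 * Real.pi * ((dot k m : ℝ) * θ) + φ) else 0 := by
  have h1 : ∀ y : EuclideanSpace ℝ (Fin n), ⟪zv k, θ • zv m + y - ⟪zv k₀, y⟫ • zv m⟫ =
      (dot k m : ℝ) * θ + ⟪zv (k - dot k m • k₀), y⟫ := by
    intro y
    rw [sub_eq_add_neg k, zv_add, zv_neg, zv_zsmul, inner_add_left, inner_neg_left,
      real_inner_smul_left, inner_sub_right, inner_add_right, real_inner_smul_right,
      real_inner_smul_right, inner_zv]
    ring
  unfold avK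
  simp only [h1]
  split_ifs with hk
  · have h2 : k - dot k m • k₀ = 0 := sub_eq_zero.2 hk
    simp only [h2, zv_zero, inner_zero_left, add_zero]
    rw [setIntegral_const, Measure.real, cube_vol]
    simp
  · have h2 : k - dot k m • k₀ ≠ 0 := sub_ne_zero.2 hk
    have h3 := cube_cos h2 (2 * Real.pi * ((dot k m : ℝ) * θ) + φ)
    refine Eq.trans ?_ h3
    congr 1
    funext y
    congr 1
    ring

end Pool.Agent.H33.AM

end

section

/-!
# Module V3: `avP g (PN k₀ m P₀ N)` converges to `avK g k₀ m ⟪zv k₀, ·⟫`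

`c_k(x) = cos(2π ⟪zv k, x⟫ + φ)`; write `a cos + b sin` as combinations of `cos(· + φ)`, `φ = 0`,
`φ = -π/2`. `k · m` = `dot k m`.
* `avP_cos`: if `dot k P ≠ 0` the average of `c_k` over the closed line vanishes; if `dot k P = 0` it
  is `c_k`.
* `avK_cos`: with `k' = k - (k · m) k₀`, `⟪zv k, θ m + y - ⟪k₀, y⟫ m⟫ = (k · m) θ + ⟪zv k', y⟫`; so
  `avK c_k θ = cos(2π (k · m) θ + φ)` if `k' = 0` and `0` if `k' ≠ 0` (`cube_cos`).
* `PN_dot`: `dot k₀ (PN ..) = 0`, as `dot k₀ m = 1`, `dot k₀ P₀ = 0`.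
* `PN_ne`: `dot k (PN k₀ m P₀ N) = N ^ n (k · P₀) + ∑ j, k' j N ^ j`, a nonzero polynomial in `N` if
  `k' ≠ 0`, so it does not vanish for `N` large.
* `PN_size`: `zv (PN ..) - N ^ n • zv P₀` is `O(N ^ (n - 1))` (`n ≥ 1` because `dot k₀ m = 1`).
* `avP_tendsto`: by `trig_dense` and the previous lemmas (`|avP g| ≤ sup |g|`, `|avK g| ≤ sup |g|`,
  linearity).
-/

set_option autoImplicit false

open MeasureTheory
open scoped RealInnerProductSpace

namespace Pool.Agent.H33.AM

variable {n : ℕ}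

private theorem V3a_int_cos {d : ℤ} (hd : d ≠ 0) (c : ℝ) :
    ∫ θ in (0 : ℝ)..1, Real.cos (2 * Real.pi * (d : ℝ) * θ + c) = 0 := by
  have hd' : (d : ℝ) ≠ 0 := by exact_mod_cast hd
  have hc : 2 * Real.pi * (d : ℝ) ≠ 0 := by positivity
  rw [intervalIntegral.integral_comp_mul_add (fun x => Real.cos x) hc c, integral_cos]
  have h2 : 2 * Real.pi * (d : ℝ) * 1 + c = c + (d : ℝ) * (2 * Real.pi) := by ring
  rw [h2, Real.sin_add_int_mul_two_pi]
  simp

theorem avP_cos (k P : Fin n → ℤ) (φ : ℝ) (x : EuclideanSpace ℝ (Fin n)) :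
    avP (fun y => Real.cos (2 * Real.pi * ⟪zv k, y⟫ + φ)) P x =
      if dot k P = 0 then Real.cos (2 * Real.pi * ⟪zv k, x⟫ + φ) else 0 := by
  unfold avP
  have h1 : ∀ t : ℝ, 2 * Real.pi * ⟪zv k, x + t • zv P⟫ + φ =
      2 * Real.pi * (dot k P : ℝ) * t + (2 * Real.pi * ⟪zv k, x⟫ + φ) := by
    intro t
    rw [inner_add_right, inner_smul_right, inner_zv]
    ring
  simp only [h1]
  split_ifs with h
  · rw [h]
    simp
  · exact V3a_int_cos h _

private theorem V3a_dot_PN (k₀ m P₀ k : Fin n → ℤ) (N : ℕ) :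
    dot k (PN k₀ m P₀ N) = (N : ℤ) ^ n * dot k P₀ +
      ∑ j : Fin n, (k j - dot k m * k₀ j) * (N : ℤ) ^ (j : ℕ) := by
  have h1 : dot k (PN k₀ m P₀ N) = ∑ i, ((N : ℤ) ^ n * (k i * P₀ i) + k i * (N : ℤ) ^ (i : ℕ) -
      dot k₀ (fun j => (N : ℤ) ^ (j : ℕ)) * (k i * m i)) := by
    unfold dot PN
    refine Finset.sum_congr rfl fun i _ => ?_
    unfold dot
    ring
  have h2 : ∑ j : Fin n, (k j - dot k m * k₀ j) * (N : ℤ) ^ (j : ℕ) =
      ∑ j : Fin n, k j * (N : ℤ) ^ (j : ℕ) - dot k m * dot k₀ (fun j => (N : ℤ) ^ (j : ℕ)) := by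
    unfold dot
    rw [Finset.mul_sum, ← Finset.sum_sub_distrib]
    refine Finset.sum_congr rfl fun i _ => ?_
    ring
  rw [h1, Finset.sum_sub_distrib, Finset.sum_add_distrib, ← Finset.mul_sum, ← Finset.mul_sum, h2]
  unfold dot
  ring

theorem PN_dot {k₀ m P₀ : Fin n → ℤ} (hkm : dot k₀ m = 1) (hP : dot k₀ P₀ = 0) (N : ℕ) :
    dot k₀ (PN k₀ m P₀ N) = 0 := by
  rw [V3a_dot_PN, hkm, hP]
  simp

theorem PN_ne (k₀ m P₀ k : Fin n → ℤ) (hk : k ≠ (dot k m) • k₀) :
    ∃ N₀ : ℕ, ∀ N ≥ N₀, dot k (PN k₀ m P₀ N) ≠ 0 := by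
  set p : Polynomial ℤ := Polynomial.C (dot k P₀) * Polynomial.X ^ n +
    ∑ j : Fin n, Polynomial.C (k j - dot k m * k₀ j) * Polynomial.X ^ (j : ℕ) with hp
  have hp0 : p ≠ 0 := by
    intro h0
    apply hk
    funext i
    have h1 : p.coeff (i : ℕ) = 0 := by rw [h0]; simp
    rw [hp, Polynomial.coeff_add, Polynomial.finsetSum_coeff] at h1
    simp only [Polynomial.coeff_C_mul, Polynomial.coeff_X_pow, mul_ite, mul_one, mul_zero] at h1
    rw [if_neg i.2.ne, zero_add, Finset.sum_eq_single i] at h1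
    · rw [if_pos rfl] at h1
      simp only [Pi.smul_apply, smul_eq_mul]
      linarith
    · intro j _ hj
      rw [if_neg]
      intro h2
      exact hj (Fin.ext h2.symm)
    · intro h2
      exact absurd (Finset.mem_univ i) h2
  have heval : ∀ N : ℕ, p.eval (N : ℤ) = dot k (PN k₀ m P₀ N) := by
    intro N
    rw [V3a_dot_PN, hp, Polynomial.eval_add, Polynomial.eval_finsetSum]
    simp only [Polynomial.eval_mul, Polynomial.eval_C, Polynomial.eval_pow, Polynomial.eval_X]
    ring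
  have hfin : {x : ℤ | p.IsRoot x}.Finite := Polynomial.finite_setOfPred_isRoot hp0
  have hfin2 : {N : ℕ | p.IsRoot (N : ℤ)}.Finite :=
    hfin.preimage (Nat.cast_injective.injOn)
  obtain ⟨M, hM⟩ := hfin2.bddAbove
  refine ⟨M + 1, fun N hN h0 => ?_⟩
  have h1 : N ∈ {N : ℕ | p.IsRoot (N : ℤ)} := by
    change p.eval (N : ℤ) = 0
    rw [heval, h0]
  have := hM h1
  omega

theorem PN_size {k₀ m : Fin n → ℤ} (hkm : dot k₀ m = 1) (P₀ : Fin n → ℤ) :
    ∃ C : ℝ, 0 ≤ C ∧ ∀ N : ℕ, 1 ≤ N →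
      ‖zv (PN k₀ m P₀ N) - ((N : ℝ) ^ n) • zv P₀‖ ≤ C * (N : ℝ) ^ n / N := by
  have hn : 1 ≤ n := by
    rcases Nat.eq_zero_or_pos n with h | h
    · subst h
      simp [dot] at hkm
    · exact h
  set S : ℝ := ∑ j, |(k₀ j : ℝ)| with hS
  have hS0 : 0 ≤ S := Finset.sum_nonneg fun j _ => abs_nonneg _
  refine ⟨∑ i, (1 + S * |(m i : ℝ)|), Finset.sum_nonneg fun i _ => by positivity, ?_⟩
  intro N hN
  have hN' : (1 : ℝ) ≤ N := by exact_mod_cast hN
  have hN0 : (0 : ℝ) < N := by linarith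
  have hpow : (N : ℝ) ^ n / N = (N : ℝ) ^ (n - 1) := by
    obtain ⟨l, rfl⟩ : ∃ l, n = l + 1 := ⟨n - 1, by omega⟩
    rw [pow_succ]
    field_simp
    simp
  have hpi : ∀ i : Fin n, (N : ℝ) ^ (i : ℕ) ≤ (N : ℝ) ^ (n - 1) := fun i =>
    pow_le_pow_right₀ hN' (by omega)
  have hd : |((dot k₀ (fun j => (N : ℤ) ^ (j : ℕ)) : ℤ) : ℝ)| ≤ S * (N : ℝ) ^ (n - 1) := by
    unfold dot
    push_cast
    refine (Finset.abs_sum_le_sum_abs _ _).trans ?_
    rw [hS, Finset.sum_mul]
    refine Finset.sum_le_sum fun j _ => ?_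
    rw [abs_mul, abs_of_nonneg (show (0 : ℝ) ≤ (N : ℝ) ^ (j : ℕ) by positivity)]
    exact mul_le_mul_of_nonneg_left (hpi j) (abs_nonneg _)
  set w : EuclideanSpace ℝ (Fin n) := zv (PN k₀ m P₀ N) - ((N : ℝ) ^ n) • zv P₀ with hw
  have hwi : ∀ i, |w i| ≤ (1 + S * |(m i : ℝ)|) * (N : ℝ) ^ (n - 1) := by
    intro i
    have h1 : w i = (N : ℝ) ^ (i : ℕ) -
        ((dot k₀ (fun j => (N : ℤ) ^ (j : ℕ)) : ℤ) : ℝ) * (m i : ℝ) := by
      simp only [hw, zv, PN, PiLp.sub_apply, PiLp.smul_apply, smul_eq_mul]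
      push_cast
      ring
    rw [h1]
    refine (abs_sub _ _).trans ?_
    rw [abs_mul, abs_of_nonneg (show (0 : ℝ) ≤ (N : ℝ) ^ (i : ℕ) by positivity)]
    have h2 := mul_le_mul_of_nonneg_right hd (abs_nonneg (m i : ℝ))
    have h3 := hpi i
    nlinarith
  have hnorm : ‖w‖ ≤ ∑ i, |w i| := by
    rw [EuclideanSpace.norm_eq]
    refine Real.sqrt_le_iff.2 ⟨Finset.sum_nonneg fun i _ => abs_nonneg _, ?_⟩
    simp only [Real.norm_eq_abs]
    exact Finset.sum_sq_le_sq_sum_of_nonneg fun i _ => abs_nonneg _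
  calc ‖w‖ ≤ ∑ i, |w i| := hnorm
    _ ≤ ∑ i, (1 + S * |(m i : ℝ)|) * (N : ℝ) ^ (n - 1) := Finset.sum_le_sum fun i _ => hwi i
    _ = (∑ i, (1 + S * |(m i : ℝ)|)) * (N : ℝ) ^ n / N := by
        rw [← Finset.sum_mul, mul_div_assoc, hpow]

end Pool.Agent.H33.AM

end

section

/-!
# Module V3: `avP g (PN k₀ m P₀ N)` converges to `avK g k₀ m ⟪zv k₀, ·⟫`

`c_k(x) = cos(2π ⟪zv k, x⟫ + φ)`; write `a cos + b sin` as combinations of `cos(· + φ)`, `φ = 0`,
`φ = -π/2`. `k · m` = `dot k m`.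
* `avP_cos`: if `dot k P ≠ 0` the average of `c_k` over the closed line vanishes; if `dot k P = 0` it
  is `c_k`.
* `avK_cos`: with `k' = k - (k · m) k₀`, `⟪zv k, θ m + y - ⟪k₀, y⟫ m⟫ = (k · m) θ + ⟪zv k', y⟫`; so
  `avK c_k θ = cos(2π (k · m) θ + φ)` if `k' = 0` and `0` if `k' ≠ 0` (`cube_cos`).
* `PN_dot`: `dot k₀ (PN ..) = 0`, as `dot k₀ m = 1`, `dot k₀ P₀ = 0`.
* `PN_ne`: `dot k (PN k₀ m P₀ N) = N ^ n (k · P₀) + ∑ j, k' j N ^ j`, a nonzero polynomial in `N` if
  `k' ≠ 0`, so it does not vanish for `N` large.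
* `PN_size`: `zv (PN ..) - N ^ n • zv P₀` is `O(N ^ (n - 1))` (`n ≥ 1` because `dot k₀ m = 1`).
* `avP_tendsto`: by `trig_dense` and the previous lemmas (`|avP g| ≤ sup |g|`, `|avK g| ≤ sup |g|`,
  linearity).
-/

set_option autoImplicit false

open MeasureTheory
open scoped RealInnerProductSpace

namespace Pool.Agent.H33.AM

variable {n : ℕ}

private theorem zv_zsmul' (c : ℤ) (k : Fin n → ℤ) : zv (c • k) = (c : ℝ) • zv k := by
  ext i
  simp [zv]

private theorem dot_zsmul_left (c : ℤ) (k l : Fin n → ℤ) : dot (c • k) l = c * dot k l := by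
  simp only [dot, Finset.mul_sum, Pi.smul_apply, smul_eq_mul, mul_assoc]

private theorem avK_arg_cont (k₀ m : Fin n → ℤ) (θ : ℝ) :
    Continuous fun y : EuclideanSpace ℝ (Fin n) => θ • zv m + y - ⟪zv k₀, y⟫ • zv m := by
  fun_prop

private theorem avK_intg {f : EuclideanSpace ℝ (Fin n) → ℝ} (hf : Continuous f) {B : ℝ}
    (hB : ∀ x, |f x| ≤ B) (k₀ m : Fin n → ℤ) (θ : ℝ) :
    IntegrableOn (fun y => f (θ • zv m + y - ⟪zv k₀, y⟫ • zv m))
      {y : EuclideanSpace ℝ (Fin n) | ∀ i, y i ∈ Set.Ico (0 : ℝ) 1} := by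
  refine Measure.integrableOn_of_bounded (M := B) ?_ ?_ ?_
  · rw [cube_vol]
    exact ENNReal.one_ne_top
  · exact (hf.comp (avK_arg_cont k₀ m θ)).aestronglyMeasurable
  · exact Filter.Eventually.of_forall fun y => by
      rw [Real.norm_eq_abs]
      exact hB _

private theorem avP_intg {f : EuclideanSpace ℝ (Fin n) → ℝ} (hf : Continuous f) (P : Fin n → ℤ)
    (x : EuclideanSpace ℝ (Fin n)) :
    IntervalIntegrable (fun t : ℝ => f (x + t • zv P)) volume 0 1 := by
  apply Continuous.intervalIntegrable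
  exact hf.comp (by fun_prop)

private theorem avK_close {g f : EuclideanSpace ℝ (Fin n) → ℝ} (hg : Continuous g)
    (hf : Continuous f) {B δ : ℝ} (hB : ∀ x, |f x| ≤ B) (hδ : ∀ x, |g x - f x| ≤ δ)
    (k₀ m : Fin n → ℤ) (θ : ℝ) : |avK g k₀ m θ - avK f k₀ m θ| ≤ δ := by
  have hgB : ∀ x, |g x| ≤ δ + B := by
    intro x
    have h1 := hδ x
    have h2 := hB x
    have h3 : g x = (g x - f x) + f x := by ring
    calc |g x| = |(g x - f x) + f x| := by rw [← h3]
      _ ≤ |g x - f x| + |f x| := abs_add_le _ _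
      _ ≤ δ + B := add_le_add h1 h2
  have e : avK g k₀ m θ - avK f k₀ m θ =
      ∫ y in {y : EuclideanSpace ℝ (Fin n) | ∀ i, y i ∈ Set.Ico (0 : ℝ) 1},
        (g (θ • zv m + y - ⟪zv k₀, y⟫ • zv m) - f (θ • zv m + y - ⟪zv k₀, y⟫ • zv m)) := by
    rw [avK, avK, ← integral_sub (avK_intg hg hgB k₀ m θ) (avK_intg hf hB k₀ m θ)]
  rw [e, ← Real.norm_eq_abs]
  have h := norm_setIntegral_le_of_norm_le_const
    (μ := (volume : Measure (EuclideanSpace ℝ (Fin n))))
    (s := {y : EuclideanSpace ℝ (Fin n) | ∀ i, y i ∈ Set.Ico (0 : ℝ) 1}) (C := δ)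
    (f := fun y => g (θ • zv m + y - ⟪zv k₀, y⟫ • zv m) - f (θ • zv m + y - ⟪zv k₀, y⟫ • zv m))
    (by rw [cube_vol]; exact ENNReal.one_lt_top)
    (fun y _ => by rw [Real.norm_eq_abs]; exact hδ _)
  refine h.trans (le_of_eq ?_)
  rw [Measure.real, cube_vol]
  simp

private theorem avP_close {g f : EuclideanSpace ℝ (Fin n) → ℝ} (hg : Continuous g)
    (hf : Continuous f) {δ : ℝ} (hδ : ∀ x, |g x - f x| ≤ δ) (P : Fin n → ℤ)
    (x : EuclideanSpace ℝ (Fin n)) : |avP g P x - avP f P x| ≤ δ := by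
  rw [avP, avP, ← intervalIntegral.integral_sub (avP_intg hg P x) (avP_intg hf P x),
    ← Real.norm_eq_abs]
  have h := intervalIntegral.norm_integral_le_of_norm_le_const (a := (0 : ℝ)) (b := 1) (C := δ)
    (f := fun t : ℝ => g (x + t • zv P) - f (x + t • zv P))
    (fun y _ => by rw [Real.norm_eq_abs]; exact hδ _)
  refine h.trans (le_of_eq ?_)
  simp

private theorem cosk_cont (k : Fin n → ℤ) (φ : ℝ) :
    Continuous fun y : EuclideanSpace ℝ (Fin n) => Real.cos (2 * Real.pi * ⟪zv k, y⟫ + φ) := by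
  fun_prop

/-- The trigonometric polynomial. -/
private noncomputable def trg (S : Finset (Fin n → ℤ)) (a b : (Fin n → ℤ) → ℝ)
    (x : EuclideanSpace ℝ (Fin n)) : ℝ :=
  ∑ k ∈ S, (a k * Real.cos (2 * Real.pi * ⟪zv k, x⟫ + 0) +
    b k * Real.cos (2 * Real.pi * ⟪zv k, x⟫ + -(Real.pi / 2)))

private theorem trg_eq (S : Finset (Fin n → ℤ)) (a b : (Fin n → ℤ) → ℝ)
    (x : EuclideanSpace ℝ (Fin n)) :
    trg S a b x = ∑ k ∈ S, (a k * Real.cos (2 * Real.pi * ⟪zv k, x⟫) +
      b k * Real.sin (2 * Real.pi * ⟪zv k, x⟫)) := by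
  unfold trg
  refine Finset.sum_congr rfl fun k _ => ?_
  rw [add_zero, ← sub_eq_add_neg, Real.cos_sub_pi_div_two]

private theorem trg_cont (S : Finset (Fin n → ℤ)) (a b : (Fin n → ℤ) → ℝ) :
    Continuous (trg S a b) := by
  unfold trg
  refine continuous_finsetSum _ fun k _ => ?_
  exact (continuous_const.mul (cosk_cont k 0)).add (continuous_const.mul (cosk_cont k _))

private theorem trg_bd (S : Finset (Fin n → ℤ)) (a b : (Fin n → ℤ) → ℝ)
    (x : EuclideanSpace ℝ (Fin n)) : |trg S a b x| ≤ ∑ k ∈ S, (|a k| + |b k|) := by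
  unfold trg
  refine (Finset.abs_sum_le_sum_abs _ _).trans (Finset.sum_le_sum fun k _ => ?_)
  refine (abs_add_le _ _).trans (add_le_add ?_ ?_)
  · rw [abs_mul]
    exact mul_le_of_le_one_right (abs_nonneg _) (Real.abs_cos_le_one _)
  · rw [abs_mul]
    exact mul_le_of_le_one_right (abs_nonneg _) (Real.abs_cos_le_one _)

private theorem avP_trg (S : Finset (Fin n → ℤ)) (a b : (Fin n → ℤ) → ℝ) (P : Fin n → ℤ)
    (x : EuclideanSpace ℝ (Fin n)) :
    avP (trg S a b) P x =
      ∑ k ∈ S, (a k * avP (fun y => Real.cos (2 * Real.pi * ⟪zv k, y⟫ + 0)) P x +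
        b k * avP (fun y => Real.cos (2 * Real.pi * ⟪zv k, y⟫ + -(Real.pi / 2))) P x) := by
  unfold avP trg
  rw [intervalIntegral.integral_finsetSum]
  · refine Finset.sum_congr rfl fun k _ => ?_
    rw [intervalIntegral.integral_add, intervalIntegral.integral_const_mul,
      intervalIntegral.integral_const_mul]
    · exact (avP_intg (cosk_cont k 0) P x).const_mul _
    · exact (avP_intg (cosk_cont k _) P x).const_mul _
  · intro k _
    exact ((avP_intg (cosk_cont k 0) P x).const_mul _).add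
      ((avP_intg (cosk_cont k _) P x).const_mul _)

private theorem avK_trg (S : Finset (Fin n → ℤ)) (a b : (Fin n → ℤ) → ℝ) (k₀ m : Fin n → ℤ)
    (θ : ℝ) :
    avK (trg S a b) k₀ m θ =
      ∑ k ∈ S, (a k * avK (fun y => Real.cos (2 * Real.pi * ⟪zv k, y⟫ + 0)) k₀ m θ +
        b k * avK (fun y => Real.cos (2 * Real.pi * ⟪zv k, y⟫ + -(Real.pi / 2))) k₀ m θ) := by
  have hc : ∀ (k : Fin n → ℤ) (φ : ℝ) (x : EuclideanSpace ℝ (Fin n)),
      |Real.cos (2 * Real.pi * ⟪zv k, x⟫ + φ)| ≤ 1 := fun k φ x => Real.abs_cos_le_one _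
  unfold avK trg
  rw [integral_finsetSum]
  · refine Finset.sum_congr rfl fun k _ => ?_
    rw [integral_add, integral_const_mul, integral_const_mul]
    · exact (avK_intg (cosk_cont k 0) (hc k 0) k₀ m θ).const_mul _
    · exact (avK_intg (cosk_cont k _) (hc k _) k₀ m θ).const_mul _
  · intro k _
    exact ((avK_intg (cosk_cont k 0) (hc k 0) k₀ m θ).const_mul _).add
      ((avK_intg (cosk_cont k _) (hc k _) k₀ m θ).const_mul _)

private theorem cos_eq {k₀ m P₀ : Fin n → ℤ} (hkm : dot k₀ m = 1) (hP : dot k₀ P₀ = 0)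
    (k : Fin n → ℤ) (N : ℕ) (hN : k ≠ (dot k m) • k₀ → dot k (PN k₀ m P₀ N) ≠ 0) (φ : ℝ)
    (x : EuclideanSpace ℝ (Fin n)) :
    avP (fun y => Real.cos (2 * Real.pi * ⟪zv k, y⟫ + φ)) (PN k₀ m P₀ N) x =
      avK (fun y => Real.cos (2 * Real.pi * ⟪zv k, y⟫ + φ)) k₀ m ⟪zv k₀, x⟫ := by
  rw [avP_cos, avK_cos]
  by_cases h : k = (dot k m) • k₀
  · have h0 : dot k (PN k₀ m P₀ N) = 0 := by
      rw [h, dot_zsmul_left, PN_dot hkm hP, mul_zero]
    rw [if_pos h0, if_pos h]
    have h1 : ⟪zv k, x⟫ = (dot k m : ℝ) * ⟪zv k₀, x⟫ := by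
      conv_lhs => rw [h]
      rw [zv_zsmul', real_inner_smul_left]
    rw [h1]
  · rw [if_neg (hN h), if_neg h]

theorem avP_tendsto {k₀ m P₀ : Fin n → ℤ} (hkm : dot k₀ m = 1) (hP : dot k₀ P₀ = 0)
    {g : EuclideanSpace ℝ (Fin n) → ℝ} (hg : Continuous g)
    (hper : ∀ x (k : Fin n → ℤ), g (x + zv k) = g x) {ε : ℝ} (hε : 0 < ε) :
    ∃ N₀ : ℕ, ∀ N ≥ N₀, ∀ x, |avP g (PN k₀ m P₀ N) x - avK g k₀ m ⟪zv k₀, x⟫| ≤ ε := by
  obtain ⟨S, a, b, hS⟩ := trig_dense hg hper (half_pos hε)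
  have hT : ∀ x, |g x - trg S a b x| ≤ ε / 2 := by
    intro x
    rw [trg_eq]
    exact hS x
  have hN : ∀ k : Fin n → ℤ, ∃ N₀ : ℕ, ∀ N ≥ N₀,
      (k ≠ (dot k m) • k₀ → dot k (PN k₀ m P₀ N) ≠ 0) := by
    intro k
    by_cases h : k ≠ (dot k m) • k₀
    · obtain ⟨N₀, h0⟩ := PN_ne k₀ m P₀ k h
      exact ⟨N₀, fun N hN _ => h0 N hN⟩
    · exact ⟨0, fun N _ h' => absurd h' h⟩
  choose F hF using hN
  refine ⟨S.sup F, fun N hN x => ?_⟩
  have e : avP (trg S a b) (PN k₀ m P₀ N) x = avK (trg S a b) k₀ m ⟪zv k₀, x⟫ := by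
    rw [avP_trg, avK_trg]
    refine Finset.sum_congr rfl fun k hk => ?_
    have h1 : F k ≤ N := (Finset.le_sup hk).trans hN
    rw [cos_eq hkm hP k N (hF k N h1) 0 x, cos_eq hkm hP k N (hF k N h1) (-(Real.pi / 2)) x]
  have h1 := avP_close hg (trg_cont S a b) hT (PN k₀ m P₀ N) x
  have h2 := avK_close hg (trg_cont S a b) (trg_bd S a b) hT k₀ m ⟪zv k₀, x⟫
  rw [e] at h1
  rw [abs_le] at h1 h2 ⊢
  constructor
  · linarith [h1.1, h2.2]
  · linarith [h1.2, h2.1]

end Pool.Agent.H33.AM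

end

section

/-!
# Module V4: nonconstant averages exist

`cube = {y | ∀ i, y i ∈ Ico 0 1}`.
* `cos_coeff`: for `dot k₀ m = 1`, `d ≠ 0`: `∫_cube g(y) cos(2π d ⟪k₀, y⟫ + φ) dy =
  ∫₀¹ avK g k₀ m θ cos(2π d θ + φ) dθ`. Both sides are continuous for the uniform norm and linear in `g`,
  so by `trig_dense` it is enough to take `g = cos(2π ⟪zv l, ·⟫ + ψ)` (`avK_cos`, `cube_cos`, product
  formulas for cosines).
* `primitive`: divide `k ≠ 0` by the gcd `d` of its entries and use Bezout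
  (`Finset.extract_gcd`, `Finset.gcd`/`Ideal.span` … or induction).
* `const_of_coeff`: if all the coefficients `∫_cube g cos(2π ⟪k, ·⟫ + φ)`, `k ≠ 0`, vanish then `g` is
  constant: with `ḡ = ∫_cube g`, `∫_cube (g - ḡ)² = lim ∫_cube (g - ḡ) p_j = 0` for trigonometric
  polynomials `p_j → g` uniformly; then use continuity and periodicity.
* `exists_avK_ne`: combine.
-/

set_option autoImplicit false

open MeasureTheory
open scoped RealInnerProductSpace

namespace Pool.Agent.H33.AM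

variable {n : ℕ}

private theorem V4d_cos {d : ℤ} (hd : d ≠ 0) (φ : ℝ) :
    ∫ θ in (0 : ℝ)..1, Real.cos (2 * Real.pi * ((d : ℝ) * θ) + φ) = 0 := by
  have hd' : (d : ℝ) ≠ 0 := by exact_mod_cast hd
  have hder : ∀ θ ∈ Set.uIcc (0 : ℝ) 1, HasDerivAt
      (fun θ : ℝ => Real.sin (2 * Real.pi * ((d : ℝ) * θ) + φ) / (2 * Real.pi * d))
      (Real.cos (2 * Real.pi * ((d : ℝ) * θ) + φ)) θ := by
    intro θ _
    have h1 : HasDerivAt (fun θ : ℝ => 2 * Real.pi * ((d : ℝ) * θ) + φ) (2 * Real.pi * d) θ := by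
      simpa using (((hasDerivAt_id θ).const_mul (d : ℝ)).const_mul (2 * Real.pi)).add_const φ
    have h2 := (h1.sin).div_const (2 * Real.pi * d)
    have h3 : Real.cos (2 * Real.pi * ((d : ℝ) * θ) + φ) * (2 * Real.pi * d) / (2 * Real.pi * d) =
        Real.cos (2 * Real.pi * ((d : ℝ) * θ) + φ) :=
      mul_div_cancel_right₀ _ (by positivity)
    rw [h3] at h2
    exact h2
  rw [intervalIntegral.integral_eq_sub_of_hasDerivAt hder (by
    apply Continuous.intervalIntegrable
    fun_prop)]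
  have h4 : Real.sin (2 * Real.pi * ((d : ℝ) * 1) + φ) = Real.sin φ := by
    have h5 : 2 * Real.pi * ((d : ℝ) * 1) + φ = φ + d * (2 * Real.pi) := by ring
    rw [h5, Real.sin_add_int_mul_two_pi]
  rw [h4]
  simp

theorem exists_avK_ne {g : EuclideanSpace ℝ (Fin n) → ℝ} (hg : Continuous g)
    (hper : ∀ x (k : Fin n → ℤ), g (x + zv k) = g x) (hne : ∃ x y, g x ≠ g y) :
    ∃ k₀ m : Fin n → ℤ, dot k₀ m = 1 ∧ ∃ θ θ', avK g k₀ m θ ≠ avK g k₀ m θ' := by
  by_contra hcon
  push Not at hcon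
  obtain ⟨x, y, hxy⟩ := hne
  refine hxy (const_of_coeff hg hper ?_ x y)
  intro k φ hk
  obtain ⟨d, k₀, m, hd, hkd, hkm⟩ := primitive hk
  rw [hkd, cos_coeff hkm hg hper d φ]
  have h1 : ∀ θ : ℝ, avK g k₀ m θ = avK g k₀ m 0 := fun θ => hcon k₀ m hkm θ 0
  have h2 : ∀ θ : ℝ, avK g k₀ m θ * Real.cos (2 * Real.pi * ((d : ℝ) * θ) + φ) =
      avK g k₀ m 0 * Real.cos (2 * Real.pi * ((d : ℝ) * θ) + φ) := fun θ => by rw [h1 θ]
  simp only [h2]
  rw [intervalIntegral.integral_const_mul, V4d_cos hd, mul_zero]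

end Pool.Agent.H33.AM

end
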