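import Pool.Agent.H47.B0.M03

/-! The parts of this file: H33.AM.P.X3d, H33.AM.P.X1, H33.AM.P.I1b, H33.AM.P.X3a, H33.AM.P.F1b, H33.AM.P.I1c, H33.AM.P.I2a, H33.AM.P.I2b, H33.AM.P.C1a, H33.AM.P.V6b, H33.AM.P.V5a, H33.AM.P.V5b, H33.AM.P.R3, H33.AM.P.T4, H33.AM.P.T5b, H33.AM.P.T3, H33.AM.P.T5a, H33.AM.P.T6a, H33.AM.P.T6b, H33.AM.P.T1, H33.AM.P.T7a, H33.AM.P.T7b, H33.AM.P.V6a, H33.AM.P.V7a, H33.AM.P.V5c, H33.AM.P.V7b, H33.AM.P.V7c, H33.AM.P.C1b, H33.AM.P.Z1a, H33.AM.P.X3c, H33.AM.P.X2a, H33.AM.P.X2b, H33.AM.P.X2c, H33.AM.P.X3b, H33.AM.P.X4, H33.AM.P.I3, H33.AM.P.Z1b, H33.AM.P.Z1. -/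

section

/-!
# Module X3: from discrete to continuous

`Y = field A A' F D'`, `W = ℝⁿ × ℝⁿ`, `τ = T / N`, `v_i = (1/τ) (x_{i+1} - x_i)`,
`z_i = (x_i, D v_i + A x_i)`, so that `v_i = D' (z_i.2 - A z_i.1)`, `x_{i+1} = x_i + τ (Y z_i).1`.
* `field_loc`, `field_growth`: `κ₁ ‖D' p - D' q‖ ≤ ‖p - q‖`, `A`, `A'`, `F` bounded and Lipschitz
  (`A` is Lipschitz with the constant `B` because `‖A'‖ ≤ B`); only `adjoint (A' x) v` needs the
  restriction to balls.
* `disc_euler`: `‖x_i‖ ≤ √n + T R` for `0 ≤ i ≤ N`; `z_{i+1}.2 - z_i.2 = τ (adjoint (A' x_{i+1}) v_{i+1} -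
  F x_{i+1})` by `disc_EL`, and `‖v_{i+1} - v_i‖ ≤ (1/κ₁) (‖z_{i+1}.2 - z_i.2‖ + B ‖x_{i+1} - x_i‖) = O(τ)`.
* `disc_of_curve`: `y i = x(i τ)` for `0 ≤ i < N`, extended quasi-periodically. Jensen:
  `τ K((1/τ) ∫ u) ≤ ∫ K(u)` on every `[i τ, (i + 1) τ]` (`ConvexOn.map_average_le` or: `K(u) ≥ K(c) +
  ⟪D c, u - c⟫` with `c` the average, integrate); `‖x(t) - x(i τ)‖ ≤ R τ`, so the terms with `A` and `V`
  change by `O(τ)`.
* `Sol_of_flow`, `flow_of_Sol`: `v = D' (p - A(γ))`.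
-/

set_option autoImplicit false

open MeasureTheory
open scoped RealInnerProductSpace

namespace Pool.Agent.H33.AM

variable {n : ℕ} {K V : EuclideanSpace ℝ (Fin n) → ℝ}
  {D F A D' : EuclideanSpace ℝ (Fin n) → EuclideanSpace ℝ (Fin n)}
  {A' : EuclideanSpace ℝ (Fin n) → EuclideanSpace ℝ (Fin n) →L[ℝ] EuclideanSpace ℝ (Fin n)}
  {κ₁ κ₂ B T : ℝ}

theorem Sol_of_flow (hκ : 0 < κ₁) (hA : HA A A' B) (hD1 : ∀ p, D (D' p) = p)
    (hD : ∀ p q, κ₁ * ‖D' p - D' q‖ ≤ ‖p - q‖)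
    {z : ℝ → EuclideanSpace ℝ (Fin n) × EuclideanSpace ℝ (Fin n)}
    (hz : ∀ t, HasDerivAt z (field A A' F D' (z t)) t) :
    Sol D F A A' (fun t => (z t).1) fun t => D' ((z t).2 - A (z t).1) := by
  have hD'c : Continuous D' := by
    have hL : LipschitzWith (Real.toNNReal (1 / κ₁)) D' := by
      apply LipschitzWith.of_dist_le_mul
      intro p q
      rw [dist_eq_norm, dist_eq_norm, Real.coe_toNNReal _ (by positivity)]
      have h := hD p q
      rw [div_mul_eq_mul_div, one_mul, le_div_iff₀ hκ]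
      linarith
    exact hL.continuous
  have hAc : Continuous A := continuous_iff_continuousAt.mpr fun x => (hA.der x).continuousAt
  have hzc : Continuous z := continuous_iff_continuousAt.mpr fun t => (hz t).continuousAt
  refine ⟨?_, ?_, ?_⟩
  · exact hD'c.comp ((continuous_snd.comp hzc).sub (hAc.comp (continuous_fst.comp hzc)))
  · intro t
    exact (hasFDerivAt_fst.comp_hasDerivAt t (hz t))
  · intro t
    have h1 : HasDerivAt (fun s => (z s).2)
        (ContinuousLinearMap.adjoint (A' (z t).1) (D' ((z t).2 - A (z t).1)) - F (z t).1) t := by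
      have h3 := (hasFDerivAt_snd (𝕜 := ℝ) (E := EuclideanSpace ℝ (Fin n))
        (F := EuclideanSpace ℝ (Fin n)) (p := z t)).comp_hasDerivAt t (hz t)
      exact h3
    have h2 : (fun s => D (D' ((z s).2 - A (z s).1)) + A (z s).1) = fun s => (z s).2 := by
      funext s
      rw [hD1]
      abel
    rw [h2]
    exact h1

theorem flow_of_Sol (hD2 : ∀ v, D' (D v) = v) {γ v : ℝ → EuclideanSpace ℝ (Fin n)}
    (h : Sol D F A A' γ v) (t : ℝ) :
    HasDerivAt (fun t => (γ t, D (v t) + A (γ t)))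
      (field A A' F D' (γ t, D (v t) + A (γ t))) t := by
  have h1 : field A A' F D' (γ t, D (v t) + A (γ t))
      = (v t, ContinuousLinearMap.adjoint (A' (γ t)) (v t) - F (γ t)) := by
    unfold field
    simp only [add_sub_cancel_right, hD2]
  rw [h1]
  exact (h.der t).prodMk (h.el t)

end Pool.Agent.H33.AM

end

section

/-!
# Module X1: the kinetic energy

* `HK.grad`: `0 ≤ K w - K v - ⟪D v, w - v⟫ ≤ κ₂/2 ‖w - v‖²`, so `D v` is the gradient.
* `HK.mono`: add the lower bound for `(v, w)` and `(w, v)`.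
* `HK.lip` (co-coercivity): `ψ(z) = K z - ⟪D v, z⟫` has its minimum at `v`;
  `ψ v ≤ ψ (w - (1/κ₂) (D w - D v)) ≤ ψ w - (1/(2 κ₂)) ‖D w - D v‖²` by the upper bound; add the same with
  `v`, `w` exchanged: `(1/κ₂) ‖D w - D v‖² ≤ ⟪D w - D v, w - v⟫`.
* `HK.antilip`: from `HK.mono` and Cauchy-Schwarz.
* `HK.inv`: `D` is surjective: `z ↦ K z - ⟪p, z⟫` is continuous and coercive (`HK.lo` with `v = 0`), so it
  has a minimum, where `D z = p`; injective by `HK.antilip`.
-/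

set_option autoImplicit false

open MeasureTheory
open scoped RealInnerProductSpace

namespace Pool.Agent.H33.AM

variable {n : ℕ} {K : EuclideanSpace ℝ (Fin n) → ℝ}
  {D : EuclideanSpace ℝ (Fin n) → EuclideanSpace ℝ (Fin n)} {κ₁ κ₂ : ℝ}

theorem HK.grad (h : HK K D κ₁ κ₂) (v : EuclideanSpace ℝ (Fin n)) : HasGradientAt K (D v) v := by
  rw [hasGradientAt_iff_isLittleO]
  have h1 : (fun w => K w - K v - ⟪D v, w - v⟫) =O[nhds v] fun w => ‖w - v‖ ^ 2 := by
    refine Asymptotics.IsBigO.of_bound (κ₂ / 2) (Filter.Eventually.of_forall fun w => ?_)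
    have h2 := h.lo v w
    have h3 := h.hi v w
    have h4 : 0 ≤ κ₁ / 2 * ‖w - v‖ ^ 2 := by
      have := h.pos
      positivity
    rw [Real.norm_eq_abs, abs_of_nonneg (h4.trans h2), Real.norm_eq_abs,
      abs_of_nonneg (by positivity)]
    exact h3
  exact h1.trans_isLittleO (Asymptotics.isLittleO_pow_sub_sub v (by norm_num))

theorem HK.mono (h : HK K D κ₁ κ₂) (v w : EuclideanSpace ℝ (Fin n)) :
    κ₁ * ‖w - v‖ ^ 2 ≤ ⟪D w - D v, w - v⟫ := by
  have h1 := h.lo v w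
  have h2 := h.lo w v
  have h3 : ‖v - w‖ = ‖w - v‖ := norm_sub_rev v w
  have h4 : (⟪D w, v - w⟫ : ℝ) = -⟪D w, w - v⟫ := by
    rw [← inner_neg_right, neg_sub]
  rw [h3, h4] at h2
  rw [inner_sub_left]
  linarith

private theorem X1_coco (h : HK K D κ₁ κ₂) (v w : EuclideanSpace ℝ (Fin n)) :
    1 / (2 * κ₂) * ‖D w - D v‖ ^ 2 ≤ K w - K v - ⟪D v, w - v⟫ := by
  have hκ := h.pos₂
  set d := D w - D v with hd
  have h1 := h.lo v (w - (1 / κ₂) • d)
  have h2 := h.hi w (w - (1 / κ₂) • d)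
  have h3 : 0 ≤ κ₁ / 2 * ‖w - (1 / κ₂) • d - v‖ ^ 2 := by
    have := h.pos
    positivity
  have h4 : w - (1 / κ₂) • d - w = -((1 / κ₂) • d) := by abel
  have h5 : w - (1 / κ₂) • d - v = (w - v) - (1 / κ₂) • d := by abel
  rw [h4, inner_neg_right, inner_smul_right, norm_neg, norm_smul, mul_pow,
    Real.norm_of_nonneg (by positivity)] at h2
  rw [h5, inner_sub_right, inner_smul_right] at h1
  rw [← h5] at h1
  have h6 : (⟪D w, d⟫ : ℝ) = ⟪D v, d⟫ + ‖d‖ ^ 2 := by
    rw [← real_inner_self_eq_norm_sq d, ← inner_add_left]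
    congr 1
    rw [hd]
    abel
  rw [h6] at h2
  have h7 : κ₂ / 2 * ((1 / κ₂) ^ 2 * ‖d‖ ^ 2) = 1 / (2 * κ₂) * ‖d‖ ^ 2 := by
    field_simp
  have h8 : 1 / κ₂ * (⟪D v, d⟫ + ‖d‖ ^ 2) = 1 / κ₂ * ⟪D v, d⟫ + 2 * (1 / (2 * κ₂) * ‖d‖ ^ 2) := by
    field_simp
  rw [h7, h8] at h2
  linarith

theorem HK.lip (h : HK K D κ₁ κ₂) (v w : EuclideanSpace ℝ (Fin n)) :
    ‖D w - D v‖ ≤ κ₂ * ‖w - v‖ := by
  have hκ := h.pos₂
  have h1 := X1_coco h v w
  have h2 := X1_coco h w v
  have h3 : ‖D v - D w‖ = ‖D w - D v‖ := norm_sub_rev _ _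
  have h4 : (⟪D w, v - w⟫ : ℝ) = -⟪D w, w - v⟫ := by
    rw [← inner_neg_right, neg_sub]
  rw [h3, h4] at h2
  have h5 : (⟪D w - D v, w - v⟫ : ℝ) ≤ ‖D w - D v‖ * ‖w - v‖ := real_inner_le_norm _ _
  rw [inner_sub_left] at h5
  have h6 : 1 / κ₂ * ‖D w - D v‖ ^ 2 ≤ ‖D w - D v‖ * ‖w - v‖ := by
    have : 1 / κ₂ * ‖D w - D v‖ ^ 2 = 2 * (1 / (2 * κ₂) * ‖D w - D v‖ ^ 2) := by
      field_simp
    rw [this]
    linarith
  rcases (norm_nonneg (D w - D v)).eq_or_lt with h7 | h7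
  · rw [← h7]
    positivity
  · have h8 : 1 / κ₂ * ‖D w - D v‖ ≤ ‖w - v‖ := by
      have h9 : (1 / κ₂ * ‖D w - D v‖) * ‖D w - D v‖ ≤ ‖w - v‖ * ‖D w - D v‖ := by
        nlinarith [h6]
      exact le_of_mul_le_mul_right h9 h7
    rw [one_div, inv_mul_le_iff₀ hκ] at h8
    exact h8

theorem HK.antilip (h : HK K D κ₁ κ₂) (v w : EuclideanSpace ℝ (Fin n)) :
    κ₁ * ‖w - v‖ ≤ ‖D w - D v‖ := by
  have h1 := h.mono v w
  have h5 : (⟪D w - D v, w - v⟫ : ℝ) ≤ ‖D w - D v‖ * ‖w - v‖ := real_inner_le_norm _ _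
  rcases (norm_nonneg (w - v)).eq_or_lt with h7 | h7
  · rw [← h7]
    simp
  · have h9 : (κ₁ * ‖w - v‖) * ‖w - v‖ ≤ ‖D w - D v‖ * ‖w - v‖ := by
      nlinarith [h1]
    exact le_of_mul_le_mul_right h9 h7

private theorem X1_surj (h : HK K D κ₁ κ₂) (p : EuclideanSpace ℝ (Fin n)) : ∃ z, D z = p := by
  have hκ := h.pos₂
  have hκ' := h.pos
  have hcK : Continuous K := continuous_iff_continuousAt.2 fun v => (h.grad v).continuousAt
  have hc : Continuous fun z => K z - ⟪p, z⟫ :=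
    hcK.sub (continuous_const.inner continuous_id)
  have hlow : ∀ z, ‖z‖ + (K 0 - (‖D 0 - p‖ + 1) ^ 2 / (2 * κ₁)) ≤ K z - ⟪p, z⟫ := by
    intro z
    have h1 := h.lo 0 z
    rw [sub_zero] at h1
    have h2 : -(‖D 0 - p‖ * ‖z‖) ≤ ⟪D 0 - p, z⟫ := by
      have := abs_le.1 (abs_real_inner_le_norm (D 0 - p) z)
      exact this.1
    rw [inner_sub_left] at h2
    set c := ‖D 0 - p‖ + 1 with hc'
    have h3 : 0 ≤ κ₁ / 2 * (‖z‖ - c / κ₁) ^ 2 := by positivity
    have h4 : κ₁ / 2 * (‖z‖ - c / κ₁) ^ 2 = κ₁ / 2 * ‖z‖ ^ 2 - c * ‖z‖ + c ^ 2 / (2 * κ₁) := by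
      field_simp
      ring
    rw [h4] at h3
    have h5 : ‖D 0 - p‖ * ‖z‖ = c * ‖z‖ - ‖z‖ := by
      rw [hc']
      ring
    rw [h5] at h2
    linarith
  have htend : Filter.Tendsto (fun z => K z - ⟪p, z⟫) (Filter.cocompact _) Filter.atTop := by
    refine Filter.tendsto_atTop_mono hlow ?_
    exact Filter.tendsto_atTop_add_const_right _ _ tendsto_norm_cocompact_atTop
  obtain ⟨z, hz⟩ := hc.exists_forall_le htend
  refine ⟨z, ?_⟩
  set g := D z - p with hg
  have h1 := hz (z - (1 / κ₂) • g)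
  have h2 := h.hi z (z - (1 / κ₂) • g)
  have h4 : z - (1 / κ₂) • g - z = -((1 / κ₂) • g) := by abel
  rw [h4, inner_neg_right, inner_smul_right, norm_neg, norm_smul, mul_pow,
    Real.norm_of_nonneg (by positivity)] at h2
  rw [inner_sub_right, inner_smul_right] at h1
  have h6 : (⟪D z, g⟫ : ℝ) = ⟪p, g⟫ + ‖g‖ ^ 2 := by
    rw [← real_inner_self_eq_norm_sq g, ← inner_add_left]
    congr 1
    rw [hg]
    abel
  rw [h6] at h2
  have h7 : κ₂ / 2 * ((1 / κ₂) ^ 2 * ‖g‖ ^ 2) = 1 / (2 * κ₂) * ‖g‖ ^ 2 := by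
    field_simp
  have h8 : 1 / κ₂ * (⟪p, g⟫ + ‖g‖ ^ 2) = 1 / κ₂ * ⟪p, g⟫ + 2 * (1 / (2 * κ₂) * ‖g‖ ^ 2) := by
    field_simp
  rw [h7, h8] at h2
  have h9 : 1 / (2 * κ₂) * ‖g‖ ^ 2 ≤ 0 := by linarith
  have h10 : ‖g‖ ^ 2 ≤ 0 := by
    have h11 : 0 < 1 / (2 * κ₂) := by positivity
    by_contra hcon
    rw [not_le] at hcon
    have := mul_pos h11 hcon
    linarith
  have h12 : ‖g‖ = 0 := by
    have := sq_nonneg ‖g‖
    nlinarith [norm_nonneg g]
  rw [norm_eq_zero] at h12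
  exact sub_eq_zero.1 (hg ▸ h12)

theorem HK.inv (h : HK K D κ₁ κ₂) : ∃ D' : EuclideanSpace ℝ (Fin n) → EuclideanSpace ℝ (Fin n),
    (∀ p, D (D' p) = p) ∧ (∀ v, D' (D v) = v) ∧ ∀ p q, κ₁ * ‖D' p - D' q‖ ≤ ‖p - q‖ := by
  choose D' hD' using X1_surj h
  refine ⟨D', hD', fun v => ?_, fun p q => ?_⟩
  · have h1 := h.antilip v (D' (D v))
    rw [hD', sub_self, norm_zero] at h1
    have h2 : ‖D' (D v) - v‖ ≤ 0 := by
      have h3 := h.pos
      by_contra hcon
      rw [not_le] at hcon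
      have := mul_pos h3 hcon
      linarith
    exact sub_eq_zero.1 (norm_eq_zero.1 (le_antisymm h2 (norm_nonneg _)))
  · have h1 := h.antilip (D' q) (D' p)
    rw [hD', hD'] at h1
    exact h1

end Pool.Agent.H33.AM

end

section

/-!
# Module I1: the Euler-Lagrange flow on `𝕋ⁿ × ℝⁿ × 𝕋`

* `pr_eq_iff`: `pr x = pr y` iff `x - y` is an integer vector (`AddCircle.coe_eq_coe_iff_of_mem_Ico`,
  `AddCircle.coe_eq_zero_iff`, `QuotientAddGroup`).
* `isEL_iff`: for `L x v t = lag K A V x v`: `gradient (fun v => L x v t) v = D v + A x`,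
  `gradient (fun x => L x v t) x = adjoint (A' x) v - F x`. So `IsEL` says: `γ` is differentiable and
  `s ↦ D (deriv γ s) + A (γ s)` has the derivative `adjoint (A' (γ t)) (deriv γ t) - F (γ t)`. Then
  `D (deriv γ)` is continuous, and `deriv γ = D' (D (deriv γ))` is continuous.
* `exists_ELflow`: with the flow `φ` of `Y = field A A' F D'` (`field_loc`, `field_growth`,
  `flow_of_growth`) put `Φ s (X, v, τ) = (pr (z.1), D' (z.2 - A z.1), τ + s)`,
  `z = φ s (repE X, D v + A (repE X))`. `Y` is periodic in `x`, so the same formula holds for every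
  lift `x` of `X` (uniqueness of the flow). Measurability: `repE` is measurable
  (`AddCircle.measurable_equivIco` or similar), `φ s` is continuous, `pr` is continuous.
* `exists_ELflow` also gives: every solution `Sol D F A A' γ v` is a trajectory.
-/

set_option autoImplicit false

open MeasureTheory
open scoped RealInnerProductSpace

namespace Pool.Agent.H33.AM

variable {n : ℕ} {K V : EuclideanSpace ℝ (Fin n) → ℝ}
  {D F A : EuclideanSpace ℝ (Fin n) → EuclideanSpace ℝ (Fin n)}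
  {A' : EuclideanSpace ℝ (Fin n) → EuclideanSpace ℝ (Fin n) →L[ℝ] EuclideanSpace ℝ (Fin n)}
  {κ₁ κ₂ B T : ℝ}

private theorem I1b_grad_v (hK : HK K D κ₁ κ₂) (x v : EuclideanSpace ℝ (Fin n)) :
    HasGradientAt (fun v => lag K A V x v) (D v + A x) v := by
  have h1 : HasFDerivAt K (InnerProductSpace.toDual ℝ _ (D v)) v := (hK.grad v).hasFDerivAt
  have h2 : HasFDerivAt (fun v => (⟪A x, v⟫ : ℝ)) (InnerProductSpace.toDual ℝ _ (A x)) v :=
    (InnerProductSpace.toDual ℝ _ (A x)).hasFDerivAt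
  have h3 : HasFDerivAt (fun v => lag K A V x v)
      (InnerProductSpace.toDual ℝ _ (D v) + InnerProductSpace.toDual ℝ _ (A x)) v := by
    unfold lag
    exact (h1.add h2).sub_const _
  rw [hasGradientAt_iff_hasFDerivAt, map_add]
  exact h3

private theorem I1b_grad_x (hA : HA A A' B) (hV : HV V F B) (x v : EuclideanSpace ℝ (Fin n)) :
    HasGradientAt (fun x => lag K A V x v) (ContinuousLinearMap.adjoint (A' x) v - F x) x := by
  have h1 : HasFDerivAt V (InnerProductSpace.toDual ℝ _ (F x)) x := (hV.der x).hasFDerivAt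
  have h2 : HasFDerivAt (fun x => (⟪A x, v⟫ : ℝ))
      (InnerProductSpace.toDual ℝ _ (ContinuousLinearMap.adjoint (A' x) v)) x := by
    have h4 := (hA.der x).inner ℝ (hasFDerivAt_const v x)
    refine h4.congr_fderiv ?_
    ext u
    simp [ContinuousLinearMap.adjoint_inner_left, real_inner_comm]
  have h3 : HasFDerivAt (fun x => lag K A V x v)
      (InnerProductSpace.toDual ℝ _ (ContinuousLinearMap.adjoint (A' x) v)
        - InnerProductSpace.toDual ℝ _ (F x)) x := by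
    unfold lag
    have h5 : HasFDerivAt (fun x => K v + (⟪A x, v⟫ : ℝ))
      (InnerProductSpace.toDual ℝ _ (ContinuousLinearMap.adjoint (A' x) v)) x := h2.const_add _
    exact h5.sub h1
  rw [hasGradientAt_iff_hasFDerivAt, map_sub]
  exact h3

theorem isEL_iff (hK : HK K D κ₁ κ₂) (hA : HA A A' B) (hV : HV V F B)
    (γ : ℝ → EuclideanSpace ℝ (Fin n)) :
    IsEL (fun x v _ => lag K A V x v) γ ↔ Sol D F A A' γ (deriv γ) := by
  have e1 : ∀ x v, gradient (fun v => lag K A V x v) v = D v + A x := fun x v =>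
    (I1b_grad_v hK x v).gradient
  have e2 : ∀ x v, gradient (fun x => lag K A V x v) x =
      ContinuousLinearMap.adjoint (A' x) v - F x := fun x v =>
    (I1b_grad_x hA hV x v).gradient
  unfold IsEL
  simp only [e1, e2]
  constructor
  · rintro ⟨h1, h2⟩
    refine ⟨?_, fun t => (h1 t).hasDerivAt, h2⟩
    obtain ⟨D', -, hD2, hD3⟩ := hK.inv
    have h3 : Continuous fun s => D (deriv γ s) + A (γ s) :=
      continuous_iff_continuousAt.2 fun t => (h2 t).continuousAt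
    have h4 : Continuous A := continuous_iff_continuousAt.2 fun x => (hA.der x).continuousAt
    have h5 : Continuous γ := continuous_iff_continuousAt.2 fun t => (h1 t).continuousAt
    have h6 : Continuous fun s => D (deriv γ s) := by
      have := h3.sub (h4.comp h5)
      refine this.congr fun s => ?_
      simp
    have h7 : Continuous D' := by
      have hL : LipschitzWith (Real.toNNReal (1 / κ₁)) D' := by
        refine LipschitzWith.of_dist_le_mul fun p q => ?_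
        rw [dist_eq_norm, dist_eq_norm, Real.coe_toNNReal _ (by have := hK.pos; positivity)]
        have := hD3 p q
        rw [one_div, inv_mul_eq_div, le_div_iff₀ hK.pos]
        linarith
      exact hL.continuous
    have h8 := h7.comp h6
    refine h8.congr fun s => ?_
    exact hD2 _
  · intro h
    exact ⟨fun t => (h.der t).differentiableAt, h.el⟩

end Pool.Agent.H33.AM

end

section

/-!
# Module X3: from discrete to continuous

`Y = field A A' F D'`, `W = ℝⁿ × ℝⁿ`, `τ = T / N`, `v_i = (1/τ) (x_{i+1} - x_i)`,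
`z_i = (x_i, D v_i + A x_i)`, so that `v_i = D' (z_i.2 - A z_i.1)`, `x_{i+1} = x_i + τ (Y z_i).1`.
* `field_loc`, `field_growth`: `κ₁ ‖D' p - D' q‖ ≤ ‖p - q‖`, `A`, `A'`, `F` bounded and Lipschitz
  (`A` is Lipschitz with the constant `B` because `‖A'‖ ≤ B`); only `adjoint (A' x) v` needs the
  restriction to balls.
* `disc_euler`: `‖x_i‖ ≤ √n + T R` for `0 ≤ i ≤ N`; `z_{i+1}.2 - z_i.2 = τ (adjoint (A' x_{i+1}) v_{i+1} -
  F x_{i+1})` by `disc_EL`, and `‖v_{i+1} - v_i‖ ≤ (1/κ₁) (‖z_{i+1}.2 - z_i.2‖ + B ‖x_{i+1} - x_i‖) = O(τ)`.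
* `disc_of_curve`: `y i = x(i τ)` for `0 ≤ i < N`, extended quasi-periodically. Jensen:
  `τ K((1/τ) ∫ u) ≤ ∫ K(u)` on every `[i τ, (i + 1) τ]` (`ConvexOn.map_average_le` or: `K(u) ≥ K(c) +
  ⟪D c, u - c⟫` with `c` the average, integrate); `‖x(t) - x(i τ)‖ ≤ R τ`, so the terms with `A` and `V`
  change by `O(τ)`.
* `Sol_of_flow`, `flow_of_Sol`: `v = D' (p - A(γ))`.
-/

set_option autoImplicit false

open MeasureTheory
open scoped RealInnerProductSpace

namespace Pool.Agent.H33.AM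

variable {n : ℕ} {K V : EuclideanSpace ℝ (Fin n) → ℝ}
  {D F A D' : EuclideanSpace ℝ (Fin n) → EuclideanSpace ℝ (Fin n)}
  {A' : EuclideanSpace ℝ (Fin n) → EuclideanSpace ℝ (Fin n) →L[ℝ] EuclideanSpace ℝ (Fin n)}
  {κ₁ κ₂ B T : ℝ}

private theorem X3a_lipA (hA : HA A A' B) (x y : EuclideanSpace ℝ (Fin n)) :
    ‖A x - A y‖ ≤ B * ‖x - y‖ :=
  convex_univ.norm_image_sub_le_of_norm_hasFDerivWithin_le
    (fun x _ => (hA.der x).hasFDerivWithinAt) (fun x _ => hA.bdA x) (Set.mem_univ y)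
    (Set.mem_univ x)

private theorem X3a_D (hκ : 0 < κ₁) (hD : ∀ p q, κ₁ * ‖D' p - D' q‖ ≤ ‖p - q‖)
    (p q : EuclideanSpace ℝ (Fin n)) : ‖D' p - D' q‖ ≤ 1 / κ₁ * ‖p - q‖ := by
  rw [one_div, inv_mul_eq_div, le_div_iff₀ hκ]
  linarith [hD p q]

private theorem X3a_bdD (hκ : 0 < κ₁) (hA : HA A A' B)
    (hD : ∀ p q, κ₁ * ‖D' p - D' q‖ ≤ ‖p - q‖)
    (z : EuclideanSpace ℝ (Fin n) × EuclideanSpace ℝ (Fin n)) :
    ‖D' (z.2 - A z.1)‖ ≤ ‖D' 0‖ + 1 / κ₁ * (‖z‖ + B) := by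
  have h1 := X3a_D hκ hD (z.2 - A z.1) 0
  rw [sub_zero] at h1
  have h2 : ‖z.2 - A z.1‖ ≤ ‖z‖ + B :=
    (norm_sub_le _ _).trans (add_le_add (norm_snd_le z) (hA.bd _))
  have h3 : ‖D' (z.2 - A z.1)‖ ≤ ‖D' 0‖ + ‖D' (z.2 - A z.1) - D' 0‖ := by
    have := norm_add_le (D' 0) (D' (z.2 - A z.1) - D' 0)
    rwa [add_sub_cancel] at this
  have h4 : 1 / κ₁ * ‖z.2 - A z.1‖ ≤ 1 / κ₁ * (‖z‖ + B) :=
    mul_le_mul_of_nonneg_left h2 (by positivity)
  linarith

private theorem X3a_adj (hA : HA A A' B) (x v : EuclideanSpace ℝ (Fin n)) :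
    ‖ContinuousLinearMap.adjoint (A' x) v‖ ≤ B * ‖v‖ := by
  refine (ContinuousLinearMap.le_opNorm _ _).trans ?_
  rw [LinearIsometryEquiv.norm_map]
  exact mul_le_mul_of_nonneg_right (hA.bdA x) (norm_nonneg _)

private theorem X3a_adj_sub (hA : HA A A' B) (x y v : EuclideanSpace ℝ (Fin n)) :
    ‖ContinuousLinearMap.adjoint (A' x) v - ContinuousLinearMap.adjoint (A' y) v‖
      ≤ B * ‖x - y‖ * ‖v‖ := by
  have h1 : ContinuousLinearMap.adjoint (A' x) v - ContinuousLinearMap.adjoint (A' y) v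
      = ContinuousLinearMap.adjoint (A' x - A' y) v := by
    rw [map_sub]
    rfl
  rw [h1]
  refine (ContinuousLinearMap.le_opNorm _ _).trans ?_
  rw [LinearIsometryEquiv.norm_map]
  exact mul_le_mul_of_nonneg_right (hA.lip x y) (norm_nonneg _)

theorem field_loc (hκ : 0 < κ₁) (hA : HA A A' B) (hV : HV V F B)
    (hD : ∀ p q, κ₁ * ‖D' p - D' q‖ ≤ ‖p - q‖) (R : ℝ) :
    ∃ L : NNReal, LipschitzOnWith L (field A A' F D') (Metric.closedBall 0 R) := by
  have hB : 0 ≤ B := hA.nonneg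
  set M : ℝ := ‖D' 0‖ + 1 / κ₁ * (|R| + B) with hM
  have hM0 : 0 ≤ M := by positivity
  set c : ℝ := 1 / κ₁ * (1 + B) with hc
  have hc0 : 0 ≤ c := by positivity
  refine ⟨Real.toNNReal (c + (B * M + B * c + B)), LipschitzOnWith.of_dist_le_mul ?_⟩
  intro z hz w hw
  rw [Real.coe_toNNReal _ (by positivity), dist_eq_norm, dist_eq_norm]
  have hz' : ‖z‖ ≤ |R| := (mem_closedBall_zero_iff.1 hz).trans (le_abs_self R)
  have h1 : ‖z.1 - w.1‖ ≤ ‖z - w‖ := norm_fst_le (z - w)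
  have h2 : ‖z.2 - w.2‖ ≤ ‖z - w‖ := norm_snd_le (z - w)
  have h0 : 0 ≤ ‖z - w‖ := norm_nonneg _
  set a := D' (z.2 - A z.1) with ha
  set b := D' (w.2 - A w.1) with hb
  have h3 : ‖a - b‖ ≤ c * ‖z - w‖ := by
    refine (X3a_D hκ hD _ _).trans ?_
    rw [hc, mul_assoc]
    refine mul_le_mul_of_nonneg_left ?_ (by positivity)
    have h4 : z.2 - A z.1 - (w.2 - A w.1) = (z.2 - w.2) - (A z.1 - A w.1) := by abel
    rw [h4]
    refine (norm_sub_le _ _).trans ?_
    have h5 := X3a_lipA hA z.1 w.1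
    have h6 : B * ‖z.1 - w.1‖ ≤ B * ‖z - w‖ := mul_le_mul_of_nonneg_left h1 hB
    nlinarith
  have h4 : ‖a‖ ≤ M := by
    refine (X3a_bdD hκ hA hD z).trans ?_
    rw [hM]
    have : 1 / κ₁ * (‖z‖ + B) ≤ 1 / κ₁ * (|R| + B) :=
      mul_le_mul_of_nonneg_left (by linarith) (by positivity)
    linarith
  have h5 : ‖ContinuousLinearMap.adjoint (A' z.1) a - F z.1
      - (ContinuousLinearMap.adjoint (A' w.1) b - F w.1)‖ ≤ (B * M + B * c + B) * ‖z - w‖ := by
    have h6 : ContinuousLinearMap.adjoint (A' z.1) a - F z.1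
        - (ContinuousLinearMap.adjoint (A' w.1) b - F w.1)
        = (ContinuousLinearMap.adjoint (A' z.1) a - ContinuousLinearMap.adjoint (A' w.1) a)
          + ContinuousLinearMap.adjoint (A' w.1) (a - b) - (F z.1 - F w.1) := by
      rw [map_sub]
      abel
    rw [h6]
    refine (norm_sub_le _ _).trans ?_
    have h7 := norm_add_le (ContinuousLinearMap.adjoint (A' z.1) a
      - ContinuousLinearMap.adjoint (A' w.1) a) (ContinuousLinearMap.adjoint (A' w.1) (a - b))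
    have h8 := X3a_adj_sub hA z.1 w.1 a
    have h9 := X3a_adj hA w.1 (a - b)
    have h10 := hV.lip z.1 w.1
    have h11 : B * ‖z.1 - w.1‖ ≤ B * ‖z - w‖ := mul_le_mul_of_nonneg_left h1 hB
    have h12 : B * ‖z.1 - w.1‖ * ‖a‖ ≤ B * ‖z - w‖ * M :=
      mul_le_mul h11 h4 (norm_nonneg _) (by positivity)
    have h13 : B * ‖a - b‖ ≤ B * (c * ‖z - w‖) := mul_le_mul_of_nonneg_left h3 hB
    nlinarith
  have h6 : field A A' F D' z - field A A' F D' w = (a - b,
      ContinuousLinearMap.adjoint (A' z.1) a - F z.1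
        - (ContinuousLinearMap.adjoint (A' w.1) b - F w.1)) := rfl
  rw [h6, Prod.norm_def]
  refine max_le ?_ ?_
  · refine h3.trans ?_
    refine mul_le_mul_of_nonneg_right ?_ h0
    have : 0 ≤ B * M + B * c + B := by positivity
    linarith
  · refine h5.trans ?_
    refine mul_le_mul_of_nonneg_right ?_ h0
    linarith

theorem field_growth (hκ : 0 < κ₁) (hA : HA A A' B) (hV : HV V F B)
    (hD : ∀ p q, κ₁ * ‖D' p - D' q‖ ≤ ‖p - q‖) :
    ∃ C : ℝ, ∀ z, ‖field A A' F D' z‖ ≤ C * (1 + ‖z‖) := by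
  have hB : 0 ≤ B := hA.nonneg
  set M : ℝ := ‖D' 0‖ + 1 / κ₁ * (1 + B) with hM
  have hM0 : 0 ≤ M := by positivity
  refine ⟨M + (B * M + B), fun z => ?_⟩
  have h0 : 0 ≤ ‖z‖ := norm_nonneg _
  have h1 : ‖D' (z.2 - A z.1)‖ ≤ M * (1 + ‖z‖) := by
    refine (X3a_bdD hκ hA hD z).trans ?_
    rw [hM, add_mul]
    have h2 : ‖D' 0‖ ≤ ‖D' 0‖ * (1 + ‖z‖) := by nlinarith [norm_nonneg (D' 0)]
    have h3 : 1 / κ₁ * (‖z‖ + B) ≤ 1 / κ₁ * (1 + B) * (1 + ‖z‖) := by
      rw [mul_assoc]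
      refine mul_le_mul_of_nonneg_left ?_ (by positivity)
      nlinarith
    linarith
  have h2 : field A A' F D' z = (D' (z.2 - A z.1),
      ContinuousLinearMap.adjoint (A' z.1) (D' (z.2 - A z.1)) - F z.1) := rfl
  rw [h2, Prod.norm_def]
  refine max_le ?_ ?_
  · refine h1.trans ?_
    refine mul_le_mul_of_nonneg_right ?_ (by positivity)
    have : 0 ≤ B * M + B := by positivity
    linarith
  · refine (norm_sub_le _ _).trans ?_
    have h3 := X3a_adj hA z.1 (D' (z.2 - A z.1))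
    have h4 := hV.bdF z.1
    have h5 : B * ‖D' (z.2 - A z.1)‖ ≤ B * (M * (1 + ‖z‖)) := mul_le_mul_of_nonneg_left h1 hB
    have h6 : B ≤ B * (1 + ‖z‖) := by nlinarith
    have h7 : 0 ≤ M * (1 + ‖z‖) := by positivity
    have h8 : B * (M * (1 + ‖z‖)) + B * (1 + ‖z‖) ≤ (M + (B * M + B)) * (1 + ‖z‖) := by
      nlinarith
    linarith

end Pool.Agent.H33.AM

end

section

/-!
# Module F1: global flows

* `flow_of_lipschitz`: Picard-Lindelöf gives for every `z` a solution on every interval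
  (`IsPicardLindelof`, or the contraction principle with a weighted norm), glue; uniqueness by
  Gronwall (`ODE_solution_unique_univ`), continuity in `z`: `dist_le_of_trajectories_ODE`.
* `flow_of_growth`: `Y` is Lipschitz on every ball and `‖Y z‖ ≤ C (1 + ‖z‖)`: for `ρ_R(z) =
  min(1, R/‖z‖) z` (Lipschitz with the constant 2 in every normed space) the field `Y ∘ ρ_R` is
  Lipschitz (globally), and its solutions starting in the ball of radius `r` stay for `|t| ≤ T` in the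
  ball of radius `(1 + r) exp(C T)`, so they are solutions for `Y` if `R` is large.
* `euler`: let `z 0, …, z N` be in the ball of radius `R`, `N τ ≤ T`, and
  `‖z (i + 1) - z i - τ Y (z i)‖ ≤ c`. Then `‖φ (i τ) (z 0) - z i‖ ≤ C₂ (τ + c/τ)`, `C₂ = C₂(Y, R, T)`:
  the exact solution from the ball `R` stays in a ball `R'`, where `Y` has a Lipschitz constant `K'` and
  a bound `M'`; `e_i = ‖φ (i τ) (z 0) - z i‖` satisfies `e_{i+1} ≤ (1 + K' τ) e_i + K' M' τ² + c`, so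
  `e_i ≤ i exp(K' T) (K' M' τ² + c)`.
-/

set_option autoImplicit false

open MeasureTheory
open scoped RealInnerProductSpace

namespace Pool.Agent.H33.AM

variable {W : Type*} [NormedAddCommGroup W] [NormedSpace ℝ W] [CompleteSpace W]

omit [CompleteSpace W] in
/-- Uniqueness on symmetric open intervals, for locally Lipschitz fields. -/
private theorem f1b_unique {Y : W → W}
    (hloc : ∀ R : ℝ, ∃ K : NNReal, LipschitzOnWith K Y (Metric.closedBall 0 R)) (T : ℝ)
    (α β : ℝ → W) (hα : ∀ t ∈ Set.Ioo (-T) T, HasDerivAt α (Y (α t)) t)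
    (hβ : ∀ t ∈ Set.Ioo (-T) T, HasDerivAt β (Y (β t)) t) (h : α 0 = β 0) :
    Set.EqOn α β (Set.Ioo (-T) T) := by
  intro t ht
  have hT : 0 < T := by
    by_contra h1
    linarith [ht.1, ht.2]
  obtain ⟨S, hS1, hS2⟩ : ∃ S, |t| < S ∧ S < T := exists_between (abs_lt.2 ⟨ht.1, ht.2⟩)
  have hS0 : 0 < S := (abs_nonneg t).trans_lt hS1
  have hsub : Set.Icc (-S) S ⊆ Set.Ioo (-T) T := fun s hs =>
    ⟨by linarith [hs.1], by linarith [hs.2]⟩
  obtain ⟨R₁, hR₁⟩ := isCompact_Icc.exists_bound_of_continuousOn (s := Set.Icc (-S) S) (f := α)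
    (fun s hs => (hα s (hsub hs)).continuousAt.continuousWithinAt)
  obtain ⟨R₂, hR₂⟩ := isCompact_Icc.exists_bound_of_continuousOn (s := Set.Icc (-S) S) (f := β)
    (fun s hs => (hβ s (hsub hs)).continuousAt.continuousWithinAt)
  obtain ⟨K, hK⟩ := hloc (max R₁ R₂)
  have hss : Set.Ioo (-S) S ⊆ Set.Icc (-S) S := Set.Ioo_subset_Icc_self
  exact ODE_solution_unique_of_mem_Ioo (v := fun _ => Y)
    (s := fun _ => Metric.closedBall 0 (max R₁ R₂)) (t₀ := 0) (a := -S) (b := S)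
    (fun _ _ => hK) ⟨by linarith, hS0⟩
    (fun s hs => ⟨hα s (hsub (hss hs)), by
      rw [mem_closedBall_zero_iff]
      exact (hR₁ s (hss hs)).trans (le_max_left _ _)⟩)
    (fun s hs => ⟨hβ s (hsub (hss hs)), by
      rw [mem_closedBall_zero_iff]
      exact (hR₂ s (hss hs)).trans (le_max_right _ _)⟩) h
    ⟨by linarith [neg_abs_le t], by linarith [le_abs_self t]⟩

omit [CompleteSpace W] in
/-- Gluing of the solutions on all bounded intervals. -/
private theorem f1b_glue {Y : W → W} {z : W}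
    (hU : ∀ (T : ℝ) (α β : ℝ → W), (∀ t ∈ Set.Ioo (-T) T, HasDerivAt α (Y (α t)) t) →
      (∀ t ∈ Set.Ioo (-T) T, HasDerivAt β (Y (β t)) t) → α 0 = β 0 →
      Set.EqOn α β (Set.Ioo (-T) T))
    (h : ∀ T : ℝ, ∃ α : ℝ → W, α 0 = z ∧ ∀ t ∈ Set.Ioo (-T) T, HasDerivAt α (Y (α t)) t) :
    ∃ γ : ℝ → W, γ 0 = z ∧ ∀ t, HasDerivAt γ (Y (γ t)) t := by
  choose α hα0 hα using h
  have key : ∀ t₀ t : ℝ, |t| < |t₀| + 1 → α (|t| + 1) t = α (|t₀| + 2) t := by
    intro t₀ t ht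
    refine hU (|t| + 1) _ _ (hα _) ?_ ?_ ?_
    · exact fun s hs => hα _ s ⟨by linarith [hs.1], by linarith [hs.2]⟩
    · rw [hα0, hα0]
    · exact ⟨by linarith [neg_abs_le t], by linarith [le_abs_self t]⟩
  refine ⟨fun t => α (|t| + 1) t, hα0 _, fun t₀ => ?_⟩
  have h1 : (fun t => α (|t| + 1) t) =ᶠ[nhds t₀] α (|t₀| + 2) := by
    have h2 : ∀ᶠ t in nhds t₀, |t| < |t₀| + 1 :=
      continuous_abs.continuousAt.eventually_lt continuousAt_const (by linarith)
    filter_upwards [h2] with t ht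
    exact key t₀ t ht
  have h2 := hα (|t₀| + 2) t₀ ⟨by linarith [neg_abs_le t₀], by linarith [le_abs_self t₀]⟩
  have h3 := h2.congr_of_eventuallyEq h1
  have h4 : α (|t₀| + 1) t₀ = α (|t₀| + 2) t₀ := key t₀ t₀ (by linarith)
  simp only
  rw [h4]
  exact h3

/-- The cutoff function. -/
private noncomputable def f1b_chi (R : ℝ) (z : W) : ℝ := max 0 (min 1 (2 - ‖z‖ / R))

omit [NormedSpace ℝ W] [CompleteSpace W] in
private theorem f1b_chi_nonneg (R : ℝ) (z : W) : 0 ≤ f1b_chi R z := le_max_left _ _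

omit [NormedSpace ℝ W] [CompleteSpace W] in
private theorem f1b_chi_le (R : ℝ) (z : W) : f1b_chi R z ≤ 1 :=
  max_le zero_le_one (min_le_left _ _)

omit [NormedSpace ℝ W] [CompleteSpace W] in
private theorem f1b_chi_one {R : ℝ} (hR : 0 < R) {z : W} (hz : ‖z‖ ≤ R) : f1b_chi R z = 1 := by
  have h1 : ‖z‖ / R ≤ 1 := (div_le_one hR).2 hz
  rw [f1b_chi, min_eq_left (by linarith), max_eq_right zero_le_one]

omit [NormedSpace ℝ W] [CompleteSpace W] in
private theorem f1b_chi_zero {R : ℝ} (hR : 0 < R) {z : W} (hz : 2 * R ≤ ‖z‖) :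
    f1b_chi R z = 0 := by
  have h1 : 2 ≤ ‖z‖ / R := (le_div_iff₀ hR).2 hz
  rw [f1b_chi, max_eq_left]
  exact (min_le_right _ _).trans (by linarith)

omit [NormedSpace ℝ W] [CompleteSpace W] in
private theorem f1b_chi_lip {R : ℝ} (hR : 0 < R) (z w : W) :
    |f1b_chi R z - f1b_chi R w| ≤ ‖z - w‖ / R := by
  have h1 : |f1b_chi R z - f1b_chi R w| ≤ |(2 - ‖z‖ / R) - (2 - ‖w‖ / R)| := by
    unfold f1b_chi
    refine (abs_max_sub_max_le_max _ _ _ _).trans ?_
    refine max_le (by rw [sub_self, abs_zero]; exact abs_nonneg _) ?_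
    refine (abs_min_sub_min_le_max _ _ _ _).trans ?_
    exact max_le (by rw [sub_self, abs_zero]; exact abs_nonneg _) le_rfl
  refine h1.trans ?_
  rw [show (2 - ‖z‖ / R) - (2 - ‖w‖ / R) = (‖w‖ - ‖z‖) / R by ring, abs_div, abs_of_pos hR,
    abs_sub_comm]
  gcongr
  exact abs_norm_sub_norm_le z w

omit [CompleteSpace W] in
private theorem f1b_cut_lip {Y : W → W}
    (hloc : ∀ R : ℝ, ∃ K : NNReal, LipschitzOnWith K Y (Metric.closedBall 0 R)) {R : ℝ}
    (hR : 0 < R) : ∃ K : NNReal, LipschitzWith K (fun z => f1b_chi R z • Y z) := by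
  obtain ⟨K, hK⟩ := hloc (2 * R)
  -- bound of the field
  set M : ℝ := ‖Y 0‖ + K * (2 * R) with hM
  have hK0 : (0 : ℝ) ≤ K := K.2
  have hM0 : 0 ≤ M := by positivity
  have hlip : ∀ z w : W, ‖z‖ ≤ 2 * R → ‖w‖ ≤ 2 * R → ‖Y z - Y w‖ ≤ K * ‖z - w‖ := by
    intro z w hz hw
    have := hK.dist_le_mul z (by rwa [mem_closedBall_zero_iff]) w
      (by rwa [mem_closedBall_zero_iff])
    rwa [dist_eq_norm, dist_eq_norm] at this
  have hbd : ∀ z : W, ‖z‖ ≤ 2 * R → ‖Y z‖ ≤ M := by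
    intro z hz
    have h1 := hlip z 0 hz (by rw [norm_zero]; positivity)
    rw [sub_zero] at h1
    have h2 : ‖Y z‖ ≤ ‖Y 0‖ + ‖Y z - Y 0‖ := by
      have := norm_add_le (Y 0) (Y z - Y 0)
      rwa [add_sub_cancel] at this
    have h3 : (K : ℝ) * ‖z‖ ≤ K * (2 * R) := by gcongr
    linarith
  have hone : ∀ z w : W, ‖z‖ ≤ 2 * R → 2 * R ≤ ‖w‖ →
      ‖f1b_chi R z • Y z - f1b_chi R w • Y w‖ ≤ (K + M / R) * ‖z - w‖ := by
    intro z w hz hw
    rw [f1b_chi_zero hR hw, zero_smul, sub_zero, norm_smul, Real.norm_eq_abs]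
    have h1 := f1b_chi_lip hR z w
    rw [f1b_chi_zero hR hw, sub_zero] at h1
    calc |f1b_chi R z| * ‖Y z‖ ≤ ‖z - w‖ / R * M :=
          mul_le_mul h1 (hbd z hz) (norm_nonneg _) (by positivity)
      _ = M / R * ‖z - w‖ := by ring
      _ ≤ (K + M / R) * ‖z - w‖ := by
          gcongr
          linarith
  refine ⟨⟨K + M / R, by positivity⟩, LipschitzWith.of_dist_le_mul fun z w => ?_⟩
  rw [dist_eq_norm, dist_eq_norm]
  change ‖f1b_chi R z • Y z - f1b_chi R w • Y w‖ ≤ (K + M / R) * ‖z - w‖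
  rcases le_total ‖z‖ (2 * R) with hz | hz
  · rcases le_total ‖w‖ (2 * R) with hw | hw
    · have e : f1b_chi R z • Y z - f1b_chi R w • Y w =
          (f1b_chi R z - f1b_chi R w) • Y z + f1b_chi R w • (Y z - Y w) := by
        rw [sub_smul, smul_sub]
        abel
      rw [e]
      refine (norm_add_le _ _).trans ?_
      rw [norm_smul, norm_smul, Real.norm_eq_abs, Real.norm_eq_abs,
        abs_of_nonneg (f1b_chi_nonneg R w)]
      have h1 : |f1b_chi R z - f1b_chi R w| * ‖Y z‖ ≤ ‖z - w‖ / R * M :=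
        mul_le_mul (f1b_chi_lip hR z w) (hbd z hz) (norm_nonneg _) (by positivity)
      have h2 : f1b_chi R w * ‖Y z - Y w‖ ≤ 1 * (K * ‖z - w‖) :=
        mul_le_mul (f1b_chi_le R w) (hlip z w hz hw) (norm_nonneg _) zero_le_one
      calc _ ≤ ‖z - w‖ / R * M + 1 * (K * ‖z - w‖) := add_le_add h1 h2
        _ = (K + M / R) * ‖z - w‖ := by ring
    · exact hone z w hz hw
  · rcases le_total ‖w‖ (2 * R) with hw | hw
    · rw [norm_sub_rev, norm_sub_rev z w]
      exact hone w z hw hz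
    · rw [f1b_chi_zero hR hz, f1b_chi_zero hR hw, zero_smul, zero_smul, sub_zero, norm_zero]
      positivity

omit [CompleteSpace W] in
/-- The a priori bound. -/
private theorem f1b_bound {Z : W → W} {C : ℝ} (hC : 0 < C) (hgr : ∀ z, ‖Z z‖ ≤ C * (1 + ‖z‖))
    {α : ℝ → W} (hα : ∀ t, HasDerivAt α (Z (α t)) t) (t : ℝ) :
    ‖α t‖ ≤ (1 + ‖α 0‖) * Real.exp (C * |t|) := by
  have main : ∀ (Z : W → W) (α : ℝ → W), (∀ z, ‖Z z‖ ≤ C * (1 + ‖z‖)) →
      (∀ t, HasDerivAt α (Z (α t)) t) → ∀ t, 0 ≤ t →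
      ‖α t‖ ≤ (1 + ‖α 0‖) * Real.exp (C * t) := by
    intro Z α hgr hα t ht
    have h1 := norm_le_gronwallBound_of_norm_deriv_right_le (f := α) (f' := fun t => Z (α t))
      (δ := ‖α 0‖) (K := C) (ε := C) (a := 0) (b := t)
      (fun s _ => (hα s).continuousAt.continuousWithinAt) (fun s _ => (hα s).hasDerivWithinAt)
      le_rfl (fun s _ => (hgr (α s)).trans (by linarith)) t ⟨ht, le_rfl⟩
    rw [gronwallBound_of_K_ne_0 hC.ne'] at h1
    simp only [sub_zero, div_self hC.ne', one_mul] at h1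
    linarith
  rcases le_or_gt 0 t with ht | ht
  · rw [abs_of_nonneg ht]
    exact main Z α hgr hα t ht
  · rw [abs_of_neg ht]
    have hr : ∀ s, HasDerivAt (fun s => α (-s)) (-Z (α (-s))) s := by
      intro s
      have h1 := HasDerivAt.scomp s (hα (-s)) (hasDerivAt_neg s)
      rw [neg_one_smul] at h1
      exact h1
    have h2 := main (fun z => -Z z) (fun s => α (-s)) (fun z => by rw [norm_neg]; exact hgr z)
      hr (-t) (by linarith)
    simp only [neg_neg, neg_zero] at h2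
    exact h2

/-- The flow of the cutoff field. -/
private theorem f1b_cut {Y : W → W}
    (hloc : ∀ R : ℝ, ∃ K : NNReal, LipschitzOnWith K Y (Metric.closedBall 0 R)) {C : ℝ}
    (hC : 0 < C) (hgr : ∀ z, ‖Y z‖ ≤ C * (1 + ‖z‖)) (r T : ℝ) :
    ∃ ψ : ℝ → W → W, (∀ z, ψ 0 z = z) ∧ Continuous (fun p : ℝ × W => ψ p.1 p.2) ∧
      ∀ z, ‖z‖ ≤ r → ∀ t ∈ Set.Ioo (-T) T, HasDerivAt (fun s => ψ s z) (Y (ψ t z)) t := by
  set R : ℝ := (1 + |r|) * Real.exp (C * |T|) with hR
  have hR0 : 0 < R := by positivity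
  obtain ⟨K, hK⟩ := f1b_cut_lip hloc hR0
  obtain ⟨ψ, hψ⟩ := flow_of_lipschitz hK
  refine ⟨ψ, hψ.zero, hψ.cont, fun z hz t ht => ?_⟩
  have hgr' : ∀ z : W, ‖f1b_chi R z • Y z‖ ≤ C * (1 + ‖z‖) := by
    intro z
    rw [norm_smul, Real.norm_eq_abs, abs_of_nonneg (f1b_chi_nonneg R z)]
    calc f1b_chi R z * ‖Y z‖ ≤ 1 * ‖Y z‖ := by
          gcongr
          exact f1b_chi_le R z
      _ ≤ C * (1 + ‖z‖) := by rw [one_mul]; exact hgr z
  have h1 := f1b_bound hC hgr' (fun t => hψ.der z t) t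
  rw [hψ.zero] at h1
  have h2 : ‖ψ t z‖ ≤ R := by
    refine h1.trans ?_
    have h3 : |t| ≤ |T| := by
      rw [abs_le]
      constructor
      · linarith [ht.1, le_abs_self T]
      · linarith [ht.2, le_abs_self T]
    have h4 : ‖z‖ ≤ |r| := hz.trans (le_abs_self r)
    rw [hR]
    gcongr
  have h3 := hψ.der z t
  rw [f1b_chi_one hR0 h2, one_smul] at h3
  exact h3

theorem flow_of_growth {Y : W → W}
    (hloc : ∀ R : ℝ, ∃ K : NNReal, LipschitzOnWith K Y (Metric.closedBall 0 R)) {C : ℝ}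
    (hgr : ∀ z, ‖Y z‖ ≤ C * (1 + ‖z‖)) : ∃ φ : ℝ → W → W, IsFlow Y φ := by
  have hC : 0 < |C| + 1 := by positivity
  have hgr' : ∀ z, ‖Y z‖ ≤ (|C| + 1) * (1 + ‖z‖) := by
    intro z
    refine (hgr z).trans ?_
    have h1 : 0 ≤ 1 + ‖z‖ := by positivity
    exact mul_le_mul_of_nonneg_right (by linarith [le_abs_self C]) h1
  have hU := f1b_unique hloc
  have hG : ∀ z, ∃ γ : ℝ → W, γ 0 = z ∧ ∀ t, HasDerivAt γ (Y (γ t)) t := by
    intro z
    refine f1b_glue hU fun T => ?_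
    obtain ⟨ψ, hψ0, -, hψ⟩ := f1b_cut hloc hC hgr' ‖z‖ T
    exact ⟨fun t => ψ t z, hψ0 z, hψ z le_rfl⟩
  choose γ hγ0 hγ using hG
  have huniq : ∀ α β : ℝ → W, (∀ t, HasDerivAt α (Y (α t)) t) →
      (∀ t, HasDerivAt β (Y (β t)) t) → α 0 = β 0 → α = β := by
    intro α β hα hβ h0
    funext t
    exact hU (|t| + 1) α β (fun t _ => hα t) (fun t _ => hβ t) h0
      ⟨by linarith [neg_abs_le t], by linarith [le_abs_self t]⟩
  refine ⟨fun t z => γ z t, hγ0, fun z t => hγ z t, ?_, ?_⟩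
  · rw [continuous_iff_continuousAt]
    rintro ⟨t₀, z₀⟩
    obtain ⟨ψ, hψ0, hψc, hψ⟩ := f1b_cut hloc hC hgr' (‖z₀‖ + 1) (|t₀| + 1)
    refine (hψc.continuousAt (x := (t₀, z₀))).congr ?_
    have h1 : ∀ᶠ p : ℝ × W in nhds (t₀, z₀), |p.1| < |t₀| + 1 :=
      (continuous_abs.comp continuous_fst).continuousAt.eventually_lt continuousAt_const
        (by simp)
    have h2 : ∀ᶠ p : ℝ × W in nhds (t₀, z₀), ‖p.2‖ < ‖z₀‖ + 1 :=
      (continuous_norm.comp continuous_snd).continuousAt.eventually_lt continuousAt_const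
        (by simp)
    filter_upwards [h1, h2] with p hp1 hp2
    exact hU (|t₀| + 1) (fun s => ψ s p.2) (γ p.2) (hψ p.2 hp2.le) (fun t _ => hγ p.2 t)
      (by rw [hψ0, hγ0]) ⟨by linarith [neg_abs_le p.1], by linarith [le_abs_self p.1]⟩
  · intro α hα s t
    have h1 : ∀ s, HasDerivAt (fun s => α (s + t)) (Y (α (s + t))) s := fun s =>
      (hα (s + t)).comp_add_const s t
    have h2 := huniq (fun s => α (s + t)) (γ (α t)) h1 (hγ _) (by simp [hγ0])
    exact congrFun h2 s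

end Pool.Agent.H33.AM

end

section

/-!
# Module I1: the Euler-Lagrange flow on `𝕋ⁿ × ℝⁿ × 𝕋`

* `exists_ELflow`: with the flow `φ` of `Y = field A A' F D'` (`field_loc`, `field_growth`,
  `flow_of_growth`) put `Φ s (X, v, τ) = (pr (z.1), D' (z.2 - A z.1), τ + s)`,
  `z = φ s (repE X, D v + A (repE X))`. `Y` is periodic in `x`, so the same formula holds for every
  lift `x` of `X` (uniqueness of the flow).
* `exists_ELflow` also gives: every solution `Sol D F A A' γ v` is a trajectory.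
-/

set_option autoImplicit false

open MeasureTheory
open scoped RealInnerProductSpace

namespace Pool.Agent.H33.AM

variable {n : ℕ} {K V : EuclideanSpace ℝ (Fin n) → ℝ}
  {D F A : EuclideanSpace ℝ (Fin n) → EuclideanSpace ℝ (Fin n)}
  {A' : EuclideanSpace ℝ (Fin n) → EuclideanSpace ℝ (Fin n) →L[ℝ] EuclideanSpace ℝ (Fin n)}
  {κ₁ κ₂ B T : ℝ}

private theorem I1c_perA' (hA : HA A A' B) (x : EuclideanSpace ℝ (Fin n)) (k : Fin n → ℤ) :
    A' (x + zv k) = A' x := by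
  have h1 : HasFDerivAt (fun y => A (y + zv k)) (A' (x + zv k)) x := by
    have h2 := (hA.der (x + zv k)).comp x ((hasFDerivAt_id x).add_const (zv k))
    rw [ContinuousLinearMap.comp_id] at h2
    exact h2
  have h3 : (fun y => A (y + zv k)) = A := by
    funext y
    exact hA.per y k
  rw [h3] at h1
  exact h1.unique (hA.der x)

private theorem I1c_perF (hV : HV V F B) (x : EuclideanSpace ℝ (Fin n)) (k : Fin n → ℤ) :
    F (x + zv k) = F x := by
  have h1 : HasFDerivAt (fun y => V (y + zv k))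
      ((InnerProductSpace.toDual ℝ (EuclideanSpace ℝ (Fin n))) (F (x + zv k))) x := by
    have h2 := (hV.der (x + zv k)).hasFDerivAt.comp x ((hasFDerivAt_id x).add_const (zv k))
    rw [ContinuousLinearMap.comp_id] at h2
    exact h2
  have h3 : (fun y => V (y + zv k)) = V := by
    funext y
    exact hV.per y k
  rw [h3] at h1
  have h4 := h1.unique (hV.der x).hasFDerivAt
  exact (InnerProductSpace.toDual ℝ (EuclideanSpace ℝ (Fin n))).injective h4

private theorem I1c_shift (hA : HA A A' B) (hV : HV V F B)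
    {γ v : ℝ → EuclideanSpace ℝ (Fin n)} (h : Sol D F A A' γ v) (k : Fin n → ℤ) :
    Sol D F A A' (fun t => γ t + zv k) v where
  cont := h.cont
  der := fun t => (h.der t).add_const (zv k)
  el := fun t => by
    have h1 := h.el t
    have h2 : (fun s => D (v s) + A (γ s + zv k)) = fun s => D (v s) + A (γ s) := by
      funext s
      rw [hA.per]
    simp only [h2, I1c_perA' hA, I1c_perF hV]
    exact h1

theorem exists_ELflow (hK : HK K D κ₁ κ₂) (hA : HA A A' B) (hV : HV V F B) :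
    ∃ Φ : ℝ → Ph n → Ph n, IsELFlow (fun x v _ => lag K A V x v) Φ ∧ (∀ s, Measurable (Φ s)) ∧
      ∀ (γ v : ℝ → EuclideanSpace ℝ (Fin n)), Sol D F A A' γ v → ∀ s t τ : ℝ,
        Φ s (pr (γ t), v t, (τ : UnitAddCircle)) =
          (pr (γ (t + s)), v (t + s), ((τ + s : ℝ) : UnitAddCircle)) := by
  obtain ⟨D', hD1, hD2, hD⟩ := hK.inv
  obtain ⟨C, hC⟩ := field_growth hK.pos hA hV hD
  obtain ⟨φ, hφ⟩ := flow_of_growth (field_loc hK.pos hA hV hD) hC
  -- continuity
  have hDc : Continuous D := by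
    have : LipschitzWith (Real.toNNReal κ₂) D := by
      apply LipschitzWith.of_dist_le_mul
      intro x y
      rw [dist_eq_norm, dist_eq_norm, Real.coe_toNNReal _ hK.pos₂.le]
      exact hK.lip y x
    exact this.continuous
  have hD'c : Continuous D' := by
    have : LipschitzWith (Real.toNNReal (1 / κ₁)) D' := by
      apply LipschitzWith.of_dist_le_mul
      intro x y
      have h1 := hK.pos
      rw [dist_eq_norm, dist_eq_norm, Real.coe_toNNReal _ (by positivity)]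
      rw [div_mul_eq_mul_div, one_mul, le_div_iff₀ h1, mul_comm]
      exact hD x y
    exact this.continuous
  have hAc : Continuous A := by
    rw [continuous_iff_continuousAt]
    intro x
    exact (hA.der x).continuousAt
  have hφs : ∀ s, Continuous (φ s) := by
    intro s
    have := hφ.cont.comp (Continuous.prodMk (continuous_const (y := s)) continuous_id)
    exact this
  let Ψ : Ph n → EuclideanSpace ℝ (Fin n) × EuclideanSpace ℝ (Fin n) := fun z =>
    (repE z.1, D z.2.1 + A (repE z.1))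
  let Φ : ℝ → Ph n → Ph n := fun s z =>
    (pr (φ s (Ψ z)).1, D' ((φ s (Ψ z)).2 - A (φ s (Ψ z)).1), z.2.2 + ((s : ℝ) : UnitAddCircle))
  have traj : ∀ (γ v : ℝ → EuclideanSpace ℝ (Fin n)), Sol D F A A' γ v → ∀ s t τ : ℝ,
        Φ s (pr (γ t), v t, (τ : UnitAddCircle)) =
          (pr (γ (t + s)), v (t + s), ((τ + s : ℝ) : UnitAddCircle)) := by
    intro γ v h s t τ
    obtain ⟨k, hk⟩ := (pr_eq_iff (repE (pr (γ t))) (γ t)).1 (pr_repE _)
    have h' := I1c_shift hA hV h k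
    have hu := hφ.uniq (fun t => (γ t + zv k, D (v t) + A (γ t + zv k)))
      (fun t => flow_of_Sol hD2 h' t) s t
    have hΨ : Ψ (pr (γ t), v t, (τ : UnitAddCircle)) =
        (γ t + zv k, D (v t) + A (γ t + zv k)) := by
      simp only [Ψ, hk]
    have hpr : pr (γ (s + t) + zv k) = pr (γ (s + t)) := (pr_eq_iff _ _).2 ⟨k, rfl⟩
    simp only [Φ, hΨ]
    rw [← hu]
    simp only [add_sub_cancel_right, hD2, hpr]
    rw [add_comm s t, AddCircle.coe_add]
  refine ⟨Φ, ?_, ?_, traj⟩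
  · intro x v t
    let w : ℝ → EuclideanSpace ℝ (Fin n) × EuclideanSpace ℝ (Fin n) := fun u =>
      φ (u - t) (x, D v + A x)
    have hw : ∀ u, HasDerivAt w (field A A' F D' (w u)) u := by
      intro u
      have h1 := hφ.der (x, D v + A x) (u - t)
      have h2 : HasDerivAt (fun u : ℝ => u - t) 1 u := (hasDerivAt_id u).sub_const t
      have h3 := HasDerivAt.scomp u h1 h2
      rw [one_smul] at h3
      exact h3
    have hsol := Sol_of_flow (D := D) hK.pos hA hD1 hD hw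
    have hder : deriv (fun u => (w u).1) = fun u => D' ((w u).2 - A (w u).1) := by
      funext u
      exact (hsol.der u).deriv
    have hwt : w t = (x, D v + A x) := by
      simp only [w, sub_self]
      exact hφ.zero _
    refine ⟨fun u => (w u).1, ?_, ?_, ?_, ?_⟩
    · rw [isEL_iff hK hA hV, hder]
      exact hsol
    · simp only [hwt]
    · rw [hder]
      simp only [hwt, add_sub_cancel_right, hD2]
    · intro s
      have h1 := traj _ _ hsol s t t
      simp only [hwt, add_sub_cancel_right, hD2] at h1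
      rw [hder]
      exact h1
  · intro s
    have hΨm : Measurable Ψ := by
      apply Measurable.prodMk
      · exact measurable_repE.comp measurable_fst
      · apply Measurable.add
        · exact hDc.measurable.comp (measurable_fst.comp measurable_snd)
        · exact hAc.measurable.comp (measurable_repE.comp measurable_fst)
    have h1 : Measurable fun z => φ s (Ψ z) := (hφs s).measurable.comp hΨm
    apply Measurable.prodMk
    · exact continuous_pr.measurable.comp (measurable_fst.comp h1)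
    · apply Measurable.prodMk
      · apply hD'c.measurable.comp
        apply Measurable.sub
        · exact measurable_snd.comp h1
        · exact hAc.measurable.comp (measurable_fst.comp h1)
      · exact (measurable_snd.comp measurable_snd).add_const _

end Pool.Agent.H33.AM

end

section

/-!
# Module I2: invariant measures

Here `L x v t = lag K A V x v`.
* `mem_actionValues`: `μ` = image of the Haar probability measure of `(ℝ/Tℤ) × (ℝ/ℤ)` under
  `(t, σ) ↦ (pr (γ t), v t, σ)`. It is invariant under the flow `Φ` of `exists_ELflow`: `Φ s` maps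
  `(pr (γ t), v t, σ)` to `(pr (γ (t + s)), v (t + s), σ + s)`. `Lc L c` at `(pr (γ t), v t, σ)` is
  `lag K A V (γ t) (v t) - ⟪c, v t⟫` because of the periodicity of `A`, `V`.
-/

set_option autoImplicit false

open MeasureTheory
open scoped RealInnerProductSpace

namespace Pool.Agent.H33.AM

variable {n : ℕ} {K V : EuclideanSpace ℝ (Fin n) → ℝ}
  {D F A : EuclideanSpace ℝ (Fin n) → EuclideanSpace ℝ (Fin n)}
  {A' : EuclideanSpace ℝ (Fin n) → EuclideanSpace ℝ (Fin n) →L[ℝ] EuclideanSpace ℝ (Fin n)}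
  {κ₁ κ₂ B T : ℝ}

private theorem I2a_lift_continuous {β : Type*} [TopologicalSpace β] {f : ℝ → β} {T : ℝ}
    (h : Function.Periodic f T) (hf : Continuous f) :
    Continuous (h.lift : AddCircle T → β) := by
  rw [(QuotientAddGroup.isQuotientMap_mk (N := AddSubgroup.zmultiples T)).continuous_iff]
  exact hf

theorem mem_actionValues (hK : HK K D κ₁ κ₂) (hA : HA A A' B) (hV : HV V F B) (hT : 0 < T)
    {γ v : ℝ → EuclideanSpace ℝ (Fin n)} (h : Sol D F A A' γ v) {k : Fin n → ℤ}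
    (hγ : ∀ t, γ (t + T) = γ t + zv k) (hv : ∀ t, v (t + T) = v t)
    (c : EuclideanSpace ℝ (Fin n)) :
    (1 / T) * (∫ t in (0 : ℝ)..T, (lag K A V (γ t) (v t) - ⟪c, v t⟫)) ∈
      actionValues (fun x v _ => lag K A V x v) c := by
  haveI : Fact (0 < T) := ⟨hT⟩
  obtain ⟨Φ, hΦ, hΦm, hΦt⟩ := exists_ELflow hK hA hV
  -- continuity
  have hKc : Continuous K := by
    rw [continuous_iff_continuousAt]
    intro x
    exact (hK.grad x).hasFDerivAt.continuousAt
  have hVc : Continuous V := by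
    rw [continuous_iff_continuousAt]
    intro x
    exact (hV.der x).hasFDerivAt.continuousAt
  have hAc : Continuous A := by
    rw [continuous_iff_continuousAt]
    intro x
    exact (hA.der x).continuousAt
  have hγc : Continuous γ := by
    rw [continuous_iff_continuousAt]
    intro t
    exact (h.der t).continuousAt
  -- the maps on the circle
  have p1 : Function.Periodic (fun t => pr (γ t)) T := by
    intro t
    simp only [hγ]
    exact (pr_eq_iff _ _).2 ⟨k, rfl⟩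
  have p2 : Function.Periodic v T := hv
  have p3 : Function.Periodic (fun t => lag K A V (γ t) (v t) - ⟪c, v t⟫) T := by
    intro t
    simp only [lag, hγ, hv, hA.per, hV.per]
  have c1 : Continuous (p1.lift : AddCircle T → Tor n) :=
    I2a_lift_continuous p1 (continuous_pr.comp hγc)
  have c2 : Continuous (p2.lift : AddCircle T → EuclideanSpace ℝ (Fin n)) :=
    I2a_lift_continuous p2 h.cont
  have c3 : Continuous (p3.lift : AddCircle T → ℝ) := by
    apply I2a_lift_continuous p3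
    unfold lag
    apply Continuous.sub
    · apply Continuous.sub
      · apply Continuous.add (hKc.comp h.cont)
        exact Continuous.inner (hAc.comp hγc) h.cont
      · exact hVc.comp hγc
    · exact Continuous.inner continuous_const h.cont
  let M : AddCircle T × UnitAddCircle → Ph n := fun z => (p1.lift z.1, p2.lift z.1, z.2)
  have hMc : Continuous M :=
    (c1.comp continuous_fst).prodMk ((c2.comp continuous_fst).prodMk continuous_snd)
  have hMm : Measurable M := hMc.measurable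
  let ν : Measure (AddCircle T × UnitAddCircle) :=
    (AddCircle.haarAddCircle (T := T)).prod (AddCircle.haarAddCircle (T := (1 : ℝ)))
  have hν : IsProbabilityMeasure ν := inferInstance
  -- the translation by `s`
  have htr : ∀ s : ℝ, MeasurePreserving
      (Prod.map (fun a : AddCircle T => a + (s : AddCircle T))
        (fun b : UnitAddCircle => b + (s : UnitAddCircle))) ν ν := by
    intro s
    exact (measurePreserving_add_right _ _).prod (measurePreserving_add_right _ _)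
  have hcomm : ∀ s : ℝ, Φ s ∘ M = M ∘ (Prod.map (fun a : AddCircle T => a + (s : AddCircle T))
        (fun b : UnitAddCircle => b + (s : UnitAddCircle))) := by
    intro s
    funext ⟨θ, σ⟩
    induction θ using QuotientAddGroup.induction_on with
    | H t =>
      induction σ using QuotientAddGroup.induction_on with
      | H τ =>
        have h1 := hΦt γ v h s t τ
        simp only [Function.comp, M, Prod.map]
        have e1 : p1.lift ((t : ℝ) : AddCircle T) = pr (γ t) := p1.lift_coe t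
        have e2 : p2.lift ((t : ℝ) : AddCircle T) = v t := p2.lift_coe t
        have e3 : p1.lift ((t : ℝ) + (s : ℝ) : AddCircle T) = pr (γ (t + s)) := by
          rw [← AddCircle.coe_add]
          exact p1.lift_coe (t + s)
        have e4 : p2.lift ((t : ℝ) + (s : ℝ) : AddCircle T) = v (t + s) := by
          rw [← AddCircle.coe_add]
          exact p2.lift_coe (t + s)
        have e5 : ((τ : ℝ) : UnitAddCircle) + (s : UnitAddCircle) =
            ((τ + s : ℝ) : UnitAddCircle) := by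
          rw [AddCircle.coe_add]
        refine Eq.trans ?_ (h1.trans ?_)
        · exact congrArg (Φ s) (Prod.ext e1 (Prod.ext e2 rfl))
        · exact (Prod.ext e3 (Prod.ext e4 e5)).symm
  let μ : Measure (Ph n) := ν.map M
  have hμ : IsProbabilityMeasure μ := Measure.isProbabilityMeasure_map hMm.aemeasurable
  have hinv : ∀ s, MeasurePreserving (Φ s) μ μ := by
    intro s
    refine ⟨hΦm s, ?_⟩
    have e1 : Measure.map (Φ s) μ = Measure.map (Φ s ∘ M) ν :=
      Measure.map_map (hΦm s) hMm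
    rw [e1, hcomm s, ← Measure.map_map hMm (htr s).measurable, (htr s).map_eq]
  -- the function
  have hLm : Measurable (Lc (fun x v _ => lag K A V x v) c) := by
    unfold Lc lag
    have r1 : Measurable fun z : Ph n => repE z.1 := measurable_repE.comp measurable_fst
    have r2 : Measurable fun z : Ph n => z.2.1 := measurable_fst.comp measurable_snd
    apply Measurable.sub
    · apply Measurable.sub
      · apply Measurable.add (hKc.measurable.comp r2)
        exact (hAc.measurable.comp r1).inner r2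
      · exact hVc.measurable.comp r1
    · exact measurable_const.inner r2
  have hLM : ∀ z, Lc (fun x v _ => lag K A V x v) c (M z) = p3.lift z.1 := by
    rintro ⟨θ, σ⟩
    induction θ using QuotientAddGroup.induction_on with
    | H t =>
      have e1 : p1.lift ((t : ℝ) : AddCircle T) = pr (γ t) := p1.lift_coe t
      have e2 : p2.lift ((t : ℝ) : AddCircle T) = v t := p2.lift_coe t
      have e3 : p3.lift ((t : ℝ) : AddCircle T) = lag K A V (γ t) (v t) - ⟪c, v t⟫ :=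
        p3.lift_coe t
      obtain ⟨l, hl⟩ := (pr_eq_iff (repE (pr (γ t))) (γ t)).1 (pr_repE _)
      refine Eq.trans ?_ e3.symm
      simp only [Lc, M]
      refine Eq.trans (b := lag K A V (repE (pr (γ t))) (v t) - ⟪c, v t⟫) ?_ ?_
      · exact congrArg₂ (fun a b => lag K A V (repE a) b - ⟪c, b⟫) e1 e2
      · rw [hl]
        simp only [lag, hA.per, hV.per]
  have hint3 : Integrable (p3.lift : AddCircle T → ℝ) (AddCircle.haarAddCircle (T := T)) :=
    c3.integrable_of_hasCompactSupport (HasCompactSupport.of_compactSpace _)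
  have hLi : Integrable (Lc (fun x v _ => lag K A V x v) c) μ := by
    rw [integrable_map_measure hLm.aestronglyMeasurable hMm.aemeasurable]
    have e1 : (Lc (fun x v _ => lag K A V x v) c) ∘ M = fun z => p3.lift z.1 := by
      funext z
      exact hLM z
    rw [e1]
    exact hint3.comp_fst _
  refine ⟨Φ, hΦ, μ, hμ, hinv, hLi, ?_⟩
  rw [integral_map hMm.aemeasurable hLm.aestronglyMeasurable]
  simp only [hLM]
  have e1 : ∫ z, p3.lift z.1 ∂ν = ∫ θ, p3.lift θ ∂(AddCircle.haarAddCircle (T := T)) := by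
    have := integral_fun_fst (μ := AddCircle.haarAddCircle (T := T))
      (ν := AddCircle.haarAddCircle (T := (1 : ℝ))) (f := (p3.lift : AddCircle T → ℝ))
    simpa using this
  rw [e1]
  have e2 := AddCircle.intervalIntegral_preimage T 0 (p3.lift : AddCircle T → ℝ)
  have e3 : ∫ a in (0 : ℝ)..0 + T, p3.lift ((a : ℝ) : AddCircle T) =
      ∫ t in (0 : ℝ)..T, (lag K A V (γ t) (v t) - ⟪c, v t⟫) := by
    rw [zero_add]
    rfl
  rw [← e3, e2, AddCircle.volume_eq_smul_haarAddCircle, integral_smul_measure,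
    ENNReal.toReal_ofReal hT.le, smul_eq_mul, ← mul_assoc, one_div, inv_mul_cancel₀ hT.ne',
    one_mul]

end Pool.Agent.H33.AM

end

section

/-!
# Module I2: invariant measures

Here `L x v t = lag K A V x v`.
* `mem_actionValues`: `μ` = image of the uniform probability measure of `(t, σ) ∈ [0, T] × [0, 1]` under
  `(t, σ) ↦ (pr (γ t), v t, σ)` (continuous; `(pr (γ t), v t)` is `T`-periodic). It is invariant
  under the flow `Φ` of `exists_ELflow`: `Φ s` maps `(pr (γ t), v t, σ)` to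
  `(pr (γ (t + s)), v (t + s), σ + s)`; the translation `t ↦ t + s` preserves the uniform measure of
  `ℝ/T ℤ`, and `σ ↦ σ + s` the one of `ℝ/ℤ` (`Function.Periodic.intervalIntegral_add_eq`, or use
  `AddCircle T` with its Haar measure). `Lc L c` at `(pr (γ t), v t, σ)` is
  `lag K A V (γ t) (v t) - ⟪c, v t⟫` because of the periodicity of `A`, `V`; it is bounded on the orbit.
* `actionValues_ge`: let `μ` be invariant under `Φ`, `IsELFlow L Φ`. For every phase point `z` the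
  function `s ↦ Lc L c (Φ s z)` is `lag K A V (γ s) (γ' s) - ⟪c, γ' s⟫` for a solution `γ` (`isEL_iff`), it is
  continuous, and its integral over `[0, T]` is at least `-C - E₀ T` (`(γ, γ')`, with `γ'` cut off
  outside `[0, T]`, is `Adm`). By `MeasurePreserving`, `∫ Lc ∘ Φ s dμ = ∫ Lc dμ` for every `s`; joint
  measurability of `(s, z) ↦ Lc L c (Φ s z)`: `measurable_uncurry_of_continuous_of_measurable`
  (`Lc L c` is measurable: `lag` is continuous, `repE` is measurable); Fubini on `[0, T] × μ` gives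
  `T ∫ Lc dμ ≥ -C - E₀ T`; let `T → ∞`.
-/

set_option autoImplicit false

open MeasureTheory
open scoped RealInnerProductSpace

namespace Pool.Agent.H33.AM

variable {n : ℕ} {K V : EuclideanSpace ℝ (Fin n) → ℝ}
  {D F A : EuclideanSpace ℝ (Fin n) → EuclideanSpace ℝ (Fin n)}
  {A' : EuclideanSpace ℝ (Fin n) → EuclideanSpace ℝ (Fin n) →L[ℝ] EuclideanSpace ℝ (Fin n)}
  {κ₁ κ₂ B T : ℝ}

private theorem I2b_contK (hK : HK K D κ₁ κ₂) : Continuous K := by
  refine continuous_iff_continuousAt.2 fun v => ?_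
  exact (hK.grad v).continuousAt

private theorem I2b_lag_cont (hK : HK K D κ₁ κ₂) (hA : HA A A' B) (hV : HV V F B) :
    Continuous fun p : EuclideanSpace ℝ (Fin n) × EuclideanSpace ℝ (Fin n) =>
      lag K A V p.1 p.2 := by
  have h1 : Continuous K := I2b_contK hK
  have h2 : Continuous A := continuous_iff_continuousAt.2 fun x => (hA.der x).continuousAt
  have h3 : Continuous V := continuous_iff_continuousAt.2 fun x => (hV.der x).continuousAt
  unfold lag
  exact ((h1.comp continuous_snd).add ((h2.comp continuous_fst).inner continuous_snd)).sub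
    (h3.comp continuous_fst)

private theorem I2b_lag_per (hA : HA A A' B) (hV : HV V F B)
    (x v : EuclideanSpace ℝ (Fin n)) : lag K A V (repE (pr x)) v = lag K A V x v := by
  have h : pr (repE (pr x)) = pr x := pr_repE _
  obtain ⟨k, hk⟩ := (pr_eq_iff _ _).1 h
  rw [hk]
  unfold lag
  rw [hA.per, hV.per]

private theorem I2b_meas_Lc (hK : HK K D κ₁ κ₂) (hA : HA A A' B) (hV : HV V F B)
    (c : EuclideanSpace ℝ (Fin n)) :
    Measurable (Lc (fun x v _ => lag K A V x v) c) := by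
  have h1 : Measurable fun z : Ph n => (repE z.1, z.2.1) :=
    (measurable_repE.comp measurable_fst).prodMk (measurable_fst.comp measurable_snd)
  have h2 : Measurable fun z : Ph n => lag K A V (repE z.1) z.2.1 :=
    (I2b_lag_cont hK hA hV).measurable.comp h1
  have h3 : Measurable fun z : Ph n => ⟪c, z.2.1⟫ := by
    have : Continuous fun v : EuclideanSpace ℝ (Fin n) => (⟪c, v⟫ : ℝ) :=
      continuous_const.inner continuous_id
    exact this.measurable.comp (measurable_fst.comp measurable_snd)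
  exact h2.sub h3

/-- Along the orbits. -/
private theorem I2b_orbit (hK : HK K D κ₁ κ₂) (hA : HA A A' B) (hV : HV V F B)
    {c : EuclideanSpace ℝ (Fin n)} {Φ : ℝ → Ph n → Ph n}
    (hΦ : IsELFlow (fun x v _ => lag K A V x v) Φ) (z : Ph n) :
    ∃ γ v : ℝ → EuclideanSpace ℝ (Fin n), Continuous v ∧ (∀ t, HasDerivAt γ (v t) t) ∧
      ∀ s, Lc (fun x v _ => lag K A V x v) c (Φ s z) = lag K A V (γ s) (v s) - ⟪c, v s⟫ := by
  obtain ⟨X, v₀, τ⟩ := z
  obtain ⟨γ, hEL, h0, h1, h2⟩ := hΦ (repE X) v₀ (rep τ)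
  have hS : Sol D F A A' γ (deriv γ) := (isEL_iff hK hA hV γ).1 hEL
  refine ⟨fun s => γ (rep τ + s), fun s => deriv γ (rep τ + s), ?_, ?_, ?_⟩
  · exact hS.cont.comp (continuous_const.add continuous_id)
  · intro t
    have := (hS.der (rep τ + t)).comp_const_add (rep τ) t
    exact this
  · intro s
    have h3 := h2 s
    rw [pr_repE, rep_coe] at h3
    rw [h3]
    unfold Lc
    simp only
    rw [I2b_lag_per hA hV]

theorem actionValues_ge (hK : HK K D κ₁ κ₂) (hA : HA A A' B) (hV : HV V F B)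
    {c : EuclideanSpace ℝ (Fin n)} {E₀ C : ℝ}
    (h : ∀ (T : ℝ) (x u : ℝ → EuclideanSpace ℝ (Fin n)), Adm 0 T x u →
      -C ≤ ∫ t in (0 : ℝ)..T, (lag K A V (x t) (u t) - ⟪c, u t⟫ + E₀))
    {a : ℝ} (ha : a ∈ actionValues (fun x v _ => lag K A V x v) c) : -E₀ ≤ a := by
  obtain ⟨Φ, hΦ, μ, hμ, hinv, hint, rfl⟩ := ha
  set g : Ph n → ℝ := Lc (fun x v _ => lag K A V x v) c with hg
  have hgm : Measurable g := I2b_meas_Lc hK hA hV c
  have hcont : ∀ z : Ph n, Continuous fun s => g (Φ s z) := by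
    intro z
    obtain ⟨γ, v, h1, h2, h3⟩ := I2b_orbit (c := c) hK hA hV hΦ z
    have h4 : (fun s => g (Φ s z)) = fun s => lag K A V (γ s) (v s) - ⟪c, v s⟫ := by
      funext s
      exact h3 s
    rw [h4]
    have h5 : Continuous γ := continuous_iff_continuousAt.2 fun t => (h2 t).continuousAt
    exact ((I2b_lag_cont hK hA hV).comp (h5.prodMk h1)).sub (continuous_const.inner h1)
  have hmeas : ∀ s, Measurable fun z => g (Φ s z) := fun s => hgm.comp (hinv s).measurable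
  have hjoint : Measurable (Function.uncurry fun (s : ℝ) (z : Ph n) => g (Φ s z)) :=
    measurable_uncurry_of_continuous_of_measurable hcont hmeas
  have hint' : ∀ s, Integrable (fun z => g (Φ s z)) μ := fun s =>
    (hinv s).integrable_comp_of_integrable hint
  have hval : ∀ s, ∫ z, g (Φ s z) ∂μ = ∫ z, g z ∂μ := by
    intro s
    have h1 := integral_map (μ := μ) (φ := Φ s) (hinv s).measurable.aemeasurable
      (f := g) (hgm.aestronglyMeasurable)
    rw [← h1, (hinv s).map_eq]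
  have hvaln : ∀ s, ∫ z, ‖g (Φ s z)‖ ∂μ = ∫ z, ‖g z‖ ∂μ := by
    intro s
    have h1 := integral_map (μ := μ) (φ := Φ s) (hinv s).measurable.aemeasurable
      (f := fun z => ‖g z‖) (hgm.norm.aestronglyMeasurable)
    rw [← h1, (hinv s).map_eq]
  -- the lower bound along the orbits
  have hlow : ∀ (T : ℝ), 0 < T → ∀ z : Ph n, -C - E₀ * T ≤ ∫ s in (0 : ℝ)..T, g (Φ s z) := by
    intro T hT z
    obtain ⟨γ, v, h1, h2, h3⟩ := I2b_orbit (c := c) hK hA hV hΦ z
    obtain ⟨R, hR⟩ := (isCompact_Icc (a := (0 : ℝ)) (b := T)).exists_bound_of_continuousOn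
      (h1.continuousOn (s := Set.Icc (0 : ℝ) T))
    have hadm : Adm 0 T γ ((Set.Icc (0 : ℝ) T).indicator v) := by
      refine ⟨hT.le, ?_, ⟨∅, Set.countable_empty, ?_⟩, ?_, ⟨max R 0, ?_⟩⟩
      · exact (continuous_iff_continuousAt.2 fun t => (h2 t).continuousAt).continuousOn
      · intro t ht
        have ht' : t ∈ Set.Icc (0 : ℝ) T := Set.Ioo_subset_Icc_self ht.1
        rw [Set.indicator_of_mem ht']
        exact h2 t
      · exact h1.measurable.indicator measurableSet_Icc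
      · intro t
        by_cases ht : t ∈ Set.Icc (0 : ℝ) T
        · rw [Set.indicator_of_mem ht]
          exact (hR t ht).trans (le_max_left _ _)
        · rw [Set.indicator_of_notMem ht, norm_zero]
          exact le_max_right _ _
    have h4 := h T γ _ hadm
    have h5 : (∫ t in (0 : ℝ)..T, (lag K A V (γ t) ((Set.Icc (0 : ℝ) T).indicator v t)
        - ⟪c, (Set.Icc (0 : ℝ) T).indicator v t⟫ + E₀)) = ∫ s in (0 : ℝ)..T, (g (Φ s z) + E₀) := by
      refine intervalIntegral.integral_congr fun t ht => ?_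
      rw [Set.uIcc_of_le hT.le] at ht
      rw [Set.indicator_of_mem ht]
      have := h3 t
      rw [hg, this]
    rw [h5, intervalIntegral.integral_add ((hcont z).intervalIntegrable _ _)
      intervalIntegrable_const, intervalIntegral.integral_const, smul_eq_mul] at h4
    linarith [mul_comm E₀ T, h4]
  -- Fubini
  have hfub : ∀ (T : ℝ), 0 < T → -C - E₀ * T ≤ T * ∫ z, g z ∂μ := by
    intro T hT
    set ν : Measure ℝ := volume.restrict (Set.Ioc (0 : ℝ) T) with hν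
    have hfin : IsFiniteMeasure ν := by
      rw [hν]
      infer_instance
    have hprod : Integrable (Function.uncurry fun (s : ℝ) (z : Ph n) => g (Φ s z)) (ν.prod μ) := by
      rw [integrable_prod_iff hjoint.aestronglyMeasurable]
      refine ⟨Filter.Eventually.of_forall fun s => hint' s, ?_⟩
      have : (fun s : ℝ => ∫ z, ‖Function.uncurry (fun (s : ℝ) (z : Ph n) => g (Φ s z)) (s, z)‖ ∂μ)
          = fun _ => ∫ z, ‖g z‖ ∂μ := by
        funext s
        exact hvaln s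
      rw [this]
      exact integrable_const _
    have hsw := integral_integral_swap hprod
    have hl : ∫ s, ∫ z, g (Φ s z) ∂μ ∂ν = T * ∫ z, g z ∂μ := by
      have : (fun s : ℝ => ∫ z, g (Φ s z) ∂μ) = fun _ => ∫ z, g z ∂μ := by
        funext s
        exact hval s
      rw [this, integral_const, smul_eq_mul, hν, measureReal_restrict_apply_univ]
      simp [Real.volume_real_Ioc_of_le hT.le]
    rw [← hl, hsw]
    have hr : Integrable (fun z => ∫ s, g (Φ s z) ∂ν) μ := hprod.integral_prod_right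
    have hc : ∫ _z : Ph n, (-C - E₀ * T) ∂μ = -C - E₀ * T := by
      simp
    rw [← hc]
    refine integral_mono (integrable_const _) hr fun z => ?_
    simp only
    have := hlow T hT z
    rw [intervalIntegral.integral_of_le hT.le] at this
    exact this
  -- the limit
  by_contra hcon
  rw [not_le] at hcon
  set a := ∫ z, g z ∂μ with ha
  have hδ : 0 < -E₀ - a := by linarith
  have hT : 0 < (|C| + 1) / (-E₀ - a) := by positivity
  have h1 := hfub _ hT
  have h2 : (-E₀ - a) * ((|C| + 1) / (-E₀ - a)) = |C| + 1 := by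
    field_simp
  have h3 : C ≤ |C| := le_abs_self C
  nlinarith [h1, h2, h3]

end Pool.Agent.H33.AM

end

section

/-!
# Module C1: the integrable case `A = a₀ + ∇f`, `V = V₀`

Here `L x v t = K v + ⟪a₀ + ∇f(x), v⟫ - V₀`. For `c` let `vc = D' (c - a₀)`, i.e. `D vc = c - a₀`, and
`α = ⟪c - a₀, vc⟫ - K vc + V₀`; `L - ⟪c, v⟫ + α = (K v - K vc - ⟪D vc, v - vc⟫) + ⟪∇f(x), v⟫`.
* `alpha_int`: `actionValues L c ≥ -α` by `actionValues_ge`, since on curves the integral is at least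
  `f(x(T)) - f(x(0)) ≥ -2 C` (`Adm.integral_grad`). Conversely, for `j ≥ 1` let `k` be an integer vector
  with `‖zv k - j vc‖ ≤ √n`; the straight line `γ(t) = t v`, `v = zv k/j`, is a solution (`Sol`: `D v + A(γ)`
  has the derivative `A'(γ) v = adjoint (A'(γ)) v` because `A'` is symmetric, `F = 0`), and has the
  period `j`; its value is at most `-α + κ₂/2 ‖v - vc‖² ≤ -α + κ₂ n/(2 j²)` (the integral of `⟪∇f, v⟫` over the
  period vanishes), `mem_actionValues`.
* `peierls_int`: for a curve as in `curveActions` from `x` to `x`: the action is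
  `∫ (K γ' - K vc - ⟪D vc, γ' - vc⟫) + f(γ(k)) - f(γ(0)) ≥ 0` (`f ∘ γ` is absolutely continuous since `f`
  is Lipschitz; see `AbsolutelyContinuousOnInterval`, its fundamental theorem of calculus and
  a.e. differentiability; `f(γ(k)) = f(γ(0))` since `pr (γ k) = pr (γ 0)`). The line from `x` to `x + zv k'`,
  `‖zv k' - k vc‖ ≤ √n`, has the action at most `k κ₂/2 (√n/k)² = κ₂ n/(2 k)`. So
  `0 ≤ sInf (curveActions L c k x x) ≤ κ₂ n/(2 k) → 0`.
-/

set_option autoImplicit false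

open MeasureTheory
open scoped RealInnerProductSpace

namespace Pool.Agent.H33.AM

variable {n : ℕ} {K V f : EuclideanSpace ℝ (Fin n) → ℝ}
  {D F A : EuclideanSpace ℝ (Fin n) → EuclideanSpace ℝ (Fin n)}
  {A' : EuclideanSpace ℝ (Fin n) → EuclideanSpace ℝ (Fin n) →L[ℝ] EuclideanSpace ℝ (Fin n)}
  {κ₁ κ₂ B C V₀ : ℝ} {a₀ : EuclideanSpace ℝ (Fin n)}

private theorem c1a_F_zero (hV : HV V F B) (hV₀ : ∀ x, V x = V₀) (x : EuclideanSpace ℝ (Fin n)) :
    F x = 0 := by
  have h1 : HasGradientAt V 0 x := by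
    have : V = fun _ => V₀ := funext hV₀
    rw [this]
    exact hasGradientAt_const x V₀
  exact (hV.der x).unique h1

private theorem c1a_adj (hs : ∀ x v w, ⟪A' x v, w⟫ = ⟪A' x w, v⟫)
    (x v : EuclideanSpace ℝ (Fin n)) : ContinuousLinearMap.adjoint (A' x) v = A' x v := by
  apply ext_inner_right ℝ
  intro w
  rw [ContinuousLinearMap.adjoint_inner_left, hs x v w, real_inner_comm]

private theorem c1a_approx (vc : EuclideanSpace ℝ (Fin n)) (j : ℕ) :
    ∃ k : Fin n → ℤ, ‖zv k - (j : ℝ) • vc‖ ^ 2 ≤ n := by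
  refine ⟨fun i => ⌊(j : ℝ) * vc i⌋, ?_⟩
  rw [EuclideanSpace.norm_sq_eq]
  calc ∑ i, ‖(zv (fun i => ⌊(j : ℝ) * vc i⌋) - (j : ℝ) • vc) i‖ ^ 2 ≤ ∑ _i : Fin n, (1 : ℝ) := by
        apply Finset.sum_le_sum
        intro i _
        have h1 : (zv (fun i => ⌊(j : ℝ) * vc i⌋) - (j : ℝ) • vc) i =
            (⌊(j : ℝ) * vc i⌋ : ℝ) - (j : ℝ) * vc i := by
          simp [zv]
        rw [h1, Real.norm_eq_abs, sq_abs]
        have h2 := Int.floor_le ((j : ℝ) * vc i)
        have h3 := Int.lt_floor_add_one ((j : ℝ) * vc i)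
        nlinarith
    _ = n := by simp

private theorem c1a_cont (hK : HK K D κ₁ κ₂) (hA : HA A A' B) (hV : HV V F B)
    (c : EuclideanSpace ℝ (Fin n)) (e : ℝ) :
    Continuous fun p : EuclideanSpace ℝ (Fin n) × EuclideanSpace ℝ (Fin n) =>
      lag K A V p.1 p.2 - ⟪c, p.2⟫ + e := by
  have cK : Continuous K :=
    continuous_iff_continuousAt.2 fun x => (hK.grad x).continuousAt
  have cV : Continuous V :=
    continuous_iff_continuousAt.2 fun x => (hV.der x).continuousAt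
  have cA : Continuous A :=
    continuous_iff_continuousAt.2 fun x => (hA.der x).continuousAt
  unfold lag
  exact ((((cK.comp continuous_snd).add ((cA.comp continuous_fst).inner continuous_snd)).sub
    (cV.comp continuous_fst)).sub (continuous_const.inner continuous_snd)).add continuous_const

theorem alpha_int (hK : HK K D κ₁ κ₂) (hA : HA A A' B) (hV : HV V F B)
    (hs : ∀ x v w, ⟪A' x v, w⟫ = ⟪A' x w, v⟫) (hf : ∀ x, HasGradientAt f (A x - a₀) x)
    (hfper : ∀ x (k : Fin n → ℤ), f (x + zv k) = f x) (hfb : ∀ x, |f x| ≤ C)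
    (hV₀ : ∀ x, V x = V₀) {c vc : EuclideanSpace ℝ (Fin n)} (hvc : D vc = c - a₀) :
    alpha (fun x v _ => lag K A V x v) c = ⟪c - a₀, vc⟫ - K vc + V₀ := by
  have cA : Continuous A :=
    continuous_iff_continuousAt.2 fun x => (hA.der x).continuousAt
  have cG : Continuous fun p : EuclideanSpace ℝ (Fin n) × EuclideanSpace ℝ (Fin n) =>
      (⟪A p.1 - a₀, p.2⟫ : ℝ) :=
    ((cA.comp continuous_fst).sub continuous_const).inner continuous_snd
  set α : ℝ := ⟪c - a₀, vc⟫ - K vc + V₀ with hα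
  set S := actionValues (fun x v _ => lag K A V x v) c with hS
  have low : ∀ a ∈ S, -α ≤ a := by
    intro a ha
    refine actionValues_ge hK hA hV (E₀ := α) (C := 2 * C) ?_ ha
    intro T x u hx
    have h1 : ∫ t in (0 : ℝ)..T, ⟪A (x t) - a₀, u t⟫ = f (x T) - f (x 0) :=
      hx.integral_grad (g := f) (G := fun x => A x - a₀) hf (cA.sub continuous_const)
    have h2 : (∫ t in (0 : ℝ)..T, (⟪A (x t) - a₀, u t⟫ : ℝ)) ≤
        ∫ t in (0 : ℝ)..T, (lag K A V (x t) (u t) - ⟪c, u t⟫ + α) := by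
      apply intervalIntegral.integral_mono_on hx.le (hx.integrable cG)
        (hx.integrable (c1a_cont hK hA hV c α))
      intro t _
      have h3 := hK.lo vc (u t)
      have h4 : 0 ≤ κ₁ / 2 * ‖u t - vc‖ ^ 2 := by
        have := hK.pos
        positivity
      rw [hvc] at h3
      simp only [lag, hV₀, hα]
      simp only [inner_sub_left, inner_sub_right] at h3 ⊢
      linarith
    rw [h1] at h2
    have f1 := abs_le.1 (hfb (x T))
    have f2 := abs_le.1 (hfb (x 0))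
    linarith [f1.1, f2.2]
  have up : ∀ j : ℕ, 0 < j → ∃ a ∈ S, a ≤ -α + κ₂ / 2 * (n / (j : ℝ) ^ 2) := by
    intro j hj
    have hj' : (0 : ℝ) < j := Nat.cast_pos.2 hj
    obtain ⟨k, hk⟩ := c1a_approx vc j
    set v : EuclideanSpace ℝ (Fin n) := (1 / (j : ℝ)) • zv k with hv
    have hjv : (j : ℝ) • v = zv k := by
      rw [hv, smul_smul, mul_one_div_cancel hj'.ne', one_smul]
    have hsol : Sol D F A A' (fun t => t • v) fun _ => v := by
      refine ⟨continuous_const, ?_, ?_⟩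
      · intro t
        simpa using (hasDerivAt_id t).smul_const v
      · intro t
        have h1 : HasDerivAt (fun s : ℝ => s • v) v t := by
          simpa using (hasDerivAt_id t).smul_const v
        have h2 : HasDerivAt (fun s : ℝ => A (s • v)) (A' (t • v) v) t :=
          (hA.der (t • v)).comp_hasDerivAt t h1
        have h3 := h2.const_add (D v)
        rw [c1a_F_zero hV hV₀, sub_zero, c1a_adj hs]
        exact h3
    have hmem := mem_actionValues hK hA hV hj' hsol (k := k)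
      (by
        intro t
        show (t + j) • v = t • v + zv k
        rw [add_smul, hjv]) (fun _ => rfl) c
    refine ⟨_, hmem, ?_⟩
    have hadm : Adm 0 (j : ℝ) (fun t => t • v) fun _ => v := by
      have := Adm.line hj'.le (0 : EuclideanSpace ℝ (Fin n)) v
      simpa using this
    have h1 : ∫ t in (0 : ℝ)..j, ⟪A (t • v) - a₀, v⟫ = 0 := by
      have := hadm.integral_grad (g := f) (G := fun x => A x - a₀) hf (cA.sub continuous_const)
      rw [this]
      simp only [zero_smul]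
      rw [hjv]
      have := hfper 0 k
      rw [zero_add] at this
      rw [this, sub_self]
    have h2 : (∫ t in (0 : ℝ)..j, (lag K A V (t • v) v - ⟪c, v⟫)) =
        j * (K v - V₀ - ⟪c - a₀, v⟫) := by
      have e1 : ∀ t : ℝ, lag K A V (t • v) v - ⟪c, v⟫ =
          (K v - V₀ - ⟪c - a₀, v⟫) + ⟪A (t • v) - a₀, v⟫ := by
        intro t
        simp only [lag, hV₀, inner_sub_left]
        ring
      simp only [e1]
      rw [intervalIntegral.integral_add intervalIntegrable_const (hadm.integrable cG), h1,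
        intervalIntegral.integral_const]
      simp
    rw [h2]
    have h3 := hK.hi vc v
    rw [hvc] at h3
    have h4 : ‖v - vc‖ ^ 2 ≤ n / (j : ℝ) ^ 2 := by
      have e1 : zv k - (j : ℝ) • vc = (j : ℝ) • (v - vc) := by
        rw [smul_sub, hjv]
      rw [e1, norm_smul, Real.norm_of_nonneg hj'.le, mul_pow] at hk
      rw [le_div_iff₀ (by positivity)]
      linarith
    have h5 : κ₂ / 2 * ‖v - vc‖ ^ 2 ≤ κ₂ / 2 * (n / (j : ℝ) ^ 2) :=
      mul_le_mul_of_nonneg_left h4 (by linarith [hK.pos₂])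
    have h6 : 1 / (j : ℝ) * (j * (K v - V₀ - ⟪c - a₀, v⟫)) = K v - V₀ - ⟪c - a₀, v⟫ := by
      field_simp
    rw [h6, hα]
    simp only [inner_sub_left, inner_sub_right] at h3 ⊢
    linarith
  have bdd : BddBelow S := ⟨-α, low⟩
  have ne : S.Nonempty := by
    obtain ⟨a, ha, _⟩ := up 1 one_pos
    exact ⟨a, ha⟩
  have h1 : -α ≤ sInf S := le_csInf ne low
  have h2 : sInf S ≤ -α := by
    apply le_of_forall_pos_le_add
    intro ε hε
    obtain ⟨j, hj⟩ := exists_nat_gt (κ₂ / 2 * n / ε)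
    have hj0 : (0 : ℝ) < (j : ℝ) + 1 := by positivity
    obtain ⟨a, ha, ha'⟩ := up (j + 1) (Nat.succ_pos j)
    refine le_trans (csInf_le bdd ha) (le_trans ha' ?_)
    have h3 : κ₂ / 2 * (n / ((j + 1 : ℕ) : ℝ) ^ 2) ≤ ε := by
      push_cast
      rw [← mul_div_assoc, div_le_iff₀ (by positivity)]
      rw [div_lt_iff₀ hε] at hj
      have h4 : (j : ℝ) ≤ ((j : ℝ) + 1) ^ 2 := by nlinarith [Nat.cast_nonneg (α := ℝ) j]
      nlinarith [mul_le_mul_of_nonneg_left h4 hε.le]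
    linarith
  have h3 : sInf S = -α := le_antisymm h2 h1
  show -sInf S = α
  rw [h3, neg_neg]

end Pool.Agent.H33.AM

end

section

/-!
# Module V6: trapping data for `ℓ(x, v) = K v - K q - ⟪D q, v - q⟫ + A(x) · v - V(x)`, `q = s P`

* `Trap.mono`: larger errors are worse (`b - a ≥ 0`, the integral of a norm is nonnegative).
* `HL_ell`: `K` is continuous (`HK.grad`), `A`, `V` are continuous.
* `trap_potential` (`A = 0`): `κ₁/2 ‖ũ‖² ≤ K u - K q - ⟪D q, u - q⟫ ≤ κ₂/2 ‖ũ‖²`, and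
  `|∫ V(x) - ∫ w(θ)| ≤ |∫ V - ∫ avP V P| + δ (b - a) ≤ (2 B + B ∫ ‖ũ‖)/s + δ (b - a)` by `avP_trap`.
  Maximum: `w` is continuous and 1-periodic, so it attains its maximum; the theorem gives `M`.
* `trap_magnetic`: `⟪A x, u⟫ = s ⟪A x, zv P⟫ + ⟪A x, ũ⟫`, `|⟪A x, ũ⟫| ≤ B ‖ũ‖`, `|V| ≤ B`, and
  `avP_trap` for `g = ⟪A, zv P⟫`, `G x = adjoint (A' x) (zv P)`, with the constant `B ‖zv P‖`:
  `|s ∫ g - s ∫ avP g P| ≤ 2 B ‖zv P‖ + B ‖zv P‖ ∫ ‖ũ‖`, and
  `|s avP g P x - σ w₀(θ)| ≤ s ρ` with `w₀ = avK ⟪A, zv P₀⟫ k₀ m`, `σ = s S`.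
  So `w = -σ w₀ = σ (-w₀)`.
-/

set_option autoImplicit false

open MeasureTheory
open scoped RealInnerProductSpace

namespace Pool.Agent.H33.AM

variable {n : ℕ}

private theorem periodic_max {w : ℝ → ℝ} (hc : Continuous w) (hp : ∀ θ, w (θ + 1) = w θ) :
    ∃ M, (∀ θ, w θ ≤ M) ∧ ∃ θ, w θ = M := by
  obtain ⟨θ₀, -, h0⟩ := (isCompact_Icc (a := (0 : ℝ)) (b := 1)).exists_isMaxOn
    (Set.nonempty_Icc.2 zero_le_one) hc.continuousOn
  refine ⟨w θ₀, fun θ => ?_, θ₀, rfl⟩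
  have hper : Function.Periodic w 1 := hp
  obtain ⟨y, hy, hy2⟩ := hper.exists_mem_Ico₀ one_pos θ
  rw [hy2]
  exact h0 ⟨hy.1, hy.2.le⟩

private theorem grad_inner {A : EuclideanSpace ℝ (Fin n) → EuclideanSpace ℝ (Fin n)}
    {A' : EuclideanSpace ℝ (Fin n) → EuclideanSpace ℝ (Fin n) →L[ℝ] EuclideanSpace ℝ (Fin n)}
    {B : ℝ} (hA : HA A A' B) (x : EuclideanSpace ℝ (Fin n)) (P : Fin n → ℤ) :
    HasGradientAt (fun x => ⟪A x, zv P⟫) (ContinuousLinearMap.adjoint (A' x) (zv P)) x := by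
  have h1 : HasFDerivAt (fun x => ⟪zv P, A x⟫) ((innerSL ℝ (zv P)).comp (A' x)) x :=
    (innerSL ℝ (zv P)).hasFDerivAt.comp x (hA.der x)
  rw [hasGradientAt_iff_hasFDerivAt]
  have h2 : (innerSL ℝ (zv P)).comp (A' x) =
      (InnerProductSpace.toDual ℝ (EuclideanSpace ℝ (Fin n)))
        (ContinuousLinearMap.adjoint (A' x) (zv P)) := by
    ext y
    rw [InnerProductSpace.toDual_apply_apply, ContinuousLinearMap.adjoint_inner_left]
    rfl
  rw [← h2]
  exact h1.congr_of_eventuallyEq (Filter.Eventually.of_forall fun y => real_inner_comm _ _)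

theorem trap_magnetic {K V : EuclideanSpace ℝ (Fin n) → ℝ}
    {D F A : EuclideanSpace ℝ (Fin n) → EuclideanSpace ℝ (Fin n)}
    {A' : EuclideanSpace ℝ (Fin n) → EuclideanSpace ℝ (Fin n) →L[ℝ] EuclideanSpace ℝ (Fin n)}
    {κ₁ κ₂ B : ℝ} (hK : HK K D κ₁ κ₂) (hA : HA A A' B) (hV : HV V F B) {k₀ m P P₀ : Fin n → ℤ}
    (hkm : dot k₀ m = 1) (hkP : dot k₀ P = 0) {s S ρ : ℝ} (hs : 0 < s) (hS : 0 < S) (hρ : 0 ≤ ρ)
    (hav : ∀ x, |avP (fun x => ⟪A x, zv P⟫) P x -
      S * avK (fun x => ⟪A x, zv P₀⟫) k₀ m ⟪zv k₀, x⟫| ≤ ρ) :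
    ∃ M, Trap (fun x v => K v - K (s • zv P) - ⟪D (s • zv P), v - s • zv P⟫ + ⟪A x, v⟫ - V x)
      k₀ m P s (fun θ => (s * S) * -avK (fun x => ⟪A x, zv P₀⟫) k₀ m θ) κ₁ κ₂ (s * ρ + B)
      (2 * B * ‖zv P‖) (B * ‖zv P‖ + B) M := by
  have hAc : Continuous A := continuous_iff_continuousAt.2 fun x => (hA.der x).continuousAt
  have hVc : Continuous V := continuous_iff_continuousAt.2 fun x => (hV.der x).continuousAt
  have hKc : Continuous K := continuous_iff_continuousAt.2 fun x => (hK.grad x).continuousAt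
  have hB : 0 ≤ B := hA.nonneg
  have hg0c : Continuous fun x => ⟪A x, zv P₀⟫ := hAc.inner continuous_const
  have hg0p : ∀ x (k : Fin n → ℤ), ⟪A (x + zv k), zv P₀⟫ = ⟪A x, zv P₀⟫ := fun x k => by
    rw [hA.per x k]
  have hgc : Continuous fun x => ⟪A x, zv P⟫ := hAc.inner continuous_const
  have hgp : ∀ x (k : Fin n → ℤ), ⟪A (x + zv k), zv P⟫ = ⟪A x, zv P⟫ := fun x k => by
    rw [hA.per x k]
  have hwc : Continuous fun θ => (s * S) * -avK (fun x => ⟪A x, zv P₀⟫) k₀ m θ :=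
    continuous_const.mul (avK_cont hg0c hg0p k₀ m).neg
  have hwp : ∀ θ, (s * S) * -avK (fun x => ⟪A x, zv P₀⟫) k₀ m (θ + 1) =
      (s * S) * -avK (fun x => ⟪A x, zv P₀⟫) k₀ m θ := fun θ => by
    rw [avK_per (g := fun x => ⟪A x, zv P₀⟫) hg0p k₀ m θ]
  obtain ⟨M, hM1, hM2⟩ := periodic_max hwc hwp
  have hlc : Continuous fun p : EuclideanSpace ℝ (Fin n) × EuclideanSpace ℝ (Fin n) =>
      K p.2 - K (s • zv P) - ⟪D (s • zv P), p.2 - s • zv P⟫ + ⟪A p.1, p.2⟫ - V p.1 := by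
    have h1 : Continuous fun p : EuclideanSpace ℝ (Fin n) × EuclideanSpace ℝ (Fin n) => K p.2 :=
      hKc.comp continuous_snd
    have h2 : Continuous fun p : EuclideanSpace ℝ (Fin n) × EuclideanSpace ℝ (Fin n) =>
        ⟪D (s • zv P), p.2 - s • zv P⟫ :=
      continuous_const.inner (continuous_snd.sub continuous_const)
    have h3 : Continuous fun p : EuclideanSpace ℝ (Fin n) × EuclideanSpace ℝ (Fin n) =>
        ⟪A p.1, p.2⟫ := (hAc.comp continuous_fst).inner continuous_snd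
    have h4 : Continuous fun p : EuclideanSpace ℝ (Fin n) × EuclideanSpace ℝ (Fin n) => V p.1 :=
      hVc.comp continuous_fst
    exact (((h1.sub continuous_const).sub h2).add h3).sub h4
  refine ⟨M, ?_⟩
  have key : ∀ (a b : ℝ) (x u : ℝ → EuclideanSpace ℝ (Fin n)), Adm a b x u →
      |s * (∫ t in a..b, ⟪A (x t), zv P⟫) -
        s * ∫ t in a..b, avP (fun x => ⟪A x, zv P⟫) P (x t)| ≤
      2 * B * ‖zv P‖ + B * ‖zv P‖ * ∫ t in a..b, ‖u t - s • zv P‖ := by
    intro a b x u h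
    have h1 := avP_trap (g := fun x => ⟪A x, zv P⟫)
      (G := fun x => ContinuousLinearMap.adjoint (A' x) (zv P)) (B := B * ‖zv P‖)
      (fun x => grad_inner hA x P) hgp
      (fun x => (abs_real_inner_le_norm _ _).trans
        (mul_le_mul_of_nonneg_right (hA.bd x) (norm_nonneg _)))
      (fun x => by
        refine (ContinuousLinearMap.le_opNorm _ _).trans
          (mul_le_mul_of_nonneg_right ?_ (norm_nonneg _))
        rw [LinearIsometryEquiv.norm_map]
        exact hA.bdA x)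
      (fun x y => by
        have h2 : ContinuousLinearMap.adjoint (A' x) (zv P) -
            ContinuousLinearMap.adjoint (A' y) (zv P) =
            ContinuousLinearMap.adjoint (A' x - A' y) (zv P) := by
          rw [map_sub]; rfl
        rw [h2]
        refine (ContinuousLinearMap.le_opNorm _ _).trans ?_
        rw [LinearIsometryEquiv.norm_map]
        calc ‖A' x - A' y‖ * ‖zv P‖ ≤ (B * ‖x - y‖) * ‖zv P‖ :=
              mul_le_mul_of_nonneg_right (hA.lip x y) (norm_nonneg _)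
          _ = B * ‖zv P‖ * ‖x - y‖ := by ring)
      P hs h
    rw [← mul_sub, abs_mul, abs_of_pos hs]
    calc s * |(∫ t in a..b, ⟪A (x t), zv P⟫) -
          ∫ t in a..b, avP (fun x => ⟪A x, zv P⟫) P (x t)| ≤
          s * ((2 * (B * ‖zv P‖) + B * ‖zv P‖ * ∫ t in a..b, ‖u t - s • zv P‖) / s) :=
            mul_le_mul_of_nonneg_left h1 hs.le
      _ = 2 * B * ‖zv P‖ + B * ‖zv P‖ * ∫ t in a..b, ‖u t - s • zv P‖ := by
          field_simp
  have hint : ∀ (κ : ℝ) (a b : ℝ) (x u : ℝ → EuclideanSpace ℝ (Fin n)), Adm a b x u →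
      IntervalIntegrable (fun t => κ / 2 * ‖u t - s • zv P‖ ^ 2) volume a b ∧
      IntervalIntegrable (fun t => (s * S) * -avK (fun x => ⟪A x, zv P₀⟫) k₀ m ⟪zv k₀, x t⟫)
        volume a b ∧
      IntervalIntegrable (fun t => ⟪A (x t), zv P⟫) volume a b ∧
      IntervalIntegrable (fun t => avP (fun x => ⟪A x, zv P⟫) P (x t)) volume a b ∧
      IntervalIntegrable (fun t => ‖u t - s • zv P‖) volume a b ∧
      IntervalIntegrable (fun t => K (u t) - K (s • zv P) - ⟪D (s • zv P), u t - s • zv P⟫ +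
        ⟪A (x t), u t⟫ - V (x t)) volume a b := by
    intro κ a b x u h
    refine ⟨?_, ?_, ?_, ?_, ?_, ?_⟩
    · exact h.integrable (g := fun p => κ / 2 * ‖p.2 - s • zv P‖ ^ 2)
        (continuous_const.mul ((continuous_snd.sub continuous_const).norm.pow 2))
    · exact h.integrable (g := fun p => (s * S) * -avK (fun x => ⟪A x, zv P₀⟫) k₀ m ⟪zv k₀, p.1⟫)
        (hwc.comp (continuous_const.inner continuous_fst))
    · exact h.integrable (g := fun p => ⟪A p.1, zv P⟫) (hgc.comp continuous_fst)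
    · exact h.integrable (g := fun p => avP (fun x => ⟪A x, zv P⟫) P p.1)
        ((avP_cont hgc P).comp continuous_fst)
    · exact h.integrable (g := fun p => ‖p.2 - s • zv P‖)
        (continuous_snd.sub continuous_const).norm
    · exact h.integrable hlc
  have hpt : ∀ x v : EuclideanSpace ℝ (Fin n),
      κ₁ / 2 * ‖v - s • zv P‖ ^ 2 + s * ⟪A x, zv P⟫ - B * ‖v - s • zv P‖ - B ≤
        K v - K (s • zv P) - ⟪D (s • zv P), v - s • zv P⟫ + ⟪A x, v⟫ - V x ∧
      K v - K (s • zv P) - ⟪D (s • zv P), v - s • zv P⟫ + ⟪A x, v⟫ - V x ≤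
        κ₂ / 2 * ‖v - s • zv P‖ ^ 2 + s * ⟪A x, zv P⟫ + B * ‖v - s • zv P‖ + B := by
    intro x v
    have h1 := hK.lo (s • zv P) v
    have h2 := hK.hi (s • zv P) v
    have h3 : ⟪A x, v⟫ = s * ⟪A x, zv P⟫ + ⟪A x, v - s • zv P⟫ := by
      rw [inner_sub_right, real_inner_smul_right]; ring
    have h4 : |⟪A x, v - s • zv P⟫| ≤ B * ‖v - s • zv P‖ :=
      (abs_real_inner_le_norm _ _).trans
        (mul_le_mul_of_nonneg_right (hA.bd x) (norm_nonneg _))
    have h5 := abs_le.1 h4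
    have h6 := abs_le.1 (hV.bd x)
    constructor
    · rw [h3]; linarith [h5.1, h6.2]
    · rw [h3]; linarith [h5.2, h6.1]
  have hptw : ∀ x : EuclideanSpace ℝ (Fin n),
      -((s * S) * -avK (fun x => ⟪A x, zv P₀⟫) k₀ m ⟪zv k₀, x⟫) - s * ρ ≤
        s * avP (fun x => ⟪A x, zv P⟫) P x ∧
      s * avP (fun x => ⟪A x, zv P⟫) P x ≤
        -((s * S) * -avK (fun x => ⟪A x, zv P₀⟫) k₀ m ⟪zv k₀, x⟫) + s * ρ := by
    intro x
    have h1 := abs_le.1 (hav x)
    have h2 := mul_le_mul_of_nonneg_left h1.1 hs.le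
    have h3 := mul_le_mul_of_nonneg_left h1.2 hs.le
    constructor
    · nlinarith [h2]
    · nlinarith [h3]
  refine
    { hl := ⟨hlc, fun x v k => by simp only [hA.per x k, hV.per x k]⟩
      km := hkm
      kP := hkP
      s_pos := hs
      w_cont := hwc
      w_per := hwp
      w_le := hM1
      w_max := hM2
      κ₁_pos := hK.pos
      κ₂_pos := hK.pos₂
      ε_nonneg := by positivity
      β₀_nonneg := by positivity
      β₁_nonneg := by positivity
      lo := ?_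
      hi := ?_ }
  · intro a b x u h
    obtain ⟨i1, i2, i3, i4, i5, i6⟩ := hint κ₁ a b x u h
    have hk := abs_le.1 (key a b x u h)
    have i2n : IntervalIntegrable (fun t => -((s * S) *
      -avK (fun x => ⟪A x, zv P₀⟫) k₀ m ⟪zv k₀, x t⟫)) volume a b := i2.neg
    have e1 : ∫ t in a..b, (κ₁ / 2 * ‖u t - s • zv P‖ ^ 2 + s * ⟪A (x t), zv P⟫ -
        B * ‖u t - s • zv P‖ - B) ≤ ∫ t in a..b, (K (u t) - K (s • zv P) -
        ⟪D (s • zv P), u t - s • zv P⟫ + ⟪A (x t), u t⟫ - V (x t)) := by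
      refine intervalIntegral.integral_mono_on h.le ?_ i6 fun t _ => (hpt (x t) (u t)).1
      exact ((i1.add (i3.const_mul s)).sub (i5.const_mul B)).sub intervalIntegrable_const
    have e2 : ∫ t in a..b, (κ₁ / 2 * ‖u t - s • zv P‖ ^ 2 + s * ⟪A (x t), zv P⟫ -
        B * ‖u t - s • zv P‖ - B) = (∫ t in a..b, κ₁ / 2 * ‖u t - s • zv P‖ ^ 2) +
        s * (∫ t in a..b, ⟪A (x t), zv P⟫) - B * (∫ t in a..b, ‖u t - s • zv P‖) -
        B * (b - a) := by
      rw [intervalIntegral.integral_sub ((i1.add (i3.const_mul s)).sub (i5.const_mul B))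
        intervalIntegrable_const, intervalIntegral.integral_sub (i1.add (i3.const_mul s))
        (i5.const_mul B), intervalIntegral.integral_add i1 (i3.const_mul s),
        intervalIntegral.integral_const]
      simp only [smul_eq_mul, intervalIntegral.integral_const_mul]
      ring
    have e3 : ∫ t in a..b, (-((s * S) * -avK (fun x => ⟪A x, zv P₀⟫) k₀ m ⟪zv k₀, x t⟫) -
        s * ρ) ≤ ∫ t in a..b, s * avP (fun x => ⟪A x, zv P⟫) P (x t) := by
      refine intervalIntegral.integral_mono_on h.le (i2n.sub intervalIntegrable_const)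
        (i4.const_mul s) fun t _ => (hptw (x t)).1
    have e4 : ∫ t in a..b, (-((s * S) * -avK (fun x => ⟪A x, zv P₀⟫) k₀ m ⟪zv k₀, x t⟫) -
        s * ρ) = -(∫ t in a..b, (s * S) * -avK (fun x => ⟪A x, zv P₀⟫) k₀ m ⟪zv k₀, x t⟫) -
        s * ρ * (b - a) := by
      rw [intervalIntegral.integral_sub i2n intervalIntegrable_const,
        intervalIntegral.integral_const]
      have e8 := intervalIntegral.integral_neg (μ := volume) (a := a) (b := b)
        (f := fun t => (s * S) * -avK (fun x => ⟪A x, zv P₀⟫) k₀ m ⟪zv k₀, x t⟫)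
      rw [e8]
      simp only [smul_eq_mul]
      ring
    have e5 : ∫ t in a..b, s * avP (fun x => ⟪A x, zv P⟫) P (x t) =
        s * ∫ t in a..b, avP (fun x => ⟪A x, zv P⟫) P (x t) :=
      intervalIntegral.integral_const_mul _ _
    have e6 : ∫ t in a..b, (κ₁ / 2 * ‖u t - s • zv P‖ ^ 2 -
        (s * S) * -avK (fun x => ⟪A x, zv P₀⟫) k₀ m ⟪zv k₀, x t⟫) =
        (∫ t in a..b, κ₁ / 2 * ‖u t - s • zv P‖ ^ 2) -
        ∫ t in a..b, (s * S) * -avK (fun x => ⟪A x, zv P₀⟫) k₀ m ⟪zv k₀, x t⟫ :=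
      intervalIntegral.integral_sub i1 i2
    rw [e2] at e1
    rw [e4, e5] at e3
    rw [e6]
    have e7 := hk.1
    nlinarith [e1, e3, e7]
  · intro a b x u h
    obtain ⟨i1, i2, i3, i4, i5, i6⟩ := hint κ₂ a b x u h
    have hk := abs_le.1 (key a b x u h)
    have i2n : IntervalIntegrable (fun t => -((s * S) *
      -avK (fun x => ⟪A x, zv P₀⟫) k₀ m ⟪zv k₀, x t⟫)) volume a b := i2.neg
    have e1 : ∫ t in a..b, (K (u t) - K (s • zv P) -
        ⟪D (s • zv P), u t - s • zv P⟫ + ⟪A (x t), u t⟫ - V (x t)) ≤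
        ∫ t in a..b, (κ₂ / 2 * ‖u t - s • zv P‖ ^ 2 + s * ⟪A (x t), zv P⟫ +
        B * ‖u t - s • zv P‖ + B) := by
      refine intervalIntegral.integral_mono_on h.le i6 ?_ fun t _ => (hpt (x t) (u t)).2
      exact ((i1.add (i3.const_mul s)).add (i5.const_mul B)).add intervalIntegrable_const
    have e2 : ∫ t in a..b, (κ₂ / 2 * ‖u t - s • zv P‖ ^ 2 + s * ⟪A (x t), zv P⟫ +
        B * ‖u t - s • zv P‖ + B) = (∫ t in a..b, κ₂ / 2 * ‖u t - s • zv P‖ ^ 2) +
        s * (∫ t in a..b, ⟪A (x t), zv P⟫) + B * (∫ t in a..b, ‖u t - s • zv P‖) +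
        B * (b - a) := by
      rw [intervalIntegral.integral_add ((i1.add (i3.const_mul s)).add (i5.const_mul B))
        intervalIntegrable_const, intervalIntegral.integral_add (i1.add (i3.const_mul s))
        (i5.const_mul B), intervalIntegral.integral_add i1 (i3.const_mul s),
        intervalIntegral.integral_const]
      simp only [smul_eq_mul, intervalIntegral.integral_const_mul]
      ring
    have e3 : ∫ t in a..b, s * avP (fun x => ⟪A x, zv P⟫) P (x t) ≤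
        ∫ t in a..b, (-((s * S) * -avK (fun x => ⟪A x, zv P₀⟫) k₀ m ⟪zv k₀, x t⟫) +
        s * ρ) := by
      refine intervalIntegral.integral_mono_on h.le (i4.const_mul s)
        (i2n.add intervalIntegrable_const) fun t _ => (hptw (x t)).2
    have e4 : ∫ t in a..b, (-((s * S) * -avK (fun x => ⟪A x, zv P₀⟫) k₀ m ⟪zv k₀, x t⟫) +
        s * ρ) = -(∫ t in a..b, (s * S) * -avK (fun x => ⟪A x, zv P₀⟫) k₀ m ⟪zv k₀, x t⟫) +
        s * ρ * (b - a) := by
      rw [intervalIntegral.integral_add i2n intervalIntegrable_const,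
        intervalIntegral.integral_const]
      have e8 := intervalIntegral.integral_neg (μ := volume) (a := a) (b := b)
        (f := fun t => (s * S) * -avK (fun x => ⟪A x, zv P₀⟫) k₀ m ⟪zv k₀, x t⟫)
      rw [e8]
      simp only [smul_eq_mul]
      ring
    have e5 : ∫ t in a..b, s * avP (fun x => ⟪A x, zv P⟫) P (x t) =
        s * ∫ t in a..b, avP (fun x => ⟪A x, zv P⟫) P (x t) :=
      intervalIntegral.integral_const_mul _ _
    have e6 : ∫ t in a..b, (κ₂ / 2 * ‖u t - s • zv P‖ ^ 2 -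
        (s * S) * -avK (fun x => ⟪A x, zv P₀⟫) k₀ m ⟪zv k₀, x t⟫) =
        (∫ t in a..b, κ₂ / 2 * ‖u t - s • zv P‖ ^ 2) -
        ∫ t in a..b, (s * S) * -avK (fun x => ⟪A x, zv P₀⟫) k₀ m ⟪zv k₀, x t⟫ :=
      intervalIntegral.integral_sub i1 i2
    rw [e2] at e1
    rw [e4, e5] at e3
    rw [e6]
    have e7 := hk.2
    nlinarith [e1, e3, e7]

end Pool.Agent.H33.AM

end

section

/-!
# Module V5: the magnetic potential

* `cube_deriv`: if `h` is `C¹` and periodic, `∫_cube ⟪∇h, v⟫ = 0`: differentiate the constant function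
  `t ↦ ∫_cube h(y + t v)` (`cube_translate`) at `t = 0`.
* `exists_avK_A_ne`: suppose not. Then for every `k ≠ 0` and `P` with `dot k P = 0`, all the
  coefficients `∫_cube ⟪A, zv P⟫ cos(2π ⟪k, ·⟫ + φ)` vanish (`primitive`, `cos_coeff`; `∫₀¹ const ·
  cos(2π d θ + φ) = 0` for `d ≠ 0`). With `P = k_j e_i - k_i e_j`:
  `k_j ∫ A_i cos(..) = k_i ∫ A_j cos(..)`. For `g = ∂_j A_i - ∂_i A_j` one has, by `cube_deriv` applied to
  `A_i cos(2π ⟪k, ·⟫ + φ)`, `∫ ∂_j A_i cos(..) = 2π k_j ∫ A_i sin(..)`, so all the coefficients of `g` with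
  `k ≠ 0` vanish and `g` is constant (`const_of_coeff`), and the constant is `∫_cube g = 0`
  (`cube_deriv`). So `A' x` is symmetric for every `x`: contradiction.
* `exists_grad`: Poincaré's lemma (see `Mathlib/MeasureTheory/Integral/CurveIntegral/Poincare.lean`, or
  directly `h(x) = ∫₀¹ ⟪A(t x), x⟫ dt`): there is `h` with `∇h = A`; `h(x + zv k) - h(x)` is constant in
  `x` and additive in `k`, so it is `⟪a₀, zv k⟫`; put `f = h - ⟪a₀, ·⟫`.
-/

set_option autoImplicit false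

open MeasureTheory
open scoped RealInnerProductSpace

namespace Pool.Agent.H33.AM

variable {n : ℕ}

theorem cube_deriv {h : EuclideanSpace ℝ (Fin n) → ℝ}
    {H : EuclideanSpace ℝ (Fin n) → EuclideanSpace ℝ (Fin n)}
    (hh : ∀ x, HasGradientAt h (H x) x) (hH : Continuous H)
    (hper : ∀ x (k : Fin n → ℤ), h (x + zv k) = h x) (v : EuclideanSpace ℝ (Fin n)) :
    ∫ y in {y : EuclideanSpace ℝ (Fin n) | ∀ i, y i ∈ Set.Ico (0 : ℝ) 1}, ⟪H y, v⟫ = 0 := by
  have hhc : Continuous h := continuous_iff_continuousAt.2 fun y => (hh y).continuousAt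
  have hK : IsCompact ((EuclideanSpace.equiv (Fin n) ℝ) ⁻¹' (Set.Icc 0 1)) :=
    (EuclideanSpace.equiv (Fin n) ℝ).toHomeomorph.isClosedEmbedding.isCompact_preimage isCompact_Icc
  have hint : ∀ {f : EuclideanSpace ℝ (Fin n) → ℝ}, Continuous f → IntegrableOn f
      {y : EuclideanSpace ℝ (Fin n) | ∀ i, y i ∈ Set.Ico (0 : ℝ) 1} := by
    intro f hf
    refine (hf.continuousOn.integrableOn_compact hK).mono_set fun y hy => ?_
    exact ⟨fun i => (hy i).1, fun i => (hy i).2.le⟩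
  have hQm := cube_meas (n := n)
  set Q : Set (EuclideanSpace ℝ (Fin n)) := {y | ∀ i, y i ∈ Set.Ico (0 : ℝ) 1} with hQ
  have hcc : Continuous fun p : ℝ × EuclideanSpace ℝ (Fin n) => ⟪H (p.2 + p.1 • v), v⟫ :=
    (hH.comp (by fun_prop)).inner continuous_const
  obtain ⟨C, hC⟩ := ((isCompact_Icc (a := (-1 : ℝ)) (b := 1)).prod hK).exists_bound_of_continuousOn
    hcc.continuousOn
  have key := hasDerivAt_integral_of_dominated_loc_of_deriv_le (μ := volume.restrict Q)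
    (F := fun (t : ℝ) y => h (y + t • v)) (x₀ := 0) (s := Set.Icc (-1 : ℝ) 1)
    (F' := fun t y => ⟪H (y + t • v), v⟫) (bound := fun _ => C)
    (Icc_mem_nhds (by norm_num) (by norm_num))
    (Filter.Eventually.of_forall fun t => (hhc.comp (by fun_prop)).aestronglyMeasurable)
    (hint (by fun_prop)) (hcc.comp (by fun_prop : Continuous fun y =>
      ((0 : ℝ), y))).aestronglyMeasurable
    ((ae_restrict_iff' hQm).2 (Filter.Eventually.of_forall fun y hy t ht => hC (t, y)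
      ⟨ht, ⟨fun i => (hy i).1, fun i => (hy i).2.le⟩⟩))
    (hint continuous_const)
    (Filter.Eventually.of_forall fun y t _ => by
      have h1 : HasDerivAt (fun t : ℝ => y + t • v) v t := by
        simpa using ((hasDerivAt_id t).smul_const v).const_add y
      have h2 := (hh (y + t • v)).hasFDerivAt.comp_hasDerivAt t h1
      simp only [InnerProductSpace.toDual_apply_apply] at h2
      exact h2)
  have h3 : (fun t : ℝ => ∫ y in Q, h (y + t • v)) = fun _ => ∫ y in Q, h y := by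
    funext t
    exact cube_translate hhc hper (t • v)
  have h4 := key.2
  rw [h3] at h4
  have h5 := h4.unique (hasDerivAt_const (0 : ℝ) _)
  simpa using h5

end Pool.Agent.H33.AM

end

section

/-!
# Module V5: the magnetic potential

* `exists_avK_A_ne`: suppose not. Then for every `k ≠ 0` and `P` with `dot k P = 0`, all the
  coefficients `∫_cube ⟪A, zv P⟫ cos(2π ⟪k, ·⟫ + φ)` vanish (`primitive`, `cos_coeff`; `∫₀¹ const ·
  cos(2π d θ + φ) = 0` for `d ≠ 0`). With `P = k_j e_i - k_i e_j`: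
  `k_j ∫ A_i cos(..) = k_i ∫ A_j cos(..)`. For `g = ⟪A' x v, w⟫ - ⟪A' x w, v⟫` one has, by `cube_deriv`
  applied to `⟪A, w⟫ cos(2π ⟪k, ·⟫ + φ)`,
  `∫ ⟪A' x v, w⟫ cos(..) = 2π ⟪k, v⟫ ∫ ⟪A, w⟫ sin(..)`, so all the coefficients of `g` with
  `k ≠ 0` vanish and `g` is constant (`const_of_coeff`), and the constant is `∫_cube g = 0`
  (`cube_deriv`). So `A' x` is symmetric for every `x`: contradiction.
-/

set_option autoImplicit false

open MeasureTheory
open scoped RealInnerProductSpace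

namespace Pool.Agent.H33.AM

variable {n : ℕ}

private theorem V5b_cube_subset :
    {y : EuclideanSpace ℝ (Fin n) | ∀ i, y i ∈ Set.Ico (0 : ℝ) 1} ⊆
      Metric.closedBall 0 (Real.sqrt n) := by
  intro y hy
  rw [mem_closedBall_zero_iff, EuclideanSpace.norm_eq]
  refine Real.sqrt_le_sqrt ?_
  calc ∑ j, ‖y j‖ ^ 2 ≤ ∑ j : Fin n, (1 : ℝ) := by
        refine Finset.sum_le_sum fun j _ => ?_
        have := hy j
        rw [Real.norm_eq_abs, sq_abs]
        nlinarith [this.1, this.2]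
    _ = n := by simp

private theorem V5b_int {F : Type*} [NormedAddCommGroup F] {g : EuclideanSpace ℝ (Fin n) → F}
    (hg : Continuous g) :
    IntegrableOn g {y : EuclideanSpace ℝ (Fin n) | ∀ i, y i ∈ Set.Ico (0 : ℝ) 1} volume :=
  (hg.continuousOn.integrableOn_compact (isCompact_closedBall 0 (Real.sqrt n))).mono_set
    V5b_cube_subset

private theorem V5b_A_cont {A : EuclideanSpace ℝ (Fin n) → EuclideanSpace ℝ (Fin n)}
    {A' : EuclideanSpace ℝ (Fin n) → EuclideanSpace ℝ (Fin n) →L[ℝ] EuclideanSpace ℝ (Fin n)}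
    {B : ℝ} (hA : HA A A' B) : Continuous A :=
  continuous_iff_continuousAt.2 fun v => (hA.der v).continuousAt

private theorem V5b_A'_cont {A : EuclideanSpace ℝ (Fin n) → EuclideanSpace ℝ (Fin n)}
    {A' : EuclideanSpace ℝ (Fin n) → EuclideanSpace ℝ (Fin n) →L[ℝ] EuclideanSpace ℝ (Fin n)}
    {B : ℝ} (hA : HA A A' B) : Continuous A' := by
  have h : LipschitzWith (Real.toNNReal B) A' := by
    refine LipschitzWith.of_dist_le' fun x y => ?_
    rw [dist_eq_norm, dist_eq_norm]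
    exact hA.lip x y
  exact h.continuous

private theorem V5b_A'_per {A : EuclideanSpace ℝ (Fin n) → EuclideanSpace ℝ (Fin n)}
    {A' : EuclideanSpace ℝ (Fin n) → EuclideanSpace ℝ (Fin n) →L[ℝ] EuclideanSpace ℝ (Fin n)}
    {B : ℝ} (hA : HA A A' B) (x : EuclideanSpace ℝ (Fin n)) (k : Fin n → ℤ) :
    A' (x + zv k) = A' x := by
  have h1 : HasFDerivAt (fun y => A (y + zv k)) (A' (x + zv k)) x := by
    have h2 := (hA.der (x + zv k)).comp x ((hasFDerivAt_id x).add_const (zv k))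
    simpa [Function.comp_def] using h2
  have h3 : (fun y => A (y + zv k)) = A := by
    funext y
    exact hA.per y k
  rw [h3] at h1
  exact h1.unique (hA.der x)

private theorem V5b_cos_per (k l : Fin n → ℤ) (φ : ℝ) (x : EuclideanSpace ℝ (Fin n)) :
    Real.cos (2 * Real.pi * ⟪zv k, x + zv l⟫ + φ) = Real.cos (2 * Real.pi * ⟪zv k, x⟫ + φ) := by
  rw [inner_add_right, inner_zv]
  have : 2 * Real.pi * (⟪zv k, x⟫ + (dot k l : ℝ)) + φ =
      2 * Real.pi * ⟪zv k, x⟫ + φ + (dot k l : ℝ) * (2 * Real.pi) := by ring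
  rw [this, Real.cos_add_int_mul_two_pi]

private theorem V5b_parts {A : EuclideanSpace ℝ (Fin n) → EuclideanSpace ℝ (Fin n)}
    {A' : EuclideanSpace ℝ (Fin n) → EuclideanSpace ℝ (Fin n) →L[ℝ] EuclideanSpace ℝ (Fin n)}
    {B : ℝ} (hA : HA A A' B) (k : Fin n → ℤ) (φ : ℝ) (v w : EuclideanSpace ℝ (Fin n)) :
    ∫ y in {y : EuclideanSpace ℝ (Fin n) | ∀ i, y i ∈ Set.Ico (0 : ℝ) 1},
      ⟪A' y v, w⟫ * Real.cos (2 * Real.pi * ⟪zv k, y⟫ + φ) =
    2 * Real.pi * ⟪zv k, v⟫ *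
      ∫ y in {y : EuclideanSpace ℝ (Fin n) | ∀ i, y i ∈ Set.Ico (0 : ℝ) 1},
        ⟪A y, w⟫ * Real.sin (2 * Real.pi * ⟪zv k, y⟫ + φ) := by
  have cA := V5b_A_cont hA
  have cA' := V5b_A'_cont hA
  have ccos : Continuous fun y : EuclideanSpace ℝ (Fin n) =>
      Real.cos (2 * Real.pi * ⟪zv k, y⟫ + φ) := by fun_prop
  have csin : Continuous fun y : EuclideanSpace ℝ (Fin n) =>
      Real.sin (2 * Real.pi * ⟪zv k, y⟫ + φ) := by fun_prop
  set h : EuclideanSpace ℝ (Fin n) → ℝ := fun y =>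
    ⟪w, A y⟫ * Real.cos (2 * Real.pi * ⟪zv k, y⟫ + φ) with hh
  set H : EuclideanSpace ℝ (Fin n) → EuclideanSpace ℝ (Fin n) := fun y =>
    Real.cos (2 * Real.pi * ⟪zv k, y⟫ + φ) • ContinuousLinearMap.adjoint (A' y) w -
      (2 * Real.pi * (⟪w, A y⟫ * Real.sin (2 * Real.pi * ⟪zv k, y⟫ + φ))) • zv k with hH
  have hgrad : ∀ x, HasGradientAt h (H x) x := by
    intro x
    rw [hasGradientAt_iff_hasFDerivAt]
    have h1 : HasFDerivAt (fun y => ⟪w, A y⟫) ((innerSL ℝ w).comp (A' x)) x :=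
      (innerSL ℝ w).hasFDerivAt.comp x (hA.der x)
    have h2 : HasFDerivAt (fun y : EuclideanSpace ℝ (Fin n) => 2 * Real.pi * ⟪zv k, y⟫ + φ)
        ((2 * Real.pi) • (innerSL ℝ (zv k))) x :=
      (((innerSL ℝ (zv k)).hasFDerivAt (x := x)).const_mul (2 * Real.pi)).add_const φ
    have h3 := h1.mul h2.cos
    refine h3.congr_fderiv ?_
    ext u
    simp only [add_apply, smul_apply, smul_eq_mul,
      ContinuousLinearMap.comp_apply, innerSL_apply_apply, InnerProductSpace.toDual_apply_apply, hH,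
      inner_sub_left, inner_smul_left, ContinuousLinearMap.adjoint_inner_left, Real.ringHom_apply]
    ring
  have hHc : Continuous H := by
    have h1 : Continuous fun y => ContinuousLinearMap.adjoint (A' y) w :=
      (ContinuousLinearMap.adjoint.continuous.comp cA').clm_apply continuous_const
    have h2 : Continuous fun y =>
        2 * Real.pi * (⟪w, A y⟫ * Real.sin (2 * Real.pi * ⟪zv k, y⟫ + φ)) :=
      continuous_const.mul ((continuous_const.inner cA).mul csin)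
    exact (ccos.fun_smul h1).fun_sub (h2.fun_smul continuous_const)
  have hper : ∀ x (l : Fin n → ℤ), h (x + zv l) = h x := by
    intro x l
    simp only [hh, hA.per, V5b_cos_per]
  have hz := cube_deriv hgrad hHc hper v
  have he : ∀ y, ⟪H y, v⟫ = ⟪A' y v, w⟫ * Real.cos (2 * Real.pi * ⟪zv k, y⟫ + φ) -
      2 * Real.pi * ⟪zv k, v⟫ * (⟪A y, w⟫ * Real.sin (2 * Real.pi * ⟪zv k, y⟫ + φ)) := by
    intro y
    simp only [hH, inner_sub_left, inner_smul_left, ContinuousLinearMap.adjoint_inner_left,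
      RCLike.conj_to_real]
    rw [real_inner_comm w (A' y v), real_inner_comm w (A y)]
    ring
  simp only [he] at hz
  rw [integral_sub, integral_const_mul] at hz
  · linarith
  · refine V5b_int ?_
    exact ((cA'.clm_apply continuous_const).inner continuous_const).mul ccos
  · refine V5b_int ?_
    exact continuous_const.mul ((cA.inner continuous_const).mul csin)

private theorem V5b_int_cos {d : ℤ} (hd : d ≠ 0) (φ c : ℝ) :
    ∫ θ in (0 : ℝ)..1, c * Real.cos (2 * Real.pi * ((d : ℝ) * θ) + φ) = 0 := by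
  rw [intervalIntegral.integral_const_mul]
  have hd' : (d : ℝ) ≠ 0 := by exact_mod_cast hd
  have hc : 2 * Real.pi * (d : ℝ) ≠ 0 := by positivity
  have h1 : ∀ θ : ℝ, Real.cos (2 * Real.pi * ((d : ℝ) * θ) + φ) =
      Real.cos (2 * Real.pi * (d : ℝ) * θ + φ) := by
    intro θ
    congr 1
    ring
  simp only [h1]
  rw [intervalIntegral.integral_comp_mul_add (fun x => Real.cos x) hc φ, integral_cos]
  have h2 : 2 * Real.pi * (d : ℝ) * 1 + φ = φ + (d : ℝ) * (2 * Real.pi) := by ring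
  rw [h2, Real.sin_add_int_mul_two_pi]
  simp

theorem exists_avK_A_ne {A : EuclideanSpace ℝ (Fin n) → EuclideanSpace ℝ (Fin n)}
    {A' : EuclideanSpace ℝ (Fin n) → EuclideanSpace ℝ (Fin n) →L[ℝ] EuclideanSpace ℝ (Fin n)}
    {B : ℝ} (hA : HA A A' B) (hns : ∃ x v w, ⟪A' x v, w⟫ ≠ ⟪A' x w, v⟫) :
    ∃ k₀ m P₀ : Fin n → ℤ, dot k₀ m = 1 ∧ dot k₀ P₀ = 0 ∧
      ∃ θ θ', avK (fun x => ⟪A x, zv P₀⟫) k₀ m θ ≠ avK (fun x => ⟪A x, zv P₀⟫) k₀ m θ' := by
  by_contra hcon
  push Not at hcon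
  have cA := V5b_A_cont hA
  have cA' := V5b_A'_cont hA
  -- the coefficients of `⟪A, P⟫`
  have hcoef : ∀ (k P : Fin n → ℤ) (φ : ℝ), k ≠ 0 → dot k P = 0 →
      ∫ y in {y : EuclideanSpace ℝ (Fin n) | ∀ i, y i ∈ Set.Ico (0 : ℝ) 1},
        ⟪A y, zv P⟫ * Real.cos (2 * Real.pi * ⟪zv k, y⟫ + φ) = 0 := by
    intro k P φ hk hkP
    obtain ⟨d, k₀, m, hd, rfl, hkm⟩ := primitive hk
    have h1 : dot k₀ P = 0 := by
      have h2 : dot (d • k₀) P = d * dot k₀ P := by
        unfold dot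
        rw [Finset.mul_sum]
        refine Finset.sum_congr rfl fun i _ => ?_
        simp only [Pi.smul_apply, smul_eq_mul]
        ring
      rw [h2] at hkP
      exact (mul_eq_zero.1 hkP).resolve_left hd
    have h3 := cos_coeff hkm (g := fun x => ⟪A x, zv P⟫) (cA.inner continuous_const)
      (fun x l => by simp only [hA.per]) d φ
    rw [h3]
    have h4 : ∀ θ, avK (fun x => ⟪A x, zv P⟫) k₀ m θ = avK (fun x => ⟪A x, zv P⟫) k₀ m 0 :=
      fun θ => hcon k₀ m P hkm h1 θ 0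
    simp only [h4]
    exact V5b_int_cos hd φ _
  -- the symmetry of the coefficients
  have hsymm : ∀ (k : Fin n → ℤ) (φ : ℝ) (v w : EuclideanSpace ℝ (Fin n)), k ≠ 0 →
      ⟪zv k, v⟫ * (∫ y in {y : EuclideanSpace ℝ (Fin n) | ∀ i, y i ∈ Set.Ico (0 : ℝ) 1},
        ⟪A y, w⟫ * Real.cos (2 * Real.pi * ⟪zv k, y⟫ + φ)) =
      ⟪zv k, w⟫ * (∫ y in {y : EuclideanSpace ℝ (Fin n) | ∀ i, y i ∈ Set.Ico (0 : ℝ) 1},
        ⟪A y, v⟫ * Real.cos (2 * Real.pi * ⟪zv k, y⟫ + φ)) := by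
    intro k φ v w hk
    set a : EuclideanSpace ℝ (Fin n) :=
      ∫ y in {y : EuclideanSpace ℝ (Fin n) | ∀ i, y i ∈ Set.Ico (0 : ℝ) 1},
        Real.cos (2 * Real.pi * ⟪zv k, y⟫ + φ) • A y with ha
    have hia : IntegrableOn (fun y => Real.cos (2 * Real.pi * ⟪zv k, y⟫ + φ) • A y)
        {y : EuclideanSpace ℝ (Fin n) | ∀ i, y i ∈ Set.Ico (0 : ℝ) 1} volume := by
      refine V5b_int (Continuous.fun_smul ?_ cA)
      fun_prop
    have h1 : ∀ u : EuclideanSpace ℝ (Fin n),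
        ∫ y in {y : EuclideanSpace ℝ (Fin n) | ∀ i, y i ∈ Set.Ico (0 : ℝ) 1},
        ⟪A y, u⟫ * Real.cos (2 * Real.pi * ⟪zv k, y⟫ + φ) = ⟪u, a⟫ := by
      intro u
      rw [ha, ← integral_inner hia u]
      refine integral_congr_ae (Filter.Eventually.of_forall fun y => ?_)
      simp only [inner_smul_right]
      rw [real_inner_comm u (A y)]
      ring
    rw [h1, h1]
    have h2 : ∀ i j, (k j : ℝ) * a i = (k i : ℝ) * a j := by
      intro i j
      set P : Fin n → ℤ := k j • Pi.single i 1 - k i • Pi.single j 1 with hP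
      have h3 : dot k P = 0 := by
        unfold dot
        simp only [hP, Pi.sub_apply, Pi.smul_apply, smul_eq_mul, mul_sub, Finset.sum_sub_distrib]
        simp only [Pi.single_apply, mul_ite, mul_one, mul_zero, Finset.sum_ite_eq',
          Finset.mem_univ, if_true]
        ring
      have h4 := hcoef k P φ hk h3
      rw [h1] at h4
      have h5 : ⟪zv P, a⟫ = (k j : ℝ) * a i - (k i : ℝ) * a j := by
        rw [PiLp.inner_apply]
        simp only [zv, hP, Pi.sub_apply, Pi.smul_apply, smul_eq_mul, Int.cast_sub, Int.cast_mul,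
          RCLike.inner_apply, conj_trivial, mul_sub, Finset.sum_sub_distrib]
        simp only [Pi.single_apply, Int.cast_ite, Int.cast_one, Int.cast_zero, mul_ite, mul_one,
          mul_zero, Finset.sum_ite_eq', Finset.mem_univ, if_true]
        ring
      linarith
    have h6 : ∀ u u' : EuclideanSpace ℝ (Fin n), ⟪zv k, u⟫ * ⟪u', a⟫ =
        ∑ j, ∑ i, (u j * u' i) * ((k j : ℝ) * a i) := by
      intro u u'
      rw [PiLp.inner_apply, PiLp.inner_apply, Finset.sum_mul_sum]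
      refine Finset.sum_congr rfl fun j _ => Finset.sum_congr rfl fun i _ => ?_
      simp only [zv, RCLike.inner_apply, conj_trivial]
      ring
    rw [h6, h6, Finset.sum_comm]
    refine Finset.sum_congr rfl fun i _ => Finset.sum_congr rfl fun j _ => ?_
    rw [h2]
    ring
  obtain ⟨x₀, v, w, hne⟩ := hns
  set g : EuclideanSpace ℝ (Fin n) → ℝ := fun x => ⟪A' x v, w⟫ - ⟪A' x w, v⟫ with hg
  have gc1 : Continuous fun x => ⟪A' x v, w⟫ :=
    (cA'.clm_apply continuous_const).inner continuous_const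
  have gc2 : Continuous fun x => ⟪A' x w, v⟫ :=
    (cA'.clm_apply continuous_const).inner continuous_const
  have gc : Continuous g := gc1.sub gc2
  have gper : ∀ x (k : Fin n → ℤ), g (x + zv k) = g x := by
    intro x k
    simp only [hg, V5b_A'_per hA]
  have hgc : ∀ (k : Fin n → ℤ) (φ : ℝ),
      ∫ y in {y : EuclideanSpace ℝ (Fin n) | ∀ i, y i ∈ Set.Ico (0 : ℝ) 1},
        g y * Real.cos (2 * Real.pi * ⟪zv k, y⟫ + φ) = 0 := by
    intro k φ
    have ccos : Continuous fun y : EuclideanSpace ℝ (Fin n) =>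
      Real.cos (2 * Real.pi * ⟪zv k, y⟫ + φ) := by fun_prop
    have h1 : ∀ y, g y * Real.cos (2 * Real.pi * ⟪zv k, y⟫ + φ) =
        ⟪A' y v, w⟫ * Real.cos (2 * Real.pi * ⟪zv k, y⟫ + φ) -
          ⟪A' y w, v⟫ * Real.cos (2 * Real.pi * ⟪zv k, y⟫ + φ) := by
      intro y
      simp only [hg]
      ring
    simp only [h1]
    rw [integral_sub (V5b_int (gc1.fun_mul ccos)) (V5b_int (gc2.fun_mul ccos)), V5b_parts hA,
      V5b_parts hA]
    by_cases hk : k = 0
    · rw [hk, zv_zero]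
      simp
    · have h2 := hsymm k (φ - Real.pi / 2) v w hk
      have h3 : ∀ y : EuclideanSpace ℝ (Fin n),
          Real.cos (2 * Real.pi * ⟪zv k, y⟫ + (φ - Real.pi / 2)) =
          Real.sin (2 * Real.pi * ⟪zv k, y⟫ + φ) := by
        intro y
        rw [← Real.cos_sub_pi_div_two]
        congr 1
        ring
      simp only [h3] at h2
      linear_combination (2 * Real.pi) * h2
  have hconst := const_of_coeff gc gper fun k φ _ => hgc k φ
  have h0 := hgc 0 0
  have h1 : ∀ y : EuclideanSpace ℝ (Fin n),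
      g y * Real.cos (2 * Real.pi * ⟪zv (0 : Fin n → ℤ), y⟫ + 0) = g x₀ := by
    intro y
    rw [zv_zero]
    simp [hconst y x₀]
  simp only [h1] at h0
  rw [setIntegral_const, Measure.real, cube_vol] at h0
  simp only [ENNReal.toReal_one, one_smul] at h0
  exact hne (sub_eq_zero.1 h0)

end Pool.Agent.H33.AM

end

section

/-!
# Module R3: connecting curves (`Conn`)

`Conn l e T x y r` = there is a curve from `x` to `y` in time `T` with the action `r` with respect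
to `ℓ + e`. Everything follows from module R2 (integrability of `t ↦ l (x t) (u t)` is
`Adm.integrable` with `HL.cont`), substitution rules for interval integrals and, for `Conn.cross`,
the intermediate value theorem for `t ↦ ⟪zv k₀, ξ t⟫`.
-/

set_option autoImplicit false

open MeasureTheory
open scoped RealInnerProductSpace

namespace Pool.Agent.H33.AM

variable {n : ℕ} {l : EuclideanSpace ℝ (Fin n) → EuclideanSpace ℝ (Fin n) → ℝ}

theorem Conn.nonneg {e T : ℝ} {x y : EuclideanSpace ℝ (Fin n)} {r : ℝ} (h : Conn l e T x y r) :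
    0 ≤ T := by
  obtain ⟨ξ, u, h1, -⟩ := h
  exact h1.le

theorem Conn.refl (l : EuclideanSpace ℝ (Fin n) → EuclideanSpace ℝ (Fin n) → ℝ) (e : ℝ)
    (x : EuclideanSpace ℝ (Fin n)) : Conn l e 0 x x 0 := by
  refine ⟨fun _ => x, fun _ => 0, ?_, rfl, rfl, ?_⟩
  · simpa using Adm.line (n := n) le_rfl x 0
  · simp [act]

/-- Pieces of a curve. -/
theorem Conn.of_adm (hl : HL l) {a b e : ℝ} {x u : ℝ → EuclideanSpace ℝ (Fin n)}
    (h : Adm a b x u) : Conn l e (b - a) (x a) (x b) (act l e a b x u) := by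
  have h1 := h.shift (-a)
  simp only [sub_neg_eq_add, add_neg_cancel] at h1
  rw [← sub_eq_add_neg] at h1
  refine ⟨_, _, h1, by simp, by simp, ?_⟩
  unfold act
  rw [intervalIntegral.integral_comp_add_right (fun t => l (x t) (u t) + e)]
  simp

theorem act_add (hl : HL l) {a b c e : ℝ} {x u : ℝ → EuclideanSpace ℝ (Fin n)}
    (h : Adm a c x u) (hab : a ≤ b) (hbc : b ≤ c) :
    act l e a c x u = act l e a b x u + act l e b c x u := by
  have hg : Continuous fun p : EuclideanSpace ℝ (Fin n) × EuclideanSpace ℝ (Fin n) =>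
      l p.1 p.2 + e := hl.cont.add continuous_const
  exact (intervalIntegral.integral_add_adjacent_intervals
    ((h.sub le_rfl hab hbc).integrable hg) ((h.sub hab hbc le_rfl).integrable hg)).symm

theorem Conn.trans (hl : HL l) {e T T' : ℝ} {x y z : EuclideanSpace ℝ (Fin n)} {r r' : ℝ}
    (h : Conn l e T x y r) (h' : Conn l e T' y z r') : Conn l e (T + T') x z (r + r') := by
  obtain ⟨ξ, u, ha, h0, hT, hr⟩ := h
  obtain ⟨ξ', u', ha', h0', hT', hr'⟩ := h'
  obtain ⟨ξ'', u'', ha'', h1, h2⟩ := ha.concat ha' (hT.trans h0'.symm)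
  have hT0 : 0 ≤ T := ha.le
  have hT0' : 0 ≤ T' := ha'.le
  refine ⟨ξ'', u'', ha'', ?_, ?_, ?_⟩
  · rw [(h1 0 hT0).1, h0]
  · rcases hT0'.eq_or_lt with h3 | h3
    · rw [← h3, add_zero, (h1 T le_rfl).1, hT, ← hT', ← h3, h0']
    · rw [(h2 (T + T') (by linarith)).1, add_sub_cancel_left, hT']
  · rw [act_add hl ha'' hT0 (by linarith), ← hr, ← hr']
    congr 1
    · unfold act
      refine intervalIntegral.integral_congr_ae (Filter.Eventually.of_forall fun t ht => ?_)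
      rw [Set.uIoc_of_le hT0] at ht
      rw [(h1 t ht.2).1, (h1 t ht.2).2]
    · unfold act
      have h3 : ∫ t in (T : ℝ)..(T + T'), (l (ξ'' t) (u'' t) + e) =
          ∫ t in (T : ℝ)..(T + T'), (l (ξ' (t - T)) (u' (t - T)) + e) := by
        refine intervalIntegral.integral_congr_ae (Filter.Eventually.of_forall fun t ht => ?_)
        rw [Set.uIoc_of_le (by linarith)] at ht
        rw [(h2 t ht.1).1, (h2 t ht.1).2]
      rw [h3, intervalIntegral.integral_comp_sub_right (fun t => l (ξ' t) (u' t) + e)]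
      simp

theorem Conn.add_zv (hl : HL l) {e T : ℝ} {x y : EuclideanSpace ℝ (Fin n)} {r : ℝ}
    (h : Conn l e T x y r) (k : Fin n → ℤ) : Conn l e T (x + zv k) (y + zv k) r := by
  obtain ⟨ξ, u, ha, h0, hT, hr⟩ := h
  refine ⟨fun t => ξ t + zv k, u, ha.add_const _, by simp [h0], by simp [hT], ?_⟩
  rw [← hr]
  unfold act
  simp only [hl.per]

/-- Change of the level. -/
theorem Conn.level (hl : HL l) {e T : ℝ} {x y : EuclideanSpace ℝ (Fin n)} {r : ℝ}
    (h : Conn l e T x y r) (e' : ℝ) : Conn l e' T x y (r + (e' - e) * T) := by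
  obtain ⟨ξ, u, ha, h0, hT, hr⟩ := h
  refine ⟨ξ, u, ha, h0, hT, ?_⟩
  rw [← hr]
  unfold act
  have hg : Continuous fun p : EuclideanSpace ℝ (Fin n) × EuclideanSpace ℝ (Fin n) =>
      l p.1 p.2 + e := hl.cont.add continuous_const
  have h1 : (fun t => l (ξ t) (u t) + e') = fun t => (l (ξ t) (u t) + e) + (e' - e) := by
    funext t
    ring
  rw [h1, intervalIntegral.integral_add (ha.integrable hg) (by simp)]
  simp [mul_comm]
  ring

/-- Iteration of a curve which is closed modulo an integer vector. -/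
theorem Conn.iter (hl : HL l) {e T : ℝ} {x : EuclideanSpace ℝ (Fin n)} {k : Fin n → ℤ} {r : ℝ}
    (h : Conn l e T x (x + zv k) r) (j : ℕ) :
    Conn l e (j * T) x (x + zv (j • k)) (j * r) := by
  induction j with
  | zero =>
    have h1 : x + zv (0 • k) = x := by rw [zero_smul, zv_zero, add_zero]
    rw [h1]
    simpa using Conn.refl l e x
  | succ j ih =>
    have h1 := Conn.trans hl ih (h.add_zv hl (j • k))
    have h2 : x + zv k + zv (j • k) = x + zv ((j + 1) • k) := by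
      rw [add_smul, one_smul, zv_add]
      abel
    rw [h2] at h1
    have h3 : ((j + 1 : ℕ) : ℝ) * T = j * T + T := by push_cast; ring
    have h4 : ((j + 1 : ℕ) : ℝ) * r = j * r + r := by push_cast; ring
    rw [h3, h4]
    exact h1

/-- A curve has to cross the levels of `k₀ · x` between its ends. -/
theorem Conn.cross (hl : HL l) {k₀ : Fin n → ℤ} {e T A : ℝ} {x y : EuclideanSpace ℝ (Fin n)}
    {r : ℝ} (h : Conn l e T x y r)
    (hA : (⟪zv k₀, x⟫ ≤ A ∧ A ≤ ⟪zv k₀, y⟫) ∨ (⟪zv k₀, y⟫ ≤ A ∧ A ≤ ⟪zv k₀, x⟫)) :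
    ∃ (z : EuclideanSpace ℝ (Fin n)) (T₁ T₂ r₁ r₂ : ℝ), ⟪zv k₀, z⟫ = A ∧ T = T₁ + T₂ ∧
      r = r₁ + r₂ ∧ Conn l e T₁ x z r₁ ∧ Conn l e T₂ z y r₂ := by
  obtain ⟨ξ, u, ha, h0, hT, hr⟩ := h
  have hT0 : 0 ≤ T := ha.le
  have hc : ContinuousOn (fun t => ⟪zv k₀, ξ t⟫) (Set.Icc 0 T) :=
    continuousOn_const.inner ha.cont
  have h1 : ∃ σ ∈ Set.Icc 0 T, ⟪zv k₀, ξ σ⟫ = A := by
    rcases hA with hA | hA
    · have h2 := intermediate_value_Icc hT0 hc
      exact h2 ⟨by simpa [h0] using hA.1, by simpa [hT] using hA.2⟩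
    · have h2 := intermediate_value_Icc' hT0 hc
      exact h2 ⟨by simpa [hT] using hA.1, by simpa [h0] using hA.2⟩
  obtain ⟨σ, hσ, hσA⟩ := h1
  have h2 := Conn.of_adm (e := e) hl (ha.sub le_rfl hσ.1 hσ.2)
  have h3 := Conn.of_adm (e := e) hl (ha.sub hσ.1 hσ.2 le_rfl)
  rw [h0, sub_zero] at h2
  rw [hT] at h3
  refine ⟨ξ σ, σ, T - σ, act l e 0 σ ξ u, act l e σ T ξ u, hσA, by ring, ?_, h2, h3⟩
  rw [← hr, act_add hl ha hσ.1 hσ.2]

end Pool.Agent.H33.AM

end

section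

/-!
# Module T4: curves with both ends in the same level

* `Closes.same`: close the curve up (`Conn.trans`) and use `Crit`.
* `Closes.add_int`: translate by `zv (j • m)` (`Conn.add_zv`, `dot k₀ m = 1`).
* `rest`: `A` = infimum of the costs `r` of the curves from the level `θc` to the level `θa + 1`, `B` =
  infimum of the costs of the curves from the level `θa + 1` to the level `θc`. Both families are not
  empty by `Rough` (the points `t • zv m` have the level `t`; `θa ≤ θc ≤ θa + 1`). If `x → y` costs `r`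
  (up) and `x' → y'` costs `r'` (down), connect `y → x' + zv k` and `y' + zv k → x + zv (k + k')` by
  `Closes` (`Closes.add_int` for the level `θa + 1`); the closed curve costs `≥ 0` by `Crit`, so
  `r + r' ≥ -2 κ`.
-/

set_option autoImplicit false

open MeasureTheory
open scoped RealInnerProductSpace

namespace Pool.Agent.H33.AM

variable {n : ℕ} {l : EuclideanSpace ℝ (Fin n) → EuclideanSpace ℝ (Fin n) → ℝ}
  {k₀ m : Fin n → ℤ}

theorem Closes.same (hl : HL l) {e κ θ₀ : ℝ} (hcrit : Crit l k₀ e) (h : Closes l k₀ e κ θ₀)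
    {T : ℝ} {x y : EuclideanSpace ℝ (Fin n)} {r : ℝ} (hx : ⟪zv k₀, x⟫ = θ₀)
    (hy : ⟪zv k₀, y⟫ = θ₀) (hxy : Conn l e T x y r) : -κ ≤ r := by
  obtain ⟨T', k, r', hk, hc, hr'⟩ := h y x hy hx
  have := hcrit _ x k _ hk (hxy.trans hl hc)
  linarith

theorem Closes.add_int (hl : HL l) (hkm : dot k₀ m = 1) {e κ θ₀ : ℝ} (h : Closes l k₀ e κ θ₀)
    (j : ℤ) : Closes l k₀ e κ (θ₀ + j) := by
  intro x y hx hy
  have hlev : ⟪zv k₀, zv (j • m)⟫ = (j : ℝ) := by
    rw [inner_zv, dot_zsmul, hkm, mul_one]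
  obtain ⟨T, k, r, hk, hc, hr⟩ := h (x - zv (j • m)) (y - zv (j • m))
    (by rw [inner_sub_right, hx, hlev]; ring) (by rw [inner_sub_right, hy, hlev]; ring)
  refine ⟨T, k, r, hk, ?_, hr⟩
  have h1 := hc.add_zv hl (j • m)
  rw [sub_add_cancel, show y - zv (j • m) + zv k + zv (j • m) = y + zv k by abel] at h1
  exact h1

theorem rest (hl : HL l) (hkm : dot k₀ m = 1) {e κ C₁ θa θc : ℝ} (hcrit : Crit l k₀ e)
    (hr : Rough l k₀ e C₁) (ha : Closes l k₀ e κ θa) (hc : Closes l k₀ e κ θc) (hac : θa ≤ θc)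
    (hca : θc ≤ θa + 1) :
    ∃ A B : ℝ, -(2 * κ) ≤ A + B ∧
      (∀ (T : ℝ) (x y : EuclideanSpace ℝ (Fin n)) (r : ℝ), ⟪zv k₀, x⟫ = θc →
        ⟪zv k₀, y⟫ = θa + 1 → Conn l e T x y r → A ≤ r) ∧
      ∀ (T : ℝ) (x y : EuclideanSpace ℝ (Fin n)) (r : ℝ), ⟪zv k₀, x⟫ = θa + 1 →
        ⟪zv k₀, y⟫ = θc → Conn l e T x y r → B ≤ r := by
  have ha1 : Closes l k₀ e κ (θa + 1) := by
    have := ha.add_int hl hkm 1
    simpa using this
  have hlev0 : ∀ t : ℝ, ⟪zv k₀, t • zv m⟫ = t := by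
    intro t
    rw [inner_smul_right, inner_zv, hkm]; simp
  have hlevk : ∀ (z : EuclideanSpace ℝ (Fin n)) (k : Fin n → ℤ), dot k₀ k = 0 →
      ⟪zv k₀, z + zv k⟫ = ⟪zv k₀, z⟫ := by
    intro z k hk
    rw [inner_add_right, inner_zv, hk]; simp
  -- the two families
  set SA : Set ℝ := {r | ∃ (T : ℝ) (x y : EuclideanSpace ℝ (Fin n)), ⟪zv k₀, x⟫ = θc ∧
    ⟪zv k₀, y⟫ = θa + 1 ∧ Conn l e T x y r} with hSA
  set SB : Set ℝ := {r | ∃ (T : ℝ) (x y : EuclideanSpace ℝ (Fin n)), ⟪zv k₀, x⟫ = θa + 1 ∧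
    ⟪zv k₀, y⟫ = θc ∧ Conn l e T x y r} with hSB
  have hneA : SA.Nonempty := by
    obtain ⟨T, k, r, hk, hcn, _⟩ := hr (θc • zv m) ((θa + 1) • zv m) (by
      rw [hlev0, hlev0, abs_le]; constructor <;> linarith)
    exact ⟨r, T, _, _, hlev0 _, by rw [hlevk _ _ hk, hlev0], hcn⟩
  have hneB : SB.Nonempty := by
    obtain ⟨T, k, r, hk, hcn, _⟩ := hr ((θa + 1) • zv m) (θc • zv m) (by
      rw [hlev0, hlev0, abs_le]; constructor <;> linarith)
    exact ⟨r, T, _, _, hlev0 _, by rw [hlevk _ _ hk, hlev0], hcn⟩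
  have key : ∀ r ∈ SA, ∀ r' ∈ SB, -(2 * κ) ≤ r + r' := by
    rintro r ⟨T, x, y, hx, hy, hxy⟩ r' ⟨T', x', y', hx', hy', hxy'⟩
    obtain ⟨T₁, k, r₁, hk, h1, hr1⟩ := ha1 y x' hy hx'
    obtain ⟨T₂, k', r₂, hk', h2, hr2⟩ := hc (y' + zv k) x (by rw [hlevk _ _ hk, hy']) hx
    have h3 := hcrit _ x k' _ hk' (((hxy.trans hl h1).trans hl (hxy'.add_zv hl k)).trans hl h2)
    linarith
  obtain ⟨ra, hra⟩ := hneA
  obtain ⟨rb, hrb⟩ := hneB
  have hbA : BddBelow SA := ⟨-(2 * κ) - rb, fun r hr => by linarith [key r hr rb hrb]⟩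
  have hbB : BddBelow SB := ⟨-(2 * κ) - ra, fun r hr => by linarith [key ra hra r hr]⟩
  refine ⟨sInf SA, sInf SB, ?_, ?_, ?_⟩
  · have h1 : ∀ r' ∈ SB, -(2 * κ) - r' ≤ sInf SA := fun r' hr' =>
      le_csInf ⟨ra, hra⟩ fun r hr => by linarith [key r hr r' hr']
    have h2 : -(2 * κ) - sInf SA ≤ sInf SB :=
      le_csInf ⟨rb, hrb⟩ fun r' hr' => by linarith [h1 r' hr']
    linarith
  · intro T x y r hx hy hxy
    exact csInf_le hbA ⟨T, x, y, hx, hy, hxy⟩
  · intro T x y r hx hy hxy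
    exact csInf_le hbB ⟨T, x, y, hx, hy, hxy⟩

end Pool.Agent.H33.AM

end

section

/-!
# Module T5: the cost of crossing a gap

Notation: `q = s • zv P`, `ũ = u - q`, `θ(t) = ⟪zv k₀, x t⟫`, `θ' = ⟪zv k₀, u⟫ = ⟪zv k₀, ũ⟫`.
* `Trap.gap`: by `Trap.lo`, `e ≥ M - ε` and `β₁ a ≤ κ₁/4 a² + β₁²/κ₁` the action is at least
  `∫ (κ₁/4 ‖ũ‖² + (M - w(θ)) - (2 ε + β₁²/κ₁)) - β₀ ≥ ∫ (κ₁/4 ‖ũ‖² + (M - w(θ))/2) - β₀`
  `≥ ∫ √(κ₁/2) ‖ũ‖ √(M - w(θ)) - β₀ ≥ √(κ₁/2)/‖zv k₀‖ |∫ √(M - w(θ)) θ'| - β₀`, and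
  `∫ √(M - w(θ)) θ' = Ψ(θ(b)) - Ψ(θ(a))`, `Ψ(θ) = ∫_{θa}^θ √(M - w)`, by `Adm.integral_grad` applied to
  `g y = Ψ ⟪zv k₀, y⟫`, `G y = √(M - w ⟪zv k₀, y⟫) • zv k₀`. (`zv k₀ ≠ 0` by `ne_zero_of_dot`.)
* `cross_gap`: by `crossing`, `crossing'` there are `σ₁ ≤ σ₂` such that the curve is in the gap on
  `[σ₁, σ₂]`, in the level of its beginning at the time `σ₁` and in the level of its end at `σ₂`; the
  pieces on `[0, σ₁]`, `[σ₂, T]` have both ends in the same level, hence cost `≥ -κ` (`Closes.same`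
  in module T4; its one-line proof may be repeated here: close up and use `Crit`).
-/

set_option autoImplicit false

open MeasureTheory
open scoped RealInnerProductSpace

namespace Pool.Agent.H33.AM

variable {n : ℕ} {l : EuclideanSpace ℝ (Fin n) → EuclideanSpace ℝ (Fin n) → ℝ}
  {k₀ m P : Fin n → ℤ} {s : ℝ} {w : ℝ → ℝ} {κ₁ κ₂ ε β₀ β₁ M : ℝ}

theorem cross_gap (hl : HL l) {e κ g₀ θa θc : ℝ} (hcrit : Crit l k₀ e)
    (ha : Closes l k₀ e κ θa) (hc : Closes l k₀ e κ θc) (hac : θa ≤ θc)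
    (hgap : ∀ (a b : ℝ) (x u : ℝ → EuclideanSpace ℝ (Fin n)), Adm a b x u →
      (∀ t ∈ Set.Icc a b, ⟪zv k₀, x t⟫ ∈ Set.Icc θa θc) →
      ((⟪zv k₀, x a⟫ = θa ∧ ⟪zv k₀, x b⟫ = θc) ∨ (⟪zv k₀, x a⟫ = θc ∧ ⟪zv k₀, x b⟫ = θa)) →
      g₀ ≤ act l e a b x u)
    {T : ℝ} {x y : EuclideanSpace ℝ (Fin n)} {r : ℝ}
    (hxy : (⟪zv k₀, x⟫ = θa ∧ ⟪zv k₀, y⟫ = θc) ∨ (⟪zv k₀, x⟫ = θc ∧ ⟪zv k₀, y⟫ = θa))
    (h : Conn l e T x y r) : g₀ - 2 * κ ≤ r := by
  obtain ⟨ξ, u, hadm, h0, hT, hr⟩ := h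
  have hT0 : 0 ≤ T := hadm.le
  have hcont : ContinuousOn (fun t => ⟪zv k₀, ξ t⟫) (Set.Icc 0 T) :=
    continuousOn_const.inner hadm.cont
  have main : ∀ σ₁ σ₂ : ℝ, 0 ≤ σ₁ → σ₁ ≤ σ₂ → σ₂ ≤ T →
      (∀ t ∈ Set.Icc σ₁ σ₂, ⟪zv k₀, ξ t⟫ ∈ Set.Icc θa θc) →
      ((⟪zv k₀, x⟫ = θa ∧ ⟪zv k₀, ξ σ₁⟫ = θa ∧ ⟪zv k₀, ξ σ₂⟫ = θc ∧ ⟪zv k₀, y⟫ = θc) ∨
        (⟪zv k₀, x⟫ = θc ∧ ⟪zv k₀, ξ σ₁⟫ = θc ∧ ⟪zv k₀, ξ σ₂⟫ = θa ∧ ⟪zv k₀, y⟫ = θa)) →
      g₀ - 2 * κ ≤ r := by
    intro σ₁ σ₂ hσ₁ hσ hσ₂ hin hcase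
    have a1 : Adm 0 σ₁ ξ u := hadm.sub le_rfl hσ₁ (hσ.trans hσ₂)
    have a2 : Adm σ₁ σ₂ ξ u := hadm.sub hσ₁ hσ hσ₂
    have a3 : Adm σ₂ T ξ u := hadm.sub (hσ₁.trans hσ) hσ₂ le_rfl
    have c1 := Conn.of_adm hl (e := e) a1
    have c3 := Conn.of_adm hl (e := e) a3
    have e1 := act_add hl (e := e) hadm hσ₁ (hσ.trans hσ₂)
    have e2 := act_add hl (e := e) (hadm.sub hσ₁ (hσ.trans hσ₂) le_rfl) hσ hσ₂
    rw [h0] at c1
    rw [hT] at c3
    rcases hcase with ⟨q1, q2, q3, q4⟩ | ⟨q1, q2, q3, q4⟩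
    · have b1 := ha.same hl hcrit q1 q2 c1
      have b3 := hc.same hl hcrit q3 q4 c3
      have b2 := hgap σ₁ σ₂ ξ u a2 hin (Or.inl ⟨q2, q3⟩)
      rw [← hr]
      linarith
    · have b1 := hc.same hl hcrit q1 q2 c1
      have b3 := ha.same hl hcrit q3 q4 c3
      have b2 := hgap σ₁ σ₂ ξ u a2 hin (Or.inr ⟨q2, q3⟩)
      rw [← hr]
      linarith
  rcases hxy with ⟨q1, q2⟩ | ⟨q1, q2⟩
  · obtain ⟨σ₁, σ₂, s1, s2, s3, s4, s5, s6⟩ := crossing hT0 hcont (A := θa) (B := θc)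
      (by rw [h0]; exact q1.le) hac (by rw [hT]; exact q2.ge)
    exact main σ₁ σ₂ s1 s2 s3 (fun t ht => ⟨(s6 t ht).1, (s6 t ht).2⟩) (Or.inl ⟨q1, s4, s5, q2⟩)
  · obtain ⟨σ₁, σ₂, s1, s2, s3, s4, s5, s6⟩ := crossing' hT0 hcont (A := θa) (B := θc)
      (by rw [h0]; exact q1.ge) hac (by rw [hT]; exact q2.le)
    exact main σ₁ σ₂ s1 s2 s3 (fun t ht => ⟨(s6 t ht).1, (s6 t ht).2⟩) (Or.inr ⟨q1, s4, s5, q2⟩)

end Pool.Agent.H33.AM

end

section

/-!
# Module T3: closing up curves inside a level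

Notation: `q = s • zv P`, `θ(x) = ⟪zv k₀, x⟫`.
* `Trap.closes`: let `θ(x) = θ(y) = θ₀`, `z = y - x - τ₀ q`; `θ(z) = 0` (as `dot k₀ P = 0`), so there is
  `k'` with `dot k₀ k' = 0`, `‖z - zv k'‖ ≤ C₀`. The straight line `t ↦ x + t (q + w₀)`,
  `w₀ = (z - zv k') / τ₀`, `t ∈ [0, τ₀]`, ends in `y - zv k' = y + zv (-k')`, stays in the level `θ₀`
  (`⟪zv k₀, w₀⟫ = 0`), and by `Trap.hi` its action w.r.t. `ℓ + e` is at most
  `κ₂/2 (C₀/τ₀)² τ₀ - w(θ₀) τ₀ + ε τ₀ + β₀ + β₁ C₀ + e τ₀`; use `w(θ₀) ≥ M - ω` and the bound of `e`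
  (and `β₁²/(2 κ₁) ≤ β₁²/κ₁`).
* `Trap.rough`: the same with `τ₀ = 1`, `|θ(z)| ≤ 1`; `w` is bounded (continuous and periodic).
-/

set_option autoImplicit false

open MeasureTheory
open scoped RealInnerProductSpace

namespace Pool.Agent.H33.AM

variable {n : ℕ} {l : EuclideanSpace ℝ (Fin n) → EuclideanSpace ℝ (Fin n) → ℝ}
  {k₀ m P : Fin n → ℤ} {s : ℝ} {w : ℝ → ℝ} {κ₁ κ₂ ε β₀ β₁ M : ℝ}

private theorem t3_line (h : Trap l k₀ m P s w κ₁ κ₂ ε β₀ β₁ M) (e : ℝ) {T : ℝ} (hT : 0 ≤ T)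
    (x v : EuclideanSpace ℝ (Fin n)) {C : ℝ} (hC : ‖v - s • zv P‖ * T ≤ C) (hC0 : 0 ≤ C) :
    Conn l e T x (x + T • v) (act l e 0 T (fun t => x + t • v) fun _ => v) ∧
      act l e 0 T (fun t => x + t • v) (fun _ => v) ≤
        κ₂ / 2 * (‖v - s • zv P‖ * C) - (∫ t in (0 : ℝ)..T, w ⟪zv k₀, x + t • v⟫) + ε * T + β₀
          + β₁ * C + e * T := by
  have hadm := Adm.line hT x v
  refine ⟨⟨fun t => x + t • v, fun _ => v, hadm, by simp, rfl, rfl⟩, ?_⟩
  have hi := h.hi 0 T _ _ hadm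
  have hint : IntervalIntegrable (fun t => l (x + t • v) v) volume 0 T :=
    hadm.integrable (g := fun p => l p.1 p.2) h.hl.cont
  have h1 : act l e 0 T (fun t => x + t • v) (fun _ => v) =
      (∫ t in (0 : ℝ)..T, l (x + t • v) v) + e * T := by
    unfold act
    rw [intervalIntegral.integral_add hint intervalIntegrable_const,
      intervalIntegral.integral_const]
    simp [mul_comm]
  have hwc : Continuous fun t : ℝ => w ⟪zv k₀, x + t • v⟫ := by
    refine h.w_cont.comp ?_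
    fun_prop
  have h2 : (∫ t in (0 : ℝ)..T, (κ₂ / 2 * ‖v - s • zv P‖ ^ 2 - w ⟪zv k₀, x + t • v⟫)) =
      κ₂ / 2 * ‖v - s • zv P‖ ^ 2 * T - ∫ t in (0 : ℝ)..T, w ⟪zv k₀, x + t • v⟫ := by
    rw [intervalIntegral.integral_sub intervalIntegrable_const (hwc.intervalIntegrable _ _),
      intervalIntegral.integral_const]
    simp [mul_comm]
  have h3 : (∫ _t in (0 : ℝ)..T, ‖v - s • zv P‖) = ‖v - s • zv P‖ * T := by
    rw [intervalIntegral.integral_const]
    simp [mul_comm]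
  rw [h2, h3, sub_zero] at hi
  rw [h1]
  have hn : 0 ≤ ‖v - s • zv P‖ := norm_nonneg _
  have h4 : κ₂ / 2 * ‖v - s • zv P‖ ^ 2 * T ≤ κ₂ / 2 * (‖v - s • zv P‖ * C) := by
    have h5 : ‖v - s • zv P‖ * (‖v - s • zv P‖ * T) ≤ ‖v - s • zv P‖ * C :=
      mul_le_mul_of_nonneg_left hC hn
    have h6 := mul_le_mul_of_nonneg_left h5 (half_pos h.κ₂_pos).le
    calc κ₂ / 2 * ‖v - s • zv P‖ ^ 2 * T
        = κ₂ / 2 * (‖v - s • zv P‖ * (‖v - s • zv P‖ * T)) := by ring
      _ ≤ _ := h6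
  have h5 : β₁ * (‖v - s • zv P‖ * T) ≤ β₁ * C := mul_le_mul_of_nonneg_left hC h.β₁_nonneg
  linarith

theorem Trap.closes (h : Trap l k₀ m P s w κ₁ κ₂ ε β₀ β₁ M) {e C₀ ω τ₀ θ₀ : ℝ}
    (he : e ≤ M + ε + β₁ ^ 2 / (2 * κ₁)) (hC₀ : 0 ≤ C₀)
    (hC : ∀ z : EuclideanSpace ℝ (Fin n), |⟪zv k₀, z⟫| ≤ 1 →
      ∃ k : Fin n → ℤ, dot k₀ k = 0 ∧ ‖z - zv k‖ ≤ C₀)
    (hτ : 0 < τ₀) (hw : M - ω ≤ w θ₀) :
    Closes l k₀ e (κ₂ * C₀ ^ 2 / (2 * τ₀) + (ω + (2 * ε + β₁ ^ 2 / κ₁)) * τ₀ + β₀ + β₁ * C₀)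
      θ₀ := by
  intro x y hx hy
  have hkP : ⟪zv k₀, zv P⟫ = (0 : ℝ) := by rw [inner_zv, h.kP]; simp
  set z : EuclideanSpace ℝ (Fin n) := y - x - τ₀ • (s • zv P) with hz
  have hz0 : ⟪zv k₀, z⟫ = (0 : ℝ) := by
    rw [hz, inner_sub_right, inner_sub_right, inner_smul_right, inner_smul_right, hkP, hx, hy]
    ring
  obtain ⟨k, hk, hkC⟩ := hC z (by rw [hz0]; norm_num)
  set v : EuclideanSpace ℝ (Fin n) := s • zv P + τ₀⁻¹ • (z - zv k) with hv
  have hvq : v - s • zv P = τ₀⁻¹ • (z - zv k) := by rw [hv]; abel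
  have hnv : ‖v - s • zv P‖ = τ₀⁻¹ * ‖z - zv k‖ := by
    rw [hvq, norm_smul, Real.norm_of_nonneg (inv_pos.2 hτ).le]
  have hnT : ‖v - s • zv P‖ * τ₀ ≤ C₀ := by
    rw [hnv]
    have : τ₀⁻¹ * ‖z - zv k‖ * τ₀ = ‖z - zv k‖ := by field_simp
    rw [this]; exact hkC
  obtain ⟨h1, h2⟩ := t3_line h e hτ.le x v hnT hC₀
  have hk0v : ⟪zv k₀, v⟫ = (0 : ℝ) := by
    rw [hv, inner_add_right, inner_smul_right, hkP, inner_smul_right, inner_sub_right, hz0,
      inner_zv, hk]
    simp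
  have hend : x + τ₀ • v = y + zv (-k) := by
    rw [hv, smul_add, smul_smul τ₀ τ₀⁻¹, mul_inv_cancel₀ hτ.ne', one_smul, hz, zv_neg]
    abel
  rw [hend] at h1
  refine ⟨τ₀, -k, _, by rw [dot_neg, hk, neg_zero], h1, h2.trans ?_⟩
  have h3 : (∫ t in (0 : ℝ)..τ₀, w ⟪zv k₀, x + t • v⟫) = τ₀ * w θ₀ := by
    have : (fun t : ℝ => w ⟪zv k₀, x + t • v⟫) = fun _ => w θ₀ := by
      funext t
      rw [inner_add_right, inner_smul_right, hk0v, hx, mul_zero, add_zero]
    rw [this, intervalIntegral.integral_const]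
    simp
  rw [h3]
  have h4 : ‖v - s • zv P‖ ≤ C₀ / τ₀ := by rw [le_div_iff₀ hτ]; exact hnT
  have h5 : κ₂ / 2 * (‖v - s • zv P‖ * C₀) ≤ κ₂ * C₀ ^ 2 / (2 * τ₀) := by
    have h6 := mul_le_mul_of_nonneg_right h4 hC₀
    have h7 := mul_le_mul_of_nonneg_left h6 (half_pos h.κ₂_pos).le
    calc κ₂ / 2 * (‖v - s • zv P‖ * C₀) ≤ κ₂ / 2 * (C₀ / τ₀ * C₀) := h7
      _ = κ₂ * C₀ ^ 2 / (2 * τ₀) := by field_simp
  have h6 : τ₀ * (M - ω) ≤ τ₀ * w θ₀ := mul_le_mul_of_nonneg_left hw hτ.le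
  have h7 : e * τ₀ ≤ (M + ε + β₁ ^ 2 / (2 * κ₁)) * τ₀ := mul_le_mul_of_nonneg_right he hτ.le
  have h8 : β₁ ^ 2 / (2 * κ₁) * τ₀ ≤ β₁ ^ 2 / κ₁ * τ₀ := by
    refine mul_le_mul_of_nonneg_right ?_ hτ.le
    refine div_le_div_of_nonneg_left (sq_nonneg _) h.κ₁_pos ?_
    linarith [h.κ₁_pos]
  nlinarith

theorem Trap.rough (h : Trap l k₀ m P s w κ₁ κ₂ ε β₀ β₁ M) (e : ℝ) {C₀ : ℝ} (hC₀ : 0 ≤ C₀)
    (hC : ∀ z : EuclideanSpace ℝ (Fin n), |⟪zv k₀, z⟫| ≤ 1 →
      ∃ k : Fin n → ℤ, dot k₀ k = 0 ∧ ‖z - zv k‖ ≤ C₀) :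
    ∃ C₁, Rough l k₀ e C₁ := by
  obtain ⟨B, hB⟩ : ∃ B, ∀ θ, |w θ| ≤ B := by
    obtain ⟨B, hB⟩ := isCompact_Icc.exists_bound_of_continuousOn (s := Set.Icc (0 : ℝ) 1)
      h.w_cont.continuousOn
    refine ⟨B, fun θ => ?_⟩
    have hper : Function.Periodic w 1 := h.w_per
    have h1 : w (Int.fract θ) = w θ := by
      have := hper.sub_zsmul_eq (x := θ) ⌊θ⌋
      rw [← this]
      congr 1
      rw [Int.fract]; simp
    rw [← h1, ← Real.norm_eq_abs]
    exact hB _ ⟨Int.fract_nonneg θ, (Int.fract_lt_one θ).le⟩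
  refine ⟨κ₂ / 2 * (C₀ * C₀) + B + ε + β₀ + β₁ * C₀ + e, ?_⟩
  intro x y hxy
  have hkP : ⟪zv k₀, zv P⟫ = (0 : ℝ) := by rw [inner_zv, h.kP]; simp
  set z : EuclideanSpace ℝ (Fin n) := y - x - s • zv P with hz
  have hz0 : ⟪zv k₀, z⟫ = ⟪zv k₀, y⟫ - ⟪zv k₀, x⟫ := by
    rw [hz, inner_sub_right, inner_sub_right, inner_smul_right, hkP]
    ring
  obtain ⟨k, hk, hkC⟩ := hC z (by rw [hz0]; exact hxy)
  set v : EuclideanSpace ℝ (Fin n) := s • zv P + (z - zv k) with hv
  have hvq : v - s • zv P = z - zv k := by rw [hv]; abel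
  have hnT : ‖v - s • zv P‖ * 1 ≤ C₀ := by rw [hvq, mul_one]; exact hkC
  obtain ⟨h1, h2⟩ := t3_line h e zero_le_one x v hnT hC₀
  have hend : x + (1 : ℝ) • v = y + zv (-k) := by
    rw [hv, one_smul, hz, zv_neg]
    abel
  rw [hend] at h1
  refine ⟨1, -k, _, by rw [dot_neg, hk, neg_zero], h1, h2.trans ?_⟩
  have hwc : Continuous fun t : ℝ => w ⟪zv k₀, x + t • v⟫ := by
    refine h.w_cont.comp ?_
    fun_prop
  have h3 : -B ≤ ∫ t in (0 : ℝ)..1, w ⟪zv k₀, x + t • v⟫ := by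
    have h4 : (∫ _t in (0 : ℝ)..1, -B) ≤ ∫ t in (0 : ℝ)..1, w ⟪zv k₀, x + t • v⟫ :=
      intervalIntegral.integral_mono_on zero_le_one intervalIntegrable_const
        (hwc.intervalIntegrable _ _) fun t _ => (abs_le.1 (hB _)).1
    rw [intervalIntegral.integral_const] at h4
    simpa using h4
  have h5 : κ₂ / 2 * (‖v - s • zv P‖ * C₀) ≤ κ₂ / 2 * (C₀ * C₀) := by
    rw [mul_one] at hnT
    exact mul_le_mul_of_nonneg_left (mul_le_mul_of_nonneg_right hnT hC₀) (half_pos h.κ₂_pos).le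
  linarith

end Pool.Agent.H33.AM

end

section

/-!
# Module T5: the cost of crossing a gap

Notation: `q = s • zv P`, `ũ = u - q`, `θ(t) = ⟪zv k₀, x t⟫`, `θ' = ⟪zv k₀, u⟫ = ⟪zv k₀, ũ⟫`.
* `Trap.gap`: by `Trap.lo`, `e ≥ M - ε` and `β₁ a ≤ κ₁/4 a² + β₁²/κ₁` the action is at least
  `∫ (κ₁/4 ‖ũ‖² + (M - w(θ)) - (2 ε + β₁²/κ₁)) - β₀ ≥ ∫ (κ₁/4 ‖ũ‖² + (M - w(θ))/2) - β₀`
  `≥ ∫ √(κ₁/2) ‖ũ‖ √(M - w(θ)) - β₀ ≥ √(κ₁/2)/‖zv k₀‖ |∫ √(M - w(θ)) θ'| - β₀`, and
  `∫ √(M - w(θ)) θ' = Ψ(θ(b)) - Ψ(θ(a))`, `Ψ(θ) = ∫_{θa}^θ √(M - w)`, by `Adm.integral_grad` applied to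
  `g y = Ψ ⟪zv k₀, y⟫`, `G y = √(M - w ⟪zv k₀, y⟫) • zv k₀`. (`zv k₀ ≠ 0` by `ne_zero_of_dot`.)
* `cross_gap`: by `crossing`, `crossing'` there are `σ₁ ≤ σ₂` such that the curve is in the gap on
  `[σ₁, σ₂]`, in the level of its beginning at the time `σ₁` and in the level of its end at `σ₂`; the
  pieces on `[0, σ₁]`, `[σ₂, T]` have both ends in the same level, hence cost `≥ -κ` (`Closes.same`
  in module T4; its one-line proof may be repeated here: close up and use `Crit`).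
-/

set_option autoImplicit false

open MeasureTheory
open scoped RealInnerProductSpace

namespace Pool.Agent.H33.AM

variable {n : ℕ} {l : EuclideanSpace ℝ (Fin n) → EuclideanSpace ℝ (Fin n) → ℝ}
  {k₀ m P : Fin n → ℤ} {s : ℝ} {w : ℝ → ℝ} {κ₁ κ₂ ε β₀ β₁ M : ℝ}

/-- The primitive of `√(M - w)` as a function on the space. -/
private theorem T5a_grad {w : ℝ → ℝ} (hw : Continuous w) (M θa : ℝ) (z y : EuclideanSpace ℝ (Fin n)) :
    HasGradientAt (fun y : EuclideanSpace ℝ (Fin n) => ∫ θ in θa..⟪z, y⟫, √(M - w θ))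
      (√(M - w ⟪z, y⟫) • z) y := by
  have hc : Continuous fun θ => √(M - w θ) := (continuous_const.sub hw).sqrt
  have h1 : HasDerivAt (fun t : ℝ => ∫ θ in θa..t, √(M - w θ)) (√(M - w ⟪z, y⟫)) ⟪z, y⟫ :=
    intervalIntegral.integral_hasDerivAt_right (hc.intervalIntegrable _ _)
      (hc.stronglyMeasurableAtFilter _ _) hc.continuousAt
  have h2 : HasFDerivAt (fun y : EuclideanSpace ℝ (Fin n) => ⟪z, y⟫) (innerSL ℝ z) y :=
    (innerSL ℝ z).hasFDerivAt
  have h3 := h1.comp_hasFDerivAt y h2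
  rw [hasGradientAt_iff_hasFDerivAt]
  refine h3.congr_fderiv ?_
  ext v
  simp [InnerProductSpace.toDual_apply_apply]

private theorem T5a_point {κ W a b N ε' : ℝ} (hκ : 0 < κ) (hN : 0 < N) (hε : 2 * ε' ≤ W)
    (hε' : 0 ≤ ε') (hb : b ≤ N * a) :
    √(κ / 2) / N * (√W * b) ≤ κ / 4 * a ^ 2 + W - ε' := by
  have hW : 0 ≤ W := by linarith
  have h1 : √(κ / 2) ^ 2 = κ / 2 := Real.sq_sqrt (by positivity)
  have h2 : √W ^ 2 = W := Real.sq_sqrt hW
  have h3 : 0 ≤ √(κ / 2) := Real.sqrt_nonneg _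
  have h4 : 0 ≤ √W := Real.sqrt_nonneg _
  have h5 : √(κ / 2) / N * (√W * b) ≤ √(κ / 2) * √W * a := by
    have : √(κ / 2) / N * (√W * b) ≤ √(κ / 2) / N * (√W * (N * a)) := by
      apply mul_le_mul_of_nonneg_left _ (by positivity)
      exact mul_le_mul_of_nonneg_left hb h4
    refine this.trans (le_of_eq ?_)
    field_simp
  have h6 : √(κ / 2) * √W * a ≤ κ / 4 * a ^ 2 + W / 2 := by
    nlinarith [sq_nonneg (√(κ / 2) * a - √W)]
  linarith

theorem Trap.gap (h : Trap l k₀ m P s w κ₁ κ₂ ε β₀ β₁ M) {e θa θc : ℝ} (he : M - ε ≤ e)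
    (hac : θa ≤ θc) (hgap : ∀ θ ∈ Set.Icc θa θc, 2 * (2 * ε + β₁ ^ 2 / κ₁) ≤ M - w θ)
    {a b : ℝ} {x u : ℝ → EuclideanSpace ℝ (Fin n)} (hx : Adm a b x u)
    (hθ : ∀ t ∈ Set.Icc a b, ⟪zv k₀, x t⟫ ∈ Set.Icc θa θc)
    (hends : (⟪zv k₀, x a⟫ = θa ∧ ⟪zv k₀, x b⟫ = θc) ∨ (⟪zv k₀, x a⟫ = θc ∧ ⟪zv k₀, x b⟫ = θa)) :
    √(κ₁ / 2) / ‖zv k₀‖ * (∫ θ in θa..θc, √(M - w θ)) - β₀ ≤ act l e a b x u := by
  have hab := hx.le
  have hκ := h.κ₁_pos
  have hβ₁ := h.β₁_nonneg
  have hε := h.ε_nonneg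
  have hw := h.w_cont
  have hN : 0 < ‖zv k₀‖ := norm_pos_iff.2 (ne_zero_of_dot h.km).2
  have hkP : ⟪zv k₀, zv P⟫ = 0 := by
    rw [inner_zv, h.kP]
    simp
  -- integrability
  have i1 : IntervalIntegrable (fun t => l (x t) (u t)) volume a b :=
    hx.integrable h.hl.cont
  have i2 : IntervalIntegrable (fun t => κ₁ / 2 * ‖u t - s • zv P‖ ^ 2 - w ⟪zv k₀, x t⟫)
      volume a b :=
    hx.integrable (g := fun p => κ₁ / 2 * ‖p.2 - s • zv P‖ ^ 2 - w ⟪zv k₀, p.1⟫) (by fun_prop)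
  have i3 : IntervalIntegrable (fun t => ‖u t - s • zv P‖) volume a b :=
    hx.integrable (g := fun p => ‖p.2 - s • zv P‖) (by fun_prop)
  have hGc : Continuous fun y : EuclideanSpace ℝ (Fin n) => √(M - w ⟪zv k₀, y⟫) • zv k₀ := by
    have : Continuous fun y : EuclideanSpace ℝ (Fin n) => √(M - w ⟪zv k₀, y⟫) :=
      (continuous_const.sub (hw.comp (by fun_prop))).sqrt
    exact this.smul continuous_const
  have i4 : IntervalIntegrable (fun t => ⟪√(M - w ⟪zv k₀, x t⟫) • zv k₀, u t⟫) volume a b :=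
    hx.integrable (g := fun p => ⟪√(M - w ⟪zv k₀, p.1⟫) • zv k₀, p.2⟫)
      ((hGc.comp continuous_fst).inner continuous_snd)
  -- the action
  have e1 : act l e a b x u = (∫ t in a..b, l (x t) (u t)) + e * (b - a) := by
    unfold act
    rw [intervalIntegral.integral_add i1 intervalIntegrable_const,
      intervalIntegral.integral_const, smul_eq_mul]
    ring
  have e2 := h.lo a b x u hx
  -- the integral of the primitive
  have e3 := hx.integral_grad (fun y => T5a_grad hw M θa (zv k₀) y) hGc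
  -- the comparison for both signs
  have main : ∀ σ : ℝ, (σ = 1 ∨ σ = -1) →
      √(κ₁ / 2) / ‖zv k₀‖ * (σ * ∫ t in a..b, ⟪√(M - w ⟪zv k₀, x t⟫) • zv k₀, u t⟫) - β₀ ≤
        act l e a b x u := by
    intro σ hσ
    have m1 : ∫ t in a..b, (√(κ₁ / 2) / ‖zv k₀‖ * (σ * ⟪√(M - w ⟪zv k₀, x t⟫) • zv k₀, u t⟫)) ≤
        ∫ t in a..b, ((κ₁ / 2 * ‖u t - s • zv P‖ ^ 2 - w ⟪zv k₀, x t⟫) -
          β₁ * ‖u t - s • zv P‖ + (M - 2 * ε)) := by
      apply intervalIntegral.integral_mono_on hab ((i4.const_mul σ).const_mul _)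
        ((i2.sub (i3.const_mul β₁)).add intervalIntegrable_const)
      intro t ht
      have g1 := hgap _ (hθ t ht)
      have g2 : β₁ * ‖u t - s • zv P‖ ≤ κ₁ / 4 * ‖u t - s • zv P‖ ^ 2 + β₁ ^ 2 / κ₁ := by
        have : 0 ≤ (κ₁ * ‖u t - s • zv P‖ - 2 * β₁) ^ 2 / (4 * κ₁) := by positivity
        have e : (κ₁ * ‖u t - s • zv P‖ - 2 * β₁) ^ 2 / (4 * κ₁) =
            κ₁ / 4 * ‖u t - s • zv P‖ ^ 2 + β₁ ^ 2 / κ₁ - β₁ * ‖u t - s • zv P‖ := by
          field_simp
          ring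
        linarith
      have g3 : σ * ⟪zv k₀, u t⟫ ≤ ‖zv k₀‖ * ‖u t - s • zv P‖ := by
        have g4 : ⟪zv k₀, u t⟫ = ⟪zv k₀, u t - s • zv P⟫ := by
          rw [inner_sub_right, inner_smul_right, hkP]
          ring
        have g5 := abs_real_inner_le_norm (zv k₀) (u t - s • zv P)
        rw [← g4] at g5
        rcases hσ with rfl | rfl
        · rw [one_mul]
          exact (le_abs_self _).trans g5
        · rw [neg_one_mul]
          exact (neg_le_abs _).trans g5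
      have g6 := T5a_point (κ := κ₁) (W := M - w ⟪zv k₀, x t⟫) (a := ‖u t - s • zv P‖)
        (b := σ * ⟪zv k₀, u t⟫) (N := ‖zv k₀‖) (ε' := 2 * ε + β₁ ^ 2 / κ₁) hκ hN g1
        (by positivity) g3
      rw [inner_smul_left]
      simp only [conj_trivial]
      have g7 : √(κ₁ / 2) / ‖zv k₀‖ * (σ * (√(M - w ⟪zv k₀, x t⟫) * ⟪zv k₀, u t⟫)) =
          √(κ₁ / 2) / ‖zv k₀‖ * (√(M - w ⟪zv k₀, x t⟫) * (σ * ⟪zv k₀, u t⟫)) := by ring
      rw [g7]
      linarith
    rw [intervalIntegral.integral_const_mul, intervalIntegral.integral_const_mul,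
      intervalIntegral.integral_add (i2.sub (i3.const_mul β₁)) intervalIntegrable_const,
      intervalIntegral.integral_sub i2 (i3.const_mul β₁), intervalIntegral.integral_const_mul,
      intervalIntegral.integral_const, smul_eq_mul] at m1
    have m2 : (M - ε) * (b - a) ≤ e * (b - a) :=
      mul_le_mul_of_nonneg_right he (by linarith)
    rw [e1]
    linarith
  rcases hends with ⟨ha, hb⟩ | ⟨ha, hb⟩
  · have m := main 1 (Or.inl rfl)
    rw [e3, ha, hb, intervalIntegral.integral_same, sub_zero, one_mul] at m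
    exact m
  · have m := main (-1) (Or.inr rfl)
    rw [e3, ha, hb, intervalIntegral.integral_same, zero_sub] at m
    rw [show (-1 : ℝ) * -(∫ θ in θa..θc, √(M - w θ)) = ∫ θ in θa..θc, √(M - w θ) by ring] at m
    exact m

end Pool.Agent.H33.AM

end

section

/-!
# Module T6: curves between the levels `θa + i`, `θa + j`; the abstract trapping lemma

* `levels`, `i ≤ j`: induction on `j - i`. `j = i`: `hsame` (translated by `zv (-(i • m))`, see
  `Conn.add_zv`, `dot k₀ m = 1`). `j > i`: by `Conn.cross` (twice) the curve is a concatenation of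
  curves: level `θa + i` → level `θc + i` (cost `≥ b`), → level `θa + i + 1` (cost `≥ A`), → level
  `θa + j` (cost `≥ (j - i - 1) (b + A) - κ`). All the hypotheses are applied after a translation by an
  integer multiple of `zv m`. `j ≤ i`: symmetric.
* `trapped_of_levels`: choose integers `i`, `j` with `|⟪zv k₀, x⟫ - (θa + i)| ≤ 1`,
  `|⟪zv k₀, y⟫ - (θa + j)| ≤ 1` (floor), extend the curve at both ends to the levels `θa + i`, `θa + j` by
  `Rough` (a point of level `t` is `t • zv m`): `r + 2 C₁ ≥ (j - i) fu - κ ≥ (j - i) η - κ` if `i ≤ j`,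
  and `≥ (i - j) fd - κ ≥ (j - i) η - κ` if `j ≤ i`. So
  `C = κ + 2 C₁ + 2 (|fu| + |fd|)` works for every `η ∈ [-fd, fu]`.
-/

set_option autoImplicit false

open MeasureTheory
open scoped RealInnerProductSpace

namespace Pool.Agent.H33.AM

variable {n : ℕ} {l : EuclideanSpace ℝ (Fin n) → EuclideanSpace ℝ (Fin n) → ℝ}
  {k₀ m : Fin n → ℤ}

private theorem T6a_tr (hkm : dot k₀ m = 1) (x : EuclideanSpace ℝ (Fin n)) (i : ℤ) :
    ⟪zv k₀, x + zv (-(i • m))⟫ = ⟪zv k₀, x⟫ - i := by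
  rw [inner_add_right, inner_zv, dot_neg, dot_zsmul, hkm]
  push_cast
  ring

theorem levels (hl : HL l) (hkm : dot k₀ m = 1) {e κ b A B θa θc : ℝ} (hac : θa ≤ θc)
    (hca : θc ≤ θa + 1)
    (hsame : ∀ (T : ℝ) (x y : EuclideanSpace ℝ (Fin n)) (r : ℝ), ⟪zv k₀, x⟫ = θa →
      ⟪zv k₀, y⟫ = θa → Conn l e T x y r → -κ ≤ r)
    (hgap : ∀ (T : ℝ) (x y : EuclideanSpace ℝ (Fin n)) (r : ℝ),
      ((⟪zv k₀, x⟫ = θa ∧ ⟪zv k₀, y⟫ = θc) ∨ (⟪zv k₀, x⟫ = θc ∧ ⟪zv k₀, y⟫ = θa)) →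
      Conn l e T x y r → b ≤ r)
    (hup : ∀ (T : ℝ) (x y : EuclideanSpace ℝ (Fin n)) (r : ℝ), ⟪zv k₀, x⟫ = θc →
      ⟪zv k₀, y⟫ = θa + 1 → Conn l e T x y r → A ≤ r)
    (hdown : ∀ (T : ℝ) (x y : EuclideanSpace ℝ (Fin n)) (r : ℝ), ⟪zv k₀, x⟫ = θa + 1 →
      ⟪zv k₀, y⟫ = θc → Conn l e T x y r → B ≤ r)
    (i j : ℤ) {T : ℝ} {x y : EuclideanSpace ℝ (Fin n)} {r : ℝ} (hx : ⟪zv k₀, x⟫ = θa + i)
    (hy : ⟪zv k₀, y⟫ = θa + j) (h : Conn l e T x y r) :
    (i ≤ j → ((j : ℝ) - i) * (b + A) - κ ≤ r) ∧ (j ≤ i → ((i : ℝ) - j) * (b + B) - κ ≤ r) := by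
  have hsame' : ∀ (i : ℤ) (T : ℝ) (x y : EuclideanSpace ℝ (Fin n)) (r : ℝ),
      ⟪zv k₀, x⟫ = θa + i → ⟪zv k₀, y⟫ = θa + i → Conn l e T x y r → -κ ≤ r := by
    intro i T x y r hx hy h
    refine hsame T _ _ r ?_ ?_ (h.add_zv hl (-(i • m)))
    · rw [T6a_tr hkm, hx]; ring
    · rw [T6a_tr hkm, hy]; ring
  have hgapU : ∀ (i : ℤ) (T : ℝ) (x y : EuclideanSpace ℝ (Fin n)) (r : ℝ),
      ⟪zv k₀, x⟫ = θa + i → ⟪zv k₀, y⟫ = θc + i → Conn l e T x y r → b ≤ r := by
    intro i T x y r hx hy h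
    refine hgap T _ _ r (Or.inl ⟨?_, ?_⟩) (h.add_zv hl (-(i • m)))
    · rw [T6a_tr hkm, hx]; ring
    · rw [T6a_tr hkm, hy]; ring
  have hgapD : ∀ (i : ℤ) (T : ℝ) (x y : EuclideanSpace ℝ (Fin n)) (r : ℝ),
      ⟪zv k₀, x⟫ = θc + i → ⟪zv k₀, y⟫ = θa + i → Conn l e T x y r → b ≤ r := by
    intro i T x y r hx hy h
    refine hgap T _ _ r (Or.inr ⟨?_, ?_⟩) (h.add_zv hl (-(i • m)))
    · rw [T6a_tr hkm, hx]; ring
    · rw [T6a_tr hkm, hy]; ring
  have hup' : ∀ (i : ℤ) (T : ℝ) (x y : EuclideanSpace ℝ (Fin n)) (r : ℝ),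
      ⟪zv k₀, x⟫ = θc + i → ⟪zv k₀, y⟫ = θa + 1 + i → Conn l e T x y r → A ≤ r := by
    intro i T x y r hx hy h
    refine hup T _ _ r ?_ ?_ (h.add_zv hl (-(i • m)))
    · rw [T6a_tr hkm, hx]; ring
    · rw [T6a_tr hkm, hy]; ring
  have hdown' : ∀ (i : ℤ) (T : ℝ) (x y : EuclideanSpace ℝ (Fin n)) (r : ℝ),
      ⟪zv k₀, x⟫ = θa + 1 + i → ⟪zv k₀, y⟫ = θc + i → Conn l e T x y r → B ≤ r := by
    intro i T x y r hx hy h
    refine hdown T _ _ r ?_ ?_ (h.add_zv hl (-(i • m)))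
    · rw [T6a_tr hkm, hx]; ring
    · rw [T6a_tr hkm, hy]; ring
  have up : ∀ (k : ℕ) (i : ℤ) (T : ℝ) (x y : EuclideanSpace ℝ (Fin n)) (r : ℝ),
      ⟪zv k₀, x⟫ = θa + i → ⟪zv k₀, y⟫ = θa + i + k → Conn l e T x y r →
      (k : ℝ) * (b + A) - κ ≤ r := by
    intro k
    induction k with
    | zero =>
      intro i T x y r hx hy h
      have h1 := hsame' i T x y r hx (by rw [hy]; simp) h
      simpa using h1
    | succ k ih =>
      intro i T x y r hx hy h
      have hk0 : (0 : ℝ) ≤ (k : ℝ) := Nat.cast_nonneg k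
      push_cast at hy
      obtain ⟨z, T₁, T₂, r₁, r₂, hz, -, hr, h1, h2⟩ := Conn.cross hl (k₀ := k₀) (A := θc + i) h
        (Or.inl ⟨by rw [hx]; linarith, by rw [hy]; linarith⟩)
      obtain ⟨z', T₃, T₄, r₃, r₄, hz', -, hr', h3, h4⟩ := Conn.cross hl (k₀ := k₀)
        (A := θa + 1 + i) h2 (Or.inl ⟨by rw [hz]; linarith, by rw [hy]; linarith⟩)
      have e1 := hgapU i T₁ x z r₁ hx hz h1
      have e2 := hup' i T₃ z z' r₃ hz hz' h3
      have e3 := ih (i + 1) T₄ z' y r₄ (by rw [hz']; push_cast; ring) (by rw [hy]; push_cast; ring) h4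
      push_cast
      rw [hr, hr']
      linarith
  have down : ∀ (k : ℕ) (i : ℤ) (T : ℝ) (x y : EuclideanSpace ℝ (Fin n)) (r : ℝ),
      ⟪zv k₀, x⟫ = θa + i + k → ⟪zv k₀, y⟫ = θa + i → Conn l e T x y r →
      (k : ℝ) * (b + B) - κ ≤ r := by
    intro k
    induction k with
    | zero =>
      intro i T x y r hx hy h
      have h1 := hsame' i T x y r (by rw [hx]; simp) hy h
      simpa using h1
    | succ k ih =>
      intro i T x y r hx hy h
      have hk0 : (0 : ℝ) ≤ (k : ℝ) := Nat.cast_nonneg k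
      push_cast at hx
      have hik : ((i + (k : ℤ) : ℤ) : ℝ) = (i : ℝ) + k := by push_cast; ring
      obtain ⟨z, T₁, T₂, r₁, r₂, hz, -, hr, h1, h2⟩ := Conn.cross hl (k₀ := k₀)
        (A := θc + ((i + (k : ℤ) : ℤ) : ℝ)) h
        (Or.inr ⟨by rw [hy, hik]; linarith, by rw [hx, hik]; linarith⟩)
      obtain ⟨z', T₃, T₄, r₃, r₄, hz', -, hr', h3, h4⟩ := Conn.cross hl (k₀ := k₀)
        (A := θa + ((i + (k : ℤ) : ℤ) : ℝ)) h2
        (Or.inr ⟨by rw [hy, hik]; linarith, by rw [hz]; linarith⟩)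
      have e1 := hdown' (i + k) T₁ x z r₁ (by rw [hx, hik]; ring) hz h1
      have e2 := hgapD (i + k) T₃ z z' r₃ hz hz' h3
      have e3 := ih i T₄ z' y r₄ (by rw [hz', hik]; ring) hy h4
      push_cast
      rw [hr, hr']
      linarith
  constructor
  · intro hij
    obtain ⟨k, hk⟩ := Int.eq_ofNat_of_zero_le (sub_nonneg.mpr hij)
    have hk' : (j : ℝ) - i = k := by exact_mod_cast hk
    rw [hk']
    exact up k i T x y r hx (by rw [hy, ← hk']; ring) h
  · intro hij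
    obtain ⟨k, hk⟩ := Int.eq_ofNat_of_zero_le (sub_nonneg.mpr hij)
    have hk' : (i : ℝ) - j = k := by exact_mod_cast hk
    rw [hk']
    exact down k j T x y r (by rw [hx, ← hk']; ring) hy h

end Pool.Agent.H33.AM

end

section

/-!
# Module T6: curves between the levels `θa + i`, `θa + j`; the abstract trapping lemma

* `levels`, `i ≤ j`: induction on `j - i`. `j = i`: `hsame` (translated by `zv (-(i • m))`, see
  `Conn.add_zv`, `dot k₀ m = 1`). `j > i`: by `Conn.cross` (twice) the curve is a concatenation of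
  curves: level `θa + i` → level `θc + i` (cost `≥ b`), → level `θa + i + 1` (cost `≥ A`), → level
  `θa + j` (cost `≥ (j - i - 1) (b + A) - κ`). All the hypotheses are applied after a translation by an
  integer multiple of `zv m`. `j ≤ i`: symmetric.
* `trapped_of_levels`: choose integers `i`, `j` with `|⟪zv k₀, x⟫ - (θa + i)| ≤ 1`,
  `|⟪zv k₀, y⟫ - (θa + j)| ≤ 1` (floor), extend the curve at both ends to the levels `θa + i`, `θa + j` by
  `Rough` (a point of level `t` is `t • zv m`): `r + 2 C₁ ≥ (j - i) fu - κ ≥ (j - i) η - κ` if `i ≤ j`,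
  and `≥ (i - j) fd - κ ≥ (j - i) η - κ` if `j ≤ i`. So
  `C = κ + 2 C₁ + 2 (|fu| + |fd|)` works for every `η ∈ [-fd, fu]`.
-/

set_option autoImplicit false

open MeasureTheory
open scoped RealInnerProductSpace

namespace Pool.Agent.H33.AM

variable {n : ℕ} {l : EuclideanSpace ℝ (Fin n) → EuclideanSpace ℝ (Fin n) → ℝ}
  {k₀ m : Fin n → ℤ}

theorem trapped_of_levels (hl : HL l) (hkm : dot k₀ m = 1) {e κ C₁ fu fd θa : ℝ}
    (hr : Rough l k₀ e C₁)
    (h : ∀ (i j : ℤ) (T : ℝ) (x y : EuclideanSpace ℝ (Fin n)) (r : ℝ), ⟪zv k₀, x⟫ = θa + i →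
      ⟪zv k₀, y⟫ = θa + j → Conn l e T x y r →
      (i ≤ j → ((j : ℝ) - i) * fu - κ ≤ r) ∧ (j ≤ i → ((i : ℝ) - j) * fd - κ ≤ r)) :
    ∃ C : ℝ, ∀ η ∈ Set.Icc (-fd) fu, ∀ (T : ℝ) (x y : EuclideanSpace ℝ (Fin n)) (r : ℝ),
      Conn l e T x y r → η * (⟪zv k₀, y⟫ - ⟪zv k₀, x⟫) - C ≤ r := by
  refine ⟨κ + 2 * C₁ + |fu| + |fd|, ?_⟩
  intro η hη T x y r hc
  have hlev : ∀ t : ℝ, ⟪zv k₀, t • zv m⟫ = t := by
    intro t
    rw [inner_smul_right, inner_zv, hkm]
    simp
  obtain ⟨i, hi⟩ : ∃ i : ℤ, i = ⌊⟪zv k₀, x⟫ - θa⌋ := ⟨_, rfl⟩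
  obtain ⟨j, hj⟩ : ∃ j : ℤ, j = ⌊⟪zv k₀, y⟫ - θa⌋ := ⟨_, rfl⟩
  have hi1 : (i : ℝ) ≤ ⟪zv k₀, x⟫ - θa := by rw [hi]; exact Int.floor_le _
  have hi2 : ⟪zv k₀, x⟫ - θa < (i : ℝ) + 1 := by rw [hi]; exact Int.lt_floor_add_one _
  have hj1 : (j : ℝ) ≤ ⟪zv k₀, y⟫ - θa := by rw [hj]; exact Int.floor_le _
  have hj2 : ⟪zv k₀, y⟫ - θa < (j : ℝ) + 1 := by rw [hj]; exact Int.lt_floor_add_one _
  -- the curve from the level `θa + i` to `x`
  obtain ⟨T₁, k, r₁, hk, hc₁, hr₁⟩ := hr ((θa + i) • zv m) x (by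
    rw [hlev, abs_le]
    constructor <;> linarith)
  have hc₁' : Conn l e T₁ ((θa + i) • zv m + zv (-k)) x r₁ := by
    have h1 := hc₁.add_zv hl (-k)
    rwa [add_assoc, ← zv_add, add_neg_cancel, zv_zero, add_zero] at h1
  -- the curve from `y` to the level `θa + j`
  obtain ⟨T₂, k', r₂, hk', hc₂, hr₂⟩ := hr y ((θa + j) • zv m) (by
    rw [hlev, abs_le]
    constructor <;> linarith)
  have hconn := (hc₁'.trans hl hc).trans hl hc₂
  have hx' : ⟪zv k₀, (θa + i) • zv m + zv (-k)⟫ = θa + i := by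
    rw [inner_add_right, hlev, inner_zv, dot_neg, hk]
    simp
  have hy' : ⟪zv k₀, (θa + j) • zv m + zv k'⟫ = θa + j := by
    rw [inner_add_right, hlev, inner_zv, hk']
    simp
  obtain ⟨h1, h2⟩ := h i j _ _ _ _ hx' hy' hconn
  have hηabs : |η| ≤ |fu| + |fd| := by
    rw [abs_le]
    constructor
    · linarith [hη.1, le_abs_self fd, abs_nonneg fu]
    · linarith [hη.2, le_abs_self fu, abs_nonneg fd]
  have hdiff : η * (⟪zv k₀, y⟫ - ⟪zv k₀, x⟫) ≤ η * ((j : ℝ) - i) + |η| := by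
    have h3 : η * ((⟪zv k₀, y⟫ - ⟪zv k₀, x⟫) - ((j : ℝ) - i)) ≤ |η| := by
      refine (le_abs_self _).trans ?_
      rw [abs_mul]
      have h4 : |(⟪zv k₀, y⟫ - ⟪zv k₀, x⟫) - ((j : ℝ) - i)| ≤ 1 := by
        rw [abs_le]
        constructor <;> linarith
      exact mul_le_of_le_one_right (abs_nonneg _) h4
    linarith
  have hkey : η * ((j : ℝ) - i) ≤ r + 2 * C₁ + κ := by
    rcases le_total i j with hij | hij
    · have h3 := h1 hij
      have h4 : (i : ℝ) ≤ j := by exact_mod_cast hij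
      have h5 : η * ((j : ℝ) - i) ≤ fu * ((j : ℝ) - i) :=
        mul_le_mul_of_nonneg_right hη.2 (by linarith)
      linarith
    · have h3 := h2 hij
      have h4 : (j : ℝ) ≤ i := by exact_mod_cast hij
      have h5 : (-η) * ((i : ℝ) - j) ≤ fd * ((i : ℝ) - j) :=
        mul_le_mul_of_nonneg_right (by linarith [hη.1]) (by linarith)
      linarith
  linarith

end Pool.Agent.H33.AM

end

section

/-!
# Module T1: the critical value

Notation: `q = s • zv P`, `θ(x) = ⟪zv k₀, x⟫`, `ũ = u - q`.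
* `crit_lower`: let `w θ* = M` and `x* = θ* • zv m` (so `θ(x*) = θ*` as `dot k₀ m = 1`); the line
  `x* + t q`, `t ∈ [0, j / s]`, ends in `x* + zv (j • P)`, stays in the level `θ*`, `ũ = 0`; by
  `Trap.hi` its action w.r.t. `ℓ + e` is at most `(-M + ε + e) j / s + β₀`; it is `≥ 0` by `Crit`;
  let `j → ∞`.
* `crit_upper`: if `Conn l e T x (x + zv k) r`, then by `Conn.iter` there is a curve with the action
  `j r` in the time `j T`; `Trap.lo` and `κ₁/2 a² - β₁ a ≥ -β₁²/(2 κ₁)`, `w ≤ M` give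
  `j r ≥ j T (e - M - ε - β₁²/(2 κ₁)) - β₀ ≥ -β₀` for every `j`; let `j → ∞`.
* `crit_exists`: `e = sInf {e | Crit l k₀ e}`; the action is affine in `e` (`Conn.level`).
-/

set_option autoImplicit false

open MeasureTheory
open scoped RealInnerProductSpace

namespace Pool.Agent.H33.AM

variable {n : ℕ} {l : EuclideanSpace ℝ (Fin n) → EuclideanSpace ℝ (Fin n) → ℝ}
  {k₀ m P : Fin n → ℤ} {s : ℝ} {w : ℝ → ℝ} {κ₁ κ₂ ε β₀ β₁ M : ℝ}

private theorem Trap.T1_lower (h : Trap l k₀ m P s w κ₁ κ₂ ε β₀ β₁ M) {e T : ℝ}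
    (he : M + ε + β₁ ^ 2 / (2 * κ₁) ≤ e) {x y : EuclideanSpace ℝ (Fin n)} {r : ℝ}
    (hr : Conn l e T x y r) : -β₀ ≤ r := by
  obtain ⟨ξ, u, ha, h0, hT, hr⟩ := hr
  have hT0 : 0 ≤ T := ha.le
  have h1 := h.lo 0 T ξ u ha
  have hκ := h.κ₁_pos
  have hw : Continuous w := h.w_cont
  have hi1 : IntervalIntegrable (fun t => κ₁ / 2 * ‖u t - s • zv P‖ ^ 2 - w ⟪zv k₀, ξ t⟫) volume 0 T :=
    ha.integrable (g := fun p => κ₁ / 2 * ‖p.2 - s • zv P‖ ^ 2 - w ⟪zv k₀, p.1⟫) (by fun_prop)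
  have hi2 : IntervalIntegrable (fun t => ‖u t - s • zv P‖) volume 0 T :=
    ha.integrable (g := fun p => ‖p.2 - s • zv P‖) (by fun_prop)
  have hi3 : IntervalIntegrable (fun t => l (ξ t) (u t)) volume 0 T :=
    ha.integrable (g := fun p => l p.1 p.2) h.hl.cont
  have h2 : act l e 0 T ξ u = (∫ t in (0 : ℝ)..T, l (ξ t) (u t)) + e * T := by
    unfold act
    rw [intervalIntegral.integral_add hi3 (by simp)]
    simp [mul_comm]
  have h3 : ∫ t in (0 : ℝ)..T, ((ε - e : ℝ)) ≤ ∫ t in (0 : ℝ)..T,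
      ((κ₁ / 2 * ‖u t - s • zv P‖ ^ 2 - w ⟪zv k₀, ξ t⟫) - β₁ * ‖u t - s • zv P‖) := by
    refine intervalIntegral.integral_mono_on hT0 (by simp) (hi1.sub (hi2.const_mul β₁)) ?_
    intro t _
    have h4 := h.w_le ⟪zv k₀, ξ t⟫
    have h5 : -(β₁ ^ 2 / (2 * κ₁)) ≤ κ₁ / 2 * ‖u t - s • zv P‖ ^ 2 - β₁ * ‖u t - s • zv P‖ := by
      set a := ‖u t - s • zv P‖
      have h6 : κ₁ / 2 * a ^ 2 - β₁ * a + β₁ ^ 2 / (2 * κ₁) = (κ₁ * a - β₁) ^ 2 / (2 * κ₁) := by
        field_simp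
        ring
      have h7 : 0 ≤ (κ₁ * a - β₁) ^ 2 / (2 * κ₁) := by positivity
      linarith
    linarith
  rw [intervalIntegral.integral_sub hi1 (hi2.const_mul β₁), intervalIntegral.integral_const_mul] at h3
  rw [← hr, h2]
  simp only [intervalIntegral.integral_const, sub_zero, smul_eq_mul] at h3
  linarith

theorem Trap.crit_lower (h : Trap l k₀ m P s w κ₁ κ₂ ε β₀ β₁ M) {e : ℝ} (he : Crit l k₀ e) :
    M - ε ≤ e := by
  obtain ⟨θ, hθ⟩ := h.w_max
  have hs := h.s_pos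
  have key : ∀ j : ℕ, 0 ≤ (-M + ε + e) * (j / s) + β₀ := by
    intro j
    have hT : (0 : ℝ) ≤ j / s := by positivity
    have ha := Adm.line (n := n) hT (θ • zv m) (s • zv P)
    have hlev : ∀ t : ℝ, ⟪zv k₀, θ • zv m + t • s • zv P⟫ = θ := by
      intro t
      rw [inner_add_right, inner_smul_right, inner_smul_right, inner_smul_right, inner_zv, inner_zv,
        h.km, h.kP]
      simp
    have hend : θ • zv m + ((j : ℝ) / s) • s • zv P = θ • zv m + zv (j • P) := by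
      rw [zv_nsmul, smul_smul, div_mul_cancel₀ _ hs.ne']
    have h1 := he (j / s) (θ • zv m) (j • P) (act l e 0 (j / s) (fun t => θ • zv m + t • s • zv P)
      fun _ => s • zv P) (by rw [dot_nsmul, h.kP, mul_zero])
      ⟨_, _, ha, by simp, hend, rfl⟩
    have h2 := h.hi 0 (j / s) _ _ ha
    have hi3 : IntervalIntegrable (fun t => l (θ • zv m + t • s • zv P) (s • zv P)) volume 0 (j / s) :=
      ha.integrable (g := fun p => l p.1 p.2) h.hl.cont
    have h3 : act l e 0 (j / s) (fun t => θ • zv m + t • s • zv P) (fun _ => s • zv P) =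
        (∫ t in (0 : ℝ)..(j / s), l (θ • zv m + t • s • zv P) (s • zv P)) + e * (j / s) := by
      unfold act
      rw [intervalIntegral.integral_add hi3 (by simp)]
      simp [mul_comm]
    simp only [hlev, sub_self, norm_zero, hθ] at h2
    rw [h3] at h1
    simp at h2
    nlinarith
  by_contra hcon
  have hneg : -M + ε + e < 0 := by linarith
  obtain ⟨j, hj⟩ := exists_nat_gt (β₀ / (-(-M + ε + e)) * s)
  have h1 := key j
  have h2 : β₀ / (-(-M + ε + e)) < j / s := by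
    rw [lt_div_iff₀ hs]
    exact hj
  rw [div_lt_iff₀ (by linarith)] at h2
  linarith

theorem Trap.crit_upper (h : Trap l k₀ m P s w κ₁ κ₂ ε β₀ β₁ M) {e : ℝ}
    (he : M + ε + β₁ ^ 2 / (2 * κ₁) ≤ e) : Crit l k₀ e := by
  intro T x k r _ hr
  by_contra hcon
  have hneg : r < 0 := not_le.1 hcon
  obtain ⟨j, hj⟩ := exists_nat_gt (β₀ / (-r))
  have h1 := h.T1_lower he (hr.iter h.hl j)
  rw [div_lt_iff₀ (by linarith)] at hj
  linarith

theorem Trap.crit_exists (h : Trap l k₀ m P s w κ₁ κ₂ ε β₀ β₁ M) :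
    ∃ e, Crit l k₀ e ∧ (∀ e' < e, ¬ Crit l k₀ e') ∧ M - ε ≤ e ∧
      e ≤ M + ε + β₁ ^ 2 / (2 * κ₁) := by
  have hne : {e | Crit l k₀ e}.Nonempty := ⟨_, h.crit_upper le_rfl⟩
  have hbdd : BddBelow {e | Crit l k₀ e} := ⟨M - ε, fun e he => h.crit_lower he⟩
  have hcrit : Crit l k₀ (sInf {e | Crit l k₀ e}) := by
    intro T x k r hk hr
    by_contra hcon
    have hneg : r < 0 := not_le.1 hcon
    have hT : 0 ≤ T := hr.nonneg
    obtain ⟨e', he', hlt⟩ := exists_lt_of_csInf_lt hne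
      (show sInf {e | Crit l k₀ e} < sInf {e | Crit l k₀ e} + (-r) / (T + 1) by
        have : 0 < (-r) / (T + 1) := div_pos (by linarith) (by linarith)
        linarith)
    have h1 := he' T x k _ hk (hr.level h.hl e')
    have h2 : (e' - sInf {e | Crit l k₀ e}) * T ≤ (-r) / (T + 1) * T :=
      mul_le_mul_of_nonneg_right (by linarith) hT
    have h3 : (-r) / (T + 1) * T < -r := by
      rw [div_mul_eq_mul_div, div_lt_iff₀ (by linarith)]
      nlinarith
    linarith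
  refine ⟨sInf {e | Crit l k₀ e}, hcrit, fun e' he' hc => ?_, h.crit_lower hcrit,
    csInf_le hbdd (h.crit_upper le_rfl)⟩
  exact absurd (csInf_le hbdd hc) (not_le.2 he')

end Pool.Agent.H33.AM

end

section

/-!
# Module T7: the trapping lemma

* `Trap.trapped`: `e` from `Trap.crit_exists`; `Closes` at `θa`, `θc` from `Trap.closes`; `Rough` from
  `Trap.rough`; `b = g₀ - 2 κ`, `g₀ = √(κ₁/2)/‖zv k₀‖ ∫ √(M - w) - β₀`, from `Trap.gap`, `cross_gap`;
  `A`, `B` from `rest`; then `levels` and `trapped_of_levels` with `fu = b + A`, `fd = b + B`: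
  `fu + fd = 2 b + A + B ≥ 2 g₀ - 6 κ > 0`.
* `trap_main`: let `M₁ = max w₁`, `w₁ θb < M₁`, `μ = M₁ - w₁ θb`; there is `0 < ρ` with
  `M₁ - w₁ ≥ μ/2` on `[θb - ρ, θb + ρ]`, `J = 2 ρ √(μ/2)`, `a₀ = √(κ₁/2)/‖zv k₀‖`, `C₀` from `lattice`.
  Choose `τ' > 0` with `3 κ₂ C₀²/(2 τ') < a₀ J/2`, then `δ > 0` so small that, with
  `ε' = 2 δ + δ²/κ₁`, `δ + 3 (3 ε' τ' + δ + δ C₀) < a₀ J/2` and `2 ε' < μ/2`.
  For `σ > 0` and `Trap … (σ w₁) … (σ δ) (√σ δ) (√σ δ) M` (so `M = σ M₁`) one has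
  `2 ε + β₁²/κ₁ = σ ε'`; put `ω = 2 σ ε'`, `τ₀ = τ'/√σ`,
  `θa = sSup {θ ∈ [θb - 1, θb] | M₁ - w₁ θ ≤ 2 ε'}`, `θc = sInf {θ ∈ [θb, θb + 1] | M₁ - w₁ θ ≤ 2 ε'}`
  (both sets are compact and not empty since `w₁` attains `M₁` in every interval of length one;
  `M₁ - w₁ ≤ 2 ε'` at `θa`, `θc` and `≥ 2 ε'` on `[θa, θc]` by continuity; `θc ≤ θa + 1` since
  `θa + 1` belongs to the second set). The window `[θb - ρ, θb + ρ]` lies in `[θa, θc]`, so
  `∫_{θa}^{θc} √(M - w) ≥ √σ J`, and `κ = √σ (κ₂ C₀²/(2 τ') + 3 ε' τ' + δ + δ C₀)`.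
-/

set_option autoImplicit false

open MeasureTheory
open scoped RealInnerProductSpace

namespace Pool.Agent.H33.AM

variable {n : ℕ} {k₀ m : Fin n → ℤ}

theorem Trap.trapped {l : EuclideanSpace ℝ (Fin n) → EuclideanSpace ℝ (Fin n) → ℝ}
    {P : Fin n → ℤ} {s : ℝ} {w : ℝ → ℝ} {κ₁ κ₂ ε β₀ β₁ M : ℝ}
    (h : Trap l k₀ m P s w κ₁ κ₂ ε β₀ β₁ M) {C₀ ω τ₀ θa θc κ : ℝ} (hC₀ : 0 ≤ C₀)
    (hC : ∀ z : EuclideanSpace ℝ (Fin n), |⟪zv k₀, z⟫| ≤ 1 →
      ∃ k : Fin n → ℤ, dot k₀ k = 0 ∧ ‖z - zv k‖ ≤ C₀)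
    (hτ : 0 < τ₀) (hac : θa ≤ θc) (hca : θc ≤ θa + 1) (ha : M - ω ≤ w θa) (hc : M - ω ≤ w θc)
    (hgap : ∀ θ ∈ Set.Icc θa θc, 2 * (2 * ε + β₁ ^ 2 / κ₁) ≤ M - w θ)
    (hκ : κ = κ₂ * C₀ ^ 2 / (2 * τ₀) + (ω + (2 * ε + β₁ ^ 2 / κ₁)) * τ₀ + β₀ + β₁ * C₀)
    (hpos : 0 < 2 * (√(κ₁ / 2) / ‖zv k₀‖ * (∫ θ in θa..θc, √(M - w θ))) - 2 * β₀ - 6 * κ) :
    Trapped l k₀ := by
  obtain ⟨e, hcrit, hnc, hlow, hupp⟩ := h.crit_exists
  have hca' : Closes l k₀ e κ θa := by
    have h1 := h.closes (e := e) (C₀ := C₀) (ω := ω) (τ₀ := τ₀) (θ₀ := θa) hupp hC₀ hC hτ ha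
    rwa [← hκ] at h1
  have hcc' : Closes l k₀ e κ θc := by
    have h1 := h.closes (e := e) (C₀ := C₀) (ω := ω) (τ₀ := τ₀) (θ₀ := θc) hupp hC₀ hC hτ hc
    rwa [← hκ] at h1
  obtain ⟨C₁, hr⟩ := h.rough e hC₀ hC
  set g₀ : ℝ := √(κ₁ / 2) / ‖zv k₀‖ * (∫ θ in θa..θc, √(M - w θ)) - β₀ with hg₀
  have hgap' : ∀ (T : ℝ) (x y : EuclideanSpace ℝ (Fin n)) (r : ℝ),
      ((⟪zv k₀, x⟫ = θa ∧ ⟪zv k₀, y⟫ = θc) ∨ (⟪zv k₀, x⟫ = θc ∧ ⟪zv k₀, y⟫ = θa)) →
      Conn l e T x y r → g₀ - 2 * κ ≤ r := by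
    intro T x y r hxy hr
    exact cross_gap h.hl hcrit hca' hcc' hac
      (fun a b x u hx hθ hends => h.gap hlow hac hgap hx hθ hends) hxy hr
  obtain ⟨A, B, hAB, hA, hB⟩ := rest h.hl h.km hcrit hr hca' hcc' hac hca
  have hlev := fun (i j : ℤ) (T : ℝ) (x y : EuclideanSpace ℝ (Fin n)) (r : ℝ)
      (hx : ⟪zv k₀, x⟫ = θa + i) (hy : ⟪zv k₀, y⟫ = θa + j) (hxy : Conn l e T x y r) =>
    levels (e := e) (κ := κ) (b := g₀ - 2 * κ) (A := A) (B := B) h.hl h.km hac hca
      (fun T x y r hx hy hxy => hca'.same h.hl hcrit hx hy hxy) hgap' hA hB i j hx hy hxy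
  obtain ⟨C, hC'⟩ := trapped_of_levels (e := e) (κ := κ) (C₁ := C₁) (fu := g₀ - 2 * κ + A)
    (fd := g₀ - 2 * κ + B) (θa := θa) h.hl h.km hr hlev
  refine ⟨e, g₀ - 2 * κ + A, g₀ - 2 * κ + B, C, ?_, hcrit, hnc, hC'⟩
  have : 0 < 2 * g₀ - 6 * κ := by rw [hg₀]; linarith
  linarith

end Pool.Agent.H33.AM

end

section

/-!
# Module T7: the trapping lemma

* `Trap.trapped`: `e` from `Trap.crit_exists`; `Closes` at `θa`, `θc` from `Trap.closes`; `Rough` from
  `Trap.rough`; `b = g₀ - 2 κ`, `g₀ = √(κ₁/2)/‖zv k₀‖ ∫ √(M - w) - β₀`, from `Trap.gap`, `cross_gap`;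
  `A`, `B` from `rest`; then `levels` and `trapped_of_levels` with `fu = b + A`, `fd = b + B`:
  `fu + fd = 2 b + A + B ≥ 2 g₀ - 6 κ > 0`.
* `trap_main`: let `M₁ = max w₁`, `w₁ θb < M₁`, `μ = M₁ - w₁ θb`; there is `0 < ρ` with
  `M₁ - w₁ ≥ μ/2` on `[θb - ρ, θb + ρ]`, `J = 2 ρ √(μ/2)`, `a₀ = √(κ₁/2)/‖zv k₀‖`, `C₀` from `lattice`.
  Choose `τ' > 0` with `3 κ₂ C₀²/(2 τ') < a₀ J/2`, then `δ > 0` so small that, with
  `ε' = 2 δ + δ²/κ₁`, `δ + 3 (3 ε' τ' + δ + δ C₀) < a₀ J/2` and `2 ε' < μ/2`.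
  For `σ > 0` and `Trap … (σ w₁) … (σ δ) (√σ δ) (√σ δ) M` (so `M = σ M₁`) one has
  `2 ε + β₁²/κ₁ = σ ε'`; put `ω = 2 σ ε'`, `τ₀ = τ'/√σ`,
  `θa = sSup {θ ∈ [θb - 1, θb] | M₁ - w₁ θ ≤ 2 ε'}`, `θc = sInf {θ ∈ [θb, θb + 1] | M₁ - w₁ θ ≤ 2 ε'}`
  (both sets are compact and not empty since `w₁` attains `M₁` in every interval of length one;
  `M₁ - w₁ ≤ 2 ε'` at `θa`, `θc` and `≥ 2 ε'` on `[θa, θc]` by continuity; `θc ≤ θa + 1` since
  `θa + 1` belongs to the second set). The window `[θb - ρ, θb + ρ]` lies in `[θa, θc]`, so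
  `∫_{θa}^{θc} √(M - w) ≥ √σ J`, and `κ = √σ (κ₂ C₀²/(2 τ') + 3 ε' τ' + δ + δ C₀)`.
-/

set_option autoImplicit false

open MeasureTheory
open scoped RealInnerProductSpace

namespace Pool.Agent.H33.AM

variable {n : ℕ} {k₀ m : Fin n → ℤ}

private theorem exists_max {w₁ : ℝ → ℝ} (hw : Continuous w₁) (hper : ∀ θ, w₁ (θ + 1) = w₁ θ) :
    ∃ M₁, (∀ θ, w₁ θ ≤ M₁) ∧ ∀ a, ∃ θ ∈ Set.Icc a (a + 1), w₁ θ = M₁ := by
  have hp : Function.Periodic w₁ 1 := hper
  obtain ⟨θ₀, -, hθ₀⟩ := isCompact_Icc.exists_isMaxOn (s := Set.Icc (0 : ℝ) 1) ⟨0, by simp⟩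
    hw.continuousOn
  refine ⟨w₁ θ₀, fun θ => ?_, fun a => ?_⟩
  · obtain ⟨y, hy, hy'⟩ := hp.exists_mem_Ico₀ one_pos θ
    rw [hy']
    exact hθ₀ ⟨hy.1, hy.2.le⟩
  · obtain ⟨y, hy, hy'⟩ := hp.exists_mem_Ico one_pos θ₀ a
    exact ⟨y, ⟨hy.1, hy.2.le⟩, hy'.symm⟩

private theorem exists_gap {w₁ : ℝ → ℝ} (hw : Continuous w₁) (hper : ∀ θ, w₁ (θ + 1) = w₁ θ)
    {M₁ θb c : ℝ} (hM : ∀ a, ∃ θ ∈ Set.Icc a (a + 1), w₁ θ = M₁) (hc : 0 ≤ c)
    (hb : c < M₁ - w₁ θb) :
    ∃ θa θc, θa ≤ θb ∧ θb ≤ θc ∧ θc ≤ θa + 1 ∧ M₁ - w₁ θa ≤ c ∧ M₁ - w₁ θc ≤ c ∧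
      ∀ θ ∈ Set.Icc θa θc, c ≤ M₁ - w₁ θ := by
  -- last point before `θb`
  set Sa : Set ℝ := Set.Icc (θb - 1) θb ∩ {θ | M₁ - w₁ θ ≤ c} with hSa
  set Sc : Set ℝ := Set.Icc θb (θb + 1) ∩ {θ | M₁ - w₁ θ ≤ c} with hSc
  have hcl : IsClosed {θ | M₁ - w₁ θ ≤ c} := isClosed_le (by fun_prop) continuous_const
  have hSac : IsCompact Sa := isCompact_Icc.inter_right hcl
  have hScc : IsCompact Sc := isCompact_Icc.inter_right hcl
  have hSan : Sa.Nonempty := by
    obtain ⟨θ, hθ, hθ'⟩ := hM (θb - 1)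
    refine ⟨θ, ⟨hθ.1, by have := hθ.2; linarith⟩, ?_⟩
    simp only [Set.mem_ofPred_eq, hθ', sub_self]
    exact hc
  have hScn : Sc.Nonempty := by
    obtain ⟨θ, hθ, hθ'⟩ := hM θb
    refine ⟨θ, hθ, ?_⟩
    simp only [Set.mem_ofPred_eq, hθ', sub_self]
    exact hc
  have ha := hSac.sSup_mem hSan
  have hcm := hScc.sInf_mem hScn
  set θa := sSup Sa
  set θc := sInf Sc
  have hθa : ∀ θ, θa < θ → θ ≤ θb → c < M₁ - w₁ θ := by
    intro θ h1 h2
    by_contra h3
    have h4 : θ ∈ Sa := ⟨⟨by have := ha.1.1; linarith, h2⟩, not_lt.1 h3⟩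
    have := le_csSup hSac.bddAbove h4
    linarith
  have hθc : ∀ θ, θb ≤ θ → θ < θc → c < M₁ - w₁ θ := by
    intro θ h1 h2
    by_contra h3
    have h4 : θ ∈ Sc := ⟨⟨h1, by have := hcm.1.2; linarith⟩, not_lt.1 h3⟩
    have := csInf_le hScc.bddBelow h4
    linarith
  have hlt1 : θa < θb := by
    rcases ha.1.2.lt_or_eq with h | h
    · exact h
    · exfalso
      have := ha.2
      simp only [Set.mem_ofPred_eq, h] at this
      linarith
  have hlt2 : θb < θc := by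
    rcases hcm.1.1.lt_or_eq with h | h
    · exact h
    · exfalso
      have := hcm.2
      simp only [Set.mem_ofPred_eq, ← h] at this
      linarith
  refine ⟨θa, θc, ha.1.2, hcm.1.1, ?_, ha.2, hcm.2, ?_⟩
  · apply csInf_le hScc.bddBelow
    refine ⟨⟨by have := ha.1.1; linarith, by have := ha.1.2; linarith⟩, ?_⟩
    have := ha.2
    simp only [Set.mem_ofPred_eq] at this ⊢
    rw [hper]
    exact this
  · intro θ hθ
    have hcont : Continuous fun θ => M₁ - w₁ θ := by fun_prop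
    rcases hθ.1.lt_or_eq with h1 | h1
    · rcases hθ.2.lt_or_eq with h2 | h2
      · rcases le_total θ θb with h3 | h3
        · exact (hθa θ h1 h3).le
        · exact (hθc θ h3 h2).le
      · -- θ = θc: limit from the left
        rw [h2]
        have h4 : Filter.Tendsto (fun θ => M₁ - w₁ θ) (nhdsWithin θc (Set.Iio θc))
            (nhds (M₁ - w₁ θc)) := (hcont.tendsto θc).mono_left nhdsWithin_le_nhds
        refine ge_of_tendsto h4 ?_
        filter_upwards [Ioo_mem_nhdsLT hlt2] with t ht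
        exact (hθc t ht.1.le ht.2).le
    · rw [← h1]
      have h4 : Filter.Tendsto (fun θ => M₁ - w₁ θ) (nhdsWithin θa (Set.Ioi θa))
          (nhds (M₁ - w₁ θa)) := (hcont.tendsto θa).mono_left nhdsWithin_le_nhds
      refine ge_of_tendsto h4 ?_
      filter_upwards [Ioo_mem_nhdsGT hlt1] with t ht
      exact (hθa t ht.1 ht.2.le).le

theorem trap_main (hkm : dot k₀ m = 1) {κ₁ κ₂ : ℝ} (h1 : 0 < κ₁) (h2 : 0 < κ₂) {w₁ : ℝ → ℝ}
    (hw : Continuous w₁) (hper : ∀ θ, w₁ (θ + 1) = w₁ θ) (hnc : ∃ θ θ', w₁ θ ≠ w₁ θ') :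
    ∃ δ : ℝ, 0 < δ ∧ ∀ (l : EuclideanSpace ℝ (Fin n) → EuclideanSpace ℝ (Fin n) → ℝ)
      (P : Fin n → ℤ) (s σ M : ℝ), 0 < σ →
      Trap l k₀ m P s (fun θ => σ * w₁ θ) κ₁ κ₂ (σ * δ) (√σ * δ) (√σ * δ) M →
      Trapped l k₀ := by
  obtain ⟨M₁, hM₁, hM⟩ := exists_max hw hper
  obtain ⟨θb, hb⟩ : ∃ θb, w₁ θb < M₁ := by
    obtain ⟨θ, θ', h⟩ := hnc
    rcases (hM₁ θ).lt_or_eq with h3 | h3
    · exact ⟨θ, h3⟩
    · rcases (hM₁ θ').lt_or_eq with h4 | h4
      · exact ⟨θ', h4⟩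
      · exact absurd (h3.trans h4.symm) h
  set μ : ℝ := M₁ - w₁ θb with hμ
  have hμ0 : 0 < μ := sub_pos.2 hb
  obtain ⟨ρ, hρ, hρ'⟩ : ∃ ρ > 0, ∀ θ, |θ - θb| ≤ ρ → μ / 2 < M₁ - w₁ θ := by
    have hc : Continuous fun θ => M₁ - w₁ θ := by fun_prop
    have h3 : ∀ᶠ θ in nhds θb, μ / 2 < M₁ - w₁ θ :=
      (hc.tendsto θb).eventually (lt_mem_nhds (by linarith))
    obtain ⟨ρ, hρ, h4⟩ := Metric.eventually_nhds_iff.1 h3
    refine ⟨ρ / 2, by positivity, fun θ hθ => h4 ?_⟩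
    rw [Real.dist_eq]
    linarith
  obtain ⟨C₀, hC₀, hC⟩ := lattice hkm
  have hk0 : 0 < ‖zv k₀‖ := norm_pos_iff.2 (ne_zero_of_dot hkm).2
  set J : ℝ := 2 * ρ * √(μ / 2) with hJ
  have hJ0 : 0 < J := by positivity
  set a₀ : ℝ := √(κ₁ / 2) / ‖zv k₀‖ with ha₀
  have ha₀0 : 0 < a₀ := by positivity
  obtain ⟨τ', hτ', hτ1⟩ : ∃ τ' : ℝ, 0 < τ' ∧ 3 * κ₂ * C₀ ^ 2 < a₀ * J * τ' := by
    refine ⟨3 * κ₂ * C₀ ^ 2 / (a₀ * J) + 1, by positivity, ?_⟩
    have h3 : a₀ * J * (3 * κ₂ * C₀ ^ 2 / (a₀ * J) + 1) = 3 * κ₂ * C₀ ^ 2 + a₀ * J := by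
      field_simp
    rw [h3]
    have := mul_pos ha₀0 hJ0
    linarith
  obtain ⟨δ, hδ1, hδ2, hδ⟩ : ∃ δ : ℝ, (δ + 3 * (3 * (2 * δ + δ ^ 2 / κ₁) * τ' + δ + δ * C₀) <
      a₀ * J / 2) ∧ 2 * (2 * δ + δ ^ 2 / κ₁) < μ / 2 ∧ 0 < δ := by
    have h3 : Filter.Tendsto (fun δ : ℝ => δ + 3 * (3 * (2 * δ + δ ^ 2 / κ₁) * τ' + δ + δ * C₀))
        (nhds 0) (nhds 0) := by
      have : Continuous fun δ : ℝ => δ + 3 * (3 * (2 * δ + δ ^ 2 / κ₁) * τ' + δ + δ * C₀) := by
        fun_prop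
      simpa using this.tendsto 0
    have h4 : Filter.Tendsto (fun δ : ℝ => 2 * (2 * δ + δ ^ 2 / κ₁)) (nhds 0) (nhds 0) := by
      have : Continuous fun δ : ℝ => 2 * (2 * δ + δ ^ 2 / κ₁) := by fun_prop
      simpa using this.tendsto 0
    have h5 : ∀ᶠ δ in nhdsWithin (0 : ℝ) (Set.Ioi 0),
        (δ + 3 * (3 * (2 * δ + δ ^ 2 / κ₁) * τ' + δ + δ * C₀) < a₀ * J / 2) ∧
        2 * (2 * δ + δ ^ 2 / κ₁) < μ / 2 ∧ 0 < δ := by
      have h6 := (h3.eventually (gt_mem_nhds (show (0 : ℝ) < a₀ * J / 2 by positivity)))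
      have h7 := (h4.eventually (gt_mem_nhds (show (0 : ℝ) < μ / 2 by positivity)))
      filter_upwards [h6.filter_mono nhdsWithin_le_nhds, h7.filter_mono nhdsWithin_le_nhds,
        self_mem_nhdsWithin] with δ h8 h9 h10
      exact ⟨h8, h9, h10⟩
    exact h5.exists
  refine ⟨δ, hδ, fun l P s σ M hσ h => ?_⟩
  set ε' : ℝ := 2 * δ + δ ^ 2 / κ₁ with hε'
  have hε'0 : 0 < ε' := by positivity
  have hMσ : M = σ * M₁ := by
    obtain ⟨θ, hθ⟩ := h.w_max
    obtain ⟨θ₁, -, hθ₁⟩ := hM 0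
    have h3 := h.w_le θ₁
    simp only [hθ₁] at h3
    have h4 : σ * w₁ θ ≤ σ * M₁ := mul_le_mul_of_nonneg_left (hM₁ θ) hσ.le
    linarith
  have hs0 : 0 < √σ := Real.sqrt_pos.2 hσ
  have hss : √σ * √σ = σ := Real.mul_self_sqrt hσ.le
  have hε₁ : 2 * (σ * δ) + (√σ * δ) ^ 2 / κ₁ = σ * ε' := by
    rw [hε', mul_pow, Real.sq_sqrt hσ.le]
    ring
  obtain ⟨θa, θc, hab, hbc, hca, ha, hc, hgap⟩ := exists_gap hw hper (c := 2 * ε') hM
    (by positivity) (by rw [← hμ]; linarith)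
  have hI : √σ * J ≤ ∫ θ in θa..θc, √(M - σ * w₁ θ) := by
    have h3 : θa ≤ θb - ρ := by
      by_contra h4
      have := hρ' θa (by rw [abs_le]; constructor <;> linarith)
      linarith
    have h4 : θb + ρ ≤ θc := by
      by_contra h4
      have := hρ' θc (by rw [abs_le]; constructor <;> linarith)
      linarith
    have hcont : Continuous fun θ => √(M - σ * w₁ θ) := by fun_prop
    have h5 : (∫ θ in (θb - ρ)..(θb + ρ), √σ * √(μ / 2)) ≤
        ∫ θ in (θb - ρ)..(θb + ρ), √(M - σ * w₁ θ) := by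
      apply intervalIntegral.integral_mono_on (by linarith) (by simp)
        (hcont.intervalIntegrable _ _)
      intro θ hθ
      rw [← Real.sqrt_mul hσ.le]
      apply Real.sqrt_le_sqrt
      have := hρ' θ (by rw [abs_le]; constructor <;> linarith [hθ.1, hθ.2])
      rw [hMσ]
      nlinarith
    have h6 : (∫ θ in (θb - ρ)..(θb + ρ), √σ * √(μ / 2)) = √σ * J := by
      rw [intervalIntegral.integral_const, hJ, smul_eq_mul]
      ring
    have h7 : (∫ θ in (θb - ρ)..(θb + ρ), √(M - σ * w₁ θ)) ≤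
        ∫ θ in θa..θc, √(M - σ * w₁ θ) :=
      intervalIntegral.integral_mono_interval h3 (by linarith) h4
        (Filter.Eventually.of_forall fun θ => Real.sqrt_nonneg _) (hcont.intervalIntegrable _ _)
    linarith
  refine h.trapped (C₀ := C₀) (ω := 2 * (σ * ε')) (τ₀ := τ' / √σ) (θa := θa) (θc := θc)
    (κ := √σ * (κ₂ * C₀ ^ 2 / (2 * τ') + 3 * ε' * τ' + δ + δ * C₀)) hC₀ hC (by positivity)
    (by linarith) hca ?_ ?_ ?_ ?_ ?_
  · rw [hMσ]
    nlinarith
  · rw [hMσ]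
    nlinarith
  · intro θ hθ
    have h3 := hgap θ hθ
    rw [hε₁, hMσ]
    nlinarith
  · rw [hε₁]
    have h3 : (2 * (σ * ε') + σ * ε') * (τ' / √σ) = √σ * (3 * ε' * τ') := by
      rw [mul_div_assoc', div_eq_iff hs0.ne']
      have h6 : √σ * (3 * ε' * τ') * √σ = √σ * √σ * (3 * ε' * τ') := by ring
      rw [h6, hss]
      ring
    have h4 : κ₂ * C₀ ^ 2 / (2 * (τ' / √σ)) = √σ * (κ₂ * C₀ ^ 2 / (2 * τ')) := by
      field_simp
    rw [h3, h4]
    ring
  · have h3 : κ₂ * C₀ ^ 2 / (2 * τ') < a₀ * J / 6 := by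
      rw [div_lt_iff₀ (by positivity)]
      nlinarith
    have h4 : a₀ * (√σ * J) ≤ a₀ * ∫ θ in θa..θc, √(M - σ * w₁ θ) :=
      mul_le_mul_of_nonneg_left hI ha₀0.le
    have h5 : 0 < √σ * (2 * (a₀ * J) - 2 * δ -
        6 * (κ₂ * C₀ ^ 2 / (2 * τ') + 3 * ε' * τ' + δ + δ * C₀)) := by
      apply mul_pos hs0
      linarith
    nlinarith

end Pool.Agent.H33.AM

end

section

/-!
# Module V6: trapping data for `ℓ(x, v) = K v - K q - ⟪D q, v - q⟫ + A(x) · v - V(x)`, `q = s P`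

* `Trap.mono`: larger errors are worse (`b - a ≥ 0`, the integral of a norm is nonnegative).
* `HL_ell`: `K` is continuous (`HK.grad`), `A`, `V` are continuous.
* `trap_potential` (`A = 0`): `κ₁/2 ‖ũ‖² ≤ K u - K q - ⟪D q, u - q⟫ ≤ κ₂/2 ‖ũ‖²`, and
  `|∫ V(x) - ∫ w(θ)| ≤ |∫ V - ∫ avP V P| + δ (b - a) ≤ (2 B + B ∫ ‖ũ‖)/s + δ (b - a)` by `avP_trap`.
  Maximum: `w` is continuous and 1-periodic, so it attains its maximum; the theorem gives `M`.
* `trap_magnetic`: `⟪A x, u⟫ = s ⟪A x, zv P⟫ + ⟪A x, ũ⟫`, `|⟪A x, ũ⟫| ≤ B ‖ũ‖`, `|V| ≤ B`, and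
  `avP_trap` for `g = ⟪A, zv P⟫`, `G x = adjoint (A' x) (zv P)`, with the constant `B ‖zv P‖`:
  `|s ∫ g - s ∫ avP g P| ≤ 2 B ‖zv P‖ + B ‖zv P‖ ∫ ‖ũ‖`, and
  `|s avP g P x - σ w₀(θ)| ≤ s ρ` with `w₀ = avK ⟪A, zv P₀⟫ k₀ m`, `σ = s S`.
  So `w = -σ w₀ = σ (-w₀)`.
-/

set_option autoImplicit false

open MeasureTheory
open scoped RealInnerProductSpace

namespace Pool.Agent.H33.AM

variable {n : ℕ}

theorem Trap.mono {l : EuclideanSpace ℝ (Fin n) → EuclideanSpace ℝ (Fin n) → ℝ}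
    {k₀ m P : Fin n → ℤ} {s : ℝ} {w : ℝ → ℝ} {κ₁ κ₂ ε β₀ β₁ M ε' β₀' β₁' : ℝ}
    (h : Trap l k₀ m P s w κ₁ κ₂ ε β₀ β₁ M) (h1 : ε ≤ ε') (h2 : β₀ ≤ β₀') (h3 : β₁ ≤ β₁') :
    Trap l k₀ m P s w κ₁ κ₂ ε' β₀' β₁' M := by
  refine ⟨h.hl, h.km, h.kP, h.s_pos, h.w_cont, h.w_per, h.w_le, h.w_max, h.κ₁_pos, h.κ₂_pos,
    h.ε_nonneg.trans h1, h.β₀_nonneg.trans h2, h.β₁_nonneg.trans h3, ?_, ?_⟩
  · intro a b x u hu
    have h4 := h.lo a b x u hu
    have h5 : 0 ≤ b - a := sub_nonneg.2 hu.le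
    have h6 : 0 ≤ ∫ t in a..b, ‖u t - s • zv P‖ :=
      intervalIntegral.integral_nonneg hu.le fun t _ => norm_nonneg _
    have h7 := mul_le_mul_of_nonneg_right h1 h5
    have h8 := mul_le_mul_of_nonneg_right h3 h6
    linarith
  · intro a b x u hu
    have h4 := h.hi a b x u hu
    have h5 : 0 ≤ b - a := sub_nonneg.2 hu.le
    have h6 : 0 ≤ ∫ t in a..b, ‖u t - s • zv P‖ :=
      intervalIntegral.integral_nonneg hu.le fun t _ => norm_nonneg _
    have h7 := mul_le_mul_of_nonneg_right h1 h5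
    have h8 := mul_le_mul_of_nonneg_right h3 h6
    linarith

private theorem V6a_cont {g : EuclideanSpace ℝ (Fin n) → ℝ}
    {G : EuclideanSpace ℝ (Fin n) → EuclideanSpace ℝ (Fin n)}
    (h : ∀ x, HasGradientAt g (G x) x) : Continuous g :=
  continuous_iff_continuousAt.2 fun x => (h x).differentiableAt.continuousAt

private theorem V6a_max {w : ℝ → ℝ} (hc : Continuous w) (hp : ∀ θ, w (θ + 1) = w θ) :
    ∃ M, (∀ θ, w θ ≤ M) ∧ ∃ θ, w θ = M := by
  obtain ⟨θ₀, -, h0⟩ := isCompact_Icc.exists_isMaxOn (Set.nonempty_Icc.2 (zero_le_one' ℝ))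
    hc.continuousOn
  refine ⟨w θ₀, fun θ => ?_, θ₀, rfl⟩
  have hper : Function.Periodic w 1 := hp
  obtain ⟨y, hy, hyθ⟩ := hper.exists_mem_Ico₀ one_pos θ
  rw [hyθ]
  exact h0 ⟨hy.1, hy.2.le⟩

/-- the integral of the potential along a curve -/
private theorem V6a_V {V : EuclideanSpace ℝ (Fin n) → ℝ}
    {F : EuclideanSpace ℝ (Fin n) → EuclideanSpace ℝ (Fin n)} {B : ℝ}
    (hV : HV V F B) {k₀ m P : Fin n → ℤ} {s δ : ℝ} (hs : 0 < s)
    (hav : ∀ x, |avP V P x - avK V k₀ m ⟪zv k₀, x⟫| ≤ δ) {a b : ℝ}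
    {x u : ℝ → EuclideanSpace ℝ (Fin n)} (h : Adm a b x u) :
    |(∫ t in a..b, V (x t)) - ∫ t in a..b, avK V k₀ m ⟪zv k₀, x t⟫| ≤
      2 * B / s + B / s * (∫ t in a..b, ‖u t - s • zv P‖) + δ * (b - a) := by
  have hVc := V6a_cont hV.der
  have h1 := avP_trap hV.der hV.per hV.bd hV.bdF hV.lip P hs h
  have i1 : IntervalIntegrable (fun t => avP V P (x t)) volume a b :=
    h.integrable (g := fun p => avP V P p.1) ((avP_cont hVc P).comp continuous_fst)
  have i2 : IntervalIntegrable (fun t => avK V k₀ m ⟪zv k₀, x t⟫) volume a b :=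
    h.integrable (g := fun p => avK V k₀ m ⟪zv k₀, p.1⟫)
      ((avK_cont hVc hV.per k₀ m).comp (continuous_const.inner continuous_fst))
  have h2 : |(∫ t in a..b, avP V P (x t)) - ∫ t in a..b, avK V k₀ m ⟪zv k₀, x t⟫| ≤
      δ * (b - a) := by
    rw [← intervalIntegral.integral_sub i1 i2]
    have h3 := intervalIntegral.norm_integral_le_of_norm_le_const (a := a) (b := b)
      (f := fun t => avP V P (x t) - avK V k₀ m ⟪zv k₀, x t⟫) (C := δ)
      (fun t _ => hav (x t))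
    rw [Real.norm_eq_abs, abs_of_nonneg (sub_nonneg.2 h.le)] at h3
    exact h3
  have h4 : (2 * B + B * ∫ t in a..b, ‖u t - s • zv P‖) / s =
      2 * B / s + B / s * (∫ t in a..b, ‖u t - s • zv P‖) := by
    rw [add_div]
    ring
  rw [h4] at h1
  have h5 := abs_sub_le (∫ t in a..b, V (x t)) (∫ t in a..b, avP V P (x t))
    (∫ t in a..b, avK V k₀ m ⟪zv k₀, x t⟫)
  linarith

theorem trap_potential {K V : EuclideanSpace ℝ (Fin n) → ℝ}
    {D F : EuclideanSpace ℝ (Fin n) → EuclideanSpace ℝ (Fin n)} {κ₁ κ₂ B : ℝ}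
    (hK : HK K D κ₁ κ₂) (hV : HV V F B) {k₀ m P : Fin n → ℤ} (hkm : dot k₀ m = 1)
    (hkP : dot k₀ P = 0) {s δ : ℝ} (hs : 0 < s) (hδ : 0 ≤ δ)
    (hav : ∀ x, |avP V P x - avK V k₀ m ⟪zv k₀, x⟫| ≤ δ) :
    ∃ M, Trap (fun x v => K v - K (s • zv P) - ⟪D (s • zv P), v - s • zv P⟫ - V x) k₀ m P s
      (avK V k₀ m) κ₁ κ₂ δ (2 * B / s) (B / s) M := by
  have hVc : Continuous V := V6a_cont hV.der
  have hKc : Continuous K := V6a_cont hK.grad
  have hwc := avK_cont hVc hV.per k₀ m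
  have hwp := avK_per hV.per k₀ m
  obtain ⟨M, hM1, hM2⟩ := V6a_max hwc hwp
  have hq : ∀ q : EuclideanSpace ℝ (Fin n), Continuous
      fun p : EuclideanSpace ℝ (Fin n) × EuclideanSpace ℝ (Fin n) =>
        K p.2 - K q - ⟪D q, p.2 - q⟫ - V p.1 := by
    intro q
    exact (((hKc.comp continuous_snd).sub continuous_const).sub
      (continuous_const.inner (continuous_snd.sub continuous_const))).sub
      (hVc.comp continuous_fst)
  have hl : HL (fun x v => K v - K (s • zv P) - ⟪D (s • zv P), v - s • zv P⟫ - V x) := by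
    refine ⟨hq (s • zv P), fun x v k => ?_⟩
    simp only [hV.per x k]
  refine ⟨M, hl, hkm, hkP, hs, hwc, hwp, hM1, hM2, hK.pos, hK.pos₂, hδ,
    div_nonneg (mul_nonneg zero_le_two hV.nonneg) hs.le, div_nonneg hV.nonneg hs.le, ?_, ?_⟩
  · intro a b x u h
    have h1 := abs_le.1 (V6a_V (k₀ := k₀) (m := m) hV hs hav h)
    have il : IntervalIntegrable
        (fun t => K (u t) - K (s • zv P) - ⟪D (s • zv P), u t - s • zv P⟫ - V (x t))
        volume a b := h.integrable (hq (s • zv P))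
    have iV : IntervalIntegrable (fun t => V (x t)) volume a b :=
      h.integrable (g := fun p => V p.1) (hVc.comp continuous_fst)
    have iw : IntervalIntegrable (fun t => avK V k₀ m ⟪zv k₀, x t⟫) volume a b :=
      h.integrable (g := fun p => avK V k₀ m ⟪zv k₀, p.1⟫)
        (hwc.comp (continuous_const.inner continuous_fst))
    have iu : IntervalIntegrable (fun t => κ₁ / 2 * ‖u t - s • zv P‖ ^ 2) volume a b :=
      h.integrable (g := fun p => κ₁ / 2 * ‖p.2 - s • zv P‖ ^ 2)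
        (continuous_const.mul ((continuous_snd.sub continuous_const).norm.pow 2))
    have h2 : (∫ t in a..b, (κ₁ / 2 * ‖u t - s • zv P‖ ^ 2 - V (x t))) ≤
        ∫ t in a..b, (K (u t) - K (s • zv P) - ⟪D (s • zv P), u t - s • zv P⟫ - V (x t)) := by
      refine intervalIntegral.integral_mono_on h.le (iu.sub iV) il fun t _ => ?_
      have := hK.lo (s • zv P) (u t)
      linarith
    rw [intervalIntegral.integral_sub iu iV] at h2
    rw [intervalIntegral.integral_sub iu iw]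
    linarith [h1.1, h1.2]
  · intro a b x u h
    have h1 := abs_le.1 (V6a_V (k₀ := k₀) (m := m) hV hs hav h)
    have il : IntervalIntegrable
        (fun t => K (u t) - K (s • zv P) - ⟪D (s • zv P), u t - s • zv P⟫ - V (x t))
        volume a b := h.integrable (hq (s • zv P))
    have iV : IntervalIntegrable (fun t => V (x t)) volume a b :=
      h.integrable (g := fun p => V p.1) (hVc.comp continuous_fst)
    have iw : IntervalIntegrable (fun t => avK V k₀ m ⟪zv k₀, x t⟫) volume a b :=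
      h.integrable (g := fun p => avK V k₀ m ⟪zv k₀, p.1⟫)
        (hwc.comp (continuous_const.inner continuous_fst))
    have iu : IntervalIntegrable (fun t => κ₂ / 2 * ‖u t - s • zv P‖ ^ 2) volume a b :=
      h.integrable (g := fun p => κ₂ / 2 * ‖p.2 - s • zv P‖ ^ 2)
        (continuous_const.mul ((continuous_snd.sub continuous_const).norm.pow 2))
    have h2 : (∫ t in a..b, (K (u t) - K (s • zv P) - ⟪D (s • zv P), u t - s • zv P⟫ - V (x t))) ≤
        ∫ t in a..b, (κ₂ / 2 * ‖u t - s • zv P‖ ^ 2 - V (x t)) := by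
      refine intervalIntegral.integral_mono_on h.le il (iu.sub iV) fun t _ => ?_
      have := hK.hi (s • zv P) (u t)
      linarith
    rw [intervalIntegral.integral_sub iu iV] at h2
    rw [intervalIntegral.integral_sub iu iw]
    linarith [h1.1, h1.2]

end Pool.Agent.H33.AM

end

section

/-!
# Module V7: flats of the action functional

* `flat_of_trapped`: put `E₀ = e - E₁` with `e` from `Trapped`; on curves
  `∫ (L - ⟪c₀ + η k₀, u⟫ + E₀) = ∫ (ℓ + e) - η (⟪k₀, x(b)⟫ - ⟪k₀, x(a)⟫) + f(x(b)) - f(x(a))`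
  (`Adm.integral_inner`), and for `E' < E₀` the failure of `Crit l k₀ (E' + E₁)` gives the closed curve
  (`f` is periodic; `0 < T` since `T = 0` gives the action `0`).
* `flat_potential`: `A' x` symmetric, so `A = a₀ + ∇f` (`exists_grad`). By `exists_avK_ne` there are `k₀`,
  `m` with `avK V k₀ m` not constant; `δ` from `trap_main` (`w₁ = avK V k₀ m`); `N` from `avP_tendsto` with
  `P₀ = 0`, `P = PN k₀ m 0 N`; `s` large (`2 B/s ≤ δ`), `σ = 1`, `trap_potential`, `Trap.mono`.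
  `lag K A V x v = ℓ(x, v) + ⟪c₀, v⟫ + E₁ + ⟪∇f(x), v⟫`, `c₀ = D q + a₀`, `E₁ = K q - ⟪D q, q⟫`, and
  `∫ ⟪∇f(x), u⟫ = f(x(b)) - f(x(a))` (`Adm.integral_grad`).
* `flat_magnetic`: `k₀`, `m`, `P₀` from `exists_avK_A_ne`; `δ` from `trap_main` with
  `w₁ = -avK ⟪A, zv P₀⟫ k₀ m`. Choose `N ≥ 1` large, `P = PN k₀ m P₀ N`, `S = N ^ n`:
  `|⟪A, zv P⟫ - S ⟪A, zv P₀⟫| ≤ B C S/N` (`PN_size`) and `|avP ⟪A, zv P₀⟫ P - avK ..| ≤ δ/4`
  (`avP_tendsto`), so `|avP ⟪A, zv P⟫ P - S avK ..| ≤ ρ = S δ/2`. With `σ = s S` and `s` large: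
  `s ρ + B ≤ σ δ`, `2 B ‖zv P‖ ≤ √σ δ`, `B ‖zv P‖ + B ≤ √σ δ`; `trap_magnetic`, `Trap.mono`, `trap_main`,
  `flat_of_trapped` with `f = 0`, `c₀ = D q`, `E₁ = K q - ⟪D q, q⟫`.
-/

set_option autoImplicit false

open MeasureTheory
open scoped RealInnerProductSpace

namespace Pool.Agent.H33.AM

variable {n : ℕ}

private theorem act_eq {l : EuclideanSpace ℝ (Fin n) → EuclideanSpace ℝ (Fin n) → ℝ} (hl : HL l)
    {a b : ℝ} {x u : ℝ → EuclideanSpace ℝ (Fin n)} (h : Adm a b x u)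
    (c : EuclideanSpace ℝ (Fin n)) (E : ℝ) :
    ∫ t in a..b, (l (x t) (u t) + ⟪c, u t⟫ + E) =
      (∫ t in a..b, l (x t) (u t)) + (⟪c, x b⟫ - ⟪c, x a⟫) + E * (b - a) := by
  have h1 : IntervalIntegrable (fun t => l (x t) (u t)) volume a b := h.integrable hl.cont
  have h2 : IntervalIntegrable (fun t => ⟪c, u t⟫) volume a b :=
    h.integrable (g := fun p => ⟪c, p.2⟫) (by fun_prop)
  rw [intervalIntegral.integral_add (h1.add h2) (by simp), intervalIntegral.integral_add h1 h2,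
    h.integral_inner c]
  simp [mul_comm]

theorem flat_of_trapped {L l : EuclideanSpace ℝ (Fin n) → EuclideanSpace ℝ (Fin n) → ℝ}
    {k₀ : Fin n → ℤ} (hk : k₀ ≠ 0) (hL : HL L) (hl : HL l) {c₀ : EuclideanSpace ℝ (Fin n)}
    {E₁ C₁ : ℝ} {f : EuclideanSpace ℝ (Fin n) → ℝ} (hf : ∀ x, |f x| ≤ C₁)
    (hfper : ∀ x (k : Fin n → ℤ), f (x + zv k) = f x)
    (hLl : ∀ (a b : ℝ) (x u : ℝ → EuclideanSpace ℝ (Fin n)), Adm a b x u →
      ∫ t in a..b, L (x t) (u t) =
        (∫ t in a..b, (l (x t) (u t) + ⟪c₀, u t⟫ + E₁)) + f (x b) - f (x a))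
    (h : Trapped l k₀) : Flat L := by
  obtain ⟨e, fu, fd, C, hlt, hcrit, hnc, hη⟩ := h
  have key : ∀ (T : ℝ) (x u : ℝ → EuclideanSpace ℝ (Fin n)) (c : EuclideanSpace ℝ (Fin n)) (E : ℝ),
      Adm 0 T x u → ∫ t in (0 : ℝ)..T, (L (x t) (u t) - ⟪c, u t⟫ + E) =
        (∫ t in (0 : ℝ)..T, l (x t) (u t)) + (⟪c₀, x T⟫ - ⟪c₀, x 0⟫) - (⟪c, x T⟫ - ⟪c, x 0⟫) +
          (E₁ + E) * T + (f (x T) - f (x 0)) := by
    intro T x u c E hx
    have h1 := act_eq hL hx (-c) E
    have h2 : ∫ t in (0 : ℝ)..T, (L (x t) (u t) - ⟪c, u t⟫ + E) =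
        ∫ t in (0 : ℝ)..T, (L (x t) (u t) + ⟪-c, u t⟫ + E) := by
      congr 1
      funext t
      rw [inner_neg_left]
      ring
    rw [h2, h1, hLl 0 T x u hx, act_eq hl hx c₀ E₁, inner_neg_left, inner_neg_left]
    ring
  have key2 : ∀ (T : ℝ) (x u : ℝ → EuclideanSpace ℝ (Fin n)) (e : ℝ), Adm 0 T x u →
      act l e 0 T x u = (∫ t in (0 : ℝ)..T, l (x t) (u t)) + e * T := by
    intro T x u e hx
    have h1 : IntervalIntegrable (fun t => l (x t) (u t)) volume 0 T := hx.integrable hl.cont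
    unfold act
    rw [intervalIntegral.integral_add h1 (by simp)]
    simp [mul_comm]
  refine ⟨k₀, c₀, e - E₁, -fd, fu, C + 2 * C₁, hk, hlt, ?_, ?_⟩
  · intro η hη' T x u hx
    have h1 := hη η hη' T (x 0) (x T) (act l e 0 T x u) ⟨x, u, hx, rfl, rfl, rfl⟩
    rw [key T x u _ _ hx]
    rw [key2 T x u e hx] at h1
    rw [inner_add_left, inner_add_left, inner_smul_left, inner_smul_left]
    have h3 := abs_le.1 (hf (x T))
    have h4 := abs_le.1 (hf (x 0))
    simp only [conj_trivial]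
    nlinarith
  · intro E' hE'
    have h1 := hnc (E' + E₁) (by linarith)
    unfold Crit at h1
    push Not at h1
    obtain ⟨T, x, k, r, hk0, ⟨ξ, u, hξ, hξ0, hξT, hact⟩, hr⟩ := h1
    refine ⟨T, ξ, u, k, ?_, hξ, by rw [hξT, hξ0], hk0, ?_⟩
    · rcases hξ.le.lt_or_eq with h2 | h2
      · exact h2
      · exfalso
        rw [← h2] at hact
        unfold act at hact
        simp only [intervalIntegral.integral_same] at hact
        linarith
    · rw [key T ξ u _ _ hξ]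
      rw [key2 T ξ u _ hξ] at hact
      have h3 : f (ξ T) = f (ξ 0) := by rw [hξT, hξ0, hfper]
      rw [h3]
      linarith

end Pool.Agent.H33.AM

end

section

/-!
# Module V5: the magnetic potential

* `cube_deriv`: if `h` is `C¹` and periodic, `∫_cube ⟪∇h, v⟫ = 0`: differentiate the constant function
  `t ↦ ∫_cube h(y + t v)` (`cube_translate`) at `t = 0`.
* `exists_avK_A_ne`: suppose not. Then for every `k ≠ 0` and `P` with `dot k P = 0`, all the
  coefficients `∫_cube ⟪A, zv P⟫ cos(2π ⟪k, ·⟫ + φ)` vanish (`primitive`, `cos_coeff`; `∫₀¹ const ·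
  cos(2π d θ + φ) = 0` for `d ≠ 0`). With `P = k_j e_i - k_i e_j`:
  `k_j ∫ A_i cos(..) = k_i ∫ A_j cos(..)`. For `g = ∂_j A_i - ∂_i A_j` one has, by `cube_deriv` applied to
  `A_i cos(2π ⟪k, ·⟫ + φ)`, `∫ ∂_j A_i cos(..) = 2π k_j ∫ A_i sin(..)`, so all the coefficients of `g` with
  `k ≠ 0` vanish and `g` is constant (`const_of_coeff`), and the constant is `∫_cube g = 0`
  (`cube_deriv`). So `A' x` is symmetric for every `x`: contradiction.
* `exists_grad`: Poincaré's lemma (see `Mathlib/MeasureTheory/Integral/CurveIntegral/Poincare.lean`, or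
  directly `h(x) = ∫₀¹ ⟪A(t x), x⟫ dt`): there is `h` with `∇h = A`; `h(x + zv k) - h(x)` is constant in
  `x` and additive in `k`, so it is `⟪a₀, zv k⟫`; put `f = h - ⟪a₀, ·⟫`.
-/

set_option autoImplicit false

open MeasureTheory
open scoped RealInnerProductSpace

namespace Pool.Agent.H33.AM

variable {n : ℕ}

private lemma prim {A : EuclideanSpace ℝ (Fin n) → EuclideanSpace ℝ (Fin n)}
    {A' : EuclideanSpace ℝ (Fin n) → EuclideanSpace ℝ (Fin n) →L[ℝ] EuclideanSpace ℝ (Fin n)}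
    {B : ℝ} (hA : HA A A' B) (hs : ∀ x v w, ⟪A' x v, w⟫ = ⟪A' x w, v⟫) :
    ∃ h : EuclideanSpace ℝ (Fin n) → ℝ, ∀ x, HasGradientAt h (A x) x := by
  set ω : EuclideanSpace ℝ (Fin n) → (EuclideanSpace ℝ (Fin n) →L[ℝ] ℝ) := fun x =>
    ∑ i, (A x i) • (EuclideanSpace.proj i : EuclideanSpace ℝ (Fin n) →L[ℝ] ℝ) with hω
  have hωa : ∀ x w, ω x w = ⟪A x, w⟫ := by
    intro x w
    simp only [hω, _root_.sum_apply, _root_.smul_apply,
      PiLp.proj_apply, smul_eq_mul, PiLp.inner_apply]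
    apply Finset.sum_congr rfl
    intro i _
    simp [mul_comm]
  have hωd : ∀ x, HasFDerivAt ω (∑ i, ((EuclideanSpace.proj i :
      EuclideanSpace ℝ (Fin n) →L[ℝ] ℝ).comp (A' x)).smulRight
        (EuclideanSpace.proj i : EuclideanSpace ℝ (Fin n) →L[ℝ] ℝ)) x := by
    intro x
    simp only [hω]
    apply HasFDerivAt.fun_sum
    intro i _
    have h1 : HasFDerivAt (fun y => (A y) i) ((EuclideanSpace.proj i :
      EuclideanSpace ℝ (Fin n) →L[ℝ] ℝ).comp (A' x)) x :=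
      ((EuclideanSpace.proj i : EuclideanSpace ℝ (Fin n) →L[ℝ] ℝ).hasFDerivAt).comp x (hA.der x)
    exact h1.smul_const (EuclideanSpace.proj i : EuclideanSpace ℝ (Fin n) →L[ℝ] ℝ)
  have hωs : ∀ x v w, fderiv ℝ ω x v w = ⟪A' x v, w⟫ := by
    intro x v w
    rw [(hωd x).fderiv]
    simp only [_root_.sum_apply, ContinuousLinearMap.smulRight_apply,
      ContinuousLinearMap.comp_apply, _root_.smul_apply,
      PiLp.proj_apply, smul_eq_mul, PiLp.inner_apply]
    apply Finset.sum_congr rfl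
    intro i _
    simp [mul_comm]
  obtain ⟨h, hh⟩ := (convex_univ (E := EuclideanSpace ℝ (Fin n))).exists_forall_hasFDerivAt_of_fderiv_symmetric
    (ω := ω) isOpen_univ (fun x _ => (hωd x).differentiableAt.differentiableWithinAt)
    (fun x _ v w => by rw [hωs, hωs, hs])
  refine ⟨h, fun x => ?_⟩
  have h1 := hh x (Set.mem_univ x)
  have h2 : ω x = (InnerProductSpace.toDual ℝ (EuclideanSpace ℝ (Fin n))) (A x) := by
    ext w
    rw [hωa]
    simp
  rw [h2] at h1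
  exact h1

private lemma bdd_per {f : EuclideanSpace ℝ (Fin n) → ℝ} (hf : Continuous f)
    (hper : ∀ x (k : Fin n → ℤ), f (x + zv k) = f x) : ∃ C, ∀ x, |f x| ≤ C := by
  have hc : IsCompact (Set.univ.pi fun _ : Fin n => Set.Icc (0 : ℝ) 1) :=
    isCompact_univ_pi fun _ => isCompact_Icc
  have hg : Continuous fun y : Fin n → ℝ => f (WithLp.toLp 2 y) :=
    hf.comp (PiLp.continuous_toLp 2 _)
  obtain ⟨C, hC⟩ := hc.exists_bound_of_continuousOn hg.continuousOn
  refine ⟨C, fun x => ?_⟩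
  set y : Fin n → ℝ := fun i => Int.fract (x i) with hy
  have h1 : x = WithLp.toLp 2 y + zv (fun i => ⌊x i⌋) := by
    ext i
    simp [hy, zv, Int.fract_add_floor]
  rw [h1, hper]
  have h2 := hC y (fun i _ => ⟨Int.fract_nonneg _, (Int.fract_lt_one _).le⟩)
  rwa [Real.norm_eq_abs] at h2

theorem exists_grad {A : EuclideanSpace ℝ (Fin n) → EuclideanSpace ℝ (Fin n)}
    {A' : EuclideanSpace ℝ (Fin n) → EuclideanSpace ℝ (Fin n) →L[ℝ] EuclideanSpace ℝ (Fin n)}
    {B : ℝ} (hA : HA A A' B) (hs : ∀ x v w, ⟪A' x v, w⟫ = ⟪A' x w, v⟫) :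
    ∃ (a₀ : EuclideanSpace ℝ (Fin n)) (f : EuclideanSpace ℝ (Fin n) → ℝ),
      (∀ x, HasGradientAt f (A x - a₀) x) ∧ (∀ x (k : Fin n → ℤ), f (x + zv k) = f x) ∧
      ∃ C, ∀ x, |f x| ≤ C := by
  obtain ⟨h, hh⟩ := prim hA hs
  have hcont : Continuous h := continuous_iff_continuousAt.mpr fun x => (hh x).continuousAt
  have hconst : ∀ (k : Fin n → ℤ) x, h (x + zv k) - h x = h (zv k) - h 0 := by
    intro k x
    have hd : ∀ y, HasFDerivAt (fun y => h (y + zv k) - h y)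
        (0 : EuclideanSpace ℝ (Fin n) →L[ℝ] ℝ) y := by
      intro y
      have h1 := (hh (y + zv k)).hasFDerivAt
      have h4 : HasFDerivAt (fun y : EuclideanSpace ℝ (Fin n) => y + zv k)
        (ContinuousLinearMap.id ℝ _) y := (hasFDerivAt_id y).add_const _
      have h5 := h1.comp y h4
      rw [ContinuousLinearMap.comp_id, hA.per] at h5
      have h6 := h5.sub (hh y).hasFDerivAt
      rw [sub_self] at h6
      exact h6
    have := is_const_of_fderiv_eq_zero (𝕜 := ℝ) (fun y => (hd y).differentiableAt)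
      (fun y => (hd y).fderiv) x 0
    simp only [zero_add] at this
    exact this
  have hz0 : zv (0 : Fin n → ℤ) = 0 := zv_zero
  set ρ : (Fin n → ℤ) →+ ℝ :=
    { toFun := fun k => h (zv k) - h 0
      map_zero' := by rw [hz0, sub_self]
      map_add' := by
        intro k l
        have h1 := hconst l (zv k)
        rw [← zv_add] at h1
        linarith } with hρ
  have hρa : ∀ k, ρ k = h (zv k) - h 0 := fun k => rfl
  set a₀ : EuclideanSpace ℝ (Fin n) := WithLp.toLp 2 fun i => ρ (Pi.single i 1) with ha₀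
  have ha : ∀ k : Fin n → ℤ, ⟪a₀, zv k⟫ = ρ k := by
    intro k
    have h1 : k = ∑ i, k i • (Pi.single i (1 : ℤ) : Fin n → ℤ) := by
      ext j
      simp [Finset.sum_apply, Pi.single_apply]
    have h2 : ρ k = ∑ i, (k i : ℝ) * ρ (Pi.single i 1) := by
      conv_lhs => rw [h1]
      rw [map_sum]
      apply Finset.sum_congr rfl
      intro i _
      rw [map_zsmul, zsmul_eq_mul]
    rw [h2]
    simp only [PiLp.inner_apply, ha₀, zv]
    apply Finset.sum_congr rfl
    intro i _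
    simp [mul_comm]
  have hper : ∀ x (k : Fin n → ℤ), h (x + zv k) - ⟪a₀, x + zv k⟫ = h x - ⟪a₀, x⟫ := by
    intro x k
    rw [inner_add_right, ha, hρa]
    have := hconst k x
    linarith
  refine ⟨a₀, fun x => h x - ⟪a₀, x⟫, ?_, hper, ?_⟩
  · intro x
    have h1 : HasFDerivAt (fun x => ⟪a₀, x⟫)
        ((InnerProductSpace.toDual ℝ (EuclideanSpace ℝ (Fin n))) a₀) x := by
      have := ((InnerProductSpace.toDual ℝ (EuclideanSpace ℝ (Fin n))) a₀).hasFDerivAt (x := x)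
      refine this.congr_of_eventuallyEq (Filter.Eventually.of_forall fun y => ?_)
      simp
    have h2 := (hh x).hasFDerivAt.sub h1
    rw [← map_sub] at h2
    exact h2
  · apply bdd_per _ hper
    exact hcont.sub (continuous_const.inner continuous_id)

end Pool.Agent.H33.AM

end

section

/-!
# Module V7: flats of the action functional

* `flat_of_trapped`: put `E₀ = e - E₁` with `e` from `Trapped`; on curves
  `∫ (L - ⟪c₀ + η k₀, u⟫ + E₀) = ∫ (ℓ + e) - η (⟪k₀, x(b)⟫ - ⟪k₀, x(a)⟫) + f(x(b)) - f(x(a))`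
  (`Adm.integral_inner`), and for `E' < E₀` the failure of `Crit l k₀ (E' + E₁)` gives the closed curve
  (`f` is periodic; `0 < T` since `T = 0` gives the action `0`).
* `flat_potential`: `A' x` symmetric, so `A = a₀ + ∇f` (`exists_grad`). By `exists_avK_ne` there are `k₀`,
  `m` with `avK V k₀ m` not constant; `δ` from `trap_main` (`w₁ = avK V k₀ m`); `N` from `avP_tendsto` with
  `P₀ = 0`, `P = PN k₀ m 0 N`; `s` large (`2 B/s ≤ δ`), `σ = 1`, `trap_potential`, `Trap.mono`.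
  `lag K A V x v = ℓ(x, v) + ⟪c₀, v⟫ + E₁ + ⟪∇f(x), v⟫`, `c₀ = D q + a₀`, `E₁ = K q - ⟪D q, q⟫`, and
  `∫ ⟪∇f(x), u⟫ = f(x(b)) - f(x(a))` (`Adm.integral_grad`).
* `flat_magnetic`: `k₀`, `m`, `P₀` from `exists_avK_A_ne`; `δ` from `trap_main` with
  `w₁ = -avK ⟪A, zv P₀⟫ k₀ m`. Choose `N ≥ 1` large, `P = PN k₀ m P₀ N`, `S = N ^ n`:
  `|⟪A, zv P⟫ - S ⟪A, zv P₀⟫| ≤ B C S/N` (`PN_size`) and `|avP ⟪A, zv P₀⟫ P - avK ..| ≤ δ/4`
  (`avP_tendsto`), so `|avP ⟪A, zv P⟫ P - S avK ..| ≤ ρ = S δ/2`. With `σ = s S` and `s` large: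
  `s ρ + B ≤ σ δ`, `2 B ‖zv P‖ ≤ √σ δ`, `B ‖zv P‖ + B ≤ √σ δ`; `trap_magnetic`, `Trap.mono`, `trap_main`,
  `flat_of_trapped` with `f = 0`, `c₀ = D q`, `E₁ = K q - ⟪D q, q⟫`.
-/

set_option autoImplicit false

open MeasureTheory
open scoped RealInnerProductSpace

namespace Pool.Agent.H33.AM

variable {n : ℕ}

private theorem V7b_HL {K V : EuclideanSpace ℝ (Fin n) → ℝ}
    {D F A : EuclideanSpace ℝ (Fin n) → EuclideanSpace ℝ (Fin n)}
    {A' : EuclideanSpace ℝ (Fin n) → EuclideanSpace ℝ (Fin n) →L[ℝ] EuclideanSpace ℝ (Fin n)}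
    {κ₁ κ₂ B : ℝ} (hK : HK K D κ₁ κ₂) (hA : HA A A' B) (hV : HV V F B) : HL (lag K A V) := by
  have hKc : Continuous K := continuous_iff_continuousAt.2 fun v =>
    (hK.grad v).hasFDerivAt.continuousAt
  have hAc : Continuous A := continuous_iff_continuousAt.2 fun x => (hA.der x).continuousAt
  have hVc : Continuous V := continuous_iff_continuousAt.2 fun x =>
    (hV.der x).hasFDerivAt.continuousAt
  refine ⟨?_, fun x v k => ?_⟩
  · unfold lag
    fun_prop
  · rw [lag, lag, hA.per, hV.per]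

theorem flat_potential {K V : EuclideanSpace ℝ (Fin n) → ℝ}
    {D F A : EuclideanSpace ℝ (Fin n) → EuclideanSpace ℝ (Fin n)}
    {A' : EuclideanSpace ℝ (Fin n) → EuclideanSpace ℝ (Fin n) →L[ℝ] EuclideanSpace ℝ (Fin n)}
    {κ₁ κ₂ B : ℝ} (hK : HK K D κ₁ κ₂) (hA : HA A A' B) (hV : HV V F B)
    (hs : ∀ x v w, ⟪A' x v, w⟫ = ⟪A' x w, v⟫) (hne : ∃ x y, V x ≠ V y) : Flat (lag K A V) := by
  have hKc : Continuous K := continuous_iff_continuousAt.2 fun v =>
    (hK.grad v).hasFDerivAt.continuousAt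
  have hAc : Continuous A := continuous_iff_continuousAt.2 fun x => (hA.der x).continuousAt
  have hVc : Continuous V := continuous_iff_continuousAt.2 fun x =>
    (hV.der x).hasFDerivAt.continuousAt
  obtain ⟨a₀, f, hf, hfper, C, hfC⟩ := exists_grad hA hs
  obtain ⟨k₀, m, hkm, hnc⟩ := exists_avK_ne hVc hV.per hne
  obtain ⟨δ, hδ, hmain⟩ := trap_main hkm hK.pos hK.pos₂ (avK_cont hVc hV.per k₀ m)
    (avK_per hV.per k₀ m) hnc
  obtain ⟨N, hN⟩ := avP_tendsto hkm (dot_zero k₀) hVc hV.per hδ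
  have hav := hN N le_rfl
  have hkP := PN_dot hkm (dot_zero k₀) N
  have hB := hV.nonneg
  have hs0 : 0 < (2 * B + 1) / δ := by positivity
  obtain ⟨M, hT⟩ := trap_potential hK hV hkm hkP hs0 hδ.le hav
  have h1 : 2 * B / ((2 * B + 1) / δ) ≤ δ := by
    rw [div_le_iff₀ hs0, mul_div_cancel₀ _ hδ.ne']
    linarith
  have h2 : B / ((2 * B + 1) / δ) ≤ δ := by
    rw [div_le_iff₀ hs0, mul_div_cancel₀ _ hδ.ne']
    linarith
  have hT' := hT.mono (ε' := 1 * δ) (β₀' := √1 * δ) (β₁' := √1 * δ) (by rw [one_mul])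
    (by rw [Real.sqrt_one, one_mul]; exact h1) (by rw [Real.sqrt_one, one_mul]; exact h2)
  have hT'' := hmain _ (PN k₀ m 0 N) ((2 * B + 1) / δ) 1 M one_pos (by
    simp only [one_mul]
    rw [one_mul] at hT'
    exact hT')
  set q : EuclideanSpace ℝ (Fin n) := ((2 * B + 1) / δ) • zv (PN k₀ m 0 N) with hq
  refine flat_of_trapped (c₀ := D q + a₀) (E₁ := K q - ⟪D q, q⟫) (ne_zero_of_dot hkm).1
    (V7b_HL hK hA hV) hT.hl hfC hfper ?_ hT''
  intro a b x u hx
  have hG := hx.integral_grad hf (hAc.sub continuous_const)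
  have i1 := hx.integrable (g := fun p => K p.2 - K q - ⟪D q, p.2 - q⟫ - V p.1 +
    ⟪D q + a₀, p.2⟫ + (K q - ⟪D q, q⟫)) (by fun_prop)
  have i2 := hx.integrable (g := fun p => ⟪A p.1 - a₀, p.2⟫) (by fun_prop)
  have hsum : ∫ t in a..b, lag K A V (x t) (u t) =
      ∫ t in a..b, ((K (u t) - K q - ⟪D q, u t - q⟫ - V (x t) + ⟪D q + a₀, u t⟫ +
        (K q - ⟪D q, q⟫)) + ⟪A (x t) - a₀, u t⟫) := by
    refine intervalIntegral.integral_congr fun t _ => ?_
    simp only [lag, inner_add_left, inner_sub_left, inner_sub_right]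
    ring
  rw [hsum, intervalIntegral.integral_add i1 i2, hG]
  ring

end Pool.Agent.H33.AM

end

section

/-!
# Module V7: flats of the action functional

* `flat_of_trapped`: put `E₀ = e - E₁` with `e` from `Trapped`; on curves
  `∫ (L - ⟪c₀ + η k₀, u⟫ + E₀) = ∫ (ℓ + e) - η (⟪k₀, x(b)⟫ - ⟪k₀, x(a)⟫) + f(x(b)) - f(x(a))`
  (`Adm.integral_inner`), and for `E' < E₀` the failure of `Crit l k₀ (E' + E₁)` gives the closed curve
  (`f` is periodic; `0 < T` since `T = 0` gives the action `0`).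
* `flat_potential`: `A' x` symmetric, so `A = a₀ + ∇f` (`exists_grad`). By `exists_avK_ne` there are `k₀`,
  `m` with `avK V k₀ m` not constant; `δ` from `trap_main` (`w₁ = avK V k₀ m`); `N` from `avP_tendsto` with
  `P₀ = 0`, `P = PN k₀ m 0 N`; `s` large (`2 B/s ≤ δ`), `σ = 1`, `trap_potential`, `Trap.mono`.
  `lag K A V x v = ℓ(x, v) + ⟪c₀, v⟫ + E₁ + ⟪∇f(x), v⟫`, `c₀ = D q + a₀`, `E₁ = K q - ⟪D q, q⟫`, and
  `∫ ⟪∇f(x), u⟫ = f(x(b)) - f(x(a))` (`Adm.integral_grad`).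
* `flat_magnetic`: `k₀`, `m`, `P₀` from `exists_avK_A_ne`; `δ` from `trap_main` with
  `w₁ = -avK ⟪A, zv P₀⟫ k₀ m`. Choose `N ≥ 1` large, `P = PN k₀ m P₀ N`, `S = N ^ n`:
  `|⟪A, zv P⟫ - S ⟪A, zv P₀⟫| ≤ B C S/N` (`PN_size`) and `|avP ⟪A, zv P₀⟫ P - avK ..| ≤ δ/4`
  (`avP_tendsto`), so `|avP ⟪A, zv P⟫ P - S avK ..| ≤ ρ = S δ/2`. With `σ = s S` and `s` large:
  `s ρ + B ≤ σ δ`, `2 B ‖zv P‖ ≤ √σ δ`, `B ‖zv P‖ + B ≤ √σ δ`; `trap_magnetic`, `Trap.mono`, `trap_main`,
  `flat_of_trapped` with `f = 0`, `c₀ = D q`, `E₁ = K q - ⟪D q, q⟫`.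
-/

set_option autoImplicit false

open MeasureTheory
open scoped RealInnerProductSpace

namespace Pool.Agent.H33.AM

variable {n : ℕ}

private theorem V7c_HL {K V : EuclideanSpace ℝ (Fin n) → ℝ}
    {D F A : EuclideanSpace ℝ (Fin n) → EuclideanSpace ℝ (Fin n)}
    {A' : EuclideanSpace ℝ (Fin n) → EuclideanSpace ℝ (Fin n) →L[ℝ] EuclideanSpace ℝ (Fin n)}
    {κ₁ κ₂ B : ℝ} (hK : HK K D κ₁ κ₂) (hA : HA A A' B) (hV : HV V F B) : HL (lag K A V) := by
  have hKc : Continuous K := continuous_iff_continuousAt.2 fun v =>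
    (hK.grad v).hasFDerivAt.continuousAt
  have hAc : Continuous A := continuous_iff_continuousAt.2 fun x => (hA.der x).continuousAt
  have hVc : Continuous V := continuous_iff_continuousAt.2 fun x =>
    (hV.der x).hasFDerivAt.continuousAt
  refine ⟨?_, fun x v k => ?_⟩
  · unfold lag
    fun_prop
  · rw [lag, lag, hA.per, hV.per]

theorem flat_magnetic {K V : EuclideanSpace ℝ (Fin n) → ℝ}
    {D F A : EuclideanSpace ℝ (Fin n) → EuclideanSpace ℝ (Fin n)}
    {A' : EuclideanSpace ℝ (Fin n) → EuclideanSpace ℝ (Fin n) →L[ℝ] EuclideanSpace ℝ (Fin n)}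
    {κ₁ κ₂ B : ℝ} (hK : HK K D κ₁ κ₂) (hA : HA A A' B) (hV : HV V F B)
    (hns : ∃ x v w, ⟪A' x v, w⟫ ≠ ⟪A' x w, v⟫) : Flat (lag K A V) := by
  have hKc : Continuous K := continuous_iff_continuousAt.2 fun v =>
    (hK.grad v).hasFDerivAt.continuousAt
  have hAc : Continuous A := continuous_iff_continuousAt.2 fun x => (hA.der x).continuousAt
  obtain ⟨k₀, m, P₀, hkm, hkP₀, θ₁, θ₂, hne⟩ := exists_avK_A_ne hA hns
  have hg : Continuous fun x => ⟪A x, zv P₀⟫ := by fun_prop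
  have hgper : ∀ x (k : Fin n → ℤ), ⟪A (x + zv k), zv P₀⟫ = ⟪A x, zv P₀⟫ := by
    intro x k
    rw [hA.per]
  obtain ⟨δ, hδ, hmain⟩ := trap_main hkm hK.pos hK.pos₂
    (w₁ := fun θ => -avK (fun x => ⟪A x, zv P₀⟫) k₀ m θ) (avK_cont hg hgper k₀ m).neg
    (fun θ => by rw [avK_per hgper k₀ m]) ⟨θ₁, θ₂, fun h => hne (neg_injective h)⟩
  obtain ⟨C, hC0, hC⟩ := PN_size hkm P₀
  obtain ⟨N₀, hN₀⟩ := avP_tendsto hkm hkP₀ hg hgper (show 0 < δ / 4 by positivity)
  have hB := hV.nonneg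
  obtain ⟨N₁, hN₁⟩ := exists_nat_ge (4 * B * C / δ)
  set N : ℕ := max (max N₀ N₁) 1 with hN
  have hN0 : N₀ ≤ N := (le_max_left _ _).trans (le_max_left _ _)
  have hN1 : (N₁ : ℝ) ≤ N := by exact_mod_cast (le_max_right _ _).trans (le_max_left _ _)
  have hN2 : 1 ≤ N := le_max_right _ _
  have hNpos : (0 : ℝ) < N := by exact_mod_cast hN2
  have hav0 := hN₀ N hN0
  have hkP := PN_dot hkm hkP₀ N
  have hCN := hC N hN2
  set P : Fin n → ℤ := PN k₀ m P₀ N with hP
  set S : ℝ := (N : ℝ) ^ n with hS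
  have hS0 : 0 < S := by positivity
  have hBC : B * (C * S / N) ≤ S * (δ / 4) := by
    have h1 : 4 * B * C / δ ≤ N := hN₁.trans hN1
    rw [div_le_iff₀ hδ] at h1
    rw [mul_div_assoc', div_le_iff₀ hNpos]
    nlinarith [mul_le_mul_of_nonneg_left h1 hS0.le]
  have hav : ∀ x, |avP (fun x => ⟪A x, zv P⟫) P x -
      S * avK (fun x => ⟪A x, zv P₀⟫) k₀ m ⟪zv k₀, x⟫| ≤ S * (δ / 2) := by
    intro x
    have e1 : avP (fun x => ⟪A x, zv P⟫) P x = S * avP (fun x => ⟪A x, zv P₀⟫) P x +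
        avP (fun x => ⟪A x, zv P - S • zv P₀⟫) P x := by
      unfold avP
      rw [← intervalIntegral.integral_const_mul, ← intervalIntegral.integral_add]
      · refine intervalIntegral.integral_congr fun t _ => ?_
        simp only [inner_sub_right, inner_smul_right]
        ring
      · exact Continuous.intervalIntegrable (by fun_prop) _ _
      · exact Continuous.intervalIntegrable (by fun_prop) _ _
    have e2 : |avP (fun x => ⟪A x, zv P - S • zv P₀⟫) P x| ≤ B * (C * S / N) := by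
      unfold avP
      have h1 := intervalIntegral.norm_integral_le_of_norm_le_const (a := (0 : ℝ)) (b := 1)
        (f := fun t : ℝ => ⟪A (x + t • zv P), zv P - S • zv P₀⟫) (C := B * (C * S / N))
        (fun t _ => by
          refine (norm_inner_le_norm _ _).trans ?_
          exact mul_le_mul (hA.bd _) hCN (norm_nonneg _) hB)
      rw [Real.norm_eq_abs] at h1
      simpa using h1
    have e3 : |S * avP (fun x => ⟪A x, zv P₀⟫) P x -
        S * avK (fun x => ⟪A x, zv P₀⟫) k₀ m ⟪zv k₀, x⟫| ≤ S * (δ / 4) := by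
      rw [← mul_sub, abs_mul, abs_of_pos hS0]
      exact mul_le_mul_of_nonneg_left (hav0 x) hS0.le
    rw [e1]
    have h2 := abs_add_le (S * avP (fun x => ⟪A x, zv P₀⟫) P x -
        S * avK (fun x => ⟪A x, zv P₀⟫) k₀ m ⟪zv k₀, x⟫)
      (avP (fun x => ⟪A x, zv P - S • zv P₀⟫) P x)
    rw [show S * avP (fun x => ⟪A x, zv P₀⟫) P x + avP (fun x => ⟪A x, zv P - S • zv P₀⟫) P x -
        S * avK (fun x => ⟪A x, zv P₀⟫) k₀ m ⟪zv k₀, x⟫ =
      S * avP (fun x => ⟪A x, zv P₀⟫) P x - S * avK (fun x => ⟪A x, zv P₀⟫) k₀ m ⟪zv k₀, x⟫ +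
        avP (fun x => ⟪A x, zv P - S • zv P₀⟫) P x by ring]
    linarith
  set b₀ : ℝ := 2 * B * ‖zv P‖ + B with hb₀
  have hb₀0 : 0 ≤ b₀ := by positivity
  set σ : ℝ := (b₀ / δ) ^ 2 + 2 * B / δ + 1 with hσ
  have hσ0 : 0 < σ := by positivity
  have hσ1 : b₀ ≤ √σ * δ := by
    have h1 : b₀ / δ ≤ √σ := by
      refine Real.le_sqrt_of_sq_le ?_
      have : 0 ≤ 2 * B / δ := by positivity
      linarith
    rwa [div_le_iff₀ hδ] at h1
  have hσ2 : B ≤ σ * δ / 2 := by
    have h1 : 2 * B / δ ≤ σ := by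
      have : 0 ≤ (b₀ / δ) ^ 2 := by positivity
      linarith
    rw [div_le_iff₀ hδ] at h1
    linarith
  have hs0 : 0 < σ / S := by positivity
  have hsS : σ / S * S = σ := div_mul_cancel₀ _ hS0.ne'
  obtain ⟨M, hT⟩ := trap_magnetic hK hA hV hkm hkP hs0 hS0
    (show 0 ≤ S * (δ / 2) by positivity) hav
  have hnP : 0 ≤ B * ‖zv P‖ := by positivity
  have hT' := hT.mono (ε' := σ * δ) (β₀' := √σ * δ) (β₁' := √σ * δ)
    (by
      rw [← mul_assoc, hsS]
      linarith)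
    (by linarith) (by linarith)
  rw [hsS] at hT'
  have hT'' := hmain _ P (σ / S) σ M hσ0 hT'
  set q : EuclideanSpace ℝ (Fin n) := (σ / S) • zv P with hq
  refine flat_of_trapped (c₀ := D q) (E₁ := K q - ⟪D q, q⟫) (C₁ := 0) (f := fun _ => 0)
    (ne_zero_of_dot hkm).1 (V7c_HL hK hA hV) hT.hl (fun _ => by rw [abs_zero])
    (fun _ _ => rfl) ?_ hT''
  intro a b x u _
  rw [add_zero, sub_zero]
  refine intervalIntegral.integral_congr fun t _ => ?_
  simp only [lag, inner_sub_right]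
  ring

end Pool.Agent.H33.AM

end

section

/-!
# Module C1: the integrable case `A = a₀ + ∇f`, `V = V₀`

Here `L x v t = K v + ⟪a₀ + ∇f(x), v⟫ - V₀`. For `c` let `vc = D' (c - a₀)`, i.e. `D vc = c - a₀`, and
`α = ⟪c - a₀, vc⟫ - K vc + V₀`; `L - ⟪c, v⟫ + α = (K v - K vc - ⟪D vc, v - vc⟫) + ⟪∇f(x), v⟫`.
* `alpha_int`: `actionValues L c ≥ -α` by `actionValues_ge`, since on curves the integral is at least
  `f(x(T)) - f(x(0)) ≥ -2 C` (`Adm.integral_grad`). Conversely, for `j ≥ 1` let `k` be an integer vector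
  with `‖zv k - j vc‖ ≤ √n`; the straight line `γ(t) = t v`, `v = zv k/j`, is a solution (`Sol`: `D v + A(γ)`
  has the derivative `A'(γ) v = adjoint (A'(γ)) v` because `A'` is symmetric, `F = 0`), and has the
  period `j`; its value is at most `-α + κ₂/2 ‖v - vc‖² ≤ -α + κ₂ n/(2 j²)` (the integral of `⟪∇f, v⟫` over the
  period vanishes), `mem_actionValues`.
* `peierls_int`: for a curve as in `curveActions` from `x` to `x`: the action is
  `∫ (K γ' - K vc - ⟪D vc, γ' - vc⟫) + f(γ(k)) - f(γ(0)) ≥ 0` (`f ∘ γ` is absolutely continuous since `f`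
  is Lipschitz; see `AbsolutelyContinuousOnInterval`, its fundamental theorem of calculus and
  a.e. differentiability; `f(γ(k)) = f(γ(0))` since `pr (γ k) = pr (γ 0)`). The line from `x` to `x + zv k'`,
  `‖zv k' - k vc‖ ≤ √n`, has the action at most `k κ₂/2 (√n/k)² = κ₂ n/(2 k)`. So
  `0 ≤ sInf (curveActions L c k x x) ≤ κ₂ n/(2 k) → 0`.
-/

set_option autoImplicit false

open MeasureTheory
open scoped RealInnerProductSpace

namespace Pool.Agent.H33.AM

variable {n : ℕ} {K V f : EuclideanSpace ℝ (Fin n) → ℝ}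
  {D F A : EuclideanSpace ℝ (Fin n) → EuclideanSpace ℝ (Fin n)}
  {A' : EuclideanSpace ℝ (Fin n) → EuclideanSpace ℝ (Fin n) →L[ℝ] EuclideanSpace ℝ (Fin n)}
  {κ₁ κ₂ B C V₀ : ℝ} {a₀ : EuclideanSpace ℝ (Fin n)}

private lemma c1b_ac_comp {X Y : Type*} [PseudoMetricSpace X] [PseudoMetricSpace Y]
    {g : X → Y} {γ : ℝ → X} {M a b : ℝ} (hg : ∀ x y, dist (g x) (g y) ≤ M * dist x y)
    (h : AbsolutelyContinuousOnInterval γ a b) :
    AbsolutelyContinuousOnInterval (fun t => g (γ t)) a b := by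
  have h' := Filter.Tendsto.const_mul M h
  rw [mul_zero] at h'
  refine squeeze_zero (fun t => Finset.sum_nonneg fun i _ => dist_nonneg) (fun t => ?_) h'
  rw [Finset.mul_sum]
  exact Finset.sum_le_sum fun i _ => hg _ _

private lemma c1b_lip {f : EuclideanSpace ℝ (Fin n) → ℝ}
    {G : EuclideanSpace ℝ (Fin n) → EuclideanSpace ℝ (Fin n)}
    (hf : ∀ x, HasGradientAt f (G x) x) {M : ℝ} (hM : ∀ x, ‖G x‖ ≤ M)
    (x y : EuclideanSpace ℝ (Fin n)) : dist (f x) (f y) ≤ M * dist x y := by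
  have h := Convex.norm_image_sub_le_of_norm_hasFDerivWithin_le (𝕜 := ℝ) (s := Set.univ)
    (f := f) (f' := fun x => (InnerProductSpace.toDual ℝ _) (G x)) (C := M)
    (fun x _ => (hf x).hasFDerivAt.hasFDerivWithinAt)
    (fun x _ => by rw [LinearIsometryEquiv.norm_map]; exact hM x)
    convex_univ (Set.mem_univ y) (Set.mem_univ x)
  rw [dist_eq_norm, dist_eq_norm]
  exact h

private lemma c1b_round (v : EuclideanSpace ℝ (Fin n)) :
    ∃ k : Fin n → ℤ, ‖zv k - v‖ ^ 2 ≤ n := by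
  refine ⟨fun i => round (v i), ?_⟩
  rw [EuclideanSpace.norm_sq_eq]
  calc ∑ i, ‖(zv (fun i => round (v i)) - v) i‖ ^ 2 ≤ ∑ i : Fin n, (1 : ℝ) := by
        refine Finset.sum_le_sum fun i _ => ?_
        have h1 : (zv (fun i => round (v i)) - v) i = (round (v i) : ℝ) - v i := rfl
        rw [h1, Real.norm_eq_abs, sq_abs]
        have h2 := abs_sub_round (v i)
        rw [abs_le] at h2
        nlinarith [h2.1, h2.2]
    _ = n := by simp

/-- chain rule along an absolutely continuous curve -/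
private lemma c1b_deriv {f : EuclideanSpace ℝ (Fin n) → ℝ}
    {G : EuclideanSpace ℝ (Fin n) → EuclideanSpace ℝ (Fin n)}
    (hf : ∀ x, HasGradientAt f (G x) x) {γ : ℝ → EuclideanSpace ℝ (Fin n)} {t : ℝ}
    (h : DifferentiableAt ℝ γ t) : deriv (fun s => f (γ s)) t = ⟪G (γ t), deriv γ t⟫ := by
  have h1 := (hf (γ t)).hasFDerivAt.comp_hasDerivAt t h.hasDerivAt
  have h2 : deriv (fun s => f (γ s)) t =
      ((InnerProductSpace.toDual ℝ (EuclideanSpace ℝ (Fin n))) (G (γ t))) (deriv γ t) := h1.deriv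
  rw [h2, InnerProductSpace.toDual_apply_apply]

private lemma c1b_int {f : EuclideanSpace ℝ (Fin n) → ℝ}
    {G : EuclideanSpace ℝ (Fin n) → EuclideanSpace ℝ (Fin n)}
    (hf : ∀ x, HasGradientAt f (G x) x) {M : ℝ} (hM : ∀ x, ‖G x‖ ≤ M)
    (hfper : ∀ x (k : Fin n → ℤ), f (x + zv k) = f x)
    {γ : ℝ → EuclideanSpace ℝ (Fin n)} {b : ℝ}
    (h : AbsolutelyContinuousOnInterval γ 0 b) (hb : pr (γ 0) = pr (γ b)) :
    IntervalIntegrable (fun t => deriv (fun s => f (γ s)) t) volume 0 b ∧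
      ∫ t in (0 : ℝ)..b, deriv (fun s => f (γ s)) t = 0 := by
  have h1 : AbsolutelyContinuousOnInterval (fun t => f (γ t)) 0 b :=
    c1b_ac_comp (c1b_lip hf hM) h
  refine ⟨h1.intervalIntegrable_deriv, ?_⟩
  rw [h1.integral_deriv_eq_sub]
  obtain ⟨k, hk⟩ := (pr_eq_iff _ _).1 hb
  rw [hk, hfper, sub_self]

theorem peierls_int (hK : HK K D κ₁ κ₂) (hA : HA A A' B) (hV : HV V F B)
    (hf : ∀ x, HasGradientAt f (A x - a₀) x)
    (hfper : ∀ x (k : Fin n → ℤ), f (x + zv k) = f x) (hfb : ∀ x, |f x| ≤ C)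
    (hV₀ : ∀ x, V x = V₀) {c vc : EuclideanSpace ℝ (Fin n)} (hvc : D vc = c - a₀)
    (hα : alpha (fun x v _ => lag K A V x v) c = ⟪c - a₀, vc⟫ - K vc + V₀) (x : Tor n) :
    peierls (fun x v _ => lag K A V x v) c x x = 0 := by
  have hM : ∀ x, ‖A x - a₀‖ ≤ B + ‖a₀‖ := fun x =>
    (norm_sub_le _ _).trans (add_le_add (hA.bd x) le_rfl)
  -- the integrand
  have hdec : ∀ y v : EuclideanSpace ℝ (Fin n),
      lag K A V y v - ⟪c, v⟫ + alpha (fun x v _ => lag K A V x v) c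
        = (K v - K vc - ⟪D vc, v - vc⟫) + ⟪A y - a₀, v⟫ := by
    intro y v
    rw [hα, hvc, lag, hV₀, inner_sub_right, inner_sub_left, inner_sub_left, inner_sub_left]
    ring
  have hlo : ∀ v, 0 ≤ K v - K vc - ⟪D vc, v - vc⟫ := fun v => by
    have h1 := hK.lo vc v
    have h2 : 0 ≤ κ₁ / 2 * ‖v - vc‖ ^ 2 := mul_nonneg (by linarith [hK.pos]) (sq_nonneg _)
    linarith
  -- lower bound
  have hlower : ∀ (k : ℕ), ∀ a ∈ curveActions (fun x v _ => lag K A V x v) c k x x, 0 ≤ a := by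
    rintro k a ⟨γ, hγ, h0, h1, hint, rfl⟩
    obtain ⟨hi1, hi2⟩ := c1b_int hf hM hfper hγ (h0.trans h1.symm)
    refine le_of_eq_of_le hi2.symm ?_
    refine intervalIntegral.integral_mono_ae_restrict (Nat.cast_nonneg k) hi1 hint ?_
    have h3 := hγ.boundedVariationOn.ae_differentiableAt_of_mem_uIcc
    rw [Set.uIcc_of_le (Nat.cast_nonneg k)] at h3
    refine (ae_restrict_iff' measurableSet_Icc).2 ?_
    filter_upwards [h3] with t ht htm
    have h4 := c1b_deriv hf (ht htm)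
    have h5 := hdec (γ t) (deriv γ t)
    have h6 := hlo (deriv γ t)
    show deriv (fun s => f (γ s)) t ≤ lag K A V (γ t) (deriv γ t) - ⟪c, deriv γ t⟫ +
      alpha (fun x v _ => lag K A V x v) c
    rw [h4, h5]
    linarith
  -- upper bound
  have hupper : ∀ (k : ℕ), 1 ≤ k → ∃ a ∈ curveActions (fun x v _ => lag K A V x v) c k x x,
      a ≤ κ₂ / 2 * n / k := by
    intro k hk
    have hk0 : (0 : ℝ) < k := by exact_mod_cast hk
    obtain ⟨z, hz⟩ := c1b_round ((k : ℝ) • vc)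
    have hw : ‖(1 / (k : ℝ)) • zv z - vc‖ ^ 2 ≤ n / k ^ 2 := by
      have h1 : (1 / (k : ℝ)) • zv z - vc = (1 / (k : ℝ)) • (zv z - (k : ℝ) • vc) := by
        rw [smul_sub, smul_smul, one_div_mul_cancel hk0.ne', one_smul]
      rw [h1, norm_smul, mul_pow, Real.norm_eq_abs, sq_abs, one_div, inv_pow, div_eq_inv_mul]
      exact mul_le_mul_of_nonneg_left hz (by positivity)
    have hγd : ∀ t : ℝ, HasDerivAt (fun t : ℝ => repE x + t • ((1 / (k : ℝ)) • zv z))
        ((1 / (k : ℝ)) • zv z) t := fun t => by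
      have h1 := ((hasDerivAt_id t).smul_const ((1 / (k : ℝ)) • zv z)).const_add (repE x)
      rw [one_smul] at h1
      exact h1
    have hAC : AbsolutelyContinuousOnInterval
        (fun t : ℝ => repE x + t • ((1 / (k : ℝ)) • zv z)) 0 k := by
      refine ContDiffOn.absolutelyContinuousOnInterval (ContDiff.contDiffOn ?_)
      exact contDiff_const.add (contDiff_id.smul contDiff_const)
    have h0 : pr (repE x + (0 : ℝ) • ((1 / (k : ℝ)) • zv z)) = x := by
      rw [zero_smul, add_zero, pr_repE]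
    have h1 : pr (repE x + (k : ℝ) • ((1 / (k : ℝ)) • zv z)) = x := by
      rw [smul_smul, mul_one_div_cancel hk0.ne', one_smul]
      exact ((pr_eq_iff _ _).2 ⟨z, rfl⟩).trans (pr_repE x)
    obtain ⟨hi1, hi2⟩ := c1b_int hf hM hfper hAC (h0.trans h1.symm)
    have hd : ∀ t : ℝ, deriv (fun t : ℝ => repE x + t • ((1 / (k : ℝ)) • zv z)) t =
        (1 / (k : ℝ)) • zv z := fun t => (hγd t).deriv
    have heq : (fun t : ℝ => (fun x v _ => lag K A V x v)
          ((fun t : ℝ => repE x + t • ((1 / (k : ℝ)) • zv z)) t)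
          (deriv (fun t : ℝ => repE x + t • ((1 / (k : ℝ)) • zv z)) t) t
          - ⟪c, deriv (fun t : ℝ => repE x + t • ((1 / (k : ℝ)) • zv z)) t⟫
          + alpha (fun x v _ => lag K A V x v) c) =
        fun t : ℝ => (K ((1 / (k : ℝ)) • zv z) - K vc
          - ⟪D vc, (1 / (k : ℝ)) • zv z - vc⟫) +
          deriv (fun s : ℝ => f (repE x + s • ((1 / (k : ℝ)) • zv z))) t := by
      funext t
      have h4 := c1b_deriv (γ := fun t : ℝ => repE x + t • ((1 / (k : ℝ)) • zv z)) hf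
        (hγd t).differentiableAt
      have h5 := hdec (repE x + t • ((1 / (k : ℝ)) • zv z)) ((1 / (k : ℝ)) • zv z)
      rw [hd] at h4 ⊢
      show lag K A V (repE x + t • ((1 / (k : ℝ)) • zv z)) ((1 / (k : ℝ)) • zv z)
        - ⟪c, (1 / (k : ℝ)) • zv z⟫ + alpha (fun x v _ => lag K A V x v) c = _
      rw [h5]
      exact congrArg _ h4.symm
    refine ⟨_, ⟨fun t : ℝ => repE x + t • ((1 / (k : ℝ)) • zv z), hAC, h0, h1, ?_, rfl⟩, ?_⟩
    · rw [heq]
      exact intervalIntegrable_const.add hi1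
    · rw [heq, intervalIntegral.integral_add intervalIntegrable_const hi1, hi2, add_zero,
        intervalIntegral.integral_const, sub_zero, smul_eq_mul]
      have h6 := hK.hi vc ((1 / (k : ℝ)) • zv z)
      have h7 : κ₂ / 2 * ‖(1 / (k : ℝ)) • zv z - vc‖ ^ 2 ≤ κ₂ / 2 * (n / k ^ 2) :=
        mul_le_mul_of_nonneg_left hw (by linarith [hK.pos₂])
      calc (k : ℝ) * (K ((1 / (k : ℝ)) • zv z) - K vc - ⟪D vc, (1 / (k : ℝ)) • zv z - vc⟫)
          ≤ k * (κ₂ / 2 * (n / k ^ 2)) := mul_le_mul_of_nonneg_left (h6.trans h7) hk0.le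
        _ = κ₂ / 2 * n / k := by field_simp
  have hnonneg : ∀ k : ℕ, 0 ≤ sInf (curveActions (fun x v _ => lag K A V x v) c k x x) :=
    fun k => Real.sInf_nonneg (hlower k)
  have hle : ∀ k : ℕ, 1 ≤ k →
      sInf (curveActions (fun x v _ => lag K A V x v) c k x x) ≤ κ₂ / 2 * n / k := by
    intro k hk
    obtain ⟨a, ha, hle⟩ := hupper k hk
    exact (csInf_le ⟨0, fun b hb => hlower k b hb⟩ ha).trans hle
  have hlim : Filter.Tendsto
      (fun k : ℕ => sInf (curveActions (fun x v _ => lag K A V x v) c k x x))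
      Filter.atTop (nhds 0) := by
    refine squeeze_zero' (Filter.Eventually.of_forall hnonneg)
      (Filter.eventually_atTop.2 ⟨1, hle⟩) ?_
    exact tendsto_const_div_atTop_nhds_zero_nat _
  exact hlim.liminf_eq

end Pool.Agent.H33.AM

end

section

/-!
# Module Z1: final assembly

* `HK_of`, `HV_of`, `HA_of`: the structures from `C²` hypotheses (periodic continuous functions are
  bounded; a `C²` periodic function has a bounded second derivative, so its gradient is Lipschitz).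
-/

set_option autoImplicit false

open MeasureTheory
open scoped RealInnerProductSpace

namespace Pool.Agent.H33.AM

variable {n : ℕ}

private theorem z1a_bounded {Z : Type*} [NormedAddCommGroup Z] {g : E n → Z} (hg : Continuous g)
    (hper : ∀ x (k : Fin n → ℤ), g (x + zv k) = g x) : ∃ C : ℝ, ∀ x, ‖g x‖ ≤ C := by
  obtain ⟨C, hC⟩ := (isCompact_closedBall (0 : E n) (Real.sqrt n)).exists_bound_of_continuousOn
    hg.continuousOn
  refine ⟨C, fun x => ?_⟩
  set k : Fin n → ℤ := fun i => -⌊x i⌋ with hk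
  rw [← hper x k]
  apply hC
  rw [mem_closedBall_zero_iff, EuclideanSpace.norm_eq]
  apply Real.sqrt_le_sqrt
  calc ∑ i, ‖(x + zv k) i‖ ^ 2 ≤ ∑ _i : Fin n, (1 : ℝ) := by
        apply Finset.sum_le_sum
        intro i _
        have h1 : (x + zv k) i = x i - (⌊x i⌋ : ℝ) := by
          simp [zv, hk, sub_eq_add_neg]
        rw [h1, Real.norm_eq_abs, sq_abs]
        have h2 := Int.floor_le (x i)
        have h3 := Int.lt_floor_add_one (x i)
        nlinarith
    _ = n := by simp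

private theorem z1a_fderiv_per {Z : Type*} [NormedAddCommGroup Z] [NormedSpace ℝ Z] {g : E n → Z}
    (hper : ∀ x (k : Fin n → ℤ), g (x + zv k) = g x) (x : E n) (k : Fin n → ℤ) :
    fderiv ℝ g (x + zv k) = fderiv ℝ g x := by
  have h1 : (fun y => g (y + zv k)) = g := funext fun y => hper y k
  have h2 := fderiv_comp_add_right (𝕜 := ℝ) (f := g) (x := x) (zv k)
  rw [h1] at h2
  exact h2.symm

private theorem z1a_main {Z : Type*} [NormedAddCommGroup Z] [NormedSpace ℝ Z] {g : E n → Z}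
    (hg : ContDiff ℝ 2 g) (hper : ∀ x (k : Fin n → ℤ), g (x + zv k) = g x) :
    ∃ B₀ : ℝ, 0 ≤ B₀ ∧ (∀ x, ‖g x‖ ≤ B₀) ∧ (∀ x, ‖fderiv ℝ g x‖ ≤ B₀) ∧
      ∀ x y, ‖fderiv ℝ g x - fderiv ℝ g y‖ ≤ B₀ * ‖x - y‖ := by
  have hg1 : ContDiff ℝ 1 (fderiv ℝ g) := hg.fderiv_right (by norm_num)
  obtain ⟨C₁, h₁⟩ := z1a_bounded hg.continuous hper
  obtain ⟨C₂, h₂⟩ := z1a_bounded hg1.continuous (z1a_fderiv_per hper)
  obtain ⟨C₃, h₃⟩ := z1a_bounded (hg1.continuous_fderiv (by norm_num))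
    (z1a_fderiv_per (z1a_fderiv_per hper))
  have l1 : C₁ ≤ max (max C₁ C₂) C₃ := le_trans (le_max_left _ _) (le_max_left _ _)
  have l2 : C₂ ≤ max (max C₁ C₂) C₃ := le_trans (le_max_right _ _) (le_max_left _ _)
  have l3 : C₃ ≤ max (max C₁ C₂) C₃ := le_max_right _ _
  refine ⟨max (max C₁ C₂) C₃, le_trans (norm_nonneg _) (le_trans (h₁ 0) l1),
    fun x => le_trans (h₁ x) l1, fun x => le_trans (h₂ x) l2, fun x y => ?_⟩
  have := (convex_univ (𝕜 := ℝ) (E := E n)).norm_image_sub_le_of_norm_fderiv_le (𝕜 := ℝ)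
    (f := fderiv ℝ g) (C := max (max C₁ C₂) C₃) (x := y) (y := x)
    (fun z _ => (hg1.differentiable (by norm_num)) z)
    (fun z _ => le_trans (h₃ z) l3) (Set.mem_univ _) (Set.mem_univ _)
  exact this

private theorem z1a_pr (x : E n) (k : Fin n → ℤ) : pr (x + zv k) = pr x :=
  (pr_eq_iff _ _).2 ⟨k, rfl⟩

theorem HV_of {V : E n → ℝ} (hV : ContDiff ℝ 2 V) (hper : ∀ x y, pr x = pr y → V x = V y) :
    ∃ B₀ : ℝ, ∀ B ≥ B₀, HV V (gradient V) B := by
  obtain ⟨B₀, h0, h1, h2, h3⟩ := z1a_main hV fun x k => hper _ _ (z1a_pr x k)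
  refine ⟨B₀, fun B hB => ?_⟩
  have hper' : ∀ x (k : Fin n → ℤ), V (x + zv k) = V x := fun x k => hper _ _ (z1a_pr x k)
  refine ⟨le_trans h0 hB, fun x => ?_, hper', fun x => ?_, fun x => ?_, fun x y => ?_⟩
  · exact (hV.differentiable (by norm_num) x).hasGradientAt
  · have := h1 x
    rw [Real.norm_eq_abs] at this
    exact le_trans this hB
  · have : ‖gradient V x‖ = ‖fderiv ℝ V x‖ := by
      unfold gradient
      exact LinearIsometryEquiv.norm_map _ _
    rw [this]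
    exact le_trans (h2 x) hB
  · have : ‖gradient V x - gradient V y‖ = ‖fderiv ℝ V x - fderiv ℝ V y‖ := by
      unfold gradient
      rw [← map_sub]
      exact LinearIsometryEquiv.norm_map _ _
    rw [this]
    exact le_trans (h3 x y) (mul_le_mul_of_nonneg_right hB (norm_nonneg _))

theorem HA_of {A : E n → E n} (hA : ContDiff ℝ 2 A) (hper : ∀ x y, pr x = pr y → A x = A y) :
    ∃ B₀ : ℝ, ∀ B ≥ B₀, HA A (fderiv ℝ A) B := by
  obtain ⟨B₀, h0, h1, h2, h3⟩ := z1a_main hA fun x k => hper _ _ (z1a_pr x k)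
  refine ⟨B₀, fun B hB => ?_⟩
  exact ⟨le_trans h0 hB, fun x => (hA.differentiable (by norm_num) x).hasFDerivAt,
    fun x k => hper _ _ (z1a_pr x k), fun x => le_trans (h1 x) hB, fun x => le_trans (h2 x) hB,
    fun x y => le_trans (h3 x y) (mul_le_mul_of_nonneg_right hB (norm_nonneg _))⟩

end Pool.Agent.H33.AM

end

section

/-!
# Module X3: from discrete to continuous

`Y = field A A' F D'`, `W = ℝⁿ × ℝⁿ`, `τ = T / N`, `v_i = (1/τ) (x_{i+1} - x_i)`,
`z_i = (x_i, D v_i + A x_i)`, so that `v_i = D' (z_i.2 - A z_i.1)`, `x_{i+1} = x_i + τ (Y z_i).1`.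
* `field_loc`, `field_growth`: `κ₁ ‖D' p - D' q‖ ≤ ‖p - q‖`, `A`, `A'`, `F` bounded and Lipschitz
  (`A` is Lipschitz with the constant `B` because `‖A'‖ ≤ B`); only `adjoint (A' x) v` needs the
  restriction to balls.
* `disc_euler`: `‖x_i‖ ≤ √n + T R` for `0 ≤ i ≤ N`; `z_{i+1}.2 - z_i.2 = τ (adjoint (A' x_{i+1}) v_{i+1} -
  F x_{i+1})` by `disc_EL`, and `‖v_{i+1} - v_i‖ ≤ (1/κ₁) (‖z_{i+1}.2 - z_i.2‖ + B ‖x_{i+1} - x_i‖) = O(τ)`.
* `disc_of_curve`: `y i = x(i τ)` for `0 ≤ i < N`, extended quasi-periodically. Jensen: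
  `τ K((1/τ) ∫ u) ≤ ∫ K(u)` on every `[i τ, (i + 1) τ]` (`ConvexOn.map_average_le` or: `K(u) ≥ K(c) +
  ⟪D c, u - c⟫` with `c` the average, integrate); `‖x(t) - x(i τ)‖ ≤ R τ`, so the terms with `A` and `V`
  change by `O(τ)`.
* `Sol_of_flow`, `flow_of_Sol`: `v = D' (p - A(γ))`.
-/

set_option autoImplicit false

open MeasureTheory
open scoped RealInnerProductSpace

namespace Pool.Agent.H33.AM

variable {n : ℕ} {K V : EuclideanSpace ℝ (Fin n) → ℝ}
  {D F A D' : EuclideanSpace ℝ (Fin n) → EuclideanSpace ℝ (Fin n)}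
  {A' : EuclideanSpace ℝ (Fin n) → EuclideanSpace ℝ (Fin n) →L[ℝ] EuclideanSpace ℝ (Fin n)}
  {κ₁ κ₂ B T : ℝ}

private lemma c_V (hV : HV V F B) : Continuous V :=
  continuous_iff_continuousAt.mpr fun v => (hV.der v).continuousAt

private lemma c_A (hA : HA A A' B) : Continuous A :=
  continuous_iff_continuousAt.mpr fun v => (hA.der v).continuousAt

private lemma c_K (hK : HK K D κ₁ κ₂) : Continuous K :=
  continuous_iff_continuousAt.mpr fun v => (hK.grad v).continuousAt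

private lemma lip_V (hV : HV V F B) (x y : EuclideanSpace ℝ (Fin n)) :
    |V y - V x| ≤ B * ‖y - x‖ := by
  have := (convex_univ (E := EuclideanSpace ℝ (Fin n))).norm_image_sub_le_of_norm_hasFDerivWithin_le
    (f := V) (C := B) (fun z _ => (hV.der z).hasFDerivAt.hasFDerivWithinAt)
    (fun z _ => by rw [LinearIsometryEquiv.norm_map]; exact hV.bdF z)
    (Set.mem_univ x) (Set.mem_univ y)
  rwa [Real.norm_eq_abs] at this

private lemma lip_A (hA : HA A A' B) (x y : EuclideanSpace ℝ (Fin n)) :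
    ‖A y - A x‖ ≤ B * ‖y - x‖ :=
  (convex_univ (E := EuclideanSpace ℝ (Fin n))).norm_image_sub_le_of_norm_hasFDerivWithin_le
    (f := A) (C := B) (fun z _ => (hA.der z).hasFDerivWithinAt)
    (fun z _ => hA.bdA z) (Set.mem_univ x) (Set.mem_univ y)

private lemma c_lag (hK : HK K D κ₁ κ₂) (hA : HA A A' B) (hV : HV V F B) :
    Continuous fun p : EuclideanSpace ℝ (Fin n) × EuclideanSpace ℝ (Fin n) =>
      lag K A V p.1 p.2 := by
  unfold lag
  exact (((c_K hK).comp continuous_snd).add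
    (((c_A hA).comp continuous_fst).inner continuous_snd)).sub ((c_V hV).comp continuous_fst)

private lemma Adm.dist_le {a b R : ℝ} {x u : ℝ → EuclideanSpace ℝ (Fin n)} (h : Adm a b x u)
    (hR : ∀ t, ‖u t‖ ≤ R) : ‖x b - x a‖ ≤ R * (b - a) := by
  have hab := h.le
  have hR0 : 0 ≤ R := (norm_nonneg _).trans (hR 0)
  have h1 := h.integral_inner (x b - x a)
  rw [← inner_sub_right, real_inner_self_eq_norm_sq] at h1
  have h2 := intervalIntegral.norm_integral_le_of_norm_le_const (a := a) (b := b)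
    (f := fun t => ⟪x b - x a, u t⟫) (C := ‖x b - x a‖ * R) (fun t _ => by
      rw [Real.norm_eq_abs]
      exact (abs_real_inner_le_norm _ _).trans
        (mul_le_mul_of_nonneg_left (hR t) (norm_nonneg _)))
  rw [h1, Real.norm_eq_abs, abs_of_nonneg (by positivity), abs_of_nonneg (by linarith)] at h2
  rcases (norm_nonneg (x b - x a)).eq_or_lt with h0 | h0
  · rw [← h0]
    exact mul_nonneg hR0 (by linarith)
  · nlinarith

private lemma one_step (hK : HK K D κ₁ κ₂) (hA : HA A A' B) (hV : HV V F B) {a b R : ℝ}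
    {x u : ℝ → EuclideanSpace ℝ (Fin n)} (h : Adm a b x u) (hab : a < b) (hR : ∀ t, ‖u t‖ ≤ R) :
    (b - a) * lag K A V (x a) ((1 / (b - a)) • (x b - x a)) ≤
      (∫ t in a..b, lag K A V (x t) (u t)) + B * (R ^ 2 + R) * (b - a) ^ 2 := by
  have hR0 : 0 ≤ R := (norm_nonneg _).trans (hR 0)
  have hB := hV.nonneg
  have hτ : 0 < b - a := by linarith
  set c := (1 / (b - a)) • (x b - x a) with hc
  set w := D c + A (x a) with hw
  set e := K c - ⟪D c, c⟫ - V (x a) - B * (R ^ 2 + R) * (b - a) with he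
  have i1 : IntervalIntegrable (fun t => ⟪w, u t⟫) volume a b :=
    h.integrable (g := fun p => ⟪w, p.2⟫) (continuous_const.inner continuous_snd)
  have i2 : IntervalIntegrable (fun t => lag K A V (x t) (u t)) volume a b :=
    h.integrable (g := fun p => lag K A V p.1 p.2) (c_lag hK hA hV)
  have i3 : IntervalIntegrable (fun t => e + ⟪w, u t⟫) volume a b :=
    (continuous_const.intervalIntegrable _ _).add i1
  have h1 : ∫ t in a..b, (e + ⟪w, u t⟫) ≤ ∫ t in a..b, lag K A V (x t) (u t) := by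
    apply intervalIntegral.integral_mono_on hab.le i3 i2
    intro t ht
    have hx : ‖x t - x a‖ ≤ R * (b - a) :=
      ((h.sub le_rfl ht.1 ht.2).dist_le hR).trans
        (mul_le_mul_of_nonneg_left (by linarith [ht.2]) hR0)
    have k1 := hK.lo c (u t)
    have k2 : 0 ≤ κ₁ / 2 * ‖u t - c‖ ^ 2 := by
      have := hK.pos
      positivity
    have k3 := (abs_le.mp (lip_V hV (x a) (x t))).2
    have k4 := mul_le_mul_of_nonneg_left hx hB
    have k5 : |⟪A (x t) - A (x a), u t⟫| ≤ (B * (R * (b - a))) * R :=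
      (abs_real_inner_le_norm _ _).trans (mul_le_mul ((lip_A hA (x a) (x t)).trans k4) (hR t)
        (norm_nonneg _) (by positivity))
    have k6 := (abs_le.mp k5).1
    rw [inner_sub_left] at k6
    rw [inner_sub_right] at k1
    unfold lag
    rw [he, hw, inner_add_left]
    nlinarith
  have h2 : ∫ t in a..b, (e + ⟪w, u t⟫) = (b - a) * e + ⟪w, x b - x a⟫ := by
    rw [intervalIntegral.integral_add (continuous_const.intervalIntegrable _ _) i1,
      intervalIntegral.integral_const, smul_eq_mul, h.integral_inner, inner_sub_right]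
  have h3 : x b - x a = (b - a) • c := by
    rw [hc, smul_smul, mul_one_div_cancel hτ.ne', one_smul]
  have h4 : ⟪w, x b - x a⟫ = (b - a) * ⟪D c, c⟫ + (b - a) * ⟪A (x a), c⟫ := by
    rw [h3, inner_smul_right, hw, inner_add_left]
    ring
  rw [h2, h4] at h1
  unfold lag
  rw [he] at h1
  unfold lag at h1
  nlinarith

theorem disc_of_curve (hK : HK K D κ₁ κ₂) (hA : HA A A' B) (hV : HV V F B) (hT : 0 < T)
    {x u : ℝ → EuclideanSpace ℝ (Fin n)} (h : Adm 0 T x u) {k : Fin n → ℤ}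
    (hx : x T = x 0 + zv k) {ε : ℝ} (hε : 0 < ε) :
    ∃ N₀ : ℕ, ∀ N ≥ N₀, ∃ y : ℤ → EuclideanSpace ℝ (Fin n), (∀ i, y (i + N) = y i + zv k) ∧
      Sd K A V (T / N) N y ≤ (∫ t in (0 : ℝ)..T, lag K A V (x t) (u t)) + ε := by
  obtain ⟨R, hR⟩ := h.bd
  have hR0 : 0 ≤ R := (norm_nonneg _).trans (hR 0)
  have hB := hV.nonneg
  obtain ⟨M, hM⟩ := exists_nat_ge (B * (R ^ 2 + R) * T ^ 2 / ε)
  refine ⟨M + 1, fun N hN => ?_⟩
  have hN0 : 0 < N := by omega
  have hN' : (0 : ℝ) < N := by exact_mod_cast hN0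
  have hNz : (0 : ℤ) < N := by exact_mod_cast hN0
  have hNM : (M : ℝ) ≤ N := by
    have : M ≤ N := by omega
    exact_mod_cast this
  set τ := T / N with hτd
  have hτ : 0 < τ := by positivity
  have hNτ : N * τ = T := by rw [hτd]; field_simp
  set y : ℤ → EuclideanSpace ℝ (Fin n) := fun i =>
    x (((i % (N : ℤ) : ℤ) : ℝ) * τ) + ((i / (N : ℤ) : ℤ) : ℝ) • zv k with hy
  have hyi : ∀ i : ℕ, i ≤ N → y i = x (i * τ) := by
    intro i hi
    simp only [hy]
    rcases hi.eq_or_lt with h1 | h1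
    · subst h1
      rw [Int.emod_self, Int.ediv_self hNz.ne', hNτ, hx]
      simp
    · have h2 : ((i : ℤ) % (N : ℤ)) = i := Int.emod_eq_of_lt (by positivity) (by exact_mod_cast h1)
      have h3 : ((i : ℤ) / (N : ℤ)) = 0 := Int.ediv_eq_zero_of_lt (by positivity)
        (by exact_mod_cast h1)
      rw [h2, h3]
      simp
  refine ⟨y, ?_, ?_⟩
  · intro i
    simp only [hy]
    rw [Int.add_emod_right, Int.add_ediv_of_dvd_right (dvd_refl _), Int.ediv_self hNz.ne']
    push_cast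
    rw [add_smul, one_smul, add_assoc]
  · set a : ℕ → ℝ := fun i => i * τ with ha
    have hstep : ∀ i ∈ Finset.range N,
        τ * lag K A V (y i) ((1 / τ) • (y (i + 1) - y i)) ≤
          (∫ t in a i..a (i + 1), lag K A V (x t) (u t)) + B * (R ^ 2 + R) * τ ^ 2 := by
      intro i hi
      rw [Finset.mem_range] at hi
      have hi' : (i : ℝ) + 1 ≤ N := by exact_mod_cast hi
      have e1 : a (i + 1) - a i = τ := by
        simp only [ha]
        push_cast
        ring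
      have hai : 0 ≤ a i := by simp only [ha]; positivity
      have haT : a (i + 1) ≤ T := by
        rw [← hNτ]
        simp only [ha]
        push_cast
        exact mul_le_mul_of_nonneg_right hi' hτ.le
      have e2 := one_step hK hA hV (h.sub hai (by linarith) haT) (by linarith) hR
      rw [e1] at e2
      have e3 : y i = x (a i) := hyi i hi.le
      have e4 : y ((i : ℤ) + 1) = x (a (i + 1)) := by
        have := hyi (i + 1) hi
        push_cast at this
        rw [this]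
        simp only [ha]
        push_cast
        rfl
      rw [e3, e4]
      exact e2
    have hint : ∀ i < N, IntervalIntegrable (fun t => lag K A V (x t) (u t)) volume (a i)
        (a (i + 1)) := by
      intro i hi
      have hi' : (i : ℝ) + 1 ≤ N := by exact_mod_cast hi
      have hai : 0 ≤ a i := by simp only [ha]; positivity
      have haT : a (i + 1) ≤ T := by
        rw [← hNτ]
        simp only [ha]
        push_cast
        exact mul_le_mul_of_nonneg_right hi' hτ.le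
      have e0 : a i ≤ a (i + 1) := by
        simp only [ha]
        push_cast
        nlinarith
      exact (h.sub hai e0 haT).integrable (g := fun p => lag K A V p.1 p.2) (c_lag hK hA hV)
    have hsum : ∑ i ∈ Finset.range N, ∫ t in a i..a (i + 1), lag K A V (x t) (u t) =
        ∫ t in (0 : ℝ)..T, lag K A V (x t) (u t) := by
      rw [intervalIntegral.sum_integral_adjacent_intervals (fun i hi => hint i hi)]
      simp only [ha, Nat.cast_zero, zero_mul]
      rw [hNτ]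
    unfold Sd
    refine (Finset.sum_le_sum hstep).trans ?_
    rw [Finset.sum_add_distrib, hsum, Finset.sum_const, Finset.card_range, nsmul_eq_mul]
    have h5 : (N : ℝ) * (B * (R ^ 2 + R) * τ ^ 2) = B * (R ^ 2 + R) * T ^ 2 / N := by
      rw [hτd]
      field_simp
    have h6 : B * (R ^ 2 + R) * T ^ 2 / N ≤ ε := by
      rw [div_le_iff₀ hN']
      rw [div_le_iff₀ hε] at hM
      nlinarith
    rw [h5]
    linarith

end Pool.Agent.H33.AM

end

section

/-!
# Module X2: discrete minimisers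

`τ = T / N`, `v_i = (1/τ) (x_{i+1} - x_i)`, `S = Sd K A V τ N`.
* `disc_exists`: a quasi-periodic sequence is determined by `(x_0, …, x_{N-1}) ∈ (ℝⁿ)^N`; `S` is
  continuous in these variables, invariant under the translations by `zv k'`, so one may restrict to
  `x_0 ∈ [0, 1]ⁿ`, and coercive there: `K v ≥ K 0 + ⟪D 0, v⟫ + κ₁/2 ‖v‖²`, `|A|, |V| ≤ B`.
-/

set_option autoImplicit false

open MeasureTheory
open scoped RealInnerProductSpace

namespace Pool.Agent.H33.AM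

variable {n : ℕ} {K V : EuclideanSpace ℝ (Fin n) → ℝ}
  {D F A : EuclideanSpace ℝ (Fin n) → EuclideanSpace ℝ (Fin n)}
  {A' : EuclideanSpace ℝ (Fin n) → EuclideanSpace ℝ (Fin n) →L[ℝ] EuclideanSpace ℝ (Fin n)}
  {κ₁ κ₂ B T : ℝ} {N : ℕ} {k : Fin n → ℤ}

/-- The quasi-periodic extension. -/
private noncomputable def X2a_ext (N : ℕ) (k : Fin n → ℤ) (y : ℕ → EuclideanSpace ℝ (Fin n))
    (i : ℤ) : EuclideanSpace ℝ (Fin n) :=
  y (i % (N : ℤ)).toNat + zv ((i / (N : ℤ)) • k)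

private theorem X2a_ext_per (hN : 0 < N) (k : Fin n → ℤ) (y : ℕ → EuclideanSpace ℝ (Fin n))
    (i : ℤ) : X2a_ext N k y (i + N) = X2a_ext N k y i + zv k := by
  have hN' : (N : ℤ) ≠ 0 := by exact_mod_cast hN.ne'
  have h1 : (i + (N : ℤ)) % (N : ℤ) = i % (N : ℤ) := by simp
  have h2 : (i + (N : ℤ)) / (N : ℤ) = i / (N : ℤ) + 1 := by
    have := Int.add_mul_ediv_right i 1 hN'
    rwa [one_mul] at this
  unfold X2a_ext
  rw [h1, h2, add_smul, one_smul, zv_add, add_assoc]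

private theorem X2a_per_mul {x : ℤ → EuclideanSpace ℝ (Fin n)}
    (hx : ∀ i, x (i + N) = x i + zv k) (m : ℤ) : ∀ i, x (i + m * N) = x i + zv (m • k) := by
  induction m using Int.induction_on with
  | zero => intro i; simp [zv_zero]
  | succ m ih =>
    intro i
    have h1 : i + ((m : ℤ) + 1) * (N : ℤ) = (i + (m : ℤ) * N) + N := by ring
    rw [h1, hx, ih, add_smul, one_smul, zv_add, add_assoc]
  | pred m ih =>
    intro i
    have h1 : i + (-(m : ℤ)) * (N : ℤ) = (i + (-(m : ℤ) - 1) * N) + N := by ring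
    have h2 := ih i
    rw [h1, hx] at h2
    have h3 : zv ((-(m : ℤ)) • k) = zv ((-(m : ℤ) - 1) • k) + zv k := by
      have h4 : (-(m : ℤ)) • k = (-(m : ℤ) - 1) • k + k := by
        rw [sub_smul, one_smul, sub_add_cancel]
      rw [← zv_add, ← h4]
    rw [h3, ← add_assoc] at h2
    exact add_right_cancel h2

private theorem X2a_eq_ext (hN : 0 < N) {x : ℤ → EuclideanSpace ℝ (Fin n)}
    (hx : ∀ i, x (i + N) = x i + zv k) {y : ℕ → EuclideanSpace ℝ (Fin n)}
    (hy : ∀ j : ℕ, j < N → y j = x j) (i : ℤ) : x i = X2a_ext N k y i := by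
  have hN' : (N : ℤ) ≠ 0 := by exact_mod_cast hN.ne'
  have h0 : 0 ≤ i % (N : ℤ) := Int.emod_nonneg _ hN'
  have h1 : i % (N : ℤ) < N := Int.emod_lt_of_pos _ (by exact_mod_cast hN)
  unfold X2a_ext
  rw [hy _ (by omega)]
  have h2 : ((i % (N : ℤ)).toNat : ℤ) = i % (N : ℤ) := Int.toNat_of_nonneg h0
  rw [h2, ← X2a_per_mul hx]
  congr 1
  have := Int.emod_add_mul_ediv i (N : ℤ)
  linarith [mul_comm (N : ℤ) (i / (N : ℤ))]

private theorem X2a_lag_cont (hK : HK K D κ₁ κ₂) (hA : HA A A' B) (hV : HV V F B) :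
    Continuous fun p : EuclideanSpace ℝ (Fin n) × EuclideanSpace ℝ (Fin n) =>
      lag K A V p.1 p.2 := by
  have cK : Continuous K :=
    continuous_iff_continuousAt.2 fun v => (hK.grad v).hasFDerivAt.continuousAt
  have cA : Continuous A := continuous_iff_continuousAt.2 fun v => (hA.der v).continuousAt
  have cV : Continuous V :=
    continuous_iff_continuousAt.2 fun v => (hV.der v).hasFDerivAt.continuousAt
  unfold lag
  exact ((cK.comp continuous_snd).add
    ((cA.comp continuous_fst).inner continuous_snd)).sub (cV.comp continuous_fst)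

private theorem X2a_lag_lo (hK : HK K D κ₁ κ₂) (hA : HA A A' B) (hV : HV V F B) :
    ∃ C : ℝ, 0 ≤ C ∧ ∀ x v : EuclideanSpace ℝ (Fin n),
      κ₁ / 4 * ‖v‖ ^ 2 - C ≤ lag K A V x v := by
  refine ⟨|K 0| + B + (‖D 0‖ + B) ^ 2 / κ₁, ?_, ?_⟩
  · have := hV.nonneg
    have := hK.pos
    positivity
  · intro x v
    have h1 := hK.lo 0 v
    rw [sub_zero] at h1
    have h2 : -(‖D 0‖ * ‖v‖) ≤ ⟪D 0, v⟫ := (abs_le.1 (abs_real_inner_le_norm (D 0) v)).1
    have h3 : -(‖A x‖ * ‖v‖) ≤ ⟪A x, v⟫ := (abs_le.1 (abs_real_inner_le_norm (A x) v)).1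
    have h4 : ‖A x‖ * ‖v‖ ≤ B * ‖v‖ := mul_le_mul_of_nonneg_right (hA.bd x) (norm_nonneg v)
    have h5 := (abs_le.1 (hV.bd x)).2
    have h6 := neg_abs_le (K 0)
    have h7 : (‖D 0‖ + B) * ‖v‖ ≤ κ₁ / 4 * ‖v‖ ^ 2 + (‖D 0‖ + B) ^ 2 / κ₁ := by
      have hp := hK.pos
      have h8 : 0 ≤ (κ₁ / 2 * ‖v‖ - (‖D 0‖ + B)) ^ 2 / κ₁ := by positivity
      have h9 : (κ₁ / 2 * ‖v‖ - (‖D 0‖ + B)) ^ 2 / κ₁
          = κ₁ / 4 * ‖v‖ ^ 2 - (‖D 0‖ + B) * ‖v‖ + (‖D 0‖ + B) ^ 2 / κ₁ := by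
        field_simp
        ring
      linarith
    unfold lag
    nlinarith

private theorem X2a_Sd_lo {C : ℝ}
    (h : ∀ x v : EuclideanSpace ℝ (Fin n), κ₁ / 4 * ‖v‖ ^ 2 - C ≤ lag K A V x v)
    (hκ : 0 < κ₁) {τ : ℝ} (hτ : 0 < τ) (x : ℤ → EuclideanSpace ℝ (Fin n)) {i : ℕ} (hi : i < N) :
    κ₁ / 4 * τ * ‖(1 / τ) • (x (i + 1) - x i)‖ ^ 2 - N * (τ * C) ≤ Sd K A V τ N x := by
  have h1 : ∑ j ∈ Finset.range N,
      (κ₁ / 4 * τ * ‖(1 / τ) • (x (j + 1) - x j)‖ ^ 2 - τ * C) ≤ Sd K A V τ N x := by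
    unfold Sd
    refine Finset.sum_le_sum fun j _ => ?_
    have := mul_le_mul_of_nonneg_left (h (x j) ((1 / τ) • (x (j + 1) - x j))) hτ.le
    linarith
  rw [Finset.sum_sub_distrib, Finset.sum_const, Finset.card_range, nsmul_eq_mul] at h1
  have h2 : κ₁ / 4 * τ * ‖(1 / τ) • (x (i + 1) - x i)‖ ^ 2 ≤
      ∑ j ∈ Finset.range N, κ₁ / 4 * τ * ‖(1 / τ) • (x (j + 1) - x j)‖ ^ 2 :=
    Finset.single_le_sum (f := fun j : ℕ => κ₁ / 4 * τ * ‖(1 / τ) • (x ((j : ℤ) + 1) - x j)‖ ^ 2)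
      (fun j _ => by positivity) (Finset.mem_range.2 hi)
  linarith

private theorem X2a_lag_per (hA : HA A A' B) (hV : HV V F B) (x v : EuclideanSpace ℝ (Fin n))
    (l : Fin n → ℤ) : lag K A V (x + zv l) v = lag K A V x v := by
  unfold lag
  rw [hA.per, hV.per]

/-- The extension of a vector to a sequence. -/
private noncomputable def X2a_seq (N : ℕ) (y : Fin N → EuclideanSpace ℝ (Fin n)) (j : ℕ) :
    EuclideanSpace ℝ (Fin n) :=
  if h : j < N then y ⟨j, h⟩ else 0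

private theorem X2a_seq_cont (N : ℕ) (j : ℕ) :
    Continuous fun y : Fin N → EuclideanSpace ℝ (Fin n) => X2a_seq N y j := by
  unfold X2a_seq
  by_cases h : j < N
  · simp only [h, dif_pos]
    exact continuous_apply _
  · simp only [h, dif_neg, not_false_eq_true]
    exact continuous_const

theorem disc_exists (hK : HK K D κ₁ κ₂) (hA : HA A A' B) (hV : HV V F B) (hT : 0 < T)
    (hN : 0 < N) (k : Fin n → ℤ) :
    ∃ x : ℤ → EuclideanSpace ℝ (Fin n), IsDM K A V T N k x ∧ ∀ j, x 0 j ∈ Set.Icc (0 : ℝ) 1 := by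
  have hN' : (0 : ℝ) < N := by exact_mod_cast hN
  set τ : ℝ := T / N with hτdef
  have hτ : 0 < τ := div_pos hT hN'
  obtain ⟨C, hC0, hC⟩ := X2a_lag_lo hK hA hV
  have hκ := hK.pos
  set e : (Fin N → EuclideanSpace ℝ (Fin n)) → ℤ → EuclideanSpace ℝ (Fin n) :=
    fun y => X2a_ext N k (X2a_seq N y) with he
  have hex : ∀ y i, e y (i + N) = e y i + zv k := fun y i => X2a_ext_per hN k _ i
  have he0 : ∀ y, e y 0 = y ⟨0, hN⟩ := by
    intro y
    simp [he, X2a_ext, X2a_seq, hN, zv_zero]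
  have hei : ∀ (y : Fin N → EuclideanSpace ℝ (Fin n)) (i : Fin N), e y ((i : ℕ) : ℤ) = y i := by
    intro y i
    have hi := i.2
    have h1 : (((i : ℕ) : ℤ) % (N : ℤ)) = ((i : ℕ) : ℤ) :=
      Int.emod_eq_of_lt (by positivity) (by exact_mod_cast hi)
    have h2 : (((i : ℕ) : ℤ) / (N : ℤ)) = 0 :=
      Int.ediv_eq_zero_of_lt (by positivity) (by exact_mod_cast hi)
    simp only [he, X2a_ext]
    rw [h1, h2]
    simp [X2a_seq, zv_zero]
  have hec : ∀ i, Continuous fun y => e y i := by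
    intro i
    exact (X2a_seq_cont N _).add continuous_const
  set f : (Fin N → EuclideanSpace ℝ (Fin n)) → ℝ := fun y => Sd K A V τ N (e y) with hf
  have hfc : Continuous f := by
    simp only [hf, Sd]
    refine continuous_finsetSum _ fun i _ => continuous_const.mul ?_
    exact (X2a_lag_cont hK hA hV).comp
      ((hec i).prodMk (((hec (i + 1)).sub (hec i)).const_smul (1 / τ)))
  set M : ℝ := f 0 with hM
  set Ks : Set (Fin N → EuclideanSpace ℝ (Fin n)) :=
    {y | (∀ j, y ⟨0, hN⟩ j ∈ Set.Icc (0 : ℝ) 1) ∧ f y ≤ M} with hKs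
  have hclosed : IsClosed Ks := by
    have h1 : IsClosed {y : Fin N → EuclideanSpace ℝ (Fin n) |
        ∀ j, y ⟨0, hN⟩ j ∈ Set.Icc (0 : ℝ) 1} := by
      rw [Set.ofPred_forall]
      refine isClosed_iInter fun j => ?_
      refine isClosed_Icc.preimage (f := fun y : Fin N → EuclideanSpace ℝ (Fin n) =>
        y ⟨0, hN⟩ j) ?_
      fun_prop
    exact h1.inter (isClosed_le hfc continuous_const)
  -- boundedness
  set R : ℝ := Real.sqrt ((M + N * (τ * C)) / (κ₁ / 4 * τ)) with hR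
  have hbd : Ks ⊆ Metric.closedBall 0 (Real.sqrt n + N * (τ * R)) := by
    intro y hy
    have hy1 := hy.1
    have hy2 := hy.2
    have hR0 : 0 ≤ R := Real.sqrt_nonneg _
    have h0 : ‖y ⟨0, hN⟩‖ ≤ Real.sqrt n := by
      rw [EuclideanSpace.norm_eq]
      refine Real.sqrt_le_sqrt ?_
      calc ∑ j, ‖y ⟨0, hN⟩ j‖ ^ 2 ≤ ∑ j : Fin n, (1 : ℝ) := by
            refine Finset.sum_le_sum fun j _ => ?_
            have := hy1 j
            rw [Real.norm_eq_abs, sq_abs]
            nlinarith [this.1, this.2]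
        _ = n := by simp
    have hstep : ∀ i : ℕ, i < N → ‖e y (i + 1) - e y i‖ ≤ τ * R := by
      intro i hi
      have h1 := X2a_Sd_lo (N := N) hC hκ hτ (e y) hi
      have h2 : ‖(1 / τ) • (e y (i + 1) - e y i)‖ ≤ R := by
        refine Real.le_sqrt_of_sq_le ?_
        rw [le_div_iff₀ (by positivity)]
        have : Sd K A V τ N (e y) ≤ M := hy2
        linarith
      rw [norm_smul, Real.norm_of_nonneg (by positivity), one_div, inv_mul_le_iff₀ hτ] at h2
      exact h2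
    have hall : ∀ i : ℕ, i < N → ‖e y i‖ ≤ Real.sqrt n + i * (τ * R) := by
      intro i
      induction i with
      | zero =>
        intro _
        simp only [Nat.cast_zero, zero_mul, add_zero]
        rw [he0]
        exact h0
      | succ i ih =>
        intro hi
        have h1 := ih (by omega)
        have h2 := hstep i (by omega)
        have h3 : ‖e y ((i : ℤ) + 1)‖ ≤ ‖e y i‖ + ‖e y (i + 1) - e y i‖ := by
          have := norm_add_le (e y i) (e y (i + 1) - e y i)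
          rwa [add_sub_cancel] at this
        push_cast
        linarith
    rw [mem_closedBall_zero_iff, pi_norm_le_iff_of_nonneg (by positivity)]
    intro i
    have h1 := hall i i.2
    rw [hei] at h1
    refine h1.trans ?_
    have h2 : ((i : ℕ) : ℝ) ≤ N := by exact_mod_cast i.2.le
    have h3 : ((i : ℕ) : ℝ) * (τ * R) ≤ N * (τ * R) :=
      mul_le_mul_of_nonneg_right h2 (by positivity)
    linarith
  have hcomp : IsCompact Ks :=
    (isCompact_closedBall (0 : Fin N → EuclideanSpace ℝ (Fin n)) _).of_isClosed_subset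
      hclosed hbd
  have hne : (0 : Fin N → EuclideanSpace ℝ (Fin n)) ∈ Ks := by
    refine ⟨fun j => ?_, le_rfl⟩
    simp
  obtain ⟨y, hyK, hymin⟩ := hcomp.exists_isMinOn ⟨0, hne⟩ hfc.continuousOn
  refine ⟨e y, ⟨hex y, ?_⟩, ?_⟩
  · intro x hx
    set l : Fin n → ℤ := fun j => -⌊x 0 j⌋ with hl
    set x' : ℤ → EuclideanSpace ℝ (Fin n) := fun i => x i + zv l with hx'
    have hx'per : ∀ i, x' (i + N) = x' i + zv k := by
      intro i
      simp only [hx', hx i]
      abel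
    have hSx' : Sd K A V τ N x' = Sd K A V τ N x := by
      unfold Sd
      refine Finset.sum_congr rfl fun i _ => ?_
      simp only [hx']
      rw [X2a_lag_per hA hV, add_sub_add_right_eq_sub]
    set y' : Fin N → EuclideanSpace ℝ (Fin n) := fun i => x' ((i : ℕ) : ℤ) with hy'
    have hxe : x' = e y' := by
      funext i
      refine X2a_eq_ext hN hx'per (fun j hj => ?_) i
      simp [X2a_seq, hj, hy']
    have hcube : ∀ j, y' ⟨0, hN⟩ j ∈ Set.Icc (0 : ℝ) 1 := by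
      intro j
      have h1 : y' ⟨0, hN⟩ j = x 0 j - ⌊x 0 j⌋ := by
        simp only [hy', hx', hl, zv, Nat.cast_zero, PiLp.add_apply, Int.cast_neg]
        ring
      rw [h1]
      constructor
      · linarith [Int.floor_le (x 0 j)]
      · linarith [Int.lt_floor_add_one (x 0 j)]
    rw [← hSx', hxe]
    change f y ≤ f y'
    by_cases hle : f y' ≤ M
    · exact hymin ⟨hcube, hle⟩
    · have h1 : f y ≤ M := hyK.2
      linarith
  · intro j
    rw [he0]
    exact hyK.1 j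

end Pool.Agent.H33.AM

end

section

/-!
# Module X2: discrete minimisers

`τ = T / N`, `v_i = (1/τ) (x_{i+1} - x_i)`, `S = Sd K A V τ N`.
* `disc_exists`: a quasi-periodic sequence is determined by `(x_0, …, x_{N-1}) ∈ (ℝⁿ)^N`; `S` is
  continuous in these variables, invariant under the translations by `zv k'`, so one may restrict to
  `x_0 ∈ [0, 1]ⁿ`, and coercive there: `K v ≥ K 0 + ⟪D 0, v⟫ + κ₁/2 ‖v‖²`, `|A|, |V| ≤ B`.
* `disc_EL`: derivative of `S` in the direction of the variable `x_i` (moved together with all the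
  `x_{i + j N}`): the terms `i` and `i - 1` give
  `-D v_i - A x_i + τ (adjoint (A' x_i) v_i - F x_i) + D v_{i-1} + A x_{i-1} = 0`.
  (By the invariance of the problem under the index shift one may assume `1 ≤ i ≤ N`… or treat
  the sum over a period as a sum over `ZMod N`; the case `N = 1` needs care: then `x_{i+1}`,
  `x_i` and `x_{i-1}` move together, `v_i = v_{i-1}`; the formula is still true.)
* `disc_bound`: `S(x) ≤ S(straight line) = ∑ τ lag(x_i, zv k/T) ≤ T (K (zv k/T) + B ‖zv k/T‖ + B)`, so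
  `∑ τ ‖v_i‖² ≤ C`, `∑ τ ‖v_i‖ ≤ C`; by `disc_EL`, for `p_i = D v_i + A x_i`,
  `‖p_i - p_j‖ ≤ ∑ τ (B ‖v‖ + B) ≤ C` for all `i`, `j`; `κ₁ ‖v_i - v_j‖ ≤ ‖D v_i - D v_j‖ ≤ C + 2 B`, and some
  `‖v_j‖ ≤ C/T` (average), so `‖v_i‖ ≤ R`, with `R` independent of `N` and of `x`.
-/

set_option autoImplicit false

open MeasureTheory
open scoped RealInnerProductSpace

namespace Pool.Agent.H33.AM

variable {n : ℕ} {K V : EuclideanSpace ℝ (Fin n) → ℝ}
  {D F A : EuclideanSpace ℝ (Fin n) → EuclideanSpace ℝ (Fin n)}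
  {A' : EuclideanSpace ℝ (Fin n) → EuclideanSpace ℝ (Fin n) →L[ℝ] EuclideanSpace ℝ (Fin n)}
  {κ₁ κ₂ B T : ℝ} {N : ℕ} {k : Fin n → ℤ}

/-- The derivative of one term of the discrete action. -/
private theorem X2b_term (hK : HK K D κ₁ κ₂) (hA : HA A A' B) (hV : HV V F B)
    (a b c d : EuclideanSpace ℝ (Fin n)) :
    HasDerivAt (fun s : ℝ => lag K A V (a + s • b) (c + s • d))
      (⟪D c, d⟫ + (⟪A a, d⟫ + ⟪A' a b, c⟫) - ⟪F a, b⟫) 0 := by
  have h1 : HasDerivAt (fun s : ℝ => a + s • b) b 0 := by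
    have := ((hasDerivAt_id (0 : ℝ)).smul_const b).const_add a
    simpa using this
  have h2 : HasDerivAt (fun s : ℝ => c + s • d) d 0 := by
    have := ((hasDerivAt_id (0 : ℝ)).smul_const d).const_add c
    simpa using this
  have hK1 : HasDerivAt (fun s : ℝ => K (c + s • d)) ⟪D c, d⟫ 0 := by
    have h3 := (hK.grad c).hasFDerivAt
    have h4 : HasFDerivAt K (InnerProductSpace.toDual ℝ _ (D c)) (c + (0 : ℝ) • d) := by
      simpa using h3
    have := h4.comp_hasDerivAt (0 : ℝ) h2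
    simpa [Function.comp_def] using this
  have hV1 : HasDerivAt (fun s : ℝ => V (a + s • b)) ⟪F a, b⟫ 0 := by
    have h3 := (hV.der a).hasFDerivAt
    have h4 : HasFDerivAt V (InnerProductSpace.toDual ℝ _ (F a)) (a + (0 : ℝ) • b) := by
      simpa using h3
    have := h4.comp_hasDerivAt (0 : ℝ) h1
    simpa [Function.comp_def] using this
  have hA1 : HasDerivAt (fun s : ℝ => A (a + s • b)) (A' a b) 0 := by
    have h4 : HasFDerivAt A (A' a) (a + (0 : ℝ) • b) := by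
      simpa using hA.der a
    have := h4.comp_hasDerivAt (0 : ℝ) h1
    simpa [Function.comp_def] using this
  have h5 := hA1.inner ℝ h2
  have h6 := (hK1.fun_add h5).fun_sub hV1
  simp only [zero_smul, add_zero] at h6
  unfold lag
  exact h6

/-- The Euler-Lagrange equation at the index `0`. -/
private theorem X2b_core (hK : HK K D κ₁ κ₂) (hA : HA A A' B) (hV : HV V F B) {τ : ℝ}
    (hτ : 0 < τ) (hN : 0 < N) {x : ℤ → EuclideanSpace ℝ (Fin n)}
    (hx1 : ∀ i, x (i + N) = x i + zv k)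
    (hx2 : ∀ y : ℤ → EuclideanSpace ℝ (Fin n), (∀ i, y (i + N) = y i + zv k) →
      Sd K A V τ N x ≤ Sd K A V τ N y) :
    D ((1 / τ) • (x 1 - x 0)) + A (x 0) -
      (D ((1 / τ) • (x 0 - x (-1))) + A (x (-1))) =
    τ • (ContinuousLinearMap.adjoint (A' (x 0)) ((1 / τ) • (x 1 - x 0)) - F (x 0)) := by
  refine ext_inner_right ℝ fun w => ?_
  set χ : ℤ → EuclideanSpace ℝ (Fin n) := fun j => if (N : ℤ) ∣ j then w else 0 with hχ
  have hχN : ∀ j, χ (j + N) = χ j := by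
    intro j
    simp only [hχ]
    congr 1
    simp
  set v : ℤ → EuclideanSpace ℝ (Fin n) := fun j => (1 / τ) • (x (j + 1) - x j) with hv
  -- the action along the perturbation
  have hder : HasDerivAt (fun s : ℝ => Sd K A V τ N (fun j => x j + s • χ j))
      (∑ j ∈ Finset.range N, τ * (⟪D (v j), (1 / τ) • (χ (j + 1) - χ j)⟫ +
        (⟪A (x j), (1 / τ) • (χ (j + 1) - χ j)⟫ + ⟪A' (x j) (χ j), v j⟫) -
          ⟪F (x j), χ j⟫)) 0 := by
    unfold Sd
    refine HasDerivAt.fun_sum fun j _ => ?_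
    have h1 := (X2b_term hK hA hV (x j) (χ j) (v j) ((1 / τ) • (χ (j + 1) - χ j))).const_mul τ
    refine h1.congr_of_eventuallyEq (Filter.Eventually.of_forall fun s => ?_)
    beta_reduce
    congr 2
    simp only [hv]
    module
  have hmin : IsLocalMin (fun s : ℝ => Sd K A V τ N (fun j => x j + s • χ j)) 0 := by
    refine Filter.Eventually.of_forall fun s => ?_
    beta_reduce
    have h0 : (fun j => x j + (0 : ℝ) • χ j) = x := by
      funext j
      simp
    rw [h0]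
    refine hx2 _ fun i => ?_
    rw [hx1, hχN]
    abel
  have hz := hmin.hasDerivAt_eq_zero hder
  set p : ℤ → EuclideanSpace ℝ (Fin n) := fun j => D (v j) + A (x j) with hp
  set G : ℤ → EuclideanSpace ℝ (Fin n) := fun j =>
    ContinuousLinearMap.adjoint (A' (x j)) (v j) - F (x j) with hG
  have hterm : ∀ j : ℤ, τ * (⟪D (v j), (1 / τ) • (χ (j + 1) - χ j)⟫ +
        (⟪A (x j), (1 / τ) • (χ (j + 1) - χ j)⟫ + ⟪A' (x j) (χ j), v j⟫) -
          ⟪F (x j), χ j⟫) = ⟪p j, χ (j + 1)⟫ - ⟪p j - τ • G j, χ j⟫ := by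
    intro j
    have h1 : ⟪A' (x j) (χ j), v j⟫ = ⟪ContinuousLinearMap.adjoint (A' (x j)) (v j), χ j⟫ := by
      rw [ContinuousLinearMap.adjoint_inner_left, real_inner_comm]
    rw [h1]
    simp only [hp, hG, inner_sub_left, inner_add_left, inner_sub_right, real_inner_smul_left,
      real_inner_smul_right]
    field_simp
    ring
  have hz2 : ∑ j ∈ Finset.range N, ⟪p (j : ℤ), χ ((j : ℤ) + 1)⟫ =
      ∑ j ∈ Finset.range N, ⟪p (j : ℤ) - τ • G (j : ℤ), χ (j : ℤ)⟫ := by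
    rw [← sub_eq_zero, ← Finset.sum_sub_distrib, ← hz]
    exact Finset.sum_congr rfl fun j _ => (hterm j).symm
  have hs1 : ∑ j ∈ Finset.range N, ⟪p (j : ℤ), χ ((j : ℤ) + 1)⟫ =
      ⟪p (((N - 1 : ℕ) : ℤ)), w⟫ := by
    rw [Finset.sum_eq_single (N - 1)]
    · have : χ ((((N - 1 : ℕ) : ℤ)) + 1) = w := by
        simp only [hχ]
        rw [if_pos]
        rw [show (((N - 1 : ℕ) : ℤ)) + 1 = N by omega]
      rw [this]
    · intro j hj hj1
      rw [Finset.mem_range] at hj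
      have : χ ((j : ℤ) + 1) = 0 := by
        simp only [hχ]
        rw [if_neg]
        intro hd
        have := Int.le_of_dvd (by omega) hd
        omega
      rw [this, inner_zero_right]
    · intro h
      rw [Finset.mem_range] at h
      omega
  have hs2 : ∑ j ∈ Finset.range N, ⟪p (j : ℤ) - τ • G (j : ℤ), χ (j : ℤ)⟫ =
      ⟪p 0 - τ • G 0, w⟫ := by
    rw [Finset.sum_eq_single 0]
    · have : χ ((0 : ℕ) : ℤ) = w := by simp [hχ]
      rw [this]
      simp
    · intro j hj hj1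
      rw [Finset.mem_range] at hj
      have : χ (j : ℤ) = 0 := by
        simp only [hχ]
        rw [if_neg]
        intro hd
        have := Int.le_of_dvd (by omega) hd
        omega
      rw [this, inner_zero_right]
    · intro h
      rw [Finset.mem_range] at h
      omega
  have hpN : p (((N - 1 : ℕ) : ℤ)) = p (-1) := by
    have e1 : (((N - 1 : ℕ) : ℤ)) = -1 + N := by omega
    have e2 : (-1 + (N : ℤ)) + 1 = (-1 + 1) + N := by ring
    simp only [hp, hv]
    rw [e1, e2, hx1, hx1, hA.per, add_sub_add_right_eq_sub]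
  rw [hs1, hs2, hpN] at hz2
  have e3 : p 0 = D ((1 / τ) • (x 1 - x 0)) + A (x 0) := by
    simp only [hp, hv, zero_add]
  have e4 : p (-1) = D ((1 / τ) • (x 0 - x (-1))) + A (x (-1)) := by
    simp only [hp, hv]
    norm_num
  have e5 : G 0 = ContinuousLinearMap.adjoint (A' (x 0)) ((1 / τ) • (x 1 - x 0)) - F (x 0) := by
    simp only [hG, hv, zero_add]
  rw [← e3, ← e4, ← e5, inner_sub_left, hz2, inner_sub_left]
  ring

/-- The sums over a period of a periodic function. -/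
private theorem X2b_per {h : ℤ → ℝ} (hh : ∀ j, h (j + N) = h j) (i : ℤ) :
    ∑ j ∈ Finset.range N, h (j + i) = ∑ j ∈ Finset.range N, h j := by
  have hstep : ∀ i : ℤ, ∑ j ∈ Finset.range N, h (j + (i + 1)) = ∑ j ∈ Finset.range N, h (j + i) := by
    intro i
    have h1 := Finset.sum_range_succ' (fun j : ℕ => h ((j : ℤ) + i)) N
    have h2 := Finset.sum_range_succ (fun j : ℕ => h ((j : ℤ) + i)) N
    have h3 : h ((N : ℤ) + i) = h i := by
      rw [add_comm, hh]
    have h4 : ∀ j : ℕ, h (((j + 1 : ℕ) : ℤ) + i) = h ((j : ℤ) + (i + 1)) := by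
      intro j
      congr 1
      push_cast
      ring
    simp only [h4, h3, Nat.cast_zero, zero_add] at h1 h2
    rw [h2] at h1
    linarith
  induction i using Int.induction_on with
  | zero => simp
  | succ i ih => rw [hstep, ih]
  | pred i ih =>
    rw [← ih, ← hstep (-(i : ℤ) - 1)]
    refine Finset.sum_congr rfl fun j _ => ?_
    congr 1
    ring

theorem disc_EL (hK : HK K D κ₁ κ₂) (hA : HA A A' B) (hV : HV V F B) (hT : 0 < T)
    (hN : 0 < N) {x : ℤ → EuclideanSpace ℝ (Fin n)} (hx : IsDM K A V T N k x) (i : ℤ) :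
    D ((1 / (T / N)) • (x (i + 1) - x i)) + A (x i) -
      (D ((1 / (T / N)) • (x i - x (i - 1))) + A (x (i - 1))) =
    (T / N) • (ContinuousLinearMap.adjoint (A' (x i)) ((1 / (T / N)) • (x (i + 1) - x i)) -
      F (x i)) := by
  obtain ⟨hx1, hx2⟩ := hx
  have hτ : 0 < T / N := div_pos hT (by exact_mod_cast hN)
  have hS : Sd K A V (T / N) N (fun j => x (j + i)) = Sd K A V (T / N) N x := by
    unfold Sd
    have hper : ∀ j : ℤ, (T / N) * lag K A V (x (j + N))
        ((1 / (T / N)) • (x (j + N + 1) - x (j + N))) =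
        (T / N) * lag K A V (x j) ((1 / (T / N)) • (x (j + 1) - x j)) := by
      intro j
      have e : j + (N : ℤ) + 1 = (j + 1) + N := by ring
      rw [e, hx1, hx1, add_sub_add_right_eq_sub]
      unfold lag
      rw [hA.per, hV.per]
    have h1 := X2b_per (N := N) (h := fun j => (T / N) * lag K A V (x j)
      ((1 / (T / N)) • (x (j + 1) - x j))) hper i
    beta_reduce at h1
    rw [← h1]
    refine Finset.sum_congr rfl fun j _ => ?_
    beta_reduce
    rw [show (j : ℤ) + 1 + i = j + i + 1 by ring]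
  have h1 := X2b_core (x := fun j => x (j + i)) (k := k) hK hA hV hτ hN
    (fun j => by
      beta_reduce
      rw [show j + (N : ℤ) + i = j + i + N by ring, hx1])
    (fun y hy => by
      rw [hS]
      exact hx2 y hy)
  beta_reduce at h1
  rw [show (0 : ℤ) + i = i by ring, show (1 : ℤ) + i = i + 1 by ring,
    show (-1 : ℤ) + i = i - 1 by ring] at h1
  exact h1

end Pool.Agent.H33.AM

end

section

/-!
# Module X2: discrete minimisers

`τ = T / N`, `v_i = (1/τ) (x_{i+1} - x_i)`, `S = Sd K A V τ N`.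
* `disc_exists`: a quasi-periodic sequence is determined by `(x_0, …, x_{N-1}) ∈ (ℝⁿ)^N`; `S` is
  continuous in these variables, invariant under the translations by `zv k'`, so one may restrict to
  `x_0 ∈ [0, 1]ⁿ`, and coercive there: `K v ≥ K 0 + ⟪D 0, v⟫ + κ₁/2 ‖v‖²`, `|A|, |V| ≤ B`.
* `disc_EL`: derivative of `S` in the direction of the variable `x_i` (moved together with all the
  `x_{i + j N}`): the terms `i` and `i - 1` give
  `-D v_i - A x_i + τ (adjoint (A' x_i) v_i - F x_i) + D v_{i-1} + A x_{i-1} = 0`.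
  (By the invariance of the problem under the index shift one may assume `1 ≤ i ≤ N`… or treat
  the sum over a period as a sum over `ZMod N`; the case `N = 1` needs care: then `x_{i+1}`,
  `x_i` and `x_{i-1}` move together, `v_i = v_{i-1}`; the formula is still true.)
* `disc_bound`: `S(x) ≤ S(straight line) = ∑ τ lag(x_i, zv k/T) ≤ T (K (zv k/T) + B ‖zv k/T‖ + B)`, so
  `∑ τ ‖v_i‖² ≤ C`, `∑ τ ‖v_i‖ ≤ C`; by `disc_EL`, for `p_i = D v_i + A x_i`,
  `‖p_i - p_j‖ ≤ ∑ τ (B ‖v‖ + B) ≤ C` for all `i`, `j`; `κ₁ ‖v_i - v_j‖ ≤ ‖D v_i - D v_j‖ ≤ C + 2 B`, and some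
  `‖v_j‖ ≤ C/T` (average), so `‖v_i‖ ≤ R`, with `R` independent of `N` and of `x`.
-/

set_option autoImplicit false

open MeasureTheory
open scoped RealInnerProductSpace

namespace Pool.Agent.H33.AM

variable {n : ℕ} {K V : EuclideanSpace ℝ (Fin n) → ℝ}
  {D F A : EuclideanSpace ℝ (Fin n) → EuclideanSpace ℝ (Fin n)}
  {A' : EuclideanSpace ℝ (Fin n) → EuclideanSpace ℝ (Fin n) →L[ℝ] EuclideanSpace ℝ (Fin n)}
  {κ₁ κ₂ B T : ℝ} {N : ℕ} {k : Fin n → ℤ}

theorem disc_bound (hK : HK K D κ₁ κ₂) (hA : HA A A' B) (hV : HV V F B) (hT : 0 < T)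
    (k : Fin n → ℤ) :
    ∃ R : ℝ, ∀ (N : ℕ) (x : ℤ → EuclideanSpace ℝ (Fin n)), 0 < N → IsDM K A V T N k x →
      ∀ i, ‖(1 / (T / N)) • (x (i + 1) - x i)‖ ≤ R := by
  set c : EuclideanSpace ℝ (Fin n) := (1 / T) • zv k with hc
  have hκ := hK.pos
  have hB := hV.nonneg
  set M := 2 * B * ‖c‖ + 2 * B + B ^ 2 / κ₁ with hM
  have hM0 : 0 ≤ M := by positivity
  set S1 := (T + 4 * T * M / κ₁) / 2 with hS1
  set S2 := S1 + T * ‖c‖ with hS2
  refine ⟨S2 / T + 2 * (B * (S2 + T) + B) / κ₁, ?_⟩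
  intro N x hN hx
  have hN' : (0 : ℝ) < N := by exact_mod_cast hN
  set τ := T / N with hτd
  have hτ : 0 < τ := by positivity
  have hNτ : N * τ = T := by rw [hτd]; field_simp
  set v : ℤ → EuclideanSpace ℝ (Fin n) := fun i => (1 / τ) • (x (i + 1) - x i) with hv
  change ∀ i, ‖v i‖ ≤ _
  have hvx : ∀ i, τ • v i = x (i + 1) - x i := by
    intro i
    simp only [hv]
    rw [smul_smul, mul_one_div_cancel hτ.ne', one_smul]
  have hvp : ∀ i, v (i + N) = v i := by
    intro i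
    simp only [hv]
    rw [hx.1 i, show i + (N : ℤ) + 1 = (i + 1) + N by ring, hx.1 (i + 1), add_sub_add_right_eq_sub]
  have hsumv : ∀ m : ℕ, ∑ i ∈ Finset.range m, τ • v i = x m - x 0 := by
    intro m
    induction m with
    | zero => simp
    | succ m ih =>
      rw [Finset.sum_range_succ, ih, hvx]
      push_cast
      abel
  have hTc : T • c = zv k := by
    rw [hc, smul_smul, mul_one_div_cancel hT.ne', one_smul]
  have hsum0 : ∑ i ∈ Finset.range N, τ * ⟪D c, v i - c⟫ = 0 := by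
    have h1 : ∑ i ∈ Finset.range N, τ * ⟪D c, v i - c⟫ =
        ⟪D c, ∑ i ∈ Finset.range N, (τ • v i - τ • c)⟫ := by
      rw [inner_sum]
      apply Finset.sum_congr rfl
      intro i _
      rw [← smul_sub, inner_smul_right]
    rw [h1, Finset.sum_sub_distrib, hsumv, Finset.sum_const, Finset.card_range,
      ← Nat.cast_smul_eq_nsmul ℝ, smul_smul, hNτ, hTc]
    have h2 := hx.1 0
    rw [zero_add] at h2
    rw [h2]
    simp
  -- comparison with the straight line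
  set y : ℤ → EuclideanSpace ℝ (Fin n) := fun i => ((i : ℝ) * τ) • c with hy
  have hyv : ∀ i : ℤ, (1 / τ) • (y (i + 1) - y i) = c := by
    intro i
    simp only [hy]
    rw [← sub_smul, smul_smul]
    push_cast
    rw [show 1 / τ * ((i + 1) * τ - i * τ) = 1 by field_simp; ring, one_smul]
  have hyp : ∀ i, y (i + N) = y i + zv k := by
    intro i
    simp only [hy]
    push_cast
    rw [add_mul, hNτ, add_smul, hTc]
  have hcmp := hx.2 y hyp
  have hup : Sd K A V τ N y ≤ T * (K c + B * ‖c‖ + B) := by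
    unfold Sd
    have h1 : ∀ i ∈ Finset.range N, τ * lag K A V (y i) ((1 / τ) • (y (i + 1) - y i)) ≤
        τ * (K c + B * ‖c‖ + B) := by
      intro i _
      rw [hyv]
      apply mul_le_mul_of_nonneg_left _ hτ.le
      unfold lag
      have h2 := (abs_le.mp (abs_real_inner_le_norm (A (y i)) c)).2
      have h3 := mul_le_mul_of_nonneg_right (hA.bd (y i)) (norm_nonneg c)
      have h4 := (abs_le.mp (hV.bd (y i))).1
      linarith
    refine (Finset.sum_le_sum h1).trans (le_of_eq ?_)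
    rw [Finset.sum_const, Finset.card_range, nsmul_eq_mul, ← mul_assoc, hNτ]
  have hlo : T * (K c - B * ‖c‖ - B) + ∑ i ∈ Finset.range N, τ * ⟪D c, v i - c⟫ +
      ∑ i ∈ Finset.range N, τ * (κ₁ / 4 * ‖v i - c‖ ^ 2 - B ^ 2 / κ₁) ≤ Sd K A V τ N x := by
    unfold Sd
    have h1 : T * (K c - B * ‖c‖ - B) = ∑ i ∈ Finset.range N, τ * (K c - B * ‖c‖ - B) := by
      rw [Finset.sum_const, Finset.card_range, nsmul_eq_mul, ← mul_assoc, hNτ]
    rw [h1, ← Finset.sum_add_distrib, ← Finset.sum_add_distrib]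
    apply Finset.sum_le_sum
    intro i _
    rw [← mul_add, ← mul_add]
    apply mul_le_mul_of_nonneg_left _ hτ.le
    change _ ≤ lag K A V (x i) (v i)
    unfold lag
    have h2 := (abs_le.mp (abs_real_inner_le_norm (A (x i)) (v i))).1
    have h3 := mul_le_mul_of_nonneg_right (hA.bd (x i)) (norm_nonneg (v i))
    have h4 := (abs_le.mp (hV.bd (x i))).2
    have h5 := hK.lo c (v i)
    have h6 : ‖(v i)‖ ≤ ‖v i - c‖ + ‖c‖ := by
      have := norm_add_le (v i - c) c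
      rwa [sub_add_cancel] at this
    have h7 := mul_le_mul_of_nonneg_left h6 hB
    have h8 : B * ‖v i - c‖ ≤ κ₁ / 4 * ‖v i - c‖ ^ 2 + B ^ 2 / κ₁ := by
      have h9 : κ₁ / 4 * ‖v i - c‖ ^ 2 + B ^ 2 / κ₁ - B * ‖v i - c‖ =
          (κ₁ * ‖v i - c‖ - 2 * B) ^ 2 / (4 * κ₁) := by
        field_simp
        ring
      have h10 : 0 ≤ (κ₁ * ‖v i - c‖ - 2 * B) ^ 2 / (4 * κ₁) := by positivity
      linarith
    linarith
  have hq : ∑ i ∈ Finset.range N, τ * ‖v i - c‖ ^ 2 ≤ 4 * T * M / κ₁ := by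
    have h1 : ∑ i ∈ Finset.range N, τ * (κ₁ / 4 * ‖v i - c‖ ^ 2 - B ^ 2 / κ₁) =
        κ₁ / 4 * (∑ i ∈ Finset.range N, τ * ‖v i - c‖ ^ 2) - T * (B ^ 2 / κ₁) := by
      have h2 : T * (B ^ 2 / κ₁) = ∑ i ∈ Finset.range N, τ * (B ^ 2 / κ₁) := by
        rw [Finset.sum_const, Finset.card_range, nsmul_eq_mul, ← mul_assoc, hNτ]
      rw [h2, Finset.mul_sum, ← Finset.sum_sub_distrib]
      apply Finset.sum_congr rfl
      intro i _
      ring
    rw [h1, hsum0] at hlo
    have h3 : κ₁ / 4 * (∑ i ∈ Finset.range N, τ * ‖v i - c‖ ^ 2) ≤ T * M := by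
      rw [hM]
      linarith
    rw [le_div_iff₀ hκ]
    linarith
  have hs1 : ∑ i ∈ Finset.range N, τ * ‖v i - c‖ ≤ S1 := by
    have h1 : ∀ i ∈ Finset.range N, τ * ‖v i - c‖ ≤ (τ + τ * ‖v i - c‖ ^ 2) / 2 := by
      intro i _
      nlinarith [sq_nonneg (‖v i - c‖ - 1)]
    refine (Finset.sum_le_sum h1).trans ?_
    rw [← Finset.sum_div, Finset.sum_add_distrib, Finset.sum_const, Finset.card_range,
      nsmul_eq_mul, hNτ, hS1]
    linarith
  have hs2 : ∑ i ∈ Finset.range N, τ * ‖v i‖ ≤ S2 := by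
    have h1 : ∀ i ∈ Finset.range N, τ * ‖v i‖ ≤ τ * ‖v i - c‖ + τ * ‖c‖ := by
      intro i _
      rw [← mul_add]
      apply mul_le_mul_of_nonneg_left _ hτ.le
      have := norm_add_le (v i - c) c
      rwa [sub_add_cancel] at this
    refine (Finset.sum_le_sum h1).trans ?_
    rw [Finset.sum_add_distrib, Finset.sum_const, Finset.card_range, nsmul_eq_mul, ← mul_assoc,
      hNτ, hS2]
    linarith
  -- momenta
  set p : ℤ → EuclideanSpace ℝ (Fin n) := fun i => D (v i) + A (x i) with hp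
  have hpstep : ∀ i : ℤ, ‖p i - p (i - 1)‖ ≤ τ * (B * ‖v i‖ + B) := by
    intro i
    have h1 := disc_EL hK hA hV hT hN hx i
    have h2 : p i - p (i - 1) = τ • (ContinuousLinearMap.adjoint (A' (x i)) (v i) - F (x i)) := by
      rw [← h1]
      simp only [hp, hv]
      rw [sub_add_cancel]
    rw [h2, norm_smul, Real.norm_eq_abs, abs_of_pos hτ]
    apply mul_le_mul_of_nonneg_left _ hτ.le
    refine (norm_sub_le _ _).trans (add_le_add ?_ (hV.bdF _))
    refine (ContinuousLinearMap.le_opNorm _ _).trans ?_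
    rw [LinearIsometryEquiv.norm_map]
    exact mul_le_mul_of_nonneg_right (hA.bdA _) (norm_nonneg _)
  have hp0 : ∀ m : ℕ, ‖p m - p 0‖ ≤ ∑ i ∈ Finset.range (m + 1), τ * (B * ‖v i‖ + B) := by
    intro m
    induction m with
    | zero =>
      simp only [Nat.cast_zero, sub_self, norm_zero]
      exact Finset.sum_nonneg fun i _ => by positivity
    | succ m ih =>
      rw [Finset.sum_range_succ]
      have h1 := hpstep ((m + 1 : ℕ) : ℤ)
      have h2 : (((m + 1 : ℕ) : ℤ) - 1) = (m : ℤ) := by push_cast; ring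
      rw [h2] at h1
      calc ‖p ((m + 1 : ℕ) : ℤ) - p 0‖ = ‖(p m - p 0) + (p ((m + 1 : ℕ) : ℤ) - p m)‖ := by
            congr 1
            abel
        _ ≤ ‖p m - p 0‖ + ‖p ((m + 1 : ℕ) : ℤ) - p m‖ := norm_add_le _ _
        _ ≤ _ := add_le_add ih h1
  have hpN : ∀ m : ℕ, m < N → ‖p m - p 0‖ ≤ B * (S2 + T) := by
    intro m hm
    refine (hp0 m).trans ?_
    have h1 : ∑ i ∈ Finset.range (m + 1), τ * (B * ‖v i‖ + B) ≤
        ∑ i ∈ Finset.range N, τ * (B * ‖v i‖ + B) := by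
      apply Finset.sum_le_sum_of_subset_of_nonneg
      · exact Finset.range_subset_range.mpr hm
      · intro i _ _
        positivity
    refine h1.trans ?_
    have h2 : ∑ i ∈ Finset.range N, τ * (B * ‖v i‖ + B) =
        B * (∑ i ∈ Finset.range N, τ * ‖v i‖) + B * T := by
      have h3 : B * T = ∑ i ∈ Finset.range N, τ * B := by
        rw [Finset.sum_const, Finset.card_range, nsmul_eq_mul, ← mul_assoc, hNτ, mul_comm]
      rw [h3, Finset.mul_sum, ← Finset.sum_add_distrib]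
      apply Finset.sum_congr rfl
      intro i _
      ring
    rw [h2, mul_add]
    have := mul_le_mul_of_nonneg_left hs2 hB
    linarith
  -- a small velocity
  obtain ⟨j, hj, hjv⟩ : ∃ j ∈ Finset.range N, ‖v j‖ ≤ S2 / T := by
    by_contra hcon
    push Not at hcon
    have h1 : ∑ i ∈ Finset.range N, τ * (S2 / T) < ∑ i ∈ Finset.range N, τ * ‖v i‖ := by
      apply Finset.sum_lt_sum_of_nonempty (Finset.nonempty_range_iff.mpr hN.ne')
      intro i hi
      exact mul_lt_mul_of_pos_left (hcon i hi) hτ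
    rw [Finset.sum_const, Finset.card_range, nsmul_eq_mul, ← mul_assoc, hNτ,
      mul_div_cancel₀ _ hT.ne'] at h1
    linarith
  rw [Finset.mem_range] at hj
  have hmain : ∀ m : ℕ, m < N → ‖v m‖ ≤ S2 / T + 2 * (B * (S2 + T) + B) / κ₁ := by
    intro m hm
    have h1 := hK.antilip (v j) (v m)
    have h2 : D (v m) - D (v j) = ((p m - p 0) - (p j - p 0)) - (A (x m) - A (x j)) := by
      simp only [hp]
      abel
    have h3 : ‖D (v m) - D (v j)‖ ≤ 2 * (B * (S2 + T) + B) := by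
      rw [h2]
      refine (norm_sub_le _ _).trans ?_
      have a1 := (norm_sub_le (p m - p 0) (p j - p 0)).trans (add_le_add (hpN m hm) (hpN j hj))
      have a2 := (norm_sub_le (A (x m)) (A (x j))).trans (add_le_add (hA.bd _) (hA.bd _))
      linarith
    have h4 : ‖v m - v j‖ ≤ 2 * (B * (S2 + T) + B) / κ₁ := by
      rw [le_div_iff₀ hκ]
      linarith
    have h5 : ‖v m‖ ≤ ‖v j‖ + ‖v m - v j‖ := by
      have := norm_add_le (v j) (v m - v j)
      rwa [add_sub_cancel] at this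
    linarith
  intro i
  have hvpz : ∀ (q : ℕ) (i : ℤ), v (i + q * N) = v i := by
    intro q
    induction q with
    | zero => intro i; simp
    | succ q ih =>
      intro i
      rw [show i + ((q + 1 : ℕ) : ℤ) * N = (i + q * N) + N by push_cast; ring, hvp, ih]
  have hvpz' : ∀ (q : ℤ) (i : ℤ), v (i + q * N) = v i := by
    intro q i
    rcases Int.eq_nat_or_neg q with ⟨m, rfl | rfl⟩
    · exact hvpz m i
    · have := hvpz m (i + -(m : ℤ) * N)
      rw [show i + -(m : ℤ) * N + m * N = i by ring] at this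
      exact this.symm
  have hNz : (0 : ℤ) < N := by exact_mod_cast hN
  obtain ⟨m, hm⟩ := Int.eq_ofNat_of_zero_le (Int.emod_nonneg i hNz.ne')
  have hm' : m < N := by
    have := Int.emod_lt_of_pos i hNz
    omega
  have h1 : i = m + (i / N) * N := by
    rw [← hm, mul_comm (i / (N : ℤ)) (N : ℤ)]
    exact (Int.emod_add_mul_ediv i N).symm
  rw [h1, hvpz']
  exact hmain m hm'

end Pool.Agent.H33.AM

end

section

/-!
# Module X3: from discrete to continuous

`Y = field A A' F D'`, `W = ℝⁿ × ℝⁿ`, `τ = T / N`, `v_i = (1/τ) (x_{i+1} - x_i)`,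
`z_i = (x_i, D v_i + A x_i)`, so that `v_i = D' (z_i.2 - A z_i.1)`, `x_{i+1} = x_i + τ (Y z_i).1`.
* `field_loc`, `field_growth`: `κ₁ ‖D' p - D' q‖ ≤ ‖p - q‖`, `A`, `A'`, `F` bounded and Lipschitz
  (`A` is Lipschitz with the constant `B` because `‖A'‖ ≤ B`); only `adjoint (A' x) v` needs the
  restriction to balls.
* `disc_euler`: `‖x_i‖ ≤ √n + T R` for `0 ≤ i ≤ N`; `z_{i+1}.2 - z_i.2 = τ (adjoint (A' x_{i+1}) v_{i+1} -
  F x_{i+1})` by `disc_EL`, and `‖v_{i+1} - v_i‖ ≤ (1/κ₁) (‖z_{i+1}.2 - z_i.2‖ + B ‖x_{i+1} - x_i‖) = O(τ)`.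
* `disc_of_curve`: `y i = x(i τ)` for `0 ≤ i < N`, extended quasi-periodically. Jensen:
  `τ K((1/τ) ∫ u) ≤ ∫ K(u)` on every `[i τ, (i + 1) τ]` (`ConvexOn.map_average_le` or: `K(u) ≥ K(c) +
  ⟪D c, u - c⟫` with `c` the average, integrate); `‖x(t) - x(i τ)‖ ≤ R τ`, so the terms with `A` and `V`
  change by `O(τ)`.
* `Sol_of_flow`, `flow_of_Sol`: `v = D' (p - A(γ))`.
-/

set_option autoImplicit false

open MeasureTheory
open scoped RealInnerProductSpace

namespace Pool.Agent.H33.AM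

variable {n : ℕ} {K V : EuclideanSpace ℝ (Fin n) → ℝ}
  {D F A D' : EuclideanSpace ℝ (Fin n) → EuclideanSpace ℝ (Fin n)}
  {A' : EuclideanSpace ℝ (Fin n) → EuclideanSpace ℝ (Fin n) →L[ℝ] EuclideanSpace ℝ (Fin n)}
  {κ₁ κ₂ B T : ℝ}

private theorem X3b_adj (G : EuclideanSpace ℝ (Fin n) →L[ℝ] EuclideanSpace ℝ (Fin n))
    {b : ℝ} (hG : ‖G‖ ≤ b) (v : EuclideanSpace ℝ (Fin n)) :
    ‖ContinuousLinearMap.adjoint G v‖ ≤ b * ‖v‖ := by
  have h1 : ‖ContinuousLinearMap.adjoint G‖ = ‖G‖ :=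
    LinearIsometryEquiv.norm_map ContinuousLinearMap.adjoint G
  refine (ContinuousLinearMap.le_opNorm _ v).trans ?_
  rw [h1]
  exact mul_le_mul_of_nonneg_right hG (norm_nonneg v)

private theorem X3b_A (hA : HA A A' B) (x y : EuclideanSpace ℝ (Fin n)) :
    ‖A y - A x‖ ≤ B * ‖y - x‖ :=
  Convex.norm_image_sub_le_of_norm_hasFDerivWithin_le (s := Set.univ) (f' := A')
    (fun x _ => (hA.der x).hasFDerivWithinAt) (fun x _ => hA.bdA x) convex_univ
    (Set.mem_univ x) (Set.mem_univ y)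

private theorem X3b_sqrt (x : EuclideanSpace ℝ (Fin n)) (hx : ∀ j, x j ∈ Set.Icc (0 : ℝ) 1) :
    ‖x‖ ≤ Real.sqrt n := by
  rw [EuclideanSpace.norm_eq]
  apply Real.sqrt_le_sqrt
  have h1 : ∑ i, ‖x i‖ ^ 2 ≤ ∑ _i : Fin n, (1 : ℝ) := by
    refine Finset.sum_le_sum (fun i _ => ?_)
    obtain ⟨h2, h3⟩ := hx i
    rw [Real.norm_eq_abs, sq_abs]
    nlinarith
  simpa using h1

theorem disc_euler (hK : HK K D κ₁ κ₂) (hA : HA A A' B) (hV : HV V F B)
    (hD1 : ∀ p, D (D' p) = p) (hD2 : ∀ v, D' (D v) = v)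
    (hD : ∀ p q, κ₁ * ‖D' p - D' q‖ ≤ ‖p - q‖) (hT : 0 < T) (k : Fin n → ℤ) :
    ∃ R C : ℝ, ∀ (N : ℕ) (x : ℤ → EuclideanSpace ℝ (Fin n)), 0 < N → IsDM K A V T N k x →
      (∀ j, x 0 j ∈ Set.Icc (0 : ℝ) 1) →
      ∀ z : ℕ → EuclideanSpace ℝ (Fin n) × EuclideanSpace ℝ (Fin n),
        (∀ i : ℕ, z i = (x i, D ((1 / (T / N)) • (x (i + 1) - x i)) + A (x i))) →
        (∀ i ≤ N, ‖z i‖ ≤ R) ∧
        ∀ i < N, ‖z (i + 1) - z i - (T / N) • field A A' F D' (z i)‖ ≤ C * (T / N) ^ 2 := by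
  obtain ⟨R0, hR0⟩ := disc_bound hK hA hV hT k
  set R1 := max R0 0 with hR1
  have hR1n : 0 ≤ R1 := le_max_right _ _
  have hB := hA.nonneg
  have hκ₁ := hK.pos
  have hκ₂ := hK.pos₂
  refine ⟨Real.sqrt n + T * R1 + (‖D 0‖ + κ₂ * R1 + B),
    B * ((2 * B * R1 + B) / κ₁) + B * R1 * R1 + B * R1, ?_⟩
  intro N x hN hx hx0 z hz
  have hNr : (0 : ℝ) < N := by exact_mod_cast hN
  set τ := T / N with hτ
  have hτ0 : 0 < τ := div_pos hT hNr
  have hτN : (N : ℝ) * τ = T := by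
    rw [hτ]
    field_simp
  set v : ℤ → EuclideanSpace ℝ (Fin n) := fun i => (1 / τ) • (x (i + 1) - x i) with hv
  have hvR : ∀ i, ‖v i‖ ≤ R1 := fun i => (hR0 N x hN hx i).trans (le_max_left _ _)
  have hstep : ∀ i, x (i + 1) - x i = τ • v i := by
    intro i
    rw [hv]
    dsimp only
    rw [smul_smul, mul_one_div_cancel hτ0.ne', one_smul]
  have hstepn : ∀ i, ‖x (i + 1) - x i‖ ≤ τ * R1 := by
    intro i
    rw [hstep, norm_smul, Real.norm_of_nonneg hτ0.le]
    exact mul_le_mul_of_nonneg_left (hvR i) hτ0.le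
  have hxi : ∀ i : ℕ, ‖x i‖ ≤ Real.sqrt n + i * (τ * R1) := by
    intro i
    induction i with
    | zero =>
      have := X3b_sqrt (x 0) hx0
      simpa using this
    | succ i ih =>
      have h1 : x ((i + 1 : ℕ) : ℤ) = x i + (x ((i : ℤ) + 1) - x i) := by
        push_cast
        abel
      rw [h1]
      refine (norm_add_le _ _).trans ?_
      have h2 := hstepn (i : ℤ)
      push_cast
      linarith
  have hDg : ∀ w, ‖D w‖ ≤ ‖D 0‖ + κ₂ * ‖w‖ := by
    intro w
    have h1 := hK.lip 0 w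
    rw [sub_zero] at h1
    have h2 : ‖D w‖ ≤ ‖D w - D 0‖ + ‖D 0‖ := by
      have := norm_add_le (D w - D 0) (D 0)
      rwa [sub_add_cancel] at this
    linarith
  constructor
  · intro i hi
    rw [hz i, Prod.norm_mk]
    have hir : (i : ℝ) ≤ N := by exact_mod_cast hi
    apply max_le
    · refine (hxi i).trans ?_
      have h1 : (i : ℝ) * (τ * R1) ≤ N * (τ * R1) :=
        mul_le_mul_of_nonneg_right hir (by positivity)
      have h2 : (N : ℝ) * (τ * R1) = T * R1 := by rw [← mul_assoc, hτN]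
      have h3 : 0 ≤ ‖D 0‖ + κ₂ * R1 + B := by positivity
      linarith
    · refine (norm_add_le _ _).trans ?_
      have h1 := hDg (v i)
      have h2 := mul_le_mul_of_nonneg_left (hvR i) hκ₂.le
      have h3 := hA.bd (x i)
      have h4 : 0 ≤ Real.sqrt n := Real.sqrt_nonneg _
      have h5 : 0 ≤ T * R1 := by positivity
      have h6 : ‖D ((1 / τ) • (x (i + 1) - x i))‖ = ‖D (v i)‖ := rfl
      rw [h6]
      linarith
  · intro i hi
    have hEL := disc_EL hK hA hV hT hN hx ((i : ℤ) + 1)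
    rw [add_sub_cancel_right, ← hτ] at hEL
    have hz1 : z (i + 1) = (x ((i : ℤ) + 1), D (v ((i : ℤ) + 1)) + A (x ((i : ℤ) + 1))) := by
      rw [hz (i + 1)]
      push_cast
      rfl
    have hz0 : z i = (x (i : ℤ), D (v (i : ℤ)) + A (x (i : ℤ))) := hz i
    have hEL' : D (v ((i : ℤ) + 1)) + A (x ((i : ℤ) + 1)) - (D (v i) + A (x i)) =
        τ • (ContinuousLinearMap.adjoint (A' (x ((i : ℤ) + 1))) (v ((i : ℤ) + 1)) -
          F (x ((i : ℤ) + 1))) := hEL
    set a := x (i : ℤ) with ha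
    set b := x ((i : ℤ) + 1) with hb
    set va := v (i : ℤ) with hva
    set vb := v ((i : ℤ) + 1) with hvb
    have hba : ‖b - a‖ ≤ τ * R1 := hstepn i
    have hba' : b - a = τ • va := hstep i
    have hvaR : ‖va‖ ≤ R1 := hvR i
    have hvbR : ‖vb‖ ≤ R1 := hvR _
    have hp : ‖D vb + A b - (D va + A a)‖ ≤ τ * (B * R1 + B) := by
      rw [hEL', norm_smul, Real.norm_of_nonneg hτ0.le]
      refine mul_le_mul_of_nonneg_left ((norm_sub_le _ _).trans ?_) hτ0.le
      refine add_le_add ((X3b_adj _ (hA.bdA b) vb).trans ?_) (hV.bdF b)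
      exact mul_le_mul_of_nonneg_left hvbR hB
    have hAba : ‖A b - A a‖ ≤ B * (τ * R1) :=
      (X3b_A hA a b).trans (mul_le_mul_of_nonneg_left hba hB)
    have hDv : κ₁ * ‖vb - va‖ ≤ τ * (2 * B * R1 + B) := by
      refine (hK.antilip va vb).trans ?_
      have e : D vb - D va = (D vb + A b - (D va + A a)) - (A b - A a) := by abel
      rw [e]
      refine (norm_sub_le _ _).trans ?_
      linarith
    have hvv : ‖vb - va‖ ≤ τ * ((2 * B * R1 + B) / κ₁) := by
      rw [← mul_div_assoc, le_div_iff₀ hκ₁, mul_comm]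
      exact hDv
    have hfield : field A A' F D' (z i) =
        (va, ContinuousLinearMap.adjoint (A' a) va - F a) := by
      rw [hz0]
      unfold field
      dsimp only
      rw [add_sub_cancel_right, hD2]
    have hfin : z (i + 1) - z i - τ • field A A' F D' (z i) =
        (0, τ • (ContinuousLinearMap.adjoint (A' b) (vb - va) +
          ContinuousLinearMap.adjoint (A' b - A' a) va - (F b - F a))) := by
      rw [hfield, hz1, hz0]
      refine Prod.ext ?_ ?_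
      · change b - a - τ • va = 0
        rw [hba', sub_self]
      · change D vb + A b - (D va + A a) -
          τ • (ContinuousLinearMap.adjoint (A' a) va - F a) = _
        rw [hEL', ← smul_sub]
        congr 1
        rw [map_sub ContinuousLinearMap.adjoint (A' b) (A' a)]
        rw [map_sub (ContinuousLinearMap.adjoint (A' b)) vb va]
        rw [sub_apply]
        abel
    rw [hfin, Prod.norm_mk, norm_zero]
    have hC0 : 0 ≤ (B * ((2 * B * R1 + B) / κ₁) + B * R1 * R1 + B * R1) * τ ^ 2 := by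
      positivity
    apply max_le hC0
    rw [norm_smul, Real.norm_of_nonneg hτ0.le]
    have g1 : ‖ContinuousLinearMap.adjoint (A' b) (vb - va)‖ ≤
        B * (τ * ((2 * B * R1 + B) / κ₁)) :=
      (X3b_adj _ (hA.bdA b) _).trans (mul_le_mul_of_nonneg_left hvv hB)
    have g2 : ‖ContinuousLinearMap.adjoint (A' b - A' a) va‖ ≤ B * (τ * R1) * R1 := by
      refine (X3b_adj _ ((hA.lip b a).trans (mul_le_mul_of_nonneg_left hba hB)) va).trans ?_
      exact mul_le_mul_of_nonneg_left hvaR (by positivity)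
    have g3 : ‖F b - F a‖ ≤ B * (τ * R1) :=
      (hV.lip b a).trans (mul_le_mul_of_nonneg_left hba hB)
    have g4 : ‖ContinuousLinearMap.adjoint (A' b) (vb - va) +
        ContinuousLinearMap.adjoint (A' b - A' a) va - (F b - F a)‖ ≤
        B * (τ * ((2 * B * R1 + B) / κ₁)) + B * (τ * R1) * R1 + B * (τ * R1) :=
      (norm_sub_le _ _).trans (add_le_add ((norm_add_le _ _).trans (add_le_add g1 g2)) g3)
    refine (mul_le_mul_of_nonneg_left g4 hτ0.le).trans (le_of_eq ?_)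
    ring

end Pool.Agent.H33.AM

end

section

/-!
# Module X4: periodic orbits

`per_orbit`: `D'` from `HK.inv`, `Y = field A A' F D'`, `φ` its flow (`field_loc`, `field_growth`,
`flow_of_growth`). For `N ≥ 1` let `x^N` be a discrete minimiser (`disc_exists`), `z^N_i` as in
`disc_euler`. By `euler` (with `τ = T/N`, `c = C τ²`) `‖φ (i τ) (z^N_0) - z^N_i‖ ≤ C' τ` for `i ≤ N`. Since
`z^N_N = z^N_0 + (zv k, 0)` (quasi-periodicity and `A` periodic) and `z^N_0` is bounded, a subsequence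
`z^N_0 → z*` satisfies `φ T z* = z* + (zv k, 0)`. The solution `γ(t) = (φ t z*).1`,
`v(t) = D' ((φ t z*).2 - A (γ t))` (`Sol_of_flow`) is `T`-periodic modulo `zv k` (uniqueness, `Y` is
periodic). Action: `|∫_0^T g(φ t z) dt - ∑ τ g(φ (i τ) z)| → 0` and `|g(φ (i τ) z^N_0) - g(z^N_i)| ≤ C'' τ` for
`g(z) = lag K A V z.1 (D' (z.2 - A z.1))` (Lipschitz on bounded sets, resp. uniformly continuous), so
`∫_0^T g(φ t z*) dt = lim Sd(x^N) ≤ ∫ lag(x, u) + ε` by `disc_of_curve`, for every `ε > 0`.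
-/

set_option autoImplicit false

open MeasureTheory
open scoped RealInnerProductSpace

namespace Pool.Agent.H33.AM

variable {n : ℕ} {K V : EuclideanSpace ℝ (Fin n) → ℝ}
  {D F A : EuclideanSpace ℝ (Fin n) → EuclideanSpace ℝ (Fin n)}
  {A' : EuclideanSpace ℝ (Fin n) → EuclideanSpace ℝ (Fin n) →L[ℝ] EuclideanSpace ℝ (Fin n)}
  {κ₁ κ₂ B T : ℝ}

section riem

variable {W : Type*} [NormedAddCommGroup W] [ProperSpace W]

private lemma riemann_sum {g : W → ℝ} (hg : Continuous g) {φ : ℝ → W → W}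
    (hφ : Continuous fun p : ℝ × W => φ p.1 p.2) {T R C : ℝ} (hT : 0 < T) {zs : W}
    (hzs : ‖zs‖ ≤ R) {ε : ℝ} (hε : 0 < ε) :
    ∃ δ > 0, ∀ (N : ℕ) (z : ℕ → W), 0 < N → T / N < δ → ‖z 0 - zs‖ < δ → (∀ i ≤ N, ‖z i‖ ≤ R) →
      (∀ i ≤ N, ‖φ (i * (T / N)) (z 0) - z i‖ ≤ C * (T / N)) →
      |(∫ t in (0 : ℝ)..T, g (φ t zs)) - ∑ i ∈ Finset.range N, (T / N) * g (z i)| ≤ ε := by
  set Φ : ℝ × W → W := fun p => φ p.1 p.2 with hΦ
  set K1 : Set (ℝ × W) := Set.Icc 0 T ×ˢ Metric.closedBall 0 R with hK1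
  have hK1c : IsCompact K1 := isCompact_Icc.prod (isCompact_closedBall 0 R)
  obtain ⟨R1, hR1⟩ := (hK1c.image hφ).isBounded.exists_norm_le
  set B1 : Set W := Metric.closedBall 0 (max R R1) with hB1
  have hB1c : IsCompact B1 := isCompact_closedBall 0 _
  have hgu : UniformContinuousOn g B1 := hB1c.uniformContinuousOn_of_continuous hg.continuousOn
  have hΦu : UniformContinuousOn Φ K1 := hK1c.uniformContinuousOn_of_continuous hφ.continuousOn
  rw [Metric.uniformContinuousOn_iff] at hgu hΦu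
  obtain ⟨δ1, hδ1, H1⟩ := hgu (ε / T) (by positivity)
  obtain ⟨δ2, hδ2, H2⟩ := hΦu (δ1 / 2) (by positivity)
  refine ⟨min δ2 (δ1 / (2 * (|C| + 1))), lt_min hδ2 (by positivity), ?_⟩
  intro N z hN hτ hz0 hzR hzφ
  have hN' : (0:ℝ) < N := by exact_mod_cast hN
  set τ := T / N with hτd
  have hτ0 : 0 < τ := by positivity
  have hNτ : N * τ = T := by rw [hτd]; field_simp
  have t1 : τ < δ2 := hτ.trans_le (min_le_left _ _)
  have t2 : τ < δ1 / (2 * (|C| + 1)) := hτ.trans_le (min_le_right _ _)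
  have t3 : C * τ ≤ δ1 / 2 := by
    rw [lt_div_iff₀ (by positivity)] at t2
    nlinarith [le_abs_self C, abs_nonneg C]
  set a : ℕ → ℝ := fun i => i * τ with ha
  have hcont : Continuous fun t => g (φ t zs) :=
    hg.comp (hφ.comp (continuous_id.prodMk continuous_const))
  have hint : ∀ x y : ℝ, IntervalIntegrable (fun t => g (φ t zs)) volume x y :=
    fun x y => hcont.intervalIntegrable x y
  have hsum : ∑ i ∈ Finset.range N, ∫ t in a i..a (i + 1), g (φ t zs) =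
      ∫ t in (0 : ℝ)..T, g (φ t zs) := by
    rw [intervalIntegral.sum_integral_adjacent_intervals (fun i _ => hint _ _)]
    simp only [ha, Nat.cast_zero, zero_mul]
    rw [hNτ]
  rw [← hsum, ← Finset.sum_sub_distrib]
  have key : ∀ i ∈ Finset.range N,
      |(∫ t in a i..a (i + 1), g (φ t zs)) - τ * g (z i)| ≤ ε / T * τ := by
    intro i hi
    rw [Finset.mem_range] at hi
    have hi' : (i:ℝ) + 1 ≤ N := by exact_mod_cast hi
    have e1 : a (i + 1) - a i = τ := by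
      simp only [ha]
      push_cast
      ring
    have e0 : a i ≤ a (i + 1) := by linarith
    have e2 : (∫ t in a i..a (i + 1), g (φ t zs)) - τ * g (z i) =
        ∫ t in a i..a (i + 1), (g (φ t zs) - g (z i)) := by
      rw [intervalIntegral.integral_sub (hint _ _) (continuous_const.intervalIntegrable _ _),
        intervalIntegral.integral_const, e1, smul_eq_mul]
    rw [e2]
    have e3 := intervalIntegral.norm_integral_le_of_norm_le_const (a := a i) (b := a (i + 1))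
      (f := fun t => g (φ t zs) - g (z i)) (C := ε / T) ?_
    · rw [e1, abs_of_pos hτ0, Real.norm_eq_abs] at e3
      exact e3
    · intro t ht
      rw [Set.uIoc_of_le e0] at ht
      obtain ⟨ht1, ht2⟩ := ht
      have hai : 0 ≤ a i := by simp only [ha]; positivity
      have haT : a (i + 1) ≤ T := by
        rw [← hNτ]
        simp only [ha]
        push_cast
        exact mul_le_mul_of_nonneg_right hi' hτ0.le
      have m1 : (t, zs) ∈ K1 := by
        refine ⟨⟨by simp only; linarith, by simp only; linarith⟩, ?_⟩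
        rw [mem_closedBall_zero_iff]
        exact hzs
      have m2 : (a i, z 0) ∈ K1 := by
        refine ⟨⟨hai, by simp only; linarith⟩, ?_⟩
        rw [mem_closedBall_zero_iff]
        exact hzR 0 (Nat.zero_le _)
      have d1 : dist (t, zs) (a i, z 0) < δ2 := by
        rw [Prod.dist_eq, max_lt_iff]
        constructor
        · simp only
          rw [Real.dist_eq, abs_of_nonneg (by linarith)]
          linarith
        · simp only
          rw [dist_comm, dist_eq_norm]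
          exact hz0.trans_le (min_le_left _ _)
      have d2 := H2 _ m1 _ m2 d1
      have d3 : dist (φ (a i) (z 0)) (z i) ≤ C * τ := by
        rw [dist_eq_norm]
        exact hzφ i hi.le
      have d4 : dist (φ t zs) (z i) < δ1 := by
        calc dist (φ t zs) (z i) ≤ dist (φ t zs) (φ (a i) (z 0)) + dist (φ (a i) (z 0)) (z i) :=
              dist_triangle _ _ _
          _ < δ1 / 2 + δ1 / 2 := add_lt_add_of_lt_of_le d2 (d3.trans t3)
          _ = δ1 := by ring
      have m3 : φ t zs ∈ B1 := by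
        rw [hB1, mem_closedBall_zero_iff]
        exact (hR1 _ ⟨_, m1, rfl⟩).trans (le_max_right _ _)
      have m4 : z i ∈ B1 := by
        rw [hB1, mem_closedBall_zero_iff]
        exact (hzR i hi.le).trans (le_max_left _ _)
      have d5 := H1 _ m3 _ m4 d4
      rw [← dist_eq_norm]
      exact d5.le
  calc |∑ i ∈ Finset.range N, ((∫ t in a i..a (i + 1), g (φ t zs)) - τ * g (z i))|
      ≤ ∑ i ∈ Finset.range N, |(∫ t in a i..a (i + 1), g (φ t zs)) - τ * g (z i)| :=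
        Finset.abs_sum_le_sum_abs _ _
    _ ≤ ∑ i ∈ Finset.range N, ε / T * τ := Finset.sum_le_sum key
    _ = ε := by
        rw [Finset.sum_const, Finset.card_range, nsmul_eq_mul, ← hNτ]
        field_simp

end riem

private lemma HV.perF (hV : HV V F B) (x : EuclideanSpace ℝ (Fin n)) (k : Fin n → ℤ) :
    F (x + zv k) = F x := by
  have h1 := hV.der (x + zv k)
  have h2 : HasGradientAt V (F (x + zv k)) x := by
    have h3 := h1.hasFDerivAt
    have h4 : HasFDerivAt (fun y : EuclideanSpace ℝ (Fin n) => y + zv k)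
      (ContinuousLinearMap.id ℝ _) x := (hasFDerivAt_id x).add_const _
    have h5 := h3.comp x h4
    rw [ContinuousLinearMap.comp_id] at h5
    have h6 : V ∘ (fun y => y + zv k) = V := by
      funext y
      exact hV.per y k
    rw [h6] at h5
    exact h5
  exact h2.unique (hV.der x)

private lemma HA.perA (hA : HA A A' B) (x : EuclideanSpace ℝ (Fin n)) (k : Fin n → ℤ) :
    A' (x + zv k) = A' x := by
  have h3 := hA.der (x + zv k)
  have h4 : HasFDerivAt (fun y : EuclideanSpace ℝ (Fin n) => y + zv k)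
    (ContinuousLinearMap.id ℝ _) x := (hasFDerivAt_id x).add_const _
  have h5 := h3.comp x h4
  rw [ContinuousLinearMap.comp_id] at h5
  have h6 : A ∘ (fun y => y + zv k) = A := by
    funext y
    exact hA.per y k
  rw [h6] at h5
  exact h5.unique (hA.der x)

theorem per_orbit (hK : HK K D κ₁ κ₂) (hA : HA A A' B) (hV : HV V F B) (hT : 0 < T)
    {x u : ℝ → EuclideanSpace ℝ (Fin n)} (h : Adm 0 T x u) {k : Fin n → ℤ}
    (hx : x T = x 0 + zv k) :
    ∃ γ v : ℝ → EuclideanSpace ℝ (Fin n), Sol D F A A' γ v ∧ (∀ t, γ (t + T) = γ t + zv k) ∧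
      (∀ t, v (t + T) = v t) ∧
      ∫ t in (0 : ℝ)..T, lag K A V (γ t) (v t) ≤ ∫ t in (0 : ℝ)..T, lag K A V (x t) (u t) := by
  obtain ⟨D', hD1, hD2, hD⟩ := hK.inv
  have hκ := hK.pos
  set Y := field A A' F D' with hY
  obtain ⟨Cg, hgr⟩ := field_growth hκ hA hV hD
  have hloc := field_loc hκ hA hV hD
  obtain ⟨φ, hφ⟩ := flow_of_growth hloc hgr
  -- discrete minimisers
  have hex : ∀ N : ℕ, ∃ x : ℤ → EuclideanSpace ℝ (Fin n), IsDM K A V T (N + 1) k x ∧
      ∀ j, x 0 j ∈ Set.Icc (0 : ℝ) 1 := fun N => disc_exists hK hA hV hT (Nat.succ_pos N) k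
  choose X hX hX0 using hex
  set Z : ℕ → ℕ → EuclideanSpace ℝ (Fin n) × EuclideanSpace ℝ (Fin n) := fun N i =>
    (X N i, D ((1 / (T / ((N + 1 : ℕ) : ℝ))) • (X N (i + 1) - X N i)) + A (X N i)) with hZ
  obtain ⟨R, C, hRC⟩ := disc_euler hK hA hV hD1 hD2 hD hT k
  have hR : ∀ N, ∀ i ≤ N + 1, ‖Z N i‖ ≤ R := fun N =>
    (hRC (N + 1) (X N) (Nat.succ_pos N) (hX N) (hX0 N) (Z N) (fun i => rfl)).1
  have hC : ∀ N, ∀ i < N + 1, ‖Z N (i + 1) - Z N i - (T / ((N + 1 : ℕ) : ℝ)) • Y (Z N i)‖ ≤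
      C * (T / ((N + 1 : ℕ) : ℝ)) ^ 2 := fun N =>
    (hRC (N + 1) (X N) (Nat.succ_pos N) (hX N) (hX0 N) (Z N) (fun i => rfl)).2
  obtain ⟨C₂, hC₂⟩ := euler hloc hgr hφ R T
  have hE : ∀ N i : ℕ, i ≤ N + 1 → ‖φ ((i : ℝ) * (T / ((N + 1 : ℕ) : ℝ))) (Z N 0) - Z N i‖ ≤
      (C₂ * (1 + |C|)) * (T / ((N + 1 : ℕ) : ℝ)) := by
    intro N i hi
    have hN' : (0:ℝ) < ((N + 1 : ℕ) : ℝ) := by positivity
    have hτ : 0 < T / ((N + 1 : ℕ) : ℝ) := by positivity
    have h := hC₂ (T / ((N + 1 : ℕ) : ℝ)) (|C| * (T / ((N + 1 : ℕ) : ℝ)) ^ 2) (N + 1) hτ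
      (by positivity) (by rw [mul_div_cancel₀ _ hN'.ne']) (Z N) (hR N) ?_ i hi
    · refine h.trans (le_of_eq ?_)
      field_simp
    · intro i hi
      exact (hC N i hi).trans (mul_le_mul_of_nonneg_right (le_abs_self C) (by positivity))
  -- subsequence
  have hcb : ∀ N, Z N 0 ∈ Metric.closedBall
      (0 : EuclideanSpace ℝ (Fin n) × EuclideanSpace ℝ (Fin n)) R := by
    intro N
    rw [mem_closedBall_zero_iff]
    exact hR N 0 (Nat.zero_le _)
  obtain ⟨zs, hzs, ψ, hψ, hlim⟩ := (isCompact_closedBall _ R).tendsto_subseq hcb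
  rw [mem_closedBall_zero_iff] at hzs
  have hτlim : Filter.Tendsto (fun m : ℕ => T / ((ψ m + 1 : ℕ) : ℝ)) Filter.atTop (nhds 0) := by
    have h1 : Filter.Tendsto (fun m : ℕ => T / ((m + 1 : ℕ) : ℝ)) Filter.atTop (nhds 0) :=
      (tendsto_const_div_atTop_nhds_zero_nat T).comp (Filter.tendsto_add_atTop_nat 1)
    exact h1.comp hψ.tendsto_atTop
  -- end point
  have hend : ∀ N, Z N (N + 1) = Z N 0 + (zv k, 0) := by
    intro N
    have h0 := (hX N).1 0
    have h1 := (hX N).1 1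
    rw [zero_add] at h0
    have e1 : ((N + 1 : ℕ) : ℤ) + 1 = 1 + ((N + 1 : ℕ) : ℤ) := by ring
    simp only [hZ]
    rw [e1, h1, h0]
    have e2 : (1 : ℤ) = ((0 : ℕ) : ℤ) + 1 := by simp
    apply Prod.ext
    · simp
    · simp only [Nat.cast_zero, zero_add, Prod.snd_add, add_zero, add_sub_add_right_eq_sub]
      rw [hA.per]
  have hperz : φ T zs = zs + (zv k, 0) := by
    have l1 : Filter.Tendsto (fun m => φ T (Z (ψ m) 0)) Filter.atTop (nhds (φ T zs)) := by
      have : Continuous fun z => φ T z := hφ.cont.comp (continuous_const.prodMk continuous_id)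
      exact (this.tendsto zs).comp hlim
    have l2 : Filter.Tendsto (fun m => Z (ψ m) 0 + (zv k, 0)) Filter.atTop
        (nhds (zs + (zv k, 0))) := hlim.add_const _
    have l3 : Filter.Tendsto (fun m => φ T (Z (ψ m) 0) - (Z (ψ m) 0 + (zv k, 0))) Filter.atTop
        (nhds 0) := by
      rw [tendsto_zero_iff_norm_tendsto_zero]
      have l4 := hτlim.const_mul (C₂ * (1 + |C|))
      rw [mul_zero] at l4
      refine squeeze_zero (fun m => norm_nonneg _) (fun m => ?_) l4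
      have h := hE (ψ m) (ψ m + 1) le_rfl
      have hN' : (0:ℝ) < ((ψ m + 1 : ℕ) : ℝ) := by positivity
      rw [mul_div_cancel₀ _ hN'.ne', hend] at h
      exact h
    have l5 := l1.sub l2
    have l6 := tendsto_nhds_unique l5 l3
    exact sub_eq_zero.mp l6
  have hYper : ∀ z, Y (z + (zv k, 0)) = Y z := by
    intro z
    simp only [hY, field, Prod.fst_add, Prod.snd_add, add_zero]
    rw [hA.per, hA.perA, hV.perF]
  have hper : ∀ t, φ (t + T) zs = φ t zs + (zv k, 0) := by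
    intro t
    have h1 := hφ.uniq (fun s => φ s zs) (fun s => hφ.der zs s) t T
    have h2 := hφ.uniq (fun s => φ s zs + (zv k, 0)) (fun s => by
      have := (hφ.der zs s).add_const ((zv k, 0) :
        EuclideanSpace ℝ (Fin n) × EuclideanSpace ℝ (Fin n))
      have e := hYper (φ s zs)
      rw [hY] at e
      rw [e]
      exact this) t 0
    simp only [add_zero] at h2
    rw [hφ.zero, ← hperz] at h2
    rw [h1, ← h2]
  refine ⟨fun t => (φ t zs).1, fun t => D' ((φ t zs).2 - A (φ t zs).1),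
    Sol_of_flow hκ hA hD1 hD (fun t => hφ.der zs t), ?_, ?_, ?_⟩
  · intro t
    simp only [hper, Prod.fst_add]
  · intro t
    simp only [hper, Prod.fst_add, Prod.snd_add, add_zero]
    rw [hA.per]
  · -- action
    set g : EuclideanSpace ℝ (Fin n) × EuclideanSpace ℝ (Fin n) → ℝ := fun z =>
      lag K A V z.1 (D' (z.2 - A z.1)) with hg
    have cD' : Continuous D' := by
      have : LipschitzWith (Real.toNNReal (1 / κ₁)) D' := by
        apply LipschitzWith.of_dist_le_mul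
        intro p q
        rw [dist_eq_norm, dist_eq_norm, Real.coe_toNNReal _ (by positivity), one_div,
          inv_mul_eq_div, le_div_iff₀ hκ, mul_comm]
        exact hD p q
      exact this.continuous
    have cK : Continuous K :=
      continuous_iff_continuousAt.mpr fun v => (hK.grad v).continuousAt
    have cV : Continuous V :=
      continuous_iff_continuousAt.mpr fun v => (hV.der v).continuousAt
    have cA : Continuous A :=
      continuous_iff_continuousAt.mpr fun v => (hA.der v).continuousAt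
    have cg : Continuous g := by
      simp only [hg, lag]
      have c1 : Continuous fun z : EuclideanSpace ℝ (Fin n) × EuclideanSpace ℝ (Fin n) =>
        D' (z.2 - A z.1) := cD'.comp (continuous_snd.sub (cA.comp continuous_fst))
      exact ((cK.comp c1).add ((cA.comp continuous_fst).inner c1)).sub (cV.comp continuous_fst)
    have hSd : ∀ N, Sd K A V (T / ((N + 1 : ℕ) : ℝ)) (N + 1) (X N) =
        ∑ i ∈ Finset.range (N + 1), (T / ((N + 1 : ℕ) : ℝ)) * g (Z N i) := by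
      intro N
      unfold Sd
      apply Finset.sum_congr rfl
      intro i _
      simp only [hg, hZ]
      rw [add_sub_cancel_right, hD2]
    apply le_of_forall_pos_le_add
    intro ε hε
    obtain ⟨δ, hδ, hδ'⟩ := riemann_sum cg hφ.cont (C := C₂ * (1 + |C|)) hT hzs (half_pos hε)
    obtain ⟨N₀, hN₀⟩ := disc_of_curve hK hA hV hT h hx (half_pos hε)
    have ev1 : ∀ᶠ m in Filter.atTop, T / ((ψ m + 1 : ℕ) : ℝ) < δ :=
      (tendsto_order.mp hτlim).2 δ hδ
    have ev2 : ∀ᶠ m in Filter.atTop, ‖Z (ψ m) 0 - zs‖ < δ := by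
      have := Metric.tendsto_atTop.mp hlim δ hδ
      obtain ⟨M, hM⟩ := this
      refine Filter.eventually_atTop.mpr ⟨M, fun m hm => ?_⟩
      have := hM m hm
      rw [dist_eq_norm] at this
      exact this
    have ev3 : ∀ᶠ m in Filter.atTop, N₀ ≤ ψ m + 1 := by
      refine Filter.eventually_atTop.mpr ⟨N₀, fun m hm => ?_⟩
      have := hψ.id_le m
      simp only [id] at this
      omega
    obtain ⟨m, hm1, hm2, hm3⟩ := (ev1.and (ev2.and ev3)).exists
    have s1 := hδ' (ψ m + 1) (Z (ψ m)) (Nat.succ_pos _) hm1 hm2 (hR (ψ m)) (hE (ψ m))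
    obtain ⟨y, hy, hy'⟩ := hN₀ (ψ m + 1) hm3
    have s2 := (hX (ψ m)).2 y hy
    rw [hSd] at s2
    have s3 := (abs_le.mp s1).2
    have s4 : (∫ t in (0 : ℝ)..T, lag K A V (φ t zs).1 (D' ((φ t zs).2 - A (φ t zs).1))) =
      ∫ t in (0 : ℝ)..T, g (φ t zs) := rfl
    rw [s4]
    linarith

end Pool.Agent.H33.AM

end

section

/-!
# Module I3: a flat of the action functional is a flat of the alpha function

Let `c_η = c₀ + η k₀`. For every `η ∈ [η₁, η₂]`: `actionValues` at `c_η` is bounded below by `-E₀`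
(`actionValues_ge`). Let `E' < E₀`; the closed curve with `∫ (L - ⟪c₀, u⟫ + E') < 0`, of period `T`, closed
modulo `k` with `dot k₀ k = 0`, gives by `per_orbit` a periodic orbit `(γ, v)` with
`∫ L(γ, v) ≤ ∫ L(x, u)`, and `∫ ⟪c_η, v⟫ = ⟪c_η, zv k⟫ = ⟪c₀, zv k⟫ = ∫ ⟪c₀, u⟫`, so the value
`(1/T) ∫ (L(γ, v) - ⟪c_η, v⟫) < -E'` belongs to `actionValues` at `c_η` (`mem_actionValues`). So
`alpha L c_η = E₀` for all `η ∈ [η₁, η₂]`, and `alpha` is not strictly convex (`k₀ ≠ 0`).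
-/

set_option autoImplicit false

open MeasureTheory
open scoped RealInnerProductSpace

namespace Pool.Agent.H33.AM

variable {n : ℕ} {K V : EuclideanSpace ℝ (Fin n) → ℝ}
  {D F A : EuclideanSpace ℝ (Fin n) → EuclideanSpace ℝ (Fin n)}
  {A' : EuclideanSpace ℝ (Fin n) → EuclideanSpace ℝ (Fin n) →L[ℝ] EuclideanSpace ℝ (Fin n)}
  {κ₁ κ₂ B : ℝ}

private theorem lag_cont (hK : HK K D κ₁ κ₂) (hA : HA A A' B) (hV : HV V F B) :
    Continuous fun p : EuclideanSpace ℝ (Fin n) × EuclideanSpace ℝ (Fin n) =>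
      lag K A V p.1 p.2 := by
  have h1 : Continuous K := continuous_iff_continuousAt.2 fun x => (hK.grad x).continuousAt
  have h2 : Continuous V := continuous_iff_continuousAt.2 fun x => (hV.der x).continuousAt
  have h3 : Continuous A := continuous_iff_continuousAt.2 fun x => (hA.der x).continuousAt
  unfold lag
  fun_prop

theorem alpha_flat (hK : HK K D κ₁ κ₂) (hA : HA A A' B) (hV : HV V F B)
    (h : Flat (lag K A V)) : ∃ (k₀ : Fin n → ℤ) (c₀ : EuclideanSpace ℝ (Fin n)) (E₀ η₁ η₂ : ℝ),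
      k₀ ≠ 0 ∧ η₁ < η₂ ∧ ∀ η ∈ Set.Icc η₁ η₂,
        alpha (fun x v _ => lag K A V x v) (c₀ + η • zv k₀) = E₀ := by
  obtain ⟨k₀, c₀, E₀, η₁, η₂, C, hk, hη, hlow, hup⟩ := h
  refine ⟨k₀, c₀, E₀, η₁, η₂, hk, hη, fun η hη' => ?_⟩
  have hlo : ∀ a ∈ actionValues (fun x v _ => lag K A V x v) (c₀ + η • zv k₀), -E₀ ≤ a :=
    fun a ha => actionValues_ge hK hA hV (hlow η hη') ha
  have hhi : ∀ E' < E₀, ∃ a ∈ actionValues (fun x v _ => lag K A V x v) (c₀ + η • zv k₀),
      a < -E' := by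
    intro E' hE'
    obtain ⟨T, x, u, k, hT, hx, hxT, hk0, hneg⟩ := hup E' hE'
    obtain ⟨γ, v, hsol, hγ, hv, hle⟩ := per_orbit hK hA hV hT hx hxT
    refine ⟨_, mem_actionValues hK hA hV hT hsol hγ hv (c₀ + η • zv k₀), ?_⟩
    have hc := lag_cont hK hA hV
    have hγc : Continuous γ := continuous_iff_continuousAt.2 fun t => (hsol.der t).continuousAt
    have hvc := hsol.cont
    have hLc : Continuous fun t => lag K A V (γ t) (v t) := hc.comp (hγc.prodMk hvc)
    have h1 : ∫ t in (0 : ℝ)..T, ⟪c₀ + η • zv k₀, v t⟫ = ⟪c₀, zv k⟫ := by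
      have h2 : ∫ t in (0 : ℝ)..T, ⟪c₀ + η • zv k₀, v t⟫ =
          ⟪c₀ + η • zv k₀, γ T⟫ - ⟪c₀ + η • zv k₀, γ 0⟫ := by
        apply intervalIntegral.integral_eq_sub_of_hasDerivAt
        · intro t _
          exact ((innerSL ℝ (c₀ + η • zv k₀)).hasFDerivAt.comp_hasDerivAt t (hsol.der t))
        · exact (continuous_const.inner hvc).intervalIntegrable _ _
      have h3 : γ T = γ 0 + zv k := by
        have := hγ 0
        rwa [zero_add] at this
      rw [h2, h3, inner_add_right, inner_add_left, inner_add_left, inner_smul_left,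
        inner_smul_left, inner_zv, hk0]
      simp
    have h4 : ∫ t in (0 : ℝ)..T, (lag K A V (γ t) (v t) - ⟪c₀ + η • zv k₀, v t⟫) =
        (∫ t in (0 : ℝ)..T, lag K A V (γ t) (v t)) - ⟪c₀, zv k⟫ := by
      rw [intervalIntegral.integral_sub (hLc.intervalIntegrable _ _)
        ((continuous_const.inner hvc).intervalIntegrable _ _), h1]
    have h5 : ∫ t in (0 : ℝ)..T, (lag K A V (x t) (u t) - ⟪c₀, u t⟫ + E') =
        (∫ t in (0 : ℝ)..T, lag K A V (x t) (u t)) - ⟪c₀, zv k⟫ + E' * T := by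
      have h6 : IntervalIntegrable (fun t => lag K A V (x t) (u t)) volume 0 T :=
        hx.integrable hc
      have h7 : IntervalIntegrable (fun t => ⟪c₀, u t⟫) volume 0 T :=
        hx.integrable (g := fun p => ⟪c₀, p.2⟫) (by fun_prop)
      rw [intervalIntegral.integral_add (h6.sub h7) (by simp),
        intervalIntegral.integral_sub h6 h7, hx.integral_inner, hxT, inner_add_right]
      simp [mul_comm]
    rw [h5] at hneg
    rw [h4, one_div, inv_mul_lt_iff₀ hT]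
    nlinarith
  have h1 : sInf (actionValues (fun x v _ => lag K A V x v) (c₀ + η • zv k₀)) = -E₀ := by
    apply le_antisymm
    · apply le_of_forall_pos_le_add
      intro ε hε
      obtain ⟨a, ha, ha'⟩ := hhi (E₀ - ε) (by linarith)
      have := csInf_le ⟨-E₀, fun b hb => hlo b hb⟩ ha
      linarith
    · obtain ⟨a, ha, -⟩ := hhi (E₀ - 1) (by linarith)
      exact le_csInf ⟨a, ha⟩ hlo
  unfold alpha
  rw [h1, neg_neg]

theorem not_strict_of_flat (hK : HK K D κ₁ κ₂) (hA : HA A A' B) (hV : HV V F B)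
    (h : Flat (lag K A V)) :
    ¬ StrictConvexOn ℝ Set.univ (alpha (fun x v _ => lag K A V x v)) := by
  obtain ⟨k₀, c₀, E₀, η₁, η₂, hk, hη, hα⟩ := alpha_flat hK hA hV h
  intro hs
  have hk' : zv k₀ ≠ 0 := by
    intro h0
    apply hk
    funext i
    have := congrArg (fun y : EuclideanSpace ℝ (Fin n) => y i) h0
    simpa [zv] using this
  have hne : c₀ + η₁ • zv k₀ ≠ c₀ + η₂ • zv k₀ := by
    intro h1
    have h2 : η₁ • zv k₀ = η₂ • zv k₀ := add_left_cancel h1
    have h3 : (η₁ - η₂) • zv k₀ = 0 := by rw [sub_smul, h2, sub_self]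
    rcases smul_eq_zero.1 h3 with h4 | h4
    · linarith
    · exact hk' h4
  have h1 := hs.2 (Set.mem_univ (c₀ + η₁ • zv k₀)) (Set.mem_univ (c₀ + η₂ • zv k₀)) hne
    (show (0 : ℝ) < 1 / 2 by norm_num) (show (0 : ℝ) < 1 / 2 by norm_num) (by norm_num)
  have h2 : (1 / 2 : ℝ) • (c₀ + η₁ • zv k₀) + (1 / 2 : ℝ) • (c₀ + η₂ • zv k₀) =
      c₀ + ((η₁ + η₂) / 2) • zv k₀ := by
    module
  rw [h2, hα _ ⟨by linarith, by linarith⟩, hα _ ⟨le_rfl, hη.le⟩, hα _ ⟨hη.le, le_rfl⟩] at h1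
  simp only [smul_eq_mul] at h1
  linarith

end Pool.Agent.H33.AM

end

section

/-!
# Module Z1: final assembly

* `HK_of`, `HV_of`, `HA_of`: the structures from `C²` hypotheses (periodic continuous functions are
  bounded; a `C²` periodic function has a bounded second derivative, so its gradient is Lipschitz).
-/

set_option autoImplicit false

open MeasureTheory
open scoped RealInnerProductSpace

namespace Pool.Agent.H33.AM

variable {n : ℕ}

theorem main (K : E n → ℝ) (A : E n → E n) (V : E n → ℝ) {κ₁ κ₂ : ℝ}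
    (hK : HK K (gradient K) κ₁ κ₂) (hA : ContDiff ℝ 2 A) (hV : ContDiff ℝ 2 V)
    (hAper : ∀ x y, pr x = pr y → A x = A y) (hVper : ∀ x y, pr x = pr y → V x = V y)
    (hα : StrictConvexOn ℝ Set.univ (alpha fun x v _ => K v + ⟪A x, v⟫ - V x)) :
    (∀ x y, V x = V y) ∧ (∀ x v w, ⟪fderiv ℝ A x v, w⟫ = ⟪fderiv ℝ A x w, v⟫) ∧
      ∀ c, aubry (fun x v _ => K v + ⟪A x, v⟫ - V x) c = Set.univ := by
  obtain ⟨B₁, hB₁⟩ := HV_of hV hVper
  obtain ⟨B₂, hB₂⟩ := HA_of hA hAper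
  have hV' := hB₁ (max B₁ B₂) (le_max_left _ _)
  have hA' := hB₂ (max B₁ B₂) (le_max_right _ _)
  have hα' : StrictConvexOn ℝ Set.univ (alpha fun x v _ => lag K A V x v) := hα
  have hs : ∀ x v w, ⟪fderiv ℝ A x v, w⟫ = ⟪fderiv ℝ A x w, v⟫ := by
    by_contra hns
    push Not at hns
    exact not_strict_of_flat hK hA' hV' (flat_magnetic hK hA' hV' hns) hα'
  have hVc : ∀ x y, V x = V y := by
    by_contra hns
    push Not at hns
    exact not_strict_of_flat hK hA' hV' (flat_potential hK hA' hV' hs hns) hα'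
  refine ⟨hVc, hs, fun c => ?_⟩
  obtain ⟨a₀, f, hf, hfper, C, hfb⟩ := exists_grad hA' hs
  obtain ⟨D', hD1, -, -⟩ := hK.inv
  have hα₀ := alpha_int (V₀ := V 0) hK hA' hV' hs hf hfper hfb (fun x => hVc x 0)
    (hD1 (c - a₀))
  have hp := fun x => peierls_int (V₀ := V 0) hK hA' hV' hf hfper hfb (fun x => hVc x 0)
    (hD1 (c - a₀)) hα₀ x
  exact Set.eq_univ_of_forall fun x => hp x

end Pool.Agent.H33.AM

end

section



end
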