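import Mathlib

/-! The parts of this file: H33.AN.Basic, H33.AN.P.G1, H33.AN.P.G4a. -/

section

/-!
# Project AUB2: definitions for one and a half degrees of freedom
-/

set_option autoImplicit false

open MeasureTheory
open scoped RealInnerProductSpace

namespace Pool.Agent.H33.AN

/-- Hypotheses on a potential `W(x, t)`, 1-periodic in `x` and `Tp`-periodic in `t`, with the partial
derivatives `W₁`, `W₂`. -/
structure HW (Tp : ℝ) (W W₁ W₂ : ℝ → ℝ → ℝ) (B : ℝ) : Prop where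
  nonneg : 0 ≤ B
  der : ∀ x t, HasFDerivAt (fun z : ℝ × ℝ => W z.1 z.2)
    (W₁ x t • ContinuousLinearMap.fst ℝ ℝ ℝ + W₂ x t • ContinuousLinearMap.snd ℝ ℝ ℝ) (x, t)
  cont₂ : Continuous fun z : ℝ × ℝ => W₂ z.1 z.2
  per₁ : ∀ x t, W (x + 1) t = W x t
  per₂ : ∀ x t, W x (t + Tp) = W x t
  bd : ∀ x t, |W x t| ≤ B
  bd₁ : ∀ x t, |W₁ x t| ≤ B
  bd₂ : ∀ x t, |W₂ x t| ≤ B
  lip : ∀ x t x' t', |W₁ x t - W₁ x' t'| ≤ B * (|x - x'| + |t - t'|)

/-- `x` is a curve on `[a, b]` with the velocity `u`. -/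
structure Cur (a b : ℝ) (x u : ℝ → ℝ) : Prop where
  le : a ≤ b
  cont : ContinuousOn x (Set.Icc a b)
  der : ∃ s : Set ℝ, s.Countable ∧ ∀ t ∈ Set.Ioo a b \ s, HasDerivAt x (u t) t
  meas : Measurable u
  bd : ∃ R : ℝ, ∀ t, |u t| ≤ R

/-- The action with respect to `u² / 2 - W(x, t)`. -/
noncomputable def A1 (W : ℝ → ℝ → ℝ) (a b : ℝ) (x u : ℝ → ℝ) : ℝ :=
  ∫ t in a..b, (u t ^ 2 / 2 - W (x t) t)

/-- Solutions of `x'' = - W₁(x, t)`. -/
structure Ext (W₁ : ℝ → ℝ → ℝ) (γ v : ℝ → ℝ) : Prop where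
  der : ∀ t, HasDerivAt γ (v t) t
  el : ∀ t, HasDerivAt v (-W₁ (γ t) t) t

/-- The minimal action of the curves from `(x, s)` to `(y, t)`. -/
noncomputable def Dm (W : ℝ → ℝ → ℝ) (s t x y : ℝ) : ℝ :=
  sInf {r | ∃ ξ u : ℝ → ℝ, Cur s t ξ u ∧ ξ s = x ∧ ξ t = y ∧ A1 W s t ξ u = r}

/-- The minimal action of the closed curves of type `(p, Q)`. -/
noncomputable def EpQ (W : ℝ → ℝ → ℝ) (p : ℤ) (Q : ℕ) : ℝ :=
  sInf (Set.range fun x : ℝ => Dm W 0 Q x (x + p))

/-- Minimising closed orbits of type `(p, Q)`. -/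
structure Leaf (W W₁ : ℝ → ℝ → ℝ) (p : ℤ) (Q : ℕ) (γ v : ℝ → ℝ) : Prop where
  ext : Ext W₁ γ v
  per : ∀ t, γ (t + Q) = γ t + p
  vper : ∀ t, v (t + Q) = v t
  act : ∀ s, A1 W s (s + Q) γ v = EpQ W p Q

/-- The potential `W` is foliated: every point lies on minimising closed orbits of all the types. -/
def Foliated (W : ℝ → ℝ → ℝ) : Prop :=
  ∀ (p : ℤ) (Q : ℕ), 0 < Q → ∀ s x, Dm W s (s + Q) x (x + p) = EpQ W p Q

/-- The invariant graph `v(x, t)` of the minimising closed orbits of type `(p, Q)`, with the solution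
`c x + u(x, t)` of the Hamilton-Jacobi equation, at the level `α`. -/
structure Kam (W W₁ : ℝ → ℝ → ℝ) (p : ℤ) (Q : ℕ) (c α : ℝ) (u v : ℝ → ℝ → ℝ) (Λ : ℝ) : Prop where
  fder : ∀ x t, HasFDerivAt (fun z : ℝ × ℝ => u z.1 z.2)
    ((v x t - c) • ContinuousLinearMap.fst ℝ ℝ ℝ +
      (α - v x t ^ 2 / 2 - W x t) • ContinuousLinearMap.snd ℝ ℝ ℝ) (x, t)
  per₁ : ∀ x t, u (x + 1) t = u x t
  per₂ : ∀ x t, u x (t + 1) = u x t
  vper₁ : ∀ x t, v (x + 1) t = v x t
  vper₂ : ∀ x t, v x (t + 1) = v x t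
  vbd : ∀ x t, |v x t| ≤ Λ
  lip : ∀ x t x' t', |v x t - v x' t'| ≤ Λ * (|x - x'| + |t - t'|)
  leaf : ∀ x t, ∃ γ ν : ℝ → ℝ, Leaf W W₁ p Q γ ν ∧ γ t = x ∧ ∀ s, ν s = v (γ s) s
  alpha : α = c * ((p : ℝ) / Q) - EpQ W p Q / Q
  crit : ∀ (p' : ℤ) (Q' : ℕ), 0 < Q' →
    EpQ W p Q / Q + c * ((p' : ℝ) / Q' - (p : ℝ) / Q) ≤ EpQ W p' Q' / Q'

end Pool.Agent.H33.AN

end

section

/-!
# Module G1: curves on the line: integrability, calculus, operations

The same statements for curves in `ℝⁿ` are proved in `Pool/Agent/H33/AM/P/R2.lean`, copy from there.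
* `integral_deriv`: `t ↦ g (x t) t` is continuous, differentiable off a countable set, with the
  derivative `g₁ (x t) t * u t + g₂ (x t) t`, which is integrable.
* `concat`: glue at `b`.
* `of_ext`: `u t = v (min (max t a) b)`.
-/

set_option autoImplicit false

open MeasureTheory
open scoped RealInnerProductSpace

namespace Pool.Agent.H33.AN

theorem Cur.integrable {a b : ℝ} {x u : ℝ → ℝ} (h : Cur a b x u) {g : ℝ × ℝ × ℝ → ℝ}
    (hg : Continuous g) : IntervalIntegrable (fun t => g (x t, u t, t)) volume a b := by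
  obtain ⟨R, hR⟩ := h.bd
  rw [intervalIntegrable_iff_integrableOn_Icc_of_le h.le]
  have hxm : AEStronglyMeasurable x (volume.restrict (Set.Icc a b)) :=
    h.cont.aestronglyMeasurable measurableSet_Icc
  have hum : AEStronglyMeasurable u (volume.restrict (Set.Icc a b)) :=
    h.meas.aestronglyMeasurable
  have htm : AEStronglyMeasurable (fun t : ℝ => t) (volume.restrict (Set.Icc a b)) :=
    measurable_id.aestronglyMeasurable
  have hK : IsCompact ((x '' Set.Icc a b) ×ˢ ((Metric.closedBall (0 : ℝ) R) ×ˢ Set.Icc a b)) :=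
    (isCompact_Icc.image_of_continuousOn h.cont).prod
      ((isCompact_closedBall 0 R).prod isCompact_Icc)
  obtain ⟨C, hC⟩ := hK.exists_bound_of_continuousOn hg.continuousOn
  refine ⟨hg.comp_aestronglyMeasurable (hxm.prodMk (hum.prodMk htm)),
    HasFiniteIntegral.restrict_of_bounded (C := C) measure_Icc_lt_top ?_⟩
  refine (ae_restrict_iff' measurableSet_Icc).2 (Filter.Eventually.of_forall fun t ht => ?_)
  refine hC _ ⟨Set.mem_image_of_mem x ht, ?_, ht⟩
  simpa [Real.norm_eq_abs] using hR t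

theorem Cur.integral_deriv {a b : ℝ} {x u : ℝ → ℝ} (h : Cur a b x u) {g g₁ g₂ : ℝ → ℝ → ℝ}
    (hg : ∀ x t, HasFDerivAt (fun z : ℝ × ℝ => g z.1 z.2)
      (g₁ x t • ContinuousLinearMap.fst ℝ ℝ ℝ + g₂ x t • ContinuousLinearMap.snd ℝ ℝ ℝ) (x, t))
    (h₁ : Continuous fun z : ℝ × ℝ => g₁ z.1 z.2) (h₂ : Continuous fun z : ℝ × ℝ => g₂ z.1 z.2) :
    ∫ t in a..b, (g₁ (x t) t * u t + g₂ (x t) t) = g (x b) b - g (x a) a := by
  obtain ⟨s, hs, hd⟩ := h.der
  have hgc : Continuous fun z : ℝ × ℝ => g z.1 z.2 :=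
    continuous_iff_continuousAt.2 fun z => (hg z.1 z.2).continuousAt
  have hgi : Continuous fun p : ℝ × ℝ × ℝ => g₁ p.1 p.2.2 * p.2.1 + g₂ p.1 p.2.2 :=
    ((h₁.comp (continuous_fst.prodMk (continuous_snd.comp continuous_snd))).mul
      (continuous_fst.comp continuous_snd)).add
      (h₂.comp (continuous_fst.prodMk (continuous_snd.comp continuous_snd)))
  refine MeasureTheory.integral_eq_of_hasDerivAt_off_countable_of_le (fun t => g (x t) t)
    (fun t => g₁ (x t) t * u t + g₂ (x t) t) h.le hs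
    (hgc.comp_continuousOn (h.cont.prodMk continuousOn_id)) ?_ (h.integrable hgi)
  intro t ht
  have h1 : HasDerivAt (fun t => (x t, t)) (u t, (1 : ℝ)) t := (hd t ht).prodMk (hasDerivAt_id t)
  have h2 := HasFDerivAt.comp_hasDerivAt (f := fun t : ℝ => (x t, t)) t (hg (x t) t) h1
  have h3 : (g₁ (x t) t • ContinuousLinearMap.fst ℝ ℝ ℝ + g₂ (x t) t •
      ContinuousLinearMap.snd ℝ ℝ ℝ) (u t, (1 : ℝ)) = g₁ (x t) t * u t + g₂ (x t) t := by simp
  rw [h3] at h2
  exact h2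

theorem Cur.integral_vel {a b : ℝ} {x u : ℝ → ℝ} (h : Cur a b x u) :
    ∫ t in a..b, u t = x b - x a := by
  have h1 := h.integral_deriv (g := fun y _ => y) (g₁ := fun _ _ => 1) (g₂ := fun _ _ => 0)
    (fun y t => by
      have e : ((1 : ℝ) • ContinuousLinearMap.fst ℝ ℝ ℝ + (0 : ℝ) •
          ContinuousLinearMap.snd ℝ ℝ ℝ) = ContinuousLinearMap.fst ℝ ℝ ℝ := by
        rw [one_smul, zero_smul, add_zero]
      rw [e]
      exact hasFDerivAt_fst) continuous_const continuous_const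
  simpa using h1

theorem Cur.sub {a b a' b' : ℝ} {x u : ℝ → ℝ} (h : Cur a b x u)
    (ha : a ≤ a') (hab : a' ≤ b') (hb : b' ≤ b) : Cur a' b' x u := by
  obtain ⟨s, hs, hd⟩ := h.der
  refine ⟨hab, h.cont.mono (Set.Icc_subset_Icc ha hb), ⟨s, hs, fun t ht => hd t ?_⟩, h.meas, h.bd⟩
  exact ⟨⟨ha.trans_lt ht.1.1, ht.1.2.trans_le hb⟩, ht.2⟩

theorem Cur.shift {a b : ℝ} {x u : ℝ → ℝ} (h : Cur a b x u) (c : ℝ) :
    Cur (a + c) (b + c) (fun t => x (t - c)) fun t => u (t - c) := by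
  obtain ⟨s, hs, hd⟩ := h.der
  refine ⟨by linarith [h.le], ?_, ⟨(fun t => t - c) ⁻¹' s, ?_, fun t ht => ?_⟩,
    h.meas.comp (measurable_id.sub_const c), ?_⟩
  · refine h.cont.comp (by fun_prop) fun t ht => ?_
    exact ⟨by linarith [ht.1], by linarith [ht.2]⟩
  · exact hs.preimage (sub_left_injective)
  · have h1 := hd (t - c) ⟨⟨by linarith [ht.1.1], by linarith [ht.1.2]⟩, ht.2⟩
    exact h1.comp_sub_const t c
  · obtain ⟨R, hR⟩ := h.bd
    exact ⟨R, fun t => hR _⟩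

theorem Cur.add_lin {a b : ℝ} {x u : ℝ → ℝ} (h : Cur a b x u) (p q : ℝ) :
    Cur a b (fun t => x t + (p + q * t)) fun t => u t + q := by
  obtain ⟨s, hs, hd⟩ := h.der
  obtain ⟨R, hR⟩ := h.bd
  refine ⟨h.le, h.cont.add (by fun_prop), ⟨s, hs, fun t ht => ?_⟩, h.meas.add_const q,
    ⟨R + |q|, fun t => (abs_add_le _ _).trans (add_le_add (hR t) le_rfl)⟩⟩
  have h1 : HasDerivAt (fun t : ℝ => p + q * t) q t := by
    simpa using ((hasDerivAt_id t).const_mul q).const_add p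
  exact (hd t ht).add h1

theorem Cur.line {a b : ℝ} (hab : a ≤ b) (p q : ℝ) :
    Cur a b (fun t => p + q * t) fun _ => q := by
  refine ⟨hab, by fun_prop, ⟨∅, Set.countable_empty, fun t _ => ?_⟩, measurable_const,
    ⟨|q|, fun _ => le_rfl⟩⟩
  simpa using ((hasDerivAt_id t).const_mul q).const_add p

/-- Concatenation. -/
theorem Cur.concat {a b c : ℝ} {x u x' u' : ℝ → ℝ} (h : Cur a b x u)
    (h' : Cur b c x' u') (hx : x b = x' b) :
    ∃ x'' u'' : ℝ → ℝ, Cur a c x'' u'' ∧ (∀ t ≤ b, x'' t = x t ∧ u'' t = u t) ∧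
      ∀ t > b, x'' t = x' t ∧ u'' t = u' t := by
  classical
  obtain ⟨s, hs, hd⟩ := h.der
  obtain ⟨s', hs', hd'⟩ := h'.der
  obtain ⟨R, hR⟩ := h.bd
  obtain ⟨R', hR'⟩ := h'.bd
  refine ⟨fun t => if t ≤ b then x t else x' t, fun t => if t ≤ b then u t else u' t,
    ⟨h.le.trans h'.le, ?_, ⟨s ∪ (s' ∪ {b}), ?_, ?_⟩, ?_, ?_⟩, ?_, ?_⟩
  · refine ContinuousOn.if' ?_ ?_ ?_ ?_
    · intro t ht
      have htT : t = b := by
        have h1 := frontier_Iic_subset b (by simpa [Set.Iic] using ht.2)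
        simpa using h1
      subst htT
      have h1 : ContinuousWithinAt x (Set.Icc a t) t := h.cont t ⟨h.le, le_rfl⟩
      have h2 : x t = if t ≤ t then x t else x' t := by simp
      rw [← h2]
      refine h1.tendsto.mono_left (nhdsWithin_mono _ ?_)
      rintro r ⟨hr, hr'⟩
      exact ⟨hr.1, hr'⟩
    · intro t ht
      have htT : t = b := by
        have h1 := frontier_Iic_subset b (by simpa [Set.Iic] using ht.2)
        simpa using h1
      subst htT
      have h1 : ContinuousWithinAt x' (Set.Icc t c) t := h'.cont t ⟨le_rfl, h'.le⟩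
      have h2 : x' t = if t ≤ t then x t else x' t := by simp [hx]
      rw [← h2]
      refine h1.tendsto.mono_left (nhdsWithin_mono _ ?_)
      rintro r ⟨hr, hr'⟩
      have h4 : ¬ r ≤ t := hr'
      exact ⟨(not_le.1 h4).le, hr.2⟩
    · refine h.cont.mono ?_
      rintro r ⟨hr, hr'⟩
      exact ⟨hr.1, hr'⟩
    · refine h'.cont.mono ?_
      rintro r ⟨hr, hr'⟩
      have h4 : ¬ r ≤ b := hr'
      exact ⟨(not_le.1 h4).le, hr.2⟩
  · exact hs.union (hs'.union (Set.countable_singleton b))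
  · intro t ht
    have ht1 : t ∉ s := fun h => ht.2 (Or.inl h)
    have ht2 : t ∉ s' := fun h => ht.2 (Or.inr (Or.inl h))
    have ht3 : t ≠ b := fun h => ht.2 (Or.inr (Or.inr h))
    rcases lt_or_gt_of_ne ht3 with hlt | hgt
    · have h1 := hd t ⟨⟨ht.1.1, hlt⟩, ht1⟩
      have h2 : (fun t => if t ≤ b then x t else x' t) =ᶠ[nhds t] x := by
        filter_upwards [Iio_mem_nhds hlt] with r hr
        exact if_pos (le_of_lt hr)
      simp only [if_pos hlt.le]
      exact h1.congr_of_eventuallyEq h2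
    · have h1 := hd' t ⟨⟨hgt, ht.1.2⟩, ht2⟩
      have h2 : (fun t => if t ≤ b then x t else x' t) =ᶠ[nhds t] x' := by
        filter_upwards [Ioi_mem_nhds hgt] with r hr
        exact if_neg (not_le.2 hr)
      simp only [if_neg (not_le.2 hgt)]
      exact h1.congr_of_eventuallyEq h2
  · exact Measurable.ite measurableSet_Iic h.meas h'.meas
  · refine ⟨max R R', fun t => ?_⟩
    show |if t ≤ b then u t else u' t| ≤ max R R'
    split_ifs
    · exact (hR t).trans (le_max_left _ _)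
    · exact (hR' t).trans (le_max_right _ _)
  · intro t ht
    simp [ht]
  · intro t ht
    simp [not_le.2 ht]

theorem Cur.of_ext {W₁ : ℝ → ℝ → ℝ} {γ v : ℝ → ℝ} (h : Ext W₁ γ v) {a b : ℝ} (hab : a ≤ b) :
    ∃ u : ℝ → ℝ, Cur a b γ u ∧ ∀ t ∈ Set.Icc a b, u t = v t := by
  have hvc : Continuous v := continuous_iff_continuousAt.2 fun t => (h.el t).continuousAt
  have hcl : Continuous fun t : ℝ => min (max t a) b := by fun_prop
  have he : ∀ t ∈ Set.Icc a b, v (min (max t a) b) = v t := fun t ht => by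
    rw [max_eq_left ht.1, min_eq_left ht.2]
  refine ⟨fun t => v (min (max t a) b), ⟨hab, fun t _ => (h.der t).continuousAt.continuousWithinAt,
    ⟨∅, Set.countable_empty, fun t ht => ?_⟩, (hvc.comp hcl).measurable, ?_⟩, he⟩
  · rw [he t ⟨ht.1.1.le, ht.1.2.le⟩]
    exact h.der t
  · obtain ⟨R, hR⟩ := isCompact_Icc.exists_bound_of_continuousOn (s := Set.Icc a b)
      hvc.continuousOn
    exact ⟨R, fun t => hR _ ⟨le_min (le_max_right _ _) hab, min_le_right _ _⟩⟩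

end Pool.Agent.H33.AN

end

section

/-!
# Module G4: the minimal action `Dm`: elementary properties

* The set in the definition of `Dm` is not empty (line) and bounded below by `-B (t - s)`.
* `Dm_lip`: from a curve `ξ` from `(x, s)` to `(y, t)` make the curve `ξ(τ) + (p + q τ)` from `(x', s)` to
  `(y', t)` (`Cur.add_lin`), `|q| ≤ (|x - x'| + |y - y'|)/(t - s)`; the action changes by
  `q (y - x) + q² (t - s)/2 - ∫ (W(ξ + ..) - W(ξ))`. The factor `1 + |x - x'| + |y - y'|` takes care of `q²`.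
* `Dm_triangle`: `Cur.concat`. `Dm_per`: shift.
-/

set_option autoImplicit false

open MeasureTheory
open scoped RealInnerProductSpace

namespace Pool.Agent.H33.AN

variable {Tp B : ℝ} {W W₁ W₂ : ℝ → ℝ → ℝ}

private theorem g4a_cont (hW : HW Tp W W₁ W₂ B) : Continuous fun z : ℝ × ℝ => W z.1 z.2 :=
  continuous_iff_continuousAt.2 fun z => (hW.der z.1 z.2).continuousAt

private theorem g4a_int (hW : HW Tp W W₁ W₂ B) {s t : ℝ} {ξ u : ℝ → ℝ} (h : Cur s t ξ u) :
    IntervalIntegrable (fun τ => u τ ^ 2 / 2 - W (ξ τ) τ) volume s t := by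
  have hc := g4a_cont hW
  have h1 : Continuous fun p : ℝ × ℝ × ℝ => p.2.1 ^ 2 / 2 - W p.1 p.2.2 := by
    have h2 : Continuous fun p : ℝ × ℝ × ℝ => W p.1 p.2.2 :=
      hc.comp (f := fun p : ℝ × ℝ × ℝ => (p.1, p.2.2)) (by fun_prop)
    fun_prop
  exact h.integrable h1

private theorem g4a_intu {s t : ℝ} {ξ u : ℝ → ℝ} (h : Cur s t ξ u) :
    IntervalIntegrable u volume s t := by
  have h1 : Continuous fun p : ℝ × ℝ × ℝ => p.2.1 := by fun_prop
  exact h.integrable h1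

private theorem g4a_lower (hW : HW Tp W W₁ W₂ B) {s t : ℝ} {ξ u : ℝ → ℝ} (h : Cur s t ξ u)
    (q : ℝ) : q * (ξ t - ξ s) - (q ^ 2 / 2 + B) * (t - s) ≤ A1 W s t ξ u := by
  have h1 : ∫ τ in s..t, (q * u τ - (q ^ 2 / 2 + B)) = q * (ξ t - ξ s) - (q ^ 2 / 2 + B) * (t - s) := by
    rw [intervalIntegral.integral_sub ((g4a_intu h).const_mul q) intervalIntegrable_const,
      intervalIntegral.integral_const_mul, h.integral_vel, intervalIntegral.integral_const,
      smul_eq_mul]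
    ring
  rw [← h1]
  unfold A1
  refine intervalIntegral.integral_mono_on h.le
    (((g4a_intu h).const_mul q).sub intervalIntegrable_const) (g4a_int hW h) ?_
  intro τ _
  have h2 := (abs_le.1 (hW.bd (ξ τ) τ)).2
  nlinarith [sq_nonneg (u τ - q)]

private theorem g4a_bdd (hW : HW Tp W W₁ W₂ B) (s t x y : ℝ) :
    BddBelow {r | ∃ ξ u : ℝ → ℝ, Cur s t ξ u ∧ ξ s = x ∧ ξ t = y ∧ A1 W s t ξ u = r} := by
  refine ⟨-(B * (t - s)), ?_⟩
  rintro r ⟨ξ, u, h, -, -, rfl⟩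
  have := g4a_lower hW h 0
  nlinarith

private theorem g4a_line {s t : ℝ} (hst : s < t) (x y : ℝ) :
    Cur s t (fun τ => (x - (y - x) / (t - s) * s) + (y - x) / (t - s) * τ)
      (fun _ => (y - x) / (t - s)) ∧
    (x - (y - x) / (t - s) * s) + (y - x) / (t - s) * s = x ∧
    (x - (y - x) / (t - s) * s) + (y - x) / (t - s) * t = y := by
  refine ⟨Cur.line hst.le _ _, by ring, ?_⟩
  have h1 : t - s ≠ 0 := (sub_pos.2 hst).ne'
  have h2 : (y - x) / (t - s) * (t - s) = y - x := div_mul_cancel₀ _ h1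
  linear_combination h2

private theorem g4a_ne {s t : ℝ} (hst : s < t) (x y : ℝ) :
    {r | ∃ ξ u : ℝ → ℝ, Cur s t ξ u ∧ ξ s = x ∧ ξ t = y ∧ A1 W s t ξ u = r}.Nonempty := by
  obtain ⟨h1, h2, h3⟩ := g4a_line hst x y
  exact ⟨_, _, _, h1, h2, h3, rfl⟩

theorem Dm_le (hW : HW Tp W W₁ W₂ B) {s t : ℝ} {ξ u : ℝ → ℝ} (h : Cur s t ξ u) :
    Dm W s t (ξ s) (ξ t) ≤ A1 W s t ξ u :=
  csInf_le (g4a_bdd hW s t _ _) ⟨ξ, u, h, rfl, rfl, rfl⟩

theorem le_Dm (hW : HW Tp W W₁ W₂ B) {s t x y r : ℝ} (hst : s < t)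
    (h : ∀ ξ u : ℝ → ℝ, Cur s t ξ u → ξ s = x → ξ t = y → r ≤ A1 W s t ξ u) :
    r ≤ Dm W s t x y := by
  refine le_csInf (g4a_ne hst x y) ?_
  rintro r' ⟨ξ, u, h1, h2, h3, rfl⟩
  exact h ξ u h1 h2 h3

/-- Almost minimising curves. -/
theorem exists_near (hW : HW Tp W W₁ W₂ B) {s t : ℝ} (hst : s < t) (x y : ℝ) {ε : ℝ} (hε : 0 < ε) :
    ∃ ξ u : ℝ → ℝ, Cur s t ξ u ∧ ξ s = x ∧ ξ t = y ∧ A1 W s t ξ u < Dm W s t x y + ε := by
  obtain ⟨r, ⟨ξ, u, h1, h2, h3, h4⟩, hr⟩ := exists_lt_of_csInf_lt (g4a_ne (W := W) hst x y)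
    (show Dm W s t x y < Dm W s t x y + ε by linarith)
  exact ⟨ξ, u, h1, h2, h3, by rw [h4]; exact hr⟩

theorem Dm_triangle (hW : HW Tp W W₁ W₂ B) {r s t : ℝ} (hrs : r < s) (hst : s < t) (x y z : ℝ) :
    Dm W r t x z ≤ Dm W r s x y + Dm W s t y z := by
  refine le_of_forall_pos_le_add fun ε hε => ?_
  obtain ⟨ξ, u, h1, h2, h3, h4⟩ := exists_near hW hrs x y (half_pos hε)
  obtain ⟨ξ', u', k1, k2, k3, k4⟩ := exists_near hW hst y z (half_pos hε)
  obtain ⟨ξ'', u'', l1, l2, l3⟩ := h1.concat k1 (by rw [h3, k2])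
  have e1 : A1 W r t ξ'' u'' = A1 W r s ξ u + A1 W s t ξ' u' := by
    unfold A1
    have i1 : IntervalIntegrable (fun τ => u'' τ ^ 2 / 2 - W (ξ'' τ) τ) volume r s :=
      g4a_int hW (l1.sub le_rfl hrs.le hst.le)
    have i2 : IntervalIntegrable (fun τ => u'' τ ^ 2 / 2 - W (ξ'' τ) τ) volume s t :=
      g4a_int hW (l1.sub hrs.le hst.le le_rfl)
    rw [← intervalIntegral.integral_add_adjacent_intervals i1 i2]
    congr 1
    · rw [intervalIntegral.integral_of_le hrs.le, intervalIntegral.integral_of_le hrs.le]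
      refine setIntegral_congr_fun measurableSet_Ioc fun τ hτ => ?_
      have := l2 τ hτ.2
      simp only [this.1, this.2]
    · rw [intervalIntegral.integral_of_le hst.le, intervalIntegral.integral_of_le hst.le]
      refine setIntegral_congr_fun measurableSet_Ioc fun τ hτ => ?_
      have := l3 τ hτ.1
      simp only [this.1, this.2]
  have e2 := Dm_le hW l1
  rw [(l2 r hrs.le).1, (l3 t hst).1, h2, k3, e1] at e2
  linarith

private theorem g4a_per (hW : HW Tp W W₁ W₂ B) (x t : ℝ) (j k : ℤ) :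
    W (x + k) (t + j * Tp) = W x t := by
  have h1 : Function.Periodic (fun x => W x (t + j * Tp)) 1 := fun x => hW.per₁ x _
  have h2 : Function.Periodic (fun t => W x t) Tp := fun t => hW.per₂ x t
  have h3 := (h1.int_mul k) x
  have h4 := (h2.int_mul j) t
  simp only [mul_one] at h3
  rw [h3]
  exact h4

private theorem g4a_sub (hW : HW Tp W W₁ W₂ B) (s t x y : ℝ) (j k : ℤ) :
    {r | ∃ ξ u : ℝ → ℝ, Cur s t ξ u ∧ ξ s = x ∧ ξ t = y ∧ A1 W s t ξ u = r} ⊆
    {r | ∃ ξ u : ℝ → ℝ, Cur (s + j * Tp) (t + j * Tp) ξ u ∧ ξ (s + j * Tp) = x + k ∧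
      ξ (t + j * Tp) = y + k ∧ A1 W (s + j * Tp) (t + j * Tp) ξ u = r} := by
  rintro r ⟨ξ, u, h, h1, h2, rfl⟩
  refine ⟨_, _, (h.shift (j * Tp)).add_lin k 0, ?_, ?_, ?_⟩
  · simp only [add_sub_cancel_right, zero_mul, add_zero, h1]
  · simp only [add_sub_cancel_right, zero_mul, add_zero, h2]
  · unfold A1
    simp only [zero_mul, add_zero]
    have h3 := intervalIntegral.integral_comp_sub_right (a := s + j * Tp) (b := t + j * Tp)
      (fun τ => u τ ^ 2 / 2 - W (ξ τ) τ) (j * Tp)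
    rw [add_sub_cancel_right, add_sub_cancel_right] at h3
    rw [← h3]
    refine intervalIntegral.integral_congr fun τ _ => ?_
    have h4 := g4a_per hW (ξ (τ - j * Tp)) (τ - j * Tp) j k
    rw [sub_add_cancel] at h4
    simp only [h4]

theorem Dm_per (hW : HW Tp W W₁ W₂ B) (s t x y : ℝ) (j k : ℤ) :
    Dm W (s + j * Tp) (t + j * Tp) (x + k) (y + k) = Dm W s t x y := by
  unfold Dm
  congr 1
  refine Set.Subset.antisymm ?_ (g4a_sub hW s t x y j k)
  have h1 := g4a_sub hW (s + j * Tp) (t + j * Tp) (x + k) (y + k) (-j) (-k)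
  have e1 : s + (j : ℝ) * Tp + ((-j : ℤ) : ℝ) * Tp = s := by push_cast; ring
  have e2 : t + (j : ℝ) * Tp + ((-j : ℤ) : ℝ) * Tp = t := by push_cast; ring
  have e3 : x + (k : ℝ) + ((-k : ℤ) : ℝ) = x := by push_cast; ring
  have e4 : y + (k : ℝ) + ((-k : ℤ) : ℝ) = y := by push_cast; ring
  rw [e1, e2, e3, e4] at h1
  exact h1

theorem Dm_lower (hW : HW Tp W W₁ W₂ B) {s t : ℝ} (hst : s < t) (x y : ℝ) :
    (y - x) ^ 2 / (2 * (t - s)) - B * (t - s) ≤ Dm W s t x y ∧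
      Dm W s t x y ≤ (y - x) ^ 2 / (2 * (t - s)) + B * (t - s) := by
  have hpos : 0 < t - s := sub_pos.2 hst
  have hq : (y - x) / (t - s) * (y - x) = (y - x) ^ 2 / (t - s) := by
    field_simp
  constructor
  · refine le_Dm hW hst fun ξ u h h1 h2 => ?_
    have h3 := g4a_lower hW h ((y - x) / (t - s))
    rw [h1, h2] at h3
    have e : (y - x) / (t - s) * (y - x) - (((y - x) / (t - s)) ^ 2 / 2 + B) * (t - s) =
        (y - x) ^ 2 / (2 * (t - s)) - B * (t - s) := by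
      field_simp
      ring
    rw [e] at h3
    exact h3
  · obtain ⟨h1, h2, h3⟩ := g4a_line hst x y
    have h4 := Dm_le hW h1
    simp only [h2, h3] at h4
    refine h4.trans ?_
    have h5 : ∫ τ in s..t, (((y - x) / (t - s)) ^ 2 / 2 + B) =
        (y - x) ^ 2 / (2 * (t - s)) + B * (t - s) := by
      rw [intervalIntegral.integral_const, smul_eq_mul]
      field_simp
    rw [← h5]
    unfold A1
    refine intervalIntegral.integral_mono_on hst.le (g4a_int hW h1) intervalIntegrable_const ?_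
    intro τ _
    have h6 := (abs_le.1 (hW.bd (x - (y - x) / (t - s) * s + (y - x) / (t - s) * τ) τ)).1
    simp only
    linarith

end Pool.Agent.H33.AN

end
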