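import Pool.Agent.H47.B0.M01
import Pool.Agent.H47.B0.M05

/-! The parts of this file: H33.AN.P.G2, H33.AN.P.G3a, H33.AN.P.G3b, H33.AN.P.G4b. -/

section

/-!
# Module G2: the equation `x'' = - W₁(x, t)`

First order system in `(x, v, s)`: `(v, -W₁(x, s), 1)`, globally Lipschitz; `flow_of_lipschitz` of the
imported module gives the flow.
* `ext_close`: Gronwall.
* `ext_vbound`: `|v t - v s| ≤ B |t - s|`, and the mean value of `v` over `[a, b]` is
  `(γ b - γ a)/(b - a)`.
* `HW.per₁'`, `HW.per₂'`: derivatives of periodic functions.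
-/

set_option autoImplicit false

open MeasureTheory
open scoped RealInnerProductSpace

namespace Pool.Agent.H33.AN

variable {Tp B : ℝ} {W W₁ W₂ : ℝ → ℝ → ℝ}

private theorem g2_d1 (hW : HW Tp W W₁ W₂ B) (x t : ℝ) :
    HasDerivAt (fun y => W y t) (W₁ x t) x := by
  have h1 : HasDerivAt (fun y : ℝ => (y, t)) ((1 : ℝ), (0 : ℝ)) x :=
    (hasDerivAt_id x).prodMk (hasDerivAt_const x t)
  have h2 := HasFDerivAt.comp_hasDerivAt (f := fun y : ℝ => (y, t)) x (hW.der x t) h1
  have h3 : (W₁ x t • ContinuousLinearMap.fst ℝ ℝ ℝ + W₂ x t • ContinuousLinearMap.snd ℝ ℝ ℝ)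
      ((1 : ℝ), (0 : ℝ)) = W₁ x t := by simp
  rw [h3] at h2
  exact h2

theorem HW.per₁' (hW : HW Tp W W₁ W₂ B) (x t : ℝ) : W₁ (x + 1) t = W₁ x t := by
  have h1 := (g2_d1 hW (x + 1) t).comp_add_const x 1
  have h2 : (fun y => W (y + 1) t) = fun y => W y t := funext fun y => hW.per₁ y t
  rw [h2] at h1
  exact h1.unique (g2_d1 hW x t)

theorem HW.per₂' (hW : HW Tp W W₁ W₂ B) (x t : ℝ) : W₁ x (t + Tp) = W₁ x t := by
  have h1 := g2_d1 hW x (t + Tp)
  have h2 : (fun y => W y (t + Tp)) = fun y => W y t := funext fun y => hW.per₂ y t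
  rw [h2] at h1
  exact h1.unique (g2_d1 hW x t)

theorem ext_exists (hW : HW Tp W W₁ W₂ B) (t₀ x₀ v₀ : ℝ) :
    ∃ γ v : ℝ → ℝ, Ext W₁ γ v ∧ γ t₀ = x₀ ∧ v t₀ = v₀ := by
  have hB := hW.nonneg
  let Y : ℝ × ℝ × ℝ → ℝ × ℝ × ℝ := fun z => (z.2.1, -W₁ z.1 z.2.2, 1)
  have hY : LipschitzWith ⟨1 + 2 * B, by positivity⟩ Y := by
    refine LipschitzWith.of_dist_le_mul fun z z' => ?_
    have hz1 : |z.1 - z'.1| ≤ dist z z' := le_max_left (dist z.1 z'.1) (dist z.2 z'.2)
    have hz2 : dist z.2 z'.2 ≤ dist z z' := le_max_right (dist z.1 z'.1) (dist z.2 z'.2)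
    have hz3 : |z.2.1 - z'.2.1| ≤ dist z.2 z'.2 :=
      le_max_left (dist z.2.1 z'.2.1) (dist z.2.2 z'.2.2)
    have hz4 : |z.2.2 - z'.2.2| ≤ dist z.2 z'.2 :=
      le_max_right (dist z.2.1 z'.2.1) (dist z.2.2 z'.2.2)
    have hd : 0 ≤ dist z z' := dist_nonneg
    show max |z.2.1 - z'.2.1| (max |(-W₁ z.1 z.2.2) - (-W₁ z'.1 z'.2.2)| (dist (1 : ℝ) 1)) ≤
      (1 + 2 * B) * dist z z'
    refine max_le ?_ (max_le ?_ ?_)
    · nlinarith
    · have h1 := hW.lip z.1 z.2.2 z'.1 z'.2.2
      have h2 : |(-W₁ z.1 z.2.2) - (-W₁ z'.1 z'.2.2)| = |W₁ z.1 z.2.2 - W₁ z'.1 z'.2.2| := by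
        rw [← abs_neg]
        congr 1
        ring
      rw [h2]
      have h3 : B * (|z.1 - z'.1| + |z.2.2 - z'.2.2|) ≤ B * (2 * dist z z') :=
        mul_le_mul_of_nonneg_left (by linarith) hB
      nlinarith
    · rw [dist_self]
      positivity
  obtain ⟨φ, hφ⟩ := AM.flow_of_lipschitz hY
  set ψ : ℝ → ℝ × ℝ × ℝ := fun t => φ (t - t₀) (x₀, v₀, t₀) with hψ
  have hψd : ∀ t, HasDerivAt ψ (Y (ψ t)) t := fun t =>
    (hφ.der (x₀, v₀, t₀) (t - t₀)).comp_sub_const t t₀
  have hψ0 : ψ t₀ = (x₀, v₀, t₀) := by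
    rw [hψ]
    show φ (t₀ - t₀) (x₀, v₀, t₀) = _
    rw [sub_self, hφ.zero]
  have d1 : ∀ t, HasDerivAt (fun t => (ψ t).1) (ψ t).2.1 t := fun t =>
    (ContinuousLinearMap.fst ℝ ℝ (ℝ × ℝ)).hasFDerivAt.comp_hasDerivAt t (hψd t)
  have d0 : ∀ t, HasDerivAt (fun t => (ψ t).2) (Y (ψ t)).2 t := fun t =>
    (ContinuousLinearMap.snd ℝ ℝ (ℝ × ℝ)).hasFDerivAt.comp_hasDerivAt t (hψd t)
  have d2 : ∀ t, HasDerivAt (fun t => (ψ t).2.1) (-W₁ (ψ t).1 (ψ t).2.2) t := fun t =>
    (ContinuousLinearMap.fst ℝ ℝ ℝ).hasFDerivAt.comp_hasDerivAt t (d0 t)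
  have d3 : ∀ t, HasDerivAt (fun t => (ψ t).2.2) 1 t := fun t =>
    (ContinuousLinearMap.snd ℝ ℝ ℝ).hasFDerivAt.comp_hasDerivAt t (d0 t)
  have hs : ∀ t, (ψ t).2.2 = t := by
    intro t
    have h1 : ∀ t, HasDerivAt (fun t => (ψ t).2.2 - t) 0 t := fun t => by
      have := (d3 t).sub (hasDerivAt_id t)
      rwa [sub_self] at this
    have h2 := is_const_of_deriv_eq_zero (fun t => (h1 t).differentiableAt)
      (fun t => (h1 t).deriv) t t₀
    rw [hψ0] at h2
    simp only at h2
    linarith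
  refine ⟨fun t => (ψ t).1, fun t => (ψ t).2.1, ⟨d1, fun t => ?_⟩, ?_, ?_⟩
  · have := d2 t
    rwa [hs t] at this
  · show (ψ t₀).1 = x₀
    rw [hψ0]
  · show (ψ t₀).2.1 = v₀
    rw [hψ0]

private theorem g2_gron {E : Type*} [NormedAddCommGroup E] [NormedSpace ℝ E] {f f' : ℝ → E}
    {K : ℝ} (hf : ∀ t, HasDerivAt f (f' t) t) (hb : ∀ t, ‖f' t‖ ≤ K * ‖f t‖) (t₀ t : ℝ) :
    ‖f t‖ ≤ ‖f t₀‖ * Real.exp (K * |t - t₀|) := by
  have key : ∀ (f f' : ℝ → E), (∀ t, HasDerivAt f (f' t) t) → (∀ t, ‖f' t‖ ≤ K * ‖f t‖) →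
      ∀ t₀ t, t₀ ≤ t → ‖f t‖ ≤ ‖f t₀‖ * Real.exp (K * (t - t₀)) := by
    intro f f' hf hb t₀ t ht
    have h := norm_le_gronwallBound_of_norm_deriv_right_le (f := f) (f' := f') (δ := ‖f t₀‖)
      (K := K) (ε := 0) (a := t₀) (b := t)
      (fun x _ => (hf x).continuousAt.continuousWithinAt)
      (fun x _ => (hf x).hasDerivWithinAt) le_rfl
      (fun x _ => by rw [add_zero]; exact hb x) t ⟨ht, le_rfl⟩
    rwa [gronwallBound_ε0] at h
  rcases le_total t₀ t with h | h
  · rw [abs_of_nonneg (by linarith)]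
    exact key f f' hf hb t₀ t h
  · rw [abs_of_nonpos (by linarith)]
    have h1 : ∀ s, HasDerivAt (fun s => f (-s)) (-f' (-s)) s := fun s => by
      have := (hf (-s)).scomp s (hasDerivAt_neg s)
      rw [neg_smul, one_smul] at this
      exact this
    have h2 := key (fun s => f (-s)) (fun s => -f' (-s)) h1
      (fun s => by rw [norm_neg]; exact hb (-s)) (-t₀) (-t) (by linarith)
    simp only [neg_neg] at h2
    have e : -t - -t₀ = -(t - t₀) := by ring
    rwa [e] at h2

theorem ext_close (hW : HW Tp W W₁ W₂ B) {γ v γ' v' : ℝ → ℝ} (h : Ext W₁ γ v)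
    (h' : Ext W₁ γ' v') (t₀ t : ℝ) :
    |γ t - γ' t| + |v t - v' t| ≤
      (|γ t₀ - γ' t₀| + |v t₀ - v' t₀|) * Real.exp ((1 + B) * |t - t₀|) := by
  have hB := hW.nonneg
  let f : ℝ → WithLp 1 (ℝ × ℝ) := fun t => WithLp.toLp 1 (γ t - γ' t, v t - v' t)
  let f' : ℝ → WithLp 1 (ℝ × ℝ) := fun t =>
    WithLp.toLp 1 (v t - v' t, (-W₁ (γ t) t) - (-W₁ (γ' t) t))
  have hf : ∀ t, HasDerivAt f (f' t) t := by
    intro t
    have h1 : HasDerivAt (fun t => (γ t - γ' t, v t - v' t))
        (v t - v' t, (-W₁ (γ t) t) - (-W₁ (γ' t) t)) t :=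
      ((h.der t).sub (h'.der t)).prodMk ((h.el t).sub (h'.el t))
    exact (WithLp.prodContinuousLinearEquiv 1 ℝ ℝ ℝ).symm.toContinuousLinearMap.hasFDerivAt
      |>.comp_hasDerivAt t h1
  have hn : ∀ t, ‖f t‖ = |γ t - γ' t| + |v t - v' t| := fun t =>
    WithLp.prod_norm_eq_of_L1 (f t)
  have hb : ∀ t, ‖f' t‖ ≤ (1 + B) * ‖f t‖ := by
    intro t
    have h1 : ‖f' t‖ = |v t - v' t| + |(-W₁ (γ t) t) - (-W₁ (γ' t) t)| :=
      WithLp.prod_norm_eq_of_L1 (f' t)
    rw [h1, hn t]
    have h2 := hW.lip (γ t) t (γ' t) t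
    rw [sub_self, abs_zero, add_zero] at h2
    have h3 : |(-W₁ (γ t) t) - (-W₁ (γ' t) t)| = |W₁ (γ t) t - W₁ (γ' t) t| := by
      rw [← abs_neg]
      congr 1
      ring
    rw [h3]
    nlinarith [abs_nonneg (γ t - γ' t), abs_nonneg (v t - v' t),
      mul_nonneg hB (abs_nonneg (v t - v' t))]
  have h4 := g2_gron hf hb t₀ t
  rwa [hn t, hn t₀] at h4

theorem ext_unique (hW : HW Tp W W₁ W₂ B) {γ v γ' v' : ℝ → ℝ} (h : Ext W₁ γ v)
    (h' : Ext W₁ γ' v') {t₀ : ℝ} (hx : γ t₀ = γ' t₀) (hv : v t₀ = v' t₀) : γ = γ' ∧ v = v' := by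
  have key : ∀ t, |γ t - γ' t| + |v t - v' t| ≤ 0 := by
    intro t
    have h1 := ext_close hW h h' t₀ t
    rwa [hx, hv, sub_self, sub_self, abs_zero, add_zero, zero_mul] at h1
  constructor
  · funext t
    have h1 := key t
    have h2 : |γ t - γ' t| = 0 := le_antisymm (by linarith [abs_nonneg (v t - v' t)])
      (abs_nonneg _)
    linarith [abs_eq_zero.1 h2]
  · funext t
    have h1 := key t
    have h2 : |v t - v' t| = 0 := le_antisymm (by linarith [abs_nonneg (γ t - γ' t)])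
      (abs_nonneg _)
    linarith [abs_eq_zero.1 h2]

theorem ext_shift (hW : HW Tp W W₁ W₂ B) {γ v : ℝ → ℝ} (h : Ext W₁ γ v) (j k : ℤ) :
    Ext W₁ (fun t => γ (t + j * Tp) + k) fun t => v (t + j * Tp) := by
  have hp1 : ∀ x t, W₁ (x + k) t = W₁ x t := by
    intro x t
    have h1 : Function.Periodic (fun x => W₁ x t) 1 := fun x => hW.per₁' x t
    have h2 := h1.int_mul k x
    rwa [mul_one] at h2
  have hp2 : ∀ x t, W₁ x (t + j * Tp) = W₁ x t := by
    intro x t
    have h1 : Function.Periodic (fun t => W₁ x t) Tp := fun t => hW.per₂' x t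
    exact h1.int_mul j t
  refine ⟨fun t => ?_, fun t => ?_⟩
  · exact ((h.der (t + j * Tp)).comp_add_const t (j * Tp)).add_const (k : ℝ)
  · have h1 := (h.el (t + j * Tp)).comp_add_const t (j * Tp)
    rw [hp2] at h1
    show HasDerivAt (fun t => v (t + j * Tp)) (-W₁ (γ (t + j * Tp) + k) t) t
    rw [hp1]
    exact h1

theorem ext_vbound (hW : HW Tp W W₁ W₂ B) {γ v : ℝ → ℝ} (h : Ext W₁ γ v) {a b : ℝ}
    (hab : a < b) {t : ℝ} (ht : t ∈ Set.Icc a b) :
    |v t - (γ b - γ a) / (b - a)| ≤ B * (b - a) := by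
  obtain ⟨τ, hτ, he⟩ := exists_hasDerivAt_eq_slope γ v hab
    (fun x _ => (h.der x).continuousAt.continuousWithinAt) (fun x _ => h.der x)
  rw [← he]
  have h1 : ‖v t - v τ‖ ≤ B * ‖t - τ‖ :=
    convex_univ.norm_image_sub_le_of_norm_hasDerivWithin_le
      (f := v) (f' := fun t => -W₁ (γ t) t) (s := Set.univ)
      (fun x _ => (h.el x).hasDerivWithinAt)
      (fun x _ => by rw [norm_neg, Real.norm_eq_abs]; exact hW.bd₁ _ _)
      (Set.mem_univ τ) (Set.mem_univ t)
  rw [Real.norm_eq_abs, Real.norm_eq_abs] at h1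
  refine h1.trans (mul_le_mul_of_nonneg_left ?_ hW.nonneg)
  rw [abs_le]
  constructor
  · linarith [ht.1, hτ.2]
  · linarith [ht.2, hτ.1]

end Pool.Agent.H33.AN

end

section

/-!
# Module G3: boundary value problem, strict minimality on short intervals

* `bvp`: the solution with `γ t = x`, `v t = v₀` satisfies `|γ (t + h) - x - h v₀| ≤ B h²/2` and
  `γ (t + h)` depends continuously on `v₀` (`ext_close`): intermediate value theorem.
* `strict`: with `η = ξ - γ`, `η' = u - v`, `η(a) = η(b) = 0`: `∫ v η' = ∫ W₁(γ) η` (`Cur.integral_deriv`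
  or: `∫ (v η)' = 0`), so the difference of the actions is
  `∫ η'²/2 - (W(γ + η) - W(γ) - W₁(γ) η) ≥ ∫ η'²/2 - B η²/2`, and `η(t)² ≤ (t - a) ∫ η'²`, so
  `∫ η² ≤ (b - a)²/2 ∫ η'²`, `B (b - a)²/4 ≤ 1/4`.
-/

set_option autoImplicit false

open MeasureTheory
open scoped RealInnerProductSpace

namespace Pool.Agent.H33.AN

variable {Tp B : ℝ} {W W₁ W₂ : ℝ → ℝ → ℝ}

theorem bvp (hW : HW Tp W W₁ W₂ B) {h : ℝ} (hh : 0 < h) (t x y : ℝ) :
    ∃ γ v : ℝ → ℝ, Ext W₁ γ v ∧ γ t = x ∧ γ (t + h) = y := by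
  choose γ v hext hγ hv using fun v₀ : ℝ => ext_exists hW t x v₀
  set F : ℝ → ℝ := fun v₀ => γ v₀ (t + h) with hF
  have hcont : Continuous F := by
    have hlip : ∀ a b : ℝ, |F a - F b| ≤ Real.exp ((1 + B) * |t + h - t|) * |a - b| := by
      intro a b
      have h1 := ext_close hW (hext a) (hext b) t (t + h)
      rw [hγ a, hγ b, hv a, hv b, sub_self, abs_zero, zero_add] at h1
      have h2 : 0 ≤ |v a (t + h) - v b (t + h)| := abs_nonneg _
      have h3 : |F a - F b| = |γ a (t + h) - γ b (t + h)| := rfl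
      rw [h3, mul_comm]
      linarith
    have hL : LipschitzWith (Real.toNNReal (Real.exp ((1 + B) * |t + h - t|))) F := by
      refine LipschitzWith.of_dist_le_mul fun a b => ?_
      rw [Real.dist_eq, Real.dist_eq, Real.coe_toNNReal _ (Real.exp_pos _).le]
      exact hlip a b
    exact hL.continuous
  have hb : ∀ v₀ : ℝ, |v₀ - (F v₀ - x) / h| ≤ B * h := by
    intro v₀
    have h1 := ext_vbound hW (hext v₀) (a := t) (b := t + h) (by linarith)
      (t := t) ⟨le_refl t, by linarith⟩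
    rw [hv v₀, hγ v₀, add_sub_cancel_left] at h1
    exact h1
  have hlow : ∃ a, F a ≤ y := by
    refine ⟨(y - x) / h - B * h, ?_⟩
    have h1 := (abs_le.1 (hb ((y - x) / h - B * h))).1
    have h2 : (F ((y - x) / h - B * h) - x) / h ≤ (y - x) / h := by linarith
    have h3 := (div_le_div_iff_of_pos_right hh).1 h2
    linarith
  have hup : ∃ b, y ≤ F b := by
    refine ⟨(y - x) / h + B * h, ?_⟩
    have h1 := (abs_le.1 (hb ((y - x) / h + B * h))).2
    have h2 : (y - x) / h ≤ (F ((y - x) / h + B * h) - x) / h := by linarith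
    have h3 := (div_le_div_iff_of_pos_right hh).1 h2
    linarith
  obtain ⟨v₀, hv₀⟩ := mem_range_of_exists_le_of_exists_ge hcont hlow hup
  exact ⟨γ v₀, v v₀, hext v₀, hγ v₀, hv₀⟩

end Pool.Agent.H33.AN

end

section

/-!
# Module G3: boundary value problem, strict minimality on short intervals

* `bvp`: the solution with `γ t = x`, `v t = v₀` satisfies `|γ (t + h) - x - h v₀| ≤ B h²/2` and
  `γ (t + h)` depends continuously on `v₀` (`ext_close`): intermediate value theorem.
* `strict`: with `η = ξ - γ`, `η' = u - v`, `η(a) = η(b) = 0`: `∫ v η' = ∫ W₁(γ) η` (`Cur.integral_deriv`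
  or: `∫ (v η)' = 0`), so the difference of the actions is
  `∫ η'²/2 - (W(γ + η) - W(γ) - W₁(γ) η) ≥ ∫ η'²/2 - B η²/2`, and `η(t)² ≤ (t - a) ∫ η'²`, so
  `∫ η² ≤ (b - a)²/2 ∫ η'²`, `B (b - a)²/4 ≤ 1/4`.
-/

set_option autoImplicit false

open MeasureTheory
open scoped RealInnerProductSpace

namespace Pool.Agent.H33.AN

variable {Tp B : ℝ} {W W₁ W₂ : ℝ → ℝ → ℝ}

private lemma hW_cont (hW : HW Tp W W₁ W₂ B) : Continuous fun z : ℝ × ℝ => W z.1 z.2 :=
  continuous_iff_continuousAt.2 fun z => (hW.der z.1 z.2).continuousAt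

private lemma hW1_cont (hW : HW Tp W W₁ W₂ B) : Continuous fun z : ℝ × ℝ => W₁ z.1 z.2 := by
  have hL : LipschitzWith (Real.toNNReal (2 * B)) fun z : ℝ × ℝ => W₁ z.1 z.2 := by
    refine LipschitzWith.of_dist_le_mul fun z z' => ?_
    rw [Real.dist_eq, Real.coe_toNNReal _ (by linarith [hW.nonneg])]
    have h1 := hW.lip z.1 z.2 z'.1 z'.2
    have h2 : |z.1 - z'.1| ≤ dist z z' := by
      rw [← Real.dist_eq, Prod.dist_eq]
      exact le_max_left _ _
    have h3 : |z.2 - z'.2| ≤ dist z z' := by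
      rw [← Real.dist_eq, Prod.dist_eq]
      exact le_max_right _ _
    have h4 : B * (|z.1 - z'.1| + |z.2 - z'.2|) ≤ B * (dist z z' + dist z z') :=
      mul_le_mul_of_nonneg_left (add_le_add h2 h3) hW.nonneg
    linarith
  exact hL.continuous

private lemma hW_taylor (hW : HW Tp W W₁ W₂ B) (x η t : ℝ) :
    W (x + η) t - W x t - W₁ x t * η ≤ B / 2 * η ^ 2 := by
  have hd : ∀ s : ℝ, HasDerivAt (fun s : ℝ => W (x + s * η) t) (W₁ (x + s * η) t * η) s := by
    intro s
    have h1 := hW.der (x + s * η) t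
    have h2 : HasDerivAt (fun s : ℝ => ((x + s * η, t) : ℝ × ℝ)) (η, 0) s := by
      have h3 : HasDerivAt (fun s : ℝ => x + s * η) η s := by
        simpa using ((hasDerivAt_id s).mul_const η).const_add x
      exact h3.prodMk (hasDerivAt_const s t)
    have h4 := h1.comp_hasDerivAt s h2
    have h5 : (W₁ (x + s * η) t • ContinuousLinearMap.fst ℝ ℝ ℝ +
        W₂ (x + s * η) t • ContinuousLinearMap.snd ℝ ℝ ℝ) (η, 0) = W₁ (x + s * η) t * η := by
      simp
    rw [h5] at h4
    exact h4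
  have hd2 : ∀ s : ℝ, HasDerivAt
      (fun s : ℝ => W (x + s * η) t - s * (W₁ x t * η) - B / 2 * η ^ 2 * s ^ 2)
      (W₁ (x + s * η) t * η - W₁ x t * η - B / 2 * η ^ 2 * (2 * s)) s := by
    intro s
    have h1 : HasDerivAt (fun s : ℝ => s * (W₁ x t * η)) (W₁ x t * η) s := by
      simpa using (hasDerivAt_id s).mul_const (W₁ x t * η)
    have h2 : HasDerivAt (fun s : ℝ => B / 2 * η ^ 2 * s ^ 2) (B / 2 * η ^ 2 * (2 * s)) s := by
      have h3 := (hasDerivAt_pow 2 s).const_mul (B / 2 * η ^ 2)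
      simpa using h3
    exact ((hd s).sub h1).sub h2
  have hanti : AntitoneOn
      (fun s : ℝ => W (x + s * η) t - s * (W₁ x t * η) - B / 2 * η ^ 2 * s ^ 2)
      (Set.Icc 0 1) := by
    refine antitoneOn_of_deriv_nonpos (convex_Icc 0 1) ?_ ?_ ?_
    · exact fun s _ => (hd2 s).continuousAt.continuousWithinAt
    · exact fun s _ => (hd2 s).differentiableAt.differentiableWithinAt
    · intro s hs
      rw [interior_Icc] at hs
      rw [(hd2 s).deriv]
      have h1 := hW.lip (x + s * η) t x t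
      rw [sub_self, abs_zero, add_zero, add_sub_cancel_left] at h1
      have h2 : (W₁ (x + s * η) t - W₁ x t) * η ≤ B * |s * η| * |η| := by
        calc (W₁ (x + s * η) t - W₁ x t) * η ≤ |(W₁ (x + s * η) t - W₁ x t) * η| := le_abs_self _
          _ = |W₁ (x + s * η) t - W₁ x t| * |η| := abs_mul _ _
          _ ≤ B * |s * η| * |η| := mul_le_mul_of_nonneg_right h1 (abs_nonneg _)
      rw [abs_mul, abs_of_pos hs.1] at h2
      have h3 : B * (s * |η|) * |η| = B * s * η ^ 2 := by
        rw [← sq_abs η]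
        ring
      rw [h3] at h2
      nlinarith
  have h := hanti (Set.left_mem_Icc.2 zero_le_one) (Set.right_mem_Icc.2 zero_le_one) zero_le_one
  simp only [one_mul, zero_mul, add_zero, one_pow, mul_one] at h
  norm_num at h
  linarith

theorem strict (hW : HW Tp W W₁ W₂ B) {a b : ℝ} (hab : a ≤ b) (hB : B * (b - a) ^ 2 ≤ 1)
    {γ v ξ u : ℝ → ℝ} (hγ : Ext W₁ γ v) (hξ : Cur a b ξ u) (ha : ξ a = γ a) (hb : ξ b = γ b) :
    A1 W a b γ v + (1 / 4) * (∫ t in a..b, (u t - v t) ^ 2) ≤ A1 W a b ξ u := by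
  have hWc := hW_cont hW
  have hW1c := hW1_cont hW
  have hγc : Continuous γ := continuous_iff_continuousAt.2 fun t => (hγ.der t).continuousAt
  have hvc : Continuous v := continuous_iff_continuousAt.2 fun t => (hγ.el t).continuousAt
  -- integrability
  have iA : IntervalIntegrable (fun t => u t ^ 2 / 2 - W (ξ t) t) volume a b := by
    refine hξ.integrable (g := fun p => p.2.1 ^ 2 / 2 - W p.1 p.2.2) ?_
    have h1 : Continuous fun p : ℝ × ℝ × ℝ => W p.1 p.2.2 :=
      hWc.comp (continuous_fst.prodMk (continuous_snd.comp continuous_snd))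
    fun_prop
  have iB : IntervalIntegrable (fun t => v t ^ 2 / 2 - W (γ t) t) volume a b := by
    have h1 : Continuous fun t : ℝ => W (γ t) t := hWc.comp (hγc.prodMk continuous_id)
    exact Continuous.intervalIntegrable (by fun_prop) _ _
  have iC : IntervalIntegrable
      (fun t => -W₁ (γ t) t * (ξ t - γ t) + v t * (u t - v t)) volume a b := by
    refine hξ.integrable (g := fun p => -W₁ (γ p.2.2) p.2.2 * (p.1 - γ p.2.2) +
      v p.2.2 * (p.2.1 - v p.2.2)) ?_
    have h1 : Continuous fun p : ℝ × ℝ × ℝ => W₁ (γ p.2.2) p.2.2 :=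
      hW1c.comp ((hγc.comp (continuous_snd.comp continuous_snd)).prodMk
        (continuous_snd.comp continuous_snd))
    fun_prop
  have iD : IntervalIntegrable (fun t => (u t - v t) ^ 2) volume a b := by
    refine hξ.integrable (g := fun p => (p.2.1 - v p.2.2) ^ 2) ?_
    fun_prop
  have iE : IntervalIntegrable (fun t => (ξ t - γ t) ^ 2) volume a b := by
    refine hξ.integrable (g := fun p => (p.1 - γ p.2.2) ^ 2) ?_
    fun_prop
  -- the boundary term
  have hC : ∫ t in a..b, (-W₁ (γ t) t * (ξ t - γ t) + v t * (u t - v t)) = 0 := by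
    obtain ⟨s, hs, hd⟩ := hξ.der
    have h1 := MeasureTheory.integral_eq_of_hasDerivAt_off_countable_of_le
      (fun t => v t * (ξ t - γ t))
      (fun t => -W₁ (γ t) t * (ξ t - γ t) + v t * (u t - v t)) hab hs
      (hvc.continuousOn.mul (hξ.cont.sub hγc.continuousOn))
      (fun t ht => (hγ.el t).mul ((hd t ht).sub (hγ.der t))) iC
    rw [h1, ha, hb]
    ring
  -- pointwise estimate
  have hpt : ∫ t in a..b, ((-W₁ (γ t) t * (ξ t - γ t) + v t * (u t - v t)) +
      (1 / 2 * (u t - v t) ^ 2 - B / 2 * (ξ t - γ t) ^ 2)) ≤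
      ∫ t in a..b, ((u t ^ 2 / 2 - W (ξ t) t) - (v t ^ 2 / 2 - W (γ t) t)) := by
    refine intervalIntegral.integral_mono_on hab
      (iC.add ((iD.const_mul _).sub (iE.const_mul _))) (iA.sub iB) fun t _ => ?_
    have h1 := hW_taylor hW (γ t) (ξ t - γ t) t
    rw [add_sub_cancel] at h1
    nlinarith
  rw [intervalIntegral.integral_add iC ((iD.const_mul _).sub (iE.const_mul _)), hC, zero_add,
    intervalIntegral.integral_sub (iD.const_mul _) (iE.const_mul _),
    intervalIntegral.integral_const_mul, intervalIntegral.integral_const_mul,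
    intervalIntegral.integral_sub iA iB] at hpt
  -- Poincare inequality
  set J : ℝ := ∫ t in a..b, (u t - v t) ^ 2 with hJ
  have hJ0 : 0 ≤ J := intervalIntegral.integral_nonneg hab fun t _ => sq_nonneg _
  have hη : ∀ t ∈ Set.Icc a b, (ξ t - γ t) ^ 2 ≤ J * (t - a) := by
    intro t ht
    rcases eq_or_lt_of_le ht.1 with hat | hat
    · rw [← hat, ha, sub_self]
      simp
    · have hsub := hξ.sub (le_refl a) ht.1 ht.2
      have h1 := hsub.integral_vel
      have h2 : ∫ r in a..t, v r = γ t - γ a :=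
        intervalIntegral.integral_eq_sub_of_hasDerivAt (fun r _ => hγ.der r)
          (hvc.intervalIntegrable _ _)
      have iu : IntervalIntegrable u volume a t :=
        hsub.integrable (g := fun p => p.2.1) (by fun_prop)
      have iv : IntervalIntegrable v volume a t := hvc.intervalIntegrable _ _
      have iD' : IntervalIntegrable (fun t => (u t - v t) ^ 2) volume a t := by
        refine hsub.integrable (g := fun p => (p.2.1 - v p.2.2) ^ 2) ?_
        fun_prop
      have h3 : ∫ r in a..t, (u r - v r) = ξ t - γ t := by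
        rw [intervalIntegral.integral_sub iu iv, h1, h2, ha]
        ring
      have h4 : ∫ r in a..t, (u r - v r) ^ 2 ≤ J := by
        have h5 : IntervalIntegrable (fun t => (u t - v t) ^ 2) volume t b :=
          iD.mono_set (by
            rw [Set.uIcc_of_le ht.2, Set.uIcc_of_le hab]
            exact Set.Icc_subset_Icc_left ht.1)
        have h6 := intervalIntegral.integral_add_adjacent_intervals iD' h5
        have h7 : 0 ≤ ∫ r in t..b, (u r - v r) ^ 2 :=
          intervalIntegral.integral_nonneg ht.2 fun t _ => sq_nonneg _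
        rw [hJ]
        linarith
      have hta : 0 < t - a := by linarith
      set c : ℝ := (ξ t - γ t) / (t - a) with hc
      have hcη : c * (t - a) = ξ t - γ t := by
        rw [hc]
        field_simp
      have h8 : 0 ≤ ∫ r in a..t, ((u r - v r) ^ 2 - 2 * c * (u r - v r) + c ^ 2) := by
        refine intervalIntegral.integral_nonneg ht.1 fun r _ => ?_
        nlinarith [sq_nonneg (u r - v r - c)]
      rw [intervalIntegral.integral_add (iD'.sub ((iu.sub iv).const_mul _))
          (intervalIntegrable_const),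
        intervalIntegral.integral_sub iD' ((iu.sub iv).const_mul _),
        intervalIntegral.integral_const_mul, h3, intervalIntegral.integral_const,
        smul_eq_mul] at h8
      have h9 : c ^ 2 * (t - a) ≤ J := by
        have h10 : 2 * c * (ξ t - γ t) = 2 * (c ^ 2 * (t - a)) := by
          rw [← hcη]
          ring
        rw [h10] at h8
        linarith
      have h11 : (ξ t - γ t) ^ 2 = c ^ 2 * (t - a) * (t - a) := by
        rw [← hcη]
        ring
      rw [h11]
      exact mul_le_mul_of_nonneg_right h9 hta.le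
  have hE : ∫ t in a..b, (ξ t - γ t) ^ 2 ≤ J * ((b - a) ^ 2 / 2) := by
    have h1 : ∫ t in a..b, (ξ t - γ t) ^ 2 ≤ ∫ t in a..b, J * (t - a) :=
      intervalIntegral.integral_mono_on hab iE
        (Continuous.intervalIntegrable (by fun_prop) _ _) hη
    have h2 : ∫ t in a..b, J * (t - a) = J * ((b - a) ^ 2 / 2) := by
      have h3 : ∫ t in a..b, (t - a) = (∫ t in a..b, t) - ∫ t in a..b, a :=
        intervalIntegral.integral_sub (continuous_id.intervalIntegrable _ _)
          intervalIntegrable_const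
      rw [intervalIntegral.integral_const_mul, h3, integral_id,
        intervalIntegral.integral_const, smul_eq_mul]
      ring
    linarith
  have hfin : B / 2 * ∫ t in a..b, (ξ t - γ t) ^ 2 ≤ 1 / 4 * J := by
    have h1 : B / 2 * ∫ t in a..b, (ξ t - γ t) ^ 2 ≤ B / 2 * (J * ((b - a) ^ 2 / 2)) :=
      mul_le_mul_of_nonneg_left hE (by linarith [hW.nonneg])
    have h2 : B / 2 * (J * ((b - a) ^ 2 / 2)) = B * (b - a) ^ 2 * (J / 4) := by ring
    have h3 : B * (b - a) ^ 2 * (J / 4) ≤ 1 * (J / 4) :=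
      mul_le_mul_of_nonneg_right hB (by linarith)
    linarith
  unfold A1
  linarith

end Pool.Agent.H33.AN

end

section

/-!
# Module G4: the minimal action `Dm`: elementary properties

* The set in the definition of `Dm` is not empty (line) and bounded below by `-B (t - s)`.
* `Dm_lip`: from a curve `ξ` from `(x, s)` to `(y, t)` make the curve `ξ(τ) + (p + q τ)` from `(x', s)` to
  `(y', t)` (`Cur.add_lin`), `|q| ≤ (|x - x'| + |y - y'|)/(t - s)`; the action changes by
  `q (y - x) + q² (t - s)/2 - ∫ (W(ξ + ..) - W(ξ))`. The factor `1 + |x - x'| + |y - y'|` takes care of `q²`.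
* `Dm_triangle`: `Cur.concat`. `Dm_per`: shift.
-/

set_option autoImplicit false

open MeasureTheory
open scoped RealInnerProductSpace

namespace Pool.Agent.H33.AN

variable {Tp B : ℝ} {W W₁ W₂ : ℝ → ℝ → ℝ}

private theorem G4b_cont (hW : HW Tp W W₁ W₂ B) : Continuous fun z : ℝ × ℝ => W z.1 z.2 :=
  continuous_iff_continuousAt.2 fun z => (hW.der z.1 z.2).continuousAt

private theorem G4b_lipW (hW : HW Tp W W₁ W₂ B) (a b t : ℝ) : |W a t - W b t| ≤ B * |a - b| := by
  have hd : ∀ x : ℝ, HasDerivAt (fun x => W x t) (W₁ x t) x := by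
    intro x
    have h1 := (hW.der x t).comp_hasDerivAt x (f := fun x : ℝ => ((x, t) : ℝ × ℝ))
      ((hasDerivAt_id x).prodMk (hasDerivAt_const x t))
    have h2 : HasDerivAt (fun x => W x t)
        ((W₁ x t • ContinuousLinearMap.fst ℝ ℝ ℝ + W₂ x t • ContinuousLinearMap.snd ℝ ℝ ℝ)
          ((1 : ℝ), (0 : ℝ))) x := h1
    have h3 : (W₁ x t • ContinuousLinearMap.fst ℝ ℝ ℝ + W₂ x t • ContinuousLinearMap.snd ℝ ℝ ℝ)
          ((1 : ℝ), (0 : ℝ)) = W₁ x t := by simp
    rwa [h3] at h2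
  have h2 := Convex.norm_image_sub_le_of_norm_hasDerivWithin_le (f := fun x => W x t)
    (f' := fun x => W₁ x t) (s := Set.univ) (x := b) (y := a) (C := B)
    (fun x _ => (hd x).hasDerivWithinAt) (fun x _ => by simpa using hW.bd₁ x t) convex_univ
    (Set.mem_univ _) (Set.mem_univ _)
  simpa [Real.norm_eq_abs] using h2

private theorem G4b_one (hW : HW Tp W W₁ W₂ B) {h : ℝ} (hh : 0 < h) (s x y x' y' : ℝ) :
    Dm W s (s + h) x' y' ≤ Dm W s (s + h) x y +
      (1 / h + B * h) * (1 + |y - x| + (|x - x'| + |y - y'|)) * (|x - x'| + |y - y'|) := by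
  have hB := hW.nonneg
  apply le_of_forall_pos_le_add
  intro ε hε
  obtain ⟨ξ, u, hc, hx, hy, hA⟩ := exists_near hW (s := s) (t := s + h) (by linarith) x y hε
  set δ : ℝ := |x - x'| + |y - y'| with hδ
  have hδ0 : 0 ≤ δ := by positivity
  set q : ℝ := ((y' - y) - (x' - x)) / h with hq
  set p : ℝ := x' - x - q * s with hp
  have hqh : q * h = (y' - y) - (x' - x) := by rw [hq]; field_simp
  have hqa : |q| ≤ δ / h := by
    rw [hq, abs_div, abs_of_pos hh]
    apply div_le_div_of_nonneg_right _ hh.le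
    calc |(y' - y) - (x' - x)| ≤ |y' - y| + |x' - x| := abs_sub _ _
      _ = δ := by rw [hδ, abs_sub_comm y' y, abs_sub_comm x' x]; ring
  have hc' := hc.add_lin p q
  have hs : ξ s + (p + q * s) = x' := by
    rw [hx, hp]; ring
  have ht : ξ (s + h) + (p + q * (s + h)) = y' := by
    rw [hy, hp]
    linarith
  have h1 := Dm_le hW hc'
  rw [hs, ht] at h1
  have hWc := G4b_cont hW
  -- integrability
  have i1 : IntervalIntegrable (fun t => (u t ^ 2 / 2 - W (ξ t) t)) volume s (s + h) :=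
    hc.integrable (g := fun z => z.2.1 ^ 2 / 2 - W z.1 z.2.2) (by
      have : Continuous fun z : ℝ × ℝ × ℝ => W z.1 z.2.2 :=
        hWc.comp (continuous_fst.prodMk (continuous_snd.comp continuous_snd))
      fun_prop)
  have i2 : IntervalIntegrable (fun t => q * u t) volume s (s + h) :=
    hc.integrable (g := fun z => q * z.2.1) (by fun_prop)
  have i3 : IntervalIntegrable (fun t => ((u t + q) ^ 2 / 2 - W (ξ t + (p + q * t)) t)) volume
      s (s + h) :=
    hc'.integrable (g := fun z => z.2.1 ^ 2 / 2 - W z.1 z.2.2) (by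
      have : Continuous fun z : ℝ × ℝ × ℝ => W z.1 z.2.2 :=
        hWc.comp (continuous_fst.prodMk (continuous_snd.comp continuous_snd))
      fun_prop)
  have i4 : IntervalIntegrable (fun _ : ℝ => q ^ 2 / 2 + B * δ) volume s (s + h) :=
    intervalIntegrable_const
  have hkey : A1 W s (s + h) (fun t => ξ t + (p + q * t)) (fun t => u t + q) ≤
      A1 W s (s + h) ξ u + q * (y - x) + (q ^ 2 / 2 + B * δ) * h := by
    have h2 : A1 W s (s + h) (fun t => ξ t + (p + q * t)) (fun t => u t + q) ≤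
        ∫ t in s..(s + h), ((u t ^ 2 / 2 - W (ξ t) t) + q * u t + (q ^ 2 / 2 + B * δ)) := by
      unfold A1
      apply intervalIntegral.integral_mono_on (by linarith) i3 ((i1.add i2).add i4)
      intro t ht
      have h3 := (abs_le.1 (G4b_lipW hW (ξ t) (ξ t + (p + q * t)) t)).2
      have h4 : |ξ t - (ξ t + (p + q * t))| ≤ δ := by
        have h5 : ξ t - (ξ t + (p + q * t)) =
            ((s + h - t) / h) * (x - x') + ((t - s) / h) * (y - y') := by
          rw [hp, hq]
          field_simp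
          ring
        rw [h5]
        have h6 : 0 ≤ (s + h - t) / h := div_nonneg (by linarith [ht.2]) hh.le
        have h7 : (s + h - t) / h ≤ 1 := by rw [div_le_one hh]; linarith [ht.1]
        have h8 : 0 ≤ (t - s) / h := div_nonneg (by linarith [ht.1]) hh.le
        have h9 : (t - s) / h ≤ 1 := by rw [div_le_one hh]; linarith [ht.2]
        calc |((s + h - t) / h) * (x - x') + ((t - s) / h) * (y - y')| ≤
              |((s + h - t) / h) * (x - x')| + |((t - s) / h) * (y - y')| := abs_add_le _ _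
          _ = ((s + h - t) / h) * |x - x'| + ((t - s) / h) * |y - y'| := by
              rw [abs_mul, abs_mul, abs_of_nonneg h6, abs_of_nonneg h8]
          _ ≤ 1 * |x - x'| + 1 * |y - y'| := by gcongr
          _ = δ := by rw [hδ]; ring
      have h10 : W (ξ t) t - W (ξ t + (p + q * t)) t ≤ B * δ :=
        h3.trans (mul_le_mul_of_nonneg_left h4 hB)
      nlinarith
    have h11 : ∫ t in s..(s + h), ((u t ^ 2 / 2 - W (ξ t) t) + q * u t + (q ^ 2 / 2 + B * δ)) =
        A1 W s (s + h) ξ u + q * (y - x) + (q ^ 2 / 2 + B * δ) * h := by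
      rw [intervalIntegral.integral_add (i1.add i2) i4, intervalIntegral.integral_add i1 i2,
        intervalIntegral.integral_const_mul, hc.integral_vel, hx, hy,
        intervalIntegral.integral_const]
      unfold A1
      simp only [smul_eq_mul]
      ring
    rw [← h11]
    exact h2
  have hq1 : q * (y - x) ≤ δ / h * |y - x| := by
    calc q * (y - x) ≤ |q * (y - x)| := le_abs_self _
      _ = |q| * |y - x| := abs_mul _ _
      _ ≤ δ / h * |y - x| := mul_le_mul_of_nonneg_right hqa (abs_nonneg _)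
  have hq2 : q ^ 2 * h ≤ δ ^ 2 / h := by
    have : q ^ 2 ≤ (δ / h) ^ 2 := by
      rw [← sq_abs q]
      exact pow_le_pow_left₀ (abs_nonneg _) hqa 2
    calc q ^ 2 * h ≤ (δ / h) ^ 2 * h := mul_le_mul_of_nonneg_right this hh.le
      _ = δ ^ 2 / h := by field_simp
  have hfin : q * (y - x) + (q ^ 2 / 2 + B * δ) * h ≤
      (1 / h + B * h) * (1 + |y - x| + δ) * δ := by
    have e1 : (1 / h + B * h) * (1 + |y - x| + δ) * δ =
        δ / h * |y - x| + δ ^ 2 / h + B * δ * h + (δ / h + B * h * |y - x| * δ + B * h * δ * δ) := by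
      field_simp
      ring
    have e2 : 0 ≤ δ / h + B * h * |y - x| * δ + B * h * δ * δ := by positivity
    have e3 : 0 ≤ δ ^ 2 / h := by positivity
    rw [e1]
    nlinarith
  linarith

theorem Dm_lip (hW : HW Tp W W₁ W₂ B) {h : ℝ} (hh : 0 < h) :
    ∃ C : ℝ, 0 ≤ C ∧ ∀ s x y x' y', |Dm W s (s + h) x y - Dm W s (s + h) x' y'| ≤
      C * (1 + |y - x| + |x - x'| + |y - y'|) * (|x - x'| + |y - y'|) := by
  have hB := hW.nonneg
  have hC : 0 ≤ 1 / h + B * h := by positivity
  refine ⟨2 * (1 / h + B * h), by positivity, fun s x y x' y' => ?_⟩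
  have h1 := G4b_one hW hh s x y x' y'
  have h2 := G4b_one hW hh s x' y' x y
  set δ : ℝ := |x - x'| + |y - y'| with hδ
  have hδ0 : 0 ≤ δ := by positivity
  have hδ' : |x' - x| + |y' - y| = δ := by rw [hδ, abs_sub_comm x' x, abs_sub_comm y' y]
  rw [hδ'] at h2
  have h3 : |y' - x'| ≤ |y - x| + δ := by
    have e : y' - x' = (y - x) + ((x - x') + (y' - y)) := by ring
    rw [e]
    calc |(y - x) + ((x - x') + (y' - y))| ≤ |y - x| + |(x - x') + (y' - y)| := abs_add_le _ _
      _ ≤ |y - x| + (|x - x'| + |y' - y|) := by gcongr; exact abs_add_le _ _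
      _ = |y - x| + δ := by rw [hδ, abs_sub_comm y' y]
  have h4 : (1 / h + B * h) * (1 + |y' - x'| + δ) * δ ≤
      2 * (1 / h + B * h) * (1 + |y - x| + δ) * δ := by
    have e1 : (1 / h + B * h) * (1 + |y' - x'| + δ) ≤ 2 * (1 / h + B * h) * (1 + |y - x| + δ) := by
      have e2 : 1 + |y' - x'| + δ ≤ 2 * (1 + |y - x| + δ) := by
        have := abs_nonneg (y - x)
        linarith
      calc (1 / h + B * h) * (1 + |y' - x'| + δ) ≤ (1 / h + B * h) * (2 * (1 + |y - x| + δ)) :=
            mul_le_mul_of_nonneg_left e2 hC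
        _ = _ := by ring
    exact mul_le_mul_of_nonneg_right e1 hδ0
  have h5 : (1 / h + B * h) * (1 + |y - x| + δ) * δ ≤
      2 * (1 / h + B * h) * (1 + |y - x| + δ) * δ := by
    have : 0 ≤ (1 / h + B * h) * (1 + |y - x| + δ) * δ := by positivity
    nlinarith
  have e : 1 + |y - x| + |x - x'| + |y - y'| = 1 + |y - x| + δ := by rw [hδ]; ring
  rw [e, abs_le]
  constructor <;> linarith

end Pool.Agent.H33.AN

end
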