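import Pool.Agent.H47.B0.M01
import Pool.Agent.H47.B0.M05

/-! The parts of this file: H33.AN.Pot, H33.AN.Orb, H33.AN.Trap, H33.AN.P.G7a, H33.AN.P.G6a, H33.AN.P.L1a, H33.AN.P.J2c, H33.AN.P.K2a, H33.AN.P.G7b. -/

section

/-!
# Project AUB2: potentials and kinetic energies
-/

set_option autoImplicit false

open MeasureTheory
open scoped RealInnerProductSpace

namespace Pool.Agent.H33.AN

open Pool.Agent.H33.AM

variable {n : ℕ}

/-- Hypotheses on a potential `V(x, t)`, `ℤⁿ`-periodic in `x` and `Tp`-periodic in `t`, with the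
gradient `F` in `x` and the derivative `Vt` in `t`. -/
structure HV2 (Tp : ℝ) (V : EuclideanSpace ℝ (Fin n) → ℝ → ℝ)
    (F : EuclideanSpace ℝ (Fin n) → ℝ → EuclideanSpace ℝ (Fin n))
    (Vt : EuclideanSpace ℝ (Fin n) → ℝ → ℝ) (B : ℝ) : Prop where
  nonneg : 0 ≤ B
  der : ∀ x t, HasFDerivAt (fun z : EuclideanSpace ℝ (Fin n) × ℝ => V z.1 z.2)
    ((innerSL ℝ (F x t)).comp (ContinuousLinearMap.fst ℝ (EuclideanSpace ℝ (Fin n)) ℝ) +
      Vt x t • ContinuousLinearMap.snd ℝ (EuclideanSpace ℝ (Fin n)) ℝ) (x, t)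
  contt : Continuous fun z : EuclideanSpace ℝ (Fin n) × ℝ => Vt z.1 z.2
  per : ∀ x t (k : Fin n → ℤ), V (x + zv k) t = V x t
  pert : ∀ x t, V x (t + Tp) = V x t
  bd : ∀ x t, |V x t| ≤ B
  bdF : ∀ x t, ‖F x t‖ ≤ B
  bdt : ∀ x t, |Vt x t| ≤ B
  lip : ∀ x t x' t', ‖F x t - F x' t'‖ ≤ B * (‖x - x'‖ + |t - t'|)

/-- Hypotheses on the matrix `G` of the kinetic energy. -/
structure HG (G : EuclideanSpace ℝ (Fin n) →L[ℝ] EuclideanSpace ℝ (Fin n)) (κ₁ κ₂ : ℝ) :
    Prop where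
  pos : 0 < κ₁
  pos₂ : 0 < κ₂
  symm : ∀ v w, ⟪G v, w⟫ = ⟪v, G w⟫
  lo : ∀ v, κ₁ * ‖v‖ ^ 2 ≤ ⟪G v, v⟫
  hi : ∀ v, ⟪G v, v⟫ ≤ κ₂ * ‖v‖ ^ 2

/-- The Lagrangian `L(x, v, t) = ⟪G v, v⟫ / 2 - V(x, t)`. -/
noncomputable def lag2 (G : EuclideanSpace ℝ (Fin n) →L[ℝ] EuclideanSpace ℝ (Fin n))
    (V : EuclideanSpace ℝ (Fin n) → ℝ → ℝ) (x v : EuclideanSpace ℝ (Fin n)) (t : ℝ) : ℝ :=
  ⟪G v, v⟫ / 2 - V x t

/-- The Lagrangian in the frame moving with the velocity `r m`, minus a null Lagrangian. -/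
noncomputable def mlag (G : EuclideanSpace ℝ (Fin n) →L[ℝ] EuclideanSpace ℝ (Fin n))
    (V : EuclideanSpace ℝ (Fin n) → ℝ → ℝ) (q : EuclideanSpace ℝ (Fin n)) (m : Fin n → ℤ)
    (r E : ℝ) (x v : EuclideanSpace ℝ (Fin n)) (t : ℝ) : ℝ :=
  ⟪G (v - q), v - q⟫ / 2 - V (x + (r * t) • zv m) t - E

end Pool.Agent.H33.AN

end

section

/-!
# Project AUB2: solutions of the Euler-Lagrange equation, discrete action
-/

set_option autoImplicit false

open MeasureTheory
open scoped RealInnerProductSpace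

namespace Pool.Agent.H33.AN

open Pool.Agent.H33.AM

variable {n : ℕ}

/-- Solutions of the Euler-Lagrange equation of `⟪G v, v⟫ / 2 - V(x, t)`. -/
structure Sol2 (G : EuclideanSpace ℝ (Fin n) →L[ℝ] EuclideanSpace ℝ (Fin n))
    (F : EuclideanSpace ℝ (Fin n) → ℝ → EuclideanSpace ℝ (Fin n))
    (γ v : ℝ → EuclideanSpace ℝ (Fin n)) : Prop where
  cont : Continuous v
  der : ∀ t, HasDerivAt γ (v t) t
  el : ∀ t, HasDerivAt (fun s => G (v s)) (-F (γ t) t) t

/-- The vector field of the Euler-Lagrange equation in the coordinates `(x, v, t)`, `G' = G⁻¹`. -/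
noncomputable def field2 (G' : EuclideanSpace ℝ (Fin n) →L[ℝ] EuclideanSpace ℝ (Fin n))
    (F : EuclideanSpace ℝ (Fin n) → ℝ → EuclideanSpace ℝ (Fin n))
    (z : EuclideanSpace ℝ (Fin n) × EuclideanSpace ℝ (Fin n) × ℝ) :
    EuclideanSpace ℝ (Fin n) × EuclideanSpace ℝ (Fin n) × ℝ :=
  (z.2.1, -G' (F z.1 z.2.2), 1)

/-- The discrete action, `v_i = (x_{i + 1} - x_i) / τ`, `t_i = i τ`. -/
noncomputable def Sd2 (G : EuclideanSpace ℝ (Fin n) →L[ℝ] EuclideanSpace ℝ (Fin n))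
    (V : EuclideanSpace ℝ (Fin n) → ℝ → ℝ) (τ : ℝ) (N : ℕ) (x : ℤ → EuclideanSpace ℝ (Fin n)) : ℝ :=
  ∑ i ∈ Finset.range N, τ * lag2 G V (x i) ((1 / τ) • (x (i + 1) - x i)) (i * τ)

/-- Minimisers of the discrete action, `N` steps of length `T / N`, closed modulo `k`. -/
def IsDM2 (G : EuclideanSpace ℝ (Fin n) →L[ℝ] EuclideanSpace ℝ (Fin n))
    (V : EuclideanSpace ℝ (Fin n) → ℝ → ℝ) (T : ℝ) (N : ℕ) (k : Fin n → ℤ)
    (x : ℤ → EuclideanSpace ℝ (Fin n)) : Prop :=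
  (∀ i, x (i + N) = x i + zv k) ∧
    ∀ y : ℤ → EuclideanSpace ℝ (Fin n), (∀ i, y (i + N) = y i + zv k) →
      Sd2 G V (T / N) N x ≤ Sd2 G V (T / N) N y

end Pool.Agent.H33.AN

end

section

/-!
# Project AUB2: definitions for the trapping argument (time-periodic)
-/

set_option autoImplicit false

open MeasureTheory
open scoped RealInnerProductSpace

namespace Pool.Agent.H33.AN

open Pool.Agent.H33.AM

/-- A barrier `Bc` for the closed orbits of the potential `w`, 1-periodic in `x` and `Q`-periodic in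
`t`: `E₁` is the minimal action of the closed curves over one period `Q`, and closed curves which
meet an integer translate of `Bc` cost at least `μ` more. -/
structure Bar (w : ℝ → ℝ → ℝ) (Q : ℕ) (E₁ μ : ℝ) (Bc : ℝ → ℝ) : Prop where
  Q_pos : 0 < Q
  μ_pos : 0 < μ
  cont : Continuous Bc
  per : ∀ t, Bc (t + Q) = Bc t
  crit : ∀ (j : ℕ) (s : ℝ) (ξ u : ℝ → ℝ), 0 < j → Cur s (s + j * Q) ξ u → ξ (s + j * Q) = ξ s →
    j * E₁ ≤ A1 w s (s + j * Q) ξ u
  att : ∃ ξ u : ℝ → ℝ, (∀ s t, s ≤ t → Cur s t ξ u) ∧ (∀ t, ξ (t + Q) = ξ t) ∧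
    (∀ t, u (t + Q) = u t) ∧ A1 w 0 Q ξ u = E₁
  mark : ∀ (j : ℕ) (s : ℝ) (ξ u : ℝ → ℝ), 0 < j → Cur s (s + j * Q) ξ u → ξ (s + j * Q) = ξ s →
    (∃ t ∈ Set.Icc s (s + j * Q), ∃ k : ℤ, ξ t = Bc t + k) → j * E₁ + μ ≤ A1 w s (s + j * Q) ξ u

/-- The normalised action on the line. -/
noncomputable def c1 (w : ℝ → ℝ → ℝ) (Q : ℕ) (E₁ s t : ℝ) (ξ u : ℝ → ℝ) : ℝ :=
  A1 w s t ξ u - E₁ / Q * (t - s)

/-- A level: a closed curve `a` with velocity `ua`, with the periodic gauge function `ψ` and the excess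
`ωa ≤ ω` of the action over one period. -/
structure Lev (w : ℝ → ℝ → ℝ) (Q : ℕ) (E₁ ω R : ℝ) (a ua ψ : ℝ → ℝ) : Prop where
  cur : ∀ s t, s ≤ t → Cur s t a ua
  contA : Continuous a
  per : ∀ t, a (t + Q) = a t
  bd : ∀ t, |a t| ≤ R
  bdu : ∀ t, |ua t| ≤ R
  ψper : ∀ t, ψ (t + Q) = ψ t
  ψbd : ∀ t, |ψ t| ≤ R
  cost : ∃ ωa : ℝ, 0 ≤ ωa ∧ ωa ≤ ω ∧
    ∀ s t, s ≤ t → c1 w Q E₁ s t a ua = ψ t - ψ s + ωa / Q * (t - s)

/-- Lagrangians `ℓ(x, v, t)`. -/
structure HL2 {n : ℕ} (Q : ℕ) (l : EuclideanSpace ℝ (Fin n) → EuclideanSpace ℝ (Fin n) → ℝ → ℝ) :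
    Prop where
  cont : Continuous fun p : EuclideanSpace ℝ (Fin n) × EuclideanSpace ℝ (Fin n) × ℝ =>
    l p.1 p.2.1 p.2.2
  per : ∀ x v t (k : Fin n → ℤ), l (x + zv k) v t = l x v t
  pert : ∀ x v t, l x v (t + Q) = l x v t

/-- There is a curve on `[a, b]` from `x` to `y` with the action `r` with respect to `ℓ + e`. -/
def Conn2 {n : ℕ} (l : EuclideanSpace ℝ (Fin n) → EuclideanSpace ℝ (Fin n) → ℝ → ℝ) (e a b : ℝ)
    (x y : EuclideanSpace ℝ (Fin n)) (r : ℝ) : Prop :=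
  ∃ ξ u : ℝ → EuclideanSpace ℝ (Fin n), Adm a b ξ u ∧ ξ a = x ∧ ξ b = y ∧
    ∫ t in a..b, (l (ξ t) (u t) t + e) = r

/-- Curves which are closed modulo `k` with `k₀ · k = 0`, over a multiple of the period `Q`, have
nonnegative action with respect to `ℓ + e`. -/
def Crit2 {n : ℕ} (l : EuclideanSpace ℝ (Fin n) → EuclideanSpace ℝ (Fin n) → ℝ → ℝ)
    (k₀ : Fin n → ℤ) (Q : ℕ) (e : ℝ) : Prop :=
  ∀ (j : ℕ) (s : ℝ) (x : EuclideanSpace ℝ (Fin n)) (k : Fin n → ℤ) (r : ℝ), dot k₀ k = 0 →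
    Conn2 l e s (s + j * Q) x (x + zv k) r → 0 ≤ r

/-- The trapping data. -/
structure Trap2 {n : ℕ} (l : EuclideanSpace ℝ (Fin n) → EuclideanSpace ℝ (Fin n) → ℝ → ℝ)
    (k₀ m P : Fin n → ℤ) (s : ℝ) (e₀ : EuclideanSpace ℝ (Fin n)) (Q : ℕ) (w : ℝ → ℝ → ℝ)
    (E₁ M κ δ : ℝ) : Prop where
  hl : HL2 Q l
  km : dot k₀ m = 1
  kP : dot k₀ P = 0
  s_pos : 0 < s
  ke : ⟪zv k₀, e₀⟫ = 1
  M_pos : 0 < M
  κ_pos : 0 < κ
  δ_nonneg : 0 ≤ δ
  δ_le : δ ≤ 1 / 2
  lo : ∃ δ' : ℝ, 0 ≤ δ' ∧ δ' ≤ δ ∧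
    ∀ (a b : ℝ) (x u : ℝ → EuclideanSpace ℝ (Fin n)), Adm a b x u →
      M * (1 - δ') * c1 w Q E₁ a b (fun t => ⟪zv k₀, x t⟫) (fun t => ⟪zv k₀, u t⟫) - δ * (b - a) - δ ≤
        ∫ t in a..b, l (x t) (u t) t
  hi : ∀ (a b : ℝ) (x u : ℝ → EuclideanSpace ℝ (Fin n)), Adm a b x u →
    (∫ t in a..b, l (x t) (u t) t) ≤
      M * c1 w Q E₁ a b (fun t => ⟪zv k₀, x t⟫) (fun t => ⟪zv k₀, u t⟫) +
        κ / 2 * (∫ t in a..b, ‖u t - s • zv P - ⟪zv k₀, u t⟫ • e₀‖ ^ 2) + δ * (b - a) + δ +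
        δ * (∫ t in a..b, ‖u t - s • zv P‖)

/-- Points of the moving level `lvl` can be connected at a cost at most `κ`, up to the gauge `ψ`. -/
def Closes2 {n : ℕ} (l : EuclideanSpace ℝ (Fin n) → EuclideanSpace ℝ (Fin n) → ℝ → ℝ)
    (k₀ : Fin n → ℤ) (Q : ℕ) (e κ : ℝ) (lvl ψ : ℝ → ℝ) : Prop :=
  ∀ (t t' : ℝ) (x y : EuclideanSpace ℝ (Fin n)), ⟪zv k₀, x⟫ = lvl t → ⟪zv k₀, y⟫ = lvl t' →
    ∃ (b : ℝ) (i : ℤ) (k : Fin n → ℤ) (r : ℝ), b = t' + i * Q ∧ t ≤ b ∧ dot k₀ k = 0 ∧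
      Conn2 l e t b x (y + zv k) r ∧ r ≤ κ + ψ t' - ψ t

/-- Rough connections. -/
def Rough2 {n : ℕ} (l : EuclideanSpace ℝ (Fin n) → EuclideanSpace ℝ (Fin n) → ℝ → ℝ)
    (k₀ : Fin n → ℤ) (Q : ℕ) (e C₁ : ℝ) : Prop :=
  ∀ (t t' : ℝ) (x y : EuclideanSpace ℝ (Fin n)), |⟪zv k₀, y⟫ - ⟪zv k₀, x⟫| ≤ 1 →
    ∃ (b : ℝ) (i : ℤ) (k : Fin n → ℤ) (r : ℝ), b = t' + i * Q ∧ t ≤ b ∧ dot k₀ k = 0 ∧
      Conn2 l e t b x (y + zv k) r ∧ r ≤ C₁

/-- The conclusion of the trapping lemma. -/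
def Trapped2 {n : ℕ} (l : EuclideanSpace ℝ (Fin n) → EuclideanSpace ℝ (Fin n) → ℝ → ℝ)
    (k₀ : Fin n → ℤ) (Q : ℕ) : Prop :=
  ∃ e fu fd C : ℝ, -fd < fu ∧ Crit2 l k₀ Q e ∧ (∀ e' < e, ¬ Crit2 l k₀ Q e') ∧
    ∀ η ∈ Set.Icc (-fd) fu, ∀ (a b : ℝ) (x y : EuclideanSpace ℝ (Fin n)) (r : ℝ),
      Conn2 l e a b x y r → η * (⟪zv k₀, y⟫ - ⟪zv k₀, x⟫) - C ≤ r

/-- A time-periodic Lagrangian has a flat of the action functional. -/
def Flat2 {n : ℕ} (L : EuclideanSpace ℝ (Fin n) → EuclideanSpace ℝ (Fin n) → ℝ → ℝ) : Prop :=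
  ∃ (k₀ : Fin n → ℤ) (c₀ : EuclideanSpace ℝ (Fin n)) (E₀ η₁ η₂ C : ℝ) (p : ℤ) (Q : ℕ),
    k₀ ≠ 0 ∧ η₁ < η₂ ∧ 0 < Q ∧
    (∀ η ∈ Set.Icc η₁ η₂, ∀ (a b : ℝ) (x u : ℝ → EuclideanSpace ℝ (Fin n)), Adm a b x u →
      -C ≤ ∫ t in a..b, (L (x t) (u t) t - ⟪c₀ + η • zv k₀, u t⟫ + (E₀ + η * ((p : ℝ) / Q)))) ∧
    ∀ E' < E₀, ∃ (j : ℕ) (s : ℝ) (x u : ℝ → EuclideanSpace ℝ (Fin n)) (k : Fin n → ℤ), 0 < j ∧
      Adm s (s + j * Q) x u ∧ x (s + j * Q) = x s + zv k ∧ dot k₀ k = j * p ∧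
      (∫ t in s..(s + j * Q), (L (x t) (u t) t - ⟪c₀, u t⟫ + E')) < 0

end Pool.Agent.H33.AN

end

section

/-!
# Module G7: combinatorics of Monge functions

Let `x 0, …, x j` be real numbers.
* `cyc` (`x j = x 0`): induction on `j`. `j = 1`: equality. `j ≥ 2`: let `x k` be the maximum of the cycle;
  with its neighbours `y = x (k - 1)`, `z = x (k + 1)` (cyclically): `y ≤ x k`, `z ≤ x k`, so
  `D (x k) (x k) + D y z ≤ D y (x k) + D (x k) z`; remove `x k` from the cycle. (It may be convenient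
  to rotate the cycle so that the maximum is in the middle or to state it for lists.)
* `chain`: induction on `j`. If `x` is monotone or antitone on `{0, …, j}`, use
  `D (x i) (x (i + 1)) ≥ D (x i) (x i) - L |x (i + 1) - x i|` and telescope. Otherwise there is a local
  extremum `x k`, `0 < k < j` (`x (k - 1) ≤ x k ≥ x (k + 1)` or both reversed), and by the Monge property
  `D (x (k - 1)) (x k) + D (x k) (x (k + 1)) ≥ D (x (k - 1)) (x (k + 1)) + D (x k) (x k)`; remove `x k`.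
-/

set_option autoImplicit false

open MeasureTheory
open scoped RealInnerProductSpace

namespace Pool.Agent.H33.AN

/-- the sequence without the term `p + 1` -/
private noncomputable def G7a_rm (p : ℕ) (x : ℕ → ℝ) (i : ℕ) : ℝ := if i ≤ p then x i else x (i + 1)

private lemma G7a_rm_le {p i : ℕ} (h : i ≤ p) (x : ℕ → ℝ) : G7a_rm p x i = x i := if_pos h

private lemma G7a_rm_gt {p i : ℕ} (h : p < i) (x : ℕ → ℝ) : G7a_rm p x i = x (i + 1) :=
  if_neg (by omega)

private lemma G7a_rm_sum (F : ℝ → ℝ → ℝ) (x : ℕ → ℝ) (p r : ℕ) :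
    ∑ i ∈ Finset.range (p + 1 + r), F (G7a_rm p x i) (G7a_rm p x (i + 1)) =
      ∑ i ∈ Finset.range (p + 2 + r), F (x i) (x (i + 1)) - F (x p) (x (p + 1))
        - F (x (p + 1)) (x (p + 2)) + F (x p) (x (p + 2)) := by
  rw [Finset.sum_range_add _ (p + 1) r, Finset.sum_range_add _ (p + 2) r, Finset.sum_range_succ,
    Finset.sum_range_succ, Finset.sum_range_succ]
  have h1 : ∑ i ∈ Finset.range p, F (G7a_rm p x i) (G7a_rm p x (i + 1)) =
      ∑ i ∈ Finset.range p, F (x i) (x (i + 1)) := by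
    apply Finset.sum_congr rfl
    intro i hi
    rw [Finset.mem_range] at hi
    rw [G7a_rm_le (by omega), G7a_rm_le (by omega)]
  have h2 : ∑ i ∈ Finset.range r, F (G7a_rm p x (p + 1 + i)) (G7a_rm p x (p + 1 + i + 1)) =
      ∑ i ∈ Finset.range r, F (x (p + 2 + i)) (x (p + 2 + i + 1)) := by
    apply Finset.sum_congr rfl
    intro i _
    rw [G7a_rm_gt (by omega), G7a_rm_gt (by omega)]
    have e1 : p + 1 + i + 1 = p + 2 + i := by ring
    rw [e1]
  rw [h1, h2, G7a_rm_le le_rfl, G7a_rm_gt (Nat.lt_succ_self p)]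
  ring

/-- an interior term which is a maximum -/
private lemma G7a_max (x : ℕ → ℝ) {j : ℕ} (hj : 2 ≤ j) (h0 : x 0 ≤ x 1) (h1 : x j ≤ x 1) :
    ∃ p r, j = p + 2 + r ∧ x p ≤ x (p + 1) ∧ x (p + 2) ≤ x (p + 1) := by
  obtain ⟨k, hk, hmax⟩ := Finset.exists_max_image (Finset.Icc 1 (j - 1)) x
    ⟨1, Finset.mem_Icc.2 ⟨le_rfl, by omega⟩⟩
  rw [Finset.mem_Icc] at hk
  have h2 : x 1 ≤ x k := hmax 1 (Finset.mem_Icc.2 ⟨le_rfl, by omega⟩)
  have h3 : ∀ i ≤ j, x i ≤ x k := by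
    intro i hi
    rcases Nat.eq_zero_or_pos i with h | h
    · rw [h]; exact h0.trans h2
    · rcases Nat.lt_or_ge i j with h' | h'
      · exact hmax i (Finset.mem_Icc.2 ⟨h, by omega⟩)
      · have : i = j := le_antisymm hi h'
        rw [this]; exact h1.trans h2
  obtain ⟨p, rfl⟩ : ∃ p, k = p + 1 := ⟨k - 1, by omega⟩
  exact ⟨p, j - (p + 2), by omega, h3 p (by omega), h3 (p + 2) (by omega)⟩

/-- an interior extremum -/
private lemma G7a_ext {D : ℝ → ℝ → ℝ}
    (hM : ∀ x x' y y', x ≤ x' → y ≤ y' → D x y + D x' y' ≤ D x y' + D x' y) (x : ℕ → ℝ) {j : ℕ}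
    (hj : 2 ≤ j) (h : (x 0 ≤ x 1 ∧ x j ≤ x 1) ∨ (x 1 ≤ x 0 ∧ x 1 ≤ x j)) :
    ∃ p r, j = p + 2 + r ∧ D (x p) (x (p + 2)) + D (x (p + 1)) (x (p + 1)) ≤
      D (x p) (x (p + 1)) + D (x (p + 1)) (x (p + 2)) := by
  rcases h with ⟨h0, h1⟩ | ⟨h0, h1⟩
  · obtain ⟨p, r, hpr, h2, h3⟩ := G7a_max x hj h0 h1
    exact ⟨p, r, hpr, hM _ _ _ _ h2 h3⟩
  · obtain ⟨p, r, hpr, h2, h3⟩ := G7a_max (fun i => -x i) hj (neg_le_neg h0) (neg_le_neg h1)
    refine ⟨p, r, hpr, ?_⟩
    have := hM _ _ _ _ (neg_le_neg_iff.1 h2) (neg_le_neg_iff.1 h3)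
    linarith

theorem cyc {D : ℝ → ℝ → ℝ}
    (hM : ∀ x x' y y', x ≤ x' → y ≤ y' → D x y + D x' y' ≤ D x y' + D x' y) (j : ℕ) (x : ℕ → ℝ)
    (hx : x j = x 0) :
    ∑ i ∈ Finset.range j, D (x i) (x i) ≤ ∑ i ∈ Finset.range j, D (x i) (x (i + 1)) := by
  induction j generalizing x with
  | zero => simp
  | succ m ih =>
    rcases Nat.eq_zero_or_pos m with hm | hm
    · subst hm
      simp only [zero_add] at hx ⊢
      rw [Finset.sum_range_one, Finset.sum_range_one, zero_add, hx]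
    · have hcase : (x 0 ≤ x 1 ∧ x (m + 1) ≤ x 1) ∨ (x 1 ≤ x 0 ∧ x 1 ≤ x (m + 1)) := by
        rw [hx]
        rcases le_total (x 0) (x 1) with h | h
        · exact Or.inl ⟨h, h⟩
        · exact Or.inr ⟨h, h⟩
      obtain ⟨p, r, hpr, hE⟩ := G7a_ext hM x (by omega) hcase
      have hm' : m = p + 1 + r := by omega
      have h1 := ih (G7a_rm p x) (by
        rw [hm', G7a_rm_gt (by omega), G7a_rm_le (Nat.zero_le _), ← hx, hm'])
      have h2 := G7a_rm_sum D x p r
      have h3 := G7a_rm_sum (fun a _ => D a a) x p r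
      rw [hm', h2, h3] at h1
      have e : p + 1 + r + 1 = p + 2 + r := by ring
      rw [hm', e]
      linarith

end Pool.Agent.H33.AN

end

section

/-!
# Module G6: minimum and maximum of two curves; the Monge property

* `minmax`: `u₁ t = if x t ≤ y t then u t else w t` and `u₂` the other one, except that the exceptional
  set contains the times `t` with `x t = y t`, `u t ≠ w t` (both curves differentiable at `t`): such
  times are isolated in `{x = y}`, hence countable. At `t` with `x t = y t` and `u t = w t` the minimum and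
  the maximum have the derivative `u t`.
* `monge`: let `ξ` go from `x` to `y'` and `ξ'` from `x'` to `y` (almost minimising): `min ξ ξ'` goes from `x`
  to `y`, `max ξ ξ'` goes from `x'` to `y'`.
-/

set_option autoImplicit false

open MeasureTheory
open scoped RealInnerProductSpace

namespace Pool.Agent.H33.AN

variable {Tp B : ℝ} {W W₁ W₂ : ℝ → ℝ → ℝ}

private theorem g6a_cont (hW : HW Tp W W₁ W₂ B) : Continuous fun z : ℝ × ℝ => W z.1 z.2 :=
  continuous_iff_continuousAt.2 fun z => (hW.der z.1 z.2).continuousAt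

private theorem g6a_int (hW : HW Tp W W₁ W₂ B) {a b : ℝ} {ξ u : ℝ → ℝ} (h : Cur a b ξ u) :
    IntervalIntegrable (fun t => u t ^ 2 / 2 - W (ξ t) t) volume a b := by
  have hg : Continuous fun z : ℝ × ℝ × ℝ => z.2.1 ^ 2 / 2 - W z.1 z.2.2 := by
    have h1 := g6a_cont hW
    have h2 : Continuous fun z : ℝ × ℝ × ℝ => W z.1 z.2.2 :=
      h1.comp (continuous_fst.prodMk (continuous_snd.comp continuous_snd))
    fun_prop
  exact h.integrable hg

/-- The zeros of a function with nonzero derivative are countable. -/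
private theorem g6a_countable (f : ℝ → ℝ) (E : Set ℝ)
    (hE : ∀ t ∈ E, f t = 0 ∧ ∃ f' : ℝ, f' ≠ 0 ∧ HasDerivAt f f' t) : E.Countable := by
  have hd : DiscreteTopology E := by
    rw [discreteTopology_subtype_iff]
    intro t ht
    obtain ⟨_, f', hf', hder⟩ := hE t ht
    have h1 := hder.eventually_ne (c := 0) hf'
    rw [Filter.inf_principal_eq_bot]
    filter_upwards [h1] with z hz hzE
    exact hz (hE z hzE).1
  exact Set.countable_coe_iff.1 (countable_of_Lindelof_of_discrete (X := E))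

private theorem g6a_abs (f : ℝ → ℝ) (t : ℝ) (h0 : f t = 0) (h : HasDerivAt f 0 t) :
    HasDerivAt (fun s => |f s|) 0 t := by
  rw [hasDerivAt_iff_isLittleO] at h ⊢
  simp only [h0, sub_zero, smul_zero, abs_zero] at h ⊢
  exact h.abs_left

private theorem g6a_min (x y : ℝ → ℝ) (t d : ℝ) (h0 : x t = y t) (hx : HasDerivAt x d t)
    (hy : HasDerivAt y d t) : HasDerivAt (fun s => min (x s) (y s)) d t ∧
      HasDerivAt (fun s => max (x s) (y s)) d t := by
  have h1 : HasDerivAt (fun s => |x s - y s|) 0 t := by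
    refine g6a_abs (fun s => x s - y s) t (by rw [h0, sub_self]) ?_
    have := hx.sub hy
    rw [sub_self] at this
    exact this
  have e1 : (fun s => min (x s) (y s)) = fun s => (x s + y s - |x s - y s|) / 2 := by
    funext s
    rcases le_total (x s) (y s) with h | h
    · rw [min_eq_left h, abs_of_nonpos (by linarith)]
      ring
    · rw [min_eq_right h, abs_of_nonneg (by linarith)]
      ring
  have e2 : (fun s => max (x s) (y s)) = fun s => (x s + y s + |x s - y s|) / 2 := by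
    funext s
    rcases le_total (x s) (y s) with h | h
    · rw [max_eq_right h, abs_of_nonpos (by linarith)]
      ring
    · rw [max_eq_left h, abs_of_nonneg (by linarith)]
      ring
  rw [e1, e2]
  constructor
  · have := ((hx.add hy).sub h1).div_const 2
    have e : (d + d - 0) / 2 = d := by ring
    rw [e] at this
    exact this
  · have := ((hx.add hy).add h1).div_const 2
    have e : (d + d + 0) / 2 = d := by ring
    rw [e] at this
    exact this

theorem Cur.minmax (hW : HW Tp W W₁ W₂ B) {a b : ℝ} {x u y w : ℝ → ℝ} (hx : Cur a b x u)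
    (hy : Cur a b y w) :
    ∃ u₁ u₂ : ℝ → ℝ, Cur a b (fun t => min (x t) (y t)) u₁ ∧
      Cur a b (fun t => max (x t) (y t)) u₂ ∧
      A1 W a b (fun t => min (x t) (y t)) u₁ + A1 W a b (fun t => max (x t) (y t)) u₂ =
        A1 W a b x u + A1 W a b y w := by
  classical
  obtain ⟨sx, hsx, hdx⟩ := hx.der
  obtain ⟨sy, hsy, hdy⟩ := hy.der
  set S : Set ℝ := {t ∈ Set.Icc a b | x t ≤ y t} with hS
  have hSm : MeasurableSet S :=
    (isClosed_Icc.isClosed_le hx.cont hy.cont).measurableSet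
  set E : Set ℝ := {t | t ∈ Set.Ioo a b ∧ t ∉ sx ∧ t ∉ sy ∧ x t = y t ∧ u t ≠ w t} with hE
  have hEc : E.Countable := by
    refine g6a_countable (fun t => x t - y t) E ?_
    rintro t ⟨ht, h1, h2, h3, h4⟩
    exact ⟨by simp only [h3, sub_self], u t - w t, sub_ne_zero.2 h4,
      (hdx t ⟨ht, h1⟩).sub (hdy t ⟨ht, h2⟩)⟩
  set u₁ : ℝ → ℝ := S.piecewise u w with hu₁
  set u₂ : ℝ → ℝ := S.piecewise w u with hu₂
  have hcount : (sx ∪ sy ∪ E).Countable := (hsx.union hsy).union hEc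
  -- the derivatives
  have hder : ∀ t ∈ Set.Ioo a b \ (sx ∪ sy ∪ E),
      HasDerivAt (fun t => min (x t) (y t)) (u₁ t) t ∧
        HasDerivAt (fun t => max (x t) (y t)) (u₂ t) t := by
    rintro t ⟨ht, hns⟩
    have h1 : t ∉ sx := fun h => hns (Or.inl (Or.inl h))
    have h2 : t ∉ sy := fun h => hns (Or.inl (Or.inr h))
    have h3 : t ∉ E := fun h => hns (Or.inr h)
    have dx := hdx t ⟨ht, h1⟩
    have dy := hdy t ⟨ht, h2⟩
    have htI : t ∈ Set.Icc a b := ⟨ht.1.le, ht.2.le⟩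
    rcases lt_trichotomy (x t) (y t) with hlt | heq | hgt
    · have hmem : t ∈ S := ⟨htI, hlt.le⟩
      have e1 : u₁ t = u t := Set.piecewise_eq_of_mem _ _ _ hmem
      have e2 : u₂ t = w t := Set.piecewise_eq_of_mem _ _ _ hmem
      have hev : ∀ᶠ s in nhds t, x s < y s :=
        dx.continuousAt.eventually_lt dy.continuousAt hlt
      rw [e1, e2]
      constructor
      · refine dx.congr_of_eventuallyEq ?_
        filter_upwards [hev] with s hs
        exact min_eq_left hs.le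
      · refine dy.congr_of_eventuallyEq ?_
        filter_upwards [hev] with s hs
        exact max_eq_right hs.le
    · have hmem : t ∈ S := ⟨htI, heq.le⟩
      have e1 : u₁ t = u t := Set.piecewise_eq_of_mem _ _ _ hmem
      have e2 : u₂ t = w t := Set.piecewise_eq_of_mem _ _ _ hmem
      have huw : u t = w t := by
        by_contra hne
        exact h3 ⟨ht, h1, h2, heq, hne⟩
      rw [e1, e2, ← huw]
      rw [← huw] at dy
      exact g6a_min x y t (u t) heq dx dy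
    · have hmem : t ∉ S := fun h => absurd h.2 (not_le.2 hgt)
      have e1 : u₁ t = w t := Set.piecewise_eq_of_notMem _ _ _ hmem
      have e2 : u₂ t = u t := Set.piecewise_eq_of_notMem _ _ _ hmem
      have hev : ∀ᶠ s in nhds t, y s < x s :=
        dy.continuousAt.eventually_lt dx.continuousAt hgt
      rw [e1, e2]
      constructor
      · refine dy.congr_of_eventuallyEq ?_
        filter_upwards [hev] with s hs
        exact min_eq_right hs.le
      · refine dx.congr_of_eventuallyEq ?_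
        filter_upwards [hev] with s hs
        exact max_eq_left hs.le
  obtain ⟨R, hR⟩ := hx.bd
  obtain ⟨R', hR'⟩ := hy.bd
  have hbd : ∀ (f g : ℝ → ℝ) (r r' : ℝ), (∀ t, |f t| ≤ r) → (∀ t, |g t| ≤ r') →
      ∀ t, |S.piecewise f g t| ≤ max r r' := by
    intro f g r r' hf hg t
    by_cases h : t ∈ S
    · rw [Set.piecewise_eq_of_mem _ _ _ h]
      exact (hf t).trans (le_max_left _ _)
    · rw [Set.piecewise_eq_of_notMem _ _ _ h]
      exact (hg t).trans (le_max_right _ _)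
  have hc1 : Cur a b (fun t => min (x t) (y t)) u₁ :=
    ⟨hx.le, hx.cont.inf hy.cont, ⟨_, hcount, fun t ht => (hder t ht).1⟩,
      Measurable.piecewise hSm hx.meas hy.meas, ⟨_, hbd u w R R' hR hR'⟩⟩
  have hc2 : Cur a b (fun t => max (x t) (y t)) u₂ :=
    ⟨hx.le, hx.cont.sup hy.cont, ⟨_, hcount, fun t ht => (hder t ht).2⟩,
      Measurable.piecewise hSm hy.meas hx.meas, ⟨_, hbd w u R' R hR' hR⟩⟩
  refine ⟨u₁, u₂, hc1, hc2, ?_⟩
  have i1 := g6a_int hW hc1
  have i2 := g6a_int hW hc2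
  have i3 := g6a_int hW hx
  have i4 := g6a_int hW hy
  unfold A1
  rw [← intervalIntegral.integral_add i1 i2, ← intervalIntegral.integral_add i3 i4]
  refine intervalIntegral.integral_congr fun t ht => ?_
  rw [Set.uIcc_of_le hx.le] at ht
  by_cases h : x t ≤ y t
  · have hmem : t ∈ S := ⟨ht, h⟩
    have e1 : u₁ t = u t := Set.piecewise_eq_of_mem _ _ _ hmem
    have e2 : u₂ t = w t := Set.piecewise_eq_of_mem _ _ _ hmem
    rw [e1, e2, min_eq_left h, max_eq_right h]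
  · have hmem : t ∉ S := fun h' => h h'.2
    have e1 : u₁ t = w t := Set.piecewise_eq_of_notMem _ _ _ hmem
    have e2 : u₂ t = u t := Set.piecewise_eq_of_notMem _ _ _ hmem
    rw [e1, e2, min_eq_right (not_le.1 h).le, max_eq_left (not_le.1 h).le]
    ring

end Pool.Agent.H33.AN

end

section

/-!
# Module L1: connecting curves, time-dependent

As in `Pool/Agent/H33/AM/P/R2.lean`, `Pool/Agent/H33/AM/P/R3.lean` (copy the proofs).
* `Adm.glue`: glue at `b`.
* `toCur`: compose with the inner product.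
* `lift`: `x(t) = x₀ + (t - t₀) • v₀ + (a t - a t₀) • e₀`.
* `Conn2.cross`: intermediate value theorem for `t ↦ ⟪zv k₀, ξ t⟫ - f t`.
* `moving_cross`: `t₂ = inf {t ∈ [t₀, t₁] | θ t ≥ c t}`, `t₁' = sup {t ∈ [t₀, t₂] | θ t ≤ a t}`.
-/

set_option autoImplicit false

open MeasureTheory
open scoped RealInnerProductSpace

namespace Pool.Agent.H33.AN

open Pool.Agent.H33.AM

variable {n : ℕ} {l : EuclideanSpace ℝ (Fin n) → EuclideanSpace ℝ (Fin n) → ℝ → ℝ} {Q : ℕ}

theorem Adm.integrable2 {a b : ℝ} {x u : ℝ → EuclideanSpace ℝ (Fin n)} (h : Adm a b x u)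
    {g : EuclideanSpace ℝ (Fin n) × EuclideanSpace ℝ (Fin n) × ℝ → ℝ} (hg : Continuous g) :
    IntervalIntegrable (fun t => g (x t, u t, t)) volume a b := by
  obtain ⟨R, hR⟩ := h.bd
  rw [intervalIntegrable_iff_integrableOn_Icc_of_le h.le]
  have hxm : AEStronglyMeasurable x (volume.restrict (Set.Icc a b)) :=
    h.cont.aestronglyMeasurable measurableSet_Icc
  have hum : AEStronglyMeasurable u (volume.restrict (Set.Icc a b)) :=
    h.meas.aestronglyMeasurable
  have htm : AEStronglyMeasurable (fun t : ℝ => t) (volume.restrict (Set.Icc a b)) :=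
    measurable_id.aestronglyMeasurable
  have hK : IsCompact ((x '' Set.Icc a b) ×ˢ
      ((Metric.closedBall (0 : EuclideanSpace ℝ (Fin n)) R) ×ˢ (Set.Icc a b))) :=
    (isCompact_Icc.image_of_continuousOn h.cont).prod
      ((isCompact_closedBall 0 R).prod isCompact_Icc)
  obtain ⟨C, hC⟩ := hK.exists_bound_of_continuousOn hg.continuousOn
  refine ⟨hg.comp_aestronglyMeasurable (hxm.prodMk (hum.prodMk htm)),
    HasFiniteIntegral.restrict_of_bounded (C := C) measure_Icc_lt_top ?_⟩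
  refine (ae_restrict_iff' measurableSet_Icc).2 (Filter.Eventually.of_forall fun t ht => ?_)
  refine hC _ ⟨Set.mem_image_of_mem x ht, ?_, ht⟩
  simpa using hR t

theorem Adm.glue {a b c : ℝ} {x u x' u' : ℝ → EuclideanSpace ℝ (Fin n)} (h : Adm a b x u)
    (h' : Adm b c x' u') (hx : x b = x' b) :
    ∃ x'' u'' : ℝ → EuclideanSpace ℝ (Fin n), Adm a c x'' u'' ∧
      (∀ t ≤ b, x'' t = x t ∧ u'' t = u t) ∧ ∀ t > b, x'' t = x' t ∧ u'' t = u' t := by
  classical
  obtain ⟨s, hs, hd⟩ := h.der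
  obtain ⟨s', hs', hd'⟩ := h'.der
  obtain ⟨R, hR⟩ := h.bd
  obtain ⟨R', hR'⟩ := h'.bd
  refine ⟨fun t => if t ≤ b then x t else x' t, fun t => if t ≤ b then u t else u' t,
    ⟨h.le.trans h'.le, ?_, ⟨s ∪ (s' ∪ {b}), ?_, ?_⟩, ?_, ?_⟩, ?_, ?_⟩
  · refine ContinuousOn.if' ?_ ?_ ?_ ?_
    · intro t ht
      have htb : t = b := by
        have h1 := frontier_Iic_subset b (by simpa [Set.Iic] using ht.2)
        simpa using h1
      subst htb
      have h1 : ContinuousWithinAt x (Set.Icc a t) t := h.cont t ⟨h.le, le_rfl⟩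
      have h2 : x t = if t ≤ t then x t else x' t := by simp
      rw [← h2]
      refine h1.tendsto.mono_left (nhdsWithin_mono _ ?_)
      rintro r ⟨hr, hr'⟩
      exact ⟨hr.1, hr'⟩
    · intro t ht
      have htb : t = b := by
        have h1 := frontier_Iic_subset b (by simpa [Set.Iic] using ht.2)
        simpa using h1
      subst htb
      have h1 : ContinuousWithinAt x' (Set.Icc t c) t := h'.cont t ⟨le_rfl, h'.le⟩
      have h2 : x' t = if t ≤ t then x t else x' t := by simp [hx]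
      rw [← h2]
      refine h1.tendsto.mono_left (nhdsWithin_mono _ ?_)
      rintro r ⟨hr, hr'⟩
      have h4 : ¬ r ≤ t := hr'
      exact ⟨(not_le.1 h4).le, hr.2⟩
    · refine h.cont.mono ?_
      rintro r ⟨hr, hr'⟩
      exact ⟨hr.1, hr'⟩
    · refine h'.cont.mono ?_
      rintro r ⟨hr, hr'⟩
      have h4 : ¬ r ≤ b := hr'
      exact ⟨(not_le.1 h4).le, hr.2⟩
  · exact hs.union (hs'.union (Set.countable_singleton b))
  · intro t ht
    have ht1 : t ∉ s := fun h => ht.2 (Or.inl h)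
    have ht2 : t ∉ s' := fun h => ht.2 (Or.inr (Or.inl h))
    have ht3 : t ≠ b := fun h => ht.2 (Or.inr (Or.inr h))
    rcases lt_or_gt_of_ne ht3 with hlt | hgt
    · have h1 := hd t ⟨⟨ht.1.1, hlt⟩, ht1⟩
      have h2 : (fun t => if t ≤ b then x t else x' t) =ᶠ[nhds t] x := by
        filter_upwards [Iio_mem_nhds hlt] with r hr
        exact if_pos (le_of_lt hr)
      simp only [if_pos hlt.le]
      exact h1.congr_of_eventuallyEq h2
    · have h1 := hd' t ⟨⟨hgt, ht.1.2⟩, ht2⟩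
      have h2 : (fun t => if t ≤ b then x t else x' t) =ᶠ[nhds t] x' := by
        filter_upwards [Ioi_mem_nhds hgt] with r hr
        exact if_neg (not_le.2 hr)
      simp only [if_neg (not_le.2 hgt)]
      exact h1.congr_of_eventuallyEq h2
  · exact Measurable.ite measurableSet_Iic h.meas h'.meas
  · refine ⟨max R R', fun t => ?_⟩
    split_ifs
    · exact (hR t).trans (le_max_left _ _)
    · exact (hR' _).trans (le_max_right _ _)
  · intro t ht
    simp [ht]
  · intro t ht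
    simp [not_le.2 ht]

theorem Adm.toCur {a b : ℝ} {x u : ℝ → EuclideanSpace ℝ (Fin n)} (h : Adm a b x u)
    (k₀ : Fin n → ℤ) : Cur a b (fun t => ⟪zv k₀, x t⟫) fun t => ⟪zv k₀, u t⟫ := by
  obtain ⟨s, hs, hd⟩ := h.der
  obtain ⟨R, hR⟩ := h.bd
  refine ⟨h.le, continuousOn_const.inner h.cont, ⟨s, hs, fun t ht => ?_⟩, ?_, ?_⟩
  · have h1 := (innerSL ℝ (zv k₀ : EuclideanSpace ℝ (Fin n))).hasFDerivAt.comp_hasDerivAt t
      (hd t ht)
    exact h1
  · exact measurable_const.inner h.meas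
  · refine ⟨‖(zv k₀ : EuclideanSpace ℝ (Fin n))‖ * R, fun t => ?_⟩
    rw [← Real.norm_eq_abs]
    exact (norm_inner_le_norm _ _).trans (mul_le_mul_of_nonneg_left (hR t) (norm_nonneg _))

theorem Adm.lift {s t : ℝ} {a ua : ℝ → ℝ} (h : Cur s t a ua)
    (x₀ v₀ e₀ : EuclideanSpace ℝ (Fin n)) :
    Adm s t (fun τ => x₀ + (τ - s) • v₀ + (a τ - a s) • e₀) fun τ => v₀ + ua τ • e₀ := by
  obtain ⟨S, hS, hd⟩ := h.der
  obtain ⟨R, hR⟩ := h.bd
  refine ⟨h.le, ?_, ⟨S, hS, fun τ hτ => ?_⟩, ?_, ?_⟩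
  · have h1 : ContinuousOn (fun τ => (a τ - a s) • e₀) (Set.Icc s t) :=
      (h.cont.sub continuousOn_const).smul continuousOn_const
    have h2 : ContinuousOn (fun τ : ℝ => x₀ + (τ - s) • v₀) (Set.Icc s t) := by fun_prop
    exact h2.add h1
  · have h1 : HasDerivAt (fun τ : ℝ => x₀ + (τ - s) • v₀) v₀ τ := by
      simpa using (((hasDerivAt_id τ).sub_const s).smul_const v₀).const_add x₀
    have h2 : HasDerivAt (fun τ : ℝ => (a τ - a s) • e₀) (ua τ • e₀) τ :=
      ((hd τ hτ).sub_const (a s)).smul_const e₀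
    exact h1.add h2
  · exact measurable_const.add (h.meas.smul_const e₀)
  · refine ⟨‖v₀‖ + R * ‖e₀‖, fun τ => ?_⟩
    refine (norm_add_le _ _).trans ?_
    rw [norm_smul, Real.norm_eq_abs]
    have h1 := mul_le_mul_of_nonneg_right (hR τ) (norm_nonneg e₀)
    linarith

end Pool.Agent.H33.AN

end

section

/-!
# Module J2: the solution of the Hamilton-Jacobi equation

Let `c` be a subgradient at `p/Q` (`subgrad`), `α = c p/Q - EpQ W p Q/Q`,
`cost(y; s, t) = ∫_s^t (y'²/2 - W(y) - c y' + α) = A1 W s t y u - c (y t - y s) + α (t - s)`.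
* `crit_closed`: every closed curve of an integer type `(p', Q')` has cost `≥ 0`.
* `domination`: `U(x, t) = inf` of the costs of the curves from `(0, 0)` to `(x + k, t + j)`, `k`, `j`
  integers, `t + j > 0`. Bounded below: close the curve up (bounded cost `≤ C`) and use
  `crit_closed`; bounded above by lines with `1 ≤ t + j ≤ 2`, `|x + k| ≤ 1`. Periodic by definition.
  `U(y t, t) ≤ U(y s, s) + cost(y; s, t)` by concatenation (for `s < t`).
* `calibrated`: for a leaf of type `(p, Q)` the cost over a period is `EpQ - c p + α Q = 0`, so domination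
  on `[s, t]` and on `[t, s + j Q]` gives the equality.
* `quadratic`: `|U(x + h, t + k) - U(x, t) - (v - c) h - (α - v²/2 - W(x, t)) k| ≤ C (h² + k²)`, `v` the
  velocity at `(x, t)` of the leaf `γ` through `(x, t)`, for `|h|, |k| ≤ 1/2`, with `C` depending only on a
  bound `R` of `|p/Q|` (and `B`). Upper bound: for the curve `γ(τ) + ξ(τ)` on `[t - 1, t + k]`, `ξ` linear,
  `ξ(t - 1) = 0`, `ξ(t + k) = Δ = x + h - γ(t + k)`: its cost minus the cost of `γ` is
  `(γ'(t + k) - c) Δ + ∫ (ξ'²/2 - (W(γ + ξ) - W(γ) - W₁(γ) ξ)) ≤ (γ'(t + k) - c) Δ + C Δ²` (integration by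
  parts and `γ'' = -W₁(γ)`); use domination for it, `calibrated` for `γ`, and
  `γ(t + k) = x + v k + O(k²)`, `γ'(t + k) = v + O(k)`,
  `U(γ(t + k), t + k) = U(x, t) + k (v²/2 - W(x, t) - c v + α) + O(k²)`. Lower bound: the same with the
  curve from `(x + h, t + k)` to `(γ(t + 1), t + 1)`. `|γ'| ≤ R + 1 + B` by `leaf_vbound`.
-/

set_option autoImplicit false

open MeasureTheory
open scoped RealInnerProductSpace

namespace Pool.Agent.H33.AN

variable {B : ℝ} {W W₁ W₂ : ℝ → ℝ → ℝ}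

private theorem J2c_int (hW : HW 1 W W₁ W₂ B) {γ v : ℝ → ℝ} (h : Ext W₁ γ v) (a b : ℝ) :
    IntervalIntegrable (fun t => v t ^ 2 / 2 - W (γ t) t) volume a b := by
  have hWc : Continuous fun z : ℝ × ℝ => W z.1 z.2 :=
    continuous_iff_continuousAt.mpr fun z => (hW.der z.1 z.2).continuousAt
  have hγ : Continuous γ := continuous_iff_continuousAt.mpr fun t => (h.der t).continuousAt
  have hv : Continuous v := continuous_iff_continuousAt.mpr fun t => (h.el t).continuousAt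
  have hc : Continuous fun t => v t ^ 2 / 2 - W (γ t) t :=
    ((hv.pow 2).div_const 2).sub (hWc.comp (hγ.prodMk continuous_id))
  exact hc.intervalIntegrable a b

private theorem J2c_add (hW : HW 1 W W₁ W₂ B) {γ v : ℝ → ℝ} (h : Ext W₁ γ v) (a b c : ℝ) :
    A1 W a b γ v + A1 W b c γ v = A1 W a c γ v :=
  intervalIntegral.integral_add_adjacent_intervals (J2c_int hW h a b) (J2c_int hW h b c)

theorem calibrated (hW : HW 1 W W₁ W₂ B) {p : ℤ} {Q : ℕ} (hQ : 0 < Q) {c α : ℝ}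
    (hα : α = c * ((p : ℝ) / Q) - EpQ W p Q / Q) {U : ℝ → ℝ → ℝ}
    (hU₁ : ∀ x t, U (x + 1) t = U x t) (hU₂ : ∀ x t, U x (t + 1) = U x t)
    (hU : ∀ (s t : ℝ) (ξ u : ℝ → ℝ), s < t → Cur s t ξ u →
        U (ξ t) t - U (ξ s) s ≤ A1 W s t ξ u - c * (ξ t - ξ s) + α * (t - s))
    {γ v : ℝ → ℝ} (hγ : Leaf W W₁ p Q γ v) {s t : ℝ} (hst : s ≤ t) :
    U (γ t) t - U (γ s) s = A1 W s t γ v - c * (γ t - γ s) + α * (t - s) := by
  have hQ' : (0 : ℝ) < Q := by exact_mod_cast hQ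
  set D : ℝ → ℝ → ℝ := fun a b => A1 W a b γ v - c * (γ b - γ a) + α * (b - a) - (U (γ b) b - U (γ a) a)
    with hD
  have hadd : ∀ a b r, D a b + D b r = D a r := by
    intro a b r
    have := J2c_add hW hγ.ext a b r
    rw [hD]
    dsimp only
    linarith
  have hnn : ∀ a b, a < b → 0 ≤ D a b := by
    intro a b hab
    obtain ⟨u, hu, huv⟩ := Cur.of_ext hγ.ext hab.le
    have h1 := hU a b γ u hab hu
    have h2 : A1 W a b γ u = A1 W a b γ v := by
      unfold A1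
      apply intervalIntegral.integral_congr
      intro r hr
      rw [Set.uIcc_of_le hab.le] at hr
      dsimp only
      rw [huv r hr]
    rw [h2] at h1
    rw [hD]
    dsimp only
    linarith
  have hper : ∀ a, D a (a + Q) = 0 := by
    intro a
    have e1 : U (γ (a + Q)) (a + Q) = U (γ a) a := by
      rw [hγ.per]
      have k1 : Function.Periodic (fun x => U x (a + Q)) 1 := fun x => hU₁ x _
      have k2 : Function.Periodic (fun r => U (γ a) r) 1 := fun r => hU₂ _ r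
      have k3 := k1.int_mul p (γ a)
      have k4 := k2.nat_mul Q a
      rw [mul_one] at k3 k4
      rw [k3, k4]
    rw [hD]
    dsimp only
    rw [e1, hγ.act, hγ.per, hα]
    field_simp
    ring
  have hmul : ∀ (j : ℕ), D s (s + j * Q) = 0 := by
    intro j
    induction j with
    | zero =>
      rw [hD]
      simp [A1]
    | succ j ih =>
      have h1 := hadd s (s + j * Q) (s + j * Q + Q)
      rw [ih, hper] at h1
      have h2 : s + ((j + 1 : ℕ) : ℝ) * Q = s + j * Q + Q := by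
        push_cast
        ring
      rw [h2]
      linarith
  have hzero : D s t = 0 := by
    rcases hst.eq_or_lt with he | hlt
    · rw [← he, hD]
      simp [A1]
    · obtain ⟨j, hj⟩ := exists_nat_gt ((t - s) / Q)
      rw [div_lt_iff₀ hQ'] at hj
      have h1 := hadd s t (s + j * Q)
      rw [hmul j] at h1
      have h2 := hnn s t hlt
      have h3 := hnn t (s + j * Q) (by linarith)
      linarith
  rw [hD] at hzero
  dsimp only at hzero
  linarith

end Pool.Agent.H33.AN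

end

section

/-!
# Module K2: levels

* `per_ext`: periodic extension, `ξ' t = ξ (toIcoMod _ 0 t)`, same for `u`; the exceptional set is the
  union of the translates of `s ∪ {0}`.
* `lev_of_closed`: `ωa = A1 w 0 Q ξ u - E₁ ≥ 0` (`Bar.crit` with `j = 1`),
  `ψ t = c1 w Q E₁ 0 t ξ u - ωa t/Q` for `t ≥ 0` (in general the interval integral from `0` to `t`, also for
  `t < 0`); periodic; continuous, hence bounded.
* `levels_exist`: `F x = Dm w 0 Q x x`: continuous (`Dm_lip`), 1-periodic (`Dm_per`), `≥ E₁` (`le_Dm`,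
  `Bar.crit`), `= E₁` somewhere (`Bar.att`), `≥ E₁ + μ` at `Bc 0` (`Bar.mark`). Let `ω₁ = ω/4`,
  `xa = sSup {x ≤ Bc 0 | F x ≤ E₁ + ω₁}`, `xc = sInf {x ≥ Bc 0 | F x ≤ E₁ + ω₁}`:
  `Bc 0 - 1 ≤ xa < Bc 0 < xc ≤ xa + 1` (`F (xa + 1) ≤ E₁ + ω₁`, `xa + 1 ≥ Bc 0`), `F ≥ E₁ + ω₁` on
  `[xa, xc]` (continuity). Closed curves `a`, `c` through `(xa, 0)`, `(xc, 0)` with action `< E₁ + 2 ω₁`
  (`exists_near`, `per_ext`). Replace `c` by `min c (a + 1)` and `a` by `max a (c - 1)` (`Cur.minmax` on `[0, Q]`: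
  the sum of the two actions is `< 2 E₁ + 4 ω₁` and both are `≥ E₁`, so both are `≤ E₁ + ω`; note
  `max a (c - 1) = max (a + 1) c - 1`). Closed curves of action `< E₁ + μ` do not meet the translates of
  `Bc` (`Bar.mark`), so `a < Bc < c` everywhere.
-/

set_option autoImplicit false

open MeasureTheory
open scoped RealInnerProductSpace

namespace Pool.Agent.H33.AN

variable {B : ℝ} {w w₁ w₂ : ℝ → ℝ → ℝ} {Q : ℕ} {E₁ μ : ℝ} {Bc : ℝ → ℝ}

private theorem K2a_mod {q : ℝ} (hq : 0 < q) (t : ℝ) : toIcoMod hq 0 t ∈ Set.Ico (0 : ℝ) q := by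
  have := toIcoMod_mem_Ico hq 0 t
  rwa [zero_add] at this

private theorem K2a_eq {q : ℝ} (hq : 0 < q) (m : ℤ) {t : ℝ} (h : t - m * q ∈ Set.Ico (0 : ℝ) q) :
    toIcoMod hq 0 t = t - m * q := by
  have h1 : toIcoMod hq 0 (t - m * q) = t - m * q := by
    rw [toIcoMod_eq_self, zero_add]
    exact h
  have h2 := toIcoMod_sub_zsmul hq 0 t m
  rw [zsmul_eq_mul] at h2
  rw [← h2, h1]

theorem per_ext (hQ : 0 < Q) {ξ u : ℝ → ℝ} (h : Cur 0 Q ξ u) (hcl : ξ Q = ξ 0) :
    ∃ ξ' u' : ℝ → ℝ, (∀ s t, s ≤ t → Cur s t ξ' u') ∧ Continuous ξ' ∧ (∀ t, ξ' (t + Q) = ξ' t) ∧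
      (∀ t, u' (t + Q) = u' t) ∧ ∀ t ∈ Set.Ico (0 : ℝ) Q, ξ' t = ξ t ∧ u' t = u t := by
  have hq : (0 : ℝ) < (Q : ℝ) := by exact_mod_cast hQ
  set q : ℝ := (Q : ℝ) with hqd
  have hper : ∀ t, toIcoMod hq 0 (t + q) = toIcoMod hq 0 t := fun t => toIcoMod_add_right hq 0 t
  have hself : ∀ t ∈ Set.Ico (0 : ℝ) q, toIcoMod hq 0 t = t := fun t ht => by
    rw [toIcoMod_eq_self, zero_add]
    exact ht
  have hcont : Continuous fun t : ℝ => ξ (toIcoMod hq 0 t) := by
    have : Fact (0 < q) := ⟨hq⟩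
    have h1 : Continuous (AddCircle.liftIco q 0 ξ) := by
      apply AddCircle.liftIco_continuous
      · rw [zero_add]
        exact hcl.symm
      · rw [zero_add]
        exact h.cont
    have h2 : Continuous fun t : ℝ => AddCircle.liftIco q 0 ξ ((t : ℝ) : AddCircle q) :=
      h1.comp (AddCircle.continuous_mk' q)
    refine h2.congr fun t => ?_
    have h3 : ((t : ℝ) : AddCircle q) = ((toIcoMod hq 0 t : ℝ) : AddCircle q) := by
      rw [← sub_eq_zero, ← AddCircle.coe_sub, AddCircle.coe_eq_zero_iff]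
      exact ⟨toIcoDiv hq 0 t, (self_sub_toIcoMod hq 0 t).symm⟩
    rw [h3]
    exact AddCircle.liftIco_coe_apply (by rw [zero_add]; exact K2a_mod hq t)
  refine ⟨fun t => ξ (toIcoMod hq 0 t), fun t => u (toIcoMod hq 0 t), ?_, hcont, ?_, ?_, ?_⟩
  · intro s t hst
    obtain ⟨S, hS, hd⟩ := h.der
    refine ⟨hst, hcont.continuousOn, ?_, ?_, ?_⟩
    · refine ⟨⋃ m : ℤ, (fun y : ℝ => y + m * q) '' (S ∪ {0}), ?_, ?_⟩
      · exact Set.countable_iUnion fun m => (hS.union (Set.countable_singleton 0)).image _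
      · rintro τ ⟨_, hτ⟩
        obtain ⟨m, hm⟩ : ∃ m : ℤ, toIcoMod hq 0 τ = τ - m * q :=
          ⟨toIcoDiv hq 0 τ, by
            have := self_sub_toIcoDiv_zsmul hq 0 τ
            rw [zsmul_eq_mul] at this
            exact this.symm⟩
        have h0 := K2a_mod hq τ
        have hnot : toIcoMod hq 0 τ ∉ S ∪ {0} := by
          intro hmem
          apply hτ
          refine Set.mem_iUnion.2 ⟨m, _, hmem, ?_⟩
          dsimp only
          rw [hm]
          ring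
        rw [Set.mem_union, not_or] at hnot
        have hpos : 0 < toIcoMod hq 0 τ := lt_of_le_of_ne h0.1 fun h => hnot.2 h.symm
        have h1 : HasDerivAt ξ (u (toIcoMod hq 0 τ)) (toIcoMod hq 0 τ) :=
          hd _ ⟨⟨hpos, h0.2⟩, hnot.1⟩
        have h2 : HasDerivAt (fun y => ξ (y - m * q)) (u (toIcoMod hq 0 τ)) τ := by
          rw [hm] at h1 ⊢
          exact h1.comp_sub_const τ (m * q)
        refine h2.congr_of_eventuallyEq ?_
        have h3 : ∀ᶠ y in nhds τ, y - m * q ∈ Set.Ioo (0 : ℝ) q := by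
          have h4 : Filter.Tendsto (fun y : ℝ => y - m * q) (nhds τ) (nhds (τ - m * q)) :=
            (continuous_id.sub continuous_const).tendsto τ
          rw [hm] at hpos h0
          exact h4.eventually (Ioo_mem_nhds hpos h0.2)
        filter_upwards [h3] with y hy
        rw [K2a_eq hq m ⟨hy.1.le, hy.2⟩]
    · have h1 : (fun t => u (toIcoMod hq 0 t)) = fun t => u (0 + Int.fract ((t - 0) / q) * q) := by
        funext t
        rw [toIcoMod_eq_add_fract_mul]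
      rw [h1]
      exact h.meas.comp (measurable_const.add
        ((measurable_fract.comp ((measurable_id.sub_const 0).div_const q)).mul_const q))
    · obtain ⟨R, hR⟩ := h.bd
      exact ⟨R, fun t => hR _⟩
  · intro t
    dsimp only
    rw [hper]
  · intro t
    dsimp only
    rw [hper]
  · intro t ht
    dsimp only
    rw [hself t ht]
    exact ⟨rfl, rfl⟩

end Pool.Agent.H33.AN

end

section

/-!
# Module G7: combinatorics of Monge functions

Let `x 0, …, x j` be real numbers.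
* `cyc` (`x j = x 0`): induction on `j`. `j = 1`: equality. `j ≥ 2`: let `x k` be the maximum of the cycle;
  with its neighbours `y = x (k - 1)`, `z = x (k + 1)` (cyclically): `y ≤ x k`, `z ≤ x k`, so
  `D (x k) (x k) + D y z ≤ D y (x k) + D (x k) z`; remove `x k` from the cycle. (It may be convenient
  to rotate the cycle so that the maximum is in the middle or to state it for lists.)
* `chain`: induction on `j`. If `x` is monotone or antitone on `{0, …, j}`, use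
  `D (x i) (x (i + 1)) ≥ D (x i) (x i) - L |x (i + 1) - x i|` and telescope. Otherwise there is a local
  extremum `x k`, `0 < k < j` (`x (k - 1) ≤ x k ≥ x (k + 1)` or both reversed), and by the Monge property
  `D (x (k - 1)) (x k) + D (x k) (x (k + 1)) ≥ D (x (k - 1)) (x (k + 1)) + D (x k) (x k)`; remove `x k`.
-/

set_option autoImplicit false

open MeasureTheory
open scoped RealInnerProductSpace

namespace Pool.Agent.H33.AN

/-- the sequence without the term `p + 1` -/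
private noncomputable def G7b_rm (p : ℕ) (x : ℕ → ℝ) (i : ℕ) : ℝ := if i ≤ p then x i else x (i + 1)

private lemma G7b_rm_le {p i : ℕ} (h : i ≤ p) (x : ℕ → ℝ) : G7b_rm p x i = x i := if_pos h

private lemma G7b_rm_gt {p i : ℕ} (h : p < i) (x : ℕ → ℝ) : G7b_rm p x i = x (i + 1) :=
  if_neg (by omega)

private lemma G7b_rm_sum (F : ℝ → ℝ → ℝ) (x : ℕ → ℝ) (p r : ℕ) :
    ∑ i ∈ Finset.range (p + 1 + r), F (G7b_rm p x i) (G7b_rm p x (i + 1)) =
      ∑ i ∈ Finset.range (p + 2 + r), F (x i) (x (i + 1)) - F (x p) (x (p + 1))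
        - F (x (p + 1)) (x (p + 2)) + F (x p) (x (p + 2)) := by
  rw [Finset.sum_range_add _ (p + 1) r, Finset.sum_range_add _ (p + 2) r, Finset.sum_range_succ,
    Finset.sum_range_succ, Finset.sum_range_succ]
  have h1 : ∑ i ∈ Finset.range p, F (G7b_rm p x i) (G7b_rm p x (i + 1)) =
      ∑ i ∈ Finset.range p, F (x i) (x (i + 1)) := by
    apply Finset.sum_congr rfl
    intro i hi
    rw [Finset.mem_range] at hi
    rw [G7b_rm_le (by omega), G7b_rm_le (by omega)]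
  have h2 : ∑ i ∈ Finset.range r, F (G7b_rm p x (p + 1 + i)) (G7b_rm p x (p + 1 + i + 1)) =
      ∑ i ∈ Finset.range r, F (x (p + 2 + i)) (x (p + 2 + i + 1)) := by
    apply Finset.sum_congr rfl
    intro i _
    rw [G7b_rm_gt (by omega), G7b_rm_gt (by omega)]
    have e1 : p + 1 + i + 1 = p + 2 + i := by ring
    rw [e1]
  rw [h1, h2, G7b_rm_le le_rfl, G7b_rm_gt (Nat.lt_succ_self p)]
  ring

/-- an interior term which is a maximum -/
private lemma G7b_max (x : ℕ → ℝ) {j : ℕ} (hj : 2 ≤ j) (h0 : x 0 ≤ x 1) (h1 : x j ≤ x 1) :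
    ∃ p r, j = p + 2 + r ∧ x p ≤ x (p + 1) ∧ x (p + 2) ≤ x (p + 1) := by
  obtain ⟨k, hk, hmax⟩ := Finset.exists_max_image (Finset.Icc 1 (j - 1)) x
    ⟨1, Finset.mem_Icc.2 ⟨le_rfl, by omega⟩⟩
  rw [Finset.mem_Icc] at hk
  have h2 : x 1 ≤ x k := hmax 1 (Finset.mem_Icc.2 ⟨le_rfl, by omega⟩)
  have h3 : ∀ i ≤ j, x i ≤ x k := by
    intro i hi
    rcases Nat.eq_zero_or_pos i with h | h
    · rw [h]; exact h0.trans h2
    · rcases Nat.lt_or_ge i j with h' | h'
      · exact hmax i (Finset.mem_Icc.2 ⟨h, by omega⟩)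
      · have : i = j := le_antisymm hi h'
        rw [this]; exact h1.trans h2
  obtain ⟨p, rfl⟩ : ∃ p, k = p + 1 := ⟨k - 1, by omega⟩
  exact ⟨p, j - (p + 2), by omega, h3 p (by omega), h3 (p + 2) (by omega)⟩

/-- an interior extremum -/
private lemma G7b_ext {D : ℝ → ℝ → ℝ}
    (hM : ∀ x x' y y', x ≤ x' → y ≤ y' → D x y + D x' y' ≤ D x y' + D x' y) (x : ℕ → ℝ) {j : ℕ}
    (hj : 2 ≤ j) (h : (x 0 ≤ x 1 ∧ x j ≤ x 1) ∨ (x 1 ≤ x 0 ∧ x 1 ≤ x j)) :
    ∃ p r, j = p + 2 + r ∧ D (x p) (x (p + 2)) + D (x (p + 1)) (x (p + 1)) ≤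
      D (x p) (x (p + 1)) + D (x (p + 1)) (x (p + 2)) := by
  rcases h with ⟨h0, h1⟩ | ⟨h0, h1⟩
  · obtain ⟨p, r, hpr, h2, h3⟩ := G7b_max x hj h0 h1
    exact ⟨p, r, hpr, hM _ _ _ _ h2 h3⟩
  · obtain ⟨p, r, hpr, h2, h3⟩ := G7b_max (fun i => -x i) hj (neg_le_neg h0) (neg_le_neg h1)
    refine ⟨p, r, hpr, ?_⟩
    have := hM _ _ _ _ (neg_le_neg_iff.1 h2) (neg_le_neg_iff.1 h3)
    linarith

theorem chain {D : ℝ → ℝ → ℝ}
    (hM : ∀ x x' y y', x ≤ x' → y ≤ y' → D x y + D x' y' ≤ D x y' + D x' y) {L ω : ℝ}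
    {S : Set ℝ} (hL : ∀ x ∈ S, ∀ y ∈ S, D x x - L * |y - x| ≤ D x y) (hω : ∀ x ∈ S, ω ≤ D x x)
    (j : ℕ) (x : ℕ → ℝ) (hx : ∀ i ≤ j, x i ∈ S) :
    j * ω - L * |x j - x 0| ≤ ∑ i ∈ Finset.range j, D (x i) (x (i + 1)) := by
  induction j generalizing x with
  | zero => simp
  | succ m ih =>
    by_cases hb : (x 0 ≤ x 1 ∧ x 1 ≤ x (m + 1)) ∨ (x (m + 1) ≤ x 1 ∧ x 1 ≤ x 0)
    · -- `x 1` is between `x 0` and `x (m + 1)`
      have h1 := ih (fun i => x (i + 1)) (fun i hi => hx (i + 1) (by omega))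
      have h2 := hL (x 0) (hx 0 (by omega)) (x 1) (hx 1 (by omega))
      have h3 := hω (x 0) (hx 0 (by omega))
      have h4 : |x (m + 1) - x 0| = |x (m + 1) - x 1| + |x 1 - x 0| := by
        rcases hb with ⟨a, b⟩ | ⟨a, b⟩
        · rw [abs_of_nonneg (by linarith), abs_of_nonneg (by linarith), abs_of_nonneg (by linarith)]
          ring
        · rw [abs_of_nonpos (by linarith), abs_of_nonpos (by linarith), abs_of_nonpos (by linarith)]
          ring
      simp only [zero_add] at h1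
      rw [Finset.sum_range_succ', h4, zero_add]
      push_cast
      linarith
    · push Not at hb
      obtain ⟨hb1, hb2⟩ := hb
      have hm : 1 ≤ m := by
        by_contra h
        have h0 : m = 0 := by omega
        subst h0
        simp only [zero_add] at hb1 hb2
        rcases le_total (x 0) (x 1) with h | h
        · exact absurd (hb1 h) (lt_irrefl _)
        · exact absurd (hb2 le_rfl) (not_lt.2 h)
      have hcase : (x 0 ≤ x 1 ∧ x (m + 1) ≤ x 1) ∨ (x 1 ≤ x 0 ∧ x 1 ≤ x (m + 1)) := by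
        rcases le_total (x 0) (x 1) with h | h
        · exact Or.inl ⟨h, (hb1 h).le⟩
        · rcases le_total (x (m + 1)) (x 1) with h' | h'
          · exact absurd (hb2 h') (not_lt.2 h)
          · exact Or.inr ⟨h, h'⟩
      obtain ⟨p, r, hpr, hE⟩ := G7b_ext hM x (by omega) hcase
      have hm' : m = p + 1 + r := by omega
      have h1 := ih (G7b_rm p x) (by
        intro i hi
        by_cases hip : i ≤ p
        · rw [G7b_rm_le hip]; exact hx i (by omega)
        · rw [G7b_rm_gt (by omega)]; exact hx (i + 1) (by omega))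
      rw [G7b_rm_le (Nat.zero_le p), hm', G7b_rm_gt (by omega), G7b_rm_sum] at h1
      have e : p + 1 + r + 1 = p + 2 + r := by ring
      have h2 := hω (x (p + 1)) (hx _ (by omega))
      rw [hm', e]
      rw [e] at h1
      push_cast at h1 ⊢
      linarith

end Pool.Agent.H33.AN

end
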