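import Pool.Agent.H47.B0.M02
import Pool.Agent.H47.B0.M07

/-! The parts of this file: H33.AN.P.X1b, H33.AN.P.X1a, H33.AN.P.I1a, H33.AN.P.X1c, H33.AN.P.X2b, H33.AN.P.X3b, H33.AN.P.G6b, H33.AN.P.M1a, H33.AN.P.M1b, H33.AN.P.L1b, H33.AN.P.L2b, H33.AN.P.K2b, H33.AN.P.L1c. -/

section

/-!
# Module X1: kinetic energy and potential: basic facts

* `HG.inv`: `G` is injective by `HG.lo`, finite dimension (`LinearEquiv.ofInjectiveEndo`), or Lax-Milgram.
* `HG.norm_le`: by `HG.symm`, `HG.lo`, `HG.hi` and the Cauchy-Schwarz inequality for `⟪G ·, ·⟫`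
  (`⟪G v, w⟫² ≤ ⟪G v, v⟫ ⟪G w, w⟫`, `w = G v`).
* `HV2.grad`: restrict `HV2.der` to the direction `x`.
* `HV2.perF`, `HV2.pertF`: the gradient of a periodic function is periodic.
* `HV2.shift`: translate the time.
* `field2_lip`: `G'` is bounded, `F` is Lipschitz.
* `exists_flow2`: `flow_of_lipschitz`; the last coordinate of `φ t z` is `z.2.2 + t`.
* `Sol2_of_flow`, `flow_of_Sol2`: `G (-G' (F ..)) = -F ..`.
-/

set_option autoImplicit false

open MeasureTheory
open scoped RealInnerProductSpace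

namespace Pool.Agent.H33.AN

open Pool.Agent.H33.AM

variable {n : ℕ} {G G' : EuclideanSpace ℝ (Fin n) →L[ℝ] EuclideanSpace ℝ (Fin n)} {κ₁ κ₂ : ℝ}
  {V : EuclideanSpace ℝ (Fin n) → ℝ → ℝ}
  {F : EuclideanSpace ℝ (Fin n) → ℝ → EuclideanSpace ℝ (Fin n)}
  {Vt : EuclideanSpace ℝ (Fin n) → ℝ → ℝ} {Tp B : ℝ}

theorem HV2.cont (hV : HV2 Tp V F Vt B) :
    Continuous fun z : EuclideanSpace ℝ (Fin n) × ℝ => V z.1 z.2 :=
  continuous_iff_continuousAt.2 fun z => (hV.der z.1 z.2).continuousAt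

theorem HV2.grad (hV : HV2 Tp V F Vt B) (x : EuclideanSpace ℝ (Fin n)) (t : ℝ) :
    HasGradientAt (fun y => V y t) (F x t) x := by
  rw [hasGradientAt_iff_hasFDerivAt]
  have h1 : HasFDerivAt (fun y : EuclideanSpace ℝ (Fin n) => (y, t))
      ((ContinuousLinearMap.id ℝ (EuclideanSpace ℝ (Fin n))).prod 0) x :=
    (hasFDerivAt_id x).prodMk (hasFDerivAt_const t x)
  have h2 := (hV.der x t).comp x h1
  have h3 : (((innerSL ℝ (F x t)).comp (ContinuousLinearMap.fst ℝ (EuclideanSpace ℝ (Fin n)) ℝ) +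
      Vt x t • ContinuousLinearMap.snd ℝ (EuclideanSpace ℝ (Fin n)) ℝ)).comp
      ((ContinuousLinearMap.id ℝ (EuclideanSpace ℝ (Fin n))).prod 0) =
      InnerProductSpace.toDual ℝ (EuclideanSpace ℝ (Fin n)) (F x t) := by
    ext v
    simp
  rw [h3] at h2
  exact h2

theorem HV2.perF (hV : HV2 Tp V F Vt B) (x : EuclideanSpace ℝ (Fin n)) (t : ℝ) (k : Fin n → ℤ) :
    F (x + zv k) t = F x t := by
  have h1 := hV.grad x t
  have h2 := hV.grad (x + zv k) t
  rw [hasGradientAt_iff_hasFDerivAt] at h1 h2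
  have h3 : HasFDerivAt (fun y : EuclideanSpace ℝ (Fin n) => y + zv k)
      (ContinuousLinearMap.id ℝ (EuclideanSpace ℝ (Fin n))) x := (hasFDerivAt_id x).add_const _
  have h4 := h2.comp x h3
  have h5 : ((fun y => V y t) ∘ fun y : EuclideanSpace ℝ (Fin n) => y + zv k) =
      fun y => V y t := by
    funext y
    exact hV.per y t k
  rw [h5, ContinuousLinearMap.comp_id] at h4
  exact (InnerProductSpace.toDual ℝ (EuclideanSpace ℝ (Fin n))).injective (h4.unique h1)

theorem HV2.pertF (hV : HV2 Tp V F Vt B) (x : EuclideanSpace ℝ (Fin n)) (t : ℝ) :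
    F x (t + Tp) = F x t := by
  have h1 := hV.grad x t
  have h2 := hV.grad x (t + Tp)
  rw [hasGradientAt_iff_hasFDerivAt] at h1 h2
  have h5 : (fun y => V y (t + Tp)) = fun y => V y t := by
    funext y
    exact hV.pert y t
  rw [h5] at h2
  exact (InnerProductSpace.toDual ℝ (EuclideanSpace ℝ (Fin n))).injective (h2.unique h1)

theorem HV2.shift (hV : HV2 Tp V F Vt B) (s : ℝ) :
    HV2 Tp (fun x t => V x (t + s)) (fun x t => F x (t + s)) (fun x t => Vt x (t + s)) B := by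
  refine ⟨hV.nonneg, fun x t => ?_, ?_, fun x t k => hV.per x (t + s) k, fun x t => ?_,
    fun x t => hV.bd x (t + s), fun x t => hV.bdF x (t + s), fun x t => hV.bdt x (t + s),
    fun x t x' t' => ?_⟩
  · have h1 : HasFDerivAt (fun z : EuclideanSpace ℝ (Fin n) × ℝ => (z.1, z.2 + s))
        ((ContinuousLinearMap.fst ℝ (EuclideanSpace ℝ (Fin n)) ℝ).prod
          (ContinuousLinearMap.snd ℝ (EuclideanSpace ℝ (Fin n)) ℝ)) (x, t) :=
      hasFDerivAt_fst.prodMk (hasFDerivAt_snd.add_const s)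
    have h2 := (hV.der x (t + s)).comp (x, t) h1
    have h3 : (((innerSL ℝ (F x (t + s))).comp
        (ContinuousLinearMap.fst ℝ (EuclideanSpace ℝ (Fin n)) ℝ) +
        Vt x (t + s) • ContinuousLinearMap.snd ℝ (EuclideanSpace ℝ (Fin n)) ℝ)).comp
        ((ContinuousLinearMap.fst ℝ (EuclideanSpace ℝ (Fin n)) ℝ).prod
          (ContinuousLinearMap.snd ℝ (EuclideanSpace ℝ (Fin n)) ℝ)) =
        (innerSL ℝ (F x (t + s))).comp
        (ContinuousLinearMap.fst ℝ (EuclideanSpace ℝ (Fin n)) ℝ) +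
        Vt x (t + s) • ContinuousLinearMap.snd ℝ (EuclideanSpace ℝ (Fin n)) ℝ := by
      ext v <;> simp
    rw [h3] at h2
    exact h2
  · exact hV.contt.comp (continuous_fst.prodMk (continuous_snd.add continuous_const))
  · have := hV.pert x (t + s)
    rw [show t + Tp + s = t + s + Tp by ring]
    exact this
  · have := hV.lip x (t + s) x' (t' + s)
    rwa [show t + s - (t' + s) = t - t' by ring] at this

end Pool.Agent.H33.AN

end

section

/-!
# Module X1: kinetic energy and potential: basic facts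

* `HG.inv`: `G` is injective by `HG.lo`, finite dimension (`LinearEquiv.ofInjectiveEndo`), or Lax-Milgram.
* `HG.norm_le`: by `HG.symm`, `HG.lo`, `HG.hi` and the Cauchy-Schwarz inequality for `⟪G ·, ·⟫`
  (`⟪G v, w⟫² ≤ ⟪G v, v⟫ ⟪G w, w⟫`, `w = G v`).
* `HV2.grad`: restrict `HV2.der` to the direction `x`.
* `HV2.perF`, `HV2.pertF`: the gradient of a periodic function is periodic.
* `HV2.shift`: translate the time.
* `field2_lip`: `G'` is bounded, `F` is Lipschitz.
* `exists_flow2`: `flow_of_lipschitz`; the last coordinate of `φ t z` is `z.2.2 + t`.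
* `Sol2_of_flow`, `flow_of_Sol2`: `G (-G' (F ..)) = -F ..`.
-/

set_option autoImplicit false

open MeasureTheory
open scoped RealInnerProductSpace

namespace Pool.Agent.H33.AN

open Pool.Agent.H33.AM

variable {n : ℕ} {G G' : EuclideanSpace ℝ (Fin n) →L[ℝ] EuclideanSpace ℝ (Fin n)} {κ₁ κ₂ : ℝ}
  {V : EuclideanSpace ℝ (Fin n) → ℝ → ℝ}
  {F : EuclideanSpace ℝ (Fin n) → ℝ → EuclideanSpace ℝ (Fin n)}
  {Vt : EuclideanSpace ℝ (Fin n) → ℝ → ℝ} {Tp B : ℝ}

theorem HG.inv (hG : HG G κ₁ κ₂) :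
    ∃ G' : EuclideanSpace ℝ (Fin n) →L[ℝ] EuclideanSpace ℝ (Fin n),
      (∀ v, G (G' v) = v) ∧ ∀ v, G' (G v) = v := by
  have hinj : Function.Injective (G : EuclideanSpace ℝ (Fin n) →ₗ[ℝ] EuclideanSpace ℝ (Fin n)) := by
    rw [← LinearMap.ker_eq_bot, LinearMap.ker_eq_bot']
    intro v hv
    have hv' : G v = 0 := hv
    have h := hG.lo v
    rw [hv', inner_zero_left] at h
    have h2 : ‖v‖ ^ 2 ≤ 0 := by
      by_contra hcon
      rw [not_le] at hcon
      have := mul_pos hG.pos hcon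
      linarith
    have h3 : ‖v‖ = 0 := by nlinarith [norm_nonneg v]
    exact norm_eq_zero.1 h3
  have hb : Function.Bijective (G : EuclideanSpace ℝ (Fin n) →ₗ[ℝ] EuclideanSpace ℝ (Fin n)) :=
    ⟨hinj, LinearMap.injective_iff_surjective.1 hinj⟩
  let e := LinearEquiv.ofBijective (G : EuclideanSpace ℝ (Fin n) →ₗ[ℝ] EuclideanSpace ℝ (Fin n)) hb
  refine ⟨LinearMap.toContinuousLinearMap (e.symm : EuclideanSpace ℝ (Fin n) →ₗ[ℝ]
    EuclideanSpace ℝ (Fin n)), fun v => ?_, fun v => ?_⟩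
  · exact e.apply_symm_apply v
  · exact e.symm_apply_apply v

end Pool.Agent.H33.AN

end

section

/-!
# Module I1: the Euler-Lagrange flow on `𝕋ⁿ × ℝⁿ × 𝕋`

(Compare `Pool/Agent/H33/AM/P/I1b.lean`, `I1c.lean`; `pr_eq_iff`, `pr_repE`, `rep_coe`, `measurable_repE`,
`continuous_pr` are in `Pool/Agent/H33/AM/P/I1a.lean`.)
* `isEL_iff2`: `gradient (fun v => lag2 G V x v t) v = G v` (`HG.symm`), `gradient (fun x => lag2 G V x v t) x
  = -F x t` (`HV2.grad`). So `IsEL` says: `γ` is differentiable and `s ↦ G (deriv γ s)` has the derivative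
  `-F (γ t) t`. Then `G (deriv γ)` is continuous, and `deriv γ = G' (G (deriv γ))` is continuous.
* `exists_ELflow2`: with the flow `φ` of `Y = field2 G' F` (`exists_flow2`) put
  `Φ s (X, v, τ) = (pr (z.1), z.2.1, τ + s)`, `z = φ s (repE X, v, rep τ)`. `Y` is periodic in `x` and `t`, so the
  same formula holds for every lift `(x, t)` of `(X, τ)` (uniqueness of the flow; `V` has the integer
  periods in `t`). Measurability: `repE`, `rep` are measurable, `φ s` and `pr` are continuous. Every solution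
  `Sol2 G F γ v` is a trajectory (`flow_of_Sol2`).
-/

set_option autoImplicit false

open MeasureTheory
open scoped RealInnerProductSpace

namespace Pool.Agent.H33.AN

open Pool.Agent.H33.AM

variable {n : ℕ} {G : EuclideanSpace ℝ (Fin n) →L[ℝ] EuclideanSpace ℝ (Fin n)} {κ₁ κ₂ : ℝ}
  {V : EuclideanSpace ℝ (Fin n) → ℝ → ℝ}
  {F : EuclideanSpace ℝ (Fin n) → ℝ → EuclideanSpace ℝ (Fin n)}
  {Vt : EuclideanSpace ℝ (Fin n) → ℝ → ℝ} {B : ℝ}

private theorem I1a_grad_v (hG : HG G κ₁ κ₂) (x v : EuclideanSpace ℝ (Fin n)) (t : ℝ) :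
    HasGradientAt (fun v => lag2 G V x v t) (G v) v := by
  have h1 : HasFDerivAt (fun v => (⟪G v, v⟫ : ℝ))
      ((2 : ℝ) • InnerProductSpace.toDual ℝ _ (G v)) v := by
    have h2 := (G.hasFDerivAt (x := v)).inner ℝ (hasFDerivAt_id v)
    refine h2.congr_fderiv ?_
    ext u
    have h3 : (⟪G u, v⟫ : ℝ) = ⟪G v, u⟫ := by rw [hG.symm u v, real_inner_comm]
    simp [h3]
    ring
  have h3 : HasFDerivAt (fun v => lag2 G V x v t) (InnerProductSpace.toDual ℝ _ (G v)) v := by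
    unfold lag2
    have h4 := (h1.const_mul (1 / 2 : ℝ)).sub_const (V x t)
    refine (h4.congr_fderiv ?_).congr_of_eventuallyEq (Filter.Eventually.of_forall fun w => ?_)
    · ext u
      simp
    · show ⟪G w, w⟫ / 2 - V x t = 1 / 2 * ⟪G w, w⟫ - V x t
      ring
  rw [hasGradientAt_iff_hasFDerivAt]
  exact h3

private theorem I1a_grad_x (hV : HV2 1 V F Vt B) (x v : EuclideanSpace ℝ (Fin n)) (t : ℝ) :
    HasGradientAt (fun x => lag2 G V x v t) (-F x t) x := by
  have h1 : HasFDerivAt (fun y => V y t) (InnerProductSpace.toDual ℝ _ (F x t)) x :=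
    (hV.grad x t).hasFDerivAt
  have h3 : HasFDerivAt (fun x => lag2 G V x v t) (-InnerProductSpace.toDual ℝ _ (F x t)) x := by
    unfold lag2
    exact h1.const_sub _
  rw [hasGradientAt_iff_hasFDerivAt, map_neg]
  exact h3

theorem isEL_iff2 (hG : HG G κ₁ κ₂) (hV : HV2 1 V F Vt B) (γ : ℝ → EuclideanSpace ℝ (Fin n)) :
    IsEL (lag2 G V) γ ↔ Sol2 G F γ (deriv γ) := by
  have e1 : ∀ x v t, gradient (fun v => lag2 G V x v t) v = G v := fun x v t =>
    (I1a_grad_v hG x v t).gradient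
  have e2 : ∀ x v t, gradient (fun x => lag2 G V x v t) x = -F x t := fun x v t =>
    (I1a_grad_x hV x v t).gradient
  unfold IsEL
  simp only [e1, e2]
  constructor
  · rintro ⟨h1, h2⟩
    refine ⟨?_, fun t => (h1 t).hasDerivAt, h2⟩
    obtain ⟨G', -, hG2⟩ := hG.inv
    have h3 : Continuous fun s => G (deriv γ s) :=
      continuous_iff_continuousAt.2 fun t => (h2 t).continuousAt
    have h8 := G'.continuous.comp h3
    refine h8.congr fun s => ?_
    exact hG2 _
  · intro h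
    exact ⟨fun t => (h.der t).differentiableAt, h.el⟩

end Pool.Agent.H33.AN

end

section

/-!
# Module X1: kinetic energy and potential: basic facts

* `HG.inv`: `G` is injective by `HG.lo`, finite dimension (`LinearEquiv.ofInjectiveEndo`), or Lax-Milgram.
* `HG.norm_le`: by `HG.symm`, `HG.lo`, `HG.hi` and the Cauchy-Schwarz inequality for `⟪G ·, ·⟫`
  (`⟪G v, w⟫² ≤ ⟪G v, v⟫ ⟪G w, w⟫`, `w = G v`).
* `HV2.grad`: restrict `HV2.der` to the direction `x`.
* `HV2.perF`, `HV2.pertF`: the gradient of a periodic function is periodic.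
* `HV2.shift`: translate the time.
* `field2_lip`: `G'` is bounded, `F` is Lipschitz.
* `exists_flow2`: `flow_of_lipschitz`; the last coordinate of `φ t z` is `z.2.2 + t`.
* `Sol2_of_flow`, `flow_of_Sol2`: `G (-G' (F ..)) = -F ..`.
-/

set_option autoImplicit false

open MeasureTheory
open scoped RealInnerProductSpace

namespace Pool.Agent.H33.AN

open Pool.Agent.H33.AM

variable {n : ℕ} {G G' : EuclideanSpace ℝ (Fin n) →L[ℝ] EuclideanSpace ℝ (Fin n)} {κ₁ κ₂ : ℝ}
  {V : EuclideanSpace ℝ (Fin n) → ℝ → ℝ}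
  {F : EuclideanSpace ℝ (Fin n) → ℝ → EuclideanSpace ℝ (Fin n)}
  {Vt : EuclideanSpace ℝ (Fin n) → ℝ → ℝ} {Tp B : ℝ}

theorem field2_lip (hV : HV2 Tp V F Vt B) :
    ∃ K : NNReal, LipschitzWith K (field2 G' F) := by
  have hB := hV.nonneg
  have hK : (0 : ℝ) ≤ 1 + ‖G'‖ * (B * 2) := by positivity
  refine ⟨⟨1 + ‖G'‖ * (B * 2), hK⟩, LipschitzWith.of_dist_le_mul fun z w => ?_⟩
  have h1 : ‖z.1 - w.1‖ ≤ dist z w := by
    rw [dist_eq_norm]
    exact norm_fst_le (z - w)
  have h2 : ‖z.2.1 - w.2.1‖ ≤ dist z w := by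
    rw [dist_eq_norm]
    exact (norm_fst_le (z - w).2).trans (norm_snd_le (z - w))
  have h3 : |z.2.2 - w.2.2| ≤ dist z w := by
    rw [dist_eq_norm, ← Real.norm_eq_abs]
    exact (norm_snd_le (z - w).2).trans (norm_snd_le (z - w))
  have h0 : 0 ≤ dist z w := dist_nonneg
  have h4 : ‖F z.1 z.2.2 - F w.1 w.2.2‖ ≤ B * (2 * dist z w) := by
    refine (hV.lip _ _ _ _).trans ?_
    apply mul_le_mul_of_nonneg_left _ hB
    linarith
  have h5 : ‖G' (F z.1 z.2.2) - G' (F w.1 w.2.2)‖ ≤ ‖G'‖ * (B * (2 * dist z w)) := by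
    rw [← map_sub]
    exact (G'.le_opNorm _).trans (mul_le_mul_of_nonneg_left h4 (norm_nonneg _))
  have h6 : 0 ≤ ‖G'‖ * (B * 2) * dist z w := by positivity
  change dist (field2 G' F z) (field2 G' F w) ≤ (1 + ‖G'‖ * (B * 2)) * dist z w
  unfold field2
  rw [Prod.dist_eq, Prod.dist_eq]
  apply max_le
  · simp only
    rw [dist_eq_norm]
    linarith
  · apply max_le
    · simp only
      rw [dist_eq_norm, neg_sub_neg, norm_sub_rev]
      linarith
    · simp only [dist_self]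
      positivity

theorem exists_flow2 (hV : HV2 Tp V F Vt B) :
    ∃ φ : ℝ → EuclideanSpace ℝ (Fin n) × EuclideanSpace ℝ (Fin n) × ℝ →
      EuclideanSpace ℝ (Fin n) × EuclideanSpace ℝ (Fin n) × ℝ, IsFlow (field2 G' F) φ ∧
      ∀ t z, (φ t z).2.2 = z.2.2 + t := by
  obtain ⟨K, hK⟩ := field2_lip (G' := G') hV
  obtain ⟨φ, hφ⟩ := flow_of_lipschitz hK
  refine ⟨φ, hφ, fun t z => ?_⟩
  have h1 : ∀ s, HasDerivAt (fun s => (φ s z).2.2 - s) 0 s := by
    intro s
    have h2 : HasDerivAt (fun s => (φ s z).2.2) ((field2 G' F (φ s z)).2.2) s :=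
      (hφ.der z s).snd.snd
    have h3 : HasDerivAt (fun s => (φ s z).2.2 - s) ((field2 G' F (φ s z)).2.2 - 1) s :=
      h2.sub (hasDerivAt_id s)
    have h4 : ((field2 G' F (φ s z)).2.2 : ℝ) - 1 = 0 := by
      simp [field2]
    rw [h4] at h3
    exact h3
  have h5 := is_const_of_deriv_eq_zero (fun s => (h1 s).differentiableAt) (fun s => (h1 s).deriv) t 0
  have h6 : φ 0 z = z := hφ.zero z
  simp only [h6, sub_zero] at h5
  linarith

theorem Sol2_of_flow (hG1 : ∀ v, G (G' v) = v)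
    {z : ℝ → EuclideanSpace ℝ (Fin n) × EuclideanSpace ℝ (Fin n) × ℝ}
    (hz : ∀ t, HasDerivAt z (field2 G' F (z t)) t) (ht : ∀ t, (z t).2.2 = t) :
    Sol2 G F (fun t => (z t).1) fun t => (z t).2.1 := by
  have h2 : ∀ t, HasDerivAt (fun t => (z t).2.1) (-G' (F (z t).1 t)) t := by
    intro t
    have h := (hz t).snd.fst
    simp only [field2, ht] at h
    exact h
  refine ⟨?_, ?_, ?_⟩
  · rw [continuous_iff_continuousAt]
    exact fun t => (h2 t).continuousAt
  · intro t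
    have h := (hz t).fst
    simp only [field2] at h
    exact h
  · intro t
    have h := G.hasFDerivAt.comp_hasDerivAt t (h2 t)
    simp only [map_neg, hG1] at h
    exact h

theorem flow_of_Sol2 (hG2 : ∀ v, G' (G v) = v) {γ v : ℝ → EuclideanSpace ℝ (Fin n)}
    (h : Sol2 G F γ v) (t : ℝ) :
    HasDerivAt (fun t => (γ t, v t, t)) (field2 G' F (γ t, v t, t)) t := by
  have h1 : HasDerivAt v (-G' (F (γ t) t)) t := by
    have h2 := G'.hasFDerivAt.comp_hasDerivAt t (h.el t)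
    have h3 : (fun s => G' (G (v s))) = v := funext fun s => hG2 (v s)
    have h4 : (⇑G' ∘ fun s => G (v s)) = v := h3
    rw [h4, map_neg] at h2
    exact h2
  exact (h.der t).prodMk (h1.prodMk (hasDerivAt_id t))

end Pool.Agent.H33.AN

end

section

/-!
# Module X2: discrete minimisers

(Compare `Pool/Agent/H33/AM/P/X2a.lean`, `X2b.lean`, `X2c.lean`: the same for `K v + A(x) · v - V(x)`.)
`τ = T / N`, `v_i = (1/τ) (x_{i+1} - x_i)`, `t_i = i τ`, `S = Sd2 G V τ N`; `T` is a positive integer (the number of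
periods).
* `disc_exists2`: a quasi-periodic sequence is determined by `(x_0, …, x_{N-1}) ∈ (ℝⁿ)^N`; `S` is
  continuous in these variables, invariant under the translations by `zv k'`, so one may restrict to
  `x_0 ∈ [0, 1]ⁿ`, and coercive there: `⟪G v, v⟫ ≥ κ₁ ‖v‖²`, `|V| ≤ B`.
* `disc_EL2`: for `0 ≤ i < N`; derivative of `S` in the direction of the variable `x_i` (moved together with all
  the `x_{i + j N}`): the terms `i` and `i - 1` (for `i = 0`: the terms `0` and `N - 1`, where `v_{N-1} = v_{-1}`)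
  give `-G v_i - τ F(x_i, t_i) + G v_{i-1} = 0`. (The case `N = 1`: then `x_{i+1}`, `x_i` move together,
  `v_i = v_{i-1}`; the formula is still true.)
* `disc_EL2'`: for all `i`, since `x_{i+N} = x_i + zv k`, `v_{i+N} = v_i` and `F(x + zv k, t + T) = F(x, t)`
  (`HV2.perF`, `HV2.pertF`, `T` integer).
* `disc_bound2`: `S(x) ≤ S(straight line) ≤ T (κ₂/2 ‖zv k/T‖² + B)`, so `∑ τ ‖v_i‖² ≤ C`; by `disc_EL2`,
  `‖G v_i - G v_j‖ ≤ ∑ τ B ≤ T B` for all `i`, `j`; `κ₁ ‖v_i - v_j‖ ≤ ‖G v_i - G v_j‖`, and some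
  `‖v_j‖² ≤ C/T` (average), so `‖v_i‖ ≤ R`, with `R` independent of `N` and of `x`.
-/

set_option autoImplicit false

open MeasureTheory
open scoped RealInnerProductSpace

namespace Pool.Agent.H33.AN

open Pool.Agent.H33.AM

variable {n : ℕ} {G G' : EuclideanSpace ℝ (Fin n) →L[ℝ] EuclideanSpace ℝ (Fin n)} {κ₁ κ₂ : ℝ}
  {V : EuclideanSpace ℝ (Fin n) → ℝ → ℝ}
  {F : EuclideanSpace ℝ (Fin n) → ℝ → EuclideanSpace ℝ (Fin n)}
  {Vt : EuclideanSpace ℝ (Fin n) → ℝ → ℝ} {B : ℝ} {T N : ℕ} {k : Fin n → ℤ}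

/-- The derivative of one term of the discrete action. -/
private theorem X2b_term (hG : HG G κ₁ κ₂) (hV : HV2 1 V F Vt B)
    (a b c d : EuclideanSpace ℝ (Fin n)) (t : ℝ) :
    HasDerivAt (fun s : ℝ => lag2 G V (a + s • b) (c + s • d) t) (⟪G c, d⟫ - ⟪F a t, b⟫) 0 := by
  have h1 : HasDerivAt (fun s : ℝ => (a + s • b, t)) (b, (0 : ℝ)) 0 := by
    have h3 : HasDerivAt (fun s : ℝ => a + s • b) b 0 := by
      have := ((hasDerivAt_id (0 : ℝ)).smul_const b).const_add a
      simpa using this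
    exact h3.prodMk (hasDerivAt_const (0 : ℝ) t)
  have h2 : HasDerivAt (fun s : ℝ => c + s • d) d 0 := by
    have := ((hasDerivAt_id (0 : ℝ)).smul_const d).const_add c
    simpa using this
  have hG1 : HasDerivAt (fun s : ℝ => G (c + s • d)) (G d) 0 :=
    G.hasFDerivAt.comp_hasDerivAt (0 : ℝ) h2
  have hV1 : HasDerivAt (fun s : ℝ => V (a + s • b) t) ⟪F a t, b⟫ 0 := by
    have h4 : HasFDerivAt (fun z : EuclideanSpace ℝ (Fin n) × ℝ => V z.1 z.2)
        ((innerSL ℝ (F a t)).comp (ContinuousLinearMap.fst ℝ (EuclideanSpace ℝ (Fin n)) ℝ) +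
          Vt a t • ContinuousLinearMap.snd ℝ (EuclideanSpace ℝ (Fin n)) ℝ)
        ((fun s : ℝ => (a + s • b, t)) 0) := by
      simpa using hV.der a t
    have h5 := h4.comp_hasDerivAt (0 : ℝ) h1
    simpa [Function.comp_def] using h5
  have h5 := ((hG1.inner ℝ h2).div_const 2).fun_sub hV1
  simp only [zero_smul, add_zero] at h5
  unfold lag2
  have e1 : ⟪G d, c⟫ = ⟪G c, d⟫ := by
    rw [hG.symm d c, real_inner_comm]
  rw [e1, add_self_div_two] at h5
  exact h5

theorem disc_EL2 (hG : HG G κ₁ κ₂) (hV : HV2 1 V F Vt B) (hT : 0 < T) (hN : 0 < N)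
    {x : ℤ → EuclideanSpace ℝ (Fin n)} (hx : IsDM2 G V T N k x) {i : ℤ} (h0 : 0 ≤ i)
    (h1 : i < N) :
    G (((1 : ℝ) / (T / N)) • (x (i + 1) - x i)) - G (((1 : ℝ) / (T / N)) • (x i - x (i - 1))) =
      -(((T : ℝ) / N) • F (x i) (i * (T / N))) := by
  obtain ⟨hx1, hx2⟩ := hx
  obtain ⟨m, rfl⟩ := Int.eq_ofNat_of_zero_le h0
  have hmN : m < N := by exact_mod_cast h1
  set τ : ℝ := (T : ℝ) / N with hτdef
  have hτ : 0 < τ := div_pos (by exact_mod_cast hT) (by exact_mod_cast hN)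
  refine ext_inner_right ℝ fun w => ?_
  set χ : ℤ → EuclideanSpace ℝ (Fin n) := fun j => if (N : ℤ) ∣ j - m then w else 0 with hχ
  have hχN : ∀ j, χ (j + N) = χ j := by
    intro j
    simp only [hχ]
    congr 1
    rw [show j + (N : ℤ) - m = (j - m) + N by ring]
    simp
  set v : ℤ → EuclideanSpace ℝ (Fin n) := fun j => (1 / τ) • (x (j + 1) - x j) with hv
  -- the action along the perturbation
  have hder : HasDerivAt (fun s : ℝ => Sd2 G V τ N (fun j => x j + s • χ j))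
      (∑ j ∈ Finset.range N, τ * (⟪G (v j), (1 / τ) • (χ (j + 1) - χ j)⟫ -
          ⟪F (x j) (j * τ), χ j⟫)) 0 := by
    unfold Sd2
    refine HasDerivAt.fun_sum fun j _ => ?_
    have h1 := (X2b_term hG hV (x j) (χ j) (v j) ((1 / τ) • (χ (j + 1) - χ j))
      (j * τ)).const_mul τ
    refine h1.congr_of_eventuallyEq (Filter.Eventually.of_forall fun s => ?_)
    beta_reduce
    congr 2
    simp only [hv]
    module
  have hmin : IsLocalMin (fun s : ℝ => Sd2 G V τ N (fun j => x j + s • χ j)) 0 := by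
    refine Filter.Eventually.of_forall fun s => ?_
    beta_reduce
    have h0 : (fun j => x j + (0 : ℝ) • χ j) = x := by
      funext j
      simp
    rw [h0]
    refine hx2 _ fun i => ?_
    rw [hx1, hχN]
    abel
  have hz := hmin.hasDerivAt_eq_zero hder
  have hterm : ∀ j : ℕ, τ * (⟪G (v j), (1 / τ) • (χ (j + 1) - χ j)⟫ -
          ⟪F (x j) (j * τ), χ j⟫) =
      ⟪G (v j), χ (j + 1)⟫ - ⟪G (v j) + τ • F (x j) (j * τ), χ j⟫ := by
    intro j
    simp only [inner_add_left, inner_sub_right, real_inner_smul_left, real_inner_smul_right]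
    field_simp
    ring
  have hz2 : ∑ j ∈ Finset.range N, ⟪G (v (j : ℤ)), χ ((j : ℤ) + 1)⟫ =
      ∑ j ∈ Finset.range N, ⟪G (v (j : ℤ)) + τ • F (x (j : ℤ)) ((j : ℝ) * τ), χ (j : ℤ)⟫ := by
    rw [← sub_eq_zero, ← Finset.sum_sub_distrib, ← hz]
    exact Finset.sum_congr rfl fun j _ => (hterm j).symm
  have hs2 : ∑ j ∈ Finset.range N, ⟪G (v (j : ℤ)) + τ • F (x (j : ℤ)) ((j : ℝ) * τ), χ (j : ℤ)⟫ =
      ⟪G (v (m : ℤ)) + τ • F (x (m : ℤ)) ((m : ℝ) * τ), w⟫ := by
    rw [Finset.sum_eq_single m]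
    · have : χ (m : ℤ) = w := by simp [hχ]
      rw [this]
    · intro j hj hj1
      rw [Finset.mem_range] at hj
      have : χ (j : ℤ) = 0 := by
        simp only [hχ]
        rw [if_neg]
        intro hd
        have h3 := Int.eq_zero_of_abs_lt_dvd hd (by rw [abs_lt]; constructor <;> omega)
        omega
      rw [this, inner_zero_right]
    · intro h
      rw [Finset.mem_range] at h
      omega
  have hs1 : ∑ j ∈ Finset.range N, ⟪G (v (j : ℤ)), χ ((j : ℤ) + 1)⟫ =
      ⟪G (v ((m : ℤ) - 1)), w⟫ := by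
    rcases Nat.eq_zero_or_pos m with hm | hm
    · rw [Finset.sum_eq_single (N - 1)]
      · have h3 : χ ((((N - 1 : ℕ) : ℤ)) + 1) = w := by
          simp only [hχ]
          rw [if_pos]
          rw [show (((N - 1 : ℕ) : ℤ)) + 1 - m = N by omega]
        have h4 : v (((N - 1 : ℕ) : ℤ)) = v ((m : ℤ) - 1) := by
          have e1 : (((N - 1 : ℕ) : ℤ)) = ((m : ℤ) - 1) + N := by omega
          have e2 : (((m : ℤ) - 1) + (N : ℤ)) + 1 = (((m : ℤ) - 1) + 1) + N := by ring
          simp only [hv]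
          rw [e1, e2, hx1, hx1, add_sub_add_right_eq_sub]
        rw [h3, h4]
      · intro j hj hj1
        rw [Finset.mem_range] at hj
        have : χ ((j : ℤ) + 1) = 0 := by
          simp only [hχ]
          rw [if_neg]
          intro hd
          have := Int.le_of_dvd (by omega) hd
          omega
        rw [this, inner_zero_right]
      · intro h
        rw [Finset.mem_range] at h
        omega
    · rw [Finset.sum_eq_single (m - 1)]
      · have h3 : χ ((((m - 1 : ℕ) : ℤ)) + 1) = w := by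
          simp only [hχ]
          rw [if_pos]
          rw [show (((m - 1 : ℕ) : ℤ)) + 1 - m = 0 by omega]
          exact dvd_zero _
        have h4 : (((m - 1 : ℕ) : ℤ)) = (m : ℤ) - 1 := by omega
        rw [h3, h4]
      · intro j hj hj1
        rw [Finset.mem_range] at hj
        have : χ ((j : ℤ) + 1) = 0 := by
          simp only [hχ]
          rw [if_neg]
          intro hd
          have h3 := Int.eq_zero_of_abs_lt_dvd hd (by rw [abs_lt]; constructor <;> omega)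
          omega
        rw [this, inner_zero_right]
      · intro h
        rw [Finset.mem_range] at h
        omega
  rw [hs1, hs2] at hz2
  have e4 : v ((m : ℤ) - 1) = (1 / τ) • (x (m : ℤ) - x ((m : ℤ) - 1)) := by
    simp only [hv, sub_add_cancel]
  have e5 : v (m : ℤ) = (1 / τ) • (x ((m : ℤ) + 1) - x (m : ℤ)) := rfl
  rw [← e4, ← e5, inner_sub_left, hz2, inner_add_left, inner_neg_left]
  simp only [Int.cast_natCast]
  ring

end Pool.Agent.H33.AN

end

section

/-!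
# Module X3: from discrete to continuous; periodic orbits

(Compare `Pool/Agent/H33/AM/P/X3b.lean`, `X3c.lean`, `X4.lean`.)
`Y = field2 G' F`, `W = ℝⁿ × ℝⁿ × ℝ`, `τ = T / N`, `v_i = (1/τ) (x_{i+1} - x_i)`, `t_i = i τ`, `z_i = (x_i, v_i, t_i)`,
so that `x_{i+1} = x_i + τ (Y z_i).1`.
* `disc_euler2`: `‖x_i‖ ≤ √n + T R` for `0 ≤ i ≤ N`; `v_{i+1} - v_i = -τ G' (F(x_{i+1}, t_{i+1}))` by `disc_EL2'`, and
  `‖F(x_{i+1}, t_{i+1}) - F(x_i, t_i)‖ ≤ B (R + 1) τ`.
* `disc_of_curve2`: `y i = x(i τ)` for `0 ≤ i < N`, extended quasi-periodically. Jensen: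
  `τ ⟪G c, c⟫ ≤ ∫ ⟪G u, u⟫` on every `[i τ, (i + 1) τ]`, `c` the average of `u`;
  `‖x(t) - x(i τ)‖ ≤ R τ`, so the terms with `V` change by `O(τ)`.
* `per_orbit2_zero`: `G'` from `HG.inv`, `φ` from `exists_flow2`. For `N ≥ 1` let `x^N` be a discrete minimiser
  (`disc_exists2`), `z^N_i` as in `disc_euler2`. By `euler` (with `τ = T/N`, `c = C τ²`)
  `‖φ (i τ) (z^N_0) - z^N_i‖ ≤ C' τ` for `i ≤ N`. Since `z^N_N = z^N_0 + (zv k, 0, T)` and `z^N_0` is bounded, a
  subsequence `z^N_0 → z*` satisfies `φ T z* = z* + (zv k, 0, T)`, `(z*).2.2 = 0`. The solution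
  `γ(t) = (φ t z*).1`, `v(t) = (φ t z*).2.1` (`Sol2_of_flow`) is `T`-periodic modulo `zv k` (uniqueness, `Y` is
  periodic). Action: `|∫_0^T g(φ t z) dt - ∑ τ g(φ (i τ) z)| → 0` and `|g(φ (i τ) z^N_0) - g(z^N_i)| ≤ C'' τ` for
  `g(x, v, t) = lag2 G V x v t` (Lipschitz on bounded sets), so
  `∫_0^T g(φ t z*) dt = lim Sd2(x^N) ≤ ∫ lag2(x, u) + ε` by `disc_of_curve2`, for every `ε > 0`.
* `per_orbit2`: translate the time by `s` (`HV2.shift`), use `per_orbit2_zero`, translate back.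
-/

set_option autoImplicit false

open MeasureTheory
open scoped RealInnerProductSpace

namespace Pool.Agent.H33.AN

open Pool.Agent.H33.AM

variable {n : ℕ} {G G' : EuclideanSpace ℝ (Fin n) →L[ℝ] EuclideanSpace ℝ (Fin n)} {κ₁ κ₂ : ℝ}
  {V : EuclideanSpace ℝ (Fin n) → ℝ → ℝ}
  {F : EuclideanSpace ℝ (Fin n) → ℝ → EuclideanSpace ℝ (Fin n)}
  {Vt : EuclideanSpace ℝ (Fin n) → ℝ → ℝ} {B : ℝ} {T : ℕ}

private theorem x3b_integrable {a b : ℝ} {x u : ℝ → EuclideanSpace ℝ (Fin n)} (h : Adm a b x u)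
    {g : EuclideanSpace ℝ (Fin n) × EuclideanSpace ℝ (Fin n) × ℝ → ℝ} (hg : Continuous g) :
    IntervalIntegrable (fun t => g (x t, u t, t)) volume a b := by
  obtain ⟨R, hR⟩ := h.bd
  rw [intervalIntegrable_iff_integrableOn_Icc_of_le h.le]
  have hxm : AEStronglyMeasurable x (volume.restrict (Set.Icc a b)) :=
    h.cont.aestronglyMeasurable measurableSet_Icc
  have hum : AEStronglyMeasurable u (volume.restrict (Set.Icc a b)) :=
    h.meas.aestronglyMeasurable
  have htm : AEStronglyMeasurable (fun t : ℝ => t) (volume.restrict (Set.Icc a b)) :=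
    measurable_id.aestronglyMeasurable
  have hK : IsCompact ((x '' Set.Icc a b) ×ˢ
      ((Metric.closedBall (0 : EuclideanSpace ℝ (Fin n)) R) ×ˢ Set.Icc a b)) :=
    (isCompact_Icc.image_of_continuousOn h.cont).prod
      ((isCompact_closedBall 0 R).prod isCompact_Icc)
  obtain ⟨C, hC⟩ := hK.exists_bound_of_continuousOn hg.continuousOn
  refine ⟨hg.comp_aestronglyMeasurable (hxm.prodMk (hum.prodMk htm)),
    HasFiniteIntegral.restrict_of_bounded (C := C) measure_Icc_lt_top ?_⟩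
  refine (ae_restrict_iff' measurableSet_Icc).2 (Filter.Eventually.of_forall fun t ht => ?_)
  refine hC _ ⟨Set.mem_image_of_mem x ht, ?_, ht⟩
  simpa using hR t

private theorem x3b_Vcont (hV : HV2 1 V F Vt B) :
    Continuous fun z : EuclideanSpace ℝ (Fin n) × ℝ => V z.1 z.2 :=
  continuous_iff_continuousAt.mpr fun z => (hV.der z.1 z.2).continuousAt

private theorem x3b_lagcont (hV : HV2 1 V F Vt B) :
    Continuous fun p : EuclideanSpace ℝ (Fin n) × EuclideanSpace ℝ (Fin n) × ℝ =>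
      lag2 G V p.1 p.2.1 p.2.2 := by
  unfold lag2
  have h1 : Continuous fun p : EuclideanSpace ℝ (Fin n) × EuclideanSpace ℝ (Fin n) × ℝ =>
      p.2.1 := continuous_fst.comp continuous_snd
  have h2 : Continuous fun p : EuclideanSpace ℝ (Fin n) × EuclideanSpace ℝ (Fin n) × ℝ =>
      V p.1 p.2.2 :=
    (x3b_Vcont hV).comp (continuous_fst.prodMk (continuous_snd.comp continuous_snd))
  exact (((G.continuous.comp h1).inner h1).div_const 2).sub h2

private theorem x3b_Vlip (hV : HV2 1 V F Vt B) (x y : EuclideanSpace ℝ (Fin n)) (s t : ℝ) :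
    |V y t - V x s| ≤ B * (‖y - x‖ + |t - s|) := by
  have h1 : |V y t - V x t| ≤ B * ‖y - x‖ := by
    have hd : ∀ z : EuclideanSpace ℝ (Fin n),
        HasFDerivAt (fun w => V w t) (innerSL ℝ (F z t)) z := by
      intro z
      have e1 : HasFDerivAt (fun w : EuclideanSpace ℝ (Fin n) =>
          ((w, t) : EuclideanSpace ℝ (Fin n) × ℝ))
          (ContinuousLinearMap.inl ℝ (EuclideanSpace ℝ (Fin n)) ℝ) z :=
        hasFDerivAt_prodMk_left z t
      have e2 := HasFDerivAt.comp z (hV.der z t) e1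
      refine e2.congr_fderiv (ContinuousLinearMap.ext fun w => ?_)
      show ⟪F z t, w⟫ + Vt z t * 0 = ⟪F z t, w⟫
      ring
    have := (convex_univ (E := EuclideanSpace ℝ (Fin n))).norm_image_sub_le_of_norm_hasFDerivWithin_le
      (f := fun w => V w t) (C := B) (fun z _ => (hd z).hasFDerivWithinAt)
      (fun z _ => by rw [innerSL_apply_norm]; exact hV.bdF z t)
      (Set.mem_univ x) (Set.mem_univ y)
    rwa [Real.norm_eq_abs] at this
  have h2 : |V x t - V x s| ≤ B * |t - s| := by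
    have hd : ∀ r : ℝ, HasDerivAt (fun r => V x r) (Vt x r) r := by
      intro r
      have e1 : HasDerivAt (fun r : ℝ => ((x, r) : EuclideanSpace ℝ (Fin n) × ℝ))
          ((0 : EuclideanSpace ℝ (Fin n)), (1 : ℝ)) r :=
        (hasDerivAt_const r x).prodMk (hasDerivAt_id r)
      have e2 := HasFDerivAt.comp_hasDerivAt
        (f := fun r : ℝ => ((x, r) : EuclideanSpace ℝ (Fin n) × ℝ)) r (hV.der x r) e1
      refine e2.congr_deriv ?_
      show ⟪F x r, (0 : EuclideanSpace ℝ (Fin n))⟫ + Vt x r * 1 = Vt x r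
      rw [inner_zero_right]
      ring
    have := (convex_univ (E := ℝ)).norm_image_sub_le_of_norm_hasDerivWithin_le
      (f := fun r => V x r) (C := B) (fun r _ => (hd r).hasDerivWithinAt)
      (fun r _ => by rw [Real.norm_eq_abs]; exact hV.bdt x r)
      (Set.mem_univ s) (Set.mem_univ t)
    rwa [Real.norm_eq_abs, Real.norm_eq_abs] at this
  calc |V y t - V x s| = |(V y t - V x t) + (V x t - V x s)| := by
        congr 1
        ring
    _ ≤ B * ‖y - x‖ + B * |t - s| := (abs_add_le _ _).trans (add_le_add h1 h2)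
    _ = B * (‖y - x‖ + |t - s|) := by ring

private theorem x3b_dist {a b R : ℝ} {x u : ℝ → EuclideanSpace ℝ (Fin n)} (h : Adm a b x u)
    (hR : ∀ t, ‖u t‖ ≤ R) : ‖x b - x a‖ ≤ R * (b - a) := by
  have hab := h.le
  have hR0 : 0 ≤ R := (norm_nonneg _).trans (hR 0)
  have h1 := h.integral_inner (x b - x a)
  rw [← inner_sub_right, real_inner_self_eq_norm_sq] at h1
  have h2 := intervalIntegral.norm_integral_le_of_norm_le_const (a := a) (b := b)
    (f := fun t => ⟪x b - x a, u t⟫) (C := ‖x b - x a‖ * R) (fun t _ => by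
      rw [Real.norm_eq_abs]
      exact (abs_real_inner_le_norm _ _).trans
        (mul_le_mul_of_nonneg_left (hR t) (norm_nonneg _)))
  rw [h1, Real.norm_eq_abs, abs_of_nonneg (by positivity), abs_of_nonneg (by linarith)] at h2
  rcases (norm_nonneg (x b - x a)).eq_or_lt with h0 | h0
  · rw [← h0]
    exact mul_nonneg hR0 (by linarith)
  · nlinarith

private theorem x3b_conv (hG : HG G κ₁ κ₂) (c w : EuclideanSpace ℝ (Fin n)) :
    ⟪G c, c⟫ / 2 + ⟪G c, w - c⟫ ≤ ⟪G w, w⟫ / 2 := by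
  have h1 : 0 ≤ ⟪G (w - c), w - c⟫ :=
    le_trans (mul_nonneg hG.pos.le (sq_nonneg _)) (hG.lo (w - c))
  have h2 : ⟪G w, c⟫ = ⟪G c, w⟫ := by
    rw [hG.symm w c, real_inner_comm]
  rw [map_sub, inner_sub_left, inner_sub_right, inner_sub_right] at h1
  rw [inner_sub_right]
  linarith

private theorem x3b_step (hG : HG G κ₁ κ₂) (hV : HV2 1 V F Vt B) {a b R : ℝ}
    {x u : ℝ → EuclideanSpace ℝ (Fin n)} (h : Adm a b x u) (hab : a < b) (hR : ∀ t, ‖u t‖ ≤ R) :
    (b - a) * lag2 G V (x a) ((1 / (b - a)) • (x b - x a)) a ≤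
      (∫ t in a..b, lag2 G V (x t) (u t) t) + B * (R + 1) * (b - a) ^ 2 := by
  have hR0 : 0 ≤ R := (norm_nonneg _).trans (hR 0)
  have hB := hV.nonneg
  have hτ : 0 < b - a := by linarith
  set c := (1 / (b - a)) • (x b - x a) with hc
  set e := ⟪G c, c⟫ / 2 - ⟪G c, c⟫ - V (x a) a - B * (R + 1) * (b - a) with he
  have i1 : IntervalIntegrable (fun t => ⟪G c, u t⟫) volume a b :=
    h.integrable (g := fun p => ⟪G c, p.2⟫) (continuous_const.inner continuous_snd)
  have i2 : IntervalIntegrable (fun t => lag2 G V (x t) (u t) t) volume a b :=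
    x3b_integrable h (g := fun p => lag2 G V p.1 p.2.1 p.2.2) (x3b_lagcont hV)
  have i3 : IntervalIntegrable (fun t => e + ⟪G c, u t⟫) volume a b :=
    (continuous_const.intervalIntegrable _ _).add i1
  have h1 : ∫ t in a..b, (e + ⟪G c, u t⟫) ≤ ∫ t in a..b, lag2 G V (x t) (u t) t := by
    apply intervalIntegral.integral_mono_on hab.le i3 i2
    intro t ht
    have hx : ‖x t - x a‖ ≤ R * (b - a) :=
      (x3b_dist (h.sub le_rfl ht.1 ht.2) hR).trans
        (mul_le_mul_of_nonneg_left (by linarith [ht.2]) hR0)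
    have ht2 : |t - a| ≤ b - a := by
      rw [abs_of_nonneg (by linarith [ht.1])]
      linarith [ht.2]
    have k1 := x3b_conv hG c (u t)
    have k3 := (abs_le.mp (x3b_Vlip hV (x a) (x t) a t)).2
    have k4 : B * (‖x t - x a‖ + |t - a|) ≤ B * ((R + 1) * (b - a)) :=
      mul_le_mul_of_nonneg_left (by linarith) hB
    rw [inner_sub_right] at k1
    unfold lag2
    rw [he]
    linarith
  have h2 : ∫ t in a..b, (e + ⟪G c, u t⟫) = (b - a) * e + ⟪G c, x b - x a⟫ := by
    rw [intervalIntegral.integral_add (continuous_const.intervalIntegrable _ _) i1,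
      intervalIntegral.integral_const, smul_eq_mul, h.integral_inner, inner_sub_right]
  have h3 : x b - x a = (b - a) • c := by
    rw [hc, smul_smul, mul_one_div_cancel hτ.ne', one_smul]
  have h4 : ⟪G c, x b - x a⟫ = (b - a) * ⟪G c, c⟫ := by
    rw [h3, inner_smul_right]
  rw [h2, h4, he] at h1
  unfold lag2 at h1 ⊢
  nlinarith

theorem disc_of_curve2 (hG : HG G κ₁ κ₂) (hV : HV2 1 V F Vt B) (hT : 0 < T)
    {x u : ℝ → EuclideanSpace ℝ (Fin n)} (h : Adm 0 T x u) {k : Fin n → ℤ}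
    (hx : x T = x 0 + zv k) {ε : ℝ} (hε : 0 < ε) :
    ∃ N₀ : ℕ, ∀ N ≥ N₀, ∃ y : ℤ → EuclideanSpace ℝ (Fin n), (∀ i, y (i + N) = y i + zv k) ∧
      Sd2 G V (T / N) N y ≤ (∫ t in (0 : ℝ)..T, lag2 G V (x t) (u t) t) + ε := by
  obtain ⟨R, hR⟩ := h.bd
  have hR0 : 0 ≤ R := (norm_nonneg _).trans (hR 0)
  have hB := hV.nonneg
  have hT' : (0 : ℝ) < T := by exact_mod_cast hT
  obtain ⟨M, hM⟩ := exists_nat_ge (B * (R + 1) * (T : ℝ) ^ 2 / ε)
  refine ⟨M + 1, fun N hN => ?_⟩
  have hN0 : 0 < N := by omega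
  have hN' : (0 : ℝ) < N := by exact_mod_cast hN0
  have hNz : (0 : ℤ) < N := by exact_mod_cast hN0
  have hNM : (M : ℝ) ≤ N := by
    have : M ≤ N := by omega
    exact_mod_cast this
  set τ := (T : ℝ) / N with hτd
  have hτ : 0 < τ := by positivity
  have hNτ : N * τ = T := by rw [hτd]; field_simp
  set y : ℤ → EuclideanSpace ℝ (Fin n) := fun i =>
    x (((i % (N : ℤ) : ℤ) : ℝ) * τ) + ((i / (N : ℤ) : ℤ) : ℝ) • zv k with hy
  have hyi : ∀ i : ℕ, i ≤ N → y i = x (i * τ) := by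
    intro i hi
    simp only [hy]
    rcases hi.eq_or_lt with h1 | h1
    · subst h1
      rw [Int.emod_self, Int.ediv_self hNz.ne', hNτ, hx]
      simp
    · have h2 : ((i : ℤ) % (N : ℤ)) = i := Int.emod_eq_of_lt (by positivity) (by exact_mod_cast h1)
      have h3 : ((i : ℤ) / (N : ℤ)) = 0 := Int.ediv_eq_zero_of_lt (by positivity)
        (by exact_mod_cast h1)
      rw [h2, h3]
      simp
  refine ⟨y, ?_, ?_⟩
  · intro i
    simp only [hy]
    rw [Int.add_emod_right, Int.add_ediv_of_dvd_right (dvd_refl _), Int.ediv_self hNz.ne']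
    push_cast
    rw [add_smul, one_smul, add_assoc]
  · set a : ℕ → ℝ := fun i => i * τ with ha
    have hstep : ∀ i ∈ Finset.range N,
        τ * lag2 G V (y i) ((1 / τ) • (y (i + 1) - y i)) (i * τ) ≤
          (∫ t in a i..a (i + 1), lag2 G V (x t) (u t) t) + B * (R + 1) * τ ^ 2 := by
      intro i hi
      rw [Finset.mem_range] at hi
      have hi' : (i : ℝ) + 1 ≤ N := by exact_mod_cast hi
      have e1 : a (i + 1) - a i = τ := by
        simp only [ha]
        push_cast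
        ring
      have hai : 0 ≤ a i := by simp only [ha]; positivity
      have haT : a (i + 1) ≤ T := by
        rw [← hNτ]
        simp only [ha]
        push_cast
        exact mul_le_mul_of_nonneg_right hi' hτ.le
      have e2 := x3b_step hG hV (h.sub hai (by linarith) haT) (by linarith) hR
      rw [e1] at e2
      have e3 : y i = x (a i) := hyi i hi.le
      have e4 : y ((i : ℤ) + 1) = x (a (i + 1)) := by
        have := hyi (i + 1) hi
        push_cast at this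
        rw [this]
        simp only [ha]
        push_cast
        rfl
      rw [e3, e4]
      exact e2
    have hint : ∀ i < N, IntervalIntegrable (fun t => lag2 G V (x t) (u t) t) volume (a i)
        (a (i + 1)) := by
      intro i hi
      have hi' : (i : ℝ) + 1 ≤ N := by exact_mod_cast hi
      have hai : 0 ≤ a i := by simp only [ha]; positivity
      have haT : a (i + 1) ≤ T := by
        rw [← hNτ]
        simp only [ha]
        push_cast
        exact mul_le_mul_of_nonneg_right hi' hτ.le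
      have e0 : a i ≤ a (i + 1) := by
        simp only [ha]
        push_cast
        nlinarith
      exact x3b_integrable (h.sub hai e0 haT) (g := fun p => lag2 G V p.1 p.2.1 p.2.2)
        (x3b_lagcont hV)
    have hsum : ∑ i ∈ Finset.range N, ∫ t in a i..a (i + 1), lag2 G V (x t) (u t) t =
        ∫ t in (0 : ℝ)..T, lag2 G V (x t) (u t) t := by
      rw [intervalIntegral.sum_integral_adjacent_intervals (fun i hi => hint i hi)]
      simp only [ha, Nat.cast_zero, zero_mul]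
      rw [hNτ]
    unfold Sd2
    refine (Finset.sum_le_sum hstep).trans ?_
    rw [Finset.sum_add_distrib, hsum, Finset.sum_const, Finset.card_range, nsmul_eq_mul]
    have h5 : (N : ℝ) * (B * (R + 1) * τ ^ 2) = B * (R + 1) * (T : ℝ) ^ 2 / N := by
      rw [hτd]
      field_simp
    have h6 : B * (R + 1) * (T : ℝ) ^ 2 / N ≤ ε := by
      rw [div_le_iff₀ hN']
      rw [div_le_iff₀ hε] at hM
      nlinarith
    rw [h5]
    linarith

end Pool.Agent.H33.AN

end

section

/-!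
# Module G6: minimum and maximum of two curves; the Monge property

* `minmax`: `u₁ t = if x t ≤ y t then u t else w t` and `u₂` the other one, except that the exceptional
  set contains the times `t` with `x t = y t`, `u t ≠ w t` (both curves differentiable at `t`): such
  times are isolated in `{x = y}`, hence countable. At `t` with `x t = y t` and `u t = w t` the minimum and
  the maximum have the derivative `u t`.
* `monge`: let `ξ` go from `x` to `y'` and `ξ'` from `x'` to `y` (almost minimising): `min ξ ξ'` goes from `x`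
  to `y`, `max ξ ξ'` goes from `x'` to `y'`.
-/

set_option autoImplicit false

open MeasureTheory
open scoped RealInnerProductSpace

namespace Pool.Agent.H33.AN

variable {Tp B : ℝ} {W W₁ W₂ : ℝ → ℝ → ℝ}

theorem monge (hW : HW Tp W W₁ W₂ B) {s t : ℝ} (hst : s < t) {x x' y y' : ℝ} (hx : x ≤ x')
    (hy : y ≤ y') :
    Dm W s t x y + Dm W s t x' y' ≤ Dm W s t x y' + Dm W s t x' y := by
  refine le_of_forall_pos_le_add fun ε hε => ?_
  obtain ⟨ξ, u, hξ, hξs, hξt, hξA⟩ := exists_near hW hst x y' (half_pos hε)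
  obtain ⟨ξ', u', hξ', hξs', hξt', hξA'⟩ := exists_near hW hst x' y (half_pos hε)
  obtain ⟨u₁, u₂, h₁, h₂, hA⟩ := Cur.minmax hW hξ hξ'
  have e₁ := Dm_le hW h₁
  have e₂ := Dm_le hW h₂
  simp only [hξs, hξt, hξs', hξt', min_eq_left hx, min_eq_right hy, max_eq_right hx,
    max_eq_left hy] at e₁ e₂
  linarith

end Pool.Agent.H33.AN

end

section

/-!
# Module M1: time-dependent potentials: averages

(Compare `Pool/Agent/H33/AM/P/V1.lean`, `V2*.lean`, `V3*.lean`.)
* `HV2.moving`: chain rule; the period: `V (x + (p/Q) (t + Q) m) (t + Q) = V (x + (p/Q) t m + p m) t`.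
* `avP_trap2`: `h(x, t) = ∫₀¹ (τ - 1/2) V(x + τ P, t) dτ` is `C¹` with the partial derivatives
  `H = ∫₀¹ (τ - 1/2) F(x + τ P, t) dτ`, `∫₀¹ (τ - 1/2) Vt(x + τ P, t) dτ`, `|h|, ‖H‖, |h_t| ≤ B`,
  `⟪H x t, zv P⟫ = V x t - avP (V · t) P x`. With `ũ = u - s P`:
  `(d/dt) h(x(t), t) = s (V - avP V) + ⟪H, ũ⟫ + h_t` off a countable set; integrate.
* `avP_tendsto2`: `|V x t - V x t'| ≤ B |t - t'|`, so it is enough to use `avP_tendsto` (with `P₀ = 0`) at the
  finitely many times of a fine net of `[0, T]`, `|avP g|, |avK g| ≤ sup |g|`, and the period in `t`.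
* `HW_avK`: differentiate under the integral over the cube; `d/dθ g(θ m + y - …) = ⟪F, zv m⟫`.
* `avK_moving`: by definition.
-/

set_option autoImplicit false

open MeasureTheory
open scoped RealInnerProductSpace

namespace Pool.Agent.H33.AN

open Pool.Agent.H33.AM

variable {n : ℕ}

private lemma M1a_zv (m : Fin n → ℤ) (p : ℤ) : (p : ℝ) • zv m = zv (fun i => p * m i) := by
  ext i
  simp [zv]

private lemma M1a_pert {V : EuclideanSpace ℝ (Fin n) → ℝ → ℝ}
    {F : EuclideanSpace ℝ (Fin n) → ℝ → EuclideanSpace ℝ (Fin n)}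
    {Vt : EuclideanSpace ℝ (Fin n) → ℝ → ℝ} {B : ℝ} (hV : HV2 1 V F Vt B)
    (x : EuclideanSpace ℝ (Fin n)) (t : ℝ) (k : ℕ) : V x (t + k) = V x t := by
  induction k with
  | zero => simp
  | succ k ih =>
    rw [Nat.cast_add, Nat.cast_one, ← add_assoc, hV.pert, ih]

private lemma M1a_contF {V : EuclideanSpace ℝ (Fin n) → ℝ → ℝ}
    {F : EuclideanSpace ℝ (Fin n) → ℝ → EuclideanSpace ℝ (Fin n)}
    {Vt : EuclideanSpace ℝ (Fin n) → ℝ → ℝ} {B : ℝ} (hV : HV2 1 V F Vt B) :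
    Continuous fun z : EuclideanSpace ℝ (Fin n) × ℝ => F z.1 z.2 := by
  rw [continuous_iff_continuousAt]
  intro z
  rw [ContinuousAt, tendsto_iff_norm_sub_tendsto_zero]
  have h1 : Filter.Tendsto (fun w : EuclideanSpace ℝ (Fin n) × ℝ =>
      B * (‖w.1 - z.1‖ + |w.2 - z.2|)) (nhds z) (nhds 0) := by
    have h2 : Continuous (fun w : EuclideanSpace ℝ (Fin n) × ℝ =>
      B * (‖w.1 - z.1‖ + |w.2 - z.2|)) := by fun_prop
    have h3 := h2.tendsto z
    simpa using h3
  exact squeeze_zero (fun w => norm_nonneg _) (fun w => hV.lip _ _ _ _) h1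

theorem HV2.moving {V : EuclideanSpace ℝ (Fin n) → ℝ → ℝ}
    {F : EuclideanSpace ℝ (Fin n) → ℝ → EuclideanSpace ℝ (Fin n)}
    {Vt : EuclideanSpace ℝ (Fin n) → ℝ → ℝ} {B : ℝ} (hV : HV2 1 V F Vt B) (m : Fin n → ℤ) (p : ℤ)
    {Q : ℕ} (hQ : 0 < Q) :
    ∃ B' : ℝ, HV2 Q (fun x t => V (x + ((p : ℝ) / Q * t) • zv m) t)
      (fun x t => F (x + ((p : ℝ) / Q * t) • zv m) t)
      (fun x t => Vt (x + ((p : ℝ) / Q * t) • zv m) t +
        (p : ℝ) / Q * ⟪F (x + ((p : ℝ) / Q * t) • zv m) t, zv m⟫) B' := by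
  have hB := hV.nonneg
  have hQ0 : (Q : ℝ) ≠ 0 := by exact_mod_cast hQ.ne'
  obtain ⟨c, hc⟩ : ∃ c : ℝ, c = (p : ℝ) / Q := ⟨_, rfl⟩
  have hcQ : c * Q = p := by rw [hc]; field_simp
  rw [← hc]
  have hN : 0 ≤ |c| * ‖zv m‖ := by positivity
  have hB1 : B ≤ B * (1 + |c| * ‖zv m‖) := by nlinarith [mul_nonneg hB hN]
  have hΦc : Continuous fun z : EuclideanSpace ℝ (Fin n) × ℝ => (z.1 + (c * z.2) • zv m, z.2) := by
    fun_prop
  have hFc : Continuous fun z : EuclideanSpace ℝ (Fin n) × ℝ => F z.1 z.2 := M1a_contF hV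
  refine ⟨B * (1 + |c| * ‖zv m‖), ⟨by positivity, ?_, ?_, ?_, ?_, ?_, ?_, ?_, ?_⟩⟩
  · intro x t
    have h1 := hV.der (x + (c * t) • zv m) t
    have h2 : HasFDerivAt (fun z : EuclideanSpace ℝ (Fin n) × ℝ => (z.1 + (c * z.2) • zv m, z.2))
        (((ContinuousLinearMap.fst ℝ (EuclideanSpace ℝ (Fin n)) ℝ) +
          (c • ContinuousLinearMap.snd ℝ (EuclideanSpace ℝ (Fin n)) ℝ).smulRight (zv m)).prod
          (ContinuousLinearMap.snd ℝ (EuclideanSpace ℝ (Fin n)) ℝ)) (x, t) := by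
      refine HasFDerivAt.prodMk ?_ hasFDerivAt_snd
      refine hasFDerivAt_fst.add ?_
      have h3 : HasFDerivAt (fun z : EuclideanSpace ℝ (Fin n) × ℝ => c * z.2)
          (c • ContinuousLinearMap.snd ℝ (EuclideanSpace ℝ (Fin n)) ℝ) (x, t) :=
        hasFDerivAt_snd.const_mul c
      exact h3.smul_const (zv m)
    have h4 := HasFDerivAt.comp (x, t) (g := fun z : EuclideanSpace ℝ (Fin n) × ℝ => V z.1 z.2)
      (f := fun z : EuclideanSpace ℝ (Fin n) × ℝ => (z.1 + (c * z.2) • zv m, z.2)) h1 h2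
    refine h4.congr_fderiv ?_
    ext v
    · simp
    · simp [inner_smul_right]
      ring
  · have h1 : Continuous fun z : EuclideanSpace ℝ (Fin n) × ℝ => Vt (z.1 + (c * z.2) • zv m) z.2 :=
      hV.contt.comp hΦc
    have h2 : Continuous fun z : EuclideanSpace ℝ (Fin n) × ℝ => F (z.1 + (c * z.2) • zv m) z.2 :=
      hFc.comp hΦc
    exact h1.add (continuous_const.mul (h2.inner continuous_const))
  · intro x t k
    change V (x + zv k + (c * t) • zv m) t = V (x + (c * t) • zv m) t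
    rw [add_right_comm, hV.per]
  · intro x t
    change V (x + (c * (t + Q)) • zv m) (t + Q) = V (x + (c * t) • zv m) t
    rw [M1a_pert hV, mul_add, add_smul, hcQ, ← add_assoc, M1a_zv, hV.per]
  · intro x t
    exact (hV.bd _ _).trans hB1
  · intro x t
    exact (hV.bdF _ _).trans hB1
  · intro x t
    change |Vt (x + (c * t) • zv m) t + c * ⟪F (x + (c * t) • zv m) t, zv m⟫| ≤ _
    refine (abs_add_le _ _).trans ?_
    rw [abs_mul]
    have h1 := hV.bdt (x + (c * t) • zv m) t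
    have h2 : |⟪F (x + (c * t) • zv m) t, zv m⟫| ≤ B * ‖zv m‖ :=
      (abs_real_inner_le_norm _ _).trans (mul_le_mul_of_nonneg_right (hV.bdF _ _) (norm_nonneg _))
    have h3 := mul_le_mul_of_nonneg_left h2 (abs_nonneg c)
    calc _ ≤ B + |c| * (B * ‖zv m‖) := add_le_add h1 h3
      _ = _ := by ring
  · intro x t x' t'
    refine (hV.lip _ _ _ _).trans ?_
    have h1 : ‖x + (c * t) • zv m - (x' + (c * t') • zv m)‖ ≤
        ‖x - x'‖ + |c| * ‖zv m‖ * |t - t'| := by
      have h2 : x + (c * t) • zv m - (x' + (c * t') • zv m) = (x - x') + (c * (t - t')) • zv m := by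
        rw [mul_sub, sub_smul]; abel
      rw [h2]
      refine (norm_add_le _ _).trans ?_
      rw [norm_smul, Real.norm_eq_abs, abs_mul]
      apply le_of_eq
      ring
    have h3 : 0 ≤ |c| * ‖zv m‖ * ‖x - x'‖ := by positivity
    calc B * (‖x + (c * t) • zv m - (x' + (c * t') • zv m)‖ + |t - t'|)
        ≤ B * ((‖x - x'‖ + |c| * ‖zv m‖ * |t - t'|) + |t - t'|) := by gcongr
      _ ≤ B * ((1 + |c| * ‖zv m‖) * (‖x - x'‖ + |t - t'|)) := by
          apply mul_le_mul_of_nonneg_left _ hB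
          nlinarith
      _ = _ := by ring

end Pool.Agent.H33.AN

end

section

/-!
# Module M1: time-dependent potentials: averages

(Compare `Pool/Agent/H33/AM/P/V1.lean`, `V2*.lean`, `V3*.lean`.)
* `HV2.moving`: chain rule; the period: `V (x + (p/Q) (t + Q) m) (t + Q) = V (x + (p/Q) t m + p m) t`.
* `avP_trap2`: `h(x, t) = ∫₀¹ (τ - 1/2) V(x + τ P, t) dτ` is `C¹` with the partial derivatives
  `H = ∫₀¹ (τ - 1/2) F(x + τ P, t) dτ`, `∫₀¹ (τ - 1/2) Vt(x + τ P, t) dτ`, `|h|, ‖H‖, |h_t| ≤ B`,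
  `⟪H x t, zv P⟫ = V x t - avP (V · t) P x`. With `ũ = u - s P`:
  `(d/dt) h(x(t), t) = s (V - avP V) + ⟪H, ũ⟫ + h_t` off a countable set; integrate.
* `avP_tendsto2`: `|V x t - V x t'| ≤ B |t - t'|`, so it is enough to use `avP_tendsto` (with `P₀ = 0`) at the
  finitely many times of a fine net of `[0, T]`, `|avP g|, |avK g| ≤ sup |g|`, and the period in `t`.
* `HW_avK`: differentiate under the integral over the cube; `d/dθ g(θ m + y - …) = ⟪F, zv m⟫`.
* `avK_moving`: by definition.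
-/

set_option autoImplicit false

open MeasureTheory
open scoped RealInnerProductSpace

namespace Pool.Agent.H33.AN

open Pool.Agent.H33.AM

variable {n : ℕ}

private theorem m1b_contF {V : EuclideanSpace ℝ (Fin n) → ℝ → ℝ}
    {F : EuclideanSpace ℝ (Fin n) → ℝ → EuclideanSpace ℝ (Fin n)}
    {Vt : EuclideanSpace ℝ (Fin n) → ℝ → ℝ} {Tp B : ℝ} (hV : HV2 Tp V F Vt B) :
    Continuous fun z : EuclideanSpace ℝ (Fin n) × ℝ => F z.1 z.2 := by
  have hB := hV.nonneg
  refine (LipschitzWith.of_dist_le_mul (K := ⟨2 * B, by positivity⟩) (fun z w => ?_)).continuous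
  rw [dist_eq_norm]
  refine (hV.lip z.1 z.2 w.1 w.2).trans ?_
  have h1 : ‖z.1 - w.1‖ ≤ dist z w := by
    rw [← dist_eq_norm]
    exact le_max_left _ _
  have h2 : |z.2 - w.2| ≤ dist z w := by
    rw [← Real.dist_eq]
    exact le_max_right _ _
  have h3 : B * (‖z.1 - w.1‖ + |z.2 - w.2|) ≤ B * (dist z w + dist z w) :=
    mul_le_mul_of_nonneg_left (add_le_add h1 h2) hB
  refine h3.trans (le_of_eq ?_)
  show B * (dist z w + dist z w) = 2 * B * dist z w
  ring

theorem avP_trap2 {V : EuclideanSpace ℝ (Fin n) → ℝ → ℝ}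
    {F : EuclideanSpace ℝ (Fin n) → ℝ → EuclideanSpace ℝ (Fin n)}
    {Vt : EuclideanSpace ℝ (Fin n) → ℝ → ℝ} {Tp B : ℝ} (hV : HV2 Tp V F Vt B)
    (P : Fin n → ℤ) {s : ℝ} (hs : 0 < s) {a b : ℝ} {x u : ℝ → EuclideanSpace ℝ (Fin n)}
    (h : Adm a b x u) :
    |(∫ t in a..b, V (x t) t) - ∫ t in a..b, avP (fun y => V y t) P (x t)| ≤
      (2 * B + B * (b - a) + B * ∫ t in a..b, ‖u t - s • zv P‖) / s := by
  have hB : 0 ≤ B := hV.nonneg
  have hFc := m1b_contF hV
  have hVc : Continuous fun z : EuclideanSpace ℝ (Fin n) × ℝ => V z.1 z.2 :=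
    continuous_iff_continuousAt.mpr fun z => (hV.der z.1 z.2).continuousAt
  have hTc := hV.contt
  obtain ⟨Q, hQ⟩ : ∃ Q, Q = zv P := ⟨_, rfl⟩
  have hlc : Continuous fun p : (EuclideanSpace ℝ (Fin n) × ℝ) × ℝ =>
      ((p.1.1 + p.2 • Q, p.1.2) : EuclideanSpace ℝ (Fin n) × ℝ) :=
    ((continuous_fst.comp continuous_fst).add (continuous_snd.smul continuous_const)).prodMk
      (continuous_snd.comp continuous_fst)
  have hline : ∀ z : EuclideanSpace ℝ (Fin n) × ℝ, Continuous fun t : ℝ =>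
      ((z.1 + t • Q, z.2) : EuclideanSpace ℝ (Fin n) × ℝ) := fun z =>
    (continuous_const.add (continuous_id.smul continuous_const)).prodMk continuous_const
  obtain ⟨h', hh'⟩ : ∃ h' : EuclideanSpace ℝ (Fin n) × ℝ → ℝ,
      h' = fun z => ∫ t in (0 : ℝ)..1, (t - 1 / 2) * V (z.1 + t • Q) z.2 := ⟨_, rfl⟩
  obtain ⟨H', hH'⟩ : ∃ H' : EuclideanSpace ℝ (Fin n) × ℝ → EuclideanSpace ℝ (Fin n),
      H' = fun z => ∫ t in (0 : ℝ)..1, (t - 1 / 2) • F (z.1 + t • Q) z.2 := ⟨_, rfl⟩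
  obtain ⟨K', hK'⟩ : ∃ K' : EuclideanSpace ℝ (Fin n) × ℝ → ℝ,
      K' = fun z => ∫ t in (0 : ℝ)..1, (t - 1 / 2) * Vt (z.1 + t • Q) z.2 := ⟨_, rfl⟩
  obtain ⟨D, hD⟩ : ∃ D : EuclideanSpace ℝ (Fin n) × ℝ →
      (EuclideanSpace ℝ (Fin n) × ℝ →L[ℝ] ℝ), D = fun w =>
        (innerSL ℝ (F w.1 w.2)).comp (ContinuousLinearMap.fst ℝ (EuclideanSpace ℝ (Fin n)) ℝ) +
          Vt w.1 w.2 • ContinuousLinearMap.snd ℝ (EuclideanSpace ℝ (Fin n)) ℝ := ⟨_, rfl⟩
  have hDa : ∀ w v, D w v = ⟪F w.1 w.2, v.1⟫ + Vt w.1 w.2 * v.2 := by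
    intro w v
    rw [hD]
    rfl
  have hDc : Continuous D := by
    rw [hD]
    refine Continuous.add ?_ ?_
    · exact (ContinuousLinearMap.precomp ℝ (ContinuousLinearMap.fst ℝ
        (EuclideanSpace ℝ (Fin n)) ℝ)).continuous.comp ((innerSL ℝ).continuous.comp hFc)
    · exact hTc.smul continuous_const
  have hhalf : ∀ t ∈ Set.uIoc (0 : ℝ) 1, |t - 1 / 2| ≤ 1 := by
    intro t ht
    rw [Set.uIoc_of_le zero_le_one] at ht
    rw [abs_le]
    constructor <;> linarith [ht.1, ht.2]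
  have hDn : ∀ w, ‖D w‖ ≤ 2 * B := by
    intro w
    refine ContinuousLinearMap.opNorm_le_bound _ (by positivity) fun v => ?_
    rw [hDa]
    have h1 : ‖v.1‖ ≤ ‖v‖ := norm_fst_le v
    have h2 : ‖v.2‖ ≤ ‖v‖ := norm_snd_le v
    have h3 : ‖⟪F w.1 w.2, v.1⟫‖ ≤ B * ‖v‖ :=
      (norm_inner_le_norm _ _).trans (mul_le_mul (hV.bdF _ _) h1 (norm_nonneg _) hB)
    have h4 : ‖Vt w.1 w.2 * v.2‖ ≤ B * ‖v‖ := by
      rw [norm_mul]
      exact mul_le_mul (hV.bdt _ _) h2 (norm_nonneg _) hB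
    calc ‖⟪F w.1 w.2, v.1⟫ + Vt w.1 w.2 * v.2‖ ≤ B * ‖v‖ + B * ‖v‖ :=
          (norm_add_le _ _).trans (add_le_add h3 h4)
      _ = 2 * B * ‖v‖ := by ring
  have hH'c : Continuous H' := by
    rw [hH']
    exact intervalIntegral.continuous_parametric_intervalIntegral_of_continuous'
      (f := fun (z : EuclideanSpace ℝ (Fin n) × ℝ) (t : ℝ) =>
        (t - 1 / 2) • F (z.1 + t • Q) z.2)
      ((continuous_snd.sub continuous_const).smul (hFc.comp hlc)) 0 1
  have hK'c : Continuous K' := by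
    have h1 : Continuous fun p : (EuclideanSpace ℝ (Fin n) × ℝ) × ℝ =>
        (p.2 - 1 / 2) * Vt (p.1.1 + p.2 • Q) p.1.2 :=
      (continuous_snd.sub continuous_const).mul (hTc.comp hlc)
    rw [hK']
    exact intervalIntegral.continuous_parametric_intervalIntegral_of_continuous'
      (f := fun (z : EuclideanSpace ℝ (Fin n) × ℝ) (t : ℝ) =>
        (t - 1 / 2) * Vt (z.1 + t • Q) z.2) h1 0 1
  have hφc : ∀ z : EuclideanSpace ℝ (Fin n) × ℝ,
      Continuous fun t : ℝ => (t - 1 / 2) • F (z.1 + t • Q) z.2 := fun z =>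
    (continuous_id.sub continuous_const).smul (hFc.comp (hline z))
  have hψc : ∀ z : EuclideanSpace ℝ (Fin n) × ℝ,
      Continuous fun t : ℝ => (t - 1 / 2) * Vt (z.1 + t • Q) z.2 := fun z =>
    (continuous_id.sub continuous_const).mul (hTc.comp (hline z))
  have hinner : ∀ z v, ⟪H' z, v⟫ =
      ∫ t in (0 : ℝ)..1, (t - 1 / 2) * ⟪F (z.1 + t • Q) z.2, v⟫ := by
    intro z v
    have h1 := (innerSL ℝ v).intervalIntegral_comp_comm
      ((hφc z).intervalIntegrable (μ := volume) 0 1)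
    rw [hH', real_inner_comm]
    rw [innerSL_apply_apply] at h1
    rw [← h1]
    refine intervalIntegral.integral_congr (fun t _ => ?_)
    simp only [innerSL_apply_apply]
    rw [real_inner_smul_right, real_inner_comm]
  have hfd : ∀ z, ∃ L : EuclideanSpace ℝ (Fin n) × ℝ →L[ℝ] ℝ, HasFDerivAt h' L z ∧
      ∀ v, L v = ⟪H' z, v.1⟫ + K' z * v.2 := by
    intro z
    have h1 := intervalIntegral.hasFDerivAt_integral_of_dominated_of_fderiv_le
      (μ := volume) (a := 0) (b := 1) (s := Set.univ) (x₀ := z) (bound := fun _ => 2 * B)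
      (F := fun (w : EuclideanSpace ℝ (Fin n) × ℝ) (t : ℝ) => (t - 1 / 2) * V (w.1 + t • Q) w.2)
      (F' := fun (w : EuclideanSpace ℝ (Fin n) × ℝ) (t : ℝ) =>
        (t - 1 / 2) • D (w.1 + t • Q, w.2))
      Filter.univ_mem
      (Filter.Eventually.of_forall fun w => ((continuous_id.sub continuous_const).mul
        (hVc.comp (hline w))).aestronglyMeasurable)
      (((continuous_id.sub continuous_const).mul (hVc.comp (hline z))).intervalIntegrable 0 1)
      (((continuous_id.sub continuous_const).smul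
        (hDc.comp (hline z))).aestronglyMeasurable)
      (Filter.Eventually.of_forall fun t ht w _ => by
        rw [norm_smul, Real.norm_eq_abs]
        calc |t - 1 / 2| * ‖D (w.1 + t • Q, w.2)‖ ≤ 1 * (2 * B) :=
              mul_le_mul (hhalf t ht) (hDn _) (norm_nonneg _) zero_le_one
          _ = 2 * B := one_mul _)
      (continuous_const.intervalIntegrable 0 1)
      (Filter.Eventually.of_forall fun t _ w _ => by
        have h2 : HasFDerivAt (fun y : EuclideanSpace ℝ (Fin n) × ℝ =>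
            ((y.1 + t • Q, y.2) : EuclideanSpace ℝ (Fin n) × ℝ))
            (ContinuousLinearMap.id ℝ (EuclideanSpace ℝ (Fin n) × ℝ)) w := by
          have e1 : HasFDerivAt (fun y : EuclideanSpace ℝ (Fin n) × ℝ => y.1 + t • Q)
              (ContinuousLinearMap.fst ℝ (EuclideanSpace ℝ (Fin n)) ℝ) w :=
            (hasFDerivAt_fst (p := w)).add_const (t • Q)
          have e2 : HasFDerivAt (fun y : EuclideanSpace ℝ (Fin n) × ℝ => y.2)
              (ContinuousLinearMap.snd ℝ (EuclideanSpace ℝ (Fin n)) ℝ) w :=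
            hasFDerivAt_snd (p := w)
          exact (e1.prodMk e2).congr_fderiv (ContinuousLinearMap.ext fun v => rfl)
        have h3 := HasFDerivAt.comp w (hV.der (w.1 + t • Q) w.2) h2
        rw [ContinuousLinearMap.comp_id] at h3
        have h4 := h3.const_mul (t - 1 / 2)
        rw [hD]
        exact h4)
    rw [hh']
    refine ⟨_, h1, fun v => ?_⟩
    rw [ContinuousLinearMap.intervalIntegral_apply, hinner, hK']
    · have e2 : (∫ t in (0 : ℝ)..1, (t - 1 / 2) * Vt (z.1 + t • Q) z.2) * v.2 =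
          ∫ t in (0 : ℝ)..1, (t - 1 / 2) * Vt (z.1 + t • Q) z.2 * v.2 :=
        (intervalIntegral.integral_mul_const _ _).symm
      simp only
      rw [e2, ← intervalIntegral.integral_add]
      · refine intervalIntegral.integral_congr (fun t _ => ?_)
        simp only [smul_apply, smul_eq_mul, hDa]
        ring
      · exact ((continuous_id.sub continuous_const).mul
          ((hFc.comp (hline z)).inner continuous_const)).intervalIntegrable 0 1
      · exact ((hψc z).mul continuous_const).intervalIntegrable 0 1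
    · exact (((continuous_id.sub continuous_const).smul
        (hDc.comp (hline z))).intervalIntegrable 0 1)
  have hpar : ∀ z : EuclideanSpace ℝ (Fin n) × ℝ,
      ⟪H' z, Q⟫ = V z.1 z.2 - avP (fun y => V y z.2) P z.1 := by
    intro z
    rw [hinner]
    have hv : ∀ t : ℝ, HasDerivAt (fun t : ℝ => V (z.1 + t • Q) z.2)
        ⟪F (z.1 + t • Q) z.2, Q⟫ t := by
      intro t
      have h2 : HasDerivAt (fun t : ℝ => ((z.1 + t • Q, z.2) : EuclideanSpace ℝ (Fin n) × ℝ))
          (Q, 0) t := by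
        have h3 := ((hasDerivAt_id t).smul_const Q).const_add z.1
        rw [one_smul] at h3
        exact h3.prodMk (hasDerivAt_const t z.2)
      have h4 := HasFDerivAt.comp_hasDerivAt t (hV.der (z.1 + t • Q) z.2) h2
      refine h4.congr_deriv ?_
      show ⟪F (z.1 + t • Q) z.2, Q⟫ + Vt (z.1 + t • Q) z.2 * 0 = _
      ring
    have hu : ∀ t : ℝ, HasDerivAt (fun t : ℝ => t - 1 / 2) 1 t := fun t =>
      (hasDerivAt_id t).sub_const (1 / 2)
    have h5 := intervalIntegral.integral_mul_deriv_eq_deriv_mul (a := 0) (b := 1)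
      (u := fun t : ℝ => t - 1 / 2) (u' := fun _ => 1) (v := fun t : ℝ => V (z.1 + t • Q) z.2)
      (v' := fun t => ⟪F (z.1 + t • Q) z.2, Q⟫)
      (fun t _ => hu t) (fun t _ => hv t) (continuous_const.intervalIntegrable 0 1)
      (((hFc.comp (hline z)).inner continuous_const).intervalIntegrable 0 1)
    rw [h5]
    have h6 : V (z.1 + (1 : ℝ) • Q) z.2 = V z.1 z.2 := by
      rw [one_smul, hQ]
      exact hV.per z.1 z.2 P
    simp only [h6, zero_smul, add_zero, one_mul]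
    unfold avP
    rw [← hQ]
    ring
  have hb' : ∀ z, |h' z| ≤ B := by
    intro z
    rw [hh']
    have h1 := intervalIntegral.norm_integral_le_of_norm_le_const (a := 0) (b := 1) (C := B)
      (f := fun t : ℝ => (t - 1 / 2) * V (z.1 + t • Q) z.2) (fun t ht => by
        rw [norm_mul, Real.norm_eq_abs, Real.norm_eq_abs]
        calc |t - 1 / 2| * |V (z.1 + t • Q) z.2| ≤ 1 * B :=
              mul_le_mul (hhalf t ht) (hV.bd _ _) (abs_nonneg _) zero_le_one
          _ = B := one_mul B)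
    rw [sub_zero, abs_one, mul_one, Real.norm_eq_abs] at h1
    exact h1
  have hbH : ∀ z, ‖H' z‖ ≤ B := by
    intro z
    rw [hH']
    have h1 := intervalIntegral.norm_integral_le_of_norm_le_const (a := 0) (b := 1) (C := B)
      (f := fun t : ℝ => (t - 1 / 2) • F (z.1 + t • Q) z.2) (fun t ht => by
        rw [norm_smul, Real.norm_eq_abs]
        calc |t - 1 / 2| * ‖F (z.1 + t • Q) z.2‖ ≤ 1 * B :=
              mul_le_mul (hhalf t ht) (hV.bdF _ _) (norm_nonneg _) zero_le_one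
          _ = B := one_mul B)
    rw [sub_zero, abs_one, mul_one] at h1
    exact h1
  have hbK : ∀ z, |K' z| ≤ B := by
    intro z
    rw [hK']
    have h1 := intervalIntegral.norm_integral_le_of_norm_le_const (a := 0) (b := 1) (C := B)
      (f := fun t : ℝ => (t - 1 / 2) * Vt (z.1 + t • Q) z.2) (fun t ht => by
        rw [norm_mul, Real.norm_eq_abs, Real.norm_eq_abs]
        calc |t - 1 / 2| * |Vt (z.1 + t • Q) z.2| ≤ 1 * B :=
              mul_le_mul (hhalf t ht) (hV.bdt _ _) (abs_nonneg _) zero_le_one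
          _ = B := one_mul B)
    rw [sub_zero, abs_one, mul_one, Real.norm_eq_abs] at h1
    exact h1
  -- along the curve
  have hpt : Continuous fun p : EuclideanSpace ℝ (Fin n) × EuclideanSpace ℝ (Fin n) × ℝ =>
      ((p.1, p.2.2) : EuclideanSpace ℝ (Fin n) × ℝ) :=
    continuous_fst.prodMk (continuous_snd.comp continuous_snd)
  have hpu : Continuous fun p : EuclideanSpace ℝ (Fin n) × EuclideanSpace ℝ (Fin n) × ℝ =>
      p.2.1 := continuous_fst.comp continuous_snd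
  have hxt : ContinuousOn (fun t => ((x t, t) : EuclideanSpace ℝ (Fin n) × ℝ)) (Set.Icc a b) :=
    h.cont.prodMk continuousOn_id
  have hh'c : Continuous h' := continuous_iff_continuousAt.mpr fun z => by
    obtain ⟨L, hL, -⟩ := hfd z
    exact hL.continuousAt
  have i5 : IntervalIntegrable (fun t => ⟪H' (x t, t), u t⟫) volume a b :=
    Adm.integrable2 h (g := fun p => ⟪H' (p.1, p.2.2), p.2.1⟫) ((hH'c.comp hpt).inner hpu)
  have i6 : IntervalIntegrable (fun t => K' (x t, t)) volume a b :=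
    Adm.integrable2 h (g := fun p => K' (p.1, p.2.2)) (hK'c.comp hpt)
  have key : (∫ t in a..b, (⟪H' (x t, t), u t⟫ + K' (x t, t))) = h' (x b, b) - h' (x a, a) := by
    obtain ⟨S, hS, hd⟩ := h.der
    refine MeasureTheory.integral_eq_of_hasDerivAt_off_countable_of_le (fun t => h' (x t, t))
      (fun t => ⟪H' (x t, t), u t⟫ + K' (x t, t)) h.le hS (hh'c.comp_continuousOn hxt) ?_
      (i5.add i6)
    intro t ht
    obtain ⟨L, hL, hLv⟩ := hfd (x t, t)
    have h1 : HasDerivAt (fun t => ((x t, t) : EuclideanSpace ℝ (Fin n) × ℝ)) (u t, 1) t :=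
      (hd t ht).prodMk (hasDerivAt_id t)
    have h2 := HasFDerivAt.comp_hasDerivAt
      (f := fun t => ((x t, t) : EuclideanSpace ℝ (Fin n) × ℝ)) t hL h1
    refine h2.congr_deriv ?_
    rw [hLv]
    simp only [mul_one]
  have i1 : IntervalIntegrable (fun t => V (x t) t) volume a b :=
    Adm.integrable2 h (g := fun p => V p.1 p.2.2) (hVc.comp hpt)
  have hav : Continuous fun z : EuclideanSpace ℝ (Fin n) × ℝ =>
      avP (fun y => V y z.2) P z.1 := by
    have h1 : Continuous fun z : EuclideanSpace ℝ (Fin n) × ℝ =>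
        ∫ t in (0 : ℝ)..1, V (z.1 + t • Q) z.2 :=
      intervalIntegral.continuous_parametric_intervalIntegral_of_continuous'
        (f := fun (z : EuclideanSpace ℝ (Fin n) × ℝ) (t : ℝ) => V (z.1 + t • Q) z.2)
        (hVc.comp hlc) 0 1
    rw [hQ] at h1
    exact h1
  have i2 : IntervalIntegrable (fun t => avP (fun y => V y t) P (x t)) volume a b :=
    Adm.integrable2 h (g := fun p => avP (fun y => V y p.2.2) P p.1) (hav.comp hpt)
  have i3 : IntervalIntegrable (fun t => ⟪H' (x t, t), u t - s • Q⟫) volume a b :=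
    Adm.integrable2 h (g := fun p => ⟪H' (p.1, p.2.2), p.2.1 - s • Q⟫)
      ((hH'c.comp hpt).inner (hpu.sub continuous_const))
  have i4 : IntervalIntegrable (fun t => ‖u t - s • Q‖) volume a b :=
    Adm.integrable2 h (g := fun p => ‖p.2.1 - s • Q‖) (hpu.sub continuous_const).norm
  have hdec : (∫ t in a..b, ⟪H' (x t, t), u t⟫) =
      s * ((∫ t in a..b, V (x t) t) - ∫ t in a..b, avP (fun y => V y t) P (x t)) +
        ∫ t in a..b, ⟪H' (x t, t), u t - s • Q⟫ := by
    rw [← intervalIntegral.integral_sub i1 i2, ← intervalIntegral.integral_const_mul,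
      ← intervalIntegral.integral_add ((i1.sub i2).const_mul s) i3]
    refine intervalIntegral.integral_congr (fun t _ => ?_)
    have h1 := hpar (x t, t)
    simp only at h1
    rw [inner_sub_right, real_inner_smul_right, h1]
    ring
  have hrest : |∫ t in a..b, ⟪H' (x t, t), u t - s • Q⟫| ≤ B * ∫ t in a..b, ‖u t - s • Q‖ := by
    rw [← intervalIntegral.integral_const_mul, ← Real.norm_eq_abs]
    refine intervalIntegral.norm_integral_le_of_norm_le h.le
      (Filter.Eventually.of_forall fun t _ => ?_) (i4.const_mul B)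
    calc ‖⟪H' (x t, t), u t - s • Q⟫‖ ≤ ‖H' (x t, t)‖ * ‖u t - s • Q‖ := norm_inner_le_norm _ _
      _ ≤ B * ‖u t - s • Q‖ := mul_le_mul_of_nonneg_right (hbH _) (norm_nonneg _)
  have hrestK : |∫ t in a..b, K' (x t, t)| ≤ B * (b - a) := by
    have h1 := intervalIntegral.norm_integral_le_of_norm_le_const (a := a) (b := b) (C := B)
      (f := fun t : ℝ => K' (x t, t)) (fun t _ => hbK _)
    rw [Real.norm_eq_abs, abs_of_nonneg (sub_nonneg.mpr h.le)] at h1
    exact h1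
  rw [intervalIntegral.integral_add i5 i6] at key
  rw [← hQ, le_div_iff₀ hs]
  have e1 : |(∫ t in a..b, V (x t) t) - ∫ t in a..b, avP (fun y => V y t) P (x t)| * s =
      |s * ((∫ t in a..b, V (x t) t) - ∫ t in a..b, avP (fun y => V y t) P (x t))| := by
    rw [abs_mul, abs_of_pos hs, mul_comm]
  have e2 : s * ((∫ t in a..b, V (x t) t) - ∫ t in a..b, avP (fun y => V y t) P (x t)) =
      h' (x b, b) - h' (x a, a) - ((∫ t in a..b, ⟪H' (x t, t), u t - s • Q⟫) +
        ∫ t in a..b, K' (x t, t)) := by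
    rw [← key, hdec]
    ring
  rw [e1, e2]
  have e3 := abs_sub (h' (x b, b) - h' (x a, a)) ((∫ t in a..b, ⟪H' (x t, t), u t - s • Q⟫) +
        ∫ t in a..b, K' (x t, t))
  have e4 := abs_sub (h' (x b, b)) (h' (x a, a))
  have e5 := abs_add_le (∫ t in a..b, ⟪H' (x t, t), u t - s • Q⟫) (∫ t in a..b, K' (x t, t))
  linarith [hb' (x a, a), hb' (x b, b)]

end Pool.Agent.H33.AN

end

section

/-!
# Module L1: connecting curves, time-dependent

As in `Pool/Agent/H33/AM/P/R2.lean`, `Pool/Agent/H33/AM/P/R3.lean` (copy the proofs).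
* `Adm.glue`: glue at `b`.
* `toCur`: compose with the inner product.
* `lift`: `x(t) = x₀ + (t - t₀) • v₀ + (a t - a t₀) • e₀`.
* `Conn2.cross`: intermediate value theorem for `t ↦ ⟪zv k₀, ξ t⟫ - f t`.
* `moving_cross`: `t₂ = inf {t ∈ [t₀, t₁] | θ t ≥ c t}`, `t₁' = sup {t ∈ [t₀, t₂] | θ t ≤ a t}`.
-/

set_option autoImplicit false

open MeasureTheory
open scoped RealInnerProductSpace

namespace Pool.Agent.H33.AN

open Pool.Agent.H33.AM

variable {n : ℕ} {l : EuclideanSpace ℝ (Fin n) → EuclideanSpace ℝ (Fin n) → ℝ → ℝ} {Q : ℕ}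

private lemma l1b_int (hl : HL2 Q l) {e a b : ℝ} {x u : ℝ → EuclideanSpace ℝ (Fin n)}
    (h : Adm a b x u) : IntervalIntegrable (fun t => l (x t) (u t) t + e) volume a b := by
  refine Adm.integrable2 h (g := fun p => l p.1 p.2.1 p.2.2 + e) ?_
  exact hl.cont.add continuous_const

private lemma l1b_pert (hl : HL2 Q l) (x v : EuclideanSpace ℝ (Fin n)) (t : ℝ) (j : ℤ) :
    l x v (t + j * Q) = l x v t := by
  have h : Function.Periodic (fun s => l x v s) (Q : ℝ) := fun s => hl.pert x v s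
  exact h.int_mul j t

theorem Conn2.le {e a b : ℝ} {x y : EuclideanSpace ℝ (Fin n)} {r : ℝ} (h : Conn2 l e a b x y r) :
    a ≤ b := by
  obtain ⟨ξ, u, h1, -⟩ := h
  exact h1.le

theorem Conn2.refl (l : EuclideanSpace ℝ (Fin n) → EuclideanSpace ℝ (Fin n) → ℝ → ℝ) (e a : ℝ)
    (x : EuclideanSpace ℝ (Fin n)) : Conn2 l e a a x x 0 := by
  refine ⟨fun _ => x, fun _ => 0, ?_, rfl, rfl, ?_⟩
  · refine ⟨le_rfl, continuousOn_const, ⟨∅, Set.countable_empty, fun t _ => ?_⟩,
      measurable_const, ⟨0, fun _ => by simp⟩⟩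
    exact hasDerivAt_const t x
  · simp

theorem Conn2.trans (hl : HL2 Q l) {e a b c : ℝ} {x y z : EuclideanSpace ℝ (Fin n)} {r r' : ℝ}
    (h : Conn2 l e a b x y r) (h' : Conn2 l e b c y z r') : Conn2 l e a c x z (r + r') := by
  obtain ⟨ξ, u, ha, h0, hT, hr⟩ := h
  obtain ⟨ξ', u', ha', h0', hT', hr'⟩ := h'
  obtain ⟨ξ'', u'', ha'', h1, h2⟩ := Adm.glue ha ha' (hT.trans h0'.symm)
  have hab : a ≤ b := ha.le
  have hbc : b ≤ c := ha'.le
  refine ⟨ξ'', u'', ha'', ?_, ?_, ?_⟩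
  · rw [(h1 a hab).1, h0]
  · rcases hbc.eq_or_lt with h3 | h3
    · rw [← h3, (h1 b le_rfl).1, hT, ← hT', ← h3, h0']
    · rw [(h2 c h3).1, hT']
  · rw [← intervalIntegral.integral_add_adjacent_intervals
      (l1b_int hl (ha''.sub le_rfl hab hbc)) (l1b_int hl (ha''.sub hab hbc le_rfl)), ← hr, ← hr']
    congr 1
    · refine intervalIntegral.integral_congr_ae (Filter.Eventually.of_forall fun t ht => ?_)
      rw [Set.uIoc_of_le hab] at ht
      rw [(h1 t ht.2).1, (h1 t ht.2).2]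
    · refine intervalIntegral.integral_congr_ae (Filter.Eventually.of_forall fun t ht => ?_)
      rw [Set.uIoc_of_le hbc] at ht
      rw [(h2 t ht.1).1, (h2 t ht.1).2]

theorem Conn2.add_zv (hl : HL2 Q l) {e a b : ℝ} {x y : EuclideanSpace ℝ (Fin n)} {r : ℝ}
    (h : Conn2 l e a b x y r) (k : Fin n → ℤ) : Conn2 l e a b (x + zv k) (y + zv k) r := by
  obtain ⟨ξ, u, ha, h0, hT, hr⟩ := h
  refine ⟨fun t => ξ t + zv k, u, ha.add_const _, by simp [h0], by simp [hT], ?_⟩
  rw [← hr]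
  simp only [hl.per]

theorem Conn2.shift (hl : HL2 Q l) {e a b : ℝ} {x y : EuclideanSpace ℝ (Fin n)} {r : ℝ}
    (h : Conn2 l e a b x y r) (j : ℤ) : Conn2 l e (a + j * Q) (b + j * Q) x y r := by
  obtain ⟨ξ, u, ha, h0, hT, hr⟩ := h
  refine ⟨fun t => ξ (t - j * Q), fun t => u (t - j * Q), ha.shift _, by simp [h0],
    by simp [hT], ?_⟩
  rw [← hr]
  have h1 : ∀ t : ℝ, l (ξ (t - j * Q)) (u (t - j * Q)) t + e =
      l (ξ (t - j * Q)) (u (t - j * Q)) (t - j * Q) + e := by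
    intro t
    have h2 := l1b_pert hl (ξ (t - j * Q)) (u (t - j * Q)) (t - j * Q) j
    rw [sub_add_cancel] at h2
    rw [h2]
  simp only [h1]
  rw [intervalIntegral.integral_comp_sub_right (fun t => l (ξ t) (u t) t + e)]
  simp

theorem Conn2.level (hl : HL2 Q l) {e a b : ℝ} {x y : EuclideanSpace ℝ (Fin n)} {r : ℝ}
    (h : Conn2 l e a b x y r) (e' : ℝ) : Conn2 l e' a b x y (r + (e' - e) * (b - a)) := by
  obtain ⟨ξ, u, ha, h0, hT, hr⟩ := h
  refine ⟨ξ, u, ha, h0, hT, ?_⟩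
  rw [← hr]
  have h1 : (fun t => l (ξ t) (u t) t + e') = fun t => (l (ξ t) (u t) t + e) + (e' - e) := by
    funext t
    ring
  rw [h1, intervalIntegral.integral_add (l1b_int hl ha) (by simp)]
  simp [mul_comm]
  ring

theorem Conn2.iter (hl : HL2 Q l) {e s : ℝ} {j : ℕ} {x : EuclideanSpace ℝ (Fin n)}
    {k : Fin n → ℤ} {r : ℝ} (h : Conn2 l e s (s + j * Q) x (x + zv k) r) (i : ℕ) :
    Conn2 l e s (s + (i * j : ℕ) * Q) x (x + zv (i • k)) (i * r) := by
  induction i with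
  | zero =>
    have h1 : x + zv (0 • k) = x := by rw [zero_smul, zv_zero, add_zero]
    rw [h1]
    simpa using Conn2.refl l e s x
  | succ i ih =>
    have h0 := Conn2.shift hl (Conn2.add_zv hl h (i • k)) ((i * j : ℕ) : ℤ)
    have h1 : Conn2 l e (s + (i * j : ℕ) * Q) (s + ((i + 1) * j : ℕ) * Q) (x + zv (i • k))
        (x + zv ((i + 1) • k)) r := by
      have h2 : x + zv k + zv (i • k) = x + zv ((i + 1) • k) := by
        rw [add_smul, one_smul, zv_add]
        abel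
      have h3 : s + (j : ℝ) * Q + (((i * j : ℕ) : ℤ) : ℝ) * Q = s + ((i + 1) * j : ℕ) * Q := by
        push_cast
        ring
      have h4 : s + (((i * j : ℕ) : ℤ) : ℝ) * Q = s + ((i * j : ℕ) : ℝ) * Q := by
        push_cast
        ring
      rw [h2, h3, h4] at h0
      exact h0
    have h5 := Conn2.trans hl ih h1
    have h6 : ((i + 1 : ℕ) : ℝ) * r = i * r + r := by push_cast; ring
    rw [h6]
    exact h5

end Pool.Agent.H33.AN

end

section

/-!
# Module L2: the critical value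

Notation: `q = s • zv P`, `θ(x) = ⟪zv k₀, x⟫`. (Compare `Pool/Agent/H33/AM/P/T1.lean`.)
* `crit2_upper`: if `Conn2 l e t (t + j Q) x (x + zv k) r`, `dot k₀ k = 0`, `j > 0`: by `Conn2.iter` there is a
  curve over `i j` periods with the action `i r`; `θ` is closed along it, so `c1 ≥ 0` (`Bar.crit`) and by
  `Trap2.lo` `i r ≥ (e - δ) i j Q - δ ≥ -δ` for every `i`. (`j = 0`: `r = 0`.)
-/

set_option autoImplicit false

open MeasureTheory
open scoped RealInnerProductSpace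

namespace Pool.Agent.H33.AN

open Pool.Agent.H33.AM

variable {n : ℕ} {Q : ℕ} {B E₁ μ : ℝ} {w w₁ w₂ : ℝ → ℝ → ℝ} {Bc : ℝ → ℝ}

theorem crit2_upper (hw : HW Q w w₁ w₂ B) (hb : Bar w Q E₁ μ Bc)
    {l : EuclideanSpace ℝ (Fin n) → EuclideanSpace ℝ (Fin n) → ℝ → ℝ} {k₀ m P : Fin n → ℤ}
    {s M κ δ e : ℝ} {e₀ : EuclideanSpace ℝ (Fin n)} (h : Trap2 l k₀ m P s e₀ Q w E₁ M κ δ)
    (he : δ ≤ e) : Crit2 l k₀ Q e := by
  intro j t x k r hk hr
  rcases Nat.eq_zero_or_pos j with hj | hj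
  · subst hj
    obtain ⟨ξ, u, _, _, _, hact⟩ := hr
    have e1 : t + ((0 : ℕ) : ℝ) * Q = t := by
      push_cast
      ring
    rw [e1, intervalIntegral.integral_same] at hact
    exact hact.le
  · have hQ : (0 : ℝ) < Q := by exact_mod_cast hb.Q_pos
    obtain ⟨δ', _, hδ'le, hlo'⟩ := h.lo
    have key : ∀ i : ℕ, 0 < i → -δ ≤ i * r := by
      intro i hi
      obtain ⟨ξ, u, ha, h0, h1, hact⟩ := hr.iter h.hl i
      have hlo := hlo' _ _ ξ u ha
      have hcur := Adm.toCur ha k₀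
      have hcl : ⟪zv k₀, ξ (t + ((i * j : ℕ) : ℝ) * Q)⟫ = ⟪zv k₀, ξ t⟫ := by
        rw [h1, h0, inner_add_right, inner_zv, dot_nsmul, hk]
        simp
      have hcrit := hb.crit (i * j) t _ _ (Nat.mul_pos hi hj) hcur hcl
      have hba : t + ((i * j : ℕ) : ℝ) * Q - t = ((i * j : ℕ) : ℝ) * Q := by ring
      have hc1 : 0 ≤ c1 w Q E₁ t (t + ((i * j : ℕ) : ℝ) * Q) (fun τ => ⟪zv k₀, ξ τ⟫)
          (fun τ => ⟪zv k₀, u τ⟫) := by
        unfold c1
        rw [hba]
        have e2 : E₁ / Q * (((i * j : ℕ) : ℝ) * Q) = ((i * j : ℕ) : ℝ) * E₁ := by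
          field_simp
        rw [e2]
        linarith
      have hi3 : IntervalIntegrable (fun τ => l (ξ τ) (u τ) τ) volume t
          (t + ((i * j : ℕ) : ℝ) * Q) :=
        Adm.integrable2 ha (g := fun p => l p.1 p.2.1 p.2.2) h.hl.cont
      rw [intervalIntegral.integral_add hi3 intervalIntegrable_const,
        intervalIntegral.integral_const, hba, smul_eq_mul] at hact
      rw [hba] at hlo
      have hδ := h.δ_le
      have hM := h.M_pos
      have h2 : 0 ≤ M * (1 - δ') * c1 w Q E₁ t (t + ((i * j : ℕ) : ℝ) * Q)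
          (fun τ => ⟪zv k₀, ξ τ⟫) (fun τ => ⟪zv k₀, u τ⟫) :=
        mul_nonneg (mul_nonneg hM.le (by linarith)) hc1
      have h3 : 0 ≤ ((i * j : ℕ) : ℝ) * Q * (e - δ) :=
        mul_nonneg (mul_nonneg (Nat.cast_nonneg _) hQ.le) (by linarith)
      nlinarith
    by_contra hcon
    have hneg : r < 0 := not_le.1 hcon
    obtain ⟨i, hi⟩ := exists_nat_gt (δ / (-r))
    have h1 := key (i + 1) (Nat.succ_pos i)
    rw [div_lt_iff₀ (by linarith)] at hi
    push_cast at h1
    linarith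

end Pool.Agent.H33.AN

end

section

/-!
# Module K2: levels

* `per_ext`: periodic extension, `ξ' t = ξ (toIcoMod _ 0 t)`, same for `u`; the exceptional set is the
  union of the translates of `s ∪ {0}`.
* `lev_of_closed`: `ωa = A1 w 0 Q ξ u - E₁ ≥ 0` (`Bar.crit` with `j = 1`),
  `ψ t = c1 w Q E₁ 0 t ξ u - ωa t/Q` for `t ≥ 0` (in general the interval integral from `0` to `t`, also for
  `t < 0`); periodic; continuous, hence bounded.
* `levels_exist`: `F x = Dm w 0 Q x x`: continuous (`Dm_lip`), 1-periodic (`Dm_per`), `≥ E₁` (`le_Dm`,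
  `Bar.crit`), `= E₁` somewhere (`Bar.att`), `≥ E₁ + μ` at `Bc 0` (`Bar.mark`). Let `ω₁ = ω/4`,
  `xa = sSup {x ≤ Bc 0 | F x ≤ E₁ + ω₁}`, `xc = sInf {x ≥ Bc 0 | F x ≤ E₁ + ω₁}`:
  `Bc 0 - 1 ≤ xa < Bc 0 < xc ≤ xa + 1` (`F (xa + 1) ≤ E₁ + ω₁`, `xa + 1 ≥ Bc 0`), `F ≥ E₁ + ω₁` on
  `[xa, xc]` (continuity). Closed curves `a`, `c` through `(xa, 0)`, `(xc, 0)` with action `< E₁ + 2 ω₁`
  (`exists_near`, `per_ext`). Replace `c` by `min c (a + 1)` and `a` by `max a (c - 1)` (`Cur.minmax` on `[0, Q]`: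
  the sum of the two actions is `< 2 E₁ + 4 ω₁` and both are `≥ E₁`, so both are `≤ E₁ + ω`; note
  `max a (c - 1) = max (a + 1) c - 1`). Closed curves of action `< E₁ + μ` do not meet the translates of
  `Bc` (`Bar.mark`), so `a < Bc < c` everywhere.
-/

set_option autoImplicit false

open MeasureTheory
open scoped RealInnerProductSpace

namespace Pool.Agent.H33.AN

open Pool.Agent.H33.AM

variable {B : ℝ} {w w₁ w₂ : ℝ → ℝ → ℝ} {Q : ℕ} {E₁ μ : ℝ} {Bc : ℝ → ℝ}

private theorem k2b_bd {g : ℝ → ℝ} {T : ℝ} (hT : 0 < T) (hg : Continuous g)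
    (hp : ∀ t, g (t + T) = g t) : ∃ R : ℝ, ∀ t, |g t| ≤ R := by
  have hper : Function.Periodic g T := hp
  have h1 := hper.isBounded_of_continuous hT.ne' hg
  obtain ⟨R, hR⟩ := h1.exists_norm_le
  exact ⟨R, fun t => hR (g t) (Set.mem_range_self t)⟩

theorem lev_of_closed (hw : HW Q w w₁ w₂ B) (hb : Bar w Q E₁ μ Bc) {ξ u : ℝ → ℝ} {ω : ℝ}
    (hc : ∀ s t, s ≤ t → Cur s t ξ u) (hξ : Continuous ξ) (hper : ∀ t, ξ (t + Q) = ξ t)
    (hup : ∀ t, u (t + Q) = u t) (hact : A1 w 0 Q ξ u ≤ E₁ + ω) :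
    ∃ (R : ℝ) (ψ : ℝ → ℝ), Lev w Q E₁ ω R ξ u ψ := by
  have hQ : (0 : ℝ) < Q := by exact_mod_cast hb.Q_pos
  have cw : Continuous fun z : ℝ × ℝ => w z.1 z.2 :=
    continuous_iff_continuousAt.2 fun z => (hw.der z.1 z.2).continuousAt
  have cg : Continuous fun z : ℝ × ℝ × ℝ => z.2.1 ^ 2 / 2 - w z.1 z.2.2 := by
    apply Continuous.sub (by fun_prop)
    exact cw.comp (Continuous.prodMk continuous_fst (continuous_snd.comp continuous_snd))
  have hint' : ∀ a b, a ≤ b → IntervalIntegrable (fun τ => u τ ^ 2 / 2 - w (ξ τ) τ) volume a b :=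
    fun a b hab => (hc a b hab).integrable cg
  have hint : ∀ a b, IntervalIntegrable (fun τ => u τ ^ 2 / 2 - w (ξ τ) τ) volume a b := by
    intro a b
    rcases le_total a b with h | h
    · exact hint' a b h
    · exact (hint' b a h).symm
  have hfper : Function.Periodic (fun τ => u τ ^ 2 / 2 - w (ξ τ) τ) (Q : ℝ) := by
    intro τ
    simp only
    rw [hup, hper, hw.per₂]
  obtain ⟨ωa, hωa⟩ : ∃ ωa : ℝ, ωa = A1 w 0 Q ξ u - E₁ := ⟨_, rfl⟩
  have hω0 : 0 ≤ ωa := by
    have h1 := hb.crit 1 0 ξ u one_pos (hc _ _ (by simp)) (by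
      rw [Nat.cast_one, one_mul]
      exact hper 0)
    rw [Nat.cast_one, one_mul, one_mul, zero_add] at h1
    rw [hωa]
    linarith
  have hω1 : ωa ≤ ω := by rw [hωa]; linarith
  obtain ⟨ψ, hψ⟩ : ∃ ψ : ℝ → ℝ, ψ = fun t => (∫ τ in (0 : ℝ)..t, (u τ ^ 2 / 2 - w (ξ τ) τ)) -
      (E₁ / Q + ωa / Q) * t := ⟨_, rfl⟩
  have hψc : Continuous ψ := by
    rw [hψ]
    exact (intervalIntegral.continuous_primitive hint 0).sub (by fun_prop)
  have hψper : ∀ t, ψ (t + Q) = ψ t := by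
    intro t
    rw [hψ]
    simp only
    have h1 : (∫ τ in (0 : ℝ)..(t + Q), (u τ ^ 2 / 2 - w (ξ τ) τ)) =
        (∫ τ in (0 : ℝ)..t, (u τ ^ 2 / 2 - w (ξ τ) τ)) +
          ∫ τ in t..(t + Q), (u τ ^ 2 / 2 - w (ξ τ) τ) :=
      (intervalIntegral.integral_add_adjacent_intervals (hint _ _) (hint _ _)).symm
    have h2 : (∫ τ in t..(t + Q), (u τ ^ 2 / 2 - w (ξ τ) τ)) = A1 w 0 Q ξ u := by
      have h3 := hfper.intervalIntegral_add_eq t 0
      rw [zero_add] at h3
      exact h3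
    rw [h1, h2]
    have h4 : A1 w 0 Q ξ u = E₁ + ωa := by rw [hωa]; ring
    rw [h4]
    field_simp
    ring
  obtain ⟨R1, hR1⟩ := k2b_bd hQ hξ hper
  obtain ⟨R2, hR2⟩ := (hc 0 0 le_rfl).bd
  obtain ⟨R3, hR3⟩ := k2b_bd hQ hψc hψper
  refine ⟨max R1 (max R2 R3), ψ,
    { cur := hc
      contA := hξ
      per := hper
      bd := fun t => (hR1 t).trans (le_max_left _ _)
      bdu := fun t => (hR2 t).trans ((le_max_left _ _).trans (le_max_right _ _))
      ψper := hψper
      ψbd := fun t => (hR3 t).trans ((le_max_right _ _).trans (le_max_right _ _))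
      cost := ⟨ωa, hω0, hω1, ?_⟩ }⟩
  intro s t _
  have h1 : (∫ τ in (0 : ℝ)..t, (u τ ^ 2 / 2 - w (ξ τ) τ)) =
      (∫ τ in (0 : ℝ)..s, (u τ ^ 2 / 2 - w (ξ τ) τ)) +
        ∫ τ in s..t, (u τ ^ 2 / 2 - w (ξ τ) τ) :=
    (intervalIntegral.integral_add_adjacent_intervals (hint _ _) (hint _ _)).symm
  unfold c1 A1
  rw [hψ]
  simp only
  rw [h1]
  ring

end Pool.Agent.H33.AN

end

section

/-!
# Module L1: connecting curves, time-dependent

As in `Pool/Agent/H33/AM/P/R2.lean`, `Pool/Agent/H33/AM/P/R3.lean` (copy the proofs).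
* `Adm.glue`: glue at `b`.
* `toCur`: compose with the inner product.
* `lift`: `x(t) = x₀ + (t - t₀) • v₀ + (a t - a t₀) • e₀`.
* `Conn2.cross`: intermediate value theorem for `t ↦ ⟪zv k₀, ξ t⟫ - f t`.
* `moving_cross`: `t₂ = inf {t ∈ [t₀, t₁] | θ t ≥ c t}`, `t₁' = sup {t ∈ [t₀, t₂] | θ t ≤ a t}`.
-/

set_option autoImplicit false

open MeasureTheory
open scoped RealInnerProductSpace

namespace Pool.Agent.H33.AN

open Pool.Agent.H33.AM

variable {n : ℕ} {l : EuclideanSpace ℝ (Fin n) → EuclideanSpace ℝ (Fin n) → ℝ → ℝ} {Q : ℕ}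

/-- Crossing a moving level. -/
theorem Conn2.cross (hl : HL2 Q l) {k₀ : Fin n → ℤ} {e a b : ℝ}
    {x y : EuclideanSpace ℝ (Fin n)} {r : ℝ} (h : Conn2 l e a b x y r) {f : ℝ → ℝ}
    (hf : Continuous f)
    (hA : (⟪zv k₀, x⟫ ≤ f a ∧ f b ≤ ⟪zv k₀, y⟫) ∨ (f a ≤ ⟪zv k₀, x⟫ ∧ ⟪zv k₀, y⟫ ≤ f b)) :
    ∃ (t : ℝ) (z : EuclideanSpace ℝ (Fin n)) (r₁ r₂ : ℝ), ⟪zv k₀, z⟫ = f t ∧
      r = r₁ + r₂ ∧ Conn2 l e a t x z r₁ ∧ Conn2 l e t b z y r₂ := by
  obtain ⟨ξ, u, ha, h0, hT, hr⟩ := h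
  have hab : a ≤ b := ha.le
  have hc : ContinuousOn (fun t => ⟪zv k₀, ξ t⟫ - f t) (Set.Icc a b) :=
    (continuousOn_const.inner ha.cont).sub hf.continuousOn
  have h1 : ∃ σ ∈ Set.Icc a b, ⟪zv k₀, ξ σ⟫ - f σ = 0 := by
    rcases hA with hA | hA
    · have h2 := intermediate_value_Icc hab hc
      exact h2 ⟨by rw [h0]; linarith [hA.1], by rw [hT]; linarith [hA.2]⟩
    · have h2 := intermediate_value_Icc' hab hc
      exact h2 ⟨by rw [hT]; linarith [hA.2], by rw [h0]; linarith [hA.1]⟩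
  obtain ⟨σ, hσ, hσA⟩ := h1
  have hg : Continuous fun p : EuclideanSpace ℝ (Fin n) × EuclideanSpace ℝ (Fin n) × ℝ =>
      l p.1 p.2.1 p.2.2 + e := hl.cont.add continuous_const
  have A1 := ha.sub le_rfl hσ.1 hσ.2
  have A2 := ha.sub hσ.1 hσ.2 le_rfl
  refine ⟨σ, ξ σ, ∫ t in a..σ, (l (ξ t) (u t) t + e), ∫ t in σ..b, (l (ξ t) (u t) t + e),
    by linarith, ?_, ⟨ξ, u, A1, h0, rfl, rfl⟩, ⟨ξ, u, A2, rfl, hT, rfl⟩⟩
  rw [← hr]
  exact (intervalIntegral.integral_add_adjacent_intervals (Adm.integrable2 A1 hg)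
    (Adm.integrable2 A2 hg)).symm

/-- Crossing a moving strip upwards. -/
theorem moving_cross {θ a c : ℝ → ℝ} {t₀ t₁ : ℝ} (ht : t₀ ≤ t₁)
    (hθ : ContinuousOn θ (Set.Icc t₀ t₁)) (ha : Continuous a) (hc : Continuous c)
    (hac : ∀ t, a t < c t) (h0 : θ t₀ ≤ a t₀) (h1 : c t₁ ≤ θ t₁) :
    ∃ σ₁ σ₂, t₀ ≤ σ₁ ∧ σ₁ ≤ σ₂ ∧ σ₂ ≤ t₁ ∧ θ σ₁ = a σ₁ ∧ θ σ₂ = c σ₂ ∧
      ∀ t ∈ Set.Icc σ₁ σ₂, a t ≤ θ t ∧ θ t ≤ c t := by
  have hcl : IsClosed (Set.Icc t₀ t₁ ∩ (fun t => θ t - c t) ⁻¹' Set.Ici 0) :=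
    (hθ.sub hc.continuousOn).preimage_isClosed_of_isClosed isClosed_Icc isClosed_Ici
  have hcomp : IsCompact (Set.Icc t₀ t₁ ∩ (fun t => θ t - c t) ⁻¹' Set.Ici 0) :=
    isCompact_Icc.of_isClosed_subset hcl Set.inter_subset_left
  obtain ⟨σ₂, hσ2, hmin⟩ := hcomp.exists_isLeast
    ⟨t₁, ⟨ht, le_rfl⟩, by simpa using h1⟩
  have hσ2c : c σ₂ ≤ θ σ₂ := by
    have := hσ2.2
    simpa using this
  have hmin' : ∀ t, t₀ ≤ t → t < σ₂ → θ t < c t := by
    intro t h2 h3
    by_contra h4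
    push Not at h4
    have h5 := hmin (a := t) ⟨⟨h2, by linarith [hσ2.1.2]⟩, by simpa using h4⟩
    linarith
  have hθ2 : ContinuousOn θ (Set.Icc t₀ σ₂) := hθ.mono (Set.Icc_subset_Icc le_rfl hσ2.1.2)
  have heq2 : θ σ₂ = c σ₂ := by
    by_contra hne
    have hlt : c σ₂ < θ σ₂ := lt_of_le_of_ne hσ2c (Ne.symm hne)
    have h2 := intermediate_value_Icc hσ2.1.1 (hθ2.sub hc.continuousOn)
    obtain ⟨t, ht1, ht2⟩ := h2 (show (0 : ℝ) ∈ Set.Icc ((fun t => θ t - c t) t₀)
      ((fun t => θ t - c t) σ₂) from ⟨by have := hac t₀; dsimp only; linarith, by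
        dsimp only; linarith⟩)
    have ht2' : θ t - c t = 0 := ht2
    rcases eq_or_lt_of_le ht1.2 with h3 | h3
    · rw [h3] at ht2'
      linarith
    · have := hmin' t ht1.1 h3
      linarith
  have hcl' : IsClosed (Set.Icc t₀ σ₂ ∩ (fun t => θ t - a t) ⁻¹' Set.Iic 0) :=
    (hθ2.sub ha.continuousOn).preimage_isClosed_of_isClosed isClosed_Icc isClosed_Iic
  have hcomp' : IsCompact (Set.Icc t₀ σ₂ ∩ (fun t => θ t - a t) ⁻¹' Set.Iic 0) :=
    isCompact_Icc.of_isClosed_subset hcl' Set.inter_subset_left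
  obtain ⟨σ₁, hσ1, hmax⟩ := hcomp'.exists_isGreatest
    ⟨t₀, ⟨le_rfl, hσ2.1.1⟩, by simpa using h0⟩
  have hσ1a : θ σ₁ ≤ a σ₁ := by
    have := hσ1.2
    simpa using this
  have hmax' : ∀ t, σ₁ < t → t ≤ σ₂ → a t < θ t := by
    intro t h2 h3
    by_contra h4
    push Not at h4
    have h5 := hmax (a := t) ⟨⟨by linarith [hσ1.1.1], h3⟩, by simpa using h4⟩
    linarith
  have heq1 : θ σ₁ = a σ₁ := by
    by_contra hne
    have hlt : θ σ₁ < a σ₁ := lt_of_le_of_ne hσ1a hne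
    have hθ1 : ContinuousOn θ (Set.Icc σ₁ σ₂) := hθ2.mono (Set.Icc_subset_Icc hσ1.1.1 le_rfl)
    have h2 := intermediate_value_Icc hσ1.1.2 (hθ1.sub ha.continuousOn)
    obtain ⟨t, ht1, ht2⟩ := h2 (show (0 : ℝ) ∈ Set.Icc ((fun t => θ t - a t) σ₁)
      ((fun t => θ t - a t) σ₂) from ⟨by dsimp only; linarith, by
        have := hac σ₂; dsimp only; linarith⟩)
    have ht2' : θ t - a t = 0 := ht2
    rcases eq_or_lt_of_le ht1.1 with h3 | h3
    · rw [← h3] at ht2'
      linarith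
    · have := hmax' t h3 ht1.2
      linarith
  refine ⟨σ₁, σ₂, hσ1.1.1, hσ1.1.2, hσ2.1.2, heq1, heq2, fun t ht => ⟨?_, ?_⟩⟩
  · rcases eq_or_lt_of_le ht.1 with h3 | h3
    · rw [← h3, heq1]
    · exact (hmax' t h3 ht.2).le
  · rcases eq_or_lt_of_le ht.2 with h3 | h3
    · rw [h3, heq2]
    · exact (hmin' t (hσ1.1.1.trans ht.1) h3).le

/-- Crossing a moving strip downwards. -/
theorem moving_cross' {θ a c : ℝ → ℝ} {t₀ t₁ : ℝ} (ht : t₀ ≤ t₁)
    (hθ : ContinuousOn θ (Set.Icc t₀ t₁)) (ha : Continuous a) (hc : Continuous c)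
    (hac : ∀ t, a t < c t) (h0 : c t₀ ≤ θ t₀) (h1 : θ t₁ ≤ a t₁) :
    ∃ σ₁ σ₂, t₀ ≤ σ₁ ∧ σ₁ ≤ σ₂ ∧ σ₂ ≤ t₁ ∧ θ σ₁ = c σ₁ ∧ θ σ₂ = a σ₂ ∧
      ∀ t ∈ Set.Icc σ₁ σ₂, a t ≤ θ t ∧ θ t ≤ c t := by
  obtain ⟨σ₁, σ₂, h2, h3, h4, h5, h6, h7⟩ := moving_cross (θ := fun t => -θ t)
    (a := fun t => -c t) (c := fun t => -a t) ht hθ.neg hc.neg ha.neg
    (fun t => neg_lt_neg (hac t)) (neg_le_neg h0) (neg_le_neg h1)
  exact ⟨σ₁, σ₂, h2, h3, h4, neg_injective h5, neg_injective h6,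
    fun t ht' => ⟨neg_le_neg_iff.1 (h7 t ht').2, neg_le_neg_iff.1 (h7 t ht').1⟩⟩

end Pool.Agent.H33.AN

end
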