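import Pool.Agent.H47.B0.M03
import Pool.Agent.H47.B0.M06
import Pool.Agent.H47.B0.M08

/-! The parts of this file: H33.AN.P.I2b, H33.AN.P.I1b, H33.AN.P.I2a, H33.AN.P.L2a, H33.AN.P.L2c, H33.AN.P.L6b, H33.AN.P.L4a, H33.AN.P.L4b, H33.AN.P.K2c, H33.AN.P.L5, H33.AN.P.L6a, H33.AN.P.K3b. -/

section

/-!
# Module I2: invariant measures
-/

set_option autoImplicit false

open MeasureTheory
open scoped RealInnerProductSpace

namespace Pool.Agent.H33.AN

open Pool.Agent.H33.AM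

variable {n : ℕ} {G : EuclideanSpace ℝ (Fin n) →L[ℝ] EuclideanSpace ℝ (Fin n)} {κ₁ κ₂ : ℝ}
  {V : EuclideanSpace ℝ (Fin n) → ℝ → ℝ}
  {F : EuclideanSpace ℝ (Fin n) → ℝ → EuclideanSpace ℝ (Fin n)}
  {Vt : EuclideanSpace ℝ (Fin n) → ℝ → ℝ} {B : ℝ}

private theorem I2b_lag_cont (hV : HV2 1 V F Vt B) :
    Continuous fun p : EuclideanSpace ℝ (Fin n) × EuclideanSpace ℝ (Fin n) × ℝ =>
      lag2 G V p.1 p.2.1 p.2.2 := by
  have h3 := hV.cont
  unfold lag2
  have h4 : Continuous fun p : EuclideanSpace ℝ (Fin n) × EuclideanSpace ℝ (Fin n) × ℝ =>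
      V p.1 p.2.2 :=
    h3.comp (continuous_fst.prodMk (continuous_snd.comp continuous_snd))
  have h5 : Continuous fun p : EuclideanSpace ℝ (Fin n) × EuclideanSpace ℝ (Fin n) × ℝ =>
      (⟪G p.2.1, p.2.1⟫ : ℝ) :=
    (G.continuous.comp (continuous_fst.comp continuous_snd)).inner
      (continuous_fst.comp continuous_snd)
  exact (h5.div_const 2).sub h4

private theorem I2b_rep (t : ℝ) : ∃ j : ℤ, rep (t : UnitAddCircle) = t + j := by
  have h1 := rep_coe (t : UnitAddCircle)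
  have h2 := (QuotientAddGroup.eq_iff_sub_mem).1 h1
  obtain ⟨j, hj⟩ := AddSubgroup.mem_zmultiples_iff.1 h2
  rw [zsmul_eq_mul, mul_one] at hj
  exact ⟨j, by linarith⟩

private theorem I2b_lag_per (hV : HV2 1 V F Vt B)
    (x v : EuclideanSpace ℝ (Fin n)) (t : ℝ) :
    lag2 G V (repE (pr x)) v (rep (t : UnitAddCircle)) = lag2 G V x v t := by
  have h : pr (repE (pr x)) = pr x := pr_repE _
  obtain ⟨k, hk⟩ := (pr_eq_iff _ _).1 h
  obtain ⟨j, hj⟩ := I2b_rep t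
  have h3 : Function.Periodic (V x) 1 := fun t => hV.pert x t
  have h4 := h3.int_mul j t
  rw [mul_one] at h4
  rw [hk, hj]
  unfold lag2
  rw [hV.per, h4]

private theorem I2b_meas_rep : Measurable rep := by
  unfold rep
  exact measurable_subtype_coe.comp (AddCircle.measurableEquivIco (1 : ℝ) 0).measurable

private theorem I2b_meas_map : Measurable fun z : Ph n =>
    ((repE z.1, z.2.1, rep z.2.2) : EuclideanSpace ℝ (Fin n) × EuclideanSpace ℝ (Fin n) × ℝ) := by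
  apply Measurable.prodMk
  · exact measurable_repE.comp measurable_fst
  · apply Measurable.prodMk
    · exact measurable_fst.comp measurable_snd
    · exact I2b_meas_rep.comp (measurable_snd.comp measurable_snd)

private theorem I2b_meas_Lc (hV : HV2 1 V F Vt B)
    (c : EuclideanSpace ℝ (Fin n)) :
    Measurable (Lc (lag2 G V) c) := by
  have h0 : Continuous fun p : EuclideanSpace ℝ (Fin n) × EuclideanSpace ℝ (Fin n) × ℝ =>
      lag2 G V p.1 p.2.1 p.2.2 - ⟪c, p.2.1⟫ :=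
    (I2b_lag_cont (G := G) hV).sub (continuous_const.inner (continuous_fst.comp continuous_snd))
  have h2 := h0.measurable.comp (I2b_meas_map (n := n))
  exact h2

/-- Along the orbits. -/
private theorem I2b_orbit (hG : HG G κ₁ κ₂) (hV : HV2 1 V F Vt B)
    {c : EuclideanSpace ℝ (Fin n)} {Φ : ℝ → Ph n → Ph n}
    (hΦ : IsELFlow (lag2 G V) Φ) (z : Ph n) :
    ∃ (γ v : ℝ → EuclideanSpace ℝ (Fin n)) (t₀ : ℝ), Continuous v ∧ (∀ t, HasDerivAt γ (v t) t) ∧
      ∀ s, Lc (lag2 G V) c (Φ s z) =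
        lag2 G V (γ (t₀ + s)) (v (t₀ + s)) (t₀ + s) - ⟪c, v (t₀ + s)⟫ := by
  obtain ⟨X, v₀, τ⟩ := z
  obtain ⟨γ, hEL, h0, h1, h2⟩ := hΦ (repE X) v₀ (rep τ)
  have hS : Sol2 G F γ (deriv γ) := (isEL_iff2 hG hV γ).1 hEL
  refine ⟨γ, deriv γ, rep τ, hS.cont, hS.der, ?_⟩
  intro s
  have h3 := h2 s
  rw [pr_repE, rep_coe] at h3
  rw [h3]
  unfold Lc
  simp only
  rw [I2b_lag_per hV]

theorem actionValues_ge2 (hG : HG G κ₁ κ₂) (hV : HV2 1 V F Vt B)
    {c : EuclideanSpace ℝ (Fin n)} {E₀ C : ℝ}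
    (h : ∀ (a b : ℝ) (x u : ℝ → EuclideanSpace ℝ (Fin n)), Adm a b x u →
      -C ≤ ∫ t in a..b, (lag2 G V (x t) (u t) t - ⟪c, u t⟫ + E₀))
    {a : ℝ} (ha : a ∈ actionValues (lag2 G V) c) : -E₀ ≤ a := by
  obtain ⟨Φ, hΦ, μ, hμ, hinv, hint, rfl⟩ := ha
  set g : Ph n → ℝ := Lc (lag2 G V) c with hg
  have hgm : Measurable g := I2b_meas_Lc hV c
  have hcont : ∀ z : Ph n, Continuous fun s => g (Φ s z) := by
    intro z
    obtain ⟨γ, v, t₀, h1, h2, h3⟩ := I2b_orbit (c := c) hG hV hΦ z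
    have h4 : (fun s => g (Φ s z)) = fun s =>
        lag2 G V (γ (t₀ + s)) (v (t₀ + s)) (t₀ + s) - ⟪c, v (t₀ + s)⟫ := by
      funext s
      exact h3 s
    rw [h4]
    have h5 : Continuous γ := continuous_iff_continuousAt.2 fun t => (h2 t).continuousAt
    have h6 : Continuous fun s : ℝ => t₀ + s := continuous_const.add continuous_id
    exact ((I2b_lag_cont (G := G) hV).comp ((h5.comp h6).prodMk ((h1.comp h6).prodMk h6))).sub
      (continuous_const.inner (h1.comp h6))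
  have hmeas : ∀ s, Measurable fun z => g (Φ s z) := fun s => hgm.comp (hinv s).measurable
  have hjoint : Measurable (Function.uncurry fun (s : ℝ) (z : Ph n) => g (Φ s z)) :=
    measurable_uncurry_of_continuous_of_measurable hcont hmeas
  have hint' : ∀ s, Integrable (fun z => g (Φ s z)) μ := fun s =>
    (hinv s).integrable_comp_of_integrable hint
  have hval : ∀ s, ∫ z, g (Φ s z) ∂μ = ∫ z, g z ∂μ := by
    intro s
    have h1 := integral_map (μ := μ) (φ := Φ s) (hinv s).measurable.aemeasurable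
      (f := g) (hgm.aestronglyMeasurable)
    rw [← h1, (hinv s).map_eq]
  have hvaln : ∀ s, ∫ z, ‖g (Φ s z)‖ ∂μ = ∫ z, ‖g z‖ ∂μ := by
    intro s
    have h1 := integral_map (μ := μ) (φ := Φ s) (hinv s).measurable.aemeasurable
      (f := fun z => ‖g z‖) (hgm.norm.aestronglyMeasurable)
    rw [← h1, (hinv s).map_eq]
  -- the lower bound along the orbits
  have hlow : ∀ (T : ℝ), 0 < T → ∀ z : Ph n, -C - E₀ * T ≤ ∫ s in (0 : ℝ)..T, g (Φ s z) := by
    intro T hT z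
    obtain ⟨γ, v, t₀, h1, h2, h3⟩ := I2b_orbit (c := c) hG hV hΦ z
    obtain ⟨R, hR⟩ := (isCompact_Icc (a := t₀) (b := t₀ + T)).exists_bound_of_continuousOn
      (h1.continuousOn (s := Set.Icc t₀ (t₀ + T)))
    have hadm : Adm t₀ (t₀ + T) γ ((Set.Icc t₀ (t₀ + T)).indicator v) := by
      refine ⟨by linarith, ?_, ⟨∅, Set.countable_empty, ?_⟩, ?_, ⟨max R 0, ?_⟩⟩
      · exact (continuous_iff_continuousAt.2 fun t => (h2 t).continuousAt).continuousOn
      · intro t ht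
        have ht' : t ∈ Set.Icc t₀ (t₀ + T) := Set.Ioo_subset_Icc_self ht.1
        rw [Set.indicator_of_mem ht']
        exact h2 t
      · exact h1.measurable.indicator measurableSet_Icc
      · intro t
        by_cases ht : t ∈ Set.Icc t₀ (t₀ + T)
        · rw [Set.indicator_of_mem ht]
          exact (hR t ht).trans (le_max_left _ _)
        · rw [Set.indicator_of_notMem ht, norm_zero]
          exact le_max_right _ _
    have h4 := h t₀ (t₀ + T) γ _ hadm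
    have h5 : (∫ t in t₀..(t₀ + T), (lag2 G V (γ t) ((Set.Icc t₀ (t₀ + T)).indicator v t) t
        - ⟪c, (Set.Icc t₀ (t₀ + T)).indicator v t⟫ + E₀)) =
          ∫ s in (0 : ℝ)..T, (g (Φ s z) + E₀) := by
      obtain ⟨f, hf⟩ : ∃ f : ℝ → ℝ, f = fun t => lag2 G V (γ t)
        ((Set.Icc t₀ (t₀ + T)).indicator v t) t - ⟪c, (Set.Icc t₀ (t₀ + T)).indicator v t⟫ + E₀ :=
        ⟨_, rfl⟩
      have e1 := intervalIntegral.integral_comp_add_left (a := 0) (b := T) f t₀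
      rw [add_zero] at e1
      have e2 : (∫ t in t₀..(t₀ + T), (lag2 G V (γ t) ((Set.Icc t₀ (t₀ + T)).indicator v t) t
        - ⟪c, (Set.Icc t₀ (t₀ + T)).indicator v t⟫ + E₀)) = ∫ t in t₀..(t₀ + T), f t := by
        rw [hf]
      have e3 : Set.EqOn (fun t => f (t₀ + t)) (fun s => g (Φ s z) + E₀) (Set.uIcc 0 T) := by
        intro t ht
        rw [Set.uIcc_of_le hT.le] at ht
        have ht' : t₀ + t ∈ Set.Icc t₀ (t₀ + T) := ⟨by linarith [ht.1], by linarith [ht.2]⟩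
        have e4 := h3 t
        simp only [hf, Set.indicator_of_mem ht', hg, e4]
      rw [e2, ← e1]
      exact intervalIntegral.integral_congr e3
    rw [h5, intervalIntegral.integral_add ((hcont z).intervalIntegrable _ _)
      intervalIntegrable_const, intervalIntegral.integral_const, smul_eq_mul] at h4
    linarith [mul_comm E₀ T, h4]
  -- Fubini
  have hfub : ∀ (T : ℝ), 0 < T → -C - E₀ * T ≤ T * ∫ z, g z ∂μ := by
    intro T hT
    set ν : Measure ℝ := volume.restrict (Set.Ioc (0 : ℝ) T) with hν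
    have hfin : IsFiniteMeasure ν := by
      rw [hν]
      infer_instance
    have hprod : Integrable (Function.uncurry fun (s : ℝ) (z : Ph n) => g (Φ s z)) (ν.prod μ) := by
      rw [integrable_prod_iff hjoint.aestronglyMeasurable]
      refine ⟨Filter.Eventually.of_forall fun s => hint' s, ?_⟩
      have : (fun s : ℝ => ∫ z, ‖Function.uncurry (fun (s : ℝ) (z : Ph n) => g (Φ s z)) (s, z)‖ ∂μ)
          = fun _ => ∫ z, ‖g z‖ ∂μ := by
        funext s
        exact hvaln s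
      rw [this]
      exact integrable_const _
    have hsw := integral_integral_swap hprod
    have hl : ∫ s, ∫ z, g (Φ s z) ∂μ ∂ν = T * ∫ z, g z ∂μ := by
      have : (fun s : ℝ => ∫ z, g (Φ s z) ∂μ) = fun _ => ∫ z, g z ∂μ := by
        funext s
        exact hval s
      rw [this, integral_const, smul_eq_mul, hν, measureReal_restrict_apply_univ]
      simp [Real.volume_real_Ioc_of_le hT.le]
    rw [← hl, hsw]
    have hr : Integrable (fun z => ∫ s, g (Φ s z) ∂ν) μ := hprod.integral_prod_right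
    have hc : ∫ _z : Ph n, (-C - E₀ * T) ∂μ = -C - E₀ * T := by
      simp
    rw [← hc]
    refine integral_mono (integrable_const _) hr fun z => ?_
    simp only
    have := hlow T hT z
    rw [intervalIntegral.integral_of_le hT.le] at this
    exact this
  -- the limit
  by_contra hcon
  rw [not_le] at hcon
  set a := ∫ z, g z ∂μ with ha
  have hδ : 0 < -E₀ - a := by linarith
  have hT : 0 < (|C| + 1) / (-E₀ - a) := by positivity
  have h1 := hfub _ hT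
  have h2 : (-E₀ - a) * ((|C| + 1) / (-E₀ - a)) = |C| + 1 := by
    field_simp
  have h3 : C ≤ |C| := le_abs_self C
  nlinarith [h1, h2, h3]

end Pool.Agent.H33.AN

end

section

/-!
# Module I1: the Euler-Lagrange flow on `𝕋ⁿ × ℝⁿ × 𝕋`
-/

set_option autoImplicit false

open MeasureTheory
open scoped RealInnerProductSpace

namespace Pool.Agent.H33.AN

open Pool.Agent.H33.AM

variable {n : ℕ} {G : EuclideanSpace ℝ (Fin n) →L[ℝ] EuclideanSpace ℝ (Fin n)} {κ₁ κ₂ : ℝ}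
  {V : EuclideanSpace ℝ (Fin n) → ℝ → ℝ}
  {F : EuclideanSpace ℝ (Fin n) → ℝ → EuclideanSpace ℝ (Fin n)}
  {Vt : EuclideanSpace ℝ (Fin n) → ℝ → ℝ} {B : ℝ}

private theorem I1b_perZ (hV : HV2 1 V F Vt B) (x : EuclideanSpace ℝ (Fin n)) (t : ℝ) (j : ℤ) :
    F x (t + j) = F x t := by
  have h : Function.Periodic (F x) 1 := fun t => hV.pertF x t
  have h2 := h.int_mul j t
  rw [mul_one] at h2
  exact h2

private theorem I1b_shift (hV : HV2 1 V F Vt B) {γ v : ℝ → EuclideanSpace ℝ (Fin n)}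
    (h : Sol2 G F γ v) (k : Fin n → ℤ) (j : ℤ) :
    Sol2 G F (fun t => γ (t - j) + zv k) fun t => v (t - j) where
  cont := h.cont.comp (continuous_id.sub continuous_const)
  der := fun t => by
    have h1 := h.der (t - j)
    have h2 : HasDerivAt (fun u : ℝ => u - j) 1 t := (hasDerivAt_id t).sub_const (j : ℝ)
    have h3 := (HasDerivAt.scomp t h1 h2).add_const (zv k)
    rw [one_smul] at h3
    exact h3
  el := fun t => by
    have h1 := h.el (t - j)
    have h2 : HasDerivAt (fun u : ℝ => u - j) 1 t := (hasDerivAt_id t).sub_const (j : ℝ)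
    have h3 := HasDerivAt.scomp t h1 h2
    rw [one_smul] at h3
    have h4 : F (γ (t - j) + zv k) t = F (γ (t - j)) (t - j) := by
      rw [hV.perF]
      have := I1b_perZ hV (γ (t - j)) (t - j) j
      rw [sub_add_cancel] at this
      exact this
    rw [h4]
    exact h3

theorem exists_ELflow2 (hG : HG G κ₁ κ₂) (hV : HV2 1 V F Vt B) :
    ∃ Φ : ℝ → Ph n → Ph n, IsELFlow (lag2 G V) Φ ∧ (∀ s, Measurable (Φ s)) ∧
      ∀ (γ v : ℝ → EuclideanSpace ℝ (Fin n)), Sol2 G F γ v → ∀ s t : ℝ,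
        Φ s (pr (γ t), v t, (t : UnitAddCircle)) =
          (pr (γ (t + s)), v (t + s), ((t + s : ℝ) : UnitAddCircle)) := by
  obtain ⟨G', hG1, hG2⟩ := hG.inv
  obtain ⟨φ, hφ, hφt⟩ := exists_flow2 (G' := G') hV
  have hφs : ∀ s, Continuous (φ s) := by
    intro s
    have := hφ.cont.comp (Continuous.prodMk (continuous_const (y := s)) continuous_id)
    exact this
  let Ψ : Ph n → EuclideanSpace ℝ (Fin n) × EuclideanSpace ℝ (Fin n) × ℝ := fun z =>
    (repE z.1, z.2.1, rep z.2.2)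
  let Φ : ℝ → Ph n → Ph n := fun s z =>
    (pr (φ s (Ψ z)).1, (φ s (Ψ z)).2.1, z.2.2 + ((s : ℝ) : UnitAddCircle))
  have traj : ∀ (γ v : ℝ → EuclideanSpace ℝ (Fin n)), Sol2 G F γ v → ∀ s t : ℝ,
        Φ s (pr (γ t), v t, (t : UnitAddCircle)) =
          (pr (γ (t + s)), v (t + s), ((t + s : ℝ) : UnitAddCircle)) := by
    intro γ v h s t
    obtain ⟨k, hk⟩ := (pr_eq_iff (repE (pr (γ t))) (γ t)).1 (pr_repE _)
    obtain ⟨j, hj⟩ : ∃ j : ℤ, rep (t : UnitAddCircle) = t + j := by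
      have h1 := rep_coe (t : UnitAddCircle)
      have h2 := (QuotientAddGroup.eq_iff_sub_mem).1 h1
      obtain ⟨j, hj⟩ := AddSubgroup.mem_zmultiples_iff.1 h2
      refine ⟨j, ?_⟩
      simp only [zsmul_eq_mul, mul_one] at hj
      linarith
    have h' := I1b_shift hV h k j
    have hu := hφ.uniq (fun u => (γ (u - j) + zv k, v (u - j), u))
      (fun u => flow_of_Sol2 hG2 h' u) s (t + j)
    have hΨ : Ψ (pr (γ t), v t, (t : UnitAddCircle)) =
        (γ (t + j - j) + zv k, v (t + j - j), t + j) := by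
      simp only [Ψ, hk, hj, add_sub_cancel_right]
    have e1 : s + (t + (j : ℝ)) - j = t + s := by ring
    have hpr : pr (γ (t + s) + zv k) = pr (γ (t + s)) := (pr_eq_iff _ _).2 ⟨k, rfl⟩
    simp only [Φ, hΨ]
    rw [← hu]
    simp only [e1, hpr]
    rw [AddCircle.coe_add]
  refine ⟨Φ, ?_, ?_, traj⟩
  · intro x v t
    let w : ℝ → EuclideanSpace ℝ (Fin n) × EuclideanSpace ℝ (Fin n) × ℝ := fun u =>
      φ (u - t) (x, v, t)
    have hw : ∀ u, HasDerivAt w (field2 G' F (w u)) u := by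
      intro u
      have h1 := hφ.der (x, v, t) (u - t)
      have h2 : HasDerivAt (fun u : ℝ => u - t) 1 u := (hasDerivAt_id u).sub_const t
      have h3 := HasDerivAt.scomp u h1 h2
      rw [one_smul] at h3
      exact h3
    have hwt2 : ∀ u, (w u).2.2 = u := by
      intro u
      simp only [w, hφt]
      ring
    have hsol := Sol2_of_flow (G := G) hG1 hw hwt2
    have hder : deriv (fun u => (w u).1) = fun u => (w u).2.1 := by
      funext u
      exact (hsol.der u).deriv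
    have hwt : w t = (x, v, t) := by
      simp only [w, sub_self]
      exact hφ.zero _
    refine ⟨fun u => (w u).1, ?_, ?_, ?_, ?_⟩
    · rw [isEL_iff2 hG hV, hder]
      exact hsol
    · simp only [hwt]
    · rw [hder]
      simp only [hwt]
    · intro s
      have h1 := traj _ _ hsol s t
      simp only [hwt] at h1
      rw [hder]
      exact h1
  · intro s
    have hrep : Measurable rep := by
      unfold rep
      exact measurable_subtype_coe.comp (AddCircle.measurableEquivIco (1 : ℝ) 0).measurable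
    have hΨm : Measurable Ψ := by
      apply Measurable.prodMk
      · exact measurable_repE.comp measurable_fst
      · apply Measurable.prodMk
        · exact measurable_fst.comp measurable_snd
        · exact hrep.comp (measurable_snd.comp measurable_snd)
    have h1 : Measurable fun z => φ s (Ψ z) := (hφs s).measurable.comp hΨm
    apply Measurable.prodMk
    · exact continuous_pr.measurable.comp (measurable_fst.comp h1)
    · apply Measurable.prodMk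
      · exact measurable_fst.comp (measurable_snd.comp h1)
      · exact (measurable_snd.comp measurable_snd).add_const _

end Pool.Agent.H33.AN

end

section

/-!
# Module I2: invariant measures

(Compare `Pool/Agent/H33/AM/P/I2a.lean`, `I2b.lean`.)
* `mem_actionValues2`: `μ` = image of the uniform probability measure of `t ∈ [0, T]` under
  `t ↦ (pr (γ t), v t, t)` (continuous, `T`-periodic). It is invariant under the flow `Φ` of
  `exists_ELflow2`: `Φ s` maps the point of `t` to the point of `t + s`; the translation `t ↦ t + s` preserves the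
  uniform measure of `ℝ/T ℤ` (`Function.Periodic.intervalIntegral_add_eq`, or use `AddCircle T` with its Haar
  measure). `Lc L c` at `(pr (γ t), v t, t)` is `lag2 G V (γ t) (v t) t - ⟪c, v t⟫` because of the periodicity
  of `V`; it is bounded on the orbit.
* `actionValues_ge2`: let `μ` be invariant under `Φ`, `IsELFlow L Φ`. For every phase point `z` the
  function `s ↦ Lc L c (Φ s z)` is `lag2 G V (γ (t + s)) (γ' (t + s)) (t + s) - ⟪c, γ' (t + s)⟫` for a solution `γ`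
  (`isEL_iff2`), it is continuous, and its integral over `[0, T]` is at least `-C - E₀ T` (`(γ, γ')`, with `γ'` cut
  off outside `[t, t + T]`, is `Adm`). By `MeasurePreserving`, `∫ Lc ∘ Φ s dμ = ∫ Lc dμ` for every `s`; joint
  measurability of `(s, z) ↦ Lc L c (Φ s z)`: `measurable_uncurry_of_continuous_of_measurable`
  (`Lc L c` is measurable: `lag2` is continuous, `repE`, `rep` are measurable); Fubini on `[0, T] × μ` gives
  `T ∫ Lc dμ ≥ -C - E₀ T`; let `T → ∞`.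
-/

set_option autoImplicit false

open MeasureTheory
open scoped RealInnerProductSpace

namespace Pool.Agent.H33.AN

open Pool.Agent.H33.AM

variable {n : ℕ} {G : EuclideanSpace ℝ (Fin n) →L[ℝ] EuclideanSpace ℝ (Fin n)} {κ₁ κ₂ : ℝ}
  {V : EuclideanSpace ℝ (Fin n) → ℝ → ℝ}
  {F : EuclideanSpace ℝ (Fin n) → ℝ → EuclideanSpace ℝ (Fin n)}
  {Vt : EuclideanSpace ℝ (Fin n) → ℝ → ℝ} {B : ℝ}

private theorem I2a_lift_continuous2 {β : Type*} [TopologicalSpace β] {f : ℝ → β} {T : ℝ}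
    (h : Function.Periodic f T) (hf : Continuous f) :
    Continuous (h.lift : AddCircle T → β) := by
  rw [(QuotientAddGroup.isQuotientMap_mk (N := AddSubgroup.zmultiples T)).continuous_iff]
  exact hf

private theorem I2a_V_eq (hV : HV2 1 V F Vt B) (x : EuclideanSpace ℝ (Fin n)) (s t : ℝ)
    (h : (s : UnitAddCircle) = (t : UnitAddCircle)) : V x s = V x t := by
  have hp : Function.Periodic (fun t => V x t) 1 := fun t => hV.pert x t
  rw [← sub_eq_zero, ← AddCircle.coe_sub, AddCircle.coe_eq_zero_iff] at h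
  obtain ⟨m, hm⟩ := h
  simp only [zsmul_eq_mul, mul_one] at hm
  have h1 : s = t + m * 1 := by linarith
  rw [h1]
  exact hp.int_mul m t

private theorem I2a_coe_nat (t : ℝ) (T : ℕ) :
    ((t + T : ℝ) : UnitAddCircle) = (t : UnitAddCircle) := by
  rw [← sub_eq_zero, ← AddCircle.coe_sub, AddCircle.coe_eq_zero_iff]
  exact ⟨T, by simp⟩

theorem mem_actionValues2 (hG : HG G κ₁ κ₂) (hV : HV2 1 V F Vt B) {T : ℕ} (hT : 0 < T)
    {γ v : ℝ → EuclideanSpace ℝ (Fin n)} (h : Sol2 G F γ v) {k : Fin n → ℤ}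
    (hγ : ∀ t, γ (t + T) = γ t + zv k) (hv : ∀ t, v (t + T) = v t)
    (c : EuclideanSpace ℝ (Fin n)) :
    (1 / (T : ℝ)) * (∫ t in (0 : ℝ)..T, (lag2 G V (γ t) (v t) t - ⟪c, v t⟫)) ∈
      actionValues (lag2 G V) c := by
  have hT' : (0 : ℝ) < T := by exact_mod_cast hT
  haveI : Fact ((0 : ℝ) < (T : ℝ)) := ⟨hT'⟩
  obtain ⟨Φ, hΦ, hΦm, hΦt⟩ := exists_ELflow2 hG hV
  have hVT : ∀ x t, V x (t + T) = V x t := fun x t => I2a_V_eq hV x _ _ (I2a_coe_nat t T)
  -- continuity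
  have hVc := hV.cont
  have hγc : Continuous γ := by
    rw [continuous_iff_continuousAt]
    intro t
    exact (h.der t).continuousAt
  -- the maps on the circle
  have p1 : Function.Periodic (fun t => pr (γ t)) (T : ℝ) := by
    intro t
    simp only [hγ]
    exact (pr_eq_iff _ _).2 ⟨k, rfl⟩
  have p2 : Function.Periodic v (T : ℝ) := hv
  have p3 : Function.Periodic (fun t => lag2 G V (γ t) (v t) t - ⟪c, v t⟫) (T : ℝ) := by
    intro t
    simp only [lag2, hγ, hv, hV.per, hVT]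
  have p4 : Function.Periodic (fun t : ℝ => (t : UnitAddCircle)) (T : ℝ) := by
    intro t
    exact I2a_coe_nat t T
  have c1 : Continuous (p1.lift : AddCircle (T : ℝ) → Tor n) :=
    I2a_lift_continuous2 p1 (continuous_pr.comp hγc)
  have c2 : Continuous (p2.lift : AddCircle (T : ℝ) → EuclideanSpace ℝ (Fin n)) :=
    I2a_lift_continuous2 p2 h.cont
  have c3 : Continuous (p3.lift : AddCircle (T : ℝ) → ℝ) := by
    apply I2a_lift_continuous2 p3
    unfold lag2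
    apply Continuous.sub
    · apply Continuous.sub
      · exact (Continuous.inner (G.continuous.comp h.cont) h.cont).div_const 2
      · exact hVc.comp (hγc.prodMk continuous_id)
    · exact Continuous.inner continuous_const h.cont
  have c4 : Continuous (p4.lift : AddCircle (T : ℝ) → UnitAddCircle) :=
    I2a_lift_continuous2 p4 (AddCircle.continuous_mk' (1 : ℝ))
  let M : AddCircle (T : ℝ) → Ph n := fun z => (p1.lift z, p2.lift z, p4.lift z)
  have hMc : Continuous M := c1.prodMk (c2.prodMk c4)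
  have hMm : Measurable M := hMc.measurable
  let ν : Measure (AddCircle (T : ℝ)) := AddCircle.haarAddCircle (T := (T : ℝ))
  have hν : IsProbabilityMeasure ν := inferInstance
  -- the translation by `s`
  have htr : ∀ s : ℝ, MeasurePreserving
      (fun a : AddCircle (T : ℝ) => a + (s : AddCircle (T : ℝ))) ν ν := by
    intro s
    exact measurePreserving_add_right _ _
  have hcomm : ∀ s : ℝ, Φ s ∘ M = M ∘ (fun a : AddCircle (T : ℝ) => a + (s : AddCircle (T : ℝ))) := by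
    intro s
    funext θ
    induction θ using QuotientAddGroup.induction_on with
    | H t =>
      have h1 := hΦt γ v h s t
      simp only [Function.comp, M]
      have e1 : p1.lift ((t : ℝ) : AddCircle (T : ℝ)) = pr (γ t) := p1.lift_coe t
      have e2 : p2.lift ((t : ℝ) : AddCircle (T : ℝ)) = v t := p2.lift_coe t
      have e6 : p4.lift ((t : ℝ) : AddCircle (T : ℝ)) = (t : UnitAddCircle) := p4.lift_coe t
      have e3 : p1.lift ((t : ℝ) + (s : ℝ) : AddCircle (T : ℝ)) = pr (γ (t + s)) := by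
        rw [← AddCircle.coe_add]
        exact p1.lift_coe (t + s)
      have e4 : p2.lift ((t : ℝ) + (s : ℝ) : AddCircle (T : ℝ)) = v (t + s) := by
        rw [← AddCircle.coe_add]
        exact p2.lift_coe (t + s)
      have e5 : p4.lift ((t : ℝ) + (s : ℝ) : AddCircle (T : ℝ)) = ((t + s : ℝ) : UnitAddCircle) := by
        rw [← AddCircle.coe_add]
        exact p4.lift_coe (t + s)
      refine Eq.trans ?_ (h1.trans ?_)
      · exact congrArg (Φ s) (Prod.ext e1 (Prod.ext e2 e6))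
      · exact (Prod.ext e3 (Prod.ext e4 e5)).symm
  let μ : Measure (Ph n) := ν.map M
  have hμ : IsProbabilityMeasure μ := Measure.isProbabilityMeasure_map hMm.aemeasurable
  have hinv : ∀ s, MeasurePreserving (Φ s) μ μ := by
    intro s
    refine ⟨hΦm s, ?_⟩
    have e1 : Measure.map (Φ s) μ = Measure.map (Φ s ∘ M) ν :=
      Measure.map_map (hΦm s) hMm
    rw [e1, hcomm s, ← Measure.map_map hMm (htr s).measurable, (htr s).map_eq]
  -- the function
  have hrep : Measurable rep := by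
    unfold rep
    exact measurable_subtype_coe.comp (AddCircle.measurableEquivIco (1 : ℝ) 0).measurable
  have hLm : Measurable (Lc (lag2 G V) c) := by
    unfold Lc lag2
    have r1 : Measurable fun z : Ph n => repE z.1 := measurable_repE.comp measurable_fst
    have r2 : Measurable fun z : Ph n => z.2.1 := measurable_fst.comp measurable_snd
    have r3 : Measurable fun z : Ph n => rep z.2.2 :=
      hrep.comp (measurable_snd.comp measurable_snd)
    apply Measurable.sub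
    · apply Measurable.sub
      · exact ((G.continuous.measurable.comp r2).inner r2).div_const 2
      · exact hVc.measurable.comp (r1.prodMk r3)
    · exact measurable_const.inner r2
  have hLM : ∀ z, Lc (lag2 G V) c (M z) = p3.lift z := by
    intro θ
    induction θ using QuotientAddGroup.induction_on with
    | H t =>
      have e1 : p1.lift ((t : ℝ) : AddCircle (T : ℝ)) = pr (γ t) := p1.lift_coe t
      have e2 : p2.lift ((t : ℝ) : AddCircle (T : ℝ)) = v t := p2.lift_coe t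
      have e6 : p4.lift ((t : ℝ) : AddCircle (T : ℝ)) = (t : UnitAddCircle) := p4.lift_coe t
      have e3 : p3.lift ((t : ℝ) : AddCircle (T : ℝ)) = lag2 G V (γ t) (v t) t - ⟪c, v t⟫ :=
        p3.lift_coe t
      obtain ⟨l, hl⟩ := (pr_eq_iff (repE (pr (γ t))) (γ t)).1 (pr_repE _)
      refine Eq.trans ?_ e3.symm
      have e7 : M ((t : ℝ) : AddCircle (T : ℝ)) = (pr (γ t), v t, (t : UnitAddCircle)) :=
        Prod.ext e1 (Prod.ext e2 e6)
      refine (congrArg (Lc (lag2 G V) c) e7).trans ?_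
      simp only [Lc, lag2]
      rw [hl, hV.per, I2a_V_eq hV (γ t) (rep (t : UnitAddCircle)) t (rep_coe _)]
  have hint3 : Integrable (p3.lift : AddCircle (T : ℝ) → ℝ) ν :=
    c3.integrable_of_hasCompactSupport (HasCompactSupport.of_compactSpace _)
  have hLi : Integrable (Lc (lag2 G V) c) μ := by
    rw [integrable_map_measure hLm.aestronglyMeasurable hMm.aemeasurable]
    have e1 : (Lc (lag2 G V) c) ∘ M = fun z => p3.lift z := by
      funext z
      exact hLM z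
    rw [e1]
    exact hint3
  refine ⟨Φ, hΦ, μ, hμ, hinv, hLi, ?_⟩
  rw [integral_map hMm.aemeasurable hLm.aestronglyMeasurable]
  simp only [hLM]
  have e2 := AddCircle.intervalIntegral_preimage (T : ℝ) 0 (p3.lift : AddCircle (T : ℝ) → ℝ)
  have e3 : ∫ a in (0 : ℝ)..0 + T, p3.lift ((a : ℝ) : AddCircle (T : ℝ)) =
      ∫ t in (0 : ℝ)..T, (lag2 G V (γ t) (v t) t - ⟪c, v t⟫) := by
    rw [zero_add]
    rfl
  rw [← e3, e2, AddCircle.volume_eq_smul_haarAddCircle, integral_smul_measure,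
    ENNReal.toReal_ofReal hT'.le, smul_eq_mul, ← mul_assoc, one_div, inv_mul_cancel₀ hT'.ne',
    one_mul]

end Pool.Agent.H33.AN

end

section

/-!
# Module L2: the critical value

Notation: `q = s • zv P`, `θ(x) = ⟪zv k₀, x⟫`. (Compare `Pool/Agent/H33/AM/P/T1.lean`.)
* `crit2_lower`: let `ξ`, `u` be from `Bar.att`, `|u| ≤ R`, `R₀ = R ‖e₀‖`. Let `0 < j`; `lattice` gives `k` with
  `dot k₀ k = 0`, `‖(j Q) • q - zv k‖ ≤ C₀`; put `w₀ = (zv k - (j Q) • q) / (j Q)`, so `⟪zv k₀, w₀⟫ = 0`. The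
  curve `x t = ξ 0 • zv m + t • (q + w₀) + (ξ t - ξ 0) • e₀` on `[0, j Q]` (`Adm.lift`) has `θ (x t) = ξ t`, ends
  in `x 0 + zv k`, its velocity is `q + w₀ + u t • e₀`. `c1 w Q E₁ 0 (j Q) ξ u = 0`. By `Trap2.hi` and
  `Crit2`: `0 ≤ κ/2 C₀²/(j Q) + δ j Q + δ + δ (R₀ j Q + C₀) + e j Q`; divide by `j Q`, `j → ∞`.
* `crit2_upper`: if `Conn2 l e t (t + j Q) x (x + zv k) r`, `dot k₀ k = 0`, `j > 0`: by `Conn2.iter` there is a
  curve over `i j` periods with the action `i r`; `θ` is closed along it, so `c1 ≥ 0` (`Bar.crit`) and by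
  `Trap2.lo` `i r ≥ (e - δ) i j Q - δ ≥ -δ` for every `i`. (`j = 0`: `r = 0`.)
* `crit2_exists`: `e = sInf {e | Crit2 l k₀ Q e}`; the action is affine in `e` (`Conn2.level`).
-/

set_option autoImplicit false

open MeasureTheory
open scoped RealInnerProductSpace

namespace Pool.Agent.H33.AN

open Pool.Agent.H33.AM

variable {n : ℕ} {Q : ℕ} {B E₁ μ : ℝ} {w w₁ w₂ : ℝ → ℝ → ℝ} {Bc : ℝ → ℝ}

private theorem L2a_cont (hw : HW Q w w₁ w₂ B) : Continuous fun z : ℝ × ℝ => w z.1 z.2 :=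
  continuous_iff_continuousAt.2 fun z => (hw.der z.1 z.2).continuousAt

private theorem L2a_c1 (hw : HW Q w w₁ w₂ B) (hQ : 0 < Q) {ξ u : ℝ → ℝ}
    (hcur : ∀ s t, s ≤ t → Cur s t ξ u) (hξ : ∀ t, ξ (t + Q) = ξ t) (hu : ∀ t, u (t + Q) = u t)
    (hE : A1 w 0 Q ξ u = E₁) (j : ℕ) : c1 w Q E₁ 0 ((j : ℝ) * Q) ξ u = 0 := by
  have hQ' : (Q : ℝ) ≠ 0 := by exact_mod_cast hQ.ne'
  have hw0 := L2a_cont hw
  have hint : ∀ a b, IntervalIntegrable (fun t => u t ^ 2 / 2 - w (ξ t) t) volume a b := by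
    have h1 : ∀ a b, a ≤ b → IntervalIntegrable (fun t => u t ^ 2 / 2 - w (ξ t) t) volume a b := by
      intro a b hab
      exact (hcur a b hab).integrable (g := fun p => p.2.1 ^ 2 / 2 - w p.1 p.2.2)
        ((by fun_prop : Continuous fun p : ℝ × ℝ × ℝ => p.2.1 ^ 2 / 2).sub
          (hw0.comp (by fun_prop : Continuous fun p : ℝ × ℝ × ℝ => (p.1, p.2.2))))
    intro a b
    rcases le_total a b with h | h
    · exact h1 a b h
    · exact (h1 b a h).symm
  have hper : Function.Periodic (fun t => u t ^ 2 / 2 - w (ξ t) t) (Q : ℝ) := by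
    intro t
    simp only [hu, hξ, hw.per₂]
  have h2 := hper.intervalIntegral_add_zsmul_eq (j : ℤ) 0 hint
  have h3 : (0 : ℝ) + (j : ℤ) • (Q : ℝ) = (j : ℝ) * Q := by simp
  rw [h3, zero_add] at h2
  unfold c1
  have h4 : A1 w 0 ((j : ℝ) * Q) ξ u = (j : ℝ) * E₁ := by
    rw [← hE]
    unfold A1
    rw [h2]
    simp
  rw [h4]
  field_simp
  ring

theorem crit2_lower (hw : HW Q w w₁ w₂ B) (hb : Bar w Q E₁ μ Bc)
    (e₀ : EuclideanSpace ℝ (Fin n)) :
    ∃ R₀ : ℝ, 0 ≤ R₀ ∧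
      ∀ (l : EuclideanSpace ℝ (Fin n) → EuclideanSpace ℝ (Fin n) → ℝ → ℝ) (k₀ m P : Fin n → ℤ)
        (s M κ δ e : ℝ), Trap2 l k₀ m P s e₀ Q w E₁ M κ δ → Crit2 l k₀ Q e →
        -(δ * (1 + R₀)) ≤ e := by
  obtain ⟨ξ, u, hcur, hξ, hu, hE⟩ := hb.att
  obtain ⟨R, hR⟩ := (hcur 0 0 le_rfl).bd
  have hR0 : 0 ≤ R := (abs_nonneg _).trans (hR 0)
  refine ⟨R * ‖e₀‖, by positivity, ?_⟩
  intro l k₀ m P s M κ δ e h hc
  set R₀ := R * ‖e₀‖ with hR₀
  have hR₀0 : 0 ≤ R₀ := by positivity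
  have hQ : (1 : ℝ) ≤ Q := by exact_mod_cast hb.Q_pos
  obtain ⟨C₀, hC0, hlat⟩ := lattice h.km
  have hδ := h.δ_nonneg
  have hκ := h.κ_pos
  have key : ∀ j : ℕ, 0 < j → 0 ≤ κ / 2 * C₀ ^ 2 + δ + δ * C₀ +
      (e + δ * (1 + R₀)) * ((j : ℝ) * Q) := by
    intro j hj
    have hj1 : (1 : ℝ) ≤ j := by exact_mod_cast hj
    set T : ℝ := (j : ℝ) * Q with hT
    have hT1 : 1 ≤ T := by nlinarith
    have hT0 : 0 < T := by linarith
    set q : EuclideanSpace ℝ (Fin n) := s • zv P with hq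
    have hkq : ⟪zv k₀, q⟫ = 0 := by
      rw [hq, inner_smul_right, inner_zv, h.kP]
      simp
    obtain ⟨k, hk0, hk⟩ := hlat (T • q) (by rw [inner_smul_right, hkq]; simp)
    set w₀ : EuclideanSpace ℝ (Fin n) := T⁻¹ • (zv k - T • q) with hw₀
    have hkw : ⟪zv k₀, w₀⟫ = 0 := by
      rw [hw₀, inner_smul_right, inner_sub_right, inner_smul_right, hkq, inner_zv, hk0]
      simp
    have hnw : ‖w₀‖ ≤ C₀ / T := by
      rw [hw₀, norm_smul, norm_inv, Real.norm_of_nonneg hT0.le, norm_sub_rev, div_eq_inv_mul]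
      exact mul_le_mul_of_nonneg_left hk (inv_nonneg.2 hT0.le)
    have hadm := Adm.lift (hcur 0 T hT0.le) (ξ 0 • zv m) (q + w₀) e₀
    set X : ℝ → EuclideanSpace ℝ (Fin n) :=
      fun τ => ξ 0 • zv m + (τ - 0) • (q + w₀) + (ξ τ - ξ 0) • e₀ with hX
    set U : ℝ → EuclideanSpace ℝ (Fin n) := fun τ => q + w₀ + u τ • e₀ with hU
    have hθX : ∀ t, ⟪zv k₀, X t⟫ = ξ t := by
      intro t
      rw [hX]
      simp only [inner_add_right, inner_smul_right, hkq, hkw, inner_zv, h.km, h.ke]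
      simp
    have hθU : ∀ t, ⟪zv k₀, U t⟫ = u t := by
      intro t
      rw [hU]
      simp only [inner_add_right, inner_smul_right, hkq, hkw, h.ke]
      simp
    have hξT : ξ T = ξ 0 := by
      have hp : Function.Periodic ξ (Q : ℝ) := hξ
      have := hp.nat_mul_eq j
      simpa [hT] using this
    have hXT : X T = ξ 0 • zv m + zv k := by
      rw [hX]
      simp only [hξT, sub_self, zero_smul, add_zero, sub_zero]
      have h20 : T • w₀ = zv k - T • q := by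
        rw [hw₀, smul_smul T T⁻¹, mul_inv_cancel₀ hT0.ne', one_smul]
      rw [smul_add T q w₀, h20]
      abel
    have hX0 : X 0 = ξ 0 • zv m := by
      rw [hX]
      simp
    have hint : IntervalIntegrable (fun t => l (X t) (U t) t) volume 0 T :=
      Adm.integrable2 hadm (g := fun p => l p.1 p.2.1 p.2.2) h.hl.cont
    have h1 : 0 ≤ (∫ t in (0 : ℝ)..T, l (X t) (U t) t) + e * T := by
      have h2 := hc j 0 (ξ 0 • zv m) k (∫ t in (0 : ℝ)..T, (l (X t) (U t) t + e)) hk0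
        ⟨X, U, by rw [zero_add]; exact hadm, hX0, by rw [zero_add]; exact hXT,
          by rw [zero_add]⟩
      rw [intervalIntegral.integral_add hint (by simp)] at h2
      simpa [mul_comm] using h2
    have h3 := h.hi 0 T X U hadm
    simp only [hθX, hθU] at h3
    have h4 : c1 w Q E₁ 0 T (fun t => ξ t) (fun t => u t) = 0 :=
      L2a_c1 hw hb.Q_pos hcur hξ hu hE j
    rw [h4] at h3
    have h5 : (∫ t in (0 : ℝ)..T, ‖U t - s • zv P - u t • e₀‖ ^ 2) ≤ C₀ ^ 2 := by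
      have h6 : ∀ t, U t - s • zv P - u t • e₀ = w₀ := by
        intro t
        rw [hU, ← hq]
        simp only
        abel
      simp only [h6, intervalIntegral.integral_const, sub_zero, smul_eq_mul]
      have h7 : ‖w₀‖ ^ 2 ≤ (C₀ / T) ^ 2 := pow_le_pow_left₀ (norm_nonneg _) hnw 2
      calc T * ‖w₀‖ ^ 2 ≤ T * (C₀ / T) ^ 2 := mul_le_mul_of_nonneg_left h7 hT0.le
        _ = C₀ ^ 2 / T := by field_simp
        _ ≤ C₀ ^ 2 := div_le_self (by positivity) hT1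
    have h8 : (∫ t in (0 : ℝ)..T, ‖U t - s • zv P‖) ≤ C₀ + R₀ * T := by
      have h9 : ∀ t ∈ Set.uIoc (0 : ℝ) T, ‖(‖U t - s • zv P‖ : ℝ)‖ ≤ C₀ / T + R₀ := by
        intro t _
        have h10 : U t - s • zv P = w₀ + u t • e₀ := by
          rw [hU, ← hq]
          simp only
          abel
        rw [norm_norm, h10]
        refine (norm_add_le _ _).trans (add_le_add hnw ?_)
        rw [norm_smul, Real.norm_eq_abs]
        exact mul_le_mul_of_nonneg_right (hR t) (norm_nonneg _)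
      have h11 := intervalIntegral.norm_integral_le_of_norm_le_const h9
      rw [sub_zero, abs_of_pos hT0] at h11
      refine (le_abs_self _).trans ((by rwa [Real.norm_eq_abs] at h11 :
        |∫ t in (0 : ℝ)..T, ‖U t - s • zv P‖| ≤ (C₀ / T + R₀) * T).trans (le_of_eq ?_))
      field_simp
    have h12 : κ / 2 * (∫ t in (0 : ℝ)..T, ‖U t - s • zv P - u t • e₀‖ ^ 2) ≤ κ / 2 * C₀ ^ 2 :=
      mul_le_mul_of_nonneg_left h5 (by positivity)
    have h13 : δ * (∫ t in (0 : ℝ)..T, ‖U t - s • zv P‖) ≤ δ * (C₀ + R₀ * T) :=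
      mul_le_mul_of_nonneg_left h8 hδ
    rw [sub_zero, mul_zero, zero_add] at h3
    nlinarith
  by_contra hcon
  have hneg : e + δ * (1 + R₀) < 0 := by linarith
  set c : ℝ := -(e + δ * (1 + R₀)) with hcc
  have hc0 : 0 < c := by linarith
  obtain ⟨j, hj⟩ := exists_nat_gt ((κ / 2 * C₀ ^ 2 + δ + δ * C₀) / c)
  have hnum : 0 ≤ κ / 2 * C₀ ^ 2 + δ + δ * C₀ := by positivity
  have hj0 : 0 < j := by
    have : (0 : ℝ) < j := lt_of_le_of_lt (div_nonneg hnum hc0.le) hj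
    exact_mod_cast this
  have h1 := key j hj0
  rw [div_lt_iff₀ hc0] at hj
  have hj1 : (0 : ℝ) < j := by exact_mod_cast hj0
  have h2 : (j : ℝ) * c ≤ (j : ℝ) * Q * c := by
    have : (j : ℝ) * 1 ≤ (j : ℝ) * Q := mul_le_mul_of_nonneg_left hQ hj1.le
    nlinarith
  have h3 : (e + δ * (1 + R₀)) * ((j : ℝ) * Q) = -(c * ((j : ℝ) * Q)) := by
    rw [hcc]
    ring
  rw [h3] at h1
  nlinarith

end Pool.Agent.H33.AN

end

section

/-!
# Module L2: the critical value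

* `crit2_exists`: `e = sInf {e | Crit2 l k₀ Q e}`; the action is affine in `e` (`Conn2.level`).
-/

set_option autoImplicit false

open MeasureTheory
open scoped RealInnerProductSpace

namespace Pool.Agent.H33.AN

open Pool.Agent.H33.AM

variable {n : ℕ} {Q : ℕ} {B E₁ μ : ℝ} {w w₁ w₂ : ℝ → ℝ → ℝ} {Bc : ℝ → ℝ}

theorem crit2_exists (hw : HW Q w w₁ w₂ B) (hb : Bar w Q E₁ μ Bc)
    (e₀ : EuclideanSpace ℝ (Fin n)) :
    ∃ R₀ : ℝ, 0 ≤ R₀ ∧
      ∀ (l : EuclideanSpace ℝ (Fin n) → EuclideanSpace ℝ (Fin n) → ℝ → ℝ) (k₀ m P : Fin n → ℤ)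
        (s M κ δ : ℝ), Trap2 l k₀ m P s e₀ Q w E₁ M κ δ →
        ∃ e, Crit2 l k₀ Q e ∧ (∀ e' < e, ¬ Crit2 l k₀ Q e') ∧ -(δ * (1 + R₀)) ≤ e ∧ e ≤ δ := by
  obtain ⟨R₀, hR₀, hlow⟩ := crit2_lower hw hb e₀
  refine ⟨R₀, hR₀, fun l k₀ m P s M κ δ h => ?_⟩
  have hup : Crit2 l k₀ Q δ := crit2_upper hw hb h le_rfl
  have hne : {e | Crit2 l k₀ Q e}.Nonempty := ⟨δ, hup⟩
  have hbdd : BddBelow {e | Crit2 l k₀ Q e} :=
    ⟨-(δ * (1 + R₀)), fun e he => hlow l k₀ m P s M κ δ e h he⟩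
  have hcrit : Crit2 l k₀ Q (sInf {e | Crit2 l k₀ Q e}) := by
    intro j t x k r hk hr
    by_contra hcon
    have hneg : r < 0 := not_le.1 hcon
    set T : ℝ := (j : ℝ) * Q with hT'
    have hT : 0 ≤ T := by positivity
    obtain ⟨e', he', hlt⟩ := exists_lt_of_csInf_lt hne
      (show sInf {e | Crit2 l k₀ Q e} < sInf {e | Crit2 l k₀ Q e} + (-r) / (T + 1) by
        have : 0 < (-r) / (T + 1) := div_pos (by linarith) (by linarith)
        linarith)
    have h1 := he' j t x k _ hk (hr.level h.hl e')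
    have hba : t + T - t = T := by ring
    rw [hba] at h1
    have h2 : (e' - sInf {e | Crit2 l k₀ Q e}) * T ≤ (-r) / (T + 1) * T :=
      mul_le_mul_of_nonneg_right (by linarith) hT
    have h3 : (-r) / (T + 1) * T < -r := by
      rw [div_mul_eq_mul_div, div_lt_iff₀ (by linarith)]
      nlinarith
    linarith
  refine ⟨sInf {e | Crit2 l k₀ Q e}, hcrit, fun e' he' hc => ?_,
    hlow l k₀ m P s M κ δ _ h hcrit, csInf_le hbdd hup⟩
  exact absurd (csInf_le hbdd hc) (not_le.2 he')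

end Pool.Agent.H33.AN

end

section

/-!
# Module L6: curves between the levels `a + i`, `a + j`; the abstract trapping lemma

(Compare `Pool/Agent/H33/AM/P/T6a.lean`, `T6b.lean`: the same proofs with moving levels and gauges.)
* `levels2`, `i ≤ j`: induction on `j - i`. `j = i`: `hsame` (translated by `zv (-(i • m))`, see
  `Conn2.add_zv`, `dot k₀ m = 1`). `j > i`: by `Conn2.cross` (twice) the curve is a concatenation of
  curves: level `a + i` → level `c + i` (cost `≥ b + ψc - ψa`), → level `a + i + 1` (cost `≥ A + ψa - ψc`),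
  → level `a + j`; the gauges telescope. `j ≤ i`: symmetric.
* `trapped_of_levels2`: choose integers `i`, `j` with `|⟪zv k₀, x⟫ - (a 0 + i)| ≤ 1`,
  `|⟪zv k₀, y⟫ - (a 0 + j)| ≤ 1` (floor). By `Rough2` connect `((a 0 + i) • zv m, 0)` to `(x + zv k, t + i' Q)`,
  follow the curve (`Conn2.add_zv`, `Conn2.shift`) to `(y + zv k, t' + i' Q)`, connect this by `Rough2` to
  `((a 0 + j) • zv m + zv k', i'' Q)`; `a (i'' Q) = a 0`, `ψ (i'' Q) = ψ 0`. So
  `r + 2 C₁ ≥ (j - i) fu - κ ≥ (j - i) η - κ` if `i ≤ j`, and `≥ (i - j) fd - κ ≥ (j - i) η - κ` if `j ≤ i`. So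
  `C = κ + 2 C₁ + 2 (|fu| + |fd|)` works for every `η ∈ [-fd, fu]`.
-/

set_option autoImplicit false

open MeasureTheory
open scoped RealInnerProductSpace

namespace Pool.Agent.H33.AN

open Pool.Agent.H33.AM

variable {n : ℕ} {l : EuclideanSpace ℝ (Fin n) → EuclideanSpace ℝ (Fin n) → ℝ → ℝ}
  {k₀ m : Fin n → ℤ} {Q : ℕ}

theorem trapped_of_levels2 (hQ : 0 < Q) (hl : HL2 Q l) (hkm : dot k₀ m = 1) {e κ C₁ fu fd : ℝ}
    {a ψ : ℝ → ℝ} (ha : ∀ t, a (t + Q) = a t) (hψ : ∀ t, ψ (t + Q) = ψ t)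
    (hr : Rough2 l k₀ Q e C₁)
    (h : ∀ (i j : ℤ) (t t' : ℝ) (x y : EuclideanSpace ℝ (Fin n)) (r : ℝ), ⟪zv k₀, x⟫ = a t + i →
      ⟪zv k₀, y⟫ = a t' + j → Conn2 l e t t' x y r →
      (i ≤ j → ((j : ℝ) - i) * fu + ψ t' - ψ t - κ ≤ r) ∧
        (j ≤ i → ((i : ℝ) - j) * fd + ψ t' - ψ t - κ ≤ r)) :
    ∃ C : ℝ, ∀ η ∈ Set.Icc (-fd) fu, ∀ (t t' : ℝ) (x y : EuclideanSpace ℝ (Fin n)) (r : ℝ),
      Conn2 l e t t' x y r → η * (⟪zv k₀, y⟫ - ⟪zv k₀, x⟫) - C ≤ r := by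
  have hpa : Function.Periodic a (Q : ℝ) := ha
  have hpψ : Function.Periodic ψ (Q : ℝ) := hψ
  refine ⟨κ + 2 * C₁ + |fu| + |fd|, ?_⟩
  intro η hη t t' x y r hc
  have hlev : ∀ t : ℝ, ⟪zv k₀, t • zv m⟫ = t := by
    intro t
    rw [inner_smul_right, inner_zv, hkm]
    simp
  obtain ⟨i, hi⟩ : ∃ i : ℤ, i = ⌊⟪zv k₀, x⟫ - a 0⌋ := ⟨_, rfl⟩
  obtain ⟨j, hj⟩ : ∃ j : ℤ, j = ⌊⟪zv k₀, y⟫ - a 0⌋ := ⟨_, rfl⟩
  have hi1 : (i : ℝ) ≤ ⟪zv k₀, x⟫ - a 0 := by rw [hi]; exact Int.floor_le _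
  have hi2 : ⟪zv k₀, x⟫ - a 0 < (i : ℝ) + 1 := by rw [hi]; exact Int.lt_floor_add_one _
  have hj1 : (j : ℝ) ≤ ⟪zv k₀, y⟫ - a 0 := by rw [hj]; exact Int.floor_le _
  have hj2 : ⟪zv k₀, y⟫ - a 0 < (j : ℝ) + 1 := by rw [hj]; exact Int.lt_floor_add_one _
  -- the curve from the level `a 0 + i` to `x`
  obtain ⟨b₁, i₁, k, r₁, hb₁, -, hk, hc₁, hr₁⟩ := hr 0 t ((a 0 + i) • zv m) x (by
    rw [hlev, abs_le]
    constructor <;> linarith)
  have hyk : ⟪zv k₀, y + zv k⟫ = ⟪zv k₀, y⟫ := by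
    rw [inner_add_right, inner_zv, hk]
    simp
  -- the given curve, translated
  have hc' : Conn2 l e (t + i₁ * Q) (t' + i₁ * Q) (x + zv k) (y + zv k) r :=
    (hc.add_zv hl k).shift hl i₁
  -- the curve from `y` to the level `a 0 + j`
  obtain ⟨b₂, i₂, k', r₂, hb₂, -, hk', hc₂, hr₂⟩ := hr (t' + i₁ * Q) 0 (y + zv k)
    ((a 0 + j) • zv m) (by
      rw [hlev, hyk, abs_le]
      constructor <;> linarith)
  rw [hb₁] at hc₁
  have hconn := (hc₁.trans hl hc').trans hl hc₂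
  have hab₂ : a b₂ = a 0 := by
    rw [hb₂, zero_add]
    exact hpa.int_mul_eq i₂
  have hψb₂ : ψ b₂ = ψ 0 := by
    rw [hb₂, zero_add]
    exact hpψ.int_mul_eq i₂
  have hx' : ⟪zv k₀, (a 0 + i) • zv m⟫ = a 0 + i := hlev _
  have hy' : ⟪zv k₀, (a 0 + j) • zv m + zv k'⟫ = a b₂ + j := by
    rw [inner_add_right, hlev, inner_zv, hk', hab₂]
    simp
  obtain ⟨h1, h2⟩ := h i j _ _ _ _ _ hx' hy' hconn
  rw [hψb₂] at h1 h2
  have hηabs : |η| ≤ |fu| + |fd| := by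
    rw [abs_le]
    constructor
    · linarith [hη.1, le_abs_self fd, abs_nonneg fu]
    · linarith [hη.2, le_abs_self fu, abs_nonneg fd]
  have hdiff : η * (⟪zv k₀, y⟫ - ⟪zv k₀, x⟫) ≤ η * ((j : ℝ) - i) + |η| := by
    have h3 : η * ((⟪zv k₀, y⟫ - ⟪zv k₀, x⟫) - ((j : ℝ) - i)) ≤ |η| := by
      refine (le_abs_self _).trans ?_
      rw [abs_mul]
      have h4 : |(⟪zv k₀, y⟫ - ⟪zv k₀, x⟫) - ((j : ℝ) - i)| ≤ 1 := by
        rw [abs_le]
        constructor <;> linarith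
      exact mul_le_of_le_one_right (abs_nonneg _) h4
    linarith
  have hkey : η * ((j : ℝ) - i) ≤ r + 2 * C₁ + κ := by
    rcases le_total i j with hij | hij
    · have h3 := h1 hij
      have h4 : (i : ℝ) ≤ j := by exact_mod_cast hij
      have h5 : η * ((j : ℝ) - i) ≤ fu * ((j : ℝ) - i) :=
        mul_le_mul_of_nonneg_right hη.2 (by linarith)
      linarith
    · have h3 := h2 hij
      have h4 : (j : ℝ) ≤ i := by exact_mod_cast hij
      have h5 : (-η) * ((i : ℝ) - j) ≤ fd * ((i : ℝ) - j) :=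
        mul_le_mul_of_nonneg_right (by linarith [hη.1]) (by linarith)
      linarith
  linarith

end Pool.Agent.H33.AN

end

section

/-!
# Module L4: curves with both ends in the same moving level

(Compare `Pool/Agent/H33/AM/P/T4.lean`.)
* `same2`: close the curve up (`Closes2` from `(y, t')` to `(x, t)`, `Conn2.trans`) and use `Crit2`.
* `add_int2`: translate by `zv (j • m)` (`Conn2.add_zv`, `dot k₀ m = 1`).
* `rest2`: `A` = infimum of `r + ψc t - ψa t'` over all the curves of cost `r` from a point of level `c t` at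
  time `t` to a point of level `a t' + 1` at time `t'`; `B` = infimum of `r + ψa t - ψc t'` over all the curves
  of cost `r` from a point of level `a t + 1` at time `t` to a point of level `c t'` at time `t'`. Both families
  are not empty by `Rough2` (`t = t' = 0`; the point `τ • zv m` has the level `τ`). If `x → y` costs `r` (up,
  times `t → t'`) and `x' → y'` costs `r'` (down, times `s → s'`), connect `(y, t') → (x' + zv k, s + i Q)` by
  `Closes2` (`add_int2` for the level `a + 1`), translate the down curve (`Conn2.add_zv`, `Conn2.shift`) and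
  connect `(y' + zv k, s' + i Q) → (x + zv k', t + i' Q)` by `Closes2`: the closed curve costs `≥ 0` by
  `Crit2`, so `(r + ψc t - ψa t') + (r' + ψa s - ψc s') ≥ -2 κ`.
-/

set_option autoImplicit false

open MeasureTheory
open scoped RealInnerProductSpace

namespace Pool.Agent.H33.AN

open Pool.Agent.H33.AM

variable {n : ℕ} {l : EuclideanSpace ℝ (Fin n) → EuclideanSpace ℝ (Fin n) → ℝ → ℝ}
  {k₀ m : Fin n → ℤ} {Q : ℕ}

theorem Closes2.same2 (hQ : 0 < Q) (hl : HL2 Q l) {e κ : ℝ} {lvl ψ : ℝ → ℝ}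
    (hcrit : Crit2 l k₀ Q e) (h : Closes2 l k₀ Q e κ lvl ψ) {t t' : ℝ}
    {x y : EuclideanSpace ℝ (Fin n)} {r : ℝ} (hx : ⟪zv k₀, x⟫ = lvl t) (hy : ⟪zv k₀, y⟫ = lvl t')
    (hxy : Conn2 l e t t' x y r) : ψ t' - ψ t - κ ≤ r := by
  obtain ⟨b, i, k, r', hb, hle, hk, hc, hr'⟩ := h t' t y x hy hx
  have h1 := hxy.trans hl hc
  have h2 := hxy.le
  have hQ' : (0 : ℝ) < Q := by exact_mod_cast hQ
  have hi : 0 ≤ i := by
    by_contra hneg
    have h3 : (i : ℝ) ≤ -1 := by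
      have : i ≤ -1 := by omega
      exact_mod_cast this
    have h4 : (i : ℝ) * Q ≤ -1 * Q := mul_le_mul_of_nonneg_right h3 hQ'.le
    rw [hb] at hle
    linarith
  obtain ⟨j, rfl⟩ := Int.eq_ofNat_of_zero_le hi
  rw [Int.cast_natCast] at hb
  rw [hb] at h1
  have h5 := hcrit j t x k _ hk h1
  linarith

theorem Closes2.add_int2 (hl : HL2 Q l) (hkm : dot k₀ m = 1) {e κ : ℝ} {lvl ψ : ℝ → ℝ}
    (h : Closes2 l k₀ Q e κ lvl ψ) (j : ℤ) : Closes2 l k₀ Q e κ (fun t => lvl t + j) ψ := by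
  intro t t' x y hx hy
  have hlev : ⟪zv k₀, zv (j • m)⟫ = (j : ℝ) := by
    rw [inner_zv, dot_zsmul, hkm, mul_one]
  have hx' : ⟪zv k₀, x⟫ = lvl t + j := hx
  have hy' : ⟪zv k₀, y⟫ = lvl t' + j := hy
  obtain ⟨b, i, k, r, hb, hle, hk, hc, hr⟩ := h t t' (x - zv (j • m)) (y - zv (j • m))
    (by rw [inner_sub_right, hx', hlev]; ring) (by rw [inner_sub_right, hy', hlev]; ring)
  refine ⟨b, i, k, r, hb, hle, hk, ?_, hr⟩
  have h1 := hc.add_zv hl (j • m)
  rw [sub_add_cancel, show y - zv (j • m) + zv k + zv (j • m) = y + zv k by abel] at h1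
  exact h1

end Pool.Agent.H33.AN

end

section

/-!
# Module L4: curves with both ends in the same moving level

(Compare `Pool/Agent/H33/AM/P/T4.lean`.)
* `same2`: close the curve up (`Closes2` from `(y, t')` to `(x, t)`, `Conn2.trans`) and use `Crit2`.
* `add_int2`: translate by `zv (j • m)` (`Conn2.add_zv`, `dot k₀ m = 1`).
* `rest2`: `A` = infimum of `r + ψc t - ψa t'` over all the curves of cost `r` from a point of level `c t` at
  time `t` to a point of level `a t' + 1` at time `t'`; `B` = infimum of `r + ψa t - ψc t'` over all the curves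
  of cost `r` from a point of level `a t + 1` at time `t` to a point of level `c t'` at time `t'`. Both families
  are not empty by `Rough2` (`t = t' = 0`; the point `τ • zv m` has the level `τ`). If `x → y` costs `r` (up,
  times `t → t'`) and `x' → y'` costs `r'` (down, times `s → s'`), connect `(y, t') → (x' + zv k, s + i Q)` by
  `Closes2` (`add_int2` for the level `a + 1`), translate the down curve (`Conn2.add_zv`, `Conn2.shift`) and
  connect `(y' + zv k, s' + i Q) → (x + zv k', t + i' Q)` by `Closes2`: the closed curve costs `≥ 0` by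
  `Crit2`, so `(r + ψc t - ψa t') + (r' + ψa s - ψc s') ≥ -2 κ`.
-/

set_option autoImplicit false

open MeasureTheory
open scoped RealInnerProductSpace

namespace Pool.Agent.H33.AN

open Pool.Agent.H33.AM

variable {n : ℕ} {l : EuclideanSpace ℝ (Fin n) → EuclideanSpace ℝ (Fin n) → ℝ → ℝ}
  {k₀ m : Fin n → ℤ} {Q : ℕ}

private theorem L4b_per {f : ℝ → ℝ} {Q : ℕ} (h : ∀ t, f (t + Q) = f t) (i : ℤ) (t : ℝ) :
    f (t + i * Q) = f t :=
  (show Function.Periodic f (Q : ℝ) from h).int_mul i t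

theorem rest2 (hQ : 0 < Q) (hl : HL2 Q l) (hkm : dot k₀ m = 1) {e κ C₁ : ℝ} {a c ψa ψc : ℝ → ℝ}
    (hcrit : Crit2 l k₀ Q e) (hr : Rough2 l k₀ Q e C₁) (ha : Closes2 l k₀ Q e κ a ψa)
    (hc : Closes2 l k₀ Q e κ c ψc) (hac : ∀ t, a t ≤ c t) (hca : ∀ t, c t ≤ a t + 1)
    (ha' : ∀ t, a (t + Q) = a t) (hc' : ∀ t, c (t + Q) = c t) (hψa : ∀ t, ψa (t + Q) = ψa t)
    (hψc : ∀ t, ψc (t + Q) = ψc t) :
    ∃ A B : ℝ, -(2 * κ) ≤ A + B ∧
      (∀ (t t' : ℝ) (x y : EuclideanSpace ℝ (Fin n)) (r : ℝ), ⟪zv k₀, x⟫ = c t →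
        ⟪zv k₀, y⟫ = a t' + 1 → Conn2 l e t t' x y r → A + ψa t' - ψc t ≤ r) ∧
      ∀ (t t' : ℝ) (x y : EuclideanSpace ℝ (Fin n)) (r : ℝ), ⟪zv k₀, x⟫ = a t + 1 →
        ⟪zv k₀, y⟫ = c t' → Conn2 l e t t' x y r → B + ψc t' - ψa t ≤ r := by
  have ha1 : Closes2 l k₀ Q e κ (fun t => a t + 1) ψa := by
    have := ha.add_int2 hl hkm 1
    simpa using this
  have hlev0 : ∀ t : ℝ, ⟪zv k₀, t • zv m⟫ = t := by
    intro t
    rw [inner_smul_right, inner_zv, hkm]; simp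
  have hlevk : ∀ (z : EuclideanSpace ℝ (Fin n)) (k : Fin n → ℤ), dot k₀ k = 0 →
      ⟪zv k₀, z + zv k⟫ = ⟪zv k₀, z⟫ := by
    intro z k hk
    rw [inner_add_right, inner_zv, hk]; simp
  -- the two families
  set SA : Set ℝ := {q | ∃ (t t' : ℝ) (x y : EuclideanSpace ℝ (Fin n)) (r : ℝ),
    ⟪zv k₀, x⟫ = c t ∧ ⟪zv k₀, y⟫ = a t' + 1 ∧ Conn2 l e t t' x y r ∧
      q = r + ψc t - ψa t'} with hSA
  set SB : Set ℝ := {q | ∃ (t t' : ℝ) (x y : EuclideanSpace ℝ (Fin n)) (r : ℝ),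
    ⟪zv k₀, x⟫ = a t + 1 ∧ ⟪zv k₀, y⟫ = c t' ∧ Conn2 l e t t' x y r ∧
      q = r + ψa t - ψc t'} with hSB
  have hneA : SA.Nonempty := by
    obtain ⟨b, i, k, r, hb, _, hk, hcn, _⟩ := hr 0 0 (c 0 • zv m) ((a 0 + 1) • zv m) (by
      have h1 := hac 0
      have h2 := hca 0
      rw [hlev0, hlev0, abs_le]; constructor <;> linarith)
    refine ⟨_, 0, b, _, _, r, hlev0 _, ?_, hcn, rfl⟩
    rw [hlevk _ _ hk, hlev0, hb, L4b_per ha' i 0]
  have hneB : SB.Nonempty := by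
    obtain ⟨b, i, k, r, hb, _, hk, hcn, _⟩ := hr 0 0 ((a 0 + 1) • zv m) (c 0 • zv m) (by
      have h1 := hac 0
      have h2 := hca 0
      rw [hlev0, hlev0, abs_le]; constructor <;> linarith)
    refine ⟨_, 0, b, _, _, r, hlev0 _, ?_, hcn, rfl⟩
    rw [hlevk _ _ hk, hlev0, hb, L4b_per hc' i 0]
  have key : ∀ q ∈ SA, ∀ q' ∈ SB, -(2 * κ) ≤ q + q' := by
    rintro q ⟨t, t', x, y, r, hx, hy, hxy, rfl⟩ q' ⟨s, s', x', y', r', hx', hy', hxy', rfl⟩
    obtain ⟨b₁, i, k, r₁, hb₁, hle₁, hk, h1, hr1⟩ := ha1 t' s y x' hy hx'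
    obtain ⟨b₂, i₂, k', r₂, hb₂, hle₂, hk', h2, hr2⟩ := hc (s' + i * Q) t (y' + zv k) x
      (by rw [hlevk _ _ hk, hy', L4b_per hc' i s']) hx
    rw [L4b_per hψc i s'] at hr2
    have h3 := (hxy'.add_zv hl k).shift hl i
    rw [hb₁] at h1
    have h4 := ((hxy.trans hl h1).trans hl h3).trans hl h2
    have h5 := h4.le
    rw [hb₂] at h4 h5
    have hQ' : (0 : ℝ) < Q := by exact_mod_cast hQ
    have h6 : (0 : ℝ) ≤ (i₂ : ℝ) := by
      by_contra hneg
      push Not at hneg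
      have := mul_neg_of_neg_of_pos hneg hQ'
      linarith
    obtain ⟨j, hj⟩ := Int.eq_ofNat_of_zero_le (show (0 : ℤ) ≤ i₂ by exact_mod_cast h6)
    have h7 : (i₂ : ℝ) = (j : ℝ) := by rw [hj]; simp
    rw [h7] at h4
    have h8 := hcrit j t x k' _ hk' h4
    linarith
  obtain ⟨ra, hra⟩ := hneA
  obtain ⟨rb, hrb⟩ := hneB
  have hbA : BddBelow SA := ⟨-(2 * κ) - rb, fun r hr => by linarith [key r hr rb hrb]⟩
  have hbB : BddBelow SB := ⟨-(2 * κ) - ra, fun r hr => by linarith [key ra hra r hr]⟩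
  refine ⟨sInf SA, sInf SB, ?_, ?_, ?_⟩
  · have h1 : ∀ r' ∈ SB, -(2 * κ) - r' ≤ sInf SA := fun r' hr' =>
      le_csInf ⟨ra, hra⟩ fun r hr => by linarith [key r hr r' hr']
    have h2 : -(2 * κ) - sInf SA ≤ sInf SB :=
      le_csInf ⟨rb, hrb⟩ fun r' hr' => by linarith [h1 r' hr']
    linarith
  · intro t t' x y r hx hy hxy
    have := csInf_le hbA ⟨t, t', x, y, r, hx, hy, hxy, rfl⟩
    linarith
  · intro t t' x y r hx hy hxy
    have := csInf_le hbB ⟨t, t', x, y, r, hx, hy, hxy, rfl⟩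
    linarith

end Pool.Agent.H33.AN

end

section

/-!
# Module K2: levels

* `per_ext`: periodic extension, `ξ' t = ξ (toIcoMod _ 0 t)`, same for `u`; the exceptional set is the
  union of the translates of `s ∪ {0}`.
* `lev_of_closed`: `ωa = A1 w 0 Q ξ u - E₁ ≥ 0` (`Bar.crit` with `j = 1`),
  `ψ t = c1 w Q E₁ 0 t ξ u - ωa t/Q` for `t ≥ 0` (in general the interval integral from `0` to `t`, also for
  `t < 0`); periodic; continuous, hence bounded.
* `levels_exist`: `F x = Dm w 0 Q x x`: continuous (`Dm_lip`), 1-periodic (`Dm_per`), `≥ E₁` (`le_Dm`,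
  `Bar.crit`), `= E₁` somewhere (`Bar.att`), `≥ E₁ + μ` at `Bc 0` (`Bar.mark`). Let `ω₁ = ω/4`,
  `xa = sSup {x ≤ Bc 0 | F x ≤ E₁ + ω₁}`, `xc = sInf {x ≥ Bc 0 | F x ≤ E₁ + ω₁}`:
  `Bc 0 - 1 ≤ xa < Bc 0 < xc ≤ xa + 1` (`F (xa + 1) ≤ E₁ + ω₁`, `xa + 1 ≥ Bc 0`), `F ≥ E₁ + ω₁` on
  `[xa, xc]` (continuity). Closed curves `a`, `c` through `(xa, 0)`, `(xc, 0)` with action `< E₁ + 2 ω₁`
  (`exists_near`, `per_ext`). Replace `c` by `min c (a + 1)` and `a` by `max a (c - 1)` (`Cur.minmax` on `[0, Q]`: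
  the sum of the two actions is `< 2 E₁ + 4 ω₁` and both are `≥ E₁`, so both are `≤ E₁ + ω`; note
  `max a (c - 1) = max (a + 1) c - 1`). Closed curves of action `< E₁ + μ` do not meet the translates of
  `Bc` (`Bar.mark`), so `a < Bc < c` everywhere.
-/

set_option autoImplicit false

open MeasureTheory
open scoped RealInnerProductSpace

namespace Pool.Agent.H33.AN

open Pool.Agent.H33.AM

variable {B : ℝ} {w w₁ w₂ : ℝ → ℝ → ℝ} {Q : ℕ} {E₁ μ : ℝ} {Bc : ℝ → ℝ}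

private theorem K2c_mono {ω R R' : ℝ} {a ua ψ : ℝ → ℝ} (h : Lev w Q E₁ ω R a ua ψ)
    (hR : R ≤ R') : Lev w Q E₁ ω R' a ua ψ :=
  { cur := h.cur
    contA := h.contA
    per := h.per
    bd := fun t => (h.bd t).trans hR
    bdu := fun t => (h.bdu t).trans hR
    ψper := h.ψper
    ψbd := fun t => (h.ψbd t).trans hR
    cost := h.cost }

/-- Closed curves of small action do not meet the barrier. -/
private theorem K2c_avoid (hw : HW Q w w₁ w₂ B) (hb : Bar w Q E₁ μ Bc) {ω : ℝ} (hωμ : ω < μ)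
    {ξ u : ℝ → ℝ} (hc : ∀ s t, s ≤ t → Cur s t ξ u) (hper : ∀ t, ξ (t + Q) = ξ t)
    (hup : ∀ t, u (t + Q) = u t) (hact : A1 w 0 Q ξ u ≤ E₁ + ω) (t : ℝ) (k : ℤ) :
    ξ t ≠ Bc t + k := by
  intro h
  have hQ : (0 : ℝ) < Q := by exact_mod_cast hb.Q_pos
  have h1 := hb.mark 1 t ξ u one_pos (by
    have := hc t (t + (1 : ℕ) * Q) (by push_cast; linarith)
    exact this) (by
      have := hper t
      push_cast
      rw [one_mul]
      exact this) ⟨t, ⟨le_rfl, by push_cast; linarith⟩, k, h⟩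
  have h2 : Function.Periodic (fun t => u t ^ 2 / 2 - w (ξ t) t) (Q : ℝ) := by
    intro s
    dsimp only
    rw [hup, hper, hw.per₂]
  have h3 := h2.intervalIntegral_add_eq t 0
  unfold A1 at h1 hact
  push_cast at h1
  rw [one_mul, one_mul, h3, zero_add] at h1
  linarith

/-- Sign of a continuous function without zeros. -/
private theorem K2c_sign {g : ℝ → ℝ} (hg : Continuous g) (h0 : ∀ t, g t ≠ 0) (h1 : g 0 < 0)
    (t : ℝ) : g t < 0 := by
  by_contra h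
  push Not at h
  have h2 := intermediate_value_uIcc (a := 0) (b := t) hg.continuousOn
  obtain ⟨s, _, hs⟩ := h2 (show (0 : ℝ) ∈ Set.uIcc (g 0) (g t) from
    Set.mem_uIcc.2 (Or.inl ⟨h1.le, h⟩))
  exact h0 s hs

theorem levels_exist (hw : HW Q w w₁ w₂ B) (hb : Bar w Q E₁ μ Bc) {ω : ℝ} (hω : 0 < ω)
    (hωμ : ω < μ) :
    ∃ (R ω' : ℝ) (a ua ψa c uc ψc : ℝ → ℝ), 0 < ω' ∧ Lev w Q E₁ ω R a ua ψa ∧
      Lev w Q E₁ ω R c uc ψc ∧ (∀ t, a t < Bc t) ∧ (∀ t, Bc t < c t) ∧ (∀ t, c t ≤ a t + 1) ∧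
      ∀ x ∈ Set.Icc (a 0) (c 0), E₁ + ω' ≤ Dm w 0 Q x x := by
  have hQn := hb.Q_pos
  have hQ : (0 : ℝ) < Q := by exact_mod_cast hQn
  have hμ := hb.μ_pos
  -- the function `F`
  obtain ⟨F, hF⟩ : ∃ F : ℝ → ℝ, F = fun x => Dm w 0 Q x x := ⟨_, rfl⟩
  have hFx : ∀ x, F x = Dm w 0 Q x x := fun x => by rw [hF]
  obtain ⟨C, hC0, hC⟩ := Dm_lip hw hQ
  have hFc : Continuous F := by
    rw [continuous_iff_continuousAt]
    intro x
    have h1 : ∀ y, |F y - F x| ≤ C * (1 + |y - x| + |y - x|) * (|y - x| + |y - x|) := by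
      intro y
      have h2 := hC 0 y y x x
      rw [zero_add, sub_self, abs_zero, add_zero] at h2
      rw [hFx, hFx]
      exact h2
    rw [ContinuousAt, tendsto_iff_dist_tendsto_zero]
    have h2 : Filter.Tendsto (fun y => C * (1 + |y - x| + |y - x|) * (|y - x| + |y - x|)) (nhds x)
        (nhds 0) := by
      have h3 : Continuous fun y => C * (1 + |y - x| + |y - x|) * (|y - x| + |y - x|) := by
        fun_prop
      have h4 := h3.tendsto x
      simpa using h4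
    refine squeeze_zero (fun y => dist_nonneg) (fun y => ?_) h2
    rw [Real.dist_eq]
    exact h1 y
  have hFper : ∀ (x : ℝ) (k : ℤ), F (x + k) = F x := by
    intro x k
    have h1 := Dm_per hw 0 Q x x 0 k
    simp only [Int.cast_zero, zero_mul, add_zero] at h1
    rw [hFx, hFx, h1]
  have hclosed : ∀ ξ u : ℝ → ℝ, Cur 0 Q ξ u → ξ Q = ξ 0 → E₁ ≤ A1 w 0 Q ξ u := by
    intro ξ u h1 h2
    have h3 := hb.crit 1 0 ξ u one_pos (by simpa using h1) (by simpa using h2)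
    simpa using h3
  have hFge : ∀ x, E₁ ≤ F x := by
    intro x
    rw [hFx]
    exact le_Dm hw hQ fun ξ u h1 h2 h3 => hclosed ξ u h1 (by rw [h2, h3])
  obtain ⟨x₀, hx₀⟩ : ∃ x₀, F x₀ ≤ E₁ := by
    obtain ⟨ξ, u, h1, h2, h3, h4⟩ := hb.att
    refine ⟨ξ 0, ?_⟩
    have h5 := Dm_le hw (h1 0 Q hQ.le)
    have h6 : ξ Q = ξ 0 := by simpa using h2 0
    rw [h6, h4] at h5
    rw [hFx]
    exact h5
  have hFB : E₁ + μ ≤ F (Bc 0) := by
    rw [hFx]
    refine le_Dm hw hQ fun ξ u h1 h2 h3 => ?_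
    have h4 := hb.mark 1 0 ξ u one_pos (by simpa using h1) (by simp [h2, h3])
      ⟨0, ⟨le_rfl, by simpa using hQ.le⟩, 0, by simp [h2]⟩
    simpa using h4
  -- the end points
  obtain ⟨ω₁, hω₁⟩ : ∃ ω₁, ω₁ = ω / 4 := ⟨_, rfl⟩
  have hω₁0 : 0 < ω₁ := by rw [hω₁]; linarith
  have hω₁μ : ω₁ < μ := by rw [hω₁]; linarith
  have hclT : IsClosed (F ⁻¹' Set.Iic (E₁ + ω₁)) := isClosed_Iic.preimage hFc
  -- a translate of the minimum in a given unit interval
  have htrans : ∀ y : ℝ, ∃ x ∈ Set.Icc y (y + 1), F x ≤ E₁ + ω₁ := by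
    intro y
    refine ⟨x₀ + ⌈y - x₀⌉, ⟨?_, ?_⟩, ?_⟩
    · linarith [Int.le_ceil (y - x₀)]
    · linarith [Int.ceil_lt_add_one (y - x₀)]
    · rw [hFper]
      linarith
  obtain ⟨xa, hxa, hxmax⟩ := ((isCompact_Icc (a := Bc 0 - 1) (b := Bc 0)).inter_right
    hclT).exists_isGreatest (by
      obtain ⟨x, hx, hx'⟩ := htrans (Bc 0 - 1)
      exact ⟨x, ⟨hx.1, by linarith [hx.2]⟩, hx'⟩)
  obtain ⟨xc, hxc, hxmin⟩ := ((isCompact_Icc (a := Bc 0) (b := Bc 0 + 1)).inter_right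
    hclT).exists_isLeast (by
      obtain ⟨x, hx, hx'⟩ := htrans (Bc 0)
      exact ⟨x, hx, hx'⟩)
  have hFxa : F xa ≤ E₁ + ω₁ := hxa.2
  have hFxc : F xc ≤ E₁ + ω₁ := hxc.2
  have hxaB : xa < Bc 0 := by
    refine lt_of_le_of_ne hxa.1.2 fun h => ?_
    rw [h] at hFxa
    linarith
  have hxcB : Bc 0 < xc := by
    refine lt_of_le_of_ne hxc.1.1 fun h => ?_
    rw [← h] at hFxc
    linarith
  have hxac : xc ≤ xa + 1 := by
    refine hxmin ⟨⟨by linarith [hxa.1.1], by linarith⟩, ?_⟩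
    have h1 := hFper xa 1
    push_cast at h1
    change F (xa + 1) ≤ E₁ + ω₁
    rw [h1]
    exact hFxa
  have hopen : ∀ x ∈ Set.Ioo xa xc, E₁ + ω₁ ≤ F x := by
    intro x hx
    by_contra h
    push Not at h
    rcases le_total x (Bc 0) with h1 | h1
    · have := hxmax (a := x) ⟨⟨by linarith [hxa.1.1, hx.1], h1⟩, h.le⟩
      linarith [hx.1]
    · have := hxmin (a := x) ⟨⟨h1, by linarith [hxc.1.2, hx.2]⟩, h.le⟩
      linarith [hx.2]
  have hFmid : ∀ x ∈ Set.Icc xa xc, E₁ + ω₁ ≤ F x := by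
    intro x hx
    have hlt : xa < xc := by linarith
    have h1 : x ∈ closure (Set.Ioo xa xc) := by
      rw [closure_Ioo hlt.ne]
      exact hx
    have h2 : closure (Set.Ioo xa xc) ⊆ F ⁻¹' Set.Ici (E₁ + ω₁) :=
      closure_minimal hopen (isClosed_Ici.preimage hFc)
    exact h2 h1
  -- the curves
  obtain ⟨a₁, u₁, ha₁, ha₁0, ha₁Q, hact₁⟩ := exists_near hw hQ xa xa hω₁0
  obtain ⟨c₁, v₁, hc₁, hc₁0, hc₁Q, hact₂⟩ := exists_near hw hQ xc xc hω₁0
  rw [← hFx] at hact₁ hact₂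
  have hash := ha₁.add_lin 1 0
  have hshact : A1 w 0 Q (fun t => a₁ t + (1 + 0 * t)) (fun t => u₁ t + 0) = A1 w 0 Q a₁ u₁ := by
    unfold A1
    congr 1
    funext t
    dsimp only
    rw [add_zero, zero_mul, add_zero, hw.per₁]
  obtain ⟨m₁, m₂, hm₁, hm₂, hsum⟩ := Cur.minmax hw hc₁ hash
  rw [hshact] at hsum
  have hm₂' := hm₂.add_lin (-1) 0
  have hm₂act : A1 w 0 Q (fun t => max (c₁ t) (a₁ t + (1 + 0 * t)) + (-1 + 0 * t))
      (fun t => m₂ t + 0) = A1 w 0 Q (fun t => max (c₁ t) (a₁ t + (1 + 0 * t))) m₂ := by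
    unfold A1
    congr 1
    funext t
    have h1 := hw.per₁ (max (c₁ t) (a₁ t + (1 + 0 * t)) + (-1 + 0 * t)) t
    have h2 : max (c₁ t) (a₁ t + (1 + 0 * t)) + (-1 + 0 * t) + 1 =
        max (c₁ t) (a₁ t + (1 + 0 * t)) := by ring
    rw [h2] at h1
    dsimp only
    rw [add_zero, h1]
  have hmin0 : min (c₁ Q) (a₁ Q + (1 + 0 * (Q : ℝ))) = min (c₁ 0) (a₁ 0 + (1 + 0 * 0)) := by
    rw [hc₁0, hc₁Q, ha₁0, ha₁Q, zero_mul, zero_mul]
  have hmax0 : max (c₁ Q) (a₁ Q + (1 + 0 * (Q : ℝ))) = max (c₁ 0) (a₁ 0 + (1 + 0 * 0)) := by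
    rw [hc₁0, hc₁Q, ha₁0, ha₁Q, zero_mul, zero_mul]
  have g₁ := hclosed _ _ hm₁ hmin0
  have g₂ := hclosed _ _ hm₂ hmax0
  obtain ⟨c, uc, hc1, hc2, hc3, hc4, hc5⟩ := per_ext hQn hm₁ hmin0
  obtain ⟨a, ua, ha1, ha2, ha3, ha4, ha5⟩ := per_ext hQn hm₂' (by
    rw [hmax0, zero_mul, zero_mul])
  have hint : ∀ x u y v : ℝ → ℝ, (∀ t ∈ Set.Ico (0 : ℝ) Q, x t = y t ∧ u t = v t) →
      A1 w 0 Q x u = A1 w 0 Q y v := by
    intro x u y v h
    unfold A1
    rw [intervalIntegral.integral_of_le hQ.le, intervalIntegral.integral_of_le hQ.le,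
      ← integral_Ico_eq_integral_Ioc, ← integral_Ico_eq_integral_Ioc]
    refine setIntegral_congr_fun measurableSet_Ico fun t ht => ?_
    rw [(h t ht).1, (h t ht).2]
  have hcact : A1 w 0 Q c uc ≤ E₁ + ω := by
    rw [hint _ _ _ _ hc5]
    linarith
  have haact : A1 w 0 Q a ua ≤ E₁ + ω := by
    rw [hint _ _ _ _ ha5, hm₂act]
    linarith
  obtain ⟨Ra, ψa, hLa⟩ := lev_of_closed hw hb ha1 ha2 ha3 ha4 haact
  obtain ⟨Rc, ψc, hLc⟩ := lev_of_closed hw hb hc1 hc2 hc3 hc4 hcact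
  have h0mem : (0 : ℝ) ∈ Set.Ico (0 : ℝ) Q := ⟨le_rfl, hQ⟩
  have ha0 : a 0 = xa := by
    rw [(ha5 0 h0mem).1, hc₁0, ha₁0, zero_mul, add_zero, add_zero, max_eq_right (by linarith)]
    ring
  have hc0 : c 0 = xc := by
    rw [(hc5 0 h0mem).1, hc₁0, ha₁0, zero_mul, add_zero, min_eq_left (by linarith)]
  refine ⟨max Ra Rc, ω₁, a, ua, ψa, c, uc, ψc, hω₁0, K2c_mono hLa (le_max_left _ _),
    K2c_mono hLc (le_max_right _ _), ?_, ?_, ?_, ?_⟩
  · intro t
    have h1 := K2c_sign (g := fun t => a t - Bc t) (ha2.sub hb.cont) (fun t h => by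
      have h2 := K2c_avoid hw hb hωμ ha1 ha3 ha4 haact t 0
      apply h2
      push_cast
      have h3 : a t - Bc t = 0 := h
      linarith) (by
        rw [ha0]
        linarith) t
    have h2 : a t - Bc t < 0 := h1
    linarith
  · intro t
    have h1 := K2c_sign (g := fun t => Bc t - c t) (hb.cont.sub hc2) (fun t h => by
      have h2 := K2c_avoid hw hb hωμ hc1 hc3 hc4 hcact t 0
      apply h2
      push_cast
      have h3 : Bc t - c t = 0 := h
      linarith) (by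
        rw [hc0]
        linarith) t
    have h2 : Bc t - c t < 0 := h1
    linarith
  · intro t
    have h1 : Function.Periodic (fun t => a t - c t) (Q : ℝ) := by
      intro s
      dsimp only
      rw [ha3, hc3]
    obtain ⟨y, hy, hy'⟩ := h1.exists_mem_Ico₀ hQ t
    have h2 : a t - c t = a y - c y := hy'
    have h3 := (ha5 y hy).1
    have h4 := (hc5 y hy).1
    have h5 : min (c₁ y) (a₁ y + (1 + 0 * y)) ≤ max (c₁ y) (a₁ y + (1 + 0 * y)) :=
      min_le_max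
    rw [zero_mul] at h3 h4 h5
    linarith
  · intro x hx
    rw [ha0, hc0] at hx
    rw [← hFx]
    exact hFmid x hx

end Pool.Agent.H33.AN

end

section

/-!
# Module L5: the cost of crossing the gap

(Compare `Pool/Agent/H33/AM/P/T5a.lean`, `T5b.lean`.) `e₁ = ` the lower bound of `-e`, `ν = (δ + e₁) Q / ω'`.
Let a curve go from a point of level `a t` at time `t` to a point of level `c t'` at time `t'`. By `moving_cross`
there are `t ≤ σ₁ ≤ σ₂ ≤ t'` such that `θ = ⟪zv k₀, ·⟫` is `a` at `σ₁`, `c` at `σ₂`, and in the strip in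
between. The pieces on `[t, σ₁]`, `[σ₂, t']` cost at least `M ψa σ₁ - M ψa t - κ₃`, `M ψc t' - M ψc σ₂ - κ₃`
(`Closes2.same2`). The middle piece, `τ = σ₂ - σ₁`, costs by `Trap2.lo` (with `δ' ≤ δ` from there) at least
`M (1 - δ') c1(θ) - δ τ - δ + e τ ≥ M (1 - δ') c1(θ) - (δ + e₁) τ - δ`, and `τ ≤ (c1(θ) + C₂) Q / ω'` (`hS`), so
it costs at least `(M (1 - δ') - ν) c1(θ) - ν C₂ - δ`, where `M (1 - δ') - ν ≥ M (1 - δ) - ν ≥ 0` (`hpos`),
and `c1(θ) ≥ U + ψc σ₂ - ψa σ₁`, where `|U + ψc σ₂ - ψa σ₁| ≤ C₃` (so `0 ≤ C₃`): at least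
`M (U + ψc σ₂ - ψa σ₁) - (M δ' + ν) C₃ - ν C₂ - δ`.
Downwards: `moving_cross'`, the same.
-/

set_option autoImplicit false

open MeasureTheory
open scoped RealInnerProductSpace

namespace Pool.Agent.H33.AN

open Pool.Agent.H33.AM

variable {n : ℕ} {l : EuclideanSpace ℝ (Fin n) → EuclideanSpace ℝ (Fin n) → ℝ → ℝ}
  {k₀ m P : Fin n → ℤ} {s : ℝ} {e₀ : EuclideanSpace ℝ (Fin n)} {Q : ℕ} {w : ℝ → ℝ → ℝ}
  {E₁ M κ δ : ℝ}

private theorem L5_num {M δ δ' Qr ω' e₁ C₂ C₃ K c τ I e : ℝ} (hM : 0 < M) (hδ : 0 ≤ δ)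
    (hδ0 : 0 ≤ δ') (hδ1 : δ' ≤ δ) (hC3 : 0 ≤ C₃)
    (hQ : 0 < Qr) (hω : 0 < ω') (he₁ : 0 ≤ e₁) (he : -e₁ ≤ e) (hτ : 0 ≤ τ)
    (hlo : M * (1 - δ') * c - δ * τ - δ ≤ I) (hK : K ≤ c) (hKC : K ≤ C₃)
    (hS : ω' / Qr * τ - C₂ ≤ c) (hpos : 0 ≤ M * (1 - δ) - (δ + e₁) * Qr / ω') :
    M * K - ((M * δ + (δ + e₁) * Qr / ω') * C₃ + (δ + e₁) * Qr / ω' * C₂ + δ) ≤ I + e * τ := by
  have h1 : τ ≤ (c + C₂) * (Qr / ω') := by
    have h2 : ω' / Qr * τ ≤ c + C₂ := by linarith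
    have h3 : τ = (ω' / Qr * τ) * (Qr / ω') := by field_simp
    rw [h3]
    exact mul_le_mul_of_nonneg_right h2 (by positivity)
  have h4 : (δ + e₁) * τ ≤ (δ + e₁) * ((c + C₂) * (Qr / ω')) :=
    mul_le_mul_of_nonneg_left h1 (by positivity)
  have h5 : -(e₁ * τ) ≤ e * τ := by
    have := mul_le_mul_of_nonneg_right he hτ
    linarith
  have hd : M * δ' ≤ M * δ := mul_le_mul_of_nonneg_left hδ1 hM.le
  have hpos' : 0 ≤ M * (1 - δ') - (δ + e₁) * Qr / ω' := by linarith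
  have h6 : (M * (1 - δ') - (δ + e₁) * Qr / ω') * K ≤ (M * (1 - δ') - (δ + e₁) * Qr / ω') * c :=
    mul_le_mul_of_nonneg_left hK hpos'
  have h7 : (M * δ' + (δ + e₁) * Qr / ω') * K ≤ (M * δ' + (δ + e₁) * Qr / ω') * C₃ :=
    mul_le_mul_of_nonneg_left hKC (by positivity)
  have h9 : M * δ' * C₃ ≤ M * δ * C₃ := mul_le_mul_of_nonneg_right hd hC3
  have h8 : (δ + e₁) * ((c + C₂) * (Qr / ω')) = (δ + e₁) * Qr / ω' * c + (δ + e₁) * Qr / ω' * C₂ := by
    ring
  rw [h8] at h4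
  linarith

private theorem L5_mid (hQ : 0 < Q) (h : Trap2 l k₀ m P s e₀ Q w E₁ M κ δ) {e e₁ C₂ C₃ ω' K : ℝ}
    (he₁ : 0 ≤ e₁) (he : -e₁ ≤ e) (hω' : 0 < ω') (hC3 : 0 ≤ C₃) (hKC : K ≤ C₃)
    (hpos : 0 ≤ M * (1 - δ) - (δ + e₁) * Q / ω') {σ₁ σ₂ : ℝ}
    {ξ u : ℝ → EuclideanSpace ℝ (Fin n)} (hadm : Adm σ₁ σ₂ ξ u)
    (hK : K ≤ c1 w Q E₁ σ₁ σ₂ (fun t => ⟪zv k₀, ξ t⟫) fun t => ⟪zv k₀, u t⟫)
    (hS : ω' / Q * (σ₂ - σ₁) - C₂ ≤
      c1 w Q E₁ σ₁ σ₂ (fun t => ⟪zv k₀, ξ t⟫) fun t => ⟪zv k₀, u t⟫) :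
    M * K - ((M * δ + (δ + e₁) * Q / ω') * C₃ + (δ + e₁) * Q / ω' * C₂ + δ) ≤
      ∫ t in σ₁..σ₂, (l (ξ t) (u t) t + e) := by
  have hint : IntervalIntegrable (fun t => l (ξ t) (u t) t) volume σ₁ σ₂ :=
    Adm.integrable2 hadm (g := fun p => l p.1 p.2.1 p.2.2) h.hl.cont
  have h1 : ∫ t in σ₁..σ₂, (l (ξ t) (u t) t + e) =
      (∫ t in σ₁..σ₂, l (ξ t) (u t) t) + e * (σ₂ - σ₁) := by
    rw [intervalIntegral.integral_add hint intervalIntegrable_const,
      intervalIntegral.integral_const, smul_eq_mul]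
    ring
  rw [h1]
  have hQ' : (0 : ℝ) < Q := by exact_mod_cast hQ
  obtain ⟨δ', hδ0, hδ1, hlo⟩ := h.lo
  exact L5_num h.M_pos h.δ_nonneg hδ0 hδ1 hC3 hQ' hω' he₁ he (by linarith [hadm.le])
    (hlo σ₁ σ₂ ξ u hadm) hK hKC hS hpos

private theorem L5_split (h : Trap2 l k₀ m P s e₀ Q w E₁ M κ δ) {e t t' σ₁ σ₂ : ℝ}
    {ξ u : ℝ → EuclideanSpace ℝ (Fin n)} (hadm : Adm t t' ξ u) (h1 : t ≤ σ₁) (h2 : σ₁ ≤ σ₂)
    (h3 : σ₂ ≤ t') :
    Conn2 l e t σ₁ (ξ t) (ξ σ₁) (∫ τ in t..σ₁, (l (ξ τ) (u τ) τ + e)) ∧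
      Conn2 l e σ₂ t' (ξ σ₂) (ξ t') (∫ τ in σ₂..t', (l (ξ τ) (u τ) τ + e)) ∧
      Adm σ₁ σ₂ ξ u ∧
      (∫ τ in t..t', (l (ξ τ) (u τ) τ + e)) = (∫ τ in t..σ₁, (l (ξ τ) (u τ) τ + e)) +
        (∫ τ in σ₁..σ₂, (l (ξ τ) (u τ) τ + e)) + ∫ τ in σ₂..t', (l (ξ τ) (u τ) τ + e) := by
  have a1 : Adm t σ₁ ξ u := hadm.sub le_rfl h1 (h2.trans h3)
  have a2 : Adm σ₁ σ₂ ξ u := hadm.sub h1 h2 h3
  have a3 : Adm σ₂ t' ξ u := hadm.sub (h1.trans h2) h3 le_rfl
  have hg : Continuous fun p : EuclideanSpace ℝ (Fin n) × EuclideanSpace ℝ (Fin n) × ℝ =>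
      l p.1 p.2.1 p.2.2 + e := h.hl.cont.add continuous_const
  have i1 : IntervalIntegrable (fun τ => l (ξ τ) (u τ) τ + e) volume t σ₁ := Adm.integrable2 a1 hg
  have i2 : IntervalIntegrable (fun τ => l (ξ τ) (u τ) τ + e) volume σ₁ σ₂ := Adm.integrable2 a2 hg
  have i3 : IntervalIntegrable (fun τ => l (ξ τ) (u τ) τ + e) volume σ₂ t' := Adm.integrable2 a3 hg
  refine ⟨⟨ξ, u, a1, rfl, rfl, rfl⟩, ⟨ξ, u, a3, rfl, rfl, rfl⟩, a2, ?_⟩
  rw [intervalIntegral.integral_add_adjacent_intervals i1 i2,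
    intervalIntegral.integral_add_adjacent_intervals (i1.trans i2) i3]

theorem gap2 (hQ : 0 < Q) (h : Trap2 l k₀ m P s e₀ Q w E₁ M κ δ) {e e₁ κ₃ ω R U D C₂ C₃ ω' : ℝ}
    {a ua ψa c uc ψc : ℝ → ℝ} (hcrit : Crit2 l k₀ Q e) (he₁ : 0 ≤ e₁) (he : -e₁ ≤ e)
    (ha : Lev w Q E₁ ω R a ua ψa) (hc : Lev w Q E₁ ω R c uc ψc) (hac : ∀ t, a t < c t)
    (hca : Closes2 l k₀ Q e κ₃ a fun t => M * ψa t)
    (hcc : Closes2 l k₀ Q e κ₃ c fun t => M * ψc t) (hω' : 0 < ω') (hC₂ : 0 ≤ C₂)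
    (hU3 : |U| + 2 * R ≤ C₃) (hD3 : |D| + 2 * R ≤ C₃)
    (hU : ∀ (s t : ℝ) (ξ u : ℝ → ℝ), Cur s t ξ u → ξ s = a s → ξ t = c t →
      U + ψc t - ψa s ≤ c1 w Q E₁ s t ξ u)
    (hD : ∀ (s t : ℝ) (ξ u : ℝ → ℝ), Cur s t ξ u → ξ s = c s → ξ t = a t →
      D + ψa t - ψc s ≤ c1 w Q E₁ s t ξ u)
    (hS : ∀ (s t : ℝ) (ξ u : ℝ → ℝ), Cur s t ξ u →
      (∀ τ ∈ Set.Icc s t, a τ ≤ ξ τ ∧ ξ τ ≤ c τ) →
      ω' / Q * (t - s) - C₂ ≤ c1 w Q E₁ s t ξ u)
    (hpos : 0 ≤ M * (1 - δ) - (δ + e₁) * Q / ω') :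
    (∀ (t t' : ℝ) (x y : EuclideanSpace ℝ (Fin n)) (r : ℝ), ⟪zv k₀, x⟫ = a t →
      ⟪zv k₀, y⟫ = c t' → Conn2 l e t t' x y r →
      M * U - ((M * δ + (δ + e₁) * Q / ω') * C₃ + (δ + e₁) * Q / ω' * C₂ + δ) - 2 * κ₃ +
        M * ψc t' - M * ψa t ≤ r) ∧
    ∀ (t t' : ℝ) (x y : EuclideanSpace ℝ (Fin n)) (r : ℝ), ⟪zv k₀, x⟫ = c t →
      ⟪zv k₀, y⟫ = a t' → Conn2 l e t t' x y r →
      M * D - ((M * δ + (δ + e₁) * Q / ω') * C₃ + (δ + e₁) * Q / ω' * C₂ + δ) - 2 * κ₃ +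
        M * ψa t' - M * ψc t ≤ r := by
  have hC3 : 0 ≤ C₃ := by
    have g1 : 0 ≤ R := (abs_nonneg _).trans (ha.bd 0)
    have g2 := abs_nonneg U
    linarith
  constructor
  · intro t t' x y r hx hy hconn
    obtain ⟨ξ, u, hadm, h0, h1, hr⟩ := hconn
    have hcont : ContinuousOn (fun t => ⟪zv k₀, ξ t⟫) (Set.Icc t t') :=
      continuousOn_const.inner hadm.cont
    obtain ⟨σ₁, σ₂, s1, s2, s3, s4, s5, s6⟩ := moving_cross hadm.le hcont ha.contA hc.contA hac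
      (by rw [h0]; exact hx.le) (by rw [h1]; exact hy.ge)
    obtain ⟨c1', c3', a2, hsum⟩ := L5_split h (e := e) hadm s1 s2 s3
    have hcur := Adm.toCur a2 k₀
    have hK := hU σ₁ σ₂ _ _ hcur s4 s5
    have hSS := hS σ₁ σ₂ _ _ hcur s6
    have hKC : U + ψc σ₂ - ψa σ₁ ≤ C₃ := by
      have g1 := abs_le.1 (hc.ψbd σ₂)
      have g2 := abs_le.1 (ha.ψbd σ₁)
      have g3 := le_abs_self U
      linarith
    have hm := L5_mid hQ h he₁ he hω' hC3 hKC hpos a2 hK hSS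
    have b1 := Closes2.same2 hQ h.hl hcrit hca (by rw [h0]; exact hx) s4 c1'
    have b3 := Closes2.same2 hQ h.hl hcrit hcc s5 (by rw [h1]; exact hy) c3'
    rw [← hr, hsum]
    have e1 : M * (U + ψc σ₂ - ψa σ₁) = M * U + M * ψc σ₂ - M * ψa σ₁ := by ring
    rw [e1] at hm
    linarith
  · intro t t' x y r hx hy hconn
    obtain ⟨ξ, u, hadm, h0, h1, hr⟩ := hconn
    have hcont : ContinuousOn (fun t => ⟪zv k₀, ξ t⟫) (Set.Icc t t') :=
      continuousOn_const.inner hadm.cont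
    obtain ⟨σ₁, σ₂, s1, s2, s3, s4, s5, s6⟩ := moving_cross' hadm.le hcont ha.contA hc.contA hac
      (by rw [h0]; exact hx.ge) (by rw [h1]; exact hy.le)
    obtain ⟨c1', c3', a2, hsum⟩ := L5_split h (e := e) hadm s1 s2 s3
    have hcur := Adm.toCur a2 k₀
    have hK := hD σ₁ σ₂ _ _ hcur s4 s5
    have hSS := hS σ₁ σ₂ _ _ hcur s6
    have hKC : D + ψa σ₂ - ψc σ₁ ≤ C₃ := by
      have g1 := abs_le.1 (ha.ψbd σ₂)
      have g2 := abs_le.1 (hc.ψbd σ₁)
      have g3 := le_abs_self D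
      linarith
    have hm := L5_mid hQ h he₁ he hω' hC3 hKC hpos a2 hK hSS
    have b1 := Closes2.same2 hQ h.hl hcrit hcc (by rw [h0]; exact hx) s4 c1'
    have b3 := Closes2.same2 hQ h.hl hcrit hca s5 (by rw [h1]; exact hy) c3'
    rw [← hr, hsum]
    have e1 : M * (D + ψa σ₂ - ψc σ₁) = M * D + M * ψa σ₂ - M * ψc σ₁ := by ring
    rw [e1] at hm
    linarith

end Pool.Agent.H33.AN

end

section

/-!
# Module L6: curves between the levels `a + i`, `a + j`; the abstract trapping lemma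

(Compare `Pool/Agent/H33/AM/P/T6a.lean`, `T6b.lean`: the same proofs with moving levels and gauges.)
* `levels2`, `i ≤ j`: induction on `j - i`. `j = i`: `hsame` (translated by `zv (-(i • m))`, see
  `Conn2.add_zv`, `dot k₀ m = 1`). `j > i`: by `Conn2.cross` (twice) the curve is a concatenation of
  curves: level `a + i` → level `c + i` (cost `≥ b + ψc - ψa`), → level `a + i + 1` (cost `≥ A + ψa - ψc`),
  → level `a + j`; the gauges telescope. `j ≤ i`: symmetric.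
* `trapped_of_levels2`: choose integers `i`, `j` with `|⟪zv k₀, x⟫ - (a 0 + i)| ≤ 1`,
  `|⟪zv k₀, y⟫ - (a 0 + j)| ≤ 1` (floor). By `Rough2` connect `((a 0 + i) • zv m, 0)` to `(x + zv k, t + i' Q)`,
  follow the curve (`Conn2.add_zv`, `Conn2.shift`) to `(y + zv k, t' + i' Q)`, connect this by `Rough2` to
  `((a 0 + j) • zv m + zv k', i'' Q)`; `a (i'' Q) = a 0`, `ψ (i'' Q) = ψ 0`. So
  `r + 2 C₁ ≥ (j - i) fu - κ ≥ (j - i) η - κ` if `i ≤ j`, and `≥ (i - j) fd - κ ≥ (j - i) η - κ` if `j ≤ i`. So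
  `C = κ + 2 C₁ + 2 (|fu| + |fd|)` works for every `η ∈ [-fd, fu]`.
-/

set_option autoImplicit false

open MeasureTheory
open scoped RealInnerProductSpace

namespace Pool.Agent.H33.AN

open Pool.Agent.H33.AM

variable {n : ℕ} {l : EuclideanSpace ℝ (Fin n) → EuclideanSpace ℝ (Fin n) → ℝ → ℝ}
  {k₀ m : Fin n → ℤ} {Q : ℕ}

private theorem L6a_tr (hkm : dot k₀ m = 1) (x : EuclideanSpace ℝ (Fin n)) (i : ℤ) :
    ⟪zv k₀, x + zv (-(i • m))⟫ = ⟪zv k₀, x⟫ - i := by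
  rw [inner_add_right, inner_zv, dot_neg, dot_zsmul, hkm]
  push_cast
  ring

theorem levels2 (hl : HL2 Q l) (hkm : dot k₀ m = 1) {e κ b b' A B : ℝ} {a c ψa ψc : ℝ → ℝ}
    (hacont : Continuous a) (hccont : Continuous c) (hac : ∀ t, a t ≤ c t)
    (hca : ∀ t, c t ≤ a t + 1)
    (hsame : ∀ (t t' : ℝ) (x y : EuclideanSpace ℝ (Fin n)) (r : ℝ), ⟪zv k₀, x⟫ = a t →
      ⟪zv k₀, y⟫ = a t' → Conn2 l e t t' x y r → ψa t' - ψa t - κ ≤ r)
    (hgapU : ∀ (t t' : ℝ) (x y : EuclideanSpace ℝ (Fin n)) (r : ℝ), ⟪zv k₀, x⟫ = a t →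
      ⟪zv k₀, y⟫ = c t' → Conn2 l e t t' x y r → b + ψc t' - ψa t ≤ r)
    (hgapD : ∀ (t t' : ℝ) (x y : EuclideanSpace ℝ (Fin n)) (r : ℝ), ⟪zv k₀, x⟫ = c t →
      ⟪zv k₀, y⟫ = a t' → Conn2 l e t t' x y r → b' + ψa t' - ψc t ≤ r)
    (hup : ∀ (t t' : ℝ) (x y : EuclideanSpace ℝ (Fin n)) (r : ℝ), ⟪zv k₀, x⟫ = c t →
      ⟪zv k₀, y⟫ = a t' + 1 → Conn2 l e t t' x y r → A + ψa t' - ψc t ≤ r)
    (hdown : ∀ (t t' : ℝ) (x y : EuclideanSpace ℝ (Fin n)) (r : ℝ), ⟪zv k₀, x⟫ = a t + 1 →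
      ⟪zv k₀, y⟫ = c t' → Conn2 l e t t' x y r → B + ψc t' - ψa t ≤ r)
    (i j : ℤ) {t t' : ℝ} {x y : EuclideanSpace ℝ (Fin n)} {r : ℝ} (hx : ⟪zv k₀, x⟫ = a t + i)
    (hy : ⟪zv k₀, y⟫ = a t' + j) (h : Conn2 l e t t' x y r) :
    (i ≤ j → ((j : ℝ) - i) * (b + A) + ψa t' - ψa t - κ ≤ r) ∧
      (j ≤ i → ((i : ℝ) - j) * (b' + B) + ψa t' - ψa t - κ ≤ r) := by
  have hsame' : ∀ (i : ℤ) (t t' : ℝ) (x y : EuclideanSpace ℝ (Fin n)) (r : ℝ),
      ⟪zv k₀, x⟫ = a t + i → ⟪zv k₀, y⟫ = a t' + i → Conn2 l e t t' x y r →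
      ψa t' - ψa t - κ ≤ r := by
    intro i t t' x y r hx hy h
    refine hsame t t' _ _ r ?_ ?_ (h.add_zv hl (-(i • m)))
    · rw [L6a_tr hkm, hx]; ring
    · rw [L6a_tr hkm, hy]; ring
  have hgapU' : ∀ (i : ℤ) (t t' : ℝ) (x y : EuclideanSpace ℝ (Fin n)) (r : ℝ),
      ⟪zv k₀, x⟫ = a t + i → ⟪zv k₀, y⟫ = c t' + i → Conn2 l e t t' x y r →
      b + ψc t' - ψa t ≤ r := by
    intro i t t' x y r hx hy h
    refine hgapU t t' _ _ r ?_ ?_ (h.add_zv hl (-(i • m)))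
    · rw [L6a_tr hkm, hx]; ring
    · rw [L6a_tr hkm, hy]; ring
  have hgapD' : ∀ (i : ℤ) (t t' : ℝ) (x y : EuclideanSpace ℝ (Fin n)) (r : ℝ),
      ⟪zv k₀, x⟫ = c t + i → ⟪zv k₀, y⟫ = a t' + i → Conn2 l e t t' x y r →
      b' + ψa t' - ψc t ≤ r := by
    intro i t t' x y r hx hy h
    refine hgapD t t' _ _ r ?_ ?_ (h.add_zv hl (-(i • m)))
    · rw [L6a_tr hkm, hx]; ring
    · rw [L6a_tr hkm, hy]; ring
  have hup' : ∀ (i : ℤ) (t t' : ℝ) (x y : EuclideanSpace ℝ (Fin n)) (r : ℝ),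
      ⟪zv k₀, x⟫ = c t + i → ⟪zv k₀, y⟫ = a t' + 1 + i → Conn2 l e t t' x y r →
      A + ψa t' - ψc t ≤ r := by
    intro i t t' x y r hx hy h
    refine hup t t' _ _ r ?_ ?_ (h.add_zv hl (-(i • m)))
    · rw [L6a_tr hkm, hx]; ring
    · rw [L6a_tr hkm, hy]; ring
  have hdown' : ∀ (i : ℤ) (t t' : ℝ) (x y : EuclideanSpace ℝ (Fin n)) (r : ℝ),
      ⟪zv k₀, x⟫ = a t + 1 + i → ⟪zv k₀, y⟫ = c t' + i → Conn2 l e t t' x y r →
      B + ψc t' - ψa t ≤ r := by
    intro i t t' x y r hx hy h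
    refine hdown t t' _ _ r ?_ ?_ (h.add_zv hl (-(i • m)))
    · rw [L6a_tr hkm, hx]; ring
    · rw [L6a_tr hkm, hy]; ring
  have up : ∀ (k : ℕ) (i : ℤ) (t t' : ℝ) (x y : EuclideanSpace ℝ (Fin n)) (r : ℝ),
      ⟪zv k₀, x⟫ = a t + i → ⟪zv k₀, y⟫ = a t' + i + k → Conn2 l e t t' x y r →
      (k : ℝ) * (b + A) + ψa t' - ψa t - κ ≤ r := by
    intro k
    induction k with
    | zero =>
      intro i t t' x y r hx hy h
      have h1 := hsame' i t t' x y r hx (by rw [hy]; simp) h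
      simpa using h1
    | succ k ih =>
      intro i t t' x y r hx hy h
      have hk0 : (0 : ℝ) ≤ (k : ℝ) := Nat.cast_nonneg k
      push_cast at hy
      obtain ⟨τ, z, r₁, r₂, hz, hr, h1, h2⟩ := Conn2.cross hl (k₀ := k₀)
        (f := fun s => c s + i) h (hccont.add continuous_const)
        (Or.inl ⟨by rw [hx]; linarith [hac t], by rw [hy]; linarith [hca t']⟩)
      obtain ⟨τ', z', r₃, r₄, hz', hr', h3, h4⟩ := Conn2.cross hl (k₀ := k₀)
        (f := fun s => a s + 1 + i) h2 ((hacont.add continuous_const).add continuous_const)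
        (Or.inl ⟨by rw [hz]; linarith [hca τ], by rw [hy]; linarith⟩)
      have e1 := hgapU' i t τ x z r₁ hx hz h1
      have e2 := hup' i τ τ' z z' r₃ hz hz' h3
      have e3 := ih (i + 1) τ' t' z' y r₄ (by rw [hz']; push_cast; ring)
        (by rw [hy]; push_cast; ring) h4
      push_cast
      rw [hr, hr']
      linarith
  have down : ∀ (k : ℕ) (i : ℤ) (t t' : ℝ) (x y : EuclideanSpace ℝ (Fin n)) (r : ℝ),
      ⟪zv k₀, x⟫ = a t + i + k → ⟪zv k₀, y⟫ = a t' + i → Conn2 l e t t' x y r →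
      (k : ℝ) * (b' + B) + ψa t' - ψa t - κ ≤ r := by
    intro k
    induction k with
    | zero =>
      intro i t t' x y r hx hy h
      have h1 := hsame' i t t' x y r (by rw [hx]; simp) hy h
      simpa using h1
    | succ k ih =>
      intro i t t' x y r hx hy h
      have hk0 : (0 : ℝ) ≤ (k : ℝ) := Nat.cast_nonneg k
      push_cast at hx
      have hik : ((i + (k : ℤ) : ℤ) : ℝ) = (i : ℝ) + k := by push_cast; ring
      obtain ⟨τ, z, r₁, r₂, hz, hr, h1, h2⟩ := Conn2.cross hl (k₀ := k₀)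
        (f := fun s => c s + ((i + (k : ℤ) : ℤ) : ℝ)) h (hccont.add continuous_const)
        (Or.inr ⟨by rw [hx, hik]; linarith [hca t], by rw [hy, hik]; linarith [hac t']⟩)
      obtain ⟨τ', z', r₃, r₄, hz', hr', h3, h4⟩ := Conn2.cross hl (k₀ := k₀)
        (f := fun s => a s + ((i + (k : ℤ) : ℤ) : ℝ)) h2 (hacont.add continuous_const)
        (Or.inr ⟨by rw [hz]; linarith [hac τ], by rw [hy, hik]; linarith⟩)
      have e1 := hdown' (i + k) t τ x z r₁ (by rw [hx, hik]; ring) hz h1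
      have e2 := hgapD' (i + k) τ τ' z z' r₃ hz hz' h3
      have e3 := ih i τ' t' z' y r₄ (by rw [hz', hik]; ring) hy h4
      push_cast
      rw [hr, hr']
      linarith
  constructor
  · intro hij
    obtain ⟨k, hk⟩ := Int.eq_ofNat_of_zero_le (sub_nonneg.mpr hij)
    have hk' : (j : ℝ) - i = k := by exact_mod_cast hk
    rw [hk']
    exact up k i t t' x y r hx (by rw [hy, ← hk']; ring) h
  · intro hij
    obtain ⟨k, hk⟩ := Int.eq_ofNat_of_zero_le (sub_nonneg.mpr hij)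
    have hk' : (i : ℝ) - j = k := by exact_mod_cast hk
    rw [hk']
    exact down k j t t' x y r (by rw [hx, ← hk']; ring) hy h

end Pool.Agent.H33.AN

end

section

/-!
# Module K3: one-dimensional estimates for the gap between the levels

`c1 = c1 w Q E₁` is additive; along a level `c1(a; s, t) = ψa t - ψa s + ωa/Q (t - s)`.
* `gap_pair`: `U = inf (c1(ξ; s, t) + ψa s - ψc t)` over all the curves `ξ` from `(a s, s)` to `(c t, t)`,
  `D = inf (c1(ξ; s, t) + ψc s - ψa t)` over all the curves from `(c s, s)` to `(a t, t)`. Both families are not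
  empty (lines over a period). For an up curve `ξ` on `[s, t]` and a down curve `ξ'` on `[s', t']`: follow
  `ξ`, then `c` from `t` to `s' + i Q ∈ [t, t + Q)`, then `ξ'` shifted by `i Q`, then `a` from `t' + i Q` to
  `s + j Q ∈ [t' + i Q, t' + i Q + Q)`: a closed curve over `[s, s + j Q]`, `j ≥ 1` (since `a < c`), which
  meets `Bc` (intermediate value theorem). So (`Bar.mark`)
  `μ ≤ c1(ξ) + (ψc s' - ψc t + ω) + c1(ξ') + (ψa s - ψa t' + ω)`. So `U`, `D` are finite and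
  `U + D ≥ μ - 2 ω`.
* `strip_rate`: if `t - s ≤ 2 Q` use `c1 ≥ -(B + |E₁|/Q) (t - s)`. In general let
  `i₀ Q`, …, `i₁ Q` be the multiples of `Q` in `[s, t]`, `x i = ξ ((i₀ + i) Q) ∈ [a 0, c 0]`; on the full
  periods `A1 ≥ Dm w 0 Q (x i) (x (i + 1))` (`Dm_le`, `Dm_per`); use `chain` for `D x y = Dm w 0 Q x y - E₁`
  (`monge`), `S = [a 0, c 0]` (bounded; `hL` from `Dm_lip`).
-/

set_option autoImplicit false

open MeasureTheory
open scoped RealInnerProductSpace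

namespace Pool.Agent.H33.AN

open Pool.Agent.H33.AM

variable {B : ℝ} {w w₁ w₂ : ℝ → ℝ → ℝ} {Q : ℕ} {E₁ μ : ℝ} {Bc : ℝ → ℝ}

private theorem K3b_cont (hw : HW Q w w₁ w₂ B) :
    Continuous fun z : ℝ × ℝ × ℝ => z.2.1 ^ 2 / 2 - w z.1 z.2.2 := by
  have h1 : Continuous fun z : ℝ × ℝ => w z.1 z.2 :=
    continuous_iff_continuousAt.2 fun z => (hw.der z.1 z.2).continuousAt
  have h2 : Continuous fun z : ℝ × ℝ × ℝ => w z.1 z.2.2 :=
    h1.comp (continuous_fst.prodMk (continuous_snd.comp continuous_snd))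
  exact ((continuous_fst.comp continuous_snd).pow 2 |>.div_const 2).sub h2

private theorem K3b_int (hw : HW Q w w₁ w₂ B) {s t : ℝ} {ξ u : ℝ → ℝ} (h : Cur s t ξ u) :
    IntervalIntegrable (fun τ => u τ ^ 2 / 2 - w (ξ τ) τ) volume s t :=
  h.integrable (K3b_cont hw)

private theorem K3b_low (hw : HW Q w w₁ w₂ B) {s t : ℝ} {ξ u : ℝ → ℝ} (h : Cur s t ξ u) :
    -(B * (t - s)) ≤ A1 w s t ξ u := by
  have h1 : ∫ _ in s..t, (-B) ≤ A1 w s t ξ u := by
    refine intervalIntegral.integral_mono_on h.le intervalIntegrable_const (K3b_int hw h) ?_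
    intro τ _
    have h2 := (abs_le.1 (hw.bd (ξ τ) τ)).2
    have h3 : 0 ≤ u τ ^ 2 / 2 := by positivity
    linarith
  rw [intervalIntegral.integral_const, smul_eq_mul] at h1
  linarith

/-- full periods -/
private theorem K3b_per (hw : HW Q w w₁ w₂ B) (hQ : 0 < Q) {L : ℝ} {S : Set ℝ} {ω' : ℝ}
    (hL : ∀ x ∈ S, ∀ y ∈ S, Dm w 0 Q x x - L * |y - x| ≤ Dm w 0 Q x y)
    (hF : ∀ x ∈ S, E₁ + ω' ≤ Dm w 0 Q x x) (i₀ : ℤ) (j : ℕ) {ξ u : ℝ → ℝ}
    (h : Cur (i₀ * Q) ((i₀ + j) * Q) ξ u) (hS : ∀ i : ℕ, i ≤ j → ξ ((i₀ + i) * Q) ∈ S) :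
    j * ω' - L * |ξ ((i₀ + j) * Q) - ξ (i₀ * Q)| + j * E₁ ≤
      A1 w (i₀ * Q) ((i₀ + j) * Q) ξ u := by
  have hQr : (0 : ℝ) < Q := by exact_mod_cast hQ
  have h1 := chain (D := fun x y => Dm w 0 Q x y - E₁) (L := L) (ω := ω') (S := S)
    (fun x x' y y' hx hy => by
      have := monge hw (s := 0) (t := Q) hQr hx hy
      linarith)
    (fun x hx y hy => by
      have := hL x hx y hy
      linarith)
    (fun x hx => by
      have := hF x hx
      linarith)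
    j (fun i => ξ ((i₀ + i) * Q)) hS
  have hsub : ∀ i < j, Cur ((i₀ + (i : ℕ)) * Q) ((i₀ + ((i + 1 : ℕ) : ℝ)) * Q) ξ u := by
    intro i hi
    have hi' : ((i + 1 : ℕ) : ℝ) ≤ j := by exact_mod_cast hi
    have hi0 : (0 : ℝ) ≤ (i : ℝ) := Nat.cast_nonneg i
    refine h.sub ?_ ?_ ?_
    · exact mul_le_mul_of_nonneg_right (by linarith) hQr.le
    · exact mul_le_mul_of_nonneg_right (by push_cast; linarith) hQr.le
    · exact mul_le_mul_of_nonneg_right (by linarith) hQr.le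
  have h2 : ∑ i ∈ Finset.range j, (Dm w 0 Q (ξ ((i₀ + (i : ℕ)) * Q))
      (ξ ((i₀ + ((i + 1 : ℕ) : ℝ)) * Q)) - E₁) ≤
      ∑ i ∈ Finset.range j, ((∫ τ in ((i₀ + (i : ℕ)) * Q : ℝ)..((i₀ + ((i + 1 : ℕ) : ℝ)) * Q),
        (u τ ^ 2 / 2 - w (ξ τ) τ)) - E₁) := by
    refine Finset.sum_le_sum fun i hi => ?_
    have h3 := Dm_le hw (hsub i (Finset.mem_range.1 hi))
    have h4 := Dm_per hw 0 Q (ξ ((i₀ + (i : ℕ)) * Q)) (ξ ((i₀ + ((i + 1 : ℕ) : ℝ)) * Q)) (i₀ + i) 0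
    have e1 : (0 : ℝ) + ((i₀ + i : ℤ) : ℝ) * Q = (i₀ + (i : ℕ)) * Q := by push_cast; ring
    have e2 : (Q : ℝ) + ((i₀ + i : ℤ) : ℝ) * Q = (i₀ + ((i + 1 : ℕ) : ℝ)) * Q := by
      push_cast; ring
    rw [e1, e2, Int.cast_zero, add_zero, add_zero] at h4
    rw [h4] at h3
    unfold A1 at h3
    linarith
  have h3 : ∑ i ∈ Finset.range j, (∫ τ in ((i₀ + (i : ℕ)) * Q : ℝ)..((i₀ + ((i + 1 : ℕ) : ℝ)) * Q),
      (u τ ^ 2 / 2 - w (ξ τ) τ)) = A1 w (i₀ * Q) ((i₀ + j) * Q) ξ u := by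
    have := intervalIntegral.sum_integral_adjacent_intervals (μ := volume)
      (f := fun τ => u τ ^ 2 / 2 - w (ξ τ) τ) (a := fun i : ℕ => ((i₀ : ℝ) + (i : ℝ)) * Q) (n := j)
      (fun k hk => K3b_int hw (hsub k hk))
    rw [this]
    unfold A1
    simp
  rw [Finset.sum_sub_distrib, Finset.sum_sub_distrib, h3] at h2
  have h4 : ((fun i : ℕ => ξ ((i₀ + (i : ℝ)) * Q)) 0) = ξ (i₀ * Q) := by simp
  rw [Finset.sum_sub_distrib] at h1
  simp only [Finset.sum_const, Finset.card_range, nsmul_eq_mul] at h1 h2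
  simp only [Nat.cast_zero, add_zero] at h1
  linarith

theorem strip_rate (hw : HW Q w w₁ w₂ B) (hQ : 0 < Q) {ω R ω' : ℝ} {a ua ψa c uc ψc : ℝ → ℝ}
    (ha : Lev w Q E₁ ω R a ua ψa) (hc : Lev w Q E₁ ω R c uc ψc) (hω' : 0 < ω')
    (hF : ∀ x ∈ Set.Icc (a 0) (c 0), E₁ + ω' ≤ Dm w 0 Q x x) :
    ∃ C₂ : ℝ, 0 ≤ C₂ ∧ ∀ (s t : ℝ) (ξ u : ℝ → ℝ), Cur s t ξ u →
      (∀ τ ∈ Set.Icc s t, a τ ≤ ξ τ ∧ ξ τ ≤ c τ) →
      ω' / Q * (t - s) - C₂ ≤ c1 w Q E₁ s t ξ u := by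
  have hQr : (0 : ℝ) < Q := by exact_mod_cast hQ
  have hB := hw.nonneg
  have hR : 0 ≤ R := (abs_nonneg _).trans (ha.bd 0)
  obtain ⟨C, hC, hlip⟩ := Dm_lip hw hQr
  have hdist : ∀ x ∈ Set.Icc (a 0) (c 0), ∀ y ∈ Set.Icc (a 0) (c 0), |y - x| ≤ 2 * R := by
    intro x hx y hy
    have h1 := (abs_le.1 (ha.bd 0)).1
    have h2 := (abs_le.1 (hc.bd 0)).2
    rw [abs_le]
    exact ⟨by linarith [hx.2, hy.1], by linarith [hx.1, hy.2]⟩
  have hL : ∀ x ∈ Set.Icc (a 0) (c 0), ∀ y ∈ Set.Icc (a 0) (c 0),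
      Dm w 0 Q x x - C * (1 + 2 * R) * |y - x| ≤ Dm w 0 Q x y := by
    intro x hx y hy
    have h1 := hlip 0 x x x y
    rw [zero_add, sub_self, abs_zero, add_zero, add_zero, zero_add, abs_sub_comm x y] at h1
    have h2 := (abs_le.1 h1).2
    have h3 : C * (1 + |y - x|) * |y - x| ≤ C * (1 + 2 * R) * |y - x| :=
      mul_le_mul_of_nonneg_right (mul_le_mul_of_nonneg_left (by linarith [hdist x hx y hy]) hC)
        (abs_nonneg _)
    linarith
  set C₂ : ℝ := 2 * ω' + C * (1 + 2 * R) * (2 * R) + 2 * (B * Q) + 2 * |E₁| with hC₂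
  have hX : 0 ≤ C * (1 + 2 * R) * (2 * R) := by positivity
  refine ⟨C₂, by positivity, fun s t ξ u h hst => ?_⟩
  have hE : ∀ ρ : ℝ, 0 ≤ ρ → ρ ≤ 2 * Q → E₁ / Q * ρ ≤ 2 * |E₁| := by
    intro ρ h0 h2
    calc E₁ / Q * ρ ≤ |E₁| / Q * ρ :=
          mul_le_mul_of_nonneg_right (div_le_div_of_nonneg_right (le_abs_self _) hQr.le) h0
      _ ≤ |E₁| / Q * (2 * Q) := mul_le_mul_of_nonneg_left h2 (by positivity)
      _ = 2 * |E₁| := by field_simp
  have hO : ∀ ρ : ℝ, ρ ≤ 2 * Q → ω' / Q * ρ ≤ 2 * ω' := by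
    intro ρ h2
    calc ω' / Q * ρ ≤ ω' / Q * (2 * Q) := mul_le_mul_of_nonneg_left h2 (by positivity)
      _ = 2 * ω' := by field_simp
  have hle := h.le
  unfold c1
  by_cases hlen : t - s ≤ 2 * Q
  · have h1 := K3b_low hw h
    have h2 := hE (t - s) (by linarith) hlen
    have h3 := hO (t - s) hlen
    have h4 : B * (t - s) ≤ B * (2 * Q) := mul_le_mul_of_nonneg_left hlen hB
    linarith
  · push Not at hlen
    have hc1 := Int.le_ceil (s / Q)
    have hc2 := Int.ceil_lt_add_one (s / Q)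
    have hf1 := Int.floor_le (t / Q)
    have hf2 := Int.lt_floor_add_one (t / Q)
    set i₀ : ℤ := ⌈s / Q⌉ with hi₀
    set i₁ : ℤ := ⌊t / Q⌋ with hi₁
    rw [div_le_iff₀ hQr] at hc1
    rw [← sub_lt_iff_lt_add, lt_div_iff₀ hQr] at hc2
    rw [le_div_iff₀ hQr] at hf1
    rw [div_lt_iff₀ hQr] at hf2
    have hlt : (i₀ : ℝ) * Q < i₁ * Q := by nlinarith
    have hlt' : i₀ < i₁ := by
      have := lt_of_mul_lt_mul_right hlt hQr.le
      exact_mod_cast this
    obtain ⟨j, hj⟩ := Int.eq_ofNat_of_zero_le (a := i₁ - i₀) (by linarith)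
    have hj1 : (i₁ : ℝ) = i₀ + j := by
      have : i₁ = i₀ + j := by linarith
      rw [this]
      push_cast
      ring
    rw [hj1] at hf1 hf2 hlt
    have hmid : Cur (i₀ * Q) ((i₀ + j) * Q) ξ u := h.sub hc1 hlt.le hf1
    have hS : ∀ i : ℕ, i ≤ j → ξ ((i₀ + i) * Q) ∈ Set.Icc (a 0) (c 0) := by
      intro i hi
      have hi' : (i : ℝ) ≤ j := by exact_mod_cast hi
      have hi0 : (0 : ℝ) ≤ (i : ℝ) := Nat.cast_nonneg i
      have hm : ((i₀ : ℝ) + i) * Q ∈ Set.Icc s t :=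
        ⟨hc1.trans (mul_le_mul_of_nonneg_right (by linarith) hQr.le),
          (mul_le_mul_of_nonneg_right (by linarith) hQr.le).trans hf1⟩
      have h1 := hst _ hm
      have e1 : ((i₀ : ℝ) + i) = ((i₀ + i : ℤ) : ℝ) := by push_cast; ring
      have h2 : a (((i₀ : ℝ) + i) * Q) = a 0 := by
        rw [e1]
        exact Function.Periodic.int_mul_eq (f := a) ha.per (i₀ + i)
      have h3 : c (((i₀ : ℝ) + i) * Q) = c 0 := by
        rw [e1]
        exact Function.Periodic.int_mul_eq (f := c) hc.per (i₀ + i)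
      rw [h2, h3] at h1
      exact h1
    have h1 := K3b_per hw hQ hL hF i₀ j hmid hS
    have hm0 : ξ (i₀ * Q) ∈ Set.Icc (a 0) (c 0) := by simpa using hS 0 (Nat.zero_le j)
    have h2 : C * (1 + 2 * R) * |ξ ((i₀ + j) * Q) - ξ (i₀ * Q)| ≤ C * (1 + 2 * R) * (2 * R) :=
      mul_le_mul_of_nonneg_left (hdist _ hm0 _ (hS j le_rfl)) (by positivity)
    have hleft : Cur s (i₀ * Q) ξ u := h.sub le_rfl hc1 (hlt.le.trans hf1)
    have hright : Cur ((i₀ + j) * Q) t ξ u := h.sub (hc1.trans hlt.le) hf1 le_rfl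
    have h3 := K3b_low hw hleft
    have h4 := K3b_low hw hright
    have h5 : A1 w s t ξ u = A1 w s (i₀ * Q) ξ u + A1 w (i₀ * Q) ((i₀ + j) * Q) ξ u +
        A1 w ((i₀ + j) * Q) t ξ u := by
      unfold A1
      rw [intervalIntegral.integral_add_adjacent_intervals (K3b_int hw hleft) (K3b_int hw hmid),
        intervalIntegral.integral_add_adjacent_intervals
          ((K3b_int hw hleft).trans (K3b_int hw hmid)) (K3b_int hw hright)]
    have h6 : B * (i₀ * Q - s) ≤ B * Q := mul_le_mul_of_nonneg_left (by nlinarith) hB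
    have h7 : B * (t - (i₀ + j) * Q) ≤ B * Q := mul_le_mul_of_nonneg_left (by nlinarith) hB
    have h8 := hE (t - s - j * Q) (by nlinarith) (by nlinarith)
    have h9 := hO (t - s - j * Q) (by nlinarith)
    have e8 : E₁ / Q * (t - s) = j * E₁ + E₁ / Q * (t - s - j * Q) := by
      field_simp
      ring
    have e9 : ω' / Q * (t - s) = j * ω' + ω' / Q * (t - s - j * Q) := by
      field_simp
      ring
    rw [h5, e8, e9]
    linarith

end Pool.Agent.H33.AN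

end
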