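import Pool.Agent.H47.B0.M06
import Pool.Agent.H47.B0.M07

/-! The parts of this file: H33.AN.P.G5a, H33.AN.P.G5b, H33.AN.P.G8a, H33.AN.P.G9a, H33.AN.P.G9b, H33.AN.P.G9c, H33.AN.P.G9d. -/

section

/-!
# Module G5: minimisers exist and are solutions

* `min_ext`: let `ξ` be a minimising curve on `[a, b]`. On every subinterval `[c, d]` with
  `B (d - c)² ≤ 1` it agrees with the solution `γ` of the boundary value problem (`bvp`): replace `ξ` by
  `γ` there (`Cur.concat`, `Cur.of_ext`); by `strict` and minimality `∫ (u - v)² = 0`, so `ξ = γ` on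
  `[c, d]`. Overlapping intervals give the same solution (`ext_unique`; positions agree on an interval,
  so velocities agree).
* `Dm_exists`: choose `N` with `B ((t - s)/N)² ≤ 1`, `h = (t - s)/N`. Minimise
  `∑ Dm (s + k h) (s + (k + 1) h) x_k x_{k+1}` over `x_1, …, x_{N-1}` (continuous by `Dm_lip`, coercive by
  `Dm_lower`); `Dm` on a short interval is attained by the solution of `bvp` (`strict`); the sum is
  `≤ A1 ξ` for every curve; concatenate and use `min_ext`.
-/

set_option autoImplicit false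

open MeasureTheory
open scoped RealInnerProductSpace

namespace Pool.Agent.H33.AN

variable {Tp B : ℝ} {W W₁ W₂ : ℝ → ℝ → ℝ}

private theorem g5a_cont (hW : HW Tp W W₁ W₂ B) : Continuous fun z : ℝ × ℝ => W z.1 z.2 :=
  continuous_iff_continuousAt.2 fun z => (hW.der z.1 z.2).continuousAt

private theorem g5a_int (hW : HW Tp W W₁ W₂ B) {a b : ℝ} {ξ u : ℝ → ℝ} (h : Cur a b ξ u) :
    IntervalIntegrable (fun t => u t ^ 2 / 2 - W (ξ t) t) volume a b := by
  have hg : Continuous fun z : ℝ × ℝ × ℝ => z.2.1 ^ 2 / 2 - W z.1 z.2.2 := by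
    have h1 := g5a_cont hW
    have h2 : Continuous fun z : ℝ × ℝ × ℝ => W z.1 z.2.2 :=
      h1.comp (continuous_fst.prodMk (continuous_snd.comp continuous_snd))
    fun_prop
  exact h.integrable hg

/-- Solutions which agree on an interval agree everywhere. -/
private theorem g5a_agree (hW : HW Tp W W₁ W₂ B) {γ v γ' v' : ℝ → ℝ} (h : Ext W₁ γ v)
    (h' : Ext W₁ γ' v') {c d : ℝ} (hcd : c < d) (heq : ∀ t ∈ Set.Icc c d, γ t = γ' t) :
    γ = γ' ∧ v = v' := by
  have hm : (c + d) / 2 ∈ Set.Ioo c d := ⟨by linarith, by linarith⟩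
  have h1 : γ =ᶠ[nhds ((c + d) / 2)] γ' := by
    filter_upwards [Ioo_mem_nhds hm.1 hm.2] with t ht
    exact heq t ⟨ht.1.le, ht.2.le⟩
  have h2 : v ((c + d) / 2) = v' ((c + d) / 2) :=
    ((h.der _).congr_of_eventuallyEq h1.symm).unique (h'.der _)
  exact ext_unique hW h h' (heq _ ⟨hm.1.le, hm.2.le⟩) h2

/-- The local statement. -/
private theorem g5a_loc (hW : HW Tp W W₁ W₂ B) {a b : ℝ} {ξ u : ℝ → ℝ}
    (hξ : Cur a b ξ u) (hmin : A1 W a b ξ u ≤ Dm W a b (ξ a) (ξ b)) {c d : ℝ} (hac : a ≤ c)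
    (hcd : c < d) (hdb : d ≤ b) (hB : B * (d - c) ^ 2 ≤ 1) :
    ∃ γ v : ℝ → ℝ, Ext W₁ γ v ∧ ∀ t ∈ Set.Icc c d, γ t = ξ t := by
  obtain ⟨γ, v, hγ, hγc, hγd⟩ := bvp hW (h := d - c) (by linarith) c (ξ c) (ξ d)
  have hcd' : c + (d - c) = d := by ring
  rw [hcd'] at hγd
  refine ⟨γ, v, hγ, ?_⟩
  obtain ⟨u₀, hu₀, hu₀v⟩ := Cur.of_ext hγ hcd.le
  have hξ1 : Cur a c ξ u := hξ.sub le_rfl hac (hcd.le.trans hdb)
  have hξ2 : Cur c d ξ u := hξ.sub hac hcd.le hdb
  have hξ3 : Cur d b ξ u := hξ.sub (hac.trans hcd.le) hdb le_rfl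
  have hstr := strict hW hcd.le hB hγ hξ2 hγc.symm hγd.symm
  obtain ⟨x₁, u₁, hx₁, hx₁l, hx₁r⟩ := hξ1.concat hu₀ hγc.symm
  obtain ⟨x₂, u₂, hx₂, hx₂l, hx₂r⟩ := hx₁.concat hξ3 (by
    rw [(hx₁r d hcd).1]
    exact hγd)
  have ha2 : x₂ a = ξ a := by
    rw [(hx₂l a (hac.trans hcd.le)).1, (hx₁l a hac).1]
  have hb2 : x₂ b = ξ b := by
    rcases lt_or_eq_of_le hdb with h | h
    · exact (hx₂r b h).1
    · subst h
      rw [(hx₂l d le_rfl).1, (hx₁r d hcd).1]
      exact hγd
  have hD := Dm_le hW hx₂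
  rw [ha2, hb2] at hD
  -- additivity
  have hadd : A1 W a b ξ u = A1 W a c ξ u + A1 W c d ξ u + A1 W d b ξ u := by
    unfold A1
    rw [intervalIntegral.integral_add_adjacent_intervals (g5a_int hW hξ1) (g5a_int hW hξ2),
      intervalIntegral.integral_add_adjacent_intervals
        (g5a_int hW (hξ.sub le_rfl (hac.trans hcd.le) hdb)) (g5a_int hW hξ3)]
  have hadd2 : A1 W a b x₂ u₂ = A1 W a c ξ u + A1 W c d γ v + A1 W d b ξ u := by
    have e1 : A1 W a c x₂ u₂ = A1 W a c ξ u := by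
      unfold A1
      refine intervalIntegral.integral_congr_ae (Filter.Eventually.of_forall fun t ht => ?_)
      rw [Set.uIoc_of_le hac] at ht
      rw [(hx₂l t (ht.2.trans hcd.le)).1, (hx₂l t (ht.2.trans hcd.le)).2, (hx₁l t ht.2).1,
        (hx₁l t ht.2).2]
    have e2 : A1 W c d x₂ u₂ = A1 W c d γ v := by
      unfold A1
      refine intervalIntegral.integral_congr_ae (Filter.Eventually.of_forall fun t ht => ?_)
      rw [Set.uIoc_of_le hcd.le] at ht
      rw [(hx₂l t ht.2).1, (hx₂l t ht.2).2, (hx₁r t ht.1).1, (hx₁r t ht.1).2,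
        hu₀v t ⟨ht.1.le, ht.2⟩]
    have e3 : A1 W d b x₂ u₂ = A1 W d b ξ u := by
      unfold A1
      refine intervalIntegral.integral_congr_ae (Filter.Eventually.of_forall fun t ht => ?_)
      rw [Set.uIoc_of_le hdb] at ht
      rw [(hx₂r t ht.1).1, (hx₂r t ht.1).2]
    rw [← e1, ← e2, ← e3]
    unfold A1
    rw [intervalIntegral.integral_add_adjacent_intervals
        (g5a_int hW (hx₂.sub le_rfl hac (hcd.le.trans hdb))) (g5a_int hW (hx₂.sub hac hcd.le hdb)),
      intervalIntegral.integral_add_adjacent_intervals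
        (g5a_int hW (hx₂.sub le_rfl (hac.trans hcd.le) hdb))
        (g5a_int hW (hx₂.sub (hac.trans hcd.le) hdb le_rfl))]
  have hI : (∫ t in c..d, (u t - v t) ^ 2) ≤ 0 := by linarith
  -- the integral of the square with the velocity `u₀`
  have hI2 : (∫ t in c..d, (u t - v t) ^ 2) = ∫ t in c..d, (u t - u₀ t) ^ 2 := by
    refine intervalIntegral.integral_congr_ae (Filter.Eventually.of_forall fun t ht => ?_)
    rw [Set.uIoc_of_le hcd.le] at ht
    rw [hu₀v t ⟨ht.1.le, ht.2⟩]
  rw [hI2] at hI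
  intro t ht
  rcases eq_or_lt_of_le ht.1 with h | hct
  · rw [← h]
    exact hγc
  have hξt : Cur c t ξ u := hξ2.sub le_rfl ht.1 ht.2
  have hγt : Cur c t γ u₀ := hu₀.sub le_rfl ht.1 ht.2
  have i1 : IntervalIntegrable u volume c t := by
    have := hξt.integrable (g := fun z : ℝ × ℝ × ℝ => z.2.1) (by fun_prop)
    exact this
  have i2 : IntervalIntegrable u₀ volume c t := by
    have := hγt.integrable (g := fun z : ℝ × ℝ × ℝ => z.2.1) (by fun_prop)
    exact this
  have hsqm : ∀ c' d' : ℝ, Cur c' d' ξ u → Cur c' d' γ u₀ →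
      IntervalIntegrable (fun t => (u t - u₀ t) ^ 2) volume c' d' := by
    intro c' d' h1 h2
    obtain ⟨R, hR⟩ := h1.bd
    obtain ⟨R', hR'⟩ := h2.bd
    rw [intervalIntegrable_iff]
    refine MeasureTheory.IntegrableOn.of_bound ?_ ?_ ((R + R') ^ 2) ?_
    · rw [Set.uIoc_of_le h1.le, Real.volume_Ioc]
      exact ENNReal.ofReal_lt_top
    · exact ((h1.meas.sub h2.meas).pow_const 2).aestronglyMeasurable
    · refine Filter.Eventually.of_forall fun x => ?_
      rw [Real.norm_eq_abs, abs_of_nonneg (sq_nonneg _), ← sq_abs]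
      refine pow_le_pow_left₀ (abs_nonneg _) ?_ 2
      exact (abs_sub _ _).trans (add_le_add (hR x) (hR' x))
  have i3 := hsqm c t hξt hγt
  have i4 := hsqm t d (hξ2.sub ht.1 ht.2 le_rfl) (hu₀.sub ht.1 ht.2 le_rfl)
  have hJ : (∫ t in c..t, (u t - u₀ t) ^ 2) ≤ 0 := by
    have h1 := intervalIntegral.integral_add_adjacent_intervals i3 i4
    have h2 : 0 ≤ ∫ t in t..d, (u t - u₀ t) ^ 2 :=
      intervalIntegral.integral_nonneg ht.2 fun x _ => sq_nonneg _
    linarith
  -- difference of the positions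
  set D : ℝ := ξ t - γ t with hD'
  have hDint : ∫ t in c..t, (u t - u₀ t) = D := by
    rw [intervalIntegral.integral_sub i1 i2, hξt.integral_vel, hγt.integral_vel, hγc]
    ring
  have hle : (∫ s in c..t, (2 * (D / (t - c)) * (u s - u₀ s) - (D / (t - c)) ^ 2)) ≤
      ∫ s in c..t, (u s - u₀ s) ^ 2 := by
    refine intervalIntegral.integral_mono_on ht.1 ?_ i3 fun s _ => ?_
    · exact ((i1.sub i2).const_mul _).sub intervalIntegrable_const
    · nlinarith [sq_nonneg (u s - u₀ s - D / (t - c))]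
  rw [intervalIntegral.integral_sub ((i1.sub i2).const_mul _) intervalIntegrable_const,
    intervalIntegral.integral_const_mul, hDint, intervalIntegral.integral_const] at hle
  have hpos : 0 < t - c := by linarith
  have hfin : D ^ 2 / (t - c) ≤ 0 := by
    have e : 2 * (D / (t - c)) * D - (t - c) • (D / (t - c)) ^ 2 = D ^ 2 / (t - c) := by
      rw [smul_eq_mul]
      field_simp
      ring
    rw [e] at hle
    exact hle.trans hJ
  have hD0 : D ^ 2 ≤ 0 := by
    rw [div_le_iff₀ hpos] at hfin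
    linarith
  have : D = 0 := by nlinarith [sq_nonneg D, pow_eq_zero_iff (two_ne_zero) (a := D)]
  linarith

theorem min_ext (hW : HW Tp W W₁ W₂ B) {a b : ℝ} (hab : a < b) {ξ u : ℝ → ℝ} (hξ : Cur a b ξ u)
    (hmin : A1 W a b ξ u ≤ Dm W a b (ξ a) (ξ b)) :
    ∃ γ v : ℝ → ℝ, Ext W₁ γ v ∧ ∀ t ∈ Set.Icc a b, γ t = ξ t := by
  have hB0 := hW.nonneg
  set δ : ℝ := 1 / (2 * (1 + B)) with hδ
  have hδ0 : 0 < δ := by positivity
  have hBδ : ∀ x : ℝ, 0 ≤ x → x ≤ 2 * δ → B * x ^ 2 ≤ 1 := by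
    intro x hx0 hx
    have h1 : x * (1 + B) ≤ 1 := by
      have h2 : 2 * δ * (1 + B) = 1 := by
        rw [hδ]
        field_simp
      nlinarith
    have h3 : 0 ≤ x * (1 + B) := by positivity
    have h4 : (x * (1 + B)) ^ 2 ≤ 1 := pow_le_one₀ h3 h1
    have h5 : B * x ^ 2 ≤ (x * (1 + B)) ^ 2 := by
      have h6 : 0 ≤ x ^ 2 * (1 + B + B ^ 2) := by positivity
      nlinarith
    linarith
  have key : ∀ n : ℕ, ∃ γ v : ℝ → ℝ, Ext W₁ γ v ∧
      ∀ t ∈ Set.Icc a (min b (a + ((n : ℝ) + 1) * δ)), γ t = ξ t := by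
    intro n
    induction n with
    | zero =>
      have h1 : a < min b (a + (((0 : ℕ) : ℝ) + 1) * δ) := by
        refine lt_min hab ?_
        push_cast
        linarith
      refine g5a_loc hW hξ hmin le_rfl h1 (min_le_left _ _) ?_
      refine hBδ _ (by linarith) ?_
      have h2 := min_le_right b (a + (((0 : ℕ) : ℝ) + 1) * δ)
      push_cast at h2 ⊢
      linarith
    | succ n ih =>
      obtain ⟨γ, v, hγ, hγξ⟩ := ih
      set c : ℝ := min b (a + ((n : ℝ) + 1) * δ) with hc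
      set c' : ℝ := min b (a + (((n + 1 : ℕ) : ℝ) + 1) * δ) with hc'
      have hac : a < c := by
        refine lt_min hab ?_
        have : 0 < ((n : ℝ) + 1) * δ := by positivity
        linarith
      set c'' : ℝ := max a (c - δ) with hc''
      have h1 : c'' < c := max_lt hac (by linarith)
      have h2 : c ≤ c' := by
        refine min_le_min le_rfl ?_
        push_cast
        nlinarith
      have h3 : c' ≤ c + δ := by
        have e : a + (((n + 1 : ℕ) : ℝ) + 1) * δ = (a + ((n : ℝ) + 1) * δ) + δ := by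
          push_cast
          ring
        rw [hc', e, hc, ← min_add_add_right]
        exact min_le_min (by linarith) le_rfl
      have h4 : c - δ ≤ c'' := le_max_right _ _
      obtain ⟨γ', v', hγ', hγξ'⟩ := g5a_loc hW hξ hmin (le_max_left a (c - δ))
        (lt_of_lt_of_le h1 h2) (min_le_left _ _) (hBδ (c' - c'') (by linarith) (by linarith))
      have hag := g5a_agree hW hγ hγ' h1 fun t ht => by
        rw [hγξ t ⟨(le_max_left _ _).trans ht.1, ht.2⟩, hγξ' t ⟨ht.1, ht.2.trans h2⟩]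
      refine ⟨γ, v, hγ, fun t ht => ?_⟩
      rcases le_total t c with htc | htc
      · exact hγξ t ⟨ht.1, htc⟩
      · rw [hag.1]
        exact hγξ' t ⟨h1.le.trans htc, ht.2⟩
  obtain ⟨n, hn⟩ := exists_nat_gt ((b - a) / δ)
  obtain ⟨γ, v, hγ, hγξ⟩ := key n
  refine ⟨γ, v, hγ, fun t ht => hγξ t ⟨ht.1, le_min ht.2 ?_⟩⟩
  rw [div_lt_iff₀ hδ0] at hn
  have := ht.2
  nlinarith

end Pool.Agent.H33.AN

end

section

/-!
# Module G5: minimisers exist and are solutions

* `min_ext`: let `ξ` be a minimising curve on `[a, b]`. On every subinterval `[c, d]` with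
  `B (d - c)² ≤ 1` it agrees with the solution `γ` of the boundary value problem (`bvp`): replace `ξ` by
  `γ` there (`Cur.concat`, `Cur.of_ext`); by `strict` and minimality `∫ (u - v)² = 0`, so `ξ = γ` on
  `[c, d]`. Overlapping intervals give the same solution (`ext_unique`; positions agree on an interval,
  so velocities agree).
* `Dm_exists`: by induction on `k`, if `B ((t - s)/2 ^ k)² ≤ 1` then minimising curves exist (`G5b_curve`):
  for `k = 0` the solution of `bvp` (`strict`); in the step minimise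
  `z ↦ Dm s m x z + Dm m t z y`, `m` the midpoint (continuous by `Dm_lip`, coercive by `Dm_lower`), and
  concatenate. Then use `min_ext`.
-/

set_option autoImplicit false

open MeasureTheory
open scoped RealInnerProductSpace

namespace Pool.Agent.H33.AN

variable {Tp B : ℝ} {W W₁ W₂ : ℝ → ℝ → ℝ}

private theorem G5b_contW (hW : HW Tp W W₁ W₂ B) : Continuous fun z : ℝ × ℝ => W z.1 z.2 :=
  continuous_iff_continuousAt.2 fun z => (hW.der z.1 z.2).continuousAt

private theorem G5b_int (hW : HW Tp W W₁ W₂ B) {a b : ℝ} {ξ u : ℝ → ℝ} (h : Cur a b ξ u) :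
    IntervalIntegrable (fun t => u t ^ 2 / 2 - W (ξ t) t) volume a b := by
  have hg : Continuous fun z : ℝ × ℝ × ℝ => z.2.1 ^ 2 / 2 - W z.1 z.2.2 := by
    have h1 := (G5b_contW hW).comp
      (Continuous.prodMk continuous_fst (continuous_snd.comp continuous_snd) : Continuous fun z : ℝ × ℝ × ℝ =>
        (z.1, z.2.2))
    exact ((((continuous_fst.comp continuous_snd).pow 2).div_const 2)).sub h1
  exact h.integrable hg

private theorem G5b_contAt {f : ℝ → ℝ} {C A z : ℝ} (hC : 0 ≤ C)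
    (h : ∀ z', |f z' - f z| ≤ C * (A + |z' - z|) * |z' - z|) : ContinuousAt f z := by
  have h1 : Filter.Tendsto (fun z' => C * (A + |z' - z|) * |z' - z|) (nhds z) (nhds 0) := by
    have h2 : Continuous fun z' : ℝ => C * (A + |z' - z|) * |z' - z| := by fun_prop
    have h3 := h2.tendsto z
    simpa using h3
  have h4 : Filter.Tendsto (fun z' => |f z' - f z|) (nhds z) (nhds 0) :=
    squeeze_zero (fun _ => abs_nonneg _) h h1
  exact tendsto_iff_norm_sub_tendsto_zero.2 h4

private theorem G5b_cont1 (hW : HW Tp W W₁ W₂ B) {s t : ℝ} (hst : s < t) (x : ℝ) :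
    Continuous fun z => Dm W s t x z := by
  obtain ⟨C, hC, h⟩ := Dm_lip hW (sub_pos.2 hst)
  refine continuous_iff_continuousAt.2 fun z => G5b_contAt (C := C) (A := 1 + |z - x|) hC fun z' => ?_
  have h1 := h s x z x z'
  rw [add_sub_cancel, sub_self, abs_zero, add_zero, zero_add] at h1
  rw [abs_sub_comm, abs_sub_comm z' z]
  exact h1

private theorem G5b_cont2 (hW : HW Tp W W₁ W₂ B) {s t : ℝ} (hst : s < t) (y : ℝ) :
    Continuous fun z => Dm W s t z y := by
  obtain ⟨C, hC, h⟩ := Dm_lip hW (sub_pos.2 hst)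
  refine continuous_iff_continuousAt.2 fun z => G5b_contAt (C := C) (A := 1 + |y - z|) hC fun z' => ?_
  have h1 := h s z y z' y
  rw [add_sub_cancel, sub_self, abs_zero, add_zero, add_zero] at h1
  rw [abs_sub_comm, abs_sub_comm z' z]
  exact h1

/-- minimum over the intermediate point -/
private theorem G5b_min (hW : HW Tp W W₁ W₂ B) {s m t : ℝ} (hsm : s < m) (hmt : m < t) (x y : ℝ) :
    ∃ z₀, ∀ z, Dm W s m x z₀ + Dm W m t z₀ y ≤ Dm W s m x z + Dm W m t z y := by
  obtain ⟨f, hf⟩ : ∃ f : ℝ → ℝ, f = fun z => Dm W s m x z + Dm W m t z y := ⟨_, rfl⟩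
  have hfc : Continuous f := by
    rw [hf]
    exact (G5b_cont1 hW hsm x).add (G5b_cont2 hW hmt y)
  have hB := hW.nonneg
  have hlow : ∀ z, (z - x) ^ 2 / (2 * (m - s)) - B * (t - s) ≤ f z := by
    intro z
    rw [hf]
    have h1 := (Dm_lower hW hsm x z).1
    have h2 := (Dm_lower hW hmt z y).1
    have h3 : 0 ≤ (y - z) ^ 2 / (2 * (t - m)) := by
      have : 0 < t - m := by linarith
      positivity
    change (z - x) ^ 2 / (2 * (m - s)) - B * (t - s) ≤ Dm W s m x z + Dm W m t z y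
    have h4 : B * (t - s) = B * (m - s) + B * (t - m) := by ring
    linarith
  have hms : 0 < 2 * (m - s) := by linarith
  have hts : 0 < t - s := by linarith
  obtain ⟨R, hR⟩ : ∃ R : ℝ, R = 2 * (m - s) * (|f x| + B * (t - s)) + 1 := ⟨_, rfl⟩
  have hR1 : 1 ≤ R := by
    have : 0 ≤ 2 * (m - s) * (|f x| + B * (t - s)) :=
      mul_nonneg hms.le (add_nonneg (abs_nonneg _) (mul_nonneg hB hts.le))
    linarith
  obtain ⟨z₀, hz₀, hmin⟩ := isCompact_Icc.exists_isMinOn (s := Set.Icc (x - R) (x + R))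
    ⟨x, by constructor <;> linarith⟩ hfc.continuousOn
  refine ⟨z₀, fun z => ?_⟩
  have hx0 : f z₀ ≤ f x := hmin (by constructor <;> linarith : x ∈ Set.Icc (x - R) (x + R))
  have goal : f z₀ ≤ f z := by
    by_cases hz : z ∈ Set.Icc (x - R) (x + R)
    · exact hmin hz
    · refine hx0.trans (le_trans ?_ (hlow z))
      have h1 : R ^ 2 ≤ (z - x) ^ 2 := by
        rw [Set.mem_Icc, not_and_or, not_le, not_le] at hz
        rcases hz with h | h
        · nlinarith
        · nlinarith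
      have h2 : 2 * (m - s) * (|f x| + B * (t - s)) ≤ R ^ 2 := by nlinarith
      have h3 : |f x| + B * (t - s) ≤ (z - x) ^ 2 / (2 * (m - s)) := by
        rw [le_div_iff₀ hms]
        linarith
      have h4 := le_abs_self (f x)
      linarith
  rw [hf] at goal
  exact goal

private theorem G5b_curve (hW : HW Tp W W₁ W₂ B) (k : ℕ) : ∀ (s t x y : ℝ), s < t →
    B * ((t - s) / 2 ^ k) ^ 2 ≤ 1 →
    ∃ ξ u : ℝ → ℝ, Cur s t ξ u ∧ ξ s = x ∧ ξ t = y ∧ A1 W s t ξ u ≤ Dm W s t x y := by
  induction k with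
  | zero =>
    intro s t x y hst hk
    rw [pow_zero, div_one] at hk
    obtain ⟨γ, v, hγ, h1, h2⟩ := bvp hW (sub_pos.2 hst) s x y
    rw [add_sub_cancel] at h2
    obtain ⟨u, hu, huv⟩ := Cur.of_ext hγ hst.le
    refine ⟨γ, u, hu, h1, h2, ?_⟩
    have h3 : A1 W s t γ u = A1 W s t γ v := by
      unfold A1
      refine intervalIntegral.integral_congr fun τ hτ => ?_
      rw [Set.uIcc_of_le hst.le] at hτ
      change u τ ^ 2 / 2 - W (γ τ) τ = v τ ^ 2 / 2 - W (γ τ) τ
      rw [huv τ hτ]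
    rw [h3]
    refine le_Dm hW hst fun ξ w hξ h4 h5 => ?_
    have h6 := strict hW hst.le hk hγ hξ (h4.trans h1.symm) (h5.trans h2.symm)
    have h7 : 0 ≤ ∫ τ in s..t, (w τ - v τ) ^ 2 :=
      intervalIntegral.integral_nonneg hst.le fun τ _ => sq_nonneg _
    linarith
  | succ k ih =>
    intro s t x y hst hk
    obtain ⟨m, hm⟩ : ∃ m, m = (s + t) / 2 := ⟨_, rfl⟩
    have hsm : s < m := by linarith
    have hmt : m < t := by linarith
    have e1 : (m - s) / 2 ^ k = (t - s) / 2 ^ (k + 1) := by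
      rw [hm, pow_succ]
      field_simp
      ring
    have e2 : (t - m) / 2 ^ k = (t - s) / 2 ^ (k + 1) := by
      rw [hm, pow_succ]
      field_simp
      ring
    obtain ⟨z₀, hz₀⟩ := G5b_min hW hsm hmt x y
    obtain ⟨ξ, u, hξ, a1, a2, a3⟩ := ih s m x z₀ hsm (by rw [e1]; exact hk)
    obtain ⟨ξ', u', hξ', b1, b2, b3⟩ := ih m t z₀ y hmt (by rw [e2]; exact hk)
    obtain ⟨ξ'', u'', hc, c1, c2⟩ := Cur.concat hξ hξ' (a2.trans b1.symm)
    refine ⟨ξ'', u'', hc, ((c1 s hsm.le).1).trans a1, ((c2 t hmt).1).trans b2, ?_⟩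
    have hadd : ∀ {η w : ℝ → ℝ}, Cur s t η w → A1 W s t η w = A1 W s m η w + A1 W m t η w := by
      intro η w h
      unfold A1
      exact (intervalIntegral.integral_add_adjacent_intervals (G5b_int hW (h.sub le_rfl hsm.le hmt.le))
        (G5b_int hW (h.sub hsm.le hmt.le le_rfl))).symm
    have d1 : A1 W s m ξ'' u'' = A1 W s m ξ u := by
      unfold A1
      refine intervalIntegral.integral_congr fun τ hτ => ?_
      rw [Set.uIcc_of_le hsm.le] at hτ
      change u'' τ ^ 2 / 2 - W (ξ'' τ) τ = u τ ^ 2 / 2 - W (ξ τ) τ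
      rw [(c1 τ hτ.2).1, (c1 τ hτ.2).2]
    have d2 : A1 W m t ξ'' u'' = A1 W m t ξ' u' := by
      unfold A1
      refine intervalIntegral.integral_congr_ae (Filter.Eventually.of_forall fun τ hτ => ?_)
      rw [Set.uIoc_of_le hmt.le] at hτ
      rw [(c2 τ hτ.1).1, (c2 τ hτ.1).2]
    rw [hadd hc, d1, d2]
    refine le_Dm hW hst fun η w hη h4 h5 => ?_
    rw [hadd hη]
    have e3 := Dm_le hW (hη.sub le_rfl hsm.le hmt.le)
    have e4 := Dm_le hW (hη.sub hsm.le hmt.le le_rfl)
    rw [h4] at e3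
    rw [h5] at e4
    have e5 := hz₀ (η m)
    linarith

theorem Dm_exists (hW : HW Tp W W₁ W₂ B) {s t : ℝ} (hst : s < t) (x y : ℝ) :
    ∃ γ v : ℝ → ℝ, Ext W₁ γ v ∧ γ s = x ∧ γ t = y ∧ A1 W s t γ v = Dm W s t x y := by
  have hB := hW.nonneg
  obtain ⟨k, hk⟩ : ∃ k : ℕ, B * ((t - s) / 2 ^ k) ^ 2 ≤ 1 := by
    obtain ⟨k, hk⟩ := pow_unbounded_of_one_lt (B * (t - s) ^ 2) (by norm_num : (1 : ℝ) < 2)
    refine ⟨k, ?_⟩
    have h1 : (1 : ℝ) ≤ 2 ^ k := one_le_pow₀ (by norm_num)
    rw [div_pow, ← mul_div_assoc, div_le_one (by positivity)]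
    nlinarith
  obtain ⟨ξ, u, hξ, a1, a2, a3⟩ := G5b_curve hW k s t x y hst hk
  obtain ⟨γ, v, hγ, hγξ⟩ := min_ext hW hst hξ (by rw [a1, a2]; exact a3)
  refine ⟨γ, v, hγ, (hγξ s ⟨le_rfl, hst.le⟩).trans a1, (hγξ t ⟨hst.le, le_rfl⟩).trans a2, ?_⟩
  obtain ⟨S, hS, hder⟩ := hξ.der
  have h1 : A1 W s t γ v = A1 W s t ξ u := by
    unfold A1
    refine intervalIntegral.integral_congr_ae ?_
    have hS' : (S ∪ {t}).Countable := hS.union (Set.countable_singleton t)
    filter_upwards [hS'.ae_notMem volume] with τ hτS hτ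
    rw [Set.uIoc_of_le hst.le] at hτ
    have h2 : τ ∉ S := fun h => hτS (Or.inl h)
    have h3 : τ ≠ t := fun h => hτS (Or.inr h)
    have h4 : τ ∈ Set.Ioo s t := ⟨hτ.1, lt_of_le_of_ne hτ.2 h3⟩
    have h5 := hder τ ⟨h4, h2⟩
    have h6 : γ =ᶠ[nhds τ] ξ := by
      filter_upwards [Ioo_mem_nhds h4.1 h4.2] with z hz
      exact hγξ z ⟨hz.1.le, hz.2.le⟩
    have h7 : v τ = u τ := (hγ.der τ).unique (h5.congr_of_eventuallyEq h6)
    rw [h7, hγξ τ ⟨hτ.1.le, hτ.2⟩]
  have h2 : Dm W s t x y ≤ A1 W s t ξ u := by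
    have h3 := Dm_le hW hξ
    rw [a1, a2] at h3
    exact h3
  rw [h1]
  exact le_antisymm a3 h2

end Pool.Agent.H33.AN

end

section

/-!
# Module G8: closed curves of type `(p, Q)`, potentials of period one in time

* `Ep_le`: for the base time `0` by definition (bounded below by `Dm_lower`). A closed curve with base
  time `s` (take a minimiser, `Dm_exists`), extended by `x (t + Q) = x t + p`, is a closed curve with
  base time `0` (cut it at a multiple of `Q`, or rather: `s = j Q + s'`, `0 ≤ s' < Q`, translate by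
  `Dm_per`, cut `[s', s' + Q]` at `Q`, move the second piece by `-Q`, `-p` and put it first).
* `Ep_attained`: `x ↦ Dm W 0 Q x (x + p)` is continuous and 1-periodic, so it attains its minimum; move
  the minimiser to the base time `s` as before.
* `Ep_mark`: let `t ∈ [s, s + j Q]` be the marked time; move the base time of the closed curve (of type
  `(j p, j Q)`) to `t` and cut it into `j` pieces: with `D x y = Dm W t (t + Q) x (y + p)` (Monge) and
  `x i = ξ(t + i Q) - i p`, `x j = x 0`: `A1 ≥ ∑ D (x i) (x (i + 1)) ≥ ∑ D (x i) (x i)` (`cyc`)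
  `≥ D (x 0) (x 0) + (j - 1) EpQ W p Q`.
* `Ep_mul`: `≥` from `Ep_mark`, `≤` by repeating a curve.
* `F_cont`: let `(t, x)`, `(t', x')` be close; a minimiser `ξ` for `(t', x')` (closed curve) passes at the time
  `t` through `ξ t`, `|ξ t - x'| ≤ C |t - t'|` (velocity bounded by `ext_vbound`), so
  `F(t, ξ t) ≤ F(t', x')` (moving the base time), and `F(t, ·)` is Lipschitz (`Dm_lip`).
-/

set_option autoImplicit false

open MeasureTheory
open scoped RealInnerProductSpace

namespace Pool.Agent.H33.AN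

variable {B : ℝ} {W W₁ W₂ : ℝ → ℝ → ℝ} {p : ℤ} {Q : ℕ}

private theorem w_cont (hW : HW 1 W W₁ W₂ B) : Continuous fun z : ℝ × ℝ => W z.1 z.2 :=
  continuous_iff_continuousAt.2 fun z => (hW.der z.1 z.2).continuousAt

private theorem ext_cont {γ v : ℝ → ℝ} (h : Ext W₁ γ v) : Continuous γ ∧ Continuous v :=
  ⟨continuous_iff_continuousAt.2 fun t => (h.der t).continuousAt,
    continuous_iff_continuousAt.2 fun t => (h.el t).continuousAt⟩

private theorem act_cont (hW : HW 1 W W₁ W₂ B) {γ v : ℝ → ℝ} (h : Ext W₁ γ v) :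
    Continuous fun t => v t ^ 2 / 2 - W (γ t) t := by
  obtain ⟨h1, h2⟩ := ext_cont h
  exact ((h2.pow 2).div_const 2).sub ((w_cont hW).comp (h1.prodMk continuous_id))

private theorem act_add (hW : HW 1 W W₁ W₂ B) {γ v : ℝ → ℝ} (h : Ext W₁ γ v) (a b c : ℝ) :
    A1 W a b γ v + A1 W b c γ v = A1 W a c γ v := by
  have h1 := act_cont hW h
  exact intervalIntegral.integral_add_adjacent_intervals (h1.intervalIntegrable _ _)
    (h1.intervalIntegrable _ _)

private theorem dm_le_ext (hW : HW 1 W W₁ W₂ B) {γ v : ℝ → ℝ} (h : Ext W₁ γ v) {a b : ℝ}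
    (hab : a ≤ b) : Dm W a b (γ a) (γ b) ≤ A1 W a b γ v := by
  obtain ⟨u, hu, huv⟩ := Cur.of_ext h hab
  have h1 := Dm_le hW hu
  have h2 : A1 W a b γ u = A1 W a b γ v := by
    refine intervalIntegral.integral_congr fun t ht => ?_
    rw [Set.uIcc_of_le hab] at ht
    show u t ^ 2 / 2 - W (γ t) t = v t ^ 2 / 2 - W (γ t) t
    rw [huv t ht]
  rw [← h2]
  exact h1

/-- Change of the base time. -/
private theorem base_change (hW : HW 1 W W₁ W₂ B) (hQ : 0 < Q) (s s' x : ℝ) :
    ∃ x', Dm W s' (s' + Q) x' (x' + p) ≤ Dm W s (s + Q) x (x + p) := by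
  have hQ0 : (0 : ℝ) < Q := by exact_mod_cast hQ
  obtain ⟨j, hj1, hj2⟩ : ∃ j : ℤ, s ≤ s' - j * Q ∧ s' - j * Q < s + Q := by
    refine ⟨⌊(s' - s) / Q⌋, ?_, ?_⟩
    · have h1 := Int.floor_le ((s' - s) / (Q : ℝ))
      rw [le_div_iff₀ hQ0] at h1
      linarith
    · have h1 := Int.lt_floor_add_one ((s' - s) / (Q : ℝ))
      rw [div_lt_iff₀ hQ0] at h1
      linarith
  have hshift : ∀ y, Dm W s' (s' + Q) y (y + p) =
      Dm W (s' - j * Q) (s' - j * Q + Q) y (y + p) := by
    intro y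
    have h1 := Dm_per hW (s' - j * Q) (s' - j * Q + Q) y (y + p) (j * Q) 0
    push_cast at h1
    rw [← h1]
    congr 1 <;> ring
  obtain ⟨γ, v, hγ, h1, h2, h3⟩ := Dm_exists hW (s := s) (t := s + Q) (by linarith) x (x + p)
  refine ⟨γ (s' - j * Q), ?_⟩
  rw [hshift, ← h3]
  set s₁ := s' - j * Q with hs₁
  rcases hj1.eq_or_lt with h | h
  · rw [← h, h1, ← h2]
    have := dm_le_ext hW hγ (a := s) (b := s + Q) (by linarith)
    rw [h1] at this
    exact this
  · have e1 := Dm_triangle hW (r := s₁) (s := s + Q) (t := s₁ + Q) hj2 (by linarith) (γ s₁)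
      (x + p) (γ s₁ + p)
    have e2 := Dm_per hW s s₁ x (γ s₁) Q p
    have e3 : Dm W (s + Q) (s₁ + Q) (x + p) (γ s₁ + p) = Dm W s s₁ x (γ s₁) := by
      rw [← e2]
      push_cast
      congr 1 <;> ring
    have e4 := dm_le_ext hW hγ h.le
    have e5 := dm_le_ext hW hγ hj2.le
    rw [h2] at e5
    rw [h1] at e4
    have e6 := act_add hW hγ s s₁ (s + Q)
    rw [e3] at e1
    linarith

private theorem ep_bdd (hW : HW 1 W W₁ W₂ B) (hQ : 0 < Q) :
    BddBelow (Set.range fun x : ℝ => Dm W 0 Q x (x + p)) := by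
  have hQ0 : (0 : ℝ) < Q := by exact_mod_cast hQ
  refine ⟨-(B * Q), ?_⟩
  rintro r ⟨x, rfl⟩
  have h := (Dm_lower hW hQ0 x (x + p)).1
  have h2 : 0 ≤ (x + p - x) ^ 2 / (2 * ((Q : ℝ) - 0)) := by
    have : 0 < 2 * ((Q : ℝ) - 0) := by linarith
    positivity
  show -(B * Q) ≤ Dm W 0 Q x (x + p)
  have h3 : B * ((Q : ℝ) - 0) = B * Q := by ring
  linarith

private theorem ep_cont (hW : HW 1 W W₁ W₂ B) (hQ : 0 < Q) :
    Continuous fun x : ℝ => Dm W 0 Q x (x + p) := by
  have hQ0 : (0 : ℝ) < Q := by exact_mod_cast hQ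
  obtain ⟨C, hC0, hC⟩ := Dm_lip hW hQ0
  refine continuous_iff_continuousAt.2 fun x₀ => ?_
  unfold ContinuousAt
  rw [tendsto_iff_dist_tendsto_zero]
  have hb : ∀ x : ℝ, dist (Dm W 0 Q x (x + p)) (Dm W 0 Q x₀ (x₀ + p)) ≤
      C * (1 + |(p : ℝ)| + |x - x₀| + |x - x₀|) * (|x - x₀| + |x - x₀|) := by
    intro x
    have h1 := hC 0 x (x + p) x₀ (x₀ + p)
    rw [zero_add, add_sub_cancel_left, add_sub_add_right_eq_sub] at h1
    rw [Real.dist_eq]
    exact h1
  have hc : Continuous fun x : ℝ =>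
      C * (1 + |(p : ℝ)| + |x - x₀| + |x - x₀|) * (|x - x₀| + |x - x₀|) := by
    have h1 : Continuous fun x : ℝ => |x - x₀| := (continuous_id.sub continuous_const).abs
    exact (continuous_const.mul ((continuous_const.add h1).add h1)).mul (h1.add h1)
  have hl := hc.tendsto x₀
  simp only [sub_self, abs_zero, add_zero, mul_zero] at hl
  exact squeeze_zero (fun x => dist_nonneg) hb hl

private theorem ep_min (hW : HW 1 W W₁ W₂ B) (hQ : 0 < Q) :
    ∃ x₀, Dm W 0 Q x₀ (x₀ + p) = EpQ W p Q := by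
  have hper : Function.Periodic (fun x : ℝ => Dm W 0 Q x (x + p)) 1 := by
    intro x
    have h1 := Dm_per hW 0 Q x (x + p) 0 1
    push_cast at h1
    rw [zero_mul, add_zero, add_zero] at h1
    show Dm W 0 Q (x + 1) (x + 1 + p) = Dm W 0 Q x (x + p)
    rw [← h1]
    congr 1
    ring
  obtain ⟨x₀, -, h0⟩ := (isCompact_Icc (a := (0 : ℝ)) (b := 1)).exists_isMinOn
    (Set.nonempty_Icc.2 zero_le_one) (ep_cont (p := p) hW hQ).continuousOn
  refine ⟨x₀, le_antisymm (le_csInf (Set.range_nonempty _) ?_) (csInf_le (ep_bdd hW hQ) ⟨x₀, rfl⟩)⟩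
  rintro r ⟨x, rfl⟩
  obtain ⟨y, hy, hy2⟩ := hper.exists_mem_Ico₀ one_pos x
  have h3 : Dm W 0 Q x₀ (x₀ + p) ≤ Dm W 0 Q y (y + p) := h0 ⟨hy.1, hy.2.le⟩
  exact h3.trans (le_of_eq hy2.symm)

theorem Ep_le (hW : HW 1 W W₁ W₂ B) (hQ : 0 < Q) (s x : ℝ) :
    EpQ W p Q ≤ Dm W s (s + Q) x (x + p) := by
  obtain ⟨y, hy⟩ := base_change (p := p) hW hQ s 0 x
  rw [zero_add] at hy
  exact (csInf_le (ep_bdd hW hQ) ⟨y, rfl⟩).trans hy

theorem Ep_attained (hW : HW 1 W W₁ W₂ B) (hQ : 0 < Q) (s : ℝ) :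
    ∃ x, Dm W s (s + Q) x (x + p) = EpQ W p Q := by
  obtain ⟨x₀, h0⟩ := ep_min (p := p) hW hQ
  obtain ⟨x, hx⟩ := base_change (p := p) hW hQ 0 s x₀
  rw [zero_add, h0] at hx
  exact ⟨x, le_antisymm hx (Ep_le hW hQ s x)⟩

end Pool.Agent.H33.AN

end

section

/-!
# Module G9: minimising closed orbits (leaves)

* `closed_min_ext`: extend `ξ` to a closed curve (`ξ (t + Q) = ξ t + p`); its action over a period is the
  minimum `EpQ W p Q` (`Ep_le`), so it minimises on every window `[s', s' + Q]` (a better curve on the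
  window would give a closed curve of smaller action), and `min_ext` on the windows starting at `s`
  and `s + Q/2` shows that the closed curve agrees with a solution on the whole line (on the
  overlaps the positions agree, so the velocities too, and `ext_unique` applies); then periodicity
  of `γ`, `v`, and the action over every period is `EpQ W p Q`.
-/

set_option autoImplicit false

open MeasureTheory
open scoped RealInnerProductSpace

namespace Pool.Agent.H33.AN

variable {B : ℝ} {W W₁ W₂ : ℝ → ℝ → ℝ} {p : ℤ} {Q : ℕ}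

private theorem g9a_cont (hW : HW 1 W W₁ W₂ B) : Continuous fun z : ℝ × ℝ => W z.1 z.2 :=
  continuous_iff_continuousAt.2 fun z => (hW.der z.1 z.2).continuousAt

private theorem g9a_int (hW : HW 1 W W₁ W₂ B) {a b : ℝ} {ξ u : ℝ → ℝ} (h : Cur a b ξ u) :
    IntervalIntegrable (fun t => u t ^ 2 / 2 - W (ξ t) t) volume a b := by
  have hg : Continuous fun z : ℝ × ℝ × ℝ => z.2.1 ^ 2 / 2 - W z.1 z.2.2 := by
    have h1 := g9a_cont hW
    have h2 : Continuous fun z : ℝ × ℝ × ℝ => W z.1 z.2.2 :=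
      h1.comp (continuous_fst.prodMk (continuous_snd.comp continuous_snd))
    fun_prop
  exact h.integrable hg

/-- Solutions which agree on an interval agree everywhere. -/
private theorem g9a_agree (hW : HW 1 W W₁ W₂ B) {γ v γ' v' : ℝ → ℝ} (h : Ext W₁ γ v)
    (h' : Ext W₁ γ' v') {c d : ℝ} (hcd : c < d) (heq : ∀ t ∈ Set.Icc c d, γ t = γ' t) :
    γ = γ' ∧ v = v' := by
  have hm : (c + d) / 2 ∈ Set.Ioo c d := ⟨by linarith, by linarith⟩
  have h1 : γ =ᶠ[nhds ((c + d) / 2)] γ' := by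
    filter_upwards [Ioo_mem_nhds hm.1 hm.2] with t ht
    exact heq t ⟨ht.1.le, ht.2.le⟩
  have h2 : v ((c + d) / 2) = v' ((c + d) / 2) :=
    ((h.der _).congr_of_eventuallyEq h1.symm).unique (h'.der _)
  exact ext_unique hW h h' (heq _ ⟨hm.1.le, hm.2.le⟩) h2

private theorem g9a_perW (hW : HW 1 W W₁ W₂ B) (p : ℤ) (Q : ℕ) (x t : ℝ) :
    W (x + p) (t + Q) = W x t := by
  have h1 : Function.Periodic (fun y => W y (t + Q)) 1 := fun y => hW.per₁ y _
  have h2 : Function.Periodic (fun s => W x s) 1 := fun s => hW.per₂ x s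
  have h3 := h1.int_mul p x
  have h4 := h2.nat_mul Q t
  rw [mul_one] at h3 h4
  exact h3.trans h4

/-- Closed curves of minimal action are leaves. -/
theorem closed_min_ext (hW : HW 1 W W₁ W₂ B) (hQ : 0 < Q) {s : ℝ} {ξ u : ℝ → ℝ}
    (hξ : Cur s (s + Q) ξ u) (hcl : ξ (s + Q) = ξ s + p) (hact : A1 W s (s + Q) ξ u ≤ EpQ W p Q) :
    ∃ γ v : ℝ → ℝ, Leaf W W₁ p Q γ v ∧ ∀ t ∈ Set.Icc s (s + Q), γ t = ξ t := by
  have hQ' : (0 : ℝ) < Q := by exact_mod_cast hQ
  have hsQ : s < s + Q := by linarith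
  have hle := Ep_le (p := p) hW hQ s (ξ s)
  have hmin : A1 W s (s + Q) ξ u ≤ Dm W s (s + Q) (ξ s) (ξ (s + Q)) := by
    rw [hcl]
    exact hact.trans hle
  obtain ⟨γ, v, hγ, hγξ⟩ := min_ext hW hsQ hξ hmin
  -- the window starting at the middle
  set m : ℝ := s + Q / 2 with hm
  have hsm : s ≤ m := by linarith
  have hmQ : m ≤ s + Q := by linarith
  have h1 : Cur m (s + Q) ξ u := hξ.sub hsm hmQ le_rfl
  have h2 : Cur s m ξ u := hξ.sub le_rfl hsm hmQ
  have h3 := (h2.shift Q).add_lin (p : ℝ) 0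
  obtain ⟨η, w, hη, hηl, hηr⟩ := h1.concat h3 (by
    have e : s + (Q : ℝ) - Q = s := by ring
    rw [e, hcl]
    ring)
  have hmm : m + Q = s + Q + Q / 2 := by rw [hm]; ring
  have hηm : η m = ξ m := (hηl m hmQ).1
  have hηm2 : η (m + Q) = ξ m + p := by
    rw [(hηr (m + Q) (by linarith)).1]
    have e : m + (Q : ℝ) - Q = m := by ring
    rw [e]
    ring
  have hA : A1 W m (m + Q) η w = A1 W s (s + Q) ξ u := by
    have e1 : A1 W m (s + Q) η w = A1 W m (s + Q) ξ u := by
      unfold A1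
      refine intervalIntegral.integral_congr_ae (Filter.Eventually.of_forall fun t ht => ?_)
      rw [Set.uIoc_of_le hmQ] at ht
      rw [(hηl t ht.2).1, (hηl t ht.2).2]
    have e2 : A1 W (s + Q) (m + Q) η w = A1 W s m ξ u := by
      unfold A1
      have e3 : ∫ t in (s + Q)..(m + Q), (w t ^ 2 / 2 - W (η t) t) =
          ∫ t in (s + Q)..(m + Q), (fun τ => u τ ^ 2 / 2 - W (ξ τ) τ) (t - Q) := by
        refine intervalIntegral.integral_congr_ae (Filter.Eventually.of_forall fun t ht => ?_)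
        rw [Set.uIoc_of_le (by linarith)] at ht
        rw [(hηr t ht.1).1, (hηr t ht.1).2]
        have e4 := g9a_perW hW p Q (ξ (t - Q)) (t - Q)
        have e5 : t - (Q : ℝ) + Q = t := by ring
        rw [e5] at e4
        dsimp only
        rw [← e4]
        have e6 : ξ (t - Q) + ((p : ℝ) + 0 * t) = ξ (t - Q) + p := by ring
        rw [e6, add_zero]
      rw [e3, intervalIntegral.integral_comp_sub_right (fun τ => u τ ^ 2 / 2 - W (ξ τ) τ) (Q : ℝ)]
      have e7 : s + (Q : ℝ) - Q = s := by ring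
      have e8 : m + (Q : ℝ) - Q = m := by ring
      rw [e7, e8]
    have e9 : A1 W m (m + Q) η w = A1 W m (s + Q) η w + A1 W (s + Q) (m + Q) η w := by
      unfold A1
      rw [intervalIntegral.integral_add_adjacent_intervals
        (g9a_int hW (hη.sub le_rfl hmQ (by linarith)))
        (g9a_int hW (hη.sub hmQ (by linarith) le_rfl))]
    have e10 : A1 W s (s + Q) ξ u = A1 W s m ξ u + A1 W m (s + Q) ξ u := by
      unfold A1
      rw [intervalIntegral.integral_add_adjacent_intervals (g9a_int hW h2) (g9a_int hW h1)]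
    rw [e9, e1, e2, e10, add_comm]
  have hmin2 : A1 W m (m + Q) η w ≤ Dm W m (m + Q) (η m) (η (m + Q)) := by
    rw [hA, hηm, hηm2]
    exact hact.trans (Ep_le (p := p) hW hQ m (ξ m))
  obtain ⟨γ₂, v₂, hγ₂, hγ₂η⟩ := min_ext hW (by linarith) hη hmin2
  have hag1 := g9a_agree hW hγ hγ₂ (c := m) (d := s + Q) (by linarith) fun t ht => by
    rw [hγξ t ⟨hsm.trans ht.1, ht.2⟩, hγ₂η t ⟨ht.1, ht.2.trans (by linarith)⟩, (hηl t ht.2).1]
  -- the shifted solution
  have hsh := ext_shift hW hγ (-(Q : ℤ)) p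
  have hag2 := g9a_agree hW hγ₂ hsh (c := s + Q + Q / 4) (d := m + Q) (by linarith) fun t ht => by
    have htQ : s + (Q : ℝ) < t := by
      have := ht.1
      linarith
    have e1 : t + ((-(Q : ℤ) : ℤ) : ℝ) * 1 = t - Q := by
      push_cast
      ring
    rw [hγ₂η t ⟨hmQ.trans htQ.le, ht.2⟩, (hηr t htQ).1]
    rw [e1, hγξ (t - Q) ⟨by linarith, by
      have := ht.2
      linarith⟩]
    ring
  have hper : ∀ t, γ (t + Q) = γ t + p := by
    intro t
    have e1 : γ (t + Q) = γ₂ (t + Q) := by rw [hag1.1]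
    have e2 : γ₂ (t + Q) = γ (t + Q + ((-(Q : ℤ) : ℤ) : ℝ) * 1) + p :=
      congrFun hag2.1 (t + Q)
    have e3 : t + (Q : ℝ) + ((-(Q : ℤ) : ℤ) : ℝ) * 1 = t := by
      push_cast
      ring
    rw [e1, e2, e3]
  have hvper : ∀ t, v (t + Q) = v t := by
    intro t
    have e1 : v (t + Q) = v₂ (t + Q) := by rw [hag1.2]
    have e2 : v₂ (t + Q) = v (t + Q + ((-(Q : ℤ) : ℤ) : ℝ) * 1) := congrFun hag2.2 (t + Q)
    have e3 : t + (Q : ℝ) + ((-(Q : ℤ) : ℤ) : ℝ) * 1 = t := by
      push_cast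
      ring
    rw [e1, e2, e3]
  -- the action over `[s, s + Q]`
  have hAs : A1 W s (s + Q) γ v = A1 W s (s + Q) ξ u := by
    obtain ⟨S, hS, hder⟩ := hξ.der
    unfold A1
    refine intervalIntegral.integral_congr_ae ?_
    have hS' : (insert (s + (Q : ℝ)) S).Countable := hS.insert _
    filter_upwards [hS'.ae_notMem volume] with t ht htI
    rw [Set.uIoc_of_le hsQ.le] at htI
    have ht1 : t ≠ s + Q := fun h => ht (by rw [h]; exact Set.mem_insert _ _)
    have ht2 : t ∉ S := fun h => ht (Set.mem_insert_of_mem _ h)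
    have ht3 : t < s + Q := lt_of_le_of_ne htI.2 ht1
    have hd := hder t ⟨⟨htI.1, ht3⟩, ht2⟩
    have heq : γ =ᶠ[nhds t] ξ := by
      filter_upwards [Ioo_mem_nhds htI.1 ht3] with x hx
      exact hγξ x ⟨hx.1.le, hx.2.le⟩
    have hv : v t = u t := (hγ.der t).unique (hd.congr_of_eventuallyEq heq)
    rw [hv, hγξ t ⟨htI.1.le, htI.2⟩]
  have hAge : EpQ W p Q ≤ A1 W s (s + Q) γ v := by
    obtain ⟨u₀, hu₀, hu₀v⟩ := Cur.of_ext hγ hsQ.le
    have hD := Dm_le hW hu₀
    rw [hper] at hD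
    have e : A1 W s (s + Q) γ u₀ = A1 W s (s + Q) γ v := by
      unfold A1
      refine intervalIntegral.integral_congr_ae (Filter.Eventually.of_forall fun t ht => ?_)
      rw [Set.uIoc_of_le hsQ.le] at ht
      rw [hu₀v t ⟨ht.1.le, ht.2⟩]
    rw [e] at hD
    exact (Ep_le (p := p) hW hQ s (γ s)).trans hD
  have hAeq : A1 W s (s + Q) γ v = EpQ W p Q := le_antisymm (by rw [hAs]; exact hact) hAge
  refine ⟨γ, v, ⟨hγ, hper, hvper, fun s' => ?_⟩, hγξ⟩
  have hfper : Function.Periodic (fun t => v t ^ 2 / 2 - W (γ t) t) Q := by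
    intro t
    dsimp only
    rw [hvper, hper, g9a_perW hW p Q]
  rw [← hAeq]
  unfold A1
  exact hfper.intervalIntegral_add_eq s' s

end Pool.Agent.H33.AN

end

section

/-!
# Module G9: minimising closed orbits (leaves)

* `closed_min_ext`: extend `ξ` to a closed curve (`ξ (t + Q) = ξ t + p`); its action over a period is the
  minimum `EpQ W p Q` (`Ep_le`), so it minimises on every window `[s', s' + Q]` (a better curve on the
  window would give a closed curve of smaller action), and `min_ext` on the windows starting at `s`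
  and `s + Q/2` shows that the closed curve agrees with a solution on the whole line (on the
  overlaps the positions agree, so the velocities too, and `ext_unique` applies); then periodicity
  of `γ`, `v`, and the action over every period is `EpQ W p Q`.
* `leaf_exists`: `Dm_exists` from `(x, s)` to `(x + p, s + Q)`, `Cur.of_ext`, `closed_min_ext`.
* `leaf_zero`: `Ep_le` and `Dm_le`.
* `leaf_order`: suppose `γ s < γ' s` and `γ t ≥ γ' t` for some `t`; by periodicity one may take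
  `t ∈ (s, s + Q)`. `min γ γ'` and `max γ γ'` on `[s, s + Q]` are closed curves with the sum of the actions
  `2 EpQ` (`Cur.minmax`), so both have the action `EpQ` (`Ep_le`) and agree with leaves (`closed_min_ext`); the minimum agrees
  with `γ` near `s`, so it is `γ` everywhere (`ext_unique`), so `γ ≤ γ'` on `[s, s + Q]`, and at a
  touching time in the interior the velocities agree: `γ = γ'` by `ext_unique`, contradiction.
* `leaf_unique`: if `γ s = γ' s`, `v s ≠ v' s`, then `min γ γ'` (base time `s - Q/2`) is a closed curve of minimal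
  action with a corner at `s`: contradiction to `closed_min_ext`.
* `leaf_shift`: integer translates in `x` and `t` of leaves are leaves.
* `leaf_vbound`: if `γ (t + 1) ≥ γ t + k` for some `t` then the leaves `γ (· + 1)`, `γ + k` are ordered
  (`leaf_order`, `leaf_unique`), hence `γ (t + j) ≥ γ t + j k` for all `j`, and `p/Q ≥ k`; likewise with
  `≤`. So `|γ (t + 1) - γ t - p/Q| ≤ 1`; conclude by `ext_vbound`.
-/

set_option autoImplicit false

open MeasureTheory
open scoped RealInnerProductSpace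

namespace Pool.Agent.H33.AN

variable {B : ℝ} {W W₁ W₂ : ℝ → ℝ → ℝ} {p : ℤ} {Q : ℕ}

private theorem G9b_A1_congr {a b : ℝ} (hab : a ≤ b) {γ u v : ℝ → ℝ}
    (h : ∀ t ∈ Set.Icc a b, u t = v t) : A1 W a b γ u = A1 W a b γ v := by
  unfold A1
  apply intervalIntegral.integral_congr
  intro t ht
  rw [Set.uIcc_of_le hab] at ht
  simp only [h t ht]

theorem leaf_exists (hW : HW 1 W W₁ W₂ B) (hQ : 0 < Q) {s x : ℝ}
    (h : Dm W s (s + Q) x (x + p) = EpQ W p Q) :
    ∃ γ v : ℝ → ℝ, Leaf W W₁ p Q γ v ∧ γ s = x := by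
  have hQ' : (0 : ℝ) < Q := by exact_mod_cast hQ
  have hlt : s < s + Q := by linarith
  obtain ⟨γ, v, hext, h1, h2, h3⟩ := Dm_exists hW hlt x (x + p)
  obtain ⟨u, hu, huv⟩ := Cur.of_ext hext hlt.le
  have hA : A1 W s (s + Q) γ u ≤ EpQ W p Q := by
    rw [G9b_A1_congr hlt.le huv, h3, h]
  obtain ⟨γ', v', hL, hE⟩ := closed_min_ext hW hQ hu (by rw [h1, h2]) hA
  exact ⟨γ', v', hL, by rw [hE s ⟨le_rfl, hlt.le⟩, h1]⟩

theorem leaf_zero (hW : HW 1 W W₁ W₂ B) (hQ : 0 < Q) {γ v : ℝ → ℝ} (h : Leaf W W₁ p Q γ v)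
    (s : ℝ) : Dm W s (s + Q) (γ s) (γ s + p) = EpQ W p Q := by
  have hQ' : (0 : ℝ) < Q := by exact_mod_cast hQ
  have hlt : s < s + Q := by linarith
  refine le_antisymm ?_ (Ep_le hW hQ s (γ s))
  obtain ⟨u, hu, huv⟩ := Cur.of_ext h.ext hlt.le
  have h1 := Dm_le hW hu
  rw [G9b_A1_congr hlt.le huv, h.act s, h.per s] at h1
  exact h1

theorem leaf_shift (hW : HW 1 W W₁ W₂ B) {γ v : ℝ → ℝ} (h : Leaf W W₁ p Q γ v)
    (j k : ℤ) : Leaf W W₁ p Q (fun t => γ (t + j) + k) fun t => v (t + j) := by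
  have hper1 : ∀ x t, W (x + k) t = W x t := by
    intro x t
    have h1 : Function.Periodic (fun x => W x t) 1 := fun x => hW.per₁ x t
    have h2 := h1.int_mul k x
    simpa using h2
  have hper2 : ∀ x t, W x (t + j) = W x t := by
    intro x t
    have h1 : Function.Periodic (fun t => W x t) 1 := fun t => hW.per₂ x t
    have h2 := h1.int_mul j t
    simpa using h2
  refine ⟨?_, ?_, ?_, ?_⟩
  · have h1 := ext_shift hW h.ext j k
    simpa using h1
  · intro t
    show γ (t + Q + j) + k = γ (t + j) + k + p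
    rw [show t + (Q : ℝ) + j = t + j + Q by ring, h.per]
    ring
  · intro t
    show v (t + Q + j) = v (t + j)
    rw [show t + (Q : ℝ) + j = t + j + Q by ring, h.vper]
  · intro s
    have h1 := h.act (s + j)
    unfold A1 at h1 ⊢
    rw [← h1]
    have h2 : ∫ t in s..s + Q, (v (t + j) ^ 2 / 2 - W (γ (t + j) + k) t) =
        ∫ t in s..s + Q, (fun τ => v τ ^ 2 / 2 - W (γ τ) τ) (t + j) := by
      apply intervalIntegral.integral_congr
      intro t _
      simp only [hper1, hper2]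
    rw [h2, intervalIntegral.integral_comp_add_right (fun τ => v τ ^ 2 / 2 - W (γ τ) τ) (j : ℝ),
      show s + (Q : ℝ) + j = s + j + Q by ring]

end Pool.Agent.H33.AN

end

section

/-!
# Module G9: minimising closed orbits (leaves)

* `closed_min_ext`: extend `ξ` to a closed curve (`ξ (t + Q) = ξ t + p`); its action over a period is the
  minimum `EpQ W p Q` (`Ep_le`), so it minimises on every window `[s', s' + Q]` (a better curve on the
  window would give a closed curve of smaller action), and `min_ext` on the windows starting at `s`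
  and `s + Q/2` shows that the closed curve agrees with a solution on the whole line (on the
  overlaps the positions agree, so the velocities too, and `ext_unique` applies); then periodicity
  of `γ`, `v`, and the action over every period is `EpQ W p Q`.
* `leaf_exists`: `Dm_exists` from `(x, s)` to `(x + p, s + Q)`, `Cur.of_ext`, `closed_min_ext`.
* `leaf_zero`: `Ep_le` and `Dm_le`.
* `leaf_order`: suppose `γ s < γ' s` and `γ t ≥ γ' t` for some `t`; by periodicity one may take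
  `t ∈ (s, s + Q)`. `min γ γ'` and `max γ γ'` on `[s, s + Q]` are closed curves with the sum of the actions
  `2 EpQ` (`Cur.minmax`), so both have the action `EpQ` (`Ep_le`) and agree with leaves (`closed_min_ext`); the minimum agrees
  with `γ` near `s`, so it is `γ` everywhere (`ext_unique`), so `γ ≤ γ'` on `[s, s + Q]`, and at a
  touching time in the interior the velocities agree: `γ = γ'` by `ext_unique`, contradiction.
* `leaf_unique`: if `γ s = γ' s`, `v s ≠ v' s`, then `min γ γ'` (base time `s - Q/2`) is a closed curve of minimal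
  action with a corner at `s`: contradiction to `closed_min_ext`.
* `leaf_shift`: integer translates in `x` and `t` of leaves are leaves.
* `leaf_vbound`: if `γ (t + 1) ≥ γ t + k` for some `t` then the leaves `γ (· + 1)`, `γ + k` are ordered
  (`leaf_order`, `leaf_unique`), hence `γ (t + j) ≥ γ t + j k` for all `j`, and `p/Q ≥ k`; likewise with
  `≤`. So `|γ (t + 1) - γ t - p/Q| ≤ 1`; conclude by `ext_vbound`.
-/

set_option autoImplicit false

open MeasureTheory
open scoped RealInnerProductSpace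

namespace Pool.Agent.H33.AN

variable {B : ℝ} {W W₁ W₂ : ℝ → ℝ → ℝ} {p : ℤ} {Q : ℕ}

private theorem G9c_touch {γ v g w : ℝ → ℝ} (h : Ext W₁ γ v) (hg : Ext W₁ g w) {a b t : ℝ}
    (ht : t ∈ Set.Ioo a b) (hle : ∀ r ∈ Set.Icc a b, g r ≤ γ r) (heq : g t = γ t) : v t = w t := by
  have hd : HasDerivAt (fun r => γ r - g r) (v t - w t) t := (h.der t).sub (hg.der t)
  have hmin : IsLocalMin (fun r => γ r - g r) t := by
    filter_upwards [Icc_mem_nhds ht.1 ht.2] with r hr
    have := hle r hr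
    linarith
  have := hmin.hasDerivAt_eq_zero hd
  linarith

private theorem G9c_min (hW : HW 1 W W₁ W₂ B) (hQ : 0 < Q) {γ v γ' v' : ℝ → ℝ}
    (h : Leaf W W₁ p Q γ v) (h' : Leaf W W₁ p Q γ' v') (a : ℝ) :
    ∃ g w : ℝ → ℝ, Leaf W W₁ p Q g w ∧ ∀ t ∈ Set.Icc a (a + Q), g t = min (γ t) (γ' t) := by
  have hQ' : (0 : ℝ) < Q := by exact_mod_cast hQ
  have hle : a ≤ a + Q := by linarith
  obtain ⟨u, hu, huv⟩ := Cur.of_ext h.ext hle
  obtain ⟨u', hu', huv'⟩ := Cur.of_ext h'.ext hle
  obtain ⟨u₁, u₂, c1, c2, hsum⟩ := Cur.minmax hW hu hu'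
  have hA : ∀ {δ ν κ : ℝ → ℝ}, (∀ t ∈ Set.Icc a (a + Q), κ t = ν t) →
      A1 W a (a + Q) δ κ = A1 W a (a + Q) δ ν := by
    intro δ ν κ hk
    unfold A1
    apply intervalIntegral.integral_congr
    intro t ht
    rw [Set.uIcc_of_le hle] at ht
    dsimp only
    rw [hk t ht]
  have a1 : A1 W a (a + Q) γ u = EpQ W p Q := by rw [hA huv, h.act a]
  have a2 : A1 W a (a + Q) γ' u' = EpQ W p Q := by rw [hA huv', h'.act a]
  have e1 : min (γ (a + Q)) (γ' (a + Q)) = min (γ a) (γ' a) + p := by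
    rw [h.per, h'.per, min_add_add_right]
  have e2 : max (γ (a + Q)) (γ' (a + Q)) = max (γ a) (γ' a) + p := by
    rw [h.per, h'.per, max_add_add_right]
  have b1 := Dm_le hW c1
  have b2 := Dm_le hW c2
  rw [e1] at b1
  rw [e2] at b2
  have m1 := Ep_le (p := p) hW hQ a (min (γ a) (γ' a))
  have m2 := Ep_le (p := p) hW hQ a (max (γ a) (γ' a))
  exact closed_min_ext hW hQ c1 e1 (by linarith)

theorem leaf_order (hW : HW 1 W W₁ W₂ B) (hQ : 0 < Q) {γ v γ' v' : ℝ → ℝ}
    (h : Leaf W W₁ p Q γ v) (h' : Leaf W W₁ p Q γ' v') {s : ℝ} (hs : γ s < γ' s) (t : ℝ) :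
    γ t < γ' t := by
  by_contra hcon
  rw [not_lt] at hcon
  have hQ' : (0 : ℝ) < Q := by exact_mod_cast hQ
  have hper : Function.Periodic (fun r => γ' r - γ r) (Q : ℝ) := by
    intro r
    dsimp only
    rw [h.per, h'.per]
    ring
  obtain ⟨t0, ht0, hF⟩ := hper.exists_mem_Ico hQ' t s
  have ht0s : t0 ≠ s := by
    intro he
    rw [he] at hF
    linarith
  have ht0' : t0 ∈ Set.Ioo s (s + Q) := ⟨lt_of_le_of_ne ht0.1 (Ne.symm ht0s), ht0.2⟩
  obtain ⟨g, w, hg, hgm⟩ := G9c_min hW hQ h h' s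
  have hgle : ∀ r ∈ Set.Icc s (s + Q), g r ≤ γ r := by
    intro r hr
    rw [hgm r hr]
    exact min_le_left _ _
  -- a time where g touches γ
  have hev : ∀ᶠ r in nhds s, γ r < γ' r :=
    (h.ext.der s).continuousAt.eventually_lt (h'.ext.der s).continuousAt hs
  have hev2 : ∀ᶠ r in nhdsWithin s (Set.Ioi s), r ∈ Set.Ioo s (s + Q) :=
    Ioo_mem_nhdsGT (by linarith)
  obtain ⟨t1, ht1, ht1'⟩ := ((hev.filter_mono nhdsWithin_le_nhds).and hev2).exists
  have heq1 : g t1 = γ t1 := by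
    rw [hgm t1 ⟨ht1'.1.le, ht1'.2.le⟩, min_eq_left ht1.le]
  have hv1 := G9c_touch h.ext hg.ext ht1' hgle heq1
  obtain ⟨hgg, _⟩ := ext_unique hW hg.ext h.ext heq1 hv1.symm
  have hle : ∀ r ∈ Set.Icc s (s + Q), γ r ≤ γ' r := by
    intro r hr
    have := hgm r hr
    rw [hgg] at this
    rw [this]
    exact min_le_right _ _
  have heq0 : γ t0 = γ' t0 := by
    apply le_antisymm (hle t0 ⟨ht0'.1.le, ht0'.2.le⟩)
    linarith
  have hv0 := G9c_touch h'.ext h.ext ht0' hle heq0
  obtain ⟨hgg2, _⟩ := ext_unique hW h.ext h'.ext heq0 hv0.symm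
  rw [hgg2] at hs
  exact lt_irrefl _ hs

theorem leaf_unique (hW : HW 1 W W₁ W₂ B) (hQ : 0 < Q) {γ v γ' v' : ℝ → ℝ}
    (h : Leaf W W₁ p Q γ v) (h' : Leaf W W₁ p Q γ' v') {s : ℝ} (hs : γ s = γ' s) :
    γ = γ' ∧ v = v' := by
  have hQ' : (0 : ℝ) < Q := by exact_mod_cast hQ
  obtain ⟨g, w, hg, hgm⟩ := G9c_min hW hQ h h' (s - Q / 2)
  have hsI : s ∈ Set.Ioo (s - Q / 2 : ℝ) (s - Q / 2 + Q) := ⟨by linarith, by linarith⟩
  have hm := hgm s ⟨hsI.1.le, hsI.2.le⟩
  have e1 : g s = γ s := by rw [hm, ← hs, min_self]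
  have e2 : g s = γ' s := by rw [hm, hs, min_self]
  have k1 := G9c_touch h.ext hg.ext hsI (fun r hr => by rw [hgm r hr]; exact min_le_left _ _) e1
  have k2 := G9c_touch h'.ext hg.ext hsI (fun r hr => by rw [hgm r hr]; exact min_le_right _ _) e2
  exact ext_unique hW h.ext h'.ext hs (k1.trans k2.symm)

end Pool.Agent.H33.AN

end

section

/-!
# Module G9: minimising closed orbits (leaves)

* `closed_min_ext`: extend `ξ` to a closed curve (`ξ (t + Q) = ξ t + p`); its action over a period is the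
  minimum `EpQ W p Q` (`Ep_le`), so it minimises on every window `[s', s' + Q]` (a better curve on the
  window would give a closed curve of smaller action), and `min_ext` on the windows starting at `s`
  and `s + Q/2` shows that the closed curve agrees with a solution on the whole line (on the
  overlaps the positions agree, so the velocities too, and `ext_unique` applies); then periodicity
  of `γ`, `v`, and the action over every period is `EpQ W p Q`.
* `leaf_exists`: `Dm_exists` from `(x, s)` to `(x + p, s + Q)`, `Cur.of_ext`, `closed_min_ext`.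
* `leaf_zero`: `Ep_le` and `Dm_le`.
* `leaf_order`: suppose `γ s < γ' s` and `γ t ≥ γ' t` for some `t`; by periodicity one may take
  `t ∈ (s, s + Q)`. `min γ γ'` and `max γ γ'` on `[s, s + Q]` are closed curves with the sum of the actions
  `2 EpQ` (`Cur.minmax`), so both have the action `EpQ` (`Ep_le`) and agree with leaves (`closed_min_ext`); the minimum agrees
  with `γ` near `s`, so it is `γ` everywhere (`ext_unique`), so `γ ≤ γ'` on `[s, s + Q]`, and at a
  touching time in the interior the velocities agree: `γ = γ'` by `ext_unique`, contradiction.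
* `leaf_unique`: if `γ s = γ' s`, `v s ≠ v' s`, then `min γ γ'` (base time `s - Q/2`) is a closed curve of minimal
  action with a corner at `s`: contradiction to `closed_min_ext`.
* `leaf_shift`: integer translates in `x` and `t` of leaves are leaves.
* `leaf_vbound`: if `γ (t + 1) ≥ γ t + k` for some `t` then the leaves `γ (· + 1)`, `γ + k` are ordered
  (`leaf_order`, `leaf_unique`), hence `γ (t + j) ≥ γ t + j k` for all `j`, and `p/Q ≥ k`; likewise with
  `≤`. So `|γ (t + 1) - γ t - p/Q| ≤ 1`; conclude by `ext_vbound`.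
-/

set_option autoImplicit false

open MeasureTheory
open scoped RealInnerProductSpace

namespace Pool.Agent.H33.AN

variable {B : ℝ} {W W₁ W₂ : ℝ → ℝ → ℝ} {p : ℤ} {Q : ℕ}

private theorem step_ge (hW : HW 1 W W₁ W₂ B) (hQ : 0 < Q) {γ v : ℝ → ℝ}
    (h : Leaf W W₁ p Q γ v) {t : ℝ} {k : ℤ} (hk : γ t + k ≤ γ (t + 1)) : (k : ℝ) ≤ (p : ℝ) / Q := by
  have hQ0 : (0 : ℝ) < Q := by exact_mod_cast hQ
  have h1 : ∀ s, γ s + k ≤ γ (s + 1) := by
    intro s
    by_contra hs
    have hs' : γ (s + 1) < γ s + k := lt_of_not_ge hs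
    have l1 := leaf_shift hW h 1 0
    have l2 := leaf_shift hW h 0 k
    have h2 := leaf_order hW hQ l1 l2 (s := s) (by push_cast; rw [add_zero, add_zero]; exact hs') t
    push_cast at h2
    rw [add_zero, add_zero] at h2
    linarith
  have h2 : ∀ j : ℕ, γ t + j * k ≤ γ (t + j) := by
    intro j
    induction j with
    | zero => simp
    | succ j ih =>
      have h3 := h1 (t + j)
      push_cast
      rw [← add_assoc]
      linarith
  have h3 := h2 Q
  rw [h.per t] at h3
  rw [le_div_iff₀ hQ0]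
  linarith

private theorem step_le (hW : HW 1 W W₁ W₂ B) (hQ : 0 < Q) {γ v : ℝ → ℝ}
    (h : Leaf W W₁ p Q γ v) {t : ℝ} {k : ℤ} (hk : γ (t + 1) ≤ γ t + k) : (p : ℝ) / Q ≤ (k : ℝ) := by
  have hQ0 : (0 : ℝ) < Q := by exact_mod_cast hQ
  have h1 : ∀ s, γ (s + 1) ≤ γ s + k := by
    intro s
    by_contra hs
    have hs' : γ s + k < γ (s + 1) := lt_of_not_ge hs
    have l1 := leaf_shift hW h 1 0
    have l2 := leaf_shift hW h 0 k
    have h2 := leaf_order hW hQ l2 l1 (s := s) (by push_cast; rw [add_zero, add_zero]; exact hs') t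
    push_cast at h2
    rw [add_zero, add_zero] at h2
    linarith
  have h2 : ∀ j : ℕ, γ (t + j) ≤ γ t + j * k := by
    intro j
    induction j with
    | zero => simp
    | succ j ih =>
      have h3 := h1 (t + j)
      push_cast
      rw [← add_assoc]
      linarith
  have h3 := h2 Q
  rw [h.per t] at h3
  rw [div_le_iff₀ hQ0]
  linarith

theorem leaf_vbound (hW : HW 1 W W₁ W₂ B) (hQ : 0 < Q) {γ v : ℝ → ℝ}
    (h : Leaf W W₁ p Q γ v) (t : ℝ) : |v t - (p : ℝ) / Q| ≤ 1 + B := by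
  have h1 := step_ge hW hQ h (t := t) (k := ⌊γ (t + 1) - γ t⌋)
    (by linarith [Int.floor_le (γ (t + 1) - γ t)])
  have h2 := step_le hW hQ h (t := t) (k := ⌈γ (t + 1) - γ t⌉)
    (by linarith [Int.le_ceil (γ (t + 1) - γ t)])
  have h3 := Int.lt_floor_add_one (γ (t + 1) - γ t)
  have h4 := Int.ceil_lt_add_one (γ (t + 1) - γ t)
  have h5 := ext_vbound hW h.ext (a := t) (b := t + 1) (by linarith)
    (Set.left_mem_Icc.2 (by linarith))
  have e : t + 1 - t = 1 := by ring
  rw [e, div_one, mul_one] at h5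
  have h6 := abs_le.1 h5
  exact abs_le.2 ⟨by linarith [h6.1], by linarith [h6.2]⟩

end Pool.Agent.H33.AN

end
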