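import Pool.Agent.H47.B0.M02
import Pool.Agent.H47.B0.M07

/-! The parts of this file: H33.AN.P.X2a, H33.AN.P.Z1a, H33.AN.P.Z1b, H33.AN.P.M5a, H33.AN.P.J1a, H33.AN.P.K3a, H33.AN.P.L3a, H33.AN.P.L3b, H33.AN.P.M4a. -/

section

/-!
# Module X2: discrete minimisers

(Compare `Pool/Agent/H33/AM/P/X2a.lean`, `X2b.lean`, `X2c.lean`: the same for `K v + A(x) · v - V(x)`.)
`τ = T / N`, `v_i = (1/τ) (x_{i+1} - x_i)`, `t_i = i τ`, `S = Sd2 G V τ N`; `T` is a positive integer (the number of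
periods).
* `disc_exists2`: a quasi-periodic sequence is determined by `(x_0, …, x_{N-1}) ∈ (ℝⁿ)^N`; `S` is
  continuous in these variables, invariant under the translations by `zv k'`, so one may restrict to
  `x_0 ∈ [0, 1]ⁿ`, and coercive there: `⟪G v, v⟫ ≥ κ₁ ‖v‖²`, `|V| ≤ B`.
* `disc_EL2`: for `0 ≤ i < N`; derivative of `S` in the direction of the variable `x_i` (moved together with all
  the `x_{i + j N}`): the terms `i` and `i - 1` (for `i = 0`: the terms `0` and `N - 1`, where `v_{N-1} = v_{-1}`)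
  give `-G v_i - τ F(x_i, t_i) + G v_{i-1} = 0`. (The case `N = 1`: then `x_{i+1}`, `x_i` move together,
  `v_i = v_{i-1}`; the formula is still true.)
* `disc_EL2'`: for all `i`, since `x_{i+N} = x_i + zv k`, `v_{i+N} = v_i` and `F(x + zv k, t + T) = F(x, t)`
  (`HV2.perF`, `HV2.pertF`, `T` integer).
* `disc_bound2`: `S(x) ≤ S(straight line) ≤ T (κ₂/2 ‖zv k/T‖² + B)`, so `∑ τ ‖v_i‖² ≤ C`; by `disc_EL2`,
  `‖G v_i - G v_j‖ ≤ ∑ τ B ≤ T B` for all `i`, `j`; `κ₁ ‖v_i - v_j‖ ≤ ‖G v_i - G v_j‖`, and some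
  `‖v_j‖² ≤ C/T` (average), so `‖v_i‖ ≤ R`, with `R` independent of `N` and of `x`.
-/

set_option autoImplicit false

open MeasureTheory
open scoped RealInnerProductSpace

namespace Pool.Agent.H33.AN

open Pool.Agent.H33.AM

variable {n : ℕ} {G G' : EuclideanSpace ℝ (Fin n) →L[ℝ] EuclideanSpace ℝ (Fin n)} {κ₁ κ₂ : ℝ}
  {V : EuclideanSpace ℝ (Fin n) → ℝ → ℝ}
  {F : EuclideanSpace ℝ (Fin n) → ℝ → EuclideanSpace ℝ (Fin n)}
  {Vt : EuclideanSpace ℝ (Fin n) → ℝ → ℝ} {B : ℝ} {T N : ℕ} {k : Fin n → ℤ}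

/-- The quasi-periodic extension. -/
private noncomputable def X2a_ext (N : ℕ) (k : Fin n → ℤ) (y : ℕ → EuclideanSpace ℝ (Fin n))
    (i : ℤ) : EuclideanSpace ℝ (Fin n) :=
  y (i % (N : ℤ)).toNat + zv ((i / (N : ℤ)) • k)

private theorem X2a_ext_per (hN : 0 < N) (k : Fin n → ℤ) (y : ℕ → EuclideanSpace ℝ (Fin n))
    (i : ℤ) : X2a_ext N k y (i + N) = X2a_ext N k y i + zv k := by
  have hN' : (N : ℤ) ≠ 0 := by exact_mod_cast hN.ne'
  have h1 : (i + (N : ℤ)) % (N : ℤ) = i % (N : ℤ) := by simp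
  have h2 : (i + (N : ℤ)) / (N : ℤ) = i / (N : ℤ) + 1 := by
    have := Int.add_mul_ediv_right i 1 hN'
    rwa [one_mul] at this
  unfold X2a_ext
  rw [h1, h2, add_smul, one_smul, zv_add, add_assoc]

private theorem X2a_per_mul {x : ℤ → EuclideanSpace ℝ (Fin n)}
    (hx : ∀ i, x (i + N) = x i + zv k) (m : ℤ) : ∀ i, x (i + m * N) = x i + zv (m • k) := by
  induction m using Int.induction_on with
  | zero => intro i; simp [zv_zero]
  | succ m ih =>
    intro i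
    have h1 : i + ((m : ℤ) + 1) * (N : ℤ) = (i + (m : ℤ) * N) + N := by ring
    rw [h1, hx, ih, add_smul, one_smul, zv_add, add_assoc]
  | pred m ih =>
    intro i
    have h1 : i + (-(m : ℤ)) * (N : ℤ) = (i + (-(m : ℤ) - 1) * N) + N := by ring
    have h2 := ih i
    rw [h1, hx] at h2
    have h3 : zv ((-(m : ℤ)) • k) = zv ((-(m : ℤ) - 1) • k) + zv k := by
      have h4 : (-(m : ℤ)) • k = (-(m : ℤ) - 1) • k + k := by
        rw [sub_smul, one_smul, sub_add_cancel]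
      rw [← zv_add, ← h4]
    rw [h3, ← add_assoc] at h2
    exact add_right_cancel h2

private theorem X2a_eq_ext (hN : 0 < N) {x : ℤ → EuclideanSpace ℝ (Fin n)}
    (hx : ∀ i, x (i + N) = x i + zv k) {y : ℕ → EuclideanSpace ℝ (Fin n)}
    (hy : ∀ j : ℕ, j < N → y j = x j) (i : ℤ) : x i = X2a_ext N k y i := by
  have hN' : (N : ℤ) ≠ 0 := by exact_mod_cast hN.ne'
  have h0 : 0 ≤ i % (N : ℤ) := Int.emod_nonneg _ hN'
  have h1 : i % (N : ℤ) < N := Int.emod_lt_of_pos _ (by exact_mod_cast hN)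
  unfold X2a_ext
  rw [hy _ (by omega)]
  have h2 : ((i % (N : ℤ)).toNat : ℤ) = i % (N : ℤ) := Int.toNat_of_nonneg h0
  rw [h2, ← X2a_per_mul hx]
  congr 1
  have := Int.emod_add_mul_ediv i (N : ℤ)
  linarith [mul_comm (N : ℤ) (i / (N : ℤ))]

private theorem X2a_V_cont (hV : HV2 1 V F Vt B) :
    Continuous fun z : EuclideanSpace ℝ (Fin n) × ℝ => V z.1 z.2 :=
  continuous_iff_continuousAt.2 fun z => (hV.der z.1 z.2).continuousAt

private theorem X2a_lag_cont (hV : HV2 1 V F Vt B) (t : ℝ) :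
    Continuous fun p : EuclideanSpace ℝ (Fin n) × EuclideanSpace ℝ (Fin n) =>
      lag2 G V p.1 p.2 t := by
  have cV := X2a_V_cont hV
  unfold lag2
  exact (((G.continuous.comp continuous_snd).inner continuous_snd).div_const 2).sub
    (cV.comp (continuous_fst.prodMk continuous_const))

private theorem X2a_lag_lo (hG : HG G κ₁ κ₂) (hV : HV2 1 V F Vt B) :
    ∃ C : ℝ, 0 ≤ C ∧ ∀ (x v : EuclideanSpace ℝ (Fin n)) (t : ℝ),
      κ₁ / 4 * ‖v‖ ^ 2 - C ≤ lag2 G V x v t := by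
  refine ⟨B, hV.nonneg, ?_⟩
  intro x v t
  have h1 := hG.lo v
  have h2 := (abs_le.1 (hV.bd x t)).2
  have h3 : 0 ≤ κ₁ * ‖v‖ ^ 2 := mul_nonneg hG.pos.le (sq_nonneg _)
  unfold lag2
  linarith

private theorem X2a_Sd_lo {C : ℝ}
    (h : ∀ (x v : EuclideanSpace ℝ (Fin n)) (t : ℝ), κ₁ / 4 * ‖v‖ ^ 2 - C ≤ lag2 G V x v t)
    (hκ : 0 < κ₁) {τ : ℝ} (hτ : 0 < τ) (x : ℤ → EuclideanSpace ℝ (Fin n)) {i : ℕ} (hi : i < N) :
    κ₁ / 4 * τ * ‖(1 / τ) • (x (i + 1) - x i)‖ ^ 2 - N * (τ * C) ≤ Sd2 G V τ N x := by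
  have h1 : ∑ j ∈ Finset.range N,
      (κ₁ / 4 * τ * ‖(1 / τ) • (x (j + 1) - x j)‖ ^ 2 - τ * C) ≤ Sd2 G V τ N x := by
    unfold Sd2
    refine Finset.sum_le_sum fun j _ => ?_
    have := mul_le_mul_of_nonneg_left (h (x j) ((1 / τ) • (x (j + 1) - x j)) (j * τ)) hτ.le
    linarith
  rw [Finset.sum_sub_distrib, Finset.sum_const, Finset.card_range, nsmul_eq_mul] at h1
  have h2 : κ₁ / 4 * τ * ‖(1 / τ) • (x (i + 1) - x i)‖ ^ 2 ≤
      ∑ j ∈ Finset.range N, κ₁ / 4 * τ * ‖(1 / τ) • (x (j + 1) - x j)‖ ^ 2 :=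
    Finset.single_le_sum (f := fun j : ℕ => κ₁ / 4 * τ * ‖(1 / τ) • (x ((j : ℤ) + 1) - x j)‖ ^ 2)
      (fun j _ => by positivity) (Finset.mem_range.2 hi)
  linarith

private theorem X2a_lag_per (hV : HV2 1 V F Vt B) (x v : EuclideanSpace ℝ (Fin n)) (t : ℝ)
    (l : Fin n → ℤ) : lag2 G V (x + zv l) v t = lag2 G V x v t := by
  unfold lag2
  rw [hV.per]

/-- The extension of a vector to a sequence. -/
private noncomputable def X2a_seq (N : ℕ) (y : Fin N → EuclideanSpace ℝ (Fin n)) (j : ℕ) :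
    EuclideanSpace ℝ (Fin n) :=
  if h : j < N then y ⟨j, h⟩ else 0

private theorem X2a_seq_cont (N : ℕ) (j : ℕ) :
    Continuous fun y : Fin N → EuclideanSpace ℝ (Fin n) => X2a_seq N y j := by
  unfold X2a_seq
  by_cases h : j < N
  · simp only [h, dif_pos]
    exact continuous_apply _
  · simp only [h, dif_neg, not_false_eq_true]
    exact continuous_const

theorem disc_exists2 (hG : HG G κ₁ κ₂) (hV : HV2 1 V F Vt B) (hT : 0 < T) (hN : 0 < N)
    (k : Fin n → ℤ) :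
    ∃ x : ℤ → EuclideanSpace ℝ (Fin n), IsDM2 G V T N k x ∧ ∀ j, x 0 j ∈ Set.Icc (0 : ℝ) 1 := by
  have hN' : (0 : ℝ) < N := by exact_mod_cast hN
  set τ : ℝ := (T : ℝ) / N with hτdef
  have hT' : (0 : ℝ) < T := by exact_mod_cast hT
  have hτ : 0 < τ := div_pos hT' hN'
  obtain ⟨C, hC0, hC⟩ := X2a_lag_lo hG hV
  have hκ := hG.pos
  set e : (Fin N → EuclideanSpace ℝ (Fin n)) → ℤ → EuclideanSpace ℝ (Fin n) :=
    fun y => X2a_ext N k (X2a_seq N y) with he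
  have hex : ∀ y i, e y (i + N) = e y i + zv k := fun y i => X2a_ext_per hN k _ i
  have he0 : ∀ y, e y 0 = y ⟨0, hN⟩ := by
    intro y
    simp [he, X2a_ext, X2a_seq, hN, zv_zero]
  have hei : ∀ (y : Fin N → EuclideanSpace ℝ (Fin n)) (i : Fin N), e y ((i : ℕ) : ℤ) = y i := by
    intro y i
    have hi := i.2
    have h1 : (((i : ℕ) : ℤ) % (N : ℤ)) = ((i : ℕ) : ℤ) :=
      Int.emod_eq_of_lt (by positivity) (by exact_mod_cast hi)
    have h2 : (((i : ℕ) : ℤ) / (N : ℤ)) = 0 :=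
      Int.ediv_eq_zero_of_lt (by positivity) (by exact_mod_cast hi)
    simp only [he, X2a_ext]
    rw [h1, h2]
    simp [X2a_seq, zv_zero]
  have hec : ∀ i, Continuous fun y => e y i := by
    intro i
    exact (X2a_seq_cont N _).add continuous_const
  set f : (Fin N → EuclideanSpace ℝ (Fin n)) → ℝ := fun y => Sd2 G V τ N (e y) with hf
  have hfc : Continuous f := by
    simp only [hf, Sd2]
    refine continuous_finsetSum _ fun i _ => continuous_const.mul ?_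
    exact (X2a_lag_cont hV _).comp
      ((hec i).prodMk (((hec (i + 1)).sub (hec i)).const_smul (1 / τ)))
  set M : ℝ := f 0 with hM
  set Ks : Set (Fin N → EuclideanSpace ℝ (Fin n)) :=
    {y | (∀ j, y ⟨0, hN⟩ j ∈ Set.Icc (0 : ℝ) 1) ∧ f y ≤ M} with hKs
  have hclosed : IsClosed Ks := by
    have h1 : IsClosed {y : Fin N → EuclideanSpace ℝ (Fin n) |
        ∀ j, y ⟨0, hN⟩ j ∈ Set.Icc (0 : ℝ) 1} := by
      rw [Set.ofPred_forall]
      refine isClosed_iInter fun j => ?_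
      refine isClosed_Icc.preimage (f := fun y : Fin N → EuclideanSpace ℝ (Fin n) =>
        y ⟨0, hN⟩ j) ?_
      fun_prop
    exact h1.inter (isClosed_le hfc continuous_const)
  -- boundedness
  set R : ℝ := Real.sqrt ((M + N * (τ * C)) / (κ₁ / 4 * τ)) with hR
  have hbd : Ks ⊆ Metric.closedBall 0 (Real.sqrt n + N * (τ * R)) := by
    intro y hy
    have hy1 := hy.1
    have hy2 := hy.2
    have hR0 : 0 ≤ R := Real.sqrt_nonneg _
    have h0 : ‖y ⟨0, hN⟩‖ ≤ Real.sqrt n := by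
      rw [EuclideanSpace.norm_eq]
      refine Real.sqrt_le_sqrt ?_
      calc ∑ j, ‖y ⟨0, hN⟩ j‖ ^ 2 ≤ ∑ j : Fin n, (1 : ℝ) := by
            refine Finset.sum_le_sum fun j _ => ?_
            have := hy1 j
            rw [Real.norm_eq_abs, sq_abs]
            nlinarith [this.1, this.2]
        _ = n := by simp
    have hstep : ∀ i : ℕ, i < N → ‖e y (i + 1) - e y i‖ ≤ τ * R := by
      intro i hi
      have h1 := X2a_Sd_lo (N := N) hC hκ hτ (e y) hi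
      have h2 : ‖(1 / τ) • (e y (i + 1) - e y i)‖ ≤ R := by
        refine Real.le_sqrt_of_sq_le ?_
        rw [le_div_iff₀ (by positivity)]
        have : Sd2 G V τ N (e y) ≤ M := hy2
        linarith
      rw [norm_smul, Real.norm_of_nonneg (by positivity), one_div, inv_mul_le_iff₀ hτ] at h2
      exact h2
    have hall : ∀ i : ℕ, i < N → ‖e y i‖ ≤ Real.sqrt n + i * (τ * R) := by
      intro i
      induction i with
      | zero =>
        intro _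
        simp only [Nat.cast_zero, zero_mul, add_zero]
        rw [he0]
        exact h0
      | succ i ih =>
        intro hi
        have h1 := ih (by omega)
        have h2 := hstep i (by omega)
        have h3 : ‖e y ((i : ℤ) + 1)‖ ≤ ‖e y i‖ + ‖e y (i + 1) - e y i‖ := by
          have := norm_add_le (e y i) (e y (i + 1) - e y i)
          rwa [add_sub_cancel] at this
        push_cast
        linarith
    rw [mem_closedBall_zero_iff, pi_norm_le_iff_of_nonneg (by positivity)]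
    intro i
    have h1 := hall i i.2
    rw [hei] at h1
    refine h1.trans ?_
    have h2 : ((i : ℕ) : ℝ) ≤ N := by exact_mod_cast i.2.le
    have h3 : ((i : ℕ) : ℝ) * (τ * R) ≤ N * (τ * R) :=
      mul_le_mul_of_nonneg_right h2 (by positivity)
    linarith
  have hcomp : IsCompact Ks :=
    (isCompact_closedBall (0 : Fin N → EuclideanSpace ℝ (Fin n)) _).of_isClosed_subset
      hclosed hbd
  have hne : (0 : Fin N → EuclideanSpace ℝ (Fin n)) ∈ Ks := by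
    refine ⟨fun j => ?_, le_rfl⟩
    simp
  obtain ⟨y, hyK, hymin⟩ := hcomp.exists_isMinOn ⟨0, hne⟩ hfc.continuousOn
  refine ⟨e y, ⟨hex y, ?_⟩, ?_⟩
  · intro x hx
    set l : Fin n → ℤ := fun j => -⌊x 0 j⌋ with hl
    set x' : ℤ → EuclideanSpace ℝ (Fin n) := fun i => x i + zv l with hx'
    have hx'per : ∀ i, x' (i + N) = x' i + zv k := by
      intro i
      simp only [hx', hx i]
      abel
    have hSx' : Sd2 G V τ N x' = Sd2 G V τ N x := by
      unfold Sd2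
      refine Finset.sum_congr rfl fun i _ => ?_
      simp only [hx']
      rw [X2a_lag_per hV, add_sub_add_right_eq_sub]
    set y' : Fin N → EuclideanSpace ℝ (Fin n) := fun i => x' ((i : ℕ) : ℤ) with hy'
    have hxe : x' = e y' := by
      funext i
      refine X2a_eq_ext hN hx'per (fun j hj => ?_) i
      simp [X2a_seq, hj, hy']
    have hcube : ∀ j, y' ⟨0, hN⟩ j ∈ Set.Icc (0 : ℝ) 1 := by
      intro j
      have h1 : y' ⟨0, hN⟩ j = x 0 j - ⌊x 0 j⌋ := by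
        simp only [hy', hx', hl, zv, Nat.cast_zero, PiLp.add_apply, Int.cast_neg]
        ring
      rw [h1]
      constructor
      · linarith [Int.floor_le (x 0 j)]
      · linarith [Int.lt_floor_add_one (x 0 j)]
    rw [← hSx', hxe]
    change f y ≤ f y'
    by_cases hle : f y' ≤ M
    · exact hymin ⟨hcube, hle⟩
    · have h1 : f y ≤ M := hyK.2
      linarith
  · intro j
    rw [he0]
    exact hyK.1 j

end Pool.Agent.H33.AN

end

section

/-!
# Module Z1: final assembly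

* `HV2_of`: with `F x t = gradient (fun y => V y t) x`, `Vt x t = deriv (fun s => V x s) t`: the derivative of
  `z ↦ V z.1 z.2` at `(x, t)` is `⟪F x t, ·⟫ + Vt x t ·`; it is continuously differentiable and periodic, hence
  bounded and Lipschitz (mean value inequality; the derivative of `z ↦ F z.1 z.2` is bounded because it is
  continuous and periodic). The norm of a product is the maximum of the norms.
* `HG_of`: `κ₁` = minimum of `⟪G v, v⟫` on the unit sphere (if `n = 0`: `1`), `κ₂ = ‖G‖ + 1`.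
* `main2`: if `V x t ≠ V y t` for some `x`, `y`, `t` then `flat2_main` and `not_strict_of_flat2` give a
  contradiction. Otherwise `strict_int2`, `alpha_int2`, `peierls_int2`.
-/

set_option autoImplicit false

open MeasureTheory
open scoped RealInnerProductSpace

namespace Pool.Agent.H33.AN

open Pool.Agent.H33.AM

variable {n : ℕ}

/-- Upper bound. -/
private theorem Z1a_hi (G : E n →L[ℝ] E n) (v : E n) : ⟪G v, v⟫ ≤ (‖G‖ + 1) * ‖v‖ ^ 2 := by
  have h1 : ⟪G v, v⟫ ≤ ‖G v‖ * ‖v‖ := real_inner_le_norm _ _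
  have h2 : ‖G v‖ ≤ ‖G‖ * ‖v‖ := G.le_opNorm v
  have h3 := norm_nonneg v
  have h4 := norm_nonneg G
  nlinarith [mul_le_mul_of_nonneg_right h2 h3]

/-- Lower bound. -/
private theorem Z1a_lo {G : E n →L[ℝ] E n} (hpos : ∀ v, v ≠ 0 → 0 < ⟪G v, v⟫) :
    ∃ κ₁ : ℝ, 0 < κ₁ ∧ ∀ v, κ₁ * ‖v‖ ^ 2 ≤ ⟪G v, v⟫ := by
  by_cases hne : (Metric.sphere (0 : E n) 1).Nonempty
  · have hc : IsCompact (Metric.sphere (0 : E n) 1) := isCompact_sphere 0 1
    have hcont : Continuous fun v : E n => ⟪G v, v⟫ := G.continuous.inner continuous_id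
    obtain ⟨u, hu, hmin⟩ := hc.exists_isMinOn hne hcont.continuousOn
    have hu1 : ‖u‖ = 1 := by simpa using hu
    have hu0 : u ≠ 0 := by
      intro h
      rw [h, norm_zero] at hu1
      norm_num at hu1
    refine ⟨⟪G u, u⟫, hpos u hu0, fun v => ?_⟩
    by_cases hv : v = 0
    · rw [hv]
      simp
    · have hv0 : 0 < ‖v‖ := norm_pos_iff.2 hv
      have hw : ‖v‖⁻¹ • v ∈ Metric.sphere (0 : E n) 1 := by
        simp only [mem_sphere_iff_norm, sub_zero, norm_smul, norm_inv, norm_norm]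
        exact inv_mul_cancel₀ hv0.ne'
      have h1 : ⟪G u, u⟫ ≤ ⟪G (‖v‖⁻¹ • v), ‖v‖⁻¹ • v⟫ := hmin hw
      rw [map_smul, real_inner_smul_left, real_inner_smul_right] at h1
      have h2 : ⟪G u, u⟫ * ‖v‖ ^ 2 ≤ (‖v‖⁻¹ * (‖v‖⁻¹ * ⟪G v, v⟫)) * ‖v‖ ^ 2 :=
        mul_le_mul_of_nonneg_right h1 (by positivity)
      have h3 : (‖v‖⁻¹ * (‖v‖⁻¹ * ⟪G v, v⟫)) * ‖v‖ ^ 2 = ⟪G v, v⟫ := by
        field_simp
      rw [h3] at h2
      exact h2
  · refine ⟨1, one_pos, fun v => ?_⟩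
    have hv : v = 0 := by
      by_contra h
      apply hne
      refine ⟨‖v‖⁻¹ • v, ?_⟩
      simp only [mem_sphere_iff_norm, sub_zero, norm_smul, norm_inv, norm_norm]
      exact inv_mul_cancel₀ (norm_pos_iff.2 h).ne'
    rw [hv]
    simp

theorem HG_of {G : E n →L[ℝ] E n} (hs : ∀ v w, ⟪G v, w⟫ = ⟪v, G w⟫)
    (hpos : ∀ v, v ≠ 0 → 0 < ⟪G v, v⟫) : ∃ κ₁ κ₂ : ℝ, HG G κ₁ κ₂ := by
  obtain ⟨κ₁, h1, h2⟩ := Z1a_lo hpos
  exact ⟨κ₁, ‖G‖ + 1, h1, by positivity, hs, h2, Z1a_hi G⟩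

end Pool.Agent.H33.AN

end

section

/-!
# Module Z1: final assembly

* `HV2_of`: with `F x t = gradient (fun y => V y t) x`, `Vt x t = deriv (fun s => V x s) t`: the derivative of
  `z ↦ V z.1 z.2` at `(x, t)` is `⟪F x t, ·⟫ + Vt x t ·`; it is continuously differentiable and periodic, hence
  bounded and Lipschitz (mean value inequality; the derivative of `z ↦ F z.1 z.2` is bounded because it is
  continuous and periodic). The norm of a product is the maximum of the norms.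
* `HG_of`: `κ₁` = minimum of `⟪G v, v⟫` on the unit sphere (if `n = 0`: `1`), `κ₂ = ‖G‖ + 1`.
* `main2`: if `V x t ≠ V y t` for some `x`, `y`, `t` then `flat2_main` and `not_strict_of_flat2` give a
  contradiction. Otherwise `strict_int2`, `alpha_int2`, `peierls_int2`.
-/

set_option autoImplicit false

open MeasureTheory
open scoped RealInnerProductSpace

namespace Pool.Agent.H33.AN

open Pool.Agent.H33.AM

variable {n : ℕ}

private theorem z1b_bounded {Z : Type*} [NormedAddCommGroup Z] {g : E n × ℝ → Z}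
    (hg : Continuous g)
    (hper : ∀ (z : E n × ℝ) (k : Fin n → ℤ) (m : ℤ), g (z + (zv k, (m : ℝ))) = g z) :
    ∃ C : ℝ, ∀ z, ‖g z‖ ≤ C := by
  obtain ⟨C, hC⟩ := ((isCompact_closedBall (0 : E n) (Real.sqrt n)).prod
    (isCompact_Icc (a := (0 : ℝ)) (b := 1))).exists_bound_of_continuousOn hg.continuousOn
  refine ⟨C, fun z => ?_⟩
  set k : Fin n → ℤ := fun i => -⌊z.1 i⌋ with hk
  rw [← hper z k (-⌊z.2⌋)]
  apply hC
  refine Set.mk_mem_prod ?_ ?_
  · rw [mem_closedBall_zero_iff, EuclideanSpace.norm_eq]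
    apply Real.sqrt_le_sqrt
    calc ∑ i, ‖(z.1 + zv k) i‖ ^ 2 ≤ ∑ _i : Fin n, (1 : ℝ) := by
          apply Finset.sum_le_sum
          intro i _
          have h1 : (z.1 + zv k) i = z.1 i - (⌊z.1 i⌋ : ℝ) := by
            simp [zv, hk, sub_eq_add_neg]
          rw [h1, Real.norm_eq_abs, sq_abs]
          have h2 := Int.floor_le (z.1 i)
          have h3 := Int.lt_floor_add_one (z.1 i)
          nlinarith
      _ = n := by simp
  · have h2 := Int.floor_le z.2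
    have h3 := Int.lt_floor_add_one z.2
    show z.2 + ((-⌊z.2⌋ : ℤ) : ℝ) ∈ Set.Icc (0 : ℝ) 1
    rw [Int.cast_neg]
    exact ⟨by linarith, by linarith⟩

private theorem z1b_fderiv_per {Z : Type*} [NormedAddCommGroup Z] [NormedSpace ℝ Z]
    {g : E n × ℝ → Z}
    (hper : ∀ (z : E n × ℝ) (k : Fin n → ℤ) (m : ℤ), g (z + (zv k, (m : ℝ))) = g z)
    (z : E n × ℝ) (k : Fin n → ℤ) (m : ℤ) :
    fderiv ℝ g (z + (zv k, (m : ℝ))) = fderiv ℝ g z := by
  have h1 : (fun y => g (y + (zv k, (m : ℝ)))) = g := funext fun y => hper y k m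
  have h2 := fderiv_comp_add_right (𝕜 := ℝ) (f := g) (x := z) (zv k, (m : ℝ))
  rw [h1] at h2
  exact h2.symm

private theorem z1b_main {Z : Type*} [NormedAddCommGroup Z] [NormedSpace ℝ Z] {g : E n × ℝ → Z}
    (hg : ContDiff ℝ 2 g)
    (hper : ∀ (z : E n × ℝ) (k : Fin n → ℤ) (m : ℤ), g (z + (zv k, (m : ℝ))) = g z) :
    ∃ B₀ : ℝ, 0 ≤ B₀ ∧ (∀ x, ‖g x‖ ≤ B₀) ∧ (∀ x, ‖fderiv ℝ g x‖ ≤ B₀) ∧
      ∀ x y, ‖fderiv ℝ g x - fderiv ℝ g y‖ ≤ B₀ * ‖x - y‖ := by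
  have hg1 : ContDiff ℝ 1 (fderiv ℝ g) := hg.fderiv_right (by norm_num)
  obtain ⟨C₁, h₁⟩ := z1b_bounded hg.continuous hper
  obtain ⟨C₂, h₂⟩ := z1b_bounded hg1.continuous (z1b_fderiv_per hper)
  obtain ⟨C₃, h₃⟩ := z1b_bounded (hg1.continuous_fderiv (by norm_num))
    (z1b_fderiv_per (z1b_fderiv_per hper))
  have l1 : C₁ ≤ max (max C₁ C₂) C₃ := le_trans (le_max_left _ _) (le_max_left _ _)
  have l2 : C₂ ≤ max (max C₁ C₂) C₃ := le_trans (le_max_right _ _) (le_max_left _ _)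
  have l3 : C₃ ≤ max (max C₁ C₂) C₃ := le_max_right _ _
  refine ⟨max (max C₁ C₂) C₃, le_trans (norm_nonneg _) (le_trans (h₁ 0) l1),
    fun x => le_trans (h₁ x) l1, fun x => le_trans (h₂ x) l2, fun x y => ?_⟩
  have := (convex_univ (𝕜 := ℝ) (E := E n × ℝ)).norm_image_sub_le_of_norm_fderiv_le (𝕜 := ℝ)
    (f := fderiv ℝ g) (C := max (max C₁ C₂) C₃) (x := y) (y := x)
    (fun z _ => (hg1.differentiable (by norm_num)) z)
    (fun z _ => le_trans (h₃ z) l3) (Set.mem_univ _) (Set.mem_univ _)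
  exact this

private theorem z1b_pr (x : E n) (k : Fin n → ℤ) : pr (x + zv k) = pr x :=
  (pr_eq_iff _ _).2 ⟨k, rfl⟩

private theorem z1b_coe (t : ℝ) (m : ℤ) : ((t + m : ℝ) : UnitAddCircle) = (t : UnitAddCircle) := by
  have h : (((m : ℝ)) : UnitAddCircle) = 0 := (AddCircle.coe_eq_zero_iff 1).2 ⟨m, by simp⟩
  rw [AddCircle.coe_add, h, add_zero]

theorem HV2_of {V : E n → ℝ → ℝ} (hV : ContDiff ℝ 2 fun z : E n × ℝ => V z.1 z.2)
    (hper : ∀ (x y : E n) (s t : ℝ), pr x = pr y → (s : UnitAddCircle) = (t : UnitAddCircle) →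
      V x s = V y t) :
    ∃ B : ℝ, HV2 1 V (fun x t => gradient (fun y => V y t) x) (fun x t => deriv (fun s => V x s) t)
      B := by
  set g : E n × ℝ → ℝ := fun z : E n × ℝ => V z.1 z.2 with hg
  have hp : ∀ (z : E n × ℝ) (k : Fin n → ℤ) (m : ℤ), g (z + (zv k, (m : ℝ))) = g z :=
    fun z k m => hper _ _ _ _ (z1b_pr z.1 k) (z1b_coe z.2 m)
  obtain ⟨B₀, h0, h1, h2, h3⟩ := z1b_main hV hp
  have hd : ∀ z, HasFDerivAt g (fderiv ℝ g z) z := fun z =>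
    (hV.differentiable (by norm_num) z).hasFDerivAt
  have hgrad : ∀ x t, gradient (fun y => V y t) x =
      (InnerProductSpace.toDual ℝ (E n)).symm
        ((fderiv ℝ g (x, t)).comp (ContinuousLinearMap.inl ℝ (E n) ℝ)) := by
    intro x t
    have h : HasFDerivAt (fun y => V y t)
        ((fderiv ℝ g (x, t)).comp (ContinuousLinearMap.inl ℝ (E n) ℝ)) x :=
      HasFDerivAt.comp (f := fun y : E n => (y, t)) x (hd (x, t))
        (hasFDerivAt_prodMk_left (𝕜 := ℝ) x t)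
    unfold gradient
    rw [h.fderiv]
  have hder : ∀ x t, deriv (fun s => V x s) t = fderiv ℝ g (x, t) (0, 1) := by
    intro x t
    have h : HasFDerivAt (fun s => V x s)
        ((fderiv ℝ g (x, t)).comp (ContinuousLinearMap.inr ℝ (E n) ℝ)) t :=
      HasFDerivAt.comp (f := fun s : ℝ => (x, s)) t (hd (x, t))
        (hasFDerivAt_prodMk_right (𝕜 := ℝ) x t)
    rw [h.hasDerivAt.deriv]
    rfl
  have hinl : ∀ L : E n × ℝ →L[ℝ] ℝ,
      ‖L.comp (ContinuousLinearMap.inl ℝ (E n) ℝ)‖ ≤ ‖L‖ := by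
    intro L
    refine ContinuousLinearMap.opNorm_le_bound _ (norm_nonneg _) fun v => ?_
    refine (L.le_opNorm _).trans ?_
    simp
  refine ⟨B₀, h0, fun x t => ?_, ?_, fun x t k => ?_, fun x t => ?_, fun x t => ?_, fun x t => ?_,
    fun x t => ?_, fun x t x' t' => ?_⟩
  · have h4 : (innerSL ℝ (gradient (fun y => V y t) x)).comp (ContinuousLinearMap.fst ℝ (E n) ℝ) +
        (deriv (fun s => V x s) t) • ContinuousLinearMap.snd ℝ (E n) ℝ = fderiv ℝ g (x, t) := by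
      ext ⟨v⟩
      · rw [hgrad, hder]
        simp
      · rw [hgrad, hder]
        simp
    show HasFDerivAt g _ (x, t)
    rw [h4]
    exact hd (x, t)
  · have h6 : (fun z : E n × ℝ => deriv (fun s => V z.1 s) z.2) =
        fun z : E n × ℝ => fderiv ℝ g z (0, 1) := funext fun z => hder z.1 z.2
    rw [h6]
    exact ((hV.continuous_fderiv (by norm_num)).clm_apply continuous_const)
  · exact hper _ _ _ _ (z1b_pr x k) rfl
  · have := z1b_coe t 1
    rw [Int.cast_one] at this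
    exact hper _ _ _ _ rfl this
  · have := h1 (x, t)
    rw [Real.norm_eq_abs] at this
    exact this
  · rw [hgrad, LinearIsometryEquiv.norm_map]
    exact (hinl _).trans (h2 _)
  · rw [hder]
    have h5 := (fderiv ℝ g (x, t)).le_opNorm (0, 1)
    rw [Real.norm_eq_abs] at h5
    refine h5.trans ?_
    simp
    exact h2 _
  · rw [hgrad, hgrad, ← map_sub, LinearIsometryEquiv.norm_map, ← ContinuousLinearMap.sub_comp]
    refine (hinl _).trans ((h3 _ _).trans (mul_le_mul_of_nonneg_left ?_ h0))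
    rw [Prod.mk_sub_mk, Prod.norm_mk, Real.norm_eq_abs]
    exact max_le (le_add_of_nonneg_right (abs_nonneg _)) (le_add_of_nonneg_left (norm_nonneg _))

end Pool.Agent.H33.AN

end

section

/-!
# Module M5: flats of the action functional

* `flat2_of_trapped`: `r = p / Q`, `q' = q + r • zv m`. A curve `X`, `U` corresponds to `x t = X t - (r t) • zv m`,
  `u = U - r • zv m`, and
  `lag2 G V X U t = mlag G V q m r E x u t + E + ⟪G q', U⟫ - ⟪G q', q'⟫ / 2`. Let `e`, `fu`, `fd`, `C` be from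
  `Trapped2`; `c₀ = G q'`, `E₀ = e - E + ⟪G q', q'⟫ / 2`, `η₁ = -fd`, `η₂ = fu`:
  `∫ (L - ⟪c₀ + η k₀, U⟫ + E₀ + η p/Q) = ∫ (ℓ + e) - η (⟪k₀, x(b)⟫ - ⟪k₀, x(a)⟫)` (as `⟪zv k₀, zv m⟫ = 1`). For
  `E' < E₀` the failure of `Crit2` at `e' = E' + E - ⟪G q', q'⟫ / 2` gives the closed curve, `k = k' + (j p) • m`
  (`0 < j` since `j = 0` gives the action `0`).
* `flat2_main`: `V (·) t₁` is not constant for some `t₁`; `k₀`, `m` from `exists_avK_ne` for `V (·) t₁`;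
  `e₀`, `M` from `kin_exists`; `W θ t = avK (V · t) k₀ m θ / M` satisfies `HW 1` (`HW_avK`), `W₁` is not
  identically zero, so `barrier`, `bar_of_barrier`, `trap2_main` (`κ = κ₂`, `w x t = W (x + p/Q t) t`), then
  `trap2_exists` with `δ₀` and `flat2_of_trapped`.
-/

set_option autoImplicit false

open MeasureTheory
open scoped RealInnerProductSpace

namespace Pool.Agent.H33.AN

open Pool.Agent.H33.AM

variable {n : ℕ} {G : EuclideanSpace ℝ (Fin n) →L[ℝ] EuclideanSpace ℝ (Fin n)} {κ₁ κ₂ : ℝ}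
  {V : EuclideanSpace ℝ (Fin n) → ℝ → ℝ}
  {F : EuclideanSpace ℝ (Fin n) → ℝ → EuclideanSpace ℝ (Fin n)}
  {Vt : EuclideanSpace ℝ (Fin n) → ℝ → ℝ} {B : ℝ}

private theorem M5a_adm {a b : ℝ} {x u : ℝ → EuclideanSpace ℝ (Fin n)} (h : Adm a b x u)
    (c : EuclideanSpace ℝ (Fin n)) : Adm a b (fun t => x t + t • c) fun t => u t + c := by
  obtain ⟨s, hs, hd⟩ := h.der
  obtain ⟨R, hR⟩ := h.bd
  have hc : Continuous fun t : ℝ => t • c := continuous_id.smul continuous_const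
  refine ⟨h.le, h.cont.add hc.continuousOn, ⟨s, hs, fun t ht => ?_⟩, h.meas.add_const c,
    R + ‖c‖, fun t => (norm_add_le _ _).trans (add_le_add (hR t) le_rfl)⟩
  have h1 : HasDerivAt (fun t : ℝ => t • c) c t := by
    simpa using (hasDerivAt_id t).smul_const c
  exact (hd t ht).add h1

private theorem M5a_lag (hG : HG G κ₁ κ₂) (q q' X U : EuclideanSpace ℝ (Fin n)) (m : Fin n → ℤ)
    (r E t : ℝ) (hq : q' = q + r • zv m) :
    mlag G V q m r E (X + t • (-(r • zv m))) (U + -(r • zv m)) t =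
      lag2 G V X U t - ⟪G q', U⟫ + ⟪G q', q'⟫ / 2 - E := by
  unfold mlag lag2
  have e1 : U + -(r • zv m) - q = U - q' := by
    rw [hq]
    abel
  have e2 : X + t • (-(r • zv m)) + (r * t) • zv m = X := by
    rw [smul_neg, smul_smul, mul_comm t r]
    abel
  have e3 : ⟪G U, q'⟫ = ⟪G q', U⟫ := by
    rw [hG.symm, real_inner_comm]
  rw [e1, e2, map_sub, inner_sub_left, inner_sub_right, inner_sub_right, e3]
  ring

theorem flat2_of_trapped (hG : HG G κ₁ κ₂) (hV : HV2 1 V F Vt B) {k₀ m : Fin n → ℤ}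
    (hkm : dot k₀ m = 1) (q : EuclideanSpace ℝ (Fin n)) (p : ℤ) {Q : ℕ} (hQ : 0 < Q) (E : ℝ)
    (hl : HL2 Q (mlag G V q m ((p : ℝ) / Q) E))
    (h : Trapped2 (mlag G V q m ((p : ℝ) / Q) E) k₀ Q) : Flat2 (lag2 G V) := by
  have _ := hV
  have hQ0 : (0 : ℝ) < Q := by exact_mod_cast hQ
  obtain ⟨r, hr⟩ : ∃ r : ℝ, (p : ℝ) / Q = r := ⟨_, rfl⟩
  rw [hr] at hl h
  have hrQ : r * Q = p := by
    rw [← hr]
    field_simp
  obtain ⟨q', hq'⟩ : ∃ q' : EuclideanSpace ℝ (Fin n), q' = q + r • zv m := ⟨_, rfl⟩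
  obtain ⟨e, fu, fd, C, hf, hc, hc', hη⟩ := h
  refine ⟨k₀, G q', e - E + ⟪G q', q'⟫ / 2, -fd, fu, C, p, Q, (ne_zero_of_dot hkm).1, hf, hQ,
    ?_, ?_⟩
  · intro η hηm a b X U hX
    rw [hr]
    have hadm := M5a_adm hX (-(r • zv m))
    have h1 := hη η hηm a b _ _ _ ⟨_, _, hadm, rfl, rfl, rfl⟩
    have h2 := Adm.integral_inner hadm (zv k₀)
    have i1 : IntervalIntegrable (fun t => mlag G V q m r E (X t + t • (-(r • zv m)))
        (U t + -(r • zv m)) t + e) volume a b :=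
      Adm.integrable2 hadm (g := fun z : EuclideanSpace ℝ (Fin n) × EuclideanSpace ℝ (Fin n) × ℝ =>
        mlag G V q m r E z.1 z.2.1 z.2.2 + e) (hl.cont.add continuous_const)
    have i2 : IntervalIntegrable (fun t => η * ⟪zv k₀, U t + -(r • zv m)⟫) volume a b :=
      Adm.integrable2 hadm (g := fun z : EuclideanSpace ℝ (Fin n) × EuclideanSpace ℝ (Fin n) × ℝ =>
        η * ⟪zv k₀, z.2.1⟫) (by fun_prop)
    have e1 : ∀ t, lag2 G V (X t) (U t) t - ⟪G q' + η • zv k₀, U t⟫ +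
        (e - E + ⟪G q', q'⟫ / 2 + η * r) =
        (mlag G V q m r E (X t + t • (-(r • zv m))) (U t + -(r • zv m)) t + e) -
          η * ⟪zv k₀, U t + -(r • zv m)⟫ := by
      intro t
      rw [M5a_lag hG q q' (X t) (U t) m r E t hq', inner_add_left, real_inner_smul_left,
        inner_add_right, inner_neg_right, real_inner_smul_right, inner_zv, hkm, Int.cast_one]
      ring
    rw [intervalIntegral.integral_congr fun t _ => e1 t, intervalIntegral.integral_sub i1 i2,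
      intervalIntegral.integral_const_mul, h2]
    linarith
  · intro E' hE'
    have h1 := hc' (E' + E - ⟪G q', q'⟫ / 2) (by linarith)
    unfold Crit2 at h1
    push Not at h1
    obtain ⟨j, s, x0, k, r0, hk, ⟨ξ, u, hadm, hx1, hx2, hx3⟩, hr0⟩ := h1
    have hj : 0 < j := by
      rcases Nat.eq_zero_or_pos j with h0 | h0
      · exfalso
        rw [h0, Nat.cast_zero, zero_mul, add_zero, intervalIntegral.integral_same] at hx3
        linarith
      · exact h0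
    refine ⟨j, s, fun t => ξ t + t • (r • zv m), fun t => u t + r • zv m, k + ((j : ℤ) * p) • m,
      hj, M5a_adm hadm (r • zv m), ?_, ?_, ?_⟩
    · show ξ (s + j * Q) + (s + j * Q) • (r • zv m) =
        ξ s + s • (r • zv m) + zv (k + ((j : ℤ) * p) • m)
      have e2 : (s + j * Q) • (r • zv m) = s • (r • zv m) + ((j : ℝ) * p) • zv m := by
        rw [← hrQ, smul_smul, smul_smul, ← add_smul]
        congr 1
        ring
      rw [hx2, ← hx1, e2, zv_add, zv_zsmul, Int.cast_mul, Int.cast_natCast]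
      abel
    · rw [dot_add, dot_zsmul, hk, hkm, zero_add, mul_one]
    · have e3 : ∀ t, lag2 G V (ξ t + t • (r • zv m)) (u t + r • zv m) t -
          ⟪G q', u t + r • zv m⟫ + E' =
          mlag G V q m r E (ξ t) (u t) t + (E' + E - ⟪G q', q'⟫ / 2) := by
        intro t
        have e4 := M5a_lag (V := V) hG q q' (ξ t + t • (r • zv m)) (u t + r • zv m) m r E t hq'
        have e5 : ξ t + t • (r • zv m) + t • (-(r • zv m)) = ξ t := by
          rw [smul_neg]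
          abel
        have e6 : u t + r • zv m + -(r • zv m) = u t := by abel
        rw [e5, e6] at e4
        rw [e4]
        ring
      rw [intervalIntegral.integral_congr fun t _ => e3 t, hx3]
      exact hr0

end Pool.Agent.H33.AN

end

section

/-!
# Module J1: convexity of the minimal average action, subgradients (foliated case)

* `Ep_add`: take the leaves of both types through one point `(0, x)` (`Foliated`) and
  concatenate (`Dm_triangle`): a closed curve of type `(p + p', Q + Q')` (through `(0, x)`).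
-/

set_option autoImplicit false

open MeasureTheory
open scoped RealInnerProductSpace

namespace Pool.Agent.H33.AN

variable {B : ℝ} {W W₁ W₂ : ℝ → ℝ → ℝ}

theorem Ep_add (hW : HW 1 W W₁ W₂ B) (hf : Foliated W) {p p' : ℤ} {Q Q' : ℕ} (hQ : 0 < Q)
    (hQ' : 0 < Q') : EpQ W (p + p') (Q + Q') ≤ EpQ W p Q + EpQ W p' Q' := by
  have h1 := hf p Q hQ 0 0
  have h2 := hf p' Q' hQ' (0 + Q) (0 + p)
  have h3 := hf (p + p') (Q + Q') (by omega) 0 0
  have hQr : (0 : ℝ) < Q := by exact_mod_cast hQ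
  have hQr' : (0 : ℝ) < Q' := by exact_mod_cast hQ'
  have h4 := Dm_triangle hW (r := 0) (s := 0 + Q) (t := 0 + Q + Q') (by linarith) (by linarith)
    0 (0 + p) (0 + p + p')
  have e1 : (0 : ℝ) + ((Q + Q' : ℕ) : ℝ) = 0 + Q + Q' := by push_cast; ring
  have e2 : (0 : ℝ) + ((p + p' : ℤ) : ℝ) = 0 + p + p' := by push_cast; ring
  rw [e1, e2] at h3
  rw [← h1, ← h2, ← h3]
  exact h4

end Pool.Agent.H33.AN

end

section

/-!
# Module K3: one-dimensional estimates for the gap between the levels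

`c1 = c1 w Q E₁` is additive; along a level `c1(a; s, t) = ψa t - ψa s + ωa/Q (t - s)`.
* `gap_pair`: `U = inf (c1(ξ; s, t) + ψa s - ψc t)` over all the curves `ξ` from `(a s, s)` to `(c t, t)`,
  `D = inf (c1(ξ; s, t) + ψc s - ψa t)` over all the curves from `(c s, s)` to `(a t, t)`. Both families are not
  empty (lines over a period). For an up curve `ξ` on `[s, t]` and a down curve `ξ'` on `[s', t']`: follow
  `ξ`, then `c` from `t` to `s' + i Q ∈ [t, t + Q)`, then `ξ'` shifted by `i Q`, then `a` from `t' + i Q` to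
  `s + j Q ∈ [t' + i Q, t' + i Q + Q)`: a closed curve over `[s, s + j Q]`, `j ≥ 1` (since `a < c`), which
  meets `Bc` (intermediate value theorem). So (`Bar.mark`)
  `μ ≤ c1(ξ) + (ψc s' - ψc t + ω) + c1(ξ') + (ψa s - ψa t' + ω)`. So `U`, `D` are finite and
  `U + D ≥ μ - 2 ω`.
* `strip_rate`: if `t - s ≤ 2 Q` use `c1 ≥ -(B + |E₁|/Q) (t - s)`. In general let
  `i₀ Q`, …, `i₁ Q` be the multiples of `Q` in `[s, t]`, `x i = ξ ((i₀ + i) Q) ∈ [a 0, c 0]`; on the full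
  periods `A1 ≥ Dm w 0 Q (x i) (x (i + 1))` (`Dm_le`, `Dm_per`); use `chain` for `D x y = Dm w 0 Q x y - E₁`
  (`monge`), `S = [a 0, c 0]` (bounded; `hL` from `Dm_lip`).
-/

set_option autoImplicit false

open MeasureTheory
open scoped RealInnerProductSpace

namespace Pool.Agent.H33.AN

open Pool.Agent.H33.AM

variable {B : ℝ} {w w₁ w₂ : ℝ → ℝ → ℝ} {Q : ℕ} {E₁ μ : ℝ} {Bc : ℝ → ℝ}

private lemma K3a_int (hw : HW Q w w₁ w₂ B) {a b : ℝ} {x u : ℝ → ℝ} (h : Cur a b x u) :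
    IntervalIntegrable (fun t => u t ^ 2 / 2 - w (x t) t) volume a b := by
  have hc : Continuous fun z : ℝ × ℝ => w z.1 z.2 := by
    rw [continuous_iff_continuousAt]
    intro z
    exact (hw.der z.1 z.2).continuousAt
  have hg : Continuous fun p : ℝ × ℝ × ℝ => p.2.1 ^ 2 / 2 - w p.1 p.2.2 := by
    have h1 : Continuous fun p : ℝ × ℝ × ℝ => w p.1 p.2.2 :=
      hc.comp (continuous_fst.prodMk (continuous_snd.comp continuous_snd))
    exact (((continuous_fst.comp continuous_snd).pow 2).div_const 2).sub h1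
  exact h.integrable hg

private lemma K3a_congr (W : ℝ → ℝ → ℝ) {a b : ℝ} (hab : a ≤ b) {x u x' u' : ℝ → ℝ}
    (h : ∀ t, a < t → t ≤ b → x t = x' t ∧ u t = u' t) : A1 W a b x u = A1 W a b x' u' := by
  unfold A1
  apply intervalIntegral.integral_congr_ae
  filter_upwards with t ht
  rw [Set.uIoc_of_le hab] at ht
  obtain ⟨h1, h2⟩ := h t ht.1 ht.2
  rw [h1, h2]

private lemma K3a_glue (hw : HW Q w w₁ w₂ B) {a b c : ℝ} {x u x' u' : ℝ → ℝ} (h : Cur a b x u)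
    (h' : Cur b c x' u') (hx : x b = x' b) :
    ∃ x'' u'' : ℝ → ℝ, Cur a c x'' u'' ∧ (∀ t ≤ b, x'' t = x t) ∧ (x'' c = x' c) ∧
      c1 w Q E₁ a c x'' u'' = c1 w Q E₁ a b x u + c1 w Q E₁ b c x' u' := by
  obtain ⟨x'', u'', hc, h1, h2⟩ := h.concat h' hx
  refine ⟨x'', u'', hc, fun t ht => (h1 t ht).1, ?_, ?_⟩
  · rcases eq_or_lt_of_le h'.le with hbc | hbc
    · rw [← hbc, (h1 b le_rfl).1, hx]
    · exact (h2 c hbc).1
  · have e1 : A1 w a b x'' u'' = A1 w a b x u := K3a_congr w h.le fun t _ ht => h1 t ht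
    have e2 : A1 w b c x'' u'' = A1 w b c x' u' := K3a_congr w h'.le fun t ht _ => h2 t ht
    have e3 : A1 w a c x'' u'' = A1 w a b x'' u'' + A1 w b c x'' u'' := by
      unfold A1
      symm
      apply intervalIntegral.integral_add_adjacent_intervals
      · exact K3a_int hw (hc.sub le_rfl h.le h'.le)
      · exact K3a_int hw (hc.sub h.le h'.le le_rfl)
    unfold c1
    rw [e3, e1, e2]
    ring

private lemma K3a_shift (hw : HW Q w w₁ w₂ B) (i : ℤ) (s t : ℝ) (ξ u : ℝ → ℝ) :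
    c1 w Q E₁ (s + i * Q) (t + i * Q) (fun τ => ξ (τ - i * Q)) (fun τ => u (τ - i * Q)) =
      c1 w Q E₁ s t ξ u := by
  have hp : ∀ x τ, w x (τ - i * Q) = w x τ := by
    intro x τ
    have h1 : Function.Periodic (w x) (Q : ℝ) := fun τ => hw.per₂ x τ
    have h2 := h1.int_mul i (τ - i * Q)
    rw [sub_add_cancel] at h2
    exact h2.symm
  have e : A1 w (s + i * Q) (t + i * Q) (fun τ => ξ (τ - i * Q)) (fun τ => u (τ - i * Q)) =
      A1 w s t ξ u := by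
    unfold A1
    have h3 : (fun τ => u (τ - i * Q) ^ 2 / 2 - w (ξ (τ - i * Q)) τ) =
        fun τ => (fun τ' => u τ' ^ 2 / 2 - w (ξ τ') τ') (τ - i * Q) := by
      funext τ
      simp only [hp]
    rw [h3, intervalIntegral.integral_comp_sub_right (fun τ' => u τ' ^ 2 / 2 - w (ξ τ') τ')]
    simp only [add_sub_cancel_right]
  unfold c1
  rw [e]
  ring

private lemma K3a_per {f : ℝ → ℝ} (h : ∀ t, f (t + Q) = f t) (i : ℤ) (t : ℝ) :
    f (t + i * Q) = f t := by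
  have h1 : Function.Periodic f (Q : ℝ) := h
  exact h1.int_mul i t

/-- an integer translate in a window of length `Q` -/
private lemma K3a_floor {Q : ℕ} (hQ : 0 < Q) (t s : ℝ) :
    ∃ i : ℤ, t ≤ s + i * Q ∧ s + i * Q ≤ t + Q := by
  have hQ' : (0 : ℝ) < Q := by exact_mod_cast hQ
  refine ⟨⌈(t - s) / Q⌉, ?_, ?_⟩
  · have h := Int.le_ceil ((t - s) / Q)
    rw [div_le_iff₀ hQ'] at h
    linarith
  · have h := (Int.ceil_lt_add_one ((t - s) / Q)).le
    have h2 := mul_le_mul_of_nonneg_right h hQ'.le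
    rw [add_mul, div_mul_cancel₀ _ hQ'.ne', one_mul] at h2
    linarith

/-- cost along a level over at most one period -/
private lemma K3a_lev {ω R : ℝ} {a ua ψ : ℝ → ℝ} (hQ : 0 < Q) (ha : Lev w Q E₁ ω R a ua ψ)
    {s t : ℝ} (hst : s ≤ t) (ht : t ≤ s + Q) : c1 w Q E₁ s t a ua ≤ ψ t - ψ s + ω := by
  obtain ⟨ωa, h0, h1, h2⟩ := ha.cost
  have hQ' : (0 : ℝ) < Q := by exact_mod_cast hQ
  rw [h2 s t hst]
  have h3 : ωa / Q * (t - s) ≤ ωa / Q * Q :=
    mul_le_mul_of_nonneg_left (by linarith) (div_nonneg h0 hQ'.le)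
  rw [div_mul_cancel₀ _ hQ'.ne'] at h3
  linarith

private lemma K3a_key (hw : HW Q w w₁ w₂ B) (hb : Bar w Q E₁ μ Bc) {ω R : ℝ}
    {a ua ψa c uc ψc : ℝ → ℝ} (ha : Lev w Q E₁ ω R a ua ψa) (hc : Lev w Q E₁ ω R c uc ψc)
    (hab : ∀ t, a t < Bc t) (hbc : ∀ t, Bc t < c t) {s t s' t' : ℝ} {ξ u ξ' u' : ℝ → ℝ}
    (h : Cur s t ξ u) (h1 : ξ s = a s) (h2 : ξ t = c t) (h' : Cur s' t' ξ' u')
    (h1' : ξ' s' = c s') (h2' : ξ' t' = a t') :
    μ - 2 * ω ≤ (c1 w Q E₁ s t ξ u + ψa s - ψc t) + (c1 w Q E₁ s' t' ξ' u' + ψc s' - ψa t') := by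
  have hQ := hb.Q_pos
  have hQ' : (0 : ℝ) < Q := by exact_mod_cast hQ
  obtain ⟨i, hi1, hi2⟩ := K3a_floor hQ t s'
  obtain ⟨j, hj1, hj2⟩ := K3a_floor hQ (t' + i * Q) s
  have hst := h.le
  have hst' := h'.le
  have hlt : s < t := by
    rcases eq_or_lt_of_le hst with he | he
    · exfalso
      rw [← he, h1] at h2
      have := hab s
      have := hbc s
      linarith
    · exact he
  -- `j ≥ 1`
  have hjpos : 0 < j := by
    have h3 : (0 : ℝ) < (j : ℝ) * Q := by linarith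
    have h4 : (0 : ℝ) < (j : ℝ) := (pos_iff_pos_of_mul_pos h3).2 hQ'
    exact_mod_cast h4
  obtain ⟨n, rfl⟩ : ∃ n : ℕ, j = n := ⟨j.toNat, (Int.toNat_of_nonneg hjpos.le).symm⟩
  rw [Int.cast_natCast] at hj1 hj2
  -- the four pieces
  have hp2 : Cur t (s' + i * Q) c uc := hc.cur _ _ hi1
  have hp3 : Cur (s' + i * Q) (t' + i * Q) (fun τ => ξ' (τ - i * Q)) fun τ => u' (τ - i * Q) :=
    h'.shift _
  have hp4 : Cur (t' + i * Q) (s + n * Q) a ua := ha.cur _ _ hj1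
  obtain ⟨x3, u3, hx3, hx3a, hx3b, hx3c⟩ := K3a_glue (E₁ := E₁) hw hp3 hp4 (by
    simp only [add_sub_cancel_right]
    rw [h2', K3a_per ha.per])
  obtain ⟨x2, u2, hx2, hx2a, hx2b, hx2c⟩ := K3a_glue (E₁ := E₁) hw hp2 hx3 (by
    rw [hx3a _ (by linarith)]
    simp only [add_sub_cancel_right]
    rw [h1', K3a_per hc.per])
  obtain ⟨x1, u1, hx1, hx1a, hx1b, hx1c⟩ := K3a_glue (E₁ := E₁) hw h hx2 (by
    rw [hx2a _ hi1, h2])
  have hclosed : x1 (s + n * Q) = x1 s := by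
    rw [hx1b, hx2b, hx3b, hx1a s hst, h1]
    have := K3a_per ha.per n s
    rwa [Int.cast_natCast] at this
  -- it meets the barrier
  have hmeet : ∃ τ ∈ Set.Icc s (s + n * Q), ∃ k : ℤ, x1 τ = Bc τ + k := by
    have hcont : ContinuousOn (fun τ => ξ τ - Bc τ) (Set.Icc s t) :=
      h.cont.sub hb.cont.continuousOn
    have h0 : (0 : ℝ) ∈ Set.Icc (ξ s - Bc s) (ξ t - Bc t) := by
      rw [h1, h2]
      constructor
      · linarith [hab s]
      · linarith [hbc t]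
    obtain ⟨τ, hτ, hτ0⟩ := intermediate_value_Icc hst hcont h0
    refine ⟨τ, ⟨hτ.1, by linarith [hτ.2]⟩, 0, ?_⟩
    rw [hx1a τ hτ.2]
    push_cast
    have : ξ τ - Bc τ = 0 := hτ0
    linarith
  have hmark := hb.mark n s x1 u1 (by exact_mod_cast hjpos) hx1 hclosed hmeet
  have htot : A1 w s (s + n * Q) x1 u1 = c1 w Q E₁ s (s + n * Q) x1 u1 + n * E₁ := by
    unfold c1
    field_simp
    ring
  rw [htot, hx1c, hx2c, hx3c, K3a_shift hw] at hmark
  have hl2 := K3a_lev hQ hc hi1 hi2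
  have hl4 := K3a_lev hQ ha hj1 hj2
  rw [K3a_per hc.ψper] at hl2
  have e1 : ψa (s + n * Q) = ψa s := by
    have := K3a_per ha.ψper n s
    rwa [Int.cast_natCast] at this
  rw [K3a_per ha.ψper, e1] at hl4
  linarith

theorem gap_pair (hw : HW Q w w₁ w₂ B) (hb : Bar w Q E₁ μ Bc) {ω R : ℝ}
    {a ua ψa c uc ψc : ℝ → ℝ} (ha : Lev w Q E₁ ω R a ua ψa) (hc : Lev w Q E₁ ω R c uc ψc)
    (hab : ∀ t, a t < Bc t) (hbc : ∀ t, Bc t < c t) :
    ∃ U D : ℝ, μ - 2 * ω ≤ U + D ∧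
      (∀ (s t : ℝ) (ξ u : ℝ → ℝ), Cur s t ξ u → ξ s = a s → ξ t = c t →
        U + ψc t - ψa s ≤ c1 w Q E₁ s t ξ u) ∧
      ∀ (s t : ℝ) (ξ u : ℝ → ℝ), Cur s t ξ u → ξ s = c s → ξ t = a t →
        D + ψa t - ψc s ≤ c1 w Q E₁ s t ξ u := by
  obtain ⟨SU, hSU⟩ : ∃ SU : Set ℝ, SU = {r | ∃ (s t : ℝ) (ξ u : ℝ → ℝ), Cur s t ξ u ∧ ξ s = a s ∧
    ξ t = c t ∧ r = c1 w Q E₁ s t ξ u + ψa s - ψc t} := ⟨_, rfl⟩
  obtain ⟨SD, hSD⟩ : ∃ SD : Set ℝ, SD = {r | ∃ (s t : ℝ) (ξ u : ℝ → ℝ), Cur s t ξ u ∧ ξ s = c s ∧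
    ξ t = a t ∧ r = c1 w Q E₁ s t ξ u + ψc s - ψa t} := ⟨_, rfl⟩
  have hkey : ∀ r ∈ SU, ∀ r' ∈ SD, μ - 2 * ω ≤ r + r' := by
    intro r hr r' hr'
    rw [hSU] at hr
    rw [hSD] at hr'
    obtain ⟨s, t, ξ, u, h, h1, h2, rfl⟩ := hr
    obtain ⟨s', t', ξ', u', h', h1', h2', rfl⟩ := hr'
    exact K3a_key hw hb ha hc hab hbc h h1 h2 h' h1' h2'
  have hneU : SU.Nonempty := by
    rw [hSU]
    exact ⟨c1 w Q E₁ 0 1 (fun t => a 0 + (c 1 - a 0) * t) (fun _ => c 1 - a 0) + ψa 0 - ψc 1, 0, 1,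
      _, _, Cur.line zero_le_one (a 0) (c 1 - a 0), by ring, by ring, rfl⟩
  have hneD : SD.Nonempty := by
    rw [hSD]
    exact ⟨c1 w Q E₁ 0 1 (fun t => c 0 + (a 1 - c 0) * t) (fun _ => a 1 - c 0) + ψc 0 - ψa 1, 0, 1,
      _, _, Cur.line zero_le_one (c 0) (a 1 - c 0), by ring, by ring, rfl⟩
  obtain ⟨r0, hr0⟩ := hneU
  obtain ⟨r1, hr1⟩ := hneD
  have hbU : BddBelow SU := ⟨μ - 2 * ω - r1, fun r hr => by linarith [hkey r hr r1 hr1]⟩
  have hbD : BddBelow SD := ⟨μ - 2 * ω - r0, fun r hr => by linarith [hkey r0 hr0 r hr]⟩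
  refine ⟨sInf SU, sInf SD, ?_, ?_, ?_⟩
  · have h1 : ∀ r ∈ SU, μ - 2 * ω - r ≤ sInf SD := fun r hr =>
      le_csInf ⟨r1, hr1⟩ fun r' hr' => by linarith [hkey r hr r' hr']
    have h2 : μ - 2 * ω - sInf SD ≤ sInf SU :=
      le_csInf ⟨r0, hr0⟩ fun r hr => by linarith [h1 r hr]
    linarith
  · intro s t ξ u h h1 h2
    have := csInf_le hbU (show c1 w Q E₁ s t ξ u + ψa s - ψc t ∈ SU by
      rw [hSU]; exact ⟨s, t, ξ, u, h, h1, h2, rfl⟩)
    linarith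
  · intro s t ξ u h h1 h2
    have := csInf_le hbD (show c1 w Q E₁ s t ξ u + ψc s - ψa t ∈ SD by
      rw [hSD]; exact ⟨s, t, ξ, u, h, h1, h2, rfl⟩)
    linarith

end Pool.Agent.H33.AN

end

section

/-!
# Module L3: closing up curves inside a moving level

Notation: `q = s • zv P`, `θ(x) = ⟪zv k₀, x⟫`. (Compare `Pool/Agent/H33/AM/P/T3.lean`.)
* `closes2`: let `θ(x) = a t`, `θ(y) = a t'`; there is an integer `i` with `b = t' + i Q ∈ [t + j₀ Q, t + (j₀ + 1) Q]`;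
  `a b = a t'`. Let `z = x - y + (b - t) • q + (a t' - a t) • e₀`, `θ(z) = 0`, so there is `k` with `dot k₀ k = 0`,
  `‖z - zv k‖ ≤ C₀`; `w₀ = (zv k - z) / (b - t)`, `⟪zv k₀, w₀⟫ = 0`. The curve
  `X τ = x + (τ - t) • (q + w₀) + (a τ - a t) • e₀` (`Adm.lift`) has `θ (X τ) = a τ` and ends in `y + zv k`; its
  velocity is `q + w₀ + ua τ • e₀`. By `Trap2.hi` its action w.r.t. `ℓ + e` is at most
  `M (ψ t' - ψ t + ω (j₀ + 1)) + κ/2 C₀²/(b - t) + δ (b - t) + δ + δ (C₀ + R ‖e₀‖ (b - t)) + e (b - t)`,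
  `j₀ Q ≤ b - t ≤ (j₀ + 1) Q`.
* `rough2`: `b ∈ [t + Q, t + 2 Q]`, `z = x - y + (b - t) • q`, `w₀ = (zv k - z) / (b - t)`, the line
  `X τ = x + (τ - t) • (q + w₀)`; `‖w₀‖ ≤ C₀ / Q`, `w` is bounded.
-/

set_option autoImplicit false

open MeasureTheory
open scoped RealInnerProductSpace

namespace Pool.Agent.H33.AN

open Pool.Agent.H33.AM

variable {n : ℕ} {l : EuclideanSpace ℝ (Fin n) → EuclideanSpace ℝ (Fin n) → ℝ → ℝ}
  {k₀ m P : Fin n → ℤ} {s : ℝ} {e₀ : EuclideanSpace ℝ (Fin n)} {Q : ℕ} {w w₁ w₂ : ℝ → ℝ → ℝ}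
  {B E₁ M κ δ : ℝ}

theorem closes2 (hQ : 0 < Q) (hw : HW Q w w₁ w₂ B) (h : Trap2 l k₀ m P s e₀ Q w E₁ M κ δ)
    {e C₀ ω R : ℝ} {a ua ψ : ℝ → ℝ} (he : e ≤ δ) (ha : Lev w Q E₁ ω R a ua ψ) (hC₀ : 0 ≤ C₀)
    (hC : ∀ z : EuclideanSpace ℝ (Fin n), |⟪zv k₀, z⟫| ≤ 1 →
      ∃ k : Fin n → ℤ, dot k₀ k = 0 ∧ ‖z - zv k‖ ≤ C₀) {j₀ : ℕ} (hj : 0 < j₀) :
    Closes2 l k₀ Q e (M * ω * (j₀ + 1) + κ * C₀ ^ 2 / (2 * (j₀ * Q)) +
      δ * (2 + R * ‖e₀‖) * ((j₀ + 1) * Q) + δ * (1 + C₀)) a fun t => M * ψ t := by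
  intro t t' x y hx hy
  have hQ0 : (0 : ℝ) < Q := by exact_mod_cast hQ
  have hj0 : (0 : ℝ) < j₀ := by exact_mod_cast hj
  have hkP : ⟪zv k₀, zv P⟫ = (0 : ℝ) := by rw [inner_zv, h.kP]; simp
  have hR : 0 ≤ R := (abs_nonneg _).trans (ha.bd 0)
  have hδ := h.δ_nonneg
  -- the end time
  obtain ⟨i, hi1, hi2⟩ : ∃ i : ℤ, t + j₀ * Q ≤ t' + i * Q ∧ t' + i * Q ≤ t + (j₀ + 1) * Q := by
    refine ⟨⌈(t + j₀ * Q - t') / Q⌉, ?_, ?_⟩
    · have h1 := Int.le_ceil ((t + j₀ * Q - t') / Q)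
      rw [div_le_iff₀ hQ0] at h1
      linarith
    · have h1 := (Int.ceil_lt_add_one ((t + j₀ * Q - t') / Q)).le
      have h2 := mul_le_mul_of_nonneg_right h1 hQ0.le
      rw [add_mul, div_mul_cancel₀ _ hQ0.ne'] at h2
      linarith
  obtain ⟨b, hb⟩ : ∃ b : ℝ, b = t' + i * Q := ⟨_, rfl⟩
  rw [← hb] at hi1 hi2
  obtain ⟨T, hT⟩ : ∃ T : ℝ, T = b - t := ⟨_, rfl⟩
  have hT1 : j₀ * Q ≤ T := by rw [hT]; linarith
  have hT2 : T ≤ (j₀ + 1) * Q := by rw [hT]; linarith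
  have hjQ : (0 : ℝ) < j₀ * Q := mul_pos hj0 hQ0
  have hT0 : 0 < T := lt_of_lt_of_le hjQ hT1
  have htb : t ≤ b := by rw [hT] at hT0; linarith
  have hab : a b = a t' := by
    have hp : Function.Periodic a (Q : ℝ) := ha.per
    rw [hb]
    exact hp.int_mul i t'
  have hψb : ψ b = ψ t' := by
    have hp : Function.Periodic ψ (Q : ℝ) := ha.ψper
    rw [hb]
    exact hp.int_mul i t'
  -- the integer vector
  obtain ⟨q, hq⟩ : ∃ q : EuclideanSpace ℝ (Fin n), q = s • zv P := ⟨_, rfl⟩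
  have hkq : ⟪zv k₀, q⟫ = (0 : ℝ) := by rw [hq, inner_smul_right, hkP, mul_zero]
  obtain ⟨z, hz⟩ : ∃ z : EuclideanSpace ℝ (Fin n), z = x - y + T • q + (a t' - a t) • e₀ := ⟨_, rfl⟩
  have hz0 : ⟪zv k₀, z⟫ = (0 : ℝ) := by
    rw [hz, inner_add_right, inner_add_right, inner_sub_right, inner_smul_right, inner_smul_right,
      hkq, h.ke, hx, hy]
    ring
  obtain ⟨k, hk, hkC⟩ := hC z (by rw [hz0]; norm_num)
  obtain ⟨w₀, hw₀⟩ : ∃ w₀ : EuclideanSpace ℝ (Fin n), w₀ = T⁻¹ • (zv k - z) := ⟨_, rfl⟩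
  have hkw : ⟪zv k₀, w₀⟫ = (0 : ℝ) := by
    rw [hw₀, inner_smul_right, inner_sub_right, hz0, inner_zv, hk]
    simp
  have hTw : T • w₀ = zv k - z := by
    rw [hw₀, smul_smul, mul_inv_cancel₀ hT0.ne', one_smul]
  have hnw : ‖w₀‖ * T ≤ C₀ := by
    have h1 : ‖w₀‖ * T = ‖z - zv k‖ := by
      rw [← norm_neg (z - zv k), neg_sub, ← hTw, norm_smul, Real.norm_of_nonneg hT0.le, mul_comm]
    rw [h1]
    exact hkC
  -- the curve
  have hadm := Adm.lift (ha.cur t b htb) x (q + w₀) e₀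
  have hX0 : x + (t - t) • (q + w₀) + (a t - a t) • e₀ = x := by
    rw [sub_self, sub_self, zero_smul, zero_smul, add_zero, add_zero]
  have hXb : x + (b - t) • (q + w₀) + (a b - a t) • e₀ = y + zv k := by
    rw [← hT, smul_add, hTw, hz, hab]
    abel
  refine ⟨b, i, k, _, hb, htb, hk, ⟨_, _, hadm, hX0, hXb, rfl⟩, ?_⟩
  -- the action
  have hin1 : ∀ τ, ⟪zv k₀, x + (τ - t) • (q + w₀) + (a τ - a t) • e₀⟫ = a τ := by
    intro τ
    rw [inner_add_right, inner_add_right, inner_smul_right, inner_smul_right, inner_add_right,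
      hkq, hkw, h.ke, hx]
    ring
  have hin2 : ∀ τ, ⟪zv k₀, (q + w₀) + ua τ • e₀⟫ = ua τ := by
    intro τ
    rw [inner_add_right, inner_add_right, inner_smul_right, hkq, hkw, h.ke]
    ring
  have hhi := h.hi t b _ _ hadm
  simp only [hin1, hin2] at hhi
  rw [← hq] at hhi
  have hv2 : ∀ τ, (q + w₀) + ua τ • e₀ - q = w₀ + ua τ • e₀ := by
    intro τ
    abel
  simp only [hv2, add_sub_cancel_right] at hhi
  have hint : IntervalIntegrable (fun τ => l (x + (τ - t) • (q + w₀) + (a τ - a t) • e₀)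
      ((q + w₀) + ua τ • e₀) τ) volume t b :=
    Adm.integrable2 hadm (g := fun p => l p.1 p.2.1 p.2.2) h.hl.cont
  have hact : ∫ τ in t..b, (l (x + (τ - t) • (q + w₀) + (a τ - a t) • e₀)
      ((q + w₀) + ua τ • e₀) τ + e) = (∫ τ in t..b, l (x + (τ - t) • (q + w₀) + (a τ - a t) • e₀)
      ((q + w₀) + ua τ • e₀) τ) + e * T := by
    rw [intervalIntegral.integral_add hint intervalIntegrable_const,
      intervalIntegral.integral_const, ← hT, smul_eq_mul, mul_comm T e]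
  rw [hact]
  -- the terms
  obtain ⟨ωa, hω0, hω1, hcost⟩ := ha.cost
  have hc := hcost t b htb
  rw [hc, hψb, ← hT] at hhi
  have hω : 0 ≤ ω := hω0.trans hω1
  have e1 : ωa / Q * T ≤ ω * (j₀ + 1) := by
    calc ωa / Q * T ≤ ω / Q * ((j₀ + 1) * Q) :=
          mul_le_mul (div_le_div_of_nonneg_right hω1 hQ0.le) hT2 hT0.le (by positivity)
      _ = ω * (j₀ + 1) := by field_simp
  have e2 : M * (ψ t' - ψ t + ωa / Q * T) ≤ M * (ψ t' - ψ t) + M * ω * (j₀ + 1) := by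
    have h1 := mul_le_mul_of_nonneg_left e1 h.M_pos.le
    have h2 : M * (ψ t' - ψ t + ωa / Q * T) = M * (ψ t' - ψ t) + M * (ωa / Q * T) := by ring
    rw [h2]
    linarith
  have e3 : κ / 2 * (∫ τ in t..b, ‖w₀‖ ^ 2) ≤ κ * C₀ ^ 2 / (2 * (j₀ * Q)) := by
    rw [intervalIntegral.integral_const, ← hT, smul_eq_mul]
    have h1 : ‖w₀‖ ≤ C₀ / T := by rw [le_div_iff₀ hT0]; exact hnw
    have h2 : ‖w₀‖ * (‖w₀‖ * T) ≤ C₀ / T * C₀ := by
      refine mul_le_mul h1 hnw ?_ (div_nonneg hC₀ hT0.le)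
      exact mul_nonneg (norm_nonneg _) hT0.le
    have h3 : C₀ / T * C₀ ≤ C₀ ^ 2 / (j₀ * Q) := by
      have h4 : C₀ / T * C₀ = C₀ ^ 2 / T := by ring
      rw [h4]
      exact div_le_div_of_nonneg_left (sq_nonneg _) hjQ hT1
    have h5 := mul_le_mul_of_nonneg_left (h2.trans h3) (half_pos h.κ_pos).le
    calc κ / 2 * (T * ‖w₀‖ ^ 2) = κ / 2 * (‖w₀‖ * (‖w₀‖ * T)) := by ring
      _ ≤ κ / 2 * (C₀ ^ 2 / (j₀ * Q)) := h5
      _ = κ * C₀ ^ 2 / (2 * (j₀ * Q)) := by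
        field_simp
  have e4 : (∫ τ in t..b, ‖w₀ + ua τ • e₀‖) ≤ C₀ + R * ‖e₀‖ * ((j₀ + 1) * Q) := by
    have h1 : ∀ τ ∈ Set.uIoc t b, ‖(‖w₀ + ua τ • e₀‖ : ℝ)‖ ≤ ‖w₀‖ + R * ‖e₀‖ := by
      intro τ _
      rw [norm_norm]
      refine (norm_add_le _ _).trans ?_
      rw [norm_smul, Real.norm_eq_abs]
      have := mul_le_mul_of_nonneg_right (ha.bdu τ) (norm_nonneg e₀)
      linarith
    have h2 := intervalIntegral.norm_integral_le_of_norm_le_const h1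
    have h3 := (le_abs_self _).trans ((Real.norm_eq_abs _).symm.le.trans h2)
    rw [← hT, abs_of_pos hT0, add_mul] at h3
    refine h3.trans (add_le_add hnw ?_)
    exact mul_le_mul_of_nonneg_left hT2 (mul_nonneg hR (norm_nonneg _))
  have e5 : δ * (∫ τ in t..b, ‖w₀ + ua τ • e₀‖) ≤ δ * (C₀ + R * ‖e₀‖ * ((j₀ + 1) * Q)) :=
    mul_le_mul_of_nonneg_left e4 hδ
  have e6 : δ * T ≤ δ * ((j₀ + 1) * Q) := mul_le_mul_of_nonneg_left hT2 hδ
  have e7 : e * T ≤ δ * ((j₀ + 1) * Q) :=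
    (mul_le_mul_of_nonneg_right he hT0.le).trans e6
  have e8 : δ * (C₀ + R * ‖e₀‖ * ((j₀ + 1) * Q)) = δ * C₀ + δ * (R * ‖e₀‖) * ((j₀ + 1) * Q) := by
    ring
  have e9 : δ * (2 + R * ‖e₀‖) * ((j₀ + 1) * Q) = 2 * (δ * ((j₀ + 1) * Q)) +
      δ * (R * ‖e₀‖) * ((j₀ + 1) * Q) := by ring
  have e10 : M * (ψ t' - ψ t) = M * ψ t' - M * ψ t := by ring
  show _ ≤ _ + M * ψ t' - M * ψ t
  rw [e9]
  rw [e8] at e5
  rw [e10] at e2
  linarith

end Pool.Agent.H33.AN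

end

section

/-!
# Module L3: closing up curves inside a moving level

Notation: `q = s • zv P`, `θ(x) = ⟪zv k₀, x⟫`. (Compare `Pool/Agent/H33/AM/P/T3.lean`.)
* `closes2`: let `θ(x) = a t`, `θ(y) = a t'`; there is an integer `i` with `b = t' + i Q ∈ [t + j₀ Q, t + (j₀ + 1) Q]`;
  `a b = a t'`. Let `z = x - y + (b - t) • q + (a t' - a t) • e₀`, `θ(z) = 0`, so there is `k` with `dot k₀ k = 0`,
  `‖z - zv k‖ ≤ C₀`; `w₀ = (zv k - z) / (b - t)`, `⟪zv k₀, w₀⟫ = 0`. The curve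
  `X τ = x + (τ - t) • (q + w₀) + (a τ - a t) • e₀` (`Adm.lift`) has `θ (X τ) = a τ` and ends in `y + zv k`; its
  velocity is `q + w₀ + ua τ • e₀`. By `Trap2.hi` its action w.r.t. `ℓ + e` is at most
  `M (ψ t' - ψ t + ω (j₀ + 1)) + κ/2 C₀²/(b - t) + δ (b - t) + δ + δ (C₀ + R ‖e₀‖ (b - t)) + e (b - t)`,
  `j₀ Q ≤ b - t ≤ (j₀ + 1) Q`.
* `rough2`: `b ∈ [t + Q, t + 2 Q]`, `z = x - y + (b - t) • q`, `w₀ = (zv k - z) / (b - t)`, the line
  `X τ = x + (τ - t) • (q + w₀)`; `‖w₀‖ ≤ C₀ / Q`, `w` is bounded.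
-/

set_option autoImplicit false

open MeasureTheory
open scoped RealInnerProductSpace

namespace Pool.Agent.H33.AN

open Pool.Agent.H33.AM

variable {n : ℕ} {l : EuclideanSpace ℝ (Fin n) → EuclideanSpace ℝ (Fin n) → ℝ → ℝ}
  {k₀ m P : Fin n → ℤ} {s : ℝ} {e₀ : EuclideanSpace ℝ (Fin n)} {Q : ℕ} {w w₁ w₂ : ℝ → ℝ → ℝ}
  {B E₁ M κ δ : ℝ}

private theorem L3b_line {t b : ℝ} (htb : t ≤ b) (x v : EuclideanSpace ℝ (Fin n)) :
    Adm t b (fun τ => x + (τ - t) • v) fun _ => v := by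
  refine ⟨htb, by fun_prop, ⟨∅, Set.countable_empty, fun τ _ => ?_⟩, measurable_const,
    ⟨‖v‖, fun _ => le_rfl⟩⟩
  simpa using (((hasDerivAt_id τ).sub_const t).smul_const v).const_add x

/-- The action of a line, all bounds. -/
private theorem L3b_cost (hw : HW Q w w₁ w₂ B) (h : Trap2 l k₀ m P s e₀ Q w E₁ M κ δ) (e : ℝ)
    {T Qr C₀ : ℝ} (hQr : (Q : ℝ) = Qr) (hQ1 : 1 ≤ Qr) (hC₀ : 0 ≤ C₀) {t b : ℝ} (hT : T = b - t)
    (hT1 : Qr ≤ T) (hT2 : T ≤ 2 * Qr) (x v : EuclideanSpace ℝ (Fin n))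
    (hv : ‖v - s • zv P‖ * T ≤ C₀) (hθ : |⟪zv k₀, v⟫| * T ≤ 1) :
    (∫ τ in t..b, (l (x + (τ - t) • v) v τ + e)) ≤
      M * (2 * Qr * (1 / 2 + B) + 2 * |E₁|) + κ / 2 * ((C₀ + ‖e₀‖) ^ 2 * (2 * Qr)) +
        δ * (2 * Qr) + δ + δ * C₀ + |e| * (2 * Qr) := by
  have hB := hw.nonneg
  have hM := h.M_pos
  have hκ := h.κ_pos
  have hδ := h.δ_nonneg
  have hTpos : 0 < T := by linarith
  have htb : t ≤ b := by linarith
  have hadm := L3b_line htb x v
  have hint : IntervalIntegrable (fun τ => l (x + (τ - t) • v) v τ) volume t b :=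
    Adm.integrable2 hadm (g := fun p => l p.1 p.2.1 p.2.2) h.hl.cont
  have hsum : (∫ τ in t..b, (l (x + (τ - t) • v) v τ + e)) =
      (∫ τ in t..b, l (x + (τ - t) • v) v τ) + e * T := by
    rw [intervalIntegral.integral_add hint intervalIntegrable_const,
      intervalIntegral.integral_const, smul_eq_mul, hT]
    ring
  have hhi := h.hi t b _ _ hadm
  have hθ1 : |⟪zv k₀, v⟫| ≤ 1 := by
    have h1 : |⟪zv k₀, v⟫| * 1 ≤ |⟪zv k₀, v⟫| * T :=
      mul_le_mul_of_nonneg_left (by linarith) (abs_nonneg _)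
    linarith
  have hv1 : ‖v - s • zv P‖ ≤ C₀ := by
    have h1 : ‖v - s • zv P‖ * 1 ≤ ‖v - s • zv P‖ * T :=
      mul_le_mul_of_nonneg_left (by linarith) (norm_nonneg _)
    linarith
  -- the one-dimensional action
  have hA1 : A1 w t b (fun τ => ⟪zv k₀, x + (τ - t) • v⟫) (fun _ => ⟪zv k₀, v⟫) ≤
      2 * Qr * (1 / 2 + B) := by
    unfold A1
    have hb : ∀ τ, ⟪zv k₀, v⟫ ^ 2 / 2 - w ⟪zv k₀, x + (τ - t) • v⟫ τ ≤ 1 / 2 + B := by
      intro τ
      have g1 := (abs_le.1 (hw.bd ⟪zv k₀, x + (τ - t) • v⟫ τ)).1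
      have g2 : ⟪zv k₀, v⟫ ^ 2 ≤ 1 := by
        rw [← sq_abs]
        nlinarith [abs_nonneg (⟪zv k₀, v⟫ : ℝ)]
      linarith
    have hwc : Continuous fun z : ℝ × ℝ => w z.1 z.2 :=
      continuous_iff_continuousAt.2 (fun z => (hw.der z.1 z.2).continuousAt)
    have hc : Continuous fun τ : ℝ => ⟪zv k₀, v⟫ ^ 2 / 2 - w ⟪zv k₀, x + (τ - t) • v⟫ τ := by
      refine continuous_const.sub ?_
      exact hwc.comp (by fun_prop : Continuous fun τ : ℝ => ((⟪zv k₀, x + (τ - t) • v⟫, τ) : ℝ × ℝ))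
    have hI : (∫ τ in t..b, (⟪zv k₀, v⟫ ^ 2 / 2 - w ⟪zv k₀, x + (τ - t) • v⟫ τ)) ≤
        ∫ _τ in t..b, (1 / 2 + B) :=
      intervalIntegral.integral_mono_on htb (hc.intervalIntegrable _ _) intervalIntegrable_const
        (fun τ _ => hb τ)
    rw [intervalIntegral.integral_const, smul_eq_mul, ← hT] at hI
    exact hI.trans (mul_le_mul_of_nonneg_right hT2 (by positivity))
  have hc1 : c1 w Q E₁ t b (fun τ => ⟪zv k₀, x + (τ - t) • v⟫) (fun _ => ⟪zv k₀, v⟫) ≤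
      2 * Qr * (1 / 2 + B) + 2 * |E₁| := by
    unfold c1
    have g1 : -(E₁ / Q * (b - t)) ≤ 2 * |E₁| := by
      rw [hQr, ← hT]
      have g2 : |E₁ / Qr * T| ≤ 2 * |E₁| := by
        rw [abs_mul, abs_div, abs_of_pos (by linarith : (0 : ℝ) < Qr), abs_of_pos hTpos,
          div_mul_eq_mul_div, div_le_iff₀ (by linarith)]
        nlinarith [abs_nonneg E₁]
      linarith [neg_le_abs (E₁ / Qr * T)]
    linarith
  have hI1 : (∫ τ in t..b, ‖(fun _ : ℝ => v) τ - s • zv P - ⟪zv k₀, (fun _ : ℝ => v) τ⟫ • e₀‖ ^ 2)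
      = ‖v - s • zv P - (⟪zv k₀, v⟫ : ℝ) • e₀‖ ^ 2 * T := by
    rw [intervalIntegral.integral_const, smul_eq_mul, hT]
    ring
  have hI2 : (∫ τ in t..b, ‖(fun _ : ℝ => v) τ - s • zv P‖) = ‖v - s • zv P‖ * T := by
    rw [intervalIntegral.integral_const, smul_eq_mul, hT]
    ring
  have hn : ‖v - s • zv P - (⟪zv k₀, v⟫ : ℝ) • e₀‖ ≤ C₀ + ‖e₀‖ := by
    refine (norm_sub_le _ _).trans (add_le_add hv1 ?_)
    rw [norm_smul, Real.norm_eq_abs]
    nlinarith [norm_nonneg e₀]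
  have hn2 : ‖v - s • zv P - (⟪zv k₀, v⟫ : ℝ) • e₀‖ ^ 2 * T ≤ (C₀ + ‖e₀‖) ^ 2 * (2 * Qr) := by
    refine mul_le_mul ?_ hT2 hTpos.le (by positivity)
    exact pow_le_pow_left₀ (norm_nonneg _) hn 2
  rw [hI1, hI2, ← hT] at hhi
  have k1 := mul_le_mul_of_nonneg_left hc1 hM.le
  have k2 := mul_le_mul_of_nonneg_left hn2 (half_pos hκ).le
  have k3 := mul_le_mul_of_nonneg_left hT2 hδ
  have k4 := mul_le_mul_of_nonneg_left hv hδ
  have k5 : e * T ≤ |e| * (2 * Qr) := by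
    calc e * T ≤ |e| * T := mul_le_mul_of_nonneg_right (le_abs_self e) hTpos.le
      _ ≤ |e| * (2 * Qr) := mul_le_mul_of_nonneg_left hT2 (abs_nonneg e)
  rw [hsum]
  linarith

theorem rough2 (hQ : 0 < Q) (hw : HW Q w w₁ w₂ B) (h : Trap2 l k₀ m P s e₀ Q w E₁ M κ δ) (e : ℝ)
    {C₀ : ℝ} (hC₀ : 0 ≤ C₀)
    (hC : ∀ z : EuclideanSpace ℝ (Fin n), |⟪zv k₀, z⟫| ≤ 1 →
      ∃ k : Fin n → ℤ, dot k₀ k = 0 ∧ ‖z - zv k‖ ≤ C₀) :
    ∃ C₁, Rough2 l k₀ Q e C₁ := by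
  refine ⟨M * (2 * Q * (1 / 2 + B) + 2 * |E₁|) + κ / 2 * ((C₀ + ‖e₀‖) ^ 2 * (2 * Q)) +
        δ * (2 * Q) + δ + δ * C₀ + |e| * (2 * Q), ?_⟩
  intro t t' x y hxy
  have hQ1 : (1 : ℝ) ≤ Q := by exact_mod_cast hQ
  have hQ0 : (0 : ℝ) < Q := by linarith
  have hkP : ⟪zv k₀, zv P⟫ = (0 : ℝ) := by rw [inner_zv, h.kP]; simp
  -- the end time
  set i : ℤ := ⌈(t + Q - t') / Q⌉ with hi
  have hi1 : t + Q ≤ t' + i * Q := by
    have := Int.le_ceil ((t + Q - t') / (Q : ℝ))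
    rw [div_le_iff₀ hQ0] at this
    linarith
  have hi2 : t' + i * Q ≤ t + 2 * Q := by
    have := (Int.ceil_lt_add_one ((t + Q - t') / (Q : ℝ))).le
    have g1 : (i : ℝ) * Q ≤ ((t + Q - t') / (Q : ℝ) + 1) * Q :=
      mul_le_mul_of_nonneg_right this hQ0.le
    have g2 : ((t + Q - t') / (Q : ℝ) + 1) * Q = t + Q - t' + Q := by field_simp
    linarith
  set b : ℝ := t' + i * Q with hb
  set T : ℝ := b - t with hT
  have hT1 : (Q : ℝ) ≤ T := by rw [hT]; linarith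
  have hT2 : T ≤ 2 * Q := by rw [hT]; linarith
  have hTpos : 0 < T := by linarith
  set z : EuclideanSpace ℝ (Fin n) := x - y + T • (s • zv P) with hz
  have hz0 : ⟪zv k₀, z⟫ = ⟪zv k₀, x⟫ - ⟪zv k₀, y⟫ := by
    rw [hz, inner_add_right, inner_sub_right, inner_smul_right, inner_smul_right, hkP]
    ring
  have hz1 : |⟪zv k₀, z⟫| ≤ 1 := by
    rw [hz0, abs_sub_comm]; exact hxy
  obtain ⟨k, hk, hkC⟩ := hC z hz1
  set v : EuclideanSpace ℝ (Fin n) := s • zv P + T⁻¹ • (zv k - z) with hv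
  have hvq : v - s • zv P = T⁻¹ • (zv k - z) := by rw [hv]; abel
  have hnv : ‖v - s • zv P‖ * T ≤ C₀ := by
    rw [hvq, norm_smul, Real.norm_of_nonneg (inv_pos.2 hTpos).le, norm_sub_rev]
    have : T⁻¹ * ‖z - zv k‖ * T = ‖z - zv k‖ := by field_simp
    rw [this]; exact hkC
  have hθv : ⟪zv k₀, v⟫ = -(T⁻¹ * ⟪zv k₀, z⟫) := by
    rw [hv, inner_add_right, inner_smul_right, inner_smul_right, hkP, inner_sub_right,
      inner_zv, hk]
    simp
  have hθ : |⟪zv k₀, v⟫| * T ≤ 1 := by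
    rw [hθv, abs_neg, abs_mul, abs_of_pos (inv_pos.2 hTpos)]
    have : T⁻¹ * |⟪zv k₀, z⟫| * T = |⟪zv k₀, z⟫| := by field_simp
    rw [this]; exact hz1
  have hend : x + (b - t) • v = y + zv k := by
    rw [← hT, hv, smul_add, smul_smul T T⁻¹, mul_inv_cancel₀ hTpos.ne', one_smul, hz]
    abel
  have hadm := L3b_line (by linarith : t ≤ b) x v
  refine ⟨b, i, k, _, hb, by linarith, hk, ⟨_, _, hadm, by simp, hend, rfl⟩, ?_⟩
  exact L3b_cost hw h e rfl hQ1 hC₀ hT hT1 hT2 x v hnv hθ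

end Pool.Agent.H33.AN

end

section

/-!
# Module M4: trapping data exist

* `kin_exists`: `G` is invertible (positive definite, finite dimension), `e₁ = G⁻¹ (zv k₀)`,
  `⟪zv k₀, e₁⟫ = ⟪G e₁, e₁⟫ > 0`, `e₀ = e₁ / ⟪zv k₀, e₁⟫`, `M = 1 / ⟪zv k₀, e₁⟫`, so `G e₀ = M • zv k₀`; for
  `v = y • e₀ + z`, `y = ⟪zv k₀, v⟫`, `⟪zv k₀, z⟫ = 0`, expand `⟪G v, v⟫`.
* `trap2_exists`: `r = p / Q`, `V' x t = V (x + (r t) • zv m) t` (`HV2.moving`, constant `B'`),
  `w x t = avK (V · t) k₀ m (x + r t) / M = avK (V' · t) k₀ m x / M` (`avK_moving`),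
  `C₅ = B + M |E₁| / Q ≥ |M w + M E₁ / Q|`. Choose `0 < δ' ≤ δ₀` with `δ' C₅ ≤ δ₀ / 4`, `ε = δ₀ / 8`, `N` from
  `avP_tendsto2` for `V'`, `P = PN k₀ m 0 N`, `s` large. Let `ũ = u - q`, `q = s • zv P`,
  `y = ⟪zv k₀, u⟫ = ⟪zv k₀, ũ⟫` (`dot k₀ P = 0`), `z = ũ - y • e₀`. Then `⟪G ũ, ũ⟫ = M y² + ⟪G z, z⟫`,
  `|∫ V'(x, t) - ∫ M w(θ, t)| ≤ (2 B' + B' (b - a) + B' ∫ ‖ũ‖) / s + ε (b - a)`; for `lo` use
  `(B'/s) ‖ũ‖ ≤ (B'/s) (|y| ‖e₀‖ + ‖z‖) ≤ M δ'/2 y² + (B' ‖e₀‖/s)²/(2 M δ') + κ₁/2 ‖z‖² + (B'/s)²/(2 κ₁)` and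
  `M (1 - δ')/2 ∫ y² - ∫ M w - (M E₁/Q) (b - a) = M (1 - δ') c1 - δ' ∫ (M w + M E₁/Q)`.
-/

set_option autoImplicit false

open MeasureTheory
open scoped RealInnerProductSpace

namespace Pool.Agent.H33.AN

open Pool.Agent.H33.AM

variable {n : ℕ} {G : EuclideanSpace ℝ (Fin n) →L[ℝ] EuclideanSpace ℝ (Fin n)} {κ₁ κ₂ : ℝ}

private theorem M4a_zv_ne {k₀ m : Fin n → ℤ} (hkm : dot k₀ m = 1) :
    (zv k₀ : EuclideanSpace ℝ (Fin n)) ≠ 0 := by
  intro h
  have h1 : ∀ i, k₀ i = 0 := by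
    intro i
    have h2 : (zv k₀ : EuclideanSpace ℝ (Fin n)) i = 0 := by rw [h]; rfl
    have h3 : ((k₀ i : ℤ) : ℝ) = 0 := h2
    exact_mod_cast h3
  unfold dot at hkm
  rw [Finset.sum_eq_zero (fun i _ => by rw [h1 i, zero_mul])] at hkm
  exact absurd hkm (by norm_num)

private theorem M4a_surj (hG : HG G κ₁ κ₂) : Function.Surjective G := by
  have hinj : Function.Injective (G : EuclideanSpace ℝ (Fin n) →ₗ[ℝ] EuclideanSpace ℝ (Fin n)) := by
    rw [injective_iff_map_eq_zero]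
    intro v hv
    have hv' : G v = 0 := hv
    have h1 := hG.lo v
    rw [hv', inner_zero_left] at h1
    have h2 : ‖v‖ ^ 2 = 0 := by
      have h3 : 0 ≤ ‖v‖ ^ 2 := by positivity
      nlinarith [hG.pos]
    exact norm_eq_zero.1 (pow_eq_zero_iff (two_ne_zero) |>.1 h2)
  exact LinearMap.injective_iff_surjective.1 hinj

theorem kin_exists (hG : HG G κ₁ κ₂) {k₀ m : Fin n → ℤ} (hkm : dot k₀ m = 1) :
    ∃ (e₀ : EuclideanSpace ℝ (Fin n)) (M : ℝ), 0 < M ∧ ⟪zv k₀, e₀⟫ = 1 ∧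
      ∀ v, ⟪G v, v⟫ = M * ⟪zv k₀, v⟫ ^ 2 +
        ⟪G (v - ⟪zv k₀, v⟫ • e₀), v - ⟪zv k₀, v⟫ • e₀⟫ := by
  obtain ⟨e₁, he₁⟩ := M4a_surj hG (zv k₀)
  have he0 : e₁ ≠ 0 := by
    rintro rfl
    rw [map_zero] at he₁
    exact M4a_zv_ne hkm he₁.symm
  obtain ⟨c, hc⟩ : ∃ c : ℝ, c = ⟪zv k₀, e₁⟫ := ⟨_, rfl⟩
  have hc0 : 0 < c := by
    rw [hc, ← he₁]
    have h1 := hG.lo e₁
    have h2 : 0 < ‖e₁‖ := norm_pos_iff.2 he0
    have h3 : 0 < κ₁ * ‖e₁‖ ^ 2 := mul_pos hG.pos (by positivity)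
    linarith
  have hGe : G (c⁻¹ • e₁) = c⁻¹ • zv k₀ := by rw [map_smul, he₁]
  have hke : ⟪zv k₀, c⁻¹ • e₁⟫ = 1 := by
    rw [real_inner_smul_right, ← hc]
    exact inv_mul_cancel₀ hc0.ne'
  refine ⟨c⁻¹ • e₁, c⁻¹, inv_pos.2 hc0, hke, fun v => ?_⟩
  obtain ⟨e₀, he⟩ : ∃ e₀ : EuclideanSpace ℝ (Fin n), e₀ = c⁻¹ • e₁ := ⟨_, rfl⟩
  rw [← he] at hGe hke ⊢
  obtain ⟨y, hy⟩ : ∃ y : ℝ, y = ⟪zv k₀, v⟫ := ⟨_, rfl⟩
  obtain ⟨z, hz⟩ : ∃ z : EuclideanSpace ℝ (Fin n), z = v - y • e₀ := ⟨_, rfl⟩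
  rw [← hy, ← hz]
  have hkz : ⟪zv k₀, z⟫ = 0 := by
    rw [hz, inner_sub_right, real_inner_smul_right, hke, ← hy]
    ring
  have hv : v = y • e₀ + z := by rw [hz]; abel
  have h1 : ⟪G e₀, z⟫ = 0 := by rw [hGe, real_inner_smul_left, hkz, mul_zero]
  have h2 : ⟪G z, e₀⟫ = 0 := by
    rw [hG.symm, hGe, real_inner_smul_right, real_inner_comm, hkz, mul_zero]
  have h3 : ⟪G e₀, e₀⟫ = c⁻¹ := by rw [hGe, real_inner_smul_left, hke, mul_one]
  rw [hv, map_add, map_smul, inner_add_left, inner_add_right, inner_add_right,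
    real_inner_smul_left, real_inner_smul_left, real_inner_smul_right, real_inner_smul_right,
    h1, h2, h3]
  ring

end Pool.Agent.H33.AN

end
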