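import Pool.Agent.H47.B0.M08
import Pool.Agent.H47.B0.M10
import Pool.Agent.H47.B0.M11

/-! The parts of this file: H33.AN.P.X2c, H33.AN.P.X2d, H33.AN.P.X3a, H33.AN.P.G8b, H33.AN.P.J1b, H33.AN.P.J4a. -/

section

/-!
# Module X2: discrete minimisers

(Compare `Pool/Agent/H33/AM/P/X2a.lean`, `X2b.lean`, `X2c.lean`: the same for `K v + A(x) · v - V(x)`.)
`τ = T / N`, `v_i = (1/τ) (x_{i+1} - x_i)`, `t_i = i τ`, `S = Sd2 G V τ N`; `T` is a positive integer (the number of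
periods).
* `disc_exists2`: a quasi-periodic sequence is determined by `(x_0, …, x_{N-1}) ∈ (ℝⁿ)^N`; `S` is
  continuous in these variables, invariant under the translations by `zv k'`, so one may restrict to
  `x_0 ∈ [0, 1]ⁿ`, and coercive there: `⟪G v, v⟫ ≥ κ₁ ‖v‖²`, `|V| ≤ B`.
* `disc_EL2`: for `0 ≤ i < N`; derivative of `S` in the direction of the variable `x_i` (moved together with all
  the `x_{i + j N}`): the terms `i` and `i - 1` (for `i = 0`: the terms `0` and `N - 1`, where `v_{N-1} = v_{-1}`)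
  give `-G v_i - τ F(x_i, t_i) + G v_{i-1} = 0`. (The case `N = 1`: then `x_{i+1}`, `x_i` move together,
  `v_i = v_{i-1}`; the formula is still true.)
* `disc_EL2'`: for all `i`, since `x_{i+N} = x_i + zv k`, `v_{i+N} = v_i` and `F(x + zv k, t + T) = F(x, t)`
  (`HV2.perF`, `HV2.pertF`, `T` integer).
* `disc_bound2`: `S(x) ≤ S(straight line) ≤ T (κ₂/2 ‖zv k/T‖² + B)`, so `∑ τ ‖v_i‖² ≤ C`; by `disc_EL2`,
  `‖G v_i - G v_j‖ ≤ ∑ τ B ≤ T B` for all `i`, `j`; `κ₁ ‖v_i - v_j‖ ≤ ‖G v_i - G v_j‖`, and some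
  `‖v_j‖² ≤ C/T` (average), so `‖v_i‖ ≤ R`, with `R` independent of `N` and of `x`.
-/

set_option autoImplicit false

open MeasureTheory
open scoped RealInnerProductSpace

namespace Pool.Agent.H33.AN

open Pool.Agent.H33.AM

variable {n : ℕ} {G G' : EuclideanSpace ℝ (Fin n) →L[ℝ] EuclideanSpace ℝ (Fin n)} {κ₁ κ₂ : ℝ}
  {V : EuclideanSpace ℝ (Fin n) → ℝ → ℝ}
  {F : EuclideanSpace ℝ (Fin n) → ℝ → EuclideanSpace ℝ (Fin n)}
  {Vt : EuclideanSpace ℝ (Fin n) → ℝ → ℝ} {B : ℝ} {T N : ℕ} {k : Fin n → ℤ}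

private theorem pertF_nat (hV : HV2 1 V F Vt B) (x : EuclideanSpace ℝ (Fin n)) (t : ℝ) (m : ℕ) :
    F x (t + m) = F x t := by
  induction m with
  | zero => simp
  | succ m ih =>
    rw [Nat.cast_succ, ← add_assoc, hV.pertF, ih]

private theorem EL_shift (hV : HV2 1 V F Vt B) (hN : 0 < N)
    {x : ℤ → EuclideanSpace ℝ (Fin n)} (hx : IsDM2 G V T N k x) (i : ℤ) :
    (G (((1 : ℝ) / (T / N)) • (x (i + N + 1) - x (i + N))) -
      G (((1 : ℝ) / (T / N)) • (x (i + N) - x (i + N - 1))) =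
      -(((T : ℝ) / N) • F (x (i + N)) ((i + N : ℤ) * (T / N)))) ↔
    (G (((1 : ℝ) / (T / N)) • (x (i + 1) - x i)) - G (((1 : ℝ) / (T / N)) • (x i - x (i - 1))) =
      -(((T : ℝ) / N) • F (x i) (i * (T / N)))) := by
  have hN' : (N : ℝ) ≠ 0 := by exact_mod_cast hN.ne'
  have e1 : x (i + N + 1) = x (i + 1) + zv k := by
    rw [show i + N + 1 = (i + 1) + N by ring]
    exact hx.1 _
  have e2 : x (i + N) = x i + zv k := hx.1 _
  have e3 : x (i + N - 1) = x (i - 1) + zv k := by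
    rw [show i + (N : ℤ) - 1 = (i - 1) + N by ring]
    exact hx.1 _
  have e4 : (((i + N : ℤ) : ℝ)) * ((T : ℝ) / N) = (i : ℝ) * (T / N) + T := by
    push_cast
    field_simp
  rw [e1, e2, e3, e4, hV.perF, pertF_nat hV, add_sub_add_right_eq_sub, add_sub_add_right_eq_sub]

theorem disc_EL2' (hG : HG G κ₁ κ₂) (hV : HV2 1 V F Vt B) (hT : 0 < T) (hN : 0 < N)
    {x : ℤ → EuclideanSpace ℝ (Fin n)} (hx : IsDM2 G V T N k x) (i : ℤ) :
    G (((1 : ℝ) / (T / N)) • (x (i + 1) - x i)) - G (((1 : ℝ) / (T / N)) • (x i - x (i - 1))) =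
      -(((T : ℝ) / N) • F (x i) (i * (T / N))) := by
  have hN' : (0 : ℤ) < N := by exact_mod_cast hN
  obtain ⟨P, hP⟩ : ∃ P : ℤ → Prop, P = fun i => G (((1 : ℝ) / (T / N)) • (x (i + 1) - x i)) -
      G (((1 : ℝ) / (T / N)) • (x i - x (i - 1))) =
      -(((T : ℝ) / N) • F (x i) (i * (T / N))) := ⟨_, rfl⟩
  have h1 : ∀ i, P (i + N) ↔ P i := by
    intro i
    rw [hP]
    exact EL_shift hV hN hx i
  have h2 : ∀ m : ℤ, P (i % N + m * N) := by
    intro m
    induction m using Int.induction_on with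
    | zero =>
      rw [zero_mul, add_zero, hP]
      exact disc_EL2 hG hV hT hN hx (Int.emod_nonneg _ hN'.ne') (Int.emod_lt_of_pos _ hN')
    | succ m ih =>
      have h3 := (h1 _).2 ih
      rw [show i % N + ((m : ℤ) + 1) * N = i % N + (m : ℤ) * N + N by ring]
      exact h3
    | pred m ih =>
      have h3 : i % N + (-(m : ℤ)) * N = i % N + (-(m : ℤ) - 1) * N + N := by ring
      rw [h3] at ih
      exact (h1 _).1 ih
  have h3 := h2 (i / N)
  have h4 : i % N + i / N * N = i := by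
    rw [mul_comm]
    exact Int.emod_add_mul_ediv i N
  rw [h4, hP] at h3
  exact h3

end Pool.Agent.H33.AN

end

section

/-!
# Module X2: discrete minimisers

(Compare `Pool/Agent/H33/AM/P/X2a.lean`, `X2b.lean`, `X2c.lean`: the same for `K v + A(x) · v - V(x)`.)
`τ = T / N`, `v_i = (1/τ) (x_{i+1} - x_i)`, `t_i = i τ`, `S = Sd2 G V τ N`; `T` is a positive integer (the number of
periods).
* `disc_exists2`: a quasi-periodic sequence is determined by `(x_0, …, x_{N-1}) ∈ (ℝⁿ)^N`; `S` is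
  continuous in these variables, invariant under the translations by `zv k'`, so one may restrict to
  `x_0 ∈ [0, 1]ⁿ`, and coercive there: `⟪G v, v⟫ ≥ κ₁ ‖v‖²`, `|V| ≤ B`.
* `disc_EL2`: for `0 ≤ i < N`; derivative of `S` in the direction of the variable `x_i` (moved together with all
  the `x_{i + j N}`): the terms `i` and `i - 1` (for `i = 0`: the terms `0` and `N - 1`, where `v_{N-1} = v_{-1}`)
  give `-G v_i - τ F(x_i, t_i) + G v_{i-1} = 0`. (The case `N = 1`: then `x_{i+1}`, `x_i` move together,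
  `v_i = v_{i-1}`; the formula is still true.)
* `disc_EL2'`: for all `i`, since `x_{i+N} = x_i + zv k`, `v_{i+N} = v_i` and `F(x + zv k, t + T) = F(x, t)`
  (`HV2.perF`, `HV2.pertF`, `T` integer).
* `disc_bound2`: `S(x) ≤ S(straight line) ≤ T (κ₂/2 ‖zv k/T‖² + B)`, so `∑ τ ‖v_i‖² ≤ C`; by `disc_EL2`,
  `‖G v_i - G v_j‖ ≤ ∑ τ B ≤ T B` for all `i`, `j`; `κ₁ ‖v_i - v_j‖ ≤ ‖G v_i - G v_j‖`, and some
  `‖v_j‖² ≤ C/T` (average), so `‖v_i‖ ≤ R`, with `R` independent of `N` and of `x`.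
-/

set_option autoImplicit false

open MeasureTheory
open scoped RealInnerProductSpace

namespace Pool.Agent.H33.AN

open Pool.Agent.H33.AM

variable {n : ℕ} {G G' : EuclideanSpace ℝ (Fin n) →L[ℝ] EuclideanSpace ℝ (Fin n)} {κ₁ κ₂ : ℝ}
  {V : EuclideanSpace ℝ (Fin n) → ℝ → ℝ}
  {F : EuclideanSpace ℝ (Fin n) → ℝ → EuclideanSpace ℝ (Fin n)}
  {Vt : EuclideanSpace ℝ (Fin n) → ℝ → ℝ} {B : ℝ} {T N : ℕ} {k : Fin n → ℤ}

theorem disc_bound2 (hG : HG G κ₁ κ₂) (hV : HV2 1 V F Vt B) (hT : 0 < T) (k : Fin n → ℤ) :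
    ∃ R : ℝ, ∀ (N : ℕ) (x : ℤ → EuclideanSpace ℝ (Fin n)), 0 < N → IsDM2 G V T N k x →
      ∀ i, ‖((1 : ℝ) / (T / N)) • (x (i + 1) - x i)‖ ≤ R := by
  have hκ := hG.pos
  have hκ2 := hG.pos₂
  have hB := hV.nonneg
  have hTr : (0 : ℝ) < T := by exact_mod_cast hT
  set c : EuclideanSpace ℝ (Fin n) := ((1 : ℝ) / T) • zv k with hc
  set Q : ℝ := 2 / κ₁ * (T * (κ₂ * ‖c‖ ^ 2 / 2 + B) + T * B) with hQ
  have hQ0 : 0 ≤ Q := by positivity
  refine ⟨1 + Q / T + 2 * (T * B) / κ₁, ?_⟩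
  intro N x hN hx
  have hN' : (0 : ℝ) < N := by exact_mod_cast hN
  set τ : ℝ := (T : ℝ) / N with hτd
  have hτ : 0 < τ := by positivity
  have hNτ : N * τ = T := by rw [hτd]; field_simp
  set v : ℤ → EuclideanSpace ℝ (Fin n) := fun i => (1 / τ) • (x (i + 1) - x i) with hv
  change ∀ i, ‖v i‖ ≤ _
  have hvp : ∀ i, v (i + N) = v i := by
    intro i
    simp only [hv]
    rw [hx.1 i, show i + (N : ℤ) + 1 = (i + 1) + N by ring, hx.1 (i + 1), add_sub_add_right_eq_sub]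
  have hTc : (T : ℝ) • c = zv k := by
    rw [hc, smul_smul, mul_one_div_cancel hTr.ne', one_smul]
  -- comparison with the straight line
  set y : ℤ → EuclideanSpace ℝ (Fin n) := fun i => ((i : ℝ) * τ) • c with hy
  have hyv : ∀ i : ℤ, (1 / τ) • (y (i + 1) - y i) = c := by
    intro i
    simp only [hy]
    rw [← sub_smul, smul_smul]
    push_cast
    rw [show 1 / τ * ((i + 1) * τ - i * τ) = 1 by field_simp; ring, one_smul]
  have hyp : ∀ i, y (i + N) = y i + zv k := by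
    intro i
    simp only [hy]
    push_cast
    rw [add_mul, hNτ, add_smul, hTc]
  have hcmp := hx.2 y hyp
  have hup : Sd2 G V τ N y ≤ T * (κ₂ * ‖c‖ ^ 2 / 2 + B) := by
    unfold Sd2
    have h1 : ∀ i ∈ Finset.range N, τ * lag2 G V (y i) ((1 / τ) • (y (i + 1) - y i)) (i * τ) ≤
        τ * (κ₂ * ‖c‖ ^ 2 / 2 + B) := by
      intro i _
      rw [hyv]
      apply mul_le_mul_of_nonneg_left _ hτ.le
      unfold lag2
      have h2 := hG.hi c
      have h4 := (abs_le.mp (hV.bd (y i) (i * τ))).1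
      linarith
    refine (Finset.sum_le_sum h1).trans (le_of_eq ?_)
    rw [Finset.sum_const, Finset.card_range, nsmul_eq_mul, ← mul_assoc, hNτ]
  have hlo : ∑ i ∈ Finset.range N, τ * (κ₁ / 2 * ‖v i‖ ^ 2 - B) ≤ Sd2 G V τ N x := by
    unfold Sd2
    apply Finset.sum_le_sum
    intro i _
    apply mul_le_mul_of_nonneg_left _ hτ.le
    change _ ≤ lag2 G V (x i) (v i) (i * τ)
    unfold lag2
    have h2 := hG.lo (v i)
    have h4 := (abs_le.mp (hV.bd (x i) (i * τ))).2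
    linarith
  have hq : ∑ i ∈ Finset.range N, τ * ‖v i‖ ^ 2 ≤ Q := by
    have h1 : ∑ i ∈ Finset.range N, τ * (κ₁ / 2 * ‖v i‖ ^ 2 - B) =
        κ₁ / 2 * (∑ i ∈ Finset.range N, τ * ‖v i‖ ^ 2) - T * B := by
      have h2 : T * B = ∑ i ∈ Finset.range N, τ * B := by
        rw [Finset.sum_const, Finset.card_range, nsmul_eq_mul, ← mul_assoc, hNτ]
      rw [h2, Finset.mul_sum, ← Finset.sum_sub_distrib]
      apply Finset.sum_congr rfl
      intro i _
      ring
    rw [h1] at hlo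
    have h3 : κ₁ / 2 * (∑ i ∈ Finset.range N, τ * ‖v i‖ ^ 2) ≤
        T * (κ₂ * ‖c‖ ^ 2 / 2 + B) + T * B := by
      linarith
    calc ∑ i ∈ Finset.range N, τ * ‖v i‖ ^ 2
        = 2 / κ₁ * (κ₁ / 2 * (∑ i ∈ Finset.range N, τ * ‖v i‖ ^ 2)) := by
          field_simp
      _ ≤ 2 / κ₁ * (T * (κ₂ * ‖c‖ ^ 2 / 2 + B) + T * B) :=
          mul_le_mul_of_nonneg_left h3 (by positivity)
      _ = Q := by rw [hQ]
  -- a small velocity
  obtain ⟨j, hj, hjv⟩ : ∃ j ∈ Finset.range N, ‖v j‖ ^ 2 ≤ Q / T := by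
    by_contra hcon
    push Not at hcon
    have h1 : ∑ i ∈ Finset.range N, τ * (Q / T) < ∑ i ∈ Finset.range N, τ * ‖v i‖ ^ 2 := by
      apply Finset.sum_lt_sum_of_nonempty (Finset.nonempty_range_iff.mpr hN.ne')
      intro i hi
      exact mul_lt_mul_of_pos_left (hcon i hi) hτ
    rw [Finset.sum_const, Finset.card_range, nsmul_eq_mul, ← mul_assoc, hNτ,
      mul_div_cancel₀ _ hTr.ne'] at h1
    linarith
  rw [Finset.mem_range] at hj
  have hjv' : ‖v j‖ ≤ 1 + Q / T := by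
    nlinarith [norm_nonneg (v j), sq_nonneg (‖v j‖ - 1)]
  -- momenta
  set p : ℤ → EuclideanSpace ℝ (Fin n) := fun i => G (v i) with hp
  have hpstep : ∀ i : ℤ, ‖p i - p (i - 1)‖ ≤ τ * B := by
    intro i
    have h1 := disc_EL2' hG hV hT hN hx i
    have h2 : p i - p (i - 1) = -(τ • F (x i) (i * τ)) := by
      rw [← h1]
      simp only [hp, hv]
      rw [sub_add_cancel]
    rw [h2, norm_neg, norm_smul, Real.norm_eq_abs, abs_of_pos hτ]
    exact mul_le_mul_of_nonneg_left (hV.bdF _ _) hτ.le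
  have hp0 : ∀ m : ℕ, ‖p m - p 0‖ ≤ m * (τ * B) := by
    intro m
    induction m with
    | zero =>
      simp only [Nat.cast_zero, sub_self, norm_zero, zero_mul, le_refl]
    | succ m ih =>
      have h1 := hpstep ((m + 1 : ℕ) : ℤ)
      have h2 : (((m + 1 : ℕ) : ℤ) - 1) = (m : ℤ) := by push_cast; ring
      rw [h2] at h1
      calc ‖p ((m + 1 : ℕ) : ℤ) - p 0‖ = ‖(p m - p 0) + (p ((m + 1 : ℕ) : ℤ) - p m)‖ := by
            congr 1
            abel
        _ ≤ ‖p m - p 0‖ + ‖p ((m + 1 : ℕ) : ℤ) - p m‖ := norm_add_le _ _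
        _ ≤ m * (τ * B) + τ * B := add_le_add ih h1
        _ = ((m + 1 : ℕ) : ℝ) * (τ * B) := by push_cast; ring
  have hpN : ∀ m : ℕ, m < N → ‖p m - p 0‖ ≤ T * B := by
    intro m hm
    refine (hp0 m).trans ?_
    have hmN : (m : ℝ) ≤ N := by exact_mod_cast hm.le
    calc (m : ℝ) * (τ * B) ≤ N * (τ * B) := mul_le_mul_of_nonneg_right hmN (by positivity)
      _ = T * B := by rw [← mul_assoc, hNτ]
  have hanti : ∀ u : EuclideanSpace ℝ (Fin n), κ₁ * ‖u‖ ≤ ‖G u‖ := by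
    intro u
    rcases eq_or_lt_of_le (norm_nonneg u) with h | h
    · rw [← h, mul_zero]; exact norm_nonneg _
    · have h1 := hG.lo u
      have h2 := real_inner_le_norm (G u) u
      have h3 : κ₁ * ‖u‖ * ‖u‖ ≤ ‖G u‖ * ‖u‖ := by nlinarith
      exact le_of_mul_le_mul_right h3 h
  have hmain : ∀ m : ℕ, m < N → ‖v m‖ ≤ 1 + Q / T + 2 * (T * B) / κ₁ := by
    intro m hm
    have h1 := hanti (v m - v j)
    rw [map_sub] at h1
    have h2 : G (v m) - G (v j) = (p m - p 0) - (p j - p 0) := by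
      simp only [hp]
      abel
    have h3 : ‖G (v m) - G (v j)‖ ≤ 2 * (T * B) := by
      rw [h2]
      refine (norm_sub_le _ _).trans ?_
      have a1 := add_le_add (hpN m hm) (hpN j hj)
      linarith
    have h4 : ‖v m - v j‖ ≤ 2 * (T * B) / κ₁ := by
      rw [le_div_iff₀ hκ]
      linarith
    have h5 : ‖v m‖ ≤ ‖v j‖ + ‖v m - v j‖ := by
      have := norm_add_le (v j) (v m - v j)
      rwa [add_sub_cancel] at this
    linarith
  intro i
  have hvpz : ∀ (q : ℕ) (i : ℤ), v (i + q * N) = v i := by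
    intro q
    induction q with
    | zero => intro i; simp
    | succ q ih =>
      intro i
      rw [show i + ((q + 1 : ℕ) : ℤ) * N = (i + q * N) + N by push_cast; ring, hvp, ih]
  have hvpz' : ∀ (q : ℤ) (i : ℤ), v (i + q * N) = v i := by
    intro q i
    rcases Int.eq_nat_or_neg q with ⟨m, rfl | rfl⟩
    · exact hvpz m i
    · have := hvpz m (i + -(m : ℤ) * N)
      rw [show i + -(m : ℤ) * N + m * N = i by ring] at this
      exact this.symm
  have hNz : (0 : ℤ) < N := by exact_mod_cast hN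
  obtain ⟨m, hm⟩ := Int.eq_ofNat_of_zero_le (Int.emod_nonneg i hNz.ne')
  have hm' : m < N := by
    have := Int.emod_lt_of_pos i hNz
    omega
  have h1 : i = m + (i / N) * N := by
    rw [← hm, mul_comm (i / (N : ℤ)) (N : ℤ)]
    exact (Int.emod_add_mul_ediv i N).symm
  rw [h1, hvpz']
  exact hmain m hm'

end Pool.Agent.H33.AN

end

section

/-!
# Module X3: from discrete to continuous; periodic orbits

(Compare `Pool/Agent/H33/AM/P/X3b.lean`, `X3c.lean`, `X4.lean`.)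
`Y = field2 G' F`, `W = ℝⁿ × ℝⁿ × ℝ`, `τ = T / N`, `v_i = (1/τ) (x_{i+1} - x_i)`, `t_i = i τ`, `z_i = (x_i, v_i, t_i)`,
so that `x_{i+1} = x_i + τ (Y z_i).1`.
* `disc_euler2`: `‖x_i‖ ≤ √n + T R` for `0 ≤ i ≤ N`; `v_{i+1} - v_i = -τ G' (F(x_{i+1}, t_{i+1}))` by `disc_EL2'`, and
  `‖F(x_{i+1}, t_{i+1}) - F(x_i, t_i)‖ ≤ B (R + 1) τ`.
* `disc_of_curve2`: `y i = x(i τ)` for `0 ≤ i < N`, extended quasi-periodically. Jensen:
  `τ ⟪G c, c⟫ ≤ ∫ ⟪G u, u⟫` on every `[i τ, (i + 1) τ]`, `c` the average of `u`;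
  `‖x(t) - x(i τ)‖ ≤ R τ`, so the terms with `V` change by `O(τ)`.
* `per_orbit2_zero`: `G'` from `HG.inv`, `φ` from `exists_flow2`. For `N ≥ 1` let `x^N` be a discrete minimiser
  (`disc_exists2`), `z^N_i` as in `disc_euler2`. By `euler` (with `τ = T/N`, `c = C τ²`)
  `‖φ (i τ) (z^N_0) - z^N_i‖ ≤ C' τ` for `i ≤ N`. Since `z^N_N = z^N_0 + (zv k, 0, T)` and `z^N_0` is bounded, a
  subsequence `z^N_0 → z*` satisfies `φ T z* = z* + (zv k, 0, T)`, `(z*).2.2 = 0`. The solution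
  `γ(t) = (φ t z*).1`, `v(t) = (φ t z*).2.1` (`Sol2_of_flow`) is `T`-periodic modulo `zv k` (uniqueness, `Y` is
  periodic). Action: `|∫_0^T g(φ t z) dt - ∑ τ g(φ (i τ) z)| → 0` and `|g(φ (i τ) z^N_0) - g(z^N_i)| ≤ C'' τ` for
  `g(x, v, t) = lag2 G V x v t` (Lipschitz on bounded sets), so
  `∫_0^T g(φ t z*) dt = lim Sd2(x^N) ≤ ∫ lag2(x, u) + ε` by `disc_of_curve2`, for every `ε > 0`.
* `per_orbit2`: translate the time by `s` (`HV2.shift`), use `per_orbit2_zero`, translate back.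
-/

set_option autoImplicit false

open MeasureTheory
open scoped RealInnerProductSpace

namespace Pool.Agent.H33.AN

open Pool.Agent.H33.AM

variable {n : ℕ} {G G' : EuclideanSpace ℝ (Fin n) →L[ℝ] EuclideanSpace ℝ (Fin n)} {κ₁ κ₂ : ℝ}
  {V : EuclideanSpace ℝ (Fin n) → ℝ → ℝ}
  {F : EuclideanSpace ℝ (Fin n) → ℝ → EuclideanSpace ℝ (Fin n)}
  {Vt : EuclideanSpace ℝ (Fin n) → ℝ → ℝ} {B : ℝ} {T : ℕ}

private theorem X3a_sqrt2 (x : EuclideanSpace ℝ (Fin n)) (hx : ∀ j, x j ∈ Set.Icc (0 : ℝ) 1) :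
    ‖x‖ ≤ Real.sqrt n := by
  rw [EuclideanSpace.norm_eq]
  apply Real.sqrt_le_sqrt
  have h1 : ∑ i, ‖x i‖ ^ 2 ≤ ∑ _i : Fin n, (1 : ℝ) := by
    refine Finset.sum_le_sum (fun i _ => ?_)
    obtain ⟨h2, h3⟩ := hx i
    rw [Real.norm_eq_abs, sq_abs]
    nlinarith
  simpa using h1

theorem disc_euler2 (hG : HG G κ₁ κ₂) (hV : HV2 1 V F Vt B) (hG2 : ∀ v, G' (G v) = v)
    (hT : 0 < T) (k : Fin n → ℤ) :
    ∃ R C : ℝ, ∀ (N : ℕ) (x : ℤ → EuclideanSpace ℝ (Fin n)), 0 < N → IsDM2 G V T N k x →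
      (∀ j, x 0 j ∈ Set.Icc (0 : ℝ) 1) →
      ∀ z : ℕ → EuclideanSpace ℝ (Fin n) × EuclideanSpace ℝ (Fin n) × ℝ,
        (∀ i : ℕ, z i = (x i, ((1 : ℝ) / (T / N)) • (x (i + 1) - x i), (i : ℝ) * (T / N))) →
        (∀ i ≤ N, ‖z i‖ ≤ R) ∧
        ∀ i < N, ‖z (i + 1) - z i - ((T : ℝ) / N) • field2 G' F (z i)‖ ≤ C * ((T : ℝ) / N) ^ 2 := by
  obtain ⟨R0, hR0⟩ := disc_bound2 hG hV hT k
  set R1 := max R0 0 with hR1
  have hR1n : 0 ≤ R1 := le_max_right _ _
  have hB := hV.nonneg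
  have hT' : (0 : ℝ) < T := by exact_mod_cast hT
  refine ⟨Real.sqrt n + T * R1 + R1 + T, ‖G'‖ * (B * (R1 + 1)), ?_⟩
  intro N x hN hx hx0 z hz
  have hNr : (0 : ℝ) < N := by exact_mod_cast hN
  set τ : ℝ := (T : ℝ) / N with hτ
  have hτ0 : 0 < τ := div_pos hT' hNr
  have hτN : (N : ℝ) * τ = T := by
    rw [hτ]
    field_simp
  set v : ℤ → EuclideanSpace ℝ (Fin n) := fun i => (1 / τ) • (x (i + 1) - x i) with hv
  have hvR : ∀ i, ‖v i‖ ≤ R1 := fun i => (hR0 N x hN hx i).trans (le_max_left _ _)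
  have hstep : ∀ i, x (i + 1) - x i = τ • v i := by
    intro i
    rw [hv]
    dsimp only
    rw [smul_smul, mul_one_div_cancel hτ0.ne', one_smul]
  have hstepn : ∀ i, ‖x (i + 1) - x i‖ ≤ τ * R1 := by
    intro i
    rw [hstep, norm_smul, Real.norm_of_nonneg hτ0.le]
    exact mul_le_mul_of_nonneg_left (hvR i) hτ0.le
  have hxi : ∀ i : ℕ, ‖x i‖ ≤ Real.sqrt n + i * (τ * R1) := by
    intro i
    induction i with
    | zero =>
      have := X3a_sqrt2 (x 0) hx0
      simpa using this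
    | succ i ih =>
      have h1 : x ((i + 1 : ℕ) : ℤ) = x i + (x ((i : ℤ) + 1) - x i) := by
        push_cast
        abel
      rw [h1]
      refine (norm_add_le _ _).trans ?_
      have h2 := hstepn (i : ℤ)
      push_cast
      linarith
  constructor
  · intro i hi
    rw [hz i, Prod.norm_mk, Prod.norm_mk]
    have hir : (i : ℝ) ≤ N := by exact_mod_cast hi
    have h4 : 0 ≤ Real.sqrt n := Real.sqrt_nonneg _
    have h5 : 0 ≤ (T : ℝ) * R1 := by positivity
    apply max_le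
    · refine (hxi i).trans ?_
      have h1 : (i : ℝ) * (τ * R1) ≤ N * (τ * R1) :=
        mul_le_mul_of_nonneg_right hir (by positivity)
      have h2 : (N : ℝ) * (τ * R1) = T * R1 := by rw [← mul_assoc, hτN]
      linarith
    · apply max_le
      · have h6 : ‖((1 : ℝ) / τ) • (x (i + 1) - x i)‖ = ‖v i‖ := rfl
        rw [h6]
        have := hvR i
        linarith
      · rw [Real.norm_of_nonneg (by positivity)]
        have h1 : (i : ℝ) * τ ≤ N * τ := mul_le_mul_of_nonneg_right hir hτ0.le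
        linarith
  · intro i hi
    have hEL := disc_EL2' hG hV hT hN hx ((i : ℤ) + 1)
    rw [add_sub_cancel_right, ← hτ] at hEL
    have hz1 : z (i + 1) = (x ((i : ℤ) + 1), v ((i : ℤ) + 1), ((i : ℝ) + 1) * τ) := by
      rw [hz (i + 1)]
      push_cast
      rfl
    have hz0 : z i = (x (i : ℤ), v (i : ℤ), (i : ℝ) * τ) := hz i
    have hEL' : G (v ((i : ℤ) + 1)) - G (v i) = -(τ • F (x ((i : ℤ) + 1)) (((i : ℝ) + 1) * τ)) := by
      have e : (((((i : ℤ) + 1 : ℤ)) : ℝ)) * τ = ((i : ℝ) + 1) * τ := by push_cast; ring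
      rw [← e]
      exact hEL
    set a := x (i : ℤ) with ha
    set b := x ((i : ℤ) + 1) with hb
    set va := v (i : ℤ) with hva
    set vb := v ((i : ℤ) + 1) with hvb
    have hba : ‖b - a‖ ≤ τ * R1 := hstepn i
    have hba' : b - a = τ • va := hstep i
    have hvv : vb - va = -(τ • G' (F b (((i : ℝ) + 1) * τ))) := by
      have h1 := congrArg G' hEL'
      rw [map_sub, hG2, hG2, map_neg, map_smul] at h1
      exact h1
    have hfield : field2 G' F (z i) = (va, -G' (F a ((i : ℝ) * τ)), 1) := by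
      rw [hz0]
      rfl
    have hfin : z (i + 1) - z i - τ • field2 G' F (z i) =
        (0, -(τ • G' (F b (((i : ℝ) + 1) * τ) - F a ((i : ℝ) * τ))), 0) := by
      rw [hfield, hz1, hz0]
      refine Prod.ext ?_ (Prod.ext ?_ ?_)
      · change b - a - τ • va = 0
        rw [hba', sub_self]
      · change vb - va - τ • (-G' (F a ((i : ℝ) * τ))) = _
        rw [hvv, map_sub, smul_sub, smul_neg]
        abel
      · change ((i : ℝ) + 1) * τ - (i : ℝ) * τ - τ • (1 : ℝ) = 0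
        rw [smul_eq_mul]
        ring
    rw [hfin, Prod.norm_mk, Prod.norm_mk, norm_zero, norm_zero, norm_neg, norm_smul,
      Real.norm_of_nonneg hτ0.le]
    have hC0 : 0 ≤ ‖G'‖ * (B * (R1 + 1)) * τ ^ 2 := by positivity
    apply max_le hC0
    apply max_le _ hC0
    have g1 : ‖F b (((i : ℝ) + 1) * τ) - F a ((i : ℝ) * τ)‖ ≤ B * (τ * R1 + τ) := by
      refine (hV.lip _ _ _ _).trans (mul_le_mul_of_nonneg_left ?_ hB)
      have e : ((i : ℝ) + 1) * τ - (i : ℝ) * τ = τ := by ring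
      rw [e, abs_of_pos hτ0]
      linarith
    have g2 : ‖G' (F b (((i : ℝ) + 1) * τ) - F a ((i : ℝ) * τ))‖ ≤ ‖G'‖ * (B * (τ * R1 + τ)) :=
      (G'.le_opNorm _).trans (mul_le_mul_of_nonneg_left g1 (norm_nonneg _))
    refine (mul_le_mul_of_nonneg_left g2 hτ0.le).trans (le_of_eq ?_)
    ring

end Pool.Agent.H33.AN

end

section

/-!
# Module G8: closed curves of type `(p, Q)`, potentials of period one in time

* `Ep_mark`: let `t ∈ [s, s + j Q]` be the marked time; move the base time of the closed curve (of type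
  `(j p, j Q)`) to `t` and cut it into `j` pieces: with `D x y = Dm W t (t + Q) x (y + p)` (Monge) and
  `x i = ξ(t + i Q) - i p`, `x j = x 0`: `A1 ≥ ∑ D (x i) (x (i + 1)) ≥ ∑ D (x i) (x i)` (`cyc`)
  `≥ D (x 0) (x 0) + (j - 1) EpQ W p Q`.
* `Ep_mul`: `≥` from `Ep_mark`, `≤` by repeating a curve.
-/

set_option autoImplicit false

open MeasureTheory
open scoped RealInnerProductSpace

namespace Pool.Agent.H33.AN

variable {B : ℝ} {W W₁ W₂ : ℝ → ℝ → ℝ} {p : ℤ} {Q : ℕ}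

private theorem G8b_int {Tp : ℝ} (hW : HW Tp W W₁ W₂ B) {a b : ℝ} {x u : ℝ → ℝ} (h : Cur a b x u) :
    IntervalIntegrable (fun t => u t ^ 2 / 2 - W (x t) t) volume a b := by
  have hc : Continuous fun z : ℝ × ℝ => W z.1 z.2 :=
    continuous_iff_continuousAt.2 fun z => (hW.der z.1 z.2).continuousAt
  have hg : Continuous fun z : ℝ × ℝ × ℝ => z.2.1 ^ 2 / 2 - W z.1 z.2.2 := by
    have h1 : Continuous fun z : ℝ × ℝ × ℝ => W z.1 z.2.2 :=
      hc.comp (continuous_fst.prodMk (continuous_snd.comp continuous_snd))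
    fun_prop
  exact h.integrable hg

private theorem G8b_add {Tp : ℝ} (hW : HW Tp W W₁ W₂ B) {a b c : ℝ} {x u : ℝ → ℝ}
    (h : Cur a c x u) (hab : a ≤ b) (hbc : b ≤ c) :
    A1 W a c x u = A1 W a b x u + A1 W b c x u := by
  unfold A1
  rw [intervalIntegral.integral_add_adjacent_intervals]
  · exact G8b_int hW (h.sub le_rfl hab hbc)
  · exact G8b_int hW (h.sub hab hbc le_rfl)

/-- cut a curve at the times `r + i q`, `i ≤ n`. -/
private theorem G8b_cut {Tp : ℝ} (hW : HW Tp W W₁ W₂ B) {r q : ℝ} (hq : 0 ≤ q) {x u : ℝ → ℝ} (n : ℕ)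
    (h : Cur r (r + n * q) x u) :
    ∑ i ∈ Finset.range n, Dm W (r + i * q) (r + (i + 1) * q) (x (r + i * q)) (x (r + (i + 1) * q)) ≤
      A1 W r (r + n * q) x u := by
  induction n with
  | zero => simp [A1]
  | succ n ih =>
    rw [Finset.sum_range_succ]
    have e : r + ((n + 1 : ℕ) : ℝ) * q = r + (n + 1) * q := by push_cast; ring
    rw [e] at h ⊢
    have h1 : r ≤ r + n * q := by have : (0 : ℝ) ≤ n * q := by positivity
                                  linarith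
    have h2 : r + n * q ≤ r + (n + 1) * q := by nlinarith
    rw [G8b_add hW h h1 h2]
    exact add_le_add (ih (h.sub le_rfl h1 h2)) (Dm_le hW (h.sub h1 h2 le_rfl))

private theorem G8b_per (hW : HW 1 W W₁ W₂ B) (s x y : ℝ) (i : ℕ) :
    Dm W (s + i * Q) (s + (i + 1) * Q) x y = Dm W s (s + Q) (x - i * p) (y - i * p) := by
  have := Dm_per hW s (s + Q) (x - i * p) (y - i * p) ((i : ℤ) * Q) ((i : ℤ) * p)
  rw [← this]
  congr 1 <;> push_cast <;> ring

/-- Closed curves of type `(j p, j Q)` through the marked point `(t, ξ t)`. -/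
theorem Ep_mark (hW : HW 1 W W₁ W₂ B) (hQ : 0 < Q) {j : ℕ} (hj : 0 < j) {s : ℝ} {ξ u : ℝ → ℝ}
    (hξ : Cur s (s + j * Q) ξ u) (hc : ξ (s + j * Q) = ξ s + j * p) {t : ℝ}
    (ht : t ∈ Set.Icc s (s + j * Q)) :
    Dm W t (t + Q) (ξ t) (ξ t + p) + ((j : ℝ) - 1) * EpQ W p Q ≤ A1 W s (s + j * Q) ξ u := by
  have hQ' : (0 : ℝ) < Q := by exact_mod_cast hQ
  -- the reduced marked time
  have key : ∀ t : ℝ, ∀ m : ℕ, m < j → ∀ τ : ℝ, 0 ≤ τ → τ < Q → t = s + m * Q + τ →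
      Dm W t (t + Q) (ξ t) (ξ t + p) + ((j : ℝ) - 1) * EpQ W p Q ≤ A1 W s (s + j * Q) ξ u := by
    intro t m hm τ hτ hτQ htm
    obtain ⟨n, rfl⟩ : ∃ n, j = n + 1 := ⟨j - 1, by omega⟩
    set r : ℝ := s + τ with hr
    -- positions at the cutting times
    let y : ℕ → ℝ := fun i => if i < n + 1 then ξ (r + i * Q) else ξ r + (n + 1) * p
    let x : ℕ → ℝ := fun i => y i - i * p
    let D : ℝ → ℝ → ℝ := fun a b => Dm W r (r + Q) a (b + p)
    have hM : ∀ x x' y y', x ≤ x' → y ≤ y' → D x y + D x' y' ≤ D x y' + D x' y := by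
      intro a a' b b' ha hb
      exact monge hW (by linarith) ha (by linarith)
    have hx0 : x (n + 1) = x 0 := by
      simp [x, y]
    have hcyc := cyc hM (n + 1) x hx0
    have e1 : r + n * Q ≤ s + ((n + 1 : ℕ) : ℝ) * Q := by push_cast; rw [hr]; nlinarith
    have e0 : r ≤ r + n * Q := by have : (0 : ℝ) ≤ n * (Q : ℝ) := by positivity
                                  linarith
    have e2 : s ≤ r := by linarith
    -- the action
    have hA : A1 W s (s + ((n + 1 : ℕ) : ℝ) * Q) ξ u = A1 W s r ξ u + (A1 W r (r + n * Q) ξ u +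
        A1 W (r + n * Q) (s + ((n + 1 : ℕ) : ℝ) * Q) ξ u) := by
      rw [G8b_add hW hξ e2 (e0.trans e1), G8b_add hW (hξ.sub e2 (e0.trans e1) le_rfl) e0 e1]
    have hcut := G8b_cut hW hQ'.le n (hξ.sub e2 e0 e1)
    have hlast : Dm W (r + n * Q) (r + (n + 1) * Q) (ξ (r + n * Q)) (ξ r + (n + 1) * p) ≤
        A1 W s r ξ u + A1 W (r + n * Q) (s + ((n + 1 : ℕ) : ℝ) * Q) ξ u := by
      have a1 := Dm_le hW (hξ.sub (e2.trans e0) e1 le_rfl)
      rcases hτ.eq_or_lt with h0 | h0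
      · have hrs : r = s := by rw [hr, ← h0]; ring
        have a2 : A1 W s r ξ u = 0 := by rw [hrs]; simp [A1]
        rw [a2, zero_add]
        refine le_trans (le_of_eq ?_) a1
        rw [hc, hrs]
        push_cast
        rfl
      · have a2 := Dm_le hW (hξ.sub le_rfl e2 (e0.trans e1))
        have a3 := Dm_per hW s r (ξ s) (ξ r) (((n + 1 : ℕ) : ℤ) * Q) (((n + 1 : ℕ) : ℤ) * p)
        have b1 : r + n * Q < s + ((n + 1 : ℕ) : ℝ) * Q := by push_cast; rw [hr]; nlinarith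
        have b2 : s + ((n + 1 : ℕ) : ℝ) * Q < r + (n + 1) * Q := by push_cast; rw [hr]; nlinarith
        have a4 := Dm_triangle hW b1 b2 (ξ (r + n * Q)) (ξ (s + ((n + 1 : ℕ) : ℝ) * Q))
          (ξ r + (n + 1) * p)
        have a5 : Dm W (s + ((n + 1 : ℕ) : ℝ) * Q) (r + (n + 1) * Q) (ξ (s + ((n + 1 : ℕ) : ℝ) * Q))
          (ξ r + (n + 1) * p) = Dm W s r (ξ s) (ξ r) := by
          rw [← a3, hc]
          congr 1 <;> push_cast <;> ring
        rw [a5] at a4
        linarith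
    -- the sum
    have hsum : ∑ i ∈ Finset.range (n + 1), D (x i) (x (i + 1)) ≤
        A1 W s (s + ((n + 1 : ℕ) : ℝ) * Q) ξ u := by
      rw [Finset.sum_range_succ, hA]
      have c1 : ∑ i ∈ Finset.range n, D (x i) (x (i + 1)) =
          ∑ i ∈ Finset.range n, Dm W (r + i * Q) (r + (i + 1) * Q) (ξ (r + i * Q))
            (ξ (r + (i + 1) * Q)) := by
        refine Finset.sum_congr rfl fun i hi => ?_
        have hi' : i < n := Finset.mem_range.1 hi
        rw [G8b_per hW (p := p)]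
        show Dm W r (r + Q) (x i) (x (i + 1) + p) = _
        have h1 : x i = ξ (r + i * Q) - i * p := by
          simp only [x, y]; rw [if_pos (by omega)]
        have h2 : x (i + 1) = ξ (r + (i + 1) * Q) - (i + 1) * p := by
          simp only [x, y]; rw [if_pos (by omega)]; push_cast; rfl
        rw [h1, h2]
        congr 1
        ring
      have c2 : D (x n) (x (n + 1)) =
          Dm W (r + n * Q) (r + (n + 1) * Q) (ξ (r + n * Q)) (ξ r + (n + 1) * p) := by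
        rw [G8b_per hW (p := p)]
        show Dm W r (r + Q) (x n) (x (n + 1) + p) = _
        have h1 : x n = ξ (r + n * Q) - n * p := by
          simp only [x, y]; rw [if_pos (by omega)]
        have h2 : x (n + 1) = ξ r := by
          rw [hx0]; simp [x, y]
        rw [h1, h2]
        congr 1
        ring
      rw [c1, c2]
      linarith
    -- lower bound
    have hlow : D (x m) (x m) + (((n + 1 : ℕ) : ℝ) - 1) * EpQ W p Q ≤
        ∑ i ∈ Finset.range (n + 1), D (x i) (x i) := by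
      rw [← Finset.add_sum_erase _ _ (Finset.mem_range.2 hm)]
      have : (((n + 1 : ℕ) : ℝ) - 1) * EpQ W p Q =
          ∑ i ∈ (Finset.range (n + 1)).erase m, EpQ W p Q := by
        rw [Finset.sum_const, Finset.card_erase_of_mem (Finset.mem_range.2 hm), Finset.card_range]
        simp
      rw [this]
      gcongr with i hi
      exact Ep_le hW hQ r (x i)
    have hDm : D (x m) (x m) = Dm W t (t + Q) (ξ t) (ξ t + p) := by
      have h1 : x m = ξ t - m * p := by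
        simp only [x, y]; rw [if_pos hm, htm, hr]
        congr 2
        ring
      show Dm W r (r + Q) (x m) (x m + p) = _
      rw [h1]
      have := G8b_per hW (p := p) (Q := Q) r (ξ t) (ξ t + p) m
      have h2 : ξ t - m * p + p = ξ t + p - m * p := by ring
      rw [h2, ← this]
      congr 1 <;> rw [htm, hr] <;> ring
    rw [hDm] at hlow
    linarith
  -- the number of periods
  obtain ⟨ht1, ht2⟩ := ht
  rcases ht2.eq_or_lt with h | h
  · -- the end point: replace by the initial point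
    have h0 : (0 : ℕ) < j := hj
    have e : Dm W t (t + Q) (ξ t) (ξ t + p) = Dm W s (s + Q) (ξ s) (ξ s + p) := by
      have a3 := Dm_per hW s (s + Q) (ξ s) (ξ s + p) ((j : ℤ) * Q) ((j : ℤ) * p)
      rw [← a3, h, hc]
      congr 1 <;> push_cast <;> ring
    rw [e]
    exact key s 0 hj 0 le_rfl hQ' (by simp)
  · set m : ℕ := ⌊(t - s) / Q⌋₊ with hm
    have hnn : 0 ≤ (t - s) / Q := div_nonneg (by linarith) hQ'.le
    have f1 : (m : ℝ) ≤ (t - s) / Q := Nat.floor_le hnn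
    have f2 : (t - s) / Q < m + 1 := Nat.lt_floor_add_one _
    rw [le_div_iff₀ hQ'] at f1
    rw [div_lt_iff₀ hQ'] at f2
    have hmj : m < j := by
      have : (m : ℝ) * Q < j * Q := by linarith
      have := lt_of_mul_lt_mul_right this hQ'.le
      exact_mod_cast this
    exact key t m hmj (t - s - m * Q) (by linarith) (by linarith) (by ring)

theorem Ep_mul (hW : HW 1 W W₁ W₂ B) (hQ : 0 < Q) {j : ℕ} (hj : 0 < j) :
    EpQ W (j * p) (j * Q) = j * EpQ W p Q := by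
  have hQ' : (0 : ℝ) < Q := by exact_mod_cast hQ
  have hj' : (0 : ℝ) < j := by exact_mod_cast hj
  have hjQ : 0 < j * Q := Nat.mul_pos hj hQ
  apply le_antisymm
  · obtain ⟨x, hx⟩ := Ep_attained (p := p) hW hQ 0
    rw [zero_add] at hx
    have h1 := Ep_le (p := (j : ℤ) * p) hW hjQ 0 x
    refine h1.trans ?_
    have h2 : ∀ n : ℕ, 0 < n → Dm W 0 (n * Q) x (x + n * p) ≤ n * EpQ W p Q := by
      intro n hn
      induction n with
      | zero => omega
      | succ n ih =>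
        rcases Nat.eq_zero_or_pos n with h0 | h0
        · subst h0
          simp only [zero_add, Nat.cast_one, one_mul]
          exact hx.le
        · have h0' : (0 : ℝ) < n := by exact_mod_cast h0
          have i1 := ih h0
          have i2 := G8b_per hW (p := p) (Q := Q) 0 (x + n * p) (x + (n + 1) * p) n
          have i3 := Dm_triangle hW (r := 0) (s := n * Q) (t := (n + 1) * Q) (by positivity)
            (by nlinarith) x (x + n * p) (x + (n + 1) * p)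
          have i4 : x + ↑n * (p : ℝ) - ↑n * ↑p = x := by ring
          have i5 : x + (↑n + 1) * (p : ℝ) - ↑n * ↑p = x + p := by ring
          rw [i4, i5] at i2
          simp only [zero_add] at i2
          rw [hx] at i2
          rw [i2] at i3
          push_cast
          linarith
    have h3 := h2 j hj
    have h4 : Dm W 0 (0 + ((j * Q : ℕ) : ℝ)) x (x + ((j : ℤ) * p : ℤ)) =
        Dm W 0 (j * Q) x (x + j * p) := by
      congr 1 <;> push_cast <;> ring
    rw [h4]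
    exact h3
  · obtain ⟨x, hx⟩ := Ep_attained (p := (j : ℤ) * p) hW hjQ 0
    rw [← hx]
    have hpos : (0 : ℝ) < 0 + ((j * Q : ℕ) : ℝ) := by push_cast; positivity
    refine le_Dm hW hpos fun ξ u hξ h0 h1 => ?_
    have e1 : 0 + ((j * Q : ℕ) : ℝ) = 0 + j * Q := by push_cast; ring
    rw [e1] at hξ h1 ⊢
    have h2 := Ep_mark (p := p) hW hQ hj hξ (by rw [h1, h0]; push_cast; ring) (t := 0)
      ⟨le_rfl, by positivity⟩
    have h3 := Ep_le (p := p) hW hQ 0 (ξ 0)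
    nlinarith

end Pool.Agent.H33.AN

end

section

/-!
# Module J1: convexity of the minimal average action, subgradients (foliated case)

* `Ep_add`: take the leaves of both types through one point `(0, x)` (`Foliated`, `leaf_exists`) and
  concatenate: a closed curve of type `(p + p', Q + Q')` (through `(0, x)`).
* `subgrad`: let `b(p, Q) = EpQ W p Q / Q`. By `Ep_mul` and `Ep_add`, `b` is a convex function of the rational
  number `p/Q`: for `p₁/Q₁ < p/Q < p₂/Q₂` the slopes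
  `(b(p, Q) - b(p₁, Q₁))/(p/Q - p₁/Q₁) ≤ (b(p₂, Q₂) - b(p, Q))/(p₂/Q₂ - p/Q)` (choose multiplicities `j₁`,
  `j₂` such that `(j₁ p₁ + j₂ p₂, j₁ Q₁ + j₂ Q₂)` is a multiple of `(p, Q)`). `c` = supremum of the left
  slopes. If `p'/Q' = p/Q` then `b(p', Q') = b(p, Q)` by `Ep_mul` (both have a common multiple).
-/

set_option autoImplicit false

open MeasureTheory
open scoped RealInnerProductSpace

namespace Pool.Agent.H33.AN

variable {B : ℝ} {W W₁ W₂ : ℝ → ℝ → ℝ}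

private theorem J1b_eq (hW : HW 1 W W₁ W₂ B) {p p' : ℤ} {Q Q' : ℕ} (hQ : 0 < Q) (hQ' : 0 < Q')
    (h : (p' : ℝ) / Q' = (p : ℝ) / Q) : EpQ W p' Q' / Q' = EpQ W p Q / Q := by
  have hQr : (0 : ℝ) < Q := by exact_mod_cast hQ
  have hQr' : (0 : ℝ) < Q' := by exact_mod_cast hQ'
  rw [div_eq_div_iff hQr'.ne' hQr.ne'] at h
  have h1 : p' * (Q : ℤ) = p * (Q' : ℤ) := by exact_mod_cast h
  have h2 := Ep_mul (p := p') hW hQ' hQ
  have h3 := Ep_mul (p := p) hW hQ hQ'
  have h4 : ((Q : ℕ) : ℤ) * p' = ((Q' : ℕ) : ℤ) * p := by linarith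
  rw [h4, Nat.mul_comm Q Q', h3] at h2
  rw [div_eq_div_iff hQr'.ne' hQr.ne']
  linarith

private theorem J1b_conv (hW : HW 1 W W₁ W₂ B) (hf : Foliated W) {p p1 p2 : ℤ} {Q Q1 Q2 : ℕ}
    (hQ : 0 < Q) (hQ1 : 0 < Q1) (hQ2 : 0 < Q2) (h1 : (p1 : ℝ) / Q1 < (p : ℝ) / Q)
    (h2 : (p : ℝ) / Q < (p2 : ℝ) / Q2) :
    (EpQ W p Q / Q - EpQ W p1 Q1 / Q1) / ((p : ℝ) / Q - (p1 : ℝ) / Q1) ≤
      (EpQ W p2 Q2 / Q2 - EpQ W p Q / Q) / ((p2 : ℝ) / Q2 - (p : ℝ) / Q) := by
  have hQr : (0 : ℝ) < Q := by exact_mod_cast hQ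
  have hQr1 : (0 : ℝ) < Q1 := by exact_mod_cast hQ1
  have hQr2 : (0 : ℝ) < Q2 := by exact_mod_cast hQ2
  have h1' : (p1 : ℝ) * Q < p * Q1 := by rwa [div_lt_div_iff₀ hQr1 hQr] at h1
  have h2' : (p : ℝ) * Q2 < p2 * Q := by rwa [div_lt_div_iff₀ hQr hQr2] at h2
  have h1z : p1 * (Q : ℤ) < p * (Q1 : ℤ) := by exact_mod_cast h1'
  have h2z : p * (Q2 : ℤ) < p2 * (Q : ℤ) := by exact_mod_cast h2'
  obtain ⟨D1, hD1⟩ := Int.eq_ofNat_of_zero_le (a := p * Q1 - p1 * Q) (by linarith)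
  obtain ⟨D2, hD2⟩ := Int.eq_ofNat_of_zero_le (a := p2 * Q - p * Q2) (by linarith)
  have hD1p : 0 < D1 := by
    have : (0 : ℤ) < (D1 : ℤ) := by linarith
    exact_mod_cast this
  have hD2p : 0 < D2 := by
    have : (0 : ℤ) < (D2 : ℤ) := by linarith
    exact_mod_cast this
  have hN : 0 < D2 * Q1 + D1 * Q2 := by positivity
  have e1 := Ep_mul (p := p1) hW hQ1 hD2p
  have e2 := Ep_mul (p := p2) hW hQ2 hD1p
  have e3 := Ep_add (p := (D2 : ℤ) * p1) (p' := (D1 : ℤ) * p2) (Q := D2 * Q1) (Q' := D1 * Q2) hW hf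
    (by positivity) (by positivity)
  rw [e1, e2] at e3
  have e4 := Ep_mul (p := (D2 : ℤ) * p1 + (D1 : ℤ) * p2) (Q := D2 * Q1 + D1 * Q2) hW hN hQ
  have e5 := Ep_mul (p := p) hW hQ hN
  have e6 : ((Q : ℕ) : ℤ) * ((D2 : ℤ) * p1 + (D1 : ℤ) * p2) = ((D2 * Q1 + D1 * Q2 : ℕ) : ℤ) * p := by
    push_cast
    rw [← hD1, ← hD2]
    ring
  rw [e6, Nat.mul_comm Q, e5] at e4
  have hD1r : (D1 : ℝ) = p * Q1 - p1 * Q := by exact_mod_cast hD1.symm
  have hD2r : (D2 : ℝ) = p2 * Q - p * Q2 := by exact_mod_cast hD2.symm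
  have hD1rp : (0 : ℝ) < D1 := by exact_mod_cast hD1p
  have hD2rp : (0 : ℝ) < D2 := by exact_mod_cast hD2p
  have key : ((D2 : ℝ) * Q1 + D1 * Q2) * EpQ W p Q ≤
      Q * ((D2 : ℝ) * EpQ W p1 Q1 + D1 * EpQ W p2 Q2) := by
    push_cast at e4
    rw [e4]
    exact mul_le_mul_of_nonneg_left e3 hQr.le
  have r1 : (p : ℝ) / Q - (p1 : ℝ) / Q1 = D1 / (Q * Q1) := by
    rw [hD1r]
    field_simp
  have r2 : (p2 : ℝ) / Q2 - (p : ℝ) / Q = D2 / (Q * Q2) := by
    rw [hD2r]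
    field_simp
  rw [r1, r2, div_le_div_iff₀ (by positivity) (by positivity)]
  have k1 : (EpQ W p Q / Q - EpQ W p1 Q1 / Q1) * (D2 / (Q * Q2)) =
      ((D2 : ℝ) * Q1 * EpQ W p Q - Q * (D2 * EpQ W p1 Q1)) / (Q ^ 2 * Q1 * Q2) := by
    field_simp
  have k2 : (EpQ W p2 Q2 / Q2 - EpQ W p Q / Q) * (D1 / (Q * Q1)) =
      (Q * ((D1 : ℝ) * EpQ W p2 Q2) - D1 * Q2 * EpQ W p Q) / (Q ^ 2 * Q1 * Q2) := by
    field_simp
  rw [k1, k2]
  refine div_le_div_of_nonneg_right ?_ (by positivity)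
  linarith

theorem subgrad (hW : HW 1 W W₁ W₂ B) (hf : Foliated W) (p : ℤ) {Q : ℕ} (hQ : 0 < Q) :
    ∃ c : ℝ, ∀ (p' : ℤ) (Q' : ℕ), 0 < Q' →
      EpQ W p Q / Q + c * ((p' : ℝ) / Q' - (p : ℝ) / Q) ≤ EpQ W p' Q' / Q' := by
  have hQr : (0 : ℝ) < Q := by exact_mod_cast hQ
  set L : Set ℝ := {r | ∃ (p1 : ℤ) (Q1 : ℕ), 0 < Q1 ∧ (p1 : ℝ) / Q1 < (p : ℝ) / Q ∧
    r = (EpQ W p Q / Q - EpQ W p1 Q1 / Q1) / ((p : ℝ) / Q - (p1 : ℝ) / Q1)} with hL
  have hub : ∀ (p2 : ℤ) (Q2 : ℕ), 0 < Q2 → (p : ℝ) / Q < (p2 : ℝ) / Q2 →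
      (EpQ W p2 Q2 / Q2 - EpQ W p Q / Q) / ((p2 : ℝ) / Q2 - (p : ℝ) / Q) ∈ upperBounds L := by
    intro p2 Q2 hQ2 h2 r hr
    obtain ⟨p1, Q1, hQ1, h1, rfl⟩ := hr
    exact J1b_conv hW hf hQ hQ1 hQ2 h1 h2
  have hne : L.Nonempty := by
    refine ⟨_, p - 1, Q, hQ, ?_, rfl⟩
    rw [div_lt_div_iff_of_pos_right hQr]
    push_cast
    linarith
  have hbdd : BddAbove L := by
    refine ⟨_, hub (p + 1) Q hQ ?_⟩
    rw [div_lt_div_iff_of_pos_right hQr]
    push_cast
    linarith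
  refine ⟨sSup L, fun p' Q' hQ' => ?_⟩
  rcases lt_trichotomy ((p' : ℝ) / Q') ((p : ℝ) / Q) with h | h | h
  · have h1 := le_csSup hbdd (show _ ∈ L from ⟨p', Q', hQ', h, rfl⟩)
    have h2 : 0 < (p : ℝ) / Q - (p' : ℝ) / Q' := by linarith
    rw [div_le_iff₀ h2] at h1
    linarith
  · rw [h, sub_self, mul_zero, add_zero, J1b_eq hW hQ hQ' h]
  · have h1 := csSup_le hne (hub p' Q' hQ' h)
    have h2 : 0 < (p' : ℝ) / Q' - (p : ℝ) / Q := by linarith
    rw [le_div_iff₀ h2] at h1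
    linarith

end Pool.Agent.H33.AN

end

section

/-!
# Module J4: order of the invariant graphs

* `kam_mean`: `v(·, t) = c + ∂ₓ u(·, t)` and `u` is 1-periodic in `x`.
* `kam_c`: by `Dm_lower`, `ρ²/2 - B ≤ EpQ W p Q/Q ≤ ρ²/2 + B` for `ρ = p/Q`; use `crit` with
  `(p ± Q, Q)`: `c ≤ b(ρ + 1) - b(ρ) ≤ ρ + 1/2 + 2 B`, `c ≥ ρ - 1/2 - 2 B`.
* `kam_order`: if `v x t = v' x t` then the leaves of both types through `(x, t)` have the same velocity,
  so they coincide (`ext_unique`), hence `γ (t + Q Q') = γ t + p Q' = γ t + p' Q`: contradiction. So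
  `v' - v` is continuous and never `0`, hence of constant sign on `ℝ²`. From `crit` for both:
  `c ≤ c'`. By `kam_mean` the sign is positive and `c < c'`.
-/

set_option autoImplicit false

open MeasureTheory
open scoped RealInnerProductSpace

namespace Pool.Agent.H33.AN

variable {B : ℝ} {W W₁ W₂ : ℝ → ℝ → ℝ} {p p' : ℤ} {Q Q' : ℕ} {c α c' α' Λ Λ' : ℝ}
  {u v u' v' : ℝ → ℝ → ℝ}

private theorem J4a_cont (h : Kam W W₁ p Q c α u v Λ) :
    Continuous fun z : ℝ × ℝ => v z.1 z.2 := by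
  have hΛ : 0 ≤ Λ := (abs_nonneg _).trans (h.vbd 0 0)
  refine (LipschitzWith.of_dist_le_mul (K := ⟨2 * Λ, by positivity⟩) (fun z w => ?_)).continuous
  have h1 := h.lip z.1 z.2 w.1 w.2
  have h2 : |z.1 - w.1| ≤ dist z w := by
    rw [← Real.dist_eq, Prod.dist_eq]; exact le_max_left _ _
  have h3 : |z.2 - w.2| ≤ dist z w := by
    rw [← Real.dist_eq, Prod.dist_eq]; exact le_max_right _ _
  rw [Real.dist_eq]
  calc |v z.1 z.2 - v w.1 w.2| ≤ Λ * (|z.1 - w.1| + |z.2 - w.2|) := h1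
    _ ≤ Λ * (dist z w + dist z w) := mul_le_mul_of_nonneg_left (add_le_add h2 h3) hΛ
    _ = (2 * Λ) * dist z w := by ring

theorem kam_mean (h : Kam W W₁ p Q c α u v Λ) (t : ℝ) : ∫ x in (0 : ℝ)..1, v x t = c := by
  have hd : ∀ x, HasDerivAt (fun x => u x t) (v x t - c) x := by
    intro x
    have h1 : HasDerivAt (fun y : ℝ => ((y, t) : ℝ × ℝ)) (1, 0) x :=
      (hasDerivAt_id x).prodMk (hasDerivAt_const x t)
    have h2 := (h.fder x t).comp_hasDerivAt x h1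
    have e : ((v x t - c) • ContinuousLinearMap.fst ℝ ℝ ℝ +
        (α - v x t ^ 2 / 2 - W x t) • ContinuousLinearMap.snd ℝ ℝ ℝ) ((1 : ℝ), (0 : ℝ))
        = v x t - c := by simp
    rw [e] at h2
    exact h2
  have hc : Continuous fun x => v x t := (J4a_cont h).comp (by fun_prop : Continuous fun x : ℝ =>
    ((x, t) : ℝ × ℝ))
  have hI : ∫ x in (0 : ℝ)..1, (v x t - c) = u 1 t - u 0 t :=
    intervalIntegral.integral_eq_sub_of_hasDerivAt (fun x _ => hd x)
      ((hc.sub continuous_const).intervalIntegrable _ _)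
  have hp : u 1 t = u 0 t := by
    have := h.per₁ 0 t
    rwa [zero_add] at this
  rw [hp, sub_self, intervalIntegral.integral_sub (hc.intervalIntegrable _ _)
    (continuous_const.intervalIntegrable _ _)] at hI
  simp at hI
  linarith

private theorem J4a_bounds (hW : HW 1 W W₁ W₂ B) (hQ : 0 < Q) (p : ℤ) :
    ((p : ℝ) / Q) ^ 2 / 2 - B ≤ EpQ W p Q / Q ∧ EpQ W p Q / Q ≤ ((p : ℝ) / Q) ^ 2 / 2 + B := by
  have hQ' : (0 : ℝ) < Q := by exact_mod_cast hQ
  have hlt : (0 : ℝ) < 0 + Q := by linarith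
  obtain ⟨x, hx⟩ := Ep_attained (p := p) hW hQ 0
  have h1 := (Dm_lower hW hlt x (x + p)).1
  have h2 := (Dm_lower hW hlt x (x + p)).2
  rw [hx] at h1 h2
  have e1 : (x + (p : ℝ) - x) ^ 2 / (2 * (0 + (Q : ℝ) - 0)) = ((p : ℝ) / Q) ^ 2 / 2 * Q := by
    rw [add_sub_cancel_left, zero_add, sub_zero]
    field_simp
  rw [e1] at h1 h2
  constructor
  · rw [le_div_iff₀ hQ']
    linarith
  · rw [div_le_iff₀ hQ']
    linarith

theorem kam_c (hW : HW 1 W W₁ W₂ B) (hQ : 0 < Q) (h : Kam W W₁ p Q c α u v Λ) :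
    |c - (p : ℝ) / Q| ≤ 1 / 2 + 2 * B := by
  have hQ' : (0 : ℝ) < Q := by exact_mod_cast hQ
  have h0 := J4a_bounds hW hQ p
  have hp := J4a_bounds hW hQ (p + Q)
  have hm := J4a_bounds hW hQ (p - Q)
  have cp := h.crit (p + Q) Q hQ
  have cm := h.crit (p - Q) Q hQ
  have e1 : (((p + (Q : ℤ) : ℤ) : ℝ)) / Q = (p : ℝ) / Q + 1 := by
    push_cast
    field_simp
  have e2 : (((p - (Q : ℤ) : ℤ) : ℝ)) / Q = (p : ℝ) / Q - 1 := by
    push_cast
    field_simp
  rw [e1] at hp cp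
  rw [e2] at hm cm
  rw [abs_le]
  constructor
  · nlinarith [h0.1, hm.2]
  · nlinarith [h0.1, hp.2]

end Pool.Agent.H33.AN

end
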