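import Pool.Agent.H47.B0.M09
import Pool.Agent.H47.B0.M12

/-! The parts of this file: H33.AN.P.C1a, H33.AN.P.C1c, H33.AN.P.K1, H33.AN.P.G8c, H33.AN.P.G10, H33.AN.P.J5a, H33.AN.P.J5b, H33.AN.P.J8, H33.AN.P.J9a, H33.AN.P.J4b, H33.AN.P.C1b. -/

section

/-!
# Module C1: the integrable case `V = V(t)`

(Compare `Pool/Agent/H33/AM/P/C1a.lean`, `C1b.lean`.) Here `V x t = V₀ t` with `V₀ t = V 0 t`, `F = 0` (gradient of a
constant). For `c` let `G vc = c`, `α = ⟪c, vc⟫ / 2 + V̄`, `V̄ = ∫₀¹ V₀`;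
`lag2 G V x v t - ⟪c, v⟫ + α = ⟪G (v - vc), v - vc⟫ / 2 - (V₀ t - V̄)`.
* `alpha_int2`: `actionValues L c ≥ -α` by `actionValues_ge2`, since on curves the integral is at least
  `-∫_a^b (V₀ - V̄) ≥ -2 B` (periodic with mean zero: the integral over `[a, b]` is the integral over an interval
  of length `< 1`). Conversely, for `j ≥ 1` let `k` be an integer vector with `‖zv k - j vc‖ ≤ √n`; the straight
  line `γ(t) = t v`, `v = zv k/j`, is a solution (`Sol2`, `F = 0`), and has the period `j`; its value is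
  `-α + ⟪G (v - vc), v - vc⟫ / 2 ≤ -α + κ₂ n/(2 j²)`, `mem_actionValues2`.
* `peierls_int2`: for a curve as in `curveActions` from `x` to `x`, on `[0, k]`: the action is
  `∫ ⟪G (γ' - vc), γ' - vc⟫ / 2 - ∫_0^k (V₀ - V̄) ≥ 0` (the last integral is zero). The line from `x` to
  `x + zv k'`, `‖zv k' - k vc‖ ≤ √n`, has the action at most `κ₂ n/(2 k)`. So
  `0 ≤ sInf (curveActions L c k x x) ≤ κ₂ n/(2 k) → 0`.
-/

set_option autoImplicit false

open MeasureTheory
open scoped RealInnerProductSpace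

namespace Pool.Agent.H33.AN

open Pool.Agent.H33.AM

variable {n : ℕ} {G : EuclideanSpace ℝ (Fin n) →L[ℝ] EuclideanSpace ℝ (Fin n)} {κ₁ κ₂ : ℝ}
  {V : EuclideanSpace ℝ (Fin n) → ℝ → ℝ}
  {F : EuclideanSpace ℝ (Fin n) → ℝ → EuclideanSpace ℝ (Fin n)}
  {Vt : EuclideanSpace ℝ (Fin n) → ℝ → ℝ} {B : ℝ}

private theorem c1a2_F_zero (hV : HV2 1 V F Vt B) (hc : ∀ x y t, V x t = V y t)
    (x : EuclideanSpace ℝ (Fin n)) (t : ℝ) : F x t = 0 := by
  have h1 := hV.der x t
  have h2 : HasFDerivAt (fun y : EuclideanSpace ℝ (Fin n) => (y, t))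
      ((ContinuousLinearMap.id ℝ (EuclideanSpace ℝ (Fin n))).prod
        (0 : EuclideanSpace ℝ (Fin n) →L[ℝ] ℝ)) x :=
    (hasFDerivAt_id x).prodMk (hasFDerivAt_const t x)
  have h3 := HasFDerivAt.comp x (g := fun z : EuclideanSpace ℝ (Fin n) × ℝ => V z.1 z.2)
    (f := fun y : EuclideanSpace ℝ (Fin n) => (y, t)) h1 h2
  have h4 : HasFDerivAt ((fun z : EuclideanSpace ℝ (Fin n) × ℝ => V z.1 z.2) ∘
      (fun y : EuclideanSpace ℝ (Fin n) => (y, t))) (0 : EuclideanSpace ℝ (Fin n) →L[ℝ] ℝ) x := by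
    have h5 : ((fun z : EuclideanSpace ℝ (Fin n) × ℝ => V z.1 z.2) ∘
      (fun y : EuclideanSpace ℝ (Fin n) => (y, t))) = fun _ => V 0 t := funext fun y => hc y 0 t
    rw [h5]
    exact hasFDerivAt_const _ _
  have h6 := h3.unique h4
  have h7 := congrArg (fun l : EuclideanSpace ℝ (Fin n) →L[ℝ] ℝ => l (F x t)) h6
  simp at h7
  exact h7

private theorem c1a2_approx (vc : EuclideanSpace ℝ (Fin n)) (j : ℕ) :
    ∃ k : Fin n → ℤ, ‖zv k - (j : ℝ) • vc‖ ^ 2 ≤ n := by
  refine ⟨fun i => ⌊(j : ℝ) * vc i⌋, ?_⟩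
  rw [EuclideanSpace.norm_sq_eq]
  calc ∑ i, ‖(zv (fun i => ⌊(j : ℝ) * vc i⌋) - (j : ℝ) • vc) i‖ ^ 2 ≤ ∑ _i : Fin n, (1 : ℝ) := by
        apply Finset.sum_le_sum
        intro i _
        have h1 : (zv (fun i => ⌊(j : ℝ) * vc i⌋) - (j : ℝ) • vc) i =
            (⌊(j : ℝ) * vc i⌋ : ℝ) - (j : ℝ) * vc i := by
          simp [zv]
        rw [h1, Real.norm_eq_abs, sq_abs]
        have h2 := Int.floor_le ((j : ℝ) * vc i)
        have h3 := Int.lt_floor_add_one ((j : ℝ) * vc i)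
        nlinarith
    _ = n := by simp

private theorem c1a2_contV (hV : HV2 1 V F Vt B) : Continuous fun t => V 0 t := by
  have h1 : Continuous fun z : EuclideanSpace ℝ (Fin n) × ℝ => V z.1 z.2 :=
    continuous_iff_continuousAt.2 fun z => (hV.der z.1 z.2).continuousAt
  exact h1.comp (Continuous.prodMk continuous_const continuous_id)

/-- the primitive of `V 0 t - mean` is `1`-periodic, so it is bounded -/
private theorem c1a2_prim (hV : HV2 1 V F Vt B) :
    (∀ k : ℕ, ∫ t in (0 : ℝ)..k, (V 0 t - ∫ s in (0 : ℝ)..1, V 0 s) = 0) ∧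
    ∀ a b : ℝ, |∫ t in a..b, (V 0 t - ∫ s in (0 : ℝ)..1, V 0 s)| ≤ 4 * B := by
  set m : ℝ := ∫ s in (0 : ℝ)..1, V 0 s with hm
  set g : ℝ → ℝ := fun t => V 0 t - m with hg
  have hgc : Continuous g := (c1a2_contV hV).sub continuous_const
  have hgi : ∀ a b : ℝ, IntervalIntegrable g volume a b := fun a b => hgc.intervalIntegrable a b
  have hper : Function.Periodic g 1 := fun t => by
    simp only [hg]
    rw [hV.pert]
  have h01 : ∫ t in (0 : ℝ)..1, g t = 0 := by
    simp only [hg]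
    rw [intervalIntegral.integral_sub ((c1a2_contV hV).intervalIntegrable 0 1)
      intervalIntegrable_const, intervalIntegral.integral_const, ← hm]
    simp
  set P : ℝ → ℝ := fun t => ∫ s in (0 : ℝ)..t, g s with hP
  have hPper : Function.Periodic P 1 := fun t => by
    simp only [hP]
    rw [← intervalIntegral.integral_add_adjacent_intervals (hgi 0 t) (hgi t (t + 1))]
    have h1 := hper.intervalIntegral_add_eq t 0
    rw [h1, zero_add, h01, add_zero]
  have hP0 : P 0 = 0 := by simp [hP]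
  have hmB : |m| ≤ B := by
    have h1 := intervalIntegral.norm_integral_le_of_norm_le_const (a := (0 : ℝ)) (b := 1)
      (f := fun s => V 0 s) (C := B) (fun s _ => hV.bd 0 s)
    rw [← hm, Real.norm_eq_abs] at h1
    simpa using h1
  have hgB : ∀ t, |g t| ≤ 2 * B := fun t => by
    simp only [hg]
    refine (abs_sub _ _).trans ?_
    linarith [hV.bd 0 t]
  have hPB : ∀ t, |P t| ≤ 2 * B := fun t => by
    have h1 : P t = P (Int.fract t) := by
      have h2 := hPper.sub_zsmul_eq (x := t) ⌊t⌋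
      rw [zsmul_eq_mul, mul_one, Int.self_sub_floor] at h2
      exact h2.symm
    rw [h1]
    have h2 := intervalIntegral.norm_integral_le_of_norm_le_const (a := (0 : ℝ)) (b := Int.fract t)
      (f := g) (C := 2 * B) (fun s _ => hgB s)
    rw [Real.norm_eq_abs] at h2
    refine h2.trans ?_
    rw [sub_zero, abs_of_nonneg (Int.fract_nonneg t)]
    have h3 : Int.fract t ≤ 1 := (Int.fract_lt_one t).le
    have h4 : 0 ≤ 2 * B := by linarith [hV.nonneg]
    nlinarith
  constructor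
  · intro k
    have h1 : P k = P 0 := by
      have h2 := hPper.nat_mul k 0
      simpa using h2
    rw [hP0] at h1
    exact h1
  · intro a b
    have h1 : ∫ t in a..b, g t = P b - P a := by
      simp only [hP]
      rw [intervalIntegral.integral_interval_sub_left (hgi 0 b) (hgi 0 a)]
    have h2 := hPB a
    have h3 := hPB b
    change |∫ t in a..b, g t| ≤ 4 * B
    rw [h1]
    refine (abs_sub _ _).trans ?_
    linarith

theorem alpha_int2 (hG : HG G κ₁ κ₂) (hV : HV2 1 V F Vt B) (hc : ∀ x y t, V x t = V y t)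
    {c vc : EuclideanSpace ℝ (Fin n)} (hvc : G vc = c) :
    alpha (lag2 G V) c = ⟪c, vc⟫ / 2 + ∫ t in (0 : ℝ)..1, V 0 t := by
  obtain ⟨hp1, hp2⟩ := c1a2_prim hV
  set m : ℝ := ∫ s in (0 : ℝ)..1, V 0 s with hm
  have cg : Continuous fun t => V 0 t - m := (c1a2_contV hV).sub continuous_const
  set α : ℝ := ⟪c, vc⟫ / 2 + m with hα
  set S := actionValues (lag2 G V) c with hS
  have hid : ∀ (x v : EuclideanSpace ℝ (Fin n)) (t : ℝ), lag2 G V x v t - ⟪c, v⟫ + α =
      ⟪G (v - vc), v - vc⟫ / 2 - (V 0 t - m) := by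
    intro x v t
    have h1 : ⟪G v, vc⟫ = ⟪c, v⟫ := by
      rw [hG.symm v vc, hvc, real_inner_comm]
    simp only [lag2, hα, hc x 0 t, map_sub, inner_sub_left, inner_sub_right, hvc, h1]
    ring
  have low : ∀ a ∈ S, -α ≤ a := by
    intro a ha
    refine actionValues_ge2 hG hV (E₀ := α) (C := 4 * B) ?_ ha
    intro a b x u hx
    simp only [hid]
    have hi : IntervalIntegrable (fun t => ⟪G (u t - vc), u t - vc⟫ / 2) volume a b :=
      hx.integrable (g := fun p : EuclideanSpace ℝ (Fin n) × EuclideanSpace ℝ (Fin n) =>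
        ⟪G (p.2 - vc), p.2 - vc⟫ / 2) (by fun_prop)
    rw [intervalIntegral.integral_sub hi (cg.intervalIntegrable a b)]
    have h1 : 0 ≤ ∫ t in a..b, ⟪G (u t - vc), u t - vc⟫ / 2 := by
      apply intervalIntegral.integral_nonneg hx.le
      intro t _
      have h2 := hG.lo (u t - vc)
      have h3 : 0 ≤ κ₁ * ‖u t - vc‖ ^ 2 := by
        have := hG.pos
        positivity
      linarith
    have h2 := abs_le.1 (hp2 a b)
    linarith [h2.2]
  have up : ∀ j : ℕ, 0 < j → ∃ a ∈ S, a ≤ -α + κ₂ / 2 * (n / (j : ℝ) ^ 2) := by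
    intro j hj
    have hj' : (0 : ℝ) < j := Nat.cast_pos.2 hj
    obtain ⟨k, hk⟩ := c1a2_approx vc j
    set v : EuclideanSpace ℝ (Fin n) := (1 / (j : ℝ)) • zv k with hv
    have hjv : (j : ℝ) • v = zv k := by
      rw [hv, smul_smul, mul_one_div_cancel hj'.ne', one_smul]
    have hsol : Sol2 G F (fun t => t • v) fun _ => v := by
      refine ⟨continuous_const, ?_, ?_⟩
      · intro t
        simpa using (hasDerivAt_id t).smul_const v
      · intro t
        rw [c1a2_F_zero hV hc, neg_zero]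
        exact hasDerivAt_const t (G v)
    have hmem := mem_actionValues2 hG hV hj hsol (k := k)
      (by
        intro t
        show (t + j) • v = t • v + zv k
        rw [add_smul, hjv]) (fun _ => rfl) c
    refine ⟨_, hmem, ?_⟩
    have h2 : (∫ t in (0 : ℝ)..j, (lag2 G V (t • v) v t - ⟪c, v⟫)) =
        j * (⟪G (v - vc), v - vc⟫ / 2 - α) := by
      have e1 : ∀ t : ℝ, lag2 G V (t • v) v t - ⟪c, v⟫ =
          (⟪G (v - vc), v - vc⟫ / 2 - α) - (V 0 t - m) := by
        intro t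
        linarith [hid (t • v) v t]
      simp only [e1]
      rw [intervalIntegral.integral_sub intervalIntegrable_const (cg.intervalIntegrable _ _), hp1 j,
        intervalIntegral.integral_const]
      simp
    rw [h2]
    have h4 : ‖v - vc‖ ^ 2 ≤ n / (j : ℝ) ^ 2 := by
      have e1 : zv k - (j : ℝ) • vc = (j : ℝ) • (v - vc) := by
        rw [smul_sub, hjv]
      rw [e1, norm_smul, Real.norm_of_nonneg hj'.le, mul_pow] at hk
      rw [le_div_iff₀ (by positivity)]
      linarith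
    have h5 : κ₂ / 2 * ‖v - vc‖ ^ 2 ≤ κ₂ / 2 * (n / (j : ℝ) ^ 2) :=
      mul_le_mul_of_nonneg_left h4 (by linarith [hG.pos₂])
    have h6 : 1 / (j : ℝ) * (j * (⟪G (v - vc), v - vc⟫ / 2 - α)) =
        ⟪G (v - vc), v - vc⟫ / 2 - α := by
      field_simp
    rw [h6]
    have h7 := hG.hi (v - vc)
    linarith
  have bdd : BddBelow S := ⟨-α, low⟩
  have ne : S.Nonempty := by
    obtain ⟨a, ha, _⟩ := up 1 one_pos
    exact ⟨a, ha⟩
  have h1 : -α ≤ sInf S := le_csInf ne low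
  have h2 : sInf S ≤ -α := by
    apply le_of_forall_pos_le_add
    intro ε hε
    obtain ⟨j, hj⟩ := exists_nat_gt (κ₂ / 2 * n / ε)
    have hj0 : (0 : ℝ) < (j : ℝ) + 1 := by positivity
    obtain ⟨a, ha, ha'⟩ := up (j + 1) (Nat.succ_pos j)
    refine le_trans (csInf_le bdd ha) (le_trans ha' ?_)
    have h3 : κ₂ / 2 * (n / ((j + 1 : ℕ) : ℝ) ^ 2) ≤ ε := by
      push_cast
      rw [← mul_div_assoc, div_le_iff₀ (by positivity)]
      rw [div_lt_iff₀ hε] at hj
      have h4 : (j : ℝ) ≤ ((j : ℝ) + 1) ^ 2 := by nlinarith [Nat.cast_nonneg (α := ℝ) j]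
      nlinarith [mul_le_mul_of_nonneg_left h4 hε.le]
    linarith
  have h3 : sInf S = -α := le_antisymm h2 h1
  show -sInf S = α
  rw [h3, neg_neg]

end Pool.Agent.H33.AN

end

section

/-!
# Module C1: the integrable case `V = V(t)`

(Compare `Pool/Agent/H33/AM/P/C1a.lean`, `C1b.lean`.) Here `V x t = V₀ t` with `V₀ t = V 0 t`, `F = 0` (gradient of a
constant). For `c` let `G vc = c`, `α = ⟪c, vc⟫ / 2 + V̄`, `V̄ = ∫₀¹ V₀`;
`lag2 G V x v t - ⟪c, v⟫ + α = ⟪G (v - vc), v - vc⟫ / 2 - (V₀ t - V̄)`.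
* `alpha_int2`: `actionValues L c ≥ -α` by `actionValues_ge2`, since on curves the integral is at least
  `-∫_a^b (V₀ - V̄) ≥ -2 B` (periodic with mean zero: the integral over `[a, b]` is the integral over an interval
  of length `< 1`). Conversely, for `j ≥ 1` let `k` be an integer vector with `‖zv k - j vc‖ ≤ √n`; the straight
  line `γ(t) = t v`, `v = zv k/j`, is a solution (`Sol2`, `F = 0`), and has the period `j`; its value is
  `-α + ⟪G (v - vc), v - vc⟫ / 2 ≤ -α + κ₂ n/(2 j²)`, `mem_actionValues2`.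
* `peierls_int2`: for a curve as in `curveActions` from `x` to `x`, on `[0, k]`: the action is
  `∫ ⟪G (γ' - vc), γ' - vc⟫ / 2 - ∫_0^k (V₀ - V̄) ≥ 0` (the last integral is zero). The line from `x` to
  `x + zv k'`, `‖zv k' - k vc‖ ≤ √n`, has the action at most `κ₂ n/(2 k)`. So
  `0 ≤ sInf (curveActions L c k x x) ≤ κ₂ n/(2 k) → 0`.
-/

set_option autoImplicit false

open MeasureTheory
open scoped RealInnerProductSpace

namespace Pool.Agent.H33.AN

open Pool.Agent.H33.AM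

variable {n : ℕ} {G : EuclideanSpace ℝ (Fin n) →L[ℝ] EuclideanSpace ℝ (Fin n)} {κ₁ κ₂ : ℝ}
  {V : EuclideanSpace ℝ (Fin n) → ℝ → ℝ}
  {F : EuclideanSpace ℝ (Fin n) → ℝ → EuclideanSpace ℝ (Fin n)}
  {Vt : EuclideanSpace ℝ (Fin n) → ℝ → ℝ} {B : ℝ}

theorem strict_int2 (hG : HG G κ₁ κ₂) (hV : HV2 1 V F Vt B) (hc : ∀ x y t, V x t = V y t) :
    StrictConvexOn ℝ Set.univ (alpha (lag2 G V)) := by
  obtain ⟨G', h1, -⟩ := hG.inv
  refine ⟨convex_univ, ?_⟩
  intro x _ y _ hxy a b ha hb hab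
  have ex := alpha_int2 hG hV hc (h1 x)
  have ey := alpha_int2 hG hV hc (h1 y)
  have e1 : G (a • G' x + b • G' y) = a • x + b • y := by
    rw [map_add, map_smul, map_smul, h1, h1]
  have exy := alpha_int2 hG hV hc e1
  rw [exy, ex, ey]
  have hne : G' x - G' y ≠ 0 := by
    intro h
    apply hxy
    have h2 := congrArg G h
    rw [map_sub, h1, h1, map_zero] at h2
    exact sub_eq_zero.1 h2
  have hpos : 0 < ⟪G (G' x - G' y), G' x - G' y⟫ := by
    have h3 := hG.lo (G' x - G' y)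
    have h4 : 0 < ‖G' x - G' y‖ := norm_pos_iff.2 hne
    have h5 : 0 < κ₁ * ‖G' x - G' y‖ ^ 2 := mul_pos hG.pos (pow_pos h4 2)
    linarith
  rw [map_sub, h1, h1, inner_sub_left, inner_sub_right, inner_sub_right] at hpos
  have hb' : b = 1 - a := by linarith
  have hab' : 0 < a * b := mul_pos ha hb
  have key := mul_pos hab' hpos
  have hexp : ⟪a • x + b • y, a • G' x + b • G' y⟫ =
      a * a * ⟪x, G' x⟫ + a * b * ⟪x, G' y⟫ + a * b * ⟪y, G' x⟫ + b * b * ⟪y, G' y⟫ := by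
    simp only [inner_add_left, inner_add_right, real_inner_smul_left, real_inner_smul_right]
    ring
  rw [hexp]
  simp only [smul_eq_mul]
  rw [hb'] at key ⊢
  nlinarith [key]

end Pool.Agent.H33.AN

end

section

/-!
# Module K1: passage to the moving frame

`r = p/Q`, `w(x, t) = W(x + r t, t)`. A curve `ξ` in the moving frame corresponds to `θ(t) = ξ(t) + r t`
(`Cur.add_lin`), `A1 W s t θ = A1 w s t ξ + r (ξ t - ξ s) + r²/2 (t - s)`; closed curves of the moving
frame over `j Q` correspond to closed curves of type `(j p, j Q)`.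
* `crit`, `mark`: `Ep_mark`, `Ep_le`, `Dm_per` (translate the marked curve by `-k`).
* `att`: `Ep_attained`, `leaf_exists`; the velocity of a leaf is periodic and continuous, so bounded.
-/

set_option autoImplicit false

open MeasureTheory
open scoped RealInnerProductSpace

namespace Pool.Agent.H33.AN

open Pool.Agent.H33.AM

private theorem K1_contW {Tp B : ℝ} {W W₁ W₂ : ℝ → ℝ → ℝ} (hW : HW Tp W W₁ W₂ B) :
    Continuous fun z : ℝ × ℝ => W z.1 z.2 :=
  continuous_iff_continuousAt.2 fun z => (hW.der z.1 z.2).continuousAt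

private theorem K1_contW₁ {Tp B : ℝ} {W W₁ W₂ : ℝ → ℝ → ℝ} (hW : HW Tp W W₁ W₂ B) :
    Continuous fun z : ℝ × ℝ => W₁ z.1 z.2 := by
  have h : LipschitzWith (2 * B).toNNReal fun z : ℝ × ℝ => W₁ z.1 z.2 := by
    refine LipschitzWith.of_dist_le_mul fun z z' => ?_
    rw [Real.coe_toNNReal _ (by linarith [hW.nonneg]), Real.dist_eq]
    have h1 := hW.lip z.1 z.2 z'.1 z'.2
    have h2 : |z.1 - z'.1| ≤ dist z z' := by
      rw [← Real.dist_eq, Prod.dist_eq]
      exact le_max_left _ _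
    have h3 : |z.2 - z'.2| ≤ dist z z' := by
      rw [← Real.dist_eq, Prod.dist_eq]
      exact le_max_right _ _
    have h4 := mul_le_mul_of_nonneg_left (add_le_add h2 h3) hW.nonneg
    linarith
  exact h.continuous

private theorem K1_per {Tp B : ℝ} {W W₁ W₂ : ℝ → ℝ → ℝ} (hW : HW Tp W W₁ W₂ B) (x t : ℝ)
    (k : ℤ) : W (x + k) t = W x t := by
  have h : Function.Periodic (fun y => W y t) 1 := fun y => hW.per₁ y t
  have h1 := h.int_mul k x
  rw [mul_one] at h1
  exact h1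

private theorem K1_per2 {B : ℝ} {W W₁ W₂ : ℝ → ℝ → ℝ} (hW : HW 1 W W₁ W₂ B) (x t : ℝ)
    (n : ℕ) : W x (t + n) = W x t := by
  have h : Function.Periodic (fun y => W x y) 1 := fun y => hW.per₂ x y
  have h1 := h.nat_mul n t
  rw [mul_one] at h1
  exact h1

private theorem K1_HW {B : ℝ} {W W₁ W₂ : ℝ → ℝ → ℝ} (hW : HW 1 W W₁ W₂ B) {p : ℤ} {Q : ℕ}
    {r : ℝ} (hr : r * Q = p) :
    HW Q (fun x t => W (x + r * t) t) (fun x t => W₁ (x + r * t) t)
      (fun x t => W₂ (x + r * t) t + r * W₁ (x + r * t) t) (B * (1 + |r|)) := by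
  have hB := hW.nonneg
  have hr0 := abs_nonneg r
  have hBr : 0 ≤ B * |r| := mul_nonneg hB hr0
  have hΦ : Continuous fun z : ℝ × ℝ => (z.1 + r * z.2, z.2) := by fun_prop
  refine ⟨mul_nonneg hB (by linarith), ?_, ?_, ?_, ?_, ?_, ?_, ?_, ?_⟩
  · intro x t
    have hd : HasFDerivAt (fun z : ℝ × ℝ => (z.1 + r * z.2, z.2))
        ((ContinuousLinearMap.fst ℝ ℝ ℝ + r • ContinuousLinearMap.snd ℝ ℝ ℝ).prod
          (ContinuousLinearMap.snd ℝ ℝ ℝ)) (x, t) := by
      have h1 : HasFDerivAt (fun z : ℝ × ℝ => z.1 + r * z.2)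
          (ContinuousLinearMap.fst ℝ ℝ ℝ + r • ContinuousLinearMap.snd ℝ ℝ ℝ) (x, t) :=
        hasFDerivAt_fst.add (hasFDerivAt_snd.const_mul r)
      exact h1.prodMk hasFDerivAt_snd
    have hc := HasFDerivAt.comp (x, t) (hW.der (x + r * t) t) hd
    refine HasFDerivAt.congr_fderiv hc ?_
    refine ContinuousLinearMap.ext fun z => ?_
    show W₁ (x + r * t) t * (z.1 + r * z.2) + W₂ (x + r * t) t * z.2 =
      W₁ (x + r * t) t * z.1 + (W₂ (x + r * t) t + r * W₁ (x + r * t) t) * z.2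
    ring
  · exact ((hW.cont₂.comp hΦ).add (continuous_const.mul ((K1_contW₁ hW).comp hΦ)))
  · intro x t
    show W (x + 1 + r * t) t = W (x + r * t) t
    rw [show x + 1 + r * t = x + r * t + 1 by ring]
    exact hW.per₁ _ _
  · intro x t
    show W (x + r * (t + Q)) (t + Q) = W (x + r * t) t
    rw [K1_per2 hW, show x + r * (t + Q) = x + r * t + r * Q by ring, hr]
    exact K1_per hW _ _ _
  · intro x t
    have h1 := hW.bd (x + r * t) t
    show |W (x + r * t) t| ≤ B * (1 + |r|)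
    linarith
  · intro x t
    have h1 := hW.bd₁ (x + r * t) t
    show |W₁ (x + r * t) t| ≤ B * (1 + |r|)
    linarith
  · intro x t
    have h1 := hW.bd₁ (x + r * t) t
    have h2 := hW.bd₂ (x + r * t) t
    show |W₂ (x + r * t) t + r * W₁ (x + r * t) t| ≤ B * (1 + |r|)
    refine (abs_add_le _ _).trans ?_
    rw [abs_mul]
    have h3 := mul_le_mul_of_nonneg_left h1 hr0
    linarith
  · intro x t x' t'
    have h1 := hW.lip (x + r * t) t (x' + r * t') t'
    show |W₁ (x + r * t) t - W₁ (x' + r * t') t'| ≤ B * (1 + |r|) * (|x - x'| + |t - t'|)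
    have h2 : |x + r * t - (x' + r * t')| ≤ |x - x'| + |r| * |t - t'| := by
      rw [← abs_mul, show x + r * t - (x' + r * t') = (x - x') + r * (t - t') by ring]
      exact abs_add_le _ _
    have h3 : 0 ≤ |x - x'| := abs_nonneg _
    have h4 : B * (|x + r * t - (x' + r * t')| + |t - t'|) ≤
        B * (1 + |r|) * (|x - x'| + |t - t'|) := by
      rw [mul_assoc]
      refine mul_le_mul_of_nonneg_left ?_ hB
      have h5 := mul_nonneg hr0 h3
      nlinarith
    exact h1.trans h4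

private theorem K1_A1 {B : ℝ} {W W₁ W₂ : ℝ → ℝ → ℝ} (hW : HW 1 W W₁ W₂ B) (r : ℝ) {a b : ℝ}
    {ξ u : ℝ → ℝ} (h : Cur a b ξ u) :
    A1 W a b (fun t => ξ t + (0 + r * t)) (fun t => u t + r) =
      A1 (fun x t => W (x + r * t) t) a b ξ u + r * (ξ b - ξ a) + r ^ 2 / 2 * (b - a) := by
  have hΦ : Continuous fun z : ℝ × ℝ × ℝ => (z.1 + r * z.2.2, z.2.2) := by fun_prop
  have i1 : IntervalIntegrable (fun t => u t ^ 2 / 2 - W (ξ t + r * t) t) volume a b := by
    refine Cur.integrable h (g := fun z : ℝ × ℝ × ℝ => z.2.1 ^ 2 / 2 - W (z.1 + r * z.2.2) z.2.2) ?_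
    have h1 : Continuous fun z : ℝ × ℝ × ℝ => W (z.1 + r * z.2.2) z.2.2 :=
      (K1_contW hW).comp hΦ
    have h2 : Continuous fun z : ℝ × ℝ × ℝ => z.2.1 ^ 2 / 2 := by fun_prop
    exact h2.sub h1
  have i2 : IntervalIntegrable (fun t => r * u t) volume a b := by
    refine Cur.integrable h (g := fun z : ℝ × ℝ × ℝ => r * z.2.1) ?_
    fun_prop
  have i3 : IntervalIntegrable (fun _ : ℝ => r ^ 2 / 2) volume a b := intervalIntegrable_const
  unfold A1
  have e1 : ∀ t, (u t + r) ^ 2 / 2 - W (ξ t + (0 + r * t)) t =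
      (u t ^ 2 / 2 - W (ξ t + r * t) t) + (r * u t + r ^ 2 / 2) := by
    intro t
    rw [zero_add]
    ring
  rw [intervalIntegral.integral_congr fun t _ => e1 t, intervalIntegral.integral_add i1 (i2.add i3),
    intervalIntegral.integral_add i2 i3, intervalIntegral.integral_const_mul,
    Cur.integral_vel h, intervalIntegral.integral_const, smul_eq_mul]
  ring

theorem bar_of_barrier {B : ℝ} {W W₁ W₂ : ℝ → ℝ → ℝ} (hW : HW 1 W W₁ W₂ B) {p : ℤ} {Q : ℕ}
    {Bc : ℝ → ℝ} {μ : ℝ} (hQ : 0 < Q) (hBc : Continuous Bc) (hper : ∀ t, Bc (t + Q) = Bc t + p)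
    (hμ : 0 < μ) (hbar : ∀ t, EpQ W p Q + μ ≤ Dm W t (t + Q) (Bc t) (Bc t + p)) :
    ∃ B' : ℝ, HW Q (fun x t => W (x + (p : ℝ) / Q * t) t) (fun x t => W₁ (x + (p : ℝ) / Q * t) t)
      (fun x t => W₂ (x + (p : ℝ) / Q * t) t + (p : ℝ) / Q * W₁ (x + (p : ℝ) / Q * t) t) B' ∧
      Bar (fun x t => W (x + (p : ℝ) / Q * t) t) Q (EpQ W p Q - (p : ℝ) ^ 2 / (2 * Q)) μ
        (fun t => Bc t - (p : ℝ) / Q * t) := by
  have hQ0 : (0 : ℝ) < Q := by exact_mod_cast hQ
  obtain ⟨r, hr⟩ : ∃ r : ℝ, (p : ℝ) / Q = r := ⟨_, rfl⟩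
  rw [hr]
  have hrQ : r * Q = p := by
    rw [← hr]
    field_simp
  have hE : (p : ℝ) ^ 2 / (2 * Q) = r ^ 2 / 2 * Q := by
    rw [← hrQ]
    field_simp
  rw [hE]
  -- action of a closed curve in the moving frame
  have key : ∀ (j : ℕ) (s : ℝ) (ξ u : ℝ → ℝ), 0 < j → Cur s (s + j * Q) ξ u →
      ξ (s + j * Q) = ξ s → ∀ t ∈ Set.Icc s (s + j * Q),
      Dm W t (t + Q) (ξ t + (0 + r * t)) (ξ t + (0 + r * t) + p) + ((j : ℝ) - 1) * EpQ W p Q ≤
        A1 (fun x t => W (x + r * t) t) s (s + j * Q) ξ u + j * (r ^ 2 / 2 * Q) := by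
    intro j s ξ u hj hξ hc t ht
    have h1 := Cur.add_lin hξ 0 r
    have h2 : ξ (s + j * Q) + (0 + r * (s + j * Q)) = ξ s + (0 + r * s) + j * p := by
      rw [hc, ← hrQ]
      ring
    have h3 := Ep_mark hW hQ hj h1 h2 ht
    rw [K1_A1 hW r hξ, hc, sub_self, mul_zero, add_zero] at h3
    have e1 : r ^ 2 / 2 * (s + j * Q - s) = j * (r ^ 2 / 2 * Q) := by ring
    rw [e1] at h3
    exact h3
  refine ⟨B * (1 + |r|), K1_HW hW hrQ, hQ, hμ, ?_, ?_, ?_, ?_, ?_⟩
  · exact hBc.sub (continuous_const.mul continuous_id)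
  · intro t
    show Bc (t + Q) - r * (t + Q) = Bc t - r * t
    rw [hper, ← hrQ]
    ring
  · intro j s ξ u hj hξ hc
    have hj0 : (0 : ℝ) ≤ j * Q := by positivity
    have h1 := key j s ξ u hj hξ hc s ⟨le_rfl, by linarith⟩
    have h2 := Ep_le (p := p) hW hQ s (ξ s + (0 + r * s))
    have h3 : (j : ℝ) * (EpQ W p Q - r ^ 2 / 2 * Q) =
        EpQ W p Q + ((j : ℝ) - 1) * EpQ W p Q - j * (r ^ 2 / 2 * Q) := by ring
    rw [h3]
    linarith
  · obtain ⟨x, hx⟩ := Ep_attained (p := p) hW hQ 0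
    obtain ⟨γ, v, hl, hγ⟩ := leaf_exists hW hQ hx
    have hvc : Continuous v := continuous_iff_continuousAt.2 fun t => (hl.ext.el t).continuousAt
    have hγc : Continuous γ := continuous_iff_continuousAt.2 fun t => (hl.ext.der t).continuousAt
    have hcur : ∀ s t, s ≤ t → Cur s t γ v := by
      intro s t hst
      refine ⟨hst, hγc.continuousOn, ⟨∅, Set.countable_empty, fun τ _ => hl.ext.der τ⟩,
        hvc.measurable, |r| + (1 + B), fun τ => ?_⟩
      have h1 := leaf_vbound hW hQ hl τ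
      rw [hr] at h1
      have h2 : |v τ| ≤ |v τ - r| + |r| := by
        have h3 := abs_add_le (v τ - r) r
        rwa [sub_add_cancel] at h3
      linarith
    have hcur' : ∀ s t, s ≤ t → Cur s t (fun τ => γ τ + (0 + (-r) * τ)) fun τ => v τ + -r :=
      fun s t hst => Cur.add_lin (hcur s t hst) 0 (-r)
    refine ⟨fun τ => γ τ + (0 + (-r) * τ), fun τ => v τ + -r, hcur', ?_, ?_, ?_⟩
    · intro t
      show γ (t + Q) + (0 + (-r) * (t + Q)) = γ t + (0 + (-r) * t)
      rw [hl.per, ← hrQ]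
      ring
    · intro t
      show v (t + Q) + -r = v t + -r
      rw [hl.vper]
    · have h1 := K1_A1 hW r (hcur' 0 Q hQ0.le)
      have e1 : (fun t => γ t + (0 + (-r) * t) + (0 + r * t)) = γ := by
        funext t
        ring
      have e2 : (fun t => v t + -r + r) = v := by
        funext t
        ring
      rw [e1, e2] at h1
      have h2 := hl.act 0
      rw [zero_add] at h2
      have h3 := hl.per 0
      rw [zero_add] at h3
      rw [h2, h3] at h1
      have h4 : r * (γ 0 + p + (0 + (-r) * Q) - (γ 0 + (0 + (-r) * 0))) = 0 := by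
        rw [← hrQ]
        ring
      rw [h4] at h1
      linarith
  · intro j s ξ u hj hξ hc hm
    obtain ⟨t, ht, k, hk⟩ := hm
    have h1 := key j s ξ u hj hξ hc t ht
    have e1 : ξ t + (0 + r * t) = Bc t + k := by
      rw [hk]
      show Bc t - r * t + k + (0 + r * t) = Bc t + k
      ring
    have h2 := Dm_per hW t (t + Q) (Bc t) (Bc t + p) 0 k
    rw [Int.cast_zero, zero_mul, add_zero, add_zero] at h2
    have e2 : Bc t + (k : ℝ) + p = Bc t + p + k := by ring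
    rw [e1, e2, h2] at h1
    have h3 := hbar t
    have h4 : (j : ℝ) * (EpQ W p Q - r ^ 2 / 2 * Q) =
        EpQ W p Q + ((j : ℝ) - 1) * EpQ W p Q - j * (r ^ 2 / 2 * Q) := by ring
    rw [h4]
    linarith

end Pool.Agent.H33.AN

end

section

/-!
# Module G8: closed curves of type `(p, Q)`, potentials of period one in time

* `Ep_le`: for the base time `0` by definition (bounded below by `Dm_lower`). A closed curve with base
  time `s` (take a minimiser, `Dm_exists`), extended by `x (t + Q) = x t + p`, is a closed curve with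
  base time `0` (cut it at a multiple of `Q`, or rather: `s = j Q + s'`, `0 ≤ s' < Q`, translate by
  `Dm_per`, cut `[s', s' + Q]` at `Q`, move the second piece by `-Q`, `-p` and put it first).
* `Ep_attained`: `x ↦ Dm W 0 Q x (x + p)` is continuous and 1-periodic, so it attains its minimum; move
  the minimiser to the base time `s` as before.
* `Ep_mark`: let `t ∈ [s, s + j Q]` be the marked time; move the base time of the closed curve (of type
  `(j p, j Q)`) to `t` and cut it into `j` pieces: with `D x y = Dm W t (t + Q) x (y + p)` (Monge) and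
  `x i = ξ(t + i Q) - i p`, `x j = x 0`: `A1 ≥ ∑ D (x i) (x (i + 1)) ≥ ∑ D (x i) (x i)` (`cyc`)
  `≥ D (x 0) (x 0) + (j - 1) EpQ W p Q`.
* `Ep_mul`: `≥` from `Ep_mark`, `≤` by repeating a curve.
* `F_cont`: let `(t, x)`, `(t', x')` be close; a minimiser `ξ` for `(t', x')` (closed curve) passes at the time
  `t` through `ξ t`, `|ξ t - x'| ≤ C |t - t'|` (velocity bounded by `ext_vbound`), so
  `F(t, ξ t) ≤ F(t', x')` (moving the base time), and `F(t, ·)` is Lipschitz (`Dm_lip`).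
-/

set_option autoImplicit false

open MeasureTheory
open scoped RealInnerProductSpace

namespace Pool.Agent.H33.AN

variable {B : ℝ} {W W₁ W₂ : ℝ → ℝ → ℝ} {p : ℤ} {Q : ℕ}

private theorem g8c_split (hW : HW 1 W W₁ W₂ B) {γ v : ℝ → ℝ} (h : Ext W₁ γ v) (a b c : ℝ) :
    A1 W a b γ v + A1 W b c γ v = A1 W a c γ v := by
  have hγ : Continuous γ := continuous_iff_continuousAt.mpr fun t => (h.der t).continuousAt
  have hv : Continuous v := continuous_iff_continuousAt.mpr fun t => (h.el t).continuousAt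
  have hWc : Continuous fun z : ℝ × ℝ => W z.1 z.2 :=
    continuous_iff_continuousAt.mpr fun z => (hW.der z.1 z.2).continuousAt
  have hc : Continuous fun t => v t ^ 2 / 2 - W (γ t) t := by
    have h1 := hWc.comp (hγ.prodMk continuous_id)
    exact ((hv.pow 2).div_const 2).sub h1
  exact intervalIntegral.integral_add_adjacent_intervals (hc.intervalIntegrable _ _)
    (hc.intervalIntegrable _ _)

private theorem g8c_le (hW : HW 1 W W₁ W₂ B) {γ v : ℝ → ℝ} (h : Ext W₁ γ v) {a b : ℝ}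
    (hab : a ≤ b) : Dm W a b (γ a) (γ b) ≤ A1 W a b γ v := by
  obtain ⟨u, hu, hue⟩ := Cur.of_ext h hab
  refine (Dm_le hW hu).trans (le_of_eq ?_)
  unfold A1
  apply intervalIntegral.integral_congr
  intro t ht
  rw [Set.uIcc_of_le hab] at ht
  simp only [hue t ht]

/-- periodicity -/
private theorem g8c_per (hW : HW 1 W W₁ W₂ B) (s t x y : ℝ) (Q : ℕ) (p : ℤ) :
    Dm W (s + Q) (t + Q) (x + p) (y + p) = Dm W s t x y := by
  have h := Dm_per hW s t x y (Q : ℤ) p
  simpa using h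

/-- moving the base time forward -/
private theorem g8c_rot (hW : HW 1 W W₁ W₂ B) {γ v : ℝ → ℝ} (h : Ext W₁ γ v) {t' t x : ℝ}
    (h1 : t' < t) (h2 : t < t' + Q) (hx : γ t' = x) (hy : γ (t' + Q) = x + p)
    (hA : A1 W t' (t' + Q) γ v = Dm W t' (t' + Q) x (x + p)) :
    Dm W t (t + Q) (γ t) (γ t + p) ≤ Dm W t' (t' + Q) x (x + p) := by
  rw [← hA, ← g8c_split hW h t' t (t' + Q)]
  have e1 := g8c_le hW h h1.le
  have e2 := g8c_le hW h h2.le
  have e3 := Dm_triangle hW h2 (show t' + Q < t + Q by linarith) (γ t) (x + p) (γ t + p)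
  have e4 := g8c_per hW t' t x (γ t) Q p
  rw [hx] at e1
  rw [hy] at e2
  linarith

private theorem g8c_speed (hW : HW 1 W W₁ W₂ B) (hQ : 0 < Q) {γ v : ℝ → ℝ} (h : Ext W₁ γ v)
    {t' x : ℝ} (hx : γ t' = x) (hy : γ (t' + Q) = x + p) {a b : ℝ}
    (ha : a ∈ Set.Icc t' (t' + Q)) (hb : b ∈ Set.Icc t' (t' + Q)) :
    |γ b - γ a| ≤ (|(p : ℝ)| + B * Q) * |b - a| := by
  have hQ' : (0 : ℝ) < Q := by exact_mod_cast hQ
  have hQ1 : (1 : ℝ) ≤ Q := by exact_mod_cast hQ
  have key : ∀ t ∈ Set.Icc t' (t' + Q), ‖v t‖ ≤ |(p : ℝ)| + B * Q := by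
    intro t ht
    have hb := ext_vbound hW h (show t' < t' + (Q : ℝ) by linarith) ht
    rw [hx, hy] at hb
    have e1 : (x + (p : ℝ) - x) / (t' + Q - t') = p / Q := by
      rw [add_sub_cancel_left, add_sub_cancel_left]
    have e2 : t' + (Q : ℝ) - t' = Q := by ring
    rw [e1, e2] at hb
    have e3 : |(p : ℝ) / Q| ≤ |(p : ℝ)| := by
      rw [abs_div, abs_of_pos hQ']
      exact div_le_self (abs_nonneg _) hQ1
    have e4 : |v t| ≤ |v t - p / Q| + |(p : ℝ) / Q| := by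
      have := abs_add_le (v t - p / Q) ((p : ℝ) / Q)
      rwa [sub_add_cancel] at this
    rw [Real.norm_eq_abs]
    linarith
  have hconv : Convex ℝ (Set.Icc t' (t' + (Q : ℝ))) := convex_Icc _ _
  have := hconv.norm_image_sub_le_of_norm_hasDerivWithin_le
    (fun t _ => (h.der t).hasDerivWithinAt) key ha hb
  simpa [Real.norm_eq_abs] using this

/-- the curve for the time `t'` gives a point for the time `t` -/
private theorem g8c_move (hW : HW 1 W W₁ W₂ B) (hQ : 0 < Q) {t' t : ℝ} (ht : |t - t'| < Q)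
    (x : ℝ) :
    ∃ y, |y - x| ≤ (|(p : ℝ)| + B * Q) * |t - t'| ∧
      Dm W t (t + Q) y (y + p) ≤ Dm W t' (t' + Q) x (x + p) := by
  have hQ' : (0 : ℝ) < Q := by exact_mod_cast hQ
  rw [abs_lt] at ht
  obtain ⟨γ, v, h, hx, hy, hA⟩ := Dm_exists hW (show t' < t' + (Q : ℝ) by linarith) x (x + p)
  rcases lt_trichotomy t t' with hlt | heq | hgt
  · refine ⟨γ (t + Q) - p, ?_, ?_⟩
    · have e := g8c_speed (p := p) hW hQ h hx hy (a := t' + Q) (b := t + Q)
        ⟨by linarith, le_rfl⟩ ⟨by linarith, by linarith⟩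
      rw [hy] at e
      have e1 : γ (t + Q) - p - x = γ (t + Q) - (x + p) := by ring
      have e2 : t + (Q : ℝ) - (t' + Q) = t - t' := by ring
      rw [e2] at e
      rw [e1]
      exact e
    · have e := g8c_rot hW h (t := t + Q) (by linarith) (by linarith) hx hy hA
      have e1 := g8c_per hW t (t + Q) (γ (t + Q) - p) (γ (t + Q) - p + p) Q p
      rw [sub_add_cancel] at e1
      rw [sub_add_cancel, ← e1]
      exact e
  · subst heq
    refine ⟨x, by simp, le_rfl⟩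
  · refine ⟨γ t, ?_, ?_⟩
    · have e := g8c_speed (p := p) hW hQ h hx hy (a := t') (b := t)
        ⟨le_rfl, by linarith⟩ ⟨by linarith, by linarith⟩
      rw [hx] at e
      exact e
    · exact g8c_rot hW h hgt (by linarith) hx hy hA

theorem F_cont (hW : HW 1 W W₁ W₂ B) (hQ : 0 < Q) :
    Continuous fun z : ℝ × ℝ => Dm W z.1 (z.1 + Q) z.2 (z.2 + p) := by
  have hQ' : (0 : ℝ) < Q := by exact_mod_cast hQ
  obtain ⟨C, hC0, hC⟩ := Dm_lip hW hQ'
  set R : ℝ := |(p : ℝ)| + B * Q with hR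
  have hR0 : 0 ≤ R := by
    have := mul_nonneg hW.nonneg hQ'.le
    have := abs_nonneg (p : ℝ)
    linarith
  -- Lipschitz in the space variable
  have hx : ∀ t x x', |Dm W t (t + Q) x (x + p) - Dm W t (t + Q) x' (x' + p)| ≤
      C * (1 + |(p : ℝ)| + 2 * |x - x'|) * (2 * |x - x'|) := by
    intro t x x'
    have h := hC t x (x + p) x' (x' + p)
    have e1 : x + (p : ℝ) - x = p := by ring
    have e2 : x + (p : ℝ) - (x' + p) = x - x' := by ring
    rw [e1, e2] at h
    refine h.trans (le_of_eq ?_)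
    ring
  have hmono : ∀ a b : ℝ, 0 ≤ a → a ≤ b → C * (1 + |(p : ℝ)| + 2 * a) * (2 * a) ≤
      C * (1 + |(p : ℝ)| + 2 * b) * (2 * b) := by
    intro a b ha hab
    have hp := abs_nonneg (p : ℝ)
    have h1 : 1 + |(p : ℝ)| + 2 * a ≤ 1 + |(p : ℝ)| + 2 * b := by linarith
    have h2 : C * (1 + |(p : ℝ)| + 2 * a) ≤ C * (1 + |(p : ℝ)| + 2 * b) :=
      mul_le_mul_of_nonneg_left h1 hC0
    have h3 : 0 ≤ C * (1 + |(p : ℝ)| + 2 * b) := mul_nonneg hC0 (by linarith)
    exact mul_le_mul h2 (by linarith) (by linarith) h3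
  -- one-sided estimate in the time variable
  have hone : ∀ t t' x : ℝ, |t - t'| < (Q : ℝ) → Dm W t (t + Q) x (x + p) ≤ Dm W t' (t' + Q) x (x + p) +
      C * (1 + |(p : ℝ)| + 2 * (R * |t - t'|)) * (2 * (R * |t - t'|)) := by
    intro t t' x ht
    obtain ⟨y, hy1, hy2⟩ := g8c_move (p := p) hW hQ ht x
    have h1 := hx t x y
    have h2 := hmono |x - y| (R * |t - t'|) (abs_nonneg _) (by rw [abs_sub_comm]; exact hy1)
    have h3 := le_abs_self (Dm W t (t + Q) x (x + p) - Dm W t (t + Q) y (y + p))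
    linarith
  have htime : ∀ t t' x : ℝ, |t - t'| < (Q : ℝ) →
      |Dm W t (t + Q) x (x + p) - Dm W t' (t' + Q) x (x + p)| ≤
        C * (1 + |(p : ℝ)| + 2 * (R * |t - t'|)) * (2 * (R * |t - t'|)) := by
    intro t t' x ht
    have h1 := hone t t' x ht
    have h2 := hone t' t x (by rw [abs_sub_comm]; exact ht)
    rw [abs_sub_comm t' t] at h2
    rw [abs_le]
    constructor <;> linarith
  rw [continuous_iff_continuousAt]
  rintro ⟨t₀, x₀⟩
  rw [ContinuousAt, tendsto_iff_norm_sub_tendsto_zero]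
  have hg : Continuous fun z : ℝ × ℝ =>
      C * (1 + |(p : ℝ)| + 2 * |z.2 - x₀|) * (2 * |z.2 - x₀|) +
        C * (1 + |(p : ℝ)| + 2 * (R * |z.1 - t₀|)) * (2 * (R * |z.1 - t₀|)) := by
    fun_prop
  have hg0 := hg.tendsto (t₀, x₀)
  simp only [sub_self, abs_zero, mul_zero, add_zero] at hg0
  refine squeeze_zero' (Filter.Eventually.of_forall fun _ => norm_nonneg _) ?_ hg0
  have hnear : ∀ᶠ z : ℝ × ℝ in nhds (t₀, x₀), |z.1 - t₀| < Q := by
    have hc : Continuous fun z : ℝ × ℝ => |z.1 - t₀| := by fun_prop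
    have := hc.tendsto (t₀, x₀)
    simp only [sub_self, abs_zero] at this
    exact this.eventually (gt_mem_nhds hQ')
  filter_upwards [hnear] with z hz
  have h1 := hx z.1 z.2 x₀
  have h2 := htime z.1 t₀ x₀ hz
  rw [Real.norm_eq_abs]
  calc |Dm W z.1 (z.1 + Q) z.2 (z.2 + p) - Dm W t₀ (t₀ + Q) x₀ (x₀ + p)|
      = |(Dm W z.1 (z.1 + Q) z.2 (z.2 + p) - Dm W z.1 (z.1 + Q) x₀ (x₀ + p)) +
          (Dm W z.1 (z.1 + Q) x₀ (x₀ + p) - Dm W t₀ (t₀ + Q) x₀ (x₀ + p))| := by
        congr 1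
        ring
    _ ≤ _ := (abs_add_le _ _).trans (add_le_add h1 h2)

end Pool.Agent.H33.AN

end

section

/-!
# Module G10: foliation or barrier

If `Dm W s₀ (s₀ + Q) x₀ (x₀ + p) ≠ EpQ W p Q` for some `(s₀, x₀)`, let `Z = {x | Dm W s₀ (s₀ + Q) x (x + p) =
EpQ W p Q}`: closed (`F_cont`), 1-periodic (`Dm_per`), not empty (`Ep_attained`), `x₀ ∉ Z`. Let
`xa = sSup (Z ∩ Iic x₀)`, `xc = sInf (Z ∩ Ici x₀)`, `xa < x₀ < xc`; `γa`, `γc` the leaves through `(s₀, xa)`,
`(s₀, xc)` (`leaf_exists`); `γa < γc` everywhere (`leaf_order`). `Bc = (γa + γc)/2` is continuous and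
`Bc (t + Q) = Bc t + p`. If `Dm W t (t + Q) (Bc t) (Bc t + p) = EpQ W p Q` for some `t`, the leaf through
`(t, Bc t)` lies strictly between `γa` and `γc` (`leaf_order`), so its position at `s₀` belongs to `Z`
(`leaf_zero`) and lies strictly between `xa` and `xc`: contradiction. So `F(t, Bc t) > EpQ` for all `t`;
it is continuous (`F_cont`) and `Q`-periodic (`Dm_per`), so `≥ EpQ + μ`.
-/

set_option autoImplicit false

open MeasureTheory
open scoped RealInnerProductSpace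

namespace Pool.Agent.H33.AN

variable {B : ℝ} {W W₁ W₂ : ℝ → ℝ → ℝ} {p : ℤ} {Q : ℕ}

theorem fol_or_barrier (hW : HW 1 W W₁ W₂ B) (hQ : 0 < Q)
    (h : ∃ s x, Dm W s (s + Q) x (x + p) ≠ EpQ W p Q) :
    ∃ (Bc : ℝ → ℝ) (μ : ℝ), Continuous Bc ∧ (∀ t, Bc (t + Q) = Bc t + p) ∧ 0 < μ ∧
      ∀ t, EpQ W p Q + μ ≤ Dm W t (t + Q) (Bc t) (Bc t + p) := by
  obtain ⟨s₀, x₀, hx₀⟩ := h
  have hF := F_cont (p := p) hW hQ
  have hQ' : (0 : ℝ) < Q := by exact_mod_cast hQ
  -- the set of the positions on leaves at time `s₀`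
  obtain ⟨Z, hZ⟩ : ∃ Z : Set ℝ, Z = {x | Dm W s₀ (s₀ + Q) x (x + p) = EpQ W p Q} := ⟨_, rfl⟩
  have hZm : ∀ x, x ∈ Z ↔ Dm W s₀ (s₀ + Q) x (x + p) = EpQ W p Q := fun x => by
    rw [hZ]
    exact Iff.rfl
  have hZc : IsClosed Z := by
    rw [hZ]
    exact isClosed_eq (hF.comp (continuous_const.prodMk continuous_id)) continuous_const
  have hZp : ∀ x ∈ Z, ∀ k : ℤ, x + k ∈ Z := by
    intro x hx k
    rw [hZm] at hx ⊢
    have h1 := Dm_per hW s₀ (s₀ + Q) x (x + p) 0 k
    have e1 : s₀ + ((0 : ℤ) : ℝ) * 1 = s₀ := by simp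
    have e2 : s₀ + Q + ((0 : ℤ) : ℝ) * 1 = s₀ + Q := by simp
    have e3 : x + k + p = x + p + k := by ring
    rw [e1, e2] at h1
    rw [e3, h1]
    exact hx
  have hx₀Z : x₀ ∉ Z := fun h1 => hx₀ ((hZm x₀).1 h1)
  obtain ⟨z, hz⟩ := Ep_attained (p := p) hW hQ s₀
  rw [← hZm] at hz
  have hfl1 := Int.floor_le (x₀ - z)
  have hfl2 := Int.lt_floor_add_one (x₀ - z)
  have hne1 : (Z ∩ Set.Iic x₀).Nonempty :=
    ⟨z + (⌊x₀ - z⌋ : ℤ), hZp z hz _, by
      rw [Set.mem_Iic]
      linarith⟩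
  have hne2 : (Z ∩ Set.Ici x₀).Nonempty :=
    ⟨z + ((⌊x₀ - z⌋ + 1 : ℤ) : ℝ), hZp z hz _, by
      rw [Set.mem_Ici]
      push_cast
      linarith⟩
  have hbd1 : BddAbove (Z ∩ Set.Iic x₀) := ⟨x₀, fun y hy => hy.2⟩
  have hbd2 : BddBelow (Z ∩ Set.Ici x₀) := ⟨x₀, fun y hy => hy.2⟩
  have hxa := (hZc.inter isClosed_Iic).csSup_mem hne1 hbd1
  have hxc := (hZc.inter isClosed_Ici).csInf_mem hne2 hbd2
  have hmid : ∀ y ∈ Z, ¬ (sSup (Z ∩ Set.Iic x₀) < y ∧ y < sInf (Z ∩ Set.Ici x₀)) := by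
    rintro y hy ⟨h1, h2⟩
    rcases le_total y x₀ with h3 | h3
    · exact absurd (le_csSup hbd1 ⟨hy, h3⟩) (not_le.2 h1)
    · exact absurd (csInf_le hbd2 ⟨hy, h3⟩) (not_le.2 h2)
  obtain ⟨xa, hxa'⟩ : ∃ xa, xa = sSup (Z ∩ Set.Iic x₀) := ⟨_, rfl⟩
  obtain ⟨xc, hxc'⟩ : ∃ xc, xc = sInf (Z ∩ Set.Ici x₀) := ⟨_, rfl⟩
  rw [← hxa'] at hxa hmid
  rw [← hxc'] at hxc hmid
  have hac : xa < xc := by
    have h1 : xa ≤ x₀ := hxa.2
    have h2 : x₀ ≤ xc := hxc.2
    rcases lt_or_eq_of_le h1 with h3 | h3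
    · linarith
    · exact absurd (h3 ▸ hxa.1) hx₀Z
  obtain ⟨γa, va, hla, hga⟩ := leaf_exists hW hQ ((hZm xa).1 hxa.1)
  obtain ⟨γc, vc, hlc, hgc⟩ := leaf_exists hW hQ ((hZm xc).1 hxc.1)
  have hord : ∀ t, γa t < γc t := leaf_order hW hQ hla hlc (s := s₀) (by rw [hga, hgc]; exact hac)
  obtain ⟨Bc, hBc⟩ : ∃ Bc : ℝ → ℝ, Bc = fun t => (γa t + γc t) / 2 := ⟨_, rfl⟩
  have hcont : Continuous Bc := by
    have h1 : Continuous γa := continuous_iff_continuousAt.2 fun t => (hla.ext.der t).continuousAt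
    have h2 : Continuous γc := continuous_iff_continuousAt.2 fun t => (hlc.ext.der t).continuousAt
    rw [hBc]
    exact (h1.add h2).div_const 2
  have hper : ∀ t, Bc (t + Q) = Bc t + p := by
    intro t
    rw [hBc]
    simp only
    rw [hla.per, hlc.per]
    ring
  have hlt : ∀ t, EpQ W p Q < Dm W t (t + Q) (Bc t) (Bc t + p) := by
    intro t
    refine lt_of_le_of_ne (Ep_le hW hQ t (Bc t)) fun heq => ?_
    obtain ⟨γ, v, hl, hg⟩ := leaf_exists hW hQ heq.symm
    have h0 := hord t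
    have hBt : Bc t = (γa t + γc t) / 2 := by rw [hBc]
    have h1 : γa s₀ < γ s₀ := leaf_order hW hQ hla hl (s := t) (by rw [hg, hBt]; linarith) s₀
    have h2 : γ s₀ < γc s₀ := leaf_order hW hQ hl hlc (s := t) (by rw [hg, hBt]; linarith) s₀
    rw [hga] at h1
    rw [hgc] at h2
    exact hmid (γ s₀) ((hZm _).2 (leaf_zero hW hQ hl s₀)) ⟨h1, h2⟩
  have hG : Continuous fun t => Dm W t (t + Q) (Bc t) (Bc t + p) :=
    hF.comp (continuous_id.prodMk hcont)
  have hGp : Function.Periodic (fun t => Dm W t (t + Q) (Bc t) (Bc t + p)) (Q : ℝ) := by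
    intro t
    simp only
    rw [hper]
    have h1 := Dm_per hW t (t + Q) (Bc t) (Bc t + p) (Q : ℤ) p
    have e1 : (((Q : ℤ) : ℝ)) * 1 = Q := by simp
    rw [e1] at h1
    exact h1
  obtain ⟨t₁, ht₁, hmin⟩ := isCompact_Icc.exists_isMinOn (Set.nonempty_Icc.2 hQ'.le)
    (hG.continuousOn (s := Set.Icc 0 (Q : ℝ)))
  refine ⟨Bc, Dm W t₁ (t₁ + Q) (Bc t₁) (Bc t₁ + p) - EpQ W p Q, hcont, hper, by linarith [hlt t₁],
    fun t => ?_⟩
  obtain ⟨t', ht', he⟩ := hGp.exists_mem_Ico₀ hQ' t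
  have h1 := hmin (Set.mem_Icc.2 ⟨ht'.1, ht'.2.le⟩)
  simp only [Set.mem_ofPred_eq] at h1 he
  rw [he]
  linarith

end Pool.Agent.H33.AN

end

section

/-!
# Module J5: the invariant graphs depend continuously on the rotation number

* `kam_close`: let `γ`, `ν` be the leaf of type `(p, Q)` through `(x, t)`, `m = j Q`, `ρ = p/Q`, `ρ' = p'/Q'`,
  `|ρ - ρ'| ≤ 2/m²`. Along `γ`: `(d/ds) u'(γ, s) = (v' - c') ν + α' - v'²/2 - W` (`v' = v'(γ s, s)`), and
  `u'` takes the same value at the times `t`, `t + m`, so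
  `∫_t^{t+m} (ν - v')²/2 = A1 W t (t + m) γ ν - c' j p + α' m = m (b(ρ) - b(ρ') - c' (ρ - ρ'))`
  `≤ m (c - c') (ρ - ρ') ≤ 4 Λ/m` (`crit` for `(p, Q)`, `b = EpQ/Q`; `|c|, |c'| ≤ Λ` by `kam_mean`).
  The function `g = |ν - v'(γ, ·)|` is Lipschitz with the constant `L = B + Λ (Λ + 1) + 2 Λ + 1` and
  `g(t) = η ≤ 2 Λ`, so `g ≥ η/2` on `[t, t + η/(2 L)]`, `η/(2 L) ≤ 1 ≤ m`, and `η³/(16 L) ≤ 4 Λ/m`.
* `kam_unif`: let `N` be large, `η = 1/N²`. Dirichlet (`Real.exists_int_int_abs_mul_sub_le` or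
  `Real.exists_rat_abs_sub_le_and_den_le`): there are `a`, `1 ≤ q ≤ N`, `|ρ - a/q| ≤ 1/(q (N + 1))`.
  Let `j ≥ 1` be the largest integer with `j² q ≤ N`, `m = j q`: `m² ≤ q N ≤ N²`,
  `m ≥ √(N q)/2 ≥ √N/2`; so `|ρ - a/q| ≤ 1/m²`, `|ρ' - a/q| ≤ 2/m²`, and `kam_close` (with the graph of
  type `(a, q)` and `j`) gives `|v - v_{a/q}|³ ≤ C/m`, `|v' - v_{a/q}|³ ≤ C/m`.
-/

set_option autoImplicit false

open MeasureTheory
open scoped RealInnerProductSpace

namespace Pool.Agent.H33.AN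

variable {B : ℝ} {W W₁ W₂ : ℝ → ℝ → ℝ}

private theorem J5a_per {p : ℤ} {Q : ℕ} {γ ν : ℝ → ℝ} (hl : Leaf W W₁ p Q γ ν) (s : ℝ) :
    ∀ j : ℕ, γ (s + (j : ℝ) * Q) = γ s + (j : ℝ) * p := by
  intro j
  induction j with
  | zero => simp
  | succ j ih =>
    have h1 : s + ((j + 1 : ℕ) : ℝ) * Q = (s + (j : ℝ) * Q) + Q := by
      push_cast
      ring
    rw [h1, hl.per, ih]
    push_cast
    ring

private theorem J5a_Wc (hW : HW 1 W W₁ W₂ B) : Continuous fun z : ℝ × ℝ => W z.1 z.2 :=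
  continuous_iff_continuousAt.2 fun z => (hW.der z.1 z.2).continuousAt

private theorem J5a_act (hW : HW 1 W W₁ W₂ B) {p : ℤ} {Q : ℕ} {γ ν : ℝ → ℝ}
    (hl : Leaf W W₁ p Q γ ν) (t : ℝ) :
    ∀ j : ℕ, A1 W t (t + (j : ℝ) * Q) γ ν = (j : ℝ) * EpQ W p Q := by
  have hγ : Continuous γ := continuous_iff_continuousAt.2 fun s => (hl.ext.der s).continuousAt
  have hν : Continuous ν := continuous_iff_continuousAt.2 fun s => (hl.ext.el s).continuousAt
  have hc : Continuous fun s => ν s ^ 2 / 2 - W (γ s) s :=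
    ((hν.pow 2).div_const 2).sub ((J5a_Wc hW).comp (hγ.prodMk continuous_id))
  intro j
  induction j with
  | zero => simp [A1]
  | succ j ih =>
    have h1 : t + ((j + 1 : ℕ) : ℝ) * Q = (t + (j : ℝ) * Q) + Q := by
      push_cast
      ring
    have h2 := hl.act (t + (j : ℝ) * Q)
    unfold A1 at ih h2 ⊢
    rw [h1, ← intervalIntegral.integral_add_adjacent_intervals
      (hc.intervalIntegrable t (t + (j : ℝ) * Q))
      (hc.intervalIntegrable (t + (j : ℝ) * Q) (t + (j : ℝ) * Q + Q)), ih, h2]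
    push_cast
    ring

private theorem J5a_c {p : ℤ} {Q : ℕ} {c α Λ : ℝ} {u v : ℝ → ℝ → ℝ}
    (h : Kam W W₁ p Q c α u v Λ) : |c| ≤ Λ := by
  rw [← kam_mean h 0]
  have h1 := intervalIntegral.norm_integral_le_of_norm_le_const (a := (0 : ℝ)) (b := 1) (C := Λ)
    (f := fun x => v x 0) (fun x _ => h.vbd x 0)
  simpa using h1

private theorem J5a_uper {p' : ℤ} {Q' : ℕ} {c' α' Λ : ℝ} {u' v' : ℝ → ℝ → ℝ}
    (h' : Kam W W₁ p' Q' c' α' u' v' Λ) (x t : ℝ) (k : ℤ) (n : ℕ) :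
    u' (x + k) (t + n) = u' x t := by
  have h1 : ∀ y s : ℝ, u' (y + k) s = u' y s := by
    intro y s
    have hp : Function.Periodic (fun z => u' z s) 1 := fun z => h'.per₁ z s
    have := hp.int_mul k y
    simpa using this
  have h2 : ∀ y s : ℝ, u' y (s + n) = u' y s := by
    intro y s
    have hp : Function.Periodic (fun z => u' y z) 1 := fun z => h'.per₂ y z
    have := hp.nat_mul n s
    simpa using this
  rw [h1, h2]

theorem kam_close (hW : HW 1 W W₁ W₂ B) (Λ : ℝ) :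
    ∃ C : ℝ, 0 ≤ C ∧ ∀ (p p' : ℤ) (Q Q' j : ℕ) (c α c' α' : ℝ) (u v u' v' : ℝ → ℝ → ℝ),
      0 < Q → 0 < Q' → 0 < j → Kam W W₁ p Q c α u v Λ → Kam W W₁ p' Q' c' α' u' v' Λ →
      |(p : ℝ) / Q - (p' : ℝ) / Q'| ≤ 2 / ((j : ℝ) * Q) ^ 2 →
      ∀ x t, |v x t - v' x t| ^ 3 ≤ C / ((j : ℝ) * Q) := by
  have hB := hW.nonneg
  refine ⟨64 * (B + |Λ| * (|Λ| + 1) + 2 * |Λ| + 1) * |Λ|, by positivity, ?_⟩
  intro p p' Q Q' j c α c' α' u v u' v' hQ hQ' hj h h' hρ x t
  have hΛ : 0 ≤ Λ := (abs_nonneg _).trans (h.vbd 0 0)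
  rw [abs_of_nonneg hΛ]
  obtain ⟨L, hL⟩ : ∃ L : ℝ, L = B + Λ * (Λ + 1) + 2 * Λ + 1 := ⟨_, rfl⟩
  have hL1 : 1 ≤ L := by
    rw [hL]
    nlinarith [mul_nonneg hΛ hΛ]
  have hL2 : 2 * Λ ≤ L := by
    rw [hL]
    nlinarith [mul_nonneg hΛ hΛ]
  rw [← hL]
  obtain ⟨m, hm⟩ : ∃ m : ℝ, m = (j : ℝ) * Q := ⟨_, rfl⟩
  have hm1 : 1 ≤ m := by
    have h1 : 1 ≤ j * Q := Nat.mul_pos hj hQ
    rw [hm]
    exact_mod_cast h1
  have hm0 : 0 < m := by linarith
  rw [← hm] at hρ ⊢
  obtain ⟨γ, ν, hl, hγt, hνv⟩ := h.leaf x t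
  have hγ : Continuous γ := continuous_iff_continuousAt.2 fun s => (hl.ext.der s).continuousAt
  have hν : Continuous ν := continuous_iff_continuousAt.2 fun s => (hl.ext.el s).continuousAt
  have hνb : ∀ s, |ν s| ≤ Λ := fun s => by rw [hνv]; exact h.vbd _ _
  -- Lipschitz bounds
  have hγL : ∀ s s', |γ s - γ s'| ≤ Λ * |s - s'| := by
    intro s s'
    have := Convex.norm_image_sub_le_of_norm_hasDerivWithin_le (f := γ) (f' := ν) (C := Λ)
      (s := Set.univ) (x := s') (y := s) (fun z _ => (hl.ext.der z).hasDerivWithinAt)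
      (fun z _ => hνb z) convex_univ (Set.mem_univ _) (Set.mem_univ _)
    simpa using this
  have hνL : ∀ s s', |ν s - ν s'| ≤ B * |s - s'| := by
    intro s s'
    have := Convex.norm_image_sub_le_of_norm_hasDerivWithin_le (f := ν)
      (f' := fun z => -W₁ (γ z) z) (C := B)
      (s := Set.univ) (x := s') (y := s) (fun z _ => (hl.ext.el z).hasDerivWithinAt)
      (fun z _ => by
        show |-W₁ (γ z) z| ≤ B
        rw [abs_neg]
        exact hW.bd₁ _ _) convex_univ (Set.mem_univ _) (Set.mem_univ _)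
    simpa using this
  obtain ⟨w, hw⟩ : ∃ w : ℝ → ℝ, ∀ s, w s = v' (γ s) s := ⟨_, fun _ => rfl⟩
  have hwL : ∀ s s', |w s - w s'| ≤ Λ * (Λ + 1) * |s - s'| := by
    intro s s'
    rw [hw, hw]
    refine (h'.lip _ _ _ _).trans ?_
    have := hγL s s'
    calc Λ * (|γ s - γ s'| + |s - s'|) ≤ Λ * (Λ * |s - s'| + |s - s'|) :=
          mul_le_mul_of_nonneg_left (by linarith) hΛ
      _ = Λ * (Λ + 1) * |s - s'| := by ring
  have hwc : Continuous w := by
    have : LipschitzWith (Real.toNNReal (Λ * (Λ + 1))) w :=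
      LipschitzWith.of_dist_le' fun s s' => by
        rw [Real.dist_eq, Real.dist_eq]
        exact hwL s s'
    exact this.continuous
  have hwb : ∀ s, |w s| ≤ Λ := fun s => by rw [hw]; exact h'.vbd _ _
  have hWγ : Continuous fun s => W (γ s) s := (J5a_Wc hW).comp (hγ.prodMk continuous_id)
  -- the derivative of u' along the leaf
  have hφ : ∀ s, HasDerivAt (fun s => u' (γ s) s)
      ((w s - c') * ν s + (α' - w s ^ 2 / 2 - W (γ s) s)) s := by
    intro s
    have h1 := h'.fder (γ s) s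
    have h2 : HasDerivAt (fun s => (γ s, s)) (ν s, (1 : ℝ)) s := (hl.ext.der s).prodMk (hasDerivAt_id s)
    have h3 := HasFDerivAt.comp_hasDerivAt (x := s) (f := fun s => (γ s, s))
      (l := fun z : ℝ × ℝ => u' z.1 z.2) h1 h2
    have h4 : ((v' (γ s) s - c') • ContinuousLinearMap.fst ℝ ℝ ℝ +
        (α' - v' (γ s) s ^ 2 / 2 - W (γ s) s) • ContinuousLinearMap.snd ℝ ℝ ℝ) (ν s, (1 : ℝ)) =
        (w s - c') * ν s + (α' - w s ^ 2 / 2 - W (γ s) s) := by
      rw [hw]
      simp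
    rw [h4] at h3
    exact h3
  have hφc : Continuous fun s => (w s - c') * ν s + (α' - w s ^ 2 / 2 - W (γ s) s) :=
    ((hwc.sub continuous_const).mul hν).add
      ((continuous_const.sub ((hwc.pow 2).div_const 2)).sub hWγ)
  have hγm : γ (t + m) = γ t + (j : ℝ) * p := by
    rw [hm]
    exact J5a_per hl t j
  have i1 : ∫ s in t..(t + m), ((w s - c') * ν s + (α' - w s ^ 2 / 2 - W (γ s) s)) = 0 := by
    rw [intervalIntegral.integral_eq_sub_of_hasDerivAt (fun s _ => hφ s)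
      (hφc.intervalIntegrable _ _)]
    have h1 := J5a_uper h' (γ t) t (j * p) (j * Q)
    push_cast at h1
    rw [hγm, hm, h1, sub_self]
  have i2 : ∫ s in t..(t + m), ν s = (j : ℝ) * p := by
    rw [intervalIntegral.integral_eq_sub_of_hasDerivAt (fun s _ => hl.ext.der s)
      (hν.intervalIntegrable _ _), hγm]
    ring
  have i3 : ∫ s in t..(t + m), (ν s ^ 2 / 2 - W (γ s) s) = (j : ℝ) * EpQ W p Q := by
    have := J5a_act hW hl t j
    rw [← hm] at this
    exact this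
  have hAc : Continuous fun s => ν s ^ 2 / 2 - W (γ s) s := ((hν.pow 2).div_const 2).sub hWγ
  have i4 : ∫ s in t..(t + m), (ν s - w s) ^ 2 / 2 =
      (j : ℝ) * EpQ W p Q - c' * ((j : ℝ) * p) + α' * m := by
    have h1 : ∀ s, (ν s - w s) ^ 2 / 2 = (ν s ^ 2 / 2 - W (γ s) s) -
        ((w s - c') * ν s + (α' - w s ^ 2 / 2 - W (γ s) s)) - c' * ν s + α' := by
      intro s
      ring
    rw [intervalIntegral.integral_congr (g := fun s => (ν s ^ 2 / 2 - W (γ s) s) -
        ((w s - c') * ν s + (α' - w s ^ 2 / 2 - W (γ s) s)) - c' * ν s + α') (fun s _ => h1 s)]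
    rw [intervalIntegral.integral_add, intervalIntegral.integral_sub,
      intervalIntegral.integral_sub, i1, i3, intervalIntegral.integral_const_mul, i2,
      intervalIntegral.integral_const]
    · simp only [smul_eq_mul]
      ring
    · exact hAc.intervalIntegrable _ _
    · exact hφc.intervalIntegrable _ _
    · exact (hAc.sub hφc).intervalIntegrable _ _
    · exact (continuous_const.mul hν).intervalIntegrable _ _
    · exact ((hAc.sub hφc).sub (continuous_const.mul hν)).intervalIntegrable _ _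
    · exact continuous_const.intervalIntegrable _ _
  -- upper bound
  have hQr : (0 : ℝ) < Q := by exact_mod_cast hQ
  have hQr' : (0 : ℝ) < Q' := by exact_mod_cast hQ'
  have hcr := h.crit p' Q' hQ'
  have i5 : ∫ s in t..(t + m), (ν s - w s) ^ 2 / 2 ≤ 4 * Λ / m := by
    rw [i4, h'.alpha]
    have e1 : (j : ℝ) * EpQ W p Q - c' * ((j : ℝ) * p) +
        (c' * ((p' : ℝ) / Q') - EpQ W p' Q' / Q') * m =
        m * (EpQ W p Q / Q - EpQ W p' Q' / Q' - c' * ((p : ℝ) / Q - (p' : ℝ) / Q')) := by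
      rw [hm]
      field_simp
      ring
    rw [e1]
    have e2 : EpQ W p Q / Q - EpQ W p' Q' / Q' - c' * ((p : ℝ) / Q - (p' : ℝ) / Q') ≤
        (c - c') * ((p : ℝ) / Q - (p' : ℝ) / Q') := by
      have : c * ((p' : ℝ) / Q' - (p : ℝ) / Q) = -(c * ((p : ℝ) / Q - (p' : ℝ) / Q')) := by ring
      rw [this] at hcr
      linarith
    have e3 : (c - c') * ((p : ℝ) / Q - (p' : ℝ) / Q') ≤ (2 * Λ) * (2 / m ^ 2) := by
      refine (le_abs_self _).trans ?_
      rw [abs_mul]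
      refine mul_le_mul ?_ hρ (abs_nonneg _) (by positivity)
      have h1 := J5a_c h
      have h2 := J5a_c h'
      calc |c - c'| ≤ |c| + |c'| := abs_sub _ _
        _ ≤ 2 * Λ := by linarith
    calc m * (EpQ W p Q / Q - EpQ W p' Q' / Q' - c' * ((p : ℝ) / Q - (p' : ℝ) / Q')) ≤
        m * ((2 * Λ) * (2 / m ^ 2)) := mul_le_mul_of_nonneg_left (e2.trans e3) hm0.le
      _ = 4 * Λ / m := by
        field_simp
        ring
  -- lower bound
  obtain ⟨η, hη⟩ : ∃ η : ℝ, η = |v x t - v' x t| := ⟨_, rfl⟩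
  rw [← hη]
  have hη0 : 0 ≤ η := by rw [hη]; exact abs_nonneg _
  have hη2 : η ≤ 2 * Λ := by
    rw [hη]
    calc |v x t - v' x t| ≤ |v x t| + |v' x t| := abs_sub _ _
      _ ≤ 2 * Λ := by
        have h1 := h.vbd x t
        have h2 := h'.vbd x t
        linarith
  have hηt : |ν t - w t| = η := by rw [hνv, hw, hγt, hη]
  obtain ⟨δ, hδ⟩ : ∃ δ : ℝ, δ = η / (2 * L) := ⟨_, rfl⟩
  have hδ0 : 0 ≤ δ := by rw [hδ]; positivity
  have hδL : L * δ = η / 2 := by
    rw [hδ]
    field_simp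
  have hδm : δ ≤ m := by
    have h1 : δ ≤ 1 := by
      rw [hδ, div_le_one (by positivity)]
      linarith
    linarith
  have hgL : ∀ s ∈ Set.Icc t (t + δ), η / 2 ≤ |ν s - w s| := by
    intro s hs
    have h1 := hνL t s
    have h2 := hwL t s
    have h3 : |t - s| ≤ δ := by
      rw [abs_sub_comm, abs_of_nonneg (by linarith [hs.1])]
      linarith [hs.2]
    have h4 : η ≤ |ν s - w s| + (|ν t - ν s| + |w t - w s|) := by
      rw [← hηt]
      have e : ν t - w t = (ν s - w s) + ((ν t - ν s) - (w t - w s)) := by ring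
      rw [e]
      refine (abs_add_le _ _).trans ?_
      have := abs_sub (ν t - ν s) (w t - w s)
      linarith
    have h5 : |ν t - ν s| + |w t - w s| ≤ L * δ := by
      have h6 : B * |t - s| + Λ * (Λ + 1) * |t - s| ≤ L * |t - s| := by
        rw [← add_mul]
        refine mul_le_mul_of_nonneg_right ?_ (abs_nonneg _)
        rw [hL]
        linarith
      have h7 : L * |t - s| ≤ L * δ := mul_le_mul_of_nonneg_left h3 (by linarith)
      linarith
    rw [hδL] at h5
    linarith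
  have hgc : Continuous fun s => (ν s - w s) ^ 2 / 2 := ((hν.sub hwc).pow 2).div_const 2
  have i6 : δ * ((η / 2) ^ 2 / 2) ≤ ∫ s in t..(t + δ), (ν s - w s) ^ 2 / 2 := by
    have h1 : ∫ _s in t..(t + δ), (η / 2) ^ 2 / 2 ≤ ∫ s in t..(t + δ), (ν s - w s) ^ 2 / 2 := by
      apply intervalIntegral.integral_mono_on (by linarith)
        (continuous_const.intervalIntegrable _ _) (hgc.intervalIntegrable _ _)
      intro s hs
      have h2 := hgL s hs
      have h3 : (η / 2) ^ 2 ≤ |ν s - w s| ^ 2 := pow_le_pow_left₀ (by positivity) h2 2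
      rw [sq_abs] at h3
      linarith
    rw [intervalIntegral.integral_const] at h1
    simpa using h1
  have i7 : ∫ s in t..(t + δ), (ν s - w s) ^ 2 / 2 ≤ ∫ s in t..(t + m), (ν s - w s) ^ 2 / 2 := by
    rw [← intervalIntegral.integral_add_adjacent_intervals (b := t + δ)
      (hgc.intervalIntegrable t (t + δ)) (hgc.intervalIntegrable (t + δ) (t + m))]
    have : 0 ≤ ∫ s in (t + δ)..(t + m), (ν s - w s) ^ 2 / 2 := by
      apply intervalIntegral.integral_nonneg (by linarith)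
      intro s _
      positivity
    linarith
  have i8 : δ * ((η / 2) ^ 2 / 2) ≤ 4 * Λ / m := i6.trans (i7.trans i5)
  have i9 : δ * ((η / 2) ^ 2 / 2) = η ^ 3 / (16 * L) := by
    rw [hδ]
    field_simp
    ring
  rw [i9, div_le_iff₀ (by positivity)] at i8
  calc η ^ 3 ≤ 4 * Λ / m * (16 * L) := i8
    _ = 64 * L * Λ / m := by ring

end Pool.Agent.H33.AN

end

section

/-!
# Module J5: the invariant graphs depend continuously on the rotation number

* `kam_close`: let `γ`, `ν` be the leaf of type `(p, Q)` through `(x, t)`, `m = j Q`, `ρ = p/Q`, `ρ' = p'/Q'`,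
  `|ρ - ρ'| ≤ 2/m²`. Along `γ`: `(d/ds) u'(γ, s) = (v' - c') ν + α' - v'²/2 - W` (`v' = v'(γ s, s)`), and
  `u'` takes the same value at the times `t`, `t + m`, so
  `∫_t^{t+m} (ν - v')²/2 = A1 W t (t + m) γ ν - c' j p + α' m = m (b(ρ) - b(ρ') - c' (ρ - ρ'))`
  `≤ m (c - c') (ρ - ρ') ≤ 4 Λ/m` (`crit` for `(p, Q)`, `b = EpQ/Q`; `|c|, |c'| ≤ Λ` by `kam_mean`).
  The function `g = |ν - v'(γ, ·)|` is Lipschitz with the constant `L = B + Λ (Λ + 1) + 2 Λ + 1` and
  `g(t) = η ≤ 2 Λ`, so `g ≥ η/2` on `[t, t + η/(2 L)]`, `η/(2 L) ≤ 1 ≤ m`, and `η³/(16 L) ≤ 4 Λ/m`.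
* `kam_unif`: let `N` be large, `η = 1/N²`. Dirichlet (`Real.exists_int_int_abs_mul_sub_le` or
  `Real.exists_rat_abs_sub_le_and_den_le`): there are `a`, `1 ≤ q ≤ N`, `|ρ - a/q| ≤ 1/(q (N + 1))`.
  Let `j ≥ 1` be the largest integer with `j² q ≤ N`, `m = j q`: `m² ≤ q N ≤ N²`,
  `m ≥ √(N q)/2 ≥ √N/2`; so `|ρ - a/q| ≤ 1/m²`, `|ρ' - a/q| ≤ 2/m²`, and `kam_close` (with the graph of
  type `(a, q)` and `j`) gives `|v - v_{a/q}|³ ≤ C/m`, `|v' - v_{a/q}|³ ≤ C/m`.
-/

set_option autoImplicit false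

open MeasureTheory
open scoped RealInnerProductSpace

namespace Pool.Agent.H33.AN

variable {B : ℝ} {W W₁ W₂ : ℝ → ℝ → ℝ}

theorem kam_unif (hW : HW 1 W W₁ W₂ B) {R Λ : ℝ}
    (hΛ : ∀ (p : ℤ) (Q : ℕ), 0 < Q → |(p : ℝ) / Q| ≤ R + 1 →
      ∃ (c α : ℝ) (u v : ℝ → ℝ → ℝ), Kam W W₁ p Q c α u v Λ) {ε : ℝ} (hε : 0 < ε) :
    ∃ η : ℝ, 0 < η ∧ ∀ (p p' : ℤ) (Q Q' : ℕ) (c α c' α' : ℝ) (u v u' v' : ℝ → ℝ → ℝ),
      0 < Q → 0 < Q' → |(p : ℝ) / Q| ≤ R → |(p' : ℝ) / Q'| ≤ R →
      Kam W W₁ p Q c α u v Λ → Kam W W₁ p' Q' c' α' u' v' Λ →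
      |(p : ℝ) / Q - (p' : ℝ) / Q'| ≤ η → ∀ x t, |v x t - v' x t| ≤ ε := by
  obtain ⟨C, hC0, hC⟩ := kam_close hW Λ
  obtain ⟨N, hN⟩ := exists_nat_ge ((16 * C / ε ^ 3) ^ 2 + 1)
  have hN1 : (1 : ℝ) ≤ N := le_trans (by nlinarith [sq_nonneg (16 * C / ε ^ 3)]) hN
  have hN0 : 0 < N := by exact_mod_cast (lt_of_lt_of_le one_pos hN1)
  have hNr : (0 : ℝ) < N := by linarith
  refine ⟨1 / (N : ℝ) ^ 2, by positivity, ?_⟩
  intro p p' Q Q' c α c' α' u v u' v' hQ hQ' hR hR' h h' hρ x t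
  obtain ⟨a, ha1, ha2⟩ := Real.exists_rat_abs_sub_le_and_den_le ((p : ℝ) / Q) hN0
  have hq : 0 < a.den := a.den_pos
  have hqr : (0 : ℝ) < (a.den : ℝ) := by exact_mod_cast hq
  have hqN : (a.den : ℝ) ≤ N := by exact_mod_cast ha2
  have hq1 : (1 : ℝ) ≤ (a.den : ℝ) := by exact_mod_cast hq
  have haeq : (a : ℝ) = (a.num : ℝ) / a.den := by
    rw [← Rat.cast_intCast, ← Rat.cast_natCast, ← Rat.cast_div, Rat.num_div_den]
  rw [haeq] at ha1
  -- the multiplicity
  obtain ⟨j, hj⟩ : ∃ j, j = Nat.sqrt (N / a.den) := ⟨_, rfl⟩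
  have hdiv : 1 ≤ N / a.den := (Nat.one_le_div_iff hq).2 ha2
  have hj1 : 1 ≤ j := by
    rw [hj]
    exact Nat.le_sqrt.2 (by simpa using hdiv)
  have hj2 : j * j * a.den ≤ N := by
    have h1 : j * j ≤ N / a.den := by rw [hj]; exact Nat.sqrt_le _
    exact (Nat.le_div_iff_mul_le hq).1 h1
  have hj3 : N < (j + 1) * (j + 1) * a.den := by
    have h1 : N / a.den < (j + 1) * (j + 1) := by rw [hj]; exact Nat.lt_succ_sqrt _
    exact (Nat.div_lt_iff_lt_mul hq).1 h1
  have hjr : (1 : ℝ) ≤ j := by exact_mod_cast hj1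
  have hj2r : (j : ℝ) * j * a.den ≤ N := by exact_mod_cast hj2
  have hj3r : (N : ℝ) < ((j : ℝ) + 1) * (j + 1) * a.den := by exact_mod_cast hj3
  obtain ⟨m, hm⟩ : ∃ m : ℝ, m = (j : ℝ) * a.den := ⟨_, rfl⟩
  have hm0 : 0 < m := by rw [hm]; positivity
  have hm2 : m ^ 2 ≤ N * a.den := by
    have h1 : m ^ 2 = (j : ℝ) * j * a.den * a.den := by rw [hm]; ring
    rw [h1]
    exact mul_le_mul_of_nonneg_right hj2r hqr.le
  have hmN : m ^ 2 ≤ (N : ℝ) ^ 2 := by nlinarith
  have hm4 : (N : ℝ) ≤ (2 * m) ^ 2 := by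
    have h1 : ((j : ℝ) + 1) * (j + 1) * a.den ≤ (2 * j) * (2 * j) * a.den := by
      apply mul_le_mul_of_nonneg_right _ hqr.le
      apply mul_le_mul <;> linarith
    have h2 : (2 * (j : ℝ)) * (2 * j) * a.den ≤ (2 * j) * (2 * j) * a.den * a.den :=
      le_mul_of_one_le_right (by positivity) hq1
    have h3 : (2 * m) ^ 2 = (2 * (j : ℝ)) * (2 * j) * a.den * a.den := by rw [hm]; ring
    rw [h3]
    linarith
  have hmbig : C / m ≤ (ε / 2) ^ 3 := by
    have h0 : 0 ≤ 16 * C / ε ^ 3 := by positivity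
    have h1 : (16 * C / ε ^ 3) ^ 2 ≤ (2 * m) ^ 2 := by linarith
    have h2 : 16 * C / ε ^ 3 ≤ 2 * m := by
      exact (pow_le_pow_iff_left₀ h0 (by positivity) two_ne_zero).1 h1
    rw [div_le_iff₀ (by positivity)] at h2
    rw [div_le_iff₀ hm0]
    have h3 : (ε / 2) ^ 3 * m = 2 * m * ε ^ 3 / 16 := by ring
    rw [h3]
    linarith
  -- distances
  have hd1 : |(a.num : ℝ) / a.den - (p : ℝ) / Q| ≤ 1 / m ^ 2 := by
    rw [abs_sub_comm]
    refine ha1.trans ?_
    apply one_div_le_one_div_of_le (by positivity)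
    nlinarith
  have hone : 1 / (N : ℝ) ^ 2 ≤ 1 / m ^ 2 := one_div_le_one_div_of_le (by positivity) hmN
  have hd2 : |(a.num : ℝ) / a.den - (p' : ℝ) / Q'| ≤ 2 / m ^ 2 := by
    have h1 : (a.num : ℝ) / a.den - (p' : ℝ) / Q' =
        ((a.num : ℝ) / a.den - (p : ℝ) / Q) + ((p : ℝ) / Q - (p' : ℝ) / Q') := by ring
    rw [h1]
    refine (abs_add_le _ _).trans ?_
    have h2 : 2 / m ^ 2 = 1 / m ^ 2 + 1 / m ^ 2 := by ring
    rw [h2]
    exact add_le_add hd1 (hρ.trans hone)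
  have hd1' : |(a.num : ℝ) / a.den - (p : ℝ) / Q| ≤ 2 / m ^ 2 := by
    refine hd1.trans ?_
    apply div_le_div_of_nonneg_right (by norm_num) (by positivity)
  have haR : |(a.num : ℝ) / a.den| ≤ R + 1 := by
    have h1 : |(a.num : ℝ) / a.den - (p : ℝ) / Q| ≤ 1 := by
      rw [abs_sub_comm]
      refine ha1.trans ?_
      rw [div_le_one (by positivity)]
      nlinarith
    have h2 := abs_add_le ((a.num : ℝ) / a.den - (p : ℝ) / Q) ((p : ℝ) / Q)
    rw [sub_add_cancel] at h2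
    linarith
  obtain ⟨c2, α2, u2, v2, h2⟩ := hΛ a.num a.den hq haR
  rw [hm] at hd1' hd2 hmbig
  have k1 := hC a.num p a.den Q j c2 α2 c α u2 v2 u v hq hQ (by omega) h2 h hd1' x t
  have k2 := hC a.num p' a.den Q' j c2 α2 c' α' u2 v2 u' v' hq hQ' (by omega) h2 h' hd2 x t
  have l1 : |v2 x t - v x t| ≤ ε / 2 :=
    (pow_le_pow_iff_left₀ (abs_nonneg _) (by positivity) three_ne_zero).1 (k1.trans hmbig)
  have l2 : |v2 x t - v' x t| ≤ ε / 2 :=
    (pow_le_pow_iff_left₀ (abs_nonneg _) (by positivity) three_ne_zero).1 (k2.trans hmbig)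
  have l3 : v x t - v' x t = (v2 x t - v' x t) - (v2 x t - v x t) := by ring
  rw [l3]
  have l4 := abs_sub (v2 x t - v' x t) (v2 x t - v x t)
  linarith

end Pool.Agent.H33.AN

end

section

/-!
# Module J8: the graphs are flat at infinity

Let `⟨W⟩` be the mean of `W` over `[0, 1]²`, `W̄(t)` the mean over `x`, `W̃ = W - W̄`.
* Integrate the Hamilton-Jacobi equation over `[0, 1]²` (`∬ ∂ₜu = 0`, `∫ v dx = c`):
  `α = c²/2 + 1/2 ∬ (v - c)² + ⟨W⟩`.
* `α ≤ max (1/2 (c + ψₓ)² + ψₜ + W)` for every doubly periodic `C¹` function `ψ`: for a leaf `γ`, `ν` of type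
  `(p, Q)`: `α Q = c p - A1 W 0 Q γ ν = ∫ (c ν - ν²/2 + W(γ)) = ∫ ((c + ψₓ) ν - ν²/2 + ψₜ + W)`
  `≤ ∫ (1/2 (c + ψₓ)² + ψₜ + W)`.
* `ψ(x, t) = -(1/c) Θ(x, t) - χ(t)`, `Θ(x, t) = ∫_0^x W̃(y, t) dy`, `χ(t) = ∫_0^t (W̄ - ⟨W⟩)`:
  `1/2 (c + ψₓ)² + ψₜ + W = c²/2 + ⟨W⟩ + W̃²/(2 c²) - Θₜ/c ≤ c²/2 + ⟨W⟩ + 2 B²/c² + 2 B/|c|`.
-/

set_option autoImplicit false

open MeasureTheory
open scoped RealInnerProductSpace

namespace Pool.Agent.H33.AN

variable {B : ℝ} {W W₁ W₂ : ℝ → ℝ → ℝ}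

private theorem j8_cW (hW : HW 1 W W₁ W₂ B) : Continuous fun z : ℝ × ℝ => W z.1 z.2 :=
  continuous_iff_continuousAt.2 fun z => (hW.der z.1 z.2).continuousAt

private theorem j8_cW₁ (hW : HW 1 W W₁ W₂ B) : Continuous fun z : ℝ × ℝ => W₁ z.1 z.2 := by
  have hB := hW.nonneg
  have h : LipschitzWith ⟨2 * B, by positivity⟩ fun z : ℝ × ℝ => W₁ z.1 z.2 := by
    refine LipschitzWith.of_dist_le_mul fun z z' => ?_
    have h1 : |z.1 - z'.1| ≤ dist z z' := le_max_left (dist z.1 z'.1) (dist z.2 z'.2)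
    have h2 : |z.2 - z'.2| ≤ dist z z' := le_max_right (dist z.1 z'.1) (dist z.2 z'.2)
    refine (hW.lip z.1 z.2 z'.1 z'.2).trans ?_
    show B * (|z.1 - z'.1| + |z.2 - z'.2|) ≤ 2 * B * dist z z'
    have h3 := mul_le_mul_of_nonneg_left (add_le_add h1 h2) hB
    linarith
  exact h.continuous

private theorem j8_cv {p : ℤ} {Q : ℕ} {c α Λ : ℝ} {u v : ℝ → ℝ → ℝ}
    (h : Kam W W₁ p Q c α u v Λ) : Continuous fun z : ℝ × ℝ => v z.1 z.2 := by
  have hΛ : 0 ≤ Λ := (abs_nonneg _).trans (h.vbd 0 0)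
  have h : LipschitzWith ⟨2 * Λ, by positivity⟩ fun z : ℝ × ℝ => v z.1 z.2 := by
    refine LipschitzWith.of_dist_le_mul fun z z' => ?_
    have h1 : |z.1 - z'.1| ≤ dist z z' := le_max_left (dist z.1 z'.1) (dist z.2 z'.2)
    have h2 : |z.2 - z'.2| ≤ dist z z' := le_max_right (dist z.1 z'.1) (dist z.2 z'.2)
    refine (h.lip z.1 z.2 z'.1 z'.2).trans ?_
    show Λ * (|z.1 - z'.1| + |z.2 - z'.2|) ≤ 2 * Λ * dist z z'
    have h3 := mul_le_mul_of_nonneg_left (add_le_add h1 h2) hΛ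
    linarith
  exact h.continuous

/-- Derivative of a parametric integral. -/
private theorem j8_param {G G' : ℝ → ℝ → ℝ} (hG : ∀ t s, HasDerivAt (fun t => G t s) (G' t s) t)
    (hc : Continuous fun z : ℝ × ℝ => G z.1 z.2) (hc' : Continuous fun z : ℝ × ℝ => G' z.1 z.2)
    (t : ℝ) :
    HasDerivAt (fun t => ∫ s in (0 : ℝ)..1, G t s) (∫ s in (0 : ℝ)..1, G' t s) t := by
  have hK : IsCompact (Set.Icc (t - 1) (t + 1) ×ˢ Set.Icc (0 : ℝ) 1) :=
    isCompact_Icc.prod isCompact_Icc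
  obtain ⟨C, hC⟩ := hK.exists_bound_of_continuousOn hc'.continuousOn
  have hs : ∀ t, Continuous fun s => G t s := fun t => hc.comp (continuous_const.prodMk continuous_id)
  have hs' : ∀ t, Continuous fun s => G' t s := fun t =>
    hc'.comp (continuous_const.prodMk continuous_id)
  refine (intervalIntegral.hasDerivAt_integral_of_dominated_loc_of_deriv_le (F := G) (F' := G')
    (s := Set.Icc (t - 1) (t + 1)) (bound := fun _ => C) (Icc_mem_nhds (by linarith) (by linarith))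
    (Filter.Eventually.of_forall fun t => (hs t).aestronglyMeasurable)
    ((hs t).intervalIntegrable _ _) (hs' t).aestronglyMeasurable
    (Filter.Eventually.of_forall fun s hs1 x hx => ?_) intervalIntegrable_const
    (Filter.Eventually.of_forall fun s _ x _ => hG x s)).2
  rw [Set.uIoc_of_le zero_le_one] at hs1
  exact hC (x, s) ⟨hx, hs1.1.le, hs1.2⟩

/-- Mean over `x`. -/
private noncomputable def j8_b (W : ℝ → ℝ → ℝ) (t : ℝ) : ℝ := ∫ y in (0 : ℝ)..1, W y t

private theorem j8_cb (hW : HW 1 W W₁ W₂ B) : Continuous (j8_b W) := by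
  have h : Continuous (Function.uncurry fun (t y : ℝ) => W y t) :=
    (j8_cW hW).comp (continuous_snd.prodMk continuous_fst)
  exact intervalIntegral.continuous_parametric_intervalIntegral_of_continuous' h 0 1

private theorem j8_abs_b (hW : HW 1 W W₁ W₂ B) (t : ℝ) : |j8_b W t| ≤ B := by
  have h := intervalIntegral.norm_integral_le_of_norm_le_const (a := (0 : ℝ)) (b := 1)
    (f := fun y => W y t) (C := B) fun y _ => hW.bd y t
  simpa [j8_b] using h

private theorem j8_mean (hW : HW 1 W W₁ W₂ B) (x t : ℝ) :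
    ∫ s in (0 : ℝ)..1, W (x + s) t = j8_b W t := by
  rw [intervalIntegral.integral_comp_add_left (fun y => W y t) x]
  have hp : Function.Periodic (fun y => W y t) 1 := fun y => hW.per₁ y t
  have h := hp.intervalIntegral_add_eq x 0
  rw [zero_add] at h
  rw [add_zero]
  exact h

private theorem j8_dx (hW : HW 1 W W₁ W₂ B) (x t : ℝ) :
    HasDerivAt (fun y => W y t) (W₁ x t) x := by
  have h1 : HasDerivAt (fun y : ℝ => (y, t)) ((1 : ℝ), (0 : ℝ)) x :=
    (hasDerivAt_id x).prodMk (hasDerivAt_const x t)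
  have h2 := HasFDerivAt.comp_hasDerivAt (f := fun y : ℝ => (y, t)) x (hW.der x t) h1
  have h3 : (W₁ x t • ContinuousLinearMap.fst ℝ ℝ ℝ + W₂ x t • ContinuousLinearMap.snd ℝ ℝ ℝ)
      ((1 : ℝ), (0 : ℝ)) = W₁ x t := by simp
  rw [h3] at h2
  exact h2

private theorem j8_key (hW : HW 1 W W₁ W₂ B) (x t : ℝ) :
    ∫ s in (0 : ℝ)..1, (s - 1 / 2) * W₁ (x + s) t = W x t - j8_b W t := by
  have hc0 : Continuous fun s => W (x + s) t :=
    (j8_cW hW).comp ((continuous_const.add continuous_id).prodMk continuous_const)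
  have hc1 : Continuous fun s => (s - 1 / 2) * W₁ (x + s) t :=
    (continuous_id.sub continuous_const).mul
      ((j8_cW₁ hW).comp ((continuous_const.add continuous_id).prodMk continuous_const))
  have hd : ∀ s, HasDerivAt (fun s => (s - 1 / 2) * W (x + s) t)
      (W (x + s) t + (s - 1 / 2) * W₁ (x + s) t) s := by
    intro s
    have h1 : HasDerivAt (fun s => W (x + s) t) (W₁ (x + s) t) s :=
      (j8_dx hW (x + s) t).comp_const_add x s
    have h2 := ((hasDerivAt_id s).sub_const (1 / 2)).mul h1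
    rw [one_mul] at h2
    exact h2
  have h1 : ∫ s in (0 : ℝ)..1, (W (x + s) t + (s - 1 / 2) * W₁ (x + s) t) =
      (1 - 1 / 2) * W (x + 1) t - (0 - 1 / 2) * W (x + 0) t :=
    intervalIntegral.integral_eq_sub_of_hasDerivAt (fun s _ => hd s)
      ((hc0.add hc1).intervalIntegrable _ _)
  rw [intervalIntegral.integral_add (hc0.intervalIntegrable _ _) (hc1.intervalIntegrable _ _),
    j8_mean hW, hW.per₁, add_zero] at h1
  linarith

/-- The upper bound of `α` from a leaf. -/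
private theorem j8_upper (hW : HW 1 W W₁ W₂ B) {p : ℤ} {Q : ℕ} {c α Λ : ℝ} {u v : ℝ → ℝ → ℝ}
    (hQ : 0 < Q) (h : Kam W W₁ p Q c α u v Λ) (hc : 1 ≤ |c|) :
    α ≤ c ^ 2 / 2 + (∫ t in (0 : ℝ)..1, j8_b W t) + (2 * B ^ 2 / c ^ 2 + B / |c|) := by
  obtain ⟨γ, ν, hL, -, -⟩ := h.leaf 0 0
  have hB := hW.nonneg
  have hQ0 : (0 : ℝ) < Q := by exact_mod_cast hQ
  have hc0 : c ≠ 0 := fun h0 => by rw [h0, abs_zero] at hc; linarith
  have hγ : Continuous γ := continuous_iff_continuousAt.2 fun t => (hL.ext.der t).continuousAt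
  have hν : Continuous ν := continuous_iff_continuousAt.2 fun t => (hL.ext.el t).continuousAt
  have hQp : γ Q = γ 0 + p := by
    have := hL.per 0
    rwa [zero_add] at this
  -- periodicity with integers
  have hp1 : ∀ (x t : ℝ) (k : ℤ), W (x + k) t = W x t := by
    intro x t k
    have h1 : Function.Periodic (fun x => W x t) 1 := fun x => hW.per₁ x t
    have h2 := h1.int_mul k x
    rwa [mul_one] at h2
  have hp2 : ∀ (x : ℝ) (k : ℕ), W x (k : ℝ) = W x 0 := by
    intro x k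
    have h1 : Function.Periodic (fun t => W x t) 1 := fun t => hW.per₂ x t
    have h2 := h1.nat_mul k 0
    rwa [mul_one, zero_add] at h2
  -- the function θ
  have hcG : Continuous fun z : ℝ × ℝ => (z.2 - 1 / 2) * W (γ z.1 + z.2) z.1 :=
    (continuous_snd.sub continuous_const).mul
      ((j8_cW hW).comp (((hγ.comp continuous_fst).add continuous_snd).prodMk continuous_fst))
  have hcG' : Continuous fun z : ℝ × ℝ =>
      (z.2 - 1 / 2) * (W₁ (γ z.1 + z.2) z.1 * ν z.1 + W₂ (γ z.1 + z.2) z.1) :=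
    (continuous_snd.sub continuous_const).mul
      ((((j8_cW₁ hW).comp (((hγ.comp continuous_fst).add continuous_snd).prodMk
        continuous_fst)).mul (hν.comp continuous_fst)).add
        (hW.cont₂.comp (((hγ.comp continuous_fst).add continuous_snd).prodMk continuous_fst)))
  have hθ : ∀ t, HasDerivAt (fun t => ∫ s in (0 : ℝ)..1, (s - 1 / 2) * W (γ t + s) t)
      (∫ s in (0 : ℝ)..1, (s - 1 / 2) * (W₁ (γ t + s) t * ν t + W₂ (γ t + s) t)) t := by
    intro t
    refine j8_param (G := fun t s => (s - 1 / 2) * W (γ t + s) t)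
      (G' := fun t s => (s - 1 / 2) * (W₁ (γ t + s) t * ν t + W₂ (γ t + s) t))
      (fun t s => ?_) hcG hcG' t
    have h1 : HasDerivAt (fun t => (γ t + s, t)) (ν t, (1 : ℝ)) t :=
      ((hL.ext.der t).add_const s).prodMk (hasDerivAt_id t)
    have h2 := HasFDerivAt.comp_hasDerivAt (f := fun t : ℝ => (γ t + s, t)) t
      (hW.der (γ t + s) t) h1
    have h3 : (W₁ (γ t + s) t • ContinuousLinearMap.fst ℝ ℝ ℝ + W₂ (γ t + s) t •
        ContinuousLinearMap.snd ℝ ℝ ℝ) (ν t, (1 : ℝ)) = W₁ (γ t + s) t * ν t + W₂ (γ t + s) t := by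
      simp
    rw [h3] at h2
    exact h2.const_mul (s - 1 / 2)
  set R : ℝ → ℝ := fun t => ∫ s in (0 : ℝ)..1, (s - 1 / 2) * W₂ (γ t + s) t with hR
  have hcR0 : Continuous fun z : ℝ × ℝ => (z.2 - 1 / 2) * W₂ (γ z.1 + z.2) z.1 :=
    (continuous_snd.sub continuous_const).mul
      (hW.cont₂.comp (((hγ.comp continuous_fst).add continuous_snd).prodMk continuous_fst))
  have hcR : Continuous R :=
    intervalIntegral.continuous_parametric_intervalIntegral_of_continuous'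
      (f := fun t s => (s - 1 / 2) * W₂ (γ t + s) t) hcR0 0 1
  have hθ' : ∀ t, ∫ s in (0 : ℝ)..1, (s - 1 / 2) * (W₁ (γ t + s) t * ν t + W₂ (γ t + s) t) =
      ν t * (W (γ t) t - j8_b W t) + R t := by
    intro t
    have c1 : Continuous fun s => (s - 1 / 2) * W₁ (γ t + s) t :=
      (continuous_id.sub continuous_const).mul
        ((j8_cW₁ hW).comp ((continuous_const.add continuous_id).prodMk continuous_const))
    have c2 : Continuous fun s => (s - 1 / 2) * W₂ (γ t + s) t :=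
      (continuous_id.sub continuous_const).mul
        (hW.cont₂.comp ((continuous_const.add continuous_id).prodMk continuous_const))
    have e : ∀ s, (s - 1 / 2) * (W₁ (γ t + s) t * ν t + W₂ (γ t + s) t) =
        ν t * ((s - 1 / 2) * W₁ (γ t + s) t) + (s - 1 / 2) * W₂ (γ t + s) t := fun s => by ring
    simp_rw [e]
    rw [intervalIntegral.integral_add ((c1.intervalIntegrable _ _).const_mul _)
      (c2.intervalIntegrable _ _), intervalIntegral.integral_const_mul, j8_key hW]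
  have hcb := j8_cb hW
  have hWγ : Continuous fun t => W (γ t) t := (j8_cW hW).comp (hγ.prodMk continuous_id)
  have hcθ' : Continuous fun t => ν t * (W (γ t) t - j8_b W t) + R t :=
    (hν.mul (hWγ.sub hcb)).add hcR
  have I0 : ∫ t in (0 : ℝ)..Q, (ν t * (W (γ t) t - j8_b W t) + R t) = 0 := by
    have h1 : ∫ t in (0 : ℝ)..Q, (ν t * (W (γ t) t - j8_b W t) + R t) =
        (∫ s in (0 : ℝ)..1, (s - 1 / 2) * W (γ Q + s) Q) -
          ∫ s in (0 : ℝ)..1, (s - 1 / 2) * W (γ 0 + s) 0 :=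
      intervalIntegral.integral_eq_sub_of_hasDerivAt
        (fun t _ => by have := hθ t; rwa [hθ' t] at this) (hcθ'.intervalIntegrable _ _)
    have h2 : ∀ s, W (γ Q + s) Q = W (γ 0 + s) 0 := by
      intro s
      rw [hQp, hp2]
      have e : γ 0 + p + s = (γ 0 + s) + (p : ℤ) := by ring
      rw [e, hp1]
    simp_rw [h2] at h1
    rw [h1, sub_self]
  have I1 : ∫ t in (0 : ℝ)..Q, c * ν t = c * p := by
    rw [intervalIntegral.integral_const_mul,
      intervalIntegral.integral_eq_sub_of_hasDerivAt (fun t _ => hL.ext.der t)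
        (hν.intervalIntegrable _ _), hQp]
    ring
  have I2 : ∫ t in (0 : ℝ)..Q, (ν t ^ 2 / 2 - W (γ t) t) = EpQ W p Q := by
    have := hL.act 0
    rw [zero_add] at this
    exact this
  have I3 : ∫ t in (0 : ℝ)..Q, j8_b W t = Q * ∫ t in (0 : ℝ)..1, j8_b W t := by
    have hp : Function.Periodic (j8_b W) 1 := fun t => by
      unfold j8_b
      simp_rw [hW.per₂]
    have h1 := hp.intervalIntegral_add_zsmul_eq (Q : ℤ) 0
      (fun a b => hcb.intervalIntegrable a b)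
    simpa using h1
  have c1 : Continuous fun t => c * ν t := continuous_const.mul hν
  have c2 : Continuous fun t => ν t ^ 2 / 2 - W (γ t) t := ((hν.pow 2).div_const 2).sub hWγ
  have I0' : ∫ t in (0 : ℝ)..Q, 1 / c * (ν t * (W (γ t) t - j8_b W t) + R t) = 0 := by
    rw [intervalIntegral.integral_const_mul, I0, mul_zero]
  have c12 : Continuous fun t => c * ν t - (ν t ^ 2 / 2 - W (γ t) t) := c1.sub c2
  have hα : α * Q = c * p - EpQ W p Q := by
    rw [h.alpha]
    field_simp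
  have hsum : α * Q = ∫ t in (0 : ℝ)..Q, (c * ν t - (ν t ^ 2 / 2 - W (γ t) t) -
      (1 / c) * (ν t * (W (γ t) t - j8_b W t) + R t)) := by
    rw [intervalIntegral.integral_sub (c12.intervalIntegrable _ _)
      ((hcθ'.intervalIntegrable _ _).const_mul _),
      intervalIntegral.integral_sub (c1.intervalIntegrable _ _) (c2.intervalIntegrable _ _),
      I0', I1, I2, hα]
    ring
  have hle : ∫ t in (0 : ℝ)..Q, (c * ν t - (ν t ^ 2 / 2 - W (γ t) t) -
      (1 / c) * (ν t * (W (γ t) t - j8_b W t) + R t)) ≤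
      ∫ t in (0 : ℝ)..Q, (j8_b W t + (c ^ 2 / 2 + (2 * B ^ 2 / c ^ 2 + B / |c|))) := by
    refine intervalIntegral.integral_mono_on hQ0.le
      (((c1.sub c2).sub (continuous_const.mul hcθ')).intervalIntegrable _ _)
      ((hcb.add continuous_const).intervalIntegrable _ _) fun t _ => ?_
    have hRb : |R t| ≤ B := by
      have h1 := intervalIntegral.norm_integral_le_of_norm_le_const (a := (0 : ℝ)) (b := 1)
        (f := fun s => (s - 1 / 2) * W₂ (γ t + s) t) (C := B) fun s hs => by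
          rw [Set.uIoc_of_le zero_le_one] at hs
          rw [Real.norm_eq_abs, abs_mul]
          have h2 : |s - 1 / 2| ≤ 1 := abs_le.2 ⟨by linarith [hs.1], by linarith [hs.2]⟩
          calc |s - 1 / 2| * |W₂ (γ t + s) t| ≤ 1 * B :=
                mul_le_mul h2 (hW.bd₂ _ _) (abs_nonneg _) zero_le_one
            _ = B := one_mul B
      simpa [hR] using h1
    have hw : |W (γ t) t - j8_b W t| ≤ 2 * B := by
      have h1 := hW.bd (γ t) t
      have h2 := j8_abs_b hW t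
      rw [abs_le] at h1 h2 ⊢
      constructor <;> linarith [h1.1, h1.2, h2.1, h2.2]
    set w := W (γ t) t - j8_b W t with hwdef
    have e1 : W (γ t) t = w + j8_b W t := by rw [hwdef]; ring
    have h3 : w ^ 2 ≤ 4 * B ^ 2 := by
      have := sq_le_sq' (by linarith [(abs_le.1 hw).1]) (abs_le.1 hw).2
      nlinarith
    have h4 : -(1 / c * R t) ≤ B / |c| := by
      calc -(1 / c * R t) ≤ |1 / c * R t| := neg_le_abs _
        _ = |R t| / |c| := by rw [abs_mul, abs_div, abs_one]; ring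
        _ ≤ B / |c| := by gcongr
    have h5 : w ^ 2 / (2 * c ^ 2) ≤ 2 * B ^ 2 / c ^ 2 := by
      rw [div_le_div_iff₀ (by positivity) (by positivity)]
      nlinarith [sq_nonneg c, mul_nonneg (sq_nonneg c) (sub_nonneg.2 h3)]
    have h6 : (c - w / c) * ν t - ν t ^ 2 / 2 ≤ c ^ 2 / 2 - w + w ^ 2 / (2 * c ^ 2) := by
      have e2 : c ^ 2 / 2 - w + w ^ 2 / (2 * c ^ 2) = (c - w / c) ^ 2 / 2 := by
        field_simp
        ring
      rw [e2]
      nlinarith [sq_nonneg (c - w / c - ν t)]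
    have e3 : c * ν t - (ν t ^ 2 / 2 - W (γ t) t) - 1 / c * (ν t * w + R t) =
        ((c - w / c) * ν t - ν t ^ 2 / 2) + (w + j8_b W t) + -(1 / c * R t) := by
      rw [← e1]
      ring
    rw [e3]
    linarith
  rw [← hsum, intervalIntegral.integral_add (hcb.intervalIntegrable _ _)
    intervalIntegrable_const, I3, intervalIntegral.integral_const, sub_zero, smul_eq_mul] at hle
  have hle' : α * Q ≤ (c ^ 2 / 2 + (∫ t in (0 : ℝ)..1, j8_b W t) +
      (2 * B ^ 2 / c ^ 2 + B / |c|)) * Q := by linarith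
  exact le_of_mul_le_mul_right hle' hQ0

/-- The integrated Hamilton-Jacobi equation. -/
private theorem j8_hj (hW : HW 1 W W₁ W₂ B) {p : ℤ} {Q : ℕ} {c α Λ : ℝ} {u v : ℝ → ℝ → ℝ}
    (h : Kam W W₁ p Q c α u v Λ) :
    ∫ t in (0 : ℝ)..1, ∫ x in (0 : ℝ)..1, (v x t - c) ^ 2 =
      2 * (α - c ^ 2 / 2 - ∫ t in (0 : ℝ)..1, j8_b W t) := by
  have hcv := j8_cv h
  have hcu : Continuous fun z : ℝ × ℝ => u z.1 z.2 :=
    continuous_iff_continuousAt.2 fun z => (h.fder z.1 z.2).continuousAt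
  have hcW := j8_cW hW
  have hcb := j8_cb hW
  have hsw : Continuous fun z : ℝ × ℝ => (z.2, z.1) := continuous_snd.prodMk continuous_fst
  have hI : ∀ t, HasDerivAt (fun t => ∫ x in (0 : ℝ)..1, u x t)
      (∫ x in (0 : ℝ)..1, (α - v x t ^ 2 / 2 - W x t)) t := by
    intro t
    refine j8_param (G := fun t x => u x t) (G' := fun t x => α - v x t ^ 2 / 2 - W x t)
      (fun t x => ?_) (hcu.comp hsw)
      ((continuous_const.sub (((hcv.comp hsw).pow 2).div_const 2)).sub (hcW.comp hsw)) t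
    have h1 : HasDerivAt (fun t : ℝ => (x, t)) ((0 : ℝ), (1 : ℝ)) t :=
      (hasDerivAt_const t x).prodMk (hasDerivAt_id t)
    have h2 := HasFDerivAt.comp_hasDerivAt (f := fun t : ℝ => (x, t)) t (h.fder x t) h1
    have h3 : ((v x t - c) • ContinuousLinearMap.fst ℝ ℝ ℝ + (α - v x t ^ 2 / 2 - W x t) •
        ContinuousLinearMap.snd ℝ ℝ ℝ) ((0 : ℝ), (1 : ℝ)) = α - v x t ^ 2 / 2 - W x t := by simp
    rw [h3] at h2
    exact h2
  have hx : ∀ t, ∫ x in (0 : ℝ)..1, (α - v x t ^ 2 / 2 - W x t) =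
      (α - c ^ 2 / 2) - 1 / 2 * (∫ x in (0 : ℝ)..1, (v x t - c) ^ 2) - j8_b W t := by
    intro t
    have cv : Continuous fun x => v x t := hcv.comp (continuous_id.prodMk continuous_const)
    have cw : Continuous fun x => W x t := hcW.comp (continuous_id.prodMk continuous_const)
    have e : ∀ x, α - v x t ^ 2 / 2 - W x t =
        ((α + c ^ 2 / 2) - 1 / 2 * (v x t - c) ^ 2 - c * v x t) - W x t := fun x => by ring
    simp_rw [e]
    have i1 : IntervalIntegrable (fun x => (v x t - c) ^ 2) volume 0 1 :=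
      ((cv.sub continuous_const).pow 2).intervalIntegrable _ _
    have i2 : IntervalIntegrable (fun x => v x t) volume 0 1 := cv.intervalIntegrable _ _
    rw [intervalIntegral.integral_sub ((intervalIntegrable_const.sub (i1.const_mul _)).sub
      (i2.const_mul _)) (cw.intervalIntegrable _ _),
      intervalIntegral.integral_sub (intervalIntegrable_const.sub (i1.const_mul _))
        (i2.const_mul _), intervalIntegral.integral_sub intervalIntegrable_const (i1.const_mul _),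
      intervalIntegral.integral_const_mul, intervalIntegral.integral_const_mul, kam_mean h t,
      intervalIntegral.integral_const]
    unfold j8_b
    simp only [sub_zero, one_smul]
    ring
  have cD0 : Continuous fun z : ℝ × ℝ => (v z.2 z.1 - c) ^ 2 :=
    ((hcv.comp hsw).sub continuous_const).pow 2
  have cD : Continuous fun t => ∫ x in (0 : ℝ)..1, (v x t - c) ^ 2 :=
    intervalIntegral.continuous_parametric_intervalIntegral_of_continuous'
      (f := fun t x => (v x t - c) ^ 2) cD0 0 1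
  have hper : ∀ x, u x 1 = u x 0 := fun x => by
    have := h.per₂ x 0
    rwa [zero_add] at this
  have h0 : ∫ t in (0 : ℝ)..1, ((α - c ^ 2 / 2) - 1 / 2 *
      (∫ x in (0 : ℝ)..1, (v x t - c) ^ 2) - j8_b W t) = 0 := by
    have h1 : ∫ t in (0 : ℝ)..1, ((α - c ^ 2 / 2) - 1 / 2 *
        (∫ x in (0 : ℝ)..1, (v x t - c) ^ 2) - j8_b W t) =
        (∫ x in (0 : ℝ)..1, u x 1) - ∫ x in (0 : ℝ)..1, u x 0 :=
      intervalIntegral.integral_eq_sub_of_hasDerivAt
        (fun t _ => by have := hI t; rwa [hx t] at this)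
        (((continuous_const.sub (continuous_const.mul cD)).sub hcb).intervalIntegrable _ _)
    simp_rw [hper] at h1
    rw [h1, sub_self]
  have iD : IntervalIntegrable (fun t => 1 / 2 * ∫ x in (0 : ℝ)..1, (v x t - c) ^ 2)
      volume 0 1 := (continuous_const.mul cD).intervalIntegrable _ _
  rw [intervalIntegral.integral_sub (intervalIntegrable_const.sub iD)
    (hcb.intervalIntegrable _ _), intervalIntegral.integral_sub intervalIntegrable_const iD,
    intervalIntegral.integral_const_mul, intervalIntegral.integral_const, sub_zero,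
    one_smul] at h0
  linarith

theorem kam_infinity (hW : HW 1 W W₁ W₂ B) :
    ∃ C : ℝ, 0 ≤ C ∧ ∀ (p : ℤ) (Q : ℕ) (c α Λ : ℝ) (u v : ℝ → ℝ → ℝ), 0 < Q →
      Kam W W₁ p Q c α u v Λ → 1 ≤ |c| →
      ∫ t in (0 : ℝ)..1, ∫ x in (0 : ℝ)..1, (v x t - c) ^ 2 ≤ C / |c| := by
  have hB := hW.nonneg
  refine ⟨4 * B ^ 2 + 2 * B, by positivity, fun p Q c α Λ u v hQ h hc => ?_⟩
  rw [j8_hj hW h]
  have h1 := j8_upper hW hQ h hc
  have hc0 : 0 < |c| := by linarith
  have h2 : 2 * B ^ 2 / c ^ 2 ≤ 2 * B ^ 2 / |c| := by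
    rw [← sq_abs c]
    refine div_le_div_of_nonneg_left (by positivity) hc0 ?_
    nlinarith
  have h3 : (4 * B ^ 2 + 2 * B) / |c| = 2 * (2 * B ^ 2 / |c| + B / |c|) := by ring
  rw [h3]
  linarith

end Pool.Agent.H33.AN

end

section

/-!
# Module J9: a foliated potential does not depend on `x`

Let `v*` be the graph of type `(0, 1)`. Claim: `v*(x + δ, t) = v*(x, t)`. Suppose not:
`|v*(x₀ + δ, t₀) - v*(x₀, t₀)| = κ > 0`. There is a rectangle `N ⊆ [x₀, x₀ + 1] × [t₀, t₀ + 1]` (or, by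
periodicity, in `[0, 1]²`) of positive area with `|v*(x + δ, t) - v*(x, t)| ≥ κ/2` on `N` (`Kam.lip`). By
`kam_unif` (`R = 1`) there is `M₀ ≥ 1` such that `|v_ρ - v*| ≤ κ/16` for `0 ≤ ρ ≤ 1/M₀`. Let
`m₀ = ∬_N (v_{1/M₀} - v*) > 0` (`kam_order`). Given `R` (integer) and `ε > 0` choose `M`, a multiple of
`M₀`, with `1/M ≤ η(R, ε)` (`kam_unif`), and let `v_k` be the graph of type `(k, M)`, `-R M ≤ k ≤ R M`,
`w_k = v_{k+1} - v_k`, `0 < w_k ≤ ε`. (Graphs of types with equal ratios agree: `kam_unif` gives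
`|v - v'| ≤ ε` for every `ε`.) Sum `identity` over `k`:
`∬ (W - W^δ) (v_{RM} - v_{-RM}) = ∑ 1/2 ∬ (v_k^δ - v̄_k)² w_k - 1/8 ∑ ∬ w_k³`. The first sum is at
least `1/2 (κ/4)² m₀` (terms with `0 ≤ k < M/M₀`, integrals over `N`), the second one is at most
`ε² ∬ (v_{RM} - v_{-RM}) ≤ 2 Λ_R ε²`, and the left side is, since `∫ (W - W^δ) dx = 0`, equal to
`∬ (W - W^δ) ((v_{RM} - c_{RM}) - (v_{-RM} - c_{-RM}))`, at most `4 B √(C/|c_±|)` in absolute value
(`kam_infinity`, Cauchy-Schwarz), with `|c_±| ≥ R - 1/2 - 2 B` (`kam_c`). Let first `ε → 0`, then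
`R → ∞`: contradiction.
So `v*` does not depend on `x`, `∂ₓu = v* - c` neither, so `∂ₓu = 0` (periodicity), `v* = c`; the leaves of
type `(0, 1)` have the constant velocity `c`, so `W₁(γ(t), t) = 0`, and they pass through every point.
-/

set_option autoImplicit false

open MeasureTheory
open scoped RealInnerProductSpace

namespace Pool.Agent.H33.AN

variable {B : ℝ} {W W₁ W₂ : ℝ → ℝ → ℝ}

private theorem J9a_cont {p : ℤ} {Q : ℕ} {c α Λ : ℝ} {u v : ℝ → ℝ → ℝ}
    (h : Kam W W₁ p Q c α u v Λ) : Continuous fun z : ℝ × ℝ => v z.1 z.2 := by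
  have hΛ : 0 ≤ Λ := (abs_nonneg _).trans (h.vbd 0 0)
  refine (LipschitzWith.of_dist_le_mul (K := ⟨2 * Λ, by positivity⟩) (fun z w => ?_)).continuous
  have h1 := h.lip z.1 z.2 w.1 w.2
  have h2 : |z.1 - w.1| ≤ dist z w := by
    rw [← Real.dist_eq, Prod.dist_eq]; exact le_max_left _ _
  have h3 : |z.2 - w.2| ≤ dist z w := by
    rw [← Real.dist_eq, Prod.dist_eq]; exact le_max_right _ _
  rw [Real.dist_eq]
  calc |v z.1 z.2 - v w.1 w.2| ≤ Λ * (|z.1 - w.1| + |z.2 - w.2|) := h1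
    _ ≤ Λ * (dist z w + dist z w) := mul_le_mul_of_nonneg_left (add_le_add h2 h3) hΛ
    _ = (2 * Λ) * dist z w := by ring

private theorem J9a_contW (hW : HW 1 W W₁ W₂ B) : Continuous fun z : ℝ × ℝ => W z.1 z.2 :=
  continuous_iff_continuousAt.2 (fun z => (hW.der z.1 z.2).continuousAt)

/-- one time -/
private theorem J9a_slice (hW : HW 1 W W₁ W₂ B) {v : ℝ → ℝ → ℝ}
    (hv : Continuous fun z : ℝ × ℝ => v z.1 z.2) (c δ lam t : ℝ) (hlam : 0 < lam) :
    ‖∫ x in (0 : ℝ)..1, (W x t - W (x + δ) t) * v x t‖ ≤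
      B * lam * (∫ x in (0 : ℝ)..1, (v x t - c) ^ 2) + B / lam := by
  have hWt : Continuous fun x => W x t := (J9a_contW hW).comp
    (by fun_prop : Continuous fun x : ℝ => ((x, t) : ℝ × ℝ))
  have hWd : Continuous fun x => W (x + δ) t := (J9a_contW hW).comp
    (by fun_prop : Continuous fun x : ℝ => ((x + δ, t) : ℝ × ℝ))
  have hvt : Continuous fun x => v x t := hv.comp
    (by fun_prop : Continuous fun x : ℝ => ((x, t) : ℝ × ℝ))
  have hzero : ∫ x in (0 : ℝ)..1, (W x t - W (x + δ) t) = 0 := by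
    rw [intervalIntegral.integral_sub (hWt.intervalIntegrable _ _) (hWd.intervalIntegrable _ _)]
    have h1 : ∫ x in (0 : ℝ)..1, W (x + δ) t = ∫ x in (0 + δ)..(1 + δ), W x t :=
      intervalIntegral.integral_comp_add_right (fun x => W x t) δ
    have hper : Function.Periodic (fun x => W x t) 1 := fun x => hW.per₁ x t
    have h2 := hper.intervalIntegral_add_eq δ 0
    have e1 : (0 : ℝ) + δ = δ := zero_add δ
    have e2 : (1 : ℝ) + δ = δ + 1 := add_comm 1 δ
    rw [h1, e1, e2, h2, zero_add, sub_self]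
  have hrew : ∫ x in (0 : ℝ)..1, (W x t - W (x + δ) t) * v x t
      = ∫ x in (0 : ℝ)..1, (W x t - W (x + δ) t) * (v x t - c) := by
    have e1 : ∀ x, (W x t - W (x + δ) t) * (v x t - c)
        = (W x t - W (x + δ) t) * v x t - c * (W x t - W (x + δ) t) := fun x => by ring
    simp_rw [e1]
    have hi1 : IntervalIntegrable (fun x => (W x t - W (x + δ) t) * v x t) volume 0 1 :=
      ((hWt.sub hWd).mul hvt).intervalIntegrable _ _
    have hi2 : IntervalIntegrable (fun x => c * (W x t - W (x + δ) t)) volume 0 1 :=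
      (continuous_const.mul (hWt.sub hWd)).intervalIntegrable _ _
    rw [intervalIntegral.integral_sub hi1 hi2,
      intervalIntegral.integral_const_mul, hzero, mul_zero, sub_zero]
  rw [hrew]
  have hbound : ∀ x, ‖(W x t - W (x + δ) t) * (v x t - c)‖ ≤
      B * lam * (v x t - c) ^ 2 + B / lam := by
    intro x
    rw [norm_mul, Real.norm_eq_abs, Real.norm_eq_abs]
    have h1 : |W x t - W (x + δ) t| ≤ 2 * B := by
      have h1 := hW.bd x t
      have h2 := hW.bd (x + δ) t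
      calc _ ≤ |W x t| + |W (x + δ) t| := abs_sub _ _
        _ ≤ 2 * B := by linarith
    have h2 : 2 * |v x t - c| ≤ lam * (v x t - c) ^ 2 + 1 / lam := by
      have h3 : 0 ≤ (lam * |v x t - c| - 1) ^ 2 / lam := by positivity
      have h4 : (lam * |v x t - c| - 1) ^ 2 / lam
          = lam * (v x t - c) ^ 2 - 2 * |v x t - c| + 1 / lam := by
        rw [← sq_abs (v x t - c)]
        field_simp
        ring
      linarith
    calc |W x t - W (x + δ) t| * |v x t - c| ≤ (2 * B) * |v x t - c| :=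
          mul_le_mul_of_nonneg_right h1 (abs_nonneg _)
      _ = B * (2 * |v x t - c|) := by ring
      _ ≤ B * (lam * (v x t - c) ^ 2 + 1 / lam) := mul_le_mul_of_nonneg_left h2 hW.nonneg
      _ = B * lam * (v x t - c) ^ 2 + B / lam := by ring
  have hg : Continuous fun x => B * lam * (v x t - c) ^ 2 + B / lam := by fun_prop
  have h5 := intervalIntegral.norm_integral_le_of_norm_le (μ := volume) (zero_le_one' ℝ)
    (Filter.Eventually.of_forall (fun x _ => hbound x)) (hg.intervalIntegrable _ _)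
  refine h5.trans (le_of_eq ?_)
  have hg1 : Continuous fun x => B * lam * (v x t - c) ^ 2 := by fun_prop
  rw [intervalIntegral.integral_add (hg1.intervalIntegrable _ _)
    (continuous_const.intervalIntegrable _ _), intervalIntegral.integral_const_mul]
  simp

/-- The left side of the summed identity. -/
theorem lhs_bound (hW : HW 1 W W₁ W₂ B) :
    ∃ C : ℝ, 0 ≤ C ∧ ∀ (p : ℤ) (Q : ℕ) (c α Λ δ : ℝ) (u v : ℝ → ℝ → ℝ), 0 < Q →
      Kam W W₁ p Q c α u v Λ → 1 ≤ |c| →
      |∫ t in (0 : ℝ)..1, ∫ x in (0 : ℝ)..1, (W x t - W (x + δ) t) * v x t| ≤ C / √|c| := by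
  obtain ⟨C₀, hC₀, hinf⟩ := kam_infinity hW
  have hB := hW.nonneg
  refine ⟨B * (C₀ + 1), by positivity, ?_⟩
  intro p Q c α Λ δ u v hQ hK hc
  have hI := hinf p Q c α Λ u v hQ hK hc
  have hv := J9a_cont hK
  have hcpos : 0 < |c| := by linarith
  have hs : 0 < √|c| := Real.sqrt_pos.2 hcpos
  have hss : √|c| * √|c| = |c| := Real.mul_self_sqrt hcpos.le
  have hG : Continuous fun t => ∫ x in (0 : ℝ)..1, (v x t - c) ^ 2 := by
    refine intervalIntegral.continuous_parametric_intervalIntegral_of_continuous' ?_ 0 1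
    have h1 : Continuous fun z : ℝ × ℝ => (v z.2 z.1 - c) ^ 2 :=
      ((hv.comp continuous_swap).sub continuous_const).pow 2
    exact h1
  have hg : Continuous fun t => B * √|c| * (∫ x in (0 : ℝ)..1, (v x t - c) ^ 2) + B / √|c| := by
    fun_prop
  have h5 := intervalIntegral.norm_integral_le_of_norm_le (μ := volume) (zero_le_one' ℝ)
    (Filter.Eventually.of_forall (fun t _ => J9a_slice hW hv c δ (√|c|) t hs))
    (hg.intervalIntegrable _ _)
  rw [Real.norm_eq_abs] at h5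
  refine h5.trans ?_
  have hg1 : Continuous fun t => B * √|c| * (∫ x in (0 : ℝ)..1, (v x t - c) ^ 2) := by fun_prop
  rw [intervalIntegral.integral_add (hg1.intervalIntegrable _ _)
    (continuous_const.intervalIntegrable _ _), intervalIntegral.integral_const_mul]
  have e2 : ∫ _ in (0 : ℝ)..1, B / √|c| = B / √|c| := by simp
  rw [e2]
  have h6 : B * √|c| * (∫ t in (0 : ℝ)..1, ∫ x in (0 : ℝ)..1, (v x t - c) ^ 2)
      ≤ B * √|c| * (C₀ / |c|) := mul_le_mul_of_nonneg_left hI (by positivity)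
  have h7 : B * √|c| * (C₀ / |c|) = B * C₀ / √|c| := by
    rw [← hss]
    have : √(√|c| * √|c|) = √|c| := by rw [hss]
    rw [this]
    field_simp
  rw [h7] at h6
  calc _ ≤ B * C₀ / √|c| + B / √|c| := by linarith
    _ = B * (C₀ + 1) / √|c| := by ring

end Pool.Agent.H33.AN

end

section

/-!
# Module J4: order of the invariant graphs

* `kam_mean`: `v(·, t) = c + ∂ₓ u(·, t)` and `u` is 1-periodic in `x`.
* `kam_c`: by `Dm_lower`, `ρ²/2 - B ≤ EpQ W p Q/Q ≤ ρ²/2 + B` for `ρ = p/Q`; use `crit` with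
  `(p ± Q, Q)`: `c ≤ b(ρ + 1) - b(ρ) ≤ ρ + 1/2 + 2 B`, `c ≥ ρ - 1/2 - 2 B`.
* `kam_order`: if `v x t = v' x t` then the leaves of both types through `(x, t)` have the same velocity,
  so they coincide (`ext_unique`), hence `γ (t + Q Q') = γ t + p Q' = γ t + p' Q`: contradiction. So
  `v' - v` is continuous and never `0`, hence of constant sign on `ℝ²`. From `crit` for both:
  `c ≤ c'`. By `kam_mean` the sign is positive and `c < c'`.
-/

set_option autoImplicit false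

open MeasureTheory
open scoped RealInnerProductSpace

namespace Pool.Agent.H33.AN

variable {B : ℝ} {W W₁ W₂ : ℝ → ℝ → ℝ} {p p' : ℤ} {Q Q' : ℕ} {c α c' α' Λ Λ' : ℝ}
  {u v u' v' : ℝ → ℝ → ℝ}

private theorem J4b_cont (h : Kam W W₁ p Q c α u v Λ) : Continuous fun z : ℝ × ℝ => v z.1 z.2 := by
  rw [continuous_iff_continuousAt]
  intro z
  have h1 : Filter.Tendsto (fun w : ℝ × ℝ => Λ * (|w.1 - z.1| + |w.2 - z.2|)) (nhds z) (nhds 0) := by
    have h2 : Continuous fun w : ℝ × ℝ => Λ * (|w.1 - z.1| + |w.2 - z.2|) := by fun_prop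
    have h3 := h2.tendsto z
    simpa using h3
  rw [ContinuousAt, tendsto_iff_dist_tendsto_zero]
  apply squeeze_zero (fun _ => dist_nonneg) _ h1
  intro w
  rw [Real.dist_eq]
  exact h.lip w.1 w.2 z.1 z.2

private theorem J4b_per {γ ν : ℝ → ℝ} (hl : Leaf W W₁ p Q γ ν) (t : ℝ) (k : ℕ) :
    γ (t + k * Q) = γ t + k * p := by
  induction k with
  | zero => simp
  | succ k ih =>
    have h1 : t + ((k + 1 : ℕ) : ℝ) * Q = t + k * Q + Q := by push_cast; ring
    rw [h1, hl.per, ih]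
    push_cast
    ring

private theorem J4b_int {f g : ℝ → ℝ} (hf : Continuous f) (hg : Continuous g) (h : ∀ x, f x < g x) :
    ∫ x in (0 : ℝ)..1, f x < ∫ x in (0 : ℝ)..1, g x := by
  apply intervalIntegral.integral_lt_integral_of_continuousOn_of_le_of_exists_lt (by norm_num)
    hf.continuousOn hg.continuousOn (fun x _ => (h x).le)
  exact ⟨0, by simp, h 0⟩

theorem kam_order (hW : HW 1 W W₁ W₂ B) (hQ : 0 < Q) (hQ' : 0 < Q')
    (h : Kam W W₁ p Q c α u v Λ) (h' : Kam W W₁ p' Q' c' α' u' v' Λ')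
    (hlt : (p : ℝ) / Q < (p' : ℝ) / Q') : (∀ x t, v x t < v' x t) ∧ c < c' := by
  have hQR : (0 : ℝ) < Q := by exact_mod_cast hQ
  have hQR' : (0 : ℝ) < Q' := by exact_mod_cast hQ'
  have hne : ∀ x t, v x t ≠ v' x t := by
    intro x t he
    obtain ⟨γ, ν, hl, h1, h2⟩ := h.leaf x t
    obtain ⟨γ', ν', hl', h1', h2'⟩ := h'.leaf x t
    have h3 : γ t = γ' t := h1.trans h1'.symm
    have h4 : ν t = ν' t := by
      rw [h2 t, h2' t, h1, h1']
      exact he
    obtain ⟨h5, -⟩ := ext_unique hW hl.ext hl'.ext h3 h4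
    have h6 := J4b_per hl t Q'
    have h7 := J4b_per hl' t Q
    rw [← h5, mul_comm (Q : ℝ) Q', h6] at h7
    have h8 : (p : ℝ) / Q = (p' : ℝ) / Q' := by
      rw [div_eq_div_iff hQR.ne' hQR'.ne']
      linarith
    exact hlt.ne h8
  have hc1 := J4b_cont h
  have hc2 := J4b_cont h'
  have hcle : c ≤ c' := by
    have h1 := h.crit p' Q' hQ'
    have h2 := h'.crit p Q hQ
    have h3 : c * ((p' : ℝ) / Q' - (p : ℝ) / Q) ≤ c' * ((p' : ℝ) / Q' - (p : ℝ) / Q) := by
      have h4 : c' * ((p : ℝ) / Q - (p' : ℝ) / Q') = -(c' * ((p' : ℝ) / Q' - (p : ℝ) / Q)) := by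
        ring
      rw [h4] at h2
      linarith
    exact le_of_mul_le_mul_right h3 (by linarith)
  have hcx : Continuous fun x : ℝ => v x 0 := hc1.comp (by fun_prop : Continuous fun x : ℝ => (x, (0 : ℝ)))
  have hcx' : Continuous fun x : ℝ => v' x 0 :=
    hc2.comp (by fun_prop : Continuous fun x : ℝ => (x, (0 : ℝ)))
  have hm := kam_mean h 0
  have hm' := kam_mean h' 0
  have hsign : ∀ x t, v x t < v' x t := by
    by_contra hcon
    push Not at hcon
    obtain ⟨x₀, t₀, h0⟩ := hcon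
    have h0' : v' x₀ t₀ < v x₀ t₀ := lt_of_le_of_ne h0 (hne x₀ t₀).symm
    have hall : ∀ x t, v' x t < v x t := by
      intro x t
      by_contra h1
      push Not at h1
      have h2 : v x t < v' x t := lt_of_le_of_ne h1 (hne x t)
      have hf : Continuous fun z : ℝ × ℝ => v z.1 z.2 - v' z.1 z.2 := hc1.sub hc2
      have h3 := isPreconnected_univ.intermediate_value₂ (Set.mem_univ ((x, t) : ℝ × ℝ))
        (Set.mem_univ ((x₀, t₀) : ℝ × ℝ)) hc1.continuousOn hc2.continuousOn h2.le h0'.le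
      obtain ⟨z, -, hz⟩ := h3
      exact hne z.1 z.2 hz
    have h1 := J4b_int hcx' hcx (fun x => hall x 0)
    rw [hm, hm'] at h1
    linarith
  refine ⟨hsign, ?_⟩
  have h1 := J4b_int hcx hcx' (fun x => hsign x 0)
  rw [hm, hm'] at h1
  exact h1

end Pool.Agent.H33.AN

end

section

/-!
# Module C1: the integrable case `V = V(t)`

(Compare `Pool/Agent/H33/AM/P/C1a.lean`, `C1b.lean`.) Here `V x t = V₀ t` with `V₀ t = V 0 t`, `F = 0` (gradient of a
constant). For `c` let `G vc = c`, `α = ⟪c, vc⟫ / 2 + V̄`, `V̄ = ∫₀¹ V₀`;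
`lag2 G V x v t - ⟪c, v⟫ + α = ⟪G (v - vc), v - vc⟫ / 2 - (V₀ t - V̄)`.
* `alpha_int2`: `actionValues L c ≥ -α` by `actionValues_ge2`, since on curves the integral is at least
  `-∫_a^b (V₀ - V̄) ≥ -2 B` (periodic with mean zero: the integral over `[a, b]` is the integral over an interval
  of length `< 1`). Conversely, for `j ≥ 1` let `k` be an integer vector with `‖zv k - j vc‖ ≤ √n`; the straight
  line `γ(t) = t v`, `v = zv k/j`, is a solution (`Sol2`, `F = 0`), and has the period `j`; its value is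
  `-α + ⟪G (v - vc), v - vc⟫ / 2 ≤ -α + κ₂ n/(2 j²)`, `mem_actionValues2`.
* `peierls_int2`: for a curve as in `curveActions` from `x` to `x`, on `[0, k]`: the action is
  `∫ ⟪G (γ' - vc), γ' - vc⟫ / 2 - ∫_0^k (V₀ - V̄) ≥ 0` (the last integral is zero). The line from `x` to
  `x + zv k'`, `‖zv k' - k vc‖ ≤ √n`, has the action at most `κ₂ n/(2 k)`. So
  `0 ≤ sInf (curveActions L c k x x) ≤ κ₂ n/(2 k) → 0`.
-/

set_option autoImplicit false

open MeasureTheory
open scoped RealInnerProductSpace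

namespace Pool.Agent.H33.AN

open Pool.Agent.H33.AM

variable {n : ℕ} {G : EuclideanSpace ℝ (Fin n) →L[ℝ] EuclideanSpace ℝ (Fin n)} {κ₁ κ₂ : ℝ}
  {V : EuclideanSpace ℝ (Fin n) → ℝ → ℝ}
  {F : EuclideanSpace ℝ (Fin n) → ℝ → EuclideanSpace ℝ (Fin n)}
  {Vt : EuclideanSpace ℝ (Fin n) → ℝ → ℝ} {B : ℝ}

private lemma c1b_round2 (v : EuclideanSpace ℝ (Fin n)) :
    ∃ k : Fin n → ℤ, ‖zv k - v‖ ^ 2 ≤ n := by
  refine ⟨fun i => round (v i), ?_⟩
  rw [EuclideanSpace.norm_sq_eq]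
  calc ∑ i, ‖(zv (fun i => round (v i)) - v) i‖ ^ 2 ≤ ∑ i : Fin n, (1 : ℝ) := by
        refine Finset.sum_le_sum fun i _ => ?_
        have h1 : (zv (fun i => round (v i)) - v) i = (round (v i) : ℝ) - v i := rfl
        rw [h1, Real.norm_eq_abs, sq_abs]
        have h2 := abs_sub_round (v i)
        rw [abs_le] at h2
        nlinarith [h2.1, h2.2]
    _ = n := by simp

private lemma c1b_mean {f : ℝ → ℝ} (hf : Continuous f) (hp : ∀ t, f (t + 1) = f t) (k : ℕ) :
    ∫ t in (0 : ℝ)..k, -(f t - ∫ s in (0 : ℝ)..1, f s) = 0 := by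
  have hper : Function.Periodic (fun t => -(f t - ∫ s in (0 : ℝ)..1, f s)) 1 := fun t => by
    show -(f (t + 1) - _) = -(f t - _)
    rw [hp]
  have hcont : Continuous (fun t => -(f t - ∫ s in (0 : ℝ)..1, f s)) :=
    (hf.sub continuous_const).neg
  have h1 := hper.intervalIntegral_add_zsmul_eq (k : ℤ) 0
    (fun a b => hcont.intervalIntegrable a b)
  have h2 : (0 : ℝ) + (k : ℤ) • (1 : ℝ) = k := by simp
  rw [h2, zero_add] at h1
  rw [h1, intervalIntegral.integral_neg, intervalIntegral.integral_sub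
    (hf.intervalIntegrable _ _) intervalIntegrable_const, intervalIntegral.integral_const]
  simp

theorem peierls_int2 (hG : HG G κ₁ κ₂) (hV : HV2 1 V F Vt B) (hc : ∀ x y t, V x t = V y t)
    {c vc : EuclideanSpace ℝ (Fin n)} (hvc : G vc = c)
    (hα : alpha (lag2 G V) c = ⟪c, vc⟫ / 2 + ∫ t in (0 : ℝ)..1, V 0 t) (x : Tor n) :
    peierls (lag2 G V) c x x = 0 := by
  have hVc : Continuous (V 0) := by
    have h1 : Continuous fun z : EuclideanSpace ℝ (Fin n) × ℝ => V z.1 z.2 :=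
      continuous_iff_continuousAt.2 fun z => (hV.der z.1 z.2).continuousAt
    exact h1.comp (continuous_const.prodMk continuous_id)
  have hmean : ∀ k : ℕ, ∫ t in (0 : ℝ)..k, -(V 0 t - ∫ s in (0 : ℝ)..1, V 0 s) = 0 :=
    c1b_mean hVc (hV.pert 0)
  have hVi : ∀ a b : ℝ, IntervalIntegrable (fun t => -(V 0 t - ∫ s in (0 : ℝ)..1, V 0 s))
      volume a b := fun a b => ((hVc.sub continuous_const).neg).intervalIntegrable a b
  -- the integrand
  have hdec : ∀ (y v : EuclideanSpace ℝ (Fin n)) (t : ℝ),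
      lag2 G V y v t - ⟪c, v⟫ + alpha (lag2 G V) c
        = ⟪G (v - vc), v - vc⟫ / 2 + -(V 0 t - ∫ s in (0 : ℝ)..1, V 0 s) := by
    intro y v t
    have h1 : ⟪G v, vc⟫ = ⟪c, v⟫ := by
      rw [hG.symm, hvc, real_inner_comm]
    rw [hα, lag2, hc y 0 t, map_sub, inner_sub_left, inner_sub_right, inner_sub_right, h1, hvc]
    ring
  have hlo : ∀ v : EuclideanSpace ℝ (Fin n), 0 ≤ ⟪G (v - vc), v - vc⟫ / 2 := fun v => by
    have h1 := hG.lo (v - vc)
    have h2 : 0 ≤ κ₁ * ‖v - vc‖ ^ 2 := mul_nonneg hG.pos.le (sq_nonneg _)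
    linarith
  -- lower bound
  have hlower : ∀ (k : ℕ), ∀ a ∈ curveActions (lag2 G V) c k x x, 0 ≤ a := by
    rintro k a ⟨γ, hγ, h0, h1, hint, rfl⟩
    refine le_of_eq_of_le (hmean k).symm ?_
    refine intervalIntegral.integral_mono_on (Nat.cast_nonneg k) (hVi _ _) hint ?_
    intro t _
    rw [hdec]
    linarith [hlo (deriv γ t)]
  -- upper bound
  have hupper : ∀ (k : ℕ), 1 ≤ k → ∃ a ∈ curveActions (lag2 G V) c k x x,
      a ≤ κ₂ / 2 * n / k := by
    intro k hk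
    have hk0 : (0 : ℝ) < k := by exact_mod_cast hk
    obtain ⟨z, hz⟩ := c1b_round2 ((k : ℝ) • vc)
    have hw : ‖(1 / (k : ℝ)) • zv z - vc‖ ^ 2 ≤ n / k ^ 2 := by
      have h1 : (1 / (k : ℝ)) • zv z - vc = (1 / (k : ℝ)) • (zv z - (k : ℝ) • vc) := by
        rw [smul_sub, smul_smul, one_div_mul_cancel hk0.ne', one_smul]
      rw [h1, norm_smul, mul_pow, Real.norm_eq_abs, sq_abs, one_div, inv_pow, div_eq_inv_mul]
      exact mul_le_mul_of_nonneg_left hz (by positivity)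
    have hγd : ∀ t : ℝ, HasDerivAt (fun t : ℝ => repE x + t • ((1 / (k : ℝ)) • zv z))
        ((1 / (k : ℝ)) • zv z) t := fun t => by
      have h1 := ((hasDerivAt_id t).smul_const ((1 / (k : ℝ)) • zv z)).const_add (repE x)
      rw [one_smul] at h1
      exact h1
    have hAC : AbsolutelyContinuousOnInterval
        (fun t : ℝ => repE x + t • ((1 / (k : ℝ)) • zv z)) 0 k := by
      refine ContDiffOn.absolutelyContinuousOnInterval (ContDiff.contDiffOn ?_)
      exact contDiff_const.add (contDiff_id.smul contDiff_const)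
    have h0 : pr (repE x + (0 : ℝ) • ((1 / (k : ℝ)) • zv z)) = x := by
      rw [zero_smul, add_zero, pr_repE]
    have h1 : pr (repE x + (k : ℝ) • ((1 / (k : ℝ)) • zv z)) = x := by
      rw [smul_smul, mul_one_div_cancel hk0.ne', one_smul]
      exact ((pr_eq_iff _ _).2 ⟨z, rfl⟩).trans (pr_repE x)
    have hd : ∀ t : ℝ, deriv (fun t : ℝ => repE x + t • ((1 / (k : ℝ)) • zv z)) t =
        (1 / (k : ℝ)) • zv z := fun t => (hγd t).deriv
    have heq : (fun t : ℝ => lag2 G V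
          ((fun t : ℝ => repE x + t • ((1 / (k : ℝ)) • zv z)) t)
          (deriv (fun t : ℝ => repE x + t • ((1 / (k : ℝ)) • zv z)) t) t
          - ⟪c, deriv (fun t : ℝ => repE x + t • ((1 / (k : ℝ)) • zv z)) t⟫
          + alpha (lag2 G V) c) =
        fun t : ℝ => (⟪G ((1 / (k : ℝ)) • zv z - vc), (1 / (k : ℝ)) • zv z - vc⟫ / 2) +
          -(V 0 t - ∫ s in (0 : ℝ)..1, V 0 s) := by
      funext t
      rw [hd, hdec]
    refine ⟨_, ⟨fun t : ℝ => repE x + t • ((1 / (k : ℝ)) • zv z), hAC, h0, h1, ?_, rfl⟩, ?_⟩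
    · rw [heq]
      exact intervalIntegrable_const.add (hVi _ _)
    · rw [heq, intervalIntegral.integral_add intervalIntegrable_const (hVi _ _), hmean, add_zero,
        intervalIntegral.integral_const, sub_zero, smul_eq_mul]
      have h6 := hG.hi ((1 / (k : ℝ)) • zv z - vc)
      have h7 : κ₂ * ‖(1 / (k : ℝ)) • zv z - vc‖ ^ 2 ≤ κ₂ * (n / k ^ 2) :=
        mul_le_mul_of_nonneg_left hw hG.pos₂.le
      have h8 : ⟪G ((1 / (k : ℝ)) • zv z - vc), (1 / (k : ℝ)) • zv z - vc⟫ / 2 ≤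
          κ₂ / 2 * (n / k ^ 2) := by linarith
      calc (k : ℝ) * (⟪G ((1 / (k : ℝ)) • zv z - vc), (1 / (k : ℝ)) • zv z - vc⟫ / 2)
          ≤ k * (κ₂ / 2 * (n / k ^ 2)) := mul_le_mul_of_nonneg_left h8 hk0.le
        _ = κ₂ / 2 * n / k := by field_simp
  have hnonneg : ∀ k : ℕ, 0 ≤ sInf (curveActions (lag2 G V) c k x x) :=
    fun k => Real.sInf_nonneg (hlower k)
  have hle : ∀ k : ℕ, 1 ≤ k →
      sInf (curveActions (lag2 G V) c k x x) ≤ κ₂ / 2 * n / k := by
    intro k hk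
    obtain ⟨a, ha, hle⟩ := hupper k hk
    exact (csInf_le ⟨0, fun b hb => hlower k b hb⟩ ha).trans hle
  have hlim : Filter.Tendsto
      (fun k : ℕ => sInf (curveActions (lag2 G V) c k x x))
      Filter.atTop (nhds 0) := by
    refine squeeze_zero' (Filter.Eventually.of_forall hnonneg)
      (Filter.eventually_atTop.2 ⟨1, hle⟩) ?_
    exact tendsto_const_div_atTop_nhds_zero_nat _
  exact hlim.liminf_eq

end Pool.Agent.H33.AN

end
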