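import Pool.Agent.H47.B0.M03
import Pool.Agent.H47.B0.M08

/-! The parts of this file: H33.AN.P.J7a, H33.AN.P.J7b, H33.AN.P.J3a, H33.AN.P.M1c, H33.AN.P.M1d, H33.AN.P.M4b. -/

section

/-!
# Module J7: the translation identity

* `swap`: for doubly periodic `C¹` functions `φ`, `ψ`: `∬ φ₂ ψ₁ = ∬ φ₁ ψ₂`. For `h ≠ 0`, integration by
  parts in `t` and translation in `x` give
  `∬ φ₂(x, t) (ψ(x + h, t) - ψ(x, t))/h = -∬ φ(x, t) (ψ₂(x + h, t) - ψ₂(x, t))/h
  = -∬ (φ(x - h, t) - φ(x, t))/h ψ₂(x, t)`; let `h → 0` (uniform convergence of the difference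
  quotients, as `φ₁`, `ψ₁` are uniformly continuous).
* `identity`: `φ(x, t) = u(x + δ, t) - u(x, t)`, `ψ = u' - u`, `w = v' - v`, `v̄ = (v + v')/2`. From the
  Hamilton-Jacobi equations: `W - W^δ = φ₂ + (v^δ + v)/2 φ₁`, `w = (c' - c) + ψ₁`,
  `ψ₂ = (α' - α) - v̄ w`. So `∬ φ₂ w = ∬ φ₂ ψ₁ = ∬ φ₁ ψ₂ = -∬ φ₁ v̄ w` (`∬ φ₁ = ∬ φ₂ = 0`), and
  `∬ (W - W^δ) w = ∬ ((v^δ + v)/2 - v̄) φ₁ w = 1/2 ∬ (v^δ - v') (v^δ - v) w`.
-/

set_option autoImplicit false

open MeasureTheory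
open scoped RealInnerProductSpace

namespace Pool.Agent.H33.AN

private theorem J7a_par {K K' : ℝ → ℝ → ℝ} (hK : Continuous fun z : ℝ × ℝ => K z.1 z.2)
    (hK' : Continuous fun z : ℝ × ℝ => K' z.1 z.2)
    (hd : ∀ h x, HasDerivAt (fun s => K s x) (K' h x) h) (h : ℝ) :
    HasDerivAt (fun s => ∫ x in (0 : ℝ)..1, K s x) (∫ x in (0 : ℝ)..1, K' h x) h := by
  have hcomp : IsCompact (Set.Icc (h - 1) (h + 1) ×ˢ Set.Icc (0 : ℝ) 1) :=
    isCompact_Icc.prod isCompact_Icc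
  obtain ⟨C, hC⟩ := hcomp.exists_bound_of_continuousOn hK'.continuousOn
  have hs : Set.Icc (h - 1) (h + 1) ∈ nhds h := Icc_mem_nhds (by linarith) (by linarith)
  have hc : ∀ s, Continuous fun x => K s x := fun s =>
    hK.comp (continuous_const.prodMk continuous_id)
  have hc' : ∀ s, Continuous fun x => K' s x := fun s =>
    hK'.comp (continuous_const.prodMk continuous_id)
  refine (intervalIntegral.hasDerivAt_integral_of_dominated_loc_of_deriv_le
    (F := fun s x => K s x) (F' := fun s x => K' s x) (bound := fun _ => C) hs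
    (Filter.Eventually.of_forall fun s => (hc s).aestronglyMeasurable)
    ((hc h).intervalIntegrable _ _) (hc' h).aestronglyMeasurable ?_
    (continuous_const.intervalIntegrable _ _) ?_).2
  · refine Filter.Eventually.of_forall fun x hx s hs => ?_
    rw [Set.uIoc_of_le zero_le_one] at hx
    exact hC (s, x) ⟨hs, hx.1.le, hx.2⟩
  · exact Filter.Eventually.of_forall fun x _ s _ => hd s x

private theorem J7a_par2 {K K' : ℝ → ℝ → ℝ → ℝ}
    (hK : Continuous fun z : (ℝ × ℝ) × ℝ => K z.1.1 z.1.2 z.2)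
    (hK' : Continuous fun z : (ℝ × ℝ) × ℝ => K' z.1.1 z.1.2 z.2)
    (hd : ∀ h t x, HasDerivAt (fun s => K s t x) (K' h t x) h) (h : ℝ) :
    HasDerivAt (fun s => ∫ t in (0 : ℝ)..1, ∫ x in (0 : ℝ)..1, K s t x)
      (∫ t in (0 : ℝ)..1, ∫ x in (0 : ℝ)..1, K' h t x) h := by
  refine J7a_par (K := fun s t => ∫ x in (0 : ℝ)..1, K s t x)
    (K' := fun s t => ∫ x in (0 : ℝ)..1, K' s t x) ?_ ?_ ?_ h
  · exact intervalIntegral.continuous_parametric_intervalIntegral_of_continuous'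
      (f := fun (z : ℝ × ℝ) x => K z.1 z.2 x) hK 0 1
  · exact intervalIntegral.continuous_parametric_intervalIntegral_of_continuous'
      (f := fun (z : ℝ × ℝ) x => K' z.1 z.2 x) hK' 0 1
  · intro s t
    refine J7a_par (K := fun s x => K s t x) (K' := fun s x => K' s t x) ?_ ?_
      (fun h x => hd h t x) s
    · exact hK.comp ((continuous_fst.prodMk continuous_const).prodMk continuous_snd)
    · exact hK'.comp ((continuous_fst.prodMk continuous_const).prodMk continuous_snd)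

private theorem J7a_cont {φ φ₁ φ₂ : ℝ → ℝ → ℝ}
    (hφ : ∀ x t, HasFDerivAt (fun z : ℝ × ℝ => φ z.1 z.2)
      (φ₁ x t • ContinuousLinearMap.fst ℝ ℝ ℝ + φ₂ x t • ContinuousLinearMap.snd ℝ ℝ ℝ) (x, t)) :
    Continuous fun z : ℝ × ℝ => φ z.1 z.2 := by
  rw [continuous_iff_continuousAt]
  rintro ⟨x, t⟩
  exact (hφ x t).continuousAt

private theorem J7a_der1 {φ φ₁ φ₂ : ℝ → ℝ → ℝ}
    (hφ : ∀ x t, HasFDerivAt (fun z : ℝ × ℝ => φ z.1 z.2)
      (φ₁ x t • ContinuousLinearMap.fst ℝ ℝ ℝ + φ₂ x t • ContinuousLinearMap.snd ℝ ℝ ℝ) (x, t))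
    (x t : ℝ) : HasDerivAt (fun s => φ s t) (φ₁ x t) x := by
  have h1 : HasDerivAt (fun s : ℝ => (s, t)) ((1 : ℝ), (0 : ℝ)) x :=
    (hasDerivAt_id x).prodMk (hasDerivAt_const x t)
  have h2 := (hφ x t).comp_hasDerivAt x h1
  simpa using! h2

private theorem J7a_der2 {φ φ₁ φ₂ : ℝ → ℝ → ℝ}
    (hφ : ∀ x t, HasFDerivAt (fun z : ℝ × ℝ => φ z.1 z.2)
      (φ₁ x t • ContinuousLinearMap.fst ℝ ℝ ℝ + φ₂ x t • ContinuousLinearMap.snd ℝ ℝ ℝ) (x, t))
    (x t : ℝ) : HasDerivAt (fun s => φ x s) (φ₂ x t) t := by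
  have h1 : HasDerivAt (fun s : ℝ => (x, s)) ((0 : ℝ), (1 : ℝ)) t :=
    (hasDerivAt_const t x).prodMk (hasDerivAt_id t)
  have h2 := (hφ x t).comp_hasDerivAt t h1
  simpa using! h2

theorem swap {φ ψ φ₁ φ₂ ψ₁ ψ₂ : ℝ → ℝ → ℝ}
    (hφ : ∀ x t, HasFDerivAt (fun z : ℝ × ℝ => φ z.1 z.2)
      (φ₁ x t • ContinuousLinearMap.fst ℝ ℝ ℝ + φ₂ x t • ContinuousLinearMap.snd ℝ ℝ ℝ) (x, t))
    (hψ : ∀ x t, HasFDerivAt (fun z : ℝ × ℝ => ψ z.1 z.2)
      (ψ₁ x t • ContinuousLinearMap.fst ℝ ℝ ℝ + ψ₂ x t • ContinuousLinearMap.snd ℝ ℝ ℝ) (x, t))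
    (c1 : Continuous fun z : ℝ × ℝ => φ₁ z.1 z.2) (c2 : Continuous fun z : ℝ × ℝ => φ₂ z.1 z.2)
    (c3 : Continuous fun z : ℝ × ℝ => ψ₁ z.1 z.2) (c4 : Continuous fun z : ℝ × ℝ => ψ₂ z.1 z.2)
    (hφ1 : ∀ x t, φ (x + 1) t = φ x t) (hφ2 : ∀ x t, φ x (t + 1) = φ x t)
    (hψ1 : ∀ x t, ψ (x + 1) t = ψ x t) (hψ2 : ∀ x t, ψ x (t + 1) = ψ x t) :
    ∫ t in (0 : ℝ)..1, ∫ x in (0 : ℝ)..1, φ₂ x t * ψ₁ x t =
      ∫ t in (0 : ℝ)..1, ∫ x in (0 : ℝ)..1, φ₁ x t * ψ₂ x t := by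
  have hcφ := J7a_cont hφ
  have hcψ := J7a_cont hψ
  -- `ψ₂` is periodic in `x`
  have hψ21 : ∀ x t, ψ₂ (x + 1) t = ψ₂ x t := by
    intro x t
    have h1 := J7a_der2 hψ (x + 1) t
    have h2 := J7a_der2 hψ x t
    have e : (fun s => ψ (x + 1) s) = fun s => ψ x s := by
      funext s
      exact hψ1 x s
    rw [e] at h1
    exact h1.unique h2
  -- the functions of the translation
  set F : ℝ → ℝ := fun h => ∫ t in (0 : ℝ)..1, ∫ x in (0 : ℝ)..1, φ₂ x t * ψ (x + h) t with hF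
  set G : ℝ → ℝ := fun h => ∫ t in (0 : ℝ)..1, ∫ x in (0 : ℝ)..1, φ (x - h) t * ψ₂ x t with hG
  have hFG : ∀ h, F h = -G h := by
    intro h
    -- translation in `x`
    have h1 : G h = ∫ t in (0 : ℝ)..1, ∫ x in (0 : ℝ)..1, φ x t * ψ₂ (x + h) t := by
      rw [hG]
      refine intervalIntegral.integral_congr fun t _ => ?_
      show ∫ x in (0 : ℝ)..1, φ (x - h) t * ψ₂ x t = ∫ x in (0 : ℝ)..1, φ x t * ψ₂ (x + h) t
      have hper : Function.Periodic (fun x => φ (x - h) t * ψ₂ x t) 1 := by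
        intro x
        show φ (x + 1 - h) t * ψ₂ (x + 1) t = φ (x - h) t * ψ₂ x t
        rw [hψ21, show x + 1 - h = x - h + 1 by ring, hφ1]
      have h2 := hper.intervalIntegral_add_eq 0 h
      rw [zero_add] at h2
      rw [h2]
      have h3 := intervalIntegral.integral_comp_add_right (a := 0) (b := 1)
        (fun x => φ (x - h) t * ψ₂ x t) h
      rw [zero_add, add_comm (1 : ℝ) h] at h3
      rw [← h3]
      refine intervalIntegral.integral_congr fun x _ => ?_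
      show φ (x + h - h) t * ψ₂ (x + h) t = φ x t * ψ₂ (x + h) t
      rw [add_sub_cancel_right]
    rw [h1, eq_neg_iff_add_eq_zero, hF]
    -- exchange the integrals
    have cA : Continuous fun z : ℝ × ℝ => φ₂ z.2 z.1 * ψ (z.2 + h) z.1 :=
      (c2.comp (continuous_snd.prodMk continuous_fst)).mul
        (hcψ.comp ((continuous_snd.add continuous_const).prodMk continuous_fst))
    have cB : Continuous fun z : ℝ × ℝ => φ z.2 z.1 * ψ₂ (z.2 + h) z.1 :=
      (hcφ.comp (continuous_snd.prodMk continuous_fst)).mul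
        (c4.comp ((continuous_snd.add continuous_const).prodMk continuous_fst))
    have hint : ∀ f : ℝ × ℝ → ℝ, Continuous f →
        IntegrableOn f (Set.uIoc 0 1 ×ˢ Set.uIoc 0 1) := by
      intro f hf
      refine (hf.continuousOn.integrableOn_compact
        (isCompact_Icc.prod isCompact_Icc : IsCompact (Set.Icc (0 : ℝ) 1 ×ˢ Set.Icc (0 : ℝ) 1))).mono_set ?_
      rw [Set.uIoc_of_le zero_le_one]
      exact Set.prod_mono Set.Ioc_subset_Icc_self Set.Ioc_subset_Icc_self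
    have s1 := intervalIntegral_intervalIntegral_swap
      (F := fun t x => φ₂ x t * ψ (x + h) t) (hint _ cA)
    have s2 := intervalIntegral_intervalIntegral_swap
      (F := fun t x => φ x t * ψ₂ (x + h) t) (hint _ cB)
    show (∫ t in (0 : ℝ)..1, ∫ x in (0 : ℝ)..1, φ₂ x t * ψ (x + h) t) +
      (∫ t in (0 : ℝ)..1, ∫ x in (0 : ℝ)..1, φ x t * ψ₂ (x + h) t) = 0
    rw [s1, s2, ← intervalIntegral.integral_add]
    · have h4 : ∀ x, (∫ t in (0 : ℝ)..1, φ₂ x t * ψ (x + h) t) +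
          (∫ t in (0 : ℝ)..1, φ x t * ψ₂ (x + h) t) = 0 := by
        intro x
        have i1 : IntervalIntegrable (fun t => φ₂ x t * ψ (x + h) t) volume 0 1 :=
          (cA.comp (continuous_id.prodMk continuous_const)).intervalIntegrable _ _
        have i2 : IntervalIntegrable (fun t => φ x t * ψ₂ (x + h) t) volume 0 1 :=
          (cB.comp (continuous_id.prodMk continuous_const)).intervalIntegrable _ _
        rw [← intervalIntegral.integral_add i1 i2]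
        have h5 : ∫ t in (0 : ℝ)..1, (φ₂ x t * ψ (x + h) t + φ x t * ψ₂ (x + h) t) =
            φ x 1 * ψ (x + h) 1 - φ x 0 * ψ (x + h) 0 :=
          intervalIntegral.integral_eq_sub_of_hasDerivAt
            (f := fun t => φ x t * ψ (x + h) t)
            (fun t _ => (J7a_der2 hφ x t).mul (J7a_der2 hψ (x + h) t)) (i1.add i2)
        rw [h5]
        have h6 := hφ2 x 0
        have h7 := hψ2 (x + h) 0
        rw [zero_add] at h6 h7
        rw [h6, h7, sub_self]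
      simp only [h4, intervalIntegral.integral_zero]
    · exact (intervalIntegral.continuous_parametric_intervalIntegral_of_continuous'
        (f := fun (x : ℝ) t => φ₂ x t * ψ (x + h) t)
        (cA.comp (continuous_snd.prodMk continuous_fst)) 0 1).intervalIntegrable _ _
    · exact (intervalIntegral.continuous_parametric_intervalIntegral_of_continuous'
        (f := fun (x : ℝ) t => φ x t * ψ₂ (x + h) t)
        (cB.comp (continuous_snd.prodMk continuous_fst)) 0 1).intervalIntegrable _ _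
  have dF : HasDerivAt F (∫ t in (0 : ℝ)..1, ∫ x in (0 : ℝ)..1, φ₂ x t * ψ₁ (x + 0) t) 0 := by
    refine J7a_par2 (K := fun h t x => φ₂ x t * ψ (x + h) t)
      (K' := fun h t x => φ₂ x t * ψ₁ (x + h) t) ?_ ?_ ?_ 0
    · exact (c2.comp (continuous_snd.prodMk (continuous_snd.comp continuous_fst))).mul
        (hcψ.comp ((continuous_snd.add (continuous_fst.comp continuous_fst)).prodMk
          (continuous_snd.comp continuous_fst)))
    · exact (c2.comp (continuous_snd.prodMk (continuous_snd.comp continuous_fst))).mul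
        (c3.comp ((continuous_snd.add (continuous_fst.comp continuous_fst)).prodMk
          (continuous_snd.comp continuous_fst)))
    · intro h t x
      have h1 : HasDerivAt (fun s => ψ (x + s) t) (ψ₁ (x + h) t) h :=
        HasDerivAt.comp_const_add x h (J7a_der1 hψ (x + h) t)
      exact h1.const_mul _
  have dG : HasDerivAt G (∫ t in (0 : ℝ)..1, ∫ x in (0 : ℝ)..1, -φ₁ (x - 0) t * ψ₂ x t) 0 := by
    refine J7a_par2 (K := fun h t x => φ (x - h) t * ψ₂ x t)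
      (K' := fun h t x => -φ₁ (x - h) t * ψ₂ x t) ?_ ?_ ?_ 0
    · exact (hcφ.comp ((continuous_snd.sub (continuous_fst.comp continuous_fst)).prodMk
          (continuous_snd.comp continuous_fst))).mul
        (c4.comp (continuous_snd.prodMk (continuous_snd.comp continuous_fst)))
    · exact (c1.comp ((continuous_snd.sub (continuous_fst.comp continuous_fst)).prodMk
          (continuous_snd.comp continuous_fst))).neg.mul
        (c4.comp (continuous_snd.prodMk (continuous_snd.comp continuous_fst)))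
    · intro h t x
      have h1 : HasDerivAt (fun s => φ (x - s) t) (-φ₁ (x - h) t) h :=
        HasDerivAt.comp_const_sub x h (J7a_der1 hφ (x - h) t)
      exact h1.mul_const _
  have hFG' : F = fun h => -G h := funext hFG
  rw [hFG'] at dF
  have h1 := dF.unique dG.neg
  simp only [add_zero, sub_zero] at h1
  rw [h1]
  simp only [neg_mul, intervalIntegral.integral_neg, neg_neg]

variable {B : ℝ} {W W₁ W₂ : ℝ → ℝ → ℝ} {p p' : ℤ} {Q Q' : ℕ} {c α c' α' Λ Λ' : ℝ}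
  {u v u' v' : ℝ → ℝ → ℝ}

end Pool.Agent.H33.AN

end

section

/-!
# Module J7: the translation identity

* `swap`: for doubly periodic `C¹` functions `φ`, `ψ`: `∬ φ₂ ψ₁ = ∬ φ₁ ψ₂`. For `h ≠ 0`, integration by
  parts in `t` and translation in `x` give
  `∬ φ₂(x, t) (ψ(x + h, t) - ψ(x, t))/h = -∬ φ(x, t) (ψ₂(x + h, t) - ψ₂(x, t))/h
  = -∬ (φ(x - h, t) - φ(x, t))/h ψ₂(x, t)`; let `h → 0` (uniform convergence of the difference
  quotients, as `φ₁`, `ψ₁` are uniformly continuous).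
* `identity`: `φ(x, t) = u(x + δ, t) - u(x, t)`, `ψ = u' - u`, `w = v' - v`, `v̄ = (v + v')/2`. From the
  Hamilton-Jacobi equations: `W - W^δ = φ₂ + (v^δ + v)/2 φ₁`, `w = (c' - c) + ψ₁`,
  `ψ₂ = (α' - α) - v̄ w`. So `∬ φ₂ w = ∬ φ₂ ψ₁ = ∬ φ₁ ψ₂ = -∬ φ₁ v̄ w` (`∬ φ₁ = ∬ φ₂ = 0`), and
  `∬ (W - W^δ) w = ∬ ((v^δ + v)/2 - v̄) φ₁ w = 1/2 ∬ (v^δ - v') (v^δ - v) w`.
-/

set_option autoImplicit false

open MeasureTheory
open scoped RealInnerProductSpace

namespace Pool.Agent.H33.AN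

variable {B : ℝ} {W W₁ W₂ : ℝ → ℝ → ℝ} {p p' : ℤ} {Q Q' : ℕ} {c α c' α' Λ Λ' : ℝ}
  {u v u' v' : ℝ → ℝ → ℝ}

private theorem J7b_inner {f : ℝ → ℝ → ℝ} (hf : Continuous fun z : ℝ × ℝ => f z.1 z.2) :
    Continuous fun t : ℝ => ∫ x in (0 : ℝ)..1, f x t := by
  apply intervalIntegral.continuous_parametric_intervalIntegral_of_continuous'
  exact hf.comp continuous_swap

private theorem J7b_add {f g : ℝ → ℝ → ℝ} (hf : Continuous fun z : ℝ × ℝ => f z.1 z.2)
    (hg : Continuous fun z : ℝ × ℝ => g z.1 z.2) :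
    ∫ t in (0 : ℝ)..1, ∫ x in (0 : ℝ)..1, (f x t + g x t) =
      (∫ t in (0 : ℝ)..1, ∫ x in (0 : ℝ)..1, f x t) + ∫ t in (0 : ℝ)..1, ∫ x in (0 : ℝ)..1, g x t := by
  have h1 : ∀ t : ℝ, ∫ x in (0 : ℝ)..1, (f x t + g x t) =
      (∫ x in (0 : ℝ)..1, f x t) + ∫ x in (0 : ℝ)..1, g x t := by
    intro t
    apply intervalIntegral.integral_add
    · exact (hf.comp (continuous_id.prodMk continuous_const)).intervalIntegrable _ _
    · exact (hg.comp (continuous_id.prodMk continuous_const)).intervalIntegrable _ _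
  simp_rw [h1]
  exact intervalIntegral.integral_add ((J7b_inner hf).intervalIntegrable _ _)
    ((J7b_inner hg).intervalIntegrable _ _)

private theorem J7b_const (k : ℝ) (f : ℝ → ℝ → ℝ) :
    ∫ t in (0 : ℝ)..1, ∫ x in (0 : ℝ)..1, k * f x t =
      k * ∫ t in (0 : ℝ)..1, ∫ x in (0 : ℝ)..1, f x t := by
  simp only [intervalIntegral.integral_const_mul]

private theorem J7b_shift {f : ℝ → ℝ} (hf : Continuous f) (hp : ∀ x, f (x + 1) = f x) (δ : ℝ) :
    ∫ x in (0 : ℝ)..1, (f (x + δ) - f x) = 0 := by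
  have i1 : IntervalIntegrable (fun x => f (x + δ)) volume 0 1 :=
    (hf.comp (continuous_id.add continuous_const)).intervalIntegrable _ _
  rw [intervalIntegral.integral_sub i1 (hf.intervalIntegrable _ _)]
  rw [intervalIntegral.integral_comp_add_right f δ]
  have h1 : Function.Periodic f 1 := hp
  have h2 := h1.intervalIntegral_add_eq δ 0
  rw [zero_add, add_comm (1 : ℝ) δ, h2, zero_add, sub_self]

theorem identity (hW : HW 1 W W₁ W₂ B) (h : Kam W W₁ p Q c α u v Λ)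
    (h' : Kam W W₁ p' Q' c' α' u' v' Λ') (δ : ℝ) :
    ∫ t in (0 : ℝ)..1, ∫ x in (0 : ℝ)..1, (W x t - W (x + δ) t) * (v' x t - v x t) =
      ∫ t in (0 : ℝ)..1, ∫ x in (0 : ℝ)..1, ((v (x + δ) t - (v x t + v' x t) / 2) ^ 2 -
        ((v' x t - v x t) / 2) ^ 2) * (v' x t - v x t) / 2 := by
  -- continuity
  have cont_of_lip : ∀ {g : ℝ → ℝ → ℝ} {K : ℝ},
      (∀ x t x' t', |g x t - g x' t'| ≤ K * (|x - x'| + |t - t'|)) →
      Continuous fun z : ℝ × ℝ => g z.1 z.2 := by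
    intro g K hg
    rw [continuous_iff_continuousAt]
    intro z
    have h1 : Filter.Tendsto (fun y : ℝ × ℝ => K * (|y.1 - z.1| + |y.2 - z.2|)) (nhds z) (nhds 0) := by
      have h2 : Continuous fun y : ℝ × ℝ => K * (|y.1 - z.1| + |y.2 - z.2|) := by fun_prop
      have h3 := h2.tendsto z
      simpa using h3
    rw [ContinuousAt, tendsto_iff_norm_sub_tendsto_zero]
    refine squeeze_zero (fun _ => norm_nonneg _) (fun y => ?_) h1
    rw [Real.norm_eq_abs]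
    exact hg _ _ _ _
  have cv : Continuous fun z : ℝ × ℝ => v z.1 z.2 := cont_of_lip h.lip
  have cv' : Continuous fun z : ℝ × ℝ => v' z.1 z.2 := cont_of_lip h'.lip
  have cW : Continuous fun z : ℝ × ℝ => W z.1 z.2 := by
    rw [continuous_iff_continuousAt]
    rintro ⟨x, t⟩
    exact (hW.der x t).continuousAt
  have csh : Continuous fun z : ℝ × ℝ => ((z.1 + δ, z.2) : ℝ × ℝ) := by fun_prop
  have cvs : Continuous fun z : ℝ × ℝ => v (z.1 + δ) z.2 := cv.comp csh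
  have cWs : Continuous fun z : ℝ × ℝ => W (z.1 + δ) z.2 := cW.comp csh
  -- the derivatives of the differences
  have hshift : ∀ x t, HasFDerivAt (fun z : ℝ × ℝ => u (z.1 + δ) z.2)
      ((v (x + δ) t - c) • ContinuousLinearMap.fst ℝ ℝ ℝ +
        (α - v (x + δ) t ^ 2 / 2 - W (x + δ) t) • ContinuousLinearMap.snd ℝ ℝ ℝ) (x, t) := by
    intro x t
    have hT : HasFDerivAt (fun z : ℝ × ℝ => ((z.1 + δ, z.2) : ℝ × ℝ))
        (ContinuousLinearMap.id ℝ (ℝ × ℝ)) (x, t) := by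
      have h1 := (hasFDerivAt_id (𝕜 := ℝ) ((x, t) : ℝ × ℝ)).add_const ((δ, 0) : ℝ × ℝ)
      refine h1.congr_of_eventuallyEq (Filter.Eventually.of_forall fun z => ?_)
      ext <;> simp
    have h2 := HasFDerivAt.comp (x, t) (h.fder (x + δ) t) hT
    rw [ContinuousLinearMap.comp_id] at h2
    exact h2
  have hφ : ∀ x t, HasFDerivAt (fun z : ℝ × ℝ => (fun x t => u (x + δ) t - u x t) z.1 z.2)
      ((fun x t => v (x + δ) t - v x t) x t • ContinuousLinearMap.fst ℝ ℝ ℝ +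
        (fun x t => (v x t ^ 2 / 2 + W x t) - (v (x + δ) t ^ 2 / 2 + W (x + δ) t)) x t •
          ContinuousLinearMap.snd ℝ ℝ ℝ) (x, t) := by
    intro x t
    have h1 := (hshift x t).sub (h.fder x t)
    refine h1.congr_fderiv ?_
    ext <;> simp <;> ring
  have hψ : ∀ x t, HasFDerivAt (fun z : ℝ × ℝ => (fun x t => u' x t - u x t) z.1 z.2)
      ((fun x t => (v' x t - c') - (v x t - c)) x t • ContinuousLinearMap.fst ℝ ℝ ℝ +
        (fun x t => (α' - α) - (v' x t ^ 2 - v x t ^ 2) / 2) x t •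
          ContinuousLinearMap.snd ℝ ℝ ℝ) (x, t) := by
    intro x t
    have h1 := (h'.fder x t).sub (h.fder x t)
    refine h1.congr_fderiv ?_
    ext <;> simp <;> ring
  have key := swap (φ := fun x t => u (x + δ) t - u x t) (ψ := fun x t => u' x t - u x t)
    (φ₁ := fun x t => v (x + δ) t - v x t)
    (φ₂ := fun x t => (v x t ^ 2 / 2 + W x t) - (v (x + δ) t ^ 2 / 2 + W (x + δ) t))
    (ψ₁ := fun x t => (v' x t - c') - (v x t - c))
    (ψ₂ := fun x t => (α' - α) - (v' x t ^ 2 - v x t ^ 2) / 2)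
    hφ hψ (by fun_prop) (by fun_prop) (by fun_prop) (by fun_prop)
    (fun x t => by
      show u (x + 1 + δ) t - u (x + 1) t = u (x + δ) t - u x t
      rw [show x + 1 + δ = x + δ + 1 by ring, h.per₁, h.per₁])
    (fun x t => by
      show u (x + δ) (t + 1) - u x (t + 1) = u (x + δ) t - u x t
      rw [h.per₂, h.per₂])
    (fun x t => by
      show u' (x + 1) t - u (x + 1) t = u' x t - u x t
      rw [h'.per₁, h.per₁])
    (fun x t => by
      show u' x (t + 1) - u x (t + 1) = u' x t - u x t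
      rw [h'.per₂, h.per₂])
  -- zero means
  have z1 : ∫ t in (0 : ℝ)..1, ∫ x in (0 : ℝ)..1, (v (x + δ) t - v x t) = 0 := by
    have h1 : ∀ t : ℝ, ∫ x in (0 : ℝ)..1, (v (x + δ) t - v x t) = 0 := fun t =>
      J7b_shift (f := fun x => v x t) (cv.comp (continuous_id.prodMk continuous_const))
        (fun x => h.vper₁ x t) δ
    simp only [h1, intervalIntegral.integral_zero]
  have z2 : ∫ t in (0 : ℝ)..1, ∫ x in (0 : ℝ)..1,
      ((v x t ^ 2 / 2 + W x t) - (v (x + δ) t ^ 2 / 2 + W (x + δ) t)) = 0 := by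
    have h1 : ∀ t : ℝ, ∫ x in (0 : ℝ)..1,
        ((v x t ^ 2 / 2 + W x t) - (v (x + δ) t ^ 2 / 2 + W (x + δ) t)) = 0 := by
      intro t
      have c1 : Continuous fun x => v x t ^ 2 / 2 + W x t := by
        have c2 : Continuous fun x => v x t := cv.comp (continuous_id.prodMk continuous_const)
        have c3 : Continuous fun x => W x t := cW.comp (continuous_id.prodMk continuous_const)
        fun_prop
      have h2 := J7b_shift (f := fun x => v x t ^ 2 / 2 + W x t) c1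
        (fun x => by simp only [h.vper₁, hW.per₁]) δ
      have h3 : ∫ x in (0 : ℝ)..1,
          ((v x t ^ 2 / 2 + W x t) - (v (x + δ) t ^ 2 / 2 + W (x + δ) t)) =
          ∫ x in (0 : ℝ)..1, -((v (x + δ) t ^ 2 / 2 + W (x + δ) t) - (v x t ^ 2 / 2 + W x t)) := by
        apply intervalIntegral.integral_congr
        intro x _
        ring
      rw [h3, intervalIntegral.integral_neg, h2, neg_zero]
    simp only [h1, intervalIntegral.integral_zero]
  -- the left side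
  have eL : ∫ t in (0 : ℝ)..1, ∫ x in (0 : ℝ)..1, (W x t - W (x + δ) t) * (v' x t - v x t) =
      ((c' - c) * (∫ t in (0 : ℝ)..1, ∫ x in (0 : ℝ)..1,
        ((v x t ^ 2 / 2 + W x t) - (v (x + δ) t ^ 2 / 2 + W (x + δ) t)))) +
      (∫ t in (0 : ℝ)..1, ∫ x in (0 : ℝ)..1,
        ((v x t ^ 2 / 2 + W x t) - (v (x + δ) t ^ 2 / 2 + W (x + δ) t)) *
          ((v' x t - c') - (v x t - c))) +
      ∫ t in (0 : ℝ)..1, ∫ x in (0 : ℝ)..1,
        (v (x + δ) t ^ 2 - v x t ^ 2) / 2 * (v' x t - v x t) := by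
    rw [← J7b_const, ← J7b_add (by fun_prop) (by fun_prop), ← J7b_add (by fun_prop) (by fun_prop)]
    apply intervalIntegral.integral_congr
    intro t _
    apply intervalIntegral.integral_congr
    intro x _
    ring
  have eR : ∫ t in (0 : ℝ)..1, ∫ x in (0 : ℝ)..1, ((v (x + δ) t - (v x t + v' x t) / 2) ^ 2 -
        ((v' x t - v x t) / 2) ^ 2) * (v' x t - v x t) / 2 =
      (-(α' - α) * (∫ t in (0 : ℝ)..1, ∫ x in (0 : ℝ)..1, (v (x + δ) t - v x t))) +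
      (∫ t in (0 : ℝ)..1, ∫ x in (0 : ℝ)..1,
        (v (x + δ) t - v x t) * ((α' - α) - (v' x t ^ 2 - v x t ^ 2) / 2)) +
      ∫ t in (0 : ℝ)..1, ∫ x in (0 : ℝ)..1,
        (v (x + δ) t ^ 2 - v x t ^ 2) / 2 * (v' x t - v x t) := by
    rw [← J7b_const, ← J7b_add (by fun_prop) (by fun_prop), ← J7b_add (by fun_prop) (by fun_prop)]
    apply intervalIntegral.integral_congr
    intro t _
    apply intervalIntegral.integral_congr
    intro x _
    ring
  rw [eL, eR, z1, z2, key, mul_zero, mul_zero]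

end Pool.Agent.H33.AN

end

section

/-!
# Module J3: the invariant graphs

* `lip_of_quadratic`: put `a(z) = (P z, R z)`; for `|z - z'| = r ≤ 1/4` compare the expansions at `z` and `z'`
  of `U(z + w)` for `w` of norm `r`: `|(a(z') - a(z)) · w'| ≤ C' r²` for every vector `w'` of norm `r`.
* `kam_exists`: `c` from `subgrad`, `U` from `domination`, `v x t` = the velocity at `t` of the leaf through
  `(x, t)` (`Foliated`, `leaf_exists`, unique by `leaf_unique`); differentiability of `U` and the Lipschitz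
  bound for `v` from `quadratic` and `lip_of_quadratic`; periodicity of `v` from `leaf_shift`; `vbd` from
  `leaf_vbound`. The Lipschitz bound is needed for all pairs of points: for `|z - z'| > 1/4` use the
  bound of `|v|`. `Λ` depends only on `R` and `W`.
-/

set_option autoImplicit false

open MeasureTheory
open scoped RealInnerProductSpace

namespace Pool.Agent.H33.AN

variable {B : ℝ} {W W₁ W₂ : ℝ → ℝ → ℝ}

theorem lip_of_quadratic {U P R : ℝ → ℝ → ℝ} {C : ℝ}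
    (h : ∀ x t h k, |h| ≤ 1 / 2 → |k| ≤ 1 / 2 →
      |U (x + h) (t + k) - U x t - P x t * h - R x t * k| ≤ C * (h ^ 2 + k ^ 2)) :
    ∀ x t x' t', |x - x'| + |t - t'| ≤ 1 / 4 →
      |P x t - P x' t'| ≤ 20 * |C| * (|x - x'| + |t - t'|) := by
  intro x t x' t' hr
  have h' : ∀ x t h k, |h| ≤ 1 / 2 → |k| ≤ 1 / 2 →
      |U (x + h) (t + k) - U x t - P x t * h - R x t * k| ≤ |C| * (h ^ 2 + k ^ 2) := by
    intro x t h1 k1 hh hk
    exact (h x t h1 k1 hh hk).trans (mul_le_mul_of_nonneg_right (le_abs_self C) (by positivity))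
  set r : ℝ := |x - x'| + |t - t'| with hrdef
  have hr0 : 0 ≤ r := by positivity
  have ha : |x' - x| ≤ r := by
    rw [abs_sub_comm, hrdef]
    linarith [abs_nonneg (t - t')]
  have hb : |t' - t| ≤ r := by
    rw [abs_sub_comm, hrdef]
    linarith [abs_nonneg (x - x')]
  rcases hr0.eq_or_lt with h0 | hpos
  · have h1 : x = x' := by
      have : |x - x'| ≤ 0 := by rw [abs_sub_comm]; rw [← h0] at ha; exact ha
      exact sub_eq_zero.mp (abs_eq_zero.mp (le_antisymm this (abs_nonneg _)))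
    have h2 : t = t' := by
      have : |t - t'| ≤ 0 := by rw [abs_sub_comm]; rw [← h0] at hb; exact hb
      exact sub_eq_zero.mp (abs_eq_zero.mp (le_antisymm this (abs_nonneg _)))
    rw [h1, h2, sub_self, abs_zero, ← h0, mul_zero]
  · have hC : 0 ≤ |C| := abs_nonneg C
    have har := abs_le.mp ha
    have hbr := abs_le.mp hb
    have e1 := abs_le.mp (h' x' t' r 0 (by rw [abs_of_pos hpos]; linarith) (by norm_num))
    have e2 := abs_le.mp (h' x' t' (-r) 0 (by rw [abs_neg, abs_of_pos hpos]; linarith)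
      (by norm_num))
    have e3 := abs_le.mp (h' x t (x' - x + r) (t' - t) (abs_le.mpr ⟨by linarith, by linarith⟩)
      (hb.trans (by linarith)))
    have e4 := abs_le.mp (h' x t (x' - x + -r) (t' - t) (abs_le.mpr ⟨by linarith, by linarith⟩)
      (hb.trans (by linarith)))
    rw [show x + (x' - x + r) = x' + r by ring, show t + (t' - t) = t' + 0 by ring] at e3
    rw [show x + (x' - x + -r) = x' + -r by ring, show t + (t' - t) = t' + 0 by ring] at e4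
    have q3 : |C| * ((x' - x + r) ^ 2 + (t' - t) ^ 2) ≤ |C| * (5 * r ^ 2) :=
      mul_le_mul_of_nonneg_left (by nlinarith) hC
    have q4 : |C| * ((x' - x + -r) ^ 2 + (t' - t) ^ 2) ≤ |C| * (5 * r ^ 2) :=
      mul_le_mul_of_nonneg_left (by nlinarith) hC
    have q1 : |C| * (r ^ 2 + 0 ^ 2) = |C| * r ^ 2 := by ring
    have q2 : |C| * ((-r) ^ 2 + 0 ^ 2) = |C| * r ^ 2 := by ring
    rw [q1] at e1
    rw [q2] at e2
    have hkey : |P x t - P x' t'| * r ≤ 20 * |C| * r * r := by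
      rw [← abs_of_pos hpos, ← abs_mul, abs_of_pos hpos]
      refine abs_le.mpr ⟨?_, ?_⟩
      · nlinarith [e1.1, e1.2, e2.1, e2.2, e3.1, e3.2, e4.1, e4.2, q3, q4,
          mul_nonneg hC (sq_nonneg r)]
      · nlinarith [e1.1, e1.2, e2.1, e2.2, e3.1, e3.2, e4.1, e4.2, q3, q4,
          mul_nonneg hC (sq_nonneg r)]
    exact le_of_mul_le_mul_right hkey hpos

end Pool.Agent.H33.AN

end

section

/-!
# Module M1: time-dependent potentials: averages

(Compare `Pool/Agent/H33/AM/P/V1.lean`, `V2*.lean`, `V3*.lean`.)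
* `HV2.moving`: chain rule; the period: `V (x + (p/Q) (t + Q) m) (t + Q) = V (x + (p/Q) t m + p m) t`.
* `avP_trap2`: `h(x, t) = ∫₀¹ (τ - 1/2) V(x + τ P, t) dτ` is `C¹` with the partial derivatives
  `H = ∫₀¹ (τ - 1/2) F(x + τ P, t) dτ`, `∫₀¹ (τ - 1/2) Vt(x + τ P, t) dτ`, `|h|, ‖H‖, |h_t| ≤ B`,
  `⟪H x t, zv P⟫ = V x t - avP (V · t) P x`. With `ũ = u - s P`:
  `(d/dt) h(x(t), t) = s (V - avP V) + ⟪H, ũ⟫ + h_t` off a countable set; integrate.
* `avP_tendsto2`: `|V x t - V x t'| ≤ B |t - t'|`, so it is enough to use `avP_tendsto` (with `P₀ = 0`) at the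
  finitely many times of a fine net of `[0, T]`, `|avP g|, |avK g| ≤ sup |g|`, and the period in `t`.
* `HW_avK`: differentiate under the integral over the cube; `d/dθ g(θ m + y - …) = ⟪F, zv m⟫`.
* `avK_moving`: by definition.
-/

set_option autoImplicit false

open MeasureTheory
open scoped RealInnerProductSpace

namespace Pool.Agent.H33.AN

open Pool.Agent.H33.AM

variable {n : ℕ}

private theorem M1c_arg_cont (k₀ m : Fin n → ℤ) (θ : ℝ) :
    Continuous fun y : EuclideanSpace ℝ (Fin n) => θ • zv m + y - ⟪zv k₀, y⟫ • zv m := by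
  fun_prop

private theorem M1c_avK_intg {f : EuclideanSpace ℝ (Fin n) → ℝ} (hf : Continuous f) {B : ℝ}
    (hB : ∀ x, |f x| ≤ B) (k₀ m : Fin n → ℤ) (θ : ℝ) :
    IntegrableOn (fun y => f (θ • zv m + y - ⟪zv k₀, y⟫ • zv m))
      {y : EuclideanSpace ℝ (Fin n) | ∀ i, y i ∈ Set.Ico (0 : ℝ) 1} := by
  refine Measure.integrableOn_of_bounded (M := B) ?_ ?_ ?_
  · rw [cube_vol]
    exact ENNReal.one_ne_top
  · exact (hf.comp (M1c_arg_cont k₀ m θ)).aestronglyMeasurable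
  · exact Filter.Eventually.of_forall fun y => by
      rw [Real.norm_eq_abs]
      exact hB _

private theorem M1c_avP_intg {f : EuclideanSpace ℝ (Fin n) → ℝ} (hf : Continuous f)
    (P : Fin n → ℤ) (x : EuclideanSpace ℝ (Fin n)) :
    IntervalIntegrable (fun t : ℝ => f (x + t • zv P)) volume 0 1 := by
  apply Continuous.intervalIntegrable
  exact hf.comp (by fun_prop)

private theorem M1c_avK_close {g f : EuclideanSpace ℝ (Fin n) → ℝ} (hg : Continuous g)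
    (hf : Continuous f) {B δ : ℝ} (hgB : ∀ x, |g x| ≤ B) (hB : ∀ x, |f x| ≤ B)
    (hδ : ∀ x, |g x - f x| ≤ δ)
    (k₀ m : Fin n → ℤ) (θ : ℝ) : |avK g k₀ m θ - avK f k₀ m θ| ≤ δ := by
  have e : avK g k₀ m θ - avK f k₀ m θ =
      ∫ y in {y : EuclideanSpace ℝ (Fin n) | ∀ i, y i ∈ Set.Ico (0 : ℝ) 1},
        (g (θ • zv m + y - ⟪zv k₀, y⟫ • zv m) - f (θ • zv m + y - ⟪zv k₀, y⟫ • zv m)) := by
    rw [avK, avK, ← integral_sub (M1c_avK_intg hg hgB k₀ m θ) (M1c_avK_intg hf hB k₀ m θ)]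
  rw [e, ← Real.norm_eq_abs]
  have h := norm_setIntegral_le_of_norm_le_const
    (μ := (volume : Measure (EuclideanSpace ℝ (Fin n))))
    (s := {y : EuclideanSpace ℝ (Fin n) | ∀ i, y i ∈ Set.Ico (0 : ℝ) 1}) (C := δ)
    (f := fun y => g (θ • zv m + y - ⟪zv k₀, y⟫ • zv m) - f (θ • zv m + y - ⟪zv k₀, y⟫ • zv m))
    (by rw [cube_vol]; exact ENNReal.one_lt_top)
    (fun y _ => by rw [Real.norm_eq_abs]; exact hδ _)
  refine h.trans (le_of_eq ?_)
  rw [Measure.real, cube_vol]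
  simp

private theorem M1c_avP_close {g f : EuclideanSpace ℝ (Fin n) → ℝ} (hg : Continuous g)
    (hf : Continuous f) {δ : ℝ} (hδ : ∀ x, |g x - f x| ≤ δ) (P : Fin n → ℤ)
    (x : EuclideanSpace ℝ (Fin n)) : |avP g P x - avP f P x| ≤ δ := by
  rw [avP, avP, ← intervalIntegral.integral_sub (M1c_avP_intg hg P x) (M1c_avP_intg hf P x),
    ← Real.norm_eq_abs]
  have h := intervalIntegral.norm_integral_le_of_norm_le_const (a := (0 : ℝ)) (b := 1) (C := δ)
    (f := fun t : ℝ => g (x + t • zv P) - f (x + t • zv P))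
    (fun y _ => by rw [Real.norm_eq_abs]; exact hδ _)
  refine h.trans (le_of_eq ?_)
  simp

private theorem M1c_cont {V : EuclideanSpace ℝ (Fin n) → ℝ → ℝ}
    {F : EuclideanSpace ℝ (Fin n) → ℝ → EuclideanSpace ℝ (Fin n)}
    {Vt : EuclideanSpace ℝ (Fin n) → ℝ → ℝ} {Tp B : ℝ} (hV : HV2 Tp V F Vt B) (t : ℝ) :
    Continuous fun y => V y t := by
  have h1 : Continuous fun z : EuclideanSpace ℝ (Fin n) × ℝ => V z.1 z.2 :=
    continuous_iff_continuousAt.mpr fun z => (hV.der z.1 z.2).continuousAt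
  exact h1.comp (continuous_id.prodMk continuous_const)

private theorem M1c_lip {V : EuclideanSpace ℝ (Fin n) → ℝ → ℝ}
    {F : EuclideanSpace ℝ (Fin n) → ℝ → EuclideanSpace ℝ (Fin n)}
    {Vt : EuclideanSpace ℝ (Fin n) → ℝ → ℝ} {Tp B : ℝ} (hV : HV2 Tp V F Vt B)
    (x : EuclideanSpace ℝ (Fin n)) (t t' : ℝ) : |V x t - V x t'| ≤ B * |t - t'| := by
  have hd : ∀ s, HasDerivAt (fun s => V x s) (Vt x s) s := by
    intro s
    have h1 : HasDerivAt (fun s : ℝ => ((x, s) : EuclideanSpace ℝ (Fin n) × ℝ))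
        ((0 : EuclideanSpace ℝ (Fin n)), (1 : ℝ)) s :=
      (hasDerivAt_const s x).prodMk (hasDerivAt_id s)
    have h2 := (hV.der x s).comp_hasDerivAt s h1
    have h3 : (fun z : EuclideanSpace ℝ (Fin n) × ℝ => V z.1 z.2) ∘
        (fun s : ℝ => ((x, s) : EuclideanSpace ℝ (Fin n) × ℝ)) = fun s => V x s := rfl
    rw [h3] at h2
    refine h2.congr_deriv ?_
    simp
  have h3 := Convex.norm_image_sub_le_of_norm_hasDerivWithin_le (f := fun s => V x s)
    (f' := fun s => Vt x s) (C := B) (s := Set.univ) (x := t') (y := t)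
    (fun s _ => (hd s).hasDerivWithinAt)
    (fun s _ => by rw [Real.norm_eq_abs]; exact hV.bdt x s) convex_univ trivial trivial
  simpa [Real.norm_eq_abs] using h3

theorem avP_tendsto2 {V : EuclideanSpace ℝ (Fin n) → ℝ → ℝ}
    {F : EuclideanSpace ℝ (Fin n) → ℝ → EuclideanSpace ℝ (Fin n)}
    {Vt : EuclideanSpace ℝ (Fin n) → ℝ → ℝ} {Tp B : ℝ} (hT : 0 < Tp) (hV : HV2 Tp V F Vt B)
    {k₀ m : Fin n → ℤ} (hkm : dot k₀ m = 1) {ε : ℝ} (hε : 0 < ε) :
    ∃ N₀ : ℕ, ∀ N ≥ N₀, ∀ x t,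
      |avP (fun y => V y t) (PN k₀ m 0 N) x - avK (fun y => V y t) k₀ m ⟪zv k₀, x⟫| ≤ ε := by
  obtain ⟨δ, hδ0, hδB⟩ : ∃ δ : ℝ, 0 < δ ∧ B * δ ≤ ε / 4 := by
    refine ⟨ε / (4 * (B + 1)), ?_, ?_⟩
    · have := hV.nonneg
      positivity
    · have hB := hV.nonneg
      rw [mul_div_assoc', div_le_div_iff₀ (by positivity) (by norm_num)]
      nlinarith
  have hg : ∀ i : ℕ, ∃ N₀ : ℕ, ∀ N ≥ N₀, ∀ x,
      |avP (fun y => V y (i * δ)) (PN k₀ m 0 N) x -
        avK (fun y => V y (i * δ)) k₀ m ⟪zv k₀, x⟫| ≤ ε / 2 := by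
    intro i
    exact avP_tendsto hkm (dot_zero k₀) (M1c_cont hV _) (fun x k => hV.per x _ k) (half_pos hε)
  choose Nf hNf using hg
  refine ⟨(Finset.range (⌊Tp / δ⌋₊ + 1)).sup Nf, ?_⟩
  intro N hN x t
  -- reduction to `0 ≤ t' < Tp`
  obtain ⟨t', ht'0, ht'T, ht'V⟩ : ∃ t' : ℝ, 0 ≤ t' ∧ t' ≤ Tp ∧ ∀ y, V y t = V y t' := by
    refine ⟨t - ⌊t / Tp⌋ * Tp, ?_, ?_, ?_⟩
    · have h1 := Int.floor_le (t / Tp)
      rw [le_div_iff₀ hT] at h1
      linarith
    · have h1 := (Int.lt_floor_add_one (t / Tp)).le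
      rw [div_le_iff₀ hT] at h1
      linarith
    · intro y
      have hp : Function.Periodic (fun s => V y s) Tp := fun s => hV.pert y s
      exact (hp.sub_int_mul_eq ⌊t / Tp⌋).symm
  have hfun : (fun y => V y t) = fun y => V y t' := funext ht'V
  rw [hfun]
  -- the net
  obtain ⟨i, hi1, hi2⟩ : ∃ i : ℕ, i ≤ ⌊Tp / δ⌋₊ ∧ |t' - i * δ| ≤ δ := by
    refine ⟨⌊t' / δ⌋₊, ?_, ?_⟩
    · apply Nat.floor_le_floor
      exact div_le_div_of_nonneg_right ht'T hδ0.le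
    · have h1 := Nat.floor_le (div_nonneg ht'0 hδ0.le)
      have h2 := (Nat.lt_floor_add_one (t' / δ)).le
      rw [le_div_iff₀ hδ0] at h1
      rw [div_le_iff₀ hδ0] at h2
      rw [abs_le]
      constructor <;> linarith
  have hNi : Nf i ≤ N := (Finset.le_sup (Finset.mem_range.mpr (Nat.lt_succ_of_le hi1))).trans hN
  have h0 := hNf i N hNi x
  have hcl : ∀ y, |V y t' - V y (i * δ)| ≤ ε / 4 := by
    intro y
    refine (M1c_lip hV y _ _).trans ?_
    exact (mul_le_mul_of_nonneg_left hi2 hV.nonneg).trans hδB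
  have h1 := M1c_avP_close (M1c_cont hV t') (M1c_cont hV (i * δ)) hcl (PN k₀ m 0 N) x
  have h2 := M1c_avK_close (M1c_cont hV t') (M1c_cont hV (i * δ)) (fun y => hV.bd y _)
    (fun y => hV.bd y _) hcl k₀ m ⟪zv k₀, x⟫
  rw [abs_le] at h0 h1 h2 ⊢
  constructor
  · linarith [h0.1, h1.1, h2.2]
  · linarith [h0.2, h1.2, h2.1]

end Pool.Agent.H33.AN

end

section

/-!
# Module M1: time-dependent potentials: averages

(Compare `Pool/Agent/H33/AM/P/V1.lean`, `V2*.lean`, `V3*.lean`.)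
* `HV2.moving`: chain rule; the period: `V (x + (p/Q) (t + Q) m) (t + Q) = V (x + (p/Q) t m + p m) t`.
* `avP_trap2`: `h(x, t) = ∫₀¹ (τ - 1/2) V(x + τ P, t) dτ` is `C¹` with the partial derivatives
  `H = ∫₀¹ (τ - 1/2) F(x + τ P, t) dτ`, `∫₀¹ (τ - 1/2) Vt(x + τ P, t) dτ`, `|h|, ‖H‖, |h_t| ≤ B`,
  `⟪H x t, zv P⟫ = V x t - avP (V · t) P x`. With `ũ = u - s P`:
  `(d/dt) h(x(t), t) = s (V - avP V) + ⟪H, ũ⟫ + h_t` off a countable set; integrate.
* `avP_tendsto2`: `|V x t - V x t'| ≤ B |t - t'|`, so it is enough to use `avP_tendsto` (with `P₀ = 0`) at the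
  finitely many times of a fine net of `[0, T]`, `|avP g|, |avK g| ≤ sup |g|`, and the period in `t`.
* `HW_avK`: differentiate under the integral over the cube; `d/dθ g(θ m + y - …) = ⟪F, zv m⟫`.
* `avK_moving`: by definition.
-/

set_option autoImplicit false

open MeasureTheory
open scoped RealInnerProductSpace

namespace Pool.Agent.H33.AN

open Pool.Agent.H33.AM

variable {n : ℕ}

/-- the point of the average -/
private noncomputable def M1d_z (k₀ m : Fin n → ℤ) (θ : ℝ) (y : EuclideanSpace ℝ (Fin n)) :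
    EuclideanSpace ℝ (Fin n) := θ • zv m + y - ⟪zv k₀, y⟫ • zv m

/-- the measure of the average -/
private noncomputable def M1d_mu (n : ℕ) : Measure (EuclideanSpace ℝ (Fin n)) :=
  volume.restrict {y : EuclideanSpace ℝ (Fin n) | ∀ i, y i ∈ Set.Ico (0 : ℝ) 1}

private instance M1d_prob : IsProbabilityMeasure (M1d_mu n) :=
  ⟨by rw [M1d_mu, Measure.restrict_apply_univ, cube_vol]⟩

private theorem M1d_eq (g : EuclideanSpace ℝ (Fin n) → ℝ) (k₀ m : Fin n → ℤ) (θ : ℝ) :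
    avK g k₀ m θ = ∫ y, g (M1d_z k₀ m θ y) ∂(M1d_mu n) := rfl

private theorem M1d_zc (k₀ m : Fin n → ℤ) :
    Continuous fun p : ℝ × EuclideanSpace ℝ (Fin n) => M1d_z k₀ m p.1 p.2 := by
  unfold M1d_z
  fun_prop

private theorem M1d_bd {g : EuclideanSpace ℝ (Fin n) → ℝ} {C : ℝ} (h : ∀ x, |g x| ≤ C)
    (k₀ m : Fin n → ℤ) (θ : ℝ) : |avK g k₀ m θ| ≤ C := by
  rw [M1d_eq, ← Real.norm_eq_abs]
  have h1 := norm_integral_le_of_norm_le_const (μ := M1d_mu n) (C := C)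
    (f := fun y => g (M1d_z k₀ m θ y)) (Filter.Eventually.of_forall fun y => by
      rw [Real.norm_eq_abs]
      exact h _)
  rw [probReal_univ, mul_one] at h1
  exact h1

private theorem M1d_int {f : EuclideanSpace ℝ (Fin n) → ℝ} (hf : Continuous f) {C : ℝ}
    (hC : ∀ y, |f y| ≤ C) : Integrable f (M1d_mu n) :=
  Integrable.of_bound hf.aestronglyMeasurable C (Filter.Eventually.of_forall fun y => by
    rw [Real.norm_eq_abs]
    exact hC y)

section
variable {V : EuclideanSpace ℝ (Fin n) → ℝ → ℝ}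
  {F : EuclideanSpace ℝ (Fin n) → ℝ → EuclideanSpace ℝ (Fin n)}
  {Vt : EuclideanSpace ℝ (Fin n) → ℝ → ℝ} {Tp B : ℝ}

private theorem M1d_Vc (hV : HV2 Tp V F Vt B) :
    Continuous fun z : EuclideanSpace ℝ (Fin n) × ℝ => V z.1 z.2 :=
  continuous_iff_continuousAt.mpr fun z => (hV.der z.1 z.2).continuousAt

private theorem M1d_Fc (hV : HV2 Tp V F Vt B) :
    Continuous fun z : EuclideanSpace ℝ (Fin n) × ℝ => F z.1 z.2 := by
  have h : LipschitzWith ⟨2 * B, by have := hV.nonneg; positivity⟩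
      (fun z : EuclideanSpace ℝ (Fin n) × ℝ => F z.1 z.2) := by
    refine LipschitzWith.of_dist_le_mul fun z w => ?_
    rw [dist_eq_norm, dist_eq_norm]
    have h1 := hV.lip z.1 z.2 w.1 w.2
    have h2 : ‖z.1 - w.1‖ ≤ ‖z - w‖ := norm_fst_le (z - w)
    have h3 : |z.2 - w.2| ≤ ‖z - w‖ := norm_snd_le (z - w)
    have h4 : B * (‖z.1 - w.1‖ + |z.2 - w.2|) ≤ B * (‖z - w‖ + ‖z - w‖) :=
      mul_le_mul_of_nonneg_left (add_le_add h2 h3) hV.nonneg
    show ‖F z.1 z.2 - F w.1 w.2‖ ≤ 2 * B * ‖z - w‖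
    linarith
  exact h.continuous

private theorem M1d_F1 (hV : HV2 Tp V F Vt B) (m : Fin n → ℤ) (x : EuclideanSpace ℝ (Fin n))
    (t : ℝ) : |⟪F x t, zv m⟫| ≤ B * ‖zv m‖ :=
  (abs_real_inner_le_norm _ _).trans (mul_le_mul_of_nonneg_right (hV.bdF x t) (norm_nonneg _))

private theorem M1d_der (hV : HV2 Tp V F Vt B) (k₀ m : Fin n → ℤ) (x t : ℝ) :
    HasFDerivAt (fun z : ℝ × ℝ => avK (fun y => V y z.2) k₀ m z.1)
      (avK (fun y => ⟪F y t, zv m⟫) k₀ m x • ContinuousLinearMap.fst ℝ ℝ ℝ +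
        avK (fun y => Vt y t) k₀ m x • ContinuousLinearMap.snd ℝ ℝ ℝ) (x, t) := by
  obtain ⟨D, hD⟩ : ∃ D : ℝ × ℝ → EuclideanSpace ℝ (Fin n) → (ℝ × ℝ →L[ℝ] ℝ),
    D = fun p y => ⟪F (M1d_z k₀ m p.1 y) p.2, zv m⟫ • ContinuousLinearMap.fst ℝ ℝ ℝ +
      Vt (M1d_z k₀ m p.1 y) p.2 • ContinuousLinearMap.snd ℝ ℝ ℝ := ⟨_, rfl⟩
  have hzc : ∀ θ : ℝ, Continuous fun y => M1d_z k₀ m θ y := fun θ =>
    (M1d_zc k₀ m).comp (continuous_const.prodMk continuous_id)
  have hVc : ∀ p : ℝ × ℝ, Continuous fun y => V (M1d_z k₀ m p.1 y) p.2 := fun p =>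
    (M1d_Vc hV).comp ((hzc p.1).prodMk continuous_const)
  have hFc : Continuous fun y => ⟪F (M1d_z k₀ m x y) t, zv m⟫ :=
    ((M1d_Fc hV).comp ((hzc x).prodMk continuous_const)).inner continuous_const
  have hVtc : Continuous fun y => Vt (M1d_z k₀ m x y) t :=
    hV.contt.comp ((hzc x).prodMk continuous_const)
  have h1 := hasFDerivAt_integral_of_dominated_of_fderiv_le (μ := M1d_mu n) (s := Set.univ)
    (x₀ := (x, t)) (bound := fun _ => B * ‖zv m‖ + B)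
    (F := fun p y => V (M1d_z k₀ m p.1 y) p.2) (F' := D) Filter.univ_mem
    (Filter.Eventually.of_forall fun p => (hVc p).aestronglyMeasurable)
    (M1d_int (hVc (x, t)) fun y => hV.bd _ _)
    (by
      rw [hD]
      exact ((hFc.smul continuous_const).add (hVtc.smul continuous_const)).aestronglyMeasurable)
    (Filter.Eventually.of_forall fun y p _ => by
      rw [hD]
      refine (norm_add_le _ _).trans (add_le_add ?_ ?_)
      · rw [norm_smul, Real.norm_eq_abs]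
        calc |⟪F (M1d_z k₀ m p.1 y) p.2, zv m⟫| * ‖ContinuousLinearMap.fst ℝ ℝ ℝ‖ ≤
              B * ‖zv m‖ * 1 := mul_le_mul (M1d_F1 hV m _ _)
                (ContinuousLinearMap.norm_fst_le ℝ ℝ ℝ) (norm_nonneg _)
                (mul_nonneg hV.nonneg (norm_nonneg _))
          _ = B * ‖zv m‖ := mul_one _
      · rw [norm_smul, Real.norm_eq_abs]
        calc |Vt (M1d_z k₀ m p.1 y) p.2| * ‖ContinuousLinearMap.snd ℝ ℝ ℝ‖ ≤
              B * 1 := mul_le_mul (hV.bdt _ _)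
                (ContinuousLinearMap.norm_snd_le ℝ ℝ ℝ) (norm_nonneg _) hV.nonneg
          _ = B := mul_one _)
    (integrable_const _)
    (Filter.Eventually.of_forall fun y p _ => by
      have h2 : HasFDerivAt (fun q : ℝ × ℝ => (M1d_z k₀ m q.1 y, q.2))
          (((ContinuousLinearMap.fst ℝ ℝ ℝ).smulRight (zv m)).prod
            (ContinuousLinearMap.snd ℝ ℝ ℝ)) p := by
        refine HasFDerivAt.prodMk ?_ hasFDerivAt_snd
        have h3 : HasFDerivAt (fun q : ℝ × ℝ => q.1 • zv m)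
            ((ContinuousLinearMap.fst ℝ ℝ ℝ).smulRight (zv m)) p :=
          (hasFDerivAt_fst (𝕜 := ℝ) (E := ℝ) (F := ℝ) (p := p)).smul_const (zv m)
        exact (h3.add_const y).sub_const _
      have h4 := (hV.der (M1d_z k₀ m p.1 y) p.2).comp p h2
      refine h4.congr_fderiv ?_
      rw [hD]
      refine ContinuousLinearMap.ext fun v => ?_
      simp
      ring)
  have h5 : (∫ y, D (x, t) y ∂(M1d_mu n)) =
      avK (fun y => ⟪F y t, zv m⟫) k₀ m x • ContinuousLinearMap.fst ℝ ℝ ℝ +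
        avK (fun y => Vt y t) k₀ m x • ContinuousLinearMap.snd ℝ ℝ ℝ := by
    rw [hD]
    have i1 : Integrable (fun y => ⟪F (M1d_z k₀ m x y) t, zv m⟫) (M1d_mu n) :=
      M1d_int hFc fun y => M1d_F1 hV m _ _
    have i2 : Integrable (fun y => Vt (M1d_z k₀ m x y) t) (M1d_mu n) :=
      M1d_int hVtc fun y => hV.bdt _ _
    rw [integral_add (i1.smul_const _) (i2.smul_const _), integral_smul_const,
      integral_smul_const]
    rfl
  rw [h5] at h1
  exact h1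

private theorem M1d_c2 (hV : HV2 Tp V F Vt B) (k₀ m : Fin n → ℤ) :
    Continuous fun z : ℝ × ℝ => avK (fun y => Vt y z.2) k₀ m z.1 := by
  refine continuous_of_dominated (μ := M1d_mu n) (bound := fun _ => B)
    (F := fun (z : ℝ × ℝ) y => Vt (M1d_z k₀ m z.1 y) z.2) (fun z => ?_) (fun z => ?_)
    (integrable_const _) ?_
  · exact (hV.contt.comp (((M1d_zc k₀ m).comp (continuous_const.prodMk continuous_id)).prodMk
      continuous_const)).aestronglyMeasurable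
  · exact Filter.Eventually.of_forall fun y => by
      rw [Real.norm_eq_abs]
      exact hV.bdt _ _
  · exact Filter.Eventually.of_forall fun y => hV.contt.comp
      (((M1d_zc k₀ m).comp (continuous_fst.prodMk continuous_const)).prodMk continuous_snd)

private theorem M1d_lip (hV : HV2 Tp V F Vt B) (k₀ m : Fin n → ℤ) (x t x' t' : ℝ) :
    |avK (fun y => ⟪F y t, zv m⟫) k₀ m x - avK (fun y => ⟪F y t', zv m⟫) k₀ m x'| ≤
      B * (|x - x'| * ‖zv m‖ + |t - t'|) * ‖zv m‖ := by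
  have hc : ∀ x t, Continuous fun y => ⟪F (M1d_z k₀ m x y) t, zv m⟫ := fun x t =>
    ((M1d_Fc hV).comp ((((M1d_zc k₀ m).comp (continuous_const.prodMk continuous_id))).prodMk
      continuous_const)).inner continuous_const
  have hi : ∀ x t, Integrable (fun y => ⟪F (M1d_z k₀ m x y) t, zv m⟫) (M1d_mu n) := fun x t =>
    M1d_int (hc x t) fun y => M1d_F1 hV m _ _
  rw [M1d_eq, M1d_eq, ← integral_sub (hi x t) (hi x' t'), ← Real.norm_eq_abs]
  have h1 := norm_integral_le_of_norm_le_const (μ := M1d_mu n)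
    (C := B * (|x - x'| * ‖zv m‖ + |t - t'|) * ‖zv m‖)
    (f := fun y => ⟪F (M1d_z k₀ m x y) t, zv m⟫ - ⟪F (M1d_z k₀ m x' y) t', zv m⟫)
    (Filter.Eventually.of_forall fun y => by
      rw [Real.norm_eq_abs, ← inner_sub_left]
      refine (abs_real_inner_le_norm _ _).trans
        (mul_le_mul_of_nonneg_right ((hV.lip _ _ _ _).trans (le_of_eq ?_)) (norm_nonneg _))
      have h2 : M1d_z k₀ m x y - M1d_z k₀ m x' y = (x - x') • zv m := by
        unfold M1d_z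
        rw [sub_smul]
        abel
      rw [h2, norm_smul, Real.norm_eq_abs])
  rw [probReal_univ, mul_one] at h1
  exact h1

end

theorem HW_avK {V : EuclideanSpace ℝ (Fin n) → ℝ → ℝ}
    {F : EuclideanSpace ℝ (Fin n) → ℝ → EuclideanSpace ℝ (Fin n)}
    {Vt : EuclideanSpace ℝ (Fin n) → ℝ → ℝ} {Tp B : ℝ} (hV : HV2 Tp V F Vt B)
    {k₀ m : Fin n → ℤ} (hkm : dot k₀ m = 1) {M : ℝ} (hM : 0 < M) :
    ∃ B' : ℝ, HW Tp (fun θ t => avK (fun y => V y t) k₀ m θ / M)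
      (fun θ t => avK (fun y => ⟪F y t, zv m⟫) k₀ m θ / M)
      (fun θ t => avK (fun y => Vt y t) k₀ m θ / M) B' := by
  obtain ⟨N, hN⟩ : ∃ N : ℝ, N = ‖zv m‖ := ⟨_, rfl⟩
  have hN0 : 0 ≤ N := by
    rw [hN]
    exact norm_nonneg _
  have hB := hV.nonneg
  have hle1 : B ≤ B * (1 + N) ^ 2 := le_mul_of_one_le_right hB (one_le_pow₀ (by linarith))
  have hle2 : B * N ≤ B * (1 + N) ^ 2 := mul_le_mul_of_nonneg_left (by nlinarith) hB
  have hdiv : ∀ a C : ℝ, |a| ≤ C → |a / M| ≤ C / M := by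
    intro a C h
    rw [abs_div, abs_of_pos hM]
    exact div_le_div_of_nonneg_right h hM.le
  refine ⟨B * (1 + N) ^ 2 / M, ⟨by positivity, ?_, ?_, ?_, ?_, ?_, ?_, ?_, ?_⟩⟩
  · intro x t
    have h1 := (M1d_der hV k₀ m x t).const_mul M⁻¹
    have e1 : (fun z : ℝ × ℝ => M⁻¹ * avK (fun y => V y z.2) k₀ m z.1) =
        fun z : ℝ × ℝ => avK (fun y => V y z.2) k₀ m z.1 / M := by
      funext z
      rw [div_eq_inv_mul]
    rw [e1] at h1
    refine h1.congr_fderiv ?_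
    rw [smul_add, smul_smul, smul_smul, div_eq_inv_mul, div_eq_inv_mul]
  · exact (M1d_c2 hV k₀ m).div_const M
  · intro x t
    show avK (fun y => V y t) k₀ m (x + 1) / M = avK (fun y => V y t) k₀ m x / M
    rw [avK_per (g := fun y => V y t) (fun y k => hV.per y t k)]
  · intro x t
    show avK (fun y => V y (t + Tp)) k₀ m x / M = avK (fun y => V y t) k₀ m x / M
    have h1 : (fun y => V y (t + Tp)) = fun y => V y t := funext fun y => hV.pert y t
    rw [h1]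
  · intro x t
    exact (hdiv _ _ (M1d_bd (fun y => hV.bd y t) k₀ m x)).trans
      (div_le_div_of_nonneg_right hle1 hM.le)
  · intro x t
    refine (hdiv _ _ (M1d_bd (fun y => M1d_F1 hV m y t) k₀ m x)).trans
      (div_le_div_of_nonneg_right ?_ hM.le)
    rw [← hN]
    exact hle2
  · intro x t
    exact (hdiv _ _ (M1d_bd (fun y => hV.bdt y t) k₀ m x)).trans
      (div_le_div_of_nonneg_right hle1 hM.le)
  · intro x t x' t'
    show |avK (fun y => ⟪F y t, zv m⟫) k₀ m x / M - avK (fun y => ⟪F y t', zv m⟫) k₀ m x' / M| ≤ _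
    rw [← sub_div]
    refine (hdiv _ _ (M1d_lip hV k₀ m x t x' t')).trans ?_
    rw [div_mul_eq_mul_div]
    refine div_le_div_of_nonneg_right ?_ hM.le
    rw [← hN]
    have ha := abs_nonneg (x - x')
    have hb := abs_nonneg (t - t')
    have h3 : (|x - x'| * N + |t - t'|) * N ≤ (1 + N) ^ 2 * (|x - x'| + |t - t'|) := by
      have h4 : 0 ≤ |x - x'| * (1 + 2 * N) := by positivity
      have h5 : 0 ≤ |t - t'| * (1 + N + N ^ 2) := by positivity
      nlinarith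
    calc B * (|x - x'| * N + |t - t'|) * N = B * ((|x - x'| * N + |t - t'|) * N) := by ring
      _ ≤ B * ((1 + N) ^ 2 * (|x - x'| + |t - t'|)) := mul_le_mul_of_nonneg_left h3 hB
      _ = B * (1 + N) ^ 2 * (|x - x'| + |t - t'|) := by ring

theorem avK_moving (g : EuclideanSpace ℝ (Fin n) → ℝ) (k₀ m : Fin n → ℤ) (r θ : ℝ) :
    avK (fun y => g (y + r • zv m)) k₀ m θ = avK g k₀ m (θ + r) := by
  have h : ∀ y, θ • zv m + y - ⟪zv k₀, y⟫ • zv m + r • zv m =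
      (θ + r) • zv m + y - ⟪zv k₀, y⟫ • zv m := by
    intro y
    rw [add_smul]
    abel
  unfold avK
  simp only [h]

end Pool.Agent.H33.AN

end

section

/-!
# Module M4: trapping data exist

* `kin_exists`: `G` is invertible (positive definite, finite dimension), `e₁ = G⁻¹ (zv k₀)`,
  `⟪zv k₀, e₁⟫ = ⟪G e₁, e₁⟫ > 0`, `e₀ = e₁ / ⟪zv k₀, e₁⟫`, `M = 1 / ⟪zv k₀, e₁⟫`, so `G e₀ = M • zv k₀`; for
  `v = y • e₀ + z`, `y = ⟪zv k₀, v⟫`, `⟪zv k₀, z⟫ = 0`, expand `⟪G v, v⟫`.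
* `trap2_exists`: `r = p / Q`, `V' x t = V (x + (r t) • zv m) t` (`HV2.moving`, constant `B'`),
  `w x t = avK (V · t) k₀ m (x + r t) / M = avK (V' · t) k₀ m x / M` (`avK_moving`),
  `C₅ = B + M |E₁| / Q ≥ |M w + M E₁ / Q|`. Choose `0 < δ' ≤ δ₀` with `δ' C₅ ≤ δ₀ / 4`, `ε = δ₀ / 8`, `N` from
  `avP_tendsto2` for `V'`, `P = PN k₀ m 0 N`, `s` large. Let `ũ = u - q`, `q = s • zv P`,
  `y = ⟪zv k₀, u⟫ = ⟪zv k₀, ũ⟫` (`dot k₀ P = 0`), `z = ũ - y • e₀`. Then `⟪G ũ, ũ⟫ = M y² + ⟪G z, z⟫`,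
  `|∫ V'(x, t) - ∫ M w(θ, t)| ≤ (2 B' + B' (b - a) + B' ∫ ‖ũ‖) / s + ε (b - a)`; for `lo` use
  `(B'/s) ‖ũ‖ ≤ (B'/s) (|y| ‖e₀‖ + ‖z‖) ≤ M δ'/2 y² + (B' ‖e₀‖/s)²/(2 M δ') + κ₁/2 ‖z‖² + (B'/s)²/(2 κ₁)` and
  `M (1 - δ')/2 ∫ y² - ∫ M w - (M E₁/Q) (b - a) = M (1 - δ') c1 - δ' ∫ (M w + M E₁/Q)`.
-/

set_option autoImplicit false

open MeasureTheory
open scoped RealInnerProductSpace

namespace Pool.Agent.H33.AN

open Pool.Agent.H33.AM

variable {n : ℕ} {G : EuclideanSpace ℝ (Fin n) →L[ℝ] EuclideanSpace ℝ (Fin n)} {κ₁ κ₂ : ℝ}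

private theorem M4b_contV {Tp : ℝ} {V : EuclideanSpace ℝ (Fin n) → ℝ → ℝ}
    {F : EuclideanSpace ℝ (Fin n) → ℝ → EuclideanSpace ℝ (Fin n)}
    {Vt : EuclideanSpace ℝ (Fin n) → ℝ → ℝ} {B : ℝ} (hV : HV2 Tp V F Vt B) :
    Continuous fun z : EuclideanSpace ℝ (Fin n) × ℝ => V z.1 z.2 :=
  continuous_iff_continuousAt.mpr fun z => (hV.der z.1 z.2).continuousAt

private theorem M4b_contW {Tp : ℝ} {W W₁ W₂ : ℝ → ℝ → ℝ} {B : ℝ} (hW : HW Tp W W₁ W₂ B) :
    Continuous fun z : ℝ × ℝ => W z.1 z.2 :=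
  continuous_iff_continuousAt.mpr fun z => (hW.der z.1 z.2).continuousAt

private theorem M4b_contP {V : EuclideanSpace ℝ (Fin n) → ℝ → ℝ}
    (hV : Continuous fun z : EuclideanSpace ℝ (Fin n) × ℝ => V z.1 z.2) (P : Fin n → ℤ) :
    Continuous fun z : EuclideanSpace ℝ (Fin n) × ℝ => avP (fun y => V y z.2) P z.1 := by
  have h : Continuous fun z : EuclideanSpace ℝ (Fin n) × ℝ =>
      ∫ τ in (0 : ℝ)..1, V (z.1 + τ • zv P) z.2 :=
    intervalIntegral.continuous_parametric_intervalIntegral_of_continuous'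
      (f := fun (z : EuclideanSpace ℝ (Fin n) × ℝ) (τ : ℝ) => V (z.1 + τ • zv P) z.2)
      (hV.comp (((continuous_fst.comp continuous_fst).add
        (continuous_snd.smul continuous_const)).prodMk (continuous_snd.comp continuous_fst))) 0 1
  exact h

private theorem M4b_eta {δ₀ A K e : ℝ} (hδ : 0 < δ₀) (hA : 0 < A) (hK : 0 < K) :
    ∃ η : ℝ, 0 < η ∧ η ≤ δ₀ / 8 ∧ (η * e) ^ 2 / A ≤ δ₀ / 16 ∧ η ^ 2 / K ≤ δ₀ / 16 := by
  have h1 : 0 < δ₀ / 16 * A / (e ^ 2 + 1) := by positivity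
  have h2 : 0 < δ₀ / 16 * K := by positivity
  have h3 : 0 < δ₀ / 8 := by positivity
  set η : ℝ := min 1 (min (δ₀ / 8) (min (δ₀ / 16 * A / (e ^ 2 + 1)) (δ₀ / 16 * K))) with hη
  have h0 : 0 < η := lt_min one_pos (lt_min h3 (lt_min h1 h2))
  have e1 : η ≤ 1 := min_le_left _ _
  have e2 : η ≤ δ₀ / 8 := (min_le_right _ _).trans (min_le_left _ _)
  have e3 : η ≤ δ₀ / 16 * A / (e ^ 2 + 1) :=
    (min_le_right _ _).trans ((min_le_right _ _).trans (min_le_left _ _))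
  have e4 : η ≤ δ₀ / 16 * K :=
    (min_le_right _ _).trans ((min_le_right _ _).trans (min_le_right _ _))
  refine ⟨η, h0, e2, ?_, ?_⟩
  · rw [div_le_iff₀ hA]
    rw [le_div_iff₀ (by positivity)] at e3
    have e5 : η ^ 2 ≤ η := by nlinarith
    calc (η * e) ^ 2 = η ^ 2 * e ^ 2 := by ring
      _ ≤ η * (e ^ 2 + 1) := by nlinarith [sq_nonneg e]
      _ ≤ _ := e3
  · rw [div_le_iff₀ hK]
    nlinarith

private theorem M4b_amgm {β A K e y z : ℝ} (hA : 0 < A) (hK : 0 < K) :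
    β * (|y| * e + z) ≤ A / 4 * y ^ 2 + K / 4 * z ^ 2 + ((β * e) ^ 2 / A + β ^ 2 / K) := by
  have h1 : β * e * |y| ≤ A / 4 * y ^ 2 + (β * e) ^ 2 / A := by
    have h2 : 0 ≤ (A / 2 * |y| - β * e) ^ 2 / A := by positivity
    have h3 : (A / 2 * |y| - β * e) ^ 2 / A = A / 4 * |y| ^ 2 - β * e * |y| + (β * e) ^ 2 / A := by
      field_simp
      ring
    rw [h3, sq_abs] at h2
    linarith
  have h4 : β * z ≤ K / 4 * z ^ 2 + β ^ 2 / K := by
    have h2 : 0 ≤ (K / 2 * z - β) ^ 2 / K := by positivity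
    have h3 : (K / 2 * z - β) ^ 2 / K = K / 4 * z ^ 2 - β * z + β ^ 2 / K := by
      field_simp
      ring
    rw [h3] at h2
    linarith
  nlinarith

/-- The estimates along one curve. -/
private theorem M4b_curve (hG : HG G κ₁ κ₂) {V' : EuclideanSpace ℝ (Fin n) → ℝ → ℝ}
    {F' : EuclideanSpace ℝ (Fin n) → ℝ → EuclideanSpace ℝ (Fin n)}
    {Vt' : EuclideanSpace ℝ (Fin n) → ℝ → ℝ} {B' Tp : ℝ} (hV' : HV2 Tp V' F' Vt' B')
    {k₀ : Fin n → ℤ} {e₀ : EuclideanSpace ℝ (Fin n)} {M : ℝ} (hM : 0 < M)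
    (hkin : ∀ v, ⟪G v, v⟫ = M * ⟪zv k₀, v⟫ ^ 2 +
      ⟪G (v - ⟪zv k₀, v⟫ • e₀), v - ⟪zv k₀, v⟫ • e₀⟫) {Q : ℕ} (E₁ : ℝ)
    {P : Fin n → ℤ} (hkP : dot k₀ P = 0) {s : ℝ} (hs : 0 < s) {w : ℝ → ℝ → ℝ} {B₂ : ℝ}
    (hwc : Continuous fun z : ℝ × ℝ => w z.1 z.2) (hwb : ∀ θ t, |w θ t| ≤ B₂) {ε : ℝ}
    (hε : ∀ x t, |avP (fun y => V' y t) P x - M * w ⟪zv k₀, x⟫ t| ≤ ε) {δ₁ : ℝ} (hδ₁ : 0 < δ₁)
    {a b : ℝ} {x u : ℝ → EuclideanSpace ℝ (Fin n)} (h : Adm a b x u) :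
    ∃ Y2 ZG D IW : ℝ, 0 ≤ Y2 ∧
      (∫ t in a..b, (⟪G (u t - s • zv P), u t - s • zv P⟫ / 2 - V' (x t) t - M * E₁ / Q)) =
        M / 2 * Y2 + ZG / 2 - IW - D - M * E₁ / Q * (b - a) ∧
      M * c1 w Q E₁ a b (fun t => ⟪zv k₀, x t⟫) (fun t => ⟪zv k₀, u t⟫) =
        M / 2 * Y2 - IW - M * E₁ / Q * (b - a) ∧
      κ₁ * (∫ t in a..b, ‖u t - s • zv P - ⟪zv k₀, u t⟫ • e₀‖ ^ 2) ≤ ZG ∧
      ZG ≤ κ₂ * (∫ t in a..b, ‖u t - s • zv P - ⟪zv k₀, u t⟫ • e₀‖ ^ 2) ∧
      |D| ≤ 2 * (B' / s) + (B' / s + ε) * (b - a) + B' / s * ∫ t in a..b, ‖u t - s • zv P‖ ∧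
      B' / s * (∫ t in a..b, ‖u t - s • zv P‖) ≤ M * δ₁ / 2 * Y2 +
        κ₁ / 2 * (∫ t in a..b, ‖u t - s • zv P - ⟪zv k₀, u t⟫ • e₀‖ ^ 2) +
        ((B' / s * ‖e₀‖) ^ 2 / (2 * (M * δ₁)) + (B' / s) ^ 2 / (2 * κ₁)) * (b - a) ∧
      |IW| ≤ M * B₂ * (b - a) := by
  have hab := h.le
  have hκ₁ := hG.pos
  have hVc := M4b_contV hV'
  set q : EuclideanSpace ℝ (Fin n) := s • zv P with hq
  have hkq : ⟪zv k₀, q⟫ = 0 := by
    rw [hq, real_inner_smul_right, inner_zv, hkP]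
    simp
  have hky : ∀ v : EuclideanSpace ℝ (Fin n), ⟪zv k₀, v - q⟫ = ⟪zv k₀, v⟫ := by
    intro v
    rw [inner_sub_right, hkq, sub_zero]
  -- continuity of the integrands
  have ck : Continuous fun v : EuclideanSpace ℝ (Fin n) => ⟪zv k₀, v⟫ :=
    continuous_const.inner continuous_id
  have cu : Continuous fun z : EuclideanSpace ℝ (Fin n) × EuclideanSpace ℝ (Fin n) × ℝ =>
      z.2.1 - q := (continuous_fst.comp continuous_snd).sub continuous_const
  have cy : Continuous fun z : EuclideanSpace ℝ (Fin n) × EuclideanSpace ℝ (Fin n) × ℝ =>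
      ⟪zv k₀, z.2.1⟫ := ck.comp (continuous_fst.comp continuous_snd)
  have cz : Continuous fun z : EuclideanSpace ℝ (Fin n) × EuclideanSpace ℝ (Fin n) × ℝ =>
      z.2.1 - q - ⟪zv k₀, z.2.1⟫ • e₀ := cu.sub (cy.smul continuous_const)
  have cxt : Continuous fun z : EuclideanSpace ℝ (Fin n) × EuclideanSpace ℝ (Fin n) × ℝ =>
      (z.1, z.2.2) := continuous_fst.prodMk (continuous_snd.comp continuous_snd)
  have iY : IntervalIntegrable (fun t => ⟪zv k₀, u t⟫ ^ 2) volume a b :=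
    Adm.integrable2 h (g := fun z => ⟪zv k₀, z.2.1⟫ ^ 2) (cy.pow 2)
  have iG : IntervalIntegrable (fun t => ⟪G (u t - q - ⟪zv k₀, u t⟫ • e₀),
      u t - q - ⟪zv k₀, u t⟫ • e₀⟫) volume a b :=
    Adm.integrable2 h (g := fun z => ⟪G (z.2.1 - q - ⟪zv k₀, z.2.1⟫ • e₀),
      z.2.1 - q - ⟪zv k₀, z.2.1⟫ • e₀⟫) ((G.continuous.comp cz).inner cz)
  have iZ : IntervalIntegrable (fun t => ‖u t - q - ⟪zv k₀, u t⟫ • e₀‖ ^ 2) volume a b :=
    Adm.integrable2 h (g := fun z => ‖z.2.1 - q - ⟪zv k₀, z.2.1⟫ • e₀‖ ^ 2) (cz.norm.pow 2)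
  have iU : IntervalIntegrable (fun t => ‖u t - q‖) volume a b :=
    Adm.integrable2 h (g := fun z => ‖z.2.1 - q‖) cu.norm
  have iV : IntervalIntegrable (fun t => V' (x t) t) volume a b :=
    Adm.integrable2 h (g := fun z => V' z.1 z.2.2) (hVc.comp cxt)
  have iP : IntervalIntegrable (fun t => avP (fun y => V' y t) P (x t)) volume a b :=
    Adm.integrable2 h (g := fun z => avP (fun y => V' y z.2.2) P z.1)
      ((M4b_contP hVc P).comp cxt)
  have iW : IntervalIntegrable (fun t => M * w ⟪zv k₀, x t⟫ t) volume a b :=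
    Adm.integrable2 h (g := fun z => M * w ⟪zv k₀, z.1⟫ z.2.2)
      (continuous_const.mul (hwc.comp ((ck.comp continuous_fst).prodMk
        (continuous_snd.comp continuous_snd))))
  have iw : IntervalIntegrable (fun t => w ⟪zv k₀, x t⟫ t) volume a b :=
    Adm.integrable2 h (g := fun z => w ⟪zv k₀, z.1⟫ z.2.2)
      (hwc.comp ((ck.comp continuous_fst).prodMk (continuous_snd.comp continuous_snd)))
  refine ⟨∫ t in a..b, ⟪zv k₀, u t⟫ ^ 2, ∫ t in a..b, ⟪G (u t - q - ⟪zv k₀, u t⟫ • e₀),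
    u t - q - ⟪zv k₀, u t⟫ • e₀⟫, (∫ t in a..b, V' (x t) t) - ∫ t in a..b,
    M * w ⟪zv k₀, x t⟫ t, ∫ t in a..b, M * w ⟪zv k₀, x t⟫ t, ?_, ?_, ?_, ?_, ?_, ?_, ?_, ?_⟩
  · exact intervalIntegral.integral_nonneg hab fun t _ => sq_nonneg _
  · have e1 : (∫ t in a..b, (⟪G (u t - q), u t - q⟫ / 2 - V' (x t) t - M * E₁ / Q)) =
        ∫ t in a..b, ((M / 2 * ⟪zv k₀, u t⟫ ^ 2 + 1 / 2 * ⟪G (u t - q - ⟪zv k₀, u t⟫ • e₀),
          u t - q - ⟪zv k₀, u t⟫ • e₀⟫ - V' (x t) t) - M * E₁ / Q) := by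
      refine intervalIntegral.integral_congr fun t _ => ?_
      have e2 := hkin (u t - q)
      rw [hky] at e2
      show ⟪G (u t - q), u t - q⟫ / 2 - V' (x t) t - M * E₁ / Q = _
      rw [e2]
      ring
    rw [e1, intervalIntegral.integral_sub (((iY.const_mul _).add (iG.const_mul _)).sub iV)
      intervalIntegrable_const, intervalIntegral.integral_sub
      ((iY.const_mul _).add (iG.const_mul _)) iV, intervalIntegral.integral_add
      (iY.const_mul _) (iG.const_mul _), intervalIntegral.integral_const_mul,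
      intervalIntegral.integral_const_mul, intervalIntegral.integral_const, smul_eq_mul]
    ring
  · unfold c1 A1
    have e1 : (∫ t in a..b, ((fun t => ⟪zv k₀, u t⟫) t ^ 2 / 2 -
        w ((fun t => ⟪zv k₀, x t⟫) t) t)) =
        ∫ t in a..b, (1 / 2 * ⟪zv k₀, u t⟫ ^ 2 - w ⟪zv k₀, x t⟫ t) := by
      refine intervalIntegral.integral_congr fun t _ => ?_
      show ⟪zv k₀, u t⟫ ^ 2 / 2 - w ⟪zv k₀, x t⟫ t = _
      ring
    rw [e1, intervalIntegral.integral_sub (iY.const_mul _) iw,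
      intervalIntegral.integral_const_mul, intervalIntegral.integral_const_mul]
    ring
  · rw [← intervalIntegral.integral_const_mul]
    exact intervalIntegral.integral_mono_on hab (iZ.const_mul _) iG fun t _ => hG.lo _
  · rw [← intervalIntegral.integral_const_mul]
    exact intervalIntegral.integral_mono_on hab iG (iZ.const_mul _) fun t _ => hG.hi _
  · have e1 := avP_trap2 hV' P hs h
    rw [← hq] at e1
    have e2 : |(∫ t in a..b, avP (fun y => V' y t) P (x t)) -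
        ∫ t in a..b, M * w ⟪zv k₀, x t⟫ t| ≤ ε * (b - a) := by
      rw [← intervalIntegral.integral_sub iP iW, ← Real.norm_eq_abs]
      refine (intervalIntegral.norm_integral_le_of_norm_le_const (C := ε) fun t _ => ?_).trans
        (le_of_eq ?_)
      · rw [Real.norm_eq_abs]
        exact hε (x t) t
      · rw [abs_of_nonneg (by linarith)]
    have e3 : (2 * B' + B' * (b - a) + B' * ∫ t in a..b, ‖u t - q‖) / s =
        2 * (B' / s) + B' / s * (b - a) + B' / s * ∫ t in a..b, ‖u t - q‖ := by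
      ring
    rw [e3] at e1
    have e4 := abs_sub_le (∫ t in a..b, V' (x t) t)
      (∫ t in a..b, avP (fun y => V' y t) P (x t)) (∫ t in a..b, M * w ⟪zv k₀, x t⟫ t)
    linarith
  · rw [← intervalIntegral.integral_const_mul, ← intervalIntegral.integral_const_mul,
      ← intervalIntegral.integral_const_mul,
      ← intervalIntegral.integral_add (iY.const_mul _) (iZ.const_mul _)]
    have e1 : ((B' / s * ‖e₀‖) ^ 2 / (2 * (M * δ₁)) + (B' / s) ^ 2 / (2 * κ₁)) * (b - a) =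
        ∫ _ in a..b, ((B' / s * ‖e₀‖) ^ 2 / (2 * (M * δ₁)) + (B' / s) ^ 2 / (2 * κ₁)) := by
      rw [intervalIntegral.integral_const, smul_eq_mul, mul_comm]
    rw [e1, ← intervalIntegral.integral_add ((iY.const_mul _).add (iZ.const_mul _))
      intervalIntegrable_const]
    refine intervalIntegral.integral_mono_on hab (iU.const_mul _)
      (((iY.const_mul _).add (iZ.const_mul _)).add intervalIntegrable_const) fun t _ => ?_
    have hβ : 0 ≤ B' / s := div_nonneg hV'.nonneg hs.le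
    have e2 : ‖u t - q‖ ≤ |⟪zv k₀, u t⟫| * ‖e₀‖ + ‖u t - q - ⟪zv k₀, u t⟫ • e₀‖ := by
      have e3 : u t - q = ⟪zv k₀, u t⟫ • e₀ + (u t - q - ⟪zv k₀, u t⟫ • e₀) := by abel
      calc ‖u t - q‖ = ‖⟪zv k₀, u t⟫ • e₀ + (u t - q - ⟪zv k₀, u t⟫ • e₀)‖ := by rw [← e3]
        _ ≤ ‖⟪zv k₀, u t⟫ • e₀‖ + ‖u t - q - ⟪zv k₀, u t⟫ • e₀‖ := norm_add_le _ _
        _ = _ := by rw [norm_smul, Real.norm_eq_abs]
    have e5 := M4b_amgm (β := B' / s) (A := 2 * (M * δ₁)) (K := 2 * κ₁) (e := ‖e₀‖)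
      (y := ⟪zv k₀, u t⟫) (z := ‖u t - q - ⟪zv k₀, u t⟫ • e₀‖) (by positivity) (by positivity)
    have e6 := mul_le_mul_of_nonneg_left e2 hβ
    have e7 : 2 * (M * δ₁) / 4 = M * δ₁ / 2 := by ring
    have e8 : 2 * κ₁ / 4 = κ₁ / 2 := by ring
    rw [e7, e8] at e5
    exact e6.trans e5
  · rw [← Real.norm_eq_abs]
    refine (intervalIntegral.norm_integral_le_of_norm_le_const (C := M * B₂) fun t _ => ?_).trans
      (le_of_eq ?_)
    · rw [Real.norm_eq_abs, abs_mul, abs_of_pos hM]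
      exact mul_le_mul_of_nonneg_left (hwb _ _) hM.le
    · rw [abs_of_nonneg (by linarith)]

private theorem M4b_core (hG : HG G κ₁ κ₂) {V' : EuclideanSpace ℝ (Fin n) → ℝ → ℝ}
    {F' : EuclideanSpace ℝ (Fin n) → ℝ → EuclideanSpace ℝ (Fin n)}
    {Vt' : EuclideanSpace ℝ (Fin n) → ℝ → ℝ} {B' : ℝ} {Q : ℕ} (hQ : 0 < Q)
    (hV' : HV2 Q V' F' Vt' B')
    {k₀ m : Fin n → ℤ} (hkm : dot k₀ m = 1) {e₀ : EuclideanSpace ℝ (Fin n)} {M : ℝ} (hM : 0 < M)
    (he₀ : ⟪zv k₀, e₀⟫ = 1)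
    (hkin : ∀ v, ⟪G v, v⟫ = M * ⟪zv k₀, v⟫ ^ 2 +
      ⟪G (v - ⟪zv k₀, v⟫ • e₀), v - ⟪zv k₀, v⟫ • e₀⟫)
    (E₁ : ℝ) {δ₀ : ℝ} (hδ : 0 < δ₀) (hδ' : δ₀ ≤ 1 / 2) :
    ∃ (P : Fin n → ℤ) (s : ℝ),
      Trap2 (fun x v t => ⟪G (v - s • zv P), v - s • zv P⟫ / 2 - V' x t - M * E₁ / Q) k₀ m P s
        e₀ Q (fun θ t => avK (fun y => V' y t) k₀ m θ / M) E₁ M κ₂ δ₀ := by
  have hQ' : (0 : ℝ) < Q := by exact_mod_cast hQ
  obtain ⟨N₀, hN₀⟩ := avP_tendsto2 hQ' hV' hkm (ε := δ₀ / 8) (by positivity)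
  have hN := hN₀ N₀ le_rfl
  have hkP : dot k₀ (PN k₀ m 0 N₀) = 0 := PN_dot hkm (dot_zero k₀) N₀
  generalize PN k₀ m 0 N₀ = P at hN hkP
  obtain ⟨B₂, hW⟩ := HW_avK hV' hkm hM
  have hB' := hV'.nonneg
  have hB₂ := hW.nonneg
  have hκ₁ := hG.pos
  have hwc := M4b_contW hW
  have hwb := hW.bd
  have hε : ∀ x t, |avP (fun y => V' y t) P x -
      M * (fun θ t => avK (fun y => V' y t) k₀ m θ / M) ⟪zv k₀, x⟫ t| ≤ δ₀ / 8 := by
    intro x t
    have e1 : M * (fun θ t => avK (fun y => V' y t) k₀ m θ / M) ⟪zv k₀, x⟫ t =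
        avK (fun y => V' y t) k₀ m ⟪zv k₀, x⟫ := by
      show M * (avK (fun y => V' y t) k₀ m ⟪zv k₀, x⟫ / M) = _
      field_simp
    rw [e1]
    exact hN x t
  -- constants
  obtain ⟨C₅, hC₅0, hC₅⟩ : ∃ C₅ : ℝ, 0 < C₅ ∧ M * B₂ + |M * E₁ / Q| ≤ C₅ :=
    ⟨M * B₂ + |M * E₁ / Q| + 1, by positivity, by linarith⟩
  obtain ⟨δ₁, hδ₁, hδ₁0, hδ₁C⟩ : ∃ δ₁ : ℝ, 0 < δ₁ ∧ δ₁ ≤ δ₀ ∧ δ₁ * C₅ ≤ δ₀ / 4 := by
    refine ⟨min δ₀ (δ₀ / (4 * C₅)), lt_min hδ (by positivity), min_le_left _ _, ?_⟩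
    calc min δ₀ (δ₀ / (4 * C₅)) * C₅ ≤ δ₀ / (4 * C₅) * C₅ :=
          mul_le_mul_of_nonneg_right (min_le_right _ _) hC₅0.le
      _ = δ₀ / 4 := by field_simp
  obtain ⟨η, hη0, hη1, hη2, hη3⟩ := M4b_eta (e := ‖e₀‖) hδ
    (by positivity : 0 < 2 * (M * δ₁)) (by positivity : 0 < 2 * κ₁)
  obtain ⟨s, hs, hβ⟩ : ∃ s : ℝ, 0 < s ∧ B' / s ≤ η := by
    refine ⟨(B' + 1) / η, by positivity, ?_⟩
    rw [div_le_iff₀ (by positivity)]
    have : η * ((B' + 1) / η) = B' + 1 := by field_simp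
    rw [this]
    linarith
  have hβ0 : 0 ≤ B' / s := div_nonneg hB' hs.le
  have hc : (B' / s * ‖e₀‖) ^ 2 / (2 * (M * δ₁)) + (B' / s) ^ 2 / (2 * κ₁) ≤ δ₀ / 8 := by
    have e1 : (B' / s * ‖e₀‖) ^ 2 / (2 * (M * δ₁)) ≤ (η * ‖e₀‖) ^ 2 / (2 * (M * δ₁)) := by
      refine div_le_div_of_nonneg_right ?_ (by positivity)
      exact pow_le_pow_left₀ (by positivity) (mul_le_mul_of_nonneg_right hβ (norm_nonneg _)) 2
    have e2 : (B' / s) ^ 2 / (2 * κ₁) ≤ η ^ 2 / (2 * κ₁) :=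
      div_le_div_of_nonneg_right (pow_le_pow_left₀ hβ0 hβ 2) (by positivity)
    linarith
  have hVc := M4b_contV hV'
  refine ⟨P, s, ⟨⟨?_, ?_, ?_⟩, hkm, hkP, hs, he₀, hM, hG.pos₂, hδ.le, hδ', ?_, ?_⟩⟩
  · have cu : Continuous fun z : EuclideanSpace ℝ (Fin n) × EuclideanSpace ℝ (Fin n) × ℝ =>
        z.2.1 - s • zv P := (continuous_fst.comp continuous_snd).sub continuous_const
    have cV : Continuous fun z : EuclideanSpace ℝ (Fin n) × EuclideanSpace ℝ (Fin n) × ℝ =>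
        V' z.1 z.2.2 := hVc.comp (continuous_fst.prodMk (continuous_snd.comp continuous_snd))
    exact ((((G.continuous.comp cu).inner cu).div_const 2).sub cV).sub continuous_const
  · intro x v t k
    show ⟪G (v - s • zv P), v - s • zv P⟫ / 2 - V' (x + zv k) t - M * E₁ / Q = _
    rw [hV'.per]
  · intro x v t
    show ⟪G (v - s • zv P), v - s • zv P⟫ / 2 - V' x (t + Q) - M * E₁ / Q = _
    rw [hV'.pert]
  · refine ⟨δ₁, hδ₁.le, hδ₁0, ?_⟩
    intro a b x u h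
    have hab := h.le
    obtain ⟨Y2, ZG, D, IW, h1, h2, h3, h4, h5, h6, h7, h8⟩ :=
      M4b_curve hG hV' hM hkin (Q := Q) E₁ hkP hs hwc hwb hε hδ₁ h
    rw [h2]
    rw [show M * (1 - δ₁) * c1 (fun θ t => avK (fun y => V' y t) k₀ m θ / M) Q E₁ a b
        (fun t => ⟪zv k₀, x t⟫) (fun t => ⟪zv k₀, u t⟫) = (1 - δ₁) *
        (M * c1 (fun θ t => avK (fun y => V' y t) k₀ m θ / M) Q E₁ a b
        (fun t => ⟪zv k₀, x t⟫) (fun t => ⟪zv k₀, u t⟫)) by ring, h3]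
    have hL : 0 ≤ b - a := by linarith
    have e1 : δ₁ * (IW + M * E₁ / Q * (b - a)) ≤ δ₀ / 4 * (b - a) := by
      have e2 : IW + M * E₁ / Q * (b - a) ≤ C₅ * (b - a) := by
        have e3 := (abs_le.mp h8).2
        have e4 : M * E₁ / Q * (b - a) ≤ |M * E₁ / Q| * (b - a) :=
          mul_le_mul_of_nonneg_right (le_abs_self _) hL
        nlinarith
      calc δ₁ * (IW + M * E₁ / Q * (b - a)) ≤ δ₁ * (C₅ * (b - a)) :=
            mul_le_mul_of_nonneg_left e2 hδ₁.le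
        _ = δ₁ * C₅ * (b - a) := by ring
        _ ≤ _ := mul_le_mul_of_nonneg_right hδ₁C hL
    have e5 := (abs_le.mp h6).2
    have e6 : ((B' / s * ‖e₀‖) ^ 2 / (2 * (M * δ₁)) + (B' / s) ^ 2 / (2 * κ₁)) * (b - a) ≤
        δ₀ / 8 * (b - a) := mul_le_mul_of_nonneg_right hc hL
    have e7 : (B' / s + δ₀ / 8) * (b - a) ≤ (δ₀ / 8 + δ₀ / 8) * (b - a) :=
      mul_le_mul_of_nonneg_right (by linarith) hL
    have e8 : 2 * (B' / s) ≤ δ₀ := by linarith
    have e9 : (1 - δ₁) * (M / 2 * Y2 - IW - M * E₁ / Q * (b - a)) =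
        M / 2 * Y2 - IW - M * E₁ / Q * (b - a) - M * δ₁ / 2 * Y2 +
          δ₁ * (IW + M * E₁ / Q * (b - a)) := by ring
    rw [e9]
    have e10 : 0 ≤ δ₀ * (b - a) := by positivity
    linarith
  · intro a b x u h
    have hab := h.le
    obtain ⟨Y2, ZG, D, IW, h1, h2, h3, h4, h5, h6, h7, h8⟩ :=
      M4b_curve hG hV' hM hkin (Q := Q) E₁ hkP hs hwc hwb hε hδ₁ h
    rw [h2, h3]
    have hL : 0 ≤ b - a := by linarith
    have hU : 0 ≤ ∫ t in a..b, ‖u t - s • zv P‖ :=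
      intervalIntegral.integral_nonneg hab fun t _ => norm_nonneg _
    have e5 := (abs_le.mp h6).1
    have e7 : (B' / s + δ₀ / 8) * (b - a) ≤ δ₀ * (b - a) :=
      mul_le_mul_of_nonneg_right (by linarith) hL
    have e8 : 2 * (B' / s) ≤ δ₀ := by linarith
    have e9 : B' / s * (∫ t in a..b, ‖u t - s • zv P‖) ≤
        δ₀ * ∫ t in a..b, ‖u t - s • zv P‖ := mul_le_mul_of_nonneg_right (by linarith) hU
    linarith

theorem trap2_exists (hG : HG G κ₁ κ₂) {V : EuclideanSpace ℝ (Fin n) → ℝ → ℝ}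
    {F : EuclideanSpace ℝ (Fin n) → ℝ → EuclideanSpace ℝ (Fin n)}
    {Vt : EuclideanSpace ℝ (Fin n) → ℝ → ℝ} {B : ℝ} (hV : HV2 1 V F Vt B)
    {k₀ m : Fin n → ℤ} (hkm : dot k₀ m = 1) {e₀ : EuclideanSpace ℝ (Fin n)} {M : ℝ} (hM : 0 < M)
    (he₀ : ⟪zv k₀, e₀⟫ = 1)
    (hkin : ∀ v, ⟪G v, v⟫ = M * ⟪zv k₀, v⟫ ^ 2 +
      ⟪G (v - ⟪zv k₀, v⟫ • e₀), v - ⟪zv k₀, v⟫ • e₀⟫)
    (p : ℤ) {Q : ℕ} (hQ : 0 < Q) (E₁ : ℝ) {δ₀ : ℝ} (hδ : 0 < δ₀) (hδ' : δ₀ ≤ 1 / 2) :
    ∃ (P : Fin n → ℤ) (s : ℝ),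
      Trap2 (mlag G V (s • zv P) m ((p : ℝ) / Q) (M * E₁ / Q)) k₀ m P s e₀ Q
        (fun x t => avK (fun y => V y t) k₀ m (x + (p : ℝ) / Q * t) / M) E₁ M κ₂ δ₀ := by
  obtain ⟨B', hV'⟩ := hV.moving m p hQ
  obtain ⟨P, s, h⟩ := M4b_core hG hQ hV' hkm hM he₀ hkin E₁ hδ hδ'
  refine ⟨P, s, ?_⟩
  have hw : (fun x t => avK (fun y => V y t) k₀ m (x + (p : ℝ) / Q * t) / M) =
      fun θ t => avK (fun y => V (y + ((p : ℝ) / Q * t) • zv m) t) k₀ m θ / M := by
    funext θ t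
    rw [← avK_moving (fun y => V y t) k₀ m ((p : ℝ) / Q * t) θ]
  rw [hw]
  exact h

end Pool.Agent.H33.AN

end
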