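import Pool.Agent.H47.B0.M09
import Pool.Agent.H47.B0.M12

/-! The parts of this file: H33.AN.P.X3c, H33.AN.P.X3d, H33.AN.P.I3, H33.AN.P.J2b, H33.AN.P.L7. -/

section

/-!
# Module X3: from discrete to continuous; periodic orbits

(Compare `Pool/Agent/H33/AM/P/X3b.lean`, `X3c.lean`, `X4.lean`.)
`Y = field2 G' F`, `W = ℝⁿ × ℝⁿ × ℝ`, `τ = T / N`, `v_i = (1/τ) (x_{i+1} - x_i)`, `t_i = i τ`, `z_i = (x_i, v_i, t_i)`,
so that `x_{i+1} = x_i + τ (Y z_i).1`.
* `disc_euler2`: `‖x_i‖ ≤ √n + T R` for `0 ≤ i ≤ N`; `v_{i+1} - v_i = -τ G' (F(x_{i+1}, t_{i+1}))` by `disc_EL2'`, and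
  `‖F(x_{i+1}, t_{i+1}) - F(x_i, t_i)‖ ≤ B (R + 1) τ`.
* `disc_of_curve2`: `y i = x(i τ)` for `0 ≤ i < N`, extended quasi-periodically. Jensen:
  `τ ⟪G c, c⟫ ≤ ∫ ⟪G u, u⟫` on every `[i τ, (i + 1) τ]`, `c` the average of `u`;
  `‖x(t) - x(i τ)‖ ≤ R τ`, so the terms with `V` change by `O(τ)`.
* `per_orbit2_zero`: `G'` from `HG.inv`, `φ` from `exists_flow2`. For `N ≥ 1` let `x^N` be a discrete minimiser
  (`disc_exists2`), `z^N_i` as in `disc_euler2`. By `euler` (with `τ = T/N`, `c = C τ²`)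
  `‖φ (i τ) (z^N_0) - z^N_i‖ ≤ C' τ` for `i ≤ N`. Since `z^N_N = z^N_0 + (zv k, 0, T)` and `z^N_0` is bounded, a
  subsequence `z^N_0 → z*` satisfies `φ T z* = z* + (zv k, 0, T)`, `(z*).2.2 = 0`. The solution
  `γ(t) = (φ t z*).1`, `v(t) = (φ t z*).2.1` (`Sol2_of_flow`) is `T`-periodic modulo `zv k` (uniqueness, `Y` is
  periodic). Action: `|∫_0^T g(φ t z) dt - ∑ τ g(φ (i τ) z)| → 0` and `|g(φ (i τ) z^N_0) - g(z^N_i)| ≤ C'' τ` for
  `g(x, v, t) = lag2 G V x v t` (Lipschitz on bounded sets), so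
  `∫_0^T g(φ t z*) dt = lim Sd2(x^N) ≤ ∫ lag2(x, u) + ε` by `disc_of_curve2`, for every `ε > 0`.
* `per_orbit2`: translate the time by `s` (`HV2.shift`), use `per_orbit2_zero`, translate back.
-/

set_option autoImplicit false

open MeasureTheory
open scoped RealInnerProductSpace

namespace Pool.Agent.H33.AN

open Pool.Agent.H33.AM

variable {n : ℕ} {G G' : EuclideanSpace ℝ (Fin n) →L[ℝ] EuclideanSpace ℝ (Fin n)} {κ₁ κ₂ : ℝ}
  {V : EuclideanSpace ℝ (Fin n) → ℝ → ℝ}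
  {F : EuclideanSpace ℝ (Fin n) → ℝ → EuclideanSpace ℝ (Fin n)}
  {Vt : EuclideanSpace ℝ (Fin n) → ℝ → ℝ} {B : ℝ} {T : ℕ}

section riem

variable {W : Type*} [NormedAddCommGroup W] [ProperSpace W]

private lemma X3c_riemann_sum {g : W → ℝ} (hg : Continuous g) {φ : ℝ → W → W}
    (hφ : Continuous fun p : ℝ × W => φ p.1 p.2) {T R C : ℝ} (hT : 0 < T) {zs : W}
    (hzs : ‖zs‖ ≤ R) {ε : ℝ} (hε : 0 < ε) :
    ∃ δ > 0, ∀ (N : ℕ) (z : ℕ → W), 0 < N → T / N < δ → ‖z 0 - zs‖ < δ → (∀ i ≤ N, ‖z i‖ ≤ R) →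
      (∀ i ≤ N, ‖φ (i * (T / N)) (z 0) - z i‖ ≤ C * (T / N)) →
      |(∫ t in (0 : ℝ)..T, g (φ t zs)) - ∑ i ∈ Finset.range N, (T / N) * g (z i)| ≤ ε := by
  set Φ : ℝ × W → W := fun p => φ p.1 p.2 with hΦ
  set K1 : Set (ℝ × W) := Set.Icc 0 T ×ˢ Metric.closedBall 0 R with hK1
  have hK1c : IsCompact K1 := isCompact_Icc.prod (isCompact_closedBall 0 R)
  obtain ⟨R1, hR1⟩ := (hK1c.image hφ).isBounded.exists_norm_le
  set B1 : Set W := Metric.closedBall 0 (max R R1) with hB1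
  have hB1c : IsCompact B1 := isCompact_closedBall 0 _
  have hgu : UniformContinuousOn g B1 := hB1c.uniformContinuousOn_of_continuous hg.continuousOn
  have hΦu : UniformContinuousOn Φ K1 := hK1c.uniformContinuousOn_of_continuous hφ.continuousOn
  rw [Metric.uniformContinuousOn_iff] at hgu hΦu
  obtain ⟨δ1, hδ1, H1⟩ := hgu (ε / T) (by positivity)
  obtain ⟨δ2, hδ2, H2⟩ := hΦu (δ1 / 2) (by positivity)
  refine ⟨min δ2 (δ1 / (2 * (|C| + 1))), lt_min hδ2 (by positivity), ?_⟩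
  intro N z hN hτ hz0 hzR hzφ
  have hN' : (0:ℝ) < N := by exact_mod_cast hN
  set τ := T / N with hτd
  have hτ0 : 0 < τ := by positivity
  have hNτ : N * τ = T := by rw [hτd]; field_simp
  have t1 : τ < δ2 := hτ.trans_le (min_le_left _ _)
  have t2 : τ < δ1 / (2 * (|C| + 1)) := hτ.trans_le (min_le_right _ _)
  have t3 : C * τ ≤ δ1 / 2 := by
    rw [lt_div_iff₀ (by positivity)] at t2
    nlinarith [le_abs_self C, abs_nonneg C]
  set a : ℕ → ℝ := fun i => i * τ with ha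
  have hcont : Continuous fun t => g (φ t zs) :=
    hg.comp (hφ.comp (continuous_id.prodMk continuous_const))
  have hint : ∀ x y : ℝ, IntervalIntegrable (fun t => g (φ t zs)) volume x y :=
    fun x y => hcont.intervalIntegrable x y
  have hsum : ∑ i ∈ Finset.range N, ∫ t in a i..a (i + 1), g (φ t zs) =
      ∫ t in (0 : ℝ)..T, g (φ t zs) := by
    rw [intervalIntegral.sum_integral_adjacent_intervals (fun i _ => hint _ _)]
    simp only [ha, Nat.cast_zero, zero_mul]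
    rw [hNτ]
  rw [← hsum, ← Finset.sum_sub_distrib]
  have key : ∀ i ∈ Finset.range N,
      |(∫ t in a i..a (i + 1), g (φ t zs)) - τ * g (z i)| ≤ ε / T * τ := by
    intro i hi
    rw [Finset.mem_range] at hi
    have hi' : (i:ℝ) + 1 ≤ N := by exact_mod_cast hi
    have e1 : a (i + 1) - a i = τ := by
      simp only [ha]
      push_cast
      ring
    have e0 : a i ≤ a (i + 1) := by linarith
    have e2 : (∫ t in a i..a (i + 1), g (φ t zs)) - τ * g (z i) =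
        ∫ t in a i..a (i + 1), (g (φ t zs) - g (z i)) := by
      rw [intervalIntegral.integral_sub (hint _ _) (continuous_const.intervalIntegrable _ _),
        intervalIntegral.integral_const, e1, smul_eq_mul]
    rw [e2]
    have e3 := intervalIntegral.norm_integral_le_of_norm_le_const (a := a i) (b := a (i + 1))
      (f := fun t => g (φ t zs) - g (z i)) (C := ε / T) ?_
    · rw [e1, abs_of_pos hτ0, Real.norm_eq_abs] at e3
      exact e3
    · intro t ht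
      rw [Set.uIoc_of_le e0] at ht
      obtain ⟨ht1, ht2⟩ := ht
      have hai : 0 ≤ a i := by simp only [ha]; positivity
      have haT : a (i + 1) ≤ T := by
        rw [← hNτ]
        simp only [ha]
        push_cast
        exact mul_le_mul_of_nonneg_right hi' hτ0.le
      have m1 : (t, zs) ∈ K1 := by
        refine ⟨⟨by simp only; linarith, by simp only; linarith⟩, ?_⟩
        rw [mem_closedBall_zero_iff]
        exact hzs
      have m2 : (a i, z 0) ∈ K1 := by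
        refine ⟨⟨hai, by simp only; linarith⟩, ?_⟩
        rw [mem_closedBall_zero_iff]
        exact hzR 0 (Nat.zero_le _)
      have d1 : dist (t, zs) (a i, z 0) < δ2 := by
        rw [Prod.dist_eq, max_lt_iff]
        constructor
        · simp only
          rw [Real.dist_eq, abs_of_nonneg (by linarith)]
          linarith
        · simp only
          rw [dist_comm, dist_eq_norm]
          exact hz0.trans_le (min_le_left _ _)
      have d2 := H2 _ m1 _ m2 d1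
      have d3 : dist (φ (a i) (z 0)) (z i) ≤ C * τ := by
        rw [dist_eq_norm]
        exact hzφ i hi.le
      have d4 : dist (φ t zs) (z i) < δ1 := by
        calc dist (φ t zs) (z i) ≤ dist (φ t zs) (φ (a i) (z 0)) + dist (φ (a i) (z 0)) (z i) :=
              dist_triangle _ _ _
          _ < δ1 / 2 + δ1 / 2 := add_lt_add_of_lt_of_le d2 (d3.trans t3)
          _ = δ1 := by ring
      have m3 : φ t zs ∈ B1 := by
        rw [hB1, mem_closedBall_zero_iff]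
        exact (hR1 _ ⟨_, m1, rfl⟩).trans (le_max_right _ _)
      have m4 : z i ∈ B1 := by
        rw [hB1, mem_closedBall_zero_iff]
        exact (hzR i hi.le).trans (le_max_left _ _)
      have d5 := H1 _ m3 _ m4 d4
      rw [← dist_eq_norm]
      exact d5.le
  calc |∑ i ∈ Finset.range N, ((∫ t in a i..a (i + 1), g (φ t zs)) - τ * g (z i))|
      ≤ ∑ i ∈ Finset.range N, |(∫ t in a i..a (i + 1), g (φ t zs)) - τ * g (z i)| :=
        Finset.abs_sum_le_sum_abs _ _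
    _ ≤ ∑ i ∈ Finset.range N, ε / T * τ := Finset.sum_le_sum key
    _ = ε := by
        rw [Finset.sum_const, Finset.card_range, nsmul_eq_mul, ← hNτ]
        field_simp

end riem

theorem per_orbit2_zero (hG : HG G κ₁ κ₂) (hV : HV2 1 V F Vt B) (hT : 0 < T)
    {x u : ℝ → EuclideanSpace ℝ (Fin n)} (h : Adm 0 T x u) {k : Fin n → ℤ}
    (hx : x T = x 0 + zv k) :
    ∃ γ v : ℝ → EuclideanSpace ℝ (Fin n), Sol2 G F γ v ∧ (∀ t, γ (t + T) = γ t + zv k) ∧
      (∀ t, v (t + T) = v t) ∧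
      ∫ t in (0 : ℝ)..T, lag2 G V (γ t) (v t) t ≤ ∫ t in (0 : ℝ)..T, lag2 G V (x t) (u t) t := by
  obtain ⟨G', hG1, hG2⟩ := hG.inv
  have hT' : (0 : ℝ) < (T : ℝ) := by exact_mod_cast hT
  obtain ⟨φ, hφ, hφt⟩ := exists_flow2 (G' := G') hV
  obtain ⟨K, hK⟩ := field2_lip (G' := G') hV
  set Y := field2 G' F with hY
  have hloc : ∀ R : ℝ, ∃ K : NNReal, LipschitzOnWith K Y (Metric.closedBall 0 R) :=
    fun R => ⟨K, hK.lipschitzOnWith⟩
  have hgr : ∀ z, ‖Y z‖ ≤ (‖Y 0‖ + K) * (1 + ‖z‖) := by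
    intro z
    have h1 := hK.dist_le_mul z 0
    rw [dist_eq_norm, dist_eq_norm, sub_zero] at h1
    have h2 : ‖Y z‖ ≤ ‖Y z - Y 0‖ + ‖Y 0‖ := by
      have := norm_add_le (Y z - Y 0) (Y 0)
      rwa [sub_add_cancel] at this
    have h3 := norm_nonneg z
    have h4 := norm_nonneg (Y 0)
    have h5 : (0 : ℝ) ≤ K := K.2
    nlinarith
  -- discrete minimisers
  have hex : ∀ N : ℕ, ∃ x : ℤ → EuclideanSpace ℝ (Fin n), IsDM2 G V T (N + 1) k x ∧
      ∀ j, x 0 j ∈ Set.Icc (0 : ℝ) 1 := fun N => disc_exists2 hG hV hT (Nat.succ_pos N) k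
  choose X hX hX0 using hex
  set Z : ℕ → ℕ → EuclideanSpace ℝ (Fin n) × EuclideanSpace ℝ (Fin n) × ℝ := fun N i =>
    (X N i, ((1 : ℝ) / ((T : ℝ) / ((N + 1 : ℕ) : ℝ))) • (X N (i + 1) - X N i),
      (i : ℝ) * ((T : ℝ) / ((N + 1 : ℕ) : ℝ))) with hZ
  obtain ⟨R, C, hRC⟩ := disc_euler2 hG hV hG2 hT k
  have hR : ∀ N, ∀ i ≤ N + 1, ‖Z N i‖ ≤ R := fun N =>
    (hRC (N + 1) (X N) (Nat.succ_pos N) (hX N) (hX0 N) (Z N) (fun i => rfl)).1
  have hC : ∀ N, ∀ i < N + 1, ‖Z N (i + 1) - Z N i - ((T : ℝ) / ((N + 1 : ℕ) : ℝ)) • Y (Z N i)‖ ≤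
      C * ((T : ℝ) / ((N + 1 : ℕ) : ℝ)) ^ 2 := fun N =>
    (hRC (N + 1) (X N) (Nat.succ_pos N) (hX N) (hX0 N) (Z N) (fun i => rfl)).2
  obtain ⟨C₂, hC₂⟩ := euler hloc hgr hφ R T
  have hE : ∀ N i : ℕ, i ≤ N + 1 →
      ‖φ ((i : ℝ) * ((T : ℝ) / ((N + 1 : ℕ) : ℝ))) (Z N 0) - Z N i‖ ≤
      (C₂ * (1 + |C|)) * ((T : ℝ) / ((N + 1 : ℕ) : ℝ)) := by
    intro N i hi
    have hN' : (0:ℝ) < ((N + 1 : ℕ) : ℝ) := by positivity
    have hτ : 0 < (T : ℝ) / ((N + 1 : ℕ) : ℝ) := by positivity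
    have h := hC₂ ((T : ℝ) / ((N + 1 : ℕ) : ℝ)) (|C| * ((T : ℝ) / ((N + 1 : ℕ) : ℝ)) ^ 2) (N + 1)
      hτ (by positivity) (by rw [mul_div_cancel₀ _ hN'.ne']) (Z N) (hR N) ?_ i hi
    · refine h.trans (le_of_eq ?_)
      field_simp
    · intro i hi
      exact (hC N i hi).trans (mul_le_mul_of_nonneg_right (le_abs_self C) (by positivity))
  -- subsequence
  have hcb : ∀ N, Z N 0 ∈ Metric.closedBall
      (0 : EuclideanSpace ℝ (Fin n) × EuclideanSpace ℝ (Fin n) × ℝ) R := by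
    intro N
    rw [mem_closedBall_zero_iff]
    exact hR N 0 (Nat.zero_le _)
  obtain ⟨zs, hzs, ψ, hψ, hlim⟩ := (isCompact_closedBall _ R).tendsto_subseq hcb
  rw [mem_closedBall_zero_iff] at hzs
  have hτlim : Filter.Tendsto (fun m : ℕ => (T : ℝ) / ((ψ m + 1 : ℕ) : ℝ)) Filter.atTop
      (nhds 0) := by
    have h1 : Filter.Tendsto (fun m : ℕ => (T : ℝ) / ((m + 1 : ℕ) : ℝ)) Filter.atTop (nhds 0) :=
      (tendsto_const_div_atTop_nhds_zero_nat (T : ℝ)).comp (Filter.tendsto_add_atTop_nat 1)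
    exact h1.comp hψ.tendsto_atTop
  -- the time component
  have hzs0 : zs.2.2 = 0 := by
    have c2 : Continuous fun z : EuclideanSpace ℝ (Fin n) × EuclideanSpace ℝ (Fin n) × ℝ =>
        z.2.2 := continuous_snd.comp continuous_snd
    have l1 : Filter.Tendsto (fun m => (Z (ψ m) 0).2.2) Filter.atTop (nhds zs.2.2) :=
      (c2.tendsto zs).comp hlim
    have l2 : (fun m => (Z (ψ m) 0).2.2) = fun _ => (0 : ℝ) := by
      funext m
      simp [hZ]
    rw [l2] at l1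
    exact (tendsto_nhds_unique l1 tendsto_const_nhds)
  -- end point
  have hend : ∀ N, Z N (N + 1) = Z N 0 + (zv k, 0, (T : ℝ)) := by
    intro N
    have h0 := (hX N).1 0
    have h1 := (hX N).1 1
    rw [zero_add] at h0
    have e1 : ((N + 1 : ℕ) : ℤ) + 1 = 1 + ((N + 1 : ℕ) : ℤ) := by ring
    have hN' : (0:ℝ) < ((N + 1 : ℕ) : ℝ) := by positivity
    simp only [hZ]
    rw [e1, h1, h0, mul_div_cancel₀ _ hN'.ne']
    apply Prod.ext
    · simp
    · apply Prod.ext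
      · simp
      · simp
  have hperz : φ T zs = zs + (zv k, 0, (T : ℝ)) := by
    have l1 : Filter.Tendsto (fun m => φ T (Z (ψ m) 0)) Filter.atTop (nhds (φ T zs)) := by
      have : Continuous fun z => φ T z := hφ.cont.comp (continuous_const.prodMk continuous_id)
      exact (this.tendsto zs).comp hlim
    have l2 : Filter.Tendsto (fun m => Z (ψ m) 0 + (zv k, 0, (T : ℝ))) Filter.atTop
        (nhds (zs + (zv k, 0, (T : ℝ)))) := hlim.add_const _
    have l3 : Filter.Tendsto (fun m => φ T (Z (ψ m) 0) - (Z (ψ m) 0 + (zv k, 0, (T : ℝ))))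
        Filter.atTop (nhds 0) := by
      rw [tendsto_zero_iff_norm_tendsto_zero]
      have l4 := hτlim.const_mul (C₂ * (1 + |C|))
      rw [mul_zero] at l4
      refine squeeze_zero (fun m => norm_nonneg _) (fun m => ?_) l4
      have h := hE (ψ m) (ψ m + 1) le_rfl
      have hN' : (0:ℝ) < ((ψ m + 1 : ℕ) : ℝ) := by positivity
      rw [mul_div_cancel₀ _ hN'.ne', hend] at h
      exact h
    have l5 := l1.sub l2
    have l6 := tendsto_nhds_unique l5 l3
    exact sub_eq_zero.mp l6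
  have hYper : ∀ z, Y (z + (zv k, 0, (T : ℝ))) = Y z := by
    intro z
    have hp : F z.1 (z.2.2 + T) = F z.1 z.2.2 := by
      have hp1 : Function.Periodic (fun t => F z.1 t) 1 := fun t => hV.pertF z.1 t
      have hp2 := hp1.nat_mul T z.2.2
      rw [mul_one] at hp2
      exact hp2
    simp only [hY, field2, Prod.fst_add, Prod.snd_add, add_zero]
    rw [hV.perF, hp]
  have hper : ∀ t, φ (t + T) zs = φ t zs + (zv k, 0, (T : ℝ)) := by
    intro t
    have h1 := hφ.uniq (fun s => φ s zs) (fun s => hφ.der zs s) t T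
    have h2 := hφ.uniq (fun s => φ s zs + (zv k, 0, (T : ℝ))) (fun s => by
      have := (hφ.der zs s).add_const ((zv k, 0, (T : ℝ)) :
        EuclideanSpace ℝ (Fin n) × EuclideanSpace ℝ (Fin n) × ℝ)
      have e := hYper (φ s zs)
      rw [e]
      exact this) t 0
    simp only [add_zero] at h2
    rw [hφ.zero, ← hperz] at h2
    rw [h1, ← h2]
  have hφtt : ∀ t, (φ t zs).2.2 = t := by
    intro t
    rw [hφt, hzs0, zero_add]
  refine ⟨fun t => (φ t zs).1, fun t => (φ t zs).2.1,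
    Sol2_of_flow hG1 (fun t => hφ.der zs t) hφtt, ?_, ?_, ?_⟩
  · intro t
    simp only [hper, Prod.fst_add]
  · intro t
    simp only [hper, Prod.fst_add, Prod.snd_add, add_zero]
  · -- action
    set g : EuclideanSpace ℝ (Fin n) × EuclideanSpace ℝ (Fin n) × ℝ → ℝ := fun z =>
      lag2 G V z.1 z.2.1 z.2.2 with hg
    have cg : Continuous g := by
      have c1 : Continuous fun z : EuclideanSpace ℝ (Fin n) × EuclideanSpace ℝ (Fin n) × ℝ =>
        z.2.1 := continuous_fst.comp continuous_snd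
      have c2 : Continuous fun z : EuclideanSpace ℝ (Fin n) × EuclideanSpace ℝ (Fin n) × ℝ =>
        z.2.2 := continuous_snd.comp continuous_snd
      have c3 : Continuous fun z : EuclideanSpace ℝ (Fin n) × EuclideanSpace ℝ (Fin n) × ℝ =>
        V z.1 z.2.2 := hV.cont.comp (continuous_fst.prodMk c2)
      simp only [hg, lag2]
      exact (((G.continuous.comp c1).inner c1).div_const 2).sub c3
    have hSd : ∀ N, Sd2 G V ((T : ℝ) / ((N + 1 : ℕ) : ℝ)) (N + 1) (X N) =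
        ∑ i ∈ Finset.range (N + 1), ((T : ℝ) / ((N + 1 : ℕ) : ℝ)) * g (Z N i) := by
      intro N
      rfl
    apply le_of_forall_pos_le_add
    intro ε hε
    obtain ⟨δ, hδ, hδ'⟩ := X3c_riemann_sum cg hφ.cont (C := C₂ * (1 + |C|)) hT' hzs (half_pos hε)
    obtain ⟨N₀, hN₀⟩ := disc_of_curve2 hG hV hT h hx (half_pos hε)
    have ev1 : ∀ᶠ m in Filter.atTop, (T : ℝ) / ((ψ m + 1 : ℕ) : ℝ) < δ :=
      (tendsto_order.mp hτlim).2 δ hδ
    have ev2 : ∀ᶠ m in Filter.atTop, ‖Z (ψ m) 0 - zs‖ < δ := by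
      have := Metric.tendsto_atTop.mp hlim δ hδ
      obtain ⟨M, hM⟩ := this
      refine Filter.eventually_atTop.mpr ⟨M, fun m hm => ?_⟩
      have := hM m hm
      rw [dist_eq_norm] at this
      exact this
    have ev3 : ∀ᶠ m in Filter.atTop, N₀ ≤ ψ m + 1 := by
      refine Filter.eventually_atTop.mpr ⟨N₀, fun m hm => ?_⟩
      have := hψ.id_le m
      simp only [id] at this
      omega
    obtain ⟨m, hm1, hm2, hm3⟩ := (ev1.and (ev2.and ev3)).exists
    have s1 := hδ' (ψ m + 1) (Z (ψ m)) (Nat.succ_pos _) hm1 hm2 (hR (ψ m)) (hE (ψ m))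
    obtain ⟨y, hy, hy'⟩ := hN₀ (ψ m + 1) hm3
    have s2 := (hX (ψ m)).2 y hy
    rw [hSd] at s2
    have s3 := (abs_le.mp s1).2
    have s4 : (∫ t in (0 : ℝ)..T, lag2 G V (φ t zs).1 (φ t zs).2.1 t) =
        ∫ t in (0 : ℝ)..T, g (φ t zs) := by
      refine intervalIntegral.integral_congr fun t _ => ?_
      simp only [hg, hφtt]
    rw [s4]
    linarith

end Pool.Agent.H33.AN

end

section

/-!
# Module X3: from discrete to continuous; periodic orbits

(Compare `Pool/Agent/H33/AM/P/X3b.lean`, `X3c.lean`, `X4.lean`.)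
`Y = field2 G' F`, `W = ℝⁿ × ℝⁿ × ℝ`, `τ = T / N`, `v_i = (1/τ) (x_{i+1} - x_i)`, `t_i = i τ`, `z_i = (x_i, v_i, t_i)`,
so that `x_{i+1} = x_i + τ (Y z_i).1`.
* `disc_euler2`: `‖x_i‖ ≤ √n + T R` for `0 ≤ i ≤ N`; `v_{i+1} - v_i = -τ G' (F(x_{i+1}, t_{i+1}))` by `disc_EL2'`, and
  `‖F(x_{i+1}, t_{i+1}) - F(x_i, t_i)‖ ≤ B (R + 1) τ`.
* `disc_of_curve2`: `y i = x(i τ)` for `0 ≤ i < N`, extended quasi-periodically. Jensen:
  `τ ⟪G c, c⟫ ≤ ∫ ⟪G u, u⟫` on every `[i τ, (i + 1) τ]`, `c` the average of `u`;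
  `‖x(t) - x(i τ)‖ ≤ R τ`, so the terms with `V` change by `O(τ)`.
* `per_orbit2_zero`: `G'` from `HG.inv`, `φ` from `exists_flow2`. For `N ≥ 1` let `x^N` be a discrete minimiser
  (`disc_exists2`), `z^N_i` as in `disc_euler2`. By `euler` (with `τ = T/N`, `c = C τ²`)
  `‖φ (i τ) (z^N_0) - z^N_i‖ ≤ C' τ` for `i ≤ N`. Since `z^N_N = z^N_0 + (zv k, 0, T)` and `z^N_0` is bounded, a
  subsequence `z^N_0 → z*` satisfies `φ T z* = z* + (zv k, 0, T)`, `(z*).2.2 = 0`. The solution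
  `γ(t) = (φ t z*).1`, `v(t) = (φ t z*).2.1` (`Sol2_of_flow`) is `T`-periodic modulo `zv k` (uniqueness, `Y` is
  periodic). Action: `|∫_0^T g(φ t z) dt - ∑ τ g(φ (i τ) z)| → 0` and `|g(φ (i τ) z^N_0) - g(z^N_i)| ≤ C'' τ` for
  `g(x, v, t) = lag2 G V x v t` (Lipschitz on bounded sets), so
  `∫_0^T g(φ t z*) dt = lim Sd2(x^N) ≤ ∫ lag2(x, u) + ε` by `disc_of_curve2`, for every `ε > 0`.
* `per_orbit2`: translate the time by `s` (`HV2.shift`), use `per_orbit2_zero`, translate back.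
-/

set_option autoImplicit false

open MeasureTheory
open scoped RealInnerProductSpace

namespace Pool.Agent.H33.AN

open Pool.Agent.H33.AM

variable {n : ℕ} {G G' : EuclideanSpace ℝ (Fin n) →L[ℝ] EuclideanSpace ℝ (Fin n)} {κ₁ κ₂ : ℝ}
  {V : EuclideanSpace ℝ (Fin n) → ℝ → ℝ}
  {F : EuclideanSpace ℝ (Fin n) → ℝ → EuclideanSpace ℝ (Fin n)}
  {Vt : EuclideanSpace ℝ (Fin n) → ℝ → ℝ} {B : ℝ} {T : ℕ}

private theorem pert_nat (hV : HV2 1 V F Vt B) (x : EuclideanSpace ℝ (Fin n)) (t : ℝ) (m : ℕ) :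
    V x (t + m) = V x t := by
  induction m with
  | zero => simp
  | succ m ih =>
    have : t + ((m + 1 : ℕ) : ℝ) = t + m + 1 := by push_cast; ring
    rw [this, hV.pert, ih]

private theorem Adm_shift {s : ℝ} {x u : ℝ → EuclideanSpace ℝ (Fin n)}
    (h : Adm s (s + T) x u) : Adm 0 T (fun t => x (t + s)) (fun t => u (t + s)) := by
  refine ⟨Nat.cast_nonneg T, ?_, ?_, ?_, ?_⟩
  · refine h.cont.comp (by fun_prop) ?_
    intro t ht
    exact ⟨by linarith [ht.1], by linarith [ht.2]⟩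
  · obtain ⟨c, hc, hd⟩ := h.der
    refine ⟨(fun t => t + s) ⁻¹' c, hc.preimage (add_left_injective s), ?_⟩
    intro t ht
    have h1 : t + s ∈ Set.Ioo s (s + T) \ c :=
      ⟨⟨by linarith [ht.1.1], by linarith [ht.1.2]⟩, fun hm => ht.2 hm⟩
    exact (hd _ h1).comp_add_const t s
  · exact h.meas.comp (measurable_id.add_const s)
  · obtain ⟨R, hR⟩ := h.bd
    exact ⟨R, fun t => hR _⟩

theorem per_orbit2 (hG : HG G κ₁ κ₂) (hV : HV2 1 V F Vt B) (hT : 0 < T) {s : ℝ}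
    {x u : ℝ → EuclideanSpace ℝ (Fin n)} (h : Adm s (s + T) x u) {k : Fin n → ℤ}
    (hx : x (s + T) = x s + zv k) :
    ∃ γ v : ℝ → EuclideanSpace ℝ (Fin n), Sol2 G F γ v ∧ (∀ t, γ (t + T) = γ t + zv k) ∧
      (∀ t, v (t + T) = v t) ∧
      ∫ t in (0 : ℝ)..T, lag2 G V (γ t) (v t) t ≤ ∫ t in s..(s + T), lag2 G V (x t) (u t) t := by
  have h' := Adm_shift h
  have hV' := hV.shift s
  have hx' : (fun t => x (t + s)) (T : ℝ) = (fun t => x (t + s)) 0 + zv k := by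
    have : (T : ℝ) + s = s + T := by ring
    simp only [this, zero_add]
    exact hx
  obtain ⟨γ', v', hS, hγ, hv, hact⟩ := per_orbit2_zero hG hV' hT h' hx'
  refine ⟨fun t => γ' (t - s), fun t => v' (t - s), ⟨?_, ?_, ?_⟩, ?_, ?_, ?_⟩
  · exact hS.cont.comp (by fun_prop)
  · intro t
    exact (hS.der (t - s)).comp_sub_const t s
  · intro t
    have h1 := (hS.el (t - s)).comp_sub_const t s
    simpa using h1
  · intro t
    have : t + (T : ℝ) - s = t - s + T := by ring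
    simp only [this]
    exact hγ _
  · intro t
    have : t + (T : ℝ) - s = t - s + T := by ring
    simp only [this]
    exact hv _
  · have hper : Function.Periodic (fun t => lag2 G V (γ' (t - s)) (v' (t - s)) t) (T : ℝ) := by
      intro t
      have : t + (T : ℝ) - s = t - s + T := by ring
      simp only [this, lag2, hγ, hv, hV.per, pert_nat hV]
    have e1 : ∫ t in (0 : ℝ)..T, lag2 G V (γ' (t - s)) (v' (t - s)) t =
        ∫ t in s..(s + T), lag2 G V (γ' (t - s)) (v' (t - s)) t := by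
      have := hper.intervalIntegral_add_eq 0 s
      simpa using this
    have e2 : ∫ t in s..(s + T), lag2 G V (γ' (t - s)) (v' (t - s)) t =
        ∫ t in (0 : ℝ)..T, lag2 G (fun x t => V x (t + s)) (γ' t) (v' t) t := by
      have := intervalIntegral.integral_comp_add_right (a := 0) (b := (T : ℝ))
        (fun t => lag2 G V (γ' (t - s)) (v' (t - s)) t) s
      rw [zero_add, add_comm (T : ℝ) s] at this
      rw [← this]
      simp [lag2]
    have e3 : ∫ t in s..(s + T), lag2 G V (x t) (u t) t =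
        ∫ t in (0 : ℝ)..T, lag2 G (fun x t => V x (t + s)) (x (t + s)) (u (t + s)) t := by
      have := intervalIntegral.integral_comp_add_right (a := 0) (b := (T : ℝ))
        (fun t => lag2 G V (x t) (u t) t) s
      rw [zero_add, add_comm (T : ℝ) s] at this
      rw [← this]
      simp [lag2]
    rw [e1, e2, e3]
    exact hact

end Pool.Agent.H33.AN

end

section

/-!
# Module I3: a flat of the action functional is a flat of the alpha function

(Compare `Pool/Agent/H33/AM/P/I3.lean`.) Let `c_η = c₀ + η k₀`, `α_η = E₀ + η p / Q`. For every `η ∈ [η₁, η₂]`: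
`actionValues` at `c_η` is bounded below by `-α_η` (`actionValues_ge2`). Let `E' < E₀`; the closed curve with
`∫ (L - ⟪c₀, u⟫ + E') < 0`, of period `j Q`, closed modulo `k` with `dot k₀ k = j p`, gives by `per_orbit2` a
periodic orbit `(γ, v)` with `∫ L(γ, v) ≤ ∫ L(x, u)`, and `∫ ⟪c_η, v⟫ = ⟪c_η, zv k⟫ = ⟪c₀, zv k⟫ + η j p`,
`∫ ⟪c₀, u⟫ = ⟪c₀, zv k⟫` (`Adm.integral_inner`), so the value `(1/(j Q)) ∫ (L(γ, v) - ⟪c_η, v⟫) < -E' - η p/Q` belongs
to `actionValues` at `c_η` (`mem_actionValues2`). So `alpha L c_η = α_η` for all `η ∈ [η₁, η₂]`, it is affine on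
a segment, and `alpha` is not strictly convex (`zv k₀ ≠ 0`).
-/

set_option autoImplicit false

open MeasureTheory
open scoped RealInnerProductSpace

namespace Pool.Agent.H33.AN

open Pool.Agent.H33.AM

variable {n : ℕ} {G : EuclideanSpace ℝ (Fin n) →L[ℝ] EuclideanSpace ℝ (Fin n)} {κ₁ κ₂ : ℝ}
  {V : EuclideanSpace ℝ (Fin n) → ℝ → ℝ}
  {F : EuclideanSpace ℝ (Fin n) → ℝ → EuclideanSpace ℝ (Fin n)}
  {Vt : EuclideanSpace ℝ (Fin n) → ℝ → ℝ} {B : ℝ}

private theorem I3_Vc (hV : HV2 1 V F Vt B) :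
    Continuous fun z : EuclideanSpace ℝ (Fin n) × ℝ => V z.1 z.2 :=
  continuous_iff_continuousAt.mpr fun z => (hV.der z.1 z.2).continuousAt

private theorem I3_Lc (hV : HV2 1 V F Vt B) : Continuous fun z : EuclideanSpace ℝ (Fin n) ×
    EuclideanSpace ℝ (Fin n) × ℝ => lag2 G V z.1 z.2.1 z.2.2 := by
  have h1 : Continuous fun z : EuclideanSpace ℝ (Fin n) × EuclideanSpace ℝ (Fin n) × ℝ =>
      V z.1 z.2.2 := (I3_Vc hV).comp (continuous_fst.prodMk continuous_snd.snd)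
  have h2 : Continuous fun z : EuclideanSpace ℝ (Fin n) × EuclideanSpace ℝ (Fin n) × ℝ =>
      ⟪G z.2.1, z.2.1⟫ / 2 :=
    ((G.continuous.comp continuous_snd.fst).inner continuous_snd.fst).div_const 2
  exact h2.sub h1

private theorem I3_int (hV : HV2 1 V F Vt B) {a b : ℝ} {x u : ℝ → EuclideanSpace ℝ (Fin n)}
    (h : Adm a b x u) : IntervalIntegrable (fun t => lag2 G V (x t) (u t) t) volume a b := by
  have h1 : IntervalIntegrable (fun t => ⟪G (u t), u t⟫ / 2) volume a b :=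
    h.integrable (g := fun p => ⟪G p.2, p.2⟫ / 2)
      (((G.continuous.comp continuous_snd).inner continuous_snd).div_const 2)
  have h2 : IntervalIntegrable (fun t => V (x t) t) volume a b := by
    refine ContinuousOn.intervalIntegrable ?_
    rw [Set.uIcc_of_le h.le]
    exact (I3_Vc hV).comp_continuousOn (h.cont.prodMk continuousOn_id)
  exact h1.sub h2

/-- the value of a closed curve -/
private theorem I3_curve (hV : HV2 1 V F Vt B) {s T : ℝ}
    {x u : ℝ → EuclideanSpace ℝ (Fin n)} (hx : Adm s (s + T) x u) {k : Fin n → ℤ}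
    (hxT : x (s + T) = x s + zv k) (c₀ : EuclideanSpace ℝ (Fin n)) (E' : ℝ) :
    ∫ t in s..(s + T), (lag2 G V (x t) (u t) t - ⟪c₀, u t⟫ + E') =
      (∫ t in s..(s + T), lag2 G V (x t) (u t) t) - ⟪c₀, zv k⟫ + E' * T := by
  have h7 : IntervalIntegrable (fun t => ⟪c₀, u t⟫) volume s (s + T) :=
    hx.integrable (g := fun p => ⟪c₀, p.2⟫) (continuous_const.inner continuous_snd)
  rw [intervalIntegral.integral_add ((I3_int hV hx).sub h7) (by simp),
    intervalIntegral.integral_sub (I3_int hV hx) h7, hx.integral_inner, hxT, inner_add_right]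
  simp [mul_comm]

/-- the value of a closed orbit -/
private theorem I3_orbit (hV : HV2 1 V F Vt B) {γ v : ℝ → EuclideanSpace ℝ (Fin n)}
    (hsol : Sol2 G F γ v) {T : ℝ} {k k₀ : Fin n → ℤ} (hγ : γ T = γ 0 + zv k)
    (c₀ : EuclideanSpace ℝ (Fin n)) (η : ℝ) :
    ∫ t in (0 : ℝ)..T, (lag2 G V (γ t) (v t) t - ⟪c₀ + η • zv k₀, v t⟫) =
      (∫ t in (0 : ℝ)..T, lag2 G V (γ t) (v t) t) - ⟪c₀, zv k⟫ - η * (dot k₀ k : ℝ) := by
  have hγc : Continuous γ := continuous_iff_continuousAt.2 fun t => (hsol.der t).continuousAt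
  have hvc := hsol.cont
  have hLc : Continuous fun t => lag2 G V (γ t) (v t) t :=
    (I3_Lc hV).comp (hγc.prodMk (hvc.prodMk continuous_id))
  have h1 : ∫ t in (0 : ℝ)..T, ⟪c₀ + η • zv k₀, v t⟫ = ⟪c₀, zv k⟫ + η * (dot k₀ k : ℝ) := by
    have h2 : ∫ t in (0 : ℝ)..T, ⟪c₀ + η • zv k₀, v t⟫ =
        ⟪c₀ + η • zv k₀, γ T⟫ - ⟪c₀ + η • zv k₀, γ 0⟫ := by
      apply intervalIntegral.integral_eq_sub_of_hasDerivAt
      · intro t _
        exact ((innerSL ℝ (c₀ + η • zv k₀)).hasFDerivAt.comp_hasDerivAt t (hsol.der t))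
      · exact (continuous_const.inner hvc).intervalIntegrable _ _
    rw [h2, hγ, inner_add_right, inner_add_left, inner_add_left, inner_smul_left,
      inner_smul_left, inner_zv]
    simp
  rw [intervalIntegral.integral_sub (hLc.intervalIntegrable _ _)
    ((continuous_const.inner hvc).intervalIntegrable _ _), h1]
  ring

theorem alpha_flat2 (hG : HG G κ₁ κ₂) (hV : HV2 1 V F Vt B) (h : Flat2 (lag2 G V)) :
    ∃ (k₀ : Fin n → ℤ) (c₀ : EuclideanSpace ℝ (Fin n)) (E₀ ρ η₁ η₂ : ℝ),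
      k₀ ≠ 0 ∧ η₁ < η₂ ∧ ∀ η ∈ Set.Icc η₁ η₂,
        alpha (lag2 G V) (c₀ + η • zv k₀) = E₀ + η * ρ := by
  obtain ⟨k₀, c₀, E₀, η₁, η₂, C, p, Q, hk, hη, hQ, hlow, hup⟩ := h
  refine ⟨k₀, c₀, E₀, (p : ℝ) / Q, η₁, η₂, hk, hη, fun η hη' => ?_⟩
  have hQ' : (0 : ℝ) < Q := by exact_mod_cast hQ
  have hlo : ∀ a ∈ actionValues (lag2 G V) (c₀ + η • zv k₀), -(E₀ + η * ((p : ℝ) / Q)) ≤ a :=
    fun a ha => actionValues_ge2 hG hV (hlow η hη') ha
  have hhi : ∀ E' < E₀, ∃ a ∈ actionValues (lag2 G V) (c₀ + η • zv k₀),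
      a < -(E' + η * ((p : ℝ) / Q)) := by
    intro E' hE'
    obtain ⟨j, s, x, u, k, hj, hx, hxT, hk0, hneg⟩ := hup E' hE'
    have hj' : (0 : ℝ) < j := by exact_mod_cast hj
    have hT : 0 < j * Q := Nat.mul_pos hj hQ
    have eT : ((j * Q : ℕ) : ℝ) = (j : ℝ) * Q := by push_cast; ring
    have hT' : (0 : ℝ) < ((j * Q : ℕ) : ℝ) := by exact_mod_cast hT
    rw [← eT] at hx hxT hneg
    obtain ⟨γ, v, hsol, hγ, hv, hle⟩ := per_orbit2 hG hV hT hx hxT
    refine ⟨_, mem_actionValues2 hG hV hT hsol hγ hv (c₀ + η • zv k₀), ?_⟩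
    have h3 : γ ((j * Q : ℕ) : ℝ) = γ 0 + zv k := by
      have := hγ 0
      rwa [zero_add] at this
    have hd : ((dot k₀ k : ℤ) : ℝ) = j * p := by
      rw [hk0]
      push_cast
      ring
    rw [I3_curve hV hx hxT] at hneg
    rw [I3_orbit hV hsol h3, one_div, inv_mul_lt_iff₀ hT', hd]
    have e1 : η * ((j : ℝ) * p) = ((j * Q : ℕ) : ℝ) * (η * ((p : ℝ) / Q)) := by
      rw [eT]
      field_simp
    rw [e1]
    nlinarith
  have h1 : sInf (actionValues (lag2 G V) (c₀ + η • zv k₀)) = -(E₀ + η * ((p : ℝ) / Q)) := by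
    apply le_antisymm
    · apply le_of_forall_pos_le_add
      intro ε hε
      obtain ⟨a, ha, ha'⟩ := hhi (E₀ - ε) (by linarith)
      have := csInf_le ⟨-(E₀ + η * ((p : ℝ) / Q)), fun b hb => hlo b hb⟩ ha
      linarith
    · obtain ⟨a, ha, -⟩ := hhi (E₀ - 1) (by linarith)
      exact le_csInf ⟨a, ha⟩ hlo
  unfold alpha
  rw [h1, neg_neg]

theorem not_strict_of_flat2 (hG : HG G κ₁ κ₂) (hV : HV2 1 V F Vt B) (h : Flat2 (lag2 G V)) :
    ¬ StrictConvexOn ℝ Set.univ (alpha (lag2 G V)) := by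
  obtain ⟨k₀, c₀, E₀, ρ, η₁, η₂, hk, hη, hα⟩ := alpha_flat2 hG hV h
  intro hs
  have hk' : zv k₀ ≠ 0 := by
    intro h0
    apply hk
    funext i
    have := congrArg (fun y : EuclideanSpace ℝ (Fin n) => y i) h0
    simpa [zv] using this
  have hne : c₀ + η₁ • zv k₀ ≠ c₀ + η₂ • zv k₀ := by
    intro h1
    have h2 : η₁ • zv k₀ = η₂ • zv k₀ := add_left_cancel h1
    have h3 : (η₁ - η₂) • zv k₀ = 0 := by rw [sub_smul, h2, sub_self]
    rcases smul_eq_zero.1 h3 with h4 | h4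
    · linarith
    · exact hk' h4
  have h1 := hs.2 (Set.mem_univ (c₀ + η₁ • zv k₀)) (Set.mem_univ (c₀ + η₂ • zv k₀)) hne
    (show (0 : ℝ) < 1 / 2 by norm_num) (show (0 : ℝ) < 1 / 2 by norm_num) (by norm_num)
  have h2 : (1 / 2 : ℝ) • (c₀ + η₁ • zv k₀) + (1 / 2 : ℝ) • (c₀ + η₂ • zv k₀) =
      c₀ + ((η₁ + η₂) / 2) • zv k₀ := by
    module
  rw [h2, hα _ ⟨by linarith, by linarith⟩, hα _ ⟨le_rfl, hη.le⟩, hα _ ⟨hη.le, le_rfl⟩] at h1
  simp only [smul_eq_mul] at h1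
  linarith

end Pool.Agent.H33.AN

end

section

/-!
# Module J2: the solution of the Hamilton-Jacobi equation

Let `c` be a subgradient at `p/Q` (`subgrad`), `α = c p/Q - EpQ W p Q/Q`,
`cost(y; s, t) = ∫_s^t (y'²/2 - W(y) - c y' + α) = A1 W s t y u - c (y t - y s) + α (t - s)`.
* `domination`: `U(x, t) = inf` of the costs `Dm W 0 (t + j) 0 (x + k) - c (x + k) + α (t + j)`, `k`, `j`
  integers, `t + j > 0`. Bounded below: close the curve up (bounded cost `≤ C`) and use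
  `Ep_le`; bounded above by lines with `1 ≤ t + j ≤ 2`, `|x + k| ≤ 1`. Periodic by definition.
  `U(y t, t) ≤ U(y s, s) + cost(y; s, t)` by concatenation (for `s < t`).
-/

set_option autoImplicit false

open MeasureTheory
open scoped RealInnerProductSpace

namespace Pool.Agent.H33.AN

variable {B : ℝ} {W W₁ W₂ : ℝ → ℝ → ℝ}

theorem domination (hW : HW 1 W W₁ W₂ B) {p : ℤ} {Q : ℕ} {c α : ℝ}
    (hα : α = c * ((p : ℝ) / Q) - EpQ W p Q / Q)
    (hc : ∀ (p' : ℤ) (Q' : ℕ), 0 < Q' →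
      EpQ W p Q / Q + c * ((p' : ℝ) / Q' - (p : ℝ) / Q) ≤ EpQ W p' Q' / Q') :
    ∃ (U : ℝ → ℝ → ℝ) (C : ℝ), (∀ x t, U (x + 1) t = U x t) ∧ (∀ x t, U x (t + 1) = U x t) ∧
      (∀ x t, |U x t| ≤ C) ∧
      ∀ (s t : ℝ) (ξ u : ℝ → ℝ), s < t → Cur s t ξ u →
        U (ξ t) t - U (ξ s) s ≤ A1 W s t ξ u - c * (ξ t - ξ s) + α * (t - s) := by
  have hB0 := hW.nonneg
  -- the critical value
  have hcrit : ∀ (p' : ℤ) (Q' : ℕ), 0 < Q' → c * p' - α * Q' ≤ EpQ W p' Q' := by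
    intro p' Q' hQ'
    have hQr : (0 : ℝ) < Q' := by exact_mod_cast hQ'
    have h1 := hc p' Q' hQ'
    rw [le_div_iff₀ hQr] at h1
    refine le_trans (le_of_eq ?_) h1
    rw [hα]
    field_simp
    ring
  let val : ℝ → ℝ → ℤ → ℤ → ℝ := fun x t j k =>
    Dm W 0 (t + j) 0 (x + k) - c * (x + k) + α * (t + j)
  let S : ℝ → ℝ → Set ℝ := fun x t => {r | ∃ j k : ℤ, 0 < t + j ∧ r = val x t j k}
  set C : ℝ := |c| + 2 * |α| + 1 / 2 + 2 * B with hC
  have hlow : ∀ (x t : ℝ) (j k : ℤ), 0 < t + j → -C ≤ val x t j k := by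
    intro x t j k hj
    set T : ℝ := t + j with hT
    set X : ℝ := x + k with hX
    set N : ℕ := ⌈T⌉₊ + 1 with hN
    set M : ℤ := ⌈X⌉ with hM
    have hN1 : T + 1 ≤ N := by
      rw [hN]
      push_cast
      linarith [Nat.le_ceil T]
    have hN2 : (N : ℝ) ≤ T + 2 := by
      rw [hN]
      push_cast
      linarith [Nat.ceil_lt_add_one hj.le]
    have hM1 : X ≤ M := Int.le_ceil X
    have hM2 : (M : ℝ) < X + 1 := Int.ceil_lt_add_one X
    have h1 := Dm_triangle hW (r := 0) (s := T) (t := N) hj (by linarith) 0 X M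
    have h2 := (Dm_lower hW (s := T) (t := N) (by linarith) X M).2
    have h3 := Ep_le (p := M) (Q := N) hW (by omega) 0 0
    rw [zero_add, zero_add] at h3
    have h4 := hcrit M N (by omega)
    have h5 : ((M : ℝ) - X) ^ 2 / (2 * (N - T)) ≤ 1 / 2 := by
      rw [div_le_iff₀ (by linarith)]
      have : ((M : ℝ) - X) ^ 2 ≤ 1 := by
        rw [← one_pow 2]
        exact pow_le_pow_left₀ (by linarith) (by linarith) 2
      linarith
    have h6 : B * ((N : ℝ) - T) ≤ B * 2 := mul_le_mul_of_nonneg_left (by linarith) hB0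
    have h7 : -|c| ≤ c * (M - X) := by
      have h8 : |c * (M - X)| ≤ |c| := by
        rw [abs_mul]
        have : |(M : ℝ) - X| ≤ 1 := by
          rw [abs_le]
          constructor <;> linarith
        nlinarith [abs_nonneg c]
      linarith [neg_abs_le (c * ((M : ℝ) - X))]
    have h9 : α * (N - T) ≤ 2 * |α| := by
      have h10 : |α * (N - T)| ≤ |α| * 2 := by
        rw [abs_mul]
        refine mul_le_mul_of_nonneg_left ?_ (abs_nonneg _)
        rw [abs_le]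
        constructor <;> linarith
      linarith [le_abs_self (α * ((N : ℝ) - T))]
    change -C ≤ Dm W 0 T 0 X - c * X + α * T
    rw [hC]
    nlinarith
  have hbdd : ∀ x t, BddBelow (S x t) := by
    intro x t
    refine ⟨-C, ?_⟩
    rintro r ⟨j, k, hj, rfl⟩
    exact hlow x t j k hj
  have hne : ∀ x t : ℝ, ∃ j k : ℤ, 0 < t + j ∧ val x t j k ≤ C := by
    intro x t
    refine ⟨⌈1 - t⌉, -⌊x⌋, ?_, ?_⟩
    · linarith [Int.le_ceil (1 - t)]
    · set T : ℝ := t + (⌈1 - t⌉ : ℤ) with hT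
      set X : ℝ := x + ((-⌊x⌋ : ℤ) : ℝ) with hX
      have hT1 : 1 ≤ T := by
        rw [hT]
        linarith [Int.le_ceil (1 - t)]
      have hT2 : T ≤ 2 := by
        rw [hT]
        linarith [Int.ceil_lt_add_one (1 - t)]
      have hX1 : 0 ≤ X := by
        rw [hX]
        push_cast
        linarith [Int.floor_le x]
      have hX2 : X ≤ 1 := by
        rw [hX]
        push_cast
        linarith [Int.lt_floor_add_one x]
      have h2 := (Dm_lower hW (s := 0) (t := T) (by linarith) 0 X).2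
      rw [sub_zero, sub_zero] at h2
      have h5 : X ^ 2 / (2 * T) ≤ 1 / 2 := by
        rw [div_le_iff₀ (by linarith)]
        have : X ^ 2 ≤ 1 := by
          rw [← one_pow 2]
          exact pow_le_pow_left₀ hX1 hX2 2
        linarith
      have h6 : B * T ≤ B * 2 := mul_le_mul_of_nonneg_left hT2 hB0
      have h7 : -|c| ≤ c * X := by
        have h8 : |c * X| ≤ |c| := by
          rw [abs_mul, abs_of_nonneg hX1]
          nlinarith [abs_nonneg c]
        linarith [neg_abs_le (c * X)]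
      have h9 : α * T ≤ 2 * |α| := by
        have h10 : |α * T| ≤ |α| * 2 := by
          rw [abs_mul, abs_of_nonneg (by linarith : (0 : ℝ) ≤ T)]
          exact mul_le_mul_of_nonneg_left hT2 (abs_nonneg _)
        linarith [le_abs_self (α * T)]
      change Dm W 0 T 0 X - c * X + α * T ≤ C
      rw [hC]
      linarith
  have hSne : ∀ x t, (S x t).Nonempty := by
    intro x t
    obtain ⟨j, k, hj, _⟩ := hne x t
    exact ⟨_, j, k, hj, rfl⟩
  refine ⟨fun x t => sInf (S x t), C, ?_, ?_, ?_, ?_⟩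
  · intro x t
    have : S (x + 1) t = S x t := by
      ext r
      constructor
      · rintro ⟨j, k, hj, rfl⟩
        refine ⟨j, k + 1, hj, ?_⟩
        change Dm W 0 (t + j) 0 (x + 1 + k) - c * (x + 1 + k) + α * (t + j) =
          Dm W 0 (t + j) 0 (x + ((k + 1 : ℤ) : ℝ)) - c * (x + ((k + 1 : ℤ) : ℝ)) + α * (t + j)
        have e : x + 1 + (k : ℝ) = x + ((k + 1 : ℤ) : ℝ) := by push_cast; ring
        rw [e]
      · rintro ⟨j, k, hj, rfl⟩
        refine ⟨j, k - 1, hj, ?_⟩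
        change Dm W 0 (t + j) 0 (x + k) - c * (x + k) + α * (t + j) =
          Dm W 0 (t + j) 0 (x + 1 + ((k - 1 : ℤ) : ℝ)) - c * (x + 1 + ((k - 1 : ℤ) : ℝ)) +
            α * (t + j)
        have e : x + 1 + ((k - 1 : ℤ) : ℝ) = x + k := by push_cast; ring
        rw [e]
    change sInf (S (x + 1) t) = sInf (S x t)
    rw [this]
  · intro x t
    have : S x (t + 1) = S x t := by
      ext r
      constructor
      · rintro ⟨j, k, hj, rfl⟩
        have e : t + 1 + (j : ℝ) = t + ((j + 1 : ℤ) : ℝ) := by push_cast; ring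
        refine ⟨j + 1, k, by rw [← e]; exact hj, ?_⟩
        change Dm W 0 (t + 1 + j) 0 (x + k) - c * (x + k) + α * (t + 1 + j) =
          Dm W 0 (t + ((j + 1 : ℤ) : ℝ)) 0 (x + k) - c * (x + k) + α * (t + ((j + 1 : ℤ) : ℝ))
        rw [e]
      · rintro ⟨j, k, hj, rfl⟩
        have e : t + 1 + ((j - 1 : ℤ) : ℝ) = t + j := by push_cast; ring
        refine ⟨j - 1, k, by rw [e]; exact hj, ?_⟩
        change Dm W 0 (t + j) 0 (x + k) - c * (x + k) + α * (t + j) =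
          Dm W 0 (t + 1 + ((j - 1 : ℤ) : ℝ)) 0 (x + k) - c * (x + k) +
            α * (t + 1 + ((j - 1 : ℤ) : ℝ))
        rw [e]
    change sInf (S x (t + 1)) = sInf (S x t)
    rw [this]
  · intro x t
    obtain ⟨j, k, hj, hle⟩ := hne x t
    rw [abs_le]
    constructor
    · refine le_csInf (hSne x t) ?_
      rintro r ⟨j', k', hj', rfl⟩
      exact hlow x t j' k' hj'
    · exact (csInf_le (hbdd x t) ⟨j, k, hj, rfl⟩).trans hle
  · intro s t ξ u hst hξ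
    change sInf (S (ξ t) t) - sInf (S (ξ s) s) ≤ _
    refine le_of_forall_pos_le_add fun ε hε => ?_
    obtain ⟨r, ⟨j, k, hj, rfl⟩, hr⟩ := exists_lt_of_csInf_lt (hSne (ξ s) s)
      (show sInf (S (ξ s) s) < sInf (S (ξ s) s) + ε by linarith)
    have hj' : 0 < t + j := by linarith
    have h1 : sInf (S (ξ t) t) ≤ val (ξ t) t j k := csInf_le (hbdd _ _) ⟨j, k, hj', rfl⟩
    have h2 := Dm_triangle hW (r := 0) (s := s + j) (t := t + j) hj (by linarith) 0 (ξ s + k)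
      (ξ t + k)
    have h3 := Dm_per hW s t (ξ s) (ξ t) j k
    rw [mul_one] at h3
    have h4 := Dm_le hW hξ
    have e1 : val (ξ t) t j k =
      Dm W 0 (t + j) 0 (ξ t + k) - c * (ξ t + k) + α * (t + j) := rfl
    have e2 : val (ξ s) s j k =
      Dm W 0 (s + j) 0 (ξ s + k) - c * (ξ s + k) + α * (s + j) := rfl
    rw [e1] at h1
    rw [e2] at hr
    linarith

end Pool.Agent.H33.AN

end

section

/-!
# Module L7: the trapping lemma

(Compare `Pool/Agent/H33/AM/P/T7a.lean`, `T7b.lean`.) `C₀` from `lattice`, `R₀` from `crit2_exists`. Choose `j₀ > 0`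
with `6 κ C₀²/(2 j₀ Q) < M μ / 4`, then `0 < ω < μ` with `2 M ω + 6 M ω (j₀ + 1) < M μ / 4`; `levels_exist` gives
`R`, `ω'`, `a`, `c`, …; `gap_pair` gives `U + D ≥ μ - 2 ω`; `strip_rate` gives `C₂`; `C₃ = |U| + |D| + 2 R`. Then
choose `0 < δ₀ ≤ 1/2` so small that, with `e₁ = δ₀ (1 + R₀)`, `ν = (δ₀ + e₁) Q / ω'`,
`sm = (M δ₀ + ν) C₃ + ν C₂ + δ₀` (all linear in `δ₀`): `ν ≤ M / 2` and
`2 sm + 6 (δ₀ (2 + R ‖e₀‖) (j₀ + 1) Q + δ₀ (1 + C₀)) < M μ / 4`.
Let `Trap2 … δ₀`: `e` from `crit2_exists`, `κ₃` from `closes2`, `Rough2` from `rough2`, `b = M U - sm - 2 κ₃`,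
`b' = M D - sm - 2 κ₃` (`gap2`), `A`, `B` from `rest2` (gauges `M ψa`, `M ψc`), `levels2`,
`trapped_of_levels2` with `fu = b + A`, `fd = b' + B`:
`fu + fd ≥ M (μ - 2 ω) - 2 sm - 6 κ₃ > 0`.
-/

set_option autoImplicit false

open MeasureTheory
open scoped RealInnerProductSpace

namespace Pool.Agent.H33.AN

open Pool.Agent.H33.AM

variable {n : ℕ} {Q : ℕ} {B E₁ μ : ℝ} {w w₁ w₂ : ℝ → ℝ → ℝ} {Bc : ℝ → ℝ}

theorem trap2_main (hw : HW Q w w₁ w₂ B) (hb : Bar w Q E₁ μ Bc) {k₀ m : Fin n → ℤ}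
    (hkm : dot k₀ m = 1) {e₀ : EuclideanSpace ℝ (Fin n)} (he₀ : ⟪zv k₀, e₀⟫ = 1) {M κ : ℝ}
    (hM : 0 < M) (hκ : 0 < κ) :
    ∃ δ₀ : ℝ, 0 < δ₀ ∧ δ₀ ≤ 1 / 2 ∧
      ∀ (l : EuclideanSpace ℝ (Fin n) → EuclideanSpace ℝ (Fin n) → ℝ → ℝ) (P : Fin n → ℤ) (s : ℝ),
        Trap2 l k₀ m P s e₀ Q w E₁ M κ δ₀ → Trapped2 l k₀ Q := by
  obtain ⟨C₀, hC₀, hC⟩ := lattice hkm
  obtain ⟨R₀, hR₀, hcr⟩ := crit2_exists hw hb e₀
  have hμ := hb.μ_pos
  have hQn := hb.Q_pos
  have hQ : (0 : ℝ) < Q := by exact_mod_cast hQn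
  have hMμ : 0 < M * μ := mul_pos hM hμ
  -- the number of periods
  obtain ⟨j₀, hj₀, hj1⟩ : ∃ j₀ : ℕ, 0 < j₀ ∧ 6 * (κ * C₀ ^ 2 / (2 * (j₀ * Q))) < M * μ / 4 := by
    obtain ⟨j, hj⟩ := exists_nat_gt (12 * (κ * C₀ ^ 2) / (M * μ * Q))
    have hjp : (0 : ℝ) < (j : ℝ) + 1 := by positivity
    refine ⟨j + 1, Nat.succ_pos _, ?_⟩
    have h1 : 12 * (κ * C₀ ^ 2) < j * (M * μ * Q) := by
      rwa [div_lt_iff₀ (by positivity)] at hj
    have h2 : 6 * (κ * C₀ ^ 2 / (2 * (((j + 1 : ℕ) : ℝ) * Q))) =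
        6 * (κ * C₀ ^ 2) / (2 * (((j + 1 : ℕ) : ℝ) * Q)) := by ring
    rw [h2]
    push_cast
    rw [div_lt_iff₀ (by positivity)]
    have h3 : 0 < M * μ * Q := by positivity
    nlinarith
  have hj0r : (0 : ℝ) ≤ (j₀ : ℝ) := by positivity
  -- the accuracy of the levels
  set ω : ℝ := μ / (9 + 24 * ((j₀ : ℝ) + 1)) with hω_def
  have hden : (0 : ℝ) < 9 + 24 * ((j₀ : ℝ) + 1) := by positivity
  have hω : 0 < ω := div_pos hμ hden
  have hωden : ω * (9 + 24 * ((j₀ : ℝ) + 1)) = μ := by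
    rw [hω_def]; field_simp
  have hωμ : ω < μ := by
    have h1 : 0 ≤ ω * (j₀ : ℝ) := mul_nonneg hω.le hj0r
    nlinarith
  have hω1 : 2 * (M * ω) + 6 * (M * ω * ((j₀ : ℝ) + 1)) < M * μ / 4 := by
    have h1 : M * (ω * (9 + 24 * ((j₀ : ℝ) + 1))) = M * μ := by rw [hωden]
    have h2 : 0 < M * ω := mul_pos hM hω
    nlinarith
  obtain ⟨R, ω', a, ua, ψa, c, uc, ψc, hω', ha, hc, haB, hBc, hca, hF⟩ :=
    levels_exist hw hb hω hωμ
  obtain ⟨U, D, hUD, hU, hD⟩ := gap_pair hw hb ha hc haB hBc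
  obtain ⟨C₂, hC₂, hS⟩ := strip_rate hw hQn ha hc hω' hF
  have hR : 0 ≤ R := (abs_nonneg _).trans (ha.bd 0)
  set C₃ : ℝ := |U| + |D| + 2 * R with hC₃
  set K₁ : ℝ := (1 + (1 + R₀)) * Q / ω' with hK₁
  set K₂ : ℝ := (M + K₁) * C₃ + K₁ * C₂ + 1 with hK₂
  set K₃ : ℝ := (2 + R * ‖e₀‖) * (((j₀ : ℝ) + 1) * Q) + (1 + C₀) with hK₃
  obtain ⟨δ₀, hδ1, hδ2, hδ3, hδ⟩ : ∃ δ : ℝ, δ < 1 / 2 ∧ δ * K₁ < M / 2 ∧
      δ * (2 * K₂ + 6 * K₃) < M * μ / 4 ∧ 0 < δ := by
    have h0 : Filter.Tendsto (fun δ : ℝ => δ) (nhds 0) (nhds 0) := Filter.tendsto_id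
    have h1 : Filter.Tendsto (fun δ : ℝ => δ * K₁) (nhds 0) (nhds 0) := by
      have : Continuous fun δ : ℝ => δ * K₁ := by fun_prop
      simpa using this.tendsto 0
    have h2 : Filter.Tendsto (fun δ : ℝ => δ * (2 * K₂ + 6 * K₃)) (nhds 0) (nhds 0) := by
      have : Continuous fun δ : ℝ => δ * (2 * K₂ + 6 * K₃) := by fun_prop
      simpa using this.tendsto 0
    have h5 : ∀ᶠ δ in nhdsWithin (0 : ℝ) (Set.Ioi 0), δ < 1 / 2 ∧ δ * K₁ < M / 2 ∧
        δ * (2 * K₂ + 6 * K₃) < M * μ / 4 ∧ 0 < δ := by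
      have h6 := h0.eventually (gt_mem_nhds (show (0 : ℝ) < 1 / 2 by norm_num))
      have h7 := h1.eventually (gt_mem_nhds (show (0 : ℝ) < M / 2 by positivity))
      have h8 := h2.eventually (gt_mem_nhds (show (0 : ℝ) < M * μ / 4 by positivity))
      filter_upwards [h6.filter_mono nhdsWithin_le_nhds, h7.filter_mono nhdsWithin_le_nhds,
        h8.filter_mono nhdsWithin_le_nhds, self_mem_nhdsWithin] with δ h9 h10 h11 h12
      exact ⟨h9, h10, h11, h12⟩
    exact h5.exists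
  refine ⟨δ₀, hδ, hδ1.le, fun l P s h => ?_⟩
  obtain ⟨e, hcrit, hnc, hlow, hupp⟩ := hcr l k₀ m P s M κ δ₀ h
  set κ₃ : ℝ := M * ω * ((j₀ : ℝ) + 1) + κ * C₀ ^ 2 / (2 * (j₀ * Q)) +
      δ₀ * (2 + R * ‖e₀‖) * (((j₀ : ℝ) + 1) * Q) + δ₀ * (1 + C₀) with hκ₃
  have hca' : Closes2 l k₀ Q e κ₃ a fun t => M * ψa t :=
    closes2 hQn hw h hupp ha hC₀ hC hj₀
  have hcc' : Closes2 l k₀ Q e κ₃ c fun t => M * ψc t :=
    closes2 hQn hw h hupp hc hC₀ hC hj₀
  obtain ⟨C₁, hr⟩ := rough2 hQn hw h e hC₀ hC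
  have hac : ∀ t, a t < c t := fun t => (haB t).trans (hBc t)
  have he₁ : 0 ≤ δ₀ * (1 + R₀) := by positivity
  have hν : (δ₀ + δ₀ * (1 + R₀)) * Q / ω' = δ₀ * K₁ := by rw [hK₁]; ring
  have hU3 : |U| + 2 * R ≤ C₃ := by
    have := abs_nonneg D
    rw [hC₃]; linarith
  have hD3 : |D| + 2 * R ≤ C₃ := by
    have := abs_nonneg U
    rw [hC₃]; linarith
  have hpos : 0 ≤ M * (1 - δ₀) - (δ₀ + δ₀ * (1 + R₀)) * Q / ω' := by
    rw [hν]
    nlinarith
  obtain ⟨hgU, hgD⟩ := gap2 hQn h hcrit he₁ hlow ha hc hac hca' hcc' hω' hC₂ hU3 hD3 hU hD hS hpos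
  rw [hν] at hgU hgD
  set sm : ℝ := (M * δ₀ + δ₀ * K₁) * C₃ + δ₀ * K₁ * C₂ + δ₀ with hsm
  have hsmK : sm = δ₀ * K₂ := by rw [hsm, hK₂]; ring
  obtain ⟨A, A', hAB, hA, hB⟩ := rest2 hQn h.hl h.km hcrit hr hca' hcc' (fun t => (hac t).le) hca
    ha.per hc.per (fun t => by rw [ha.ψper]) (fun t => by rw [hc.ψper])
  have hlev := fun (i j : ℤ) (t t' : ℝ) (x y : EuclideanSpace ℝ (Fin n)) (r : ℝ)
      (hx : ⟪zv k₀, x⟫ = a t + i) (hy : ⟪zv k₀, y⟫ = a t' + j) (hxy : Conn2 l e t t' x y r) =>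
    levels2 (e := e) (κ := κ₃) (b := M * U - sm - 2 * κ₃) (b' := M * D - sm - 2 * κ₃) (A := A)
      (B := A') (ψa := fun t => M * ψa t) (ψc := fun t => M * ψc t) h.hl h.km ha.contA hc.contA
      (fun t => (hac t).le) hca
      (fun t t' x y r hx hy hxy => hca'.same2 hQn h.hl hcrit hx hy hxy)
      hgU hgD hA hB i j hx hy hxy
  obtain ⟨C, hC'⟩ := trapped_of_levels2 (e := e) (κ := κ₃) (C₁ := C₁)
    (fu := M * U - sm - 2 * κ₃ + A) (fd := M * D - sm - 2 * κ₃ + A') (a := a)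
    (ψ := fun t => M * ψa t) hQn h.hl h.km ha.per (fun t => by rw [ha.ψper]) hr hlev
  refine ⟨e, M * U - sm - 2 * κ₃ + A, M * D - sm - 2 * κ₃ + A', C, ?_, hcrit, hnc, hC'⟩
  have h1 : M * (μ - 2 * ω) ≤ M * (U + D) := mul_le_mul_of_nonneg_left hUD hM.le
  have h2 : 6 * κ₃ = 6 * (M * ω * ((j₀ : ℝ) + 1)) + 6 * (κ * C₀ ^ 2 / (2 * (j₀ * Q))) +
      δ₀ * (6 * K₃) := by
    rw [hκ₃, hK₃]; ring
  have h3 : δ₀ * (2 * K₂ + 6 * K₃) = 2 * sm + δ₀ * (6 * K₃) := by rw [hsmK]; ring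
  have h4 : M * (μ - 2 * ω) = M * μ - 2 * (M * ω) := by ring
  have h5 : M * (U + D) = M * U + M * D := by ring
  linarith

end Pool.Agent.H33.AN

end
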