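import Pool.Agent.H47.B0.H33.AN.P.J2d
import Pool.Agent.H47.B0.M13
import Pool.Agent.H47.B0.M14
import Pool.Agent.H47.B0.M15

/-! The parts of this file: H33.AN.P.J3b, H33.AN.P.J9b, H33.AN.P.J9c, H33.AN.P.J10, H33.AN.P.M5b, H33.AN.P.Z1c, H33.AN.P.Z1. -/

section

/-!
# Module J3: the invariant graphs

* `lip_of_quadratic`: put `a(z) = (P z, R z)`; for `|z - z'| = r ≤ 1/4` compare the expansions at `z` and `z'`
  of `U(z + w)` for `w` of norm `r`: `|(a(z') - a(z)) · w'| ≤ C' r²` for every vector `w'` of norm `r`.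
* `kam_exists`: `c` from `subgrad`, `U` from `domination`, `v x t` = the velocity at `t` of the leaf through
  `(x, t)` (`Foliated`, `leaf_exists`, unique by `leaf_unique`); differentiability of `U` and the Lipschitz
  bound for `v` from `quadratic` and `lip_of_quadratic`; periodicity of `v` from `leaf_shift`; `vbd` from
  `leaf_vbound`. The Lipschitz bound is needed for all pairs of points: for `|z - z'| > 1/4` use the
  bound of `|v|`. `Λ` depends only on `R` and `W`.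
-/

set_option autoImplicit false

open MeasureTheory
open scoped RealInnerProductSpace

namespace Pool.Agent.H33.AN

variable {B : ℝ} {W W₁ W₂ : ℝ → ℝ → ℝ}

private theorem J3b_fderiv {U : ℝ → ℝ → ℝ} {x t a b C : ℝ}
    (h : ∀ h k : ℝ, |h| ≤ 1 / 2 → |k| ≤ 1 / 2 →
      |U (x + h) (t + k) - U x t - a * h - b * k| ≤ C * (h ^ 2 + k ^ 2)) :
    HasFDerivAt (fun z : ℝ × ℝ => U z.1 z.2)
      (a • ContinuousLinearMap.fst ℝ ℝ ℝ + b • ContinuousLinearMap.snd ℝ ℝ ℝ) (x, t) := by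
  rw [hasFDerivAt_iff_isLittleO_nhds_zero]
  have h1 : (fun z : ℝ × ℝ => (fun z : ℝ × ℝ => U z.1 z.2) ((x, t) + z) -
      (fun z : ℝ × ℝ => U z.1 z.2) (x, t) -
      (a • ContinuousLinearMap.fst ℝ ℝ ℝ + b • ContinuousLinearMap.snd ℝ ℝ ℝ) z)
      =O[nhds 0] fun z : ℝ × ℝ => ‖z‖ ^ 2 := by
    refine Asymptotics.IsBigO.of_bound (2 * |C|) ?_
    have h2 : Metric.ball (0 : ℝ × ℝ) (1 / 2) ∈ nhds (0 : ℝ × ℝ) :=
      Metric.ball_mem_nhds _ (by norm_num)
    filter_upwards [h2] with z hz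
    rw [mem_ball_zero_iff] at hz
    have h3 : |z.1| ≤ ‖z‖ := by rw [← Real.norm_eq_abs]; exact norm_fst_le z
    have h4 : |z.2| ≤ ‖z‖ := by rw [← Real.norm_eq_abs]; exact norm_snd_le z
    have h5 := h z.1 z.2 (h3.trans hz.le) (h4.trans hz.le)
    have h6 : z.1 ^ 2 ≤ ‖z‖ ^ 2 := by
      rw [← sq_abs]; exact pow_le_pow_left₀ (abs_nonneg _) h3 2
    have h7 : z.2 ^ 2 ≤ ‖z‖ ^ 2 := by
      rw [← sq_abs]; exact pow_le_pow_left₀ (abs_nonneg _) h4 2
    rw [Real.norm_eq_abs, Real.norm_eq_abs, abs_of_nonneg (by positivity : (0 : ℝ) ≤ ‖z‖ ^ 2)]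
    have h8 : (fun z : ℝ × ℝ => U z.1 z.2) ((x, t) + z) - (fun z : ℝ × ℝ => U z.1 z.2) (x, t) -
        (a • ContinuousLinearMap.fst ℝ ℝ ℝ + b • ContinuousLinearMap.snd ℝ ℝ ℝ) z =
        U (x + z.1) (t + z.2) - U x t - a * z.1 - b * z.2 := by
      simp
      ring
    rw [h8]
    refine h5.trans ?_
    calc C * (z.1 ^ 2 + z.2 ^ 2) ≤ |C| * (z.1 ^ 2 + z.2 ^ 2) :=
          mul_le_mul_of_nonneg_right (le_abs_self C) (by positivity)
      _ ≤ |C| * (‖z‖ ^ 2 + ‖z‖ ^ 2) := mul_le_mul_of_nonneg_left (by linarith) (abs_nonneg C)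
      _ = 2 * |C| * ‖z‖ ^ 2 := by ring
  refine h1.trans_isLittleO ?_
  exact Asymptotics.isLittleO_norm_pow_id one_lt_two

theorem kam_exists (hW : HW 1 W W₁ W₂ B) (hf : Foliated W) (R : ℝ) :
    ∃ Λ : ℝ, ∀ (p : ℤ) (Q : ℕ), 0 < Q → |(p : ℝ) / Q| ≤ R →
      ∃ (c α : ℝ) (u v : ℝ → ℝ → ℝ), Kam W W₁ p Q c α u v Λ := by
  obtain ⟨C, hC⟩ := quadratic hW R
  have hB := hW.nonneg
  refine ⟨20 * |C| + 8 * (|R| + 1 + B), fun p Q hQ hR => ?_⟩
  obtain ⟨c, hc⟩ := subgrad hW hf p hQ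
  obtain ⟨U, CU, hU1, hU2, _, hU⟩ := domination hW (p := p) (Q := Q) (c := c) rfl hc
  have hex : ∀ x t : ℝ, ∃ γ ν : ℝ → ℝ, Leaf W W₁ p Q γ ν ∧ γ t = x := fun x t =>
    leaf_exists hW hQ (hf p Q hQ t x)
  choose γ ν hL hγ using hex
  -- the velocity field
  have hleaf : ∀ x t s, ν x t s = ν (γ x t s) s s := fun x t s =>
    congrFun (leaf_unique hW hQ (hL x t) (hL (γ x t s) s) (s := s) (hγ (γ x t s) s).symm).2 s
  have hCabs : 0 ≤ |C| := abs_nonneg C
  have hRabs : 0 ≤ |R| := abs_nonneg R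
  have hvb : ∀ x t, |ν x t t| ≤ |R| + 1 + B := by
    intro x t
    have h1 := leaf_vbound hW hQ (hL x t) t
    have h2 : |ν x t t| ≤ |ν x t t - (p : ℝ) / Q| + |(p : ℝ) / Q| := by
      have h3 := abs_add_le (ν x t t - (p : ℝ) / Q) ((p : ℝ) / Q)
      rwa [sub_add_cancel] at h3
    have h3 : R ≤ |R| := le_abs_self R
    linarith
  have hquad : ∀ x t h k : ℝ, |h| ≤ 1 / 2 → |k| ≤ 1 / 2 →
      |U (x + h) (t + k) - U x t - (ν x t t - c) * h -
        (c * ((p : ℝ) / Q) - EpQ W p Q / Q - ν x t t ^ 2 / 2 - W x t) * k| ≤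
        C * (h ^ 2 + k ^ 2) := by
    intro x t h k hh hk
    have h1 := hC p Q c _ U hQ hR rfl hU1 hU2 hU (γ x t) (ν x t) (hL x t) t h k hh hk
    rwa [hγ] at h1
  refine ⟨c, c * ((p : ℝ) / Q) - EpQ W p Q / Q, U, fun x t => ν x t t, ?_⟩
  refine
    { fder := fun x t => J3b_fderiv (hquad x t)
      per₁ := hU1
      per₂ := hU2
      vper₁ := fun x t => ?_
      vper₂ := fun x t => ?_
      vbd := fun x t => ?_
      lip := fun x t x' t' => ?_
      leaf := fun x t => ⟨γ x t, ν x t, hL x t, hγ x t, hleaf x t⟩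
      alpha := rfl
      crit := hc }
  · have h1 := leaf_shift hW (hL x t) 0 1
    have h2 := (leaf_unique hW hQ (hL (x + 1) t) h1 (s := t) (by
      rw [hγ]
      simp [hγ])).2
    have h3 := congrFun h2 t
    simpa using h3
  · have h1 := leaf_shift hW (hL x t) (-1) 0
    have h2 := (leaf_unique hW hQ (hL x (t + 1)) h1 (s := t + 1) (by
      rw [hγ]
      simp [hγ])).2
    have h3 := congrFun h2 (t + 1)
    simpa using h3
  · exact (hvb x t).trans (by linarith)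
  · have hd : 0 ≤ |x - x'| + |t - t'| := by positivity
    rcases le_total (|x - x'| + |t - t'|) (1 / 4) with hle | hge
    · have h1 := lip_of_quadratic (U := U) (P := fun x t => ν x t t - c)
        (R := fun x t => c * ((p : ℝ) / Q) - EpQ W p Q / Q - ν x t t ^ 2 / 2 - W x t) hquad
        x t x' t' hle
      have h2 : ν x t t - c - (ν x' t' t' - c) = ν x t t - ν x' t' t' := by ring
      rw [h2] at h1
      refine h1.trans (mul_le_mul_of_nonneg_right ?_ hd)
      linarith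
    · have h1 : |ν x t t - ν x' t' t'| ≤ 2 * (|R| + 1 + B) := by
        have h2 := abs_sub (ν x t t) (ν x' t' t')
        linarith [hvb x t, hvb x' t']
      have h2 : 2 * (|R| + 1 + B) ≤ 8 * (|R| + 1 + B) * (|x - x'| + |t - t'|) := by
        nlinarith
      have h3 : 8 * (|R| + 1 + B) * (|x - x'| + |t - t'|) ≤
          (20 * |C| + 8 * (|R| + 1 + B)) * (|x - x'| + |t - t'|) :=
        mul_le_mul_of_nonneg_right (by linarith) hd
      linarith

end Pool.Agent.H33.AN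

end

section

/-!
# Module J9: a foliated potential does not depend on `x`

Let `v*` be the graph of type `(0, 1)`. Claim: `v*(x + δ, t) = v*(x, t)`. Suppose not:
`|v*(x₀ + δ, t₀) - v*(x₀, t₀)| = κ > 0`. There is a rectangle `N ⊆ [x₀, x₀ + 1] × [t₀, t₀ + 1]` (or, by
periodicity, in `[0, 1]²`) of positive area with `|v*(x + δ, t) - v*(x, t)| ≥ κ/2` on `N` (`Kam.lip`). By
`kam_unif` (`R = 1`) there is `M₀ ≥ 1` such that `|v_ρ - v*| ≤ κ/16` for `0 ≤ ρ ≤ 1/M₀`. Let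
`m₀ = ∬_N (v_{1/M₀} - v*) > 0` (`kam_order`). Given `R` (integer) and `ε > 0` choose `M`, a multiple of
`M₀`, with `1/M ≤ η(R, ε)` (`kam_unif`), and let `v_k` be the graph of type `(k, M)`, `-R M ≤ k ≤ R M`,
`w_k = v_{k+1} - v_k`, `0 < w_k ≤ ε`. (Graphs of types with equal ratios agree: `kam_unif` gives
`|v - v'| ≤ ε` for every `ε`.) Sum `identity` over `k`:
`∬ (W - W^δ) (v_{RM} - v_{-RM}) = ∑ 1/2 ∬ (v_k^δ - v̄_k)² w_k - 1/8 ∑ ∬ w_k³`. The first sum is at
least `1/2 (κ/4)² m₀` (terms with `0 ≤ k < M/M₀`, integrals over `N`), the second one is at most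
`ε² ∬ (v_{RM} - v_{-RM}) ≤ 2 Λ_R ε²`, and the left side is, since `∫ (W - W^δ) dx = 0`, equal to
`∬ (W - W^δ) ((v_{RM} - c_{RM}) - (v_{-RM} - c_{-RM}))`, at most `4 B √(C/|c_±|)` in absolute value
(`kam_infinity`, Cauchy-Schwarz), with `|c_±| ≥ R - 1/2 - 2 B` (`kam_c`). Let first `ε → 0`, then
`R → ∞`: contradiction.
So `v*` does not depend on `x`, `∂ₓu = v* - c` neither, so `∂ₓu = 0` (periodicity), `v* = c`; the leaves of
type `(0, 1)` have the constant velocity `c`, so `W₁(γ(t), t) = 0`, and they pass through every point.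
-/

set_option autoImplicit false

open MeasureTheory
open scoped RealInnerProductSpace

namespace Pool.Agent.H33.AN

variable {B : ℝ} {W W₁ W₂ : ℝ → ℝ → ℝ}

private theorem kam_mono {p : ℤ} {Q : ℕ} {c α Λ Λ' : ℝ} {u v : ℝ → ℝ → ℝ}
    (h : Kam W W₁ p Q c α u v Λ) (hL : Λ ≤ Λ') : Kam W W₁ p Q c α u v Λ' where
  fder := h.fder
  per₁ := h.per₁
  per₂ := h.per₂
  vper₁ := h.vper₁
  vper₂ := h.vper₂
  vbd := fun x t => (h.vbd x t).trans hL
  lip := fun x t x' t' => (h.lip x t x' t').trans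
    (mul_le_mul_of_nonneg_right hL (by positivity))
  leaf := h.leaf
  alpha := h.alpha
  crit := h.crit

private theorem unif_pack (hW : HW 1 W W₁ W₂ B) (hf : Foliated W) (R Λ0 : ℝ) :
    ∃ Λ' : ℝ, Λ0 ≤ Λ' ∧ (∀ (p : ℤ) (Q : ℕ), 0 < Q → |(p : ℝ) / Q| ≤ R + 1 →
      ∃ (c α : ℝ) (u v : ℝ → ℝ → ℝ), Kam W W₁ p Q c α u v Λ') := by
  obtain ⟨Λ1, h1⟩ := kam_exists hW hf (R + 1)
  refine ⟨max Λ0 Λ1, le_max_left _ _, fun p Q hQ hp => ?_⟩
  obtain ⟨c, α, u, v, h⟩ := h1 p Q hQ hp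
  exact ⟨c, α, u, v, kam_mono h (le_max_right _ _)⟩

private theorem kam_uniq (hW : HW 1 W W₁ W₂ B) (hf : Foliated W) {p p' : ℤ} {Q Q' : ℕ}
    {c α Λ c' α' Λ' : ℝ} {u v u' v' : ℝ → ℝ → ℝ} (hQ : 0 < Q) (hQ' : 0 < Q')
    (h : Kam W W₁ p Q c α u v Λ) (h' : Kam W W₁ p' Q' c' α' u' v' Λ')
    (he : (p : ℝ) / Q = (p' : ℝ) / Q') (x t : ℝ) : v x t = v' x t := by
  obtain ⟨L, hL, hE⟩ := unif_pack hW hf |(p : ℝ) / Q| (max Λ Λ')
  by_contra hne
  have hpos : 0 < |v x t - v' x t| := abs_pos.2 (sub_ne_zero.2 hne)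
  obtain ⟨η, hη, H⟩ := kam_unif hW hE (half_pos hpos)
  have h3 := H p p' Q Q' c α c' α' u v u' v' hQ hQ' le_rfl (by rw [he])
    (kam_mono h ((le_max_left _ _).trans hL)) (kam_mono h' ((le_max_right _ _).trans hL))
    (by rw [he, sub_self, abs_zero]; exact hη.le) x t
  linarith

private theorem unif1 (hW : HW 1 W W₁ W₂ B) (hf : Foliated W) (R : ℝ) {ε : ℝ} (hε : 0 < ε) :
    ∃ η : ℝ, 0 < η ∧ ∀ (p p' : ℤ) (Q Q' : ℕ) (c α Λ c' α' Λ' : ℝ) (u v u' v' : ℝ → ℝ → ℝ),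
      0 < Q → 0 < Q' → |(p : ℝ) / Q| ≤ R → |(p' : ℝ) / Q'| ≤ R →
      Kam W W₁ p Q c α u v Λ → Kam W W₁ p' Q' c' α' u' v' Λ' →
      |(p : ℝ) / Q - (p' : ℝ) / Q'| ≤ η → ∀ x t, |v x t - v' x t| ≤ ε := by
  obtain ⟨L, _, hE⟩ := unif_pack hW hf R 0
  obtain ⟨η, hη, H⟩ := kam_unif hW hE hε
  refine ⟨η, hη, fun p p' Q Q' c α Λ c' α' Λ' u v u' v' hQ hQ' hp hp' h h' hd x t => ?_⟩
  obtain ⟨c1, α1, u1, v1, h1⟩ := hE p Q hQ (by linarith)
  obtain ⟨c2, α2, u2, v2, h2⟩ := hE p' Q' hQ' (by linarith)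
  rw [kam_uniq hW hf hQ hQ h h1 rfl x t, kam_uniq hW hf hQ' hQ' h' h2 rfl x t]
  exact H p p' Q Q' c1 α1 c2 α2 u1 v1 u2 v2 hQ hQ' hp hp' h1 h2 hd x t

private theorem bound1 (hW : HW 1 W W₁ W₂ B) (hf : Foliated W) (R : ℝ) :
    ∃ L : ℝ, 0 ≤ L ∧ ∀ (p : ℤ) (Q : ℕ) (c α Λ : ℝ) (u v : ℝ → ℝ → ℝ),
      0 < Q → |(p : ℝ) / Q| ≤ R → Kam W W₁ p Q c α u v Λ → |c| ≤ L := by
  obtain ⟨L, hL, hE⟩ := unif_pack hW hf R 0
  refine ⟨L, hL, fun p Q c α Λ u v hQ hp h => ?_⟩
  obtain ⟨c1, α1, u1, v1, h1⟩ := hE p Q hQ (by linarith)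
  have h2 := kam_mean h 0
  have h3 : ∀ x, v x 0 = v1 x 0 := fun x => kam_uniq hW hf hQ hQ h h1 rfl x 0
  rw [← h2]
  have h4 := intervalIntegral.norm_integral_le_of_norm_le_const (a := (0 : ℝ)) (b := 1)
    (f := fun x => v x 0) (C := L) (fun x _ => by
      rw [h3 x, Real.norm_eq_abs]
      exact h1.vbd x 0)
  rw [Real.norm_eq_abs] at h4
  simpa using h4

private theorem kam_cont {p : ℤ} {Q : ℕ} {c α Λ : ℝ} {u v : ℝ → ℝ → ℝ}
    (h : Kam W W₁ p Q c α u v Λ) : Continuous fun z : ℝ × ℝ => v z.1 z.2 := by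
  have h1 : LipschitzWith (2 * |Λ|).toNNReal (fun z : ℝ × ℝ => v z.1 z.2) := by
    refine LipschitzWith.of_dist_le_mul fun z z' => ?_
    rw [Real.coe_toNNReal _ (by positivity), Real.dist_eq, Prod.dist_eq, Real.dist_eq,
      Real.dist_eq]
    refine (h.lip z.1 z.2 z'.1 z'.2).trans ?_
    have h2 := le_max_left |z.1 - z'.1| |z.2 - z'.2|
    have h3 := le_max_right |z.1 - z'.1| |z.2 - z'.2|
    have h4 : |z.1 - z'.1| + |z.2 - z'.2| ≤ 2 * max |z.1 - z'.1| |z.2 - z'.2| := by linarith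
    have h5 : 0 ≤ |z.1 - z'.1| + |z.2 - z'.2| := by positivity
    calc Λ * (|z.1 - z'.1| + |z.2 - z'.2|) ≤ |Λ| * (|z.1 - z'.1| + |z.2 - z'.2|) :=
          mul_le_mul_of_nonneg_right (le_abs_self _) h5
      _ ≤ |Λ| * (2 * max |z.1 - z'.1| |z.2 - z'.2|) :=
          mul_le_mul_of_nonneg_left h4 (abs_nonneg _)
      _ = 2 * |Λ| * max |z.1 - z'.1| |z.2 - z'.2| := by ring
  exact h1.continuous

private theorem W_cont (hW : HW 1 W W₁ W₂ B) : Continuous fun z : ℝ × ℝ => W z.1 z.2 :=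
  continuous_iff_continuousAt.2 fun z => (hW.der z.1 z.2).continuousAt

/-- the double integral -/
private noncomputable def II (F : ℝ → ℝ → ℝ) : ℝ := ∫ t in (0 : ℝ)..1, ∫ x in (0 : ℝ)..1, F x t

private theorem inner_int {F : ℝ → ℝ → ℝ} (hF : Continuous fun z : ℝ × ℝ => F z.1 z.2) (t : ℝ) :
    IntervalIntegrable (fun x => F x t) volume 0 1 :=
  (hF.comp (Continuous.prodMk continuous_id continuous_const)).intervalIntegrable _ _

private theorem outer_cont {F : ℝ → ℝ → ℝ} (hF : Continuous fun z : ℝ × ℝ => F z.1 z.2) :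
    Continuous fun t => ∫ x in (0 : ℝ)..1, F x t := by
  refine intervalIntegral.continuous_parametric_intervalIntegral_of_continuous'
    (f := fun t x => F x t) ?_ 0 1
  exact hF.comp continuous_swap

private theorem II_add {F G : ℝ → ℝ → ℝ} (hF : Continuous fun z : ℝ × ℝ => F z.1 z.2)
    (hG : Continuous fun z : ℝ × ℝ => G z.1 z.2) : II (fun x t => F x t + G x t) = II F + II G := by
  unfold II
  rw [← intervalIntegral.integral_add ((outer_cont hF).intervalIntegrable _ _)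
    ((outer_cont hG).intervalIntegrable _ _)]
  congr 1
  funext t
  exact intervalIntegral.integral_add (inner_int hF t) (inner_int hG t)

private theorem II_smul (a : ℝ) (F : ℝ → ℝ → ℝ) : II (fun x t => a * F x t) = a * II F := by
  unfold II
  simp only [intervalIntegral.integral_const_mul]

private theorem II_mono {F G : ℝ → ℝ → ℝ} (hF : Continuous fun z : ℝ × ℝ => F z.1 z.2)
    (hG : Continuous fun z : ℝ × ℝ => G z.1 z.2) (h : ∀ x t, F x t ≤ G x t) : II F ≤ II G := by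
  unfold II
  refine intervalIntegral.integral_mono_on zero_le_one ((outer_cont hF).intervalIntegrable _ _)
    ((outer_cont hG).intervalIntegrable _ _) fun t _ => ?_
  exact intervalIntegral.integral_mono_on zero_le_one (inner_int hF t) (inner_int hG t)
    fun x _ => h x t

private theorem II_sub {F G : ℝ → ℝ → ℝ} (hF : Continuous fun z : ℝ × ℝ => F z.1 z.2)
    (hG : Continuous fun z : ℝ × ℝ => G z.1 z.2) : II (fun x t => F x t - G x t) = II F - II G := by
  have h1 := II_add hF (G := fun x t => (-1) * G x t) (continuous_const.mul hG)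
  rw [II_smul] at h1
  have h2 : (fun x t => F x t - G x t) = fun x t => F x t + (-1) * G x t := by
    funext x t
    ring
  rw [h2, h1]
  ring

private theorem II_pos {F : ℝ → ℝ → ℝ} (hF : Continuous fun z : ℝ × ℝ => F z.1 z.2)
    (h0 : ∀ x t, 0 ≤ F x t) (p1 : ∀ x t, F (x + 1) t = F x t) (p2 : ∀ x t, F x (t + 1) = F x t)
    {x₀ t₀ : ℝ} (h1 : 0 < F x₀ t₀) : 0 < II F := by
  have e1 : ∀ t, F (Int.fract x₀) t = F x₀ t := by
    intro t
    have hp : Function.Periodic (fun x => F x t) 1 := fun x => p1 x t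
    have := hp.sub_int_mul_eq (x := x₀) ⌊x₀⌋
    rw [mul_one] at this
    exact this
  have e2 : F (Int.fract x₀) (Int.fract t₀) = F x₀ t₀ := by
    rw [e1]
    have hp : Function.Periodic (fun t => F x₀ t) 1 := fun t => p2 x₀ t
    have := hp.sub_int_mul_eq (x := t₀) ⌊t₀⌋
    rw [mul_one] at this
    exact this
  have hin : ∀ t, 0 ≤ ∫ x in (0 : ℝ)..1, F x t := fun t =>
    intervalIntegral.integral_nonneg zero_le_one fun x _ => h0 x t
  unfold II
  refine intervalIntegral.integral_pos zero_lt_one (outer_cont hF).continuousOn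
    (fun t _ => hin t) ⟨Int.fract t₀, ⟨Int.fract_nonneg _, (Int.fract_lt_one _).le⟩, ?_⟩
  refine intervalIntegral.integral_pos zero_lt_one
    (hF.comp (Continuous.prodMk continuous_id continuous_const)).continuousOn
    (fun x _ => h0 x _) ⟨Int.fract x₀, ⟨Int.fract_nonneg _, (Int.fract_lt_one _).le⟩, ?_⟩
  show 0 < F (Int.fract x₀) (Int.fract t₀)
  rw [e2]
  exact h1

private theorem step_le {f : ℕ → ℝ} {a b : ℕ} (hab : a ≤ b)
    (h : ∀ i, a ≤ i → i < b → f i ≤ f (i + 1)) : f a ≤ f b := by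
  induction b, hab using Nat.le_induction with
  | base => exact le_rfl
  | succ n hn ih =>
    exact (ih fun i h1 h2 => h i h1 (by omega)).trans (h n hn (by omega))

/-- one step of the summed identity -/
private theorem one_step (hW : HW 1 W W₁ W₂ B) {p p' : ℤ} {Q Q' : ℕ} {c α Λ c' α' Λ' : ℝ}
    {u v u' v' : ℝ → ℝ → ℝ} (h : Kam W W₁ p Q c α u v Λ) (h' : Kam W W₁ p' Q' c' α' u' v' Λ')
    (δ ε : ℝ) (hw0 : ∀ x t, 0 ≤ v' x t - v x t) (hw1 : ∀ x t, v' x t - v x t ≤ ε)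
    {φ : ℝ → ℝ → ℝ} (hφc : Continuous fun z : ℝ × ℝ => φ z.1 z.2)
    (hφ : ∀ x t, φ x t ≤ (v (x + δ) t - (v x t + v' x t) / 2) ^ 2) :
    II (fun x t => (W x t - W (x + δ) t) * v x t) + ε ^ 2 / 8 * II v -
        1 / 2 * II (fun x t => φ x t * v x t) ≤
      II (fun x t => (W x t - W (x + δ) t) * v' x t) + ε ^ 2 / 8 * II v' -
        1 / 2 * II (fun x t => φ x t * v' x t) := by
  have cv := kam_cont h
  have cv' := kam_cont h'
  have cW := W_cont hW
  have sh : Continuous fun z : ℝ × ℝ => ((z.1 + δ, z.2) : ℝ × ℝ) := by fun_prop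
  have cWs : Continuous fun z : ℝ × ℝ => W (z.1 + δ) z.2 := cW.comp sh
  have cvs : Continuous fun z : ℝ × ℝ => v (z.1 + δ) z.2 := cv.comp sh
  have hid := identity hW h h' δ
  have c1 : Continuous fun z : ℝ × ℝ => (W z.1 z.2 - W (z.1 + δ) z.2) * v z.1 z.2 :=
    (cW.sub cWs).mul cv
  have c1' : Continuous fun z : ℝ × ℝ => (W z.1 z.2 - W (z.1 + δ) z.2) * v' z.1 z.2 :=
    (cW.sub cWs).mul cv'
  have e1 : II (fun x t => (W x t - W (x + δ) t) * v' x t) -
      II (fun x t => (W x t - W (x + δ) t) * v x t) =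
      II (fun x t => ((v (x + δ) t - (v x t + v' x t) / 2) ^ 2 -
        ((v' x t - v x t) / 2) ^ 2) * (v' x t - v x t) / 2) := by
    rw [← II_sub (F := fun x t => (W x t - W (x + δ) t) * v' x t)
      (G := fun x t => (W x t - W (x + δ) t) * v x t) c1' c1]
    unfold II
    rw [← hid]
    congr 1
    funext t
    congr 1
    funext x
    ring
  have c2 : Continuous fun z : ℝ × ℝ => φ z.1 z.2 * v z.1 z.2 := hφc.mul cv
  have c2' : Continuous fun z : ℝ × ℝ => φ z.1 z.2 * v' z.1 z.2 := hφc.mul cv'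
  have e2 : 1 / 2 * II (fun x t => φ x t * v' x t) - 1 / 2 * II (fun x t => φ x t * v x t) -
      (ε ^ 2 / 8 * II v' - ε ^ 2 / 8 * II v) =
      II (fun x t => (1 / 2) * (φ x t * v' x t - φ x t * v x t) -
        (ε ^ 2 / 8) * (v' x t - v x t)) := by
    rw [II_sub (F := fun x t => (1 / 2) * (φ x t * v' x t - φ x t * v x t))
      (G := fun x t => (ε ^ 2 / 8) * (v' x t - v x t))
      (continuous_const.mul (c2'.sub c2)) (continuous_const.mul (cv'.sub cv)),
      II_smul, II_smul, II_sub (F := fun x t => φ x t * v' x t)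
      (G := fun x t => φ x t * v x t) c2' c2, II_sub cv' cv]
    ring
  have e3 : II (fun x t => (1 / 2) * (φ x t * v' x t - φ x t * v x t) -
        (ε ^ 2 / 8) * (v' x t - v x t)) ≤
      II (fun x t => ((v (x + δ) t - (v x t + v' x t) / 2) ^ 2 -
        ((v' x t - v x t) / 2) ^ 2) * (v' x t - v x t) / 2) := by
    refine II_mono ?_ ?_ ?_
    · exact (continuous_const.mul (c2'.sub c2)).sub (continuous_const.mul (cv'.sub cv))
    · exact ((((cvs.sub ((cv.add cv').div_const 2)).pow 2).sub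
        (((cv'.sub cv).div_const 2).pow 2)).mul (cv'.sub cv)).div_const 2
    · intro x t
      have h1 := hw0 x t
      have h2 := hw1 x t
      have h3 := hφ x t
      have h4 : (v' x t - v x t) ^ 2 ≤ ε ^ 2 := by
        apply pow_le_pow_left₀ h1 h2
      have h5 : φ x t * (v' x t - v x t) ≤
          (v (x + δ) t - (v x t + v' x t) / 2) ^ 2 * (v' x t - v x t) :=
        mul_le_mul_of_nonneg_right h3 h1
      have h6 : (v' x t - v x t) ^ 2 * (v' x t - v x t) ≤ ε ^ 2 * (v' x t - v x t) :=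
        mul_le_mul_of_nonneg_right h4 h1
      nlinarith
  linarith

/-- The graphs of the types `(0, 1)` do not depend on `x`. -/
theorem fol_indep (hW : HW 1 W W₁ W₂ B) (hf : Foliated W) {c α Λ : ℝ} {u v : ℝ → ℝ → ℝ}
    (h : Kam W W₁ 0 1 c α u v Λ) (x y t : ℝ) : v x t = v y t := by
  by_contra hne
  obtain ⟨δ, hδ⟩ : ∃ δ, δ = y - x := ⟨_, rfl⟩
  obtain ⟨κ, hκ⟩ : ∃ κ, κ = |v (x + δ) t - v x t| := ⟨_, rfl⟩
  have hκ0 : 0 < κ := by
    rw [hκ]
    apply abs_pos.2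
    rw [sub_ne_zero, hδ, add_sub_cancel]
    exact fun h => hne h.symm
  have hvc := kam_cont h
  obtain ⟨g, hg⟩ : ∃ g : ℝ → ℝ → ℝ,
      g = fun x t => (max 0 (|v (x + δ) t - v x t| - κ / 2)) ^ 2 := ⟨_, rfl⟩
  have sh : Continuous fun z : ℝ × ℝ => ((z.1 + δ, z.2) : ℝ × ℝ) := by fun_prop
  have cvs : Continuous fun z : ℝ × ℝ => v (z.1 + δ) z.2 := hvc.comp sh
  have hgc : Continuous fun z : ℝ × ℝ => g z.1 z.2 := by
    rw [hg]
    exact (continuous_const.max ((cvs.sub hvc).abs.sub continuous_const)).pow 2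
  have hg0 : ∀ x t, 0 ≤ g x t := by
    intro x t
    rw [hg]
    positivity
  have hgx : 0 < g x t := by
    rw [hg]
    show 0 < (max 0 (|v (x + δ) t - v x t| - κ / 2)) ^ 2
    rw [← hκ]
    have : 0 < max 0 (κ - κ / 2) := lt_max_of_lt_right (by linarith)
    positivity
  have hgp1 : ∀ x t, g (x + 1) t = g x t := by
    intro x t
    rw [hg]
    show (max 0 (|v (x + 1 + δ) t - v (x + 1) t| - κ / 2)) ^ 2 = _
    rw [show x + 1 + δ = (x + δ) + 1 by ring, h.vper₁, h.vper₁]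
  have hgp2 : ∀ x t, g x (t + 1) = g x t := by
    intro x t
    rw [hg]
    show (max 0 (|v (x + δ) (t + 1) - v x (t + 1)| - κ / 2)) ^ 2 = _
    rw [h.vper₂, h.vper₂]
  -- `M₀`
  obtain ⟨η₁, hη₁, H₁⟩ := unif1 hW hf 1 (ε := κ / 16) (by positivity)
  obtain ⟨M₀, hM₀⟩ := exists_nat_gt (1 / η₁)
  have hM0pos : 0 < M₀ := by
    have h1 : (0 : ℝ) < M₀ := lt_trans (by positivity) hM₀
    exact_mod_cast h1
  have hM0r : (0 : ℝ) < M₀ := by exact_mod_cast hM0pos
  have hM01 : (1 : ℝ) ≤ M₀ := by exact_mod_cast hM0pos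
  have hM0η : 1 / (M₀ : ℝ) ≤ η₁ := by
    rw [div_le_iff₀ hM0r]
    rw [div_lt_iff₀ hη₁] at hM₀
    linarith
  have hM0le : 1 / (M₀ : ℝ) ≤ 1 := by
    rw [div_le_iff₀ hM0r]
    linarith
  obtain ⟨Λe, hE⟩ := kam_exists hW hf 1
  obtain ⟨c1, α1, u1, v1, h1⟩ := hE 1 M₀ hM0pos (by
    rw [Int.cast_one, abs_of_nonneg (by positivity)]
    exact hM0le)
  have hord : ∀ x t, v x t < v1 x t := (kam_order hW one_pos hM0pos h h1 (by
    rw [Int.cast_zero, Int.cast_one, zero_div]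
    positivity)).1
  have hv1c := kam_cont h1
  have cg : Continuous fun z : ℝ × ℝ => g z.1 z.2 * v z.1 z.2 := hgc.mul hvc
  have cg1 : Continuous fun z : ℝ × ℝ => g z.1 z.2 * v1 z.1 z.2 := hgc.mul hv1c
  obtain ⟨m₀, hm₀⟩ : ∃ m₀, m₀ = II (fun x t => g x t * v1 x t) - II (fun x t => g x t * v x t) :=
    ⟨_, rfl⟩
  have hm0pos : 0 < m₀ := by
    rw [hm₀, ← II_sub (F := fun x t => g x t * v1 x t) (G := fun x t => g x t * v x t) cg1 cg]
    refine II_pos (F := fun x t => g x t * v1 x t - g x t * v x t) (cg1.sub cg) ?_ ?_ ?_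
      (x₀ := x) (t₀ := t) ?_
    · intro x t
      have h2 := hord x t
      have h3 := hg0 x t
      have h4 := mul_le_mul_of_nonneg_left h2.le h3
      linarith
    · intro x t
      show g (x + 1) t * v1 (x + 1) t - g (x + 1) t * v (x + 1) t = _
      rw [hgp1, h1.vper₁, h.vper₁]
    · intro x t
      show g x (t + 1) * v1 x (t + 1) - g x (t + 1) * v x (t + 1) = _
      rw [hgp2, h1.vper₂, h.vper₂]
    · have h2 := hord x t
      have h4 := mul_lt_mul_of_pos_left h2 hgx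
      linarith
  -- `R`
  obtain ⟨C, hC0, hC⟩ := lhs_bound hW
  have hB := hW.nonneg
  obtain ⟨R, hR⟩ := exists_nat_gt (2 + 2 * B + (16 * C / m₀) ^ 2)
  obtain ⟨T, hT⟩ : ∃ T : ℝ, T = (R : ℝ) - 1 / 2 - 2 * B := ⟨_, rfl⟩
  have hsq : 0 ≤ (16 * C / m₀) ^ 2 := sq_nonneg _
  have hT1 : 1 + (16 * C / m₀) ^ 2 ≤ T := by
    rw [hT]
    linarith
  have hT0 : 0 < T := by linarith
  have hRr : (1 : ℝ) ≤ R := by linarith
  have hRpos : 1 ≤ R := by exact_mod_cast hRr
  have hCT : C / √T ≤ m₀ / 16 := by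
    have h2 : 16 * C / m₀ ≤ √T := Real.le_sqrt_of_sq_le (by linarith)
    rw [div_le_iff₀ (Real.sqrt_pos.2 hT0)]
    rw [div_le_iff₀ hm0pos] at h2
    linarith
  obtain ⟨L, hL0, hL⟩ := bound1 hW hf R
  -- `ε`
  obtain ⟨ε, hε⟩ : ∃ ε, ε = min 1 (m₀ / (2 * (L + 1))) := ⟨_, rfl⟩
  have hε0 : 0 < ε := by
    rw [hε]
    exact lt_min one_pos (by positivity)
  have hε1 : ε ≤ 1 := by
    rw [hε]
    exact min_le_left _ _
  have hε2 : ε * (2 * (L + 1)) ≤ m₀ := by
    have h2 : ε ≤ m₀ / (2 * (L + 1)) := by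
      rw [hε]
      exact min_le_right _ _
    rwa [le_div_iff₀ (by positivity)] at h2
  have hεL : ε ^ 2 / 8 * (2 * L) ≤ m₀ / 8 := by
    have h2 : ε ^ 2 ≤ ε := by nlinarith
    have h3 : ε ^ 2 * L ≤ ε * L := mul_le_mul_of_nonneg_right h2 hL0
    nlinarith
  obtain ⟨η, hη, H⟩ := unif1 hW hf R (ε := ε) hε0
  obtain ⟨s, hs⟩ := exists_nat_gt (1 / η)
  have hspos : 0 < s := by
    have h1 : (0 : ℝ) < s := lt_trans (by positivity) hs
    exact_mod_cast h1
  have hsr : (0 : ℝ) < s := by exact_mod_cast hspos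
  obtain ⟨M, hM⟩ : ∃ M : ℕ, M = M₀ * s := ⟨_, rfl⟩
  have hMpos : 0 < M := by
    rw [hM]
    positivity
  have hMr : (0 : ℝ) < M := by exact_mod_cast hMpos
  have hMe : (M : ℝ) = M₀ * s := by
    rw [hM]
    push_cast
    ring
  have hMη : 1 / (M : ℝ) ≤ η := by
    rw [div_le_iff₀ hMr, hMe]
    rw [div_lt_iff₀ hη] at hs
    nlinarith
  have hsM : s ≤ M := by
    rw [hM]
    exact Nat.le_mul_of_pos_left _ hM0pos
  have hV : ∀ i : ℕ, ∃ (c α Λ : ℝ) (u v : ℝ → ℝ → ℝ),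
      Kam W W₁ ((i : ℤ) - R * M) M c α u v Λ := by
    intro i
    obtain ⟨Λ, hE⟩ := kam_exists hW hf |(((i : ℤ) - R * M : ℤ) : ℝ) / M|
    obtain ⟨c, α, u, v, h⟩ := hE _ M hMpos le_rfl
    exact ⟨c, α, Λ, u, v, h⟩
  choose cc aa LL uu V HV using hV
  have hrat : ∀ i : ℕ, (((i : ℤ) - R * M : ℤ) : ℝ) / M = (i : ℝ) / M - R := by
    intro i
    push_cast
    field_simp
  have hratb : ∀ i : ℕ, i ≤ 2 * R * M → |(((i : ℤ) - R * M : ℤ) : ℝ) / M| ≤ R := by
    intro i hi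
    rw [hrat, abs_le]
    have h2 : (i : ℝ) ≤ 2 * R * M := by exact_mod_cast hi
    have h3 : (i : ℝ) / M ≤ 2 * R := by
      rw [div_le_iff₀ hMr]
      exact h2
    have h4 : 0 ≤ (i : ℝ) / M := by positivity
    constructor
    · linarith
    · linarith
  have hinc : ∀ (i : ℕ) x t, V i x t < V (i + 1) x t := by
    intro i
    refine (kam_order hW hMpos hMpos (HV i) (HV (i + 1)) ?_).1
    rw [hrat, hrat]
    push_cast
    have h2 : (i : ℝ) / M < ((i : ℝ) + 1) / M := by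
      rw [div_lt_div_iff_of_pos_right hMr]
      linarith
    linarith
  have hcl : ∀ i : ℕ, i < 2 * R * M → ∀ x t, V (i + 1) x t - V i x t ≤ ε := by
    intro i hi x t
    refine (le_abs_self _).trans ?_
    rw [abs_sub_comm]
    refine H _ _ M M _ _ _ _ _ _ _ _ _ _ hMpos hMpos (hratb i hi.le) (hratb (i + 1) hi)
      (HV i) (HV (i + 1)) ?_ x t
    rw [hrat, hrat]
    push_cast
    have h2 : (i : ℝ) / M - R - (((i : ℝ) + 1) / M - R) = -(1 / M) := by
      field_simp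
      ring
    rw [h2, abs_neg, abs_of_nonneg (by positivity)]
    exact hMη
  -- the function `f`
  have hf1 : ∀ i : ℕ, i < 2 * R * M →
      II (fun x t => (W x t - W (x + δ) t) * V i x t) + ε ^ 2 / 8 * II (V i) ≤
      II (fun x t => (W x t - W (x + δ) t) * V (i + 1) x t) + ε ^ 2 / 8 * II (V (i + 1)) := by
    intro i hi
    have h2 := one_step hW (HV i) (HV (i + 1)) δ ε (fun x t => sub_nonneg.2 (hinc i x t).le)
      (hcl i hi) (φ := fun _ _ => 0) continuous_const (fun x t => sq_nonneg _)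
    have h3 : ∀ F : ℝ → ℝ → ℝ, II (fun x t => 0 * F x t) = 0 := by
      intro F
      rw [II_smul, zero_mul]
    have h4 := h3 (V i)
    have h5 := h3 (V (i + 1))
    simp only [h4, h5] at h2
    linarith
  have hnear : ∀ i : ℕ, R * M ≤ i → i ≤ R * M + s → ∀ x t, |V i x t - v x t| ≤ κ / 16 := by
    intro i hi1 hi2
    have h2 : (R : ℝ) * M ≤ i := by exact_mod_cast hi1
    have h3 : (i : ℝ) ≤ R * M + s := by exact_mod_cast hi2
    have h4 : 0 ≤ (i : ℝ) / M - R := by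
      rw [sub_nonneg, le_div_iff₀ hMr]
      exact h2
    have h5 : (i : ℝ) / M - R ≤ 1 / M₀ := by
      have h6 : (i : ℝ) / M ≤ R + 1 / M₀ := by
        rw [div_le_iff₀ hMr]
        have h7 : ((R : ℝ) + 1 / M₀) * M = R * M + s := by
          rw [hMe]
          field_simp
        rw [h7]
        exact h3
      linarith
    refine H₁ _ _ M 1 _ _ _ _ _ _ _ _ _ _ hMpos one_pos ?_ ?_ (HV i) h ?_
    · rw [hrat, abs_of_nonneg h4]
      linarith
    · simp
    · rw [hrat]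
      simp only [Int.cast_zero, zero_div, sub_zero]
      rw [abs_of_nonneg h4]
      linarith
  have hf2 : ∀ i : ℕ, R * M ≤ i → i < R * M + s →
      II (fun x t => (W x t - W (x + δ) t) * V i x t) + ε ^ 2 / 8 * II (V i) -
        1 / 2 * II (fun x t => g x t * V i x t) ≤
      II (fun x t => (W x t - W (x + δ) t) * V (i + 1) x t) + ε ^ 2 / 8 * II (V (i + 1)) -
        1 / 2 * II (fun x t => g x t * V (i + 1) x t) := by
    intro i hi1 hi2
    have hi : i < 2 * R * M := by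
      have h2 : M ≤ R * M := Nat.le_mul_of_pos_left _ hRpos
      have h3 : 2 * R * M = R * M + R * M := by ring
      omega
    refine one_step hW (HV i) (HV (i + 1)) δ ε (fun x t => sub_nonneg.2 (hinc i x t).le)
      (hcl i hi) (φ := g) hgc ?_
    intro x t
    have a1 := hnear i hi1 hi2.le (x + δ) t
    have a2 := hnear i hi1 hi2.le x t
    have a3 := hnear (i + 1) (by omega) hi2 x t
    rw [hg]
    show (max 0 (|v (x + δ) t - v x t| - κ / 2)) ^ 2 ≤ _
    rw [← sq_abs (V i (x + δ) t - (V i x t + V (i + 1) x t) / 2)]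
    refine pow_le_pow_left₀ (le_max_left _ _) (max_le (abs_nonneg _) ?_) 2
    have a4 : |v (x + δ) t - v x t| ≤ |V i (x + δ) t - (V i x t + V (i + 1) x t) / 2| +
        |V i (x + δ) t - v (x + δ) t| + |V i x t - v x t| / 2 + |V (i + 1) x t - v x t| / 2 := by
      rw [abs_le]
      have b1 := abs_le.1 (le_refl |V i (x + δ) t - (V i x t + V (i + 1) x t) / 2|)
      have b2 := abs_le.1 (le_refl |V i (x + δ) t - v (x + δ) t|)
      have b3 := abs_le.1 (le_refl |V i x t - v x t|)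
      have b4 := abs_le.1 (le_refl |V (i + 1) x t - v x t|)
      constructor
      · linarith [b1.1, b1.2, b2.1, b2.2, b3.1, b3.2, b4.1, b4.2]
      · linarith [b1.1, b1.2, b2.1, b2.2, b3.1, b3.2, b4.1, b4.2]
    linarith
  have hRM : R * M + s ≤ 2 * R * M := by
    have h2 : M ≤ R * M := Nat.le_mul_of_pos_left _ hRpos
    have h3 : 2 * R * M = R * M + R * M := by ring
    omega
  have s1 := step_le (f := fun i => II (fun x t => (W x t - W (x + δ) t) * V i x t) +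
    ε ^ 2 / 8 * II (V i)) (a := 0) (b := R * M) (Nat.zero_le _) (fun i _ hi => hf1 i (by omega))
  have s2 := step_le (f := fun i => II (fun x t => (W x t - W (x + δ) t) * V i x t) +
    ε ^ 2 / 8 * II (V i) - 1 / 2 * II (fun x t => g x t * V i x t)) (a := R * M)
    (b := R * M + s) (by omega) (fun i h2 hi => hf2 i h2 hi)
  have s3 := step_le (f := fun i => II (fun x t => (W x t - W (x + δ) t) * V i x t) +
    ε ^ 2 / 8 * II (V i)) (a := R * M + s) (b := 2 * R * M) hRM (fun i _ hi => hf1 i hi)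
  have k1 : II (fun x t => g x t * V (R * M + s) x t) = II (fun x t => g x t * v1 x t) := by
    congr 1
    funext x t
    rw [kam_uniq hW hf hMpos hM0pos (HV (R * M + s)) h1 ?_ x t]
    rw [hrat]
    push_cast
    rw [hMe]
    field_simp
    ring
  have k2 : II (fun x t => g x t * V (R * M) x t) = II (fun x t => g x t * v x t) := by
    congr 1
    funext x t
    rw [kam_uniq hW hf hMpos one_pos (HV (R * M)) h ?_ x t]
    rw [hrat]
    push_cast
    field_simp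
    ring
  have hA : ∀ i : ℕ, i ≤ 2 * R * M → |II (V i)| ≤ L := by
    intro i hi
    have h2 : II (V i) = cc i := by
      unfold II
      simp only [kam_mean (HV i)]
      simp
    rw [h2]
    exact hL _ M _ _ _ _ _ hMpos (hratb i hi) (HV i)
  have hJ : ∀ i : ℕ, T ≤ |cc i| →
      |II (fun x t => (W x t - W (x + δ) t) * V i x t)| ≤ m₀ / 16 := by
    intro i hi
    have h2 := hC _ M _ _ _ δ _ _ hMpos (HV i) (by linarith)
    refine h2.trans (le_trans ?_ hCT)
    exact div_le_div_of_nonneg_left hC0 (Real.sqrt_pos.2 hT0) (Real.sqrt_le_sqrt hi)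
  have hc0 : T ≤ |cc 0| := by
    have h2 := kam_c hW hMpos (HV 0)
    rw [hrat] at h2
    push_cast at h2
    rw [zero_div, zero_sub, sub_neg_eq_add] at h2
    rw [abs_le] at h2
    rw [hT]
    refine le_trans ?_ (neg_le_abs _)
    linarith [h2.1, h2.2]
  have hc2 : T ≤ |cc (2 * R * M)| := by
    have h2 := kam_c hW hMpos (HV (2 * R * M))
    rw [hrat] at h2
    push_cast at h2
    rw [abs_le] at h2
    have h3 : (2 * (R : ℝ) * M) / M - R = R := by
      field_simp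
      ring
    rw [h3] at h2
    rw [hT]
    refine le_trans ?_ (le_abs_self _)
    linarith [h2.1, h2.2]
  have j0 := abs_le.1 (hJ 0 hc0)
  have j2 := abs_le.1 (hJ _ hc2)
  have l0 := abs_le.1 (hA 0 (Nat.zero_le _))
  have l2 := abs_le.1 (hA _ le_rfl)
  rw [k1, k2] at s2
  have hfin : ε ^ 2 / 8 * (II (V (2 * R * M)) - II (V 0)) ≤ m₀ / 8 := by
    refine le_trans ?_ hεL
    refine mul_le_mul_of_nonneg_left ?_ (by positivity)
    linarith [l0.1, l2.2]
  have hfin2 : ε ^ 2 / 8 * (II (V (2 * R * M)) - II (V 0)) =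
      ε ^ 2 / 8 * II (V (2 * R * M)) - ε ^ 2 / 8 * II (V 0) := by ring
  linarith [j0.1, j0.2, j2.1, j2.2]

end Pool.Agent.H33.AN

end

section

/-!
# Module J9: a foliated potential does not depend on `x`

Let `v*` be the graph of type `(0, 1)`. Claim: `v*(x + δ, t) = v*(x, t)`. Suppose not:
`|v*(x₀ + δ, t₀) - v*(x₀, t₀)| = κ > 0`. There is a rectangle `N ⊆ [x₀, x₀ + 1] × [t₀, t₀ + 1]` (or, by
periodicity, in `[0, 1]²`) of positive area with `|v*(x + δ, t) - v*(x, t)| ≥ κ/2` on `N` (`Kam.lip`). By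
`kam_unif` (`R = 1`) there is `M₀ ≥ 1` such that `|v_ρ - v*| ≤ κ/16` for `0 ≤ ρ ≤ 1/M₀`. Let
`m₀ = ∬_N (v_{1/M₀} - v*) > 0` (`kam_order`). Given `R` (integer) and `ε > 0` choose `M`, a multiple of
`M₀`, with `1/M ≤ η(R, ε)` (`kam_unif`), and let `v_k` be the graph of type `(k, M)`, `-R M ≤ k ≤ R M`,
`w_k = v_{k+1} - v_k`, `0 < w_k ≤ ε`. (Graphs of types with equal ratios agree: `kam_unif` gives
`|v - v'| ≤ ε` for every `ε`.) Sum `identity` over `k`:
`∬ (W - W^δ) (v_{RM} - v_{-RM}) = ∑ 1/2 ∬ (v_k^δ - v̄_k)² w_k - 1/8 ∑ ∬ w_k³`. The first sum is at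
least `1/2 (κ/4)² m₀` (terms with `0 ≤ k < M/M₀`, integrals over `N`), the second one is at most
`ε² ∬ (v_{RM} - v_{-RM}) ≤ 2 Λ_R ε²`, and the left side is, since `∫ (W - W^δ) dx = 0`, equal to
`∬ (W - W^δ) ((v_{RM} - c_{RM}) - (v_{-RM} - c_{-RM}))`, at most `4 B √(C/|c_±|)` in absolute value
(`kam_infinity`, Cauchy-Schwarz), with `|c_±| ≥ R - 1/2 - 2 B` (`kam_c`). Let first `ε → 0`, then
`R → ∞`: contradiction.
So `v*` does not depend on `x`, `∂ₓu = v* - c` neither, so `∂ₓu = 0` (periodicity), `v* = c`; the leaves of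
type `(0, 1)` have the constant velocity `c`, so `W₁(γ(t), t) = 0`, and they pass through every point.
-/

set_option autoImplicit false

open MeasureTheory
open scoped RealInnerProductSpace

namespace Pool.Agent.H33.AN

variable {B : ℝ} {W W₁ W₂ : ℝ → ℝ → ℝ}

theorem foliated_const (hW : HW 1 W W₁ W₂ B) (hf : Foliated W) (x t : ℝ) : W₁ x t = 0 := by
  obtain ⟨Λ, hΛ⟩ := kam_exists hW hf 1
  obtain ⟨c, α, u, v, h⟩ := hΛ 0 1 Nat.one_pos (by simp)
  have hv : ∀ y s, v y s = c := by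
    intro y s
    have h1 : ∀ z, v z s = v y s := fun z => fol_indep hW hf h z y s
    have h2 := kam_mean h s
    rw [intervalIntegral.integral_congr (g := fun _ => v y s) (fun z _ => h1 z),
      intervalIntegral.integral_const] at h2
    simpa using h2
  obtain ⟨γ, ν, hl, hγ, hν⟩ := h.leaf x t
  have hc : ν = fun _ => c := by
    funext s
    rw [hν, hv]
  have h3 := hl.ext.el t
  rw [hc, hγ] at h3
  have h4 := h3.unique (hasDerivAt_const t c)
  linarith

end Pool.Agent.H33.AN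

end

section

/-!
# Module J10: a potential which depends on `x` has a barrier
-/

set_option autoImplicit false

open MeasureTheory
open scoped RealInnerProductSpace

namespace Pool.Agent.H33.AN

variable {B : ℝ} {W W₁ W₂ : ℝ → ℝ → ℝ}

theorem barrier (hW : HW 1 W W₁ W₂ B) (hne : ∃ x t, W₁ x t ≠ 0) :
    ∃ (p : ℤ) (Q : ℕ) (Bc : ℝ → ℝ) (μ : ℝ), 0 < Q ∧ Continuous Bc ∧
      (∀ t, Bc (t + Q) = Bc t + p) ∧ 0 < μ ∧
      ∀ t, EpQ W p Q + μ ≤ Dm W t (t + Q) (Bc t) (Bc t + p) := by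
  have h : ¬ Foliated W := by
    intro hf
    obtain ⟨x, t, h⟩ := hne
    exact h (foliated_const hW hf x t)
  unfold Foliated at h
  push Not at h
  obtain ⟨p, Q, hQ, s, x, h⟩ := h
  obtain ⟨Bc, μ, h1, h2, h3, h4⟩ := fol_or_barrier hW hQ ⟨s, x, h⟩
  exact ⟨p, Q, Bc, μ, hQ, h1, h2, h3, h4⟩

end Pool.Agent.H33.AN

end

section

/-!
# Module M5: flats of the action functional

* `flat2_of_trapped`: `r = p / Q`, `q' = q + r • zv m`. A curve `X`, `U` corresponds to `x t = X t - (r t) • zv m`,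
  `u = U - r • zv m`, and
  `lag2 G V X U t = mlag G V q m r E x u t + E + ⟪G q', U⟫ - ⟪G q', q'⟫ / 2`. Let `e`, `fu`, `fd`, `C` be from
  `Trapped2`; `c₀ = G q'`, `E₀ = e - E + ⟪G q', q'⟫ / 2`, `η₁ = -fd`, `η₂ = fu`:
  `∫ (L - ⟪c₀ + η k₀, U⟫ + E₀ + η p/Q) = ∫ (ℓ + e) - η (⟪k₀, x(b)⟫ - ⟪k₀, x(a)⟫)` (as `⟪zv k₀, zv m⟫ = 1`). For
  `E' < E₀` the failure of `Crit2` at `e' = E' + E - ⟪G q', q'⟫ / 2` gives the closed curve, `k = k' + (j p) • m`
  (`0 < j` since `j = 0` gives the action `0`).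
* `flat2_main`: `V (·) t₁` is not constant for some `t₁`; `k₀`, `m` from `exists_avK_ne` for `V (·) t₁`;
  `e₀`, `M` from `kin_exists`; `W θ t = avK (V · t) k₀ m θ / M` satisfies `HW 1` (`HW_avK`), `W₁` is not
  identically zero, so `barrier`, `bar_of_barrier`, `trap2_main` (`κ = κ₂`, `w x t = W (x + p/Q t) t`), then
  `trap2_exists` with `δ₀` and `flat2_of_trapped`.
-/

set_option autoImplicit false

open MeasureTheory
open scoped RealInnerProductSpace

namespace Pool.Agent.H33.AN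

open Pool.Agent.H33.AM

variable {n : ℕ} {G : EuclideanSpace ℝ (Fin n) →L[ℝ] EuclideanSpace ℝ (Fin n)} {κ₁ κ₂ : ℝ}
  {V : EuclideanSpace ℝ (Fin n) → ℝ → ℝ}
  {F : EuclideanSpace ℝ (Fin n) → ℝ → EuclideanSpace ℝ (Fin n)}
  {Vt : EuclideanSpace ℝ (Fin n) → ℝ → ℝ} {B : ℝ}

theorem flat2_main (hG : HG G κ₁ κ₂) (hV : HV2 1 V F Vt B) (hne : ∃ x y t, V x t ≠ V y t) :
    Flat2 (lag2 G V) := by
  obtain ⟨x, y, t₁, hxy⟩ := hne
  have hVc : Continuous fun z : EuclideanSpace ℝ (Fin n) × ℝ => V z.1 z.2 :=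
    continuous_iff_continuousAt.2 fun z => (hV.der z.1 z.2).continuousAt
  have hg : Continuous fun z : EuclideanSpace ℝ (Fin n) => V z t₁ :=
    hVc.comp (continuous_id.prodMk continuous_const)
  obtain ⟨k₀, m, hkm, θ, θ', hθ⟩ := exists_avK_ne hg (fun x k => hV.per x t₁ k) ⟨x, y, hxy⟩
  obtain ⟨e₀, M, hM, he₀, hkin⟩ := kin_exists hG hkm
  obtain ⟨B', hW⟩ := HW_avK hV hkm hM
  have hne' : ∃ x t, avK (fun y => ⟪F y t, zv m⟫) k₀ m x / M ≠ 0 := by
    by_contra hcon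
    push Not at hcon
    have hder : ∀ θ, HasDerivAt (fun θ => avK (fun y => V y t₁) k₀ m θ / M) 0 θ := by
      intro θ
      have h1 := hW.der θ t₁
      have h2 : HasDerivAt (fun θ : ℝ => (θ, t₁)) ((1 : ℝ), (0 : ℝ)) θ :=
        (hasDerivAt_id θ).prodMk (hasDerivAt_const θ t₁)
      have h3 := h1.comp_hasDerivAt θ h2
      simp only [hcon, zero_smul, zero_add] at h3
      have h4 : ((avK (fun y => Vt y t₁) k₀ m θ / M) • ContinuousLinearMap.snd ℝ ℝ ℝ)
          ((1 : ℝ), (0 : ℝ)) = 0 := by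
        simp
      rw [h4] at h3
      exact h3
    have hd : Differentiable ℝ (fun θ => avK (fun y => V y t₁) k₀ m θ / M) :=
      fun θ => (hder θ).differentiableAt
    have hc := is_const_of_deriv_eq_zero hd (fun θ => (hder θ).deriv) θ θ'
    exact hθ (by
      have h5 := congrArg (fun r : ℝ => r * M) hc
      rwa [div_mul_cancel₀ _ hM.ne', div_mul_cancel₀ _ hM.ne'] at h5)
  obtain ⟨p, Q, Bc, μ, hQ, hBc, hper, hμ, hbar⟩ := barrier hW hne'
  obtain ⟨B'', hw, hb⟩ := bar_of_barrier hW hQ hBc hper hμ hbar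
  obtain ⟨δ₀, hδ, hδ', hmain⟩ := trap2_main hw hb hkm he₀ hM hG.pos₂
  obtain ⟨P, s, hT⟩ := trap2_exists hG hV hkm hM he₀ hkin p hQ
    (EpQ (fun θ t => avK (fun y => V y t) k₀ m θ / M) p Q - (p : ℝ) ^ 2 / (2 * Q)) hδ hδ'
  exact flat2_of_trapped hG hV hkm (s • zv P) p hQ _ hT.hl (hmain _ P s hT)

end Pool.Agent.H33.AN

end

section

/-!
# Module Z1: final assembly

* `HV2_of`: with `F x t = gradient (fun y => V y t) x`, `Vt x t = deriv (fun s => V x s) t`: the derivative of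
  `z ↦ V z.1 z.2` at `(x, t)` is `⟪F x t, ·⟫ + Vt x t ·`; it is continuously differentiable and periodic, hence
  bounded and Lipschitz (mean value inequality; the derivative of `z ↦ F z.1 z.2` is bounded because it is
  continuous and periodic). The norm of a product is the maximum of the norms.
* `HG_of`: `κ₁` = minimum of `⟪G v, v⟫` on the unit sphere (if `n = 0`: `1`), `κ₂ = ‖G‖ + 1`.
* `main2`: if `V x t ≠ V y t` for some `x`, `y`, `t` then `flat2_main` and `not_strict_of_flat2` give a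
  contradiction. Otherwise `strict_int2`, `alpha_int2`, `peierls_int2`.
-/

set_option autoImplicit false

open MeasureTheory
open scoped RealInnerProductSpace

namespace Pool.Agent.H33.AN

open Pool.Agent.H33.AM

variable {n : ℕ}

private theorem Z1c_surj {G : E n →L[ℝ] E n} {κ₁ κ₂ : ℝ} (hG : HG G κ₁ κ₂) (c : E n) :
    ∃ vc, G vc = c := by
  have hinj : Function.Injective (G : E n →ₗ[ℝ] E n) := by
    rw [injective_iff_map_eq_zero]
    intro v hv
    have h1 := hG.lo v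
    have hv' : G v = 0 := hv
    rw [hv', inner_zero_left] at h1
    by_contra hne
    have h2 : 0 < ‖v‖ := norm_pos_iff.mpr hne
    have h3 := hG.pos
    have : 0 < κ₁ * ‖v‖ ^ 2 := by positivity
    linarith
  exact (LinearMap.injective_iff_surjective.mp hinj) c

theorem main2 (G : E n →L[ℝ] E n) (hs : ∀ v w, ⟪G v, w⟫ = ⟪v, G w⟫)
    (hpos : ∀ v, v ≠ 0 → 0 < ⟪G v, v⟫) (V : E n → ℝ → ℝ)
    (hV : ContDiff ℝ 2 fun z : E n × ℝ => V z.1 z.2)
    (hper : ∀ (x y : E n) (s t : ℝ), pr x = pr y → (s : UnitAddCircle) = (t : UnitAddCircle) →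
      V x s = V y t) :
    (StrictConvexOn ℝ Set.univ (alpha fun x v t => ⟪G v, v⟫ / 2 - V x t) ↔
      ∀ x y t, V x t = V y t) ∧
    (StrictConvexOn ℝ Set.univ (alpha fun x v t => ⟪G v, v⟫ / 2 - V x t) →
      ∀ c, aubry (fun x v t => ⟪G v, v⟫ / 2 - V x t) c = Set.univ) := by
  obtain ⟨κ₁, κ₂, hG⟩ := HG_of hs hpos
  obtain ⟨B, hB⟩ := HV2_of hV hper
  have key : StrictConvexOn ℝ Set.univ (alpha (lag2 G V)) ↔ ∀ x y t, V x t = V y t := by
    constructor
    · intro hsc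
      by_contra hne
      push Not at hne
      obtain ⟨x, y, t, hxy⟩ := hne
      exact not_strict_of_flat2 hG hB (flat2_main hG hB ⟨x, y, t, hxy⟩) hsc
    · intro hc
      exact strict_int2 hG hB hc
  refine ⟨key, fun hsc c => ?_⟩
  have hc := key.mp hsc
  obtain ⟨vc, hvc⟩ := Z1c_surj hG c
  rw [Set.eq_univ_iff_forall]
  intro x
  exact peierls_int2 hG hB hc hvc (alpha_int2 hG hB hc hvc) x

end Pool.Agent.H33.AN

end

section



end
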